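import Mathlib
import Pool.Agent.Lib.H35P.B1
import Pool.Agent.Lib.H35P.Red
import Pool.Agent.Lib.H55P.EDef
import Pool.Agent.Lib.H55P.Sel
import Pool.Agent.Lib.H55P.TD

/-!
# H55K: elliptic curves with complex multiplication by the integers of a field of class number one (definitions)

F is one of the nine imaginary quadratic fields of class number one, O = 𝓞 F, Ω an algebraic closure of F. The curve is
y^2 = x^3 + A x + B with A, B in F, and the lattice of its periods is Om O. See PROOF.md.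
-/

open NumberField IsDedekindDomain WeierstrassCurve

namespace H55K

open H55P (IQ embF eF LF Per IsHecke Pt ac Inert Dec)
open H35P (WAB Ker tt)

section coords

variable {k : Type} [Field k] {W : WeierstrassCurve k}

/-- The x-coordinate (0 at infinity). -/
noncomputable def xc : W.toAffine.Point → k
  | .zero => 0
  | .some x _ _ => x

/-- The y-coordinate (0 at infinity). -/
noncomputable def yc : W.toAffine.Point → k
  | .zero => 0
  | .some _ y _ => y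

end coords

section act

variable {F : Type} [Field F] {Ω : Type} [Field Ω] [DecidableEq Ω] [Algebra F Ω]

/-- The image in Ω of an integer of F. -/
noncomputable abbrev ak (Ω : Type) [Field Ω] [Algebra F Ω] (a : 𝓞 F) : Ω := algebraMap F Ω (a : F)

variable {W : WeierstrassCurve F}

/-- The points killed by b. -/
def Tor (act : 𝓞 F →+* AddMonoid.End (Pt W Ω)) (b : 𝓞 F) : AddSubgroup (Pt W Ω) :=
  AddMonoidHom.ker (act b : Pt W Ω →+ Pt W Ω)

/-- S is the set of the nonzero points killed by b. -/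
def TN (act : 𝓞 F →+* AddMonoid.End (Pt W Ω)) (b : 𝓞 F) (S : Finset (Pt W Ω)) : Prop :=
  ∀ T, T ∈ S ↔ act b T = 0 ∧ T ≠ 0

/-- The primes of F above which y^2 = x^3 + A x + B is good, of residue characteristic at least 5: the valuation ring V. -/
structure GV (A B : F) (V : ValuationSubring Ω) : Prop where
  a : algebraMap F Ω A ∈ V
  b : algebraMap F Ω B ∈ V
  two : V.valuation (2 : Ω) = 1
  three : V.valuation (3 : Ω) = 1
  disc : V.valuation (algebraMap F Ω (4 * A ^ 3 + 27 * B ^ 2)) = 1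

/-- A good model at the valuation ring V over the algebraically closed field Ω: Kg is the kernel of its reduction, u the scaling factor. -/
structure GMod (W : WeierstrassCurve F) (V : ValuationSubring Ω) (Kg : AddSubgroup (Pt W Ω)) (u : Ω) : Prop where
  une : u ≠ 0
  tors : ∀ n : ℕ, V.valuation (n : Ω) = 1 → ∀ T ∈ Kg, n • T = 0 → T = 0
  diff : ∀ P Q : Pt W Ω, P ∉ Kg → Q ∉ Kg → P - Q ∉ Kg → P + Q ∉ Kg →
    V.valuation (xc P - xc Q) = V.valuation u ^ 2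
  far : ∀ P P' Q : Pt W Ω, P ∉ Kg → P' ∉ Kg → Q ∈ Kg → Q ≠ 0 →
    V.valuation (xc P - xc Q) = V.valuation (xc P' - xc Q)
  inert : ∀ s : Ω ≃ₐ[F] Ω, Inert V s →
    (∃ T₁ T₂ : Pt W Ω, T₁ ∉ Kg ∧ T₂ ∉ Kg ∧ T₁ - T₂ ∉ Kg ∧ T₁ + T₂ ∉ Kg ∧ T₁ + T₁ ∉ Kg ∧
      ac W s T₁ = T₁ ∧ ac W s T₂ = T₂) → ∀ P : Pt W Ω, ac W s P - P ∈ Kg

end act

/-- The complex multiplication: the integers of F act on the points over Ω of y^2 = x^3 + A x + B; j is a complex embedding of Ω. -/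
structure CMA (F : Type) [Field F] [NumberField F] [IQ F] (A B : F) (Om : ℂ) {Ω : Type} [Field Ω] [DecidableEq Ω]
    [Algebra F Ω] (j : Ω →+* ℂ) (act : 𝓞 F →+* AddMonoid.End (Pt (WAB A B) Ω)) : Prop where
  disc : 4 * A ^ 3 + 27 * B ^ 2 ≠ 0
  per : Per F (embF F A) (embF F B) Om
  ovr : ∀ x : F, j (algebraMap F Ω x) = embF F x
  gal : ∀ (s : Ω ≃ₐ[F] Ω) (a : 𝓞 F) (P : Pt (WAB A B) Ω),
    ac (WAB A B) s (act a P) = act a (ac (WAB A B) s P)
  surj : ∀ b : 𝓞 F, b ≠ 0 → ∀ P : Pt (WAB A B) Ω, ∃ Q, act b Q = P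
  gen : ∀ b : 𝓞 F, b ≠ 0 → ∃ T₀ ∈ Tor act b, (∀ T ∈ Tor act b, ∃ a, T = act a T₀) ∧
    (∀ a, act a T₀ = 0 ↔ b ∣ a) ∧ ∀ a, ¬ b ∣ a →
      j (xc (act a T₀)) = (LF F).weierstrassP (eF F a / eF F b) / Om ^ 2 ∧
      j (yc (act a T₀)) = (LF F).derivWeierstrassP (eF F a / eF F b) / (2 * Om ^ 3)
  e1x : ∀ (a : 𝓞 F) (S : Finset (Pt (WAB A B) Ω)), a ≠ 0 → TN act a S → ∀ P, act a P ≠ 0 →
    ak Ω a ^ 2 * xc (act a P) = xc P + ∑ T ∈ S, (xc (P + T) - xc T)
  e1y : ∀ (a : 𝓞 F) (S : Finset (Pt (WAB A B) Ω)), a ≠ 0 → TN act a S → ∀ P, act a P ≠ 0 →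
    ak Ω a ^ 3 * yc (act a P) = yc P + ∑ T ∈ S, yc (P + T)
  e2 : ∀ (b : 𝓞 F) (S : Finset (Pt (WAB A B) Ω)), b ≠ 0 → TN act b S → ∀ X Y, act b X ≠ 0 →
    act b Y ≠ 0 → ak Ω b ^ 2 * (xc (act b X) - xc (act b Y)) * ∏ R ∈ S, (xc R - xc Y) =
      (xc X - xc Y) * ∏ R ∈ S, (xc (X + R) - xc Y)

/-- The complete data: complex multiplication, the Hecke character ψ of modulus m of the curve (its values at the primes of
degree one are the Frobenius elements), a prime number l ≥ 5, unramified in F, of good reduction and prime to m,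
and an integral j-invariant. -/
structure Dta {F : Type} [Field F] [NumberField F] [IQ F] (A B : F) (Om : ℂ) {Ω : Type} [Field Ω] [DecidableEq Ω]
    [Algebra F Ω] (j : Ω →+* ℂ) (act : 𝓞 F →+* AddMonoid.End (Pt (WAB A B) Ω))
    (m : Ideal (𝓞 F)) (ψ : Ideal (𝓞 F) →*₀ 𝓞 F) (l : ℕ) : Prop where
  cma : CMA F A B Om j act
  hecke : IsHecke m ψ
  prime : l.Prime
  five : 5 ≤ l
  unr : ∀ v : HeightOneSpectrum (𝓞 F), (l : 𝓞 F) ∉ v.asIdeal ^ 2
  cop : IsCoprime m (Ideal.span {(l : 𝓞 F)})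
  good : ∀ V : ValuationSubring Ω, V.valuation (l : Ω) < 1 → GV A B V
  gmod : ∀ V : ValuationSubring Ω, ∃ (Kg : AddSubgroup (Pt (WAB A B) Ω)) (u : Ω), GMod (WAB A B) V Kg u
  fin : ∃ S : Set (HeightOneSpectrum (𝓞 F)), S.Finite ∧ ∀ v ∉ S, ∀ V : ValuationSubring Ω,
    (∀ a : 𝓞 F, a ∈ v.asIdeal → V.valuation (ak Ω a) < 1) → GV A B V
  frob : ∃ S : Set (HeightOneSpectrum (𝓞 F)), S.Finite ∧ ∀ v ∉ S, (Ideal.absNorm v.asIdeal).Prime →
    ∀ V : ValuationSubring Ω, (∀ a : 𝓞 F, a ∈ v.asIdeal → V.valuation (ak Ω a) < 1) →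
      ∀ s : Ω ≃ₐ[F] Ω, (∀ x ∈ V, V.valuation (s x - x ^ Ideal.absNorm v.asIdeal) < 1) →
        ∀ n : ℕ, V.valuation (n : Ω) = 1 → ∀ T : Pt (WAB A B) Ω, n • T = 0 →
          ac (WAB A B) s T = act (ψ v.asIdeal) T

end H55K
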