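import Mathlib
import Pool.Agent.Lib.H55P.F0

/-! # H55K: complex conjugation on the integers of F -/

open NumberField IsDedekindDomain

namespace H55K

open H55P (IQ embF eF Nm eF_inj Nm_eq)

variable {F : Type} [Field F] [NumberField F] [IQ F]

theorem d1_emb (F : Type) [Field F] [NumberField F] [IQ F] (f g : F →+* ℂ) (hf : f ≠ embF F) (hg : g ≠ embF F) :
    f = g := by
  classical
  have h1 : Fintype.card (F →+* ℂ) = 2 := by
    rw [NumberField.Embeddings.card F ℂ, IQ.deg]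
  by_contra hne
  have h2 : ({embF F, f, g} : Finset (F →+* ℂ)).card = 3 := by
    rw [Finset.card_insert_of_notMem, Finset.card_insert_of_notMem, Finset.card_singleton]
    · rwa [Finset.mem_singleton]
    · rw [Finset.mem_insert, Finset.mem_singleton]
      rintro (h | h)
      · exact hf h.symm
      · exact hg h.symm
  have h3 := Finset.card_le_univ ({embF F, f, g} : Finset (F →+* ℂ))
  rw [h1, h2] at h3
  omega

theorem d1_conj_ne (F : Type) [Field F] [NumberField F] [IQ F] : (starRingEnd ℂ).comp (embF F) ≠ embF F := by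
  intro h
  obtain ⟨x, hx⟩ := IQ.im (F := F)
  apply hx
  exact Complex.conj_eq_iff_im.1 (RingHom.congr_fun h x)

theorem d1_sigma (F : Type) [Field F] [NumberField F] [IQ F] : ∃ σ : F ≃ₐ[ℚ] F, ∀ x, embF F (σ x) =
    (starRingEnd ℂ) (embF F x) := by
  have hq : Algebra.IsQuadraticExtension ℚ F := ⟨IQ.deg⟩
  have hG : IsGalois ℚ F := inferInstance
  have hc : Nat.card (F ≃ₐ[ℚ] F) = 2 := by
    rw [IsGalois.card_aut_eq_finrank, IQ.deg]
  have hn : Nontrivial (F ≃ₐ[ℚ] F) := Finite.one_lt_card_iff_nontrivial.1 (by rw [hc]; norm_num)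
  obtain ⟨σ, hσ⟩ := exists_ne (1 : F ≃ₐ[ℚ] F)
  refine ⟨σ, fun x => ?_⟩
  have h1 : (embF F).comp (σ : F →+* F) ≠ embF F := by
    intro h
    apply hσ
    ext x
    exact (embF F).injective (RingHom.congr_fun h x)
  exact RingHom.congr_fun (d1_emb F _ _ h1 (d1_conj_ne F)) x

theorem exists_cj (F : Type) [Field F] [NumberField F] [IQ F] : ∃ c : 𝓞 F ≃+* 𝓞 F,
    ∀ x, eF F (c x) = (starRingEnd ℂ) (eF F x) := by
  obtain ⟨σ, hσ⟩ := d1_sigma F
  exact ⟨RingOfIntegers.mapRingEquiv σ, fun x => hσ x⟩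

/-- Complex conjugation on the integers of F. -/
noncomputable def cj : 𝓞 F ≃+* 𝓞 F := (exists_cj F).choose

theorem e_cj (x : 𝓞 F) : eF F (cj x) = (starRingEnd ℂ) (eF F x) := (exists_cj F).choose_spec x

theorem cj_cj (x : 𝓞 F) : cj (cj x) = x := by
  apply eF_inj
  rw [e_cj, e_cj, Complex.conj_conj]

theorem mul_cj (x : 𝓞 F) : x * cj x = (Nm x : 𝓞 F) := by
  apply eF_inj
  rw [map_mul, e_cj, Complex.mul_conj, Complex.normSq_eq_norm_sq, ← Nm_eq, map_natCast]
  simp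

theorem Nm_cj (x : 𝓞 F) : Nm (cj x) = Nm x := by
  have h1 := Nm_eq (cj x)
  rw [e_cj, RCLike.norm_conj, ← Nm_eq] at h1
  exact_mod_cast h1

theorem cj_prime {x : 𝓞 F} (h : Prime x) : Prime (cj x) := (MulEquiv.prime_iff cj).2 h

theorem cj_dvd {x y : 𝓞 F} : cj x ∣ y ↔ x ∣ cj y := by
  constructor
  · rintro ⟨z, rfl⟩
    exact ⟨cj z, by rw [map_mul, cj_cj]⟩
  · rintro ⟨z, hz⟩
    refine ⟨cj z, ?_⟩
    rw [← cj_cj y, hz, map_mul]

theorem cj_nat (n : ℕ) : cj (n : 𝓞 F) = (n : 𝓞 F) := map_natCast _ _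

theorem cj_int (n : ℤ) : cj (n : 𝓞 F) = (n : 𝓞 F) := map_intCast _ _

theorem Nm_mul (x y : 𝓞 F) : Nm (x * y) = Nm x * Nm y := by
  unfold Nm
  rw [← Ideal.span_singleton_mul_span_singleton, map_mul]

theorem Nm_nat (n : ℕ) : Nm (n : 𝓞 F) = n ^ 2 := by
  have h1 := Nm_eq (n : 𝓞 F)
  rw [map_natCast, Complex.norm_natCast] at h1
  exact_mod_cast h1

end H55K
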