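import Mathlib
import Pool.Agent.Lib.H55K.D0
import Pool.Agent.Lib.H55K.D1

/-! # H55K: the action on the kernel of reduction -/

open NumberField IsDedekindDomain WeierstrassCurve

namespace H55K

open H55P (IQ embF eF LF Per IsHecke Pt ac Inert Dec Nm)
open H35P (WAB Ker tt)


variable {F : Type} [Field F] [NumberField F] [IQ F] {A B : F} {Om : ℂ} {Ω : Type} [Field Ω] [DecidableEq Ω]
  [Algebra F Ω] {j : Ω →+* ℂ} {act : 𝓞 F →+* AddMonoid.End (Pt (WAB A B) Ω)} {V : ValuationSubring Ω}

/-- Chunk G4A (S/M). gen gives a bijection from O/b (b ≠ 0) to Tor act b: a ↦ act a T₀ depends only on a modulo b; Nat.card (O ⧸ span {b}) = Nm b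
(Submodule.cardQuot / Ideal.absNorm_apply; Nm b = absNorm (span {b})). -/
theorem tor_card (h : CMA F A B Om j act) {b : 𝓞 F} (hb : b ≠ 0) : Nat.card (Tor act b) = Nm b := by
  obtain ⟨T₀, hT₀, h1, h2, -⟩ := h.gen b hb
  let f : 𝓞 F →+ Pt (WAB A B) Ω :=
    { toFun := fun a => act a T₀
      map_zero' := by rw [map_zero]; rfl
      map_add' := fun a c => by rw [map_add]; rfl }
  have hf : ∀ a, f a = act a T₀ := fun a => rfl
  have hker : f.ker = (Ideal.span {b} : Ideal (𝓞 F)).toAddSubgroup := by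
    ext a
    rw [AddMonoidHom.mem_ker, hf, h2]
    exact Ideal.mem_span_singleton.symm
  have hran : f.range = Tor act b := by
    ext T
    rw [AddMonoidHom.mem_range]
    constructor
    · rintro ⟨a, rfl⟩
      show act b (act a T₀) = 0
      have e : act b (act a T₀) = act a (act b T₀) := by
        have e1 : act (b * a) = act (a * b) := by rw [mul_comm]
        rw [map_mul, map_mul] at e1
        exact congrArg (fun φ : AddMonoid.End (Pt (WAB A B) Ω) => φ T₀) e1
      have e2 : act b T₀ = 0 := hT₀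
      rw [e, e2, map_zero]
    · intro hT
      obtain ⟨a, ha⟩ := h1 T hT
      exact ⟨a, ha.symm⟩
  have h3 := AddSubgroup.index_ker f
  rw [hker, hran] at h3
  rw [← h3]
  rfl

/-- Chunk G4A. The finite set of the nonzero elements of Tor act b. -/
theorem exists_TN (h : CMA F A B Om j act) {b : 𝓞 F} (hb : b ≠ 0) :
    ∃ S : Finset (Pt (WAB A B) Ω), TN act b S ∧ S.card = Nm b - 1 := by
  classical
  have hc := tor_card h hb
  have hN : Nm b ≠ 0 := by
    intro h0
    have h1 : Ideal.absNorm (Ideal.span {b} : Ideal (𝓞 F)) = 0 := h0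
    rw [Ideal.absNorm_eq_zero_iff, Ideal.span_singleton_eq_bot] at h1
    exact hb h1
  have hfin : Finite (Tor act b) := (Nat.card_ne_zero.1 (by rw [hc]; exact hN)).2
  have hfin2 : (Tor act b : Set (Pt (WAB A B) Ω)).Finite := hfin
  refine ⟨hfin2.toFinset.erase 0, fun T => ?_, ?_⟩
  · rw [Finset.mem_erase, Set.Finite.mem_toFinset, and_comm]
    exact Iff.rfl
  · have h0 : (0 : Pt (WAB A B) Ω) ∈ hfin2.toFinset := by
      rw [Set.Finite.mem_toFinset]
      exact (Tor act b).zero_mem
    rw [Finset.card_erase_of_mem h0, ← Nat.card_eq_card_finite_toFinset, ← hc]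
    rfl

/-- Chunk G4A. act (Nm b) = act (b * cj b) (mul_cj), act n = n • (map_natCast). -/
theorem tor_nm {b : 𝓞 F} {T : Pt (WAB A B) Ω} (hT : act b T = 0) : Nm b • T = 0 := by
  have h1 : act (Nm b : 𝓞 F) T = Nm b • T := by
    rw [map_natCast]
    rfl
  have h2 : act (Nm b : 𝓞 F) T = act (cj b) (act b T) := by
    have e1 : (Nm b : 𝓞 F) = cj b * b := by rw [← mul_cj, mul_comm]
    rw [e1, map_mul]
    rfl
  rw [← h1, h2, hT, map_zero]

end H55K
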