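import Mathlib
import Pool.Agent.Lib.H35P.Red
import Pool.Agent.Lib.H55K.D0

/-! # H55K: coordinates of the points of y^2 = x^3 + A x + B -/

open NumberField IsDedekindDomain WeierstrassCurve

namespace H55K

open H55P (IQ embF eF LF Per IsHecke Pt ac Inert Dec Nm)
open H35P (WAB Ker tt)

section gen

variable {k : Type} [Field k] {W : WeierstrassCurve k}

theorem xc_zero : xc (0 : W.toAffine.Point) = 0 := rfl

theorem yc_zero : yc (0 : W.toAffine.Point) = 0 := rfl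

theorem xc_some {x y : k} (h : W.toAffine.Nonsingular x y) :
    xc (Affine.Point.some x y h : W.toAffine.Point) = x := rfl

theorem yc_some {x y : k} (h : W.toAffine.Nonsingular x y) :
    yc (Affine.Point.some x y h : W.toAffine.Point) = y := rfl

theorem tt_eq (P : W.toAffine.Point) : tt P = xc P / yc P := by
  rcases P with _ | ⟨x, y, h⟩
  · show (0 : k) = 0 / 0
    simp
  · rfl

theorem pt_ext {P Q : W.toAffine.Point} (hP : P ≠ 0) (hQ : Q ≠ 0) (hx : xc P = xc Q) (hy : yc P = yc Q) :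
    P = Q := by
  rcases P with _ | ⟨x, y, h⟩
  · exact absurd rfl hP
  rcases Q with _ | ⟨x', y', h'⟩
  · exact absurd rfl hQ
  change x = x' at hx
  change y = y' at hy
  subst hx hy
  rfl

theorem xc_neg (P : W.toAffine.Point) : xc (-P) = xc P := by
  rcases P with _ | ⟨x, y, h⟩
  · rfl
  · rfl

theorem neg_ne {P : W.toAffine.Point} (hP : P ≠ 0) : -P ≠ 0 := by
  rcases P with _ | ⟨x, y, h⟩
  · exact absurd rfl hP
  · exact Affine.Point.some_ne_zero _

theorem ker_zero (V : ValuationSubring k) : Ker V (0 : W.toAffine.Point) := trivial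

theorem ker_iff (V : ValuationSubring k) {P : W.toAffine.Point} (hP : P ≠ 0) : Ker V P ↔ 1 < V.valuation (xc P) := by
  rcases P with _ | ⟨x, y, h⟩
  · exact absurd rfl hP
  · exact Iff.rfl

theorem ker_of (V : ValuationSubring k) {P : W.toAffine.Point} (h : 1 < V.valuation (xc P)) : Ker V P := by
  rcases P with _ | ⟨x, y, h'⟩
  · trivial
  · exact h

/-- Points outside the kernel of reduction. -/
theorem not_ker (V : ValuationSubring k) {P : W.toAffine.Point} (h : ¬ Ker V P) :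
    P ≠ 0 ∧ V.valuation (xc P) ≤ 1 := by
  have h0 : P ≠ 0 := by
    rintro rfl
    exact h trivial
  rw [ker_iff V h0] at h
  exact ⟨h0, not_lt.1 h⟩

end gen

section short

variable {k : Type} [Field k] {W : WeierstrassCurve k} [W.IsShortNF]

theorem s_eq (x y : k) : W.toAffine.Equation x y ↔ y ^ 2 = x ^ 3 + W.a₄ * x + W.a₆ := by
  rw [Affine.equation_iff]
  simp only [W.a₁_of_isShortNF, W.a₂_of_isShortNF, W.a₃_of_isShortNF]
  ring_nf

theorem s_Δ : W.Δ = -16 * (4 * W.a₄ ^ 3 + 27 * W.a₆ ^ 2) := by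
  unfold WeierstrassCurve.Δ WeierstrassCurve.b₂ WeierstrassCurve.b₄ WeierstrassCurve.b₆ WeierstrassCurve.b₈
  rw [W.a₁_of_isShortNF, W.a₂_of_isShortNF, W.a₃_of_isShortNF]
  ring

theorem eqn {P : W.toAffine.Point} (hP : P ≠ 0) : yc P ^ 2 = xc P ^ 3 + W.a₄ * xc P + W.a₆ := by
  rcases P with _ | ⟨x, y, h⟩
  · exact absurd rfl hP
  · exact (s_eq x y).1 h.1

theorem yc_neg (P : W.toAffine.Point) : yc (-P) = -yc P := by
  rcases P with _ | ⟨x, y, h⟩
  · exact neg_zero.symm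
  · show W.toAffine.negY x y = -y
    rw [Affine.negY]
    simp only [W.a₁_of_isShortNF, W.a₃_of_isShortNF]
    ring

theorem tt_neg (P : W.toAffine.Point) : tt (-P) = -tt P := by
  rw [tt_eq, tt_eq, xc_neg, yc_neg, div_neg]

theorem xc_eq {P Q : W.toAffine.Point} (hP : P ≠ 0) (hQ : Q ≠ 0) (h : xc P = xc Q) : P = Q ∨ P = -Q := by
  have h1 := eqn hP
  have h2 := eqn hQ
  rw [h, ← h2] at h1
  have h3 : (yc P - yc Q) * (yc P + yc Q) = 0 := by linear_combination h1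
  rcases mul_eq_zero.1 h3 with h4 | h4
  · exact Or.inl (pt_ext hP hQ h (sub_eq_zero.1 h4))
  · right
    refine pt_ext hP (neg_ne hQ) ?_ ?_
    · rw [xc_neg, h]
    · rw [yc_neg]
      linear_combination h4

variable [DecidableEq k]

theorem add_coords {P Q : W.toAffine.Point} (hP : P ≠ 0) (hQ : Q ≠ 0) (h : xc P ≠ xc Q) :
    P + Q ≠ 0 ∧
    xc (P + Q) = ((yc P - yc Q) / (xc P - xc Q)) ^ 2 - xc P - xc Q ∧
    yc (P + Q) = -((yc P - yc Q) / (xc P - xc Q) * (xc (P + Q) - xc P) + yc P) := by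
  rcases P with _ | ⟨x₁, y₁, h₁⟩
  · exact absurd rfl hP
  rcases Q with _ | ⟨x₂, y₂, h₂⟩
  · exact absurd rfl hQ
  change x₁ ≠ x₂ at h
  have e1 : Affine.Point.some x₁ y₁ h₁ + Affine.Point.some x₂ y₂ h₂ =
      Affine.Point.some _ _ (Affine.nonsingular_add h₁ h₂ fun hxy => h hxy.1) :=
    Affine.Point.add_some fun hxy => h hxy.1
  have hs : W.toAffine.slope x₁ x₂ y₁ y₂ = (y₁ - y₂) / (x₁ - x₂) :=
    Affine.slope_of_X_ne h
  have hx : xc (Affine.Point.some x₁ y₁ h₁ + Affine.Point.some x₂ y₂ h₂) =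
      ((y₁ - y₂) / (x₁ - x₂)) ^ 2 - x₁ - x₂ := by
    rw [e1]
    show W.toAffine.addX x₁ x₂ _ = _
    rw [Affine.addX, hs]
    simp only [W.a₁_of_isShortNF, W.a₂_of_isShortNF]
    ring
  refine ⟨?_, hx, ?_⟩
  · rw [e1]
    exact Affine.Point.some_ne_zero _
  · rw [hx]
    rw [e1]
    show W.toAffine.addY x₁ x₂ y₁ _ = -((y₁ - y₂) / (x₁ - x₂) *
      (((y₁ - y₂) / (x₁ - x₂)) ^ 2 - x₁ - x₂ - x₁) + y₁)
    rw [Affine.addY, Affine.negAddY, Affine.negY, Affine.addX, hs]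
    simp only [W.a₁_of_isShortNF, W.a₂_of_isShortNF, W.a₃_of_isShortNF]
    ring

theorem dbl_coords {P : W.toAffine.Point} (hP : P ≠ 0) (h : 2 * yc P ≠ 0) :
    P + P ≠ 0 ∧
    xc (P + P) = ((3 * xc P ^ 2 + W.a₄) / (2 * yc P)) ^ 2 - 2 * xc P ∧
    yc (P + P) = -((3 * xc P ^ 2 + W.a₄) / (2 * yc P) * (xc (P + P) - xc P) + yc P) := by
  rcases P with _ | ⟨x, y, h₁⟩
  · exact absurd rfl hP
  change 2 * y ≠ 0 at h
  have h2 : y ≠ W.toAffine.negY x y := by
    rw [Affine.negY]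
    simp only [W.a₁_of_isShortNF, W.a₃_of_isShortNF]
    intro h3
    apply h
    linear_combination h3
  have hxy : ¬(x = x ∧ y = W.toAffine.negY x y) := fun h' => h2 h'.2
  have e1 : Affine.Point.some x y h₁ + Affine.Point.some x y h₁ =
      Affine.Point.some _ _ (Affine.nonsingular_add h₁ h₁ hxy) :=
    Affine.Point.add_some hxy
  have hs : W.toAffine.slope x x y y = (3 * x ^ 2 + W.a₄) / (2 * y) := by
    rw [Affine.slope_of_Y_ne rfl h2, Affine.negY]
    simp only [W.a₁_of_isShortNF, W.a₂_of_isShortNF, W.a₃_of_isShortNF]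
    congr 1
    · ring
    · ring
  have hx : xc (Affine.Point.some x y h₁ + Affine.Point.some x y h₁) =
      ((3 * x ^ 2 + W.a₄) / (2 * y)) ^ 2 - 2 * x := by
    rw [e1]
    show W.toAffine.addX x x _ = _
    rw [Affine.addX, hs]
    simp only [W.a₁_of_isShortNF, W.a₂_of_isShortNF]
    ring
  refine ⟨?_, hx, ?_⟩
  · rw [e1]
    exact Affine.Point.some_ne_zero _
  · rw [hx]
    rw [e1]
    show W.toAffine.addY x x y _ = -((3 * x ^ 2 + W.a₄) / (2 * y) *
      (((3 * x ^ 2 + W.a₄) / (2 * y)) ^ 2 - 2 * x - x) + y)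
    rw [Affine.addY, Affine.negAddY, Affine.negY, Affine.addX, hs]
    simp only [W.a₁_of_isShortNF, W.a₂_of_isShortNF, W.a₃_of_isShortNF]
    ring

omit [DecidableEq k] in
/-- A point with given coordinates. -/
theorem exists_pt (hΔ : W.Δ ≠ 0) {x y : k} (h : y ^ 2 = x ^ 3 + W.a₄ * x + W.a₆) :
    ∃ P : W.toAffine.Point, P ≠ 0 ∧ xc P = x ∧ yc P = y :=
  ⟨Affine.Point.some x y ((Affine.equation_iff_nonsingular_of_Δ_ne_zero hΔ).1 ((s_eq x y).2 h)),
    Affine.Point.some_ne_zero _, rfl, rfl⟩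

end short

section base

variable {F : Type} [Field F] {A B : F} {Ω : Type} [Field Ω] [Algebra F Ω]

instance isShort_WAB (A B : F) : (WAB A B).IsShortNF := ⟨rfl, rfl, rfl⟩

instance isShort_base (A B : F) (Ω : Type) [Field Ω] [Algebra F Ω] : ((WAB A B)⁄Ω).IsShortNF :=
  ⟨map_zero (algebraMap F Ω), map_zero (algebraMap F Ω), map_zero (algebraMap F Ω)⟩

theorem base_a4 : ((WAB A B)⁄Ω).a₄ = algebraMap F Ω A := rfl

theorem base_a6 : ((WAB A B)⁄Ω).a₆ = algebraMap F Ω B := rfl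

theorem eqnA {P : Pt (WAB A B) Ω} (hP : P ≠ 0) :
    yc P ^ 2 = xc P ^ 3 + algebraMap F Ω A * xc P + algebraMap F Ω B := eqn hP

variable [DecidableEq Ω]

theorem ac_zero (W : WeierstrassCurve F) (s : Ω ≃ₐ[F] Ω) : ac W s (0 : Pt W Ω) = 0 := map_zero _

theorem ac_ne (W : WeierstrassCurve F) (s : Ω ≃ₐ[F] Ω) {P : Pt W Ω} (hP : P ≠ 0) : ac W s P ≠ 0 := by
  rcases P with _ | ⟨x, y, h⟩
  · exact absurd rfl hP
  · unfold ac
    rw [Affine.Point.map_some]
    exact Affine.Point.some_ne_zero _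

theorem xc_ac (W : WeierstrassCurve F) (s : Ω ≃ₐ[F] Ω) (P : Pt W Ω) : xc (ac W s P) = s (xc P) := by
  rcases P with _ | ⟨x, y, h⟩
  · have : ac W s (Affine.Point.zero : Pt W Ω) = 0 := map_zero _
    rw [this]
    exact (map_zero s).symm
  · unfold ac
    rw [Affine.Point.map_some]
    rfl

theorem yc_ac (W : WeierstrassCurve F) (s : Ω ≃ₐ[F] Ω) (P : Pt W Ω) : yc (ac W s P) = s (yc P) := by
  rcases P with _ | ⟨x, y, h⟩
  · have : ac W s (Affine.Point.zero : Pt W Ω) = 0 := map_zero _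
    rw [this]
    exact (map_zero s).symm
  · unfold ac
    rw [Affine.Point.map_some]
    rfl

theorem tt_ac (W : WeierstrassCurve F) (s : Ω ≃ₐ[F] Ω) (P : Pt W Ω) : tt (ac W s P) = s (tt P) := by
  rw [tt_eq, tt_eq, xc_ac, yc_ac, map_div₀]

theorem ac_one (W : WeierstrassCurve F) (P : Pt W Ω) : ac W (1 : Ω ≃ₐ[F] Ω) P = P := by cases P <;> rfl

theorem ac_mul (W : WeierstrassCurve F) (s t : Ω ≃ₐ[F] Ω) (P : Pt W Ω) :
    ac W (s * t) P = ac W s (ac W t P) := by
  cases P <;> rfl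

theorem ac_inv (W : WeierstrassCurve F) (s : Ω ≃ₐ[F] Ω) (P : Pt W Ω) : ac W s (ac W s⁻¹ P) = P := by
  rw [← ac_mul, mul_inv_cancel, ac_one]

end base

end H55K
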