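import Mathlib
import Pool.Agent.Lib.H35P.FG
import Pool.Agent.Lib.H35P.RD
import Pool.Agent.Lib.H55K.E0

/-! # H55K: basic facts at a good valuation ring -/

open NumberField IsDedekindDomain WeierstrassCurve

namespace H55K

open H55P (IQ embF eF LF Per IsHecke Pt ac Inert Dec Nm)
open H35P (WAB Ker tt)


variable {F : Type} [Field F] [NumberField F] [IQ F] {A B : F} {Om : ℂ} {Ω : Type} [Field Ω] [DecidableEq Ω]
  [Algebra F Ω] {j : Ω →+* ℂ} {act : 𝓞 F →+* AddMonoid.End (Pt (WAB A B) Ω)} {V : ValuationSubring Ω}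

/-! Chunk G1 (S/M, many small facts). W = WAB A B over F, W⁄Ω has a₁ = a₂ = a₃ = 0 (isShort_base), a₄ = algebraMap F Ω A, a₆ = algebraMap F Ω B
(base_a4, base_a6). -/

omit [NumberField F] [IQ F] [DecidableEq Ω] in
/-- ak Ω a is integral over the integers and V is integrally closed (V.valuation: Valuation.Integers / IsIntegrallyClosed; see H28G.ak_le,
H13S.vw_int). -/
theorem ak_le (V : ValuationSubring Ω) (a : 𝓞 F) : V.valuation (ak Ω a) ≤ 1 := by
  rw [V.valuation_le_one_iff]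
  have h1 : IsIntegral ℤ (ak Ω a) := by
    have h2 : IsIntegral ℤ (a : F) := RingOfIntegers.isIntegral_coe a
    exact h2.map ((algebraMap F Ω).toIntAlgHom)
  have h3 : IsIntegral V (ak Ω a) := h1.tower_top
  obtain ⟨y, hy⟩ := IsIntegrallyClosed.isIntegral_iff.1 h3
  rw [← hy]
  exact y.2

omit [NumberField F] [IQ F] [DecidableEq Ω] in
/-- s_Δ: Δ = -16 (4A^3 + 27B^2), V(16) = 1. -/
theorem gv_good (hV : GV A B V) : H35P.GoodW ((WAB A B)⁄Ω) V := by
  have h0 : ∀ x : Ω, x = 0 → x ∈ V := fun x hx => hx ▸ V.zero_mem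
  refine ⟨⟨h0 _ (WeierstrassCurve.a₁_of_isShortNF _), h0 _ (WeierstrassCurve.a₂_of_isShortNF _),
    h0 _ (WeierstrassCurve.a₃_of_isShortNF _), hV.a, hV.b⟩, ?_⟩
  rw [s_Δ, base_a4, base_a6]
  have h1 : (-16 : Ω) * (4 * algebraMap F Ω A ^ 3 + 27 * algebraMap F Ω B ^ 2) =
      -((2 : Ω) ^ 4 * algebraMap F Ω (4 * A ^ 3 + 27 * B ^ 2)) := by
    simp only [map_add, map_mul, map_pow, map_ofNat]
    ring
  rw [h1, Valuation.map_neg, map_mul, map_pow, hV.two, hV.disc, one_pow, one_mul]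

omit [NumberField F] [IQ F] [DecidableEq Ω] in
/-- eqnA and hV.a, hV.b (H35P.int_y). -/
theorem gv_y (hV : GV A B V) {P : Pt (WAB A B) Ω} (hP : ¬ Ker V P) : V.valuation (yc P) ≤ 1 := by
  obtain ⟨h0, hx⟩ := not_ker V hP
  rcases P with _ | ⟨x, y, h⟩
  · exact absurd rfl h0
  · exact H35P.int_y (gv_good hV).toIntW h.1 hx

omit [NumberField F] [IQ F] in
/-- H35P.ker_add, FG.ker_sub, ker_neg. -/
theorem kadd (hV : GV A B V) {P Q : Pt (WAB A B) Ω} (hP : Ker V P) (hQ : Ker V Q) : Ker V (P + Q) := by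
  exact H35P.ker_add (gv_good hV).toIntW P Q hP hQ

omit [NumberField F] [IQ F] [DecidableEq Ω] in
theorem kneg {P : Pt (WAB A B) Ω} (hP : Ker V P) : Ker V (-P) := by
  exact (H35P.ker_neg P).2 hP

omit [NumberField F] [IQ F] in
theorem ksub (hV : GV A B V) {P Q : Pt (WAB A B) Ω} (hP : Ker V P) (hQ : Ker V Q) : Ker V (P - Q) := by
  exact H35P.ker_sub (gv_good hV).toIntW P Q hP hQ

/-- The kernel of reduction as a subgroup. -/
def kerG (hV : GV A B V) : AddSubgroup (Pt (WAB A B) Ω) where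
  carrier := {P | Ker V P}
  add_mem' := fun hP hQ => kadd hV hP hQ
  zero_mem' := trivial
  neg_mem' := fun hP => kneg hP

omit [NumberField F] [IQ F] in
theorem mem_kerG (hV : GV A B V) (P : Pt (WAB A B) Ω) : P ∈ kerG hV ↔ Ker V P := Iff.rfl

omit [NumberField F] [IQ F] in
theorem knsmul (hV : GV A B V) {P : Pt (WAB A B) Ω} (hP : Ker V P) (n : ℕ) : Ker V (n • P) :=
  AddSubgroup.nsmul_mem (kerG hV) hP n

omit [NumberField F] [IQ F] [DecidableEq Ω] in
/-- H35P.tt_lt. -/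
theorem ttlt (hV : GV A B V) {P : Pt (WAB A B) Ω} (hP : Ker V P) : V.valuation (tt P) < 1 := by
  exact H35P.tt_lt (gv_good hV).toIntW P hP

omit [NumberField F] [IQ F] [DecidableEq Ω] in
/-- H35P.tt_eq_zero. -/
theorem tt_zero (hV : GV A B V) {P : Pt (WAB A B) Ω} (hP : Ker V P) : tt P = 0 ↔ P = 0 := by
  exact H35P.tt_eq_zero (gv_good hV).toIntW P hP

omit [NumberField F] [IQ F] [DecidableEq Ω] in
/-- From val_y (H35P/R1.lean): V(y)^2 = V(x)^3, tt P = x/y. -/
theorem tt_val (hV : GV A B V) {P : Pt (WAB A B) Ω} (hP : Ker V P) (h0 : P ≠ 0) :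
    V.valuation (tt P) ^ 2 * V.valuation (xc P) = 1 ∧ V.valuation (tt P) ^ 3 * V.valuation (yc P) = 1 ∧
      V.valuation (xc P) < V.valuation (yc P) := by
  rcases P with _ | ⟨x, y, h⟩
  · exact absurd rfl h0
  · have hx : 1 < V.valuation x := hP
    obtain ⟨h1, h2⟩ := H35P.val_y (gv_good hV).toIntW h.1 hx
    have x0 : V.valuation x ≠ 0 := (zero_lt_one.trans hx).ne'
    have y0 : V.valuation y ≠ 0 := (zero_lt_one.trans (hx.trans h2)).ne'
    refine ⟨H35P.tt_sq (gv_good hV).toIntW h hx, ?_, h2⟩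
    show V.valuation (x / y) ^ 3 * V.valuation y = 1
    rw [map_div₀, div_pow, ← h1, pow_succ (V.valuation y) 2, div_mul_eq_mul_div, div_self]
    exact mul_ne_zero (pow_ne_zero 2 y0) y0

omit [NumberField F] [IQ F] [DecidableEq Ω] in
theorem g1_cong {P Q : Pt (WAB A B) Ω} (h1 : V.valuation (xc P) ≤ 1) (h2 : V.valuation (yc P) ≤ 1)
    (h3 : V.valuation (xc Q) ≤ 1) (h4 : V.valuation (yc Q) ≤ 1) (hP : P ≠ 0) (hQ : Q ≠ 0)
    (hx : V.valuation (xc P - xc Q) < 1) (hy : V.valuation (yc P - yc Q) < 1) : H35P.Cong V P Q := by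
  rcases P with _ | ⟨x, y, h⟩
  · exact absurd rfl hP
  rcases Q with _ | ⟨x', y', h'⟩
  · exact absurd rfl hQ
  exact ⟨x, y, h, x', y', h', rfl, rfl, (V.valuation_le_one_iff _).1 h1, (V.valuation_le_one_iff _).1 h2,
    (V.valuation_le_one_iff _).1 h3, (V.valuation_le_one_iff _).1 h4, hx, hy⟩

omit [NumberField F] [IQ F] in
/-- eqnA for P and Q: (yP - yQ)(yP + yQ) has value < 1, so one factor has; H35P.rd (RD.lean) for P, Q or P, -Q (Cong: not_ker, gv_y). -/
theorem cls_x (hV : GV A B V) {P Q : Pt (WAB A B) Ω} (hP : ¬ Ker V P) (hQ : ¬ Ker V Q)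
    (hx : V.valuation (xc P - xc Q) < 1) : Ker V (P - Q) ∨ Ker V (P + Q) := by
  obtain ⟨hP0, hPx⟩ := not_ker V hP
  obtain ⟨hQ0, hQx⟩ := not_ker V hQ
  have hPy := gv_y hV hP
  have hQy := gv_y hV hQ
  have hA : V.valuation (algebraMap F Ω A) ≤ 1 := (V.valuation_le_one_iff _).2 hV.a
  have e : (yc P - yc Q) * (yc P + yc Q) =
      (xc P - xc Q) * (xc P ^ 2 + xc P * xc Q + xc Q ^ 2 + algebraMap F Ω A) := by
    linear_combination eqnA hP0 - eqnA hQ0
  have h1 : V.valuation (xc P ^ 2 + xc P * xc Q + xc Q ^ 2 + algebraMap F Ω A) ≤ 1 := by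
    refine V.valuation.map_add_le (V.valuation.map_add_le (V.valuation.map_add_le ?_ ?_) ?_) hA
    · rw [map_pow]
      exact pow_le_one' hPx 2
    · rw [map_mul]
      exact mul_le_one' hPx hQx
    · rw [map_pow]
      exact pow_le_one' hQx 2
  have h2 : V.valuation ((yc P - yc Q) * (yc P + yc Q)) < 1 := by
    rw [e, map_mul]
    exact mul_lt_one_of_lt_of_le hx h1
  rw [map_mul] at h2
  have h3 : V.valuation (yc P - yc Q) < 1 ∨ V.valuation (yc P + yc Q) < 1 := by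
    by_contra hcon
    push Not at hcon
    exact absurd (one_le_mul hcon.1 hcon.2) (not_le.2 h2)
  rcases h3 with h3 | h3
  · left
    exact H35P.rd (gv_good hV) P Q (g1_cong hPx hPy hQx hQy hP0 hQ0 hx h3)
  · right
    have h4 : Ker V (P - -Q) := by
      apply H35P.rd (gv_good hV) P (-Q)
      refine g1_cong hPx hPy ?_ ?_ hP0 (neg_ne hQ0) ?_ ?_
      · rw [xc_neg]
        exact hQx
      · rw [yc_neg, Valuation.map_neg]
        exact hQy
      · rw [xc_neg]
        exact hx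
      · rw [yc_neg, sub_neg_eq_add]
        exact h3
    rwa [sub_neg_eq_add] at h4

omit [NumberField F] [IQ F] in
/-- cls_x and integrality of the coordinates. -/
theorem cls_diff (hV : GV A B V) {P Q : Pt (WAB A B) Ω} (hP : ¬ Ker V P) (hQ : ¬ Ker V Q)
    (h1 : ¬ Ker V (P - Q)) (h2 : ¬ Ker V (P + Q)) : V.valuation (xc P - xc Q) = 1 := by
  obtain ⟨hP0, hPx⟩ := not_ker V hP
  obtain ⟨hQ0, hQx⟩ := not_ker V hQ
  refine le_antisymm (V.valuation.map_sub_le hPx hQx) ?_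
  by_contra hcon
  rcases cls_x hV hP hQ (not_le.1 hcon) with h | h
  · exact h1 h
  · exact h2 h

omit [NumberField F] [IQ F] in
/-- H35P.rd. -/
theorem cls_xy (hV : GV A B V) {P Q : Pt (WAB A B) Ω} (hP : ¬ Ker V P) (hQ : ¬ Ker V Q)
    (hx : V.valuation (xc P - xc Q) < 1) (hy : V.valuation (yc P - yc Q) < 1) : Ker V (P - Q) := by
  obtain ⟨hP0, hPx⟩ := not_ker V hP
  obtain ⟨hQ0, hQx⟩ := not_ker V hQ
  exact H35P.rd (gv_good hV) P Q (g1_cong hPx (gv_y hV hP) hQx (gv_y hV hQ) hP0 hQ0 hx hy)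

omit [NumberField F] [IQ F] in
/-- H35P.fg (FG.lean). -/
theorem ker_tors (hV : GV A B V) (n : ℕ) (hn : V.valuation (n : Ω) = 1) {T : Pt (WAB A B) Ω} (hT : n • T = 0)
    (hK : Ker V T) : T = 0 := by
  exact H35P.fg (gv_good hV).toIntW T n hn hT hK

omit [NumberField F] [IQ F] in
/-- Automorphisms in the decomposition group preserve the kernel of reduction: xc_ac; V(s x) ≤ 1 iff V(x) ≤ 1. -/
theorem ker_ac (s : Ω ≃ₐ[F] Ω) (hs : Dec V s) {P : Pt (WAB A B) Ω} : Ker V (ac (WAB A B) s P) ↔ Ker V P := by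
  rcases eq_or_ne P 0 with rfl | hP
  · rw [ac_zero]
  · rw [ker_iff V (ac_ne _ s hP), ker_iff V hP, xc_ac, ← not_le, ← not_le, V.valuation_le_one_iff,
      V.valuation_le_one_iff, hs]

end H55K
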