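import Mathlib
import Pool.Agent.Lib.H55K.G1

/-! # H55K: t is additive modulo squares -/

open NumberField IsDedekindDomain WeierstrassCurve

namespace H55K

open H55P (IQ embF eF LF Per IsHecke Pt ac Inert Dec Nm)
open H35P (WAB Ker tt)

theorem g2_mon {Γ : Type*} [LinearOrderedCommGroupWithZero Γ] {a b c u w : Γ} (ha : a ≤ c) (hb : b ≤ c)
    (hu : u ≤ 1) (hw : w ≤ 1) : u * (a * b) * w ≤ c ^ 2 := by
  calc u * (a * b) * w ≤ 1 * (c * c) * 1 := mul_le_mul' (mul_le_mul' hu (mul_le_mul' ha hb)) hw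
    _ = c ^ 2 := by rw [one_mul, mul_one, sq]

theorem g2_ord {Γ : Type*} [LinearOrderedCommGroupWithZero Γ] {a b d c L M n : Γ} (ha : a ≤ c) (hb : b ≤ c)
    (hc : c ≤ 1) (hd : d ≤ 1) (hM : M * (a * b * d) = 1) (hL : L * a ≤ 1 ∨ L * b ≤ 1 ∨ L * d ≤ 1)
    (hn : n ≤ max (L ^ 2) (L * M)) : n * (a * b * d) ^ 3 ≤ c ^ 2 := by
  have ha1 : a ≤ 1 := ha.trans hc
  have hb1 : b ≤ 1 := hb.trans hc
  have p : ∀ {x : Γ} (m : ℕ), x ≤ 1 → x ^ m ≤ 1 := fun m hx => pow_le_one₀ zero_le hx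
  rcases le_max_iff.1 hn with h | h
  · refine (mul_le_mul_left h _).trans ?_
    rcases hL with h1 | h1 | h1
    · calc L ^ 2 * (a * b * d) ^ 3 = (L * a) ^ 2 * (a * b) * (b ^ 2 * d ^ 3) := by
            simp only [pow_succ, pow_zero, one_mul]; ac_rfl
        _ ≤ c ^ 2 := g2_mon ha hb (p 2 h1) (mul_le_one' (p 2 hb1) (p 3 hd))
    · calc L ^ 2 * (a * b * d) ^ 3 = (L * b) ^ 2 * (a * b) * (a ^ 2 * d ^ 3) := by
            simp only [pow_succ, pow_zero, one_mul]; ac_rfl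
        _ ≤ c ^ 2 := g2_mon ha hb (p 2 h1) (mul_le_one' (p 2 ha1) (p 3 hd))
    · calc L ^ 2 * (a * b * d) ^ 3 = (L * d) ^ 2 * (a * b) * (a ^ 2 * b ^ 2 * d) := by
            simp only [pow_succ, pow_zero, one_mul]; ac_rfl
        _ ≤ c ^ 2 := g2_mon ha hb (p 2 h1) (mul_le_one' (mul_le_one' (p 2 ha1) (p 2 hb1)) hd)
  · refine (mul_le_mul_left h _).trans ?_
    have e : L * M * (a * b * d) ^ 3 = L * (a * b * d) ^ 2 := by
      calc L * M * (a * b * d) ^ 3 = L * (a * b * d) ^ 2 * (M * (a * b * d)) := by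
            simp only [pow_succ, pow_zero, one_mul]; ac_rfl
        _ = L * (a * b * d) ^ 2 := by rw [hM, mul_one]
    rw [e]
    rcases hL with h1 | h1 | h1
    · calc L * (a * b * d) ^ 2 = (L * a) * (a * b) * (b * d ^ 2) := by
            simp only [pow_succ, pow_zero, one_mul]; ac_rfl
        _ ≤ c ^ 2 := g2_mon ha hb h1 (mul_le_one' hb1 (p 2 hd))
    · calc L * (a * b * d) ^ 2 = (L * b) * (a * b) * (a * d ^ 2) := by
            simp only [pow_succ, pow_zero, one_mul]; ac_rfl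
        _ ≤ c ^ 2 := g2_mon ha hb h1 (mul_le_one' ha1 (p 2 hd))
    · calc L * (a * b * d) ^ 2 = (L * d) * (a * b) * (a * b * d) := by
            simp only [pow_succ, pow_zero, one_mul]; ac_rfl
        _ ≤ c ^ 2 := g2_mon ha hb h1 (mul_le_one' (mul_le_one' ha1 hb1) hd)

theorem g2_val {k : Type*} [Field k] {Γ : Type*} [LinearOrderedCommGroupWithZero Γ] (v : Valuation k Γ)
    {x₁ x₂ x₃ y₁ y₂ y₃ l m a₄ a₆ : k} {c : Γ} (h1 : 1 < v x₁) (h2 : 1 < v x₂) (h3 : 1 < v x₃)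
    (s1 : x₁ + x₂ + x₃ = l ^ 2) (s3 : x₁ * x₂ * x₃ = m ^ 2 - a₆) (h4 : v a₄ ≤ 1) (h6 : v a₆ ≤ 1)
    (v1 : v y₁ ^ 2 = v x₁ ^ 3) (v2 : v y₂ ^ 2 = v x₂ ^ 3) (v3 : v y₃ ^ 2 = v x₃ ^ 3)
    (i3 : v (-3 : k) ≤ 1) (i2 : v (2 : k) ≤ 1)
    (hN : x₁ * y₂ * y₃ + x₂ * y₁ * y₃ + x₃ * y₁ * y₂ = -3 * a₆ * l ^ 2 + 2 * a₄ * l * m)
    (c1 : v (x₁ / y₁) ≤ c) (c2 : v (x₂ / y₂) ≤ c) (hc : c ≤ 1) :
    v (x₁ / y₁ + x₂ / y₂ + x₃ / y₃) ≤ c ^ 2 := by
  have key : ∀ x y : k, 1 < v x → v y ^ 2 = v x ^ 3 →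
      v (x / y) ^ 2 * v x = 1 ∧ v (x / y) ^ 3 * v y = 1 ∧ y ≠ 0 := by
    intro x y hx hxy
    have hx0 : v x ≠ 0 := (zero_lt_one.trans hx).ne'
    have hy0 : v y ≠ 0 := by
      intro h
      rw [h, zero_pow two_ne_zero] at hxy
      exact pow_ne_zero 3 hx0 hxy.symm
    refine ⟨?_, ?_, fun h => hy0 (by rw [h, map_zero])⟩
    · rw [map_div₀, div_pow, hxy, ← mul_div_right_comm, ← pow_succ, div_self (pow_ne_zero _ hx0)]
    · rw [map_div₀, div_pow, ← hxy, ← mul_div_right_comm, ← pow_succ, div_self (pow_ne_zero _ hy0)]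
  obtain ⟨e1, f1, n1⟩ := key _ _ h1 v1
  obtain ⟨e2, f2, n2⟩ := key _ _ h2 v2
  obtain ⟨e3, f3, n3⟩ := key _ _ h3 v3
  have hb : v m ^ 2 = v x₁ * v x₂ * v x₃ := by
    have e : m ^ 2 = x₁ * x₂ * x₃ + a₆ := by rw [s3]; ring
    have hlt : v a₆ < v (x₁ * x₂ * x₃) := by
      rw [map_mul, map_mul]
      exact h6.trans_lt (one_lt_mul'' (one_lt_mul'' h1 h2) h3)
    rw [← map_pow, e, Valuation.map_add_eq_of_lt_left v hlt, map_mul, map_mul]
  have hM : v m * (v (x₁ / y₁) * v (x₂ / y₂) * v (x₃ / y₃)) = 1 := by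
    have h : (v m * (v (x₁ / y₁) * v (x₂ / y₂) * v (x₃ / y₃))) ^ 2 = 1 := by
      calc (v m * (v (x₁ / y₁) * v (x₂ / y₂) * v (x₃ / y₃))) ^ 2
          = v m ^ 2 * (v (x₁ / y₁) ^ 2 * v (x₂ / y₂) ^ 2 * v (x₃ / y₃) ^ 2) := by
            simp only [mul_pow]
        _ = (v (x₁ / y₁) ^ 2 * v x₁) * (v (x₂ / y₂) ^ 2 * v x₂) * (v (x₃ / y₃) ^ 2 * v x₃) := by
            rw [hb]; ac_rfl
        _ = 1 := by rw [e1, e2, e3, one_mul, one_mul]
    exact (pow_eq_one_iff_of_nonneg zero_le two_ne_zero).1 h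
  have le1 : ∀ x y : k, v l ^ 2 ≤ v x → v (x / y) ^ 2 * v x = 1 → v l * v (x / y) ≤ 1 := by
    intro x y hl he
    refine (pow_le_one_iff_of_nonneg zero_le two_ne_zero).1 ?_
    calc (v l * v (x / y)) ^ 2 = v (x / y) ^ 2 * v l ^ 2 := by rw [mul_pow, mul_comm]
      _ ≤ v (x / y) ^ 2 * v x := mul_le_mul_right hl _
      _ = 1 := he
  have hL : v l * v (x₁ / y₁) ≤ 1 ∨ v l * v (x₂ / y₂) ≤ 1 ∨ v l * v (x₃ / y₃) ≤ 1 := by
    have h : v l ^ 2 ≤ max (max (v x₁) (v x₂)) (v x₃) := by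
      rw [← map_pow, ← s1]
      exact (v.map_add _ _).trans (max_le_max (v.map_add _ _) le_rfl)
    rcases le_max_iff.1 h with h | h
    · rcases le_max_iff.1 h with h | h
      · exact Or.inl (le1 _ _ h e1)
      · exact Or.inr (Or.inl (le1 _ _ h e2))
    · exact Or.inr (Or.inr (le1 _ _ h e3))
  have hd : v (x₃ / y₃) ≤ 1 := by
    refine (pow_le_one_iff_of_nonneg zero_le two_ne_zero).1 ?_
    rw [← e3]
    exact le_mul_of_one_le_right' h3.le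
  have hn : v (-3 * a₆ * l ^ 2 + 2 * a₄ * l * m) ≤ max (v l ^ 2) (v l * v m) := by
    refine (v.map_add _ _).trans (max_le_max ?_ ?_)
    · rw [map_mul, map_mul, map_pow]
      exact mul_le_of_le_one_left' (mul_le_one' i3 h6)
    · rw [map_mul, map_mul, map_mul, mul_assoc]
      exact mul_le_of_le_one_left' (mul_le_one' i2 h4)
  have hT : x₁ / y₁ + x₂ / y₂ + x₃ / y₃ = (-3 * a₆ * l ^ 2 + 2 * a₄ * l * m) / (y₁ * y₂ * y₃) := by
    rw [← hN]
    field_simp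
  have hv : v (x₁ / y₁ + x₂ / y₂ + x₃ / y₃) =
      v (-3 * a₆ * l ^ 2 + 2 * a₄ * l * m) * (v (x₁ / y₁) * v (x₂ / y₂) * v (x₃ / y₃)) ^ 3 := by
    rw [hT, map_div₀, div_eq_mul_inv]
    congr 1
    refine inv_eq_of_mul_eq_one_right ?_
    rw [map_mul, map_mul]
    calc v y₁ * v y₂ * v y₃ * (v (x₁ / y₁) * v (x₂ / y₂) * v (x₃ / y₃)) ^ 3 =
        (v (x₁ / y₁) ^ 3 * v y₁) * (v (x₂ / y₂) ^ 3 * v y₂) * (v (x₃ / y₃) ^ 3 * v y₃) := by
          rw [mul_pow, mul_pow]; ac_rfl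
      _ = 1 := by rw [f1, f2, f3, one_mul, one_mul]
  rw [hv]
  exact g2_ord c1 c2 hc hd hM hL hn

section

variable {k : Type} [Field k] [DecidableEq k] {W : WeierstrassCurve k} [W.IsShortNF] {V : ValuationSubring k}

open H35P in
theorem g2_gen (hI : IntW W V) (P Q : W.toAffine.Point) (hP : Ker V P) (hQ : Ker V Q) (c : V.ValueGroup)
    (h1 : c ≤ 1) (hPc : V.valuation (tt P) ≤ c) (hQc : V.valuation (tt Q) ≤ c) :
    V.valuation (tt (P + Q) - tt P - tt Q) ≤ c ^ 2 := by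
  rcases P with _ | ⟨x₁, y₁, h₁⟩
  · have e : tt (W := W) (Affine.Point.zero + Q) - tt (W := W) Affine.Point.zero - tt Q = 0 := by
      change tt (0 + Q) - 0 - tt Q = 0
      rw [zero_add, sub_zero, sub_self]
    rw [e, map_zero]
    exact zero_le
  rcases Q with _ | ⟨x₂, y₂, h₂⟩
  · have e : tt (W := W) (Affine.Point.some x₁ y₁ h₁ + Affine.Point.zero) -
        tt (W := W) (Affine.Point.some x₁ y₁ h₁) - tt (W := W) Affine.Point.zero = 0 := by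
      change tt (Affine.Point.some x₁ y₁ h₁ + 0) - tt (W := W) (Affine.Point.some x₁ y₁ h₁) - 0 = 0
      rw [add_zero, sub_zero, sub_self]
    rw [e, map_zero]
    exact zero_le
  by_cases hxy : x₁ = x₂ ∧ y₁ = W.toAffine.negY x₂ y₂
  · have e0 : (Affine.Point.some x₁ y₁ h₁ : W.toAffine.Point) + Affine.Point.some x₂ y₂ h₂ = 0 :=
      Affine.Point.add_of_Y_eq hxy.1 hxy.2
    have e1 : (Affine.Point.some x₁ y₁ h₁ : W.toAffine.Point) = -Affine.Point.some x₂ y₂ h₂ :=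
      eq_neg_of_add_eq_zero_left e0
    have e3 : tt (0 : W.toAffine.Point) = 0 := rfl
    rw [e0, e1, e3, H55K.tt_neg, zero_sub, neg_neg, sub_self, map_zero]
    exact zero_le
  · obtain ⟨s1, s2, s3, p1, p2, p3, hN⟩ := vieta h₁.1 h₂.1 hxy _ _ _ rfl rfl rfl
    set l : k := W.toAffine.slope x₁ x₂ y₁ y₂ with hl
    set x₃ : k := W.toAffine.addX x₁ x₂ l with hx₃
    set m : k := y₁ - l * x₁ with hm
    set y₃ : k := W.toAffine.negAddY x₁ x₂ y₁ l with hy₃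
    have h₃ : W.toAffine.Nonsingular x₃ y₃ := Affine.nonsingular_negAdd h₁ h₂ hxy
    have hd : 1 < V.valuation x₃ := third_big hI.a1 hI.a2 hI.a3 hI.a4 hI.a6 s1 s2 s3 hP hQ
    have v1 := (val_y hI h₁.1 hP).1
    have v2 := (val_y hI h₂.1 hQ).1
    have v3 := (val_y hI h₃.1 hd).1
    have hsum : (Affine.Point.some x₁ y₁ h₁ : W.toAffine.Point) + Affine.Point.some x₂ y₂ h₂ =
        -Affine.Point.some x₃ y₃ h₃ := by
      rw [Affine.Point.add_some hxy, Affine.Point.neg_some]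
      rfl
    rw [hsum, H55K.tt_neg]
    have e : -tt (W := W) (Affine.Point.some x₃ y₃ h₃) - tt (W := W) (Affine.Point.some x₁ y₁ h₁) -
        tt (W := W) (Affine.Point.some x₂ y₂ h₂) = -(x₁ / y₁ + x₂ / y₂ + x₃ / y₃) := by
      change -(x₃ / y₃) - x₁ / y₁ - x₂ / y₂ = _
      ring
    rw [e, Valuation.map_neg]
    simp only [W.a₁_of_isShortNF, W.a₂_of_isShortNF, W.a₃_of_isShortNF] at s1 s3 hN
    rw [← p1, ← p2, ← p3] at hN
    refine g2_val V.valuation hP hQ hd (l := l) (m := m) (a₄ := W.a₄) (a₆ := W.a₆) ?_ ?_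
      ((V.valuation_le_one_iff _).2 hI.a4) ((V.valuation_le_one_iff _).2 hI.a6) v1 v2 v3 ?_ ?_ ?_ hPc hQc h1
    · linear_combination s1
    · linear_combination s3
    · exact V.valuation_le_one_iff _ |>.2 (by exact_mod_cast intCast_mem V (-3))
    · exact V.valuation_le_one_iff _ |>.2 (by exact_mod_cast natCast_mem V 2)
    · linear_combination hN

end

variable {F : Type} [Field F] [NumberField F] [IQ F] {A B : F} {Om : ℂ} {Ω : Type} [Field Ω] [DecidableEq Ω]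
  [Algebra F Ω] {j : Ω →+* ℂ} {act : 𝓞 F →+* AddMonoid.End (Pt (WAB A B) Ω)} {V : ValuationSubring Ω}

omit [NumberField F] [IQ F] in
/-- Chunk G2 (M). W = (WAB A B)⁄Ω has a₁ = a₂ = a₃ = 0, a₄, a₆ in V. If c is not < 1 everything is clear: all three values are < 1 (ttlt, kadd). P = 0, Q = 0 clear; P = -Q: tt_neg (E0), tt 0 = 0.
Otherwise P = some x₁ y₁, Q = some x₂ y₂, H35P.vieta (R2.lean; the hypothesis hxy as in H35P/R4.lean, tt_add) with l = slope, m = y₁ - l x₁, third point (x₃, y₃ = l x₃ + m), P + Q = some x₃ (-y₃)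
(Affine.Point.add_some, addY, negY with a₁ = a₃ = 0), so tt (P + Q) = - x₃/y₃. Put T_i = x_i/y_i. The last relation of vieta is: (T₁ + T₂ + T₃) y₁ y₂ y₃ = - 3 a₆ l^2 + 2 a₄ l m. All three points are in Ker (kadd; V x₃ > 1).
Values (tt_val): V(T_i)^2 V(x_i) = 1, V(T_i)^3 V(y_i) = 1. Write a, b, d for V(T₁), V(T₂), V(T₃) (< 1). s3: x₁ x₂ x₃ = m^2 - a₆ gives V(m)^2 (a b d)^2 = 1, so V(m) a b d = 1. s1: x₁ + x₂ + x₃ = l^2 gives
V(l)^2 ≤ max of the V(x_i), so V(l) ≤ 1/e with e = min a b d (one of a, b, d). So V(3 a₆ l^2/(y₁y₂y₃)) ≤ (a b d)^3/e^2 ≤ c^2 and V(2 a₄ l m/(y₁y₂y₃)) ≤ (a b d)^2/e ≤ c^2 (a, b ≤ c < 1, d < 1; in each of the three cases for e). -/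
theorem tt_add2 (hV : GV A B V) {P Q : Pt (WAB A B) Ω} (hP : Ker V P) (hQ : Ker V Q) (c : V.ValueGroup)
    (h1 : V.valuation (tt P) ≤ c) (h2 : V.valuation (tt Q) ≤ c) :
    V.valuation (tt (P + Q) - tt P - tt Q) ≤ c ^ 2 := by
  rcases le_total c 1 with hc | hc
  · exact g2_gen (gv_good hV).toIntW P Q hP hQ c hc h1 h2
  · have h : V.valuation (tt (P + Q) - tt P - tt Q) ≤ 1 :=
      Valuation.map_sub_le _ (Valuation.map_sub_le _ (ttlt hV (kadd hV hP hQ)).le (ttlt hV hP).le) (ttlt hV hQ).le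
    exact h.trans (one_le_pow₀ hc)

end H55K
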