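import Mathlib
import Pool.Agent.Lib.H55K.G1

/-! # H55K: translation by a point of the kernel of reduction -/

open NumberField IsDedekindDomain WeierstrassCurve

namespace H55K

open H55P (IQ embF eF LF Per IsHecke Pt ac Inert Dec Nm)
open H35P (WAB Ker tt)


variable {F : Type} [Field F] [NumberField F] [IQ F] {A B : F} {Om : ℂ} {Ω : Type} [Field Ω] [DecidableEq Ω]
  [Algebra F Ω] {j : Ω →+* ℂ} {act : 𝓞 F →+* AddMonoid.End (Pt (WAB A B) Ω)} {V : ValuationSubring Ω}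

/-- The algebra: t, w = t^3 g, b = 1/(1 - x t^2 g). -/
theorem g3_alg {k : Type} [Field k] {Γ : Type} [LinearOrderedCommGroupWithZero Γ] (v : Valuation k Γ)
    {a c x y t w s X Y : k} (ht0 : t ≠ 0) (hw0 : w ≠ 0) (hw : w = t ^ 3 + a * t * w ^ 2 + c * w ^ 3)
    (ha : v a ≤ 1) (hc : v c ≤ 1) (hx : v x ≤ 1) (hy : v y ≤ 1) (ht : v t < 1) (hvw : v w = v t ^ 3)
    (hs : s = (y - 1 / w) / (x - t / w)) (hX : X = s ^ 2 - x - t / w) (hY : Y = -(s * (X - x) + y)) :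
    v X ≤ 1 ∧ v (X - x + 2 * y * t) ≤ v t ^ 2 ∧ v (Y - y + (3 * x ^ 2 + a) * t) ≤ v t ^ 2 := by
  have hvt0 : 0 < v t := by
    rw [zero_lt_iff]
    exact (Valuation.ne_zero_iff v).2 ht0
  obtain ⟨g, hg⟩ : ∃ g, g = w / t ^ 3 := ⟨_, rfl⟩
  have ht3 : t ^ 3 ≠ 0 := pow_ne_zero 3 ht0
  have hvg : v g = 1 := by
    rw [hg, map_div₀, map_pow, hvw, div_self (pow_ne_zero 3 hvt0.ne')]
  have ew : w = t ^ 3 * g := by
    rw [hg, mul_div_cancel₀ _ ht3]
  have hg0 : g ≠ 0 := by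
    rintro rfl
    rw [mul_zero] at ew
    exact hw0 ew
  have hg2 : g = 1 + t ^ 4 * (a * g ^ 2 + c * t ^ 2 * g ^ 3) := by
    apply mul_left_cancel₀ ht3
    rw [ew] at hw
    linear_combination hw
  have hβ : v (1 - x * (t ^ 2 * g)) = 1 := by
    have h1 : v (x * (t ^ 2 * g)) < 1 := by
      rw [map_mul, map_mul, map_pow, hvg, mul_one]
      have h2 : v t ^ 2 < 1 := pow_lt_one₀ zero_le ht (by norm_num)
      exact (mul_le_of_le_one_left zero_le hx).trans_lt h2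
    rw [Valuation.map_sub_eq_of_lt_left v (by rwa [map_one]), map_one]
  have hβ0 : 1 - x * (t ^ 2 * g) ≠ 0 := by
    intro h
    rw [h, map_zero] at hβ
    exact zero_ne_one hβ
  obtain ⟨b, hb⟩ : ∃ b, b = (1 - x * (t ^ 2 * g))⁻¹ := ⟨_, rfl⟩
  have hvb : v b ≤ 1 := by rw [hb, map_inv₀, hβ, inv_one]
  have hb1 : b * (1 - x * (t ^ 2 * g)) = 1 := by rw [hb, inv_mul_cancel₀ hβ0]
  have es : s * t = (1 - y * (t ^ 3 * g)) * b := by
    have hD : x - t / w = -(t * (1 - x * (t ^ 2 * g))) / w := by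
      rw [ew]
      field_simp
      ring
    rw [hs, hD, hb]
    rw [ew]
    field_simp
    ring
  have etw : t / w * t ^ 2 * g = 1 := by
    rw [ew]
    field_simp
  -- the integers
  let t' : v.integer := ⟨t, ht.le⟩
  let g' : v.integer := ⟨g, hvg.le⟩
  let b' : v.integer := ⟨b, hvb⟩
  let x' : v.integer := ⟨x, hx⟩
  let y' : v.integer := ⟨y, hy⟩
  let a' : v.integer := ⟨a, ha⟩
  let c' : v.integer := ⟨c, hc⟩
  obtain ⟨h', hh'⟩ : ∃ M : v.integer, M = a' * g' ^ 2 + c' * t' ^ 2 * g' ^ 3 := ⟨_, rfl⟩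
  have hhc : (h' : k) = a * g ^ 2 + c * t ^ 2 * g ^ 3 := by rw [hh']; rfl
  obtain ⟨M3, hM3⟩ : ∃ M : v.integer, M = -2 * y' * t' ^ 2 * h' + (a' + 3 * x' ^ 2) * t' ^ 3 * h' +
    t' * (g' ^ 2 * (c' + y' ^ 2 - 2 * x' ^ 3)) := ⟨_, rfl⟩
  have hM3' : (M3 : k) = -2 * y * t ^ 2 * h' + (a + 3 * x ^ 2) * t ^ 3 * h' +
    t * (g ^ 2 * (c + y ^ 2 - 2 * x ^ 3)) := by rw [hM3]; rfl
  obtain ⟨M1, hM1⟩ : ∃ M : v.integer, M = -2 * y' + (a' + 3 * x' ^ 2) * t' + t' ^ 2 * M3 := ⟨_, rfl⟩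
  have hM1' : (M1 : k) = -2 * y + (a + 3 * x ^ 2) * t + t ^ 2 * M3 := by rw [hM1]; rfl
  obtain ⟨Q, hQ⟩ : ∃ M : v.integer, M = M3 + x' * g' * b' * (b' + 1) * M1 := ⟨_, rfl⟩
  have hQ' : (Q : k) = M3 + x * g * b * (b + 1) * M1 := by rw [hQ]; rfl
  obtain ⟨B, hB⟩ : ∃ M : v.integer, M = x' * g' * b' - y' * t' * g' * b' := ⟨_, rfl⟩
  have hB' : (B : k) = x * g * b - y * t * g * b := by rw [hB]; rfl
  have hgh : g = 1 + t ^ 4 * (h' : k) := by rw [hhc]; exact hg2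
  -- X
  obtain ⟨β, hβd⟩ : ∃ β, β = 1 - x * (t ^ 2 * g) := ⟨_, rfl⟩
  rw [← hβd] at hb1
  have hb2 : b - 1 = x * t ^ 2 * g * b := by
    rw [hβd] at hb1
    linear_combination hb1
  obtain ⟨T, hT⟩ : ∃ T : k, T = -2 * y * t + (a + 3 * x ^ 2) * t ^ 2 + t ^ 3 * M3 := ⟨_, rfl⟩
  have hTM : T = t * M1 := by
    rw [hT, hM1']
    ring
  have hN : a * t ^ 2 * g + c * t ^ 4 * g ^ 2 - 2 * y * t * g + y ^ 2 * t ^ 4 * g ^ 2 + 2 * x - x ^ 2 * t ^ 2 * g
      - 2 * x * β ^ 2 = T := by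
    rw [hT, hM3', hβd]
    linear_combination (-2 * y * t + (a + 3 * x ^ 2) * t ^ 2) * hgh
  have eX0 : (X - x) * t ^ 2 = t ^ 2 * (b ^ 2 * T) := by
    have h1 : (s * t) ^ 2 = (1 - y * (t ^ 3 * g)) ^ 2 * b ^ 2 := by rw [es]; ring
    have h5 : t ^ 2 * g * ((X - x) * t ^ 2) = t ^ 2 * g * (t ^ 2 * (b ^ 2 * T)) := by
      rw [hX, ← hN]
      have h6 : b ^ 2 * β ^ 2 = 1 := by rw [← mul_pow, hb1, one_pow]
      have h7 : t ^ 2 * g * (t / w) = 1 := by linear_combination etw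
      have h8 : g - 1 = t ^ 4 * (a * g ^ 2 + c * t ^ 2 * g ^ 3) := by linear_combination hg2
      have h9 : t ^ 2 * g * ((s ^ 2 - x - t / w - x) * t ^ 2) =
          t ^ 2 * g * (s * t) ^ 2 - 2 * x * t ^ 4 * g - t ^ 2 * (t ^ 2 * g * (t / w)) := by ring
      rw [h9, h1, h7]
      have h10 : β = 1 - x * (t ^ 2 * g) := hβd
      have h11 : t ^ 2 * 1 = t ^ 2 * (b ^ 2 * β ^ 2) := by rw [h6]
      rw [h11]
      have h12 : 2 * x * t ^ 4 * g = 2 * x * t ^ 4 * g * (b ^ 2 * β ^ 2) := by rw [h6, mul_one]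
      rw [h12]
      have h13 : β ^ 2 = (1 - x * (t ^ 2 * g)) ^ 2 := by rw [h10]
      linear_combination (t ^ 2 * b ^ 2) * h8 - (t ^ 2 * b ^ 2) * h13
    exact mul_left_cancel₀ (mul_ne_zero (pow_ne_zero 2 ht0) hg0) h5
  have eX : X - x = T + t ^ 3 * (x * g * b * (b + 1) * M1) := by
    have ht2 : t ^ 2 ≠ 0 := pow_ne_zero 2 ht0
    have h1 : X - x = b ^ 2 * T := by
      apply mul_right_cancel₀ ht2
      rw [eX0]
      ring
    rw [h1, hTM]
    linear_combination t * M1 * (b + 1) * hb2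
  have eX2 : X - x = -2 * y * t + (a + 3 * x ^ 2) * t ^ 2 + t ^ 3 * Q := by
    rw [eX, hT, hQ']
    ring
  have vt2 : ∀ z : v.integer, v (t ^ 2 * z) ≤ v t ^ 2 := fun z => by
    rw [map_mul, map_pow]
    exact mul_le_of_le_one_right zero_le z.2
  refine ⟨?_, ?_, ?_⟩
  · have e : X = ((x' + (-2 * y' * t' + (a' + 3 * x' ^ 2) * t' ^ 2 + t' ^ 3 * Q) : v.integer) : k) := by
      change X = x + (-2 * y * t + (a + 3 * x ^ 2) * t ^ 2 + t ^ 3 * (Q : k))
      rw [← eX2]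
      ring
    rw [e]
    exact (x' + (-2 * y' * t' + (a' + 3 * x' ^ 2) * t' ^ 2 + t' ^ 3 * Q)).2
  · have e : X - x + 2 * y * t = t ^ 2 * (((a' + 3 * x' ^ 2) + t' * Q : v.integer) : k) := by
      change X - x + 2 * y * t = t ^ 2 * ((a + 3 * x ^ 2) + t * (Q : k))
      rw [eX2]
      ring
    rw [e]
    exact vt2 _
  · have e : Y - y + (3 * x ^ 2 + a) * t = t ^ 2 * ((-Q - B * (-2 * y' + (a' + 3 * x' ^ 2) * t' + t' ^ 2 * Q) : v.integer) : k) := by
      change Y - y + (3 * x ^ 2 + a) * t = t ^ 2 * (-(Q : k) - (B : k) * (-2 * y + (a + 3 * x ^ 2) * t + t ^ 2 * (Q : k)))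
      apply mul_right_cancel₀ ht0
      have h2 : (1 - y * (t ^ 3 * g)) * b = 1 + t ^ 2 * (B : k) := by
        rw [hB']
        linear_combination hb2
      have h3 : Y * t = -(s * t) * (X - x) - y * t := by
        rw [hY]
        ring
      have h4 : (Y - y + (3 * x ^ 2 + a) * t) * t = Y * t - y * t + (3 * x ^ 2 + a) * t * t := by ring
      rw [h4, h3, es, eX2, h2]
      ring
    rw [e]
    exact vt2 _

omit [NumberField F] [IQ F] in
/-- Chunk G3 (M), port of H28G/GV5.lean (GV5_alg, transl). R = 0 clear. P = (x, y) integral (not_ker, gv_y), R in Ker, R ≠ 0: put t = tt R = x_R/y_R, w = 1/y_R, so x_R = t/w, y_R = 1/w, w = t^3 + A t w^2 + B w^3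
(from eqnA), V(w) = V(t)^3, V(t) < 1. x ≠ x_R (values). add_coords for P + R (or R + P): slope s = (y - 1/w)/(x - t/w) = (1 - y w)/(t - x w),
X := xc (P + R) = s^2 - x - t/w, and s^2 - t/w = (A t w + B w^2 - 2 y w + y^2 w^2 + 2 x t^2 - x^2 t w)/(t - x w)^2. With w = t^3 g, g = 1 + A t (w^2/t^3) + B w^3/t^3 (V(g - 1) ≤ V(t)^4, V(g) = 1),
t - x w = t b, b = 1 - x t^2 g (V(b) = 1, V(b - 1) ≤ V(t)^2): X + x = (2x - 2 y t g - x^2 t^2 g + A t^2 g + y^2 t^4 g^2 + B t^4 g^2)/b^2. So X = x - 2 y t + (3x^2 + A) t^2 + terms of value ≤ V(t)^3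
(2x (1/b^2 - 1) = 4 x^2 t^2 + ..). Y := yc (P + R) = -(s (X - x) + y) with s = (1 - y t^3 g)/(t b) = t^-1 (1 + O(t^2)): Y = y - (3x^2 + A) t + O(t^2). X, Y are integral, so P + R is not in Ker. -/
theorem transl (hV : GV A B V) {P R : Pt (WAB A B) Ω} (hP : ¬ Ker V P) (hR : Ker V R) : ¬ Ker V (P + R) ∧
    V.valuation (xc (P + R) - xc P + 2 * yc P * tt R) ≤ V.valuation (tt R) ^ 2 ∧
    V.valuation (yc (P + R) - yc P + (3 * xc P ^ 2 + algebraMap F Ω A) * tt R) ≤ V.valuation (tt R) ^ 2 := by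
  obtain ⟨hP0, hPx⟩ := not_ker V hP
  have hPy := gv_y hV hP
  by_cases hR0 : R = 0
  · subst hR0
    have e : tt (0 : Pt (WAB A B) Ω) = 0 := by rw [tt_eq, xc_zero, zero_div]
    rw [add_zero, e]
    refine ⟨hP, ?_, ?_⟩ <;> simp
  · obtain ⟨h1, h2, h3⟩ := tt_val hV hR hR0
    have ht1 := ttlt hV hR
    have hx1 : 1 < V.valuation (xc R) := (ker_iff V hR0).1 hR
    have hy0 : yc R ≠ 0 := by
      intro h0
      rw [h0, map_zero, mul_zero] at h2
      exact zero_ne_one h2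
    have hx0 : xc R ≠ 0 := by
      intro h0
      rw [h0, map_zero] at hx1
      exact absurd hx1 (not_lt.2 zero_le)
    have htt : tt R = xc R / yc R := tt_eq R
    have ht0 : tt R ≠ 0 := by rw [htt]; exact div_ne_zero hx0 hy0
    have hne : xc P ≠ xc R := by
      intro he
      rw [he] at hPx
      exact absurd hx1 (not_lt.2 hPx)
    obtain ⟨a1, a2, a3⟩ := add_coords hP0 hR0 hne
    have heq := eqnA hR0
    have hxw : tt R / (1 / yc R) = xc R := by rw [htt]; field_simp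
    have hyw : 1 / (1 / yc R) = yc R := by field_simp
    have hvw : V.valuation (1 / yc R) = V.valuation (tt R) ^ 3 := by
      have hv0 : V.valuation (yc R) ≠ 0 := (Valuation.ne_zero_iff _).2 hy0
      rw [map_div₀, map_one, one_div]
      exact (eq_inv_of_mul_eq_one_left h2).symm
    have hww : 1 / yc R = tt R ^ 3 + algebraMap F Ω A * tt R * (1 / yc R) ^ 2 + algebraMap F Ω B * (1 / yc R) ^ 3 := by
      rw [htt]
      field_simp
      linear_combination heq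
    have h5 := g3_alg V.valuation (a := algebraMap F Ω A) (c := algebraMap F Ω B) (x := xc P) (y := yc P) (t := tt R)
      (w := 1 / yc R) (s := (yc P - yc R) / (xc P - xc R)) (X := xc (P + R)) (Y := yc (P + R)) ht0 (one_div_ne_zero hy0) hww
      ((V.valuation_le_one_iff _).2 hV.a) ((V.valuation_le_one_iff _).2 hV.b) hPx hPy ht1 hvw (by rw [hxw, hyw])
      (by rw [a2, hxw]) a3
    refine ⟨?_, h5.2.1, h5.2.2⟩
    rw [ker_iff V a1]
    exact not_lt.2 h5.1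

omit [NumberField F] [IQ F] in
/-- Corollary (same chunk): congruent points. Q = P + (Q - P). -/
theorem cls_conv (hV : GV A B V) {P Q : Pt (WAB A B) Ω} (hP : ¬ Ker V P) (h : Ker V (Q - P)) : ¬ Ker V Q ∧
    V.valuation (xc Q - xc P) < 1 ∧ V.valuation (yc Q - yc P) < 1 := by
  obtain ⟨hP0, hPx⟩ := not_ker V hP
  have hPy := gv_y hV hP
  have ht := ttlt hV h
  obtain ⟨h1, h2, h3⟩ := transl hV hP h
  have e : P + (Q - P) = Q := by abel
  rw [e] at h1 h2 h3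
  have ht2 : V.valuation (tt (Q - P)) ^ 2 < 1 := pow_lt_one₀ zero_le ht (by norm_num)
  refine ⟨h1, ?_, ?_⟩
  · have h4 : V.valuation (2 * yc P * tt (Q - P)) < 1 := by
      rw [map_mul, map_mul, hV.two, one_mul]
      exact (mul_le_of_le_one_left zero_le hPy).trans_lt ht
    have e2 : xc Q - xc P = (xc Q - xc P + 2 * yc P * tt (Q - P)) - 2 * yc P * tt (Q - P) := by ring
    rw [e2]
    exact (V.valuation.map_sub _ _).trans_lt (max_lt (h2.trans_lt ht2) h4)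
  · have h4 : V.valuation ((3 * xc P ^ 2 + algebraMap F Ω A) * tt (Q - P)) < 1 := by
      have h5 : V.valuation (3 * xc P ^ 2 + algebraMap F Ω A) ≤ 1 := by
        refine V.valuation.map_add_le ?_ ((V.valuation_le_one_iff _).2 hV.a)
        rw [map_mul, hV.three, one_mul, map_pow]
        exact pow_le_one₀ zero_le hPx
      rw [map_mul]
      exact (mul_le_of_le_one_left zero_le h5).trans_lt ht
    have e2 : yc Q - yc P = (yc Q - yc P + (3 * xc P ^ 2 + algebraMap F Ω A) * tt (Q - P)) -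
        (3 * xc P ^ 2 + algebraMap F Ω A) * tt (Q - P) := by ring
    rw [e2]
    exact (V.valuation.map_sub _ _).trans_lt (max_lt (h3.trans_lt ht2) h4)

end H55K
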