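import Mathlib
import Pool.Agent.Lib.H55K.G3
import Pool.Agent.Lib.H55K.G4A

/-! # H55K: the action on the kernel of reduction -/

open NumberField IsDedekindDomain WeierstrassCurve

namespace H55K

open H55P (IQ embF eF LF Per IsHecke Pt ac Inert Dec Nm)
open H35P (WAB Ker tt)


variable {F : Type} [Field F] [NumberField F] [IQ F] {A B : F} {Om : ℂ} {Ω : Type} [Field Ω] [DecidableEq Ω]
  [Algebra F Ω] {j : Ω →+* ℂ} {act : 𝓞 F →+* AddMonoid.End (Pt (WAB A B) Ω)} {V : ValuationSubring Ω}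

/-- Chunk G4B (M). a with V(Nm a) = 1. P = 0 clear. exists_TN: S. a ≠ 0; V(ak a) = 1 because ak a * ak (cj a) = Nm a and both are ≤ 1 (ak_le). For T in S: Nm a • T = 0 (tor_nm), so T is not in Ker (ker_tors), and
act a P ≠ 0 (else P in S). cls_conv for T, P + T: V(xc (P + T) - xc T) < 1, and V(yc (P + T)) ≤ 1 (gv_y). e1x: V(a^2 xc (aP) - xc P) < 1, so V(xc (aP)) = V(xc P) > 1: aP in Ker (ker_of). e1y: V(a^3 yc (aP) - yc P) ≤ 1, so
V(yc (aP)) = V(yc P). a^3 y(aP) y(P) (tt (aP) - a tt P) = a (y(P) (a^2 x(aP) - x(P)) - x(P) (a^3 y(aP) - y(P))) has value ≤ max(V(yP), V(xP)) = V(yP) (tt_val), so V(tt (aP) - a tt P) ≤ 1/V(yP) = V(tt P)^3 ≤ V(tt P)^2. -/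
theorem act_unit (h : CMA F A B Om j act) (hV : GV A B V) {a : 𝓞 F} (ha : V.valuation (Nm a : Ω) = 1)
    {P : Pt (WAB A B) Ω} (hP : Ker V P) : Ker V (act a P) ∧
      V.valuation (tt (act a P) - ak Ω a * tt P) ≤ V.valuation (tt P) ^ 2 := by
  have e0 : tt (0 : Pt (WAB A B) Ω) = 0 := by rw [tt_eq, xc_zero, zero_div]
  by_cases hP0 : P = 0
  · subst hP0
    rw [map_zero, e0]
    exact ⟨trivial, by simp⟩
  have ha0 : a ≠ 0 := by
    rintro rfl
    have h1 : Nm (0 : 𝓞 F) = 0 := by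
      unfold Nm
      rw [Ideal.absNorm_eq_zero_iff, Ideal.span_singleton_eq_bot]
    rw [h1, Nat.cast_zero, map_zero] at ha
    exact zero_ne_one ha
  have hva : V.valuation (ak Ω a) = 1 := by
    have e1 : ak Ω a * ak Ω (cj a) = (Nm a : Ω) := by
      have e2 : ak Ω (a * cj a) = ak Ω ((Nm a : 𝓞 F)) := by rw [mul_cj]
      have e3 : ak Ω (a * cj a) = ak Ω a * ak Ω (cj a) := by
        show algebraMap F Ω (algebraMap (𝓞 F) F (a * cj a)) =
          algebraMap F Ω (algebraMap (𝓞 F) F a) * algebraMap F Ω (algebraMap (𝓞 F) F (cj a))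
        rw [map_mul, map_mul]
      have e4 : ak Ω ((Nm a : 𝓞 F)) = (Nm a : Ω) := by
        show algebraMap F Ω (algebraMap (𝓞 F) F ((Nm a : 𝓞 F))) = _
        rw [map_natCast, map_natCast]
      rw [← e3, e2, e4]
    have e5 : V.valuation (ak Ω a) * V.valuation (ak Ω (cj a)) = 1 := by
      rw [← map_mul, e1, ha]
    refine le_antisymm (ak_le V a) ?_
    rw [← e5]
    exact mul_le_of_le_one_right zero_le (ak_le V (cj a))
  have hva0 : ak Ω a ≠ 0 := by
    intro h0
    rw [h0, map_zero] at hva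
    exact zero_ne_one hva
  obtain ⟨S, hS, -⟩ := exists_TN h ha0
  have hne : act a P ≠ 0 := by
    intro h0
    exact hP0 (ker_tors hV (Nm a) ha (tor_nm h0) hP)
  have hT : ∀ T ∈ S, ¬ Ker V T := by
    intro T hT hK
    obtain ⟨h1, h2⟩ := (hS T).1 hT
    exact h2 (ker_tors hV (Nm a) ha (tor_nm h1) hK)
  have hPT : ∀ T ∈ S, ¬ Ker V (P + T) ∧ V.valuation (xc (P + T) - xc T) < 1 ∧
      V.valuation (yc (P + T) - yc T) < 1 := by
    intro T hTS
    refine cls_conv hV (hT T hTS) ?_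
    rwa [add_sub_cancel_right]
  obtain ⟨t1, t2, t3⟩ := tt_val hV hP hP0
  have hx1 : 1 < V.valuation (xc P) := (ker_iff V hP0).1 hP
  have hy1 : 1 < V.valuation (yc P) := hx1.trans t3
  have htl := ttlt hV hP
  have E1 := h.e1x a S ha0 hS P hne
  have E2 := h.e1y a S ha0 hS P hne
  have hs1 : V.valuation (∑ T ∈ S, (xc (P + T) - xc T)) < 1 :=
    Valuation.map_sum_lt _ one_ne_zero fun T hTS => (hPT T hTS).2.1
  have hs2 : V.valuation (∑ T ∈ S, yc (P + T)) ≤ 1 :=
    Valuation.map_sum_le _ fun T hTS => gv_y hV (hPT T hTS).1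
  have hx2 : V.valuation (xc (act a P)) = V.valuation (xc P) := by
    have h1 : V.valuation (ak Ω a ^ 2 * xc (act a P)) = V.valuation (xc (act a P)) := by
      rw [map_mul, map_pow, hva, one_pow, one_mul]
    rw [← h1, E1]
    exact Valuation.map_add_eq_of_lt_left _ (hs1.trans hx1)
  have hy2 : V.valuation (yc (act a P)) = V.valuation (yc P) := by
    have h1 : V.valuation (ak Ω a ^ 3 * yc (act a P)) = V.valuation (yc (act a P)) := by
      rw [map_mul, map_pow, hva, one_pow, one_mul]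
    rw [← h1, E2]
    exact Valuation.map_add_eq_of_lt_left _ (hs2.trans_lt hy1)
  refine ⟨ker_of V (by rw [hx2]; exact hx1), ?_⟩
  have hyP0 : yc P ≠ 0 := by
    intro h0
    rw [h0, map_zero] at hy1
    exact absurd hy1 (not_lt.2 zero_le)
  have hyQ0 : yc (act a P) ≠ 0 := by
    intro h0
    rw [h0, map_zero] at hy2
    exact hyP0 ((Valuation.zero_iff _).1 hy2.symm)
  obtain ⟨D, hD⟩ : ∃ D, D = tt (act a P) - ak Ω a * tt P := ⟨_, rfl⟩
  rw [← hD]
  have key : ak Ω a ^ 3 * yc (act a P) * yc P * D = ak Ω a * (yc P * (∑ T ∈ S, (xc (P + T) - xc T)) -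
      xc P * (∑ T ∈ S, yc (P + T))) := by
    have h1 : (∑ T ∈ S, (xc (P + T) - xc T)) = ak Ω a ^ 2 * xc (act a P) - xc P := by
      rw [E1]
      ring
    have h2 : (∑ T ∈ S, yc (P + T)) = ak Ω a ^ 3 * yc (act a P) - yc P := by
      rw [E2]
      ring
    rw [h1, h2, hD, tt_eq, tt_eq]
    field_simp
    ring
  have hle : V.valuation (yc P) * V.valuation (yc P) * V.valuation D ≤ V.valuation (yc P) := by
    have h1 : V.valuation (ak Ω a ^ 3 * yc (act a P) * yc P * D) =
        V.valuation (yc P) * V.valuation (yc P) * V.valuation D := by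
      rw [map_mul, map_mul, map_mul, map_pow, hva, one_pow, one_mul, hy2]
    rw [← h1, key, map_mul, hva, one_mul]
    refine (V.valuation.map_sub _ _).trans (max_le ?_ ?_)
    · rw [map_mul]
      exact mul_le_of_le_one_right zero_le hs1.le
    · rw [map_mul]
      exact (mul_le_of_le_one_right zero_le hs2).trans t3.le
  calc V.valuation D = (V.valuation (tt P) ^ 3 * V.valuation (yc P)) ^ 2 * V.valuation D := by
        rw [t2, one_pow, one_mul]
    _ = V.valuation (tt P) ^ 6 * (V.valuation (yc P) * V.valuation (yc P) * V.valuation D) := by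
        rw [mul_pow, ← pow_mul, pow_two (V.valuation (yc P)), mul_assoc]
    _ ≤ V.valuation (tt P) ^ 6 * V.valuation (yc P) := mul_le_mul_right hle _
    _ = V.valuation (tt P) ^ 3 * (V.valuation (tt P) ^ 3 * V.valuation (yc P)) := by
        rw [← mul_assoc, ← pow_add]
    _ = V.valuation (tt P) ^ 3 := by rw [t2, mul_one]
    _ ≤ V.valuation (tt P) ^ 2 := pow_le_pow_right_of_le_one' htl.le (by norm_num)

end H55K
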