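import Mathlib
import Pool.Agent.Lib.H55K.G2
import Pool.Agent.Lib.H55K.G4B

/-! # H55K: the action on the kernel of reduction -/

open NumberField IsDedekindDomain WeierstrassCurve

namespace H55K

open H55P (IQ embF eF LF Per IsHecke Pt ac Inert Dec Nm)
open H35P (WAB Ker tt)


variable {F : Type} [Field F] [NumberField F] [IQ F] {A B : F} {Om : ℂ} {Ω : Type} [Field Ω] [DecidableEq Ω]
  [Algebra F Ω] {j : Ω →+* ℂ} {act : 𝓞 F →+* AddMonoid.End (Pt (WAB A B) Ω)} {V : ValuationSubring Ω}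

theorem g4c_nat {Ω : Type} [Field Ω] (V : ValuationSubring Ω) (n : ℕ) : V.valuation (n : Ω) ≤ 1 :=
  (V.valuation_le_one_iff _).2 (natCast_mem V n)

theorem g4c_key {F : Type} [Field F] [NumberField F] [IQ F] (a : 𝓞 F) :
    Nm (a + ((2 : ℕ) : 𝓞 F)) + Nm (a + ((0 : ℕ) : 𝓞 F)) = 2 * Nm (a + ((1 : ℕ) : 𝓞 F)) + 2 := by
  have h : ((Nm (a + ((2 : ℕ) : 𝓞 F)) + Nm (a + ((0 : ℕ) : 𝓞 F)) : ℕ) : 𝓞 F) =
      ((2 * Nm (a + ((1 : ℕ) : 𝓞 F)) + 2 : ℕ) : 𝓞 F) := by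
    push_cast
    rw [← mul_cj, ← mul_cj, ← mul_cj]
    simp only [map_add, map_zero, map_one, map_ofNat]
    ring
  exact_mod_cast h

theorem g4c_lt {Ω : Type} [Field Ω] {V : ValuationSubring Ω} {c : V.ValueGroup} (h0 : c ≠ 0) (h1 : c < 1) :
    c ^ 2 < c := by
  have h2 : 0 < c := zero_lt_iff.mpr h0
  calc c ^ 2 = c * c := pow_two c
    _ < c * 1 := mul_lt_mul_of_pos_left h1 h2
    _ = c := mul_one c

theorem g4c_le {Ω : Type} [Field Ω] {V : ValuationSubring Ω} {c : V.ValueGroup} (h1 : c < 1) :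
    c ^ 2 ≤ c := by
  by_cases h0 : c = 0
  · rw [h0]; simp
  · exact (g4c_lt h0 h1).le

omit [DecidableEq Ω] in
/-- Chunk G4C (S). Nm (a + 2) + Nm a = 2 Nm (a + 1) + 2 (mul_cj: Nm (a + n) = (a + n) (cj a + n)); if the values of Nm a, Nm (a + 1), Nm (a + 2) are all < 1 then V(2) < 1. -/
theorem exists_shift (hV : GV A B V) (a : 𝓞 F) : ∃ n : ℕ, n ≤ 2 ∧ V.valuation (Nm (a + (n : 𝓞 F)) : Ω) = 1 := by
  by_contra hno
  push Not at hno
  have hlt : ∀ n : ℕ, n ≤ 2 → V.valuation (Nm (a + (n : 𝓞 F)) : Ω) < 1 :=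
    fun n hn => lt_of_le_of_ne (g4c_nat V _) (hno n hn)
  have h2 : (2 : Ω) = (Nm (a + ((2 : ℕ) : 𝓞 F)) : Ω) + (Nm (a + ((0 : ℕ) : 𝓞 F)) : Ω) -
      2 * (Nm (a + ((1 : ℕ) : 𝓞 F)) : Ω) := by
    have h3 := congrArg (Nat.cast : ℕ → Ω) (g4c_key a)
    push_cast at h3 ⊢
    rw [h3]
    ring
  have h4 := hV.two
  rw [h2] at h4
  have h5 : V.valuation ((Nm (a + ((2 : ℕ) : 𝓞 F)) : Ω) + (Nm (a + ((0 : ℕ) : 𝓞 F)) : Ω) -
      2 * (Nm (a + ((1 : ℕ) : 𝓞 F)) : Ω)) < 1 := by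
    refine Valuation.map_sub_lt _ (Valuation.map_add_lt _ (hlt 2 le_rfl) (hlt 0 (by norm_num))) ?_
    rw [map_mul]
    calc V.valuation (2 : Ω) * V.valuation (Nm (a + ((1 : ℕ) : 𝓞 F)) : Ω)
        = V.valuation (Nm (a + ((1 : ℕ) : 𝓞 F)) : Ω) := by rw [hV.two, one_mul]
      _ < 1 := hlt 1 (by norm_num)
  rw [h4] at h5
  exact lt_irrefl _ h5

theorem g4c_split (act : 𝓞 F →+* AddMonoid.End (Pt (WAB A B) Ω)) (a : 𝓞 F) (n : ℕ) (P : Pt (WAB A B) Ω) :
    act a P = act (a + (n : 𝓞 F)) P + -(n • P) := by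
  rw [map_add, map_natCast]
  show act a P = (act a P + (n : AddMonoid.End (Pt (WAB A B) Ω)) P) + -(n • P)
  rw [AddMonoid.End.natCast_apply]
  abel

/-- Chunk G4C. n from exists_shift, act a P = act (a + n) P - n • P; n • P for n ≤ 2 by tt_add2 with c = V(tt P): V(tt (n • P) - n tt P) ≤ V(tt P)^2, V(tt (n • P)) ≤ V(tt P); tt_add2 for act (a + n) P and -(n • P)
(tt_neg). -/
theorem ker_act (h : CMA F A B Om j act) (hV : GV A B V) (a : 𝓞 F) {P : Pt (WAB A B) Ω} (hP : Ker V P) :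
    Ker V (act a P) := by
  obtain ⟨n, _, hN⟩ := exists_shift hV a
  rw [g4c_split act a n P]
  exact kadd hV (act_unit h hV hN hP).1 (kneg (knsmul hV hP n))

theorem g4c_nsmul (hV : GV A B V) {P : Pt (WAB A B) Ω} (hP : Ker V P) {n : ℕ} (hn : n ≤ 2) :
    V.valuation (tt (n • P) - n * tt P) ≤ V.valuation (tt P) ^ 2 := by
  have h0 : (0 : V.ValueGroup) ≤ V.valuation (tt P) ^ 2 := zero_le
  interval_cases n
  · rw [zero_smul, Nat.cast_zero, zero_mul, sub_zero]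
    have : (tt (0 : Pt (WAB A B) Ω) : Ω) = 0 := rfl
    rw [this, map_zero]
    exact h0
  · rw [one_smul, Nat.cast_one, one_mul, sub_self, map_zero]
    exact h0
  · have h1 := tt_add2 hV hP hP (V.valuation (tt P)) le_rfl le_rfl
    rw [two_smul]
    have h2 : tt (P + P) - ((2 : ℕ) : Ω) * tt P = tt (P + P) - tt P - tt P := by push_cast; ring
    rw [h2]
    exact h1

/-- Chunk G4C. -/
theorem tt_act (h : CMA F A B Om j act) (hV : GV A B V) (a : 𝓞 F) {P : Pt (WAB A B) Ω} (hP : Ker V P) :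
    V.valuation (tt (act a P) - ak Ω a * tt P) ≤ V.valuation (tt P) ^ 2 := by
  obtain ⟨n, hn, hN⟩ := exists_shift hV a
  obtain ⟨hK, h1⟩ := act_unit h hV hN hP
  have hc1 := ttlt hV hP
  have hcc := g4c_le hc1
  have h2 := g4c_nsmul hV hP hn
  have hX : V.valuation (tt (act (a + (n : 𝓞 F)) P)) ≤ V.valuation (tt P) := by
    have e : tt (act (a + (n : 𝓞 F)) P) = (tt (act (a + (n : 𝓞 F)) P) - ak Ω (a + (n : 𝓞 F)) * tt P) +
      ak Ω (a + (n : 𝓞 F)) * tt P := by ring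
    rw [e]
    refine Valuation.map_add_le _ (h1.trans hcc) ?_
    rw [map_mul]
    exact mul_le_of_le_one_left' (ak_le V _)
  have hY : V.valuation (tt (-(n • P))) ≤ V.valuation (tt P) := by
    rw [tt_neg, Valuation.map_neg]
    have e : tt (n • P) = (tt (n • P) - n * tt P) + n * tt P := by ring
    rw [e]
    refine Valuation.map_add_le _ (h2.trans hcc) ?_
    rw [map_mul]
    exact mul_le_of_le_one_left' (g4c_nat V _)
  have h3 := tt_add2 hV hK (kneg (knsmul hV hP n)) _ hX hY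
  rw [g4c_split act a n P]
  have hak : ak Ω (a + (n : 𝓞 F)) = ak Ω a + n := by
    unfold ak
    simp
  have e : tt (act (a + (n : 𝓞 F)) P + -(n • P)) - ak Ω a * tt P =
      (tt (act (a + (n : 𝓞 F)) P + -(n • P)) - tt (act (a + (n : 𝓞 F)) P) - tt (-(n • P))) +
      (tt (act (a + (n : 𝓞 F)) P) - ak Ω (a + (n : 𝓞 F)) * tt P) - (tt (n • P) - n * tt P) := by
    rw [tt_neg, hak]
    ring
  rw [e]
  exact Valuation.map_sub_le _ (Valuation.map_add_le _ h3 h1) h2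

/-- Chunk G4C. If act b T = 0 and V(b) = 1 then V(tt T) = V(b tt T) ≤ V(tt T)^2 and V(tt T) < 1, so tt T = 0, T = 0 (tt_zero). -/
theorem tor_unit (h : CMA F A B Om j act) (hV : GV A B V) {b : 𝓞 F} (hb : V.valuation (ak Ω b) = 1)
    {T : Pt (WAB A B) Ω} (hT : T ∈ Tor act b) (hK : Ker V T) : T = 0 := by
  have h1 := tt_act h hV b hK
  have h2 : act b T = 0 := hT
  rw [h2] at h1
  have h3 : (tt (0 : Pt (WAB A B) Ω) : Ω) = 0 := rfl
  rw [h3, zero_sub, Valuation.map_neg, map_mul, hb, one_mul] at h1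
  rw [← tt_zero hV hK]
  by_contra h4
  have h5 : V.valuation (tt T) ≠ 0 := (Valuation.ne_zero_iff _).2 h4
  exact absurd h1 (not_le.2 (g4c_lt h5 (ttlt hV hK)))

/-- Chunk G4C. If V(a) = 1 and P in Ker: V(tt (act a P)) = V(tt P). -/
theorem tt_act_unit (h : CMA F A B Om j act) (hV : GV A B V) {a : 𝓞 F} (ha : V.valuation (ak Ω a) = 1)
    {P : Pt (WAB A B) Ω} (hP : Ker V P) : V.valuation (tt (act a P)) = V.valuation (tt P) := by
  by_cases h0 : P = 0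
  · rw [h0, map_zero]
  · have h1 := tt_act h hV a hP
    have h2 : V.valuation (tt P) ≠ 0 := (Valuation.ne_zero_iff _).2 (fun h3 => h0 ((tt_zero hV hP).1 h3))
    have h3 := h1.trans_lt (g4c_lt h2 (ttlt hV hP))
    have h4 : V.valuation (ak Ω a * tt P) = V.valuation (tt P) := by rw [map_mul, ha, one_mul]
    rw [← h4]
    exact Valuation.map_eq_of_sub_lt _ (by rw [h4]; exact h3)

end H55K
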