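import Mathlib
import Pool.Agent.Lib.H55K.G1
import Pool.Agent.Lib.H55K.G4A

/-! # H55K: points killed by a prime element below V -/

open NumberField IsDedekindDomain WeierstrassCurve

namespace H55K

open H55P (IQ embF eF LF Per IsHecke Pt ac Inert Dec Nm)
open H35P (WAB Ker tt)


variable {F : Type} [Field F] [NumberField F] [IQ F] {A B : F} {Om : ℂ} {Ω : Type} [Field Ω] [DecidableEq Ω]
  [Algebra F Ω] {j : Ω →+* ℂ} {act : 𝓞 F →+* AddMonoid.End (Pt (WAB A B) Ω)} {V : ValuationSubring Ω}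

/-- Chunk G5A (S/M). There are many classes modulo Ker V. Let X₀ not in H. Suppose every X not in H satisfies Ker V (X - c) for some c in C. For h in H: X₀ + h is not in H, so X₀ + h, and every element of the group outside H, lies in finitely many classes modulo kerG;
so the quotient by kerG is finite: there are at most 2 |C| classes. But Tor act (2^k) has 4^k elements (tor_card, Nm_nat), pairwise different modulo kerG (ker_tors with n = 2^k, V(2) = 1). -/
theorem inf_cls (h : CMA F A B Om j act) (hV : GV A B V) (H : AddSubgroup (Pt (WAB A B) Ω)) (hH : ∃ X, X ∉ H)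
    (C : Finset (Pt (WAB A B) Ω)) : ∃ X, X ∉ H ∧ ∀ c ∈ C, ¬ Ker V (X - c) := by
  classical
  by_contra hcon
  push Not at hcon
  obtain ⟨X₀, hX₀⟩ := hH
  obtain ⟨C', hC'⟩ : ∃ C' : Finset (Pt (WAB A B) Ω), C' = C ∪ C.image (fun c => c - X₀) := ⟨_, rfl⟩
  have hall : ∀ P : Pt (WAB A B) Ω, ∃ c ∈ C', Ker V (P - c) := by
    intro P
    by_cases hP : P ∈ H
    · have h1 : X₀ + P ∉ H := fun h2 => hX₀ (by simpa using H.sub_mem h2 hP)
      obtain ⟨c, hc, hk⟩ := hcon _ h1
      refine ⟨c - X₀, ?_, ?_⟩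
      · rw [hC', Finset.mem_union, Finset.mem_image]
        exact Or.inr ⟨c, hc, rfl⟩
      · have e : P - (c - X₀) = X₀ + P - c := by abel
        rw [e]
        exact hk
    · obtain ⟨c, hc, hk⟩ := hcon P hP
      exact ⟨c, by rw [hC', Finset.mem_union]; exact Or.inl hc, hk⟩
  obtain ⟨k, hk⟩ : ∃ k : ℕ, C'.card < (2 ^ k) ^ 2 := by
    refine ⟨C'.card, (Nat.lt_two_pow_self).trans_le ?_⟩
    exact Nat.le_self_pow (by norm_num) _
  obtain ⟨b, hb⟩ : ∃ b : 𝓞 F, b = ((2 ^ k : ℕ) : 𝓞 F) := ⟨_, rfl⟩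
  have hb0 : b ≠ 0 := by
    rw [hb]
    exact_mod_cast (pow_ne_zero k (two_ne_zero))
  have hcard := tor_card h hb0
  rw [hb, Nm_nat] at hcard
  choose f hf hfk using hall
  have hinj : Function.Injective (fun T : Tor act ((2 ^ k : ℕ) : 𝓞 F) => (⟨f T, hf T⟩ : C')) := by
    intro T T' hTT
    have h1 : f (T : Pt (WAB A B) Ω) = f (T' : Pt (WAB A B) Ω) := congrArg Subtype.val hTT
    have h2 := hfk (T : Pt (WAB A B) Ω)
    have h3 := hfk (T' : Pt (WAB A B) Ω)
    rw [← h1] at h3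
    have h4 := ksub hV h2 h3
    have e : (T : Pt (WAB A B) Ω) - f T - ((T' : Pt (WAB A B) Ω) - f T) = (T : Pt (WAB A B) Ω) - T' := by abel
    rw [e] at h4
    have h5 : (2 ^ k : ℕ) • ((T : Pt (WAB A B) Ω) - T') = 0 := by
      have h6 : (T : Pt (WAB A B) Ω) - T' ∈ Tor act ((2 ^ k : ℕ) : 𝓞 F) := AddSubgroup.sub_mem _ T.2 T'.2
      have h7 : act ((2 ^ k : ℕ) : 𝓞 F) ((T : Pt (WAB A B) Ω) - T') = 0 := h6
      rw [map_natCast act] at h7
      exact h7
    have h6 : V.valuation (((2 ^ k : ℕ) : ℕ) : Ω) = 1 := by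
      rw [Nat.cast_pow, map_pow]
      have : V.valuation ((2 : ℕ) : Ω) = 1 := by exact_mod_cast hV.two
      rw [this, one_pow]
    have h7 := ker_tors hV (2 ^ k) h6 h5 h4
    exact Subtype.ext (sub_eq_zero.1 h7)
  have hle := Nat.card_le_card_of_injective _ hinj
  rw [hcard, Nat.card_eq_fintype_card, Fintype.card_coe] at hle
  omega

end H55K
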