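import Mathlib
import Pool.Agent.Lib.H55K.G4C
import Pool.Agent.Lib.H55K.G5A

/-! # H55K: points killed by a prime element below V -/

open NumberField IsDedekindDomain WeierstrassCurve

namespace H55K

open H55P (IQ embF eF LF Per IsHecke Pt ac Inert Dec Nm)
open H35P (WAB Ker tt)


variable {F : Type} [Field F] [NumberField F] [IQ F] {A B : F} {Om : ℂ} {Ω : Type} [Field Ω] [DecidableEq Ω]
  [Algebra F Ω] {j : Ω →+* ℂ} {act : 𝓞 F →+* AddMonoid.End (Pt (WAB A B) Ω)} {V : ValuationSubring Ω}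

/-- Chunk G5B (S). The subgroup of the X with act β X in Ker V. -/
noncomputable def Hb (act : 𝓞 F →+* AddMonoid.End (Pt (WAB A B) Ω)) (hV : GV A B V) (β : 𝓞 F) :
    AddSubgroup (Pt (WAB A B) Ω) := (kerG hV).comap (act β : Pt (WAB A B) Ω →+ Pt (WAB A B) Ω)

theorem mem_Hb (hV : GV A B V) (β : 𝓞 F) (X : Pt (WAB A B) Ω) : X ∈ Hb act hV β ↔ Ker V (act β X) := Iff.rfl

theorem g5b_ex (h : CMA F A B Om j act) : ∃ X : Pt (WAB A B) Ω, X ≠ 0 := by
  obtain ⟨T₀, hT, _, h1, _⟩ := h.gen 2 two_ne_zero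
  refine ⟨T₀, ?_⟩
  rintro rfl
  have h2 : act (1 : 𝓞 F) (0 : Pt (WAB A B) Ω) = 0 := map_zero _
  have h3 : (2 : 𝓞 F) ∣ 1 := (h1 1).1 h2
  obtain ⟨c, hc⟩ := h3
  have h4 : IsUnit (2 : 𝓞 F) := IsUnit.of_mul_eq_one c hc.symm
  have h5 : Nm (2 : 𝓞 F) = 1 := by
    unfold H55P.Nm
    rw [Ideal.span_singleton_eq_top.2 h4, Ideal.absNorm_top]
  have h6 := Nm_nat (F := F) 2
  have h7 : ((2 : ℕ) : 𝓞 F) = 2 := by norm_num
  rw [h7, h5] at h6
  norm_num at h6

/-- Chunk G5B (S). A point P outside Ker (inf_cls for H = bottom, C = {0}; some X ≠ 0 exists), surj. -/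
theorem Hb_ne (h : CMA F A B Om j act) (hV : GV A B V) {β : 𝓞 F} (hβ : β ≠ 0) : ∃ X, X ∉ Hb act hV β := by
  obtain ⟨X₀, hX₀⟩ := g5b_ex h
  obtain ⟨P, _, hP⟩ := inf_cls h hV ⊥ ⟨X₀, hX₀⟩ {0}
  have hP' : ¬ Ker V P := by
    have := hP 0 (Finset.mem_singleton_self 0)
    rwa [sub_zero] at this
  obtain ⟨Q, hQ⟩ := h.surj β hβ P
  refine ⟨Q, fun hQ' => hP' ?_⟩
  rw [mem_Hb, hQ] at hQ'
  exact hQ'

/-- Chunk G5B. X outside Hb is outside Ker (ker_act), and so are all X + R, R killed by β. -/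
theorem Hb_add (h : CMA F A B Om j act) (hV : GV A B V) {β : 𝓞 F} {X R : Pt (WAB A B) Ω}
    (hX : X ∉ Hb act hV β) (hR : act β R = 0) : ¬ Ker V (X + R) ∧ ¬ Ker V X ∧ X + R ∉ Hb act hV β := by
  have h1 : ∀ Y, Y ∉ Hb act hV β → ¬ Ker V Y := fun Y hY hK => hY ((mem_Hb hV β Y).2 (ker_act h hV β hK))
  have h2 : X + R ∉ Hb act hV β := by
    rw [mem_Hb, map_add, hR, add_zero]
    exact hX
  exact ⟨h1 _ h2, h1 _ hX, h2⟩

/-- Chunk G5B. Prime β: any two nonzero points killed by β are multiples: gen gives R = act a T₀, R' = act a' T₀, β does not divide a, so a is invertible modulo β (span {β} is maximal), R' = act c R with β not dividing c. If V(β) < 1 then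
V(c) = 1 (u c + w β = 1). -/
theorem tor_trans (h : CMA F A B Om j act) (V : ValuationSubring Ω) {β : 𝓞 F} (hβ : Prime β)
    (hv : V.valuation (ak Ω β) < 1) {R R' : Pt (WAB A B) Ω} (hR : R ∈ Tor act β) (h0 : R ≠ 0)
    (hR' : R' ∈ Tor act β) (h0' : R' ≠ 0) : ∃ c : 𝓞 F, R' = act c R ∧ V.valuation (ak Ω c) = 1 := by
  obtain ⟨T₀, hT, hgen, hz, _⟩ := h.gen β hβ.ne_zero
  obtain ⟨a, ha⟩ := hgen R hR
  obtain ⟨a', ha'⟩ := hgen R' hR'
  have hna : ¬ β ∣ a := fun hd => h0 (by rw [ha]; exact (hz a).2 hd)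
  have hna' : ¬ β ∣ a' := fun hd => h0' (by rw [ha']; exact (hz a').2 hd)
  have hmax : (Ideal.span {β}).IsMaximal := by
    have hp : (Ideal.span {β}).IsPrime := (Ideal.span_singleton_prime hβ.ne_zero).2 hβ
    exact hp.isMaximal (by rw [Ne, Ideal.span_singleton_eq_bot]; exact hβ.ne_zero)
  have hinv : ∀ x : 𝓞 F, ¬ β ∣ x → ∃ u w : 𝓞 F, u * x + w * β = 1 := by
    intro x hx
    obtain ⟨u, y, hy, hu⟩ := hmax.exists_inv (fun hm => hx (Ideal.mem_span_singleton.1 hm))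
    obtain ⟨w, rfl⟩ := Ideal.mem_span_singleton.1 hy
    exact ⟨u, w, by rw [← hu]; ring⟩
  obtain ⟨u, w, huw⟩ := hinv a hna
  -- T₀ = act u R
  have hT0 : T₀ = act u R := by
    rw [ha]
    have h1 : act u (act a T₀) = act (u * a) T₀ := by rw [map_mul]; rfl
    rw [h1]
    have h2 : act (u * a + w * β) T₀ = act (u * a) T₀ := by
      rw [map_add]
      show act (u * a) T₀ + act (w * β) T₀ = act (u * a) T₀
      rw [map_mul act w β]
      show act (u * a) T₀ + act w (act β T₀) = act (u * a) T₀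
      have h3 : act β T₀ = 0 := hT
      rw [h3, map_zero, add_zero]
    rw [← h2, huw, map_one]
    rfl
  have hR'2 : R' = act (a' * u) R := by
    rw [map_mul]
    show R' = act a' (act u R)
    rw [← hT0]
    exact ha'
  refine ⟨a' * u, hR'2, ?_⟩
  have hnc : ¬ β ∣ a' * u := by
    intro hd
    obtain ⟨y, hy⟩ := hd
    apply h0'
    rw [hR'2, hy, mul_comm, map_mul]
    show act y (act β R) = 0
    have h3 : act β R = 0 := hR
    rw [h3, map_zero]
  obtain ⟨u', w', h'⟩ := hinv _ hnc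
  refine le_antisymm (ak_le V _) ?_
  by_contra hlt
  push Not at hlt
  have h4 : V.valuation (ak Ω (u' * (a' * u) + w' * β)) < 1 := by
    have e : ak Ω (u' * (a' * u) + w' * β) = ak Ω u' * ak Ω (a' * u) + ak Ω w' * ak Ω β := by
      unfold ak
      simp only [map_add, map_mul]
    rw [e]
    refine Valuation.map_add_lt _ ?_ ?_
    · rw [map_mul]
      exact lt_of_le_of_lt (mul_le_of_le_one_left' (ak_le V _)) hlt
    · rw [map_mul]
      exact lt_of_le_of_lt (mul_le_of_le_one_left' (ak_le V _)) hv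
  rw [h'] at h4
  have e1 : ak Ω (1 : 𝓞 F) = 1 := by unfold ak; simp
  rw [e1, map_one] at h4
  exact lt_irrefl _ h4

end H55K
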