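import Mathlib
import Pool.Agent.Lib.H55K.G5B

/-! # H55K: points killed by a prime element below V -/

open NumberField IsDedekindDomain WeierstrassCurve

namespace H55K

open H55P (IQ embF eF LF Per IsHecke Pt ac Inert Dec Nm)
open H35P (WAB Ker tt)


variable {F : Type} [Field F] [NumberField F] [IQ F] {A B : F} {Om : ℂ} {Ω : Type} [Field Ω] [DecidableEq Ω]
  [Algebra F Ω] {j : Ω →+* ℂ} {act : 𝓞 F →+* AddMonoid.End (Pt (WAB A B) Ω)} {V : ValuationSubring Ω}

/-- Chunk G5C (M). The points killed by β are in the kernel of reduction. S from exists_TN. Suppose R₀ in S is not in Ker. Then no R in S is (tor_trans, ker_act). Y outside Hb (Hb_ne), X outside Hb with X - (Y - R), X - (-Y - R) not in Ker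
for all R in S and R = 0 (inf_cls). e2 (act β X ≠ 0, act β Y ≠ 0 since they are not in Ker). All coordinates are integral (not_ker, Hb_add), so the left side has value ≤ V(β)^2 < 1; so some factor of the right side has value < 1: V(xc (X + R) - xc Y) < 1 for some
R in S or R = 0; cls_x: X + R - Y or X + R + Y in Ker: contradiction. -/
theorem tor_ker (h : CMA F A B Om j act) (hV : GV A B V) {β : 𝓞 F} (hβ : Prime β)
    (hv : V.valuation (ak Ω β) < 1) {T : Pt (WAB A B) Ω} (hT : T ∈ Tor act β) : Ker V T := by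
  classical
  by_contra hK
  have hT0 : T ≠ 0 := (not_ker V hK).1
  obtain ⟨S, hS, -⟩ := exists_TN h hβ.ne_zero
  have hSK : ∀ R ∈ S, ¬ Ker V R := by
    intro R hR hRK
    obtain ⟨h1, h2⟩ := (hS R).1 hR
    obtain ⟨c, hc, -⟩ := tor_trans h V hβ hv (R := R) (R' := T) h1 h2 hT hT0
    apply hK
    rw [hc]
    exact ker_act h hV c hRK
  obtain ⟨Y, hY⟩ := Hb_ne h hV hβ.ne_zero
  obtain ⟨X, hX, hXC⟩ := inf_cls h hV (Hb act hV β) ⟨Y, hY⟩
    ((insert 0 S).image (fun R => Y - R) ∪ (insert 0 S).image (fun R => -Y - R))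
  have hYK : ¬ Ker V Y := (Hb_add h hV hY (R := 0) (map_zero _)).2.1
  have hXK : ¬ Ker V X := (Hb_add h hV hX (R := 0) (map_zero _)).2.1
  have haX : ¬ Ker V (act β X) := hX
  have haY : ¬ Ker V (act β Y) := hY
  have hcl : ∀ R ∈ insert 0 S, ¬ Ker V (X + R) → V.valuation (xc (X + R) - xc Y) = 1 := by
    intro R hR hXR
    refine le_antisymm (V.valuation.map_sub_le (not_ker V hXR).2 (not_ker V hYK).2) ?_
    by_contra hlt
    rw [not_le] at hlt
    rcases cls_x hV hXR hYK hlt with h1 | h1
    · refine hXC (Y - R) (Finset.mem_union_left _ (Finset.mem_image_of_mem _ hR)) ?_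
      have e : X - (Y - R) = X + R - Y := by abel
      rw [e]
      exact h1
    · refine hXC (-Y - R) (Finset.mem_union_right _ (Finset.mem_image_of_mem _ hR)) ?_
      have e : X - (-Y - R) = X + R + Y := by abel
      rw [e]
      exact h1
  have h0 : V.valuation (xc X - xc Y) = 1 := by
    have := hcl 0 (Finset.mem_insert_self _ _) (by rw [add_zero]; exact hXK)
    rw [add_zero] at this
    exact this
  have hR : ∀ R ∈ S, V.valuation (xc (X + R) - xc Y) = 1 := fun R hR =>
    hcl R (Finset.mem_insert_of_mem hR) (Hb_add h hV hX ((hS R).1 hR).1).1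
  have he := congrArg V.valuation (h.e2 β S hβ.ne_zero hS X Y (not_ker V haX).1 (not_ker V haY).1)
  rw [map_mul, map_mul, map_mul, map_pow, map_prod, map_prod, h0, Finset.prod_congr rfl hR,
    Finset.prod_const_one, one_mul] at he
  have h1 : V.valuation (ak Ω β) ^ 2 < 1 := pow_lt_one₀ zero_le hv two_ne_zero
  have h2 : V.valuation (xc (act β X) - xc (act β Y)) ≤ 1 :=
    V.valuation.map_sub_le (not_ker V haX).2 (not_ker V haY).2
  have h3 : ∏ R ∈ S, V.valuation (xc R - xc Y) ≤ 1 := Finset.prod_le_one' fun R hR =>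
    V.valuation.map_sub_le (not_ker V (hSK R hR)).2 (not_ker V hYK).2
  have h4 : V.valuation (ak Ω β) ^ 2 * V.valuation (xc (act β X) - xc (act β Y)) *
      ∏ R ∈ S, V.valuation (xc R - xc Y) < 1 := by
    refine lt_of_le_of_lt (mul_le_of_le_one_right' h3) ?_
    exact lt_of_le_of_lt (mul_le_of_le_one_right' h2) h1
  rw [he] at h4
  exact lt_irrefl _ h4

end H55K
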