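import Mathlib
import Pool.Agent.Lib.H55K.G5C

/-! # H55K: points killed by a prime element below V -/

open NumberField IsDedekindDomain WeierstrassCurve

namespace H55K

open H55P (IQ embF eF LF Per IsHecke Pt ac Inert Dec Nm)
open H35P (WAB Ker tt)


variable {F : Type} [Field F] [NumberField F] [IQ F] {A B : F} {Om : ℂ} {Ω : Type} [Field Ω] [DecidableEq Ω]
  [Algebra F Ω] {j : Ω →+* ℂ} {act : 𝓞 F →+* AddMonoid.End (Pt (WAB A B) Ω)} {V : ValuationSubring Ω}

/-- Chunk G5D (M). The value. T ≠ 0 in Tor; tau = V(tt R) is the same for all R in S (tor_trans, tt_act_unit), so V(xc R) tau^2 = 1. P₁ outside Ker (Hb_ne, its image), P₂ outside Ker with P₂ - P₁, P₂ + P₁ not in Ker (inf_cls with H = kerG, C = {P₁, -P₁, 0}). surj: P₁ = act β X, P₂ = act β Y; X, Y outside Hb. V(xc P₁ - xc P₂) = 1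
(cls_diff). X - Y, X + Y are not in Ker (ker_act), and so on for X + R (tor_ker, ksub): V(xc (X + R) - xc Y) = 1 for R = 0 and R in S (cls_diff, Hb_add). V(xc R - xc Y) = V(xc R) for R in S (V(xc Y) ≤ 1 < V(xc R)). e2: V(β)^2 * prod V(xc R) = 1, so V(β)^2 = (tau^2)^(Nm β - 1) (S.card = Nm β - 1), hence
tau^(Nm β - 1) = V(β) (pow_left_injective in the ordered group with zero). -/
theorem tor_ram (h : CMA F A B Om j act) (hV : GV A B V) {β : 𝓞 F} (hβ : Prime β) (hv : V.valuation (ak Ω β) < 1)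
    {T : Pt (WAB A B) Ω} (hT : T ∈ Tor act β) (h0 : T ≠ 0) :
    Ker V T ∧ V.valuation (tt T) ^ (Nm β - 1) = V.valuation (ak Ω β) := by
  classical
  have hTK := tor_ker h hV hβ hv hT
  refine ⟨hTK, ?_⟩
  obtain ⟨S, hS, hcard⟩ := exists_TN h hβ.ne_zero
  have hSK : ∀ R ∈ S, Ker V R := fun R hR => tor_ker h hV hβ hv ((hS R).1 hR).1
  have htau : ∀ R ∈ S, V.valuation (tt R) = V.valuation (tt T) := by
    intro R hR
    obtain ⟨h1, h2⟩ := (hS R).1 hR
    obtain ⟨c, hc, hc1⟩ := tor_trans h V hβ hv (R := T) (R' := R) hT h0 h1 h2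
    rw [hc]
    exact tt_act_unit h hV hc1 hTK
  obtain ⟨X, hX⟩ := Hb_ne h hV hβ.ne_zero
  have haX : ¬ Ker V (act β X) := hX
  obtain ⟨P₂, hP₂, hPC⟩ := inf_cls h hV (kerG hV) ⟨act β X, haX⟩ {act β X, -act β X}
  obtain ⟨Y, hY⟩ := h.surj β hβ.ne_zero P₂
  have haY : ¬ Ker V (act β Y) := by
    rw [hY]
    exact hP₂
  have hYH : Y ∉ Hb act hV β := haY
  have hXK : ¬ Ker V X := (Hb_add h hV hX (R := 0) (map_zero _)).2.1
  have hYK : ¬ Ker V Y := (Hb_add h hV hYH (R := 0) (map_zero _)).2.1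
  have hd1 : ¬ Ker V (act β X - act β Y) := by
    intro hk
    refine hPC (act β X) (by simp) ?_
    have := kneg hk
    rw [neg_sub, hY] at this
    exact this
  have hd2 : ¬ Ker V (act β X + act β Y) := by
    intro hk
    refine hPC (-act β X) (by simp) ?_
    rw [sub_neg_eq_add, add_comm, ← hY]
    exact hk
  have hcl : ∀ R, act β R = 0 → V.valuation (xc (X + R) - xc Y) = 1 := by
    intro R hR
    refine cls_diff hV (Hb_add h hV hX hR).1 hYK ?_ ?_
    · intro hk
      have := ker_act h hV β hk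
      rw [map_sub, map_add, hR, add_zero] at this
      exact hd1 this
    · intro hk
      have := ker_act h hV β hk
      rw [map_add, map_add, hR, add_zero] at this
      exact hd2 this
  have hc0 : V.valuation (xc X - xc Y) = 1 := by
    have := hcl 0 (map_zero _)
    rw [add_zero] at this
    exact this
  have hR1 : ∀ R ∈ S, V.valuation (xc R - xc Y) = V.valuation (xc R) := by
    intro R hR
    refine Valuation.map_sub_eq_of_lt_left _ (lt_of_le_of_lt (not_ker V hYK).2 ?_)
    exact (ker_iff V ((hS R).1 hR).2).1 (hSK R hR)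
  have he := congrArg V.valuation (h.e2 β S hβ.ne_zero hS X Y (not_ker V haX).1 (not_ker V haY).1)
  rw [map_mul, map_mul, map_mul, map_pow, map_prod, map_prod, hc0,
    Finset.prod_congr rfl fun R hR => hcl R ((hS R).1 hR).1,
    Finset.prod_const_one, one_mul, cls_diff hV haX haY hd1 hd2, mul_one,
    Finset.prod_congr rfl hR1] at he
  have hprod : ∏ R ∈ S, (V.valuation (tt T) ^ 2 * V.valuation (xc R)) = 1 := by
    refine Finset.prod_eq_one fun R hR => ?_
    rw [← htau R hR]
    exact (tt_val hV (hSK R hR) ((hS R).1 hR).2).1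
  rw [Finset.prod_mul_distrib, Finset.prod_const, hcard] at hprod
  have hne : ∏ R ∈ S, V.valuation (xc R) ≠ 0 := by
    intro hz
    rw [hz, mul_zero] at he
    exact zero_ne_one he
  have h2 : (V.valuation (tt T) ^ (Nm β - 1)) ^ 2 = V.valuation (ak Ω β) ^ 2 := by
    rw [← pow_mul, mul_comm (Nm β - 1) 2, pow_mul]
    exact mul_right_cancel₀ hne (hprod.trans he.symm)
  exact (pow_left_inj₀ zero_le zero_le two_ne_zero).1 h2

end H55K
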