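import Mathlib
import Pool.Agent.Lib.H55K.G5D

/-! # H55K: points killed by a prime element below V -/

open NumberField IsDedekindDomain WeierstrassCurve

namespace H55K

open H55P (IQ embF eF LF Per IsHecke Pt ac Inert Dec Nm)
open H35P (WAB Ker tt)


variable {F : Type} [Field F] [NumberField F] [IQ F] {A B : F} {Om : ℂ} {Ω : Type} [Field Ω] [DecidableEq Ω]
  [Algebra F Ω] {j : Ω →+* ℂ} {act : 𝓞 F →+* AddMonoid.End (Pt (WAB A B) Ω)} {V : ValuationSubring Ω}

/-- Chunk G5E (S/M). For S: V(β)^2 * prod over S of V(xc R) = 1 (from tor_ram and tt_val). -/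
theorem prod_xR (h : CMA F A B Om j act) (hV : GV A B V) {β : 𝓞 F} (hβ : Prime β) (hv : V.valuation (ak Ω β) < 1)
    {S : Finset (Pt (WAB A B) Ω)} (hS : TN act β S) :
    V.valuation (ak Ω β) ^ 2 * ∏ R ∈ S, V.valuation (xc R) = 1 := by
  classical
  obtain ⟨S', hS', hcard⟩ := exists_TN h hβ.ne_zero
  have hSS : S' = S := by
    ext R
    rw [hS R, hS' R]
  rw [hSS] at hcard
  have hne : S.card ≠ 0 := by
    rw [hcard]
    intro h1
    have h2 : Nm β ≠ 1 := by
      intro h3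
      unfold Nm at h3
      rw [Ideal.absNorm_eq_one_iff, Ideal.span_singleton_eq_top] at h3
      exact hβ.not_isUnit h3
    have h3 : Nm β ≠ 0 := fun h4 => hβ.ne_zero (H55P.Nm_eq_zero.1 h4)
    omega
  have hR : ∀ R ∈ S, V.valuation (ak Ω β) ^ 2 * V.valuation (xc R) ^ S.card = 1 := by
    intro R hR
    obtain ⟨h1, h2⟩ := (hS R).1 hR
    obtain ⟨hK, h3⟩ := tor_ram h hV hβ hv (T := R) h1 h2
    rw [hcard, ← h3, ← pow_mul, mul_comm (Nm β - 1) 2, pow_mul, ← mul_pow, (tt_val hV hK h2).1, one_pow]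
  have hprod : ∏ R ∈ S, (V.valuation (ak Ω β) ^ 2 * V.valuation (xc R) ^ S.card) = 1 := Finset.prod_eq_one hR
  rw [Finset.prod_mul_distrib, Finset.prod_const, Finset.prod_pow, ← mul_pow] at hprod
  exact (pow_eq_one_iff.mp hprod).resolve_right hne

theorem G5E_xRY (h : CMA F A B Om j act) (hV : GV A B V) {β : 𝓞 F} (hβ : Prime β) (hv : V.valuation (ak Ω β) < 1)
    {S : Finset (Pt (WAB A B) Ω)} (hS : TN act β S) {Y : Pt (WAB A B) Ω} (hYK : ¬ Ker V Y) {R : Pt (WAB A B) Ω}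
    (hR : R ∈ S) : V.valuation (xc R - xc Y) = V.valuation (xc R) := by
  refine Valuation.map_sub_eq_of_lt_left _ (lt_of_le_of_lt (not_ker V hYK).2 ?_)
  exact (ker_iff V ((hS R).1 hR).2).1 (tor_ker h hV hβ hv ((hS R).1 hR).1)

/-- Chunk G5E. Suppose act β X in Ker, X not in Ker. act β X ≠ 0 (else X in Tor, tor_ker). Y outside Hb (Hb_ne). e2: V(xc (act β X) - xc (act β Y)) = V(xc (act β X)) > 1; V(xc R - xc Y) = V(xc R) for R in S; so the left side has value > 1 by prod_xR; the right side has value ≤ 1 (X + R not in Ker because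
R is in Ker and X is not; Y not in Ker): contradiction. -/
theorem ker_red (h : CMA F A B Om j act) (hV : GV A B V) {β : 𝓞 F} (hβ : Prime β)
    (hv : V.valuation (ak Ω β) < 1) {X : Pt (WAB A B) Ω} (hX : Ker V (act β X)) : Ker V X := by
  classical
  by_contra hXK
  obtain ⟨S, hS, -⟩ := exists_TN h hβ.ne_zero
  have haX0 : act β X ≠ 0 := fun h0 => hXK (tor_ker h hV hβ hv (T := X) h0)
  obtain ⟨Y, hY⟩ := Hb_ne h hV hβ.ne_zero
  have hYK : ¬ Ker V Y := (Hb_add h hV hY (R := 0) (map_zero _)).2.1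
  have haY : ¬ Ker V (act β Y) := hY
  have h1 : 1 < V.valuation (xc (act β X)) := (ker_iff V haX0).1 hX
  have h2 : V.valuation (xc (act β X) - xc (act β Y)) = V.valuation (xc (act β X)) :=
    Valuation.map_sub_eq_of_lt_left _ (lt_of_le_of_lt (not_ker V haY).2 h1)
  have he := congrArg V.valuation (h.e2 β S hβ.ne_zero hS X Y haX0 (not_ker V haY).1)
  rw [map_mul, map_mul, map_mul, map_pow, map_prod, map_prod, h2,
    Finset.prod_congr rfl fun R hR => G5E_xRY h hV hβ hv hS hYK hR, mul_right_comm,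
    prod_xR h hV hβ hv hS, one_mul] at he
  have h3 : V.valuation (xc X - xc Y) * ∏ R ∈ S, V.valuation (xc (X + R) - xc Y) ≤ 1 := by
    refine (mul_le_of_le_one_right' ?_).trans (V.valuation.map_sub_le (not_ker V hXK).2 (not_ker V hYK).2)
    refine Finset.prod_le_one' fun R hR => ?_
    refine V.valuation.map_sub_le (not_ker V fun hk => hXK ?_).2 (not_ker V hYK).2
    have := ksub hV hk (tor_ker h hV hβ hv ((hS R).1 hR).1)
    rw [add_sub_cancel_right] at this
    exact this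
  rw [← he] at h3
  exact absurd h1 (not_lt.2 h3)

/-- Chunk G5E. If Q = 0 or Q + R = 0 for some R in S then both sides are 0 (tt 0 = 0). Otherwise act β Q ≠ 0 (Q is not killed by β), Y outside Hb; e2 with X = Q: V(xc (act β Q) - xc (act β Y)) = V(xc (act β Q)), V(xc (Q + R) - xc Y) = V(xc (Q + R)) > 1, V(xc R - xc Y) = V(xc R); prod_xR: V(xc (act β Q)) =
V(xc Q) * prod V(xc (Q + R)); squares of tt by tt_val, then pow_left_injective. -/
theorem ker_prod (h : CMA F A B Om j act) (hV : GV A B V) {β : 𝓞 F} (hβ : Prime β)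
    (hv : V.valuation (ak Ω β) < 1) {S : Finset (Pt (WAB A B) Ω)} (hS : TN act β S) {Q : Pt (WAB A B) Ω}
    (hQ : Ker V Q) :
    V.valuation (tt Q) * ∏ R ∈ S, V.valuation (tt (Q + R)) = V.valuation (tt (act β Q)) := by
  classical
  have htt0 : tt (0 : Pt (WAB A B) Ω) = 0 := rfl
  by_cases hQ0 : Q = 0
  · rw [hQ0, map_zero, htt0, map_zero, zero_mul]
  by_cases hQR : ∃ R ∈ S, Q + R = 0
  · obtain ⟨R, hR, h1⟩ := hQR
    have h2 : act β Q = 0 := by
      rw [eq_neg_of_add_eq_zero_left h1, map_neg, ((hS R).1 hR).1, neg_zero]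
    rw [h2, htt0, map_zero, Finset.prod_eq_zero hR (by rw [h1, htt0, map_zero]), mul_zero]
  push Not at hQR
  have haQ0 : act β Q ≠ 0 := by
    intro h0
    refine hQR (-Q) ((hS (-Q)).2 ⟨?_, neg_ne hQ0⟩) (add_neg_cancel Q)
    rw [map_neg, h0, neg_zero]
  have hSK : ∀ R ∈ S, Ker V R := fun R hR => tor_ker h hV hβ hv ((hS R).1 hR).1
  have hQRK : ∀ R ∈ S, Ker V (Q + R) := fun R hR => kadd hV hQ (hSK R hR)
  have haQ : Ker V (act β Q) := ker_act h hV β hQ
  obtain ⟨Y, hY⟩ := Hb_ne h hV hβ.ne_zero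
  have hYK : ¬ Ker V Y := (Hb_add h hV hY (R := 0) (map_zero _)).2.1
  have haY : ¬ Ker V (act β Y) := hY
  have hgen : ∀ {P Z : Pt (WAB A B) Ω}, Ker V P → P ≠ 0 → ¬ Ker V Z →
      V.valuation (xc P - xc Z) = V.valuation (xc P) := fun hP hP0 hZ =>
    Valuation.map_sub_eq_of_lt_left _ (lt_of_le_of_lt (not_ker V hZ).2 ((ker_iff V hP0).1 hP))
  have he := congrArg V.valuation (h.e2 β S hβ.ne_zero hS Q Y haQ0 (not_ker V haY).1)
  rw [map_mul, map_mul, map_mul, map_pow, map_prod, map_prod, hgen haQ haQ0 haY, hgen hQ hQ0 hYK,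
    Finset.prod_congr rfl fun R hR => hgen (hSK R hR) ((hS R).1 hR).2 hYK,
    Finset.prod_congr rfl fun R hR => hgen (hQRK R hR) (hQR R hR) hYK, mul_right_comm,
    prod_xR h hV hβ hv hS, one_mul] at he
  have h1 := (tt_val hV haQ haQ0).1
  have h2 := (tt_val hV hQ hQ0).1
  have h3 : ∏ R ∈ S, (V.valuation (tt (Q + R)) ^ 2 * V.valuation (xc (Q + R))) = 1 :=
    Finset.prod_eq_one fun R hR => (tt_val hV (hQRK R hR) (hQR R hR)).1
  rw [Finset.prod_mul_distrib, Finset.prod_pow] at h3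
  have hne : V.valuation (xc (act β Q)) ≠ 0 := by
    intro hz
    rw [hz, mul_zero] at h1
    exact zero_ne_one h1
  refine (pow_left_inj₀ zero_le zero_le two_ne_zero).1 (mul_right_cancel₀ hne ?_)
  rw [h1, he, mul_pow, mul_mul_mul_comm, h2, h3, one_mul]

end H55K
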