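import Mathlib
import Pool.Agent.Lib.H55K.G5E

/-! # H55K: Frobenius elements: the x-coordinate -/

open NumberField IsDedekindDomain WeierstrassCurve

namespace H55K

open H55P (IQ embF eF LF Per IsHecke Pt ac Inert Dec Nm)
open H35P (WAB Ker tt)


variable {F : Type} [Field F] [NumberField F] [IQ F] {A B : F} {Om : ℂ} {Ω : Type} [Field Ω] [DecidableEq Ω]
  [Algebra F Ω] {j : Ω →+* ℂ} {act : 𝓞 F →+* AddMonoid.End (Pt (WAB A B) Ω)} {V : ValuationSubring Ω}

theorem g7c_mul {k : Type} [Field k] (V : ValuationSubring k) {a b : k} (ha : V.valuation a ≤ 1)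
    (hb : V.valuation b < 1) : V.valuation (a * b) < 1 := by
  rw [mul_comm, map_mul]
  exact mul_lt_one_of_lt_of_le hb ha

theorem g7c_prod {ι k : Type} [Field k] (V : ValuationSubring k) (S : Finset ι) (f g : ι → k)
    (hf : ∀ i ∈ S, V.valuation (f i) ≤ 1) (hg : ∀ i ∈ S, V.valuation (g i) ≤ 1)
    (hd : ∀ i ∈ S, V.valuation (f i - g i) < 1) : V.valuation (∏ i ∈ S, f i - ∏ i ∈ S, g i) < 1 := by
  classical
  induction S using Finset.induction_on with
  | empty => simp
  | insert a S ha ih =>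
    rw [Finset.prod_insert ha, Finset.prod_insert ha]
    have h1 : V.valuation (∏ i ∈ S, g i) ≤ 1 := by
      rw [map_prod]
      exact Finset.prod_le_one' fun i hi => hg i (Finset.mem_insert_of_mem hi)
    have h2 := ih (fun i hi => hf i (Finset.mem_insert_of_mem hi))
      (fun i hi => hg i (Finset.mem_insert_of_mem hi)) (fun i hi => hd i (Finset.mem_insert_of_mem hi))
    have h3 : f a * ∏ i ∈ S, f i - g a * ∏ i ∈ S, g i =
        f a * (∏ i ∈ S, f i - ∏ i ∈ S, g i) + (f a - g a) * ∏ i ∈ S, g i := by ring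
    rw [h3]
    refine V.valuation.map_add_lt ?_ ?_
    · exact g7c_mul V (hf a (Finset.mem_insert_self a S)) h2
    · rw [map_mul]
      exact mul_lt_one_of_lt_of_le (hd a (Finset.mem_insert_self a S)) h1

theorem g7c_add {k : Type} [Field k] (V : ValuationSubring k) {q : ℕ} (hq : q.Prime)
    (hqV : V.valuation (q : k) < 1) {x y : k} (hx : V.valuation x ≤ 1) (hy : V.valuation y ≤ 1) :
    V.valuation ((x + y) ^ q - (x ^ q + y ^ q)) < 1 := by
  obtain ⟨r, hr⟩ := exists_add_pow_prime_eq hq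
    (⟨x, V.mem_of_valuation_le_one x hx⟩ : V) (⟨y, V.mem_of_valuation_le_one y hy⟩ : V)
  have hr' : (x + y) ^ q = x ^ q + y ^ q + (q : k) * x * y * (r : k) := by
    have := congrArg (Subtype.val) hr
    simpa using this
  have h1 : (x + y) ^ q - (x ^ q + y ^ q) = (q : k) * (x * y * (r : k)) := by
    rw [hr']
    ring
  rw [h1, map_mul]
  refine mul_lt_one_of_lt_of_le hqV ?_
  rw [map_mul, map_mul]
  exact mul_le_one' (mul_le_one' hx hy) (V.valuation_le_one r)

/-- Chunk G7C (M). κ = β^2 * prod over S of xc R (S the nonzero points killed by β), V(κ) = 1 (prod_xR). For X, Y not in Ker: act β X, act β Y are not in Ker (ker_red), e2: κ prod (1 - xc Y/xc R) (xc (βX) - xc (βY)) = (xc X - xc Y) prod (xc (X+R) - xc Y), where V(xc Y/xc R) < 1 and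
V(xc (X + R) - xc X) < 1 (tor_ker, cls_conv): so κ (xc (βX) - xc (βY)) is congruent to (xc X - xc Y)^q, q = Nm β = S.card + 1, and this to xc X^q - xc Y^q (q is a prime number with V(q) < 1; add_pow_char style: the binomial coefficients are divisible by q). -/
theorem frob_diff (h : CMA F A B Om j act) (hV : GV A B V) {β : 𝓞 F} (hβ : Prime β)
    (hv : V.valuation (ak Ω β) < 1) (hq : (Nm β).Prime) : ∃ κ : Ω, V.valuation κ = 1 ∧
    ∀ X Y : Pt (WAB A B) Ω, ¬ Ker V X → ¬ Ker V Y →
      V.valuation (κ * (xc (act β X) - xc (act β Y)) - (xc X ^ Nm β - xc Y ^ Nm β)) < 1 := by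
  classical
  have hβ0 : β ≠ 0 := hβ.ne_zero
  obtain ⟨S, hS, hcard⟩ := exists_TN h hβ0
  have hqV : V.valuation ((Nm β : ℕ) : Ω) < 1 := by
    have h1 : ((Nm β : ℕ) : Ω) = ak Ω β * ak Ω (cj β) := by
      have h2 := mul_cj β
      have h3 := congrArg (fun z : 𝓞 F => algebraMap F Ω (algebraMap (𝓞 F) F z)) h2
      simp only [map_mul, map_natCast] at h3
      exact h3.symm
    rw [h1, map_mul]
    exact mul_lt_one_of_lt_of_le hv (ak_le V (cj β))
  have hq2 : Nm β ≠ 2 := by
    intro h2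
    rw [h2, Nat.cast_ofNat, hV.two] at hqV
    exact lt_irrefl _ hqV
  have hodd : Odd (Nm β) := hq.odd_of_ne_two hq2
  have hR1 : ∀ R ∈ S, R ≠ 0 ∧ Ker V R ∧ 1 < V.valuation (xc R) := by
    intro R hR
    obtain ⟨h1, h2⟩ := (hS R).1 hR
    have h3 : Ker V R := tor_ker h hV hβ hv h1
    exact ⟨h2, h3, (ker_iff V h2).1 h3⟩
  have hxR : ∀ R ∈ S, xc R ≠ 0 := by
    intro R hR h0
    have := (hR1 R hR).2.2
    rw [h0, map_zero] at this
    exact absurd this (not_lt.2 zero_le_one)
  have hred : ∀ X : Pt (WAB A B) Ω, ¬ Ker V X → ¬ Ker V (act β X) := fun X hX hX' =>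
    hX (ker_red h hV hβ hv hX')
  refine ⟨ak Ω β ^ 2 * ∏ R ∈ S, xc R, ?_, ?_⟩
  · rw [map_mul, map_pow, map_prod]
    exact prod_xR h hV hβ hv hS
  · intro X Y hX hY
    have hκ : V.valuation (ak Ω β ^ 2 * ∏ R ∈ S, xc R) = 1 := by
      rw [map_mul, map_pow, map_prod]
      exact prod_xR h hV hβ hv hS
    obtain ⟨hX0, hX1⟩ := not_ker V hX
    obtain ⟨hY0, hY1⟩ := not_ker V hY
    obtain ⟨hbX0, hbX1⟩ := not_ker V (hred X hX)
    obtain ⟨hbY0, hbY1⟩ := not_ker V (hred Y hY)
    have he2 := h.e2 β S hβ0 hS X Y hbX0 hbY0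
    have hu : V.valuation (∏ R ∈ S, (1 - xc Y / xc R) - ∏ R ∈ S, (1 : Ω)) < 1 := by
      have hlt : ∀ R ∈ S, V.valuation (xc Y / xc R) < 1 := by
        intro R hR
        rw [map_div₀]
        have h1 := (hR1 R hR).2.2
        exact (div_lt_one₀ (zero_lt_one.trans h1)).2 (hY1.trans_lt h1)
      refine g7c_prod V S _ _ (fun R hR => ?_) (fun R hR => (map_one _).le) (fun R hR => ?_)
      · refine (V.valuation.map_sub _ _).trans (max_le (map_one _).le (hlt R hR).le)
      · have h1 : 1 - xc Y / xc R - 1 = -(xc Y / xc R) := by ring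
        rw [h1, Valuation.map_neg]
        exact hlt R hR
    rw [Finset.prod_const_one] at hu
    have hP : V.valuation (∏ R ∈ S, (xc (X + R) - xc Y) - ∏ R ∈ S, (xc X - xc Y)) < 1 := by
      have hc : ∀ R ∈ S, ¬ Ker V (X + R) ∧ V.valuation (xc (X + R) - xc X) < 1 := by
        intro R hR
        have h1 : Ker V (X + R - X) := by
          rw [add_sub_cancel_left]
          exact (hR1 R hR).2.1
        obtain ⟨h2, h3, _⟩ := cls_conv hV hX h1
        exact ⟨h2, h3⟩
      refine g7c_prod V S _ _ (fun R hR => ?_) (fun R hR => ?_) (fun R hR => ?_)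
      · exact (V.valuation.map_sub _ _).trans (max_le (not_ker V (hc R hR).1).2 hY1)
      · exact (V.valuation.map_sub _ _).trans (max_le hX1 hY1)
      · have h1 : xc (X + R) - xc Y - (xc X - xc Y) = xc (X + R) - xc X := by ring
        rw [h1]
        exact (hc R hR).2
    rw [Finset.prod_const, hcard] at hP
    have hprod : ∏ R ∈ S, (xc R - xc Y) = (∏ R ∈ S, xc R) * ∏ R ∈ S, (1 - xc Y / xc R) := by
      rw [← Finset.prod_mul_distrib]
      refine Finset.prod_congr rfl fun R hR => ?_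
      have := hxR R hR
      field_simp
    rw [hprod] at he2
    have hqpos : 1 ≤ Nm β := hq.one_lt.le
    have hpow : (xc X - xc Y) * (xc X - xc Y) ^ (Nm β - 1) = (xc X - xc Y) ^ Nm β := by
      rw [← pow_succ', Nat.sub_add_cancel hqpos]
    have hsub : V.valuation ((xc X - xc Y) ^ Nm β - (xc X ^ Nm β - xc Y ^ Nm β)) < 1 := by
      have h1 := g7c_add V hq hqV hX1 (y := -xc Y) (by rw [Valuation.map_neg]; exact hY1)
      rw [hodd.neg_pow] at h1
      have h2 : (xc X - xc Y) ^ Nm β - (xc X ^ Nm β - xc Y ^ Nm β) =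
          (xc X + -xc Y) ^ Nm β - (xc X ^ Nm β + -xc Y ^ Nm β) := by ring
      rw [h2]
      exact h1
    have hD : V.valuation (xc (act β X) - xc (act β Y)) ≤ 1 :=
      (V.valuation.map_sub _ _).trans (max_le hbX1 hbY1)
    have hxy : V.valuation (xc X - xc Y) ≤ 1 := (V.valuation.map_sub _ _).trans (max_le hX1 hY1)
    set κ := ak Ω β ^ 2 * ∏ R ∈ S, xc R with hκdef
    set u := ∏ R ∈ S, (1 - xc Y / xc R) with hudef
    set p := ∏ R ∈ S, (xc (X + R) - xc Y) with hpdef
    have hfin : κ * (xc (act β X) - xc (act β Y)) - (xc X ^ Nm β - xc Y ^ Nm β) =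
        (xc X - xc Y) * (p - (xc X - xc Y) ^ (Nm β - 1)) - κ * (xc (act β X) - xc (act β Y)) * (u - 1) +
        ((xc X - xc Y) ^ Nm β - (xc X ^ Nm β - xc Y ^ Nm β)) := by
      rw [← hpow]
      have : κ * (xc (act β X) - xc (act β Y)) * u = (xc X - xc Y) * p := by
        rw [← he2, hκdef]
        ring
      linear_combination this
    rw [hfin]
    refine V.valuation.map_add_lt (V.valuation.map_sub_lt ?_ ?_) hsub
    · exact g7c_mul V hxy hP
    · refine g7c_mul V ?_ hu
      rw [map_mul, hκ, one_mul]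
      exact hD

end H55K
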