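import Mathlib
import Pool.Agent.Lib.H55K.E0

/-! # H55K: Frobenius elements: the generator -/

open NumberField IsDedekindDomain WeierstrassCurve

namespace H55K

open H55P (IQ embF eF LF Per IsHecke Pt ac Inert Dec Nm)
open H35P (WAB Ker tt)


variable {F : Type} [Field F] [NumberField F] [IQ F] {A B : F} {Om : ℂ} {Ω : Type} [Field Ω] [DecidableEq Ω]
  [Algebra F Ω] {j : Ω →+* ℂ} {act : 𝓞 F →+* AddMonoid.End (Pt (WAB A B) Ω)} {V : ValuationSubring Ω}

/-- Chunk G8B (S). e1x with S = the empty set (TN act u ∅ for a unit u). -/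
theorem act_unit_x (h : CMA F A B Om j act) (u : (𝓞 F)ˣ) (P : Pt (WAB A B) Ω) :
    ak Ω (u : 𝓞 F) ^ 2 * xc (act (u : 𝓞 F) P) = xc P := by
  have hinv : ∀ T : Pt (WAB A B) Ω, act (u : 𝓞 F) T = 0 → T = 0 := by
    intro T hT
    have h1 : act ((u⁻¹ : (𝓞 F)ˣ) : 𝓞 F) (act (u : 𝓞 F) T) = T := by
      change (act ((u⁻¹ : (𝓞 F)ˣ) : 𝓞 F) * act (u : 𝓞 F)) T = T
      rw [← map_mul, Units.inv_mul, map_one]
      rfl
    rw [← h1, hT, map_zero]
  by_cases hP : P = 0
  · rw [hP, map_zero, xc_zero, mul_zero]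
  · have hTN : TN act (u : 𝓞 F) (∅ : Finset (Pt (WAB A B) Ω)) := by
      intro T
      constructor
      · intro hT
        exact absurd hT (Finset.notMem_empty T)
      · rintro ⟨hT, h0⟩
        exact absurd (hinv T hT) h0
    have h1 := h.e1x (u : 𝓞 F) ∅ u.ne_zero hTN P fun h0 => hP (hinv P h0)
    rw [Finset.sum_empty, add_zero] at h1
    exact h1

omit [NumberField F] [IQ F] in
/-- Chunk G8B (S). Two endomorphisms f, g of an abelian group with f x = g x or f x = - g x modulo a subgroup K for every x: the sets {x : f x - g x in K}, {x : f x + g x in K} are subgroups with union everything. -/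
theorem two_sub {M : Type} [AddCommGroup M] (K : AddSubgroup M) (f g : M →+ M)
    (hfg : ∀ x, f x - g x ∈ K ∨ f x + g x ∈ K) : (∀ x, f x - g x ∈ K) ∨ ∀ x, f x + g x ∈ K := by
  by_contra hc
  push Not at hc
  obtain ⟨⟨x, hx⟩, y, hy⟩ := hc
  have hx' := (hfg x).resolve_left hx
  have hy' := (hfg y).resolve_right hy
  rcases hfg (x + y) with h1 | h1
  · apply hx
    have e : f x - g x = f (x + y) - g (x + y) - (f y - g y) := by
      rw [map_add, map_add]
      abel
    rw [e]
    exact K.sub_mem h1 hy'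
  · apply hy
    have e : f y + g y = f (x + y) + g (x + y) - (f x + g x) := by
      rw [map_add, map_add]
      abel
    rw [e]
    exact K.sub_mem h1 hx'

end H55K
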