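import Mathlib
import Pool.Agent.Lib.H55K.D0

/-! # H55K, part M: good models (definitions) -/

open NumberField WeierstrassCurve

namespace H55K.MG

open H55P (IQ Pt ac Inert)
open H35P (WAB Ker GoodW IntW)

/-- W' is obtained from W by the change of variables x = u^2 x' + r, y = u^3 y' + s u^2 x' + t. -/
structure VC {k : Type} [Field k] (W W' : WeierstrassCurve k) (u r s t : k) : Prop where
  une : u ≠ 0
  h1 : u * W'.a₁ = W.a₁ + 2 * s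
  h2 : u ^ 2 * W'.a₂ = W.a₂ - s * W.a₁ + 3 * r - s ^ 2
  h3 : u ^ 3 * W'.a₃ = W.a₃ + r * W.a₁ + 2 * t
  h4 : u ^ 4 * W'.a₄ = W.a₄ - s * W.a₃ + 2 * r * W.a₂ - (t + r * s) * W.a₁ + 3 * r ^ 2 - 2 * s * t
  h6 : u ^ 6 * W'.a₆ = W.a₆ + r * W.a₄ + r ^ 2 * W.a₂ + r ^ 3 - t * W.a₃ - t ^ 2 - r * t * W.a₁

/-- The isomorphism Θ of the groups of points is given by x = u^2 x' + r, y = u^3 y' + s u^2 x' + t. -/
def Crd {k : Type} [Field k] [DecidableEq k] {W W' : WeierstrassCurve k} (u r s t : k)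
    (Θ : W.toAffine.Point ≃+ W'.toAffine.Point) : Prop :=
  ∀ P, P ≠ 0 → Θ P ≠ 0 ∧ xc P = u ^ 2 * xc (Θ P) + r ∧
    yc P = u ^ 3 * yc (Θ P) + s * u ^ 2 * xc (Θ P) + t

end H55K.MG
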