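import Mathlib
import Pool.Agent.Lib.H55K.M0

open NumberField WeierstrassCurve

namespace H55K.MG

open H55P (IQ Pt ac Inert)
open H35P (WAB Ker GoodW IntW)

variable {F : Type} [Field F] {Ω : Type} [Field Ω] [DecidableEq Ω] [Algebra F Ω] {W : WeierstrassCurve F}
  {W' : WeierstrassCurve Ω} {u r s t : Ω} {Θ : (W⁄Ω).toAffine.Point ≃+ W'.toAffine.Point}

/-! Chunk M4B (S/M). ac_crd: cases on P; ac is Affine.Point.map: map_some, rfl; ac W g P = 0 iff P = 0. tilde: P <> 0: xc (ac W g P) = g (xc P), so u^2 X + r = (g u)^2 (g x') + g r with X = xc (Θ (ac W g P)), x' = xc (Θ P);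
the same for y; divide by u^2, u^3 (field_simp, linear_combination). -/

theorem ac_crd (g : Ω ≃ₐ[F] Ω) (P : Pt W Ω) : xc (ac W g P) = g (xc P) ∧ yc (ac W g P) = g (yc P) ∧
    (ac W g P = 0 ↔ P = 0) := by
  rcases P with _ | ⟨x, y, h⟩
  · have h0 : ac W g (Affine.Point.zero : Pt W Ω) = 0 := map_zero _
    rw [h0]
    exact ⟨(map_zero g).symm, (map_zero g).symm, ⟨fun _ => rfl, fun _ => rfl⟩⟩
  · have h1 : ac W g (Affine.Point.some x y h : Pt W Ω) ≠ 0 := by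
      unfold ac
      rw [Affine.Point.map_some]
      exact Affine.Point.some_ne_zero _
    refine ⟨?_, ?_, ⟨fun h2 => absurd h2 h1, fun h2 => absurd h2 (Affine.Point.some_ne_zero _)⟩⟩
    · unfold ac
      rw [Affine.Point.map_some]
      rfl
    · unfold ac
      rw [Affine.Point.map_some]
      rfl

theorem tilde (hu : u ≠ 0) (hc : Crd u r s t Θ) (g : Ω ≃ₐ[F] Ω) {P : Pt W Ω} (h0 : P ≠ 0) :
    xc (Θ (ac W g P)) = (g u / u) ^ 2 * g (xc (Θ P)) + (g r - r) / u ^ 2 ∧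
    yc (Θ (ac W g P)) = (g u / u) ^ 3 * g (yc (Θ P)) + (g u ^ 2 * (g s - s) / u ^ 3) * g (xc (Θ P)) +
      (g t - t - s * (g r - r)) / u ^ 3 := by
  obtain ⟨a1, a2, a3⟩ := ac_crd g P
  obtain ⟨-, b2, b3⟩ := hc P h0
  obtain ⟨-, c2, c3⟩ := hc (ac W g P) (fun h => h0 (a3.1 h))
  rw [a1, b2, map_add, map_mul, map_pow] at c2
  rw [a2, b3, map_add, map_add, map_mul, map_mul, map_mul, map_pow, map_pow] at c3
  obtain ⟨X, hX⟩ : ∃ X, X = xc (Θ (ac W g P)) := ⟨_, rfl⟩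
  obtain ⟨Y, hY⟩ : ∃ Y, Y = yc (Θ (ac W g P)) := ⟨_, rfl⟩
  rw [← hX] at c2 c3 ⊢
  rw [← hY] at c3 ⊢
  constructor
  · field_simp
    linear_combination -c2
  · field_simp
    linear_combination -c3 + s * c2

end H55K.MG
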