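import Mathlib
import Pool.Agent.Lib.H35P.R1
import Pool.Agent.Lib.H35P.RD
import Pool.Agent.Lib.H55K.D0

open NumberField WeierstrassCurve

namespace H55K.MG

open H35P (WAB Ker GoodW IntW)

variable {k : Type} [Field k] [DecidableEq k] {W : WeierstrassCurve k} {V : ValuationSubring k}

/-! Chunk M3A (S/M). int_crd: cases on P; x in V, H35P.int_y for y. ker_crd: definition of Ker. cong_ker: Cong of the two points, H35P.rd. unit_diff: V(x - x') ≤ 1; if < 1, subtract the two equations: (y - y')(y + y' + a1 x + a3) =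
(x - x') (..integral..) has value < 1, so V(y - y') < 1 (then Ker (P - Q) by cong_ker) or V(y - negY x' y') < 1: y + y' + a1 x' + a3 = (y + y' + a1 x + a3) - a1 (x - x') (then Ker (P + Q) = Ker (P - (-Q)) by cong_ker, coordinates of
-Q = (x', negY x' y')). ker_sub', ker_zero: H35P.ker_add, ker_neg. -/

theorem int_crd (h : GoodW W V) {P : W.toAffine.Point} (hP : ¬ Ker V P) : P ≠ 0 ∧ xc P ∈ V ∧ yc P ∈ V := by
  rcases P with _ | ⟨x, y, hn⟩
  · exact absurd trivial hP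
  · have hx : V.valuation x ≤ 1 := not_lt.1 hP
    refine ⟨Affine.Point.some_ne_zero _, (V.valuation_le_one_iff _).1 hx, ?_⟩
    exact (V.valuation_le_one_iff _).1 (H35P.int_y h.toIntW hn.1 hx)

theorem ker_crd {P : W.toAffine.Point} (h0 : P ≠ 0) : Ker V P ↔ 1 < V.valuation (xc P) := by
  rcases P with _ | ⟨x, y, hn⟩
  · exact absurd rfl h0
  · exact Iff.rfl

theorem cong_ker (h : GoodW W V) {P Q : W.toAffine.Point} (hP : ¬ Ker V P) (hQ : ¬ Ker V Q)
    (hx : V.valuation (xc P - xc Q) < 1) (hy : V.valuation (yc P - yc Q) < 1) : Ker V (P - Q) := by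
  obtain ⟨hP0, hPx, hPy⟩ := int_crd h hP
  obtain ⟨hQ0, hQx, hQy⟩ := int_crd h hQ
  rcases P with _ | ⟨x, y, hn⟩
  · exact absurd rfl hP0
  rcases Q with _ | ⟨x', y', hn'⟩
  · exact absurd rfl hQ0
  exact H35P.rd h _ _ ⟨x, y, hn, x', y', hn', rfl, rfl, hPx, hPy, hQx, hQy, hx, hy⟩

theorem unit_diff (h : GoodW W V) {P Q : W.toAffine.Point} (hP : ¬ Ker V P) (hQ : ¬ Ker V Q)
    (h1 : ¬ Ker V (P - Q)) (h2 : ¬ Ker V (P + Q)) : V.valuation (xc P - xc Q) = 1 := by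
  have hQn : ¬ Ker V (-Q) := fun hk => hQ ((H35P.ker_neg Q).1 hk)
  obtain ⟨hP0, hPx, hPy⟩ := int_crd h hP
  obtain ⟨hQ0, hQx, hQy⟩ := int_crd h hQ
  have hxle : V.valuation (xc P - xc Q) ≤ 1 :=
    (V.valuation_le_one_iff _).2 (sub_mem hPx hQx)
  refine le_antisymm hxle (not_lt.1 fun hlt => ?_)
  have hc1 := fun hy => h1 (cong_ker h hP hQ hlt hy)
  have hxn : V.valuation (xc P - xc (-Q)) < 1 ∧ yc (-Q) = -yc Q - W.a₁ * xc Q - W.a₃ := by
    rcases Q with _ | ⟨x', y', hn'⟩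
    · exact absurd rfl hQ0
    · exact ⟨hlt, rfl⟩
  have hc2 : ¬ V.valuation (yc P - yc (-Q)) < 1 := by
    intro hy
    apply h2
    have h3 := cong_ker h hP hQn hxn.1 hy
    rwa [sub_neg_eq_add] at h3
  have hPe : yc P ^ 2 + W.a₁ * xc P * yc P + W.a₃ * yc P =
      xc P ^ 3 + W.a₂ * xc P ^ 2 + W.a₄ * xc P + W.a₆ := by
    rcases P with _ | ⟨x, y, hn⟩
    · exact absurd rfl hP0
    · exact (Affine.equation_iff _ _).1 hn.1
  have hQe : yc Q ^ 2 + W.a₁ * xc Q * yc Q + W.a₃ * yc Q =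
      xc Q ^ 3 + W.a₂ * xc Q ^ 2 + W.a₄ * xc Q + W.a₆ := by
    rcases Q with _ | ⟨x, y, hn⟩
    · exact absurd rfl hQ0
    · exact (Affine.equation_iff _ _).1 hn.1
  have hkey : (yc P - yc Q) * (yc P - yc (-Q)) = (xc P ^ 2 + xc P * xc Q + xc Q ^ 2 +
      W.a₂ * (xc P + xc Q) + W.a₄ - W.a₁ * yc P) * (xc P - xc Q) := by
    rw [hxn.2]
    linear_combination hPe - hQe
  have hin : xc P ^ 2 + xc P * xc Q + xc Q ^ 2 + W.a₂ * (xc P + xc Q) + W.a₄ - W.a₁ * yc P ∈ V :=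
    sub_mem (add_mem (add_mem (add_mem (add_mem (pow_mem hPx 2) (mul_mem hPx hQx)) (pow_mem hQx 2))
      (mul_mem h.a2 (add_mem hPx hQx))) h.a4) (mul_mem h.a1 hPy)
  have hv := congrArg V.valuation hkey
  rw [map_mul, map_mul] at hv
  have hlt2 : V.valuation (yc P - yc Q) * V.valuation (yc P - yc (-Q)) < 1 := by
    rw [hv]
    exact mul_lt_one_of_nonneg_of_lt_one_right ((V.valuation_le_one_iff _).2 hin) zero_le hlt
  have ha : 1 ≤ V.valuation (yc P - yc Q) := not_lt.1 hc1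
  have hb : 1 ≤ V.valuation (yc P - yc (-Q)) := not_lt.1 hc2
  exact absurd hlt2 (not_lt.2 (one_le_mul_of_one_le_of_one_le ha hb))

theorem unit_y (h : GoodW W V) (h1 : W.a₁ = 0) (h3 : W.a₃ = 0) {P : W.toAffine.Point} (hP : ¬ Ker V P)
    (h2 : ¬ Ker V (P + P)) : V.valuation (yc P) = 1 := by
  have hPn : ¬ Ker V (-P) := fun hk => hP ((H35P.ker_neg P).1 hk)
  obtain ⟨hP0, hPx, hPy⟩ := int_crd h hP
  refine le_antisymm ((V.valuation_le_one_iff _).2 hPy) (not_lt.1 fun hlt => ?_)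
  have hneg : xc (-P) = xc P ∧ yc (-P) = -yc P := by
    rcases P with _ | ⟨x, y, hn⟩
    · exact absurd rfl hP0
    · refine ⟨rfl, ?_⟩
      show W.toAffine.negY x y = -y
      rw [Affine.negY]
      simp only [h1, h3]
      ring
  apply h2
  have h4 := cong_ker h hP hPn (by
    rw [hneg.1, sub_self, map_zero]
    exact zero_lt_one) (by
    rw [hneg.2, sub_neg_eq_add, ← two_mul, map_mul]
    have h5 : V.valuation (2 : k) ≤ 1 := by
      rw [V.valuation_le_one_iff]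
      exact_mod_cast natCast_mem V 2
    exact mul_lt_one_of_nonneg_of_lt_one_right h5 zero_le hlt)
  rwa [sub_neg_eq_add] at h4

theorem yc_neg' (h1 : W.a₁ = 0) (h3 : W.a₃ = 0) {P : W.toAffine.Point} : xc (-P) = xc P ∧ yc (-P) = -yc P := by
  rcases P with _ | ⟨x, y, hn⟩
  · exact ⟨rfl, neg_zero.symm⟩
  · refine ⟨rfl, ?_⟩
    show W.toAffine.negY x y = -y
    rw [Affine.negY]
    simp only [h1, h3]
    ring

end H55K.MG
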