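import Mathlib
import Pool.Agent.Lib.H35P.FG
import Pool.Agent.Lib.H55K.M0
import Pool.Agent.Lib.H55K.M3A

open NumberField WeierstrassCurve

namespace H55K.MG

open H55P (IQ Pt ac Inert)
open H35P (WAB Ker GoodW IntW)

variable {k : Type} [Field k] [DecidableEq k] {W W' : WeierstrassCurve k} {V : ValuationSubring k} {u r s t : k}
  {Θ : W.toAffine.Point ≃+ W'.toAffine.Point}

/-! Chunk M3B (S/M). kg_ex: Kg = the preimage of Ker V under Θ (H35P.ker_add, ker_neg; h.toIntW). kg_tors: H35P.fg for Θ T. kg_diff: xc P - xc Q = u^2 (xc (Θ P) - xc (Θ Q)) (hc; P, Q are not 0), unit_diff. kg_far: V(xc (Θ P) - xc (Θ Q)) =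
V(xc (Θ Q)) > 1 since V(xc (Θ P)) ≤ 1 (Valuation.map_sub_eq_of_lt_right or the like), the same for P'. -/

theorem kg_ex (h : GoodW W' V) (Θ : W.toAffine.Point ≃+ W'.toAffine.Point) :
    ∃ Kg : AddSubgroup W.toAffine.Point, ∀ P, P ∈ Kg ↔ Ker V (Θ P) := by
  refine ⟨{ carrier := {P | Ker V (Θ P)}, zero_mem' := ?_, add_mem' := ?_, neg_mem' := ?_ },
    fun P => Iff.rfl⟩
  · intro P Q hP hQ
    show Ker V (Θ (P + Q))
    rw [map_add]
    exact H35P.ker_add h.toIntW _ _ hP hQ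
  · show Ker V (Θ 0)
    rw [map_zero]
    trivial
  · intro P hP
    show Ker V (Θ (-P))
    rw [map_neg]
    exact (H35P.ker_neg _).2 hP

theorem kg_tors (h : GoodW W' V) {n : ℕ} (hn : V.valuation (n : k) = 1) {T : W.toAffine.Point} (hT : Ker V (Θ T))
    (h0 : n • T = 0) : T = 0 := by
  have h1 := H35P.fg h.toIntW (Θ T) n hn (by rw [← map_nsmul, h0, map_zero]) hT
  exact (map_eq_zero_iff Θ Θ.injective).1 h1

theorem kg_diff (h : GoodW W' V) (hc : Crd u r s t Θ) {P Q : W.toAffine.Point} (hP : ¬ Ker V (Θ P))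
    (hQ : ¬ Ker V (Θ Q)) (h1 : ¬ Ker V (Θ (P - Q))) (h2 : ¬ Ker V (Θ (P + Q))) :
    V.valuation (xc P - xc Q) = V.valuation u ^ 2 := by
  have hP0 : P ≠ 0 := by
    rintro rfl
    exact hP (by rw [map_zero]; trivial)
  have hQ0 : Q ≠ 0 := by
    rintro rfl
    exact hQ (by rw [map_zero]; trivial)
  rw [map_sub] at h1
  rw [map_add] at h2
  have h3 := unit_diff h hP hQ h1 h2
  have h4 : xc P - xc Q = u ^ 2 * (xc (Θ P) - xc (Θ Q)) := by
    rw [(hc P hP0).2.1, (hc Q hQ0).2.1]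
    ring
  rw [h4, map_mul, h3, mul_one, map_pow]

theorem kg_far (h : GoodW W' V) (hc : Crd u r s t Θ) {P P' Q : W.toAffine.Point} (hP : ¬ Ker V (Θ P))
    (hP' : ¬ Ker V (Θ P')) (hQ : Ker V (Θ Q)) (h0 : Q ≠ 0) :
    V.valuation (xc P - xc Q) = V.valuation (xc P' - xc Q) := by
  have key : ∀ R : W.toAffine.Point, ¬ Ker V (Θ R) →
      V.valuation (xc R - xc Q) = V.valuation u ^ 2 * V.valuation (xc (Θ Q)) := by
    intro R hR
    have hR0 : R ≠ 0 := by
      rintro rfl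
      exact hR (by rw [map_zero]; trivial)
    have h4 : xc R - xc Q = u ^ 2 * (xc (Θ R) - xc (Θ Q)) := by
      rw [(hc R hR0).2.1, (hc Q h0).2.1]
      ring
    have h5 : V.valuation (xc (Θ R)) ≤ 1 := (V.valuation_le_one_iff _).2 (int_crd h hR).2.1
    have h6 : 1 < V.valuation (xc (Θ Q)) := (ker_crd (hc Q h0).1).1 hQ
    rw [h4, map_mul, map_pow, Valuation.map_sub_eq_of_lt_right _ (h5.trans_lt h6)]
  rw [key P hP, key P' hP']

end H55K.MG
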