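import Mathlib
import Pool.Agent.Lib.H55K.G1

/-! # H55K: the Frobenius elements are the values of the Hecke character -/

open NumberField IsDedekindDomain WeierstrassCurve

namespace H55K

open H55P (IQ embF eF LF Per IsHecke Pt ac Inert Dec Nm)
open H35P (WAB Ker tt)


variable {F : Type} [Field F] [NumberField F] [IQ F] {A B : F} {Om : ℂ} {Ω : Type} [Field Ω] [DecidableEq Ω]
  [Algebra F Ω] {j : Ω →+* ℂ} {act : 𝓞 F →+* AddMonoid.End (Pt (WAB A B) Ω)} {V : ValuationSubring Ω}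

theorem g10b_fin {F : Type} [Field F] [NumberField F] (a : 𝓞 F) (ha : a ≠ 0) :
    {v : HeightOneSpectrum (𝓞 F) | a ∈ v.asIdeal}.Finite := by
  have h := Ideal.finite_factors (I := Ideal.span {a}) (by
    rw [Ne, Ideal.zero_eq_bot, Ideal.span_singleton_eq_bot]
    exact ha)
  refine h.subset fun v hv => ?_
  exact Ideal.dvd_span_singleton.2 hv

theorem g10b_one {F : Type} [Field F] [NumberField F] {Ω : Type} [Field Ω] [Algebra F Ω] (V : ValuationSubring Ω)
    (v : HeightOneSpectrum (𝓞 F)) (hv : ∀ a : 𝓞 F, a ∈ v.asIdeal → V.valuation (ak Ω a) < 1) (a : 𝓞 F)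
    (ha : a ∉ v.asIdeal) : V.valuation (ak Ω a) = 1 := by
  have hmax : v.asIdeal.IsMaximal := v.isMaximal
  obtain ⟨c, i, hi, hc⟩ := hmax.exists_inv ha
  have h1 : V.valuation (ak Ω i) < 1 := hv i hi
  have h2 : ak Ω c * ak Ω a = 1 - ak Ω i := by
    rw [eq_sub_iff_add_eq]
    show algebraMap F Ω (algebraMap (𝓞 F) F c) * algebraMap F Ω (algebraMap (𝓞 F) F a) +
      algebraMap F Ω (algebraMap (𝓞 F) F i) = 1
    rw [← map_mul, ← map_mul, ← map_add, ← map_add, hc, map_one, map_one]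
  have h3 : V.valuation (ak Ω c) * V.valuation (ak Ω a) = 1 := by
    rw [← map_mul, h2, Valuation.map_one_sub_of_lt _ h1]
  have h4 := ak_le V a
  refine le_antisymm h4 ?_
  rw [← h3]
  exact mul_le_of_le_one_left' (ak_le V c)

/-- Chunk G10B (S/M). For x ≠ 0 in F only finitely many v have a valuation ring V above v with V(x) ≠ 1: x = a/b, v contains a or b (Abv-like argument: hv; if v does not contain a then a c - 1 is in v for some c, so V(a) = 1). -/
theorem fin_unit (Ω : Type) [Field Ω] [Algebra F Ω] (x : F) (hx : x ≠ 0) :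
    ∃ S : Set (HeightOneSpectrum (𝓞 F)), S.Finite ∧ ∀ v ∉ S, ∀ V : ValuationSubring Ω,
      (∀ a : 𝓞 F, a ∈ v.asIdeal → V.valuation (ak Ω a) < 1) → V.valuation (algebraMap F Ω x) = 1 := by
  obtain ⟨a, b, hb, rfl⟩ := IsFractionRing.div_surjective (A := 𝓞 F) x
  have hb0 : b ≠ 0 := nonZeroDivisors.ne_zero hb
  have ha0 : a ≠ 0 := by
    rintro rfl
    apply hx
    rw [map_zero, zero_div]
  refine ⟨{v | a ∈ v.asIdeal} ∪ {v | b ∈ v.asIdeal}, (g10b_fin a ha0).union (g10b_fin b hb0), ?_⟩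
  intro v hvS V hv
  rw [Set.mem_union, not_or] at hvS
  have h1 := g10b_one V v hv a hvS.1
  have h2 := g10b_one V v hv b hvS.2
  rw [map_div₀, map_div₀]
  change V.valuation (ak Ω a) / V.valuation (ak Ω b) = 1
  rw [h1, h2, div_one]

end H55K
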