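import Mathlib
import Pool.Agent.Lib.H55K.M0

open NumberField WeierstrassCurve

namespace H55K.MG

open H35P (WAB Ker GoodW IntW)

variable {k : Type} [Field k] {W W' : WeierstrassCurve k} {u r s t : k}

/-! Chunk M1A (M, several polynomial identities). Port of PS4_eq, PS4_negY, PS4_cond, PS4_slope, PS4_addX, PS4_addY in Lib/H55P/S4.lean to a general change of variables. vc_eq: Affine.equation_iff; the equation of W at
(u^2 x + r, u^3 y + s u^2 x + t) is u^6 times the equation of W' (linear_combination with h.h1 .. h.h6, cancel u^6). vc_slope: x1 = x2: slope_of_Y_ne, the numerator of W is u^4 (numerator of W') + s u^3 (denominator of W'), the denominator is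
u^3 times that of W' (vc_negY; it is not 0); x1 <> x2: slope_of_X_ne. -/

theorem vc_eq (h : VC W W' u r s t) (x y : k) : W'.toAffine.Equation x y ↔
    W.toAffine.Equation (u ^ 2 * x + r) (u ^ 3 * y + s * u ^ 2 * x + t) := by
  have h1 : u * W'.toAffine.a₁ = W.toAffine.a₁ + 2 * s := h.h1
  have h2 : u ^ 2 * W'.toAffine.a₂ = W.toAffine.a₂ - s * W.toAffine.a₁ + 3 * r - s ^ 2 := h.h2
  have h3 : u ^ 3 * W'.toAffine.a₃ = W.toAffine.a₃ + r * W.toAffine.a₁ + 2 * t := h.h3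
  have h4 : u ^ 4 * W'.toAffine.a₄ = W.toAffine.a₄ - s * W.toAffine.a₃ + 2 * r * W.toAffine.a₂ -
    (t + r * s) * W.toAffine.a₁ + 3 * r ^ 2 - 2 * s * t := h.h4
  have h6 : u ^ 6 * W'.toAffine.a₆ = W.toAffine.a₆ + r * W.toAffine.a₄ + r ^ 2 * W.toAffine.a₂ + r ^ 3 -
    t * W.toAffine.a₃ - t ^ 2 - r * t * W.toAffine.a₁ := h.h6

  rw [Affine.equation_iff', Affine.equation_iff']
  have key : (u ^ 3 * y + s * u ^ 2 * x + t) ^ 2 + W.toAffine.a₁ * (u ^ 2 * x + r) * (u ^ 3 * y + s * u ^ 2 * x + t) +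
      W.toAffine.a₃ * (u ^ 3 * y + s * u ^ 2 * x + t) - ((u ^ 2 * x + r) ^ 3 + W.toAffine.a₂ * (u ^ 2 * x + r) ^ 2 +
      W.toAffine.a₄ * (u ^ 2 * x + r) + W.toAffine.a₆) = u ^ 6 * (y ^ 2 + W'.toAffine.a₁ * x * y +
      W'.toAffine.a₃ * y - (x ^ 3 + W'.toAffine.a₂ * x ^ 2 + W'.toAffine.a₄ * x + W'.toAffine.a₆)) := by
    linear_combination (-(u ^ 5 * x * y)) * h1 + u ^ 4 * x ^ 2 * h2 - u ^ 3 * y * h3 + u ^ 2 * x * h4 + h6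
  rw [key]
  constructor
  · intro e
    rw [e, mul_zero]
  · intro e
    exact (mul_eq_zero.1 e).resolve_left (pow_ne_zero 6 h.une)

theorem vc_negY (h : VC W W' u r s t) (x y : k) :
    W.toAffine.negY (u ^ 2 * x + r) (u ^ 3 * y + s * u ^ 2 * x + t) =
      u ^ 3 * W'.toAffine.negY x y + s * u ^ 2 * x + t := by
  have h1 : u * W'.toAffine.a₁ = W.toAffine.a₁ + 2 * s := h.h1
  have h2 : u ^ 2 * W'.toAffine.a₂ = W.toAffine.a₂ - s * W.toAffine.a₁ + 3 * r - s ^ 2 := h.h2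
  have h3 : u ^ 3 * W'.toAffine.a₃ = W.toAffine.a₃ + r * W.toAffine.a₁ + 2 * t := h.h3
  have h4 : u ^ 4 * W'.toAffine.a₄ = W.toAffine.a₄ - s * W.toAffine.a₃ + 2 * r * W.toAffine.a₂ -
    (t + r * s) * W.toAffine.a₁ + 3 * r ^ 2 - 2 * s * t := h.h4
  have h6 : u ^ 6 * W'.toAffine.a₆ = W.toAffine.a₆ + r * W.toAffine.a₄ + r ^ 2 * W.toAffine.a₂ + r ^ 3 -
    t * W.toAffine.a₃ - t ^ 2 - r * t * W.toAffine.a₁ := h.h6

  rw [Affine.negY, Affine.negY]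
  linear_combination u ^ 2 * x * h1 + h3

theorem vc_cond (h : VC W W' u r s t) (x₁ y₁ x₂ y₂ : k) :
    (u ^ 2 * x₁ + r = u ^ 2 * x₂ + r ∧ u ^ 3 * y₁ + s * u ^ 2 * x₁ + t =
      W.toAffine.negY (u ^ 2 * x₂ + r) (u ^ 3 * y₂ + s * u ^ 2 * x₂ + t)) ↔
      (x₁ = x₂ ∧ y₁ = W'.toAffine.negY x₂ y₂) := by
  rw [vc_negY h]
  have hu2 : u ^ 2 ≠ 0 := pow_ne_zero 2 h.une
  have hu3 : u ^ 3 ≠ 0 := pow_ne_zero 3 h.une
  constructor
  · rintro ⟨e1, e2⟩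
    have e3 : x₁ = x₂ := mul_left_cancel₀ hu2 (by linear_combination e1)
    refine ⟨e3, ?_⟩
    rw [e3] at e2
    exact mul_left_cancel₀ hu3 (by linear_combination e2)
  · rintro ⟨e1, e2⟩
    rw [e1, e2]
    exact ⟨rfl, rfl⟩

theorem vc_slope [DecidableEq k] (h : VC W W' u r s t) {x₁ y₁ x₂ y₂ : k}
    (E₁ : W'.toAffine.Equation x₁ y₁) (E₂ : W'.toAffine.Equation x₂ y₂)
    (hxy : ¬(x₁ = x₂ ∧ y₁ = W'.toAffine.negY x₂ y₂)) :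
    W.toAffine.slope (u ^ 2 * x₁ + r) (u ^ 2 * x₂ + r) (u ^ 3 * y₁ + s * u ^ 2 * x₁ + t)
      (u ^ 3 * y₂ + s * u ^ 2 * x₂ + t) = u * W'.toAffine.slope x₁ x₂ y₁ y₂ + s := by
  have h1 : u * W'.toAffine.a₁ = W.toAffine.a₁ + 2 * s := h.h1
  have h2 : u ^ 2 * W'.toAffine.a₂ = W.toAffine.a₂ - s * W.toAffine.a₁ + 3 * r - s ^ 2 := h.h2
  have h3 : u ^ 3 * W'.toAffine.a₃ = W.toAffine.a₃ + r * W.toAffine.a₁ + 2 * t := h.h3
  have h4 : u ^ 4 * W'.toAffine.a₄ = W.toAffine.a₄ - s * W.toAffine.a₃ + 2 * r * W.toAffine.a₂ -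
    (t + r * s) * W.toAffine.a₁ + 3 * r ^ 2 - 2 * s * t := h.h4
  have h6 : u ^ 6 * W'.toAffine.a₆ = W.toAffine.a₆ + r * W.toAffine.a₄ + r ^ 2 * W.toAffine.a₂ + r ^ 3 -
    t * W.toAffine.a₃ - t ^ 2 - r * t * W.toAffine.a₁ := h.h6

  have hu2 : u ^ 2 ≠ 0 := pow_ne_zero 2 h.une
  have hu3 : u ^ 3 ≠ 0 := pow_ne_zero 3 h.une
  by_cases hx : x₁ = x₂
  · have hy : y₁ ≠ W'.toAffine.negY x₂ y₂ := fun e => hxy ⟨hx, e⟩
    have hy' : u ^ 3 * y₁ + s * u ^ 2 * x₁ + t ≠ W.toAffine.negY (u ^ 2 * x₂ + r) (u ^ 3 * y₂ + s * u ^ 2 * x₂ + t) :=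
      fun e => hxy ((vc_cond h x₁ y₁ x₂ y₂).1 ⟨by rw [hx], e⟩)
    have hyy : y₁ = y₂ := Affine.Y_eq_of_Y_ne E₁ E₂ hx hy
    rw [Affine.slope_of_Y_ne (by rw [hx]) hy', Affine.slope_of_Y_ne hx hy, vc_negY h]
    have hne : y₁ - W'.toAffine.negY x₁ y₁ ≠ 0 := by
      rw [sub_ne_zero]
      rw [← hx, ← hyy] at hy
      exact hy
    have e5 : u ^ 3 * y₁ + s * u ^ 2 * x₁ + t - (u ^ 3 * W'.toAffine.negY x₁ y₁ + s * u ^ 2 * x₁ + t) =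
        u ^ 3 * (y₁ - W'.toAffine.negY x₁ y₁) := by
      ring
    rw [e5, mul_div_assoc', div_add' _ _ _ hne, div_eq_div_iff (mul_ne_zero hu3 hne) hne]
    have e6 : 3 * (u ^ 2 * x₁ + r) ^ 2 + 2 * W.toAffine.a₂ * (u ^ 2 * x₁ + r) + W.toAffine.a₄ -
        W.toAffine.a₁ * (u ^ 3 * y₁ + s * u ^ 2 * x₁ + t) =
        u ^ 4 * (3 * x₁ ^ 2 + 2 * W'.toAffine.a₂ * x₁ + W'.toAffine.a₄ - W'.toAffine.a₁ * y₁) +
        s * u ^ 3 * (y₁ - W'.toAffine.negY x₁ y₁) := by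
      rw [Affine.negY]
      linear_combination (u ^ 3 * y₁ - s * u ^ 2 * x₁) * h1 - 2 * u ^ 2 * x₁ * h2 - s * h3 - h4
    rw [e6]
    ring
  · have hx' : u ^ 2 * x₁ + r ≠ u ^ 2 * x₂ + r := fun e => hx (mul_left_cancel₀ hu2 (by linear_combination e))
    have h0 : x₁ - x₂ ≠ 0 := sub_ne_zero.2 hx
    have h0' : u ^ 2 * x₁ + r - (u ^ 2 * x₂ + r) ≠ 0 := sub_ne_zero.2 hx'
    rw [Affine.slope_of_X_ne hx', Affine.slope_of_X_ne hx, mul_div_assoc', div_add' _ _ _ h0, div_eq_div_iff h0' h0]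
    ring

theorem vc_addX (h : VC W W' u r s t) (x₁ x₂ l : k) :
    W.toAffine.addX (u ^ 2 * x₁ + r) (u ^ 2 * x₂ + r) (u * l + s) = u ^ 2 * W'.toAffine.addX x₁ x₂ l + r := by
  have h1 : u * W'.toAffine.a₁ = W.toAffine.a₁ + 2 * s := h.h1
  have h2 : u ^ 2 * W'.toAffine.a₂ = W.toAffine.a₂ - s * W.toAffine.a₁ + 3 * r - s ^ 2 := h.h2
  have h3 : u ^ 3 * W'.toAffine.a₃ = W.toAffine.a₃ + r * W.toAffine.a₁ + 2 * t := h.h3
  have h4 : u ^ 4 * W'.toAffine.a₄ = W.toAffine.a₄ - s * W.toAffine.a₃ + 2 * r * W.toAffine.a₂ -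
    (t + r * s) * W.toAffine.a₁ + 3 * r ^ 2 - 2 * s * t := h.h4
  have h6 : u ^ 6 * W'.toAffine.a₆ = W.toAffine.a₆ + r * W.toAffine.a₄ + r ^ 2 * W.toAffine.a₂ + r ^ 3 -
    t * W.toAffine.a₃ - t ^ 2 - r * t * W.toAffine.a₁ := h.h6

  rw [Affine.addX, Affine.addX]
  linear_combination (-(u * l)) * h1 + h2

theorem vc_addY (h : VC W W' u r s t) (x₁ x₂ y₁ l : k) :
    W.toAffine.addY (u ^ 2 * x₁ + r) (u ^ 2 * x₂ + r) (u ^ 3 * y₁ + s * u ^ 2 * x₁ + t) (u * l + s) =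
      u ^ 3 * W'.toAffine.addY x₁ x₂ y₁ l + s * u ^ 2 * W'.toAffine.addX x₁ x₂ l + t := by
  rw [Affine.addY, Affine.addY, ← vc_negY h, Affine.negAddY, Affine.negAddY, vc_addX h]
  congr 1
  ring

end H55K.MG
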