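import Mathlib
import Pool.Agent.Lib.H55K.M1A

open NumberField WeierstrassCurve

namespace H55K.MG

open H35P (WAB Ker GoodW IntW)

variable {k : Type} [Field k] {W W' : WeierstrassCurve k} {u r s t : k}

/-! Chunk M1B (M). Port of PS4_ns .. PS4_iso in Lib/H55P/S4.lean. All points of W, W' are nonsingular (Affine.equation_iff_nonsingular_of_Δ_ne_zero as in Lib/H35P/B1.lean). Map f : W' points -> W points, some x y to
some (u^2 x + r) (u^3 y + s u^2 x + t) (vc_eq), additive by vc_cond, vc_slope, vc_addX, vc_addY (cases), injective, surjective (x' = (x - r)/u^2, y' = (y - s (x - r) - t)/u^3). Θ is the inverse of f. -/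

theorem m1b_ns (h : VC W W' u r s t) (h1 : W.Δ ≠ 0) (h2 : W'.Δ ≠ 0) (x y : k) :
    W'.toAffine.Nonsingular x y ↔ W.toAffine.Nonsingular (u ^ 2 * x + r) (u ^ 3 * y + s * u ^ 2 * x + t) := by
  rw [← Affine.equation_iff_nonsingular_of_Δ_ne_zero h2, ← Affine.equation_iff_nonsingular_of_Δ_ne_zero h1]
  exact vc_eq h x y

/-- The map on points. -/
noncomputable def m1b_f (h : VC W W' u r s t) (h1 : W.Δ ≠ 0) (h2 : W'.Δ ≠ 0) :
    W'.toAffine.Point → W.toAffine.Point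
  | 0 => 0
  | .some x y hxy => .some (u ^ 2 * x + r) (u ^ 3 * y + s * u ^ 2 * x + t) ((m1b_ns h h1 h2 x y).1 hxy)

theorem m1b_f_add [DecidableEq k] (h : VC W W' u r s t) (h1 : W.Δ ≠ 0) (h2 : W'.Δ ≠ 0)
    (P Q : W'.toAffine.Point) : m1b_f h h1 h2 (P + Q) = m1b_f h h1 h2 P + m1b_f h h1 h2 Q := by
  rcases P with _ | ⟨x₁, y₁, g₁⟩
  · change m1b_f h h1 h2 (0 + Q) = 0 + m1b_f h h1 h2 Q
    rw [zero_add, zero_add]
  rcases Q with _ | ⟨x₂, y₂, g₂⟩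
  · change m1b_f h h1 h2 (_ + 0) = _ + 0
    rw [add_zero, add_zero]
  by_cases hxy : x₁ = x₂ ∧ y₁ = W'.toAffine.negY x₂ y₂
  · rw [Affine.Point.add_of_Y_eq hxy.1 hxy.2]
    have h3 := (vc_cond h x₁ y₁ x₂ y₂).2 hxy
    exact (Affine.Point.add_of_Y_eq (h₁ := (m1b_ns h h1 h2 x₁ y₁).1 g₁) (h₂ := (m1b_ns h h1 h2 x₂ y₂).1 g₂)
      h3.1 h3.2).symm
  · have hxy' : ¬(u ^ 2 * x₁ + r = u ^ 2 * x₂ + r ∧ u ^ 3 * y₁ + s * u ^ 2 * x₁ + t =
      W.toAffine.negY (u ^ 2 * x₂ + r) (u ^ 3 * y₂ + s * u ^ 2 * x₂ + t)) :=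
      fun h3 => hxy ((vc_cond h x₁ y₁ x₂ y₂).1 h3)
    have e1 := Affine.Point.add_some hxy' (h₁ := (m1b_ns h h1 h2 x₁ y₁).1 g₁)
      (h₂ := (m1b_ns h h1 h2 x₂ y₂).1 g₂)
    rw [Affine.Point.add_some hxy]
    refine Eq.trans ?_ e1.symm
    change Affine.Point.some _ _ _ = Affine.Point.some _ _ _
    rw [Affine.Point.some.injEq]
    rw [vc_slope h g₁.1 g₂.1 hxy, vc_addX h, vc_addY h]
    exact ⟨rfl, rfl⟩

theorem m1b_f_inj (h : VC W W' u r s t) (h1 : W.Δ ≠ 0) (h2 : W'.Δ ≠ 0) :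
    Function.Injective (m1b_f h h1 h2) := by
  intro P Q hPQ
  rcases P with _ | ⟨x₁, y₁, g₁⟩
  · rcases Q with _ | ⟨x₂, y₂, g₂⟩
    · rfl
    · exact absurd hPQ (Affine.Point.some_ne_zero _).symm
  · rcases Q with _ | ⟨x₂, y₂, g₂⟩
    · exact absurd hPQ (Affine.Point.some_ne_zero _)
    · have h3 := Affine.Point.some.inj hPQ
      have hx : x₁ = x₂ := by
        have h4 : u ^ 2 * x₁ = u ^ 2 * x₂ := by linear_combination h3.1
        exact mul_left_cancel₀ (pow_ne_zero 2 h.une) h4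
      have hy : y₁ = y₂ := by
        have h4 : u ^ 3 * y₁ = u ^ 3 * y₂ := by linear_combination h3.2 - s * u ^ 2 * hx
        exact mul_left_cancel₀ (pow_ne_zero 3 h.une) h4
      subst hx hy
      rfl

theorem m1b_f_surj (h : VC W W' u r s t) (h1 : W.Δ ≠ 0) (h2 : W'.Δ ≠ 0) :
    Function.Surjective (m1b_f h h1 h2) := by
  intro P
  rcases P with _ | ⟨x, y, g⟩
  · exact ⟨0, rfl⟩
  · have hu := h.une
    have e1 : u ^ 2 * ((x - r) / u ^ 2) + r = x := by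
      field_simp
      ring
    have e2 : u ^ 3 * ((y - s * (x - r) - t) / u ^ 3) + s * u ^ 2 * ((x - r) / u ^ 2) + t = y := by
      field_simp
      ring
    have h' : W'.toAffine.Nonsingular ((x - r) / u ^ 2) ((y - s * (x - r) - t) / u ^ 3) := by
      rw [m1b_ns h h1 h2, e1, e2]
      exact g
    refine ⟨.some ((x - r) / u ^ 2) ((y - s * (x - r) - t) / u ^ 3) h', ?_⟩
    change Affine.Point.some _ _ _ = Affine.Point.some _ _ _
    rw [Affine.Point.some.injEq]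
    exact ⟨e1, e2⟩

theorem vc_iso [DecidableEq k] (h : VC W W' u r s t) (h1 : W.Δ ≠ 0) (h2 : W'.Δ ≠ 0) :
    ∃ Θ : W.toAffine.Point ≃+ W'.toAffine.Point, Crd u r s t Θ := by
  obtain ⟨f, hf⟩ : ∃ f : W'.toAffine.Point ≃+ W.toAffine.Point, ∀ P, f P = m1b_f h h1 h2 P :=
    ⟨AddEquiv.ofBijective (AddMonoidHom.mk' (m1b_f h h1 h2) (m1b_f_add h h1 h2))
      ⟨m1b_f_inj h h1 h2, m1b_f_surj h h1 h2⟩, fun P => rfl⟩
  refine ⟨f.symm, fun P hP => ?_⟩
  obtain ⟨Q, rfl⟩ := f.surjective P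
  rw [f.symm_apply_apply]
  rcases Q with _ | ⟨x, y, g⟩
  · exact absurd (map_zero f) hP
  · refine ⟨Affine.Point.some_ne_zero _, ?_, ?_⟩
    · rw [hf]
      rfl
    · rw [hf]
      rfl

end H55K.MG
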