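import Mathlib
import Pool.Agent.Lib.H55K.D0

/-! # H55K: the short equation -/

open NumberField IsDedekindDomain WeierstrassCurve

namespace H55K

open H55P (IQ embF eF LF Per IsHecke Pt ac Inert Dec Nm)
open H35P (WAB Ker tt)


variable {F : Type} [Field F] [NumberField F] [IQ F]

omit [IQ F] in
theorem y3_le {Ω : Type} [Field Ω] [Algebra F Ω] (V : ValuationSubring Ω) (x : 𝓞 F) :
    V.valuation (ak Ω x) ≤ 1 := by
  rw [V.valuation_le_one_iff]
  have h1 : IsIntegral ℤ (ak Ω x) := by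
    have h2 : IsIntegral ℤ (x : F) := RingOfIntegers.isIntegral_coe x
    exact h2.map ((algebraMap F Ω).toIntAlgHom)
  have h3 : IsIntegral V (ak Ω x) := h1.tower_top
  obtain ⟨y, hy⟩ := IsIntegrallyClosed.isIntegral_iff.1 h3
  rw [← hy]
  exact y.2

omit [IQ F] in
theorem y3_cop {Ω : Type} [Field Ω] [Algebra F Ω] (V : ValuationSubring Ω) {p : ℕ}
    (hV : V.valuation (p : Ω) < 1) {z : 𝓞 F} (hz : IsCoprime z (p : 𝓞 F)) :
    V.valuation (ak Ω z) = 1 := by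
  obtain ⟨a, b, hab⟩ := hz
  have h1 : ak Ω a * ak Ω z + ak Ω b * (p : Ω) = 1 := by
    have h4 := congrArg (fun t : 𝓞 F => algebraMap F Ω (t : F)) hab
    simpa using h4
  refine le_antisymm (y3_le V z) (not_lt.1 fun hlt => ?_)
  have h5 : V.valuation (ak Ω a * ak Ω z + ak Ω b * (p : Ω)) < 1 := by
    refine Valuation.map_add_lt _ ?_ ?_
    · rw [map_mul]
      exact mul_lt_one_of_nonneg_of_lt_one_right (y3_le V a) zero_le hlt
    · rw [map_mul]
      exact mul_lt_one_of_nonneg_of_lt_one_right (y3_le V b) zero_le hV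
  rw [h1, map_one] at h5
  exact lt_irrefl _ h5

omit [NumberField F] [IQ F] in
theorem y3_nat {Ω : Type} [Field Ω] (V : ValuationSubring Ω) {p : ℕ}
    (hV : V.valuation (p : Ω) < 1) {n : ℕ} (hn : Nat.Coprime n p) : V.valuation (n : Ω) = 1 := by
  have hle : ∀ k : ℤ, V.valuation (k : Ω) ≤ 1 := by
    intro k
    rw [V.valuation_le_one_iff]
    exact intCast_mem V k
  have h0 := Nat.gcd_eq_gcd_ab n p
  rw [hn.gcd_eq_one] at h0
  have h1 : (n : Ω) * ((n.gcdA p : ℤ) : Ω) + (p : Ω) * ((n.gcdB p : ℤ) : Ω) = 1 := by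
    have h2 := congrArg (fun t : ℤ => (t : Ω)) h0
    push_cast at h2
    exact h2.symm
  have hn1 : V.valuation (n : Ω) ≤ 1 := by
    have := hle n
    rwa [Int.cast_natCast] at this
  refine le_antisymm hn1 (not_lt.1 fun hlt => ?_)
  have h5 : V.valuation ((n : Ω) * ((n.gcdA p : ℤ) : Ω) + (p : Ω) * ((n.gcdB p : ℤ) : Ω)) < 1 := by
    refine Valuation.map_add_lt _ ?_ ?_
    · rw [map_mul, mul_comm]
      exact mul_lt_one_of_nonneg_of_lt_one_right (hle _) zero_le hlt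
    · rw [map_mul, mul_comm]
      exact mul_lt_one_of_nonneg_of_lt_one_right (hle _) zero_le hV
  rw [h1, map_one] at h5
  exact lt_irrefl _ h5

omit [IQ F] in
/-- Chunk Y3 (S/M). W₀.c_relation: 1728 Δ = c₄^3 - c₆^2 (see H55P.gen_good in Gen.lean). -/
theorem y3_disc (W₀ : WeierstrassCurve (𝓞 F)) {A B : F} (hA : A = -(algebraMap (𝓞 F) F W₀.c₄) / 48)
    (hB : B = -(algebraMap (𝓞 F) F W₀.c₆) / 864) :
    4 * A ^ 3 + 27 * B ^ 2 = -(algebraMap (𝓞 F) F W₀.Δ) / 16 := by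
  have h1 : (1728 : F) * algebraMap (𝓞 F) F W₀.Δ =
      algebraMap (𝓞 F) F W₀.c₄ ^ 3 - algebraMap (𝓞 F) F W₀.c₆ ^ 2 := by
    have := congrArg (algebraMap (𝓞 F) F) W₀.c_relation
    rw [map_mul, map_sub, map_pow, map_pow, map_ofNat] at this
    exact this
  rw [hA, hB]
  linear_combination (1 / 27648 : F) * h1

omit [IQ F] in
/-- Chunk Y3. -/
theorem y3_ne (W₀ : WeierstrassCurve (𝓞 F)) {A B : F} (hA : A = -(algebraMap (𝓞 F) F W₀.c₄) / 48)
    (hB : B = -(algebraMap (𝓞 F) F W₀.c₆) / 864) (h : W₀.Δ ≠ 0) : 4 * A ^ 3 + 27 * B ^ 2 ≠ 0 := by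
  rw [y3_disc W₀ hA hB]
  refine div_ne_zero (neg_ne_zero.2 fun h0 => h ?_) (by norm_num)
  exact (map_eq_zero_iff _ (FaithfulSMul.algebraMap_injective (𝓞 F) F)).1 h0

omit [IQ F] in
/-- Chunk Y3. The same j₀. -/
theorem y3_j (W₀ : WeierstrassCurve (𝓞 F)) {A B : F} (hA : A = -(algebraMap (𝓞 F) F W₀.c₄) / 48)
    (hB : B = -(algebraMap (𝓞 F) F W₀.c₆) / 864) (h : ∃ j₀ : 𝓞 F, W₀.c₄ ^ 3 = j₀ * W₀.Δ) :
    ∃ j₀ : 𝓞 F, (j₀ : F) * (4 * A ^ 3 + 27 * B ^ 2) = 6912 * A ^ 3 := by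
  obtain ⟨j₀, hj⟩ := h
  refine ⟨j₀, ?_⟩
  have h1 : algebraMap (𝓞 F) F W₀.c₄ ^ 3 = (j₀ : F) * algebraMap (𝓞 F) F W₀.Δ := by
    have := congrArg (algebraMap (𝓞 F) F) hj
    rw [map_mul, map_pow] at this
    exact this
  rw [y3_disc W₀ hA hB, hA]
  linear_combination (1 / 16 : F) * h1

omit [IQ F] in
/-- Chunk Y3. Port of H55P.gen_good (Gen.lean) from ℂ to Ω: V(2) = V(3) = 1 (p ≥ 5, V(p) < 1), the coefficients are integral, V(Δ) = 1 because Δ is prime to p. -/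
theorem gv_l {p : ℕ} (hp : p.Prime) (h5 : 5 ≤ p) (W₀ : WeierstrassCurve (𝓞 F))
    (hΔ : IsCoprime (Ideal.span {W₀.Δ}) (Ideal.span {(p : 𝓞 F)})) {A B : F}
    (hA : A = -(algebraMap (𝓞 F) F W₀.c₄) / 48) (hB : B = -(algebraMap (𝓞 F) F W₀.c₆) / 864)
    {Ω : Type} [Field Ω] [Algebra F Ω] (V : ValuationSubring Ω) (hV : V.valuation (p : Ω) < 1) :
    GV A B V := by
  have h2 : V.valuation (2 : Ω) = 1 := by
    have h1 := y3_nat V hV (n := 2) ((Nat.coprime_primes Nat.prime_two hp).2 (by omega))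
    exact_mod_cast h1
  have h3 : V.valuation (3 : Ω) = 1 := by
    have h1 := y3_nat V hV (n := 3) ((Nat.coprime_primes Nat.prime_three hp).2 (by omega))
    exact_mod_cast h1
  have h48 : V.valuation (48 : Ω) = 1 := by
    have e : (48 : Ω) = 2 * 2 * 2 * 2 * 3 := by norm_num
    rw [e]
    simp only [map_mul, h2, h3, one_mul]
  have h864 : V.valuation (864 : Ω) = 1 := by
    have e : (864 : Ω) = 2 * 2 * 2 * 2 * 2 * 3 * 3 * 3 := by norm_num
    rw [e]
    simp only [map_mul, h2, h3, one_mul]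
  have h16 : V.valuation (16 : Ω) = 1 := by
    have e : (16 : Ω) = 2 * 2 * 2 * 2 := by norm_num
    rw [e]
    simp only [map_mul, h2, one_mul]
  refine ⟨?_, ?_, h2, h3, ?_⟩
  · rw [← V.valuation_le_one_iff, hA, map_div₀, map_neg, map_ofNat, map_div₀, Valuation.map_neg, h48,
      div_one]
    exact y3_le V _
  · rw [← V.valuation_le_one_iff, hB, map_div₀, map_neg, map_ofNat, map_div₀, Valuation.map_neg, h864,
      div_one]
    exact y3_le V _
  · rw [y3_disc W₀ hA hB, map_div₀, map_neg, map_ofNat, map_div₀, Valuation.map_neg, h16, div_one]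
    exact y3_cop V hV ((Ideal.isCoprime_span_singleton_iff _ _).1 hΔ)

end H55K
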