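import Mathlib
import Pool.Agent.Lib.H55K.G3

/-! # H55K: counting the points of the reduction -/

open NumberField IsDedekindDomain WeierstrassCurve

namespace H55K

open H55P (IQ embF eF LF Per IsHecke Pt ac Inert Dec Nm)
open H35P (WAB Ker tt)

variable {F : Type} [Field F] [NumberField F] [IQ F] {A B : F} {Om : ℂ} {Ω : Type} [Field Ω] [DecidableEq Ω]
  [Algebra F Ω] {j : Ω →+* ℂ} {act : 𝓞 F →+* AddMonoid.End (Pt (WAB A B) Ω)} {V : ValuationSubring Ω}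

section res

variable {F : Type} [Field F] [NumberField F] {Ω : Type} [Field Ω] [Algebra F Ω] {V : ValuationSubring Ω}

/-- The map of the integers to the big field. -/
noncomputable def g9h (F : Type) [Field F] (Ω : Type) [Field Ω] [Algebra F Ω] : 𝓞 F →+* Ω :=
  (algebraMap F Ω).comp (algebraMap (𝓞 F) F)

omit [NumberField F] in
theorem g9h_eq (a : 𝓞 F) : g9h F Ω a = ak Ω a := rfl

/-- The residue map on the integers. -/
noncomputable def g9r (F : Type) [Field F] {Ω : Type} [Field Ω] [Algebra F Ω] (V : ValuationSubring Ω) :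
    𝓞 F →+* IsLocalRing.ResidueField V :=
  (IsLocalRing.residue V).comp ((g9h F Ω).codRestrict V fun a => (V.valuation_le_one_iff _).1 (ak_le V a))

omit [NumberField F] in
theorem g9r_eq (a : 𝓞 F) (h : ak Ω a ∈ V) : g9r F V a = IsLocalRing.residue V ⟨ak Ω a, h⟩ := rfl

theorem g9_res {x : Ω} (hx : x ∈ V) : IsLocalRing.residue V ⟨x, hx⟩ = 0 ↔ V.valuation x < 1 := by
  rw [IsLocalRing.residue_eq_zero_iff, ValuationSubring.valuation_lt_one_iff]

omit [NumberField F] in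
theorem g9r_zero (a : 𝓞 F) : g9r F V a = 0 ↔ V.valuation (ak Ω a) < 1 := g9_res _

theorem g9_ker {v : HeightOneSpectrum (𝓞 F)} (hv : ∀ a : 𝓞 F, a ∈ v.asIdeal → V.valuation (ak Ω a) < 1)
    (a : 𝓞 F) : V.valuation (ak Ω a) < 1 ↔ a ∈ v.asIdeal := by
  refine ⟨fun h => ?_, hv a⟩
  have h1 : v.asIdeal ≤ RingHom.ker (g9r F V) := fun x hx => (g9r_zero x).2 (hv x hx)
  have h2 : RingHom.ker (g9r F V) ≠ ⊤ := RingHom.ker_ne_top _
  have h3 := v.isMaximal.eq_of_le h2 h1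
  rw [h3]
  exact (g9r_zero a).2 h

theorem g9_frob {v : HeightOneSpectrum (𝓞 F)} (hv : ∀ a : 𝓞 F, a ∈ v.asIdeal → V.valuation (ak Ω a) < 1)
    {x : Ω} (hx : V.valuation x ≤ 1) : V.valuation (x ^ Ideal.absNorm v.asIdeal - x) < 1 ↔
      ∃ a : 𝓞 F, V.valuation (x - ak Ω a) < 1 := by
  classical
  have hm := v.isMaximal
  let _ : Field (𝓞 F ⧸ v.asIdeal) := Ideal.Quotient.field _
  have hfin : Finite (𝓞 F ⧸ v.asIdeal) := Ideal.finiteQuotientOfFreeOfNeBot _ v.ne_bot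
  let _ := Fintype.ofFinite (𝓞 F ⧸ v.asIdeal)
  have hq : Ideal.absNorm v.asIdeal = Fintype.card (𝓞 F ⧸ v.asIdeal) := by
    rw [← Nat.card_eq_fintype_card]
    rfl
  have hq1 : 1 < Fintype.card (𝓞 F ⧸ v.asIdeal) := Fintype.one_lt_card
  set q := Fintype.card (𝓞 F ⧸ v.asIdeal) with hqdef
  have hxV : x ∈ V := (V.valuation_le_one_iff _).1 hx
  let ρ : 𝓞 F ⧸ v.asIdeal →+* IsLocalRing.ResidueField V :=
    Ideal.Quotient.lift v.asIdeal (g9r F V) fun a ha => (g9r_zero a).2 (hv a ha)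
  have hρ : ∀ a : 𝓞 F, ρ (Ideal.Quotient.mk v.asIdeal a) = g9r F V a := fun a => rfl
  have e1 : V.valuation (x ^ Ideal.absNorm v.asIdeal - x) < 1 ↔
      IsLocalRing.residue V ⟨x, hxV⟩ ^ q = IsLocalRing.residue V ⟨x, hxV⟩ := by
    rw [hq, ← sub_eq_zero, ← map_pow, ← map_sub]
    exact (g9_res (V := V) _).symm
  have e2 : (∃ a : 𝓞 F, V.valuation (x - ak Ω a) < 1) ↔ ∃ a : 𝓞 F ⧸ v.asIdeal, ρ a = IsLocalRing.residue V ⟨x, hxV⟩ := by
    constructor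
    · rintro ⟨a, ha⟩
      refine ⟨Ideal.Quotient.mk _ a, ?_⟩
      have haV : ak Ω a ∈ V := (V.valuation_le_one_iff _).1 (ak_le V a)
      rw [hρ, g9r_eq a haV, eq_comm, ← sub_eq_zero, ← map_sub]
      exact (g9_res (V := V) (x := x - ak Ω a) (V.sub_mem hxV haV)).2 ha
    · rintro ⟨a, ha⟩
      obtain ⟨a, rfl⟩ := Ideal.Quotient.mk_surjective a
      refine ⟨a, ?_⟩
      have haV : ak Ω a ∈ V := (V.valuation_le_one_iff _).1 (ak_le V a)
      rw [hρ, g9r_eq a haV, eq_comm, ← sub_eq_zero, ← map_sub] at ha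
      exact (g9_res (V := V) (x := x - ak Ω a) (V.sub_mem hxV haV)).1 ha
  rw [e1, e2]
  constructor
  · intro h
    have hp : (Polynomial.X ^ q - Polynomial.X : Polynomial (IsLocalRing.ResidueField V)) ≠ 0 :=
      FiniteField.X_pow_card_sub_X_ne_zero _ hq1
    have hd : (Polynomial.X ^ q - Polynomial.X : Polynomial (IsLocalRing.ResidueField V)).natDegree = q :=
      FiniteField.X_pow_card_sub_X_natDegree_eq _ hq1
    have hsub : Finset.univ.image ρ ⊆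
        (Polynomial.X ^ q - Polynomial.X : Polynomial (IsLocalRing.ResidueField V)).roots.toFinset := by
      intro z hz
      obtain ⟨a, -, rfl⟩ := Finset.mem_image.1 hz
      rw [Multiset.mem_toFinset, Polynomial.mem_roots hp, Polynomial.IsRoot.def]
      simp only [Polynomial.eval_sub, Polynomial.eval_pow, Polynomial.eval_X]
      rw [← map_pow, hqdef, FiniteField.pow_card, sub_self]
    have hcard : (Finset.univ.image ρ).card = q := by
      rw [Finset.card_image_of_injective _ ρ.injective, Finset.card_univ]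
    have heq := Finset.eq_of_subset_of_card_le hsub (by
      rw [hcard]
      exact (Multiset.toFinset_card_le _).trans ((Polynomial.card_roots' _).trans (le_of_eq hd)))
    have hmem : IsLocalRing.residue V ⟨x, hxV⟩ ∈
        (Polynomial.X ^ q - Polynomial.X : Polynomial (IsLocalRing.ResidueField V)).roots.toFinset := by
      rw [Multiset.mem_toFinset, Polynomial.mem_roots hp, Polynomial.IsRoot.def]
      simp only [Polynomial.eval_sub, Polynomial.eval_pow, Polynomial.eval_X]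
      rw [h, sub_self]
    rw [← heq, Finset.mem_image] at hmem
    obtain ⟨a, -, ha⟩ := hmem
    exact ⟨a, ha⟩
  · rintro ⟨a, ha⟩
    rw [← ha, ← map_pow, hqdef, FiniteField.pow_card]

/-- A prime to v natural number is invertible modulo v. -/
theorem g9_inv {v : HeightOneSpectrum (𝓞 F)} (hv : ∀ a : 𝓞 F, a ∈ v.asIdeal → V.valuation (ak Ω a) < 1)
    (n : ℕ) (hn : V.valuation (n : Ω) = 1) : ∃ c : 𝓞 F, V.valuation (ak Ω c * n - 1) < 1 := by
  have hm := v.isMaximal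
  let _ : Field (𝓞 F ⧸ v.asIdeal) := Ideal.Quotient.field _
  have hakn : ak Ω (n : 𝓞 F) = (n : Ω) := by
    rw [← g9h_eq]
    exact map_natCast _ _
  have h1 : (n : 𝓞 F) ∉ v.asIdeal := by
    intro h
    have := hv _ h
    rw [hakn, hn] at this
    exact lt_irrefl _ this
  have h2 : Ideal.Quotient.mk v.asIdeal (n : 𝓞 F) ≠ 0 := by
    rwa [Ne, Ideal.Quotient.eq_zero_iff_mem]
  obtain ⟨c, hc⟩ := Ideal.Quotient.mk_surjective (I := v.asIdeal) ((Ideal.Quotient.mk v.asIdeal (n : 𝓞 F))⁻¹)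
  refine ⟨c, ?_⟩
  have h3 : Ideal.Quotient.mk v.asIdeal (c * (n : 𝓞 F) - 1) = 0 := by
    rw [map_sub, map_mul, map_one, hc, inv_mul_cancel₀ h2, sub_self]
  rw [Ideal.Quotient.eq_zero_iff_mem] at h3
  have h4 := hv _ h3
  have h5 : ak Ω (c * (n : 𝓞 F) - 1) = ak Ω c * n - 1 := by
    rw [← g9h_eq, map_sub, map_mul, map_one, map_natCast, g9h_eq]
  rwa [h5] at h4

omit [NumberField F] in
theorem g9_mul {x y : Ω} (hx : V.valuation x < 1) (hy : V.valuation y ≤ 1) : V.valuation (x * y) < 1 := by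
  rw [map_mul]
  exact mul_lt_one_of_lt_of_le hx hy

theorem g9_div {v : HeightOneSpectrum (𝓞 F)} (hv : ∀ a : 𝓞 F, a ∈ v.asIdeal → V.valuation (ak Ω a) < 1)
    (n : ℕ) (hn : V.valuation (n : Ω) = 1) (a : 𝓞 F) : ∃ c : 𝓞 F, V.valuation (ak Ω a / n - ak Ω c) < 1 := by
  obtain ⟨c, hc⟩ := g9_inv hv n hn
  have hn0 : (n : Ω) ≠ 0 := by
    intro h
    rw [h, map_zero] at hn
    exact zero_ne_one hn
  refine ⟨a * c, ?_⟩
  have h1 : ak Ω a / n - ak Ω (a * c) = (ak Ω c * n - 1) * (-(ak Ω a) / n) := by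
    rw [← g9h_eq (Ω := Ω) (a * c), map_mul, g9h_eq, g9h_eq]
    field_simp
    ring
  rw [h1]
  refine g9_mul hc ?_
  rw [map_div₀, hn, div_one, Valuation.map_neg]
  exact ak_le V a

end res

/-- The equation of the integral model. -/
def g9E {F : Type} [Field F] (W₀ : WeierstrassCurve (𝓞 F)) (a b : 𝓞 F) : 𝓞 F :=
  b ^ 2 + W₀.a₁ * a * b + W₀.a₃ * b - (a ^ 3 + W₀.a₂ * a ^ 2 + W₀.a₄ * a + W₀.a₆)

/-- The coordinates of the point of the short model. -/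
noncomputable def g9x {F : Type} [Field F] (Ω : Type) [Field Ω] [Algebra F Ω] (W₀ : WeierstrassCurve (𝓞 F)) (a : 𝓞 F) : Ω :=
  ak Ω a + ak Ω W₀.b₂ / (12 : ℕ)

noncomputable def g9y {F : Type} [Field F] (Ω : Type) [Field Ω] [Algebra F Ω] (W₀ : WeierstrassCurve (𝓞 F)) (a b : 𝓞 F) : Ω :=
  ak Ω b + ak Ω (W₀.a₁ * a) / (2 : ℕ) + ak Ω W₀.a₃ / (2 : ℕ)

omit [NumberField F] [IQ F] [DecidableEq Ω] in
theorem g9_ident (h2 : (2 : Ω) ≠ 0) (h3 : (3 : Ω) ≠ 0) (W₀ : WeierstrassCurve (𝓞 F))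
    (hA : A = -(algebraMap (𝓞 F) F W₀.c₄) / 48) (hB : B = -(algebraMap (𝓞 F) F W₀.c₆) / 864) (a b : 𝓞 F) :
    g9y Ω W₀ a b ^ 2 - (g9x Ω W₀ a ^ 3 + algebraMap F Ω A * g9x Ω W₀ a + algebraMap F Ω B) = ak Ω (g9E W₀ a b) := by
  have eA : algebraMap F Ω A = - g9h F Ω W₀.c₄ / 48 := by
    rw [hA, map_div₀, map_neg, map_ofNat]
    rfl
  have eB : algebraMap F Ω B = - g9h F Ω W₀.c₆ / 864 := by
    rw [hB, map_div₀, map_neg, map_ofNat]
    rfl
  have h12 : (12 : Ω) ≠ 0 := by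
    have : (12 : Ω) = 2 ^ 2 * 3 := by norm_num
    rw [this]
    exact mul_ne_zero (pow_ne_zero 2 h2) h3
  have h48 : (48 : Ω) ≠ 0 := by
    have : (48 : Ω) = 2 ^ 4 * 3 := by norm_num
    rw [this]
    exact mul_ne_zero (pow_ne_zero 4 h2) h3
  have h864 : (864 : Ω) ≠ 0 := by
    have : (864 : Ω) = 2 ^ 5 * 3 ^ 3 := by norm_num
    rw [this]
    exact mul_ne_zero (pow_ne_zero 5 h2) (pow_ne_zero 3 h3)
  rw [eA, eB]
  unfold g9x g9y g9E
  simp only [← g9h_eq, Nat.cast_ofNat]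
  simp only [WeierstrassCurve.c₄, WeierstrassCurve.c₆, WeierstrassCurve.b₂, WeierstrassCurve.b₄, WeierstrassCurve.b₆,
    map_add, map_mul, map_sub, map_neg, map_pow, map_ofNat]
  field_simp
  ring

omit [NumberField F] [IQ F] [DecidableEq Ω] in
theorem g9_twelve (hV : GV A B V) : V.valuation (((12 : ℕ) : Ω)) = 1 ∧ V.valuation (((2 : ℕ) : Ω)) = 1 ∧
    (2 : Ω) ≠ 0 ∧ (3 : Ω) ≠ 0 := by
  have h2 := hV.two
  have h3 := hV.three
  refine ⟨?_, ?_, ?_, ?_⟩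
  · have : ((12 : ℕ) : Ω) = 2 ^ 2 * 3 := by norm_num
    rw [this, map_mul, map_pow, h2, h3]
    simp
  · rw [Nat.cast_ofNat]
    exact h2
  · intro h
    rw [h, map_zero] at h2
    exact zero_ne_one h2
  · intro h
    rw [h, map_zero] at h3
    exact zero_ne_one h3

omit [NumberField F] [IQ F] [DecidableEq Ω] in
theorem g9_int (hV : GV A B V) (W₀ : WeierstrassCurve (𝓞 F)) (a b : 𝓞 F) :
    V.valuation (g9x Ω W₀ a) ≤ 1 ∧ V.valuation (g9y Ω W₀ a b) ≤ 1 := by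
  obtain ⟨h12, h2, -, -⟩ := g9_twelve hV
  have hd : ∀ (n : ℕ) (c : 𝓞 F), V.valuation (n : Ω) = 1 → V.valuation (ak Ω c / n) ≤ 1 := by
    intro n c hn
    rw [map_div₀, hn, div_one]
    exact ak_le V c
  constructor
  · exact (Valuation.map_add _ _ _).trans (max_le (ak_le V a) (hd _ _ h12))
  · exact (Valuation.map_add _ _ _).trans (max_le
      ((Valuation.map_add _ _ _).trans (max_le (ak_le V b) (hd _ _ h2))) (hd _ _ h2))

omit [NumberField F] [IQ F] [DecidableEq Ω] in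
/-- Existence of a lift of a point modulo v. -/
theorem g9_lift [IsAlgClosed Ω] (hV : GV A B V) (W₀ : WeierstrassCurve (𝓞 F))
    (hA : A = -(algebraMap (𝓞 F) F W₀.c₄) / 48) (hB : B = -(algebraMap (𝓞 F) F W₀.c₆) / 864) (a b : 𝓞 F)
    (hE : V.valuation (ak Ω (g9E W₀ a b)) < 1) : ∃ X : Pt (WAB A B) Ω, ¬ Ker V X ∧ xc X = g9x Ω W₀ a ∧
      V.valuation (yc X - g9y Ω W₀ a b) < 1 := by
  obtain ⟨h12, h2', h2, h3⟩ := g9_twelve hV
  obtain ⟨hx, hy⟩ := g9_int hV W₀ a b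
  obtain ⟨z, hz⟩ := IsAlgClosed.exists_pow_nat_eq (g9x Ω W₀ a ^ 3 + algebraMap F Ω A * g9x Ω W₀ a + algebraMap F Ω B)
    (show 0 < 2 by norm_num)
  have hid := g9_ident h2 h3 W₀ hA hB a b
  rw [← hz] at hid
  have hprod : V.valuation (g9y Ω W₀ a b - z) * V.valuation (g9y Ω W₀ a b + z) < 1 := by
    rw [← map_mul]
    have : (g9y Ω W₀ a b - z) * (g9y Ω W₀ a b + z) = g9y Ω W₀ a b ^ 2 - z ^ 2 := by ring
    rw [this, hid]
    exact hE
  have hΔ : ((WAB A B)⁄Ω).Δ ≠ 0 := by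
    rw [s_Δ, base_a4, base_a6]
    have h4 := hV.disc
    have h5 : algebraMap F Ω (4 * A ^ 3 + 27 * B ^ 2) ≠ 0 := by
      intro h
      rw [h, map_zero] at h4
      exact zero_ne_one h4
    have h6 : algebraMap F Ω (4 * A ^ 3 + 27 * B ^ 2) = 4 * algebraMap F Ω A ^ 3 + 27 * algebraMap F Ω B ^ 2 := by
      rw [map_add, map_mul, map_mul, map_pow, map_pow, map_ofNat, map_ofNat]
    rw [← h6]
    refine mul_ne_zero ?_ h5
    have : (-16 : Ω) = -2 ^ 4 := by norm_num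
    rw [this]
    exact neg_ne_zero.2 (pow_ne_zero 4 h2)
  have hpt : ∀ y' : Ω, y' ^ 2 = z ^ 2 → V.valuation (y' - g9y Ω W₀ a b) < 1 → ∃ X : Pt (WAB A B) Ω, ¬ Ker V X ∧
      xc X = g9x Ω W₀ a ∧ V.valuation (yc X - g9y Ω W₀ a b) < 1 := by
    intro y' hy' hv'
    obtain ⟨X, hX0, hXx, hXy⟩ := exists_pt (W := (WAB A B)⁄Ω) hΔ (x := g9x Ω W₀ a) (y := y') (by
      rw [hy', hz, base_a4, base_a6])
    refine ⟨X, ?_, hXx, ?_⟩
    · rw [ker_iff V hX0, hXx]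
      exact not_lt.2 hx
    · rw [hXy]
      exact hv'
  by_cases h1 : V.valuation (g9y Ω W₀ a b - z) < 1
  · refine hpt z rfl ?_
    rw [Valuation.map_sub_swap]
    exact h1
  · have h7 : V.valuation (g9y Ω W₀ a b + z) < 1 := by
      by_contra h8
      push Not at h1 h8
      exact absurd hprod (not_lt.2 (one_le_mul h1 h8))
    refine hpt (-z) (by ring) ?_
    have : -z - g9y Ω W₀ a b = -(g9y Ω W₀ a b + z) := by ring
    rw [this, Valuation.map_neg]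
    exact h7

omit [IQ F] [DecidableEq Ω] in
/-- The coordinates of the lifts are congruent to elements of 𝓞 F. -/
theorem g9_apx (hV : GV A B V) (W₀ : WeierstrassCurve (𝓞 F)) (v : HeightOneSpectrum (𝓞 F))
    (hv : ∀ a : 𝓞 F, a ∈ v.asIdeal → V.valuation (ak Ω a) < 1) :
    ∃ β : 𝓞 F, ∀ a : 𝓞 F, V.valuation (g9x Ω W₀ a - ak Ω (a + β)) < 1 ∧
      ∃ γ : 𝓞 F, ∀ b : 𝓞 F, V.valuation (g9y Ω W₀ a b - ak Ω (b + γ)) < 1 := by
  obtain ⟨h12, h2', -, -⟩ := g9_twelve hV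
  obtain ⟨β, hβ⟩ := g9_div hv 12 h12 W₀.b₂
  refine ⟨β, fun a => ⟨?_, ?_⟩⟩
  · have : g9x Ω W₀ a - ak Ω (a + β) = ak Ω W₀.b₂ / (12 : ℕ) - ak Ω β := by
      unfold g9x
      rw [← g9h_eq (Ω := Ω) (a + β), map_add, g9h_eq, g9h_eq]
      ring
    rw [this]
    exact hβ
  · obtain ⟨c, hc⟩ := g9_div hv 2 h2' (W₀.a₁ * a)
    obtain ⟨d, hd⟩ := g9_div hv 2 h2' W₀.a₃
    refine ⟨c + d, fun b => ?_⟩
    have : g9y Ω W₀ a b - ak Ω (b + (c + d)) = (ak Ω (W₀.a₁ * a) / (2 : ℕ) - ak Ω c) +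
        (ak Ω W₀.a₃ / (2 : ℕ) - ak Ω d) := by
      unfold g9y
      rw [← g9h_eq (Ω := Ω) (b + (c + d)), map_add, map_add, g9h_eq, g9h_eq, g9h_eq]
      ring
    rw [this]
    exact Valuation.map_add_lt _ hc hd

omit [NumberField F] [IQ F] [DecidableEq Ω] in
theorem g9_tri {x y z : Ω} (h1 : V.valuation (x - y) < 1) (h2 : V.valuation (y - z) < 1) :
    V.valuation (x - z) < 1 := by
  have : x - z = (x - y) + (y - z) := by ring
  rw [this]
  exact Valuation.map_add_lt _ h1 h2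

omit [IQ F] in
/-- The class of a lift is fixed by the Frobenius element. -/
theorem g9_fix (hV : GV A B V) (W₀ : WeierstrassCurve (𝓞 F)) (v : HeightOneSpectrum (𝓞 F))
    (hv : ∀ a : 𝓞 F, a ∈ v.asIdeal → V.valuation (ak Ω a) < 1) (s : Ω ≃ₐ[F] Ω)
    (hs : ∀ x ∈ V, V.valuation (s x - x ^ Ideal.absNorm v.asIdeal) < 1) (a b : 𝓞 F) {X : Pt (WAB A B) Ω}
    (hX : ¬ Ker V X) (hx : V.valuation (xc X - g9x Ω W₀ a) < 1) (hy : V.valuation (yc X - g9y Ω W₀ a b) < 1) :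
    Ker V (ac (WAB A B) s X - X) := by
  obtain ⟨β, hβ⟩ := g9_apx hV W₀ v hv
  obtain ⟨h1, γ, h2⟩ := hβ a
  have hxi := (not_ker V hX).2
  have hyi := gv_y hV hX
  have e1 : V.valuation (xc X ^ Ideal.absNorm v.asIdeal - xc X) < 1 :=
    (g9_frob hv hxi).2 ⟨a + β, g9_tri hx h1⟩
  have e2 : V.valuation (yc X ^ Ideal.absNorm v.asIdeal - yc X) < 1 :=
    (g9_frob hv hyi).2 ⟨b + γ, g9_tri hy (h2 b)⟩
  have e3 := g9_tri (hs _ ((V.valuation_le_one_iff _).1 hxi)) e1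
  have e4 := g9_tri (hs _ ((V.valuation_le_one_iff _).1 hyi)) e2
  have hsX : ¬ Ker V (ac (WAB A B) s X) := by
    rw [ker_iff V (ac_ne (WAB A B) s (not_ker V hX).1), xc_ac, not_lt]
    have : s (xc X) = (s (xc X) - xc X) + xc X := by ring
    rw [this]
    exact (Valuation.map_add _ _ _).trans (max_le e3.le hxi)
  apply cls_xy hV hsX hX
  · rw [xc_ac]
    exact e3
  · rw [yc_ac]
    exact e4

omit [IQ F] in
/-- A fixed class comes from a point modulo v. -/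
theorem g9_conv (hV : GV A B V) (W₀ : WeierstrassCurve (𝓞 F))
    (hA : A = -(algebraMap (𝓞 F) F W₀.c₄) / 48) (hB : B = -(algebraMap (𝓞 F) F W₀.c₆) / 864)
    (v : HeightOneSpectrum (𝓞 F))
    (hv : ∀ a : 𝓞 F, a ∈ v.asIdeal → V.valuation (ak Ω a) < 1) (s : Ω ≃ₐ[F] Ω)
    (hs : ∀ x ∈ V, V.valuation (s x - x ^ Ideal.absNorm v.asIdeal) < 1) {X : Pt (WAB A B) Ω}
    (hX : ¬ Ker V X) (hk : Ker V (ac (WAB A B) s X - X)) : ∃ a b : 𝓞 F, g9E W₀ a b ∈ v.asIdeal ∧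
      V.valuation (xc X - g9x Ω W₀ a) < 1 ∧ V.valuation (yc X - g9y Ω W₀ a b) < 1 := by
  obtain ⟨h12, h2', h2, h3⟩ := g9_twelve hV
  obtain ⟨hX0, hxi⟩ := not_ker V hX
  have hyi := gv_y hV hX
  obtain ⟨-, hx1, hy1⟩ := cls_conv hV hX hk
  rw [xc_ac] at hx1
  rw [yc_ac] at hy1
  have e1 : V.valuation (xc X ^ Ideal.absNorm v.asIdeal - xc X) < 1 := by
    refine g9_tri ?_ hx1
    rw [Valuation.map_sub_swap]
    exact hs _ ((V.valuation_le_one_iff _).1 hxi)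
  have e2 : V.valuation (yc X ^ Ideal.absNorm v.asIdeal - yc X) < 1 := by
    refine g9_tri ?_ hy1
    rw [Valuation.map_sub_swap]
    exact hs _ ((V.valuation_le_one_iff _).1 hyi)
  obtain ⟨a₁, ha₁⟩ := (g9_frob hv hxi).1 e1
  obtain ⟨b₁, hb₁⟩ := (g9_frob hv hyi).1 e2
  obtain ⟨β, hβ⟩ := g9_apx hV W₀ v hv
  obtain ⟨h4, γ, h5⟩ := hβ (a₁ - β)
  have h6 := h5 (b₁ - γ)
  rw [sub_add_cancel] at h4 h6
  have hx : V.valuation (xc X - g9x Ω W₀ (a₁ - β)) < 1 := by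
    refine g9_tri ha₁ ?_
    rw [Valuation.map_sub_swap]
    exact h4
  have hy : V.valuation (yc X - g9y Ω W₀ (a₁ - β) (b₁ - γ)) < 1 := by
    refine g9_tri hb₁ ?_
    rw [Valuation.map_sub_swap]
    exact h6
  refine ⟨a₁ - β, b₁ - γ, ?_, hx, hy⟩
  rw [← g9_ker hv, ← g9_ident h2 h3 W₀ hA hB]
  obtain ⟨hgx, hgy⟩ := g9_int hV W₀ (a₁ - β) (b₁ - γ)
  set x' := g9x Ω W₀ (a₁ - β)
  set y' := g9y Ω W₀ (a₁ - β) (b₁ - γ)
  have hA1 : V.valuation (algebraMap F Ω A) ≤ 1 := (V.valuation_le_one_iff _).2 hV.a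
  have heq := eqnA hX0
  have h7 : y' ^ 2 - (x' ^ 3 + algebraMap F Ω A * x' + algebraMap F Ω B) =
      (yc X - y') * (-(yc X + y')) + (xc X - x') * (xc X ^ 2 + xc X * x' + x' ^ 2 + algebraMap F Ω A) := by
    linear_combination heq
  rw [h7]
  have hm : ∀ {x y : Ω}, V.valuation x ≤ 1 → V.valuation y ≤ 1 → V.valuation (x * y) ≤ 1 := by
    intro x y hx hy
    rw [map_mul]
    exact mul_le_one' hx hy
  have hp : ∀ {x y : Ω}, V.valuation x ≤ 1 → V.valuation y ≤ 1 → V.valuation (x + y) ≤ 1 :=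
    fun hx hy => (Valuation.map_add _ _ _).trans (max_le hx hy)
  refine Valuation.map_add_lt _ (g9_mul hy ?_) (g9_mul hx ?_)
  · rw [Valuation.map_neg]
    exact hp hyi hgy
  · rw [sq, sq]
    exact hp (hp (hp (hm hxi hxi) (hm hxi hgx)) (hm hgx hgx)) hA1

omit [NumberField F] [IQ F] in
theorem g9_nons (W₀ : WeierstrassCurve (𝓞 F)) (v : HeightOneSpectrum (𝓞 F)) (hΔ : W₀.Δ ∉ v.asIdeal) (a b : 𝓞 F) :
    (W₀⁄(𝓞 F ⧸ v.asIdeal)).toAffine.Nonsingular (Ideal.Quotient.mk v.asIdeal a) (Ideal.Quotient.mk v.asIdeal b) ↔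
      g9E W₀ a b ∈ v.asIdeal := by
  have h1 : (W₀⁄(𝓞 F ⧸ v.asIdeal)).Δ ≠ 0 := by
    have h2 : (W₀⁄(𝓞 F ⧸ v.asIdeal)).Δ = Ideal.Quotient.mk v.asIdeal W₀.Δ :=
      WeierstrassCurve.map_Δ W₀ (algebraMap (𝓞 F) (𝓞 F ⧸ v.asIdeal))
    rw [h2]
    exact fun h => hΔ (Ideal.Quotient.eq_zero_iff_mem.1 h)
  rw [← Affine.equation_iff_nonsingular_of_Δ_ne_zero (W := (W₀⁄(𝓞 F ⧸ v.asIdeal)).toAffine) h1, Affine.equation_iff,
    ← Ideal.Quotient.eq_zero_iff_mem]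
  unfold g9E
  rw [← sub_eq_zero]
  have e1 : (W₀⁄(𝓞 F ⧸ v.asIdeal)).a₁ = Ideal.Quotient.mk v.asIdeal W₀.a₁ := rfl
  have e2 : (W₀⁄(𝓞 F ⧸ v.asIdeal)).a₂ = Ideal.Quotient.mk v.asIdeal W₀.a₂ := rfl
  have e3 : (W₀⁄(𝓞 F ⧸ v.asIdeal)).a₃ = Ideal.Quotient.mk v.asIdeal W₀.a₃ := rfl
  have e4 : (W₀⁄(𝓞 F ⧸ v.asIdeal)).a₄ = Ideal.Quotient.mk v.asIdeal W₀.a₄ := rfl
  have e6 : (W₀⁄(𝓞 F ⧸ v.asIdeal)).a₆ = Ideal.Quotient.mk v.asIdeal W₀.a₆ := rfl
  simp only [map_sub, map_add, map_mul, map_pow]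
  rw [← e1, ← e2, ← e3, ← e4, ← e6]

/-- The class c is the class of the lifts of the point P. -/
def g9R (hV : GV A B V) (W₀ : WeierstrassCurve (𝓞 F)) (v : HeightOneSpectrum (𝓞 F))
    (P : (W₀⁄(𝓞 F ⧸ v.asIdeal)).toAffine.Point) (c : Pt (WAB A B) Ω ⧸ kerG hV) : Prop :=
  (P = 0 ∧ c = 0) ∨ ∃ (a b : 𝓞 F) (h : (W₀⁄(𝓞 F ⧸ v.asIdeal)).toAffine.Nonsingular (Ideal.Quotient.mk v.asIdeal a)
    (Ideal.Quotient.mk v.asIdeal b)) (X : Pt (WAB A B) Ω), P = .some _ _ h ∧ c = (X : Pt (WAB A B) Ω ⧸ kerG hV) ∧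
      ¬ Ker V X ∧ V.valuation (xc X - g9x Ω W₀ a) < 1 ∧ V.valuation (yc X - g9y Ω W₀ a b) < 1

omit [IQ F] [DecidableEq Ω] in
theorem g9_sub (W₀ : WeierstrassCurve (𝓞 F)) (hV : GV A B V) (v : HeightOneSpectrum (𝓞 F))
    (hv : ∀ a : 𝓞 F, a ∈ v.asIdeal → V.valuation (ak Ω a) < 1) (a b a' b' : 𝓞 F) :
    (V.valuation (g9x Ω W₀ a - g9x Ω W₀ a') < 1 ↔ Ideal.Quotient.mk v.asIdeal a = Ideal.Quotient.mk v.asIdeal a') ∧
    (Ideal.Quotient.mk v.asIdeal a = Ideal.Quotient.mk v.asIdeal a' →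
      (V.valuation (g9y Ω W₀ a b - g9y Ω W₀ a' b') < 1 ↔
        Ideal.Quotient.mk v.asIdeal b = Ideal.Quotient.mk v.asIdeal b')) := by
  obtain ⟨-, h2', -, -⟩ := g9_twelve hV
  have h1 : g9x Ω W₀ a - g9x Ω W₀ a' = ak Ω (a - a') := by
    unfold g9x
    rw [← g9h_eq (Ω := Ω) (a - a'), map_sub, g9h_eq, g9h_eq]
    ring
  constructor
  · rw [h1, g9_ker hv, ← Ideal.Quotient.eq]
  · intro hab
    rw [Ideal.Quotient.eq] at hab
    have h3 : g9y Ω W₀ a b - g9y Ω W₀ a' b' = ak Ω (b - b') + ak Ω (a - a') * (ak Ω W₀.a₁ / (2 : ℕ)) := by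
      unfold g9y
      simp only [← g9h_eq, map_sub, map_mul]
      ring
    have h4 : V.valuation (ak Ω (a - a') * (ak Ω W₀.a₁ / (2 : ℕ))) < 1 := by
      refine g9_mul (hv _ hab) ?_
      rw [map_div₀, h2', div_one]
      exact ak_le V _
    rw [h3, Ideal.Quotient.eq, ← g9_ker hv]
    constructor
    · intro h5
      have h6 := Valuation.map_sub_lt _ h5 h4
      rwa [add_sub_cancel_right] at h6
    · intro h5
      exact Valuation.map_add_lt _ h5 h4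

/-- Chunk G9B (M/L). The points of the reduction of W₀ modulo v are the classes X modulo kerG with sX = X, s a Frobenius element. W₀ has short form A = -c₄/48, B = -c₆/864: over Ω, (x, y) of W₀ corresponds to (x + β, y + α x + τ) of WAB A B, β = b₂/12, α = a₁/2, τ = a₃/2 (see PS4_D, PS4_iso, exists_short in H55P/S4.lean). V(6) = 1, so
these are in V and the kernels of reduction correspond; everything commutes with ac (α, β, τ in F). k = 𝓞 F ⧸ v.asIdeal has q = absNorm v elements. Given a nonzero point (x̄, ȳ) of W₀ over k: lift x̄ to x in 𝓞 F, the monic polynomial Y^2 + a₁ x Y + a₃ Y - (x^3 + ..) has roots y₁, y₂ in V (Ω algebraically closed, integral), one of them is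
congruent to ȳ modulo V (the map 𝓞 F -> residue field of V has kernel v): a point X of WAB A B, not in Ker; its class does not depend on the choices (cls_xy) and s X = X modulo Ker (V(s x - x^q) < 1, x^q congruent to x, the same for y: hs; cls_xy). Conversely X not in Ker with Ker V (sX - X): x(X)^q is congruent to s x(X) = x(sX), congruent to x(X)
(cls_conv), so x(X) is congruent to an element of 𝓞 F (the residue field of V contains k as the set of roots of T^q - T: injection of k into the residue field, at most q roots), the same for y(X) and for the coordinates of W₀. The equation of W₀ and W₀ nonsingular modulo v (hΔ: Δ is not 0 in k; equation_iff_nonsingular_of_Δ_ne_zero). -/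
theorem red_card [IsAlgClosed Ω] (hV : GV A B V) (W₀ : WeierstrassCurve (𝓞 F))
    (hA : A = -(algebraMap (𝓞 F) F W₀.c₄) / 48) (hB : B = -(algebraMap (𝓞 F) F W₀.c₆) / 864)
    (v : HeightOneSpectrum (𝓞 F)) (hΔ : W₀.Δ ∉ v.asIdeal)
    (hv : ∀ a : 𝓞 F, a ∈ v.asIdeal → V.valuation (ak Ω a) < 1) (s : Ω ≃ₐ[F] Ω)
    (hs : ∀ x ∈ V, V.valuation (s x - x ^ Ideal.absNorm v.asIdeal) < 1) :
    Nat.card (W₀⁄(𝓞 F ⧸ v.asIdeal)).toAffine.Point =
      Nat.card {c : Pt (WAB A B) Ω ⧸ kerG hV // ∃ X : Pt (WAB A B) Ω, (X : Pt (WAB A B) Ω ⧸ kerG hV) = c ∧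
        Ker V (ac (WAB A B) s X - X)} := by
  -- every point has a class
  have htot : ∀ P : (W₀⁄(𝓞 F ⧸ v.asIdeal)).toAffine.Point, ∃ c : {c : Pt (WAB A B) Ω ⧸ kerG hV //
      ∃ X : Pt (WAB A B) Ω, (X : Pt (WAB A B) Ω ⧸ kerG hV) = c ∧ Ker V (ac (WAB A B) s X - X)},
      g9R hV W₀ v P c.1 := by
    intro P
    rcases P with _ | ⟨x, y, h⟩
    · refine ⟨⟨0, 0, rfl, ?_⟩, Or.inl ⟨rfl, rfl⟩⟩
      rw [map_zero, sub_zero]
      exact ker_zero V
    · obtain ⟨a, rfl⟩ := Ideal.Quotient.mk_surjective x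
      obtain ⟨b, rfl⟩ := Ideal.Quotient.mk_surjective y
      obtain ⟨X, hX, hXx, hXy⟩ := g9_lift hV W₀ hA hB a b (hv _ ((g9_nons W₀ v hΔ a b).1 h))
      have hXx' : V.valuation (xc X - g9x Ω W₀ a) < 1 := by
        rw [hXx, sub_self, map_zero]
        exact zero_lt_one
      exact ⟨⟨(X : Pt (WAB A B) Ω ⧸ kerG hV), X, rfl, g9_fix hV W₀ v hv s hs a b hX hXx' hXy⟩,
        Or.inr ⟨a, b, h, X, rfl, rfl, hX, hXx', hXy⟩⟩
  choose f hf using htot
  apply Nat.card_eq_of_bijective f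
  have hno : ∀ X : Pt (WAB A B) Ω, ¬ Ker V X → (X : Pt (WAB A B) Ω ⧸ kerG hV) ≠ 0 := by
    intro X hX h
    exact hX ((QuotientAddGroup.eq_zero_iff X).1 h)
  constructor
  · intro P P' hPP
    have h1 := hf P
    have h2 := hf P'
    rw [← hPP] at h2
    rcases h1 with ⟨h1, h1'⟩ | ⟨a, b, h, X, hP, hc, hX, hx, hy⟩
    · rcases h2 with ⟨h2, h2'⟩ | ⟨a', b', h', X', hP', hc', hX', hx', hy'⟩
      · rw [h1, h2]
      · exact (hno X' hX' (hc'.symm.trans h1')).elim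
    · rcases h2 with ⟨h2, h2'⟩ | ⟨a', b', h', X', hP', hc', hX', hx', hy'⟩
      · exact (hno X hX (hc.symm.trans h2')).elim
      · have h3 : Ker V (X' - X) := by
          have h4 := hc.symm.trans hc'
          rw [QuotientAddGroup.eq, neg_add_eq_sub] at h4
          exact h4
        obtain ⟨-, h5, h6⟩ := cls_conv hV hX h3
        rw [Valuation.map_sub_swap] at h5 h6 hx hy
        have h7 : V.valuation (g9x Ω W₀ a - g9x Ω W₀ a') < 1 := g9_tri (g9_tri hx h5) hx'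
        have h8 : V.valuation (g9y Ω W₀ a b - g9y Ω W₀ a' b') < 1 := g9_tri (g9_tri hy h6) hy'
        obtain ⟨i1, i2⟩ := g9_sub W₀ hV v hv a b a' b'
        have h9 := i1.1 h7
        have h10 := (i2 h9).1 h8
        rw [hP, hP', Affine.Point.some.injEq]
        exact ⟨h9, h10⟩
  · rintro ⟨c, X, rfl, hX⟩
    by_cases hXk : Ker V X
    · refine ⟨0, ?_⟩
      apply Subtype.ext
      have h1 : (X : Pt (WAB A B) Ω ⧸ kerG hV) = 0 := (QuotientAddGroup.eq_zero_iff X).2 hXk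
      show (f 0).1 = (X : Pt (WAB A B) Ω ⧸ kerG hV)
      rw [h1]
      rcases hf 0 with ⟨-, h2⟩ | ⟨a, b, h, X, hP, -⟩
      · exact h2
      · exact absurd hP.symm (Affine.Point.some_ne_zero _)
    · obtain ⟨a, b, hE, hx, hy⟩ := g9_conv hV W₀ hA hB v hv s hs hXk hX
      refine ⟨.some _ _ ((g9_nons W₀ v hΔ a b).2 hE), ?_⟩
      apply Subtype.ext
      show (f _).1 = _
      rcases hf (.some _ _ ((g9_nons W₀ v hΔ a b).2 hE)) with ⟨h2, -⟩ | ⟨a', b', h', X', hP', hc', hX', hx', hy'⟩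
      · exact absurd h2 (Affine.Point.some_ne_zero _)
      · rw [hc', QuotientAddGroup.eq, neg_add_eq_sub]
        rw [Affine.Point.some.injEq] at hP'
        obtain ⟨i1, i2⟩ := g9_sub W₀ hV v hv a b a' b'
        rw [Valuation.map_sub_swap] at hx' hy'
        exact cls_xy hV hXk hX' (g9_tri (g9_tri hx (i1.2 hP'.1)) hx') (g9_tri (g9_tri hy ((i2 hP'.1).2 hP'.2)) hy')

end H55K
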