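import Mathlib
import Pool.Agent.Lib.H55K.D0

/-!
# H55K, part C: existence of the complex multiplication (definitions)

L is a PeriodPair, Λ = L.lattice. XL, YL: the coordinates of the point of y^2 = x^3 + A x + B with parameter z.
-/

open NumberField WeierstrassCurve Polynomial

namespace H55K.CC

open H55P (IQ embF eF LF Per Pt ac mem_LF eF_inj eF_ne Nm Nm_eq)
open H35P (WAB)

/-- The x-coordinate of the point with parameter z. -/
noncomputable def XL (L : PeriodPair) (Om z : ℂ) : ℂ := L.weierstrassP z / Om ^ 2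

/-- The y-coordinate of the point with parameter z. -/
noncomputable def YL (L : PeriodPair) (Om z : ℂ) : ℂ := L.derivWeierstrassP z / (2 * Om ^ 3)

/-- Λ is stable under β and S is a set of representatives of the nonzero classes of β⁻¹ Λ modulo Λ. -/
structure Rep (L : PeriodPair) (β : ℂ) (S : Finset ℂ) : Prop where
  ne : β ≠ 0
  st : ∀ l ∈ L.lattice, β * l ∈ L.lattice
  mem : ∀ r ∈ S, β * r ∈ L.lattice
  out : ∀ r ∈ S, r ∉ L.lattice
  inj : ∀ r ∈ S, ∀ r' ∈ S, r - r' ∈ L.lattice → r = r'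
  ex : ∀ w, β * w ∈ L.lattice → w ∈ L.lattice ∨ ∃ r ∈ S, w - r ∈ L.lattice

theorem Rep.z_out {L : PeriodPair} {β : ℂ} {S : Finset ℂ} (h : Rep L β S) {z : ℂ} (hz : β * z ∉ L.lattice) :
    z ∉ L.lattice := fun h0 => hz (h.st z h0)

theorem Rep.zr_out {L : PeriodPair} {β : ℂ} {S : Finset ℂ} (h : Rep L β S) {z : ℂ} (hz : β * z ∉ L.lattice)
    {r : ℂ} (hr : r ∈ S) : z + r ∉ L.lattice := by
  intro h0
  apply hz
  have h1 := sub_mem (h.st _ h0) (h.mem r hr)
  have e1 : β * (z + r) - β * r = β * z := by ring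
  rwa [e1] at h1

theorem Rep.zs_out {L : PeriodPair} {β : ℂ} {S : Finset ℂ} (h : Rep L β S) {z : ℂ} (hz : β * z ∉ L.lattice)
    {r : ℂ} (hr : r ∈ S) : z - r ∉ L.lattice := by
  intro h0
  apply hz
  have h1 := add_mem (h.st _ h0) (h.mem r hr)
  have e1 : β * (z - r) + β * r = β * z := by ring
  rwa [e1] at h1

theorem wp_per (L : PeriodPair) (z : ℂ) {l : ℂ} (hl : l ∈ L.lattice) : L.weierstrassP (z + l) = L.weierstrassP z :=
  L.weierstrassP_add_coe z ⟨l, hl⟩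

theorem wpd_per (L : PeriodPair) (z : ℂ) {l : ℂ} (hl : l ∈ L.lattice) :
    L.derivWeierstrassP (z + l) = L.derivWeierstrassP z :=
  L.derivWeierstrassP_add_coe z ⟨l, hl⟩

/-- The polynomials N, D describe multiplication by α on x-coordinates. -/
structure ND {K : Type} [Field K] (α A B : K) (d : ℕ) (N D : K[X]) : Prop where
  dN : N.natDegree ≤ d + 1
  cN : α ^ 2 * N.coeff (d + 1) = 1
  dD : D.natDegree ≤ d
  cD : D.coeff d = 1
  ode : (X ^ 3 + C A * X + C B) * (derivative N * D - N * derivative D) ^ 2 =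
    C (α ^ 2) * D * (N ^ 3 + C A * N * D ^ 2 + C B * D ^ 3)

section

variable {F : Type} [Field F] [NumberField F] [IQ F] {Ω : Type} [Field Ω] [DecidableEq Ω] [Algebra F Ω]

/-- The hypotheses. -/
structure CH (A B : F) (Om : ℂ) {Ω : Type} [Field Ω] [Algebra F Ω] (j : Ω →+* ℂ) : Prop where
  disc : 4 * A ^ 3 + 27 * B ^ 2 ≠ 0
  per : Per F (embF F A) (embF F B) Om
  ovr : ∀ x : F, j (algebraMap F Ω x) = embF F x

/-- The point P has the parameter z. -/
def U (A B : F) (Om : ℂ) (j : Ω →+* ℂ) (P : Pt (WAB A B) Ω) (z : ℂ) : Prop :=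
  (P = 0 ∧ z ∈ (LF F).lattice) ∨
  (P ≠ 0 ∧ z ∉ (LF F).lattice ∧ j (xc P) = XL (LF F) Om z ∧ j (yc P) = YL (LF F) Om z)

/-- The action of the integers. -/
def Act (A B : F) (Om : ℂ) (j : Ω →+* ℂ) (act : 𝓞 F →+* AddMonoid.End (Pt (WAB A B) Ω)) : Prop :=
  ∀ (a : 𝓞 F) (P : Pt (WAB A B) Ω) (z : ℂ), U A B Om j P z → U A B Om j (act a P) (eF F a * z)

omit [DecidableEq Ω] in
theorem U.zero_iff {A B : F} {Om : ℂ} {j : Ω →+* ℂ} {P : Pt (WAB A B) Ω} {z : ℂ} (h : U A B Om j P z) :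
    P = 0 ↔ z ∈ (LF F).lattice := by
  rcases h with ⟨h1, h2⟩ | ⟨h1, h2, -, -⟩
  · exact ⟨fun _ => h2, fun _ => h1⟩
  · exact ⟨fun h => absurd h h1, fun h => absurd h h2⟩

omit [DecidableEq Ω] in
theorem U.xc_eq {A B : F} {Om : ℂ} {j : Ω →+* ℂ} {P : Pt (WAB A B) Ω} {z : ℂ} (h : U A B Om j P z)
    (h0 : z ∉ (LF F).lattice) : j (xc P) = XL (LF F) Om z := by
  rcases h with ⟨h1, h2⟩ | ⟨h1, h2, h3, -⟩
  · exact absurd h2 h0
  · exact h3

omit [DecidableEq Ω] in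
theorem U.yc_eq {A B : F} {Om : ℂ} {j : Ω →+* ℂ} {P : Pt (WAB A B) Ω} {z : ℂ} (h : U A B Om j P z)
    (h0 : z ∉ (LF F).lattice) : j (yc P) = YL (LF F) Om z := by
  rcases h with ⟨h1, h2⟩ | ⟨h1, h2, -, h3⟩
  · exact absurd h2 h0
  · exact h3

end

end H55K.CC
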