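import Mathlib
import Pool.Agent.Lib.H55K.C0

open NumberField WeierstrassCurve Polynomial

namespace H55K.CC

open H55P (IQ embF eF LF Per Pt ac mem_LF eF_inj eF_ne Nm Nm_eq)
open H35P (WAB)

variable {F : Type} [Field F] [NumberField F] [IQ F] {Ω : Type} [Field Ω] [DecidableEq Ω] [Algebra F Ω]
  {A B : F} {Om : ℂ} {j : Ω →+* ℂ}

/-! Chunk C11 (M). J is induced by j: give ℂ the algebra structures (embF F).toAlgebra and j.toAlgebra; j is an F-algebra homomorphism by h.ovr; Affine.Point.map (W' := (WAB A B).toAffine) gives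
Pt (WAB A B) Ω →+ points of (WAB A B)⁄ℂ, and (WAB A B)⁄ℂ = WAB (embF F A) (embF F B) (WeierstrassCurve.ext, map_zero): prove the statement for every W' with (WAB A B)⁄ℂ = W' by subst (rintro _ rfl).
Injective: Affine.Point.map_injective. Coordinates: cases on P, Affine.Point.map_some, rfl (see xc_mp in Lib/H28G/Map.lean). Last part: R = (x, y) with x = j x', y = j y': the equation y'^2 = x'^3 + A x' + B
holds in Ω by injectivity of j, the point is nonsingular since the discriminant of the curve is not 0 (h.disc; Affine.equation_iff_nonsingular_of_Δ_ne_zero as in Lib/H35P/B1.lean), or use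
Affine.map_nonsingular (j injective). -/

theorem c11_curve [Algebra F ℂ] (e : ∀ x : F, algebraMap F ℂ x = embF F x) :
    (WAB A B).baseChange ℂ = WAB (embF F A) (embF F B) := by
  ext
  · exact map_zero (algebraMap F ℂ)
  · exact map_zero (algebraMap F ℂ)
  · exact map_zero (algebraMap F ℂ)
  · exact e A
  · exact e B

omit [NumberField F] [IQ F] in
theorem c11_key [Algebra F ℂ] (φ : Ω →ₐ[F] ℂ) (W' : WeierstrassCurve ℂ)
    (hW : (WAB A B).baseChange ℂ = W') : ∃ J : Pt (WAB A B) Ω →+ W'.toAffine.Point,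
    Function.Injective J ∧ (∀ P, P ≠ 0 → J P ≠ 0 ∧ xc (J P) = φ (xc P) ∧ yc (J P) = φ (yc P)) ∧
    ∀ R, R ≠ 0 → (∃ x, φ x = xc R) → (∃ y, φ y = yc R) → ∃ P, J P = R := by
  subst hW
  refine ⟨Affine.Point.map (W' := (WAB A B).toAffine) φ, Affine.Point.map_injective φ, ?_, ?_⟩
  · intro P hP
    rcases P with _ | ⟨x, y, hxy⟩
    · exact absurd rfl hP
    · rw [Affine.Point.map_some]
      exact ⟨Affine.Point.some_ne_zero _, rfl, rfl⟩
  · intro R hR hx hy
    rcases R with _ | ⟨x, y, hxy⟩
    · exact absurd rfl hR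
    · obtain ⟨x', hx⟩ := hx
      obtain ⟨y', hy⟩ := hy
      change φ x' = x at hx
      change φ y' = y at hy
      subst hx hy
      have hns : ((WAB A B)⁄Ω).toAffine.Nonsingular x' y' :=
        ((WAB A B).toAffine.baseChange_nonsingular (f := φ) φ.injective x' y').1 hxy
      refine ⟨Affine.Point.some x' y' hns, ?_⟩
      rw [Affine.Point.map_some]

theorem exists_J (h : CH A B Om j) : ∃ J : Pt (WAB A B) Ω →+ (WAB (embF F A) (embF F B)).toAffine.Point,
    Function.Injective J ∧ (∀ P, P ≠ 0 → J P ≠ 0 ∧ xc (J P) = j (xc P) ∧ yc (J P) = j (yc P)) ∧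
    ∀ R, R ≠ 0 → (∃ x, j x = xc R) → (∃ y, j y = yc R) → ∃ P, J P = R := by
  let iF : Algebra F ℂ := (embF F).toAlgebra
  let φ : Ω →ₐ[F] ℂ := { j with commutes' := h.ovr }
  exact c11_key φ _ (c11_curve fun x => rfl)

end H55K.CC
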