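import Mathlib
import Pool.Agent.Lib.H55K.C0

namespace H55K.CC

/-! Chunk C1 (M): port of GA4_exists in Lib/H28G/GA4.lean to a general PeriodPair L. Suppose wp z <> c for all z not in Λ. D(z) = if z in Λ then 0 else (wp z - c)^(-1).
D is periodic (wp_per). u from H35P.wp_zero: wp z = (z^2)^(-1) + u z for z <> 0, u analytic at 0. At z0 in Λ: D(z) = a0(z - z0) near z0, z <> z0, where a0(z) = z^2/(1 + z^2 u z - c z^2) is
analytic at 0 (periodicity, H35P.ev_compl, H35P.tendsto_punct). At z0 not in Λ: D = (wp - c)^(-1) near z0, analytic (H35P.wp_analytic). H35P.liouville: all the values agree with one constant; at 0 it is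
a0 0 = 0, at a point z1 not in Λ (exists: H35P.ev_compl, the punctured neighbourhoods are nonempty) it is (wp z1 - c)^(-1) <> 0: contradiction. -/

/-- The Weierstrass function takes every value. -/
theorem wp_surj (L : PeriodPair) (c : ℂ) : ∃ z, z ∉ L.lattice ∧ L.weierstrassP z = c := by
  classical
  by_contra hcon
  push Not at hcon
  set D : ℂ → ℂ := fun z => if z ∈ L.lattice then 0 else (L.weierstrassP z - c)⁻¹ with hD
  have hper : ∀ z, ∀ l ∈ L.lattice, D (z + l) = D z := by
    intro z l hl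
    simp only [hD]
    by_cases h : z ∈ L.lattice
    · rw [if_pos h, if_pos (add_mem h hl)]
    · have h' : z + l ∉ L.lattice := by
        intro h1
        apply h
        have h2 := sub_mem h1 hl
        rwa [add_sub_cancel_right] at h2
      rw [if_neg h, if_neg h', wp_per L z hl]
  obtain ⟨u, hu, -, hu2⟩ := H35P.wp_zero L
  set a0 : ℂ → ℂ := fun z => z ^ 2 / (1 + z ^ 2 * u z - c * z ^ 2) with ha0
  have ha0A : AnalyticAt ℂ a0 0 := by
    have hz : AnalyticAt ℂ (fun z : ℂ => z) 0 := analyticAt_id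
    refine (hz.pow 2).div ((analyticAt_const.add ((hz.pow 2).mul hu)).sub
      (analyticAt_const.mul (hz.pow 2))) ?_
    simp
  have hloc0 : ∀ᶠ z in nhdsWithin (0 : ℂ) {0}ᶜ, D z = a0 z := by
    filter_upwards [H35P.ev_compl L 0, self_mem_nhdsWithin] with z h2 h3
    have hz : z ≠ 0 := h3
    simp only [hD, ha0]
    rw [if_neg h2, hu2 z hz]
    have e1 : (z ^ 2)⁻¹ + u z - c = (1 + z ^ 2 * u z - c * z ^ 2) / z ^ 2 := by
      field_simp
    rw [e1, inv_div]
  have hloc : ∀ z₀, ∃ a : ℂ → ℂ, AnalyticAt ℂ a z₀ ∧ ∀ᶠ z in nhdsWithin z₀ {z₀}ᶜ, D z = a z := by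
    intro z₀
    by_cases h : z₀ ∈ L.lattice
    · refine ⟨fun z => a0 (z - z₀), ?_, ?_⟩
      · have h1 : AnalyticAt ℂ (fun z : ℂ => z - z₀) z₀ := analyticAt_id.sub analyticAt_const
        have h2 : AnalyticAt ℂ a0 (z₀ - z₀) := by rwa [sub_self]
        exact AnalyticAt.fun_comp (f := fun z : ℂ => z - z₀) h2 h1
      · have ht := H35P.tendsto_punct (fun z : ℂ => z - z₀) z₀ (by fun_prop) (fun x y h => by
          simpa using h)
        have h4 : ∀ᶠ z in nhdsWithin (z₀ - z₀) {z₀ - z₀}ᶜ, D z = a0 z := by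
          rw [sub_self]
          exact hloc0
        filter_upwards [ht.eventually h4] with z hz
        rw [← hz, ← hper (z - z₀) z₀ h]
        congr 1
        ring
    · refine ⟨fun z => (L.weierstrassP z - c)⁻¹, ?_, ?_⟩
      · exact ((H35P.wp_analytic L z₀ h).sub analyticAt_const).inv (sub_ne_zero.2 (hcon z₀ h))
      · filter_upwards [H35P.ev_compl L z₀] with z hz
        simp only [hD]
        rw [if_neg hz]
  obtain ⟨z₁, hz₁⟩ : ∃ z₁, z₁ ∉ L.lattice := by
    have h := H35P.ev_compl L 0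
    exact h.exists
  obtain ⟨c0, hc0⟩ := H35P.liouville L D hper hloc
  have h1 : a0 0 = c0 := hc0 0 a0 ha0A.continuousAt hloc0
  have h2 : (L.weierstrassP z₁ - c)⁻¹ = c0 := by
    refine hc0 z₁ (fun z => (L.weierstrassP z - c)⁻¹) ?_ ?_
    · exact (((H35P.wp_analytic L z₁ hz₁).sub analyticAt_const).inv
        (sub_ne_zero.2 (hcon z₁ hz₁))).continuousAt
    · filter_upwards [H35P.ev_compl L z₁] with z hz
      simp only [hD]
      rw [if_neg hz]
  have h3 : a0 0 = 0 := by
    simp [ha0]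
  rw [h3] at h1
  rw [← h1] at h2
  exact inv_ne_zero (sub_ne_zero.2 (hcon z₁ hz₁)) h2

end H55K.CC
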