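import Mathlib
import Pool.Agent.Lib.H55K.C0

namespace H55K.CC

/-! Chunk C10 (S/M): H35P.add_x for (z, t) and for (z, -t) (L.weierstrassP_neg, L.derivWeierstrassP_neg; H35P.wp_ne): with x = wp z, s = wp t:
wp(z+t) + wp(z-t) = (wp' z^2 + wp' t^2)/(2 (x-s)^2) - 2 (x+s), and wp'^2 = 4 wp^3 - g2 wp - g3 (L.derivWeierstrassP_sq) gives (2 (x+s) x s - g2 (x+s)/2 - g3)/(x-s)^2. Then g2 = -4 A Om^4, g3 = -4 B Om^6, divide by Om^2.
yl_sq: L.derivWeierstrassP_sq. -/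

theorem c10_alg (p q p' q' a b Om : ℂ) (hO : Om ≠ 0) (hd : p - q ≠ 0)
    (e3 : p' ^ 2 = 4 * p ^ 3 - (-4 * a * Om ^ 4) * p - (-4 * b * Om ^ 6))
    (e4 : q' ^ 2 = 4 * q ^ 3 - (-4 * a * Om ^ 4) * q - (-4 * b * Om ^ 6)) :
    (((p' - q') / (p - q)) ^ 2 / 4 - p - q) / Om ^ 2 + (((p' - -q') / (p - q)) ^ 2 / 4 - p - q) / Om ^ 2 =
      2 * ((p / Om ^ 2 + q / Om ^ 2) * (q / Om ^ 2 * (p / Om ^ 2) + a) + 2 * b) / (p / Om ^ 2 - q / Om ^ 2) ^ 2 := by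
  have h1 : p / Om ^ 2 - q / Om ^ 2 = (p - q) / Om ^ 2 := by ring
  have h2 : ((p' - q') / (p - q)) ^ 2 / 4 - p - q + (((p' - -q') / (p - q)) ^ 2 / 4 - p - q) =
      (2 * (p + q) * p * q + 2 * a * Om ^ 4 * (p + q) + 4 * b * Om ^ 6) / (p - q) ^ 2 := by
    rw [eq_div_iff (pow_ne_zero 2 hd)]
    have h3 : ∀ c : ℂ, (c / (p - q)) ^ 2 / 4 * (p - q) ^ 2 = c ^ 2 / 4 := by
      intro c
      field_simp
    calc _ = ((p' - q') / (p - q)) ^ 2 / 4 * (p - q) ^ 2 + ((p' - -q') / (p - q)) ^ 2 / 4 * (p - q) ^ 2 -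
          2 * (p + q) * (p - q) ^ 2 := by ring
      _ = _ := by
          rw [h3, h3]
          linear_combination (e3 + e4) / 2
  rw [← add_div, h2, h1]
  field_simp
  ring

theorem xl_add_sub (L : PeriodPair) {A B Om : ℂ} (hO : Om ≠ 0) (g2 : L.g₂ = -4 * A * Om ^ 4)
    (g3 : L.g₃ = -4 * B * Om ^ 6) {z t : ℂ} (hz : z ∉ L.lattice) (ht : t ∉ L.lattice) (h1 : z + t ∉ L.lattice)
    (h2 : z - t ∉ L.lattice) : XL L Om z - XL L Om t ≠ 0 ∧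
    XL L Om (z + t) + XL L Om (z - t) =
      2 * ((XL L Om z + XL L Om t) * (XL L Om t * XL L Om z + A) + 2 * B) / (XL L Om z - XL L Om t) ^ 2 := by
  have hne := H35P.wp_ne L z t hz ht h1 h2
  have hd : L.weierstrassP z - L.weierstrassP t ≠ 0 := sub_ne_zero.2 hne
  have hnt : -t ∉ L.lattice := fun h => ht (by simpa using L.lattice.neg_mem h)
  have e1 := H35P.add_x L z t hz ht h1 h2 hne
  have e2 := H35P.add_x L z (-t) hz hnt (by rwa [← sub_eq_add_neg]) (by rwa [sub_neg_eq_add])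
    (by rw [L.weierstrassP_neg]; exact hne)
  rw [← sub_eq_add_neg] at e2
  unfold H35P.mc at e1 e2
  rw [L.weierstrassP_neg, L.derivWeierstrassP_neg] at e2
  have e3 := L.derivWeierstrassP_sq z hz
  have e4 := L.derivWeierstrassP_sq t ht
  rw [g2, g3] at e3 e4
  unfold XL
  constructor
  · rw [← sub_div]
    exact div_ne_zero hd (pow_ne_zero 2 hO)
  · rw [e1, e2]
    exact c10_alg _ _ _ _ A B Om hO hd e3 e4

theorem yl_sq (L : PeriodPair) {A B Om : ℂ} (hO : Om ≠ 0) (g2 : L.g₂ = -4 * A * Om ^ 4)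
    (g3 : L.g₃ = -4 * B * Om ^ 6) {z : ℂ} (hz : z ∉ L.lattice) :
    YL L Om z ^ 2 = XL L Om z ^ 3 + A * XL L Om z + B := by
  have e3 := L.derivWeierstrassP_sq z hz
  rw [g2, g3] at e3
  unfold XL YL
  rw [div_pow, e3]
  field_simp
  ring

end H55K.CC
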