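import Mathlib
import Pool.Agent.Lib.H55K.C1
import Pool.Agent.Lib.H55K.C10

open NumberField WeierstrassCurve Polynomial

namespace H55K.CC

open H55P (IQ embF eF LF Per Pt ac mem_LF eF_inj eF_ne Nm Nm_eq)
open H35P (WAB)

variable {F : Type} [Field F] [NumberField F] [IQ F] {Ω : Type} [Field Ω] [DecidableEq Ω] [Algebra F Ω]
  {A B : F} {Om : ℂ} {j : Ω →+* ℂ}

/-! Chunk C12 (S/M): H35P.pt_exists (h.per; the discriminant: apply embF F to h.disc). pt z = 0 iff z in Λ; z not in Λ: pt z = some .. <> 0, xc, yc of some are rfl. Surjective: R = 0: pt 0. R = (x, y): wp_surj for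
c = Om^2 x: XL z = x, YL z^2 = x^3 + A x + B = y^2 (yl_sq, Affine.equation_iff), so YL z = y or YL z = -y; in the second case take -z (L.weierstrassP_neg, L.derivWeierstrassP_neg). -/

theorem exists_pt (h : CH A B Om j) : ∃ pt : ℂ →+ (WAB (embF F A) (embF F B)).toAffine.Point,
    (∀ z, pt z = 0 ↔ z ∈ (LF F).lattice) ∧ Function.Surjective pt ∧
    ∀ z, z ∉ (LF F).lattice → xc (pt z) = XL (LF F) Om z ∧ yc (pt z) = YL (LF F) Om z := by
  have hd : 4 * (embF F A) ^ 3 + 27 * (embF F B) ^ 2 ≠ 0 := by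
    intro h0
    apply h.disc
    apply (embF F).injective
    rw [map_add, map_mul, map_mul, map_pow, map_pow, map_zero, map_ofNat, map_ofNat]
    exact h0
  obtain ⟨pt, p0, p1⟩ := H35P.pt_exists (LF F) (embF F A) (embF F B) Om h.per.ne h.per.g2 h.per.g3 hd
  have p1' : ∀ z, z ∉ (LF F).lattice → pt z ≠ 0 ∧ xc (pt z) = XL (LF F) Om z ∧
      yc (pt z) = YL (LF F) Om z := by
    intro z hz
    obtain ⟨hns, e⟩ := p1 z hz
    rw [e]
    exact ⟨Affine.Point.some_ne_zero _, rfl, rfl⟩
  refine ⟨pt, fun z => ⟨fun h0 => ?_, p0 z⟩, ?_, fun z hz => (p1' z hz).2⟩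
  · by_contra hz
    exact (p1' z hz).1 h0
  · intro R
    rcases R with _ | ⟨x, y, hxy⟩
    · exact ⟨0, map_zero pt⟩
    · obtain ⟨z, hz, hz1⟩ := wp_surj (LF F) (Om ^ 2 * x)
      have hO : Om ^ 2 ≠ 0 := pow_ne_zero 2 h.per.ne
      have hX : XL (LF F) Om z = x := by
        unfold XL
        rw [hz1, mul_div_cancel_left₀ _ hO]
      have hY := yl_sq (LF F) h.per.ne h.per.g2 h.per.g3 hz
      have hE := (Affine.equation_iff _ _).1 hxy.1
      simp only [WAB] at hE
      have h2 : (YL (LF F) Om z - y) * (YL (LF F) Om z + y) = 0 := by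
        rw [hX] at hY
        linear_combination hY - hE
      rcases mul_eq_zero.1 h2 with h3 | h3
      · obtain ⟨hns, e⟩ := p1 z hz
        refine ⟨z, ?_⟩
        rw [e, Affine.Point.some.injEq]
        exact ⟨hX, sub_eq_zero.1 h3⟩
      · have hz' : -z ∉ (LF F).lattice := fun h0 => hz (by simpa using (LF F).lattice.neg_mem h0)
        obtain ⟨hns, e⟩ := p1 (-z) hz'
        refine ⟨-z, ?_⟩
        rw [e, Affine.Point.some.injEq]
        constructor
        · rw [(LF F).weierstrassP_neg]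
          exact hX
        · rw [(LF F).derivWeierstrassP_neg, neg_div]
          change -(YL (LF F) Om z) = y
          linear_combination -h3

end H55K.CC
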