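import Mathlib
import Pool.Agent.Lib.H16C.D3
import Pool.Agent.Lib.H55K.C0

open NumberField WeierstrassCurve Polynomial

namespace H55K.CC

open H55P (IQ embF eF LF Per Pt ac mem_LF eF_inj eF_ne Nm Nm_eq)
open H35P (WAB)

variable {F : Type} [Field F] [NumberField F] [IQ F] {Ω : Type} [Field Ω] [DecidableEq Ω] [Algebra F Ω]
  {A B : F} {Om : ℂ} {j : Ω →+* ℂ}

/-! Chunk C13 (M): torsion points are algebraic. W = WAB (embF F A) (embF F B) is IsShortNF (a1 = a2 = a3 = 0) and CharZero. As in the proof of H16C.tors_finite (Lib/H16C/T1.lean): with N = addOrderOf R, 2 ≤ N,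
H16C.psi_order and H16C.psi_sq give (W.ΨSq N).eval x = 0, x = xc R (the functions xc of H16C and of H55K agree: cases on R, rfl). W = (the curve W' = WAB (algebraMap F Ω A) (algebraMap F Ω B) over Ω).map j
(h.ovr), so W.ΨSq N = (W'.ΨSq N).map j (WeierstrassCurve.map_ΨSq), and W'.ΨSq N <> 0 splits over Ω (IsAlgClosed): the roots of its image are the images of its roots (Polynomial.Splits.roots_map or
IsAlgClosed.splits, Polynomial.roots_map), so x = j x'. y^2 = x^3 + A x + B = j(x'^3 + A x' + B); take y' with y'^2 = x'^3 + A x' + B (IsAlgClosed.exists_pow_nat_eq): y = j y' or y = j(-y'). -/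

theorem c13_psi {a b : ℂ} (R : (WAB a b).toAffine.Point) (hR : R ≠ 0)
    {n : ℕ} (hn : 0 < n) (h0 : n • R = 0) : ∃ N : ℤ, N ≠ 0 ∧ ((WAB a b).ΨSq N).eval (xc R) = 0 := by
  have hs : (WAB a b).toAffine.IsShortNF := ⟨rfl, rfl, rfl⟩
  have h2 : (2 : ℂ) ≠ 0 := two_ne_zero
  have hN0 : addOrderOf R ≠ 0 := by
    intro h1
    rw [addOrderOf_eq_zero_iff'] at h1
    exact h1 n hn h0
  have hN1 : addOrderOf R ≠ 1 := by
    intro h1
    exact hR (AddMonoid.addOrderOf_eq_one_iff.mp h1)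
  have h3 := H16C.psi_order (W := (WAB a b).toAffine) h2 hR (addOrderOf R) (by omega) (fun k hk hk2 h3 =>
      absurd (addOrderOf_le_of_nsmul_eq_zero hk h3) (not_le.mpr hk2)) (addOrderOf_nsmul_eq_zero R)
  refine ⟨(addOrderOf R : ℤ), by exact_mod_cast hN0, ?_⟩
  have hx : xc R = H16C.xc R := by
    rcases R with _ | ⟨x, y, h⟩
    · rfl
    · rfl
  rw [hx]
  have h4 := H16C.psi_sq (WAB a b).toAffine (H16C.eqn hR) (addOrderOf R : ℤ)
  rw [h3] at h4
  rw [← h4]
  ring

theorem tors_range [IsAlgClosed Ω] (h : CH A B Om j) (R : (WAB (embF F A) (embF F B)).toAffine.Point) (hR : R ≠ 0)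
    {n : ℕ} (hn : 0 < n) (h0 : n • R = 0) : (∃ x, j x = xc R) ∧ ∃ y, j y = yc R := by
  have hcz : CharZero Ω := charZero_of_injective_algebraMap (algebraMap F Ω).injective
  obtain ⟨N, hN, hev⟩ := c13_psi R hR hn h0
  have hmap : (WAB (algebraMap F Ω A) (algebraMap F Ω B)).map j = WAB (embF F A) (embF F B) := by
    ext
    · exact map_zero j
    · exact map_zero j
    · exact map_zero j
    · exact h.ovr A
    · exact h.ovr B
  have hx : ∃ x, j x = xc R := by
    have hps : (WAB (embF F A) (embF F B)).ΨSq N =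
        ((WAB (algebraMap F Ω A) (algebraMap F Ω B)).ΨSq N).map j := by
      rw [← hmap, WeierstrassCurve.map_ΨSq]
    rw [hps] at hev
    have hne : (WAB (algebraMap F Ω A) (algebraMap F Ω B)).ΨSq N ≠ 0 :=
      WeierstrassCurve.ΨSq_ne_zero _ (by exact_mod_cast hN)
    have hne' : ((WAB (algebraMap F Ω A) (algebraMap F Ω B)).ΨSq N).map j ≠ 0 :=
      (Polynomial.map_ne_zero_iff j.injective).2 hne
    have hroot : xc R ∈ (((WAB (algebraMap F Ω A) (algebraMap F Ω B)).ΨSq N).map j).roots := by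
      rw [Polynomial.mem_roots hne']
      exact hev
    rw [(IsAlgClosed.splits _).roots_map j, Multiset.mem_map] at hroot
    obtain ⟨x, -, hx⟩ := hroot
    exact ⟨x, hx⟩
  refine ⟨hx, ?_⟩
  obtain ⟨x, hx⟩ := hx
  have hE : yc R ^ 2 = xc R ^ 3 + embF F A * xc R + embF F B := by
    rcases R with _ | ⟨x', y', hxy⟩
    · exact absurd rfl hR
    · have hE := (Affine.equation_iff _ _).1 hxy.1
      simp only [WAB] at hE
      change y' ^ 2 = x' ^ 3 + embF F A * x' + embF F B
      linear_combination hE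
  obtain ⟨y, hy⟩ := IsAlgClosed.exists_pow_nat_eq (x ^ 3 + algebraMap F Ω A * x + algebraMap F Ω B)
    (n := 2) (by norm_num)
  have hy2 : j y ^ 2 = yc R ^ 2 := by
    rw [hE, ← hx, ← map_pow, hy, map_add, map_add, map_mul, map_pow, h.ovr, h.ovr]
  rcases sq_eq_sq_iff_eq_or_eq_neg.1 hy2 with h3 | h3
  · exact ⟨y, h3⟩
  · exact ⟨-y, by rw [map_neg, h3, neg_neg]⟩

end H55K.CC
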