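import Mathlib
import Pool.Agent.Lib.H55K.C11
import Pool.Agent.Lib.H55K.C12
import Pool.Agent.Lib.H55K.C13

open NumberField WeierstrassCurve Polynomial

namespace H55K.CC

open H55P (IQ embF eF LF Per Pt ac mem_LF eF_inj eF_ne Nm Nm_eq)
open H35P (WAB)

variable {F : Type} [Field F] [NumberField F] [IQ F] {Ω : Type} [Field Ω] [DecidableEq Ω] [Algebra F Ω]
  {A B : F} {Om : ℂ} {j : Ω →+* ℂ}

/-! Chunk C14 (M). With J (exists_J) and pt (exists_pt): U P z iff J P = pt z (u_iff: P = 0: J P = 0 = pt z iff z in Λ. P <> 0: J P <> 0 has coordinates j(xc P), j(yc P); two nonzero points with the same coordinates are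
equal: cases). Everything follows. U_tors: n z in Λ: if z in Λ take P = 0, otherwise R = pt z is not 0, n • R = pt(n z) = 0, tors_range, exists_J (last part). U_alg: exists_J (last part) for R = pt z. -/

theorem c14_ext {k : Type} [Field k] {W : WeierstrassCurve k} {P Q : W.toAffine.Point} (hP : P ≠ 0) (hQ : Q ≠ 0)
    (hx : xc P = xc Q) (hy : yc P = yc Q) : P = Q := by
  rcases P with _ | ⟨x, y, h⟩
  · exact absurd rfl hP
  rcases Q with _ | ⟨x', y', h'⟩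
  · exact absurd rfl hQ
  have h1 : x = x' := hx
  have h2 : y = y' := hy
  subst h1 h2
  rfl

theorem c14_main (h : CH A B Om j) : ∃ (J : Pt (WAB A B) Ω →+ (WAB (embF F A) (embF F B)).toAffine.Point)
    (pt : ℂ →+ (WAB (embF F A) (embF F B)).toAffine.Point), Function.Injective J ∧ Function.Surjective pt ∧
    (∀ z, pt z = 0 ↔ z ∈ (LF F).lattice) ∧ (∀ P z, U A B Om j P z ↔ J P = pt z) ∧
    (∀ R, R ≠ 0 → (∃ x, j x = xc R) → (∃ y, j y = yc R) → ∃ P, J P = R) ∧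
    ∀ z, z ∉ (LF F).lattice → xc (pt z) = XL (LF F) Om z ∧ yc (pt z) = YL (LF F) Om z := by
  obtain ⟨J, hJ, hJ1, hJ2⟩ := exists_J h
  obtain ⟨pt, p0, p1, p2⟩ := exists_pt h
  refine ⟨J, pt, hJ, p1, p0, fun P z => ?_, hJ2, p2⟩
  by_cases hP : P = 0
  · subst hP
    rw [map_zero, eq_comm, p0]
    constructor
    · intro h1
      exact (h1.zero_iff).1 rfl
    · intro h1
      exact Or.inl ⟨rfl, h1⟩
  · obtain ⟨n0, hx, hy⟩ := hJ1 P hP
    constructor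
    · rintro (⟨h1, -⟩ | ⟨-, h1, h2, h3⟩)
      · exact absurd h1 hP
      · obtain ⟨e1, e2⟩ := p2 z h1
        refine c14_ext n0 (fun h4 => h1 ((p0 z).1 h4)) ?_ ?_
        · rw [hx, e1, h2]
        · rw [hy, e2, h3]
    · intro h1
      have h2 : z ∉ (LF F).lattice := by
        intro h3
        apply n0
        rw [h1]
        exact (p0 z).2 h3
      obtain ⟨e1, e2⟩ := p2 z h2
      refine Or.inr ⟨hP, h2, ?_, ?_⟩
      · rw [← hx, h1, e1]
      · rw [← hy, h1, e2]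

theorem U_ex (h : CH A B Om j) (P : Pt (WAB A B) Ω) : ∃ z, U A B Om j P z := by
  obtain ⟨J, pt, hJ, p1, p0, hU, hR, hc⟩ := c14_main h
  obtain ⟨z, hz⟩ := p1 (J P)
  exact ⟨z, (hU P z).2 hz.symm⟩

theorem U_add (h : CH A B Om j) {P Q : Pt (WAB A B) Ω} {z w : ℂ} (hP : U A B Om j P z) (hQ : U A B Om j Q w) :
    U A B Om j (P + Q) (z + w) := by
  obtain ⟨J, pt, hJ, p1, p0, hU, hR, hc⟩ := c14_main h
  rw [hU] at hP hQ ⊢
  rw [map_add, map_add, hP, hQ]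

theorem U_inj (h : CH A B Om j) {P Q : Pt (WAB A B) Ω} {z : ℂ} (hP : U A B Om j P z) (hQ : U A B Om j Q z) :
    P = Q := by
  obtain ⟨J, pt, hJ, p1, p0, hU, hR, hc⟩ := c14_main h
  rw [hU] at hP hQ
  exact hJ (hP.trans hQ.symm)

theorem U_mod (h : CH A B Om j) {P : Pt (WAB A B) Ω} {z w : ℂ} (hP : U A B Om j P z) :
    U A B Om j P w ↔ z - w ∈ (LF F).lattice := by
  obtain ⟨J, pt, hJ, p1, p0, hU, hR, hc⟩ := c14_main h
  rw [hU] at hP ⊢
  rw [hP, ← sub_eq_zero, ← map_sub, p0]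

theorem U_tors [IsAlgClosed Ω] (h : CH A B Om j) {n : ℕ} (hn : 0 < n) {z : ℂ} (hz : (n : ℂ) * z ∈ (LF F).lattice) :
    ∃ P, U A B Om j P z := by
  obtain ⟨J, pt, hJ, p1, p0, hU, hR, hc⟩ := c14_main h
  by_cases h1 : z ∈ (LF F).lattice
  · exact ⟨0, Or.inl ⟨rfl, h1⟩⟩
  · have h2 : pt z ≠ 0 := fun h3 => h1 ((p0 z).1 h3)
    have h4 : n • pt z = 0 := by
      rw [← map_nsmul, nsmul_eq_mul]
      exact (p0 _).2 hz
    obtain ⟨h5, h6⟩ := tors_range h (pt z) h2 hn h4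
    obtain ⟨P, hP⟩ := hR _ h2 h5 h6
    exact ⟨P, (hU P z).2 hP⟩

theorem U_alg (h : CH A B Om j) {z : ℂ} (hz : z ∉ (LF F).lattice) {x y : Ω} (hx : j x = XL (LF F) Om z)
    (hy : j y = YL (LF F) Om z) : ∃ P, U A B Om j P z := by
  obtain ⟨J, pt, hJ, p1, p0, hU, hR, hc⟩ := c14_main h
  have h2 : pt z ≠ 0 := fun h3 => hz ((p0 z).1 h3)
  obtain ⟨e1, e2⟩ := hc z hz
  obtain ⟨P, hP⟩ := hR _ h2 ⟨x, by rw [hx, e1]⟩ ⟨y, by rw [hy, e2]⟩
  exact ⟨P, (hU P z).2 hP⟩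

end H55K.CC
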