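import Mathlib
import Pool.Agent.Lib.H55K.C0

open NumberField WeierstrassCurve Polynomial

namespace H55K.CC

open H55P (IQ embF eF LF Per Pt ac mem_LF eF_inj eF_ne Nm Nm_eq)
open H35P (WAB)

variable {F : Type} [Field F] [NumberField F] [IQ F] {Ω : Type} [Field Ω] [DecidableEq Ω] [Algebra F Ω]
  {A B : F} {Om : ℂ} {j : Ω →+* ℂ}

/-! Chunk C15 (S/M). S = image of the nonzero classes c of 𝓞 F ⧸ (b) (finite: Ideal.finiteQuotientOfFreeOfNeBot, see finite_quot in Lib/H28G/GB1.lean) under c -> e(Quotient.out c)/e(b). Lattice: mem_LF. Model: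
rho_bij in Lib/H28G/GB1.lean, GB3_inj, GB3_ex in Lib/H28G/GB3.lean. lat_nm: n = Ideal.absNorm (span b) is in (b) (Ideal.absNorm_mem), n = b c. -/

theorem exists_Rep {b : 𝓞 F} (hb : b ≠ 0) : ∃ S : Finset ℂ, Rep (LF F) (eF F b) S := by
  classical
  have hb' : eF F b ≠ 0 := eF_ne hb
  have hfin : Finite (𝓞 F ⧸ Ideal.span {b}) := by
    apply Ideal.finiteQuotientOfFreeOfNeBot
    rwa [Ne, Ideal.span_singleton_eq_bot]
  have : Fintype (𝓞 F ⧸ Ideal.span {b}) := Fintype.ofFinite _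
  have hout : ∀ c : 𝓞 F ⧸ Ideal.span {b}, Ideal.Quotient.mk (Ideal.span {b}) (Quotient.out c) = c :=
    fun c => Quotient.out_eq c
  have hdv : ∀ x y : 𝓞 F, eF F x / eF F b = eF F y → b ∣ x := by
    intro x y h
    rw [div_eq_iff hb', ← map_mul] at h
    exact ⟨y, by rw [eF_inj h, mul_comm]⟩
  refine ⟨(Finset.univ.filter fun c : 𝓞 F ⧸ Ideal.span {b} => c ≠ 0).image fun c => eF F (Quotient.out c) / eF F b,
    hb', ?_, ?_, ?_, ?_, ?_⟩
  · intro l hl
    rw [mem_LF] at hl ⊢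
    obtain ⟨y, rfl⟩ := hl
    exact ⟨b * y, by rw [map_mul]⟩
  · intro r hr
    obtain ⟨c, -, rfl⟩ := Finset.mem_image.1 hr
    rw [mem_LF]
    exact ⟨Quotient.out c, by rw [mul_div_cancel₀ _ hb']⟩
  · intro r hr
    obtain ⟨c, hc, rfl⟩ := Finset.mem_image.1 hr
    rw [mem_LF]
    rintro ⟨y, hy⟩
    have h1 := hdv _ _ hy
    rw [← Ideal.mem_span_singleton, ← Ideal.Quotient.eq_zero_iff_mem, hout] at h1
    exact (Finset.mem_filter.1 hc).2 h1
  · intro r hr r' hr' h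
    obtain ⟨c, hc, rfl⟩ := Finset.mem_image.1 hr
    obtain ⟨c', hc', rfl⟩ := Finset.mem_image.1 hr'
    rw [mem_LF] at h
    obtain ⟨y, hy⟩ := h
    rw [← sub_div, ← map_sub] at hy
    have h1 := hdv _ _ hy
    rw [← Ideal.mem_span_singleton, ← Ideal.Quotient.eq, hout, hout] at h1
    rw [h1]
  · intro w hw
    rw [mem_LF] at hw
    obtain ⟨y, hy⟩ := hw
    have hw' : w = eF F y / eF F b := by
      rw [eq_div_iff hb', mul_comm, hy]
    by_cases h0 : Ideal.Quotient.mk (Ideal.span {b}) y = 0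
    · left
      rw [Ideal.Quotient.eq_zero_iff_mem, Ideal.mem_span_singleton] at h0
      obtain ⟨y', rfl⟩ := h0
      rw [mem_LF]
      exact ⟨y', by rw [hw', map_mul, mul_div_cancel_left₀ _ hb']⟩
    · right
      refine ⟨_, Finset.mem_image.2 ⟨Ideal.Quotient.mk (Ideal.span {b}) y,
        Finset.mem_filter.2 ⟨Finset.mem_univ _, h0⟩, rfl⟩, ?_⟩
      have h1 := hout (Ideal.Quotient.mk (Ideal.span {b}) y)
      rw [eq_comm, Ideal.Quotient.eq, Ideal.mem_span_singleton] at h1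
      obtain ⟨y', hy'⟩ := h1
      rw [mem_LF]
      refine ⟨y', ?_⟩
      rw [hw', ← sub_div, ← map_sub, hy', map_mul, mul_div_cancel_left₀ _ hb']

theorem lat_nm {b : 𝓞 F} (hb : b ≠ 0) {w : ℂ} (hw : eF F b * w ∈ (LF F).lattice) : 0 < Nm b ∧
    (Nm b : ℂ) * w ∈ (LF F).lattice := by
  refine ⟨Nat.pos_of_ne_zero fun h => hb (H55P.Nm_eq_zero.1 h), ?_⟩
  have h1 : (Nm b : 𝓞 F) ∈ Ideal.span {b} := Ideal.absNorm_mem (Ideal.span {b})
  rw [Ideal.mem_span_singleton] at h1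
  obtain ⟨c, hc⟩ := h1
  rw [mem_LF] at hw ⊢
  obtain ⟨y, hy⟩ := hw
  refine ⟨c * y, ?_⟩
  have h2 : (Nm b : ℂ) = eF F b * eF F c := by
    rw [← map_mul, ← hc, map_natCast]
  rw [h2, map_mul, ← hy]
  ring

end H55K.CC
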