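import Mathlib
import Pool.Agent.Lib.H28G.CDefs
import Pool.Agent.Lib.H55K.C0

namespace H55K.CC

/-! Chunk C2 (M). D(z) = β^2 wp(β z) - wp z - sum over r in S of wp(z + r). Periodic (h.st, wp_per). Local: let T = insert 0 S (0 is not in S by h.out).
(i) β z0 not in Λ: D is analytic at z0 (Rep.z_out, Rep.zr_out, H35P.wp_analytic, composition with z -> β z and z -> z + r).
(ii) β z0 in Λ: there is r0 in T with z0 + r0 in Λ (h.ex applied to -z0) and it is unique (h.inj, h.out): the other z0 + r, r in T, are not in Λ. u from H35P.wp_zero. For z near z0, z <> z0: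
wp(z + r0) = wp(z - z0) = ((z - z0)^2)^(-1) + u(z - z0) and wp(β z) = wp(β (z - z0)) = (β^2 (z - z0)^2)^(-1) + u(β (z - z0)) (wp_per), so
D(z) = a(z) := β^2 u(β (z - z0)) - u(z - z0) - sum over r in T, r <> r0 of wp(z + r), analytic at z0.
H35P.liouville gives c; at z0 = 0 (r0 = 0, u 0 = 0): c = a(0) = - sum over S of wp r. At z with β z not in Λ (take a = D): D(z) = c. -/

/-- The difference. -/
noncomputable def c2_D (L : PeriodPair) (β : ℂ) (T : Finset ℂ) (z : ℂ) : ℂ :=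
  β ^ 2 * L.weierstrassP (β * z) - ∑ r ∈ T, L.weierstrassP (z + r)

theorem c2_zero_notMem {L : PeriodPair} {β : ℂ} {S : Finset ℂ} (h : Rep L β S) : (0 : ℂ) ∉ S :=
  fun h0 => h.out 0 h0 (zero_mem _)

theorem c2_per {L : PeriodPair} {β : ℂ} {S : Finset ℂ} (h : Rep L β S) (T : Finset ℂ) (z : ℂ) (l : ℂ)
    (hl : l ∈ L.lattice) : c2_D L β T (z + l) = c2_D L β T z := by
  unfold c2_D
  rw [mul_add, wp_per L (β * z) (h.st l hl)]
  congr 1
  refine Finset.sum_congr rfl fun r _ => ?_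
  rw [show z + l + r = z + r + l by ring, wp_per L (z + r) hl]

open Classical in
theorem c2_out {L : PeriodPair} {β : ℂ} {S : Finset ℂ} (h : Rep L β S) {z₀ r₀ : ℂ} (hr₀ : r₀ ∈ insert 0 S)
    (h0 : z₀ + r₀ ∈ L.lattice) {r : ℂ} (hr : r ∈ (insert 0 S).erase r₀) : z₀ + r ∉ L.lattice := by
  intro h1
  have hd : r - r₀ ∈ L.lattice := by
    have := sub_mem h1 h0
    rwa [show z₀ + r - (z₀ + r₀) = r - r₀ by ring] at this
  rw [Finset.mem_erase, Finset.mem_insert] at hr
  rw [Finset.mem_insert] at hr₀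
  obtain ⟨hne, hr⟩ := hr
  rcases hr with rfl | hr
  · rcases hr₀ with rfl | hr₀
    · exact hne rfl
    · rw [zero_sub, neg_mem_iff] at hd
      exact h.out _ hr₀ hd
  · rcases hr₀ with rfl | hr₀
    · rw [sub_zero] at hd
      exact h.out _ hr hd
    · exact hne (h.inj r hr r₀ hr₀ hd)

theorem c2_an {L : PeriodPair} {z₀ r : ℂ} (h : z₀ + r ∉ L.lattice) :
    AnalyticAt ℂ (fun z => L.weierstrassP (z + r)) z₀ := by
  have h1 : AnalyticAt ℂ L.weierstrassP ((fun z : ℂ => z + r) z₀) := H35P.wp_analytic L _ h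
  exact h1.comp (f := fun z : ℂ => z + r) (by fun_prop)

open Classical in
theorem c2_loc {L : PeriodPair} {β : ℂ} {S : Finset ℂ} (h : Rep L β S) {z₀ r₀ : ℂ} (hr₀ : r₀ ∈ insert 0 S)
    (h0 : z₀ + r₀ ∈ L.lattice) {u : ℂ → ℂ} (hu : AnalyticAt ℂ u 0)
    (hwp : ∀ z : ℂ, z ≠ 0 → L.weierstrassP z = (z ^ 2)⁻¹ + u z) :
    AnalyticAt ℂ (fun z => β ^ 2 * u (β * (z - z₀)) - u (z - z₀) -
      ∑ r ∈ (insert 0 S).erase r₀, L.weierstrassP (z + r)) z₀ ∧
    ∀ z, z ≠ z₀ → c2_D L β (insert 0 S) z = β ^ 2 * u (β * (z - z₀)) - u (z - z₀) -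
      ∑ r ∈ (insert 0 S).erase r₀, L.weierstrassP (z + r) := by
  constructor
  · have h1 : AnalyticAt ℂ (fun z => u (β * (z - z₀))) z₀ := by
      have e : AnalyticAt ℂ u ((fun z : ℂ => β * (z - z₀)) z₀) := by simpa using hu
      exact e.comp (f := fun z : ℂ => β * (z - z₀)) (by fun_prop)
    have h2 : AnalyticAt ℂ (fun z => u (z - z₀)) z₀ := by
      have e : AnalyticAt ℂ u ((fun z : ℂ => z - z₀) z₀) := by simpa using hu
      exact e.comp (f := fun z : ℂ => z - z₀) (by fun_prop)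
    have h3 : AnalyticAt ℂ (fun z => ∑ r ∈ (insert 0 S).erase r₀, L.weierstrassP (z + r)) z₀ :=
      Finset.analyticAt_fun_sum _ fun r hr => c2_an (c2_out h hr₀ h0 hr)
    exact ((analyticAt_const.mul h1).sub h2).sub h3
  · intro z hz
    have hz' : z - z₀ ≠ 0 := sub_ne_zero.2 hz
    have hb : β * z₀ ∈ L.lattice := by
      have h1 := h.st _ h0
      have h2 : β * r₀ ∈ L.lattice := by
        rw [Finset.mem_insert] at hr₀
        rcases hr₀ with rfl | hr₀
        · rw [mul_zero]; exact zero_mem _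
        · exact h.mem _ hr₀
      have := sub_mem h1 h2
      rwa [show β * (z₀ + r₀) - β * r₀ = β * z₀ by ring] at this
    have e1 : L.weierstrassP (β * z) = ((β * (z - z₀)) ^ 2)⁻¹ + u (β * (z - z₀)) := by
      rw [← hwp _ (mul_ne_zero h.ne hz'), ← wp_per L (β * (z - z₀)) hb]
      congr 1
      ring
    have e2 : L.weierstrassP (z + r₀) = ((z - z₀) ^ 2)⁻¹ + u (z - z₀) := by
      rw [← hwp _ hz', ← wp_per L (z - z₀) h0]
      congr 1
      ring
    unfold c2_D
    rw [← Finset.add_sum_erase _ _ hr₀, e1, e2]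
    have hβ := h.ne
    field_simp
    ring

open Classical in
/-- (E1) -/
theorem E1 {L : PeriodPair} {β : ℂ} {S : Finset ℂ} (h : Rep L β S) {z : ℂ} (hz : β * z ∉ L.lattice) :
    β ^ 2 * L.weierstrassP (β * z) =
      L.weierstrassP z + ∑ r ∈ S, (L.weierstrassP (z + r) - L.weierstrassP r) := by
  obtain ⟨u, hu, hu0, hwp⟩ := H35P.wp_zero L
  have han : ∀ z₀, β * z₀ ∉ L.lattice → AnalyticAt ℂ (c2_D L β (insert 0 S)) z₀ := by
    intro z₀ hz₀
    have h1 : AnalyticAt ℂ (fun z => L.weierstrassP (β * z)) z₀ := by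
      have e : AnalyticAt ℂ L.weierstrassP ((fun z : ℂ => β * z) z₀) := H35P.wp_analytic L _ hz₀
      exact e.comp (f := fun z : ℂ => β * z) (by fun_prop)
    have h3 : AnalyticAt ℂ (fun z => ∑ r ∈ insert 0 S, L.weierstrassP (z + r)) z₀ := by
      refine Finset.analyticAt_fun_sum _ fun r hr => c2_an ?_
      rw [Finset.mem_insert] at hr
      rcases hr with rfl | hr
      · rw [add_zero]; exact h.z_out hz₀
      · exact h.zr_out hz₀ hr
    exact (analyticAt_const.mul h1).sub h3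
  obtain ⟨c, hc⟩ := H35P.liouville L (c2_D L β (insert 0 S)) (fun z l hl => c2_per h _ z l hl) (by
    intro z₀
    by_cases hz₀ : β * z₀ ∈ L.lattice
    · obtain ⟨r₀, hr₀, h0⟩ : ∃ r₀ ∈ insert 0 S, z₀ + r₀ ∈ L.lattice := by
        have h1 : β * (-z₀) ∈ L.lattice := by
          rw [mul_neg, neg_mem_iff]; exact hz₀
        rcases h.ex _ h1 with h2 | ⟨r, hr, h2⟩
        · exact ⟨0, Finset.mem_insert_self _ _, by rw [add_zero]; exact neg_mem_iff.1 h2⟩
        · refine ⟨r, Finset.mem_insert_of_mem hr, ?_⟩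
          rw [← neg_mem_iff]
          rwa [show -(z₀ + r) = -z₀ - r by ring]
      obtain ⟨k1, k2⟩ := c2_loc h hr₀ h0 hu hwp
      refine ⟨_, k1, ?_⟩
      filter_upwards [self_mem_nhdsWithin] with z hz using k2 z hz
    · exact ⟨_, han z₀ hz₀, Filter.Eventually.of_forall fun z => rfl⟩)
  have h0 : (0 : ℂ) + 0 ∈ L.lattice := by rw [add_zero]; exact zero_mem _
  obtain ⟨k1, k2⟩ := c2_loc h (Finset.mem_insert_self 0 S) h0 hu hwp
  have e1 := hc 0 _ k1.continuousAt (by
    filter_upwards [self_mem_nhdsWithin] with z hz using k2 z hz)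
  have e2 := hc z _ (han z hz).continuousAt (Filter.Eventually.of_forall fun z => rfl)
  rw [← e1] at e2
  simp only [sub_zero, mul_zero, hu0, zero_add, zero_sub] at e2
  rw [Finset.erase_insert (c2_zero_notMem h)] at e2
  unfold c2_D at e2
  rw [Finset.sum_insert (c2_zero_notMem h), add_zero] at e2
  rw [Finset.sum_sub_distrib]
  linear_combination e2

end H55K.CC
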