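import Mathlib

open Polynomial

namespace H55K.CC

/-! Chunk C21 (S/M, PURE MATHLIB). dd: product of monic polynomials X - C t, squared: degree 2 #S =: d, monic. nn: C(α^(-2)) (X dd + sum over r of (quadratic in X (degree ≤ 2, since it is (X + t)(t X + A) + 2B)) times
(product over S.erase r, degree 2 (#S - 1) = d - 2) - C t dd): the sum has natDegree ≤ d (natDegree_sum_le_of_forall_le, natDegree_mul_le, natDegree_prod_le ..), so natDegree ≤ d + 1 and the coefficient of X^(d+1) is α^(-2)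
(coeff_X_mul, coeff_eq_zero_of_natDegree_lt). nn_eval: x <> t r: product over S.erase r of (x - t r')^2 = dd(x)/(x - t r)^2 (Finset.mul_prod_erase), Finset.mul_sum. -/

variable {K : Type} [Field K]

/-- The denominator. -/
noncomputable def ddP (S : Finset ℂ) (t : ℂ → K) : K[X] := ∏ r ∈ S, (X - C (t r)) ^ 2

/-- The numerator. -/
noncomputable def nnP (S : Finset ℂ) (t : ℂ → K) (α A B : K) : K[X] := C (α ^ 2)⁻¹ * (X * ddP S t +
  ∑ r ∈ S, (((X + C (t r)) * (C (t r) * X + C A) + C (2 * B)) * ∏ r' ∈ S.erase r, (X - C (t r')) ^ 2 -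
    C (t r) * ddP S t))

theorem ddP_deg (S : Finset ℂ) (t : ℂ → K) : (ddP S t).natDegree ≤ 2 * S.card ∧ (ddP S t).coeff (2 * S.card) = 1 := by
  have hm : ∀ r ∈ S, ((X - C (t r)) ^ 2 : K[X]).Monic := fun r _ => (monic_X_sub_C _).pow 2
  have hmon : (ddP S t).Monic := monic_prod_of_monic S _ hm
  have hd : (ddP S t).natDegree = 2 * S.card := by
    unfold ddP
    rw [natDegree_prod_of_monic S _ hm]
    have : ∀ r ∈ S, ((X - C (t r)) ^ 2 : K[X]).natDegree = 2 := by
      intro r _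
      rw [natDegree_pow, natDegree_X_sub_C]
    rw [Finset.sum_congr rfl this, Finset.sum_const, smul_eq_mul, mul_comm]
  refine ⟨hd.le, ?_⟩
  rw [← hd]
  exact hmon

theorem nnP_deg (S : Finset ℂ) (t : ℂ → K) {α : K} (hα : α ≠ 0) (A B : K) : (nnP S t α A B).natDegree ≤ 2 * S.card + 1 ∧
    α ^ 2 * (nnP S t α A B).coeff (2 * S.card + 1) = 1 := by
  obtain ⟨hd1, hd2⟩ := ddP_deg S t
  have hQ : (∑ r ∈ S, (((X + C (t r)) * (C (t r) * X + C A) + C (2 * B)) * ∏ r' ∈ S.erase r, (X - C (t r')) ^ 2 -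
      C (t r) * ddP S t)).natDegree ≤ 2 * S.card := by
    refine natDegree_sum_le_of_forall_le _ _ fun r hr => ?_
    refine (natDegree_sub_le _ _).trans (max_le ?_ ?_)
    · have h1 : ((X + C (t r)) * (C (t r) * X + C A) + C (2 * B) : K[X]).natDegree ≤ 2 := by
        compute_degree
      have h2 := (ddP_deg (S.erase r) t).1
      have h3 : 1 ≤ S.card := Finset.card_pos.2 ⟨r, hr⟩
      rw [Finset.card_erase_of_mem hr] at h2
      refine natDegree_mul_le.trans ?_
      have h4 : (∏ r' ∈ S.erase r, (X - C (t r')) ^ 2 : K[X]).natDegree ≤ 2 * (S.card - 1) := h2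
      omega
    · exact (natDegree_C_mul_le _ _).trans hd1
  have hX : (X * ddP S t).natDegree ≤ 2 * S.card + 1 := by
    refine natDegree_mul_le.trans ?_
    rw [natDegree_X]
    omega
  unfold nnP
  refine ⟨(natDegree_C_mul_le _ _).trans ((natDegree_add_le _ _).trans (max_le hX (hQ.trans (by omega)))), ?_⟩
  rw [coeff_C_mul, coeff_add, coeff_X_mul, hd2, coeff_eq_zero_of_natDegree_lt (lt_of_le_of_lt hQ (by omega)), add_zero,
    mul_one, mul_inv_cancel₀ (pow_ne_zero 2 hα)]

theorem ddP_eval (S : Finset ℂ) (t : ℂ → K) {x : K} (hx : ∀ r ∈ S, x - t r ≠ 0) : (ddP S t).eval x ≠ 0 := by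
  unfold ddP
  rw [eval_prod, Finset.prod_ne_zero_iff]
  intro r hr
  rw [eval_pow, eval_sub, eval_X, eval_C]
  exact pow_ne_zero 2 (hx r hr)

theorem nnP_eval (S : Finset ℂ) (t : ℂ → K) {α : K} (hα : α ≠ 0) (A B : K) {x : K} (hx : ∀ r ∈ S, x - t r ≠ 0) :
    α ^ 2 * (nnP S t α A B).eval x = (ddP S t).eval x *
      (x + ∑ r ∈ S, (((x + t r) * (t r * x + A) + 2 * B) / (x - t r) ^ 2 - t r)) := by
  have hα2 : α ^ 2 ≠ 0 := pow_ne_zero 2 hα
  unfold nnP
  rw [eval_mul, eval_C, mul_inv_cancel_left₀ hα2, eval_add, eval_mul, eval_X, mul_add, mul_comm x, eval_finset_sum,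
    Finset.mul_sum]
  congr 1
  refine Finset.sum_congr rfl fun r hr => ?_
  have h1 : (ddP S t).eval x = (x - t r) ^ 2 * (∏ r' ∈ S.erase r, (X - C (t r')) ^ 2 : K[X]).eval x := by
    have h2 : ddP S t = (X - C (t r)) ^ 2 * ∏ r' ∈ S.erase r, (X - C (t r')) ^ 2 := by
      unfold ddP
      exact (Finset.mul_prod_erase S (fun r => (X - C (t r) : K[X]) ^ 2) hr).symm
    rw [h2, eval_mul, eval_pow, eval_sub, eval_X, eval_C]
  rw [eval_sub, eval_mul, eval_mul, h1]
  simp only [eval_add, eval_mul, eval_X, eval_C]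
  have h3 := hx r hr
  field_simp

theorem ddP_map {K' : Type} [Field K'] (j : K →+* K') (S : Finset ℂ) (t : ℂ → K) :
    (ddP S t).map j = ddP S (fun r => j (t r)) := by
  unfold ddP
  rw [Polynomial.map_prod]
  simp

theorem nnP_map {K' : Type} [Field K'] (j : K →+* K') (S : Finset ℂ) (t : ℂ → K) (α A B : K) :
    (nnP S t α A B).map j = nnP S (fun r => j (t r)) (j α) (j A) (j B) := by
  unfold nnP
  simp only [Polynomial.map_mul, Polynomial.map_add, Polynomial.map_sum, Polynomial.map_sub, Polynomial.map_prod,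
    Polynomial.map_pow, map_X, map_C, ddP_map, map_inv₀, map_pow, map_mul, map_ofNat, Polynomial.map_ofNat]

end H55K.CC
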