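import Mathlib
import Pool.Agent.Lib.H55K.C14
import Pool.Agent.Lib.H55K.C15
import Pool.Agent.Lib.H55K.C2
import Pool.Agent.Lib.H55K.C21

open NumberField WeierstrassCurve Polynomial

namespace H55K.CC

open H55P (IQ embF eF LF Per Pt ac mem_LF eF_inj eF_ne Nm Nm_eq)
open H35P (WAB)

variable {F : Type} [Field F] [NumberField F] [IQ F] {Ω : Type} [Field Ω] [DecidableEq Ω] [Algebra F Ω]
  {A B : F} {Om : ℂ} {j : Ω →+* ℂ}

/-- The polynomials N, D give multiplication by β on the x-coordinates. -/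
def MR (L : PeriodPair) (Om β : ℂ) (N D : Polynomial ℂ) : Prop := ∀ z, β * z ∉ L.lattice →
  D.eval (XL L Om z) ≠ 0 ∧ XL L Om (β * z) * D.eval (XL L Om z) = N.eval (XL L Om z)

/-! Chunk C22 (M). mr_nn: β z not in Λ. E1 at z and at -z (wp even): adding, 2 β^2 wp(β z) = 2 wp z + sum over S of (wp(z + r) + wp(z - r) - 2 wp r); divide by 2 Om^2, xl_add_sub (Rep.z_out, Rep.zr_out, Rep.zs_out, h.out):
β^2 XL(β z) = XL z + sum over S of (((x + t)(t x + A) + 2B)/(x - t)^2 - t) with x = XL z, t = XL r. Then nnP_eval, ddP_eval. exists_ND0: S from exists_Rep; r in S: a point T_r with U T_r r (U_tors, lat_nm), t r = xc T_r,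
j (t r) = XL r (U.xc_eq); ddP_map, nnP_map (replace j (t r) by XL r under the products and sums over S: mr_nn for a function t' with t' r = XL r for r in S, or Finset.prod_congr). -/

theorem mr_nn {L : PeriodPair} {A B Om β : ℂ} (hO : Om ≠ 0) (g2 : L.g₂ = -4 * A * Om ^ 4)
    (g3 : L.g₃ = -4 * B * Om ^ 6) {S : Finset ℂ} (h : Rep L β S) (t : ℂ → ℂ) (ht : ∀ r ∈ S, t r = XL L Om r) :
    MR L Om β (nnP S t β A B) (ddP S t) := by
  intro z hz
  have hz0 := h.z_out hz
  have hOm : Om ^ 2 ≠ 0 := pow_ne_zero 2 hO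
  have hβ : β ^ 2 ≠ 0 := pow_ne_zero 2 h.ne
  have hadd : ∀ r ∈ S, XL L Om z - XL L Om r ≠ 0 ∧ XL L Om (z + r) + XL L Om (z - r) =
      2 * ((XL L Om z + XL L Om r) * (XL L Om r * XL L Om z + A) + 2 * B) / (XL L Om z - XL L Om r) ^ 2 :=
    fun r hr => xl_add_sub L hO g2 g3 hz0 (h.out r hr) (h.zr_out hz hr) (h.zs_out hz hr)
  have hx : ∀ r ∈ S, XL L Om z - t r ≠ 0 := by
    intro r hr
    rw [ht r hr]
    exact (hadd r hr).1
  refine ⟨ddP_eval S t hx, ?_⟩
  have h1 := E1 h hz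
  have hz' : β * (-z) ∉ L.lattice := by
    rw [mul_neg, neg_mem_iff]
    exact hz
  have h2 := E1 h hz'
  rw [mul_neg, L.weierstrassP_neg, L.weierstrassP_neg] at h2
  have h3 : ∀ r, L.weierstrassP (-z + r) = L.weierstrassP (z - r) := by
    intro r
    rw [← L.weierstrassP_neg]
    congr 1
    ring
  simp only [h3] at h2
  have h4 : β ^ 2 * XL L Om (β * z) = XL L Om z +
      ∑ r ∈ S, (((XL L Om z + t r) * (t r * XL L Om z + A) + 2 * B) / (XL L Om z - t r) ^ 2 - t r) := by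
    have h5 : ∑ r ∈ S, (((XL L Om z + t r) * (t r * XL L Om z + A) + 2 * B) / (XL L Om z - t r) ^ 2 - t r) =
        (∑ r ∈ S, (L.weierstrassP (z + r) - L.weierstrassP r)) / (2 * Om ^ 2) +
        (∑ r ∈ S, (L.weierstrassP (z - r) - L.weierstrassP r)) / (2 * Om ^ 2) := by
      rw [← add_div, ← Finset.sum_add_distrib, Finset.sum_div]
      apply Finset.sum_congr rfl
      intro r hr
      have h6 := (hadd r hr).2
      rw [ht r hr]
      have h7 : ((XL L Om z + XL L Om r) * (XL L Om r * XL L Om z + A) + 2 * B) / (XL L Om z - XL L Om r) ^ 2 =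
          (XL L Om (z + r) + XL L Om (z - r)) / 2 := by
        rw [h6]
        ring
      rw [h7]
      unfold XL
      field_simp
      ring
    rw [h5]
    have h8 : XL L Om (β * z) = L.weierstrassP (β * z) / Om ^ 2 := rfl
    have h9 : XL L Om z = L.weierstrassP z / Om ^ 2 := rfl
    rw [h8, h9]
    set s1 := ∑ r ∈ S, (L.weierstrassP (z + r) - L.weierstrassP r)
    set s2 := ∑ r ∈ S, (L.weierstrassP (z - r) - L.weierstrassP r)
    field_simp
    linear_combination h1 + h2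
  have h10 := nnP_eval S t h.ne A B hx
  rw [← h4] at h10
  apply mul_left_cancel₀ hβ
  rw [h10]
  ring

theorem exists_ND0 [IsAlgClosed Ω] (h : CH A B Om j) {a : 𝓞 F} (ha : a ≠ 0) : ∃ (d : ℕ) (N D : Polynomial Ω),
    N.natDegree ≤ d + 1 ∧ ak Ω a ^ 2 * N.coeff (d + 1) = 1 ∧ D.natDegree ≤ d ∧ D.coeff d = 1 ∧
    MR (LF F) Om (eF F a) (N.map j) (D.map j) := by
  classical
  obtain ⟨S, hS⟩ := exists_Rep ha
  have hT : ∀ r : ℂ, ∃ x : Ω, r ∈ S → j x = XL (LF F) Om r := by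
    intro r
    by_cases hr : r ∈ S
    · obtain ⟨hn, hn'⟩ := lat_nm ha (hS.mem r hr)
      obtain ⟨P, hP⟩ := U_tors h hn hn'
      exact ⟨xc P, fun _ => hP.xc_eq (hS.out r hr)⟩
    · exact ⟨0, fun h1 => absurd h1 hr⟩
  choose t ht using hT
  have hj : j (ak Ω a) = eF F a := h.ovr _
  have hak : ak Ω a ≠ 0 := by
    intro h1
    rw [h1, map_zero] at hj
    exact eF_ne ha hj.symm
  refine ⟨2 * S.card, nnP S t (ak Ω a) (algebraMap F Ω A) (algebraMap F Ω B), ddP S t,
    (nnP_deg S t hak _ _).1, (nnP_deg S t hak _ _).2, (ddP_deg S t).1, (ddP_deg S t).2, ?_⟩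
  rw [nnP_map, ddP_map, hj, h.ovr, h.ovr]
  exact mr_nn h.per.ne h.per.g2 h.per.g3 hS _ fun r hr => ht r hr

end H55K.CC
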