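import Mathlib
import Pool.Agent.Lib.H55K.C22

open NumberField WeierstrassCurve Polynomial

namespace H55K.CC

/-! Chunk C23 (S/M). XL' = wp'/Om^2 = 2 Om YL. The function t -> XL(β t) D(XL t) - N(XL t) is 0 for t near z ({β t not in Λ} is open, H35P.compl_open), so its derivative at z is 0 (H35P.wp_hasDeriv, Polynomial.hasDerivAt, chain rule):
β 2 Om YL(β z) D(x) + XL(β z) D'(x) 2 Om YL z - N'(x) 2 Om YL z = 0, x = XL z. Multiply by D(x)/(2 Om) and use XL(β z) D(x) = N(x). -/

theorem c23_XL {L : PeriodPair} {Om z : ℂ} (hO : Om ≠ 0) (hz : z ∉ L.lattice) :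
    HasDerivAt (XL L Om) (2 * Om * YL L Om z) z := by
  have h1 := (H35P.wp_hasDeriv L z hz).div_const (Om ^ 2)
  have e1 : L.derivWeierstrassP z / Om ^ 2 = 2 * Om * YL L Om z := by
    unfold YL
    field_simp
  rw [e1] at h1
  exact h1

theorem mr_deriv {L : PeriodPair} {Om β : ℂ} (hO : Om ≠ 0) (st : ∀ l ∈ L.lattice, β * l ∈ L.lattice) {N D : Polynomial ℂ}
    (h : MR L Om β N D) {z : ℂ} (hz : β * z ∉ L.lattice) :
    β * YL L Om (β * z) * D.eval (XL L Om z) ^ 2 =
      (derivative N * D - N * derivative D).eval (XL L Om z) * YL L Om z := by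
  have hz0 : z ∉ L.lattice := fun h0 => hz (st z h0)
  have hβ : HasDerivAt (fun t : ℂ => β * t) β z := by
    simpa using (hasDerivAt_id z).const_mul β
  have h1 : HasDerivAt (fun t => XL L Om (β * t)) (2 * Om * YL L Om (β * z) * β) z :=
    HasDerivAt.comp z (c23_XL hO hz) hβ
  have h2 : HasDerivAt (fun t => D.eval (XL L Om t)) ((derivative D).eval (XL L Om z) * (2 * Om * YL L Om z)) z :=
    HasDerivAt.comp z (D.hasDerivAt (XL L Om z)) (c23_XL hO hz0)
  have h3 : HasDerivAt (fun t => N.eval (XL L Om t)) ((derivative N).eval (XL L Om z) * (2 * Om * YL L Om z)) z :=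
    HasDerivAt.comp z (N.hasDerivAt (XL L Om z)) (c23_XL hO hz0)
  have h4 := (h1.mul h2).sub h3
  have h5 : (fun t => XL L Om (β * t) * D.eval (XL L Om t) - N.eval (XL L Om t)) =ᶠ[nhds z] fun _ => (0 : ℂ) := by
    have ho : IsOpen {t : ℂ | β * t ∉ L.lattice} :=
      (H35P.compl_open L).preimage (continuous_const_mul β)
    filter_upwards [ho.mem_nhds hz] with t ht
    rw [(h t ht).2, sub_self]
  have h6 : HasDerivAt (fun t => XL L Om (β * t) * D.eval (XL L Om t) - N.eval (XL L Om t)) 0 z :=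
    (hasDerivAt_const z (0 : ℂ)).congr_of_eventuallyEq h5
  have h7 := h4.unique h6
  have h8 := (h z hz).2
  have h9 : (2 : ℂ) * Om ≠ 0 := mul_ne_zero two_ne_zero hO
  apply mul_left_cancel₀ h9
  simp only [eval_sub, eval_mul]
  linear_combination (D.eval (XL L Om z)) * h7 - 2 * Om * YL L Om z * (derivative D).eval (XL L Om z) * h8

end H55K.CC
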