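import Mathlib
import Pool.Agent.Lib.H55K.C23

open NumberField WeierstrassCurve Polynomial

namespace H55K.CC

open H55P (IQ embF eF LF Per Pt ac mem_LF eF_inj eF_ne Nm Nm_eq)
open H35P (WAB)

variable {F : Type} [Field F] [NumberField F] [IQ F] {Ω : Type} [Field Ω] [DecidableEq Ω] [Algebra F Ω]
  {A B : F} {Om : ℂ} {j : Ω →+* ℂ}

/-! Chunk C24 (M). mr_ode: for z with β z not in Λ, x = XL z: square mr_deriv, yl_sq for z and β z, XL(β z) = N(x)/D(x): β^2 D (N^3 + A N D^2 + B D^3) = f (N'D - ND')^2 at x (multiply out D <> 0). The values x: every c is XL z for some z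
not in Λ (wp_surj, Om <> 0); if β z in Λ then z = r modulo Λ for some r in S (h.ex), c = XL r. So the two sides agree at all x outside the finite set XL(S): Polynomial.eq_of_infinite_eval_eq (the complement of a finite
set of ℂ is infinite). exists_ND: exists_ND0, mr_ode for (LF F), N.map j, D.map j (h.per, g2, g3; Rep from exists_Rep), the identity is the image under Polynomial.map j (injective: Polynomial.map_injective) of the identity over Ω
(derivative_map, map_mul ..., j(algebraMap F Ω A) = embF F A). -/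

theorem mr_ode {L : PeriodPair} {A B Om β : ℂ} (hO : Om ≠ 0) (g2 : L.g₂ = -4 * A * Om ^ 4)
    (g3 : L.g₃ = -4 * B * Om ^ 6) {S : Finset ℂ} (hS : Rep L β S) {N D : Polynomial ℂ} (h : MR L Om β N D) :
    (X ^ 3 + C A * X + C B) * (derivative N * D - N * derivative D) ^ 2 =
      C (β ^ 2) * D * (N ^ 3 + C A * N * D ^ 2 + C B * D ^ 3) := by
  classical
  refine Polynomial.eq_of_infinite_eval_eq _ _ ?_
  refine (Set.Finite.infinite_compl (Finset.finite_toSet (S.image (XL L Om)))).mono ?_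
  intro c hc
  obtain ⟨z, hz, hzc⟩ := wp_surj L (c * Om ^ 2)
  have hx : XL L Om z = c := by
    unfold XL
    rw [hzc, mul_div_cancel_right₀ _ (pow_ne_zero 2 hO)]
  have hb : β * z ∉ L.lattice := by
    intro h1
    rcases hS.ex z h1 with h2 | ⟨r, hr, h2⟩
    · exact hz h2
    · apply hc
      rw [Finset.mem_coe, Finset.mem_image]
      refine ⟨r, hr, ?_⟩
      rw [← hx]
      unfold XL
      rw [show z = r + (z - r) by ring, wp_per L r h2]
  obtain ⟨d0, e1⟩ := h z hb
  have e2 := mr_deriv hO hS.st h hb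
  have e3 := yl_sq L hO g2 g3 hz
  have e4 := yl_sq L hO g2 g3 hb
  rw [hx] at d0 e1 e2 e3
  change eval c _ = eval c _
  set Z := (derivative N * D - N * derivative D).eval c with hZ
  have e5 : eval c ((X ^ 3 + C A * X + C B) * (derivative N * D - N * derivative D) ^ 2) =
      (c ^ 3 + A * c + B) * Z ^ 2 := by
    rw [eval_mul, eval_pow, ← hZ]
    simp
  have e6 : eval c (C (β ^ 2) * D * (N ^ 3 + C A * N * D ^ 2 + C B * D ^ 3)) =
      β ^ 2 * D.eval c * (N.eval c ^ 3 + A * N.eval c * D.eval c ^ 2 + B * D.eval c ^ 3) := by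
    simp
  rw [e5, e6, ← e3, ← e1]
  have e7 : (β * YL L Om (β * z) * D.eval c ^ 2) ^ 2 = (Z * YL L Om z) ^ 2 := by rw [e2]
  linear_combination -e7 + β ^ 2 * D.eval c ^ 4 * e4

theorem exists_ND [IsAlgClosed Ω] (h : CH A B Om j) {a : 𝓞 F} (ha : a ≠ 0) : ∃ (d : ℕ) (N D : Polynomial Ω),
    ND (ak Ω a) (algebraMap F Ω A) (algebraMap F Ω B) d N D ∧ MR (LF F) Om (eF F a) (N.map j) (D.map j) := by
  obtain ⟨d, N, D, h1, h2, h3, h4, h5⟩ := exists_ND0 h ha
  obtain ⟨S, hS⟩ := exists_Rep (F := F) ha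
  refine ⟨d, N, D, ⟨h1, h2, h3, h4, ?_⟩, h5⟩
  have h6 := mr_ode h.per.ne h.per.g2 h.per.g3 hS h5
  apply Polynomial.map_injective j j.injective
  simp only [Polynomial.map_mul, Polynomial.map_add, Polynomial.map_pow, Polynomial.map_sub, map_X, map_C,
    ← derivative_map, h.ovr, map_pow]
  rw [Polynomial.C_pow] at h6
  exact h6

end H55K.CC
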