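import Mathlib
import Pool.Agent.Lib.H55K.C0

open Polynomial

namespace H55K.CC

/-! Chunk C25 (M, pure algebra). U = N E - M D, G = D E, f = X^3 + C A X + C B. Suppose U <> 0, n = natDegree U, u = leading coefficient. Multiply the first equation by E^4, the second by D^4 and subtract:
f ((W1 E^2)^2 - (W2 D^2)^2) = C(α^2) G U Q, W1 = N'D - ND', W2 = M'E - ME', Q = N^2E^2 + N E M D + M^2D^2 + C A D^2E^2, and W1 E^2 - W2 D^2 = U'G - UG' (ring, derivative_mul). So
f (U'G - UG') (W1 E^2 + W2 D^2) = C(α^2) G U Q. Multiply by X^2 and compare the coefficients of X^(n + 3g + 4), g = d + e, with Polynomial.coeff_mul_of_natDegree_le (coeff (P Q) (m + k) = coeff P m * coeff Q k if natDegree P ≤ m,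
natDegree Q ≤ k). Top coefficients (γ = α^(-2), so N has γ, D has 1, M has γ, E has 1; the derivative enters as X P', whose coefficient of X^m is m times that of P):
f: 1 (degree 3); X(U'G - UG') = (XU')G - U(XG'), degree ≤ n + g: (n - g) u; X W1: degree ≤ 2d+1: ((d+1) - d) γ = γ; X W1 E^2: degree ≤ 2g+1: γ; X W2 D^2: γ; the sum 2γ.
Left side: 2 γ (n - g) u, total degree 3 + (n+g) + (2g+1). Right side: X^2 C(α^2) G U Q: 2 + g + n + (2g+2); Q: 3 γ^2 (the last term has degree ≤ 2g: coefficient 0 at 2g+2). So 2 γ (n-g) u = α^2 3 γ^2 u = 3 γ u,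
2 (n - g) = 3 in K, i.e. 2 n = 2 g + 3 in K, by CharZero in ℕ: absurd. -/

theorem ND_unique {K : Type} [Field K] [CharZero K] {α A B : K} (hα : α ≠ 0) {d e : ℕ} {N D M E : K[X]}
    (h1 : ND α A B d N D) (h2 : ND α A B e M E) : N * E = M * D := by
  obtain ⟨dN, cN, dD, cD, o1⟩ := h1
  obtain ⟨dM, cM, dE, cE, o2⟩ := h2
  obtain ⟨γ, hγ⟩ : ∃ γ, γ = N.coeff (d + 1) := ⟨_, rfl⟩
  rw [← hγ] at cN
  have hγM : M.coeff (e + 1) = γ := mul_left_cancel₀ (pow_ne_zero 2 hα) (cM.trans cN.symm)
  have hγ0 : γ ≠ 0 := by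
    rintro rfl
    rw [mul_zero] at cN
    exact zero_ne_one cN
  by_contra hne
  obtain ⟨U, hU⟩ : ∃ U, U = N * E - M * D := ⟨_, rfl⟩
  have hU0 : U ≠ 0 := by
    rw [hU]
    exact sub_ne_zero.2 hne
  obtain ⟨G, hG⟩ : ∃ G, G = D * E := ⟨_, rfl⟩
  obtain ⟨n, hn⟩ : ∃ n, n = U.natDegree := ⟨_, rfl⟩
  obtain ⟨u, hu⟩ : ∃ u, u = U.coeff n := ⟨_, rfl⟩
  have hu0 : u ≠ 0 := by
    rw [hu, hn]
    exact leadingCoeff_ne_zero.2 hU0
  obtain ⟨P1, hP1⟩ : ∃ P, P = (derivative N * D - N * derivative D) * E ^ 2 := ⟨_, rfl⟩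
  obtain ⟨P2, hP2⟩ : ∃ P, P = (derivative M * E - M * derivative E) * D ^ 2 := ⟨_, rfl⟩
  obtain ⟨Q, hQ⟩ : ∃ Q, Q = (N * E) ^ 2 + (N * E) * (M * D) + (M * D) ^ 2 + C A * G ^ 2 := ⟨_, rfl⟩
  have hdU : derivative U = derivative N * E + N * derivative E - (derivative M * D + M * derivative D) := by
    rw [hU, derivative_sub, derivative_mul, derivative_mul]
  have hdG : derivative G = derivative D * E + D * derivative E := by
    rw [hG, derivative_mul]
  have hdiff : P1 - P2 = derivative U * G - U * derivative G := by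
    rw [hdU, hdG, hP1, hP2, hG, hU]
    ring
  have hsq : (X ^ 3 + C A * X + C B) * ((P1 - P2) * (P1 + P2)) = C (α ^ 2) * (G * (U * Q)) := by
    have e1 := congrArg (· * E ^ 4) o1
    have e2 := congrArg (· * D ^ 4) o2
    beta_reduce at e1 e2
    have e3 : (X ^ 3 + C A * X + C B) * ((P1 - P2) * (P1 + P2)) =
        (X ^ 3 + C A * X + C B) * (derivative N * D - N * derivative D) ^ 2 * E ^ 4 -
        (X ^ 3 + C A * X + C B) * (derivative M * E - M * derivative E) ^ 2 * D ^ 4 := by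
      rw [hP1, hP2]
      ring
    rw [e3, e1, e2, hQ, hU, hG]
    ring
  have hθ : ∀ P : K[X], ∀ m : ℕ, (X * derivative P).coeff m = (m : K) * P.coeff m := by
    intro P m
    rcases m with _ | m
    · rw [coeff_X_mul_zero, Nat.cast_zero, zero_mul]
    · rw [coeff_X_mul, coeff_derivative]
      push_cast
      ring
  have hθd : ∀ P : K[X], ∀ m : ℕ, P.natDegree ≤ m → (X * derivative P).natDegree ≤ m := by
    intro P m hm
    rw [natDegree_le_iff_coeff_eq_zero]
    intro k hk
    rw [hθ, coeff_eq_zero_of_natDegree_lt (lt_of_le_of_lt hm hk), mul_zero]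
  have dG : G.natDegree ≤ d + e := by
    rw [hG]
    exact natDegree_mul_le_of_le dD dE
  have cG : G.coeff (d + e) = 1 := by
    rw [hG, coeff_mul_add_eq_of_natDegree_le dD dE, cD, cE, mul_one]
  -- the second factor
  have hF2 : (X * (P1 - P2)).coeff (n + (d + e)) = ((n : K) - (d + e : ℕ)) * u ∧
      (X * (P1 - P2)).natDegree ≤ n + (d + e) := by
    have e1 : X * (P1 - P2) = (X * derivative U) * G - U * (X * derivative G) := by
      rw [hdiff]
      ring
    have a1 : (X * derivative U).natDegree ≤ n := hθd U n hn.ge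
    have a2 : (X * derivative G).natDegree ≤ d + e := hθd G _ dG
    rw [e1]
    constructor
    · rw [coeff_sub, coeff_mul_add_eq_of_natDegree_le a1 dG, coeff_mul_add_eq_of_natDegree_le hn.ge a2, hθ, hθ, cG, ← hu]
      ring
    · exact (natDegree_sub_le _ _).trans (max_le (natDegree_mul_le_of_le a1 dG) (natDegree_mul_le_of_le hn.ge a2))
  have hW : ∀ (N D E : K[X]) (d e : ℕ), N.natDegree ≤ d + 1 → N.coeff (d + 1) = γ → D.natDegree ≤ d → D.coeff d = 1 →
      E.natDegree ≤ e → E.coeff e = 1 →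
      (X * ((derivative N * D - N * derivative D) * E ^ 2)).coeff (2 * (d + e) + 1) = γ ∧
      (X * ((derivative N * D - N * derivative D) * E ^ 2)).natDegree ≤ 2 * (d + e) + 1 := by
    intro N D E d e dN cN dD cD dE cE
    have e1 : X * ((derivative N * D - N * derivative D) * E ^ 2) =
        ((X * derivative N) * D - N * (X * derivative D)) * (E * E) := by ring
    have a1 : (X * derivative N).natDegree ≤ d + 1 := hθd N _ dN
    have a2 : (X * derivative D).natDegree ≤ d := hθd D _ dD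
    have a3 : (E * E).natDegree ≤ e + e := natDegree_mul_le_of_le dE dE
    have a4 : ((X * derivative N) * D - N * (X * derivative D)).natDegree ≤ (d + 1) + d :=
      (natDegree_sub_le _ _).trans (max_le (natDegree_mul_le_of_le a1 dD) (natDegree_mul_le_of_le dN a2))
    have e2 : 2 * (d + e) + 1 = ((d + 1) + d) + (e + e) := by ring
    rw [e1, e2]
    constructor
    · rw [coeff_mul_add_eq_of_natDegree_le a4 a3, coeff_sub, coeff_mul_add_eq_of_natDegree_le a1 dD, coeff_mul_add_eq_of_natDegree_le dN a2,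
        hθ, hθ, coeff_mul_add_eq_of_natDegree_le dE dE, cN, cD, cE]
      push_cast
      ring
    · exact natDegree_mul_le_of_le a4 a3
  obtain ⟨w1, w2⟩ := hW N D E d e dN hγ.symm dD cD dE cE
  obtain ⟨w3, w4⟩ := hW M E D e d dM hγM dE cE dD cD
  rw [← hP1] at w1 w2
  rw [← hP2, add_comm e d] at w3 w4
  have hF3 : (X * (P1 + P2)).coeff (2 * (d + e) + 1) = 2 * γ ∧ (X * (P1 + P2)).natDegree ≤ 2 * (d + e) + 1 := by
    rw [mul_add]
    constructor
    · rw [coeff_add, w1, w3]
      ring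
    · exact (natDegree_add_le _ _).trans (max_le w2 w4)
  have hF1 : (X ^ 3 + C A * X + C B : K[X]).coeff 3 = 1 ∧ (X ^ 3 + C A * X + C B : K[X]).natDegree ≤ 3 := by
    constructor
    · rw [coeff_add, coeff_add, coeff_C_mul, coeff_X_pow_self, coeff_C, coeff_X]
      norm_num
    · compute_degree
  have hNE : (N * E).coeff (d + e + 1) = γ ∧ (N * E).natDegree ≤ d + e + 1 := by
    have : d + e + 1 = (d + 1) + e := by ring
    rw [this]
    exact ⟨by rw [coeff_mul_add_eq_of_natDegree_le dN dE, cE, ← hγ, mul_one], natDegree_mul_le_of_le dN dE⟩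
  have hMD : (M * D).coeff (d + e + 1) = γ ∧ (M * D).natDegree ≤ d + e + 1 := by
    have : d + e + 1 = (e + 1) + d := by ring
    rw [this]
    exact ⟨by rw [coeff_mul_add_eq_of_natDegree_le dM dD, cD, hγM, mul_one], natDegree_mul_le_of_le dM dD⟩
  have hGG : (C A * G ^ 2).natDegree ≤ (d + e) + (d + e) := by
    rw [sq]
    exact (natDegree_C_mul_le _ _).trans (natDegree_mul_le_of_le dG dG)
  have hQ2 : Q.coeff ((d + e + 1) + (d + e + 1)) = 3 * γ ^ 2 ∧ Q.natDegree ≤ (d + e + 1) + (d + e + 1) := by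
    rw [hQ, sq (N * E), sq (M * D)]
    constructor
    · rw [coeff_add, coeff_add, coeff_add, coeff_mul_add_eq_of_natDegree_le hNE.2 hNE.2, coeff_mul_add_eq_of_natDegree_le hNE.2 hMD.2,
        coeff_mul_add_eq_of_natDegree_le hMD.2 hMD.2, coeff_eq_zero_of_natDegree_lt (lt_of_le_of_lt hGG (by omega)), hNE.1, hMD.1]
      ring
    · exact (natDegree_add_le _ _).trans (max_le ((natDegree_add_le _ _).trans (max_le ((natDegree_add_le _ _).trans
        (max_le (natDegree_mul_le_of_le hNE.2 hNE.2) (natDegree_mul_le_of_le hNE.2 hMD.2)))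
        (natDegree_mul_le_of_le hMD.2 hMD.2))) (hGG.trans (by omega)))
  have hfin := congrArg (fun P => (X ^ 2 * P).coeff (3 + ((n + (d + e)) + (2 * (d + e) + 1)))) hsq
  beta_reduce at hfin
  have l1 : X ^ 2 * ((X ^ 3 + C A * X + C B) * ((P1 - P2) * (P1 + P2))) =
      (X ^ 3 + C A * X + C B) * ((X * (P1 - P2)) * (X * (P1 + P2))) := by ring
  have l2 : X ^ 2 * (C (α ^ 2) * (G * (U * Q))) = C (α ^ 2) * (X ^ 2 * (G * (U * Q))) := by ring
  have l3 : 3 + ((n + (d + e)) + (2 * (d + e) + 1)) = 2 + ((d + e) + (n + ((d + e + 1) + (d + e + 1)))) := by ring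
  rw [l1, l2, coeff_mul_add_eq_of_natDegree_le hF1.2 (natDegree_mul_le_of_le hF2.2 hF3.2),
    coeff_mul_add_eq_of_natDegree_le hF2.2 hF3.2, l3, coeff_C_mul,
    coeff_mul_add_eq_of_natDegree_le (natDegree_X_pow_le 2) (natDegree_mul_le_of_le dG (natDegree_mul_le_of_le hn.ge hQ2.2)),
    coeff_mul_add_eq_of_natDegree_le dG (natDegree_mul_le_of_le hn.ge hQ2.2),
    coeff_mul_add_eq_of_natDegree_le hn.ge hQ2.2, hF1.1, hF2.1, hF3.1, coeff_X_pow_self, cG, ← hu, hQ2.1] at hfin
  have h5 : (γ * u) * (2 * ((n : K) - (d + e : ℕ)) - 3) = 0 := by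
    linear_combination hfin + 3 * u * γ * cN
  have h6 := (mul_eq_zero.1 h5).resolve_left (mul_ne_zero hγ0 hu0)
  have h7 : ((2 * n : ℕ) : K) = ((2 * (d + e) + 3 : ℕ) : K) := by
    push_cast
    push_cast at h6
    linear_combination h6
  have h8 := Nat.cast_injective h7
  omega

theorem ND_map {K : Type} [Field K] {α A B : K} {d : ℕ} {N D : K[X]} (h : ND α A B d N D) (s : K →+* K)
    (h1 : s α = α) (h2 : s A = A) (h3 : s B = B) : ND α A B d (N.map s) (D.map s) := by
  refine ⟨(natDegree_map_le).trans h.dN, ?_, (natDegree_map_le).trans h.dD, ?_, ?_⟩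
  · rw [coeff_map]
    have := congrArg s h.cN
    rwa [map_mul, map_pow, h1, map_one] at this
  · rw [coeff_map, h.cD, map_one]
  · have := congrArg (Polynomial.map s) h.ode
    simp only [Polynomial.map_mul, Polynomial.map_add, Polynomial.map_sub, Polynomial.map_pow, map_X, map_C,
      map_pow, h1, h2, h3, ← derivative_map] at this
    simpa only [map_pow] using this

end H55K.CC
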