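import Mathlib
import Pool.Agent.Lib.H55K.C23

open NumberField WeierstrassCurve Polynomial

namespace H55K.CC

open H55P (IQ embF eF LF Per Pt ac mem_LF eF_inj eF_ne Nm Nm_eq)
open H35P (WAB)

variable {F : Type} [Field F] [NumberField F] [IQ F] {Ω : Type} [Field Ω] [DecidableEq Ω] [Algebra F Ω]
  {A B : F} {Om : ℂ} {j : Ω →+* ℂ} {act : 𝓞 F →+* AddMonoid.End (Pt (WAB A B) Ω)}

/-! Chunk C26 (S/M). z with U P z (U_ex); U (act a P) (e(a) z), act a P <> 0 so e(a) z not in Λ and z not in Λ (U.zero_iff; act a 0 = 0). MR and mr_deriv at z (h.per.ne; the lattice is stable under e(a): mem_LF); XL z = j(xc P) etc.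
(U.xc_eq, U.yc_eq), (N.map j).eval (j x) = j (N.eval x) (Polynomial.eval_map_apply / eval₂_at_apply, derivative_map, map_mul, map_sub), j(ak Ω a) = e(a) (h.ovr), injectivity of j. -/

theorem act_xy (h : CH A B Om j) (hact : Act A B Om j act) {a : 𝓞 F} {N D : Polynomial Ω}
    (hM : MR (LF F) Om (eF F a) (N.map j) (D.map j)) {P : Pt (WAB A B) Ω} (hP : act a P ≠ 0) :
    D.eval (xc P) ≠ 0 ∧ xc (act a P) * D.eval (xc P) = N.eval (xc P) ∧
    ak Ω a * yc (act a P) * D.eval (xc P) ^ 2 =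
      (derivative N * D - N * derivative D).eval (xc P) * yc P := by
  obtain ⟨z, hz⟩ := U_ex h P
  have hQ := hact a P z hz
  have haz : eF F a * z ∉ (LF F).lattice := fun h1 => hP ((hQ.zero_iff).2 h1)
  have st : ∀ l ∈ (LF F).lattice, eF F a * l ∈ (LF F).lattice := by
    intro l hl
    obtain ⟨y, rfl⟩ := (mem_LF l).1 hl
    exact (mem_LF _).2 ⟨a * y, by rw [map_mul]⟩
  have hz0 : z ∉ (LF F).lattice := fun h1 => haz (st z h1)
  have ha : j (ak Ω a) = eF F a := h.ovr _
  have hx := hz.xc_eq hz0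
  have hy := hz.yc_eq hz0
  have hX := hQ.xc_eq haz
  have hY := hQ.yc_eq haz
  obtain ⟨h1, h2⟩ := hM z haz
  have h3 := mr_deriv h.per.ne st hM haz
  have ev : ∀ (p : Polynomial Ω) (x : Ω), (p.map j).eval (j x) = j (p.eval x) := fun p x => by
    rw [Polynomial.eval_map, Polynomial.eval₂_at_apply]
  rw [← hx, ev] at h1
  rw [← hx, ← hX, ev, ev] at h2
  rw [← hx, ← hY, ← hy, ev, derivative_map, derivative_map, ← Polynomial.map_mul, ← Polynomial.map_mul,
    ← Polynomial.map_sub, ev, ← ha] at h3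
  refine ⟨fun h4 => h1 (by rw [h4, map_zero]), ?_, ?_⟩
  · apply j.injective
    rw [map_mul]
    exact h2
  · apply j.injective
    rw [map_mul, map_mul, map_mul, map_pow]
    exact h3

end H55K.CC
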