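import Mathlib
import Pool.Agent.Lib.H55K.C24
import Pool.Agent.Lib.H55K.C25
import Pool.Agent.Lib.H55K.C26

open NumberField WeierstrassCurve Polynomial

namespace H55K.CC

open H55P (IQ embF eF LF Per Pt ac mem_LF eF_inj eF_ne Nm Nm_eq)
open H35P (WAB)

variable {F : Type} [Field F] [NumberField F] [IQ F] {Ω : Type} [Field Ω] [DecidableEq Ω] [Algebra F Ω]
  {A B : F} {Om : ℂ} {j : Ω →+* ℂ} {act : 𝓞 F →+* AddMonoid.End (Pt (WAB A B) Ω)}

/-! Chunk C27 (M). xc (ac s P) = s (xc P), yc the same (cases on P; ac is Affine.Point.map). N, D from exists_ND; Ns = N.map s, Ds = D.map s (s as a ring homomorphism): ND_map (s fixes the image of F), ND_unique: Ns D = N Ds. act_xy for P,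
apply s: with x = s (xc P) = xc (ac s P), y = s (yc P): X1 = s (xc (act a P)), Y1 = s (yc (act a P)): Ds(x) <> 0, X1 Ds(x) = Ns(x), α Y1 Ds(x)^2 = (Ns' Ds - Ns Ds')(x) y. act_xy for ac s P: D(x) <> 0, X2 D(x) = N(x),
α Y2 D(x)^2 = (N'D - ND')(x) y. Evaluate Ns D = N Ds and its derivative at x: with n' = Ns(x), d' = Ds(x), n = N(x), d = D(x), n1', d1', n1, d1 the derivatives: n' d = n d', n1' d + n' d1 = n1 d' + n d1'. X1 d' d = n' d = n d' = X2 d d'.
(n1' d' - n' d1') d^2 = (n1 d - n d1) d'^2 (linear_combination), so Y1 = Y2. The two points are not 0 and have the same coordinates: equal (cases). -/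

omit [NumberField F] [IQ F] [DecidableEq Ω] in
theorem c27_ne (W : WeierstrassCurve F) [DecidableEq Ω] (s : Ω ≃ₐ[F] Ω) {P : Pt W Ω} (hP : P ≠ 0) :
    ac W s P ≠ 0 := by
  rcases P with _ | ⟨x, y, h⟩
  · exact absurd rfl hP
  · unfold ac
    rw [Affine.Point.map_some]
    exact Affine.Point.some_ne_zero _

omit [NumberField F] [IQ F] [DecidableEq Ω] in
theorem c27_xc (W : WeierstrassCurve F) [DecidableEq Ω] (s : Ω ≃ₐ[F] Ω) (P : Pt W Ω) :
    xc (ac W s P) = s (xc P) := by
  rcases P with _ | ⟨x, y, h⟩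
  · have : ac W s (Affine.Point.zero : Pt W Ω) = 0 := map_zero _
    rw [this]
    exact (map_zero s).symm
  · unfold ac
    rw [Affine.Point.map_some]
    rfl

omit [NumberField F] [IQ F] [DecidableEq Ω] in
theorem c27_yc (W : WeierstrassCurve F) [DecidableEq Ω] (s : Ω ≃ₐ[F] Ω) (P : Pt W Ω) :
    yc (ac W s P) = s (yc P) := by
  rcases P with _ | ⟨x, y, h⟩
  · have : ac W s (Affine.Point.zero : Pt W Ω) = 0 := map_zero _
    rw [this]
    exact (map_zero s).symm
  · unfold ac
    rw [Affine.Point.map_some]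
    rfl

omit [NumberField F] [IQ F] [DecidableEq Ω] in
theorem c27_ext {W : WeierstrassCurve F} {P Q : Pt W Ω} (hP : P ≠ 0) (hQ : Q ≠ 0) (hx : xc P = xc Q)
    (hy : yc P = yc Q) : P = Q := by
  rcases P with _ | ⟨x, y, h⟩
  · exact absurd rfl hP
  · rcases Q with _ | ⟨x', y', h'⟩
    · exact absurd rfl hQ
    · have h1 : x = x' := hx
      have h2 : y = y' := hy
      subst h1
      subst h2
      rfl

theorem gal_gen [IsAlgClosed Ω] (h : CH A B Om j) (hact : Act A B Om j act) {a : 𝓞 F} (ha : a ≠ 0) (s : Ω ≃ₐ[F] Ω)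
    {P : Pt (WAB A B) Ω} (h1 : act a P ≠ 0) (h2 : act a (ac (WAB A B) s P) ≠ 0) :
    ac (WAB A B) s (act a P) = act a (ac (WAB A B) s P) := by
  have hc : CharZero Ω := charZero_of_injective_algebraMap (algebraMap F Ω).injective
  obtain ⟨d, N, D, hND, hMR⟩ := exists_ND h ha
  have hα : ak Ω a ≠ 0 := by
    intro h0
    apply ha
    have e1 : algebraMap F Ω (a : F) = algebraMap F Ω 0 := by rw [map_zero]; exact h0
    have e2 := (algebraMap F Ω).injective e1
    exact_mod_cast e2
  have hev : ∀ (q : Polynomial Ω) (x : Ω), (q.map (s : Ω →+* Ω)).eval (s x) = s (q.eval x) := by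
    intro q x
    rw [eval_map]
    exact eval₂_at_apply (s : Ω →+* Ω) x
  have hmap := ND_map hND (s : Ω →+* Ω) (s.commutes _) (s.commutes _) (s.commutes _)
  have heq := ND_unique hα hmap hND
  obtain ⟨p1, p2, p3⟩ := act_xy h hact hMR h1
  obtain ⟨q1, q2, q3⟩ := act_xy h hact hMR h2
  rw [c27_xc] at q1 q2 q3
  rw [c27_yc] at q3
  have heq1 := congrArg (eval (s (xc P))) heq
  have heq2 := congrArg (fun r => eval (s (xc P)) (derivative r)) heq
  simp only [derivative_mul, eval_add, eval_mul] at heq1 heq2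
  rw [hev, hev] at heq1
  rw [hev, hev, derivative_map, derivative_map, hev, hev] at heq2
  have r1 : s (D.eval (xc P)) ≠ 0 := (map_ne_zero s).2 p1
  have r2 := congrArg s p2
  have r3 := congrArg s p3
  have hs1 : s (ak Ω a) = ak Ω a := s.commutes _
  simp only [eval_sub, eval_mul, map_mul, map_sub, map_pow, hs1] at r2 r3 q3
  have hx : xc (ac (WAB A B) s (act a P)) = xc (act a (ac (WAB A B) s P)) := by
    rw [c27_xc]
    apply mul_right_cancel₀ (mul_ne_zero r1 q1)
    linear_combination (D.eval (s (xc P))) * r2 + heq1 - (s (D.eval (xc P))) * q2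
  have hy : yc (ac (WAB A B) s (act a P)) = yc (act a (ac (WAB A B) s P)) := by
    rw [c27_yc]
    apply mul_right_cancel₀ (mul_ne_zero (mul_ne_zero hα (pow_ne_zero 2 r1)) (pow_ne_zero 2 q1))
    linear_combination (D.eval (s (xc P))) ^ 2 * r3 - (s (D.eval (xc P))) ^ 2 * q3 +
      (s (D.eval (xc P)) * D.eval (s (xc P)) * s (yc P)) * heq2 -
      ((s ((derivative D).eval (xc P)) * D.eval (s (xc P)) + (derivative D).eval (s (xc P)) * s (D.eval (xc P))) *
        s (yc P)) * heq1
  exact c27_ext (c27_ne _ s h1) h2 hx hy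

end H55K.CC
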