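import Mathlib
import Pool.Agent.Lib.H55K.C14
import Pool.Agent.Lib.H55K.C15

open NumberField WeierstrassCurve Polynomial

namespace H55K.CC

open H55P (IQ embF eF LF Per Pt ac mem_LF eF_inj eF_ne Nm Nm_eq)
open H35P (WAB)

variable {F : Type} [Field F] [NumberField F] [IQ F] {Ω : Type} [Field Ω] [DecidableEq Ω] [Algebra F Ω]
  {A B : F} {Om : ℂ} {j : Ω →+* ℂ} {act : 𝓞 F →+* AddMonoid.End (Pt (WAB A B) Ω)}

/-! Chunk C28 (S/M). fin_ker: act a P = 0, U P z (U_ex): e(a) z in Λ, so z in Λ (P = 0) or z - r in Λ for some r in S (exists_Rep): U P r (U_mod), and P is determined by r (U_inj): the set is contained in {0} union the image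
of S under a choice function. inf_pt: n -> the point with parameter 1/(n+2) (U_tors): injective (U_mod: 1/(n+2) - 1/(m+2) in Λ has absolute value < 1; the elements <> 0 of Λ have absolute value ≥ 1: H55P.one_le_e, mem_LF).
add_fin: pure group theory: δ vanishes outside a finite set Z of the infinite group G: for P choose Q not in Z and not in {Q | P + Q in Z} (finite: preimage of a finite set under an injective map): δ P = δ (P + Q) - δ Q = 0. -/

theorem fin_ker [IsAlgClosed Ω] (h : CH A B Om j) (hact : Act A B Om j act) {a : 𝓞 F} (ha : a ≠ 0) :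
    {P : Pt (WAB A B) Ω | act a P = 0}.Finite := by
  classical
  obtain ⟨S, hS⟩ := exists_Rep ha
  have hf : ∀ r : ℂ, ∃ Q : Pt (WAB A B) Ω, (∃ P, U A B Om j P r) → U A B Om j Q r := by
    intro r
    by_cases h1 : ∃ P, U A B Om j P r
    · obtain ⟨P, hP⟩ := h1
      exact ⟨P, fun _ => hP⟩
    · exact ⟨0, fun h2 => absurd h2 h1⟩
  choose f hf using hf
  refine Set.Finite.subset ((Set.finite_singleton (0 : Pt (WAB A B) Ω)).union ((S.image f).finite_toSet)) ?_
  intro P hP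
  have hP' : act a P = 0 := hP
  obtain ⟨z, hz⟩ := U_ex h P
  have h1 : eF F a * z ∈ (LF F).lattice := ((hact a P z hz).zero_iff).1 hP'
  rcases hS.ex z h1 with h2 | ⟨r, hr, h2⟩
  · exact Or.inl ((hz.zero_iff).2 h2)
  · right
    have h3 : U A B Om j P r := (U_mod h hz).2 h2
    rw [U_inj h h3 (hf r ⟨P, h3⟩)]
    exact Finset.mem_coe.2 (Finset.mem_image_of_mem f hr)

theorem inf_pt [IsAlgClosed Ω] (h : CH A B Om j) : Infinite (Pt (WAB A B) Ω) := by
  have h1 : ∀ n : ℕ, ∃ P : Pt (WAB A B) Ω, U A B Om j P (1 / ((n : ℂ) + 2)) := by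
    intro n
    have h2 : ((n : ℂ) + 2) ≠ 0 := by exact_mod_cast (by omega : n + 2 ≠ 0)
    refine U_tors h (n := n + 2) (by omega) ?_
    rw [mem_LF]
    refine ⟨1, ?_⟩
    rw [map_one]
    push_cast
    field_simp
  choose f hf using h1
  refine Infinite.of_injective f ?_
  intro m n hmn
  have h2 := hf m
  rw [hmn] at h2
  have h3 := (U_mod h h2).1 (hf n)
  obtain ⟨y, hy⟩ := (mem_LF _).1 h3
  have e1 : (1 : ℂ) / ((m : ℂ) + 2) - 1 / ((n : ℂ) + 2) = ((1 / ((m : ℝ) + 2) - 1 / ((n : ℝ) + 2) : ℝ) : ℂ) := by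
    push_cast
    ring
  have hm : (0 : ℝ) < 1 / ((m : ℝ) + 2) ∧ 1 / ((m : ℝ) + 2) < 1 := by
    have h4 : (0 : ℝ) < (m : ℝ) + 2 := by positivity
    refine ⟨by positivity, ?_⟩
    rw [div_lt_one h4]
    have : (0 : ℝ) ≤ m := Nat.cast_nonneg m
    linarith
  have hn : (0 : ℝ) < 1 / ((n : ℝ) + 2) ∧ 1 / ((n : ℝ) + 2) < 1 := by
    have h4 : (0 : ℝ) < (n : ℝ) + 2 := by positivity
    refine ⟨by positivity, ?_⟩
    rw [div_lt_one h4]
    have : (0 : ℝ) ≤ n := Nat.cast_nonneg n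
    linarith
  by_cases hy0 : y = 0
  · rw [hy0, map_zero, e1] at hy
    have h5 : (1 / ((m : ℝ) + 2) - 1 / ((n : ℝ) + 2) : ℝ) = 0 := by exact_mod_cast hy
    have h6 : (m : ℝ) + 2 = (n : ℝ) + 2 := by
      have h7 : 1 / ((m : ℝ) + 2) = 1 / ((n : ℝ) + 2) := by linarith
      have h8 : (0 : ℝ) < (m : ℝ) + 2 := by positivity
      have h9 : (0 : ℝ) < (n : ℝ) + 2 := by positivity
      field_simp at h7
      linarith
    have h7 : (m : ℝ) = n := by linarith
    exact_mod_cast h7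
  · exfalso
    have h5 := H55P.one_le_e hy0
    rw [← hy, e1, Complex.norm_real, Real.norm_eq_abs] at h5
    have h6 : |1 / ((m : ℝ) + 2) - 1 / ((n : ℝ) + 2)| < 1 := by
      rw [abs_lt]
      constructor <;> linarith [hm.1, hm.2, hn.1, hn.2]
    linarith

theorem add_fin {G H : Type} [AddCommGroup G] [AddCommGroup H] [Infinite G] (δ : G →+ H) {Z : Set G} (hZ : Z.Finite)
    (h : ∀ P, P ∉ Z → δ P = 0) (P : G) : δ P = 0 := by
  have h1 : (Z ∪ (fun Q => P + Q) ⁻¹' Z).Finite := by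
    refine hZ.union (hZ.preimage ?_)
    intro x _ y _ hxy
    exact add_left_cancel hxy
  obtain ⟨Q, hQ⟩ := h1.exists_notMem
  have h2 : Q ∉ Z := fun h3 => hQ (Or.inl h3)
  have h3 : P + Q ∉ Z := fun h4 => hQ (Or.inr h4)
  have h4 := h _ h3
  rw [map_add, h _ h2, add_zero] at h4
  exact h4

end H55K.CC
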