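import Mathlib
import Pool.Agent.Lib.H55K.C27
import Pool.Agent.Lib.H55K.C28
import Pool.Agent.Lib.H55K.D1

/-! # H55K, part C: automorphisms of Ω which are the complex conjugation on F -/

open NumberField WeierstrassCurve Polynomial

namespace H55K

open H55P (IQ embF eF LF Per Pt ac mem_LF eF_inj eF_ne Nm Nm_eq)
open H35P (WAB)
open CC (CH Act U ND MR)

section action

variable {F : Type} [Field F] {Ω : Type} [Field Ω] [Algebra F Ω] {A B : F}

/-- The fixed field of s. -/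
def cgS (s : Ω ≃+* Ω) : Subfield Ω where
  carrier := {x | s x = x}
  mul_mem' := fun {x y} hx hy => by
    show s (x * y) = x * y
    rw [map_mul, show s x = x from hx, show s y = y from hy]
  one_mem' := map_one s
  add_mem' := fun {x y} hx hy => by
    show s (x + y) = x + y
    rw [map_add, show s x = x from hx, show s y = y from hy]
  zero_mem' := map_zero s
  neg_mem' := fun {x} hx => by
    show s (-x) = -x
    rw [map_neg, show s x = x from hx]
  inv_mem' := fun x hx => by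
    show s x⁻¹ = x⁻¹
    rw [map_inv₀, show s x = x from hx]

/-- s as an algebra homomorphism over its fixed field. -/
def cgH (s : Ω ≃+* Ω) : Ω →ₐ[cgS s] Ω where
  toRingHom := (s : Ω →+* Ω)
  commutes' := fun x => x.2

theorem exists_pm [DecidableEq Ω] (s : Ω ≃+* Ω) (E : WeierstrassCurve Ω) (hE : E.map (s : Ω →+* Ω) = E) :
    ∃ f : E.toAffine.Point →+ E.toAffine.Point, ∀ P, xc (f P) = s (xc P) ∧ yc (f P) = s (yc P) ∧ (f P = 0 ↔ P = 0) := by
  have h1 : s E.a₁ = E.a₁ := congrArg WeierstrassCurve.a₁ hE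
  have h2 : s E.a₂ = E.a₂ := congrArg WeierstrassCurve.a₂ hE
  have h3 : s E.a₃ = E.a₃ := congrArg WeierstrassCurve.a₃ hE
  have h4 : s E.a₄ = E.a₄ := congrArg WeierstrassCurve.a₄ hE
  have h6 : s E.a₆ = E.a₆ := congrArg WeierstrassCurve.a₆ hE
  obtain ⟨W, rfl⟩ : ∃ W : WeierstrassCurve (cgS s), W⁄Ω = E :=
    ⟨⟨⟨E.a₁, h1⟩, ⟨E.a₂, h2⟩, ⟨E.a₃, h3⟩, ⟨E.a₄, h4⟩, ⟨E.a₆, h6⟩⟩, rfl⟩
  refine ⟨Affine.Point.map (W' := W.toAffine) (cgH s), fun P => ?_⟩
  rcases P with _ | ⟨x, y, h⟩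
  · refine ⟨(map_zero s).symm, (map_zero s).symm, ?_⟩
    exact ⟨fun _ => rfl, fun _ => map_zero _⟩
  · rw [Affine.Point.map_some]
    exact ⟨rfl, rfl, ⟨fun h0 => absurd h0 (Affine.Point.some_ne_zero _), fun h0 => absurd h0 (Affine.Point.some_ne_zero _)⟩⟩

theorem cg_map (s : Ω ≃+* Ω) (hA : s (algebraMap F Ω A) = algebraMap F Ω A)
    (hB : s (algebraMap F Ω B) = algebraMap F Ω B) : ((WAB A B)⁄Ω).map (s : Ω →+* Ω) = (WAB A B)⁄Ω := by
  ext <;> simp [WAB, WeierstrassCurve.map, WeierstrassCurve.baseChange, hA, hB]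

variable [DecidableEq Ω]

/-- The action of an automorphism s of Ω fixing A and B on the points over Ω. -/
noncomputable def acr (s : Ω ≃+* Ω) (hA : s (algebraMap F Ω A) = algebraMap F Ω A)
    (hB : s (algebraMap F Ω B) = algebraMap F Ω B) : Pt (WAB A B) Ω →+ Pt (WAB A B) Ω :=
  (exists_pm s ((WAB A B)⁄Ω) (cg_map s hA hB)).choose

theorem xc_acr (s : Ω ≃+* Ω) (hA : s (algebraMap F Ω A) = algebraMap F Ω A)
    (hB : s (algebraMap F Ω B) = algebraMap F Ω B) (P : Pt (WAB A B) Ω) : xc (acr s hA hB P) = s (xc P) :=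
  ((exists_pm s ((WAB A B)⁄Ω) (cg_map s hA hB)).choose_spec P).1

theorem yc_acr (s : Ω ≃+* Ω) (hA : s (algebraMap F Ω A) = algebraMap F Ω A)
    (hB : s (algebraMap F Ω B) = algebraMap F Ω B) (P : Pt (WAB A B) Ω) : yc (acr s hA hB P) = s (yc P) :=
  ((exists_pm s ((WAB A B)⁄Ω) (cg_map s hA hB)).choose_spec P).2.1

theorem acr_zero_iff (s : Ω ≃+* Ω) (hA : s (algebraMap F Ω A) = algebraMap F Ω A)
    (hB : s (algebraMap F Ω B) = algebraMap F Ω B) (P : Pt (WAB A B) Ω) : acr s hA hB P = 0 ↔ P = 0 :=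
  ((exists_pm s ((WAB A B)⁄Ω) (cg_map s hA hB)).choose_spec P).2.2

theorem acr_inj (s : Ω ≃+* Ω) (hA : s (algebraMap F Ω A) = algebraMap F Ω A)
    (hB : s (algebraMap F Ω B) = algebraMap F Ω B) : Function.Injective (acr (A := A) (B := B) s hA hB) := by
  intro P Q hPQ
  have h : acr (A := A) (B := B) s hA hB (P - Q) = 0 := by
    rw [map_sub, hPQ, sub_self]
  exact sub_eq_zero.1 ((acr_zero_iff s hA hB _).1 h)

/-- For automorphisms over F this is the usual action. -/
theorem acr_eq_ac (s : Ω ≃ₐ[F] Ω) (hA : (s : Ω ≃+* Ω) (algebraMap F Ω A) = algebraMap F Ω A)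
    (hB : (s : Ω ≃+* Ω) (algebraMap F Ω B) = algebraMap F Ω B) (P : Pt (WAB A B) Ω) :
    acr (s : Ω ≃+* Ω) hA hB P = ac (WAB A B) s P := by
  by_cases hP : P = 0
  · rw [hP, map_zero, map_zero]
  · refine CC.c27_ext (fun h => hP ((acr_zero_iff _ hA hB P).1 h)) (CC.c27_ne _ s hP) ?_ ?_
    · rw [xc_acr, CC.c27_xc]
      rfl
    · rw [yc_acr, CC.c27_yc]
      rfl

/-- Composition. -/
theorem acr_trans (s t : Ω ≃+* Ω) (hA : s (algebraMap F Ω A) = algebraMap F Ω A)
    (hB : s (algebraMap F Ω B) = algebraMap F Ω B) (hA' : t (algebraMap F Ω A) = algebraMap F Ω A)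
    (hB' : t (algebraMap F Ω B) = algebraMap F Ω B) (hA'' : (s.trans t) (algebraMap F Ω A) = algebraMap F Ω A)
    (hB'' : (s.trans t) (algebraMap F Ω B) = algebraMap F Ω B) (P : Pt (WAB A B) Ω) :
    acr t hA' hB' (acr s hA hB P) = acr (s.trans t) hA'' hB'' P := by
  by_cases hP : P = 0
  · rw [hP, map_zero, map_zero, map_zero]
  · refine CC.c27_ext (fun h => hP ((acr_zero_iff s hA hB P).1 ((acr_zero_iff _ hA' hB' _).1 h)))
      (fun h => hP ((acr_zero_iff _ hA'' hB'' P).1 h)) ?_ ?_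
    · rw [xc_acr, xc_acr, xc_acr]
      rfl
    · rw [yc_acr, yc_acr, yc_acr]
      rfl

end action

variable {F : Type} [Field F] [NumberField F] [IQ F] {Ω : Type} [Field Ω] [DecidableEq Ω] [Algebra F Ω]
  {A B : F} {Om : ℂ} {j : Ω →+* ℂ} {act : 𝓞 F →+* AddMonoid.End (Pt (WAB A B) Ω)}

omit [DecidableEq Ω] [Algebra F Ω] [NumberField F] [IQ F] [Field F] in
theorem cg_ND {α β A B : Ω} {d : ℕ} {N D : Polynomial Ω} (h : ND α A B d N D) (s : Ω →+* Ω)
    (h1 : s α = β) (h2 : s A = A) (h3 : s B = B) : ND β A B d (N.map s) (D.map s) := by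
  refine ⟨(natDegree_map_le).trans h.dN, ?_, (natDegree_map_le).trans h.dD, ?_, ?_⟩
  · rw [coeff_map]
    have := congrArg s h.cN
    rwa [map_mul, map_pow, h1, map_one] at this
  · rw [coeff_map, h.cD, map_one]
  · have := congrArg (Polynomial.map s) h.ode
    simp only [Polynomial.map_mul, Polynomial.map_add, Polynomial.map_sub, Polynomial.map_pow, map_X, map_C,
      map_pow, h1, h2, h3, ← derivative_map] at this
    simpa only [map_pow] using this

theorem cg_gen [IsAlgClosed Ω] (h : CH A B Om j) (hact : Act A B Om j act) {a : 𝓞 F} (ha : a ≠ 0) (s : Ω ≃+* Ω)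
    (hA : s (algebraMap F Ω A) = algebraMap F Ω A) (hB : s (algebraMap F Ω B) = algebraMap F Ω B)
    (hs : s (ak Ω a) = ak Ω (cj a))
    {P : Pt (WAB A B) Ω} (h1 : act a P ≠ 0) (h2 : act (cj a) (acr s hA hB P) ≠ 0) :
    acr s hA hB (act a P) = act (cj a) (acr s hA hB P) := by
  have hc : CharZero Ω := charZero_of_injective_algebraMap (algebraMap F Ω).injective
  have ha' : cj a ≠ 0 := fun h0 => ha ((map_eq_zero_iff (cj (F := F)) (cj (F := F)).injective).1 h0)
  obtain ⟨d, N, D, hND, hMR⟩ := CC.exists_ND h ha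
  obtain ⟨e, M, E, hME, hMR'⟩ := CC.exists_ND h ha'
  have hα : ak Ω (cj a) ≠ 0 := by
    intro h0
    apply ha'
    have e1 : algebraMap F Ω ((cj a : 𝓞 F) : F) = algebraMap F Ω 0 := by rw [map_zero]; exact h0
    have e2 := (algebraMap F Ω).injective e1
    exact_mod_cast e2
  have hev : ∀ (q : Polynomial Ω) (x : Ω), (q.map (s : Ω →+* Ω)).eval (s x) = s (q.eval x) := by
    intro q x
    rw [eval_map]
    exact eval₂_at_apply (s : Ω →+* Ω) x
  have hmap := cg_ND hND (s : Ω →+* Ω) hs hA hB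
  have heq := CC.ND_unique hα hmap hME
  obtain ⟨p1, p2, p3⟩ := CC.act_xy h hact hMR h1
  obtain ⟨q1, q2, q3⟩ := CC.act_xy h hact hMR' h2
  rw [xc_acr] at q1 q2 q3
  rw [yc_acr] at q3
  have heq1 := congrArg (eval (s (xc P))) heq
  have heq2 := congrArg (fun r => eval (s (xc P)) (derivative r)) heq
  simp only [derivative_mul, eval_add, eval_mul] at heq1 heq2
  rw [hev, hev] at heq1
  rw [hev, hev, derivative_map, derivative_map, hev, hev] at heq2
  have r1 : s (D.eval (xc P)) ≠ 0 := (map_ne_zero s).2 p1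
  have r2 := congrArg s p2
  have r3 := congrArg s p3
  simp only [eval_sub, eval_mul, map_mul, map_sub, map_pow, hs] at r2 r3 q3
  have hx : xc (acr s hA hB (act a P)) = xc (act (cj a) (acr s hA hB P)) := by
    rw [xc_acr]
    apply mul_right_cancel₀ (mul_ne_zero r1 q1)
    linear_combination (E.eval (s (xc P))) * r2 + heq1 - (s (D.eval (xc P))) * q2
  have hy : yc (acr s hA hB (act a P)) = yc (act (cj a) (acr s hA hB P)) := by
    rw [yc_acr]
    apply mul_right_cancel₀ (mul_ne_zero (mul_ne_zero hα (pow_ne_zero 2 r1)) (pow_ne_zero 2 q1))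
    linear_combination (E.eval (s (xc P))) ^ 2 * r3 - (s (D.eval (xc P))) ^ 2 * q3 +
      (s (D.eval (xc P)) * E.eval (s (xc P)) * s (yc P)) * heq2 -
      ((s ((derivative D).eval (xc P)) * E.eval (s (xc P)) + (derivative E).eval (s (xc P)) * s (D.eval (xc P))) *
        s (yc P)) * heq1
  exact CC.c27_ext (fun h0 => h1 ((acr_zero_iff s hA hB _).1 h0)) h2 hx hy

/-- An automorphism of Ω which is the complex conjugation on F and fixes A and B is semilinear. -/
theorem cm_galr [IsAlgClosed Ω] (h : CH A B Om j) (hact : Act A B Om j act) (s : Ω ≃+* Ω)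
    (hA : s (algebraMap F Ω A) = algebraMap F Ω A) (hB : s (algebraMap F Ω B) = algebraMap F Ω B)
    (hs : ∀ a : 𝓞 F, s (ak Ω a) = ak Ω (cj a)) (a : 𝓞 F)
    (P : Pt (WAB A B) Ω) : acr s hA hB (act a P) = act (cj a) (acr s hA hB P) := by
  by_cases ha : a = 0
  · subst ha
    have h0 : ∀ Q : Pt (WAB A B) Ω, act 0 Q = 0 := fun Q => by
      rw [map_zero]
      rfl
    rw [h0, map_zero, map_zero, h0]
  · have ha' : cj a ≠ 0 := fun h0 => ha ((map_eq_zero_iff (cj (F := F)) (cj (F := F)).injective).1 h0)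
    have := CC.inf_pt h
    set δ : Pt (WAB A B) Ω →+ Pt (WAB A B) Ω :=
      (acr s hA hB).comp (act a : Pt (WAB A B) Ω →+ Pt (WAB A B) Ω) -
      (act (cj a) : Pt (WAB A B) Ω →+ Pt (WAB A B) Ω).comp (acr s hA hB) with hδ
    have h1 : ∀ Q, δ Q = acr s hA hB (act a Q) - act (cj a) (acr s hA hB Q) := fun Q => rfl
    have hf := CC.fin_ker h hact ha
    have hf' := CC.fin_ker h hact ha'
    have hZ : ({Q : Pt (WAB A B) Ω | act a Q = 0} ∪ {Q | act (cj a) (acr s hA hB Q) = 0}).Finite := by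
      refine hf.union (hf'.preimage (f := fun Q => acr s hA hB Q) ?_)
      exact (acr_inj s hA hB).injOn
    have h3 := CC.add_fin δ hZ (fun Q hQ => by
      rw [h1, sub_eq_zero]
      exact cg_gen h hact ha s hA hB (hs a) (fun h4 => hQ (Or.inl h4)) (fun h4 => hQ (Or.inr h4))) P
    rw [h1, sub_eq_zero] at h3
    exact h3

end H55K
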