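import Mathlib
import Pool.Agent.Lib.H55K.D0
import Pool.Agent.Lib.H55R.HD

/-!
# H55K part K: the fields of torsion points (definitions)

K, N are number fields with F ⊂ K ⊂ N ⊂ Ω (abstract types with algebra maps to Ω). s always denotes an element of Gal(Ω/F).
-/

open NumberField IsDedekindDomain WeierstrassCurve

namespace H55K

open H55P (IQ embF eF LF Per IsHecke Pt ac Inert Dec Nm)
open H35P (WAB Ker tt)
open H55R (Pl ord es fs smulP)

section

variable {F : Type} [Field F] {Ω : Type} [Field Ω] [Algebra F Ω]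

/-- s fixes the elements of K. -/
def Fxd (K : Type) [Field K] [Algebra K Ω] (s : Ω ≃ₐ[F] Ω) : Prop :=
  ∀ x : K, s (algebraMap K Ω x) = algebraMap K Ω x

/-- s extends σ. -/
def Lft {K N : Type} [Field K] [Field N] [Algebra K N] [Algebra N Ω] (σ : Gal(N/K)) (s : Ω ≃ₐ[F] Ω) :
    Prop :=
  ∀ x : N, s (algebraMap N Ω x) = algebraMap N Ω (σ x)

end

/-- The valuation ring V of Ω lies above the prime W of N. -/
def Abw {Ω : Type} [Field Ω] {N : Type} [Field N] [NumberField N] [Algebra N Ω] (V : ValuationSubring Ω)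
    (W : Pl N) : Prop :=
  ∀ x : N, algebraMap N Ω x ∈ V ↔ W.valuation N x ≤ 1

section

variable {F : Type} [Field F] {A B : F} {Ω : Type} [Field Ω] [DecidableEq Ω] [Algebra F Ω]

/-- N/K is a Galois extension generated by the coordinates of the points killed by b. -/
structure TFld (act : 𝓞 F →+* AddMonoid.End (Pt (WAB A B) Ω)) (K N : Type) [Field K] [Field N]
    [Algebra K N] [Algebra K Ω] [Algebra N Ω] (b : 𝓞 F) : Prop where
  gal : IsGalois K N
  crd : ∀ T ∈ Tor act b, ∃ x y : N, algebraMap N Ω x = xc T ∧ algebraMap N Ω y = yc T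
  gen : ∀ s : Ω ≃ₐ[F] Ω, Fxd K s → (∀ T ∈ Tor act b, ac (WAB A B) s T = T) → Fxd N s

end

variable {F : Type} [Field F] [NumberField F] [IQ F] {A B : F} {Om : ℂ} {Ω : Type} [Field Ω] [DecidableEq Ω]
  [Algebra F Ω]

/-- N/K is totally ramified at v, of degree Nb - 1. -/
structure TotRam (act : 𝓞 F →+* AddMonoid.End (Pt (WAB A B) Ω)) (K N : Type) [Field K] [NumberField K]
    [Field N] [NumberField N] [Algebra K N] [Algebra N Ω] (b : 𝓞 F) (v : Pl K) : Prop where
  deg : Module.finrank K N = Nm b - 1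
  es : es K N v = Nm b - 1
  fs : fs K N v = 1
  one : ∀ W W' : Pl N, W.under (𝓞 K) = v → W'.under (𝓞 K) = v → W = W'
  val : ∀ W : Pl N, W.under (𝓞 K) = v → ∀ R ∈ Tor act b, R ≠ 0 → ∀ t : N, algebraMap N Ω t = tt R →
    W.valuation N t = WithZero.exp (-1 : ℤ)
  orb : ∀ R ∈ Tor act b, R ≠ 0 → ∀ R' ∈ Tor act b, R' ≠ 0 → ∃ σ : Gal(N/K), ∀ s : Ω ≃ₐ[F] Ω, Lft σ s →
    ac (WAB A B) s R = R'

/-- L is the field generated by the points killed by π. -/
def IsTF (act : 𝓞 F →+* AddMonoid.End (Pt (WAB A B) Ω)) (π : 𝓞 F) (L : IntermediateField F Ω) : Prop :=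
  FiniteDimensional F L ∧ ∀ s : Ω ≃ₐ[F] Ω, s ∈ L.fixingSubgroup ↔
    ∀ T ∈ Tor act π, ac (WAB A B) s T = T

end H55K
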