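import Mathlib
import Pool.Agent.Lib.H55K.KD

open NumberField IsDedekindDomain WeierstrassCurve

namespace H55K

open H55P (IQ embF eF LF Per IsHecke Pt ac Inert Dec Nm)
open H35P (WAB Ker tt)
open H55R (Pl ord es fs smulP)

/-! Chunk K0A (M, many small). Valuation rings above primes, N an abstract number field with an algebra map to Ω.
exists_abw: copy H13S/EXV.lean (f = algebraMap N Ω). lt, le: copy H13S/VW.lean (Abv.lt, Abv.le) with algebraMap N Ω x for (x : Ω); eq from le twice, eq_one from eq with y = 1.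
below: x in K: algebraMap K Ω x = algebraMap N Ω (algebraMap K N x); W.valuation (algebraMap K N x) ≤ 1 iff v.valuation x ≤ 1 (HeightOneSpectrum.valuation_liesOver: v(x)^e = W(x), e ≠ 0, and LiesOver from hW as in
H28G/K9.lean lift_le, BF2_mem of H55R.BF2 or ⟨hW.symm⟩-like). under: if V is above W and above v then W.under = v: for x : 𝓞 K, x in v iff V(x) < 1 iff algebraMap x in W (lt twice), HeightOneSpectrum.ext. int: elements of 𝓞 N are in V: V contains the integral elements (see
vw_int in H13S/VW.lean). -/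

section
variable {Ω : Type} [Field Ω] {N : Type} [Field N] [NumberField N] [Algebra N Ω]

theorem exists_abw (Ω : Type) [Field Ω] {N : Type} [Field N] [NumberField N] [Algebra N Ω] (W : Pl N) :
    ∃ V : ValuationSubring Ω, Abw V W := by
  let A : ValuationSubring N := (W.valuation N).valuationSubring
  let f : N →+* Ω := algebraMap N Ω
  obtain ⟨V, hV⟩ := (A.toLocalSubring.map f).exists_le_valuationSubring
  obtain ⟨h1, h2⟩ := LocalSubring.le_def.1 hV
  refine ⟨V, fun x => ⟨fun hx => ?_, fun hx => ?_⟩⟩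
  · by_contra hc
    have hx0 : x ≠ 0 := by
      rintro rfl
      exact hc (by rw [map_zero]; exact zero_le_one)
    have hi : W.valuation N x⁻¹ ≤ 1 := by
      rw [map_inv₀]
      exact inv_le_one_of_one_le₀ (not_le.1 hc).le
    have hA : x⁻¹ ∈ A.toSubring := (Valuation.mem_valuationSubring_iff _ _).2 hi
    have hm : f x⁻¹ ∈ (A.toLocalSubring.map f).toSubring := ⟨x⁻¹, hA, rfl⟩
    have hu : IsUnit (Subring.inclusion h1 ⟨f x⁻¹, hm⟩) := by
      refine isUnit_iff_exists_inv.2 ⟨⟨f x, hx⟩, Subtype.ext ?_⟩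
      show f x⁻¹ * f x = 1
      rw [← map_mul, inv_mul_cancel₀ hx0, map_one]
    obtain ⟨⟨b, hb⟩, hb1⟩ := isUnit_iff_exists_inv.1 (h2.map_nonunit _ hu)
    obtain ⟨z, hz, rfl⟩ := hb
    have h3 : f (x⁻¹ * z) = f 1 := by
      rw [map_mul, map_one]
      exact congrArg Subtype.val hb1
    have h4 : x⁻¹ * z = 1 := f.injective h3
    have h5 : z = x := by
      rw [inv_mul_eq_iff_eq_mul₀ hx0, mul_one] at h4
      exact h4
    rw [h5] at hz
    exact hc ((Valuation.mem_valuationSubring_iff _ _).1 hz)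
  · exact h1 ⟨x, (Valuation.mem_valuationSubring_iff _ _).2 hx, rfl⟩

theorem Abw.lt {V : ValuationSubring Ω} {W : Pl N} (h : Abw V W) (x : N) :
    V.valuation (algebraMap N Ω x) < 1 ↔ W.valuation N x < 1 := by
  by_cases hx : x = 0
  · subst hx
    rw [map_zero, map_zero, map_zero]
    exact ⟨fun _ => zero_lt_one, fun _ => zero_lt_one⟩
  · have hx' : algebraMap N Ω x ≠ 0 := (map_ne_zero _).2 hx
    have h1 := h x⁻¹
    rw [← V.valuation_le_one_iff, map_inv₀, map_inv₀, map_inv₀] at h1
    have h2 : 0 < V.valuation (algebraMap N Ω x) := zero_lt_iff.2 ((map_ne_zero _).2 hx')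
    have h3 : 0 < W.valuation N x := zero_lt_iff.2 ((map_ne_zero _).2 hx)
    rw [inv_le_one₀ h2, inv_le_one₀ h3] at h1
    rw [← not_le, ← not_le, h1]

theorem Abw.le {V : ValuationSubring Ω} {W : Pl N} (h : Abw V W) (x y : N) :
    V.valuation (algebraMap N Ω x) ≤ V.valuation (algebraMap N Ω y) ↔ W.valuation N x ≤ W.valuation N y := by
  by_cases hy : y = 0
  · subst hy
    rw [map_zero, map_zero, map_zero, le_zero_iff, le_zero_iff, map_eq_zero, map_eq_zero, map_eq_zero]
  · have hy' : algebraMap N Ω y ≠ 0 := (map_ne_zero _).2 hy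
    have h1 := h (x / y)
    have h2 : 0 < V.valuation (algebraMap N Ω y) := zero_lt_iff.2 ((map_ne_zero _).2 hy')
    have h3 : 0 < W.valuation N y := zero_lt_iff.2 ((map_ne_zero _).2 hy)
    rw [← V.valuation_le_one_iff, map_div₀, map_div₀, map_div₀, div_le_one₀ h2, div_le_one₀ h3] at h1
    exact h1

theorem Abw.eq {V : ValuationSubring Ω} {W : Pl N} (h : Abw V W) (x y : N) :
    V.valuation (algebraMap N Ω x) = V.valuation (algebraMap N Ω y) ↔ W.valuation N x = W.valuation N y := by
  rw [le_antisymm_iff, le_antisymm_iff, h.le x y, h.le y x]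

theorem Abw.eq_one {V : ValuationSubring Ω} {W : Pl N} (h : Abw V W) (x : N) :
    V.valuation (algebraMap N Ω x) = 1 ↔ W.valuation N x = 1 := by
  have h1 := h.eq x 1
  rwa [map_one, map_one, map_one] at h1

/-- Integers are integral. -/
theorem k0_int (V : ValuationSubring Ω) (x : 𝓞 N) : V.valuation (algebraMap N Ω (x : N)) ≤ 1 := by
  have h1 : IsIntegral ℤ (algebraMap N Ω (x : N)) :=
    (RingOfIntegers.isIntegral_coe x).map ((algebraMap N Ω).toIntAlgHom)
  have h2 : IsIntegral V (algebraMap N Ω (x : N)) := h1.tower_top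
  obtain ⟨y, hy⟩ := (IsIntegrallyClosed.isIntegral_iff (R := V) (K := Ω)).1 h2
  rw [← hy]
  exact (V.valuation_le_one_iff _).2 y.2

end

section
variable {Ω : Type} [Field Ω] {K N : Type} [Field K] [NumberField K] [Field N] [NumberField N]
  [Algebra K N] [Algebra K Ω] [Algebra N Ω] [IsScalarTower K N Ω]

theorem Abw.below {V : ValuationSubring Ω} {W : Pl N} (h : Abw V W) {v : Pl K} (hW : W.under (𝓞 K) = v) :
    Abw V v := by
  intro x
  have hl : W.asIdeal.LiesOver v.asIdeal := ⟨(congrArg HeightOneSpectrum.asIdeal hW).symm⟩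
  have hp := v.isPrime
  have hWp := W.isPrime
  rw [IsScalarTower.algebraMap_apply K N Ω x, h (algebraMap K N x),
    ← HeightOneSpectrum.valuation_liesOver N v W x]
  exact pow_le_one_iff (Ideal.IsDedekindDomain.ramificationIdx'_ne_zero_of_liesOver W.asIdeal v.ne_bot)

theorem Abw.under {V : ValuationSubring Ω} {W : Pl N} (h : Abw V W) {v : Pl K} (hv : Abw V v) :
    W.under (𝓞 K) = v := by
  apply HeightOneSpectrum.ext
  ext x
  have h1 : x ∈ v.asIdeal ↔ V.valuation (algebraMap K Ω (x : K)) < 1 := by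
    rw [hv.lt]
    exact (v.valuation_lt_one_iff_mem x).symm
  have h2 : algebraMap (𝓞 K) (𝓞 N) x ∈ W.asIdeal ↔ V.valuation (algebraMap K Ω (x : K)) < 1 := by
    rw [IsScalarTower.algebraMap_apply K N Ω, h.lt]
    exact (W.valuation_lt_one_iff_mem (algebraMap (𝓞 K) (𝓞 N) x)).symm
  rw [h1, ← h2]
  rfl

end

end H55K
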