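import Mathlib

namespace H55K.MG

/-! Chunk M4A (S/M, PURE: valuations). δ = X1 - X2, δ' = X1' - X2': V(δ' - δ) < 1, V(δ) = 1 so V(δ') = 1 and δ = u^2 δ', so V(u) = 1 and V(u^2 - 1) = V((δ - δ')/δ') < 1. r = X1 - u^2 X1' = (X1 - X1') - (u^2 - 1) X1', X1' in V: V(r) < 1.
Case V(2) < 1: if V(u - 1) = 1 (it is ≤ 1) then V(u + 1) = V((u - 1) + 2) = 1 and V(u^2 - 1) = 1: contradiction; so V(u - 1) < 1, V(u^3 - 1) < 1. s δ' = (Y1 - Y2) - u^3 (Y1' - Y2') = ((Y1 - Y1') - (Y2 - Y2')) - (u^3 - 1)(Y1' - Y2'):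
V(s) < 1. t = Y1 - u^3 Y1' - s X1': V(t) < 1. Case V(2) = 1: s X1' + t = 0 = s X2' + t: s δ' = 0, s = 0, t = 0; Y1 = u^3 Y1', V(Y1) = 1: V(Y1') = 1, u^3 - 1 = (Y1 - Y1')/Y1' has value < 1; u - 1 = (u^3 - u^2)/u^2 =
((u^3 - 1) - (u^2 - 1))/u^2: V(u - 1) < 1. -/

theorem val_tilde {k : Type} [Field k] (V : ValuationSubring k) {X₁ X₂ Y₁ Y₂ X₁' X₂' Y₁' Y₂' u r s t : k}
    (hX₁ : X₁ ∈ V) (hX₂ : X₂ ∈ V) (hY₁ : Y₁ ∈ V) (hY₂ : Y₂ ∈ V)
    (c₁ : V.valuation (X₁' - X₁) < 1) (c₂ : V.valuation (X₂' - X₂) < 1)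
    (d₁ : V.valuation (Y₁' - Y₁) < 1) (d₂ : V.valuation (Y₂' - Y₂) < 1)
    (e₁ : X₁ = u ^ 2 * X₁' + r) (e₂ : X₂ = u ^ 2 * X₂' + r)
    (f₁ : Y₁ = u ^ 3 * Y₁' + s * X₁' + t) (f₂ : Y₂ = u ^ 3 * Y₂' + s * X₂' + t)
    (hδ : V.valuation (X₁ - X₂) = 1)
    (hc : (V.valuation Y₁ = 1 ∧ s * X₁' + t = 0 ∧ s * X₂' + t = 0) ∨ V.valuation (2 : k) < 1) :
    V.valuation (u - 1) < 1 ∧ V.valuation r < 1 ∧ V.valuation s < 1 ∧ V.valuation t < 1 := by
  obtain ⟨v, hv⟩ : ∃ v, v = V.valuation := ⟨_, rfl⟩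
  have hle : ∀ x ∈ V, v x ≤ 1 := fun x hx => by rw [hv]; exact (V.valuation_le_one_iff x).2 hx
  rw [← hv] at c₁ c₂ d₁ d₂ hδ hc ⊢
  have hmul1 : ∀ x y : k, v x < 1 → v y ≤ 1 → v (x * y) < 1 := by
    intro x y hx hy
    rw [map_mul]
    exact mul_lt_one_of_lt_of_le hx hy
  have hclose : ∀ x y : k, x ∈ V → v (y - x) < 1 → v y ≤ 1 := by
    intro x y hx hy
    have e : y = (y - x) + x := by ring
    rw [e]
    exact (v.map_add _ _).trans (max_le hy.le (hle x hx))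
  have hX₁' := hclose _ _ hX₁ c₁
  have hY₁' := hclose _ _ hY₁ d₁
  have hY₂' := hclose _ _ hY₂ d₂
  have hδd : v ((X₁' - X₂') - (X₁ - X₂)) < 1 := by
    have e : (X₁' - X₂') - (X₁ - X₂) = (X₁' - X₁) - (X₂' - X₂) := by ring
    rw [e]
    exact v.map_sub_lt c₁ c₂
  have hδ' : v (X₁' - X₂') = 1 := by
    have e : X₁' - X₂' = ((X₁' - X₂') - (X₁ - X₂)) + (X₁ - X₂) := by ring
    rw [e, v.map_add_eq_of_lt_right]
    · exact hδ
    · rw [hδ]
      exact hδd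
  have hu2 : X₁ - X₂ = u ^ 2 * (X₁' - X₂') := by rw [e₁, e₂]; ring
  have hvu2 : v u ^ 2 = 1 := by
    have h1 := congrArg v hu2
    rw [map_mul, map_pow, hδ, hδ', mul_one] at h1
    exact h1.symm
  have hvu : v u = 1 := (pow_eq_one_iff_of_nonneg zero_le (by norm_num)).1 hvu2
  have hsq : v (u ^ 2 - 1) < 1 := by
    have e : (u ^ 2 - 1) * (X₁' - X₂') = -((X₁' - X₂') - (X₁ - X₂)) := by rw [hu2]; ring
    have h1 := congrArg v e
    rw [map_mul, hδ', mul_one, Valuation.map_neg] at h1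
    rw [h1]
    exact hδd
  have hc₁ : v (X₁ - X₁') < 1 := by rw [v.map_sub_swap]; exact c₁
  have hd₁ : v (Y₁ - Y₁') < 1 := by rw [v.map_sub_swap]; exact d₁
  have hd₂ : v (Y₂ - Y₂') < 1 := by rw [v.map_sub_swap]; exact d₂
  have hr : v r < 1 := by
    have e : r = (X₁ - X₁') - (u ^ 2 - 1) * X₁' := by linear_combination -e₁
    rw [e]
    exact v.map_sub_lt hc₁ (hmul1 _ _ hsq hX₁')
  rcases hc with ⟨hy, g₁, g₂⟩ | h2
  · have hs0 : s * (X₁' - X₂') = 0 := by linear_combination g₁ - g₂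
    have hδ0 : X₁' - X₂' ≠ 0 := by
      intro h0
      rw [h0, map_zero] at hδ'
      exact zero_ne_one hδ'
    have hs : s = 0 := (mul_eq_zero.1 hs0).resolve_right hδ0
    have ht : t = 0 := by
      rw [hs, zero_mul, zero_add] at g₁
      exact g₁
    rw [hs, ht, map_zero]
    rw [hs, ht, zero_mul, add_zero, add_zero] at f₁
    have hvy : v Y₁' = 1 := by
      have h1 := congrArg v f₁
      rw [hy, map_mul, map_pow, hvu, one_pow, one_mul] at h1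
      exact h1.symm
    have hu3 : v (u ^ 3 - 1) < 1 := by
      have e : (u ^ 3 - 1) * Y₁' = Y₁ - Y₁' := by rw [f₁]; ring
      have h1 := congrArg v e
      rw [map_mul, hvy, mul_one] at h1
      rw [h1]
      exact hd₁
    refine ⟨?_, hr, zero_lt_one, zero_lt_one⟩
    have e : u ^ 2 * (u - 1) = (u ^ 3 - 1) - (u ^ 2 - 1) := by ring
    have h1 := congrArg v e
    rw [map_mul, map_pow, hvu, one_pow, one_mul] at h1
    rw [h1]
    exact v.map_sub_lt hu3 hsq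
  · have hu1le : v (u - 1) ≤ 1 := (v.map_sub _ _).trans (max_le hvu.le (map_one v).le)
    have hu1 : v (u - 1) < 1 := by
      by_contra hcon
      have h1 : v (u - 1) = 1 := le_antisymm hu1le (not_lt.1 hcon)
      have h3 : v (u + 1) = 1 := by
        have e : u + 1 = 2 + (u - 1) := by ring
        rw [e, v.map_add_eq_of_lt_right]
        · exact h1
        · rw [h1]
          exact h2
      have e : u ^ 2 - 1 = (u - 1) * (u + 1) := by ring
      rw [e, map_mul, h1, h3, one_mul] at hsq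
      exact lt_irrefl _ hsq
    have hu3 : v (u ^ 3 - 1) < 1 := by
      have e : u ^ 3 - 1 = (u - 1) * (u ^ 2 + u + 1) := by ring
      rw [e]
      refine hmul1 _ _ hu1 ?_
      refine (v.map_add _ _).trans (max_le ((v.map_add _ _).trans (max_le ?_ hvu.le)) (map_one v).le)
      rw [map_pow, hvu, one_pow]
    have hs : v s < 1 := by
      have e : s * (X₁' - X₂') = ((Y₁ - Y₁') - (Y₂ - Y₂')) - (u ^ 3 - 1) * (Y₁' - Y₂') := by
        linear_combination f₂ - f₁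
      have h1 := congrArg v e
      rw [map_mul, hδ', mul_one] at h1
      rw [h1]
      exact v.map_sub_lt (v.map_sub_lt hd₁ hd₂)
        (hmul1 _ _ hu3 ((v.map_sub _ _).trans (max_le hY₁' hY₂')))
    refine ⟨hu1, hr, hs, ?_⟩
    have e : t = (Y₁ - Y₁') - (u ^ 3 - 1) * Y₁' - s * X₁' := by linear_combination -f₁
    rw [e]
    exact v.map_sub_lt (v.map_sub_lt hd₁ (hmul1 _ _ hu3 hY₁')) (hmul1 _ _ hs hX₁')

end H55K.MG
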