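import Mathlib
import Pool.Agent.Lib.H35P.FG
import Pool.Agent.Lib.H55K.M3A
import Pool.Agent.Lib.H55K.M4A
import Pool.Agent.Lib.H55K.M4B

open NumberField WeierstrassCurve

namespace H55K.MG

open H55P (IQ Pt ac Inert)
open H35P (WAB Ker GoodW IntW)

variable {F : Type} [Field F] {Ω : Type} [Field Ω] [DecidableEq Ω] [Algebra F Ω] {W : WeierstrassCurve F}
  {W' : WeierstrassCurve Ω} {u r s t : Ω} {Θ : (W⁄Ω).toAffine.Point ≃+ W'.toAffine.Point} {V : ValuationSubring Ω}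

/-! Chunk M4C (M). ũ = g u/u, r̃, s̃, t̃ as in tilde. small_tilde: T1, T2 fixed by g: X_i = xc (Θ T_i), Y_i = yc (Θ T_i) in V (int_crd), X_i' = g X_i, Y_i' = g Y_i (hg: Inert gives V(X_i' - X_i) < 1); tilde gives e_i, f_i;
V(X1 - X2) = 1 (unit_diff, Θ (T1 ± T2) = Θ T1 ± Θ T2). If V(2) = 1, a1 = a3 = 0: V(Y1) = 1 (unit_y), and tilde for -T_i (also fixed: map_neg) with yc (Θ (-T_i)) = -Y_i (yc_neg'): -Y_i = -ũ^3 Y_i' + s̃ X_i' + t̃; adding f_i:
2 (s̃ X_i' + t̃) = 0 (2 <> 0 as V(2) = 1). val_tilde. inert_ker: P <> 0. P not in the kernel: X = xc (Θ P), Y in V; V(g X - X) < 1, so xc (Θ (g P)) - X = ũ^2 g X + r̃ - X has value < 1 (V(ũ - 1) < 1, g X in V), the same for Y, so Θ (g P) is not in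
the kernel (ker_crd: its x-coordinate is in V; it is not 0) and cong_ker. P in the kernel: V(X) > 1, so V(g X) > 1 (Inert for X^(-1): V(g(X^(-1)) - X^(-1)) < 1), V(ũ^2 g X + r̃) > 1: Θ (g P) is in the kernel, and so is the difference
(H35P.ker_sub). -/

theorem m4c_ne {P : Pt W Ω} (h : ¬ Ker V (Θ P)) : P ≠ 0 := by
  rintro rfl
  apply h
  rw [map_zero]
  trivial

theorem small_tilde (hu : u ≠ 0) (hW : GoodW W' V) (hc : Crd u r s t Θ)
    (h2 : (V.valuation (2 : Ω) = 1 ∧ W'.a₁ = 0 ∧ W'.a₃ = 0) ∨ V.valuation (2 : Ω) < 1) (g : Ω ≃ₐ[F] Ω)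
    (hg : Inert V g) {T₁ T₂ : Pt W Ω} (k₁ : ¬ Ker V (Θ T₁)) (k₂ : ¬ Ker V (Θ T₂)) (k₃ : ¬ Ker V (Θ (T₁ - T₂)))
    (k₄ : ¬ Ker V (Θ (T₁ + T₂))) (k₅ : ¬ Ker V (Θ (T₁ + T₁))) (f₁ : ac W g T₁ = T₁) (f₂ : ac W g T₂ = T₂) :
    V.valuation (g u / u - 1) < 1 ∧ V.valuation ((g r - r) / u ^ 2) < 1 ∧
      V.valuation (g u ^ 2 * (g s - s) / u ^ 3) < 1 ∧ V.valuation ((g t - t - s * (g r - r)) / u ^ 3) < 1 := by
  obtain ⟨-, x1, y1⟩ := int_crd hW k₁
  obtain ⟨-, x2, y2⟩ := int_crd hW k₂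
  have n1 := m4c_ne k₁
  have n2 := m4c_ne k₂
  obtain ⟨e1, f1⟩ := tilde hu hc g n1
  obtain ⟨e2, f2⟩ := tilde hu hc g n2
  rw [f₁] at e1 f1
  rw [f₂] at e2 f2
  have hδ := unit_diff hW k₁ k₂ (by rw [← map_sub]; exact k₃) (by rw [← map_add]; exact k₄)
  refine val_tilde V x1 x2 y1 y2 (hg _ x1) (hg _ x2) (hg _ y1) (hg _ y2) e1 e2 f1 f2 hδ ?_
  rcases h2 with ⟨h2, a1, a3⟩ | h2
  · left
    have h20 : (2 : Ω) ≠ 0 := by
      intro h
      rw [h, map_zero] at h2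
      exact zero_ne_one h2
    refine ⟨unit_y hW a1 a3 k₁ (by rw [← map_add]; exact k₅), ?_, ?_⟩
    · obtain ⟨-, q⟩ := tilde hu hc g (neg_ne_zero.2 n1)
      rw [map_neg, f₁, map_neg, (yc_neg' a1 a3).1, (yc_neg' a1 a3).2, map_neg] at q
      have q2 : 2 * (g u ^ 2 * (g s - s) / u ^ 3 * g (xc (Θ T₁)) + (g t - t - s * (g r - r)) / u ^ 3) = 0 := by
        linear_combination (-1) * q - f1
      exact (mul_eq_zero.1 q2).resolve_left h20
    · obtain ⟨-, q⟩ := tilde hu hc g (neg_ne_zero.2 n2)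
      rw [map_neg, f₂, map_neg, (yc_neg' a1 a3).1, (yc_neg' a1 a3).2, map_neg] at q
      have q2 : 2 * (g u ^ 2 * (g s - s) / u ^ 3 * g (xc (Θ T₂)) + (g t - t - s * (g r - r)) / u ^ 3) = 0 := by
        linear_combination (-1) * q - f2
      exact (mul_eq_zero.1 q2).resolve_left h20
  · exact Or.inr h2

theorem m4c_lt {x y : Ω} (hx : V.valuation x < 1) (hy : V.valuation y ≤ 1) : V.valuation (x * y) < 1 := by
  rw [map_mul]
  exact mul_lt_one_of_lt_of_le hx hy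

theorem m4c_in (g : Ω ≃ₐ[F] Ω) (hg : Inert V g) {x : Ω} (hx : x ∈ V) : V.valuation (g x) ≤ 1 := by
  have h1 := (hg x hx).le
  have h2 := (V.valuation_le_one_iff x).2 hx
  have e : g x = (g x - x) + x := by ring
  rw [e]
  exact (Valuation.map_add _ _ _).trans (max_le h1 h2)

theorem inert_ker (hu : u ≠ 0) (hW : GoodW W' V) (hc : Crd u r s t Θ) (g : Ω ≃ₐ[F] Ω) (hg : Inert V g)
    (hs : V.valuation (g u / u - 1) < 1 ∧ V.valuation ((g r - r) / u ^ 2) < 1 ∧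
      V.valuation (g u ^ 2 * (g s - s) / u ^ 3) < 1 ∧ V.valuation ((g t - t - s * (g r - r)) / u ^ 3) < 1)
    (P : Pt W Ω) : Ker V (Θ (ac W g P - P)) := by
  rcases eq_or_ne P 0 with rfl | hP
  · rw [map_zero, sub_zero, map_zero]
    trivial
  obtain ⟨s1, s2, s3, s4⟩ := hs
  obtain ⟨e1, f1⟩ := tilde hu hc g hP
  have hgP : ac W g P ≠ 0 := fun h => hP ((ac_crd g P).2.2.1 h)
  have hΘg : Θ (ac W g P) ≠ 0 := (hc _ hgP).1
  have hΘ : Θ P ≠ 0 := (hc _ hP).1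
  have hu1 : V.valuation (g u / u) = 1 := by
    have e : g u / u = 1 + (g u / u - 1) := by ring
    rw [e]
    exact Valuation.map_one_add_of_lt _ s1
  rw [map_sub]
  by_cases hK : Ker V (Θ P)
  · have h1 : 1 < V.valuation (xc (Θ P)) := (ker_crd hΘ).1 hK
    have h0 : xc (Θ P) ≠ 0 := by
      intro h
      rw [h, map_zero] at h1
      exact not_lt.2 zero_le h1
    have h2 : V.valuation (xc (Θ P))⁻¹ < 1 := by
      rw [map_inv₀]
      exact inv_lt_one_of_one_lt₀ h1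
    have h3 := hg _ ((V.valuation_le_one_iff _).1 h2.le)
    have h4 : V.valuation (g (xc (Θ P))⁻¹) < 1 := by
      have e : g (xc (Θ P))⁻¹ = (g (xc (Θ P))⁻¹ - (xc (Θ P))⁻¹) + (xc (Θ P))⁻¹ := by ring
      rw [e]
      exact Valuation.map_add_lt _ h3 h2
    have h5 : 1 < V.valuation (g (xc (Θ P))) := by
      rw [map_inv₀, map_inv₀] at h4
      have h6 : V.valuation (g (xc (Θ P))) ≠ 0 :=
        (V.valuation).ne_zero_iff.2 ((map_ne_zero g).2 h0)
      have h7 := (inv_lt_one₀ (zero_lt_iff.2 h6)).1 h4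
      exact h7
    have h6 : 1 < V.valuation ((g u / u) ^ 2 * g (xc (Θ P))) := by
      rw [map_mul, map_pow, hu1, one_pow, one_mul]
      exact h5
    have h7 : Ker V (Θ (ac W g P)) := by
      rw [ker_crd hΘg, e1, Valuation.map_add_eq_of_lt_left _ (s2.trans h6)]
      exact h6
    exact H35P.ker_sub hW.toIntW _ _ h7 hK
  · obtain ⟨-, x1, y1⟩ := int_crd hW hK
    have gx := m4c_in g hg x1
    have gy := m4c_in g hg y1
    have v1 : V.valuation (1 : Ω) = 1 := map_one _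
    have hp : V.valuation (g u / u + 1) ≤ 1 :=
      (Valuation.map_add _ _ _).trans (max_le hu1.le v1.le)
    have hq : V.valuation ((g u / u) ^ 2 + g u / u + 1) ≤ 1 := by
      refine (Valuation.map_add _ _ _).trans (max_le ((Valuation.map_add _ _ _).trans (max_le ?_ hu1.le)) v1.le)
      rw [map_pow, hu1, one_pow]
    have d1 : V.valuation (xc (Θ (ac W g P)) - xc (Θ P)) < 1 := by
      have e : xc (Θ (ac W g P)) - xc (Θ P) = (g u / u - 1) * ((g u / u + 1) * g (xc (Θ P))) +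
          (g (xc (Θ P)) - xc (Θ P)) + (g r - r) / u ^ 2 := by
        rw [e1]
        ring
      rw [e]
      refine Valuation.map_add_lt _ (Valuation.map_add_lt _ (m4c_lt s1 ?_) (hg _ x1)) s2
      rw [map_mul]
      exact mul_le_one' hp gx
    have d2 : V.valuation (yc (Θ (ac W g P)) - yc (Θ P)) < 1 := by
      have e : yc (Θ (ac W g P)) - yc (Θ P) = (g u / u - 1) * (((g u / u) ^ 2 + g u / u + 1) * g (yc (Θ P))) +
          (g (yc (Θ P)) - yc (Θ P)) + (g u ^ 2 * (g s - s) / u ^ 3) * g (xc (Θ P)) +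
          (g t - t - s * (g r - r)) / u ^ 3 := by
        rw [f1]
        ring
      rw [e]
      refine Valuation.map_add_lt _ (Valuation.map_add_lt _ (Valuation.map_add_lt _ (m4c_lt s1 ?_) (hg _ y1))
        (m4c_lt s3 gx)) s4
      rw [map_mul]
      exact mul_le_one' hq gy
    have hK' : ¬ Ker V (Θ (ac W g P)) := by
      rw [ker_crd hΘg, not_lt]
      have e : xc (Θ (ac W g P)) = (xc (Θ (ac W g P)) - xc (Θ P)) + xc (Θ P) := by ring
      rw [e]
      exact (Valuation.map_add _ _ _).trans (max_le d1.le ((V.valuation_le_one_iff _).2 x1))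
    exact cong_ker hW hK' hK d1 d2

end H55K.MG
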