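import Mathlib
import Pool.Agent.Lib.H55K.M0
import Pool.Agent.Lib.H55P.Stm

/-! # H55K: part T: bad reduction stays bad in p-extensions (definitions) -/

open NumberField IsDedekindDomain WeierstrassCurve

namespace H55K.TQ

open H55P (IQ embF eF LF Per IsHecke Pt ac Inert Dec Nm UnitP)
open H35P (WAB Ker tt GoodW IntW)
open H55K.MG (VC Crd)

/-- W (over Ω) has a good equation at V after a change of variables with coefficients in the set M. -/
def GMd {Ω : Type} [Field Ω] (W : WeierstrassCurve Ω) (V : ValuationSubring Ω) (M : Set Ω) : Prop :=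
  ∃ (W' : WeierstrassCurve Ω) (u r s t : Ω), u ∈ M ∧ r ∈ M ∧ s ∈ M ∧ t ∈ M ∧ VC W W' u r s t ∧ GoodW W' V

end H55K.TQ
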