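import Mathlib
import Pool.Agent.Lib.H55K.M1B
import Pool.Agent.Lib.H55K.M3B
import Pool.Agent.Lib.H55K.M4C
import Pool.Agent.Lib.H55K.T0

/-! # H55K: good reduction over M: inertia acts trivially on torsion points -/

open NumberField IsDedekindDomain WeierstrassCurve

namespace H55K.TQ

open H55P (IQ embF eF LF Per IsHecke Pt ac Inert Dec Nm UnitP)
open H35P (WAB Ker tt GoodW IntW)
open H55K.MG (VC Crd)

variable {F : Type} [Field F] [NumberField F] {Ω : Type} [Field Ω] [DecidableEq Ω] [Algebra F Ω]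

/-- Chunk T1 (S/M). Θ from MG.vc_iso (Δ ≠ 0; W'.Δ ≠ 0: GoodW). s fixes u, r, s, t (they are in M). MG.inert_ker (M4C.lean): the four values are V(0) < 1 (s u / u = 1), so Ker V (Θ (ac W g T - T)); n • (ac T - T) = 0, MG.kg_tors. -/
theorem inert_triv {W : WeierstrassCurve F} (hΔ : W.Δ ≠ 0) {V : ValuationSubring Ω} {M : Set Ω}
    (h : GMd (W⁄Ω) V M) (g : Ω ≃ₐ[F] Ω) (hM : ∀ x ∈ M, g x = x) (hg : Inert V g) (n : ℕ)
    (hn : V.valuation (n : Ω) = 1) (T : Pt W Ω) (hT : n • T = 0) : ac W g T = T := by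
  obtain ⟨W', u, r, s, t, hu, hr, hs, ht, hv, hG⟩ := h
  have h1 : (W⁄Ω).Δ ≠ 0 := by
    have e : (W⁄Ω).Δ = algebraMap F Ω W.Δ := W.map_Δ (algebraMap F Ω)
    rw [e]
    exact (map_ne_zero _).2 hΔ
  have h2 : W'.Δ ≠ 0 := by
    intro h0
    have h3 := hG.disc
    rw [h0, map_zero] at h3
    exact zero_ne_one h3
  obtain ⟨Θ, hc⟩ := MG.vc_iso hv h1 h2
  have hK := MG.inert_ker hv.une hG hc g hg (by
    rw [hM u hu, hM r hr, hM s hs, hM t ht, div_self hv.une, sub_self, sub_self, sub_self, sub_self, zero_div,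
      mul_zero, zero_div, mul_zero, sub_zero, zero_div, map_zero]
    exact ⟨zero_lt_one, zero_lt_one, zero_lt_one, zero_lt_one⟩) T
  have h4 : n • (ac W g T - T) = 0 := by
    rw [smul_sub, ← map_nsmul, hT, map_zero, sub_zero]
  exact sub_eq_zero.1 (MG.kg_tors hG hn hK h4)

end H55K.TQ
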