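import Mathlib
import Pool.Agent.Lib.H35P.B1
import Pool.Agent.Lib.H35P.Red

open NumberField WeierstrassCurve

namespace H55K.MG

open H35P (WAB Ker GoodW IntW)

variable {Ω : Type} [Field Ω] [IsAlgClosed Ω] {V : ValuationSubring Ω}

/-! Chunk M2B (M), Deuring form. V(2) < 1, so V(3) = V(1 + 2) = 1. w a root of X (X - 24)^3 - jj (X - 27), monic of degree 4 with coefficients in V, so w in V (w^4 = -(sum of c_i w^i), V(w) > 1 impossible). If V(w - 27) < 1 then
V(w) = V(27) = 1, V(w - 24) = V(3 + (w - 27)) = 1, so V(w (w-24)^3) = 1 but V(jj (w - 27)) < 1: contradiction. So V(w - 27) = 1. α with α^3 = w (IsAlgClosed.exists_pow_nat_eq), α in V. W' = ⟨α, 0, 1, 0, 0⟩ (a1 = α, a2 = 0, a3 = 1, a4 = 0,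
a6 = 0): Δ = α^3 - 27, c4 = α (α^3 - 24), c4^3 = w (w - 24)^3 = jj Δ (ring after unfolding). -/

open Polynomial in
omit [IsAlgClosed Ω] in
theorem m2b_deg (jj : Ω) :
    (X * (X - C 24) ^ 3 - C jj * (X - C 27) : Polynomial Ω).natDegree = 4 := by
  have e : (X * (X - C 24) ^ 3 - C jj * (X - C 27) : Polynomial Ω) =
      X ^ 4 + (C (-72) * X ^ 3 + C 1728 * X ^ 2 + C (-13824 - jj) * X + C (27 * jj)) := by
    simp only [map_sub, map_neg, map_mul, map_ofNat]
    ring
  rw [e]
  compute_degree!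

omit [IsAlgClosed Ω] in
theorem m2b_w (h2 : V.valuation (2 : Ω) < 1) {jj w : Ω} (hj : jj ∈ V)
    (hw : w * (w - 24) ^ 3 = jj * (w - 27)) : V.valuation w ≤ 1 ∧ V.valuation (w - 27) = 1 := by
  have hnat : ∀ n : ℕ, V.valuation (n : Ω) ≤ 1 := by
    intro n
    rw [V.valuation_le_one_iff]
    exact natCast_mem V n
  have h24 : V.valuation (24 : Ω) ≤ 1 := by exact_mod_cast hnat 24
  have h27 : V.valuation (27 : Ω) ≤ 1 := by exact_mod_cast hnat 27
  have hjj : V.valuation jj ≤ 1 := (V.valuation_le_one_iff _).2 hj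
  have h3 : V.valuation (3 : Ω) = 1 := by
    have e : (3 : Ω) = 1 + 2 := by norm_num
    rw [e, Valuation.map_add_eq_of_lt_left _ (by rwa [map_one]), map_one]
  have h1 : V.valuation w ≤ 1 := by
    by_contra hcon
    rw [not_le] at hcon
    have e1 : V.valuation (w - 24) = V.valuation w :=
      Valuation.map_sub_eq_of_lt_left _ (h24.trans_lt hcon)
    have e2 : V.valuation (w - 27) = V.valuation w :=
      Valuation.map_sub_eq_of_lt_left _ (h27.trans_lt hcon)
    have e3 := congrArg V.valuation hw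
    rw [map_mul, map_pow, map_mul, e1, e2] at e3
    have h0 : 0 < V.valuation w := zero_lt_one.trans hcon
    have e4 : V.valuation w * V.valuation w ^ 3 ≤ V.valuation w := by
      rw [e3]
      exact mul_le_of_le_one_left' hjj
    have e5 : V.valuation w < V.valuation w * V.valuation w ^ 3 :=
      lt_mul_of_one_lt_right h0 (one_lt_pow₀ hcon (by norm_num))
    exact absurd e4 (not_le.2 e5)
  refine ⟨h1, ?_⟩
  have h4 : V.valuation (w - 27) ≤ 1 := V.valuation.map_sub_le h1 h27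
  refine le_antisymm h4 (not_lt.1 fun hlt => ?_)
  have e27 : V.valuation (27 : Ω) = 1 := by
    have e : (27 : Ω) = 3 * 3 * 3 := by norm_num
    rw [e]
    simp only [map_mul, h3, one_mul]
  have ew : V.valuation w = 1 := by
    have e : w = 27 + (w - 27) := by ring
    rw [e, Valuation.map_add_eq_of_lt_left _ (by rwa [e27]), e27]
  have ew24 : V.valuation (w - 24) = 1 := by
    have e : w - 24 = 3 + (w - 27) := by ring
    rw [e, Valuation.map_add_eq_of_lt_left _ (by rwa [h3]), h3]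
  have e3 := congrArg V.valuation hw
  rw [map_mul, map_pow, map_mul, ew, ew24, one_pow, one_mul] at e3
  have e4 : V.valuation jj * V.valuation (w - 27) < 1 :=
    mul_lt_one_of_nonneg_of_lt_one_right hjj zero_le hlt
  rw [← e3] at e4
  exact lt_irrefl _ e4

theorem deuring (h2 : V.valuation (2 : Ω) < 1) {jj : Ω} (hj : jj ∈ V) :
    ∃ W' : WeierstrassCurve Ω, GoodW W' V ∧ W'.c₄ ^ 3 = jj * W'.Δ := by
  obtain ⟨w, hw⟩ := IsAlgClosed.exists_root
    (Polynomial.X * (Polynomial.X - Polynomial.C 24) ^ 3 -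
      Polynomial.C jj * (Polynomial.X - Polynomial.C 27) : Polynomial Ω)
    (Polynomial.degree_ne_of_natDegree_ne (by rw [m2b_deg]; norm_num))
  have hw' : w * (w - 24) ^ 3 = jj * (w - 27) := by
    rw [Polynomial.IsRoot] at hw
    simp only [Polynomial.eval_sub, Polynomial.eval_mul, Polynomial.eval_pow, Polynomial.eval_X,
      Polynomial.eval_C] at hw
    exact sub_eq_zero.1 hw
  obtain ⟨h1, h3⟩ := m2b_w h2 hj hw'
  obtain ⟨α, hα⟩ := IsAlgClosed.exists_pow_nat_eq w (n := 3) (by norm_num)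
  have hαV : α ∈ V := by
    rw [← V.valuation_le_one_iff]
    rw [← hα, map_pow] at h1
    exact (pow_le_one_iff (by norm_num)).1 h1
  have hΔ : (⟨α, 0, 1, 0, 0⟩ : WeierstrassCurve Ω).Δ = w - 27 := by
    rw [← hα]
    simp only [WeierstrassCurve.Δ, WeierstrassCurve.b₂, WeierstrassCurve.b₄, WeierstrassCurve.b₆,
      WeierstrassCurve.b₈]
    ring
  refine ⟨⟨α, 0, 1, 0, 0⟩, ⟨⟨hαV, V.zero_mem, V.one_mem, V.zero_mem, V.zero_mem⟩, ?_⟩, ?_⟩
  · rw [hΔ]
    exact h3
  · rw [hΔ, ← hw', ← hα]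
    simp only [WeierstrassCurve.c₄, WeierstrassCurve.b₂, WeierstrassCurve.b₄]
    ring

end H55K.MG
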