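import Mathlib
import Pool.Agent.Lib.H55K.D2
import Pool.Agent.Lib.H55K.M0
import Pool.Agent.Lib.H55K.M2B
import Pool.Agent.Lib.H55P.GenStm
import Pool.Agent.Lib.H55P.Z10

/-! # H55K: the hypotheses on the curve -/

open NumberField IsDedekindDomain WeierstrassCurve

namespace H55K.TQ

open H55P (IQ embF eF LF Per IsHecke Pt ac Inert Dec Nm UnitP)
open H35P (WAB Ker tt GoodW IntW)
open H55K.MG (VC Crd)

/-- W₀ is an equation over the integers of F of an elliptic curve with complex multiplication by the integers of F and ψ is its Hecke character: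
the period lattice is Om times the lattice of integers, the numbers of points modulo the primes v not dividing the discriminant are the norms of 1 - ψ(v), the prime divisors of the
modulus are those of the discriminant, and they are primes of bad reduction. -/
structure BaseH (F : Type) [Field F] [NumberField F] [IQ F] (W₀ : WeierstrassCurve (𝓞 F)) (Om : ℂ)
    (m : Ideal (𝓞 F)) (ψ : Ideal (𝓞 F) →*₀ 𝓞 F) : Prop where
  data : H55P.CMData F W₀ Om m ψ
  deu : ∀ v : HeightOneSpectrum (𝓞 F), W₀.Δ ∉ v.asIdeal →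
    Nat.card (W₀⁄(𝓞 F ⧸ v.asIdeal)).toAffine.Point = Nm (1 - ψ v.asIdeal)
  supp : ∀ v : HeightOneSpectrum (𝓞 F), W₀.Δ ∈ v.asIdeal ↔ m ≤ v.asIdeal
  bad : ∀ v : HeightOneSpectrum (𝓞 F), W₀.Δ ∈ v.asIdeal → ¬ GoodAt (W₀⁄F) v

/-- p is a prime number ≥ 5, unramified in F, prime to the discriminant of W₀. -/
structure PrimeH (F : Type) [Field F] [NumberField F] (W₀ : WeierstrassCurve (𝓞 F)) (p : ℕ) : Prop where
  prime : p.Prime
  five : 5 ≤ p
  unr : H55P.UnrP p F
  cop : IsCoprime (Ideal.span {W₀.Δ}) (Ideal.span {(p : 𝓞 F)})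

/-- No prime of F which does not divide the discriminant and at which the number of points is divisible by p is ramified in K. -/
def NoAn {F : Type} [Field F] [NumberField F] {Ω : Type} [Field Ω] [Algebra F Ω] (p : ℕ) (W₀ : WeierstrassCurve (𝓞 F))
    (K : IntermediateField F Ω) : Prop :=
  ∀ v : HeightOneSpectrum (𝓞 F), H55P.RamF K v.asIdeal → W₀.Δ ∉ v.asIdeal →
    ¬ p ∣ Nat.card (W₀⁄(𝓞 F ⧸ v.asIdeal)).toAffine.Point

end H55K.TQ
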