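import Mathlib
import Pool.Agent.Lib.H55K.C2

namespace H55K.CC

/-! Chunk C3 (S): differentiate E1 at z (E1 holds in a neighbourhood of z since {β t not in Λ} is open: H35P.compl_open): HasDerivAt of both sides (H35P.wp_hasDeriv, chain rule, HasDerivAt.fun_sum),
HasDerivAt.unique after congr_of_eventuallyEq. -/

theorem E1d {L : PeriodPair} {β : ℂ} {S : Finset ℂ} (h : Rep L β S) {z : ℂ} (hz : β * z ∉ L.lattice) :
    β ^ 3 * L.derivWeierstrassP (β * z) =
      L.derivWeierstrassP z + ∑ r ∈ S, L.derivWeierstrassP (z + r) := by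
  have hz0 := h.z_out hz
  have hL : HasDerivAt (fun t => β ^ 2 * L.weierstrassP (β * t))
      (β ^ 2 * (L.derivWeierstrassP (β * z) * β)) z := by
    have h1 := H35P.wp_hasDeriv L (β * z) hz
    have h2 : HasDerivAt (fun t : ℂ => β * t) β z := by
      simpa using (hasDerivAt_id z).const_mul β
    exact (HasDerivAt.comp z h1 h2).const_mul (β ^ 2)
  have hR : HasDerivAt (fun t => L.weierstrassP t +
      ∑ r ∈ S, (L.weierstrassP (t + r) - L.weierstrassP r))
      (L.derivWeierstrassP z + ∑ r ∈ S, L.derivWeierstrassP (z + r)) z := by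
    refine (H35P.wp_hasDeriv L z hz0).add (HasDerivAt.fun_sum fun r hr => ?_)
    exact ((H35P.wp_hasDeriv L (z + r) (h.zr_out hz hr)).comp_add_const z r).sub_const _
  have hev : (fun t => β ^ 2 * L.weierstrassP (β * t)) =ᶠ[nhds z]
      (fun t => L.weierstrassP t + ∑ r ∈ S, (L.weierstrassP (t + r) - L.weierstrassP r)) := by
    have hopen : IsOpen {t : ℂ | β * t ∉ L.lattice} :=
      (H35P.compl_open L).preimage (by fun_prop)
    filter_upwards [hopen.mem_nhds hz] with t ht
    exact E1 h ht
  have h3 := hL.unique (hR.congr_of_eventuallyEq hev)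
  rw [← h3]
  ring

end H55K.CC
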