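import Mathlib
import Pool.Agent.Lib.H55K.C3
import Pool.Agent.Lib.H55K.C14
import Pool.Agent.Lib.H55K.C15

open NumberField WeierstrassCurve Polynomial

namespace H55K.CC

open H55P (IQ embF eF LF Per Pt ac mem_LF eF_inj eF_ne Nm Nm_eq)
open H35P (WAB)

variable {F : Type} [Field F] [NumberField F] [IQ F] {Ω : Type} [Field Ω] [DecidableEq Ω] [Algebra F Ω]
  {A B : F} {Om : ℂ} {j : Ω →+* ℂ}

/-! Chunk C16 (M). If e(a) z in Λ (in particular if a = 0): Q = 0. Otherwise a <> 0, S from exists_Rep; for r in S a point T_r with U T_r r (U_tors, lat_nm); z + r not in Λ (Rep.zr_out), so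
XL(z + r) = j(xc(P + T_r)), YL(z + r) = j(yc(P + T_r)) (U_add, U.xc_eq, U.yc_eq). E1, E1d divided by Om^2, 2 Om^3: XL(e(a) z), YL(e(a) z) are in the range of j (e(a) = j(ak Ω a): h.ovr), a subring closed under
division (write them as j of explicit elements; j(∑ ..) = ∑ j(..), map_div₀). U_alg. -/

theorem U_act [IsAlgClosed Ω] (h : CH A B Om j) (a : 𝓞 F) {P : Pt (WAB A B) Ω} {z : ℂ} (hP : U A B Om j P z) :
    ∃ Q, U A B Om j Q (eF F a * z) := by
  classical
  by_cases hz : eF F a * z ∈ (LF F).lattice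
  · exact ⟨0, Or.inl ⟨rfl, hz⟩⟩
  have ha : a ≠ 0 := by
    rintro rfl
    apply hz
    rw [map_zero, zero_mul]
    exact zero_mem _
  obtain ⟨S, hS⟩ := exists_Rep ha
  have hT : ∀ r, r ∈ S → ∃ T, U A B Om j T r := by
    intro r hr
    obtain ⟨h1, h2⟩ := lat_nm ha (hS.mem r hr)
    exact U_tors h h1 h2
  choose! T hT using hT
  have hz0 := hS.z_out hz
  have e0 : j (algebraMap F Ω (a : F)) = eF F a := h.ovr (a : F)
  have hb : eF F a ≠ 0 := eF_ne ha
  have hx : j ((xc P + ∑ r ∈ S, (xc (P + T r) - xc (T r))) / algebraMap F Ω (a : F) ^ 2) =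
      XL (LF F) Om (eF F a * z) := by
    rw [map_div₀, map_add, map_pow, map_sum, e0, hP.xc_eq hz0]
    have e1 : ∀ r ∈ S, j (xc (P + T r) - xc (T r)) = XL (LF F) Om (z + r) - XL (LF F) Om r := by
      intro r hr
      rw [map_sub, (U_add h hP (hT r hr)).xc_eq (hS.zr_out hz hr), (hT r hr).xc_eq (hS.out r hr)]
    rw [Finset.sum_congr rfl e1, div_eq_iff (pow_ne_zero 2 hb)]
    have e2 := E1 hS hz
    unfold XL
    rw [div_mul_eq_mul_div, mul_comm _ (eF F a ^ 2), e2, add_div, Finset.sum_div]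
    congr 1
    exact Finset.sum_congr rfl fun r _ => by rw [sub_div]
  have hy : j ((yc P + ∑ r ∈ S, yc (P + T r)) / algebraMap F Ω (a : F) ^ 3) =
      YL (LF F) Om (eF F a * z) := by
    rw [map_div₀, map_add, map_pow, map_sum, e0, hP.yc_eq hz0]
    have e1 : ∀ r ∈ S, j (yc (P + T r)) = YL (LF F) Om (z + r) := by
      intro r hr
      rw [(U_add h hP (hT r hr)).yc_eq (hS.zr_out hz hr)]
    rw [Finset.sum_congr rfl e1, div_eq_iff (pow_ne_zero 3 hb)]
    have e2 := E1d hS hz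
    unfold YL
    rw [div_mul_eq_mul_div, mul_comm _ (eF F a ^ 3), e2, add_div, Finset.sum_div]
  exact U_alg h hz hx hy

end H55K.CC
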