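import Mathlib
import Pool.Agent.Lib.H55K.C16

open NumberField WeierstrassCurve Polynomial

namespace H55K.CC

open H55P (IQ embF eF LF Per Pt ac mem_LF eF_inj eF_ne Nm Nm_eq)
open H35P (WAB)

variable {F : Type} [Field F] [NumberField F] [IQ F] {Ω : Type} [Field Ω] [DecidableEq Ω] [Algebra F Ω]
  {A B : F} {Om : ℂ} {j : Ω →+* ℂ}

/-! Chunk C17 (S/M). Choose z for every P (U_ex) and act a P with U (act a P) (e(a) z) (U_act). If U P z' then z - z' in Λ (U_mod), e(a) (z - z') in Λ (mem_LF), so U (act a P) (e(a) z') (U_mod).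
All the identities (act a (P + Q) = act a P + act a Q, act (a + b) P, act (a b) P, act 1 P, act 0 P = 0) by U_inj: both sides have the same parameter (U_add; U 0 0). AddMonoidHom.mk', RingHom structure on
AddMonoid.End (mul is composition). -/

theorem exists_act [IsAlgClosed Ω] (h : CH A B Om j) :
    ∃ act : 𝓞 F →+* AddMonoid.End (Pt (WAB A B) Ω), Act A B Om j act := by
  have hz : ∀ P : Pt (WAB A B) Ω, ∃ z, U A B Om j P z := U_ex h
  choose ζ hζ using hz
  have hf : ∀ (a : 𝓞 F) (P : Pt (WAB A B) Ω), ∃ Q : Pt (WAB A B) Ω, U A B Om j Q (eF F a * ζ P) :=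
    fun a P => U_act h a (hζ P)
  choose f hf using hf
  have hu : ∀ (a : 𝓞 F) (P : Pt (WAB A B) Ω) (z : ℂ), U A B Om j P z → U A B Om j (f a P) (eF F a * z) := by
    intro a P z hP
    rw [U_mod h (hf a P)]
    have h1 := (U_mod h (hζ P)).1 hP
    obtain ⟨y, hy⟩ := (mem_LF _).1 h1
    rw [← mul_sub, hy, ← map_mul]
    exact (mem_LF _).2 ⟨a * y, rfl⟩
  have h0 : U A B Om j (0 : Pt (WAB A B) Ω) 0 := Or.inl ⟨rfl, zero_mem _⟩
  have hadd : ∀ (a : 𝓞 F) (P Q : Pt (WAB A B) Ω), f a (P + Q) = f a P + f a Q := by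
    intro a P Q
    have h1 := hu a (P + Q) _ (U_add h (hζ P) (hζ Q))
    have h2 := U_add h (hf a P) (hf a Q)
    rw [← mul_add] at h2
    exact U_inj h h1 h2
  let g : 𝓞 F → AddMonoid.End (Pt (WAB A B) Ω) := fun a => AddMonoidHom.mk' (f a) (hadd a)
  have hg : ∀ a P, g a P = f a P := fun a P => rfl
  refine ⟨{ toFun := g, map_one' := ?_, map_mul' := ?_, map_zero' := ?_, map_add' := ?_ }, ?_⟩
  · refine AddMonoidHom.ext fun P => ?_
    have h1 := hf 1 P
    rw [map_one, one_mul] at h1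
    exact U_inj h h1 (hζ P)
  · intro a b
    refine AddMonoidHom.ext fun P => ?_
    have h1 := hf (a * b) P
    have h2 := hu a _ _ (hf b P)
    rw [map_mul, mul_assoc] at h1
    exact U_inj h h1 h2
  · refine AddMonoidHom.ext fun P => ?_
    have h1 := hf 0 P
    rw [map_zero, zero_mul] at h1
    exact U_inj h h1 h0
  · intro a b
    refine AddMonoidHom.ext fun P => ?_
    have h1 := hf (a + b) P
    have h2 := U_add h (hf a P) (hf b P)
    rw [map_add, add_mul] at h1
    exact U_inj h h1 h2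
  · intro a P z hP
    exact hu a P z hP

end H55K.CC
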