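import Mathlib
import Pool.Agent.Lib.H55K.C14
import Pool.Agent.Lib.H55K.C15
import Pool.Agent.Lib.H55P.S5

open NumberField WeierstrassCurve Polynomial

namespace H55K.CC

open H55P (IQ embF eF LF Per Pt ac mem_LF eF_inj eF_ne Nm Nm_eq)
open H35P (WAB)

variable {F : Type} [Field F] [NumberField F] [IQ F] {Ω : Type} [Field Ω] [DecidableEq Ω] [Algebra F Ω]
  {A B : F} {Om : ℂ} {j : Ω →+* ℂ} {act : 𝓞 F →+* AddMonoid.End (Pt (WAB A B) Ω)}

/-! Chunk C18 (S/M). act_surj: n = Nm b > 0 is b c (Ideal.absNorm_mem); P = n • P' by H55P.div_pt (the curve is elliptic: Δ = -16 (4A^3 + 27B^2), see Lib/H35P/B1.lean B1_delta; CharZero Ω: charZero_of_injective_algebraMap), so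
P = act (n) P' = act b (act c P') (map_natCast, map_mul). act_gen: T0 with U T0 (1/e(b)) (U_tors, lat_nm). T in Tor act b, U T w (U_ex): U 0 (e(b) w), so e(b) w = e(a) (mem_LF), and T, act a T0 have the same
parameter e(a)/e(b) = w (U_inj). act a T0 = 0 iff e(a)/e(b) in Λ iff b | a (U.zero_iff, mem_LF, eF_inj). Coordinates: U.xc_eq, U.yc_eq, unfold XL YL. -/

omit [DecidableEq Ω] in
theorem c18_ell (h : CH A B Om j) : (WAB A B).IsElliptic := by
  refine ⟨isUnit_iff_ne_zero.2 ?_⟩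
  have h1 : (WAB A B).Δ = -16 * (4 * A ^ 3 + 27 * B ^ 2) := by
    unfold WeierstrassCurve.Δ WeierstrassCurve.b₂ WeierstrassCurve.b₄ WeierstrassCurve.b₆ WeierstrassCurve.b₈ WAB
    ring
  rw [h1]
  exact mul_ne_zero (by norm_num) h.disc

theorem act_surj [IsAlgClosed Ω] [Algebra.IsAlgebraic F Ω] (h : CH A B Om j) {b : 𝓞 F} (hb : b ≠ 0)
    (P : Pt (WAB A B) Ω) : ∃ Q, act b Q = P := by
  have hE := c18_ell h
  have hchar : CharZero Ω := charZero_of_injective_algebraMap (algebraMap F Ω).injective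
  have hn : 0 < Nm b := Nat.pos_of_ne_zero fun h => hb (H55P.Nm_eq_zero.1 h)
  obtain ⟨P', hP'⟩ := H55P.div_pt (WAB A B) (Nm b) hn P
  have h1 : (Nm b : 𝓞 F) ∈ Ideal.span {b} := Ideal.absNorm_mem (Ideal.span {b})
  rw [Ideal.mem_span_singleton] at h1
  obtain ⟨c, hc⟩ := h1
  refine ⟨act c P', ?_⟩
  have h2 : act (b * c) P' = act b (act c P') := by
    rw [map_mul]
    rfl
  rw [← h2, ← hc, map_natCast, ← hP']
  rfl

theorem act_gen [IsAlgClosed Ω] (h : CH A B Om j) (hact : Act A B Om j act) {b : 𝓞 F} (hb : b ≠ 0) :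
    ∃ T₀ ∈ Tor act b, (∀ T ∈ Tor act b, ∃ a, T = act a T₀) ∧
    (∀ a, act a T₀ = 0 ↔ b ∣ a) ∧ ∀ a, ¬ b ∣ a →
      j (xc (act a T₀)) = (LF F).weierstrassP (eF F a / eF F b) / Om ^ 2 ∧
      j (yc (act a T₀)) = (LF F).derivWeierstrassP (eF F a / eF F b) / (2 * Om ^ 3) := by
  have hb' : eF F b ≠ 0 := eF_ne hb
  have h1 : eF F b * (1 / eF F b) ∈ (LF F).lattice := by
    rw [mul_one_div_cancel hb', mem_LF]
    exact ⟨1, (map_one _).symm⟩
  obtain ⟨hn, hn'⟩ := lat_nm hb h1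
  obtain ⟨T₀, hT₀⟩ := U_tors h hn hn'
  have hU : ∀ a, U A B Om j (act a T₀) (eF F a / eF F b) := by
    intro a
    have := hact a T₀ _ hT₀
    rwa [mul_one_div] at this
  have hdvd : ∀ a, act a T₀ = 0 ↔ b ∣ a := by
    intro a
    rw [(hU a).zero_iff, mem_LF]
    constructor
    · rintro ⟨y, hy⟩
      rw [div_eq_iff hb', ← map_mul] at hy
      exact ⟨y, by rw [eF_inj hy, mul_comm]⟩
    · rintro ⟨y, rfl⟩
      exact ⟨y, by rw [map_mul, mul_div_cancel_left₀ _ hb']⟩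
  refine ⟨T₀, ?_, ?_, hdvd, ?_⟩
  · exact (hdvd b).2 dvd_rfl
  · intro T hT
    obtain ⟨w, hw⟩ := U_ex h T
    have h2 := hact b T w hw
    have h3 : act b T = 0 := hT
    rw [h3] at h2
    have h4 := h2.zero_iff.1 rfl
    rw [mem_LF] at h4
    obtain ⟨a, ha⟩ := h4
    refine ⟨a, U_inj h hw ?_⟩
    have h5 := hU a
    rwa [← ha, mul_div_cancel_left₀ _ hb'] at h5
  · intro a ha
    rcases hU a with ⟨h2, -⟩ | ⟨-, -, h3, h4⟩
    · exact absurd ((hdvd a).1 h2) ha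
    · exact ⟨h3, h4⟩

end H55K.CC
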