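import Mathlib
import Pool.Agent.Lib.H55K.C14
import Pool.Agent.Lib.H55K.C15

open NumberField WeierstrassCurve Polynomial

namespace H55K.CC

open H55P (IQ embF eF LF Per Pt ac mem_LF eF_inj eF_ne Nm Nm_eq)
open H35P (WAB)

variable {F : Type} [Field F] [NumberField F] [IQ F] {Ω : Type} [Field Ω] [DecidableEq Ω] [Algebra F Ω]
  {A B : F} {Om : ℂ} {j : Ω →+* ℂ} {act : 𝓞 F →+* AddMonoid.End (Pt (WAB A B) Ω)}

/-! Chunk C19 (S/M). ζ by choice from U_ex. T in S: act b T = 0 and T <> 0, so e(b) ζ T in Λ, ζ T not in Λ (U.zero_iff, hact). ζ T - ζ T' in Λ gives T = T' (U_mod, U_inj). ex: w with e(b) w in Λ, w not in Λ: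
a point T with U T w (U_tors, lat_nm), T in S, w - ζ T in Λ (U_mod). -/

theorem TN_rep [IsAlgClosed Ω] (h : CH A B Om j) (hact : Act A B Om j act) {b : 𝓞 F} (hb : b ≠ 0)
    {S : Finset (Pt (WAB A B) Ω)} (hS : TN act b S) : ∃ (ζ : Pt (WAB A B) Ω → ℂ) (R : Finset ℂ),
      (∀ T, U A B Om j T (ζ T)) ∧ Rep (LF F) (eF F b) R ∧ (∀ φ : ℂ → ℂ, ∑ r ∈ R, φ r = ∑ T ∈ S, φ (ζ T)) ∧
      ∀ φ : ℂ → ℂ, ∏ r ∈ R, φ r = ∏ T ∈ S, φ (ζ T) := by
  classical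
  have hz : ∀ P : Pt (WAB A B) Ω, ∃ z, U A B Om j P z := U_ex h
  choose ζ hζ using hz
  have hb0 : eF F b ≠ 0 := eF_ne hb
  have hkill : ∀ T : Pt (WAB A B) Ω, act b T = 0 ↔ eF F b * ζ T ∈ (LF F).lattice := fun T =>
    (hact b T _ (hζ T)).zero_iff
  have hinj : ∀ T T' : Pt (WAB A B) Ω, ζ T - ζ T' ∈ (LF F).lattice → T = T' := by
    intro T T' h1
    exact U_inj h ((U_mod h (hζ T)).2 h1) (hζ T')
  have hinj' : Set.InjOn ζ (S : Set (Pt (WAB A B) Ω)) := by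
    intro T _ T' _ h1
    refine hinj T T' ?_
    rw [h1, sub_self]
    exact zero_mem _
  refine ⟨ζ, S.image ζ, hζ, ⟨hb0, ?_, ?_, ?_, ?_, ?_⟩, fun φ => Finset.sum_image hinj',
    fun φ => Finset.prod_image hinj'⟩
  · intro l hl
    obtain ⟨y, hy⟩ := (mem_LF _).1 hl
    rw [hy, ← map_mul]
    exact (mem_LF _).2 ⟨b * y, rfl⟩
  · intro r hr
    obtain ⟨T, hT, rfl⟩ := Finset.mem_image.1 hr
    exact (hkill T).1 ((hS T).1 hT).1
  · intro r hr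
    obtain ⟨T, hT, rfl⟩ := Finset.mem_image.1 hr
    intro h1
    exact ((hS T).1 hT).2 ((hζ T).zero_iff.2 h1)
  · intro r hr r' hr' h1
    obtain ⟨T, hT, rfl⟩ := Finset.mem_image.1 hr
    obtain ⟨T', hT', rfl⟩ := Finset.mem_image.1 hr'
    rw [hinj T T' h1]
  · intro w hw
    by_cases hw0 : w ∈ (LF F).lattice
    · exact Or.inl hw0
    · right
      obtain ⟨h1, h2⟩ := lat_nm hb hw
      obtain ⟨T, hT⟩ := U_tors h h1 h2
      have hT0 : T ≠ 0 := fun h3 => hw0 (hT.zero_iff.1 h3)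
      have hTb : act b T = 0 := (hact b T _ hT).zero_iff.2 hw
      refine ⟨ζ T, Finset.mem_image_of_mem _ ((hS T).2 ⟨hTb, hT0⟩), ?_⟩
      exact (U_mod h hT).1 (hζ T)

end H55K.CC
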