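import Mathlib
import Pool.Agent.Lib.H28G.GB2
import Pool.Agent.Lib.H55K.C0

namespace H55K.CC

open H28G (Od)

/-! Chunk C4 (M). od_wp: z in Λ: for t near z, t <> z: wp t = wp(t - z) = ((t-z)^2)^(-1) + u(t - z) (H35P.wp_zero, wp_per), so wp t - wp w = (t-z)^(-2) (1 + (t-z)^2 (u(t-z) - wp w)).
z not in Λ, z - w or z + w in Λ: wp z = wp w (wp_per, L.weierstrassP_neg), the derivative wp' z is not 0 by H35P.wpd_ne (2 z is not in Λ since 2 w is not): H28G.Od.of_simple.
Otherwise wp z <> wp w by H35P.wp_ne: H28G.Od.of_ne. ind_wp: case distinctions (w, 2w not in Λ: the three conditions exclude each other). -/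

open Classical in
theorem od_wp (L : PeriodPair) {w : ℂ} (hw : w ∉ L.lattice) (h2 : 2 * w ∉ L.lattice) (z : ℂ) :
    Od (fun t => L.weierstrassP t - L.weierstrassP w) z
      (if z ∈ L.lattice then -2 else if z - w ∈ L.lattice ∨ z + w ∈ L.lattice then 1 else 0) := by
  by_cases hz : z ∈ L.lattice
  · rw [if_pos hz]
    obtain ⟨u, hu, hu0, hu1⟩ := H35P.wp_zero L
    refine ⟨fun t => 1 + (t - z) ^ 2 * (u (t - z) - L.weierstrassP w), ?_, ?_, ?_⟩
    · have h1 : AnalyticAt ℂ (fun t : ℂ => t - z) z := analyticAt_id.sub analyticAt_const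
      have h2 : AnalyticAt ℂ (fun t : ℂ => u (t - z)) z := by
        refine AnalyticAt.fun_comp ?_ h1
        rwa [sub_self]
      exact analyticAt_const.add ((h1.pow 2).mul (h2.sub analyticAt_const))
    · simp
    · filter_upwards [self_mem_nhdsWithin] with t ht
      have ht0 : t - z ≠ 0 := sub_ne_zero.2 ht
      have h1 : L.weierstrassP t = L.weierstrassP (t - z) := by
        have := wp_per L (t - z) hz
        rwa [sub_add_cancel] at this
      rw [h1, hu1 _ ht0]
      have h2 : (t - z) ^ (-2 : ℤ) = ((t - z) ^ 2)⁻¹ := by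
        rw [zpow_neg]
        rfl
      rw [h2]
      field_simp
      ring
  · rw [if_neg hz]
    have hand : AnalyticAt ℂ (fun t => L.weierstrassP t - L.weierstrassP w) z :=
      (H35P.wp_analytic L z hz).sub analyticAt_const
    by_cases hc : z - w ∈ L.lattice ∨ z + w ∈ L.lattice
    · rw [if_pos hc]
      have hval : L.weierstrassP z = L.weierstrassP w := by
        rcases hc with hc | hc
        · have := wp_per L w hc
          rwa [add_sub_cancel] at this
        · have := wp_per L (-w) hc
          rw [L.weierstrassP_neg] at this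
          have e1 : -w + (z + w) = z := by ring
          rwa [e1] at this
      have h2z : 2 * z ∉ L.lattice := by
        intro h
        apply h2
        rcases hc with hc | hc
        · have h3 := sub_mem (sub_mem h hc) hc
          have e1 : 2 * z - (z - w) - (z - w) = 2 * w := by ring
          rwa [e1] at h3
        · have h3 := sub_mem (add_mem hc hc) h
          have e1 : z + w + (z + w) - 2 * z = 2 * w := by ring
          rwa [e1] at h3
      refine Od.of_simple hand ?_ ?_
      · rw [hval, sub_self]
      · rw [((H35P.wp_hasDeriv L z hz).sub_const _).deriv]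
        exact H35P.wpd_ne L z hz h2z
    · rw [if_neg hc]
      push Not at hc
      exact Od.of_ne hand (sub_ne_zero.2 (H35P.wp_ne L z w hz hw hc.2 hc.1))

open Classical in
theorem ind_wp (L : PeriodPair) {w : ℂ} (hw : w ∉ L.lattice) (h2 : 2 * w ∉ L.lattice) (z : ℂ) :
    (if z ∈ L.lattice then (-2 : ℤ) else if z - w ∈ L.lattice ∨ z + w ∈ L.lattice then 1 else 0) =
    -2 * (if z ∈ L.lattice then 1 else 0) + (if z - w ∈ L.lattice then 1 else 0) +
      (if z + w ∈ L.lattice then 1 else 0) := by
  by_cases hz : z ∈ L.lattice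
  · have h3 : z - w ∉ L.lattice := by
      intro h
      apply hw
      have h4 := sub_mem hz h
      have e1 : z - (z - w) = w := by ring
      rwa [e1] at h4
    have h4 : z + w ∉ L.lattice := by
      intro h
      apply hw
      have h4 := sub_mem h hz
      have e1 : z + w - z = w := by ring
      rwa [e1] at h4
    rw [if_pos hz, if_pos hz, if_neg h3, if_neg h4]
    norm_num
  · rw [if_neg hz, if_neg hz]
    by_cases h3 : z - w ∈ L.lattice
    · have h4 : z + w ∉ L.lattice := by
        intro h
        apply h2
        have h4 := sub_mem h h3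
        have e1 : z + w - (z - w) = 2 * w := by ring
        rwa [e1] at h4
      rw [if_pos (Or.inl h3), if_pos h3, if_neg h4]
      norm_num
    · by_cases h4 : z + w ∈ L.lattice
      · rw [if_pos (Or.inr h4), if_neg h3, if_pos h4]
        norm_num
      · rw [if_neg (not_or.2 ⟨h3, h4⟩), if_neg h3, if_neg h4]
        norm_num

end H55K.CC
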