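import Mathlib
import Pool.Agent.Lib.H55K.C0

namespace H55K.CC

/-! Chunk C5 (S/M). At most one term of the left side is 1: y + r, y + r' in Λ gives r - r' in Λ (h.inj, h.out; r or r' may be 0). If β y in Λ: h.ex for -y gives r in insert 0 S with y + r in Λ.
Conversely y + r in Λ gives β y in Λ (h.st, h.mem). Model: GB3_sum in Lib/H28G/GB3.lean. -/

theorem c5_inj {L : PeriodPair} {β : ℂ} {S : Finset ℂ} (h : Rep L β S) {r r' : ℂ}
    (hr : r ∈ insert 0 S) (hr' : r' ∈ insert 0 S) (hd : r - r' ∈ L.lattice) : r = r' := by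
  rw [Finset.mem_insert] at hr hr'
  rcases hr with rfl | hr
  · rcases hr' with rfl | hr'
    · rfl
    · exfalso
      apply h.out r' hr'
      rw [zero_sub] at hd
      simpa using neg_mem hd
  · rcases hr' with rfl | hr'
    · exfalso
      apply h.out r hr
      rwa [sub_zero] at hd
    · exact h.inj r hr r' hr' hd

open Classical in
theorem count_rep {L : PeriodPair} {β : ℂ} {S : Finset ℂ} (h : Rep L β S) (y : ℂ) :
    (∑ r ∈ insert 0 S, if y + r ∈ L.lattice then (1 : ℤ) else 0) = if β * y ∈ L.lattice then 1 else 0 := by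
  by_cases hQ : β * y ∈ L.lattice
  · rw [if_pos hQ]
    have hex : ∃ r ∈ insert 0 S, y + r ∈ L.lattice := by
      have h1 : β * (-y) ∈ L.lattice := by
        rw [mul_neg]
        exact neg_mem hQ
      rcases h.ex (-y) h1 with h2 | ⟨r, hr, h2⟩
      · refine ⟨0, Finset.mem_insert_self _ _, ?_⟩
        rw [add_zero]
        simpa using neg_mem h2
      · refine ⟨r, Finset.mem_insert_of_mem hr, ?_⟩
        have h3 := neg_mem h2
        have h4 : -(-y - r) = y + r := by ring
        rwa [h4] at h3
    obtain ⟨r, hr, h1⟩ := hex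
    rw [Finset.sum_eq_single_of_mem r hr]
    · exact if_pos h1
    · intro r' hr' hne
      refine if_neg fun h2 => hne (c5_inj h hr' hr ?_)
      have h3 := sub_mem h2 h1
      have h4 : y + r' - (y + r) = r' - r := by ring
      rwa [h4] at h3
  · rw [if_neg hQ]
    refine Finset.sum_eq_zero fun r hr => if_neg fun h2 => hQ ?_
    have h3 := h.st _ h2
    have h4 : β * r ∈ L.lattice := by
      rw [Finset.mem_insert] at hr
      rcases hr with rfl | hr
      · rw [mul_zero]
        exact zero_mem _
      · exact h.mem r hr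
    have h5 := sub_mem h3 h4
    have h6 : β * (y + r) - β * r = β * y := by ring
    rwa [h6] at h5

end H55K.CC
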