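import Mathlib
import Pool.Agent.Lib.H28G.GB2
import Pool.Agent.Lib.H35P.A1

namespace H55K.CC

open H28G (Od)

/-! Chunk C6 (S/M): port of dist_gen in Lib/H28G/GB4.lean. D(z) = G z * (H z)^(-1) is periodic and near every z0 (punctured) equal to an analytic h with h z0 <> 0 (Od.mul, Od.inv, zpow 0). H35P.liouville: one
constant C = h z0 for all z0, C <> 0. For z near z0, z <> z0: h is analytic at z too and D = h on a punctured neighbourhood of z, so D z = h z = C; so H z <> 0 (otherwise D z = 0) and G z = C H z. -/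

theorem quot_const (L : PeriodPair) (G H : ℂ → ℂ) (hG : ∀ z, ∀ l ∈ L.lattice, G (z + l) = G z)
    (hH : ∀ z, ∀ l ∈ L.lattice, H (z + l) = H z) (n : ℂ → ℤ) (nG : ∀ z, Od G z (n z)) (nH : ∀ z, Od H z (n z)) :
    ∃ c : ℂ, c ≠ 0 ∧ ∀ z₀, ∀ᶠ z in nhdsWithin z₀ {z₀}ᶜ, G z = c * H z := by
  set D : ℂ → ℂ := fun z => G z * (H z)⁻¹ with hD
  have hDper : ∀ z, ∀ l ∈ L.lattice, D (z + l) = D z := by
    intro z l hl
    simp only [hD]
    rw [hG z l hl, hH z l hl]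
  have hOd : ∀ z₀, ∃ h : ℂ → ℂ, AnalyticAt ℂ h z₀ ∧ h z₀ ≠ 0 ∧
      ∀ᶠ z in nhdsWithin z₀ {z₀}ᶜ, D z = h z := by
    intro z₀
    obtain ⟨h, ha, h0, hh⟩ := Od.mul (nG z₀) (Od.inv (nH z₀))
    refine ⟨h, ha, h0, ?_⟩
    filter_upwards [hh] with z hz
    rw [add_neg_cancel, zpow_zero, one_mul] at hz
    exact hz
  obtain ⟨C, hC⟩ := H35P.liouville L D hDper fun z₀ => by
    obtain ⟨h, ha, _, hh⟩ := hOd z₀
    exact ⟨h, ha, hh⟩
  have hC0 : C ≠ 0 := by
    obtain ⟨h, ha, h0, hh⟩ := hOd 0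
    rw [← hC 0 h ha.continuousAt hh]
    exact h0
  refine ⟨C, hC0, ?_⟩
  intro z₀
  obtain ⟨h, ha, h0, hh⟩ := hOd z₀
  have h1 : ∀ᶠ z in nhds z₀, AnalyticAt ℂ h z := ha.eventually_analyticAt
  have hh' := hh
  rw [eventually_nhdsWithin_iff] at hh'
  have h2 := hh'.eventually_nhds
  rw [eventually_nhdsWithin_iff] at hh ⊢
  filter_upwards [h1, h2, hh] with z hz1 hz2 hz3 hne
  have hDz : D z = C := by
    rw [hz3 hne]
    apply hC z h hz1.continuousAt
    rw [eventually_nhdsWithin_iff]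
    filter_upwards [hz2, isOpen_ne.mem_nhds hne] with w hw1 hw2 _
    exact hw1 hw2
  have hg : H z ≠ 0 := by
    intro h3
    apply hC0
    rw [← hDz]
    simp only [hD]
    rw [h3, inv_zero, mul_zero]
  rw [← hDz]
  simp only [hD]
  rw [inv_mul_cancel_right₀ hg]

end H55K.CC
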