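import Mathlib
import Pool.Agent.Lib.H55K.C4
import Pool.Agent.Lib.H55K.C5
import Pool.Agent.Lib.H55K.C6

namespace H55K.CC

open H28G (Od)

/-! Chunk C7 (M). G z = product over r in insert 0 S of (wp(z + r) - wp w), H z = wp(β z) - wp(β w), both periodic (wp_per, h.st). w, 2 w are not in Λ (h.st). Orders: G at z0: Od.prod, Od.comp_add, od_wp at z0 + r;
H at z0: Od.comp_mul (h.ne), od_wp at β z0 (for β w). Equal: ind_wp and count_rep for y = z0, z0 - w, z0 + w: (z0 + r) -+ w = (z0 -+ w) + r, β (z0 -+ w) = β z0 -+ β w (Finset.sum_add_distrib, Finset.mul_sum).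
quot_const: G = c H near every point (punctured). Then at z with β z not in Λ both sides are continuous (Rep.z_out, Rep.zr_out), so G z = c H z (tendsto_nhds_unique on nhdsWithin z {z}ᶜ, see GB5_point in
Lib/H28G/GB5.lean). -/

theorem E2_aux {L : PeriodPair} {β : ℂ} {S : Finset ℂ} (h : Rep L β S) {w : ℂ} (hw : β * w ∉ L.lattice)
    (h2 : 2 * (β * w) ∉ L.lattice) : ∃ c : ℂ, c ≠ 0 ∧ ∀ z, β * z ∉ L.lattice →
      ∏ r ∈ insert 0 S, (L.weierstrassP (z + r) - L.weierstrassP w) =
        c * (L.weierstrassP (β * z) - L.weierstrassP (β * w)) := by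
  classical
  have hw0 : w ∉ L.lattice := h.z_out hw
  have hw2 : 2 * w ∉ L.lattice := by
    intro h0
    apply h2
    have h1 := h.st _ h0
    have e1 : β * (2 * w) = 2 * (β * w) := by ring
    rwa [e1] at h1
  obtain ⟨G, hG⟩ : ∃ G : ℂ → ℂ, G = fun z => ∏ r ∈ insert 0 S, (L.weierstrassP (z + r) - L.weierstrassP w) :=
    ⟨_, rfl⟩
  obtain ⟨H, hH⟩ : ∃ H : ℂ → ℂ, H = fun z => L.weierstrassP (β * z) - L.weierstrassP (β * w) := ⟨_, rfl⟩
  have pG : ∀ z, ∀ l ∈ L.lattice, G (z + l) = G z := by
    intro z l hl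
    rw [hG]
    refine Finset.prod_congr rfl fun r _ => ?_
    have e1 : z + l + r = z + r + l := by ring
    rw [e1, wp_per L _ hl]
  have pH : ∀ z, ∀ l ∈ L.lattice, H (z + l) = H z := by
    intro z l hl
    rw [hH]
    show L.weierstrassP (β * (z + l)) - L.weierstrassP (β * w) = L.weierstrassP (β * z) - L.weierstrassP (β * w)
    rw [mul_add, wp_per L _ (h.st l hl)]
  have nH : ∀ z, Od H z (if β * z ∈ L.lattice then -2 else
      if β * z - β * w ∈ L.lattice ∨ β * z + β * w ∈ L.lattice then 1 else 0) := by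
    intro z
    rw [hH]
    exact Od.comp_mul h.ne (od_wp L hw h2 (β * z))
  have nG : ∀ z, Od G z (if β * z ∈ L.lattice then -2 else
      if β * z - β * w ∈ L.lattice ∨ β * z + β * w ∈ L.lattice then 1 else 0) := by
    intro z
    have h1 := Od.prod (insert 0 S) (g := fun r t => L.weierstrassP (t + r) - L.weierstrassP w) (z₀ := z)
      (n := fun r => if z + r ∈ L.lattice then -2 else
        if z + r - w ∈ L.lattice ∨ z + r + w ∈ L.lattice then 1 else 0)
      (fun r _ => Od.comp_add (od_wp L hw0 hw2 (z + r)))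
    have h3 : (∑ r ∈ insert 0 S, (if z + r ∈ L.lattice then (-2 : ℤ) else
        if z + r - w ∈ L.lattice ∨ z + r + w ∈ L.lattice then 1 else 0)) =
        if β * z ∈ L.lattice then -2 else
        if β * z - β * w ∈ L.lattice ∨ β * z + β * w ∈ L.lattice then 1 else 0 := by
      have h4 : ∀ r, (if z + r ∈ L.lattice then (-2 : ℤ) else
          if z + r - w ∈ L.lattice ∨ z + r + w ∈ L.lattice then 1 else 0) =
          -2 * (if z + r ∈ L.lattice then 1 else 0) + (if z - w + r ∈ L.lattice then 1 else 0) +
          (if z + w + r ∈ L.lattice then 1 else 0) := by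
        intro r
        rw [ind_wp L hw0 hw2 (z + r), show z + r - w = z - w + r by ring, show z + r + w = z + w + r by ring]
      rw [Finset.sum_congr rfl fun r _ => h4 r, Finset.sum_add_distrib, Finset.sum_add_distrib, ← Finset.mul_sum,
        count_rep h z, count_rep h (z - w), count_rep h (z + w), ind_wp L hw h2 (β * z), mul_sub, mul_add]
    rw [h3] at h1
    rw [hG]
    exact h1
  obtain ⟨c, hc, hcz⟩ := quot_const L G H pG pH _ nG nH
  refine ⟨c, hc, fun z hz => ?_⟩
  have cG : ContinuousAt G z := by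
    rw [hG]
    refine tendsto_finsetProd _ fun r hr => ?_
    have hzr : z + r ∉ L.lattice := by
      rw [Finset.mem_insert] at hr
      rcases hr with rfl | hr
      · rw [add_zero]
        exact h.z_out hz
      · exact h.zr_out hz hr
    have h1 : ContinuousAt (fun t : ℂ => L.weierstrassP (t + r)) z :=
      ContinuousAt.comp (f := fun t : ℂ => t + r) (g := L.weierstrassP) (H35P.wp_analytic L _ hzr).continuousAt
        (continuous_add_right r).continuousAt
    exact h1.sub continuousAt_const
  have cH : ContinuousAt H z := by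
    rw [hH]
    have h1 : ContinuousAt (fun t : ℂ => L.weierstrassP (β * t)) z :=
      ContinuousAt.comp (f := fun t : ℂ => β * t) (g := L.weierstrassP) (H35P.wp_analytic L _ hz).continuousAt
        (continuous_const_mul β).continuousAt
    exact h1.sub continuousAt_const
  have e1 : G z = c * H z := by
    have t1 : Filter.Tendsto G (nhdsWithin z {z}ᶜ) (nhds (G z)) := cG.tendsto.mono_left nhdsWithin_le_nhds
    have t2 : Filter.Tendsto (fun t => c * H t) (nhdsWithin z {z}ᶜ) (nhds (c * H z)) :=
      (cH.tendsto.const_mul c).mono_left nhdsWithin_le_nhds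
    exact tendsto_nhds_unique (t1.congr' (hcz z)) t2
  rw [hG, hH] at e1
  exact e1

end H55K.CC
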