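import Mathlib
import Pool.Agent.Lib.H55K.C7

namespace H55K.CC

/-! Chunk C8 (M). Let c be from E2_aux. For z near 0, z <> 0: β z not in Λ (H35P.ev_compl, H35P.tendsto_punct). Multiply by z^2 and let z -> 0 (punctured): z^2 wp z -> 1 (H35P.wp_zero: z^2 wp z = 1 + z^2 u z), so
z^2 (wp z - wp w) -> 1 and the left side tends to the product over r in S of (wp r - wp w) (0 is not in S: h.out; continuity of wp at r); z^2 (wp(β z) - wp(β w)) -> 1/β^2. So
c = β^2 prod over S of (wp r - wp w) (tendsto_nhds_unique). Then E2 for z by E2_aux, Finset.prod_insert. -/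

theorem E2_gen {L : PeriodPair} {β : ℂ} {S : Finset ℂ} (h : Rep L β S) {z w : ℂ} (hz : β * z ∉ L.lattice)
    (hw : β * w ∉ L.lattice) (h2 : 2 * (β * w) ∉ L.lattice) :
    β ^ 2 * (L.weierstrassP (β * z) - L.weierstrassP (β * w)) * ∏ r ∈ S, (L.weierstrassP r - L.weierstrassP w) =
      (L.weierstrassP z - L.weierstrassP w) * ∏ r ∈ S, (L.weierstrassP (z + r) - L.weierstrassP w) := by
  obtain ⟨c, hc0, hc⟩ := E2_aux h hw h2
  have h0S : (0 : ℂ) ∉ S := fun h0 => h.out 0 h0 (zero_mem _)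
  have hc' : ∀ z, β * z ∉ L.lattice →
      (L.weierstrassP z - L.weierstrassP w) * ∏ r ∈ S, (L.weierstrassP (z + r) - L.weierstrassP w) =
        c * (L.weierstrassP (β * z) - L.weierstrassP (β * w)) := by
    intro z hz
    rw [← hc z hz, Finset.prod_insert h0S, add_zero]
  obtain ⟨u, hu, hu0, hu2⟩ := H35P.wp_zero L
  have huc : ContinuousAt u 0 := hu.continuousAt
  have hβ := h.ne
  have hev : ∀ᶠ z in nhdsWithin (0 : ℂ) {0}ᶜ, β * z ∉ L.lattice := by
    have ht := H35P.tendsto_punct (fun z : ℂ => β * z) 0 (by fun_prop)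
      (fun x y hxy => mul_left_cancel₀ hβ hxy)
    exact ht.eventually (H35P.ev_compl L _)
  have hL : Filter.Tendsto (fun z : ℂ => (1 + z ^ 2 * u z - z ^ 2 * L.weierstrassP w) *
      ∏ r ∈ S, (L.weierstrassP (z + r) - L.weierstrassP w)) (nhdsWithin (0 : ℂ) {0}ᶜ)
      (nhds (∏ r ∈ S, (L.weierstrassP r - L.weierstrassP w))) := by
    have h3 : ContinuousAt (fun z : ℂ => (1 + z ^ 2 * u z - z ^ 2 * L.weierstrassP w) *
      ∏ r ∈ S, (L.weierstrassP (z + r) - L.weierstrassP w)) 0 := by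
      refine ContinuousAt.mul (by fun_prop) ?_
      refine tendsto_finsetProd _ fun r hr => ?_
      have h4 : ContinuousAt L.weierstrassP (0 + r) := by
        rw [zero_add]
        exact (H35P.wp_analytic L r (h.out r hr)).continuousAt
      have h5 : ContinuousAt (fun z : ℂ => L.weierstrassP (z + r)) 0 :=
        ContinuousAt.comp (f := fun z : ℂ => z + r) h4 (by fun_prop)
      exact (h5.sub continuousAt_const)
    have h6 := h3.tendsto
    simp only [zero_add, ne_eq, OfNat.ofNat_ne_zero, not_false_eq_true, zero_pow, zero_mul, add_zero, sub_zero,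
      one_mul] at h6
    exact h6.mono_left nhdsWithin_le_nhds
  have hR : Filter.Tendsto (fun z : ℂ => c * ((β ^ 2)⁻¹ + z ^ 2 * u (β * z) - z ^ 2 * L.weierstrassP (β * w)))
      (nhdsWithin (0 : ℂ) {0}ᶜ) (nhds (c * (β ^ 2)⁻¹)) := by
    have h4 : ContinuousAt u (β * 0) := by rwa [mul_zero]
    have h5 : ContinuousAt (fun z : ℂ => u (β * z)) 0 :=
      ContinuousAt.comp (f := fun z : ℂ => β * z) h4 (by fun_prop)
    have h3 : ContinuousAt (fun z : ℂ => c * ((β ^ 2)⁻¹ + z ^ 2 * u (β * z) - z ^ 2 * L.weierstrassP (β * w))) 0 := by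
      fun_prop
    have h6 := h3.tendsto
    simp only [ne_eq, OfNat.ofNat_ne_zero, not_false_eq_true, zero_pow, zero_mul, add_zero, sub_zero] at h6
    exact h6.mono_left nhdsWithin_le_nhds
  have heq : ∀ᶠ z in nhdsWithin (0 : ℂ) {0}ᶜ, (1 + z ^ 2 * u z - z ^ 2 * L.weierstrassP w) *
      ∏ r ∈ S, (L.weierstrassP (z + r) - L.weierstrassP w) =
      c * ((β ^ 2)⁻¹ + z ^ 2 * u (β * z) - z ^ 2 * L.weierstrassP (β * w)) := by
    filter_upwards [hev, self_mem_nhdsWithin] with z hz1 hz2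
    have hz0 : z ≠ 0 := hz2
    have h3 := hc' z hz1
    have e1 : 1 + z ^ 2 * u z - z ^ 2 * L.weierstrassP w = z ^ 2 * (L.weierstrassP z - L.weierstrassP w) := by
      rw [hu2 z hz0]
      field_simp
    have e2 : (β ^ 2)⁻¹ + z ^ 2 * u (β * z) - z ^ 2 * L.weierstrassP (β * w) =
        z ^ 2 * (L.weierstrassP (β * z) - L.weierstrassP (β * w)) := by
      rw [hu2 (β * z) (mul_ne_zero hβ hz0)]
      field_simp
    rw [e1, e2, mul_assoc, h3]
    ring
  have hlim := tendsto_nhds_unique (hL.congr' heq) hR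
  have hcc : c = β ^ 2 * ∏ r ∈ S, (L.weierstrassP r - L.weierstrassP w) := by
    rw [hlim]
    field_simp
  rw [hc' z hz, hcc]
  ring

end H55K.CC
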