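import Mathlib
import Pool.Agent.Lib.H55K.C8

namespace H55K.CC

/-! Chunk C9 (S/M): continuity in w. For t near w, t <> w: β t not in Λ (open condition, H35P.compl_open) and 2 (β t) not in Λ (H35P.ev_compl at 2 β w, H35P.tendsto_punct for t -> 2 (β t)), so E2_gen holds for z, t.
Both sides are continuous functions of t at w (wp is continuous at w and at β w), so they agree at w: tendsto_nhds_unique on nhdsWithin w {w}ᶜ. -/

theorem c9_cont (L : PeriodPair) {z : ℂ} (hz : z ∉ L.lattice) : ContinuousAt L.weierstrassP z :=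
  (H35P.wp_hasDeriv L z hz).continuousAt

/-- (E2) -/
theorem E2 {L : PeriodPair} {β : ℂ} {S : Finset ℂ} (h : Rep L β S) {z w : ℂ} (hz : β * z ∉ L.lattice)
    (hw : β * w ∉ L.lattice) :
    β ^ 2 * (L.weierstrassP (β * z) - L.weierstrassP (β * w)) * ∏ r ∈ S, (L.weierstrassP r - L.weierstrassP w) =
      (L.weierstrassP z - L.weierstrassP w) * ∏ r ∈ S, (L.weierstrassP (z + r) - L.weierstrassP w) := by
  have hw' : w ∉ L.lattice := h.z_out hw
  have c1 : ContinuousAt (fun t : ℂ => L.weierstrassP t) w := c9_cont L hw'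
  have c2 : ContinuousAt (fun t : ℂ => L.weierstrassP (β * t)) w :=
    ContinuousAt.comp (f := fun t : ℂ => β * t) (c9_cont L hw) (by fun_prop)
  have hA : ContinuousAt (fun t : ℂ => β ^ 2 * (L.weierstrassP (β * z) - L.weierstrassP (β * t)) *
      ∏ r ∈ S, (L.weierstrassP r - L.weierstrassP t)) w := by
    refine (continuousAt_const.mul (continuousAt_const.sub c2)).mul ?_
    exact tendsto_finsetProd S fun r _ => (continuousAt_const.sub c1 : ContinuousAt _ w)
  have hB : ContinuousAt (fun t : ℂ => (L.weierstrassP z - L.weierstrassP t) *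
      ∏ r ∈ S, (L.weierstrassP (z + r) - L.weierstrassP t)) w := by
    refine (continuousAt_const.sub c1).mul ?_
    exact tendsto_finsetProd S fun r _ => (continuousAt_const.sub c1 : ContinuousAt _ w)
  have hinj : Function.Injective fun t : ℂ => 2 * (β * t) := by
    intro t t' htt
    exact mul_left_cancel₀ h.ne (mul_left_cancel₀ two_ne_zero htt)
  have e1 : ∀ᶠ t in nhdsWithin w {w}ᶜ, 2 * (β * t) ∉ L.lattice :=
    (H35P.tendsto_punct (fun t : ℂ => 2 * (β * t)) w (by fun_prop) hinj).eventually (H35P.ev_compl L _)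
  have e2 : ∀ᶠ t in nhdsWithin w {w}ᶜ, β * t ∉ L.lattice := by
    apply Filter.Eventually.filter_mono nhdsWithin_le_nhds
    have h3 : ContinuousAt (fun t : ℂ => β * t) w := by fun_prop
    exact h3.eventually ((H35P.compl_open L).mem_nhds hw)
  have e3 : (fun t : ℂ => β ^ 2 * (L.weierstrassP (β * z) - L.weierstrassP (β * t)) *
      ∏ r ∈ S, (L.weierstrassP r - L.weierstrassP t)) =ᶠ[nhdsWithin w {w}ᶜ]
      fun t : ℂ => (L.weierstrassP z - L.weierstrassP t) *
      ∏ r ∈ S, (L.weierstrassP (z + r) - L.weierstrassP t) := by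
    filter_upwards [e1, e2] with t h1 h2
    exact E2_gen h hz h2 h1
  have t1 := hA.tendsto.mono_left (nhdsWithin_le_nhds (s := {w}ᶜ))
  have t2 := hB.tendsto.mono_left (nhdsWithin_le_nhds (s := {w}ᶜ))
  exact tendsto_nhds_unique t1 (t2.congr' e3.symm)

end H55K.CC
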