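import Mathlib
import Pool.Agent.Lib.H55K.C3
import Pool.Agent.Lib.H55K.C9
import Pool.Agent.Lib.H55K.C19

open NumberField WeierstrassCurve Polynomial

namespace H55K.CC

open H55P (IQ embF eF LF Per Pt ac mem_LF eF_inj eF_ne Nm Nm_eq)
open H35P (WAB)

variable {F : Type} [Field F] [NumberField F] [IQ F] {Ω : Type} [Field Ω] [DecidableEq Ω] [Algebra F Ω]
  {A B : F} {Om : ℂ} {j : Ω →+* ℂ} {act : 𝓞 F →+* AddMonoid.End (Pt (WAB A B) Ω)}

/-! Chunk C20 (M). Apply the injective j (map_sum, map_prod; j(ak Ω a) = e(a) by h.ovr). ζ, R from TN_rep; z with U P z (U_ex); U (act a P) (e(a) z) and act a P <> 0, so e(a) z not in Λ (U.zero_iff), and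
z, z + ζ T not in Λ for T in S (act a (P + T) = act a P <> 0; or Rep.zr_out). xc, yc of P, P + T, T, act a P by U.xc_eq, U.yc_eq, U_add. Then E1, E1d, E2 divided by powers of Om (∑ f/Om^2 = (∑ f)/Om^2, Finset.sum_div; in e2 both
products have the same number of factors: write wp = Om^2 XL, Finset.prod_congr, Finset.prod_mul_distrib, Finset.prod_const). -/

theorem c20_out (hact : Act A B Om j act) {b : 𝓞 F} {P : Pt (WAB A B) Ω} (hP : act b P ≠ 0)
    {z : ℂ} (hz : U A B Om j P z) : eF F b * z ∉ (LF F).lattice := fun h0 =>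
  hP ((hact b P z hz).zero_iff.2 h0)

theorem c20_T {b : 𝓞 F} {S : Finset (Pt (WAB A B) Ω)} (hS : TN act b S) {ζ : Pt (WAB A B) Ω → ℂ}
    (hζ : ∀ T, U A B Om j T (ζ T)) {T : Pt (WAB A B) Ω} (hT : T ∈ S) : ζ T ∉ (LF F).lattice := fun h0 =>
  ((hS T).1 hT).2 ((hζ T).zero_iff.2 h0)

theorem c20_PT (h : CH A B Om j) {b : 𝓞 F} {S : Finset (Pt (WAB A B) Ω)} (hS : TN act b S)
    {ζ : Pt (WAB A B) Ω → ℂ} (hζ : ∀ T, U A B Om j T (ζ T)) {P : Pt (WAB A B) Ω} (hP : act b P ≠ 0)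
    {z : ℂ} (hz : U A B Om j P z) {T : Pt (WAB A B) Ω} (hT : T ∈ S) : z + ζ T ∉ (LF F).lattice := by
  intro h0
  have h1 := (U_add h hz (hζ T)).zero_iff.2 h0
  apply hP
  have h2 : act b (P + T) = act b P := by rw [map_add, ((hS T).1 hT).1, add_zero]
  rw [← h2, h1, map_zero]

theorem act_e1x [IsAlgClosed Ω] (h : CH A B Om j) (hact : Act A B Om j act) {a : 𝓞 F} (ha : a ≠ 0)
    {S : Finset (Pt (WAB A B) Ω)} (hS : TN act a S) {P : Pt (WAB A B) Ω} (hP : act a P ≠ 0) :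
    ak Ω a ^ 2 * xc (act a P) = xc P + ∑ T ∈ S, (xc (P + T) - xc T) := by
  obtain ⟨ζ, R, hζ, hR, hsum, -⟩ := TN_rep h hact ha hS
  obtain ⟨z, hz⟩ := U_ex h P
  have h1 := c20_out hact hP hz
  have h2 := hR.z_out h1
  apply j.injective
  have e0 : j (ak Ω a) = eF F a := h.ovr (a : F)
  rw [map_mul, map_pow, map_add, map_sum, e0, (hact a P z hz).xc_eq h1, hz.xc_eq h2]
  have e1 : ∀ T ∈ S, j (xc (P + T) - xc T) = XL (LF F) Om (z + ζ T) - XL (LF F) Om (ζ T) := by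
    intro T hT
    rw [map_sub, (U_add h hz (hζ T)).xc_eq (c20_PT h hS hζ hP hz hT), (hζ T).xc_eq (c20_T hS hζ hT)]
  rw [Finset.sum_congr rfl e1]
  have e2 := E1 hR h1
  rw [hsum (fun r => (LF F).weierstrassP (z + r) - (LF F).weierstrassP r)] at e2
  unfold XL
  rw [mul_div_assoc', e2, add_div, Finset.sum_div]
  congr 1
  exact Finset.sum_congr rfl fun r _ => by rw [sub_div]

theorem act_e1y [IsAlgClosed Ω] (h : CH A B Om j) (hact : Act A B Om j act) {a : 𝓞 F} (ha : a ≠ 0)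
    {S : Finset (Pt (WAB A B) Ω)} (hS : TN act a S) {P : Pt (WAB A B) Ω} (hP : act a P ≠ 0) :
    ak Ω a ^ 3 * yc (act a P) = yc P + ∑ T ∈ S, yc (P + T) := by
  obtain ⟨ζ, R, hζ, hR, hsum, -⟩ := TN_rep h hact ha hS
  obtain ⟨z, hz⟩ := U_ex h P
  have h1 := c20_out hact hP hz
  have h2 := hR.z_out h1
  apply j.injective
  have e0 : j (ak Ω a) = eF F a := h.ovr (a : F)
  rw [map_mul, map_pow, map_add, map_sum, e0, (hact a P z hz).yc_eq h1, hz.yc_eq h2]
  have e1 : ∀ T ∈ S, j (yc (P + T)) = YL (LF F) Om (z + ζ T) := by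
    intro T hT
    rw [(U_add h hz (hζ T)).yc_eq (c20_PT h hS hζ hP hz hT)]
  rw [Finset.sum_congr rfl e1]
  have e2 := E1d hR h1
  rw [hsum (fun r => (LF F).derivWeierstrassP (z + r))] at e2
  unfold YL
  rw [mul_div_assoc', e2, add_div, Finset.sum_div]

theorem act_e2 [IsAlgClosed Ω] (h : CH A B Om j) (hact : Act A B Om j act) {b : 𝓞 F} (hb : b ≠ 0)
    {S : Finset (Pt (WAB A B) Ω)} (hS : TN act b S) {P Q : Pt (WAB A B) Ω} (hP : act b P ≠ 0) (hQ : act b Q ≠ 0) :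
    ak Ω b ^ 2 * (xc (act b P) - xc (act b Q)) * ∏ R ∈ S, (xc R - xc Q) =
      (xc P - xc Q) * ∏ R ∈ S, (xc (P + R) - xc Q) := by
  obtain ⟨ζ, R, hζ, hR, -, hprod⟩ := TN_rep h hact hb hS
  obtain ⟨z, hz⟩ := U_ex h P
  obtain ⟨w, hw⟩ := U_ex h Q
  have h1 := c20_out hact hP hz
  have h2 := hR.z_out h1
  have h3 := c20_out hact hQ hw
  have h4 := hR.z_out h3
  apply j.injective
  have e0 : j (ak Ω b) = eF F b := h.ovr (b : F)
  rw [map_mul, map_mul, map_mul, map_pow, map_sub, map_sub, map_prod, map_prod, e0,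
    (hact b P z hz).xc_eq h1, (hact b Q w hw).xc_eq h3, hz.xc_eq h2, hw.xc_eq h4]
  have e1 : ∀ T ∈ S, j (xc T - xc Q) = ((LF F).weierstrassP (ζ T) - (LF F).weierstrassP w) / Om ^ 2 := by
    intro T hT
    rw [map_sub, (hζ T).xc_eq (c20_T hS hζ hT), hw.xc_eq h4]
    unfold XL
    rw [sub_div]
  have e1' : ∀ T ∈ S, j (xc (P + T) - xc Q) =
      ((LF F).weierstrassP (z + ζ T) - (LF F).weierstrassP w) / Om ^ 2 := by
    intro T hT
    rw [map_sub, (U_add h hz (hζ T)).xc_eq (c20_PT h hS hζ hP hz hT), hw.xc_eq h4]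
    unfold XL
    rw [sub_div]
  rw [Finset.prod_congr rfl e1, Finset.prod_congr rfl e1', Finset.prod_div_distrib, Finset.prod_div_distrib]
  have e2 := E2 hR h1 h3
  rw [hprod (fun r => (LF F).weierstrassP r - (LF F).weierstrassP w),
    hprod (fun r => (LF F).weierstrassP (z + r) - (LF F).weierstrassP w)] at e2
  unfold XL
  rw [← sub_div, ← sub_div, ← mul_div_assoc (eF F b ^ 2), div_mul_div_comm, div_mul_div_comm, e2]

end H55K.CC
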