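import Mathlib
import Pool.Agent.Lib.H55K.C17
import Pool.Agent.Lib.H55K.C18
import Pool.Agent.Lib.H55K.C20
import Pool.Agent.Lib.H55K.C27
import Pool.Agent.Lib.H55K.C28

/-! # H55K, part C: existence of the complex multiplication -/

open NumberField WeierstrassCurve Polynomial

namespace H55K

open H55P (IQ embF eF LF Per Pt ac mem_LF eF_inj eF_ne Nm Nm_eq)
open H35P (WAB)
open CC (CH Act U)

variable {F : Type} [Field F] [NumberField F] [IQ F] {Ω : Type} [Field Ω] [DecidableEq Ω] [Algebra F Ω]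
  {A B : F} {Om : ℂ} {j : Ω →+* ℂ} {act : 𝓞 F →+* AddMonoid.End (Pt (WAB A B) Ω)}

theorem cm_ac_inj (s : Ω ≃ₐ[F] Ω) {P : Pt (WAB A B) Ω} (hP : ac (WAB A B) s P = 0) : P = 0 := by
  unfold ac at hP
  rcases P with _ | ⟨x, y, hxy⟩
  · rfl
  · rw [Affine.Point.map_some] at hP
    exact absurd hP (Affine.Point.some_ne_zero _)

theorem cm_gal [IsAlgClosed Ω] (h : CH A B Om j) (hact : Act A B Om j act) (s : Ω ≃ₐ[F] Ω) (a : 𝓞 F)
    (P : Pt (WAB A B) Ω) : ac (WAB A B) s (act a P) = act a (ac (WAB A B) s P) := by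
  by_cases ha : a = 0
  · subst ha
    have h0 : ∀ Q : Pt (WAB A B) Ω, act 0 Q = 0 := fun Q => by
      rw [map_zero]
      rfl
    rw [h0, h0, map_zero]
  · have := CC.inf_pt h
    set δ : Pt (WAB A B) Ω →+ Pt (WAB A B) Ω := (ac (WAB A B) s).comp (act a : Pt (WAB A B) Ω →+ Pt (WAB A B) Ω) -
      (act a : Pt (WAB A B) Ω →+ Pt (WAB A B) Ω).comp (ac (WAB A B) s) with hδ
    have h1 : ∀ Q, δ Q = ac (WAB A B) s (act a Q) - act a (ac (WAB A B) s Q) := fun Q => rfl
    have hf := CC.fin_ker h hact ha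
    have hZ : ({Q : Pt (WAB A B) Ω | act a Q = 0} ∪ {Q | act a (ac (WAB A B) s Q) = 0}).Finite := by
      refine hf.union (hf.preimage (f := fun Q => ac (WAB A B) s Q) ?_)
      intro x _ y _ hxy
      have h2 : ac (WAB A B) s (x - y) = 0 := by
        rw [map_sub, sub_eq_zero]
        exact hxy
      exact sub_eq_zero.1 (cm_ac_inj s h2)
    have h3 := CC.add_fin δ hZ (fun Q hQ => by
      rw [h1, sub_eq_zero]
      exact CC.gal_gen h hact ha s (fun h4 => hQ (Or.inl h4)) (fun h4 => hQ (Or.inr h4))) P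
    rw [h1, sub_eq_zero] at h3
    exact h3

theorem exists_CMA (F : Type) [Field F] [NumberField F] [IQ F] (A B : F) (Om : ℂ) {Ω : Type} [Field Ω] [DecidableEq Ω]
    [Algebra F Ω] [IsAlgClosed Ω] [Algebra.IsAlgebraic F Ω] (j : Ω →+* ℂ) (disc : 4 * A ^ 3 + 27 * B ^ 2 ≠ 0)
    (per : Per F (embF F A) (embF F B) Om) (ovr : ∀ x : F, j (algebraMap F Ω x) = embF F x) :
    ∃ act : 𝓞 F →+* AddMonoid.End (Pt (WAB A B) Ω), CMA F A B Om j act := by
  have h : CH A B Om j := ⟨disc, per, ovr⟩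
  obtain ⟨act, hact⟩ := CC.exists_act h
  exact ⟨act, {
    disc := disc
    per := per
    ovr := ovr
    gal := fun s a P => cm_gal h hact s a P
    surj := fun b hb P => CC.act_surj h hb P
    gen := fun b hb => CC.act_gen h hact hb
    e1x := fun a S ha hS P hP => CC.act_e1x h hact ha hS hP
    e1y := fun a S ha hS P hP => CC.act_e1y h hact ha hS hP
    e2 := fun b S hb hS P Q hP hQ => CC.act_e2 h hact hb hS hP hQ }⟩

end H55K
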