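import Mathlib
import Pool.Agent.Lib.H55K.CG
import Pool.Agent.Lib.H55K.CM
import Pool.Agent.Lib.H55K.G4A

/-! # H55K, part C: uniqueness of the complex multiplication -/

open NumberField WeierstrassCurve Polynomial

namespace H55K

open H55P (IQ embF eF LF Per Pt ac mem_LF eF_inj eF_ne Nm Nm_eq)
open H35P (WAB)

variable {F : Type} [Field F] [NumberField F] [IQ F] {Ω : Type} [Field Ω] [DecidableEq Ω] [Algebra F Ω]
  {A B : F} {Om Om' : ℂ} {j : Ω →+* ℂ} {act act' : 𝓞 F →+* AddMonoid.End (Pt (WAB A B) Ω)}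

omit [NumberField F] [IQ F] in
theorem cu_nat (act : 𝓞 F →+* AddMonoid.End (Pt (WAB A B) Ω)) (n : ℕ) (T : Pt (WAB A B) Ω) :
    act (n : 𝓞 F) T = n • T := by
  rw [map_natCast]
  rfl

/-- The two actions agree on the points of finite order. -/
theorem cu_tors (h : CMA F A B Om j act) (h' : CMA F A B Om j act') {n : ℕ} (hn : 2 ≤ n) {T : Pt (WAB A B) Ω}
    (hT : n • T = 0) (a : 𝓞 F) : act a T = act' a T := by
  have hb : (n : 𝓞 F) ≠ 0 := by exact_mod_cast (by omega : n ≠ 0)
  have hnu : ¬ (n : 𝓞 F) ∣ 1 := by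
    intro hd
    have h1 : IsUnit (n : 𝓞 F) := isUnit_of_dvd_one hd
    have h2 : Nm (n : 𝓞 F) = 1 := by
      unfold Nm
      rw [Ideal.span_singleton_eq_top.2 h1, ← Ideal.one_eq_top, map_one]
    rw [Nm_nat] at h2
    nlinarith
  obtain ⟨T₀, hT₀, g1, g2, g3⟩ := h.gen (n : 𝓞 F) hb
  obtain ⟨T₁, hT₁, k1, k2, k3⟩ := h'.gen (n : 𝓞 F) hb
  have key : ∀ c : 𝓞 F, act c T₀ = act' c T₁ := by
    intro c
    by_cases hc : (n : 𝓞 F) ∣ c
    · rw [(g2 c).2 hc, (k2 c).2 hc]
    · have e1 := g3 c hc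
      have e2 := k3 c hc
      refine CC.c27_ext (fun h0 => hc ((g2 c).1 h0)) (fun h0 => hc ((k2 c).1 h0)) ?_ ?_
      · exact j.injective (e1.1.trans e2.1.symm)
      · exact j.injective (e1.2.trans e2.2.symm)
  have h01 : T₀ = T₁ := by
    have := key 1
    rw [map_one, map_one] at this
    exact this
  obtain ⟨c, hc⟩ := g1 T (by
    show act (n : 𝓞 F) T = 0
    rw [cu_nat]
    exact hT)
  have hc' : T = act' c T₀ := by
    rw [hc, key c, h01]
  have e1 : act a T = act (a * c) T₀ := by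
    rw [hc, map_mul]
    rfl
  have e2 : act' a T = act' (a * c) T₀ := by
    rw [hc', map_mul]
    rfl
  rw [e1, e2, key, h01]

/-- The complex multiplication is unique. -/
theorem cma_unique (h : CMA F A B Om j act) (h' : CMA F A B Om j act') (a : 𝓞 F) (P : Pt (WAB A B) Ω) :
    act a P = act' a P := by
  by_cases ha : a = 0
  · rw [ha, map_zero, map_zero]
  · have hN : Nm a ≠ 0 := by
      rw [Ne, H55P.Nm_eq_zero]
      exact ha
    have hk : ∀ (act₁ : 𝓞 F →+* AddMonoid.End (Pt (WAB A B) Ω)) (Q : Pt (WAB A B) Ω), act₁ a Q = 0 →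
        (2 * Nm a) • Q = 0 := by
      intro act₁ Q hQ
      rw [← cu_nat act₁, Nat.cast_mul, ← mul_cj a, show ((2 : ℕ) : 𝓞 F) * (a * cj a) = (2 : ℕ) * cj a * a by ring, map_mul]
      show act₁ _ (act₁ a Q) = 0
      rw [hQ, map_zero]
    have hker : ∀ Q, act a Q = 0 ↔ act' a Q = 0 := by
      intro Q
      constructor
      · intro hQ
        rw [← cu_tors h h' (by omega) (hk act Q hQ) a]
        exact hQ
      · intro hQ
        rw [cu_tors h h' (by omega) (hk act' Q hQ) a]
        exact hQ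
    obtain ⟨S, hS, -⟩ := exists_TN h ha
    have hS' : TN act' a S := fun T => by
      rw [hS T, hker]
    by_cases hP : act a P = 0
    · rw [hP, (hker P).1 hP]
    · have hP' : act' a P ≠ 0 := fun h0 => hP ((hker P).2 h0)
      have hak : ak Ω a ≠ 0 := by
        intro h0
        apply ha
        have e1 : algebraMap F Ω (a : F) = algebraMap F Ω 0 := by rw [map_zero]; exact h0
        have e2 := (algebraMap F Ω).injective e1
        exact_mod_cast e2
      refine CC.c27_ext hP hP' ?_ ?_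
      · exact mul_left_cancel₀ (pow_ne_zero 2 hak) ((h.e1x a S ha hS P hP).trans (h'.e1x a S ha hS' P hP').symm)
      · exact mul_left_cancel₀ (pow_ne_zero 3 hak) ((h.e1y a S ha hS P hP).trans (h'.e1y a S ha hS' P hP').symm)

/-- An automorphism of Ω which is the complex conjugation on F and fixes A and B is semilinear for the complex multiplication. -/
theorem cma_galr [IsAlgClosed Ω] [Algebra.IsAlgebraic F Ω] (h : CMA F A B Om j act) (s : Ω ≃+* Ω)
    (hA : s (algebraMap F Ω A) = algebraMap F Ω A) (hB : s (algebraMap F Ω B) = algebraMap F Ω B)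
    (hs : ∀ a : 𝓞 F, s (ak Ω a) = ak Ω (cj a)) (a : 𝓞 F)
    (P : Pt (WAB A B) Ω) : acr s hA hB (act a P) = act (cj a) (acr s hA hB P) := by
  have hC : CC.CH A B Om j := ⟨h.disc, h.per, h.ovr⟩
  obtain ⟨act₁, hact₁⟩ := CC.exists_act hC
  have h₁ : CMA F A B Om j act₁ :=
    { disc := h.disc
      per := h.per
      ovr := h.ovr
      gal := fun s a P => cm_gal hC hact₁ s a P
      surj := fun b hb P => CC.act_surj hC hb P
      gen := fun b hb => CC.act_gen hC hact₁ hb
      e1x := fun a S ha hS P hP => CC.act_e1x hC hact₁ ha hS hP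
      e1y := fun a S ha hS P hP => CC.act_e1y hC hact₁ ha hS hP
      e2 := fun b S hb hS P Q hP hQ => CC.act_e2 hC hact₁ hb hS hP hQ }
  rw [cma_unique h h₁, cma_unique h h₁]
  exact cm_galr hC hact₁ s hA hB hs a P

end H55K
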