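import Mathlib
import Pool.Agent.Lib.H35P.B1
import Pool.Agent.Lib.H35P.Red
import Pool.Agent.Lib.H55P.EDef
import Pool.Agent.Lib.H55P.Sel
import Pool.Agent.Lib.H55P.TD

/-! # H55K: a complex embedding of the algebraic closure -/

open NumberField IsDedekindDomain WeierstrassCurve

namespace H55K

open H55P (IQ embF eF LF Per IsHecke Pt ac Inert Dec Nm)
open H35P (WAB Ker tt)


variable {F : Type} [Field F] [NumberField F]
omit [NumberField F] in
/-- Chunk Y1 (S). ℂ is an algebraically closed extension of F by embF F (RingHom.toAlgebra); IsAlgClosed.lift. -/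
theorem exists_j (F : Type) [Field F] [NumberField F] [IQ F] (Ω : Type) [Field Ω] [Algebra F Ω]
    [Algebra.IsAlgebraic F Ω] : ∃ j : Ω →+* ℂ, ∀ x : F, j (algebraMap F Ω x) = embF F x := by
  letI : Algebra F ℂ := (embF F).toAlgebra
  let j : Ω →ₐ[F] ℂ := IsAlgClosed.lift
  exact ⟨j.toRingHom, fun x => j.commutes x⟩

end H55K
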