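import Mathlib
import Pool.Agent.Lib.H13S.IN4
import Pool.Agent.Lib.H55K.BH
import Pool.Agent.Lib.H55K.CU
import Pool.Agent.Lib.H55K.K0A
import Pool.Agent.Lib.H55K.T1
import Pool.Agent.Lib.H55K.Y1
import Pool.Agent.Lib.H55K.Y3

/-! # H55K: the primes of F ramified over the rational numbers are primes of bad reduction of a curve over the rational numbers -/

open NumberField IsDedekindDomain WeierstrassCurve

namespace H55K.TQ

open H55P (IQ embF eF LF Per IsHecke Pt ac Inert Dec Nm UnitP)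
open H35P (WAB Ker tt GoodW IntW)
open H55K.MG (VC Crd)

section arith

variable {F : Type} [Field F] [NumberField F] [IQ F]

theorem rf_tr (a : 𝓞 F) : ∃ n : ℤ, a + cj a = (n : 𝓞 F) := by
  refine ⟨(Nm (1 + a) : ℤ) - 1 - Nm a, ?_⟩
  have h1 := mul_cj (1 + a)
  have h2 := mul_cj a
  rw [map_add, map_one] at h1
  push_cast
  linear_combination h1 - h2

theorem rf_card {p : ℕ} (hp : p.Prime) (hp2 : p ≠ 2) (h : ∀ a : 𝓞 F, (p : 𝓞 F) ∣ a - cj a) : False := by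
  have h1 : ∀ a : 𝓞 F, ∃ n : ℤ, (p : 𝓞 F) ∣ a - n := by
    intro a
    obtain ⟨t, ht⟩ := rf_tr a
    obtain ⟨c, hc⟩ := h a
    obtain ⟨k, hk⟩ := hp.odd_of_ne_two hp2
    refine ⟨(k + 1) * t, a * (-1) + (k + 1) * c, ?_⟩
    have hk' : (p : 𝓞 F) = 2 * k + 1 := by
      rw [hk]
      push_cast
      rfl
    push_cast
    rw [hk'] at hc ⊢
    linear_combination (k + 1 : 𝓞 F) * ht + (k + 1 : 𝓞 F) * hc
  have hp0 := hp.pos
  have hF : Fact p.Prime := ⟨hp⟩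
  have hs : Function.Surjective (fun n : Fin p => (Ideal.Quotient.mk (Ideal.span {(p : 𝓞 F)}) ((n : ℕ) : 𝓞 F))) := by
    intro y
    obtain ⟨a, rfl⟩ := Ideal.Quotient.mk_surjective y
    obtain ⟨n, hn⟩ := h1 a
    have hm : 0 ≤ n % (p : ℤ) := Int.emod_nonneg _ (by exact_mod_cast hp.ne_zero)
    have hm2 : n % (p : ℤ) < p := Int.emod_lt_of_pos _ (by exact_mod_cast hp0)
    refine ⟨⟨(n % (p : ℤ)).toNat, by omega⟩, ?_⟩
    show Ideal.Quotient.mk _ (((n % (p : ℤ)).toNat : ℕ) : 𝓞 F) = _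
    rw [Ideal.Quotient.eq, Ideal.mem_span_singleton]
    have e1 : (((n % (p : ℤ)).toNat : ℕ) : 𝓞 F) = ((n % (p : ℤ) : ℤ) : 𝓞 F) := by
      have e2 : (((n % (p : ℤ)).toNat : ℕ) : ℤ) = n % (p : ℤ) := Int.toNat_of_nonneg hm
      rw [← e2]
      push_cast
      rfl
    rw [e1]
    have e3 : n % (p : ℤ) = n - p * (n / p) := Int.emod_def _ _
    rw [e3]
    push_cast
    have e4 : (n : 𝓞 F) - (p : 𝓞 F) * ((n / (p : ℤ) : ℤ) : 𝓞 F) - a = -(a - n) - (p : 𝓞 F) * ((n / (p : ℤ) : ℤ) : 𝓞 F) := by ring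
    rw [e4]
    exact dvd_sub (dvd_neg.2 hn) (dvd_mul_right _ _)
  have h2 : Nat.card (𝓞 F ⧸ Ideal.span {(p : 𝓞 F)}) ≤ p := by
    have h3 := Nat.card_le_card_of_surjective _ hs
    rw [Nat.card_fin] at h3
    exact h3
  have h3 : Nat.card (𝓞 F ⧸ Ideal.span {(p : 𝓞 F)}) = p ^ 2 := Nm_nat (F := F) p
  rw [h3] at h2
  nlinarith [hp.two_le]

end arith

section curve

variable {F : Type} [Field F] [NumberField F] [IQ F]

open scoped Classical in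
/-- A curve over the rational numbers with good reduction at V: elements of the inertia group fix the torsion prime to the residue characteristic. -/
theorem rf_fix {Ω : Type} [Field Ω] [Algebra ℚ Ω] (W : WeierstrassCurve ℚ) {V : ValuationSubring Ω} (hI : GoodW (W⁄Ω) V)
    (hΔ : W.Δ ≠ 0) {A₀ B₀ : ℚ} (hA : A₀ = -W.c₄ / 48) (hB : B₀ = -W.c₆ / 864) (g : Ω ≃ₐ[ℚ] Ω) (hg : Inert V g) (n : ℕ)
    (hn : V.valuation (n : Ω) = 1) (E : WeierstrassCurve Ω) (hE : E = (WAB A₀ B₀)⁄Ω) (T : E.toAffine.Point) (hT : n • T = 0) :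
    g (xc T) = xc T ∧ g (yc T) = yc T := by
  subst hE
  have h48 : (48 : ℚ) ≠ 0 := by norm_num
  have hd : (WAB A₀ B₀).Δ = W.Δ := by
    have h1 := W.c_relation
    have h2 : (WAB A₀ B₀).Δ = -16 * (4 * A₀ ^ 3 + 27 * B₀ ^ 2) := by
      simp only [WAB, WeierstrassCurve.Δ, WeierstrassCurve.b₂, WeierstrassCurve.b₄, WeierstrassCurve.b₆, WeierstrassCurve.b₈]
      ring
    rw [h2, hA, hB]
    linear_combination (-1 / 1728 : ℚ) * h1
  have hG : GMd ((WAB A₀ B₀)⁄Ω) V (Set.range (algebraMap ℚ Ω)) := by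
    refine ⟨W⁄Ω, algebraMap ℚ Ω 1, algebraMap ℚ Ω (W.b₂ / 12), algebraMap ℚ Ω (W.a₁ / 2), algebraMap ℚ Ω (W.a₃ / 2), ⟨_, rfl⟩, ⟨_, rfl⟩, ⟨_, rfl⟩, ⟨_, rfl⟩, ?_, hI⟩
    have k1 : (1 : ℚ) * W.a₁ = (WAB A₀ B₀).a₁ + 2 * (W.a₁ / 2) := by
      simp only [WAB]
      ring
    have k2 : (1 : ℚ) ^ 2 * W.a₂ = (WAB A₀ B₀).a₂ - (W.a₁ / 2) * (WAB A₀ B₀).a₁ + 3 * (W.b₂ / 12) - (W.a₁ / 2) ^ 2 := by
      simp only [WAB, WeierstrassCurve.b₂]
      ring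
    have k3 : (1 : ℚ) ^ 3 * W.a₃ = (WAB A₀ B₀).a₃ + (W.b₂ / 12) * (WAB A₀ B₀).a₁ + 2 * (W.a₃ / 2) := by
      simp only [WAB]
      ring
    have k4 : (1 : ℚ) ^ 4 * W.a₄ = (WAB A₀ B₀).a₄ - (W.a₁ / 2) * (WAB A₀ B₀).a₃ + 2 * (W.b₂ / 12) * (WAB A₀ B₀).a₂ -
        (W.a₃ / 2 + (W.b₂ / 12) * (W.a₁ / 2)) * (WAB A₀ B₀).a₁ + 3 * (W.b₂ / 12) ^ 2 - 2 * (W.a₁ / 2) * (W.a₃ / 2) := by
      simp only [WAB, WeierstrassCurve.b₂, hA, WeierstrassCurve.c₄, WeierstrassCurve.b₄]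
      ring
    have k6 : (1 : ℚ) ^ 6 * W.a₆ = (WAB A₀ B₀).a₆ + (W.b₂ / 12) * (WAB A₀ B₀).a₄ + (W.b₂ / 12) ^ 2 * (WAB A₀ B₀).a₂ + (W.b₂ / 12) ^ 3 -
        (W.a₃ / 2) * (WAB A₀ B₀).a₃ - (W.a₃ / 2) ^ 2 - (W.b₂ / 12) * (W.a₃ / 2) * (WAB A₀ B₀).a₁ := by
      simp only [WAB, WeierstrassCurve.b₂, hA, hB, WeierstrassCurve.c₄, WeierstrassCurve.b₄, WeierstrassCurve.c₆, WeierstrassCurve.b₆]
      ring
    have j1 := congrArg (algebraMap ℚ Ω) k1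
    have j2 := congrArg (algebraMap ℚ Ω) k2
    have j3 := congrArg (algebraMap ℚ Ω) k3
    have j4 := congrArg (algebraMap ℚ Ω) k4
    have j6 := congrArg (algebraMap ℚ Ω) k6
    simp only [map_add, map_sub, map_mul, map_pow, map_ofNat] at j1 j2 j3 j4 j6
    exact ⟨by rw [map_one]; exact one_ne_zero, j1, j2, j3, j4, j6⟩
  have h0 : ac (WAB A₀ B₀) g T = T := inert_triv (by rw [hd]; exact hΔ) hG g (by
    rintro _ ⟨x, rfl⟩
    exact g.commutes x) hg n hn T hT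
  have h1 := MG.ac_crd g T
  rw [h0] at h1
  exact ⟨h1.1.symm, h1.2.1.symm⟩

omit [IQ F] in
theorem rf_one {Ω : Type} [Field Ω] [Algebra F Ω] {V : ValuationSubring Ω} {v : HeightOneSpectrum (𝓞 F)} (hV : Abw V v) {x : 𝓞 F}
    (hx : x ∉ v.asIdeal) : V.valuation (ak Ω x) = 1 := by
  have h1 : v.valuation F (algebraMap (𝓞 F) F x) = 1 :=
    le_antisymm (v.valuation_le_one _) (not_lt.1 fun h3 => hx ((v.valuation_lt_one_iff_mem _).1 h3))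
  exact (hV.eq_one (x : F)).2 h1

/-- The primes of F ramified over the rational numbers divide the discriminant. -/
theorem hram_of {W : WeierstrassCurve ℤ} {Om : ℂ} {m : Ideal (𝓞 F)}
    {ψ : Ideal (𝓞 F) →*₀ 𝓞 F} (hH : BaseH F (W⁄(𝓞 F)) Om m ψ) (v : HeightOneSpectrum (𝓞 F))
    (hv : ∀ a : 𝓞 F, a - cj a ∈ v.asIdeal) : (W⁄(𝓞 F)).Δ ∈ v.asIdeal := by
  classical
  by_contra hΔ
  -- the prime number p
  obtain ⟨p, hp, hp2, hpv⟩ : ∃ p : ℕ, p.Prime ∧ p ≠ 2 ∧ (p : 𝓞 F) ∉ v.asIdeal := by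
    by_cases h3 : ((3 : ℕ) : 𝓞 F) ∈ v.asIdeal
    · refine ⟨5, by norm_num, by norm_num, fun h5 => ?_⟩
      apply v.isPrime.ne_top
      rw [Ideal.eq_top_iff_one]
      have e : (1 : 𝓞 F) = 2 * ((3 : ℕ) : 𝓞 F) - ((5 : ℕ) : 𝓞 F) := by norm_num
      rw [e]
      exact v.asIdeal.sub_mem (v.asIdeal.mul_mem_left _ h3) h5
    · exact ⟨3, by norm_num, by norm_num, h3⟩
  set Ω := AlgebraicClosure F with hΩ
  have hcl : IsAlgClosure ℚ Ω := ⟨inferInstance, Algebra.IsAlgebraic.trans ℚ F Ω⟩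
  -- the valuation ring
  obtain ⟨V, hV⟩ := exists_abw Ω v
  -- the automorphism
  obtain ⟨σ, hσ⟩ := d1_sigma F
  have hσ' : ∀ a : 𝓞 F, σ (a : F) = ((cj a : 𝓞 F) : F) := by
    intro a
    apply (embF F).injective
    rw [hσ]
    exact (e_cj a).symm
  have hn : Normal ℚ Ω := IsAlgClosure.normal ℚ Ω
  set s0 : Ω ≃ₐ[ℚ] Ω := AlgEquiv.liftNormal σ Ω with hs0
  have hs0' : ∀ x : F, s0 (algebraMap F Ω x) = algebraMap F Ω (σ x) := fun x => AlgEquiv.liftNormal_commutes _ _ _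
  set N' : IntermediateField ℚ Ω := (IsScalarTower.toAlgHom ℚ F Ω).fieldRange with hN'
  have hfin : FiniteDimensional ℚ N' :=
    (AlgEquiv.ofInjectiveField (IsScalarTower.toAlgHom ℚ F Ω)).toLinearEquiv.finiteDimensional
  have hmem : ∀ x : Ω, x ∈ N' → ∃ y : F, algebraMap F Ω y = x := by
    rintro x ⟨y, hy⟩
    exact ⟨y, hy⟩
  obtain ⟨s, hsI, hs1⟩ := H13S.inertia_lift N' V s0 (by
      intro x hx
      obtain ⟨y, rfl⟩ := hmem x hx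
      rw [hs0']
      exact ⟨σ y, rfl⟩) (by
      intro x hx hxV
      obtain ⟨y, rfl⟩ := hmem x hx
      rw [hs0', ← map_sub, hV.lt]
      refine H13S.in4_val v σ ?_ y ((hV y).1 hxV)
      intro z
      have e : σ • z = cj z := by
        apply RingOfIntegers.coe_injective
        exact hσ' z
      rw [e, ← neg_sub]
      exact v.asIdeal.neg_mem (hv z))
  have hs : ∀ x : F, s (algebraMap F Ω x) = algebraMap F Ω (σ x) := by
    intro x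
    rw [hs1 (algebraMap F Ω x) ⟨x, rfl⟩, hs0']
  -- the curve over the rational numbers
  set A₀ : ℚ := -(W⁄ℚ).c₄ / 48 with hA₀
  set B₀ : ℚ := -(W⁄ℚ).c₆ / 864 with hB₀
  have hc4 : algebraMap (𝓞 F) F (W⁄(𝓞 F)).c₄ = algebraMap ℚ F (W⁄ℚ).c₄ := by
    have e1 : (W⁄(𝓞 F)).c₄ = algebraMap ℤ (𝓞 F) W.c₄ := W.map_c₄ _
    have e2 : (W⁄ℚ).c₄ = algebraMap ℤ ℚ W.c₄ := W.map_c₄ _
    rw [e1, e2]
    simp
  have hc6 : algebraMap (𝓞 F) F (W⁄(𝓞 F)).c₆ = algebraMap ℚ F (W⁄ℚ).c₆ := by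
    have e1 : (W⁄(𝓞 F)).c₆ = algebraMap ℤ (𝓞 F) W.c₆ := W.map_c₆ _
    have e2 : (W⁄ℚ).c₆ = algebraMap ℤ ℚ W.c₆ := W.map_c₆ _
    rw [e1, e2]
    simp
  obtain ⟨A, hA⟩ : ∃ A : F, A = -(algebraMap (𝓞 F) F (W⁄(𝓞 F)).c₄) / 48 := ⟨_, rfl⟩
  obtain ⟨B, hB⟩ : ∃ B : F, B = -(algebraMap (𝓞 F) F (W⁄(𝓞 F)).c₆) / 864 := ⟨_, rfl⟩
  have hA' : A = algebraMap ℚ F A₀ := by
    rw [hA, hc4, hA₀, map_div₀, map_neg, map_ofNat]
  have hB' : B = algebraMap ℚ F B₀ := by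
    rw [hB, hc6, hB₀, map_div₀, map_neg, map_ofNat]
  have hΔ0 := hH.data.ell
  have hd := y3_ne (W⁄(𝓞 F)) hA hB hΔ0
  have hper : Per F (embF F A) (embF F B) Om := by
    have e1 : embF F A = -(eF F (W⁄(𝓞 F)).c₄) / 48 := by
      rw [hA, map_div₀, map_neg, map_ofNat]
      rfl
    have e2 : embF F B = -(eF F (W⁄(𝓞 F)).c₆) / 864 := by
      rw [hB, map_div₀, map_neg, map_ofNat]
      rfl
    rw [e1, e2]
    exact hH.data.per
  obtain ⟨j, hj⟩ := exists_j F Ω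
  obtain ⟨act, h⟩ := exists_CMA F A B Om j hd hper hj
  set s' : Ω ≃+* Ω := (s : Ω ≃+* Ω) with hs'
  have hsA : s' (algebraMap F Ω A) = algebraMap F Ω A := by
    rw [hA', ← IsScalarTower.algebraMap_apply ℚ F Ω]
    exact s.commutes _
  have hsB : s' (algebraMap F Ω B) = algebraMap F Ω B := by
    rw [hB', ← IsScalarTower.algebraMap_apply ℚ F Ω]
    exact s.commutes _
  have hsc : ∀ a : 𝓞 F, s' (ak Ω a) = ak Ω (cj a) := by
    intro a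
    show s (algebraMap F Ω (a : F)) = _
    rw [hs, hσ']
  have hsl := cma_galr h s' hsA hsB hsc
  -- good reduction
  have hVp : V.valuation (p : Ω) = 1 := by
    have h1 := rf_one hV hpv
    have e : ak Ω (p : 𝓞 F) = (p : Ω) := by
      show algebraMap F Ω (((p : 𝓞 F)) : F) = _
      simp
    rwa [e] at h1
  have hcast : ∀ n : ℤ, algebraMap ℚ Ω (algebraMap ℤ ℚ n) = (n : Ω) := fun n => by simp
  have hcast' : ∀ n : ℤ, algebraMap ℚ Ω (algebraMap ℤ ℚ n) ∈ V := fun n => by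
    rw [hcast]
    exact intCast_mem V n
  have hΔQ : (W⁄ℚ).Δ = algebraMap ℤ ℚ W.Δ := W.map_Δ _
  have hΔF : (W⁄(𝓞 F)).Δ = algebraMap ℤ (𝓞 F) W.Δ := W.map_Δ _
  have hΔQ0 : (W⁄ℚ).Δ ≠ 0 := by
    intro h0
    apply hΔ0
    rw [hΔQ] at h0
    have h1 : W.Δ = 0 := by
      have h2 : (W.Δ : ℚ) = 0 := h0
      exact_mod_cast h2
    rw [hΔF, h1, map_zero]
  have hGood : GoodW ((W⁄ℚ)⁄Ω) V := by
    refine ⟨⟨hcast' _, hcast' _, hcast' _, hcast' _, hcast' _⟩, ?_⟩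
    have e1 : ((W⁄ℚ)⁄Ω).Δ = algebraMap ℚ Ω (W⁄ℚ).Δ := (W⁄ℚ).map_Δ _
    have h1 := rf_one hV hΔ
    have e2 : ak Ω (W⁄(𝓞 F)).Δ = (W.Δ : Ω) := by
      rw [hΔF]
      show algebraMap F Ω ((algebraMap ℤ (𝓞 F) W.Δ : 𝓞 F) : F) = _
      simp
    rw [e1, hΔQ, hcast, ← e2]
    exact h1
  have hE : (WAB A B)⁄Ω = (WAB A₀ B₀)⁄Ω := by
    have e1 : algebraMap F Ω A = algebraMap ℚ Ω A₀ := by rw [hA', ← IsScalarTower.algebraMap_apply ℚ F Ω]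
    have e2 : algebraMap F Ω B = algebraMap ℚ Ω B₀ := by rw [hB', ← IsScalarTower.algebraMap_apply ℚ F Ω]
    ext <;> simp [WAB, WeierstrassCurve.map, WeierstrassCurve.baseChange, e1, e2]
  have hfix : ∀ T : Pt (WAB A B) Ω, p • T = 0 → acr s' hsA hsB T = T := by
    intro T hT
    obtain ⟨f1, f2⟩ := rf_fix (W⁄ℚ) hGood hΔQ0 hA₀ hB₀ s hsI p hVp ((WAB A B)⁄Ω) hE T hT
    by_cases hT0 : T = 0
    · rw [hT0, map_zero]
    · refine CC.c27_ext (fun h0 => hT0 ((acr_zero_iff s' hsA hsB T).1 h0)) hT0 ?_ ?_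
      · rw [xc_acr]
        exact f1
      · rw [yc_acr]
        exact f2
  -- the contradiction
  refine rf_card (F := F) hp hp2 (fun a => ?_)
  have hpne : (p : 𝓞 F) ≠ 0 := by exact_mod_cast hp.ne_zero
  obtain ⟨T₀, hT₀, g1, g2, -⟩ := h.gen (p : 𝓞 F) hpne
  have hT₀' : p • T₀ = 0 := by
    rw [← cu_nat act]
    exact hT₀
  have e0 : p • act a T₀ = 0 := by
    rw [← map_nsmul, hT₀', map_zero]
  have e1 := hsl a T₀
  rw [hfix T₀ hT₀', hfix _ e0] at e1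
  rw [← g2 (a - cj a), map_sub]
  show act a T₀ - act (cj a) T₀ = 0
  rw [← e1, sub_self]

end curve

end H55K.TQ
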