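import Mathlib
import Pool.Agent.Lib.H35P.B1
import Pool.Agent.Lib.H35P.R2
import Pool.Agent.Lib.H35P.Red
import Pool.Agent.Lib.H55K.D1
import Pool.Agent.Lib.H55P.EDef
import Pool.Agent.Lib.H55P.Sel
import Pool.Agent.Lib.H55P.TD

/-! # H55K: the Frobenius elements are the values of the Hecke character -/

open NumberField IsDedekindDomain WeierstrassCurve

namespace H55K

open H55P (IQ embF eF LF Per IsHecke Pt ac Inert Dec Nm)
open H35P (WAB Ker tt)


variable {F : Type} [Field F] [NumberField F] [IQ F] {A B : F} {Om : ℂ} {Ω : Type} [Field Ω] [DecidableEq Ω]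
  [Algebra F Ω] {j : Ω →+* ℂ} {act : 𝓞 F →+* AddMonoid.End (Pt (WAB A B) Ω)} {V : ValuationSubring Ω}

theorem g10a_D (F : Type) [Field F] [NumberField F] [IQ F] :
    H55P.bF F 0 * cj (H55P.bF F 1) - H55P.bF F 1 * cj (H55P.bF F 0) ≠ 0 := by
  intro h
  have hi := H55P.LF_indep (F := F)
  rw [LinearIndependent.pair_iff] at hi
  obtain ⟨e0, he0⟩ : ∃ e0, e0 = eF F (H55P.bF F 0) := ⟨_, rfl⟩
  obtain ⟨e1, he1⟩ : ∃ e1, e1 = eF F (H55P.bF F 1) := ⟨_, rfl⟩
  rw [← he0, ← he1] at hi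
  have h1 : e0 * (starRingEnd ℂ) e1 - e1 * (starRingEnd ℂ) e0 = 0 := by
    have := congrArg (eF F) h
    rw [map_sub, map_mul, map_mul, e_cj, e_cj, ← he0, ← he1] at this
    rw [this]
    exact map_zero (eF F)
  have hne : e0 ≠ 0 := by
    rw [he0]
    exact H55P.eF_ne ((H55P.bF F).ne_zero 0)
  have h2 := hi (-(e1 * (starRingEnd ℂ) e0).re) (Complex.normSq e0) (by
    rw [Complex.real_smul, Complex.real_smul]
    have h3 : (((e1 * (starRingEnd ℂ) e0).re : ℝ) : ℂ) = e1 * (starRingEnd ℂ) e0 := by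
      apply Complex.conj_eq_iff_re.1
      rw [map_mul, Complex.conj_conj]
      linear_combination h1
    rw [Complex.ofReal_neg, h3, Complex.normSq_eq_conj_mul_self]
    ring)
  have h3 := h2.2
  rw [map_eq_zero] at h3
  exact hne h3

/-- Chunk G10A (M), arithmetic. There is a finite set S of primes of F such that for v outside S of degree one: if ψ generates v, γ is associated to ψ and Nm (γ - 1) = Nm (1 - ψ) then γ = ψ. b₀, b₁ an integral basis (H55P.bF, bF_repr), D = b₀ cj b₁ - b₁ cj b₀ ≠ 0 (else cj x = x for all x: cj (b₀)/b₀ = cj (b₁)/b₁ =: r, cj x = r x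
for all x, r = 1 for x = 1, against IQ.im, e_cj). S = {v : D in v}. Nm γ = Nm ψ and Nm (γ - 1) = Nm γ - (γ + cj γ) + 1 (mul_cj), so γ + cj γ = ψ + cj ψ and γ cj γ = ψ cj ψ: (γ - ψ)(γ - cj ψ) = 0. If γ = cj ψ: v contains ψ and cj ψ. ψ = m₀ b₀ + m₁ b₁ (integers): D m₀ = ψ cj b₁ - cj ψ b₁ (up to sign) is in v, so m₀ is in v, m₁ too; the
integers in v are the multiples of the prime q = absNorm v, so q divides ψ, Nm ψ = q is divisible by q^2: absurd. -/
theorem gam_eq (F : Type) [Field F] [NumberField F] [IQ F] : ∃ S : Set (HeightOneSpectrum (𝓞 F)), S.Finite ∧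
    ∀ v ∉ S, (Ideal.absNorm v.asIdeal).Prime → ∀ ψ γ : 𝓞 F, Ideal.span {ψ} = v.asIdeal → Associated ψ γ →
      Nm (γ - 1) = Nm (1 - ψ) → γ = ψ := by
  obtain ⟨b0, hb0⟩ : ∃ b0, b0 = H55P.bF F 0 := ⟨_, rfl⟩
  obtain ⟨b1, hb1⟩ : ∃ b1, b1 = H55P.bF F 1 := ⟨_, rfl⟩
  have hD := g10a_D F
  rw [← hb0, ← hb1] at hD
  obtain ⟨D, hDd⟩ : ∃ D, D = b0 * cj b1 - b1 * cj b0 := ⟨_, rfl⟩
  rw [← hDd] at hD
  refine ⟨{v | D ∈ v.asIdeal}, ?_, ?_⟩
  · have h := Ideal.finite_factors (R := 𝓞 F) (I := Ideal.span {D}) (by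
      rw [Ideal.zero_eq_bot, Ne, Ideal.span_singleton_eq_bot]
      exact hD)
    refine h.subset fun v hv => ?_
    exact Ideal.dvd_span_singleton.2 hv
  · intro v hvS hq ψ γ hψ hass hN
    have hvD : D ∉ v.asIdeal := hvS
    obtain ⟨q, hqd⟩ : ∃ q, q = Ideal.absNorm v.asIdeal := ⟨_, rfl⟩
    rw [← hqd] at hq
    have hNN : Nm γ = Nm ψ := by
      unfold H55P.Nm
      rw [Ideal.span_singleton_eq_span_singleton.2 hass.symm]
    have h1 := mul_cj (γ - 1)
    have h2 := mul_cj (1 - ψ)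
    have h3 := mul_cj γ
    have h4 := mul_cj ψ
    rw [hN] at h1
    rw [hNN] at h3
    rw [map_sub, map_one] at h1 h2
    have htr : γ + cj γ = ψ + cj ψ := by linear_combination h2 - h1 + h3 - h4
    have hprod : (γ - ψ) * (γ - cj ψ) = 0 := by linear_combination γ * htr + (h4 - h3)
    rcases mul_eq_zero.1 hprod with h | h
    · exact sub_eq_zero.1 h
    · exfalso
      have hγ : γ = cj ψ := sub_eq_zero.1 h
      have hψv : ψ ∈ v.asIdeal := by
        rw [← hψ]
        exact Ideal.mem_span_singleton_self ψ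
      have hcv : cj ψ ∈ v.asIdeal := by
        rw [← hψ, ← hγ, Ideal.span_singleton_eq_span_singleton.2 hass]
        exact Ideal.mem_span_singleton_self γ
      obtain ⟨m0, hm0⟩ : ∃ m0, m0 = (H55P.bF F).repr ψ 0 := ⟨_, rfl⟩
      obtain ⟨m1, hm1⟩ : ∃ m1, m1 = (H55P.bF F).repr ψ 1 := ⟨_, rfl⟩
      have e1 : ψ = (m0 : 𝓞 F) * b0 + (m1 : 𝓞 F) * b1 := by
        rw [hm0, hm1, hb0, hb1]
        exact H55P.bF_repr ψ
      have e2 : cj ψ = (m0 : 𝓞 F) * cj b0 + (m1 : 𝓞 F) * cj b1 := by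
        conv_lhs => rw [e1]
        rw [map_add, map_mul, map_mul, cj_int, cj_int]
      have hpr : v.asIdeal.IsPrime := v.isPrime
      have hm : ∀ m : ℤ, (D * (m : 𝓞 F)) ∈ v.asIdeal → (q : ℤ) ∣ m := by
        intro m hDm
        have hmv : (m : 𝓞 F) ∈ v.asIdeal := (hpr.mem_or_mem hDm).resolve_left hvD
        by_contra hndvd
        have hcop : IsCoprime (q : ℤ) m := (Nat.prime_iff_prime_int.1 hq).coprime_iff_not_dvd.2 hndvd
        obtain ⟨a, b, hab⟩ := hcop
        apply hpr.ne_top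
        rw [Ideal.eq_top_iff_one]
        have hqv : ((q : ℕ) : 𝓞 F) ∈ v.asIdeal := by
          rw [hqd]
          exact Ideal.absNorm_mem v.asIdeal
        have h5 : (1 : 𝓞 F) = (a : 𝓞 F) * ((q : ℕ) : 𝓞 F) + (b : 𝓞 F) * (m : 𝓞 F) := by
          have := congrArg (fun z : ℤ => (z : 𝓞 F)) hab
          push_cast at this
          exact this.symm
        rw [h5]
        exact Ideal.add_mem _ (Ideal.mul_mem_left _ _ hqv) (Ideal.mul_mem_left _ _ hmv)
      obtain ⟨n0, hn0⟩ := hm m0 (by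
        have : D * (m0 : 𝓞 F) = cj b1 * ψ - b1 * cj ψ := by
          rw [hDd, e2]
          conv_rhs => rw [e1]
          ring
        rw [this]
        exact Ideal.sub_mem _ (Ideal.mul_mem_left _ _ hψv) (Ideal.mul_mem_left _ _ hcv))
      obtain ⟨n1, hn1⟩ := hm m1 (by
        have : D * (m1 : 𝓞 F) = b0 * cj ψ - cj b0 * ψ := by
          rw [hDd, e2]
          conv_rhs => rw [e1]
          ring
        rw [this]
        exact Ideal.sub_mem _ (Ideal.mul_mem_left _ _ hcv) (Ideal.mul_mem_left _ _ hψv))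
      have hqψ : ((q : ℕ) : 𝓞 F) ∣ ψ := by
        refine ⟨(n0 : 𝓞 F) * b0 + (n1 : 𝓞 F) * b1, ?_⟩
        rw [e1, hn0, hn1]
        push_cast
        ring
      have hvq : v.asIdeal = Ideal.span {((q : ℕ) : 𝓞 F)} := by
        apply le_antisymm
        · rw [← hψ, Ideal.span_singleton_le_span_singleton]
          exact hqψ
        · rw [Ideal.span_singleton_le_iff_mem, hqd]
          exact Ideal.absNorm_mem v.asIdeal
      have hNq : Nm ((q : ℕ) : 𝓞 F) = q * q := by
        have := mul_cj ((q : ℕ) : 𝓞 F)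
        rw [cj_nat, ← Nat.cast_mul] at this
        exact (Nat.cast_injective this).symm
      have hqq : q = q * q := by
        conv_lhs => rw [hqd, hvq]
        exact hNq
      have := hq.one_lt
      nlinarith

end H55K
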