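import Mathlib
import Pool.Agent.Lib.H55K.G1

/-! # H55K: Frobenius elements: the x-coordinate -/

open NumberField IsDedekindDomain WeierstrassCurve

namespace H55K

open H55P (IQ embF eF LF Per IsHecke Pt ac Inert Dec Nm)
open H35P (WAB Ker tt)


variable {F : Type} [Field F] [NumberField F] [IQ F] {A B : F} {Om : ℂ} {Ω : Type} [Field Ω] [DecidableEq Ω]
  [Algebra F Ω] {j : Ω →+* ℂ} {act : 𝓞 F →+* AddMonoid.End (Pt (WAB A B) Ω)} {V : ValuationSubring Ω}

theorem g7a_ml {V : ValuationSubring Ω} {a b : V.ValueGroup} (ha : a ≤ 1) (hb : b < 1) : a * b < 1 :=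
  (mul_le_of_le_one_left' ha).trans_lt hb

theorem g7a_mr {V : ValuationSubring Ω} {a b : V.ValueGroup} (ha : a < 1) (hb : b ≤ 1) : a * b < 1 :=
  (mul_le_of_le_one_right' hb).trans_lt ha

/-- An integer not divisible by β is a unit at V. -/
theorem g7a_unit {V : ValuationSubring Ω} {β : 𝓞 F} (hβ : Prime β) (hv : V.valuation (ak Ω β) < 1) {c : 𝓞 F}
    (hc : ¬ β ∣ c) : V.valuation (ak Ω c) = 1 := by
  have h1 : IsCoprime β c := (Irreducible.coprime_iff_not_dvd hβ.irreducible).2 hc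
  obtain ⟨u, w, huw⟩ := h1
  have h2 : ak Ω u * ak Ω β + ak Ω w * ak Ω c = 1 := by
    have h0 : (u : F) * (β : F) + (w : F) * (c : F) = 1 := by
      exact_mod_cast congrArg (fun z : 𝓞 F => (z : F)) huw
    have h00 := congrArg (algebraMap F Ω) h0
    rw [map_add, map_mul, map_mul, map_one] at h00
    exact h00
  refine le_antisymm (ak_le V c) ?_
  by_contra hlt
  rw [not_le] at hlt
  have h3 : V.valuation (ak Ω u * ak Ω β) < 1 := by
    rw [map_mul]
    exact g7a_ml (ak_le V u) hv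
  have h4 : V.valuation (ak Ω w * ak Ω c) < 1 := by
    rw [map_mul]
    exact g7a_ml (ak_le V w) hlt
  have h5 := Valuation.map_add_lt V.valuation h3 h4
  rw [h2, map_one] at h5
  exact lt_irrefl _ h5

/-- Fermat in the ring of integers. -/
theorem g7a_int {β : 𝓞 F} (hβ : Prime β) (a : 𝓞 F) : β ∣ a ^ Nm β - a := by
  have hI : (Ideal.span {β}).IsPrime := (Ideal.span_singleton_prime hβ.ne_zero).2 hβ
  have hne : Ideal.span {β} ≠ ⊥ := by
    rw [Ne, Ideal.span_singleton_eq_bot]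
    exact hβ.ne_zero
  have hM : (Ideal.span {β}).IsMaximal := hI.isMaximal hne
  let _ : Field (𝓞 F ⧸ Ideal.span {β}) := Ideal.Quotient.field _
  have _ : Finite (𝓞 F ⧸ Ideal.span {β}) := Ideal.finiteQuotientOfFreeOfNeBot _ hne
  let _ : Fintype (𝓞 F ⧸ Ideal.span {β}) := Fintype.ofFinite _
  have h1 : Fintype.card (𝓞 F ⧸ Ideal.span {β}) = Nm β := by
    rw [← Nat.card_eq_fintype_card, Nm, Ideal.absNorm_apply, Submodule.cardQuot_apply]
  have h2 := FiniteField.pow_card (Ideal.Quotient.mk (Ideal.span {β}) a)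
  rw [h1] at h2
  rw [← Ideal.mem_span_singleton, ← Ideal.Quotient.eq_zero_iff_mem, map_sub, map_pow, h2, sub_self]

/-- Chunk G7A (S/M). Fermat: x = a/b with a, b in 𝓞 F, β not dividing b (V(β) < 1, V(x) ≤ 1: if x = a/b with V(b) < 1 cancel powers of β: the ring 𝓞 F is a principal ideal domain; V(c) = 1 for c not divisible by β). For a in 𝓞 F: β divides a^(Nm β) - a
(𝓞 F ⧸ span {β} is a field with Nm β elements). -/
theorem fermat {V : ValuationSubring Ω} {β : 𝓞 F} (hβ : Prime β) (hv : V.valuation (ak Ω β) < 1) (x : F)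
    (hx : V.valuation (algebraMap F Ω x) ≤ 1) :
    V.valuation (algebraMap F Ω x ^ Nm β - algebraMap F Ω x) < 1 := by
  obtain ⟨a, ⟨b, hb⟩, hab, hx'⟩ := IsFractionRing.exists_reduced_fraction (A := 𝓞 F) (K := F) x
  have hb0 : b ≠ 0 := nonZeroDivisors.ne_zero hb
  have hbF : (b : F) ≠ 0 := by exact_mod_cast hb0
  have hxab : x * (b : F) = (a : F) := by
    rw [← hx']
    exact IsLocalization.mk'_spec F a ⟨b, hb⟩
  have hbu : V.valuation (ak Ω b) = 1 := by
    refine g7a_unit hβ hv fun hdb => ?_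
    have hda : ¬ β ∣ a := fun hda => hβ.not_isUnit (hab hda hdb)
    have h1 := g7a_unit hβ hv hda
    have h2 : ak Ω a = algebraMap F Ω x * ak Ω b := by
      unfold ak
      rw [← map_mul, hxab]
    rw [h2, map_mul] at h1
    obtain ⟨c, hc⟩ := hdb
    have h3 : V.valuation (ak Ω b) < 1 := by
      have h4 : ak Ω b = ak Ω β * ak Ω c := by
        unfold ak
        rw [← map_mul, hc]
        rfl
      rw [h4, map_mul]
      exact g7a_mr hv (ak_le V c)
    have h5 := g7a_ml hx h3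
    rw [h1] at h5
    exact lt_irrefl _ h5
  have hN : Nm β ≠ 0 := by
    rw [Ne, H55P.Nm_eq_zero]
    exact hβ.ne_zero
  obtain ⟨n, hn⟩ : ∃ n, Nm β = n + 1 := ⟨Nm β - 1, by omega⟩
  obtain ⟨c, hc⟩ := g7a_int hβ a
  obtain ⟨e, he⟩ := g7a_int hβ b
  rw [hn] at hc he ⊢
  have hak : ak Ω a = algebraMap F Ω x * ak Ω b := by
    unfold ak
    rw [← map_mul, hxab]
  have hc' : ak Ω a ^ (n + 1) - ak Ω a = ak Ω β * ak Ω c := by
    unfold ak
    rw [← map_pow, ← map_sub, ← map_mul]
    congr 1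
    exact_mod_cast congrArg (fun z : 𝓞 F => (z : F)) hc
  have he' : ak Ω b ^ (n + 1) - ak Ω b = ak Ω β * ak Ω e := by
    unfold ak
    rw [← map_pow, ← map_sub, ← map_mul]
    congr 1
    exact_mod_cast congrArg (fun z : 𝓞 F => (z : F)) he
  have key : (algebraMap F Ω x ^ (n + 1) - algebraMap F Ω x) * ak Ω b ^ (n + 1) =
      ak Ω β * (ak Ω c - algebraMap F Ω x * ak Ω e) := by
    rw [hak] at hc'
    linear_combination hc' - algebraMap F Ω x * he'
  have h6 := congrArg V.valuation key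
  rw [map_mul, map_mul, map_pow, hbu, one_pow, mul_one] at h6
  rw [h6]
  refine g7a_mr hv ?_
  refine Valuation.map_sub_le _ (ak_le V c) ?_
  rw [map_mul]
  exact mul_le_one' hx (ak_le V e)

end H55K
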