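import Mathlib
import Pool.Agent.Lib.H55K.E0
import Pool.Agent.Lib.H55K.G4A

/-! # H55K: Frobenius elements: the x-coordinate -/

open NumberField IsDedekindDomain WeierstrassCurve

namespace H55K

open H55P (IQ embF eF LF Per IsHecke Pt ac Inert Dec Nm)
open H35P (WAB Ker tt)


variable {F : Type} [Field F] [NumberField F] [IQ F] {A B : F} {Om : ℂ} {Ω : Type} [Field Ω] [DecidableEq Ω]
  [Algebra F Ω] {j : Ω →+* ℂ} {act : 𝓞 F →+* AddMonoid.End (Pt (WAB A B) Ω)} {V : ValuationSubring Ω}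

omit [NumberField F] [IQ F] in
theorem g7b_act2 (T : Pt (WAB A B) Ω) : act 2 T = T + T := by
  have h1 : (2 : 𝓞 F) = 1 + 1 := by norm_num
  rw [h1, map_add, map_one]
  rfl

theorem g7b_vieta {k : Type} [Field k] {a b x y z : k} (hx : 0 = x ^ 3 + a * x + b)
    (hy : 0 = y ^ 3 + a * y + b) (hz : 0 = z ^ 3 + a * z + b) (h1 : x ≠ y) (h2 : x ≠ z) (h3 : y ≠ z) :
    x + y + z = 0 ∧ x * y + x * z + y * z = a ∧ x * y * z = -b := by
  have e1 : x ^ 2 + x * y + y ^ 2 + a = 0 := by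
    have : (x - y) * (x ^ 2 + x * y + y ^ 2 + a) = 0 := by linear_combination hy - hx
    rcases mul_eq_zero.1 this with h | h
    · exact absurd (sub_eq_zero.1 h) h1
    · exact h
  have e2 : x ^ 2 + x * z + z ^ 2 + a = 0 := by
    have : (x - z) * (x ^ 2 + x * z + z ^ 2 + a) = 0 := by linear_combination hz - hx
    rcases mul_eq_zero.1 this with h | h
    · exact absurd (sub_eq_zero.1 h) h2
    · exact h
  have e3 : x + y + z = 0 := by
    have : (y - z) * (x + y + z) = 0 := by linear_combination e1 - e2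
    rcases mul_eq_zero.1 this with h | h
    · exact absurd (sub_eq_zero.1 h) h3
    · exact h
  have hz' : z = -(x + y) := by linear_combination e3
  have ha : a = -(x ^ 2 + x * y + y ^ 2) := by linear_combination e1
  refine ⟨e3, ?_, ?_⟩
  · rw [hz', ha]
    ring
  · have hb : b = -x ^ 3 - a * x := by linear_combination -hx
    rw [hb, hz', ha]
    ring

/-- Chunk G7B (S/M). The three points of order 2: y = 0 (2 T = 0: T = -T, yc_neg), the x-coordinates are the three different roots of x^3 + A x + B (eqnA): Vieta. exists_TN for b = 2, Nm 2 = 4 (Nm_nat), act 2 T = 2 • T. -/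
theorem two_tors (h : CMA F A B Om j act) : ∃ e₁ e₂ e₃ : Pt (WAB A B) Ω,
    (∀ T, act 2 T = 0 ∧ T ≠ 0 ↔ T = e₁ ∨ T = e₂ ∨ T = e₃) ∧ e₁ ≠ e₂ ∧ e₁ ≠ e₃ ∧ e₂ ≠ e₃ ∧
    xc e₁ + xc e₂ + xc e₃ = 0 ∧
    xc e₁ * xc e₂ + xc e₁ * xc e₃ + xc e₂ * xc e₃ = algebraMap F Ω A ∧
    xc e₁ * xc e₂ * xc e₃ = -algebraMap F Ω B := by
  have hc : CharZero Ω := charZero_of_injective_algebraMap (algebraMap F Ω).injective
  have h20 : (2 : 𝓞 F) ≠ 0 := two_ne_zero
  obtain ⟨S, hS, hcard⟩ := exists_TN h h20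
  have hN : Nm (2 : 𝓞 F) = 4 := by
    have := Nm_nat (F := F) 2
    rw [Nat.cast_ofNat] at this
    rw [this]
    norm_num
  rw [hN] at hcard
  obtain ⟨e₁, e₂, e₃, h12, h13, h23, hS3⟩ := Finset.card_eq_three.1 hcard
  have hmem : ∀ T, act 2 T = 0 ∧ T ≠ 0 ↔ T = e₁ ∨ T = e₂ ∨ T = e₃ := by
    intro T
    rw [← hS T, hS3, Finset.mem_insert, Finset.mem_insert, Finset.mem_singleton]
  have hself : ∀ T, (T = e₁ ∨ T = e₂ ∨ T = e₃) → T ≠ 0 ∧ -T = T ∧
      0 = xc T ^ 3 + algebraMap F Ω A * xc T + algebraMap F Ω B := by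
    intro T hT
    obtain ⟨hT2, hT0⟩ := (hmem T).2 hT
    rw [g7b_act2] at hT2
    have hneg : -T = T := neg_eq_of_add_eq_zero_left hT2
    refine ⟨hT0, hneg, ?_⟩
    have hy : yc T = 0 := by
      have h1 := yc_neg T
      rw [hneg] at h1
      have h2 : (2 : Ω) * yc T = 0 := by linear_combination h1
      rcases mul_eq_zero.1 h2 with h3 | h3
      · exact absurd h3 two_ne_zero
      · exact h3
    have := eqnA hT0
    rw [hy] at this
    rw [← this]
    ring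
  obtain ⟨z1, n1, q1⟩ := hself e₁ (Or.inl rfl)
  obtain ⟨z2, n2, q2⟩ := hself e₂ (Or.inr (Or.inl rfl))
  obtain ⟨z3, n3, q3⟩ := hself e₃ (Or.inr (Or.inr rfl))
  have hx : ∀ {P Q : Pt (WAB A B) Ω}, P ≠ 0 → Q ≠ 0 → -Q = Q → P ≠ Q → xc P ≠ xc Q := by
    intro P Q hP hQ hn hne hxx
    rcases xc_eq hP hQ hxx with h1 | h1
    · exact hne h1
    · exact hne (h1.trans hn)
  obtain ⟨v1, v2, v3⟩ := g7b_vieta q1 q2 q3 (hx z1 z2 n2 h12) (hx z1 z3 n3 h13) (hx z2 z3 n3 h23)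
  exact ⟨e₁, e₂, e₃, hmem, h12, h13, h23, v1, v2, v3⟩

end H55K
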