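import Mathlib
import Pool.Agent.Lib.H55K.G7A
import Pool.Agent.Lib.H55K.G7B
import Pool.Agent.Lib.H55K.G7C

/-! # H55K: Frobenius elements: the x-coordinate -/

open NumberField IsDedekindDomain WeierstrassCurve

namespace H55K

open H55P (IQ embF eF LF Per IsHecke Pt ac Inert Dec Nm)
open H35P (WAB Ker tt)


variable {F : Type} [Field F] [NumberField F] [IQ F] {A B : F} {Om : ℂ} {Ω : Type} [Field Ω] [DecidableEq Ω]
  [Algebra F Ω] {j : Ω →+* ℂ} {act : 𝓞 F →+* AddMonoid.End (Pt (WAB A B) Ω)} {V : ValuationSubring Ω}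

theorem g7d_add3 {k : Type} [Field k] (V : ValuationSubring k) {q : ℕ} (hq : q.Prime)
    (hqV : V.valuation (q : k) < 1) {x y z : k} (hx : V.valuation x ≤ 1) (hy : V.valuation y ≤ 1)
    (hz : V.valuation z ≤ 1) : V.valuation ((x + y + z) ^ q - (x ^ q + y ^ q + z ^ q)) < 1 := by
  have h1 := g7c_add V hq hqV hx hy
  have h2 := g7c_add V hq hqV ((V.valuation.map_add x y).trans (max_le hx hy)) hz
  have h3 : (x + y + z) ^ q - (x ^ q + y ^ q + z ^ q) =
      ((x + y + z) ^ q - ((x + y) ^ q + z ^ q)) + ((x + y) ^ q - (x ^ q + y ^ q)) := by ring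
  rw [h3]
  exact V.valuation.map_add_lt h2 h1

theorem g7d_mul {k : Type} [Field k] (V : ValuationSubring k) {a b c d : k} (ha : V.valuation a ≤ 1)
    (hd : V.valuation d ≤ 1) (h1 : V.valuation (a - c) < 1) (h2 : V.valuation (b - d) < 1) :
    V.valuation (a * b - c * d) < 1 := by
  have h3 : a * b - c * d = a * (b - d) + d * (a - c) := by ring
  rw [h3]
  exact V.valuation.map_add_lt (g7c_mul V ha h2) (g7c_mul V hd h1)

/-- Chunk G7D (M). e₁, e₂, e₃ from two_tors. They are not in Ker (ker_tors, n = 2). β does not divide 2 (V(β) < 1, V(2) = 1), so act β permutes e₁, e₂, e₃ (injective: if act β T = 0 and act 2 T = 0 then T = 0, since u β + w 2 = 1). Put c(X) = κ xc (βX) - xc X^q: V(c(X) - c(Y)) < 1 (frob_diff). The sum of the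
c(e_i) is 0 - (sum of xc e_i^q), congruent to -(sum of xc e_i)^q = 0; so V(3 c(e₁)) < 1, V(c(X)) < 1 for all X. Products of the congruences κ xc (β e_i) = xc e_i^q: κ^2 A is congruent to the second symmetric function of the xc e_i^q, which is congruent to A^q (expand (x₁x₂ + x₁x₃ + x₂x₃)^q in characteristic q: (a+b+c)^q = a^q + b^q + c^q),
A^q = A by fermat; in the same way κ^3 (-B) = (-B)^q = -B. -/
theorem frob_x (h : CMA F A B Om j act) (hV : GV A B V) {β : 𝓞 F} (hβ : Prime β)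
    (hv : V.valuation (ak Ω β) < 1) (hq : (Nm β).Prime) : ∃ κ : Ω, V.valuation κ = 1 ∧
    (∀ X : Pt (WAB A B) Ω, ¬ Ker V X → V.valuation (κ * xc (act β X) - xc X ^ Nm β) < 1) ∧
    V.valuation (κ ^ 2 * algebraMap F Ω A - algebraMap F Ω A) < 1 ∧
    V.valuation (κ ^ 3 * algebraMap F Ω B - algebraMap F Ω B) < 1 := by
  obtain ⟨κ, hκ, hdiff⟩ := frob_diff h hV hβ hv hq
  obtain ⟨e₁, e₂, e₃, hmem, h12, h13, h23, v1, v2, v3⟩ := two_tors h
  have hqV : V.valuation ((Nm β : ℕ) : Ω) < 1 := by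
    have h1 : ((Nm β : ℕ) : Ω) = ak Ω β * ak Ω (cj β) := by
      have h2 := mul_cj β
      have h3 := congrArg (fun z : 𝓞 F => algebraMap F Ω (algebraMap (𝓞 F) F z)) h2
      simp only [map_mul, map_natCast] at h3
      exact h3.symm
    rw [h1, map_mul]
    exact mul_lt_one_of_lt_of_le hv (ak_le V (cj β))
  have hq2 : Nm β ≠ 2 := by
    intro h2
    rw [h2, Nat.cast_ofNat, hV.two] at hqV
    exact lt_irrefl _ hqV
  have hodd : Odd (Nm β) := hq.odd_of_ne_two hq2
  have hred : ∀ X : Pt (WAB A B) Ω, ¬ Ker V X → ¬ Ker V (act β X) := fun X hX hX' =>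
    hX (ker_red h hV hβ hv hX')
  have htwo : ∀ T : Pt (WAB A B) Ω, act 2 T = 0 → Ker V T → T = 0 := by
    intro T hT hK
    refine ker_tors hV 2 (by rw [Nat.cast_ofNat]; exact hV.two) ?_ hK
    rw [two_nsmul, ← g7b_act2 (act := act)]
    exact hT
  have hint : ∀ T : Pt (WAB A B) Ω, (T = e₁ ∨ T = e₂ ∨ T = e₃) → ¬ Ker V T ∧
      (act β T = e₁ ∨ act β T = e₂ ∨ act β T = e₃) := by
    intro T hT
    obtain ⟨h1, h2⟩ := (hmem T).2 hT
    have h3 : ¬ Ker V T := fun hK => h2 (htwo T h1 hK)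
    refine ⟨h3, (hmem _).1 ⟨?_, ?_⟩⟩
    · have h4 : act 2 (act β T) = act β (act 2 T) := by
        have h5 : act (2 * β) T = act (β * 2) T := by rw [mul_comm]
        rw [map_mul, map_mul] at h5
        exact h5
      rw [h4, h1, map_zero]
    · intro h4
      apply hred T h3
      rw [h4]
      exact trivial
  have hinj : ∀ T T' : Pt (WAB A B) Ω, act 2 T = 0 → act 2 T' = 0 → act β T = act β T' → T = T' := by
    intro T T' h1 h2 h3
    have h4 : act β (T - T') = 0 := by rw [map_sub, h3, sub_self]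
    have h5 : Ker V (T - T') := tor_ker h hV hβ hv h4
    have h6 : act 2 (T - T') = 0 := by rw [map_sub, h1, h2, sub_self]
    exact sub_eq_zero.1 (htwo _ h6 h5)
  have t1 := ((hmem e₁).2 (Or.inl rfl)).1
  have t2 := ((hmem e₂).2 (Or.inr (Or.inl rfl))).1
  have t3 := ((hmem e₃).2 (Or.inr (Or.inr rfl))).1
  obtain ⟨k1, p1⟩ := hint e₁ (Or.inl rfl)
  obtain ⟨k2, p2⟩ := hint e₂ (Or.inr (Or.inl rfl))
  obtain ⟨k3, p3⟩ := hint e₃ (Or.inr (Or.inr rfl))
  have n12 : act β e₁ ≠ act β e₂ := fun h' => h12 (hinj _ _ t1 t2 h')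
  have n13 : act β e₁ ≠ act β e₃ := fun h' => h13 (hinj _ _ t1 t3 h')
  have n23 : act β e₂ ≠ act β e₃ := fun h' => h23 (hinj _ _ t2 t3 h')
  have hperm : xc (act β e₁) + xc (act β e₂) + xc (act β e₃) = 0 ∧
      xc (act β e₁) * xc (act β e₂) + xc (act β e₁) * xc (act β e₃) + xc (act β e₂) * xc (act β e₃) =
        algebraMap F Ω A ∧
      xc (act β e₁) * xc (act β e₂) * xc (act β e₃) = -algebraMap F Ω B := by
    rcases p1 with p1 | p1 | p1 <;> rcases p2 with p2 | p2 | p2 <;> rcases p3 with p3 | p3 | p3 <;>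
    first
    | exact absurd (p1.trans p2.symm) n12
    | exact absurd (p1.trans p3.symm) n13
    | exact absurd (p2.trans p3.symm) n23
    | (rw [p1, p2, p3]
       refine ⟨?_, ?_, ?_⟩
       · linear_combination v1
       · linear_combination v2
       · linear_combination v3)
  obtain ⟨w1, w2, w3⟩ := hperm
  have i1 := (not_ker V k1).2
  have i2 := (not_ker V k2).2
  have i3 := (not_ker V k3).2
  have j1 := (not_ker V (hred _ k1)).2
  have j2 := (not_ker V (hred _ k2)).2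
  have j3 := (not_ker V (hred _ k3)).2
  have hsum : V.valuation (xc e₁ ^ Nm β + xc e₂ ^ Nm β + xc e₃ ^ Nm β) < 1 := by
    have h1 := g7d_add3 V hq hqV i1 i2 i3
    rw [v1, zero_pow hq.ne_zero, zero_sub, Valuation.map_neg] at h1
    exact h1
  have d12 := hdiff e₁ e₂ k1 k2
  have d13 := hdiff e₁ e₃ k1 k3
  have c1 : V.valuation (κ * xc (act β e₁) - xc e₁ ^ Nm β) < 1 := by
    have h1 : (3 : Ω) * (κ * xc (act β e₁) - xc e₁ ^ Nm β) =
        (κ * (xc (act β e₁) - xc (act β e₂)) - (xc e₁ ^ Nm β - xc e₂ ^ Nm β)) +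
        (κ * (xc (act β e₁) - xc (act β e₃)) - (xc e₁ ^ Nm β - xc e₃ ^ Nm β)) -
        (xc e₁ ^ Nm β + xc e₂ ^ Nm β + xc e₃ ^ Nm β) := by
      linear_combination κ * w1
    have h2 : V.valuation ((3 : Ω) * (κ * xc (act β e₁) - xc e₁ ^ Nm β)) < 1 := by
      rw [h1]
      exact V.valuation.map_sub_lt (V.valuation.map_add_lt d12 d13) hsum
    rwa [map_mul, hV.three, one_mul] at h2
  have call : ∀ X : Pt (WAB A B) Ω, ¬ Ker V X →
      V.valuation (κ * xc (act β X) - xc X ^ Nm β) < 1 := by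
    intro X hX
    have h1 := hdiff X e₁ hX k1
    have h2 : κ * xc (act β X) - xc X ^ Nm β =
        (κ * (xc (act β X) - xc (act β e₁)) - (xc X ^ Nm β - xc e₁ ^ Nm β)) +
        (κ * xc (act β e₁) - xc e₁ ^ Nm β) := by ring
    rw [h2]
    exact V.valuation.map_add_lt h1 c1
  have c2 := call e₂ k2
  have c3 := call e₃ k3
  have hκj : ∀ z : Ω, V.valuation z ≤ 1 → V.valuation (κ * z) ≤ 1 := by
    intro z hz
    rw [map_mul, hκ, one_mul]
    exact hz
  have hpw : ∀ z : Ω, V.valuation z ≤ 1 → V.valuation (z ^ Nm β) ≤ 1 := by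
    intro z hz
    rw [map_pow]
    exact pow_le_one' hz _
  refine ⟨κ, hκ, call, ?_, ?_⟩
  · have hA := fermat hβ hv A ((V.valuation_le_one_iff _).2 hV.a)
    have m12 := g7d_mul V (hκj _ j1) (hpw _ i2) c1 c2
    have m13 := g7d_mul V (hκj _ j1) (hpw _ i3) c1 c3
    have m23 := g7d_mul V (hκj _ j2) (hpw _ i3) c2 c3
    have hle : ∀ {a b : Ω}, V.valuation a ≤ 1 → V.valuation b ≤ 1 → V.valuation (a * b) ≤ 1 := by
      intro a b ha hb
      rw [map_mul]
      exact mul_le_one' ha hb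
    have hs := g7d_add3 V hq hqV (hle i1 i2) (hle i1 i3) (hle i2 i3)
    rw [v2] at hs
    have hfin : κ ^ 2 * algebraMap F Ω A - algebraMap F Ω A =
        (κ * xc (act β e₁) * (κ * xc (act β e₂)) - xc e₁ ^ Nm β * xc e₂ ^ Nm β) +
        (κ * xc (act β e₁) * (κ * xc (act β e₃)) - xc e₁ ^ Nm β * xc e₃ ^ Nm β) +
        (κ * xc (act β e₂) * (κ * xc (act β e₃)) - xc e₂ ^ Nm β * xc e₃ ^ Nm β) -
        (algebraMap F Ω A ^ Nm β - ((xc e₁ * xc e₂) ^ Nm β + (xc e₁ * xc e₃) ^ Nm β +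
          (xc e₂ * xc e₃) ^ Nm β)) +
        (algebraMap F Ω A ^ Nm β - algebraMap F Ω A) := by
      rw [mul_pow, mul_pow, mul_pow]
      linear_combination -κ ^ 2 * w2
    rw [hfin]
    exact V.valuation.map_add_lt (V.valuation.map_sub_lt (V.valuation.map_add_lt
      (V.valuation.map_add_lt m12 m13) m23) hs) hA
  · have hB := fermat hβ hv B ((V.valuation_le_one_iff _).2 hV.b)
    have m12 := g7d_mul V (hκj _ j1) (hpw _ i2) c1 c2
    have hle : V.valuation (κ * xc (act β e₁) * (κ * xc (act β e₂))) ≤ 1 := by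
      rw [map_mul]
      exact mul_le_one' (hκj _ j1) (hκj _ j2)
    have m123 := g7d_mul V hle (hpw _ i3) m12 c3
    have hprod : xc e₁ ^ Nm β * xc e₂ ^ Nm β * xc e₃ ^ Nm β = -(algebraMap F Ω B ^ Nm β) := by
      rw [← mul_pow, ← mul_pow, v3, hodd.neg_pow]
    rw [hprod] at m123
    have hfin : κ ^ 3 * algebraMap F Ω B - algebraMap F Ω B =
        -(κ * xc (act β e₁) * (κ * xc (act β e₂)) * (κ * xc (act β e₃)) -
          -(algebraMap F Ω B ^ Nm β)) + (algebraMap F Ω B ^ Nm β - algebraMap F Ω B) := by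
      linear_combination κ ^ 3 * w3
    rw [hfin]
    refine V.valuation.map_add_lt ?_ hB
    rw [Valuation.map_neg]
    exact m123

end H55K
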