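import Mathlib
import Pool.Agent.Lib.H55K.D0

/-! # H55K: Frobenius elements: the generator -/

open NumberField IsDedekindDomain WeierstrassCurve

namespace H55K

open H55P (IQ embF eF LF Per IsHecke Pt ac Inert Dec Nm)
open H35P (WAB Ker tt)


variable {F : Type} [Field F] [NumberField F] [IQ F] {A B : F} {Om : ℂ} {Ω : Type} [Field Ω] [DecidableEq Ω]
  [Algebra F Ω] {j : Ω →+* ℂ} {act : 𝓞 F →+* AddMonoid.End (Pt (WAB A B) Ω)} {V : ValuationSubring Ω}

omit [NumberField F] [IQ F] [DecidableEq Ω] in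
/-- Chunk G8A (S/M). κ is congruent to the square of a unit of 𝓞 F. A ≠ 0 and B ≠ 0: V(κ^2 - 1) < 1, V(κ^3 - 1) < 1, so V(κ - 1) < 1 (κ^3 - 1 - κ (κ^2 - 1) = κ - 1): u = 1. A = 0 (then V(B) = 1): V(κ^3 - 1) < 1, κ^3 - 1 = (κ - 1)(κ - w)(κ - w^2), w from hA0: κ is congruent to 1, w = (w^2)^2 or w^2.
B = 0: V(κ^2 - 1) < 1: κ is congruent to 1 or -1 = i^2. -/
theorem unit_sq {F : Type} [Field F] [NumberField F] {A B : F} {Ω : Type} [Field Ω] [Algebra F Ω]
    (V : ValuationSubring Ω) (hA : A = 0 ∨ V.valuation (algebraMap F Ω A) = 1)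
    (hB : B = 0 ∨ V.valuation (algebraMap F Ω B) = 1) (hAB : ¬ (A = 0 ∧ B = 0))
    (hA0 : A = 0 → ∃ w : 𝓞 F, w ^ 2 + w + 1 = 0) (hB0 : B = 0 → ∃ w : 𝓞 F, w ^ 2 + 1 = 0) (κ : Ω)
    (hκ : V.valuation κ = 1) (h2 : V.valuation (κ ^ 2 * algebraMap F Ω A - algebraMap F Ω A) < 1)
    (h3 : V.valuation (κ ^ 3 * algebraMap F Ω B - algebraMap F Ω B) < 1) :
    ∃ u : (𝓞 F)ˣ, V.valuation (κ - ak Ω (u : 𝓞 F) ^ 2) < 1 := by
  have hk2 : B = 0 ∨ A ≠ 0 → A = 0 ∨ V.valuation (κ ^ 2 - 1) < 1 := by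
    intro _
    rcases hA with h | h
    · exact Or.inl h
    · right
      have e : κ ^ 2 * algebraMap F Ω A - algebraMap F Ω A = (κ ^ 2 - 1) * algebraMap F Ω A := by ring
      rw [e, map_mul, h, mul_one] at h2
      exact h2
  have hk3 : B = 0 ∨ V.valuation (κ ^ 3 - 1) < 1 := by
    rcases hB with h | h
    · exact Or.inl h
    · right
      have e : κ ^ 3 * algebraMap F Ω B - algebraMap F Ω B = (κ ^ 3 - 1) * algebraMap F Ω B := by ring
      rw [e, map_mul, h, mul_one] at h3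
      exact h3
  have hak1 : ak Ω (((1 : (𝓞 F)ˣ) : 𝓞 F)) = 1 := by
    show algebraMap F Ω (((1 : (𝓞 F)ˣ) : 𝓞 F) : F) = 1
    rw [Units.val_one]
    simp
  have hone : V.valuation (κ - 1) < 1 → ∃ u : (𝓞 F)ˣ, V.valuation (κ - ak Ω (u : 𝓞 F) ^ 2) < 1 := by
    intro h
    refine ⟨1, ?_⟩
    rw [hak1, one_pow]
    exact h
  have hmulp : ∀ a b : Ω, V.valuation (a * b) < 1 → V.valuation a < 1 ∨ V.valuation b < 1 := by
    intro a b hab
    by_contra hcon
    push Not at hcon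
    rw [map_mul] at hab
    exact absurd hab (not_lt.2 (one_le_mul hcon.1 hcon.2))
  by_cases hA1 : A = 0
  · have hB1 : B ≠ 0 := fun h => hAB ⟨hA1, h⟩
    have hk := hk3.resolve_left hB1
    obtain ⟨w, hw⟩ := hA0 hA1
    have hw3 : w * w ^ 2 = 1 := by linear_combination (w - 1) * hw
    have hw3' : w ^ 2 * w = 1 := by rw [mul_comm]; exact hw3
    have hwΩ : (ak Ω w) ^ 2 + ak Ω w + 1 = 0 := by
      have h5 := congrArg (fun z : 𝓞 F => algebraMap F Ω (z : F)) hw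
      simpa [ak] using h5
    have hf : κ ^ 3 - 1 = (κ - 1) * ((κ - ak Ω w) * (κ - (ak Ω w) ^ 2)) := by
      linear_combination (κ - 1) * (κ + 1 - ak Ω w) * hwΩ
    rw [hf] at hk
    rcases hmulp _ _ hk with h | h
    · exact hone h
    · rcases hmulp _ _ h with h | h
      · refine ⟨⟨w ^ 2, w, hw3', hw3⟩, ?_⟩
        have e : ak Ω (((⟨w ^ 2, w, hw3', hw3⟩ : (𝓞 F)ˣ)) : 𝓞 F) = (ak Ω w) ^ 2 := by
          simp [ak]
        rw [e]
        have e2 : κ - ((ak Ω w) ^ 2) ^ 2 = κ - ak Ω w := by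
          linear_combination (-(ak Ω w) ^ 2 + ak Ω w) * hwΩ
        rw [e2]
        exact h
      · refine ⟨⟨w, w ^ 2, hw3, hw3'⟩, ?_⟩
        exact h
  · have hk2' := (hk2 (Or.inr hA1)).resolve_left hA1
    by_cases hB1 : B = 0
    · obtain ⟨i, hi⟩ := hB0 hB1
      have hi1 : i * (-i) = 1 := by linear_combination -hi
      have hi2 : (-i) * i = 1 := by linear_combination -hi
      have e : κ ^ 2 - 1 = (κ - 1) * (κ + 1) := by ring
      rw [e] at hk2'
      rcases hmulp _ _ hk2' with h | h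
      · exact hone h
      · refine ⟨⟨i, -i, hi1, hi2⟩, ?_⟩
        have hiΩ : (ak Ω i) ^ 2 + 1 = 0 := by
          have h5 := congrArg (fun z : 𝓞 F => algebraMap F Ω (z : F)) hi
          simpa [ak] using h5
        have e2 : κ - (ak Ω (((⟨i, -i, hi1, hi2⟩ : (𝓞 F)ˣ)) : 𝓞 F)) ^ 2 = κ + 1 := by
          show κ - (ak Ω i) ^ 2 = κ + 1
          linear_combination -hiΩ
        rw [e2]
        exact h
    · have hk3' := hk3.resolve_left hB1
      apply hone
      have e : κ - 1 = (κ ^ 3 - 1) - κ * (κ ^ 2 - 1) := by ring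
      rw [e]
      refine V.valuation.map_sub_lt hk3' ?_
      rw [map_mul, hκ, one_mul]
      exact hk2'

end H55K
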