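import Mathlib
import Pool.Agent.Lib.H35P.B1
import Pool.Agent.Lib.H35P.Red
import Pool.Agent.Lib.H55P.EDef
import Pool.Agent.Lib.H55P.Sel
import Pool.Agent.Lib.H55P.TD

/-! # H55K: the lattice is determined by g2 and g3 -/

open NumberField IsDedekindDomain WeierstrassCurve

namespace H55K

open H55P (IQ embF eF LF Per IsHecke Pt ac Inert Dec Nm)
open H35P (WAB Ker tt)


variable {F : Type} [Field F] [NumberField F] [IQ F] {A B : F} {Om : ℂ}

theorem z1a_alg {a b x y u v w1 w2 z G g2 g3 m g' : ℂ} (n : ℕ) (hz : z ≠ 0) (ha : a = (z ^ 2)⁻¹ + u) (hb : b = (z ^ 2)⁻¹ + v)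
    (hx : x = -2 * (z ^ 3)⁻¹ + w1) (hy : y = -2 * (z ^ 3)⁻¹ + w2) (h1 : x ^ 2 = 4 * a ^ 3 - g2 * a - g3)
    (h2 : y ^ 2 = 4 * b ^ 3 - g2 * b - g3) (hD : u - v = z ^ n * G) (hD' : z * (w1 - w2) = z ^ n * (m * G + z * g')) :
    (m * G + z * g') * (-4 + z ^ 3 * (w1 + w2)) - G * (4 * ((1 + z ^ 2 * u) ^ 2 + (1 + z ^ 2 * u) * (1 + z ^ 2 * v) +
      (1 + z ^ 2 * v) ^ 2) - g2 * z ^ 4) = 0 := by
  have hA : z ^ 2 * a = 1 + z ^ 2 * u := by
    rw [ha, mul_add, mul_inv_cancel₀ (pow_ne_zero 2 hz)]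
  have hB : z ^ 2 * b = 1 + z ^ 2 * v := by
    rw [hb, mul_add, mul_inv_cancel₀ (pow_ne_zero 2 hz)]
  have hX : z ^ 3 * x = -2 + z ^ 3 * w1 := by
    rw [hx]
    field_simp
  have hY : z ^ 3 * y = -2 + z ^ 3 * w2 := by
    rw [hy]
    field_simp
  have e1 : (z ^ 3 * x) ^ 2 = 4 * (z ^ 2 * a) ^ 3 - g2 * z ^ 4 * (z ^ 2 * a) - g3 * z ^ 6 := by
    linear_combination z ^ 6 * h1
  have e2 : (z ^ 3 * y) ^ 2 = 4 * (z ^ 2 * b) ^ 3 - g2 * z ^ 4 * (z ^ 2 * b) - g3 * z ^ 6 := by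
    linear_combination z ^ 6 * h2
  rw [hA, hX] at e1
  rw [hB, hY] at e2
  have hzn : z ^ 2 * z ^ n ≠ 0 := mul_ne_zero (pow_ne_zero 2 hz) (pow_ne_zero n hz)
  apply mul_left_cancel₀ hzn
  rw [mul_zero]
  linear_combination e1 - e2 - z ^ 2 * (-4 + z ^ 3 * (w1 + w2)) * hD' +
    z ^ 2 * (4 * ((1 + z ^ 2 * u) ^ 2 + (1 + z ^ 2 * u) * (1 + z ^ 2 * v) + (1 + z ^ 2 * v) ^ 2) - g2 * z ^ 4) * hD

theorem z1a_dv (L : PeriodPair) {u : ℂ → ℂ} (hu : AnalyticAt ℂ u 0) (hU : ∀ z : ℂ, z ≠ 0 → L.weierstrassP z = (z ^ 2)⁻¹ + u z) :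
    ∀ᶠ z in nhdsWithin (0 : ℂ) {0}ᶜ, L.derivWeierstrassP z = -2 * (z ^ 3)⁻¹ + deriv u z := by
  filter_upwards [H35P.ev_compl L 0, self_mem_nhdsWithin, hu.eventually_analyticAt.filter_mono nhdsWithin_le_nhds] with z h1 h2 h3
  have hz : z ≠ 0 := h2
  have d1 := H35P.wp_hasDeriv L z h1
  have d2 : HasDerivAt (fun z : ℂ => (z ^ 2)⁻¹ + u z) (-(2 * z) / (z ^ 2) ^ 2 + deriv u z) z := by
    exact (((hasDerivAt_pow 2 z).inv (pow_ne_zero 2 hz)).add h3.differentiableAt.hasDerivAt).congr_deriv (by simp)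
  have e : L.weierstrassP =ᶠ[nhds z] fun z : ℂ => (z ^ 2)⁻¹ + u z := by
    filter_upwards [isOpen_ne.mem_nhds hz] with w hw
    exact hU w hw
  rw [d1.unique (d2.congr_of_eventuallyEq e)]
  congr 1
  field_simp

/-- The two functions agree near `0`. -/
theorem z1a_near (L L' : PeriodPair) (h2 : L.g₂ = L'.g₂) (h3 : L.g₃ = L'.g₃) :
    ∀ᶠ z in nhdsWithin (0 : ℂ) {0}ᶜ, L.weierstrassP z = L'.weierstrassP z := by
  obtain ⟨u, hu, hu0, hU⟩ := H35P.wp_zero L
  obtain ⟨v, hv, hv0, hV⟩ := H35P.wp_zero L'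
  have hD : AnalyticAt ℂ (fun z => u z - v z) 0 := hu.sub hv
  by_cases h : ∀ᶠ z in nhds (0 : ℂ), u z - v z = 0
  · filter_upwards [h.filter_mono nhdsWithin_le_nhds, self_mem_nhdsWithin] with z hz hz0
    rw [hU z hz0, hV z hz0, sub_eq_zero.1 hz]
  · exfalso
    obtain ⟨n, g, hg, hg0, hgD⟩ := hD.exists_eventuallyEq_pow_smul_nonzero_iff.2 h
    simp only [sub_zero, smul_eq_mul] at hgD
    have hev : ∀ᶠ z in nhdsWithin (0 : ℂ) {0}ᶜ, ((n : ℂ) * g z + z * deriv g z) * (-4 + z ^ 3 * (deriv u z + deriv v z)) -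
        g z * (4 * ((1 + z ^ 2 * u z) ^ 2 + (1 + z ^ 2 * u z) * (1 + z ^ 2 * v z) + (1 + z ^ 2 * v z) ^ 2) - L.g₂ * z ^ 4) = 0 := by
      filter_upwards [H35P.ev_compl L 0, H35P.ev_compl L' 0, self_mem_nhdsWithin, z1a_dv L hu hU, z1a_dv L' hv hV,
        hgD.eventually_nhds.filter_mono nhdsWithin_le_nhds, hu.eventually_analyticAt.filter_mono nhdsWithin_le_nhds,
        hv.eventually_analyticAt.filter_mono nhdsWithin_le_nhds, hg.eventually_analyticAt.filter_mono nhdsWithin_le_nhds]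
        with z a1 a2 a3 a4 a5 a6 a7 a8 a9
      have hz : z ≠ 0 := a3
      have o1 := L.derivWeierstrassP_sq z a1
      have o2 := L'.derivWeierstrassP_sq z a2
      rw [← h2, ← h3] at o2
      have d1 : HasDerivAt (fun z => u z - v z) (deriv u z - deriv v z) z :=
        a7.differentiableAt.hasDerivAt.sub a8.differentiableAt.hasDerivAt
      have d2 : HasDerivAt (fun z => z ^ n * g z) ((n : ℂ) * z ^ (n - 1) * g z + z ^ n * deriv g z) z :=
        (hasDerivAt_pow n z).mul a9.differentiableAt.hasDerivAt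
      have d3 := d1.unique (d2.congr_of_eventuallyEq a6)
      have d4 : z * (deriv u z - deriv v z) = z ^ n * ((n : ℂ) * g z + z * deriv g z) := by
        rw [d3]
        rcases n with _ | n
        · simp
        · rw [Nat.add_sub_cancel, pow_succ]
          ring
      exact z1a_alg n hz (hU z hz) (hV z hz) a4 a5 o1 o2 a6.self_of_nhds d4
    have hc : ContinuousAt (fun z => ((n : ℂ) * g z + z * deriv g z) * (-4 + z ^ 3 * (deriv u z + deriv v z)) -
        g z * (4 * ((1 + z ^ 2 * u z) ^ 2 + (1 + z ^ 2 * u z) * (1 + z ^ 2 * v z) + (1 + z ^ 2 * v z) ^ 2) - L.g₂ * z ^ 4)) 0 := by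
      have c1 := hg.continuousAt
      have c2 := hg.deriv.continuousAt
      have c3 := hu.continuousAt
      have c4 := hu.deriv.continuousAt
      have c5 := hv.continuousAt
      have c6 := hv.deriv.continuousAt
      fun_prop
    have t1 := hc.tendsto.mono_left (nhdsWithin_le_nhds (s := {0}ᶜ))
    have t2 : Filter.Tendsto (fun _ : ℂ => (0 : ℂ)) (nhdsWithin (0 : ℂ) {0}ᶜ) (nhds 0) := tendsto_const_nhds
    have t3 := tendsto_nhds_unique (t2.congr' (hev.mono fun z hz => hz.symm)) t1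
    have h5 : ((n : ℂ) + 3) * g 0 = 0 := by
      have h6 : (0 : ℂ) = (n : ℂ) * g 0 * -4 - g 0 * (4 * (1 + 1 + 1)) := by
        simpa using t3
      linear_combination (-(1 / 4) : ℂ) * h6.symm
    rcases mul_eq_zero.1 h5 with h6 | h6
    · have : ((n + 3 : ℕ) : ℂ) = 0 := by
        push_cast
        exact h6
      exact absurd (Nat.cast_eq_zero.1 this) (by omega)
    · exact hg0 h6

theorem z1a_conn (L L' : PeriodPair) : IsPreconnected (((L.lattice : Set ℂ) ∪ (L'.lattice : Set ℂ))ᶜ) := by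
  have h1 : (L.lattice : Set ℂ).Countable := countable_of_Lindelof_of_discrete (X := L.lattice)
  have h2 : (L'.lattice : Set ℂ).Countable := countable_of_Lindelof_of_discrete (X := L'.lattice)
  exact ((h1.union h2).isConnected_compl_of_one_lt_rank (by simp)).isPreconnected

theorem z1a_eq (L L' : PeriodPair) (h2 : L.g₂ = L'.g₂) (h3 : L.g₃ = L'.g₃) :
    Set.EqOn L.weierstrassP L'.weierstrassP (((L.lattice : Set ℂ) ∪ (L'.lattice : Set ℂ))ᶜ) := by
  have hn := z1a_near L L' h2 h3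
  have hn2 : ∀ᶠ z in nhdsWithin (0 : ℂ) {0}ᶜ, ∀ᶠ w in nhds z, L.weierstrassP w = L'.weierstrassP w := by
    filter_upwards [eventually_eventually_nhdsWithin.2 hn, self_mem_nhdsWithin] with z h4 h5
    have hz : z ≠ 0 := h5
    rwa [isOpen_compl_singleton.nhdsWithin_eq hz] at h4
  obtain ⟨z, a1, a2, a3⟩ := (hn2.and ((H35P.ev_compl L 0).and (H35P.ev_compl L' 0))).exists
  have hz : z ∈ (((L.lattice : Set ℂ) ∪ (L'.lattice : Set ℂ))ᶜ) := fun h => h.elim a2 a3
  refine AnalyticOnNhd.eqOn_of_preconnected_of_eventuallyEq (fun w hw => L.analyticOnNhd_weierstrassP w fun h => hw (Or.inl h))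
    (fun w hw => L'.analyticOnNhd_weierstrassP w fun h => hw (Or.inr h)) (z1a_conn L L') hz a1

theorem z1a_sub (L L' : PeriodPair) (h2 : L.g₂ = L'.g₂) (h3 : L.g₃ = L'.g₃) {l : ℂ} (hl : l ∈ L.lattice) : l ∈ L'.lattice := by
  by_contra hl'
  have he := z1a_eq L L' h2 h3
  obtain ⟨u, hu, hu0, hU⟩ := H35P.wp_zero L
  have t1 : Filter.Tendsto (fun z => (z - l) ^ 2 * L'.weierstrassP z) (nhdsWithin l {l}ᶜ) (nhds 0) := by
    have hc : ContinuousAt (fun z => (z - l) ^ 2 * L'.weierstrassP z) l := by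
      have := (L'.analyticOnNhd_weierstrassP l hl').continuousAt
      fun_prop
    have := hc.tendsto.mono_left (nhdsWithin_le_nhds (s := {l}ᶜ))
    simpa using this
  have t2 : Filter.Tendsto (fun z => 1 + (z - l) ^ 2 * u (z - l)) (nhdsWithin l {l}ᶜ) (nhds 1) := by
    have hu' : ContinuousAt u (l - l) := by
      rw [sub_self]
      exact hu.continuousAt
    have hc : ContinuousAt (fun z => 1 + (z - l) ^ 2 * u (z - l)) l := by
      have h4 : ContinuousAt (fun z => u (z - l)) l :=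
        ContinuousAt.comp (g := u) (f := fun z => z - l) hu' (by fun_prop)
      fun_prop
    have := hc.tendsto.mono_left (nhdsWithin_le_nhds (s := {l}ᶜ))
    simpa using this
  have hev : (fun z => 1 + (z - l) ^ 2 * u (z - l)) =ᶠ[nhdsWithin l {l}ᶜ] fun z => (z - l) ^ 2 * L'.weierstrassP z := by
    filter_upwards [H35P.ev_compl L l, H35P.ev_compl L' l, self_mem_nhdsWithin] with z a1 a2 a3
    have hz : z - l ≠ 0 := sub_ne_zero.2 a3
    have h4 : L.weierstrassP z = L'.weierstrassP z := he fun h => h.elim a1 a2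
    have h5 : L.weierstrassP (z - l) = L.weierstrassP z := L.weierstrassP_sub_coe z ⟨l, hl⟩
    rw [← h4, ← h5, hU _ hz, mul_add, mul_inv_cancel₀ (pow_ne_zero 2 hz)]
  exact one_ne_zero (tendsto_nhds_unique t2 (t1.congr' hev.symm))

/-- Chunk Z1A (M). A lattice is determined by g2 and g3. Put p = L.weierstrassP, p' = L'.weierstrassP. H35P.wp_zero: p = z^-2 + u, p' = z^-2 + u', u, u' analytic at 0, u(0) = u'(0) = 0. Both satisfy p_z^2 = 4p^3 - g₂ p - g₃ (derivWeierstrassP_sq) near 0 (z ≠ 0, z not in the lattices), the derivative of p is derivWeierstrassP. D = u - u' is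
analytic at 0. Subtract: (-4 z^-3 + u_z + u'_z) D_z = D (12 z^-4 + 12 z^-2 (u + u') + 4 (u^2 + u u' + u'^2) - g₂). If D is not identically 0 near 0, D = z^n h(z), h(0) ≠ 0, n ≥ 0 (AnalyticAt.exists_eventuallyEq_pow_smul_nonzero_iff, order): multiply by z^(4-n) and let z tend to 0: -4 n h(0) = 12 h(0), absurd. So p = p' near 0 (z ≠ 0), hence on the
complement of both lattices, which is connected (identity theorem; see H28G/GA2.lean, GA2_conn for the complement of a countable closed set: IsPreconnected via Set.Countable.isPathConnected_compl_of_one_lt_rank). If l is in L but not in L': p tends to infinity at l, p' is bounded near l: absurd. -/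
theorem lat_eq (L L' : PeriodPair) (h2 : L.g₂ = L'.g₂) (h3 : L.g₃ = L'.g₃) : L.lattice = L'.lattice := by
  ext z
  exact ⟨fun h => z1a_sub L L' h2 h3 h, fun h => z1a_sub L' L h2.symm h3.symm h⟩

end H55K
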