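import Mathlib
import Pool.Agent.Lib.H35P.B1
import Pool.Agent.Lib.H35P.Red
import Pool.Agent.Lib.H55P.EDef
import Pool.Agent.Lib.H55P.Sel
import Pool.Agent.Lib.H55P.TD

/-! # H55K: the lattice is determined by g2 and g3 -/

open NumberField IsDedekindDomain WeierstrassCurve

namespace H55K

open H55P (IQ embF eF LF Per IsHecke Pt ac Inert Dec Nm)
open H35P (WAB Ker tt)


variable {F : Type} [Field F] [NumberField F] [IQ F] {A B : F} {Om : ℂ}

theorem z1b_indep (L : PeriodPair) (c : ℂ) (hc : c ≠ 0) : LinearIndependent ℝ ![c * L.ω₁, c * L.ω₂] := by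
  have h := L.indep.map' (LinearMap.mulLeft ℝ c) (by
    rw [LinearMap.ker_eq_bot]
    exact mul_right_injective₀ hc)
  have e : (LinearMap.mulLeft ℝ c) ∘ ![L.ω₁, L.ω₂] = ![c * L.ω₁, c * L.ω₂] := by
    ext i
    fin_cases i <;> rfl
  rwa [e] at h

theorem z1b_G (L L' : PeriodPair) (c : ℂ) (hc : c ≠ 0) (h : ∀ z, z ∈ L'.lattice ↔ ∃ l ∈ L.lattice, z = c * l)
    (n : ℕ) : L'.G n = L.G n / c ^ n := by
  have hf : ∀ l : L.lattice, c * (l : ℂ) ∈ L'.lattice := fun l => (h _).2 ⟨l, l.2, rfl⟩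
  have hb : Function.Bijective (fun l : L.lattice => (⟨c * l, hf l⟩ : L'.lattice)) := by
    constructor
    · intro a b hab
      exact Subtype.ext (mul_right_injective₀ hc (congrArg Subtype.val hab))
    · rintro ⟨z, hz⟩
      obtain ⟨l, hl, e⟩ := (h z).1 hz
      exact ⟨⟨l, hl⟩, Subtype.ext e.symm⟩
  unfold PeriodPair.G
  rw [← (Equiv.ofBijective _ hb).tsum_eq, div_eq_mul_inv, ← tsum_mul_right]
  refine tsum_congr fun l => ?_
  show ((c * (l : ℂ)) ^ n)⁻¹ = _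
  rw [mul_pow, mul_inv, mul_comm]

/-- Chunk Z1B (S/M). Scaling: the period pair c L; g₂(cL) = c^-4 g₂(L), g₃(cL) = c^-6 g₃(L) (tsum over the lattice, Equiv by multiplication by c). -/
theorem lat_scale (L : PeriodPair) (c : ℂ) (hc : c ≠ 0) : ∃ L' : PeriodPair,
    (∀ z, z ∈ L'.lattice ↔ ∃ l ∈ L.lattice, z = c * l) ∧ L'.g₂ = L.g₂ / c ^ 4 ∧ L'.g₃ = L.g₃ / c ^ 6 := by
  have h : ∀ z, z ∈ (⟨c * L.ω₁, c * L.ω₂, z1b_indep L c hc⟩ : PeriodPair).lattice ↔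
      ∃ l ∈ L.lattice, z = c * l := by
    intro z
    rw [PeriodPair.mem_lattice]
    constructor
    · rintro ⟨m, n, rfl⟩
      exact ⟨m * L.ω₁ + n * L.ω₂, PeriodPair.mem_lattice.2 ⟨m, n, rfl⟩, by ring⟩
    · rintro ⟨l, hl, rfl⟩
      obtain ⟨m, n, rfl⟩ := PeriodPair.mem_lattice.1 hl
      exact ⟨m, n, by ring⟩
  refine ⟨⟨c * L.ω₁, c * L.ω₂, z1b_indep L c hc⟩, h, ?_, ?_⟩
  · unfold PeriodPair.g₂
    rw [z1b_G L _ c hc h, mul_div_assoc]
  · unfold PeriodPair.g₃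
    rw [z1b_G L _ c hc h, mul_div_assoc]

end H55K
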