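import Mathlib
import Pool.Agent.Lib.H55K.Z1A
import Pool.Agent.Lib.H55K.Z1B
import Pool.Agent.Lib.H55P.EDef

/-! # H55K: the lattice is determined by g2 and g3 -/

open NumberField IsDedekindDomain WeierstrassCurve

namespace H55K

open H55P (IQ embF eF LF Per IsHecke Pt ac Inert Dec Nm)
open H35P (WAB Ker tt)


variable {F : Type} [Field F] [NumberField F] [IQ F] {A B : F} {Om : ℂ}

theorem z1c_mem (F : Type) [Field F] [NumberField F] [IQ F] (c : ℂ) (hc : c ≠ 0)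
    (h2 : (LF F).g₂ / c ^ 4 = (LF F).g₂) (h3 : (LF F).g₃ / c ^ 6 = (LF F).g₃) : ∃ w : 𝓞 F, c = eF F w := by
  obtain ⟨L', hL, h4, h5⟩ := lat_scale (LF F) c hc
  have h6 : L'.lattice = (LF F).lattice := lat_eq L' (LF F) (h4.trans h2) (h5.trans h3)
  have h7 : c ∈ L'.lattice := (hL c).2 ⟨1, (H55P.mem_LF 1).2 ⟨1, (map_one _).symm⟩, (mul_one c).symm⟩
  rw [h6] at h7
  exact (H55P.mem_LF c).1 h7

/-- Chunk Z1C (S). A = 0: g₂(LF F) = 0 (Per.g2; embF F A = 0). c = a primitive cube root of unity in ℂ: g₂(c LF) = 0, g₃(c LF) = g₃(LF). lat_eq: c * 1 is in the lattice of LF F, so c = eF F w (mem_LF), w^2 + w + 1 = 0 (eF_inj). -/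
theorem zero_A (hp : H55P.Per F (embF F A) (embF F B) Om) (hA : A = 0) : ∃ w : 𝓞 F, w ^ 2 + w + 1 = 0 := by
  have hg2 : (LF F).g₂ = 0 := by
    rw [hp.g2, hA, map_zero, mul_zero, zero_mul]
  have hprim : IsPrimitiveRoot (Complex.exp (2 * Real.pi * Complex.I / (3 : ℕ))) 3 :=
    Complex.isPrimitiveRoot_exp 3 (by norm_num)
  set c : ℂ := Complex.exp (2 * Real.pi * Complex.I / (3 : ℕ)) with hcdef
  have h3 : c ^ 3 = 1 := hprim.pow_eq_one
  have hne : c ≠ 1 := hprim.ne_one (by norm_num)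
  have hc0 : c ≠ 0 := Complex.exp_ne_zero _
  have hq : c ^ 2 + c + 1 = 0 := by
    have h4 : (c - 1) * (c ^ 2 + c + 1) = 0 := by
      linear_combination h3
    rcases mul_eq_zero.1 h4 with h5 | h5
    · exact absurd (sub_eq_zero.1 h5) hne
    · exact h5
  have h6 : c ^ 6 = 1 := by
    have : c ^ 6 = (c ^ 3) ^ 2 := by ring
    rw [this, h3, one_pow]
  obtain ⟨w, hw⟩ := z1c_mem F c hc0 (by rw [hg2, zero_div]) (by rw [h6, div_one])
  refine ⟨w, H55P.eF_inj ?_⟩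
  rw [map_add, map_add, map_pow, ← hw, map_one, map_zero]
  exact hq

/-- Chunk Z1C. B = 0: the same with c = I. -/
theorem zero_B (hp : H55P.Per F (embF F A) (embF F B) Om) (hB : B = 0) : ∃ w : 𝓞 F, w ^ 2 + 1 = 0 := by
  have hg3 : (LF F).g₃ = 0 := by
    rw [hp.g3, hB, map_zero, mul_zero, zero_mul]
  obtain ⟨w, hw⟩ := z1c_mem F Complex.I Complex.I_ne_zero (by rw [Complex.I_pow_four, div_one])
    (by rw [hg3, zero_div])
  refine ⟨w, H55P.eF_inj ?_⟩
  rw [map_add, map_pow, ← hw, map_one, map_zero, Complex.I_sq]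
  norm_num

end H55K
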