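import Mathlib
import Pool.Agent.Lib.H55K.G7D
import Pool.Agent.Lib.H55K.G8A
import Pool.Agent.Lib.H55K.G8B
import Pool.Agent.Lib.H55K.Z1C

/-! # H55K: Frobenius elements: the generator -/

open NumberField IsDedekindDomain WeierstrassCurve

namespace H55K

open H55P (IQ embF eF LF Per IsHecke Pt ac Inert Dec Nm)
open H35P (WAB Ker tt)


variable {F : Type} [Field F] [NumberField F] [IQ F] {A B : F} {Om : ℂ} {Ω : Type} [Field Ω] [DecidableEq Ω]
  [Algebra F Ω] {j : Ω →+* ℂ} {act : 𝓞 F →+* AddMonoid.End (Pt (WAB A B) Ω)} {V : ValuationSubring Ω}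

omit [NumberField F] [IQ F] [DecidableEq Ω] in
theorem g8c_dec {q : ℕ} (hq : 0 < q) (s : Ω ≃ₐ[F] Ω) (hs : ∀ x ∈ V, V.valuation (s x - x ^ q) < 1) : Dec V s := by
  have h1 : ∀ x ∈ V, s x ∈ V := by
    intro x hx
    have e : s x = (s x - x ^ q) + x ^ q := by ring
    rw [e]
    exact V.add_mem _ _ ((V.valuation_le_one_iff _).1 (hs x hx).le) (pow_mem hx q)
  intro x
  refine ⟨fun hx => ?_, h1 x⟩
  by_contra hc
  have h2 : 1 < V.valuation x := by
    rw [← not_le, V.valuation_le_one_iff]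
    exact hc
  have hx0 : x ≠ 0 := by
    rintro rfl
    exact hc V.zero_mem
  have h3 : V.valuation x⁻¹ < 1 := by
    rw [map_inv₀]
    exact inv_lt_one_of_one_lt₀ h2
  have h4 : V.valuation (s x⁻¹) < 1 := by
    have h5 := hs x⁻¹ ((V.valuation_le_one_iff _).1 h3.le)
    have h6 : V.valuation (x⁻¹ ^ q) < 1 := by
      rw [map_pow]
      exact pow_lt_one₀ zero_le h3 hq.ne'
    have e : s x⁻¹ = (s x⁻¹ - x⁻¹ ^ q) + x⁻¹ ^ q := by ring
    rw [e]
    exact V.valuation.map_add_lt h5 h6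
  have h7 : V.valuation (s x) * V.valuation (s x⁻¹) = 1 := by
    rw [← map_mul, ← map_mul, mul_inv_cancel₀ hx0, map_one, map_one]
  have h8 : V.valuation (s x) * V.valuation (s x⁻¹) < 1 := by
    rw [mul_comm]
    exact mul_lt_one_of_lt_of_le h4 ((V.valuation_le_one_iff _).2 hx)
  rw [h7] at h8
  exact lt_irrefl _ h8

/-- Chunk G8C (M). THE FROBENIUS ELEMENT IS A MULTIPLICATION. κ from frob_x, u from unit_sq (zero_A, zero_B; not A = B = 0 by h.disc). β' = u⁻¹ β: xc (β' X) = u^2 xc (βX) (act_unit_x), so V(xc (β'X) - xc X^q) < 1 for X not in Ker. hs: V(xc (sX) - xc X^q) < 1, V(yc (sX) - yc X^q) < 1 (xc_ac, yc_ac; xc X, yc X in V: not_ker, gv_y).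
So xc (β'X), xc (sX) are congruent, both points are not in Ker (ker_red, ker_ac; hs implies Dec V s: x in V implies s x in V, and conversely if s x in V and x not in V then 1/x has value < 1 and so has s (1/x)): cls_x: β'X - sX or β'X + sX in Ker. For X in Ker both β'X and sX are in Ker (ker_act, ker_ac). two_sub with K = kerG:
γ = β' or γ = -β'. -/
theorem frob_gen (h : CMA F A B Om j act) (hV : GV A B V) {β : 𝓞 F} (hβ : Prime β)
    (hv : V.valuation (ak Ω β) < 1) (hq : (Nm β).Prime)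
    (hA : A = 0 ∨ V.valuation (algebraMap F Ω A) = 1) (hB : B = 0 ∨ V.valuation (algebraMap F Ω B) = 1)
    (s : Ω ≃ₐ[F] Ω) (hs : ∀ x ∈ V, V.valuation (s x - x ^ Nm β) < 1) :
    ∃ γ : 𝓞 F, Associated β γ ∧ ∀ X : Pt (WAB A B) Ω, Ker V (act γ X - ac (WAB A B) s X) := by
  obtain ⟨κ, hκ, hx, h2, h3⟩ := frob_x h hV hβ hv hq
  have hAB : ¬(A = 0 ∧ B = 0) := by
    rintro ⟨rfl, rfl⟩
    apply h.disc
    ring
  obtain ⟨u, hu⟩ := unit_sq V hA hB hAB (fun hA0 => zero_A h.per hA0) (fun hB0 => zero_B h.per hB0) κ hκ h2 h3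
  have hDec : Dec V s := g8c_dec hq.pos s hs
  have hmul : ∀ (a b : 𝓞 F) (X : Pt (WAB A B) Ω), act (a * b) X = act a (act b X) := by
    intro a b X
    rw [map_mul]
    rfl
  set β' : 𝓞 F := ((u⁻¹ : (𝓞 F)ˣ) : 𝓞 F) * β with hβ'
  have hβx : ∀ X : Pt (WAB A B) Ω, xc (act β' X) = ak Ω (u : 𝓞 F) ^ 2 * xc (act β X) := by
    intro X
    have e1 := act_unit_x h u⁻¹ (act β X)
    have e2 : ak Ω (u : 𝓞 F) * ak Ω ((u⁻¹ : (𝓞 F)ˣ) : 𝓞 F) = 1 := by
      have e3 : (u : 𝓞 F) * ((u⁻¹ : (𝓞 F)ˣ) : 𝓞 F) = 1 := Units.mul_inv u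
      have e5 : ak Ω ((u : 𝓞 F) * ((u⁻¹ : (𝓞 F)ˣ) : 𝓞 F)) = ak Ω (u : 𝓞 F) * ak Ω ((u⁻¹ : (𝓞 F)ˣ) : 𝓞 F) := by
        unfold ak
        rw [← map_mul, ← map_mul]
      rw [← e5, e3]
      exact (congrArg (algebraMap F Ω) (map_one (algebraMap (𝓞 F) F))).trans (map_one _)
    rw [hβ', hmul, ← e1]
    linear_combination (-(1 + ak Ω (u : 𝓞 F) * ak Ω ((u⁻¹ : (𝓞 F)ˣ) : 𝓞 F)) *
      xc (act ((u⁻¹ : (𝓞 F)ˣ) : 𝓞 F) (act β X))) * e2
  have hkey : ∀ X : Pt (WAB A B) Ω, ¬ Ker V X →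
      Ker V (act β' X - ac (WAB A B) s X) ∨ Ker V (act β' X + ac (WAB A B) s X) := by
    intro X hX
    have n1 : ¬ Ker V (act β X) := fun h' => hX (ker_red h hV hβ hv h')
    have n2 : ¬ Ker V (act β' X) := by
      intro h'
      apply n1
      have := ker_act h hV (u : 𝓞 F) h'
      rw [← hmul, hβ', ← mul_assoc, Units.mul_inv, one_mul] at this
      exact this
    have n3 : ¬ Ker V (ac (WAB A B) s X) := fun h' => hX ((ker_ac s hDec).1 h')
    refine cls_x hV n2 n3 ?_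
    have v1 := hx X hX
    have v2 : V.valuation ((κ - ak Ω (u : 𝓞 F) ^ 2) * xc (act β X)) < 1 := by
      rw [map_mul]
      exact mul_lt_one_of_lt_of_le hu (not_ker V n1).2
    have v3 : V.valuation (s (xc X) - xc X ^ Nm β) < 1 :=
      hs _ ((V.valuation_le_one_iff _).1 (not_ker V hX).2)
    have e : xc (act β' X) - xc (ac (WAB A B) s X) = (κ * xc (act β X) - xc X ^ Nm β) -
        (κ - ak Ω (u : 𝓞 F) ^ 2) * xc (act β X) - (s (xc X) - xc X ^ Nm β) := by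
      rw [hβx, xc_ac]
      ring
    rw [e]
    exact (V.valuation.map_sub_lt (V.valuation.map_sub_lt v1 v2) v3)
  have hall : ∀ X : Pt (WAB A B) Ω, (act β' X - ac (WAB A B) s X ∈ kerG hV) ∨
      (act β' X + ac (WAB A B) s X ∈ kerG hV) := by
    intro X
    by_cases hX : Ker V X
    · left
      exact ksub hV (ker_act h hV _ hX) ((ker_ac s hDec).2 hX)
    · exact hkey X hX
  rcases two_sub (kerG hV) (act β' : Pt (WAB A B) Ω →+ Pt (WAB A B) Ω) (ac (WAB A B) s) hall with h5 | h5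
  · refine ⟨β', ⟨u⁻¹, mul_comm _ _⟩, fun X => h5 X⟩
  · refine ⟨-β', ?_, fun X => ?_⟩
    · exact Associated.neg_right ⟨u⁻¹, mul_comm _ _⟩
    · have e : act (-β') X - ac (WAB A B) s X = -(act β' X + ac (WAB A B) s X) := by
        rw [map_neg]
        change -(act β' X) - ac (WAB A B) s X = _
        abel
      rw [e]
      exact kneg (h5 X)

end H55K
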