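import Mathlib
import Pool.Agent.Lib.H55K.G5B

/-! # H55K: counting the points of the reduction -/

open NumberField IsDedekindDomain WeierstrassCurve

namespace H55K

open H55P (IQ embF eF LF Per IsHecke Pt ac Inert Dec Nm)
open H35P (WAB Ker tt)


variable {F : Type} [Field F] [NumberField F] [IQ F] {A B : F} {Om : ℂ} {Ω : Type} [Field Ω] [DecidableEq Ω]
  [Algebra F Ω] {j : Ω →+* ℂ} {act : 𝓞 F →+* AddMonoid.End (Pt (WAB A B) Ω)} {V : ValuationSubring Ω}

/-- A point killed by b and congruent to X modulo the kernel of reduction. -/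
theorem g9_surj (h : CMA F A B Om j act) (hV : GV A B V) {b : 𝓞 F} (hb : V.valuation (ak Ω b) = 1)
    {X : Pt (WAB A B) Ω} (hX : Ker V (act b X)) : ∃ T ∈ Tor act b, Ker V (X - T) := by
  have hb0 : b ≠ 0 := by
    rintro rfl
    have h1 : ak Ω (0 : 𝓞 F) = 0 := by
      show algebraMap F Ω ((0 : 𝓞 F) : F) = 0
      simp
    rw [h1, map_zero] at hb
    exact zero_ne_one hb
  by_cases hK0 : act b X = 0
  · refine ⟨X, hK0, ?_⟩
    rw [sub_self]
    exact ker_zero V
  by_contra hcon
  push Not at hcon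
  -- no translate of X by a torsion point is in the kernel
  have hno : ∀ R, act b R = 0 → ¬ Ker V (X + R) := by
    intro R hR hk
    refine hcon (-R) ?_ ?_
    · show act b (-R) = 0
      rw [map_neg, hR, neg_zero]
    · rw [sub_neg_eq_add]
      exact hk
  obtain ⟨S, hS, -⟩ := exists_TN h hb0
  obtain ⟨Y, hY, hYS⟩ := inf_cls h hV (Hb act hV b) (Hb_ne h hV hb0) S
  have hYb : ¬ Ker V (act b Y) := fun hk => hY ((mem_Hb hV b Y).2 hk)
  have hY0 : act b Y ≠ 0 := (not_ker V hYb).1
  have hYk : ¬ Ker V Y := (Hb_add h hV hY (map_zero (act b))).2.1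
  have hXk : ¬ Ker V X := by
    have := hno 0 (map_zero (act b))
    rwa [add_zero] at this
  have he := h.e2 b S hb0 hS X Y hK0 hY0
  have hv := congrArg V.valuation he
  rw [map_mul, map_mul, map_mul, map_pow, hb, one_pow, one_mul, map_prod, map_prod] at hv
  have h1 : 1 < V.valuation (xc (act b X)) := (ker_iff V hK0).1 hX
  have h2 : V.valuation (xc (act b Y)) ≤ 1 := (not_ker V hYb).2
  have h3 : V.valuation (xc (act b X) - xc (act b Y)) = V.valuation (xc (act b X)) :=
    Valuation.map_sub_eq_of_lt_left V.valuation (h2.trans_lt h1)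
  have h4 : ∏ R ∈ S, V.valuation (xc R - xc Y) = 1 := by
    apply Finset.prod_eq_one
    intro R hR
    have hR' := (hS R).1 hR
    have hRk : ¬ Ker V R := fun hk => hR'.2 (tor_unit h hV hb hR'.1 hk)
    have hYR : ¬ Ker V (Y - R) := hYS R hR
    have hnR : -R ∈ S := (hS (-R)).2 ⟨by rw [map_neg, hR'.1, neg_zero], neg_ne hR'.2⟩
    have hYR2 : ¬ Ker V (Y - (-R)) := hYS (-R) hnR
    apply cls_diff hV hRk hYk
    · intro hk
      apply hYR
      have := kneg hk
      rwa [neg_sub] at this
    · intro hk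
      apply hYR2
      rwa [sub_neg_eq_add, add_comm]
  rw [h3, h4, mul_one] at hv
  have hint : ∀ P : Pt (WAB A B) Ω, ¬ Ker V P → V.valuation (xc P - xc Y) ≤ 1 := by
    intro P hP
    exact (Valuation.map_sub _ _ _).trans (max_le (not_ker V hP).2 (not_ker V hYk).2)
  have h5 : V.valuation (xc X - xc Y) * ∏ R ∈ S, V.valuation (xc (X + R) - xc Y) ≤ 1 := by
    refine mul_le_one' (hint X hXk) (Finset.prod_le_one' ?_)
    intro R hR
    exact hint _ (hno R ((hS R).1 hR).1)
  rw [← hv] at h5
  exact absurd h1 (not_lt.2 h5)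

/-- Chunk G9A (M). b with V(b) = 1 (b ≠ 0). The map Tor act b -> {classes c of X modulo kerG : act b X in Ker} is bijective. Injective: tor_unit. Surjective: let act b X = K in Ker. If K = 0 done. It is enough to find Z in Ker with act b Z = K (then X - Z is in Tor and has the same class). surj: act b Z₀ = K. S the nonzero points killed by b (exists_TN).
Suppose Z₀ + R is not in Ker for R = 0 and all R in S. Take Y not in Hb act hV b (Hb_ne) with Y - R, Y + R not in Ker for R in S (inf_cls). e2 (X = Z₀): V(xc K - xc (act b Y)) > 1 (xc K large, act b Y not in Ker), V(xc R - xc Y) = 1 for R in S (R is not in Ker by tor_unit; cls_diff), and the right side has value ≤ 1: contradiction. -/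
theorem cls_card (h : CMA F A B Om j act) (hV : GV A B V) {b : 𝓞 F} (hb : V.valuation (ak Ω b) = 1) :
    Nat.card {c : Pt (WAB A B) Ω ⧸ kerG hV // ∃ X : Pt (WAB A B) Ω, (X : Pt (WAB A B) Ω ⧸ kerG hV) = c ∧
      Ker V (act b X)} = Nm b := by
  have hb0 : b ≠ 0 := by
    rintro rfl
    have h1 : ak Ω (0 : 𝓞 F) = 0 := by
      show algebraMap F Ω ((0 : 𝓞 F) : F) = 0
      simp
    rw [h1, map_zero] at hb
    exact zero_ne_one hb
  rw [← tor_card h hb0]
  symm
  have hk : ∀ T : Tor act b, Ker V (act b (T : Pt (WAB A B) Ω)) := by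
    intro T
    have h1 : act b (T : Pt (WAB A B) Ω) = 0 := T.2
    rw [h1]
    exact ker_zero V
  apply Nat.card_eq_of_bijective (fun T : Tor act b =>
    (⟨((T : Pt (WAB A B) Ω) : Pt (WAB A B) Ω ⧸ kerG hV), T, rfl, hk T⟩ :
      {c : Pt (WAB A B) Ω ⧸ kerG hV // ∃ X : Pt (WAB A B) Ω, (X : Pt (WAB A B) Ω ⧸ kerG hV) = c ∧
        Ker V (act b X)}))
  constructor
  · intro T T' hTT
    have h1 := congrArg Subtype.val hTT
    simp only at h1
    rw [QuotientAddGroup.eq] at h1
    have h2 : (-T + T' : Tor act b) = 0 := by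
      apply Subtype.ext
      exact tor_unit h hV hb (-T + T' : Tor act b).2 h1
    exact neg_add_eq_zero.1 h2
  · rintro ⟨c, X, rfl, hX⟩
    obtain ⟨T, hT, hXT⟩ := g9_surj h hV hb hX
    refine ⟨⟨T, hT⟩, ?_⟩
    apply Subtype.ext
    show (T : Pt (WAB A B) Ω ⧸ kerG hV) = X
    rw [QuotientAddGroup.eq, neg_add_eq_sub]
    exact hXT

end H55K
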