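import Mathlib
import Pool.Agent.Lib.H55K.G10A
import Pool.Agent.Lib.H55K.G10B
import Pool.Agent.Lib.H55K.G8C
import Pool.Agent.Lib.H55K.G9A
import Pool.Agent.Lib.H55K.G9B

/-! # H55K: the Frobenius elements are the values of the Hecke character -/

open NumberField IsDedekindDomain WeierstrassCurve

namespace H55K

open H55P (IQ embF eF LF Per IsHecke Pt ac Inert Dec Nm)
open H35P (WAB Ker tt)


variable {F : Type} [Field F] [NumberField F] [IQ F] {A B : F} {Om : ℂ} {Ω : Type} [Field Ω] [DecidableEq Ω]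
  [Algebra F Ω] {j : Ω →+* ℂ} {act : 𝓞 F →+* AddMonoid.End (Pt (WAB A B) Ω)} {V : ValuationSubring Ω}

/-- Chunk G10C (M). Assembly. S = the union of the finite sets for the elements 2, 3, 4A^3 + 27B^2, A (if ≠ 0), B (if ≠ 0), Δ(W₀) (fin_unit; V(Δ) = 1 excludes Δ in v), gam_eq and the primes containing m (finite, m ≠ bottom: h.hecke ne; Ideal.finite_factors). For v outside S, V above v: GV A B V. -/
theorem gv_fin (hd : 4 * A ^ 3 + 27 * B ^ 2 ≠ 0) (Ω : Type) [Field Ω] [Algebra F Ω] :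
    ∃ S : Set (HeightOneSpectrum (𝓞 F)), S.Finite ∧ ∀ v ∉ S, ∀ V : ValuationSubring Ω,
      (∀ a : 𝓞 F, a ∈ v.asIdeal → V.valuation (ak Ω a) < 1) → GV A B V ∧
        (A = 0 ∨ V.valuation (algebraMap F Ω A) = 1) ∧ (B = 0 ∨ V.valuation (algebraMap F Ω B) = 1) := by
  have hfin : ∀ x : F, ∃ S : Set (HeightOneSpectrum (𝓞 F)), S.Finite ∧ ∀ v ∉ S, ∀ V : ValuationSubring Ω,
      (∀ a : 𝓞 F, a ∈ v.asIdeal → V.valuation (ak Ω a) < 1) →
        x = 0 ∨ V.valuation (algebraMap F Ω x) = 1 := by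
    intro x
    by_cases hx : x = 0
    · exact ⟨∅, Set.finite_empty, fun _ _ _ _ => Or.inl hx⟩
    · obtain ⟨S, hS, h⟩ := fin_unit Ω x hx
      exact ⟨S, hS, fun v hv V hV => Or.inr (h v hv V hV)⟩
  obtain ⟨S₁, f₁, g₁⟩ := hfin A
  obtain ⟨S₂, f₂, g₂⟩ := hfin B
  obtain ⟨S₃, f₃, g₃⟩ := hfin 2
  obtain ⟨S₄, f₄, g₄⟩ := hfin 3
  obtain ⟨S₅, f₅, g₅⟩ := hfin (4 * A ^ 3 + 27 * B ^ 2)
  refine ⟨S₁ ∪ S₂ ∪ S₃ ∪ S₄ ∪ S₅, (((f₁.union f₂).union f₃).union f₄).union f₅, fun v hv V hV => ?_⟩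
  simp only [Set.mem_union, not_or] at hv
  obtain ⟨⟨⟨⟨v₁, v₂⟩, v₃⟩, v₄⟩, v₅⟩ := hv
  have c₁ := g₁ v v₁ V hV
  have c₂ := g₂ v v₂ V hV
  have c₃ := (g₃ v v₃ V hV).resolve_left two_ne_zero
  have c₄ := (g₄ v v₄ V hV).resolve_left three_ne_zero
  have c₅ := (g₅ v v₅ V hV).resolve_left hd
  rw [map_ofNat] at c₃ c₄
  have hmem : ∀ x : F, (x = 0 ∨ V.valuation (algebraMap F Ω x) = 1) → algebraMap F Ω x ∈ V := by
    rintro x (rfl | h)
    · rw [map_zero]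
      exact V.zero_mem
    · exact (V.valuation_le_one_iff _).1 h.le
  exact ⟨⟨hmem A c₁, hmem B c₂, c₃, c₄, c₅⟩, c₁, c₂⟩

/-- Chunk G10C. THE VALUES OF ψ ARE THE FROBENIUS ELEMENTS. v outside the finite set, of degree one, prime to m, v = span {ψ v} (hecke.gen, v coprime to m), β = ψ v prime, Nm β = absNorm v. frob_gen: γ associated to β, Ker V (γX - sX) for all X. red_card and cls_card for b = γ - 1 (V(γ) < 1, so V(γ - 1) = 1; Ker V (sX - X) iff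
Ker V (act (γ - 1) X)): Nm (γ - 1) = number of points of W₀ = Nm (1 - ψ v) (hDeu). gam_eq: γ = ψ v. For n • T = 0, V(n) = 1: n • (γT - sT) = 0, ker_tors: γT = sT. -/
theorem dta_frob [IsAlgClosed Ω] (h : CMA F A B Om j act) (W₀ : WeierstrassCurve (𝓞 F))
    (hA : A = -(algebraMap (𝓞 F) F W₀.c₄) / 48) (hB : B = -(algebraMap (𝓞 F) F W₀.c₆) / 864)
    (hΔ : W₀.Δ ≠ 0) (m : Ideal (𝓞 F)) (ψ : Ideal (𝓞 F) →*₀ 𝓞 F) (hψ : IsHecke m ψ)
    (hDeu : ∀ v : HeightOneSpectrum (𝓞 F), W₀.Δ ∉ v.asIdeal → ¬ m ≤ v.asIdeal →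
      Nat.card (W₀⁄(𝓞 F ⧸ v.asIdeal)).toAffine.Point = Nm (1 - ψ v.asIdeal)) :
    ∃ S : Set (HeightOneSpectrum (𝓞 F)), S.Finite ∧ ∀ v ∉ S, (Ideal.absNorm v.asIdeal).Prime →
    ∀ V : ValuationSubring Ω, (∀ a : 𝓞 F, a ∈ v.asIdeal → V.valuation (ak Ω a) < 1) →
      ∀ s : Ω ≃ₐ[F] Ω, (∀ x ∈ V, V.valuation (s x - x ^ Ideal.absNorm v.asIdeal) < 1) →
        ∀ n : ℕ, V.valuation (n : Ω) = 1 → ∀ T : Pt (WAB A B) Ω, n • T = 0 →
          ac (WAB A B) s T = act (ψ v.asIdeal) T := by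
  obtain ⟨S₁, f₁, g₁⟩ := gv_fin (A := A) (B := B) h.disc Ω
  obtain ⟨S₂, f₂, g₂⟩ := gam_eq F
  have hΔ' : ((W₀.Δ : 𝓞 F) : F) ≠ 0 := fun h0 => hΔ (RingOfIntegers.coe_injective (h0.trans (map_zero (algebraMap (𝓞 F) F)).symm))
  obtain ⟨S₃, f₃, g₃⟩ := fin_unit Ω ((W₀.Δ : 𝓞 F) : F) hΔ'
  have f₄ : {v : HeightOneSpectrum (𝓞 F) | v.asIdeal ∣ m}.Finite := Ideal.finite_factors hψ.ne
  refine ⟨S₁ ∪ S₂ ∪ S₃ ∪ {v | v.asIdeal ∣ m}, ((f₁.union f₂).union f₃).union f₄,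
    fun v hv hpr V hV s hs n hn T hT => ?_⟩
  simp only [Set.mem_union, not_or] at hv
  obtain ⟨⟨⟨v₁, v₂⟩, v₃⟩, v₄⟩ := hv
  obtain ⟨hG, hA', hB'⟩ := g₁ v v₁ V hV
  have hΔv : W₀.Δ ∉ v.asIdeal := by
    intro h0
    have h1 := hV _ h0
    have h2 := g₃ v v₃ V hV
    rw [h2] at h1
    exact lt_irrefl _ h1
  have hmv : ¬ m ≤ v.asIdeal := fun h0 => v₄ (Ideal.dvd_iff_le.2 h0)
  have hcop : IsCoprime v.asIdeal m := by
    rw [Ideal.isCoprime_iff_sup_eq]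
    by_contra hne
    have h1 := v.isMaximal.eq_of_le hne le_sup_left
    exact hmv (by rw [h1]; exact le_sup_right)
  have hgen : Ideal.span {ψ v.asIdeal} = v.asIdeal := hψ.gen _ hcop
  have hβ0 : ψ v.asIdeal ≠ 0 := by
    intro h0
    apply v.ne_bot
    rw [← hgen, h0, Ideal.span_singleton_eq_bot]
  have hβ : Prime (ψ v.asIdeal) := by
    rw [← Ideal.span_singleton_prime hβ0, hgen]
    exact v.isPrime
  have hβv : ψ v.asIdeal ∈ v.asIdeal := by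
    have h1 := Ideal.mem_span_singleton_self (ψ v.asIdeal)
    rw [hgen] at h1
    exact h1
  have hNm : Nm (ψ v.asIdeal) = Ideal.absNorm v.asIdeal := by
    unfold Nm
    rw [hgen]
  obtain ⟨γ, hγ, hker⟩ := frob_gen h hG hβ (hV _ hβv) (by rw [hNm]; exact hpr) hA' hB' s
    (by rw [hNm]; exact hs)
  have hγv : V.valuation (ak Ω γ) < 1 := hV _ (by
    obtain ⟨u, hu⟩ := hγ
    rw [← hu]
    exact Ideal.mul_mem_right _ _ hβv)
  have hγ1 : V.valuation (ak Ω (γ - 1)) = 1 := by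
    have e : ak Ω (γ - 1) = -(1 - ak Ω γ) := by
      have e1 : ((γ - 1 : 𝓞 F) : F) = (γ : F) - 1 := by
        have := map_sub (algebraMap (𝓞 F) F) γ 1
        rw [map_one] at this
        exact this
      unfold ak
      rw [e1, map_sub, map_one]
      ring
    rw [e, Valuation.map_neg]
    have h1 := V.valuation.map_sub_eq_of_lt_right (x := ak Ω γ) (y := (1 : Ω)) (by rw [map_one]; exact hγv)
    rw [← h1.trans (map_one _)]
    exact Valuation.map_sub_swap _ _ _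
  have hc1 := red_card hG W₀ hA hB v hΔv hV s hs
  have hc2 := cls_card h hG hγ1
  have hiff : ∀ X : Pt (WAB A B) Ω, Ker V (ac (WAB A B) s X - X) ↔ Ker V (act (γ - 1) X) := by
    intro X
    have e : act (γ - 1) X = act γ X - X := by
      rw [map_sub, map_one]
      rfl
    rw [e]
    constructor
    · intro h1
      have e2 : act γ X - X = (act γ X - ac (WAB A B) s X) + (ac (WAB A B) s X - X) := by abel
      rw [e2]
      exact kadd hG (hker X) h1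
    · intro h1
      have e2 : ac (WAB A B) s X - X = (act γ X - X) - (act γ X - ac (WAB A B) s X) := by abel
      rw [e2]
      exact ksub hG h1 (hker X)
  have hN : Nm (γ - 1) = Nm (1 - ψ v.asIdeal) := by
    rw [← hc2, ← hDeu v hΔv hmv, hc1]
    simp only [hiff]
  have hγψ : γ = ψ v.asIdeal := g₂ v v₂ hpr _ _ hgen hγ hN
  have hK := hker T
  have hz : n • (act γ T - ac (WAB A B) s T) = 0 := by
    rw [smul_sub, ← map_nsmul, ← map_nsmul, hT, map_zero, map_zero, sub_zero]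
  have h0 := ker_tors hG n hn hz hK
  rw [← hγψ]
  exact (sub_eq_zero.1 h0).symm

end H55K
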