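import Mathlib
import Pool.Agent.Lib.H13S.Defs
import Pool.Agent.Lib.H55K.G1
import Pool.Agent.Lib.H55K.G4A

/-!
# H55K, part S: from Selmer classes to elements of the field of torsion points (definitions)

Port of H13S to the general setting (CMA, Dta). vo V a is the value of the integer a of F, Ker V the kernel of reduction, π a prime
element of 𝓞 F above l.
-/

open NumberField IsDedekindDomain WeierstrassCurve

namespace H55K.S

open H55P (IQ embF eF LF Per IsHecke Pt ac Inert Dec Nm)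
open H35P (WAB Ker tt)
open H13S (Abv)

section mult

variable {M R : Type} [AddCommGroup M] [CommRing R] {act : R →+* AddMonoid.End M}

theorem act_mul (a b : R) (P : M) : act (a * b) P = act a (act b P) := by rw [map_mul]; rfl

theorem act_add (a b : R) (P : M) : act (a + b) P = act a P + act b P := by rw [map_add]; rfl

theorem act_sub (a b : R) (P : M) : act (a - b) P = act a P - act b P := by rw [map_sub]; rfl

theorem act_neg (a : R) (P : M) : act (-a) P = -act a P := by rw [map_neg]; rfl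

theorem act_one (P : M) : act (1 : R) P = P := by rw [map_one]; rfl

theorem act_zero (P : M) : act (0 : R) P = 0 := by rw [map_zero]; rfl

theorem act_nat (n : ℕ) (P : M) : act (n : R) P = n • P := by
  rw [map_natCast]
  induction n with
  | zero => rw [Nat.cast_zero, zero_smul]; rfl
  | succ n ih => rw [Nat.cast_succ, succ_nsmul, ← ih]; rfl

end mult

section gal

variable {F : Type} [Field F] {Ω : Type} [Field Ω] [DecidableEq Ω] [Algebra F Ω] {W : WeierstrassCurve F}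

theorem ac_one (P : Pt W Ω) : ac W (1 : Ω ≃ₐ[F] Ω) P = P := by cases P <;> rfl

theorem ac_mul (s t : Ω ≃ₐ[F] Ω) (P : Pt W Ω) : ac W (s * t) P = ac W s (ac W t P) := by
  cases P <;> rfl

theorem ac_inv (s : Ω ≃ₐ[F] Ω) (P : Pt W Ω) : ac W s (ac W s⁻¹ P) = P := by
  rw [← ac_mul, mul_inv_cancel, ac_one]

theorem ac_inj (s : Ω ≃ₐ[F] Ω) {P Q : Pt W Ω} (h : ac W s P = ac W s Q) : P = Q := by
  have h1 := congrArg (ac W s⁻¹) h
  rwa [← ac_mul, ← ac_mul, inv_mul_cancel, ac_one, ac_one] at h1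

theorem ac_ne (s : Ω ≃ₐ[F] Ω) {P : Pt W Ω} (hP : P ≠ 0) : ac W s P ≠ 0 := fun h =>
  hP (ac_inj s (h.trans (map_zero (ac W s)).symm))

theorem xc_ac (s : Ω ≃ₐ[F] Ω) (P : Pt W Ω) : xc (ac W s P) = s (xc P) := by
  cases P with
  | zero => exact (map_zero s).symm
  | some x y h => rfl

theorem yc_ac (s : Ω ≃ₐ[F] Ω) (P : Pt W Ω) : yc (ac W s P) = s (yc P) := by
  cases P with
  | zero => exact (map_zero s).symm
  | some x y h => rfl

theorem tt_ac (s : Ω ≃ₐ[F] Ω) (P : Pt W Ω) : tt (ac W s P) = s (tt P) := by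
  cases P with
  | zero => exact (map_zero s).symm
  | some x y h => exact (map_div₀ s x y).symm

theorem pt_ext {P Q : Pt W Ω} (hP : P ≠ 0) (hQ : Q ≠ 0) (hx : xc P = xc Q) (hy : yc P = yc Q) : P = Q := by
  cases P with
  | zero => exact absurd rfl hP
  | some x y h =>
    cases Q with
    | zero => exact absurd rfl hQ
    | some x' y' h' =>
      obtain rfl : x = x' := hx
      obtain rfl : y = y' := hy
      rfl

omit [DecidableEq Ω] in
/-- An element fixed by the fixing subgroup of L is in L. -/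
theorem ku2_mem [CharZero F] [IsAlgClosure F Ω] (L : IntermediateField F Ω) {x : Ω}
    (h : ∀ s ∈ L.fixingSubgroup, s x = x) : x ∈ L := by
  rw [← InfiniteGalois.fixedField_fixingSubgroup L]
  intro s
  exact h s.1 s.2

theorem ker_zero (V : ValuationSubring Ω) : Ker V (0 : Pt W Ω) := trivial

theorem tt_zero : tt (0 : Pt W Ω) = 0 := rfl

end gal

section cma

variable {F : Type} [Field F] [NumberField F] [IQ F] {A B : F} {Om : ℂ} {Ω : Type} [Field Ω] [DecidableEq Ω]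
  [Algebra F Ω] {j : Ω →+* ℂ} {act : 𝓞 F →+* AddMonoid.End (Pt (WAB A B) Ω)}

theorem mem_Tor {a : 𝓞 F} {P : Pt (WAB A B) Ω} : P ∈ Tor act a ↔ act a P = 0 := Iff.rfl

theorem ac_act (h : CMA F A B Om j act) (s : Ω ≃ₐ[F] Ω) (a : 𝓞 F) (P : Pt (WAB A B) Ω) :
    ac (WAB A B) s (act a P) = act a (ac (WAB A B) s P) := h.gal s a P

theorem ac_mem (h : CMA F A B Om j act) (s : Ω ≃ₐ[F] Ω) {a : 𝓞 F} {P : Pt (WAB A B) Ω} (hP : P ∈ Tor act a) :
    ac (WAB A B) s P ∈ Tor act a := by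
  rw [mem_Tor, ← ac_act h, mem_Tor.1 hP, map_zero]

theorem act_tor {a b : 𝓞 F} {P : Pt (WAB A B) Ω} (hP : P ∈ Tor act a) : act b P ∈ Tor act a := by
  rw [mem_Tor, ← act_mul, mul_comm, act_mul, mem_Tor.1 hP, map_zero]

/-- The value of an integer of F. -/
noncomputable abbrev vo (V : ValuationSubring Ω) (a : 𝓞 F) : V.ValueGroup := V.valuation (ak Ω a)

omit [NumberField F] [IQ F] [DecidableEq Ω] in
theorem vo_mul (V : ValuationSubring Ω) (x y : 𝓞 F) : vo V (x * y) = vo V x * vo V y := by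
  unfold vo ak
  rw [← map_mul, ← map_mul]
  rfl

omit [NumberField F] [IQ F] [DecidableEq Ω] in
theorem vo_pow (V : ValuationSubring Ω) (x : 𝓞 F) (n : ℕ) : vo V (x ^ n) = vo V x ^ n := by
  unfold vo ak
  rw [← map_pow, ← map_pow]
  rfl

omit [NumberField F] [IQ F] [DecidableEq Ω] in
theorem vo_one (V : ValuationSubring Ω) : vo V (1 : 𝓞 F) = 1 := by
  unfold vo ak
  simp

omit [NumberField F] [IQ F] [DecidableEq Ω] in
theorem vo_nat (V : ValuationSubring Ω) (n : ℕ) : vo V (n : 𝓞 F) = V.valuation (n : Ω) := by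
  unfold vo ak
  simp

omit [NumberField F] [IQ F] [DecidableEq Ω] in
theorem vo_ne (V : ValuationSubring Ω) {x : 𝓞 F} (hx : x ≠ 0) : vo V x ≠ 0 := by
  unfold vo ak
  rw [Valuation.ne_zero_iff]
  refine (map_ne_zero _).2 ?_
  exact fun h => hx (RingOfIntegers.coe_injective (h.trans (map_zero (algebraMap (𝓞 F) F)).symm))

omit [NumberField F] [IQ F] [DecidableEq Ω] in
theorem vo_add (V : ValuationSubring Ω) {x y : 𝓞 F} (hx : vo V x < 1) (hy : vo V y < 1) : vo V (x + y) < 1 := by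
  have e : ak Ω (x + y) = ak Ω x + ak Ω y := by
    unfold ak
    rw [← map_add]
    rfl
  show V.valuation (ak Ω (x + y)) < 1
  rw [e]
  exact Valuation.map_add_lt _ hx hy

theorem vo_le (V : ValuationSubring Ω) (a : 𝓞 F) : vo V a ≤ 1 := ak_le V a

theorem vo_unit {V : ValuationSubring Ω} {π x : 𝓞 F} (h : IsCoprime π x) (hV : vo V π < 1) : vo V x = 1 := by
  obtain ⟨a, b, hab⟩ := h
  refine le_antisymm (vo_le V x) ?_
  by_contra hx
  rw [not_le] at hx
  have h1 : vo V (a * π) < 1 := by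
    rw [vo_mul]
    exact lt_of_le_of_lt (mul_le_of_le_one_left' (vo_le V a)) hV
  have h2 : vo V (b * x) < 1 := by
    rw [vo_mul]
    exact lt_of_le_of_lt (mul_le_of_le_one_left' (vo_le V b)) hx
  have h3 := vo_add V h1 h2
  rw [hab, vo_one] at h3
  exact lt_irrefl _ h3

/-- The points killed by a prime element. -/
theorem gi_gen (hA : CMA F A B Om j act) (β : 𝓞 F) (hβ : Prime β) : Nat.card (Tor act β) = Nm β ∧
    ∃ T₀ ∈ Tor act β, (∀ T ∈ Tor act β, ∃ a : 𝓞 F, T = act a T₀) ∧ ∀ a : 𝓞 F, act a T₀ = 0 ↔ β ∣ a := by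
  obtain ⟨T₀, h1, h2, h3, -⟩ := hA.gen β hβ.ne_zero
  exact ⟨tor_card hA hβ.ne_zero, T₀, h1, h2, h3⟩

/-- The data of a class: the data of the base theorem, a prime element pi above l and a cocycle c with values in the points killed
by the conjugate of pi, locally a coboundary on all inertia groups. -/
structure Cl (A B : F) (Om : ℂ) (j : Ω →+* ℂ) (act : 𝓞 F →+* AddMonoid.End (Pt (WAB A B) Ω)) (m : Ideal (𝓞 F))
    (ψ : Ideal (𝓞 F) →*₀ 𝓞 F) (π : 𝓞 F) (l : ℕ) (c : (Ω ≃ₐ[F] Ω) → Pt (WAB A B) Ω) : Prop where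
  dta : Dta A B Om j act m ψ l
  pr : Prime π
  dvd : π ∣ (l : 𝓞 F)
  mul : ∀ s t, c (s * t) = c s + ac (WAB A B) s (c t)
  cont : ∃ L : IntermediateField F Ω, FiniteDimensional F L ∧ ∀ s ∈ L.fixingSubgroup, c s = 0
  val : ∀ s, c s ∈ Tor act (cj π)
  loc : ∀ V : ValuationSubring Ω, ∃ P : Pt (WAB A B) Ω, ∀ s, Inert V s → c s = ac (WAB A B) s P - P

/-- A Galois equivariant pairing between the points killed by the conjugate of pi and those killed by pi, with
values in the l-th roots of unity. -/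
structure Pairing (A B : F) (act : 𝓞 F →+* AddMonoid.End (Pt (WAB A B) Ω)) (π : 𝓞 F) (l : ℕ)
    (e : Pt (WAB A B) Ω → Pt (WAB A B) Ω → Ω) : Prop where
  add_left : ∀ X ∈ Tor act (cj π), ∀ X' ∈ Tor act (cj π), ∀ T ∈ Tor act π, e (X + X') T = e X T * e X' T
  add_right : ∀ X ∈ Tor act (cj π), ∀ T ∈ Tor act π, ∀ T' ∈ Tor act π, e X (T + T') = e X T * e X T'
  root : ∀ X ∈ Tor act (cj π), ∀ T ∈ Tor act π, e X T ^ l = 1
  gal : ∀ (s : Ω ≃ₐ[F] Ω), ∀ X ∈ Tor act (cj π), ∀ T ∈ Tor act π,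
    s (e X T) = e (ac (WAB A B) s X) (ac (WAB A B) s T)
  nondeg : ∀ X ∈ Tor act (cj π), (∀ T ∈ Tor act π, e X T = 1) → X = 0

/-- L is the field generated by the points killed by pi. -/
def IsTF (act : 𝓞 F →+* AddMonoid.End (Pt (WAB A B) Ω)) (π : 𝓞 F) (L : IntermediateField F Ω) : Prop :=
  FiniteDimensional F L ∧ ∀ s : Ω ≃ₐ[F] Ω, s ∈ L.fixingSubgroup ↔ ∀ T ∈ Tor act π, ac (WAB A B) s T = T

/-- y is a Kummer generator for the point T. -/
def Kum (L : IntermediateField F Ω) (e : Pt (WAB A B) Ω → Pt (WAB A B) Ω → Ω)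
    (c : (Ω ≃ₐ[F] Ω) → Pt (WAB A B) Ω) (T : Pt (WAB A B) Ω) (y : Ω) : Prop :=
  y ≠ 0 ∧ ∀ s ∈ L.fixingSubgroup, s y = e (c s) T * y

variable {m : Ideal (𝓞 F)} {ψ : Ideal (𝓞 F) →*₀ 𝓞 F} {π : 𝓞 F} {l : ℕ} {c : (Ω ≃ₐ[F] Ω) → Pt (WAB A B) Ω}

theorem Cl.cma (C : Cl A B Om j act m ψ π l c) : CMA F A B Om j act := C.dta.cma

theorem Cl.hl (C : Cl A B Om j act m ψ π l c) : l.Prime := C.dta.prime

theorem Cl.five (C : Cl A B Om j act m ψ π l c) : 5 ≤ l := C.dta.five

theorem Cl.one (h : Cl A B Om j act m ψ π l c) : c 1 = 0 := by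
  have h1 := h.mul 1 1
  rw [mul_one, ac_one] at h1
  exact left_eq_add.mp h1

end cma

end H55K.S
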