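import Mathlib
import Pool.Agent.Lib.H13S.PA1
import Pool.Agent.Lib.H55K.SD

/-! # H55K, part S: port of H13S/PA1 -/

open NumberField IsDedekindDomain WeierstrassCurve

namespace H55K.S

open H55P (IQ embF eF LF Per IsHecke Pt ac Inert Dec Nm)
open H35P (WAB Ker tt)
open H13S (Abv)






variable {F : Type} [Field F] [NumberField F] [IQ F] {A B : F} {Om : ℂ} {Ω : Type} [Field Ω] [DecidableEq Ω]
  [Algebra F Ω] [IsAlgClosure F Ω] {j : Ω →+* ℂ} {act : 𝓞 F →+* AddMonoid.End (Pt (WAB A B) Ω)} {mo : Ideal (𝓞 F)}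
  {ψ : Ideal (𝓞 F) →*₀ 𝓞 F}

/-- Every nonzero point killed by beta generates. -/
theorem PA1_gen (hA : CMA F A B Om j act) (β : 𝓞 F) (hβ : Prime β) (T₀ : Pt (WAB A B) Ω) (hT : T₀ ∈ Tor act β) (h0 : T₀ ≠ 0) :
    (∀ T ∈ Tor act β, ∃ a : 𝓞 F, T = act a T₀) ∧ ∀ a : 𝓞 F, act a T₀ = 0 ↔ β ∣ a := by
  obtain ⟨_, G₀, hG, hgen, hz⟩ := gi_gen hA β hβ
  obtain ⟨t, ht⟩ := hgen T₀ hT
  have hnt : ¬ β ∣ t := by
    intro h
    exact h0 (ht.trans ((hz t).2 h))
  have hc : IsCoprime β t := (hβ.irreducible.coprime_iff_not_dvd).2 hnt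
  obtain ⟨w, u, huw⟩ := hc
  refine ⟨fun T hT' => ?_, fun a => ?_⟩
  · obtain ⟨x, hx⟩ := hgen T hT'
    refine ⟨x * u, ?_⟩
    rw [ht, ← act_mul, hx]
    have h1 : x = x * u * t + x * w * β := by linear_combination (-x) * huw
    conv_lhs => rw [h1]
    rw [act_add, act_mul (x * w) β, mem_Tor.1 hG, map_zero, add_zero]
  · rw [ht, ← act_mul, hz]
    constructor
    · intro h
      exact (hβ.dvd_or_dvd h).resolve_right hnt
    · intro h
      exact dvd_mul_of_dvd_left h t

omit [IsAlgClosure F Ω] in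
/-- Roots of unity at a Frobenius element. -/
theorem PA1_zeta (l : ℕ) (hl : l.Prime) (ζ : Ω) (hζ : IsPrimitiveRoot ζ l) (V : ValuationSubring Ω)
    (hV : ¬ V.valuation (l : Ω) < 1) (q : ℕ) (s : Ω ≃ₐ[F] Ω)
    (hs : ∀ x ∈ V, V.valuation (s x - x ^ q) < 1) : s ζ = ζ ^ q := by
  have hl0 : NeZero l := ⟨hl.ne_zero⟩
  have hz1 : V.valuation ζ = 1 := by
    have h1 : V.valuation ζ ^ l = 1 := by rw [← map_pow, hζ.pow_eq_one, map_one]
    exact (pow_eq_one_iff_of_nonneg zero_le hl.ne_zero).1 h1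
  have hzV : ζ ∈ V := (V.valuation_le_one_iff ζ).1 hz1.le
  by_contra hne
  have hz0 : ζ ^ q ≠ 0 := pow_ne_zero _ (hζ.ne_zero hl.ne_zero)
  let ξ : Ω := s ζ / ζ ^ q
  have hξ1 : ξ ≠ 1 := fun h => hne ((div_eq_one_iff_eq hz0).1 h)
  have hξl : ξ ^ l = 1 := by
    show (s ζ / ζ ^ q) ^ l = 1
    rw [div_pow, ← map_pow, hζ.pow_eq_one, map_one, ← pow_mul, mul_comm, pow_mul, hζ.pow_eq_one,
      one_pow, div_one]
  have hξv : V.valuation (ξ - 1) < 1 := by
    have h1 : ξ - 1 = (s ζ - ζ ^ q) / ζ ^ q := by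
      show s ζ / ζ ^ q - 1 = _
      field_simp
    rw [h1, map_div₀, map_pow, hz1, one_pow, div_one]
    exact hs ζ hzV
  have hξV : ξ ∈ V := by
    have h1 : ξ - 1 ∈ V := (V.valuation_le_one_iff _).1 hξv.le
    have h2 := V.add_mem _ _ h1 V.one_mem
    rwa [sub_add_cancel] at h2
  let x : V := ⟨ξ, hξV⟩
  have hr : IsLocalRing.residue V x = 1 := by
    have h1 : x - 1 ∈ IsLocalRing.maximalIdeal V := by
      rw [ValuationSubring.valuation_lt_one_iff]
      exact hξv
    have h2 := (IsLocalRing.residue_eq_zero_iff _).2 h1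
    rw [map_sub, map_one, sub_eq_zero] at h2
    exact h2
  have hsum : ∑ i ∈ Finset.range l, x ^ i = 0 := by
    apply Subtype.ext
    have h1 := geom_sum_mul ξ l
    rw [hξl, sub_self] at h1
    have h2 := (mul_eq_zero.1 h1).resolve_right (sub_ne_zero.2 hξ1)
    rw [ZeroMemClass.coe_zero, ← h2]
    push_cast
    rfl
  have h1 : IsLocalRing.residue V (l : V) = 0 := by
    have h2 := congrArg (IsLocalRing.residue V) hsum
    rw [map_sum, map_zero] at h2
    simp only [map_pow, hr, one_pow, Finset.sum_const, Finset.card_range, nsmul_eq_mul, mul_one] at h2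
    rw [map_natCast]
    exact h2
  apply hV
  have h2 := (IsLocalRing.residue_eq_zero_iff _).1 h1
  have h4 := (ValuationSubring.valuation_lt_one_iff V (l : V)).1 h2
  exact h4

/-- Chunk PA1 (M/L). The determinant of the Galois action: conj(chi'(s)) chi(s) = cyclotomic(s) modulo pi.
Let H be the set of all s in G = Gal(Ω/F) for which the conclusion holds for the (unique modulo pi, cj pi, l) a, b, c attached to s. chi, chi' (exists_chi for
pi and cj pi) and the cyclotomic character are homomorphisms, so H is the kernel of the homomorphism s -> cj(chi'(s)) chi(s) / cyc(s) to (𝓞 F/pi)^*; it is a normal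
subgroup containing the open subgroup M.fixingSubgroup, M = F(coordinates of Tor pi, Tor (cj pi), zeta) finite over F. E = fixed field of H: Galois over F, finite,
number field, E.fixingSubgroup = H (H is open, hence closed). Let v be a prime of F not above 3 l, with N v prime, unramified in E, gamma its primary generator (H55B.gen;
Prim). V above v (exists_above for a field, or any valuation ring with value of gamma < 1), s a Frobenius element at V (exists_frob).
gi_frob: ac s T₀ = act gamma T₀, ac s T₀' = act gamma T₀', so a = gamma mod pi, b = gamma mod cj pi; s zeta = zeta^(N v) because s zeta - zeta^(N v) has value < 1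
and different l-th roots of unity differ by elements dividing l (a V-unit). So cj b a - c = cj gamma gamma - Nm gamma = 0 modulo pi (mul_cj): s in H, s acts
trivially on E, so x = x^(N v) modulo the prime of E below V for all x in 𝓞 E: the residue degree is 1. All Frobenius elements and all V above v behave like this, so v splits completely
in E (es = 1, fs = 1, see H55R/Defs: es, fs are ramificationIdxIn, inertiaDegIn). degree_one_split: E = F, H = G. -/
theorem char_id (π : 𝓞 F) (l : ℕ) (dta : Dta A B Om j act mo ψ l) (hπ : Prime π) (hd : π ∣ (l : 𝓞 F))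
    (ζ : Ω) (hζ : IsPrimitiveRoot ζ l) (s : Ω ≃ₐ[F] Ω) (a b : 𝓞 F) (c : ℕ) (T₀ T₀' : Pt (WAB A B) Ω)
    (hT : T₀ ∈ Tor act π) (hT0 : T₀ ≠ 0) (hT' : T₀' ∈ Tor act (cj π)) (hT0' : T₀' ≠ 0)
    (ha : ac (WAB A B) s T₀ = act a T₀) (hb : ac (WAB A B) s T₀' = act b T₀') (hc : s ζ = ζ ^ c) :
    π ∣ cj b * a - (c : 𝓞 F) := by
  classical
  have hA := dta.cma
  have hl := dta.prime
  have hl0 : NeZero l := ⟨hl.ne_zero⟩
  have hac : IsAlgClosed Ω := IsAlgClosure.isAlgClosed F
  have halg : Algebra.IsAlgebraic F Ω := IsAlgClosure.isAlgebraic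
  have hπ' : Prime (cj π) := cj_prime hπ
  have hd' : cj π ∣ (l : 𝓞 F) := by
    rw [cj_dvd, cj_nat]
    exact hd
  obtain ⟨hg, hz⟩ := PA1_gen hA π hπ T₀ hT hT0
  obtain ⟨hg', hz'⟩ := PA1_gen hA (cj π) hπ' T₀' hT' hT0'
  have hex : ∀ t : Ω ≃ₐ[F] Ω, ∃ p : 𝓞 F × 𝓞 F × ℕ, ac (WAB A B) t T₀ = act p.1 T₀ ∧
      ac (WAB A B) t T₀' = act p.2.1 T₀' ∧ t ζ = ζ ^ p.2.2 := by
    intro t
    obtain ⟨x, hx⟩ := hg _ (ac_mem hA t hT)
    obtain ⟨y, hy⟩ := hg' _ (ac_mem hA t hT')
    have h1 : (t ζ) ^ l = 1 := by rw [← map_pow, hζ.pow_eq_one, map_one]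
    obtain ⟨i, _, hi⟩ := hζ.eq_pow_of_pow_eq_one h1
    exact ⟨⟨x, y, i⟩, hx, hy, hi.symm⟩
  choose p hp using hex
  let mk : 𝓞 F →+* 𝓞 F ⧸ Ideal.span {π} := Ideal.Quotient.mk (Ideal.span {π})
  have hmk : ∀ x y : 𝓞 F, mk x = mk y ↔ π ∣ x - y := by
    intro x y
    rw [← Ideal.mem_span_singleton]
    exact Ideal.Quotient.mk_eq_mk_iff_sub_mem _ _
  have uniq1 : ∀ (t : Ω ≃ₐ[F] Ω) (x y : 𝓞 F), ac (WAB A B) t T₀ = act x T₀ → ac (WAB A B) t T₀' = act y T₀' →
      mk (cj y * x) = mk (cj (p t).2.1 * (p t).1) := by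
    intro t x y hx hy
    have h1 : π ∣ x - (p t).1 := by
      rw [← hz, act_sub, ← hx, ← (hp t).1, sub_self]
    have h2 : π ∣ cj y - cj (p t).2.1 := by
      rw [← map_sub, ← cj_dvd, ← hz', act_sub, ← hy, ← (hp t).2.1, sub_self]
    rw [map_mul mk, map_mul mk, (hmk _ _).2 h1, (hmk _ _).2 h2]
  have uniq2 : ∀ (t : Ω ≃ₐ[F] Ω) (n : ℕ), t ζ = ζ ^ n → mk (n : 𝓞 F) = mk ((p t).2.2 : 𝓞 F) := by
    intro t n hn
    have h1 : ζ ^ n = ζ ^ (p t).2.2 := by rw [← hn, (hp t).2.2]
    have h2 : n ≡ (p t).2.2 [MOD l] := by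
      rw [← pow_mod_orderOf, ← pow_mod_orderOf ζ (p t).2.2, ← hζ.eq_orderOf] at h1
      exact hζ.pow_inj (Nat.mod_lt _ hl.pos) (Nat.mod_lt _ hl.pos) h1
    rw [hmk]
    have h4 : (l : ℤ) ∣ ((n : ℤ) - ((p t).2.2 : ℤ)) := (Nat.modEq_iff_dvd.1 h2.symm)
    obtain ⟨m, hm⟩ := h4
    have h6 : (n : 𝓞 F) - ((p t).2.2 : 𝓞 F) = (l : 𝓞 F) * (m : 𝓞 F) := by
      exact_mod_cast congrArg (fun z : ℤ => (z : 𝓞 F)) hm
    rw [h6]
    exact dvd_mul_of_dvd_left hd _
  let D : (Ω ≃ₐ[F] Ω) →* (𝓞 F ⧸ Ideal.span {π}) :=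
    { toFun := fun t => mk (cj (p t).2.1 * (p t).1)
      map_one' := by
        rw [← uniq1 1 1 1 (by rw [ac_one, act_one]) (by rw [ac_one, act_one])]
        simp
      map_mul' := fun t u => by
        rw [← uniq1 (t * u) ((p u).1 * (p t).1) ((p u).2.1 * (p t).2.1)
          (by rw [ac_mul, (hp u).1, ac_act hA, (hp t).1, ← act_mul])
          (by rw [ac_mul, (hp u).2.1, ac_act hA, (hp t).2.1, ← act_mul]), ← map_mul, map_mul cj]
        congr 1
        ring }
  let C : (Ω ≃ₐ[F] Ω) →* (𝓞 F ⧸ Ideal.span {π}) :=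
    { toFun := fun t => mk ((p t).2.2 : 𝓞 F)
      map_one' := by
        rw [← uniq2 1 1 (by rw [pow_one]; rfl)]
        simp
      map_mul' := fun t u => by
        rw [← uniq2 (t * u) ((p t).2.2 * (p u).2.2) (by
          rw [AlgEquiv.mul_apply, (hp u).2.2, map_pow, (hp t).2.2, pow_mul]), ← map_mul]
        congr 1
        push_cast
        rfl }
  have hH : ∀ (t : Ω ≃ₐ[F] Ω) (x y : 𝓞 F) (n : ℕ), ac (WAB A B) t T₀ = act x T₀ → ac (WAB A B) t T₀' = act y T₀' →
      t ζ = ζ ^ n → (t ∈ MonoidHom.eqLocus D C ↔ π ∣ cj y * x - (n : 𝓞 F)) := by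
    intro t x y n hx hy hn
    rw [← hmk, uniq1 t x y hx hy, uniq2 t n hn]
    exact Iff.rfl
  have key : MonoidHom.eqLocus D C = ⊤ := by
    have hint : ∀ x : Ω, IsIntegral F x := fun x => (Algebra.IsAlgebraic.isAlgebraic x).isIntegral
    let A₁ : Set Ω := {xc T₀, yc T₀, xc T₀', yc T₀', ζ}
    have hAf : A₁.Finite := Set.toFinite A₁
    have hAf' : Finite A₁ := hAf
    have hLf : FiniteDimensional F (IntermediateField.adjoin F A₁) :=
      IntermediateField.finiteDimensional_adjoin fun x _ => hint x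
    obtain ⟨S₀, hS₀, hfr⟩ := dta.frob
    refine H13S.PA1_top (F₀ := F) (MonoidHom.eqLocus D C) ?_ (IntermediateField.adjoin F A₁) ?_
      (S₀ ∪ {v | (l : 𝓞 F) ∈ v.asIdeal} ∪ {v | mo ≤ v.asIdeal}) ?_ ?_
    · constructor
      intro t ht g
      show D (g * t * g⁻¹) = C (g * t * g⁻¹)
      have h1 : D t = C t := ht
      rw [map_mul, map_mul, map_mul, map_mul, mul_right_comm, mul_right_comm (C g), h1, ← map_mul,
        ← map_mul, mul_inv_cancel, map_one, map_one]
    · intro t ht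
      have hfix : ∀ x ∈ A₁, t x = x := fun x hx =>
        ht ⟨x, IntermediateField.subset_adjoin F A₁ hx⟩
      have hacne : ∀ P : Pt (WAB A B) Ω, P ≠ 0 → ac (WAB A B) t P ≠ 0 := fun P hP => ac_ne t hP
      have e1 : ac (WAB A B) t T₀ = act 1 T₀ := by
        rw [act_one]
        refine pt_ext (hacne _ hT0) hT0 ?_ ?_
        · rw [xc_ac]
          exact hfix _ (by simp [A₁])
        · rw [yc_ac]
          exact hfix _ (by simp [A₁])
      have e2 : ac (WAB A B) t T₀' = act 1 T₀' := by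
        rw [act_one]
        refine pt_ext (hacne _ hT0') hT0' ?_ ?_
        · rw [xc_ac]
          exact hfix _ (by simp [A₁])
        · rw [yc_ac]
          exact hfix _ (by simp [A₁])
      rw [hH t 1 1 1 e1 e2 (by rw [pow_one]; exact hfix _ (by simp [A₁]))]
      simp
    · have hf : ∀ n : ℕ, n ≠ 0 → {v : HeightOneSpectrum (𝓞 F) | (n : 𝓞 F) ∈ v.asIdeal}.Finite := by
        intro n hn
        have h1 : Ideal.span {(n : 𝓞 F)} ≠ 0 := by
          rw [Ideal.zero_eq_bot, Ne, Ideal.span_singleton_eq_bot]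
          exact Nat.cast_ne_zero.2 hn
        refine (Ideal.finite_factors h1).subset ?_
        intro v hv
        exact Ideal.dvd_span_singleton.2 hv
      have hm : {v : HeightOneSpectrum (𝓞 F) | mo ≤ v.asIdeal}.Finite := by
        refine (Ideal.finite_factors dta.hecke.ne).subset ?_
        intro v hv
        exact Ideal.dvd_iff_le.2 hv
      exact (hS₀.union (hf l hl.ne_zero)).union hm
    · intro v hv hq V hV t ht
      rw [Set.mem_union, Set.mem_union, not_or, not_or] at hv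
      obtain ⟨⟨hvS, hvl⟩, hvm⟩ := hv
      change (l : 𝓞 F) ∉ v.asIdeal at hvl
      change ¬ mo ≤ v.asIdeal at hvm
      have hcop : IsCoprime v.asIdeal mo := by
        rw [Ideal.isCoprime_iff_sup_eq]
        exact v.isMaximal.1.2 _ (left_lt_sup.2 hvm)
      have hspan := dta.hecke.gen v.asIdeal hcop
      have hNm : Nm (ψ v.asIdeal) = Ideal.absNorm v.asIdeal := by
        unfold Nm
        rw [hspan]
      have hVl : ¬ V.valuation (l : Ω) < 1 := by
        intro hlt
        have h1 : Ideal.span {(l : 𝓞 F)} ⊔ v.asIdeal = ⊤ := by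
          rw [sup_comm]
          refine v.isMaximal.1.2 _ (left_lt_sup.2 fun h => hvl (h (Ideal.mem_span_singleton_self _)))
        have h2 : (1 : 𝓞 F) ∈ Ideal.span {(l : 𝓞 F)} ⊔ v.asIdeal := by
          rw [h1]
          exact Submodule.mem_top
        obtain ⟨x, hx, y, hy, hxy⟩ := Submodule.mem_sup.1 h2
        obtain ⟨z, rfl⟩ := Ideal.mem_span_singleton.1 hx
        have h3 : vo V ((l : 𝓞 F) * z) < 1 := by
          rw [vo_mul, vo_nat]
          exact lt_of_le_of_lt (mul_le_of_le_one_right' (vo_le V z)) hlt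
        have h4 := vo_add V h3 (hV y hy)
        rw [hxy, vo_one] at h4
        exact lt_irrefl _ h4
      have hV1 : V.valuation (l : Ω) = 1 := by
        refine le_antisymm ?_ (not_lt.1 hVl)
        rw [← vo_nat (F := F)]
        exact vo_le V _
      have hk : ∀ T : Pt (WAB A B) Ω, ∀ b : 𝓞 F, b ∣ (l : 𝓞 F) → T ∈ Tor act b → l • T = 0 := by
        rintro T b ⟨x, hx⟩ hT
        rw [← act_nat (act := act), hx, mul_comm, act_mul, mem_Tor.1 hT, map_zero]
      have f1 := hfr v hvS hq V hV t ht l hV1 T₀ (hk T₀ π hd hT)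
      have f2 := hfr v hvS hq V hV t ht l hV1 T₀' (hk T₀' (cj π) hd' hT')
      have f3 := PA1_zeta l hl ζ hζ V hVl _ t ht
      rw [hH t _ _ _ f1 f2 f3, mul_comm, mul_cj, hNm, sub_self]
      exact dvd_zero _
  have h1 : s ∈ MonoidHom.eqLocus D C := by
    rw [key]
    exact Subgroup.mem_top s
  exact (hH s a b c ha hb hc).1 h1

end H55K.S
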