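import Mathlib
import Pool.Agent.Lib.H55K.M0
import Pool.Agent.Lib.H55P.Stm

/-! # H55K: the good model of a curve with integral j-invariant -/

open NumberField IsDedekindDomain WeierstrassCurve

namespace H55K.TQ

open H55P (IQ embF eF LF Per IsHecke Pt ac Inert Dec Nm UnitP)
open H35P (WAB Ker tt GoodW IntW)
open H55K.MG (VC Crd)

/-- Chunk QC1B (S/M). Composition of changes of variables. -/
theorem vc_comp {k : Type} [Field k] {W W' W'' : WeierstrassCurve k} {u r s t u' r' s' t' : k} (h : VC W W' u r s t)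
    (h' : VC W' W'' u' r' s' t') :
    VC W W'' (u * u') (u ^ 2 * r' + r) (u * s' + s) (u ^ 3 * t' + s * u ^ 2 * r' + t) := by
  obtain ⟨hu, e1, e2, e3, e4, e6⟩ := h
  obtain ⟨hu', f1, f2, f3, f4, f6⟩ := h'
  refine ⟨mul_ne_zero hu hu', ?_, ?_, ?_, ?_, ?_⟩
  · linear_combination u * f1 + e1
  · linear_combination u ^ 2 * f2 + e2 - u * s' * e1
  · linear_combination u ^ 3 * f3 + e3 + u ^ 2 * r' * e1
  · linear_combination u ^ 4 * f4 + e4 - u * s' * e3 + 2 * r' * u ^ 2 * e2 - (t' + r' * s') * u ^ 3 * e1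
  · linear_combination u ^ 6 * f6 + e6 + r' * u ^ 2 * e4 + r' ^ 2 * u ^ 4 * e2 - t' * u ^ 3 * e3 -
      r' * t' * u ^ 5 * e1

/-- Chunk QC1B (S/M). The inverse. -/
theorem vc_inv {k : Type} [Field k] {W W' : WeierstrassCurve k} {u r s t : k} (h : VC W W' u r s t) :
    VC W' W u⁻¹ (-(r / u ^ 2)) (-(s / u)) ((s * r - t) / u ^ 3) := by
  obtain ⟨hu, e1, e2, e3, e4, e6⟩ := h
  refine ⟨inv_ne_zero hu, ?_, ?_, ?_, ?_, ?_⟩
  · apply mul_left_cancel₀ hu
    field_simp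
    linear_combination -e1
  · apply mul_left_cancel₀ (pow_ne_zero 2 hu)
    field_simp
    linear_combination -e2 - s * e1
  · apply mul_left_cancel₀ (pow_ne_zero 3 hu)
    field_simp
    linear_combination -e3 + r * e1
  · apply mul_left_cancel₀ (pow_ne_zero 4 hu)
    field_simp
    linear_combination -e4 - s * e3 + 2 * r * e2 + (2 * s * r - t) * e1
  · apply mul_left_cancel₀ (pow_ne_zero 6 hu)
    field_simp
    linear_combination -e6 + r * e4 - r ^ 2 * e2 + (s * r - t) * e3 - r * (s * r - t) * e1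

/-- Chunk QC1B (S). Existence: divide. -/
theorem vc_ex {k : Type} [Field k] (W : WeierstrassCurve k) {u : k} (hu : u ≠ 0) (r s t : k) :
    ∃ W', VC W W' u r s t := by
  refine ⟨⟨(W.a₁ + 2 * s) / u, (W.a₂ - s * W.a₁ + 3 * r - s ^ 2) / u ^ 2, (W.a₃ + r * W.a₁ + 2 * t) / u ^ 3,
    (W.a₄ - s * W.a₃ + 2 * r * W.a₂ - (t + r * s) * W.a₁ + 3 * r ^ 2 - 2 * s * t) / u ^ 4,
    (W.a₆ + r * W.a₄ + r ^ 2 * W.a₂ + r ^ 3 - t * W.a₃ - t ^ 2 - r * t * W.a₁) / u ^ 6⟩, hu, ?_, ?_, ?_, ?_, ?_⟩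
  · exact mul_div_cancel₀ _ hu
  · exact mul_div_cancel₀ _ (pow_ne_zero 2 hu)
  · exact mul_div_cancel₀ _ (pow_ne_zero 3 hu)
  · exact mul_div_cancel₀ _ (pow_ne_zero 4 hu)
  · exact mul_div_cancel₀ _ (pow_ne_zero 6 hu)

/-- Chunk QC1B (S). Uniqueness. -/
theorem vc_uniq {k : Type} [Field k] {W W₁ W₂ : WeierstrassCurve k} {u r s t : k} (h₁ : VC W W₁ u r s t)
    (h₂ : VC W W₂ u r s t) : W₁ = W₂ := by
  have hu := h₁.une
  apply WeierstrassCurve.ext
  · exact mul_left_cancel₀ hu (h₁.h1.trans h₂.h1.symm)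
  · exact mul_left_cancel₀ (pow_ne_zero 2 hu) (h₁.h2.trans h₂.h2.symm)
  · exact mul_left_cancel₀ (pow_ne_zero 3 hu) (h₁.h3.trans h₂.h3.symm)
  · exact mul_left_cancel₀ (pow_ne_zero 4 hu) (h₁.h4.trans h₂.h4.symm)
  · exact mul_left_cancel₀ (pow_ne_zero 6 hu) (h₁.h6.trans h₂.h6.symm)

end H55K.TQ
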