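import Mathlib
import Pool.Agent.Lib.H55K.QC1B

/-! # H55K: the good model of a curve with integral j-invariant -/

open NumberField IsDedekindDomain WeierstrassCurve

namespace H55K.TQ

open H55P (IQ embF eF LF Per IsHecke Pt ac Inert Dec Nm UnitP)
open H35P (WAB Ker tt GoodW IntW)
open H55K.MG (VC Crd)

theorem qc1c_smul {k : Type} [Field k] (W : WeierstrassCurve k) (C : VariableChange k) :
    VC W (C • W) (C.u : k) C.r C.s C.t := by
  have hu : (C.u : k) ≠ 0 := C.u.ne_zero
  have hi : (C.u : k) * ((C.u⁻¹ : kˣ) : k) = 1 := Units.mul_inv C.u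
  have hp : ∀ n : ℕ, (C.u : k) ^ n * ((C.u⁻¹ : kˣ) : k) ^ n = 1 := by
    intro n
    rw [← mul_pow, hi, one_pow]
  refine ⟨hu, ?_, ?_, ?_, ?_, ?_⟩
  · rw [variableChange_a₁, ← mul_assoc, hi, one_mul]
  · rw [variableChange_a₂, ← mul_assoc, hp, one_mul]
  · rw [variableChange_a₃, ← mul_assoc, hp, one_mul]
  · rw [variableChange_a₄, ← mul_assoc, hp, one_mul]
  · rw [variableChange_a₆, ← mul_assoc, hp, one_mul]

/-- Chunk QC1C (S/M). The discriminant and c₄ (VariableChange: variableChange_Δ in Mathlib, or ring after multiplying with powers of u). -/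
theorem vc_disc {k : Type} [Field k] {W W' : WeierstrassCurve k} {u r s t : k} (h : VC W W' u r s t) :
    u ^ 12 * W'.Δ = W.Δ ∧ u ^ 4 * W'.c₄ = W.c₄ ∧ u ^ 6 * W'.c₆ = W.c₆ := by
  have hW : W' = (⟨Units.mk0 u h.une, r, s, t⟩ : VariableChange k) • W :=
    vc_uniq h (qc1c_smul W ⟨Units.mk0 u h.une, r, s, t⟩)
  have hp : ∀ n : ℕ, u ^ n * (((Units.mk0 u h.une)⁻¹ : kˣ) : k) ^ n = 1 := by
    intro n
    rw [← mul_pow]
    have h1 : u * (((Units.mk0 u h.une)⁻¹ : kˣ) : k) = 1 := Units.mul_inv (Units.mk0 u h.une)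
    rw [h1, one_pow]
  refine ⟨?_, ?_, ?_⟩
  · rw [hW, variableChange_Δ, ← mul_assoc, hp, one_mul]
  · rw [hW, variableChange_c₄, ← mul_assoc, hp, one_mul]
  · rw [hW, variableChange_c₆, ← mul_assoc, hp, one_mul]

/-- Chunk QC1C (S/M). The relation with the changes of variables of Mathlib (VariableChange, C • W): coefficients of variableChange_def. -/
theorem vc_smul {k : Type} [Field k] (W : WeierstrassCurve k) (C : VariableChange k) :
    VC W (C • W) (C.u : k) C.r C.s C.t := by
  exact qc1c_smul W C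

/-- Chunk QC1C (S). Base change. -/
theorem vc_map {k k' : Type} [Field k] [Field k'] (f : k →+* k') {W W' : WeierstrassCurve k} {u r s t : k} (h : VC W W' u r s t) :
    VC (W.map f) (W'.map f) (f u) (f r) (f s) (f t) := by
  obtain ⟨hu, e1, e2, e3, e4, e6⟩ := h
  refine ⟨(map_ne_zero f).2 hu, ?_, ?_, ?_, ?_, ?_⟩
  · have := congrArg f e1
    simp only [map_mul, map_add, map_sub, map_pow, map_ofNat] at this
    exact this
  · have := congrArg f e2
    simp only [map_mul, map_add, map_sub, map_pow, map_ofNat] at this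
    exact this
  · have := congrArg f e3
    simp only [map_mul, map_add, map_sub, map_pow, map_ofNat] at this
    exact this
  · have := congrArg f e4
    simp only [map_mul, map_add, map_sub, map_pow, map_ofNat] at this
    exact this
  · have := congrArg f e6
    simp only [map_mul, map_add, map_sub, map_pow, map_ofNat] at this
    exact this

end H55K.TQ
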