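import Mathlib
import Pool.Agent.Lib.H13Z.TR
import Pool.Agent.Lib.H55K.QC1C
import Pool.Agent.Lib.H55K.RF
import Pool.Agent.Lib.H55P.D3

/-! # H55K: nonvanishing of the Selmer group over fields which do not contain F -/

open NumberField IsDedekindDomain WeierstrassCurve

namespace H55K.TQ

open H55P (IQ embF eF LF Per IsHecke Pt ac Inert Dec Nm UnitP UnrP)
open H35P (WAB Ker tt GoodW IntW)
open H55K.MG (VC Crd)
open H13Z (SelNon SelNonT)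

theorem nk2_vc (W : WeierstrassCurve ℚ) {A₀ B₀ : ℚ} (hA : A₀ = -W.c₄ / 48) (hB : B₀ = -W.c₆ / 864) :
    VC (WAB A₀ B₀) W 1 (W.b₂ / 12) (W.a₁ / 2) (W.a₃ / 2) := by
  refine ⟨one_ne_zero, ?_, ?_, ?_, ?_, ?_⟩
  · simp only [WAB]
    ring
  · simp only [WAB, WeierstrassCurve.b₂]
    ring
  · simp only [WAB]
    ring
  · simp only [WAB, WeierstrassCurve.b₂, hA, WeierstrassCurve.c₄, WeierstrassCurve.b₄]
    ring
  · simp only [WAB, WeierstrassCurve.b₂, hA, hB, WeierstrassCurve.c₄, WeierstrassCurve.b₄, WeierstrassCurve.c₆, WeierstrassCurve.b₆]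
    ring

/-- The isomorphism with the short equation over Ω, as a map from the points of an equal curve. -/
theorem nk2_iso {Ω : Type} [Field Ω] [DecidableEq Ω] [Algebra ℚ Ω] (W : WeierstrassCurve ℚ) (hΔ : W.Δ ≠ 0) {A₀ B₀ : ℚ}
    (hA : A₀ = -W.c₄ / 48) (hB : B₀ = -W.c₆ / 864) (E : WeierstrassCurve Ω) (hE : E = (WAB A₀ B₀)⁄Ω) :
    ∃ Θ : E.toAffine.Point ≃+ (W⁄Ω).toAffine.Point, ∀ P, P ≠ 0 → Θ P ≠ 0 ∧
      xc P = xc (Θ P) + algebraMap ℚ Ω (W.b₂ / 12) ∧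
      yc P = yc (Θ P) + algebraMap ℚ Ω (W.a₁ / 2) * xc (Θ P) + algebraMap ℚ Ω (W.a₃ / 2) := by
  subst hE
  have hd : (WAB A₀ B₀).Δ = W.Δ := by
    have h1 := W.c_relation
    have h2 : (WAB A₀ B₀).Δ = -16 * (4 * A₀ ^ 3 + 27 * B₀ ^ 2) := by
      simp only [WAB, WeierstrassCurve.Δ, WeierstrassCurve.b₂, WeierstrassCurve.b₄, WeierstrassCurve.b₆, WeierstrassCurve.b₈]
      ring
    rw [h2, hA, hB]
    linear_combination (-1 / 1728 : ℚ) * h1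
  have hv : VC ((WAB A₀ B₀)⁄Ω) (W⁄Ω) (algebraMap ℚ Ω 1) (algebraMap ℚ Ω (W.b₂ / 12)) (algebraMap ℚ Ω (W.a₁ / 2))
    (algebraMap ℚ Ω (W.a₃ / 2)) := vc_map (algebraMap ℚ Ω) (nk2_vc W hA hB)
  have e1 : ((WAB A₀ B₀)⁄Ω).Δ ≠ 0 := by
    have e : ((WAB A₀ B₀)⁄Ω).Δ = algebraMap ℚ Ω (WAB A₀ B₀).Δ := (WAB A₀ B₀).map_Δ _
    rw [e, hd]
    exact (map_ne_zero _).2 hΔ
  have e2 : (W⁄Ω).Δ ≠ 0 := by
    have e : (W⁄Ω).Δ = algebraMap ℚ Ω W.Δ := W.map_Δ _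
    rw [e]
    exact (map_ne_zero _).2 hΔ
  obtain ⟨Θ, hΘ⟩ := MG.vc_iso hv e1 e2
  refine ⟨Θ, fun P hP => ?_⟩
  obtain ⟨g1, g2, g3⟩ := hΘ P hP
  refine ⟨g1, ?_, ?_⟩
  · rw [g2, map_one]
    ring
  · rw [g3, map_one]
    ring

variable {F : Type} [Field F] [NumberField F] [IQ F]

/-- Every automorphism of Ω over the rational numbers is the identity or the conjugation on F. -/
theorem nk2_dich {Ω : Type} [Field Ω] [Algebra F Ω] [Algebra ℚ Ω] [IsScalarTower ℚ F Ω] (s : Ω ≃ₐ[ℚ] Ω) :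
    (∀ x : F, s (algebraMap F Ω x) = algebraMap F Ω x) ∨
      ∀ a : 𝓞 F, s (ak Ω a) = ak Ω (cj a) := by
  have hq : Algebra.IsQuadraticExtension ℚ F := ⟨IQ.deg⟩
  have hn : Normal ℚ F := Algebra.IsQuadraticExtension.normal ℚ F
  have h1 := AlgEquiv.restrictNormal_commutes s F
  obtain ⟨τ, hτ⟩ : ∃ τ, τ = s.restrictNormal F := ⟨_, rfl⟩
  rw [← hτ] at h1
  by_cases h2 : (embF F).comp (τ : F →+* F) = embF F
  · left
    intro x
    rw [← h1 x]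
    congr 1
    exact (embF F).injective (RingHom.congr_fun h2 x)
  · right
    intro a
    have h3 := d1_emb F _ _ h2 (d1_conj_ne F)
    have h4 : τ (a : F) = ((cj a : 𝓞 F) : F) := by
      apply (embF F).injective
      have h5 := RingHom.congr_fun h3 (a : F)
      exact h5.trans (e_cj a).symm
    show s (algebraMap F Ω (a : F)) = algebraMap F Ω ((cj a : 𝓞 F) : F)
    rw [← h1, h4]

/-- An element δ with cj δ = -δ and norm prime to p. -/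
theorem nk2_delta {p : ℕ} (hp : p.Prime) (hp2 : p ≠ 2) (hU : UnrP p F) : ∃ δ : 𝓞 F, cj δ = -δ ∧ ¬ p ∣ Nm δ := by
  by_contra hcon
  push Not at hcon
  refine rf_card (F := F) hp hp2 (fun a => ?_)
  have h1 : cj (a - cj a) = -(a - cj a) := by
    rw [map_sub, cj_cj]
    ring
  obtain ⟨n, hn⟩ := hcon _ h1
  have h2 := mul_cj (a - cj a)
  rw [h1, hn] at h2
  rw [← Ideal.mem_span_singleton]
  refine H55P.pd3_rad hp hU _ ?_
  have h3 : (a - cj a) ^ 2 ∈ Ideal.span {(p : 𝓞 F)} := by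
    rw [Ideal.mem_span_singleton]
    refine ⟨-(n : 𝓞 F), ?_⟩
    push_cast at h2
    linear_combination -h2
  obtain ⟨k, hk⟩ : ∃ k, p = 2 + k := ⟨p - 2, by have := hp.two_le; omega⟩
  have h4 : (a - cj a) ^ p = (a - cj a) ^ 2 * (a - cj a) ^ k := by
    rw [← pow_add, ← hk]
  rw [h4]
  exact Ideal.mul_mem_right _ _ h3

end H55K.TQ
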