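import Mathlib
import Pool.Agent.Lib.H35P.Red
import Pool.Agent.Lib.H55K.M0
import Pool.Agent.Lib.H55K.M4A
import Pool.Agent.Lib.H55P.SD
import Pool.Agent.Lib.H55P.Stm

/-! # H55K: the p-power of an automorphism fixes a p-extension -/

open NumberField IsDedekindDomain WeierstrassCurve

namespace H55K.TQ

open H55P (IQ embF eF LF Per IsHecke Pt ac Inert Dec Nm UnitP)
open H35P (WAB Ker tt GoodW IntW)
open H55K.MG (VC Crd)

variable {F : Type} [Field F] [NumberField F] {Ω : Type} [Field Ω] [Algebra F Ω]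

/-- Chunk T2 (S/M). The restriction of g to L (normal over F: hL.norm with the bottom field) is an element of a group of order p^k (hL.deg; IsGalois as in H55P s3_galois, or: the restriction map to L ≃ₐ[F] L; its cardinality is finrank F L = p^k because L/F is Galois in characteristic 0). -/
theorem pow_fix {p : ℕ} {L : IntermediateField F Ω} [IsAlgClosed Ω] [Algebra.IsAlgebraic F Ω]
    (hL : H55P.PExt p ⊥ L) : ∃ k : ℕ, ∀ g : Ω ≃ₐ[F] Ω, g ^ (p ^ k) ∈ L.fixingSubgroup := by
  have hfin := hL.fin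
  have hcl : IsAlgClosure F Ω := ⟨inferInstance, inferInstance⟩
  have hno : Normal F Ω := IsAlgClosure.normal F Ω
  have hL' : Normal F L := by
    rw [IntermediateField.normal_iff_forall_map_le']
    rintro σ _ ⟨x, hx, rfl⟩
    refine hL.norm σ ?_ x hx
    rw [IntermediateField.mem_fixingSubgroup_iff]
    intro y hy
    obtain ⟨z, rfl⟩ := IntermediateField.mem_bot.1 hy
    exact σ.commutes z
  have hG : IsGalois F L := ⟨⟩
  obtain ⟨k, hk⟩ := hL.deg
  rw [IntermediateField.finrank_bot, one_mul] at hk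
  refine ⟨k, fun g => ?_⟩
  rw [IntermediateField.mem_fixingSubgroup_iff]
  intro x hx
  have h1 : (AlgEquiv.restrictNormalHom L g : L ≃ₐ[F] L) ^ (p ^ k) = 1 := by
    rw [← hk, ← IsGalois.card_aut_eq_finrank]
    exact pow_card_eq_one'
  rw [← map_pow] at h1
  have h2 := (g ^ (p ^ k)).restrictNormal_commutes L ⟨x, hx⟩
  have h3 : (g ^ (p ^ k)).restrictNormal L = 1 := h1
  rw [h3] at h2
  exact h2.symm

end H55K.TQ
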