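import Mathlib
import Pool.Agent.Lib.H35P.Red
import Pool.Agent.Lib.H55K.M0
import Pool.Agent.Lib.H55K.M4A
import Pool.Agent.Lib.H55P.SD
import Pool.Agent.Lib.H55P.Stm

/-! # H55K: the Frobenius map is injective modulo an unramified prime number -/

open NumberField IsDedekindDomain WeierstrassCurve

namespace H55K.TQ

open H55P (IQ embF eF LF Per IsHecke Pt ac Inert Dec Nm UnitP)
open H35P (WAB Ker tt GoodW IntW)
open H55K.MG (VC Crd)

/-- Chunk T3A (S/M). (a - 1)^(p^k) - (a^(p^k) - 1) is divisible by p (add_pow_char_pow modulo p, or in the quotient ring of characteristic p), so p divides (a - 1)^(p^k). The ideal (p) is a product of distinct primes (hunr: no v^2 divides (p)), so it is radical: every prime v containing p contains a - 1,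
and (p) is the intersection (product) of these v (squarefree ideal in a Dedekind domain: Ideal.IsRadical or UniqueFactorizationMonoid: Squarefree.dvd_pow_iff_dvd). -/
theorem frob_inj {F : Type} [Field F] [NumberField F] {p : ℕ} (hp : p.Prime)
    (hunr : ∀ v : HeightOneSpectrum (𝓞 F), (p : 𝓞 F) ∉ v.asIdeal ^ 2) {a : 𝓞 F} {k : ℕ}
    (h : (p : 𝓞 F) ∣ a ^ (p ^ k) - 1) : (p : 𝓞 F) ∣ a - 1 := by
  have hp0 : (p : 𝓞 F) ≠ 0 := by exact_mod_cast hp.ne_zero
  have hsq : Squarefree (Ideal.span {(p : 𝓞 F)}) := by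
    have hne : Ideal.span {(p : 𝓞 F)} ≠ 0 := by
      rw [Ne, Ideal.zero_eq_bot, Ideal.span_singleton_eq_bot]
      exact hp0
    rw [squarefree_iff_irreducible_sq_not_dvd_of_ne_zero hne]
    intro I hI hdvd
    have hpr : Prime I := UniqueFactorizationMonoid.irreducible_iff_prime.1 hI
    refine hunr ⟨I, Ideal.isPrime_of_prime hpr, hpr.ne_zero⟩ ?_
    rw [Ideal.dvd_iff_le, Ideal.span_singleton_le_iff_mem, ← sq] at hdvd
    exact hdvd
  obtain ⟨r, hr⟩ := exists_add_pow_prime_pow_eq hp (a - 1) 1 k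
  rw [sub_add_cancel, one_pow] at hr
  have h1 : (p : 𝓞 F) ∣ (a - 1) ^ (p ^ k) := by
    have e : (a - 1) ^ (p ^ k) = (a ^ (p ^ k) - 1) - (p : 𝓞 F) * ((a - 1) * 1 * r) := by
      rw [hr]
      ring
    rw [e]
    exact dvd_sub h (Dvd.intro _ rfl)
  have h2 : Ideal.span {(p : 𝓞 F)} ∣ (Ideal.span {a - 1}) ^ (p ^ k) := by
    rw [Ideal.span_singleton_pow, Ideal.dvd_iff_le, Ideal.span_singleton_le_span_singleton]
    exact h1
  rw [hsq.dvd_pow_iff_dvd (pow_ne_zero k hp.ne_zero), Ideal.dvd_iff_le,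
    Ideal.span_singleton_le_span_singleton] at h2
  exact h2

end H55K.TQ
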