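import Mathlib
import Pool.Agent.Lib.H55K.D0
import Pool.Agent.Lib.H55K.T3A

/-! # H55K: the Frobenius map is injective modulo an unramified prime number -/

open NumberField IsDedekindDomain WeierstrassCurve

namespace H55K.TQ

open H55P (IQ embF eF LF Per IsHecke Pt ac Inert Dec Nm UnitP)
open H35P (WAB Ker tt GoodW IntW)
open H55K.MG (VC Crd)

/-- Chunk T3B (S/M). T₀ from h.gen for b = p: every T in Tor act p is act a T₀, act a T₀ = 0 iff p divides a. g T₀ is in Tor (h.gal: act p (g T₀) = g (act p T₀)), so g T₀ = act a T₀, g (act b T₀) = act b (act a T₀); g^(p^k) T₀ = act (a^(p^k)) T₀ = T₀, so p divides a^(p^k) - 1; frob_inj. -/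
theorem fix_all {F : Type} [Field F] [NumberField F] [IQ F] {A B : F} {Om : ℂ} {Ω : Type} [Field Ω] [DecidableEq Ω]
    [Algebra F Ω] {j : Ω →+* ℂ} {act : 𝓞 F →+* AddMonoid.End (Pt (WAB A B) Ω)} (h : CMA F A B Om j act) {p : ℕ}
    (hp : p.Prime) (hunr : ∀ v : HeightOneSpectrum (𝓞 F), (p : 𝓞 F) ∉ v.asIdeal ^ 2) (g : Ω ≃ₐ[F] Ω) {k : ℕ}
    (hg : ∀ T : Pt (WAB A B) Ω, p • T = 0 → ac (WAB A B) (g ^ (p ^ k)) T = T) (T : Pt (WAB A B) Ω)
    (hT : p • T = 0) : ac (WAB A B) g T = T := by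
  have hp0 : (p : 𝓞 F) ≠ 0 := by exact_mod_cast hp.ne_zero
  obtain ⟨T₀, hT₀, hgen, hz, -⟩ := h.gen (p : 𝓞 F) hp0
  have hact : ∀ P : Pt (WAB A B) Ω, act (p : 𝓞 F) P = p • P := by
    intro P
    rw [map_natCast]
    rfl
  have hmem : ∀ P : Pt (WAB A B) Ω, p • P = 0 → P ∈ Tor act (p : 𝓞 F) := by
    intro P hP
    show act (p : 𝓞 F) P = 0
    rw [hact, hP]
  have hT₀' : act (p : 𝓞 F) T₀ = 0 := hT₀
  have hgT : act (p : 𝓞 F) (ac (WAB A B) g T₀) = 0 := by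
    rw [← h.gal, hT₀', map_zero]
  obtain ⟨a, ha⟩ := hgen (ac (WAB A B) g T₀) hgT
  have hmul : ∀ (b c : 𝓞 F) (P : Pt (WAB A B) Ω), act (b * c) P = act b (act c P) := by
    intro b c P
    rw [map_mul]
    rfl
  have hpow : ∀ n : ℕ, ac (WAB A B) (g ^ n) T₀ = act (a ^ n) T₀ := by
    intro n
    induction n with
    | zero =>
      rw [pow_zero, pow_zero, map_one]
      cases T₀ <;> rfl
    | succ n ih =>
      have h1 : ac (WAB A B) (g ^ (n + 1)) T₀ = ac (WAB A B) g (ac (WAB A B) (g ^ n) T₀) := by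
        rw [pow_succ']
        cases T₀ <;> rfl
      rw [h1, ih, h.gal, ha, ← hmul, pow_succ]
  have h2 := hg T₀ (by rw [← hact]; exact hT₀')
  rw [hpow] at h2
  have h3 : (p : 𝓞 F) ∣ a ^ (p ^ k) - 1 := by
    rw [← hz]
    have : act (a ^ (p ^ k) - 1) T₀ = act (a ^ (p ^ k)) T₀ - T₀ := by
      rw [map_sub, map_one]
      rfl
    rw [this, h2, sub_self]
  have h4 := frob_inj hp hunr h3
  rw [← hz] at h4
  have h5 : act a T₀ = T₀ := by
    have : act (a - 1) T₀ = act a T₀ - T₀ := by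
      rw [map_sub, map_one]
      rfl
    rw [this, sub_eq_zero] at h4
    exact h4
  obtain ⟨b, rfl⟩ := hgen T (hmem T hT)
  rw [h.gal, ha, h5]

end H55K.TQ
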