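import Mathlib
import Pool.Agent.Lib.H35P.B1
import Pool.Agent.Lib.H35P.Red

open NumberField WeierstrassCurve

namespace H55K.MG

open H35P (WAB Ker GoodW IntW)

variable {Ω : Type} [Field Ω] [IsAlgClosed Ω] {V : ValuationSubring Ω}

open Polynomial in
theorem m2a_root (c : Ω) : ∃ x : Ω, (x ^ 2 - x + 1) ^ 3 = c * (x ^ 2 * (x - 1) ^ 2) := by
  obtain ⟨p, hp⟩ : ∃ p : Polynomial Ω, p = X ^ 6 + C (-3) * X ^ 5 + C (6 - c) * X ^ 4 + C (2 * c - 7) * X ^ 3 +
      C (6 - c) * X ^ 2 + C (-3) * X + 1 := ⟨_, rfl⟩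
  have hd : p.natDegree = 6 := by
    rw [hp]
    compute_degree!
  obtain ⟨x, hx⟩ := IsAlgClosed.exists_root p (by
    intro h
    have := natDegree_eq_of_degree_eq_some h
    rw [hd] at this
    exact absurd this (by norm_num))
  refine ⟨x, ?_⟩
  rw [IsRoot.def, hp] at hx
  simp only [eval_add, eval_mul, eval_pow, eval_X, eval_C, eval_one] at hx
  linear_combination hx

/-! Chunk M2A (M), Legendre form. λ a root of the polynomial (X^2 - X + 1)^3 - (jj/256) X^2 (X - 1)^2, monic of degree 6 with coefficients in V (V(256) = V(2)^8 = 1), so λ in V (if V(λ) > 1 then the term λ^6 dominates: or Valuation /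
IsIntegrallyClosed of a valuation ring; directly: λ^6 = -(sum of c_i λ^i, i < 6) with c_i in V, V(λ)^6 ≤ V(λ)^5). If V(λ) < 1 or V(λ - 1) < 1 then V((λ^2-λ+1)^3) = 1 (λ^2 - λ + 1 = 1 + λ(λ-1)) but the right side has value < 1: contradiction.
W' = ⟨0, -(1+λ), 0, λ, 0⟩: Δ = 16 λ^2 (λ-1)^2, c4 = 16 (λ^2 - λ + 1), c4^3 = 4096 (λ^2-λ+1)^3 = 16 jj λ^2(λ-1)^2 = jj Δ (ring identities after unfolding Δ, b2, .., c4). -/

theorem legendre (h2 : V.valuation (2 : Ω) = 1) {jj : Ω} (hj : jj ∈ V) :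
    ∃ W' : WeierstrassCurve Ω, GoodW W' V ∧ W'.c₄ ^ 3 = jj * W'.Δ ∧ W'.a₁ = 0 ∧ W'.a₃ = 0 := by
  have h20 : (2 : Ω) ≠ 0 := by
    intro h
    rw [h, map_zero] at h2
    exact zero_ne_one h2
  obtain ⟨c, hc⟩ : ∃ c, c = jj / 256 := ⟨_, rfl⟩
  have h256 : (256 : Ω) ≠ 0 := by
    have : (256 : Ω) = 2 ^ 8 := by norm_num
    rw [this]
    exact pow_ne_zero _ h20
  have hcj : jj = 256 * c := by
    rw [hc]
    field_simp
  have hcV : V.valuation c ≤ 1 := by
    have h1 : V.valuation jj ≤ 1 := (V.valuation_le_one_iff _).2 hj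
    have h3 : (256 : Ω) = 2 ^ 8 := by norm_num
    rw [hcj, map_mul, h3, map_pow, h2, one_pow, one_mul] at h1
    exact h1
  obtain ⟨lam, hl⟩ := m2a_root c
  have hmul : ∀ x y : Ω, V.valuation x ≤ 1 → V.valuation y < 1 → V.valuation (x * y) < 1 := by
    intro x y hx hy
    rw [map_mul]
    exact lt_of_le_of_lt (mul_le_of_le_one_left' hx) hy
  have hcont : ∀ x y z : Ω, V.valuation x < 1 → V.valuation y ≤ 1 → V.valuation z ≤ 1 →
      (1 + x) ^ 3 = c * y * (z * x) → False := by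
    intro x y z hx hy hz h
    have e1 : V.valuation ((1 + x) ^ 3) = 1 := by
      rw [map_pow, Valuation.map_one_add_of_lt _ hx, one_pow]
    have e2 : V.valuation (c * y * (z * x)) < 1 := by
      refine hmul _ _ ?_ (hmul _ _ hz hx)
      rw [map_mul]
      exact mul_le_one' hcV hy
    rw [← h, e1] at e2
    exact lt_irrefl _ e2
  have hlV : V.valuation lam ≤ 1 := by
    by_contra hcon
    rw [not_le] at hcon
    have hl0 : lam ≠ 0 := by
      rintro rfl
      rw [map_zero] at hcon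
      exact not_lt.2 zero_le hcon
    have hm : V.valuation lam⁻¹ < 1 := by
      rw [map_inv₀]
      exact inv_lt_one_of_one_lt₀ hcon
    have hm1 : V.valuation (lam⁻¹ - 1) ≤ 1 := by
      refine (V.valuation.map_sub _ _).trans (max_le hm.le ?_)
      rw [map_one]
    have hx : V.valuation (lam⁻¹ * (lam⁻¹ - 1)) < 1 := by
      rw [mul_comm]
      exact hmul _ _ hm1 hm
    refine hcont (lam⁻¹ * (lam⁻¹ - 1)) (lam⁻¹ * (lam⁻¹ - 1)) 1 hx hx.le (by rw [map_one]) ?_
    field_simp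
    linear_combination hl
  have hl1V : V.valuation (lam - 1) ≤ 1 := by
    refine (V.valuation.map_sub _ _).trans (max_le hlV ?_)
    rw [map_one]
  have hprod : ¬ V.valuation (lam * (lam - 1)) < 1 := by
    intro hx
    refine hcont (lam * (lam - 1)) (lam * (lam - 1)) 1 hx hx.le (by rw [map_one]) ?_
    linear_combination hl
  have hl1 : V.valuation lam = 1 := by
    refine le_antisymm hlV (not_lt.1 fun h => hprod ?_)
    rw [mul_comm]
    exact hmul _ _ hl1V h
  have hl2 : V.valuation (lam - 1) = 1 := by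
    refine le_antisymm hl1V (not_lt.1 fun h => hprod ?_)
    exact hmul _ _ hlV h
  have hmem : lam ∈ V := (V.valuation_le_one_iff _).1 hlV
  have hΔ : (⟨0, -(1 + lam), 0, lam, 0⟩ : WeierstrassCurve Ω).Δ = 2 ^ 4 * lam ^ 2 * (lam - 1) ^ 2 := by
    simp only [WeierstrassCurve.Δ, WeierstrassCurve.b₂, WeierstrassCurve.b₄, WeierstrassCurve.b₆, WeierstrassCurve.b₈]
    ring
  refine ⟨⟨0, -(1 + lam), 0, lam, 0⟩, ⟨⟨V.zero_mem, V.neg_mem _ (V.add_mem _ _ V.one_mem hmem), V.zero_mem, hmem,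
    V.zero_mem⟩, ?_⟩, ?_, rfl, rfl⟩
  · rw [hΔ, map_mul, map_mul, map_pow, map_pow, map_pow, h2, hl1, hl2]
    simp
  · rw [hΔ, hcj]
    simp only [WeierstrassCurve.c₄, WeierstrassCurve.b₂, WeierstrassCurve.b₄]
    linear_combination 4096 * hl

end H55K.MG
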