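import Mathlib
import Pool.Agent.Lib.H55K.M0
import Pool.Agent.Lib.H55K.M2A
import Pool.Agent.Lib.H55K.M2B

open NumberField WeierstrassCurve

namespace H55K.MG

open H55P (IQ Pt ac Inert)
open H35P (WAB Ker GoodW IntW)

/-! Chunk M2C (S/M). vc_of_j: both curves are elliptic (Δ <> 0: isUnit), W.j = W'.j (j = Δ'^(-1) c4^3), WeierstrassCurve.exists_variableChange_of_j_eq (IsAlgClosed gives IsSepClosed): C • W = W'; u = C.u, r, s, t; the equations of VC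
are variableChange_a₁ .. a₆ multiplied by powers of u. good_model: jj = algebraMap F Ω j0, in V since j0 is an integer (ak_in: V is integrally closed; see eg ak_le in Lib/H55K/GI.lean or VW/ValuationSubring lemmas: integral elements are in V);
W = (WAB A B)⁄Ω: a1 = a2 = a3 = 0 (map_zero), a4 = algebraMap A, a6 = algebraMap B, c4 = -48 A, Δ = -16 (4A^3 + 27B^2), so c4^3 = jj Δ by hj: -110592 A^3 = -16 * 6912 A^3. Cases V(2) = 1 or V(2) < 1 (V(2) ≤ 1). -/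

theorem vc_of_j {Ω : Type} [Field Ω] [IsAlgClosed Ω] {W W' : WeierstrassCurve Ω} {jj : Ω} (h1 : W.Δ ≠ 0) (h2 : W'.Δ ≠ 0)
    (h3 : W.c₄ ^ 3 = jj * W.Δ) (h4 : W'.c₄ ^ 3 = jj * W'.Δ) : ∃ u r s t, VC W W' u r s t := by
  have e1 : W.IsElliptic := ⟨isUnit_iff_ne_zero.2 h1⟩
  have e2 : W'.IsElliptic := ⟨isUnit_iff_ne_zero.2 h2⟩
  have hj1 : W.j = jj := by
    rw [WeierstrassCurve.j, h3, ← W.coe_Δ', mul_comm jj, ← mul_assoc, Units.inv_mul, one_mul]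
  have hj2 : W'.j = jj := by
    rw [WeierstrassCurve.j, h4, ← W'.coe_Δ', mul_comm jj, ← mul_assoc, Units.inv_mul, one_mul]
  obtain ⟨C, hC⟩ := WeierstrassCurve.exists_variableChange_of_j_eq W W' (hj1.trans hj2.symm)
  have hu : (C.u : Ω) ≠ 0 := C.u.ne_zero
  have hu1 : (C.u : Ω) * ((C.u⁻¹ : Ωˣ) : Ω) = 1 := C.u.mul_inv
  refine ⟨C.u, C.r, C.s, C.t, ⟨hu, ?_, ?_, ?_, ?_, ?_⟩⟩
  · rw [← hC, variableChange_a₁, ← mul_assoc, hu1, one_mul]
  · rw [← hC, variableChange_a₂, ← mul_assoc, ← mul_pow, hu1, one_pow, one_mul]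
  · rw [← hC, variableChange_a₃, ← mul_assoc, ← mul_pow, hu1, one_pow, one_mul]
  · rw [← hC, variableChange_a₄, ← mul_assoc, ← mul_pow, hu1, one_pow, one_mul]
  · rw [← hC, variableChange_a₆, ← mul_assoc, ← mul_pow, hu1, one_pow, one_mul]

theorem good_model {F : Type} [Field F] [NumberField F] {Ω : Type} [Field Ω] [Algebra F Ω]
    [IsAlgClosed Ω] {A B : F} (hd : 4 * A ^ 3 + 27 * B ^ 2 ≠ 0)
    (hj : ∃ j₀ : 𝓞 F, (j₀ : F) * (4 * A ^ 3 + 27 * B ^ 2) = 6912 * A ^ 3) (V : ValuationSubring Ω) :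
    ∃ (W' : WeierstrassCurve Ω) (u r s t : Ω), VC ((WAB A B)⁄Ω) W' u r s t ∧ ((WAB A B)⁄Ω).Δ ≠ 0 ∧ GoodW W' V ∧
      ((V.valuation (2 : Ω) = 1 ∧ W'.a₁ = 0 ∧ W'.a₃ = 0) ∨ V.valuation (2 : Ω) < 1) := by
  obtain ⟨j₀, hj₀⟩ := hj
  set jj : Ω := algebraMap F Ω (j₀ : F) with hjj
  have hjV : jj ∈ V := by
    have h1 : IsIntegral ℤ jj := by
      have h2 : IsIntegral ℤ (j₀ : F) := RingOfIntegers.isIntegral_coe j₀
      exact h2.map ((algebraMap F Ω).toIntAlgHom)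
    have h3 : IsIntegral V jj := h1.tower_top
    obtain ⟨y, hy⟩ := IsIntegrallyClosed.isIntegral_iff.1 h3
    rw [← hy]
    exact y.2
  have c0 : CharZero Ω := charZero_of_injective_algebraMap (algebraMap F Ω).injective
  have hΔ : ((WAB A B)⁄Ω).Δ = algebraMap F Ω (-16 * (4 * A ^ 3 + 27 * B ^ 2)) := by
    refine ((WAB A B).map_Δ (algebraMap F Ω)).trans ?_
    congr 1
    simp only [WAB, WeierstrassCurve.Δ, WeierstrassCurve.b₂, WeierstrassCurve.b₄,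
      WeierstrassCurve.b₆, WeierstrassCurve.b₈]
    ring
  have hc : ((WAB A B)⁄Ω).c₄ = algebraMap F Ω (-48 * A) := by
    refine ((WAB A B).map_c₄ (algebraMap F Ω)).trans ?_
    congr 1
    simp only [WAB, WeierstrassCurve.c₄, WeierstrassCurve.b₂, WeierstrassCurve.b₄]
    ring
  have h1 : ((WAB A B)⁄Ω).Δ ≠ 0 := by
    rw [hΔ]
    exact (map_ne_zero _).2 (mul_ne_zero (by norm_num) hd)
  have h3 : ((WAB A B)⁄Ω).c₄ ^ 3 = jj * ((WAB A B)⁄Ω).Δ := by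
    rw [hΔ, hc, hjj, ← map_pow, ← map_mul]
    congr 1
    linear_combination (16 : F) * hj₀
  have h0 : V.valuation (0 : Ω) < 1 := by
    rw [map_zero]
    exact zero_lt_one
  have hne : ∀ W' : WeierstrassCurve Ω, GoodW W' V → W'.Δ ≠ 0 := by
    intro W' hG h
    have h5 := hG.disc
    rw [h, map_zero] at h5
    exact zero_ne_one h5
  have h2le : V.valuation (2 : Ω) ≤ 1 := by
    rw [V.valuation_le_one_iff]
    exact_mod_cast natCast_mem V 2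
  rcases h2le.eq_or_lt with h2 | h2
  · obtain ⟨W', hG, hW, ha1, ha3⟩ := legendre h2 hjV
    obtain ⟨u, r, s, t, hvc⟩ := vc_of_j h1 (hne W' hG) h3 hW
    exact ⟨W', u, r, s, t, hvc, h1, hG, Or.inl ⟨h2, ha1, ha3⟩⟩
  · obtain ⟨W', hG, hW⟩ := deuring h2 hjV
    obtain ⟨u, r, s, t, hvc⟩ := vc_of_j h1 (hne W' hG) h3 hW
    exact ⟨W', u, r, s, t, hvc, h1, hG, Or.inr h2⟩

end H55K.MG
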