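import Mathlib
import Pool.Agent.Lib.H55K.M2C
import Pool.Agent.Lib.H55P.Stm

/-! # H55K: the good model of a curve with integral j-invariant -/

open NumberField IsDedekindDomain WeierstrassCurve

namespace H55K.TQ

open H55P (IQ embF eF LF Per IsHecke Pt ac Inert Dec Nm UnitP)
open H35P (WAB Ker tt GoodW IntW)
open H55K.MG (VC Crd)

/-- Chunk QC1A (S). V(2) = 1: MG.legendre; V(2) < 1: MG.deuring (V(2) ≤ 1 always); both for jj. W'.Δ ≠ 0 since V(W'.Δ) = 1. MG.vc_of_j. -/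
theorem gmodel {Ω : Type} [Field Ω] [IsAlgClosed Ω] {W : WeierstrassCurve Ω} {V : ValuationSubring Ω} (hΔ : W.Δ ≠ 0)
    {jj : Ω} (hj : jj ∈ V) (h : W.c₄ ^ 3 = jj * W.Δ) :
    ∃ (W' : WeierstrassCurve Ω) (u r s t : Ω), VC W W' u r s t ∧ GoodW W' V := by
  obtain ⟨W', hG, hc⟩ : ∃ W' : WeierstrassCurve Ω, GoodW W' V ∧ W'.c₄ ^ 3 = jj * W'.Δ := by
    have h2 : V.valuation (2 : Ω) ≤ 1 := by
      rw [V.valuation_le_one_iff]
      have e : (2 : Ω) = 1 + 1 := by norm_num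
      rw [e]
      exact V.add_mem _ _ V.one_mem V.one_mem
    rcases h2.lt_or_eq with h2 | h2
    · exact MG.deuring h2 hj
    · obtain ⟨W', h1, h3, _⟩ := MG.legendre h2 hj
      exact ⟨W', h1, h3⟩
  have hΔ' : W'.Δ ≠ 0 := by
    intro e
    have h1 := hG.disc
    rw [e, map_zero] at h1
    exact zero_ne_one h1
  obtain ⟨u, r, s, t, hv⟩ := MG.vc_of_j hΔ hΔ' h hc
  exact ⟨W', u, r, s, t, hv, hG⟩

end H55K.TQ
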