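import Mathlib
import Pool.Agent.Lib.H35P.Red
import Pool.Agent.Lib.H55K.QC1C

/-! # H55K: the good model of a curve with integral j-invariant -/

open NumberField IsDedekindDomain WeierstrassCurve

namespace H55K.TQ

open H55P (IQ embF eF LF Per IsHecke Pt ac Inert Dec Nm UnitP)
open H35P (WAB Ker tt GoodW IntW)
open H55K.MG (VC Crd)

theorem qc1d_two {k : Type} [Field k] {V : ValuationSubring k} {x b c : k} (hb : b ∈ V) (hc : c ∈ V)
    (h : x ^ 2 + b * x = c) : x ∈ V := by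
  rcases V.mem_or_inv_mem x with h1 | h1
  · exact h1
  · by_cases h0 : x = 0
    · rw [h0]
      exact V.zero_mem
    · have e : x = c * x⁻¹ - b := by
        field_simp
        linear_combination h
      rw [e]
      exact sub_mem (V.mul_mem _ _ hc h1) hb

theorem qc1d_four {k : Type} [Field k] {V : ValuationSubring k} {x b c d : k} (hb : b ∈ V) (hc : c ∈ V)
    (hd : d ∈ V) (h : x ^ 4 = b * x ^ 2 + c * x + d) : x ∈ V := by
  rcases V.mem_or_inv_mem x with h1 | h1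
  · exact h1
  · by_cases h0 : x = 0
    · rw [h0]
      exact V.zero_mem
    · have e : x = b * x⁻¹ + c * (x⁻¹ * x⁻¹) + d * (x⁻¹ * x⁻¹ * x⁻¹) := by
        field_simp
        linear_combination h
      rw [e]
      exact V.add_mem _ _ (V.add_mem _ _ (V.mul_mem _ _ hb h1) (V.mul_mem _ _ hc (V.mul_mem _ _ h1 h1)))
        (V.mul_mem _ _ hd (V.mul_mem _ _ (V.mul_mem _ _ h1 h1) h1))

theorem qc1d_nat {k : Type} [Field k] (V : ValuationSubring k) (n : ℕ) : (n : k) ∈ V := by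
  exact natCast_mem V n

theorem qc1d_inv {k : Type} [Field k] {V : ValuationSubring k} {u : k} (hu : V.valuation u = 1) :
    u ∈ V ∧ u⁻¹ ∈ V := by
  constructor
  · rw [← V.valuation_le_one_iff, hu]
  · rw [← V.valuation_le_one_iff, map_inv₀, hu, inv_one]

theorem qc1d_div {k : Type} [Field k] {V : ValuationSubring k} {u x y : k} (hu : V.valuation u = 1) (n : ℕ)
    (h : u ^ n * x = y) (hy : y ∈ V) : x ∈ V := by
  rw [← V.valuation_le_one_iff] at hy ⊢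
  rw [← h, map_mul, map_pow, hu, one_pow, one_mul] at hy
  exact hy

/-- Chunk QC1D (S). Integral change of variables with a unit u: W' is good if W is. -/
theorem vc_good {k : Type} [Field k] {V : ValuationSubring k} {W W' : WeierstrassCurve k} {u r s t : k} (h : VC W W' u r s t)
    (hG : GoodW W V) (hu : V.valuation u = 1) (hr : r ∈ V) (hs : s ∈ V) (ht : t ∈ V) : GoodW W' V := by
  have h2 : (2 : k) ∈ V := by exact_mod_cast qc1d_nat V 2
  have h3 : (3 : k) ∈ V := by exact_mod_cast qc1d_nat V 3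
  have m : ∀ {x y : k}, x ∈ V → y ∈ V → x * y ∈ V := fun hx hy => V.mul_mem _ _ hx hy
  have a : ∀ {x y : k}, x ∈ V → y ∈ V → x + y ∈ V := fun hx hy => V.add_mem _ _ hx hy
  have b : ∀ {x y : k}, x ∈ V → y ∈ V → x - y ∈ V := fun hx hy => sub_mem hx hy
  have p : ∀ {x : k} (n : ℕ), x ∈ V → x ^ n ∈ V := fun n hx => pow_mem hx n
  have a1 := hG.a1
  have a2 := hG.a2
  have a3 := hG.a3
  have a4 := hG.a4
  have a6 := hG.a6
  refine ⟨⟨?_, ?_, ?_, ?_, ?_⟩, ?_⟩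
  · exact qc1d_div hu 1 (by rw [pow_one]; exact h.h1) (a a1 (m h2 hs))
  · exact qc1d_div hu 2 h.h2 (b (a (b a2 (m hs a1)) (m h3 hr)) (p 2 hs))
  · exact qc1d_div hu 3 h.h3 (a (a a3 (m hr a1)) (m h2 ht))
  · exact qc1d_div hu 4 h.h4 (b (a (b (a (b a4 (m hs a3)) (m (m h2 hr) a2)) (m (a ht (m hr hs)) a1))
      (m h3 (p 2 hr))) (m (m h2 hs) ht))
  · exact qc1d_div hu 6 h.h6 (b (b (b (a (a (a a6 (m hr a4)) (m (p 2 hr) a2)) (p 3 hr)) (m ht a3)) (p 2 ht))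
      (m (m hr ht) a1))
  · have h4 := (vc_disc h).1
    have h5 := congrArg V.valuation h4
    rw [map_mul, map_pow, hu, one_pow, one_mul, hG.disc] at h5
    exact h5

/-- Chunk QC1D (S/M). Two good equations: the change of variables is integral with a unit u. u: u^12 Δ' = Δ. Then (u = unit): 2s and 3 r - s^2 - s a₁ are in V from h1, h2, h3.. and from h4, h6: r satisfies an integral equation (the standard argument: Silverman VII.1.3 (d)):
b₂: u^2 b₂' = b₂ + 12 r, b₄: u^4 b₄' = b₄ + r b₂ + 6 r^2, b₆: u^6 b₆' = b₆ + 2 r b₄ + r^2 b₂ + 4 r^3, b₈: u^8 b₈' = b₈ + 3 r b₆ + 3 r^2 b₄ + r^3 b₂ + 3 r^4. The b₆ and b₈ relations give monic-like equations: if V(r) > 1 then V(4 r^3) ≤ V(r)^2 and V(3 r^4) ≤ V(r)^3, so V(4) V(r) ≤ 1 and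
V(3) V(r) ≤ 1, 4 - 3 = 1: V(r) ≤ 1. Then s: s^2 + s a₁ = (integral) (h2), so s is in V; t: t^2 + t (a₃ + r a₁) = integral (h6), so t is in V. -/
theorem vc_int {k : Type} [Field k] {V : ValuationSubring k} {W W' : WeierstrassCurve k} {u r s t : k} (h : VC W W' u r s t)
    (hG : IntW W V) (hG' : IntW W' V) (hu : V.valuation u = 1) : r ∈ V ∧ s ∈ V ∧ t ∈ V := by
  have h2 : (2 : k) ∈ V := by exact_mod_cast qc1d_nat V 2
  have h3 : (3 : k) ∈ V := by exact_mod_cast qc1d_nat V 3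
  have h4 : (4 : k) ∈ V := by exact_mod_cast qc1d_nat V 4
  have m : ∀ {x y : k}, x ∈ V → y ∈ V → x * y ∈ V := fun hx hy => V.mul_mem _ _ hx hy
  have a : ∀ {x y : k}, x ∈ V → y ∈ V → x + y ∈ V := fun hx hy => V.add_mem _ _ hx hy
  have b : ∀ {x y : k}, x ∈ V → y ∈ V → x - y ∈ V := fun hx hy => sub_mem hx hy
  have p : ∀ {x : k} (n : ℕ), x ∈ V → x ^ n ∈ V := fun n hx => pow_mem hx n
  have hb : ∀ {X : WeierstrassCurve k}, IntW X V → X.b₄ ∈ V ∧ X.b₆ ∈ V ∧ X.b₈ ∈ V := by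
    intro X hX
    have a1 := hX.a1
    have a2 := hX.a2
    have a3 := hX.a3
    have a4 := hX.a4
    have a6 := hX.a6
    refine ⟨?_, ?_, ?_⟩
    · unfold WeierstrassCurve.b₄
      exact a (m h2 a4) (m a1 a3)
    · unfold WeierstrassCurve.b₆
      exact a (p 2 a3) (m h4 a6)
    · unfold WeierstrassCurve.b₈
      exact b (a (b (a (m (p 2 a1) a6) (m (m h4 a2) a6)) (m (m a1 a3) a4)) (m a2 (p 2 a3))) (p 2 a4)
  obtain ⟨b4, b6, b8⟩ := hb hG
  obtain ⟨b4', b6', b8'⟩ := hb hG'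
  have hu1 := (qc1d_inv hu).1
  have e6 : u ^ 6 * W'.b₆ = W.b₆ + 2 * r * W.b₄ + r ^ 2 * W.b₂ + 4 * r ^ 3 := by
    have e : u ^ 6 * W'.b₆ = (u ^ 3 * W'.a₃) ^ 2 + 4 * (u ^ 6 * W'.a₆) := by
      unfold WeierstrassCurve.b₆
      ring
    rw [e, h.h3, h.h6]
    unfold WeierstrassCurve.b₆ WeierstrassCurve.b₄ WeierstrassCurve.b₂
    ring
  have e8 : u ^ 8 * W'.b₈ = W.b₈ + 3 * r * W.b₆ + 3 * r ^ 2 * W.b₄ + r ^ 3 * W.b₂ + 3 * r ^ 4 := by
    have e : u ^ 8 * W'.b₈ = (u * W'.a₁) ^ 2 * (u ^ 6 * W'.a₆) + 4 * (u ^ 2 * W'.a₂) * (u ^ 6 * W'.a₆) -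
        (u * W'.a₁) * (u ^ 3 * W'.a₃) * (u ^ 4 * W'.a₄) + (u ^ 2 * W'.a₂) * (u ^ 3 * W'.a₃) ^ 2 -
        (u ^ 4 * W'.a₄) ^ 2 := by
      unfold WeierstrassCurve.b₈
      ring
    rw [e, h.h1, h.h2, h.h3, h.h4, h.h6]
    unfold WeierstrassCurve.b₈ WeierstrassCurve.b₆ WeierstrassCurve.b₄ WeierstrassCurve.b₂
    ring
  have hr : r ∈ V := by
    refine qc1d_four (b := W.b₄) (c := 2 * W.b₆ + u ^ 6 * W'.b₆) (d := W.b₈ - u ^ 8 * W'.b₈) b4
      (a (m h2 b6) (m (p 6 hu1) b6')) (b b8 (m (p 8 hu1) b8')) ?_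
    rw [e6, e8]
    ring
  have hs : s ∈ V := by
    refine qc1d_two (b := W.a₁) (c := W.a₂ + 3 * r - u ^ 2 * W'.a₂) hG.a1
      (b (a hG.a2 (m h3 hr)) (m (p 2 hu1) hG'.a2)) ?_
    rw [h.h2]
    ring
  refine ⟨hr, hs, ?_⟩
  refine qc1d_two (b := W.a₃ + r * W.a₁) (c := W.a₆ + r * W.a₄ + r ^ 2 * W.a₂ + r ^ 3 - u ^ 6 * W'.a₆)
    (a hG.a3 (m hr hG.a1)) (b (a (a (a hG.a6 (m hr hG.a4)) (m (p 2 hr) hG.a2)) (p 3 hr))
      (m (p 6 hu1) hG'.a6)) ?_
  rw [h.h6]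
  ring

/-- Chunk QC1D (S). Two good equations: u^12 Δ' = Δ and both discriminants are units. -/
theorem vc_unit {k : Type} [Field k] {V : ValuationSubring k} {W W' : WeierstrassCurve k} {u r s t : k} (h : VC W W' u r s t)
    (hG : GoodW W V) (hG' : GoodW W' V) : V.valuation u = 1 ∧ r ∈ V ∧ s ∈ V ∧ t ∈ V := by
  have hu : V.valuation u = 1 := by
    have h4 := (vc_disc h).1
    have h5 := congrArg V.valuation h4
    rw [map_mul, map_pow, hG.disc, hG'.disc, mul_one] at h5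
    rcases lt_trichotomy (V.valuation u) 1 with h6 | h6 | h6
    · exact absurd h5 (pow_lt_one₀ zero_le h6 (by norm_num)).ne
    · exact h6
    · exact absurd h5 (one_lt_pow₀ h6 (by norm_num)).ne'
  exact ⟨hu, vc_int h hG.toIntW hG'.toIntW hu⟩

end H55K.TQ
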