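import Mathlib
import Pool.Agent.Lib.H55K.M1A
import Pool.Agent.Lib.H55K.M3A
import Pool.Agent.Lib.H55K.QC1D

/-! # H55K: the good model given by a point -/

open NumberField IsDedekindDomain WeierstrassCurve

namespace H55K.TQ

open H55P (IQ embF eF LF Per IsHecke Pt ac Inert Dec Nm UnitP)
open H35P (WAB Ker tt GoodW IntW)
open H55K.MG (VC Crd)

/-- Chunk QE0 (M). A point P of W over Ω with P, 2P, 3P, 4P outside the kernel of reduction of the good model W' gives a good model with coefficients in terms of P and 2P. x₁ = xc P, x₂ = xc (2P) and so on; on W': Θ P = (x', y'), Θ (2P) = (x₂', y₂') integral (not Ker: MG.int_crd),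
x = u^2 x' + r, ... (Crd), δ = x' - x₂' is a unit (MG.unit_diff for ΘP, 2ΘP: their difference and sum are ∓ΘP, 3ΘP, not in Ker), η = y₂' - negY' x₂' y₂' is a unit (MG.cong_ker: otherwise 2ΘP and -2ΘP are congruent, they have the same x-coordinate, and 4ΘP is in Ker), λ = (y' - y₂')/δ is integral.
vc_negY (M1A.lean): y₂ - negY x₂ y₂ = u^3 η, x₁ - x₂ = u^2 δ, y₁ - y₂ = u^3 (y' - y₂') + s u^2 δ, so u₀ = u e with e = η/δ a unit; s₀ = u λ + s; r₀ = u^2 x' + r, t₀ = u^3 y' + s u^2 x' + t: the change (u₀, r₀, s₀, t₀) is the composition (vc_comp) of (u, r, s, t) with (e, x', λ, y') on W'; W'' from vc_ex (for W' and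
(e, x', λ, y')), good by vc_good. -/
theorem rat_core {Ω : Type} [Field Ω] [DecidableEq Ω] {W W' : WeierstrassCurve Ω} {V : ValuationSubring Ω} {u r s t : Ω}
    (hv : VC W W' u r s t) (hG : GoodW W' V) {Θ : W.toAffine.Point ≃+ W'.toAffine.Point} (hc : Crd u r s t Θ)
    (P : W.toAffine.Point) (h1 : ¬ Ker V (Θ P)) (h2 : ¬ Ker V (Θ (2 • P))) (h3 : ¬ Ker V (Θ (3 • P)))
    (h4 : ¬ Ker V (Θ (4 • P))) :
    ∃ W'' : WeierstrassCurve Ω, VC W W''
      ((yc (2 • P) - W.toAffine.negY (xc (2 • P)) (yc (2 • P))) / (xc P - xc (2 • P))) (xc P)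
      ((yc P - yc (2 • P)) / (xc P - xc (2 • P))) (yc P) ∧ GoodW W'' V := by


  have hP0 : P ≠ 0 := by
    rintro rfl
    apply h1
    rw [map_zero]
    exact trivial
  have h2P0 : 2 • P ≠ 0 := by
    intro h0
    apply h2
    rw [h0, map_zero]
    exact trivial
  obtain ⟨-, hx1, hy1⟩ := hc P hP0
  obtain ⟨-, hx2, hy2⟩ := hc (2 • P) h2P0
  obtain ⟨-, ix, iy⟩ := MG.int_crd hG h1
  obtain ⟨hΘ2, ix2, iy2⟩ := MG.int_crd hG h2
  have hd : V.valuation (xc (Θ P) - xc (Θ (2 • P))) = 1 := by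
    refine MG.unit_diff hG h1 h2 ?_ ?_
    · intro hk
      apply h1
      rw [← map_sub] at hk
      have e : P - 2 • P = -P := by
        rw [two_nsmul]; abel
      rw [e, map_neg] at hk
      exact (H35P.ker_neg (Θ P)).1 hk
    · intro hk
      apply h3
      rw [← map_add] at hk
      have e : P + 2 • P = 3 • P := by
        rw [succ_nsmul P 2, add_comm]
      rw [e] at hk
      exact hk
  have hneg2 : ¬ Ker V (-Θ (2 • P)) := fun hk => h2 ((H35P.ker_neg _).1 hk)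
  have hxn : xc (-Θ (2 • P)) = xc (Θ (2 • P)) ∧
      yc (-Θ (2 • P)) = W'.toAffine.negY (xc (Θ (2 • P))) (yc (Θ (2 • P))) := by
    rcases hq : Θ (2 • P) with _ | ⟨x', y', hn'⟩
    · exact absurd hq hΘ2
    · exact ⟨rfl, rfl⟩
  have iyn : W'.toAffine.negY (xc (Θ (2 • P))) (yc (Θ (2 • P))) ∈ V := by
    rw [← hxn.2]
    exact (MG.int_crd hG hneg2).2.2
  have he : V.valuation (yc (Θ (2 • P)) - W'.toAffine.negY (xc (Θ (2 • P))) (yc (Θ (2 • P)))) = 1 := by
    refine le_antisymm ((V.valuation_le_one_iff _).2 (sub_mem iy2 iyn)) (not_lt.1 fun hlt => ?_)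
    apply h4
    have hk := MG.cong_ker hG h2 hneg2 (by
      rw [hxn.1, sub_self, map_zero]
      exact zero_lt_one) (by rw [hxn.2]; exact hlt)
    rw [sub_neg_eq_add, ← map_add] at hk
    have e : 2 • P + 2 • P = 4 • P := by
      rw [← add_nsmul]
    rw [e] at hk
    exact hk
  have hd0 : xc (Θ P) - xc (Θ (2 • P)) ≠ 0 := by
    intro h0
    rw [h0, map_zero] at hd
    exact zero_ne_one hd
  have he0 : yc (Θ (2 • P)) - W'.toAffine.negY (xc (Θ (2 • P))) (yc (Θ (2 • P))) ≠ 0 := by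
    intro h0
    rw [h0, map_zero] at he
    exact zero_ne_one he
  have hu := hv.une
  obtain ⟨W'', hW''⟩ := vc_ex W' (div_ne_zero he0 hd0) (xc (Θ P))
    ((yc (Θ P) - yc (Θ (2 • P))) / (xc (Θ P) - xc (Θ (2 • P)))) (yc (Θ P))
  have hcomp := vc_comp hv hW''
  have hgood : GoodW W'' V := by
    refine vc_good hW'' hG ?_ ix ?_ iy
    · rw [map_div₀, he, hd, div_one]
    · rw [← V.valuation_le_one_iff, map_div₀, hd, div_one, V.valuation_le_one_iff]
      exact sub_mem iy iy2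
  refine ⟨W'', ?_, hgood⟩
  have ex : xc P - xc (2 • P) = u ^ 2 * (xc (Θ P) - xc (Θ (2 • P))) := by
    rw [hx1, hx2]; ring
  have e1 : (yc (2 • P) - W.toAffine.negY (xc (2 • P)) (yc (2 • P))) / (xc P - xc (2 • P)) =
      u * ((yc (Θ (2 • P)) - W'.toAffine.negY (xc (Θ (2 • P))) (yc (Θ (2 • P)))) /
        (xc (Θ P) - xc (Θ (2 • P)))) := by
    rw [ex, hx2, hy2, MG.vc_negY hv]
    rw [mul_div_assoc', div_eq_div_iff (mul_ne_zero (pow_ne_zero 2 hu) hd0) hd0]
    ring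
  have e2 : (yc P - yc (2 • P)) / (xc P - xc (2 • P)) =
      u * ((yc (Θ P) - yc (Θ (2 • P))) / (xc (Θ P) - xc (Θ (2 • P)))) + s := by
    rw [ex, hy1, hy2, mul_div_assoc', div_add' _ _ _ hd0,
      div_eq_div_iff (mul_ne_zero (pow_ne_zero 2 hu) hd0) hd0]
    ring
  rw [e1, e2, hx1, hy1]
  exact hcomp

end H55K.TQ
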