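import Mathlib
import Pool.Agent.Lib.H55K.M1B
import Pool.Agent.Lib.H55K.M3B
import Pool.Agent.Lib.H55K.M4B
import Pool.Agent.Lib.H55K.QC1A
import Pool.Agent.Lib.H55K.QE0
import Pool.Agent.Lib.H55K.T0

/-! # H55K: Neron-Ogg-Shafarevich over the inertia field -/

open NumberField IsDedekindDomain WeierstrassCurve

namespace H55K.TQ

open H55P (IQ embF eF LF Per IsHecke Pt ac Inert Dec Nm UnitP)
open H35P (WAB Ker tt GoodW IntW)
open H55K.MG (VC Crd)

variable {F : Type} [Field F] [NumberField F] {Ω : Type} [Field Ω] [DecidableEq Ω] [Algebra F Ω]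

/-- Chunk T5 (S/M). W'₀, u, r, s, t from gmodel over Ω, Θ from MG.vc_iso. T ≠ 0, p • T = 0: T, 2T, 3T, 4T are not 0 (p ≥ 5), killed by p, so not in the kernel (MG.kg_tors, V(p) = 1). rat_core for T: the change of variables is given by the coordinates of T and 2T, which are fixed by the g with ac W g T = T (MG.ac_crd in M4B.lean: xc (ac g T) = g (xc T); ac g (2T) = 2 (ac g T);
negY has coefficients in F). M = the set of the elements fixed by all g with Inert V g. -/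
theorem nos_up [IsAlgClosed Ω] {W : WeierstrassCurve F} (hΔ : W.Δ ≠ 0) {V : ValuationSubring Ω} {jj : Ω} (hj : jj ∈ V)
    (h : (W⁄Ω).c₄ ^ 3 = jj * (W⁄Ω).Δ) {p : ℕ} (hp : p.Prime) (h5 : 5 ≤ p) (hV : V.valuation (p : Ω) = 1)
    {T : Pt W Ω} (hT : p • T = 0) (h0 : T ≠ 0) (hfix : ∀ g : Ω ≃ₐ[F] Ω, Inert V g → ac W g T = T) :
    GMd (W⁄Ω) V {x | ∀ g : Ω ≃ₐ[F] Ω, Inert V g → g x = x} := by
  have h1 : (W⁄Ω).Δ ≠ 0 := by
    have e : (W⁄Ω).Δ = algebraMap F Ω W.Δ := W.map_Δ (algebraMap F Ω)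
    rw [e]
    exact (map_ne_zero _).2 hΔ
  obtain ⟨W', u, r, s, t, hv, hG⟩ := gmodel h1 hj h
  have h2 : W'.Δ ≠ 0 := by
    intro h0
    have h3 := hG.disc
    rw [h0, map_zero] at h3
    exact zero_ne_one h3
  obtain ⟨Θ, hc⟩ := MG.vc_iso hv h1 h2
  have hnk : ∀ i : ℕ, 0 < i → i < 5 → ¬ Ker V (Θ (i • T)) := by
    intro i hi0 hi5 hK
    have h3 : p • (i • T) = 0 := by rw [smul_comm, hT, smul_zero]
    have h4 := MG.kg_tors hG hV hK h3
    have hcop : Nat.Coprime i p := by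
      rw [Nat.coprime_comm, Nat.Prime.coprime_iff_not_dvd hp]
      intro h5
      have h6 := Nat.le_of_dvd hi0 h5
      omega
    obtain ⟨x, y, hxy⟩ := Nat.isCoprime_iff_coprime.2 hcop
    apply h0
    have h7 : (1 : ℤ) • T = 0 := by
      rw [← hxy, add_smul, mul_smul, mul_smul, natCast_zsmul, natCast_zsmul, h4, hT, smul_zero, smul_zero,
        add_zero]
    rwa [one_smul] at h7
  have k1 : ¬ Ker V (Θ T) := by
    have := hnk 1 (by norm_num) (by norm_num)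
    rwa [one_nsmul] at this
  obtain ⟨W'', hv', hG'⟩ := rat_core hv hG hc T k1 (hnk 2 (by norm_num) (by norm_num))
    (hnk 3 (by norm_num) (by norm_num)) (hnk 4 (by norm_num) (by norm_num))
  have hx : ∀ g : Ω ≃ₐ[F] Ω, Inert V g → g (xc T) = xc T ∧ g (yc T) = yc T ∧ g (xc (2 • T)) = xc (2 • T) ∧
      g (yc (2 • T)) = yc (2 • T) := by
    intro g hg
    have h3 := hfix g hg
    have h4 : ac W g (2 • T) = 2 • T := by rw [map_nsmul, h3]
    obtain ⟨a1, a2, -⟩ := MG.ac_crd (W := W) g T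
    obtain ⟨b1, b2, -⟩ := MG.ac_crd (W := W) g (2 • T)
    rw [h3] at a1 a2
    rw [h4] at b1 b2
    exact ⟨a1.symm, a2.symm, b1.symm, b2.symm⟩
  refine ⟨W'', _, _, _, _, ?_, ?_, ?_, ?_, hv', hG'⟩
  · intro g hg
    obtain ⟨e1, e2, e3, e4⟩ := hx g hg
    have e5 : g ((W⁄Ω).toAffine.negY (xc (2 • T)) (yc (2 • T))) =
        (W⁄Ω).toAffine.negY (xc (2 • T)) (yc (2 • T)) := by
      unfold Affine.negY
      have ea1 : g ((W⁄Ω).toAffine.a₁) = (W⁄Ω).toAffine.a₁ := g.commutes W.a₁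
      have ea3 : g ((W⁄Ω).toAffine.a₃) = (W⁄Ω).toAffine.a₃ := g.commutes W.a₃
      rw [map_sub, map_sub, map_neg, map_mul, e3, e4, ea1, ea3]
    rw [map_div₀, map_sub, map_sub, e1, e3, e4, e5]
  · intro g hg
    exact (hx g hg).1
  · intro g hg
    obtain ⟨e1, e2, e3, e4⟩ := hx g hg
    rw [map_div₀, map_sub, map_sub, e1, e2, e3, e4]
  · intro g hg
    exact (hx g hg).2.1

end H55K.TQ
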