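import Mathlib
import Pool.Agent.Lib.H13S.FR
import Pool.Agent.Lib.H55K.G9B
import Pool.Agent.Lib.H55K.M0
import Pool.Agent.Lib.H55K.M4A
import Pool.Agent.Lib.H55P.Stm

/-! # H55K: successive approximation in the inertia field -/

open NumberField IsDedekindDomain WeierstrassCurve

namespace H55K.TQ

open H55P (IQ embF eF LF Per IsHecke Pt ac Inert Dec Nm UnitP)
open H35P (WAB Ker tt GoodW IntW)
open H55K.MG (VC Crd)

variable {F : Type} [Field F] [NumberField F] {Ω : Type} [Field Ω] [Algebra F Ω] [IsAlgClosure F Ω] {V : ValuationSubring Ω}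

/-- Chunk T6A (S/M). H13S.exists_frob v V: s with Dec V s, V(s x - x^q) < 1; so V(x^q - x) < 1; g9_frob (G9B.lean; there F has an instance IQ F: copy the proof if necessary, it does not use it) gives a. -/
theorem res_fix {v : HeightOneSpectrum (𝓞 F)} (hv : ∀ a : 𝓞 F, a ∈ v.asIdeal → V.valuation (ak Ω a) < 1) {x : Ω}
    (hx : x ∈ V) (h : ∀ g : Ω ≃ₐ[F] Ω, Dec V g → V.valuation (g x - x) < 1) :
    ∃ a : 𝓞 F, V.valuation (x - ak Ω a) < 1 := by
  obtain ⟨s, hs, hs2⟩ := H13S.exists_frob v V hv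
  refine (g9_frob hv ((V.valuation_le_one_iff _).2 hx)).1 ?_
  have h1 := h s hs
  have h2 := hs2 x hx
  have h3 : x ^ Ideal.absNorm v.asIdeal - x = (s x - x) - (s x - x ^ Ideal.absNorm v.asIdeal) := by ring
  rw [h3]
  exact lt_of_le_of_lt (Valuation.map_sub _ _ _) (max_lt h1 h2)

end H55K.TQ
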