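import Mathlib
import Pool.Agent.Lib.H13S.IN4
import Pool.Agent.Lib.H55K.T6A

/-! # H55K: successive approximation in the inertia field -/

open NumberField IsDedekindDomain WeierstrassCurve

namespace H55K.TQ

open H55P (IQ embF eF LF Per IsHecke Pt ac Inert Dec Nm UnitP)
open H35P (WAB Ker tt GoodW IntW)
open H55K.MG (VC Crd)

variable {F : Type} [Field F] [NumberField F] {Ω : Type} [Field Ω] [Algebra F Ω] [IsAlgClosure F Ω] {V : ValuationSubring Ω}

omit [IsAlgClosure F Ω] in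
theorem t6_val {v : HeightOneSpectrum (𝓞 F)} (hv : ∀ a : 𝓞 F, a ∈ v.asIdeal → V.valuation (ak Ω a) < 1) {a : F}
    (h : V.valuation (algebraMap F Ω a) < 1) : v.valuation F a < 1 := by
  by_contra hcon
  rw [not_lt] at hcon
  have ha0 : a ≠ 0 := by
    rintro rfl
    rw [map_zero] at hcon
    exact absurd hcon (not_le.2 zero_lt_one)
  have h1 : v.valuation F a⁻¹ ≤ 1 := by
    rw [map_inv₀]
    exact inv_le_one_of_one_le₀ hcon
  obtain ⟨n, d, hnd⟩ := v.exists_primeCompl_mul_eq_of_integer a⁻¹ h1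
  have hd : (d : 𝓞 F) ∉ v.asIdeal := d.2
  have h2 : V.valuation (ak Ω (d : 𝓞 F)) = 1 :=
    le_antisymm (ak_le V _) (not_lt.1 fun h3 => hd ((g9_ker hv _).1 h3))
  have h3 : algebraMap F Ω a⁻¹ * ak Ω (d : 𝓞 F) = ak Ω n := by
    have := congrArg (algebraMap F Ω) hnd
    rw [map_mul] at this
    exact this
  have h4 := congrArg V.valuation h3
  rw [map_mul, h2, mul_one, map_inv₀, map_inv₀] at h4
  have h5 := ak_le V n
  rw [← h4] at h5
  have h6 : V.valuation (algebraMap F Ω a) ≠ 0 := by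
    rw [Valuation.ne_zero_iff]
    exact fun h0 => ha0 ((map_eq_zero _).1 h0)
  exact absurd ((inv_le_one₀ (zero_lt_iff.2 h6)).1 h5) (not_le.2 h)

omit [IsAlgClosure F Ω] in
theorem t6_val' {v : HeightOneSpectrum (𝓞 F)} (hv : ∀ a : 𝓞 F, a ∈ v.asIdeal → V.valuation (ak Ω a) < 1) {a : F}
    (h : v.valuation F a ≤ 1) : V.valuation (algebraMap F Ω a) ≤ 1 := by
  obtain ⟨n, d, hnd⟩ := v.exists_primeCompl_mul_eq_of_integer a h
  have hd : (d : 𝓞 F) ∉ v.asIdeal := d.2
  have h2 : V.valuation (ak Ω (d : 𝓞 F)) = 1 :=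
    le_antisymm (ak_le V _) (not_lt.1 fun h3 => hd ((g9_ker hv _).1 h3))
  have h3 : algebraMap F Ω a * ak Ω (d : 𝓞 F) = ak Ω n := by
    have := congrArg (algebraMap F Ω) hnd
    rw [map_mul] at this
    exact this
  have h4 := congrArg V.valuation h3
  rw [map_mul, h2, mul_one] at h4
  rw [h4]
  exact ak_le V n

theorem t6_fixed {x : Ω} (hx : x ≠ 0) (hI : ∀ g : Ω ≃ₐ[F] Ω, Inert V g → g x = x) :
    ∃ a : F, a ≠ 0 ∧ V.valuation x = V.valuation (algebraMap F Ω a) := by
  have hNQ : FiniteDimensional ℚ (⊥ : IntermediateField F Ω) := FiniteDimensional.trans ℚ F _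
  have hchar : CharZero (⊥ : IntermediateField F Ω) :=
    charZero_of_injective_algebraMap (algebraMap F (⊥ : IntermediateField F Ω)).injective
  have hNnf : NumberField (⊥ : IntermediateField F Ω) := ⟨⟩
  obtain ⟨a, ha0, ha⟩ := H13S.value_fixed (⊥ : IntermediateField F Ω) V x hx (fun s _ hs => hI s hs)
  obtain ⟨b, hb⟩ := IntermediateField.mem_bot.1 a.2
  refine ⟨b, ?_, ?_⟩
  · rintro rfl
    rw [map_zero] at hb
    exact ha0 (Subtype.ext hb.symm)
  · rw [hb]
    exact ha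

theorem t6_ind {v : HeightOneSpectrum (𝓞 F)} (hv : ∀ a : 𝓞 F, a ∈ v.asIdeal → V.valuation (ak Ω a) < 1) (n : ℕ) :
    ∀ (x : Ω) (a : F), a ≠ 0 → V.valuation x = V.valuation (algebraMap F Ω a) →
      WithZero.log (v.valuation F a) ≤ (n : ℤ) → (∀ g : Ω ≃ₐ[F] Ω, Inert V g → g x = x) →
      (∀ g : Ω ≃ₐ[F] Ω, Dec V g → V.valuation (g x - x) ≤ 1) →
      ∃ y : F, V.valuation (x - algebraMap F Ω y) ≤ 1 := by
  induction n with
  | zero =>
    intro x a ha hxa hlog _ _
    refine ⟨0, ?_⟩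
    rw [map_zero, sub_zero, hxa]
    apply t6_val' hv
    have hw : v.valuation F a ≠ 0 := (Valuation.ne_zero_iff _).2 ha
    have h1 := (WithZero.log_le_iff_le_exp hw).1 hlog
    rwa [Nat.cast_zero, WithZero.exp_zero] at h1
  | succ n ih =>
    intro x a ha hxa hlog hI h
    by_cases hV1 : V.valuation x ≤ 1
    · exact ⟨0, by rwa [map_zero, sub_zero]⟩
    rw [not_le] at hV1
    have hav : 1 < V.valuation (algebraMap F Ω a) := by rwa [← hxa]
    have haΩ : algebraMap F Ω a ≠ 0 := fun h0 => ha ((map_eq_zero _).1 h0)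
    have hva0 : 0 < V.valuation (algebraMap F Ω a) := lt_trans zero_lt_one hav
    obtain ⟨x₀, hx₀⟩ : ∃ x₀, x₀ = x / algebraMap F Ω a := ⟨_, rfl⟩
    have hx : x = algebraMap F Ω a * x₀ := by rw [hx₀]; field_simp
    have hx0V : V.valuation x₀ = 1 := by
      rw [hx₀, map_div₀, hxa, div_self hva0.ne']
    obtain ⟨a₀, ha₀⟩ := res_fix hv ((V.valuation_le_one_iff _).1 hx0V.le) (fun g hg => by
      have h1 := h g hg
      have h2 : g x - x = algebraMap F Ω a * (g x₀ - x₀) := by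
        rw [hx, map_mul, AlgEquiv.commutes]
        ring
      rw [h2, map_mul] at h1
      by_contra hcon
      rw [not_lt] at hcon
      have h3 : V.valuation (algebraMap F Ω a) ≤ 1 :=
        (le_mul_of_one_le_right' hcon).trans h1
      exact absurd h3 (not_le.2 hav))
    obtain ⟨x₁, hx₁⟩ : ∃ x₁, x₁ = x - algebraMap F Ω (a * (a₀ : F)) := ⟨_, rfl⟩
    have hx1 : x₁ = algebraMap F Ω a * (x₀ - ak Ω a₀) := by
      rw [hx₁, hx, map_mul]
      show _ - algebraMap F Ω a * ak Ω a₀ = _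
      ring
    have hlt : V.valuation x₁ < V.valuation (algebraMap F Ω a) := by
      rw [hx1, map_mul]
      exact mul_lt_of_lt_one_right hva0 ha₀
    by_cases hx10 : x₁ = 0
    · refine ⟨a * (a₀ : F), ?_⟩
      rw [← hx₁, hx10, map_zero]
      exact zero_le_one
    have hI1 : ∀ g : Ω ≃ₐ[F] Ω, Inert V g → g x₁ = x₁ := by
      intro g hg
      rw [hx₁, map_sub, AlgEquiv.commutes, hI g hg]
    have hD1 : ∀ g : Ω ≃ₐ[F] Ω, Dec V g → V.valuation (g x₁ - x₁) ≤ 1 := by
      intro g hg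
      have h5 : g x₁ - x₁ = g x - x := by
        rw [hx₁, map_sub g, AlgEquiv.commutes]
        ring
      rw [h5]
      exact h g hg
    obtain ⟨a₁, ha₁, hxa₁⟩ := t6_fixed hx10 hI1
    have hlog1 : WithZero.log (v.valuation F a₁) ≤ (n : ℤ) := by
      have h1 : V.valuation (algebraMap F Ω (a₁ / a)) < 1 := by
        rw [map_div₀, map_div₀, ← hxa₁, div_lt_one₀ hva0]
        exact hlt
      have h2 := t6_val hv h1
      have hw : v.valuation F a ≠ 0 := (Valuation.ne_zero_iff _).2 ha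
      have hw1 : v.valuation F a₁ ≠ 0 := (Valuation.ne_zero_iff _).2 ha₁
      rw [map_div₀, div_lt_one₀ (zero_lt_iff.2 hw)] at h2
      have h3 := (WithZero.log_lt_log hw1 hw).2 h2
      push_cast at hlog
      omega
    obtain ⟨y, hy⟩ := ih x₁ a₁ ha₁ hxa₁ hlog1 hI1 hD1
    refine ⟨y + a * (a₀ : F), ?_⟩
    have h4 : x - algebraMap F Ω (y + a * (a₀ : F)) = x₁ - algebraMap F Ω y := by
      rw [hx₁, map_add]
      ring
    rw [h4]
    exact hy

/-- Chunk T6B (M). Suppose x is not in V (otherwise y = 0). H13S.value_fixed for K = the bottom field: V(x) = V(a), a in F, a ≠ 0 (elements of the bottom field are images of elements of F). x₀ = x/a: V(x₀) = 1, g x₀ - x₀ = (g x - x)/a has value < 1 for g with Dec V g; res_fix: a₀ in 𝓞 F, V(x₀ - a₀) < 1. x₁ = x - a a₀ is fixed by inertia, g x₁ - x₁ = g x - x, V(x₁) < V(x).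
The values of elements of F are integral powers: V(a) ≤ V(b) iff v.valuation a ≤ v.valuation b for a, b in F (V lies above v: if v.valuation a ≤ 1 then a = b/c with c not in v, so V(c) = 1; see H13S.Abv.le, exists_below for the bottom field). Induction on the natural number n with v.valuation F a = exp n (V(x) = V(a) > 1). -/
theorem approx {v : HeightOneSpectrum (𝓞 F)} (hv : ∀ a : 𝓞 F, a ∈ v.asIdeal → V.valuation (ak Ω a) < 1) {x : Ω}
    (hI : ∀ g : Ω ≃ₐ[F] Ω, Inert V g → g x = x)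
    (h : ∀ g : Ω ≃ₐ[F] Ω, Dec V g → V.valuation (g x - x) ≤ 1) :
    ∃ y : F, V.valuation (x - algebraMap F Ω y) ≤ 1 := by
  by_cases hx0 : x = 0
  · refine ⟨0, ?_⟩
    rw [hx0, map_zero, sub_zero, map_zero]
    exact zero_le_one
  obtain ⟨a, ha, hxa⟩ := t6_fixed hx0 hI
  exact t6_ind hv (WithZero.log (v.valuation F a)).toNat x a ha hxa (Int.self_le_toNat _) hI h

/-- Chunk T6B (S). approx for x/c. -/
theorem approx' {v : HeightOneSpectrum (𝓞 F)} (hv : ∀ a : 𝓞 F, a ∈ v.asIdeal → V.valuation (ak Ω a) < 1) {x : Ω} {c : F}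
    (hc : c ≠ 0) (hI : ∀ g : Ω ≃ₐ[F] Ω, Inert V g → g x = x)
    (h : ∀ g : Ω ≃ₐ[F] Ω, Dec V g → V.valuation (g x - x) ≤ V.valuation (algebraMap F Ω c)) :
    ∃ y : F, V.valuation (x - algebraMap F Ω y) ≤ V.valuation (algebraMap F Ω c) := by
  have hcΩ : algebraMap F Ω c ≠ 0 := fun h0 => hc ((map_eq_zero _).1 h0)
  have hc0 : 0 < V.valuation (algebraMap F Ω c) := zero_lt_iff.2 ((Valuation.ne_zero_iff _).2 hcΩ)
  obtain ⟨y, hy⟩ := approx (V := V) (x := x / algebraMap F Ω c) hv (fun g hg => by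
      rw [map_div₀, AlgEquiv.commutes, hI g hg]) (fun g hg => by
      have h5 : g (x / algebraMap F Ω c) - x / algebraMap F Ω c = (g x - x) / algebraMap F Ω c := by
        rw [map_div₀ g, AlgEquiv.commutes, ← sub_div]
      rw [h5, map_div₀, div_le_one₀ hc0]
      exact h g hg)
  refine ⟨c * y, ?_⟩
  have h1 : x - algebraMap F Ω (c * y) = algebraMap F Ω c * (x / algebraMap F Ω c - algebraMap F Ω y) := by
    rw [map_mul]
    field_simp
  rw [h1, map_mul]
  exact mul_le_of_le_one_right' hy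

end H55K.TQ
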