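import Mathlib
import Pool.Agent.Lib.H55K.QC1D

/-! # H55K: descent of a good equation from the inertia field -/

open NumberField IsDedekindDomain WeierstrassCurve

namespace H55K.TQ

open H55P (IQ embF eF LF Per IsHecke Pt ac Inert Dec Nm UnitP)
open H35P (WAB Ker tt GoodW IntW)
open H55K.MG (VC Crd)

variable {F : Type} [Field F] [NumberField F] {Ω : Type} [Field Ω] [Algebra F Ω] [IsAlgClosure F Ω] {V : ValuationSubring Ω}

/-- Chunk T7A (S/M). g in the decomposition group maps V to V, so the curve W'^g (coefficients g (a_i)) is good at V and VC (W⁄Ω) (W'^g) (g u) (g r) (g s) (g t) (vc_map for g; g fixes the coefficients of W). With g u = u: vc_inv and vc_comp: VC W' (W'^g) 1 ((g r - r)/u^2) ((g s - s)/u) _ ; vc_int. -/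
theorem dec_int {W : WeierstrassCurve F} {W' : WeierstrassCurve Ω} {u r s t : Ω} (h : VC (W⁄Ω) W' u r s t)
    (hG : GoodW W' V) (g : Ω ≃ₐ[F] Ω) (hg : Dec V g) (hu : g u = u) :
    V.valuation (g r - r) ≤ V.valuation (u ^ 2) ∧ V.valuation (g s - s) ≤ V.valuation u ∧
      (g r = r → g s = s → V.valuation (g t - t) ≤ V.valuation (u ^ 3)) := by


  have hu0 : u ≠ 0 := h.une
  have hmap : (W⁄Ω).map (g : Ω →+* Ω) = W⁄Ω := by
    have hcomp : ((g : Ω →+* Ω)).comp (algebraMap F Ω) = algebraMap F Ω := by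
      ext x
      exact g.commutes x
    rw [WeierstrassCurve.baseChange, WeierstrassCurve.map_map, hcomp]
  have hg1 := vc_map (g : Ω →+* Ω) h
  rw [hmap] at hg1
  have hgV : ∀ x : Ω, x ∈ V → (g : Ω →+* Ω) x ∈ V := fun x hx => (hg x).2 hx
  have hint : IntW (W'.map (g : Ω →+* Ω)) V :=
    ⟨hgV _ hG.a1, hgV _ hG.a2, hgV _ hG.a3, hgV _ hG.a4, hgV _ hG.a6⟩
  have hc := vc_comp (vc_inv h) hg1
  have hgu : (g : Ω →+* Ω) u = u := hu
  rw [hgu] at hc
  obtain ⟨i1, i2, i3⟩ := vc_int hc hG.toIntW hint (by rw [inv_mul_cancel₀ hu0, map_one])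
  have e1 : (g : Ω →+* Ω) r = g r := rfl
  have e2 : (g : Ω →+* Ω) s = g s := rfl
  have e3 : (g : Ω →+* Ω) t = g t := rfl
  rw [e1] at i1
  rw [e2] at i2
  rw [e1, e3] at i3
  have key : ∀ a b : Ω, b ≠ 0 → a / b ∈ V → V.valuation a ≤ V.valuation b := by
    intro a b hb hab
    rw [← V.valuation_le_one_iff, map_div₀] at hab
    have hb' : V.valuation b ≠ 0 := (map_ne_zero _).2 hb
    rwa [div_le_one₀ (zero_lt_iff.2 hb')] at hab
  refine ⟨key _ _ (pow_ne_zero 2 hu0) ?_, key _ _ hu0 ?_, ?_⟩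
  · convert i1 using 1
    field_simp
    ring
  · convert i2 using 1
    field_simp
    ring
  · intro hr hs
    refine key _ _ (pow_ne_zero 3 hu0) ?_
    rw [hr] at i3
    convert i3 using 1
    field_simp
    ring

end H55K.TQ
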