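import Mathlib
import Pool.Agent.Lib.H55K.T0
import Pool.Agent.Lib.H55K.T6B
import Pool.Agent.Lib.H55K.T7A

/-! # H55K: descent of a good equation from the inertia field -/

open NumberField IsDedekindDomain WeierstrassCurve

namespace H55K.TQ

open H55P (IQ embF eF LF Per IsHecke Pt ac Inert Dec Nm UnitP)
open H35P (WAB Ker tt GoodW IntW)
open H55K.MG (VC Crd)

variable {F : Type} [Field F] [NumberField F] {Ω : Type} [Field Ω] [Algebra F Ω] [IsAlgClosure F Ω] {V : ValuationSubring Ω}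

/-- Composition with an integral change of variables. -/
theorem t7b_step {k : Type} [Field k] {V : ValuationSubring k} {W W' : WeierstrassCurve k} {u r s t e' r' s' t' : k}
    (h : VC W W' u r s t) (hG : GoodW W' V) (he : V.valuation e' = 1) (hr : r' ∈ V) (hs : s' ∈ V) (ht : t' ∈ V) :
    ∃ W'' : WeierstrassCurve k, VC W W'' (u * e') (u ^ 2 * r' + r) (u * s' + s) (u ^ 3 * t' + s * u ^ 2 * r' + t) ∧
      GoodW W'' V := by
  have he0 : e' ≠ 0 := by
    rintro rfl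
    rw [map_zero] at he
    exact zero_ne_one he
  obtain ⟨W'', h2⟩ := vc_ex W' he0 r' s' t'
  exact ⟨W'', vc_comp h h2, vc_good h2 hG he hr hs ht⟩

theorem t7b_div {k : Type} [Field k] {V : ValuationSubring k} {a b : k} (hb : b ≠ 0)
    (h : V.valuation a ≤ V.valuation b) : a / b ∈ V := by
  have hb' : V.valuation b ≠ 0 := (map_ne_zero _).2 hb
  rw [← V.valuation_le_one_iff, map_div₀]
  exact (div_le_one₀ (zero_lt_iff.2 hb')).2 h

/-- Chunk T7B (M). u: H13S.value_fixed (bottom field): V(u) = V(a), a in F; compose with (a/u, 0, 0, 0): (a, r, s, t) is a good change (vc_comp, vc_ex, vc_good). dec_int, approx' for r with c = a^2 and for s with c = a: r₁, s₁ in F. Compose with (1, (r₁ - r)/a^2, (s₁ - s)/a, 0), integral (vc_good): the change (a, r₁, s₁, t₂), t₂ = s a^2 (r₁ - r)/a^2 + t = t + s (r₁ - r)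
is fixed by inertia. dec_int again (g r₁ = r₁, g s₁ = s₁): V(g t₂ - t₂) ≤ V(a^3); approx': t₁ in F; compose with (1, 0, 0, (t₁ - t₂)/a^3). So (a, r₁, s₁, t₁) in F is a good change of variables. W'' over F from vc_ex; its base change is the good curve (vc_map, vc_uniq). -/
theorem descent {v : HeightOneSpectrum (𝓞 F)} (hv : ∀ a : 𝓞 F, a ∈ v.asIdeal → V.valuation (ak Ω a) < 1)
    {W : WeierstrassCurve F} (h : GMd (W⁄Ω) V {x | ∀ g : Ω ≃ₐ[F] Ω, Inert V g → g x = x}) :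
    ∃ (W'' : WeierstrassCurve F) (u r s t : F), VC W W'' u r s t ∧ GoodW (W''⁄Ω) V := by



  obtain ⟨W', u, r, s, t, hu, hr, hs, ht, hV0, hG0⟩ := h
  have hu0 : u ≠ 0 := hV0.une
  have hbn : NumberField (⊥ : IntermediateField F Ω) := H16C.FR_numberField _
  obtain ⟨a', ha'0, hva⟩ := H13S.value_fixed (⊥ : IntermediateField F Ω) V u hu0 (fun g _ hg => hu g hg)
  obtain ⟨a, ha⟩ := IntermediateField.mem_bot.1 a'.2
  have ha0 : a ≠ 0 := by
    rintro rfl
    apply ha'0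
    apply Subtype.ext
    rw [← ha, map_zero]
    rfl
  rw [← ha] at hva
  set e : F →+* Ω := algebraMap F Ω with he
  have hea0 : e a ≠ 0 := (map_ne_zero e).2 ha0
  have hge : ∀ (g : Ω ≃ₐ[F] Ω) (x : F), g (e x) = e x := fun g x => g.commutes x
  obtain ⟨W1, hV1, hG1⟩ := t7b_step hV0 hG0 (e' := e a / u) (r' := 0) (s' := 0) (t' := 0)
    (by rw [map_div₀, hva, div_self]; rw [← hva]; exact (map_ne_zero _).2 hu0) V.zero_mem V.zero_mem V.zero_mem
  rw [mul_div_cancel₀ _ hu0] at hV1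
  simp only [mul_zero, zero_add] at hV1
  have hd1 : ∀ g : Ω ≃ₐ[F] Ω, Dec V g → _ := fun g hg => dec_int hV1 hG1 g hg (hge g a)
  obtain ⟨r₁, hr₁⟩ := approx' hv (x := r) (c := a ^ 2) (pow_ne_zero 2 ha0) hr (fun g hg => by
    rw [map_pow]
    exact (hd1 g hg).1)
  obtain ⟨s₁, hs₁⟩ := approx' hv (x := s) (c := a) ha0 hs (fun g hg => (hd1 g hg).2.1)
  rw [map_pow] at hr₁
  rw [← he] at hr₁ hs₁
  obtain ⟨W2, hV2, hG2⟩ := t7b_step hV1 hG1 (e' := 1) (r' := (e r₁ - r) / e a ^ 2) (s' := (e s₁ - s) / e a) (t' := 0)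
    (map_one _) (t7b_div (pow_ne_zero 2 hea0) (by rw [← neg_sub, Valuation.map_neg]; exact hr₁))
    (t7b_div hea0 (by rw [← neg_sub, Valuation.map_neg]; exact hs₁)) V.zero_mem
  have e1 : e a ^ 2 * ((e r₁ - r) / e a ^ 2) + r = e r₁ := by
    rw [mul_div_cancel₀ _ (pow_ne_zero 2 hea0)]
    ring
  have e2 : e a * ((e s₁ - s) / e a) + s = e s₁ := by
    rw [mul_div_cancel₀ _ hea0]
    ring
  have e3 : e a ^ 3 * 0 + s * e a ^ 2 * ((e r₁ - r) / e a ^ 2) + t = s * (e r₁ - r) + t := by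
    rw [mul_assoc s, mul_div_cancel₀ _ (pow_ne_zero 2 hea0)]
    ring
  rw [mul_one, e1, e2, e3] at hV2
  obtain ⟨t₁, ht₁⟩ := approx' hv (x := s * (e r₁ - r) + t) (c := a ^ 3) (pow_ne_zero 3 ha0) (fun g hg => by
      rw [map_add, map_mul, map_sub, hge, hr g hg, hs g hg, ht g hg]) (fun g hg => by
    rw [map_pow]
    exact (dec_int hV2 hG2 g hg (hge g a)).2.2 (hge g r₁) (hge g s₁))
  rw [map_pow] at ht₁
  rw [← he] at ht₁
  obtain ⟨W3, hV3, hG3⟩ := t7b_step hV2 hG2 (e' := 1) (r' := 0) (s' := 0)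
    (t' := (e t₁ - (s * (e r₁ - r) + t)) / e a ^ 3)
    (map_one _) V.zero_mem V.zero_mem
    (t7b_div (pow_ne_zero 3 hea0) (by rw [← neg_sub, Valuation.map_neg]; exact ht₁))
  rw [mul_div_cancel₀ _ (pow_ne_zero 3 hea0)] at hV3
  simp only [mul_zero, zero_add, mul_one, add_zero, sub_add_cancel] at hV3
  obtain ⟨W'', hW⟩ := vc_ex W ha0 r₁ s₁ t₁
  have h5 : W''⁄Ω = W3 := vc_uniq (vc_map e hW) hV3
  exact ⟨W'', a, r₁, s₁, t₁, hW, by rw [h5]; exact hG3⟩

end H55K.TQ
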