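import Mathlib
import Pool.Agent.Lib.H55K.T1
import Pool.Agent.Lib.H55K.T2
import Pool.Agent.Lib.H55K.T3B
import Pool.Agent.Lib.H55K.T5
import Pool.Agent.Lib.H55K.T7B
import Pool.Agent.Lib.H55P.S1

/-! # H55K: bad reduction stays bad in p-extensions -/

open NumberField IsDedekindDomain WeierstrassCurve

namespace H55K.TQ

open H55P (IQ embF eF LF Per IsHecke Pt ac Inert Dec Nm UnitP)
open H35P (WAB Ker tt GoodW IntW)
open H55K.MG (VC Crd)

theorem t8_le {F : Type} [Field F] [NumberField F] {Ω : Type} [Field Ω] [Algebra F Ω]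
    (V : ValuationSubring Ω) (a : 𝓞 F) : ak Ω a ∈ V := by
  have h1 : IsIntegral ℤ (a : F) := a.isIntegral_coe
  have h2 : IsIntegral ℤ (algebraMap F Ω (a : F)) := h1.map (algebraMap F Ω).toIntAlgHom
  have h3 : IsIntegral V (algebraMap F Ω (a : F)) := h2.tower_top
  obtain ⟨y, hy⟩ := (IsIntegrallyClosed.isIntegral_iff (R := V) (K := Ω)).1 h3
  change algebraMap F Ω (a : F) ∈ V
  rw [← hy]
  exact y.2

theorem t8_val {F : Type} [Field F] [NumberField F] {Ω : Type} [Field Ω] [Algebra F Ω]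
    {V : ValuationSubring Ω} {v : HeightOneSpectrum (𝓞 F)}
    (hv : ∀ a : 𝓞 F, a ∈ v.asIdeal → V.valuation (ak Ω a) < 1) {a : 𝓞 F} (ha : a ∉ v.asIdeal) :
    V.valuation (ak Ω a) = 1 := by
  have hmax : v.asIdeal.IsMaximal := v.isMaximal
  obtain ⟨b, c, hc, hbc⟩ := hmax.exists_inv ha
  have hle : ∀ x : 𝓞 F, V.valuation (ak Ω x) ≤ 1 := fun x => (V.valuation_le_one_iff _).2 (t8_le V x)
  refine le_antisymm (hle a) ?_
  by_contra hcon
  rw [not_le] at hcon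
  have e1 : ak Ω b * ak Ω a + ak Ω c = 1 := by
    unfold ak
    rw [← map_mul, ← map_add]
    have : ((b : F) * (a : F) + (c : F)) = 1 := by exact_mod_cast congrArg (fun z : 𝓞 F => (z : F)) hbc
    rw [this, map_one]
  have h3 : V.valuation (ak Ω b * ak Ω a + ak Ω c) < 1 := by
    refine V.valuation.map_add_lt ?_ (hv c hc)
    rw [map_mul]
    exact lt_of_le_of_lt (mul_le_of_le_one_left' (hle b)) hcon
  rw [e1, map_one] at h3
  exact lt_irrefl _ h3

theorem t8_dvd {F : Type} [Field F] [NumberField F] {p : ℕ} (hp : p.Prime) : ¬ (p : 𝓞 F) ∣ 1 := by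
  intro h
  have h1 := map_dvd (Algebra.norm ℤ) h
  have h2 : Algebra.norm ℤ ((p : ℕ) : 𝓞 F) = (p : ℤ) ^ Module.finrank ℤ (𝓞 F) := by
    have := Algebra.norm_algebraMap_of_basis (NumberField.RingOfIntegers.basis F) (p : ℤ)
    rw [← Module.finrank_eq_card_basis (NumberField.RingOfIntegers.basis F)] at this
    rw [← this]
    congr 1
    simp
  rw [h2, map_one] at h1
  have h3 : IsUnit ((p : ℤ) ^ Module.finrank ℤ (𝓞 F)) := isUnit_of_dvd_one h1
  have h4 : 0 < Module.finrank ℤ (𝓞 F) := Module.finrank_pos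
  have h5 : IsUnit (p : ℤ) := (isUnit_pow_iff h4.ne').1 h3
  exact (Nat.prime_iff_prime_int.1 hp).not_isUnit h5

/-- Chunk T8 (S/M). pow_fix: k. Let Inert V g. g^(p^k) is in L.fixingSubgroup, so it fixes M, and it is in the inertia group (H55P.inS). inert_triv (n = p): it fixes the points killed by p. fix_all: g fixes the points killed by p. A point T ≠ 0 killed by p exists (h.gen for b = p: T₀ ≠ 0 since p does not divide 1). nos_up (jj: hj with the images in Ω, integral: ak_le), descent. -/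
theorem good_down {F : Type} [Field F] [NumberField F] [IQ F] {A B : F} {Om : ℂ} {Ω : Type} [Field Ω] [DecidableEq Ω]
    [Algebra F Ω] [IsAlgClosure F Ω] [IsAlgClosed Ω] {j : Ω →+* ℂ} {act : 𝓞 F →+* AddMonoid.End (Pt (WAB A B) Ω)}
    (h : CMA F A B Om j act) (hj : ∃ j₀ : 𝓞 F, (WAB A B).c₄ ^ 3 = (j₀ : F) * (WAB A B).Δ) {p : ℕ}
    (hp : p.Prime) (h5 : 5 ≤ p) (hunr : ∀ v : HeightOneSpectrum (𝓞 F), (p : 𝓞 F) ∉ v.asIdeal ^ 2)
    {L M : IntermediateField F Ω} (hL : H55P.PExt p ⊥ L) (hM : M ≤ L) {V : ValuationSubring Ω}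
    {v : HeightOneSpectrum (𝓞 F)} (hv : ∀ a : 𝓞 F, a ∈ v.asIdeal → V.valuation (ak Ω a) < 1) (hpv : (p : 𝓞 F) ∉ v.asIdeal)
    (hG : GMd ((WAB A B)⁄Ω) V (M : Set Ω)) :
    ∃ (W'' : WeierstrassCurve F) (u r s t : F), VC (WAB A B) W'' u r s t ∧ GoodW (W''⁄Ω) V := by
  have halg : Algebra.IsAlgebraic F Ω := IsAlgClosure.isAlgebraic
  have hΔ : (WAB A B).Δ ≠ 0 := by
    have hd := h.disc
    have e : (WAB A B).Δ = -16 * (4 * A ^ 3 + 27 * B ^ 2) := by
      unfold WAB WeierstrassCurve.Δ WeierstrassCurve.b₂ WeierstrassCurve.b₄ WeierstrassCurve.b₆ WeierstrassCurve.b₈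
      ring
    rw [e]
    exact mul_ne_zero (by norm_num) hd
  obtain ⟨k, hk⟩ := pow_fix hL
  have hVp : V.valuation (p : Ω) = 1 := by
    have h1 := t8_val hv hpv
    have e : ak Ω ((p : ℕ) : 𝓞 F) = (p : Ω) := by
      have e1 : (((p : ℕ) : 𝓞 F) : F) = (p : F) := map_natCast (algebraMap (𝓞 F) F) p
      unfold ak
      rw [e1, map_natCast]
    rwa [e] at h1
  have hfix : ∀ g : Ω ≃ₐ[F] Ω, Inert V g → ∀ T : Pt (WAB A B) Ω, p • T = 0 → ac (WAB A B) g T = T := by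
    intro g hg T hT
    refine fix_all h hp hunr g (k := k) ?_ T hT
    intro T hT
    refine inert_triv hΔ hG (g ^ (p ^ k)) ?_ ?_ p hVp T hT
    · intro x hx
      exact (IntermediateField.mem_fixingSubgroup_iff L _).1 (hk g) x (hM hx)
    · have h1 : g ∈ H55P.inS F V := hg
      exact pow_mem h1 (p ^ k)
  have hp0 : ((p : ℕ) : 𝓞 F) ≠ 0 := by
    intro h0
    exact hp.ne_zero (by exact_mod_cast h0)
  obtain ⟨T₀, hT₀, -, hT₁, -⟩ := h.gen ((p : ℕ) : 𝓞 F) hp0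
  have hT0 : T₀ ≠ 0 := by
    intro h0
    have h1 := (hT₁ 1).1 (by rw [h0]; exact map_zero _)
    exact t8_dvd hp h1
  have hpT : p • T₀ = 0 := by
    have h1 : act ((p : ℕ) : 𝓞 F) T₀ = 0 := hT₀
    rw [map_natCast] at h1
    rw [← AddMonoid.End.natCast_apply]
    exact h1
  obtain ⟨j₀, hj₀⟩ := hj
  have hjj : ((WAB A B)⁄Ω).c₄ ^ 3 = ak Ω j₀ * ((WAB A B)⁄Ω).Δ := by
    have e1 : ((WAB A B)⁄Ω).c₄ = algebraMap F Ω (WAB A B).c₄ := WeierstrassCurve.map_c₄ _ _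
    have e2 : ((WAB A B)⁄Ω).Δ = algebraMap F Ω (WAB A B).Δ := WeierstrassCurve.map_Δ _ _
    rw [e1, e2, ← map_pow, hj₀, map_mul]
  exact descent hv (nos_up hΔ (t8_le V j₀) hjj hp h5 hVp hpT hT0 (fun g hg => hfix g hg T₀ hpT))

end H55K.TQ
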