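import Mathlib
import Pool.Agent.Lib.H55K.M0
import Pool.Agent.Lib.H55P.Stm

/-! # H55K: good reduction over a subfield and valuation rings of the algebraic closure -/

open NumberField IsDedekindDomain WeierstrassCurve

namespace H55K.TQ

open H55P (IQ embF eF LF Per IsHecke Pt ac Inert Dec Nm UnitP)
open H35P (WAB Ker tt GoodW IntW)
open H55K.MG (VC Crd)

/-- Chunk T9A (S/M). The short equation: W₀⁄F is obtained from y^2 = x^3 + A x + B by a change of variables with u = 1 over F (x = x' + b₂/12, y = y' + (a₁ x' + a₃)/2; see PS4_D, exists_short in H55P/S4.lean): VC W W' 1 r s t means x = x' + r, y = y' + s x' + t; check h1 .. h6 with hA, hB by ring (field_simp). -/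
theorem vc_short {F : Type} [Field F] [NumberField F] (W₀ : WeierstrassCurve (𝓞 F)) {A B : F} (hA : A = -(algebraMap (𝓞 F) F W₀.c₄) / 48)
    (hB : B = -(algebraMap (𝓞 F) F W₀.c₆) / 864) : ∃ r s t : F, VC (WAB A B) (W₀⁄F) 1 r s t := by
  have hc4 : algebraMap (𝓞 F) F W₀.c₄ = (W₀⁄F).c₄ := (W₀.map_c₄ (algebraMap (𝓞 F) F)).symm
  have hc6 : algebraMap (𝓞 F) F W₀.c₆ = (W₀⁄F).c₆ := (W₀.map_c₆ (algebraMap (𝓞 F) F)).symm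
  rw [hc4] at hA
  rw [hc6] at hB
  generalize W₀⁄F = W at hA hB
  refine ⟨(W.a₂ + (W.a₁ / 2) ^ 2) / 3, W.a₁ / 2, W.a₃ / 2, one_ne_zero, ?_, ?_, ?_, ?_, ?_⟩
  · show 1 * W.a₁ = 0 + 2 * (W.a₁ / 2)
    ring
  · show 1 ^ 2 * W.a₂ = 0 - W.a₁ / 2 * 0 + 3 * ((W.a₂ + (W.a₁ / 2) ^ 2) / 3) - (W.a₁ / 2) ^ 2
    ring
  · show 1 ^ 3 * W.a₃ = 0 + (W.a₂ + (W.a₁ / 2) ^ 2) / 3 * 0 + 2 * (W.a₃ / 2)
    ring
  · show 1 ^ 4 * W.a₄ = A - W.a₁ / 2 * 0 + 2 * ((W.a₂ + (W.a₁ / 2) ^ 2) / 3) * 0 -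
      (W.a₃ / 2 + (W.a₂ + (W.a₁ / 2) ^ 2) / 3 * (W.a₁ / 2)) * 0 +
      3 * ((W.a₂ + (W.a₁ / 2) ^ 2) / 3) ^ 2 - 2 * (W.a₁ / 2) * (W.a₃ / 2)
    rw [hA]
    unfold WeierstrassCurve.c₄ WeierstrassCurve.b₂ WeierstrassCurve.b₄
    ring
  · show 1 ^ 6 * W.a₆ = B + (W.a₂ + (W.a₁ / 2) ^ 2) / 3 * A +
      ((W.a₂ + (W.a₁ / 2) ^ 2) / 3) ^ 2 * 0 + ((W.a₂ + (W.a₁ / 2) ^ 2) / 3) ^ 3 - W.a₃ / 2 * 0 -
      (W.a₃ / 2) ^ 2 - (W.a₂ + (W.a₁ / 2) ^ 2) / 3 * (W.a₃ / 2) * 0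
    rw [hA, hB]
    unfold WeierstrassCurve.c₄ WeierstrassCurve.c₆ WeierstrassCurve.b₂ WeierstrassCurve.b₄
      WeierstrassCurve.b₆
    ring

end H55K.TQ
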