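import Mathlib
import Pool.Agent.Lib.H35P.Red
import Pool.Agent.Lib.H55K.C0
import Pool.Agent.Lib.H55K.D2
import Pool.Agent.Lib.H55K.QC1C
import Pool.Agent.Lib.H55K.T9A

/-! # H55K: good reduction over a subfield and valuation rings of the algebraic closure -/

open NumberField IsDedekindDomain WeierstrassCurve

namespace H55K.TQ

open H55P (IQ embF eF LF Per IsHecke Pt ac Inert Dec Nm UnitP)
open H35P (WAB Ker tt GoodW IntW)
open H55K.MG (VC Crd)

/-- Integers of F have valuation at most one at every valuation ring of an extension. -/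
theorem t9c_int {F : Type} [Field F] [NumberField F] {Ω : Type} [Field Ω] [Algebra F Ω] (V : ValuationSubring Ω)
    (e : 𝓞 F) : V.valuation (ak Ω e) ≤ 1 := by
  rw [ValuationSubring.valuation_le_one_iff]
  have h1 : IsIntegral ℤ (e : F) := e.isIntegral_coe
  have h2 : IsIntegral ℤ (algebraMap F Ω (e : F)) := h1.map (algebraMap F Ω).toIntAlgHom
  have h3 : IsIntegral V (algebraMap F Ω (e : F)) := h2.tower_top
  obtain ⟨y, hy⟩ := IsIntegrallyClosed.isIntegral_iff.mp h3
  have h4 : ((y : V) : Ω) = ak Ω e := hy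
  rw [← h4]
  exact y.2

/-- An element of F with valuation at most one at V is v-integral. -/
theorem t9c_le {F : Type} [Field F] [NumberField F] {Ω : Type} [Field Ω] [Algebra F Ω]
    (v : HeightOneSpectrum (𝓞 F)) {V : ValuationSubring Ω}
    (hV : ∀ a : 𝓞 F, a ∈ v.asIdeal → V.valuation (ak Ω a) < 1) {x : F}
    (hx : V.valuation (algebraMap F Ω x) ≤ 1) : v.valuation F x ≤ 1 := by
  by_contra hlt
  push Not at hlt
  obtain ⟨n, ⟨d, hd⟩, h | h⟩ := v.exists_primeCompl_mul_eq_or_mul_eq (K := F) x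
  · have h1 : v.valuation F x * v.valuation F (algebraMap (𝓞 F) F d) = v.valuation F (algebraMap (𝓞 F) F n) := by
      rw [← map_mul]
      exact congrArg _ h
    rw [(v.valuation_eq_one_iff_notMem (K := F)).mpr hd, mul_one] at h1
    rw [h1] at hlt
    exact absurd (v.valuation_le_one n) (not_le.mpr hlt)
  · have h1 : v.valuation F x * v.valuation F (algebraMap (𝓞 F) F n) = v.valuation F (algebraMap (𝓞 F) F d) := by
      rw [← map_mul]
      exact congrArg _ h
    rw [(v.valuation_eq_one_iff_notMem (K := F)).mpr hd] at h1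
    have hn : n ∈ v.asIdeal := by
      by_contra hn
      rw [(v.valuation_eq_one_iff_notMem (K := F)).mpr hn, mul_one] at h1
      exact absurd h1 (ne_of_gt hlt)
    have h2 : V.valuation (ak Ω d) < 1 := by
      have h3 : algebraMap F Ω x * ak Ω n = ak Ω d := by
        have h4 := congrArg (algebraMap F Ω) h
        rw [map_mul] at h4
        exact h4
      rw [← h3, map_mul]
      exact lt_of_le_of_lt (mul_le_of_le_one_left' hx) (hV n hn)
    have hmax : v.asIdeal.IsMaximal := v.isMaximal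
    have hd' : d ∉ v.asIdeal := hd
    obtain ⟨e, i, hi, he⟩ := hmax.exists_inv hd'
    have h5 : ak Ω e * ak Ω d + ak Ω i = 1 := by
      have h6 := congrArg (fun z : 𝓞 F => ak Ω z) he
      simp only [ak, map_mul, map_add, map_one] at h6 ⊢
      exact h6
    have h7 : V.valuation (ak Ω e * ak Ω d + ak Ω i) < 1 := by
      refine lt_of_le_of_lt (V.valuation.map_add _ _) (max_lt ?_ (hV i hi))
      rw [map_mul]
      exact lt_of_le_of_lt (mul_le_of_le_one_left' (t9c_int V e)) h2
    rw [h5, map_one] at h7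
    exact lt_irrefl _ h7

/-- An element of F with valuation one at V has v-adic valuation one. -/
theorem t9c_eq {F : Type} [Field F] [NumberField F] {Ω : Type} [Field Ω] [Algebra F Ω]
    (v : HeightOneSpectrum (𝓞 F)) {V : ValuationSubring Ω}
    (hV : ∀ a : 𝓞 F, a ∈ v.asIdeal → V.valuation (ak Ω a) < 1) {x : F}
    (hx : V.valuation (algebraMap F Ω x) = 1) : v.valuation F x = 1 := by
  apply le_antisymm (t9c_le v hV hx.le)
  have h1 : V.valuation (algebraMap F Ω x⁻¹) ≤ 1 := by
    rw [map_inv₀, map_inv₀, hx, inv_one]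
  have h2 := t9c_le v hV h1
  rw [map_inv₀] at h2
  by_contra h3
  push Not at h3
  have h4 : v.valuation F x ≠ 0 := by
    intro h0
    rw [Valuation.zero_iff] at h0
    rw [h0, map_zero, map_zero] at hx
    exact zero_ne_one hx
  exact absurd h2 (not_le.mpr ((one_lt_inv₀ (zero_lt_iff.mpr h4)).mpr h3))

/-- Chunk T9C (M). VC (W₀⁄F) (W'') over F (vc_short, vc_inv, vc_comp); a change of variables in the sense of VC is given by the VariableChange with the same u, r, s, t: C • (W₀⁄F) = W'' (vc_smul, vc_uniq). x in F with V(x) ≤ 1 is v-integral: if v.valuation x > 1 then 1/x = a/b, a in v, b not in v, V(1/x) < 1. -/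
theorem good_of_V {F : Type} [Field F] [NumberField F] {Ω : Type} [Field Ω] [Algebra F Ω]
    (W₀ : WeierstrassCurve (𝓞 F)) {A B : F} (hA : A = -(algebraMap (𝓞 F) F W₀.c₄) / 48)
    (hB : B = -(algebraMap (𝓞 F) F W₀.c₆) / 864) (v : HeightOneSpectrum (𝓞 F)) {V : ValuationSubring Ω}
    (hV : ∀ a : 𝓞 F, a ∈ v.asIdeal → V.valuation (ak Ω a) < 1)
    (h : ∃ (W'' : WeierstrassCurve F) (u r s t : F), VC (WAB A B) W'' u r s t ∧ GoodW (W''⁄Ω) V) :
    GoodAt (W₀⁄F) v := by
  obtain ⟨W'', u, r, s, t, hvc, hg⟩ := h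
  obtain ⟨r₀, s₀, t₀, h₀⟩ := vc_short W₀ hA hB
  obtain ⟨U, R, S, T, h1⟩ : ∃ U R S T : F, VC (W₀⁄F) W'' U R S T :=
    ⟨_, _, _, _, vc_comp (vc_inv h₀) hvc⟩
  have h3 : (⟨Units.mk0 U h1.une, R, S, T⟩ : VariableChange F) • (W₀⁄F) = W'' :=
    vc_uniq (vc_smul (W₀⁄F) ⟨Units.mk0 U h1.une, R, S, T⟩) h1
  refine ⟨⟨Units.mk0 U h1.une, R, S, T⟩, ?_⟩
  · rw [h3]
    refine ⟨?_, ?_, ?_, ?_, ?_, ?_⟩
    · exact t9c_le v hV (((ValuationSubring.valuation_le_one_iff V _).mpr hg.a1))
    · exact t9c_le v hV (((ValuationSubring.valuation_le_one_iff V _).mpr hg.a2))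
    · exact t9c_le v hV (((ValuationSubring.valuation_le_one_iff V _).mpr hg.a3))
    · exact t9c_le v hV (((ValuationSubring.valuation_le_one_iff V _).mpr hg.a4))
    · exact t9c_le v hV (((ValuationSubring.valuation_le_one_iff V _).mpr hg.a6))
    · apply t9c_eq v hV
      have h4 := hg.disc
      have h5 : (W''⁄Ω).Δ = algebraMap F Ω W''.Δ := W''.map_Δ (algebraMap F Ω)
      rw [h5] at h4
      exact h4

end H55K.TQ
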