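import Mathlib
import Pool.Agent.Lib.H35P.B1
import Pool.Agent.Lib.H35P.Red
import Pool.Agent.Lib.H55K.D1
import Pool.Agent.Lib.H55P.EDef
import Pool.Agent.Lib.H55P.Sel
import Pool.Agent.Lib.H55P.TD

/-! # H55K: a good prime exists -/

open NumberField IsDedekindDomain WeierstrassCurve

namespace H55K

open H55P (IQ embF eF LF Per IsHecke Pt ac Inert Dec Nm)
open H35P (WAB Ker tt)


variable {F : Type} [Field F] [NumberField F] [IQ F]

theorem y7b_jac {D q : ℕ} (hD : 0 < D) (hm : q % (4 * D) = 4 * D - 1) : jacobiSym (-(D : ℤ)) q = -1 := by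
  have h4 : q % 4 = 3 := by
    have h := Nat.mod_mod_of_dvd q (Dvd.intro D rfl : 4 ∣ 4 * D)
    rw [hm] at h
    omega
  have hodd : Odd q := Nat.odd_iff.2 (by omega)
  have h1 : jacobiSym (D : ℤ) q = 1 := by
    rw [jacobiSym.mod_right' D hodd, hm]
    have hodd2 : Odd (4 * D - 1) := Nat.odd_iff.2 (by omega)
    have e1 : jacobiSym ((4 : ℤ) * D) (4 * D - 1) = 1 := by
      have e2 : ((4 : ℤ) * D) % ((4 * D - 1 : ℕ) : ℤ) = 1 % ((4 * D - 1 : ℕ) : ℤ) := by
        rw [Nat.cast_sub (by omega)]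
        push_cast
        rw [Int.emod_eq_emod_iff_emod_sub_eq_zero, Int.emod_self]
      rw [jacobiSym.mod_left, e2, ← jacobiSym.mod_left, jacobiSym.one_left]
    rw [jacobiSym.mul_left] at e1
    have e4 : jacobiSym (4 : ℤ) (4 * D - 1) = 1 := by
      have : (4 : ℤ) = 2 ^ 2 := by norm_num
      rw [this]
      refine jacobiSym.sq_one' ?_
      have h5 : Nat.gcd 2 (4 * D - 1) = 1 := Nat.coprime_two_left.2 hodd2
      exact_mod_cast h5
    rw [e4, one_mul] at e1
    exact e1
  rw [neg_eq_neg_one_mul, jacobiSym.mul_left, h1, mul_one, jacobiSym.at_neg_one hodd,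
    ZMod.χ₄_nat_three_mod_four h4]

theorem y7b_field {R : Type} [CommRing R] {q : ℕ} (hq : q.Prime) (hc : Nat.card R = q) {D : ℕ} {z : R}
    (hz : z ^ 2 = -(D : R)) : IsSquare (-(D : ZMod q)) := by
  have : Finite R := Nat.finite_of_card_ne_zero (by rw [hc]; exact hq.ne_zero)
  have := Fintype.ofFinite R
  rw [Nat.card_eq_fintype_card] at hc
  let e : ZMod q ≃+* R := ZMod.ringEquivOfPrime R hq hc
  refine ⟨e.symm z, ?_⟩
  rw [← map_mul, ← sq, hz, map_neg, map_natCast]

/-- Chunk Y7B (M). If (q) is not prime in 𝓞 F: a prime v containing q (q is not a unit), q = x y with x a prime element generating v, y not a unit (if y is a unit then q is prime), Nm x * Nm y = q^2 (Nm_mul, Nm_nat), both > 1, so absNorm v = q, 𝓞 F ⧸ v is isomorphic to ZMod q (card a prime number, or: every element is congruent to a natural number), so -D is a square in ZMod q.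
But the Jacobi symbol J(-D | q) with q congruent to -1 modulo 4 D is -1: jacobiSym.mod_right (q replaced by 4D - 1), J(-1 | 4D-1) = -1 (4D - 1 is 3 modulo 4), J(D | 4D-1) = J(4D | 4D-1) = J(1 | 4D-1) = 1; jacobiSym.legendreSym.to_jacobiSym, legendreSym.eq_neg_one_iff. -/
theorem inert_q {F : Type} [Field F] [NumberField F] [IQ F] {D : ℕ} {δ : 𝓞 F} (hD : 0 < D)
    (hδ : δ ^ 2 = -(D : 𝓞 F)) {q : ℕ} (hq : q.Prime) (hm : q % (4 * D) = 4 * D - 1) : Prime (q : 𝓞 F) := by
  have hq0 : (q : 𝓞 F) ≠ 0 := Nat.cast_ne_zero.2 hq.ne_zero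
  have hu : ∀ x : 𝓞 F, Nm x = 1 → IsUnit x := by
    intro x hx
    unfold H55P.Nm at hx
    rwa [Ideal.absNorm_eq_one_iff, Ideal.span_singleton_eq_top] at hx
  have hq1 : ¬ IsUnit (q : 𝓞 F) := by
    intro h
    have h1 : Nm (q : 𝓞 F) = 1 := by
      unfold H55P.Nm
      rw [Ideal.absNorm_eq_one_iff, Ideal.span_singleton_eq_top]
      exact h
    rw [Nm_nat] at h1
    exact hq.one_lt.ne' (by nlinarith [hq.one_lt])
  by_contra hnp
  obtain ⟨x, hx, y, hxy⟩ := WfDvdMonoid.exists_irreducible_factor hq1 hq0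
  have hxp : Prime x := hx.prime
  have hy : ¬ IsUnit y := by
    intro h
    apply hnp
    have : Associated x (q : 𝓞 F) := ⟨h.unit, hxy.symm⟩
    exact this.prime hxp
  have hN : Nm x * Nm y = q ^ 2 := by rw [← Nm_mul, ← hxy, Nm_nat]
  have hx1 : Nm x ≠ 1 := fun h => hxp.not_isUnit (hu _ h)
  have hy1 : Nm y ≠ 1 := fun h => hy (hu _ h)
  have hxq : Nm x = q := by
    obtain ⟨i, hi, e⟩ := (Nat.dvd_prime_pow hq).1 (Dvd.intro _ hN)
    have hi3 : i = 0 ∨ i = 1 ∨ i = 2 := by omega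
    rcases hi3 with rfl | rfl | rfl
    · rw [pow_zero] at e
      exact absurd e hx1
    · rwa [pow_one] at e
    · rw [e] at hN
      have : q ^ 2 * Nm y = q ^ 2 * 1 := by rw [hN, mul_one]
      exact absurd (Nat.eq_of_mul_eq_mul_left (pow_pos hq.pos 2) this) hy1
  have hcard : Nat.card (𝓞 F ⧸ Ideal.span {x}) = q := by
    rw [← hxq]
    unfold H55P.Nm
    rw [Ideal.absNorm_apply, Submodule.cardQuot_apply]
  have hsq : IsSquare (-(D : ZMod q)) := by
    refine y7b_field hq hcard (z := Ideal.Quotient.mk _ δ) ?_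
    rw [← map_pow, hδ, map_neg, map_natCast]
  have := Fact.mk hq
  have h1 : legendreSym q (-(D : ℤ)) = -1 := by
    rw [jacobiSym.legendreSym.to_jacobiSym, y7b_jac hD hm]
  rw [legendreSym.eq_neg_one_iff] at h1
  apply h1
  push_cast
  exact hsq

end H55K
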