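import Mathlib
import Pool.Agent.Lib.H55K.Y7B

open NumberField IsDedekindDomain

namespace H55K.JJ

open H55P (IQ embF eF LF Per Pt ac Nm)

/-! Chunk J10 (M). δ = x - cj x, x from H55P.F0_im: cj δ = -δ, δ^2 = -D, D = Nm δ > 0 (see the beginning of the proof of exists_delta in Y7A.lean). m = 1 if V(D + 1) = 1, otherwise m = D + 1 (V(m) < 1, so V(m^2 D + 1) = 1). b = m δ + 1: b * cj b = m^2 D + 1 = Nm b (mul_cj).
l: a prime, l = -1 modulo 4D, l > D + 1, V(l) = 1: take two such primes l1 < l2 (Nat.forall_exists_prime_gt_and_eq_mod / setOf_prime_and_eq_mod_infinite, y7c_q for the style); if V(l1) < 1 and V(l2) < 1 then V(1) < 1 (u l1 + v l2 = 1). Prime (l : 𝓞 F): inert_q (Y7B).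
If l | b - n = m δ + k (k = 1 - n): apply cj: l | -m δ + k; sum: l | 2k in 𝓞 F, so l | 2k in ℤ (norm, or Nm; (l : 𝓞 F) | (z : 𝓞 F) iff l | z), l odd, so l | k, l | m δ; l prime: l | m (0 < m ≤ D + 1 < l: no) or l | δ, then l^2 | D, no. -/

theorem j10_nat {Ω : Type} [Field Ω] (V : ValuationSubring Ω) (n : ℕ) : V.valuation (n : Ω) ≤ 1 :=
  (V.valuation_le_one_iff _).2 (natCast_mem V n)

theorem j10_int {Ω : Type} [Field Ω] (V : ValuationSubring Ω) (n : ℤ) : V.valuation (n : Ω) ≤ 1 :=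
  (V.valuation_le_one_iff _).2 (intCast_mem V n)

theorem j10_mul {Ω : Type} [Field Ω] (V : ValuationSubring Ω) {x y : Ω} (hx : V.valuation x < 1)
    (hy : V.valuation y ≤ 1) : V.valuation (x * y) < 1 := by
  rw [map_mul]
  exact mul_lt_one_of_lt_of_le hx hy

theorem j10_dvd {F : Type} [Field F] [NumberField F] [IQ F] {l k : ℕ} (h : (l : 𝓞 F) ∣ (k : 𝓞 F)) : l ∣ k := by
  obtain ⟨c, hc⟩ := h
  have h1 := congrArg (fun z : 𝓞 F => Nm z) hc
  simp only [Nm_mul, Nm_nat] at h1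
  exact (Nat.pow_dvd_pow_iff two_ne_zero).1 ⟨_, h1⟩

theorem choose_lb (F : Type) [Field F] [NumberField F] [IQ F] {Ω : Type} [Field Ω] [CharZero Ω]
    (V : ValuationSubring Ω) : ∃ (l : ℕ) (b : 𝓞 F), l.Prime ∧ Prime (l : 𝓞 F) ∧ V.valuation (l : Ω) = 1 ∧
      V.valuation ((Nm b : ℕ) : Ω) = 1 ∧ ∀ n : ℤ, ¬ (l : 𝓞 F) ∣ b - n := by
  classical
  obtain ⟨δ, hδ0, hcj⟩ : ∃ δ : 𝓞 F, δ ≠ 0 ∧ cj δ = -δ := by
    obtain ⟨x, hx⟩ := H55P.F0_im (F := F)
    refine ⟨x - cj x, ?_, ?_⟩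
    · intro h
      have h1 : x = cj x := sub_eq_zero.1 h
      have h2 := congrArg (eF F) h1
      rw [e_cj] at h2
      exact hx (Complex.conj_eq_iff_im.1 h2.symm)
    · rw [map_sub, cj_cj]
      ring
  obtain ⟨D, hD, hδ⟩ : ∃ D : ℕ, 0 < D ∧ δ ^ 2 = -(D : 𝓞 F) := by
    refine ⟨Nm δ, Nat.pos_of_ne_zero fun h => hδ0 (H55P.Nm_eq_zero.1 h), ?_⟩
    rw [← mul_cj, hcj]
    ring
  obtain ⟨m, hm0, hm1, hmV⟩ : ∃ m : ℕ, 0 < m ∧ m ≤ D + 1 ∧ V.valuation ((m ^ 2 * D + 1 : ℕ) : Ω) = 1 := by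
    by_cases hV : V.valuation ((D + 1 : ℕ) : Ω) = 1
    · refine ⟨1, one_pos, by omega, ?_⟩
      rw [one_pow, one_mul]
      exact hV
    · refine ⟨D + 1, by omega, le_rfl, ?_⟩
      have h1 : V.valuation ((D + 1 : ℕ) : Ω) < 1 := lt_of_le_of_ne (j10_nat V _) hV
      have h2 : V.valuation (((D + 1) ^ 2 * D : ℕ) : Ω) < 1 := by
        have e : (((D + 1) ^ 2 * D : ℕ) : Ω) = ((D + 1 : ℕ) : Ω) * (((D + 1) * D : ℕ) : Ω) := by
          push_cast
          ring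
        rw [e]
        exact j10_mul V h1 (j10_nat V _)
      rw [Nat.cast_add, Nat.cast_one]
      rw [Valuation.map_add_eq_of_lt_right _ (by rw [map_one]; exact h2)]
      exact map_one _
  obtain ⟨l, hl, hlD, hlm, hlV⟩ : ∃ l : ℕ, l.Prime ∧ D + 1 < l ∧ l % (4 * D) = 4 * D - 1 ∧
      V.valuation (l : Ω) = 1 := by
    have hex : ∀ X : ℕ, ∃ l : ℕ, l.Prime ∧ X < l ∧ l % (4 * D) = 4 * D - 1 := by
      intro X
      have hc : Nat.Coprime (4 * D - 1) (4 * D) := by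
        obtain ⟨n, hn⟩ : ∃ n, 4 * D = n + 1 := ⟨4 * D - 1, by omega⟩
        rw [hn, Nat.add_sub_cancel]
        simp
      obtain ⟨q, h1, h2, h3⟩ := Nat.forall_exists_prime_gt_and_modEq X (q := 4 * D) (by omega) hc
      refine ⟨q, h2, h1, ?_⟩
      rw [h3, Nat.mod_eq_of_lt (by omega)]
    obtain ⟨l1, p1, g1, m1⟩ := hex (D + 1)
    obtain ⟨l2, p2, g2, m2⟩ := hex l1
    by_cases hV1 : V.valuation (l1 : Ω) = 1
    · exact ⟨l1, p1, g1, m1, hV1⟩
    · by_cases hV2 : V.valuation (l2 : Ω) = 1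
      · exact ⟨l2, p2, g1.trans g2, m2, hV2⟩
      · exfalso
        have v1 : V.valuation (l1 : Ω) < 1 := lt_of_le_of_ne (j10_nat V _) hV1
        have v2 : V.valuation (l2 : Ω) < 1 := lt_of_le_of_ne (j10_nat V _) hV2
        have hc : IsCoprime (l1 : ℤ) (l2 : ℤ) := by
          rw [Nat.isCoprime_iff_coprime, Nat.coprime_primes p1 p2]
          omega
        obtain ⟨a, b, hab⟩ := hc
        have h6 : (l1 : Ω) * (a : Ω) + (l2 : Ω) * (b : Ω) = 1 := by
          have := congrArg (fun z : ℤ => (z : Ω)) hab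
          push_cast at this
          rw [← this]
          ring
        have h7 : V.valuation (1 : Ω) < 1 := by
          rw [← h6]
          exact Valuation.map_add_lt _ (j10_mul V v1 (j10_int V _)) (j10_mul V v2 (j10_int V _))
        rw [map_one] at h7
        exact lt_irrefl _ h7
  have hlp : Prime (l : 𝓞 F) := inert_q hD hδ hl hlm
  refine ⟨l, (m : 𝓞 F) * δ + 1, hl, hlp, hlV, ?_, ?_⟩
  · have h1 : Nm ((m : 𝓞 F) * δ + 1) = m ^ 2 * D + 1 := by
      have h2 : ((Nm ((m : 𝓞 F) * δ + 1) : ℕ) : 𝓞 F) = ((m ^ 2 * D + 1 : ℕ) : 𝓞 F) := by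
        rw [← mul_cj, map_add, map_mul, map_one, cj_nat, hcj]
        push_cast
        linear_combination (-(m : 𝓞 F) ^ 2) * hδ
      exact_mod_cast h2
    rw [h1]
    exact hmV
  · intro n hn
    obtain ⟨c, hc⟩ := hn
    have h1 := congrArg cj hc
    rw [map_mul, map_sub, map_add, map_mul, map_one, cj_nat, cj_nat, hcj, map_intCast] at h1
    have h2 : (l : 𝓞 F) ∣ ((2 * m : ℕ) : 𝓞 F) * δ := by
      refine ⟨c - cj c, ?_⟩
      push_cast
      linear_combination hc - h1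
    rcases hlp.dvd_or_dvd h2 with h3 | h3
    · have h4 := j10_dvd h3
      rcases hl.dvd_mul.1 h4 with h5 | h5
      · have := Nat.le_of_dvd two_pos h5
        omega
      · have := Nat.le_of_dvd hm0 h5
        omega
    · have h4 : (l : 𝓞 F) ∣ (D : 𝓞 F) := by
        have h5 : (l : 𝓞 F) ∣ δ ^ 2 := dvd_pow h3 two_ne_zero
        rw [hδ] at h5
        exact (dvd_neg).1 h5
      have h6 := Nat.le_of_dvd hD (j10_dvd h4)
      omega

end H55K.JJ
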