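import Mathlib
import Pool.Agent.Lib.H35P.Red
import Pool.Agent.Lib.H55K.D0

/-! # H55K, part J: the j-invariant is integral (definitions, residues) -/

open NumberField WeierstrassCurve

namespace H55K.JJ

open H35P (WAB Ker IntW)

section residue

variable {k : Type} [Field k] {V : ValuationSubring k}

open Classical in
/-- The residue (0 for elements which are not integral). -/
noncomputable def rs (V : ValuationSubring k) (x : k) : IsLocalRing.ResidueField V :=
  if h : x ∈ V then IsLocalRing.residue V ⟨x, h⟩ else 0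

theorem rs_of {x : k} (hx : x ∈ V) : rs V x = IsLocalRing.residue V ⟨x, hx⟩ := dif_pos hx

theorem rs_add {x y : k} (hx : x ∈ V) (hy : y ∈ V) : rs V (x + y) = rs V x + rs V y := by
  rw [rs_of hx, rs_of hy, rs_of (V.add_mem _ _ hx hy), ← map_add]
  rfl

theorem rs_mul {x y : k} (hx : x ∈ V) (hy : y ∈ V) : rs V (x * y) = rs V x * rs V y := by
  rw [rs_of hx, rs_of hy, rs_of (V.mul_mem _ _ hx hy), ← map_mul]
  rfl

theorem rs_neg {x : k} (hx : x ∈ V) : rs V (-x) = -rs V x := by
  rw [rs_of hx, rs_of (V.neg_mem _ hx), ← map_neg]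
  rfl

theorem rs_sub {x y : k} (hx : x ∈ V) (hy : y ∈ V) : rs V (x - y) = rs V x - rs V y := by
  rw [sub_eq_add_neg, rs_add hx (V.neg_mem _ hy), rs_neg hy, ← sub_eq_add_neg]

theorem rs_one : rs V (1 : k) = 1 := by
  rw [rs_of V.one_mem]
  exact map_one (IsLocalRing.residue V)

theorem rs_zero : rs V (0 : k) = 0 := by
  rw [rs_of V.zero_mem]
  exact map_zero (IsLocalRing.residue V)

theorem rs_pow {x : k} (hx : x ∈ V) (n : ℕ) : rs V (x ^ n) = rs V x ^ n := by
  induction n with
  | zero => rw [pow_zero, pow_zero, rs_one]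
  | succ n ih => rw [pow_succ, pow_succ, rs_mul (pow_mem hx n) hx, ih]

theorem rs_nat (n : ℕ) : rs V (n : k) = (n : IsLocalRing.ResidueField V) := by
  rw [rs_of (natCast_mem V n), ← map_natCast (IsLocalRing.residue V) n]
  rfl

theorem rs_sum {ι : Type} (s : Finset ι) (f : ι → k) (hf : ∀ i ∈ s, f i ∈ V) :
    rs V (∑ i ∈ s, f i) = ∑ i ∈ s, rs V (f i) := by
  classical
  induction s using Finset.induction_on with
  | empty => rw [Finset.sum_empty, Finset.sum_empty, rs_zero]
  | insert a s ha ih =>
    rw [Finset.sum_insert ha, Finset.sum_insert ha, rs_add (hf a (Finset.mem_insert_self a s))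
      (sum_mem fun i hi => hf i (Finset.mem_insert_of_mem hi)), ih fun i hi => hf i (Finset.mem_insert_of_mem hi)]

theorem rs_eq_zero {x : k} (hx : x ∈ V) : rs V x = 0 ↔ V.valuation x < 1 := by
  rw [rs_of hx, IsLocalRing.residue_eq_zero_iff, V.valuation_lt_one_iff]

theorem rs_ne_zero {x : k} (hx : x ∈ V) : rs V x ≠ 0 ↔ V.valuation x = 1 := by
  have h1 := (V.valuation_le_one_iff x).2 hx
  rw [Ne, rs_eq_zero hx, not_lt]
  exact ⟨fun h => le_antisymm h1 h, fun h => h.ge⟩

theorem rs_eq {x y : k} (hx : x ∈ V) (hy : y ∈ V) : rs V x = rs V y ↔ V.valuation (x - y) < 1 := by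
  rw [← rs_eq_zero (V.sub_mem hx hy), rs_sub hx hy, sub_eq_zero]

theorem rs_div {x y : k} (hx : x ∈ V) (hy : V.valuation y = 1) : rs V (x / y) = rs V x / rs V y := by
  have hy1 : y ∈ V := (V.valuation_le_one_iff y).1 hy.le
  have hy0 : rs V y ≠ 0 := (rs_ne_zero hy1).2 hy
  have hy2 : y ≠ 0 := fun h => by
    rw [h, map_zero] at hy
    exact zero_ne_one hy
  have h1 : x / y ∈ V := by
    rw [← V.valuation_le_one_iff, map_div₀, hy, div_one]
    exact (V.valuation_le_one_iff x).2 hx
  rw [eq_div_iff hy0, ← rs_mul h1 hy1, div_mul_cancel₀ _ hy2]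

end residue

/-- x as a function of the coordinate u of the nodal cubic y^2 + x y = x^3. -/
noncomputable def xu {κ : Type} [Field κ] (u : κ) : κ := u / (u - 1) ^ 2

/-- 2 y + x as a function of u. -/
noncomputable def zu {κ : Type} [Field κ] (u : κ) : κ := u * (u + 1) / (u - 1) ^ 3

variable {k : Type} [Field k] [DecidableEq k] {W : WeierstrassCurve k}

/-- The curve y^2 + x y = x^3 + a4 x + a6 with a4, a6 of value less than one. -/
structure Nod (W : WeierstrassCurve k) (V : ValuationSubring k) : Prop where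
  a1 : W.a₁ = 1
  a2 : W.a₂ = 0
  a3 : W.a₃ = 0
  a4 : V.valuation W.a₄ < 1
  a6 : V.valuation W.a₆ < 1

/-- The points with nonsingular reduction, outside the kernel of reduction. -/
def Fn (V : ValuationSubring k) (P : W.toAffine.Point) : Prop := V.valuation (xc P) = 1

/-- The points with nonsingular reduction. -/
def E0 (V : ValuationSubring k) (P : W.toAffine.Point) : Prop := P = 0 ∨ 1 ≤ V.valuation (xc P)

/-- The coordinate u = 1 + x/y of the reduction. -/
noncomputable def ub (V : ValuationSubring k) (P : W.toAffine.Point) : IsLocalRing.ResidueField V :=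
  rs V (1 + xc P / yc P)

omit [DecidableEq k] in
theorem Nod.intW {V : ValuationSubring k} (h : Nod W V) : IntW W V where
  a1 := by
    rw [h.a1]
    exact V.one_mem
  a2 := by
    rw [h.a2]
    exact V.zero_mem
  a3 := by
    rw [h.a3]
    exact V.zero_mem
  a4 := (V.valuation_le_one_iff _).1 h.a4.le
  a6 := (V.valuation_le_one_iff _).1 h.a6.le

omit [DecidableEq k] in
theorem ub_zero {V : ValuationSubring k} : ub V (0 : W.toAffine.Point) = 1 := by
  have h1 : xc (0 : W.toAffine.Point) = 0 := rfl
  unfold ub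
  rw [h1, zero_div, add_zero, rs_one]

end H55K.JJ
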