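import Mathlib
import Pool.Agent.Lib.H35P.FG
import Pool.Agent.Lib.H55K.D1
import Pool.Agent.Lib.H55K.J0
import Pool.Agent.Lib.H55K.M0

/-! # H55K, part J: the model -/

open NumberField WeierstrassCurve

namespace H55K.JJ

open H55P (IQ embF eF LF Per Pt ac Nm)
open H35P (WAB Ker IntW)

/-- The model with multiplicative reduction. -/
structure Md {F : Type} [Field F] {Ω : Type} [Field Ω] [DecidableEq Ω] [Algebra F Ω] (A B : F)
    (V : ValuationSubring Ω) (W' : WeierstrassCurve Ω) (u : Ω) (Θ : Pt (WAB A B) Ω ≃+ W'.toAffine.Point) : Prop where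
  une : u ≠ 0
  nod : Nod W' V
  ell : W'.Δ ≠ 0
  crd : MG.Crd u (u ^ 2 / 12) (u / 2) 0 Θ

variable {F : Type} [Field F] [NumberField F] [IQ F] {A B : F} {Om : ℂ} {Ω : Type} [Field Ω] [DecidableEq Ω]
  [Algebra F Ω] {j : Ω →+* ℂ} {act : 𝓞 F →+* AddMonoid.End (Pt (WAB A B) Ω)} {V : ValuationSubring Ω}
  {W' : WeierstrassCurve Ω} {u : Ω} {Θ : Pt (WAB A B) Ω ≃+ W'.toAffine.Point}

/-! Chunk J5 (S/M). m_e1x, m_e1z: h.e1x, h.e1y with xc P = u^2 xc (Θ P) + u^2/12 and yc P = u^3 yc (Θ P) + (u/2) u^2 xc (Θ P) (hM.crd for P, P + T, T in S, act b P: all nonzero: act b (P + T) = act b P <> 0), divide by u^2 and by u^3/2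
(CharZero Ω: 2, 12 <> 0, charZero_of_injective_algebraMap). tor_out: T in E[b], T <> 0, V(Nm b) = 1: Nm b • T = 0 (Nm b = b * cj b, mul_cj, D1; act (n : 𝓞 F) = n •, see G1 or E0 files), so Θ T is not in Ker (H35P.fg for W', hM.nod.intW). -/

theorem j5_char (h : CMA F A B Om j act) : CharZero Ω :=
  charZero_of_injective_algebraMap (FaithfulSMul.algebraMap_injective F Ω)

/-- The points P and P + T. -/
theorem j5_ne {b : 𝓞 F} {S : Finset (Pt (WAB A B) Ω)} (hS : TN act b S) {P : Pt (WAB A B) Ω}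
    (hP : act b P ≠ 0) : P ≠ 0 ∧ ∀ T ∈ S, T ≠ 0 ∧ P + T ≠ 0 := by
  refine ⟨?_, ?_⟩
  · rintro rfl
    exact hP (map_zero _)
  · intro T hT
    obtain ⟨h1, h2⟩ := (hS T).1 hT
    refine ⟨h2, ?_⟩
    intro h3
    apply hP
    have h4 : act b (P + T) = 0 := by rw [h3, map_zero]
    rwa [map_add, h1, add_zero] at h4

theorem m_e1x (h : CMA F A B Om j act) (hM : Md A B V W' u Θ) {b : 𝓞 F} (hb : b ≠ 0)
    {S : Finset (Pt (WAB A B) Ω)} (hS : TN act b S) {P : Pt (WAB A B) Ω} (hP : act b P ≠ 0) :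
    ak Ω b ^ 2 * (xc (Θ (act b P)) + 1 / 12) =
      xc (Θ P) + 1 / 12 + ∑ T ∈ S, (xc (Θ (P + T)) - xc (Θ T)) := by
  obtain ⟨hP0, hT⟩ := j5_ne hS hP
  have hu := hM.une
  have h1 := h.e1x b S hb hS P hP
  have hs : ∑ T ∈ S, (xc (P + T) - xc T) = u ^ 2 * ∑ T ∈ S, (xc (Θ (P + T)) - xc (Θ T)) := by
    rw [Finset.mul_sum]
    refine Finset.sum_congr rfl fun T hTS => ?_
    rw [(hM.crd (P + T) (hT T hTS).2).2.1, (hM.crd T (hT T hTS).1).2.1]
    ring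
  rw [hs, (hM.crd P hP0).2.1, (hM.crd (act b P) hP).2.1] at h1
  have hu2 : u ^ 2 ≠ 0 := pow_ne_zero 2 hu
  apply mul_left_cancel₀ hu2
  linear_combination h1

theorem m_e1z (h : CMA F A B Om j act) (hM : Md A B V W' u Θ) {b : 𝓞 F} (hb : b ≠ 0)
    {S : Finset (Pt (WAB A B) Ω)} (hS : TN act b S) {P : Pt (WAB A B) Ω} (hP : act b P ≠ 0) :
    ak Ω b ^ 3 * (2 * yc (Θ (act b P)) + xc (Θ (act b P))) =
      2 * yc (Θ P) + xc (Θ P) + ∑ T ∈ S, (2 * yc (Θ (P + T)) + xc (Θ (P + T))) := by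
  obtain ⟨hP0, hT⟩ := j5_ne hS hP
  have hc := j5_char h
  have hu := hM.une
  have h1 := h.e1y b S hb hS P hP
  have hy : ∀ Q : Pt (WAB A B) Ω, Q ≠ 0 → 2 * yc Q = u ^ 3 * (2 * yc (Θ Q) + xc (Θ Q)) := by
    intro Q hQ
    rw [(hM.crd Q hQ).2.2]
    have h2 : (2 : Ω) ≠ 0 := two_ne_zero
    field_simp
    ring
  have hs : 2 * ∑ T ∈ S, yc (P + T) = u ^ 3 * ∑ T ∈ S, (2 * yc (Θ (P + T)) + xc (Θ (P + T))) := by
    rw [Finset.mul_sum, Finset.mul_sum]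
    refine Finset.sum_congr rfl fun T hTS => ?_
    exact hy _ (hT T hTS).2
  have hu2 : u ^ 3 ≠ 0 := pow_ne_zero 3 hu
  apply mul_left_cancel₀ hu2
  have h3 := hy P hP0
  have h4 := hy (act b P) hP
  linear_combination 2 * h1 + h3 + hs - ak Ω b ^ 3 * h4

theorem tor_out (h : CMA F A B Om j act) (hM : Md A B V W' u Θ) {b : 𝓞 F} (hb : V.valuation ((Nm b : ℕ) : Ω) = 1)
    {T : Pt (WAB A B) Ω} (hT : act b T = 0) (h0 : T ≠ 0) : ¬ Ker V (Θ T) := by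
  intro hK
  have h1 : Nm b • T = 0 := by
    have h1 : act (Nm b : 𝓞 F) T = Nm b • T := by
      rw [map_natCast]
      rfl
    have h2 : act (Nm b : 𝓞 F) T = act (cj b) (act b T) := by
      have e1 : (Nm b : 𝓞 F) = cj b * b := by rw [← mul_cj, mul_comm]
      rw [e1, map_mul]
      rfl
    rw [← h1, h2, hT, map_zero]
  have h2 : Nm b • Θ T = 0 := by rw [← map_nsmul, h1, map_zero]
  have h3 := H35P.fg hM.nod.intW (Θ T) (Nm b) hb h2 hK
  exact (hM.crd T h0).1 h3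

end H55K.JJ
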