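import Mathlib
import Pool.Agent.Lib.H55K.J5
import Pool.Agent.Lib.H55K.M2C
import Pool.Agent.Lib.H55K.M1B

open NumberField WeierstrassCurve

namespace H55K.JJ

open H55P (IQ embF eF LF Per Pt ac Nm)
open H35P (WAB Ker IntW)

/-! Chunk J11 (S/M). jj = 6912 A^3/(4A^3 + 27B^2) in Ω, V(jj) > 1, so V(jj - 1728) = V(jj) > 1. W' = ⟨1, 0, 0, -36/(jj - 1728), -1/(jj - 1728)⟩: V(a4), V(a6) < 1; Δ = jj^2/(jj - 1728)^3 <> 0, c4 = jj/(jj - 1728), c4^3 = jj Δ (unfold, field_simp, ring).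
W = (WAB A B)⁄Ω: c4^3 = jj Δ, Δ <> 0 as in good_model (M2C). vc_of_j: VC W W' u r s t; h1: u = 2 s (a1 = 0, a1' = 1), h2: 0 = 3 r - s^2, h3: 0 = 2 t, so s = u/2, r = u^2/12, t = 0. vc_iso (M1B): Θ. -/

theorem exists_md {F : Type} [Field F] [NumberField F] {Ω : Type} [Field Ω] [DecidableEq Ω] [Algebra F Ω]
    [IsAlgClosed Ω] {A B : F} (hd : 4 * A ^ 3 + 27 * B ^ 2 ≠ 0) (V : ValuationSubring Ω)
    (hj : 1 < V.valuation (algebraMap F Ω (6912 * A ^ 3 / (4 * A ^ 3 + 27 * B ^ 2)))) :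
    ∃ (W' : WeierstrassCurve Ω) (u : Ω) (Θ : Pt (WAB A B) Ω ≃+ W'.toAffine.Point), Md A B V W' u Θ := by
  have c0 : CharZero Ω := charZero_of_injective_algebraMap (algebraMap F Ω).injective
  obtain ⟨jj, hjj⟩ : ∃ jj, jj = algebraMap F Ω (6912 * A ^ 3 / (4 * A ^ 3 + 27 * B ^ 2)) := ⟨_, rfl⟩
  rw [← hjj] at hj
  have hΔ : ((WAB A B)⁄Ω).Δ = algebraMap F Ω (-16 * (4 * A ^ 3 + 27 * B ^ 2)) := by
    refine ((WAB A B).map_Δ (algebraMap F Ω)).trans ?_
    congr 1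
    simp only [WAB, WeierstrassCurve.Δ, WeierstrassCurve.b₂, WeierstrassCurve.b₄,
      WeierstrassCurve.b₆, WeierstrassCurve.b₈]
    ring
  have hc : ((WAB A B)⁄Ω).c₄ = algebraMap F Ω (-48 * A) := by
    refine ((WAB A B).map_c₄ (algebraMap F Ω)).trans ?_
    congr 1
    simp only [WAB, WeierstrassCurve.c₄, WeierstrassCurve.b₂, WeierstrassCurve.b₄]
    ring
  have h1 : ((WAB A B)⁄Ω).Δ ≠ 0 := by
    rw [hΔ]
    exact (map_ne_zero _).2 (mul_ne_zero (by norm_num) hd)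
  have h3 : ((WAB A B)⁄Ω).c₄ ^ 3 = jj * ((WAB A B)⁄Ω).Δ := by
    rw [hΔ, hc, hjj, ← map_pow, ← map_mul]
    congr 1
    have e := div_mul_cancel₀ (6912 * A ^ 3) hd
    linear_combination (16 : F) * e
  have hnat : ∀ n : ℕ, V.valuation (n : Ω) ≤ 1 := by
    intro n
    rw [V.valuation_le_one_iff]
    exact natCast_mem V n
  have hj0 : jj ≠ 0 := by
    intro h
    rw [h, map_zero] at hj
    exact not_lt_zero hj
  have hm : V.valuation (jj - 1728) = V.valuation jj := by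
    have h := hnat 1728
    have e : jj - 1728 = jj + -((1728 : ℕ) : Ω) := by push_cast; ring
    rw [e]
    exact Valuation.map_add_eq_of_lt_left _ (by rw [Valuation.map_neg]; exact lt_of_le_of_lt h hj)
  have hm0 : jj - 1728 ≠ 0 := by
    intro h
    rw [h, map_zero] at hm
    rw [← hm] at hj
    exact not_lt_zero hj
  have hvm : 1 < V.valuation (jj - 1728) := by rw [hm]; exact hj
  have hinv : V.valuation (jj - 1728)⁻¹ < 1 := by
    rw [map_inv₀]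
    exact inv_lt_one_of_one_lt₀ hvm
  have hΔ' : (⟨1, 0, 0, -36 / (jj - 1728), -1 / (jj - 1728)⟩ : WeierstrassCurve Ω).Δ =
      jj ^ 2 / (jj - 1728) ^ 3 := by
    simp only [WeierstrassCurve.Δ, WeierstrassCurve.b₂, WeierstrassCurve.b₄,
      WeierstrassCurve.b₆, WeierstrassCurve.b₈]
    field_simp
    ring
  have hc' : (⟨1, 0, 0, -36 / (jj - 1728), -1 / (jj - 1728)⟩ : WeierstrassCurve Ω).c₄ =
      jj / (jj - 1728) := by
    simp only [WeierstrassCurve.c₄, WeierstrassCurve.b₂, WeierstrassCurve.b₄]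
    field_simp
    ring
  have h2 : (⟨1, 0, 0, -36 / (jj - 1728), -1 / (jj - 1728)⟩ : WeierstrassCurve Ω).Δ ≠ 0 := by
    rw [hΔ']
    exact div_ne_zero (pow_ne_zero _ hj0) (pow_ne_zero _ hm0)
  have h4 : (⟨1, 0, 0, -36 / (jj - 1728), -1 / (jj - 1728)⟩ : WeierstrassCurve Ω).c₄ ^ 3 =
      jj * (⟨1, 0, 0, -36 / (jj - 1728), -1 / (jj - 1728)⟩ : WeierstrassCurve Ω).Δ := by
    rw [hΔ', hc']
    field_simp
  obtain ⟨u, r, s, t, hvc⟩ := MG.vc_of_j h1 h2 h3 h4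
  obtain ⟨Θ, hΘ⟩ := MG.vc_iso hvc h1 h2
  have e1 : ((WAB A B)⁄Ω).a₁ = 0 := by
    refine ((WAB A B).map_a₁ (algebraMap F Ω)).trans ?_
    simp [WAB]
  have e2 : ((WAB A B)⁄Ω).a₂ = 0 := by
    refine ((WAB A B).map_a₂ (algebraMap F Ω)).trans ?_
    simp [WAB]
  have e3 : ((WAB A B)⁄Ω).a₃ = 0 := by
    refine ((WAB A B).map_a₃ (algebraMap F Ω)).trans ?_
    simp [WAB]
  have g1 := hvc.h1
  have g2 := hvc.h2
  have g3 := hvc.h3
  rw [e1] at g1 g2 g3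
  rw [e2] at g2
  rw [e3] at g3
  simp only at g1 g2 g3
  have hs : s = u / 2 := by linear_combination -(g1 / 2)
  have ht : t = 0 := by linear_combination -(g3 / 2)
  have hr : r = u ^ 2 / 12 := by
    have h12 : (12 : Ω) ≠ 0 := by norm_num
    rw [eq_div_iff h12]
    linear_combination (-4) * g2 + 4 * (s + u / 2) * hs
  refine ⟨_, u, Θ, ⟨hvc.une, ⟨rfl, rfl, rfl, ?_, ?_⟩, h2, ?_⟩⟩
  · show V.valuation (-36 / (jj - 1728)) < 1
    rw [neg_div, Valuation.map_neg, div_eq_mul_inv, map_mul]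
    have h := hnat 36
    push_cast at h
    exact lt_of_le_of_lt (mul_le_of_le_one_left' h) hinv
  · show V.valuation (-1 / (jj - 1728)) < 1
    rw [neg_div, Valuation.map_neg, one_div]
    exact hinv
  · rw [hs, ht, hr] at hΘ
    exact hΘ

end H55K.JJ
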