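import Mathlib
import Pool.Agent.Lib.H55K.K0A

open NumberField IsDedekindDomain

namespace H55K.JJ

/-! Chunk J12 (S). For every height one prime v of 𝓞 F there is V over v (exists_abw with N = F in K0A.lean), so v.valuation x ≤ 1 (Abw.le with y = 1); then x is an integer: HeightOneSpectrum.mem_integers_of_valuation_le_one. -/

theorem int_of_val {F : Type} [Field F] [NumberField F] (Ω : Type) [Field Ω] [Algebra F Ω] (x : F)
    (hx : ∀ V : ValuationSubring Ω, V.valuation (algebraMap F Ω x) ≤ 1) : ∃ x₀ : 𝓞 F, (x₀ : F) = x := by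
  have h1 : ∀ v : HeightOneSpectrum (𝓞 F), v.valuation F x ≤ 1 := by
    intro v
    obtain ⟨V, hV⟩ := exists_abw Ω (N := F) v
    have h3 := hV.le x 1
    rw [map_one, map_one, map_one] at h3
    exact h3.1 (hx V)
  obtain ⟨x₀, hx₀⟩ := HeightOneSpectrum.mem_integers_of_valuation_le_one F x h1
  exact ⟨x₀, hx₀⟩

end H55K.JJ
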