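import Mathlib
import Pool.Agent.Lib.H35P.R1
import Pool.Agent.Lib.H55K.J0

open NumberField WeierstrassCurve

namespace H55K.JJ

open H35P (WAB Ker IntW)

variable {k : Type} [Field k] [DecidableEq k] {W : WeierstrassCurve k} {V : ValuationSubring k}

/-! Chunk J1A (M, small facts; the equation is y^2 + x y = x^3 + a4 x + a6: cases on P, Affine.equation_iff, h.a1 ..). fn_crd: V(x) = 1, y in V by H35P.int_y (h.intW), y (y + x) = x^3 + (a4 x + a6) has value 1, both factors are in V.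
fn_ub: 1 + x/y = (y + x)/y is in V; residues: with X = rs x, Y = rs y (Y <> 0, Y + X <> 0, X <> 0): Y (Y + X) = X^3, u = (Y + X)/Y, u - 1 = X/Y, xu u = Y (Y + X)/X^2 = X, zu u = X (u + 1)/(u - 1) = 2 Y + X
(rs_div, rs_add, rs_mul, field_simp). fn_neg: Affine.Point.neg_some, negY = -y - x: ub (-P) = Y/(Y + X) (xc, yc of -P). nod_out: x of value < 1, so y is in V and y^2 + x y has value < 1. int_ker: H35P.int_y.
e0_iff: P = 0: Ker; V(x) > 1: Ker; V(x) = 1: Fn. ker_fn: not both. -/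

theorem j1a_mul {Γ : Type*} [LinearOrderedCommGroupWithZero Γ] {a b : Γ} (ha : a ≤ 1) (hb : b ≤ 1)
    (h : a * b = 1) : a = 1 ∧ b = 1 := by
  have h1 : a = 1 := by
    refine le_antisymm ha ?_
    rw [← h]
    exact mul_le_of_le_one_right' hb
  refine ⟨h1, ?_⟩
  rw [h1, one_mul] at h
  exact h

omit [DecidableEq k] in
theorem j1a_eqn (h : Nod W V) {x y : k} (he : W.toAffine.Equation x y) :
    y ^ 2 + x * y = x ^ 3 + (W.a₄ * x + W.a₆) := by
  rw [Affine.equation_iff, h.a1, h.a2, h.a3] at he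
  linear_combination he

omit [DecidableEq k] in
theorem j1a_small (h : Nod W V) {x : k} (hx : V.valuation x ≤ 1) :
    V.valuation (W.a₄ * x + W.a₆) < 1 := by
  refine V.valuation.map_add_lt ?_ h.a6
  rw [map_mul]
  exact lt_of_le_of_lt (mul_le_of_le_one_right' hx) h.a4

omit [DecidableEq k] in
theorem j1a_y (h : Nod W V) {x y : k} (he : W.toAffine.Equation x y) (hx : V.valuation x ≤ 1) :
    V.valuation y ≤ 1 := H35P.int_y h.intW he hx

omit [DecidableEq k] in
theorem j1a_rs (h : Nod W V) {x y : k} (he : W.toAffine.Equation x y) (hx : x ∈ V) (hy : y ∈ V) :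
    rs V y ^ 2 + rs V x * rs V y = rs V x ^ 3 := by
  have h1 := congrArg (rs V) (j1a_eqn h he)
  have hs := j1a_small h ((V.valuation_le_one_iff x).2 hx)
  have hsm : W.a₄ * x + W.a₆ ∈ V := (V.valuation_le_one_iff _).1 hs.le
  rw [rs_add (pow_mem hy 2) (V.mul_mem _ _ hx hy), rs_pow hy, rs_mul hx hy,
    rs_add (pow_mem hx 3) hsm, rs_pow hx, (rs_eq_zero hsm).2 hs, add_zero] at h1
  exact h1

omit [DecidableEq k] in
theorem j1a_fn (h : Nod W V) {x y : k} (he : W.toAffine.Equation x y) (hx : V.valuation x = 1) :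
    V.valuation y = 1 ∧ V.valuation (y + x) = 1 := by
  have hy := j1a_y h he hx.le
  have hyx : V.valuation (y + x) ≤ 1 := V.valuation.map_add_le hy hx.le
  refine j1a_mul hy hyx ?_
  rw [← map_mul]
  have e : y * (y + x) = x ^ 3 + (W.a₄ * x + W.a₆) := by
    rw [← j1a_eqn h he]
    ring
  rw [e]
  have h3 : V.valuation (x ^ 3) = 1 := by
    rw [map_pow, hx, one_pow]
  rw [V.valuation.map_add_eq_of_lt_left (by rw [h3]; exact j1a_small h hx.le), h3]

theorem fn_crd (h : Nod W V) {P : W.toAffine.Point} (hP : Fn V P) : P ≠ 0 ∧ xc P ∈ V ∧ yc P ∈ V ∧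
    V.valuation (yc P) = 1 ∧ V.valuation (yc P + xc P) = 1 := by
  unfold Fn at hP
  rcases P with _ | ⟨x, y, hxy⟩
  · exfalso
    change V.valuation (0 : k) = 1 at hP
    rw [map_zero] at hP
    exact zero_ne_one hP
  · change V.valuation x = 1 at hP
    obtain ⟨h1, h2⟩ := j1a_fn h hxy.1 hP
    refine ⟨?_, (V.valuation_le_one_iff x).1 hP.le, (V.valuation_le_one_iff y).1 h1.le, h1, h2⟩
    exact Affine.Point.some_ne_zero _

/-- A point with nonsingular reduction outside the kernel: coordinates. -/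
theorem j1a_data (h : Nod W V) {P : W.toAffine.Point} (hP : Fn V P) :
    rs V (xc P) ≠ 0 ∧ rs V (yc P) ≠ 0 ∧ rs V (yc P) + rs V (xc P) ≠ 0 ∧
    rs V (yc P) ^ 2 + rs V (xc P) * rs V (yc P) = rs V (xc P) ^ 3 ∧
    ub V P = 1 + rs V (xc P) / rs V (yc P) := by
  obtain ⟨h0, hx, hy, h1, h2⟩ := fn_crd h hP
  refine ⟨(rs_ne_zero hx).2 hP, (rs_ne_zero hy).2 h1, ?_, ?_, ?_⟩
  · rw [← rs_add hy hx]
    exact (rs_ne_zero (V.add_mem _ _ hy hx)).2 h2
  · rcases P with _ | ⟨x, y, hxy⟩
    · exact absurd rfl h0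
    · exact j1a_rs h hxy.1 hx hy
  · unfold ub
    rw [rs_add V.one_mem, rs_one, rs_div hx h1]
    rw [← V.valuation_le_one_iff, map_div₀, h1, div_one]
    exact (V.valuation_le_one_iff _).2 hx

theorem fn_ub (h : Nod W V) {P : W.toAffine.Point} (hP : Fn V P) : 1 + xc P / yc P ∈ V ∧ ub V P ≠ 0 ∧ ub V P ≠ 1 ∧
    rs V (xc P) = xu (ub V P) ∧ rs V (2 * yc P + xc P) = zu (ub V P) ∧
    rs V (yc P) * (ub V P - 1) = rs V (xc P) := by
  obtain ⟨h0, hx, hy, h1, h2⟩ := fn_crd h hP
  obtain ⟨hX, hY, hXY, he, hu⟩ := j1a_data h hP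
  have h2V : (2 : k) ∈ V := by
    have := natCast_mem V 2
    simpa using this
  have hr2 : rs V (2 : k) = 2 := by
    have := rs_nat (V := V) 2
    simpa using this
  have hz : rs V (2 * yc P + xc P) = 2 * rs V (yc P) + rs V (xc P) := by
    rw [rs_add (V.mul_mem _ _ h2V hy) hx, rs_mul h2V hy, hr2]
  rw [hz, hu]
  set X := rs V (xc P)
  set Y := rs V (yc P)
  have hdiv : X / Y ≠ 0 := div_ne_zero hX hY
  refine ⟨?_, ?_, ?_, ?_, ?_, ?_⟩
  · refine V.add_mem _ _ V.one_mem ?_
    rw [← V.valuation_le_one_iff, map_div₀, h1, div_one]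
    exact (V.valuation_le_one_iff _).2 hx
  · intro h3
    apply hXY
    have : Y * (1 + X / Y) = 0 := by rw [h3, mul_zero]
    rw [mul_add, mul_one, mul_div_cancel₀ _ hY] at this
    exact this
  · intro h3
    apply hdiv
    linear_combination h3
  · unfold xu
    have e : (1 : IsLocalRing.ResidueField V) + X / Y - 1 = X / Y := by ring
    rw [e, eq_div_iff (pow_ne_zero 2 hdiv)]
    field_simp
    linear_combination (-1 : IsLocalRing.ResidueField V) * he
  · unfold zu
    have e : (1 : IsLocalRing.ResidueField V) + X / Y - 1 = X / Y := by ring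
    rw [e, eq_div_iff (pow_ne_zero 3 hdiv)]
    field_simp
    linear_combination (-(2 * Y + X) : IsLocalRing.ResidueField V) * he
  · field_simp
    ring

theorem fn_neg (h : Nod W V) {P : W.toAffine.Point} (hP : Fn V P) : Fn V (-P) ∧ ub V (-P) = (ub V P)⁻¹ := by
  obtain ⟨h0, hx, hy, h1, h2⟩ := fn_crd h hP
  obtain ⟨hX, hY, hXY, he, hu⟩ := j1a_data h hP
  have hxn : xc (-P) = xc P ∧ yc (-P) = -(yc P + xc P) := by
    rcases P with _ | ⟨x, y, hxy⟩
    · exact absurd rfl h0
    · refine ⟨rfl, ?_⟩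
      change W.toAffine.negY x y = -(y + x)
      unfold Affine.negY
      rw [h.a1, h.a3]
      ring
  have hPn : Fn V (-P) := by
    unfold Fn
    rw [hxn.1]
    exact hP
  refine ⟨hPn, ?_⟩
  obtain ⟨-, -, -, -, hu'⟩ := j1a_data h hPn
  rw [hu', hu, hxn.1, hxn.2, rs_neg (V.add_mem _ _ hy hx), rs_add hy hx]
  set X := rs V (xc P)
  set Y := rs V (yc P)
  have e1 : (1 : IsLocalRing.ResidueField V) + X / Y = (Y + X) / Y := by
    field_simp
  rw [e1, inv_div, div_neg]
  field_simp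
  ring

theorem nod_out (h : Nod W V) {P : W.toAffine.Point} (hP : ¬ E0 V P) : P ≠ 0 ∧ V.valuation (xc P) < 1 ∧
    V.valuation (yc P) < 1 := by
  unfold E0 at hP
  push Not at hP
  obtain ⟨h0, hx⟩ := hP
  refine ⟨h0, hx, ?_⟩
  rcases P with _ | ⟨x, y, hxy⟩
  · exact absurd rfl h0
  · change V.valuation x < 1 at hx
    change V.valuation y < 1
    have hy := j1a_y h hxy.1 hx.le
    refine lt_of_le_of_ne hy ?_
    intro hy1
    have h2 : V.valuation (y + x) = 1 := by
      rw [V.valuation.map_add_eq_of_lt_left (by rw [hy1]; exact hx), hy1]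
    have h3 : V.valuation (y * (y + x)) = 1 := by
      rw [map_mul, hy1, h2, one_mul]
    have e : y * (y + x) = x ^ 3 + (W.a₄ * x + W.a₆) := by
      rw [← j1a_eqn h hxy.1]
      ring
    rw [e] at h3
    have h4 : V.valuation (x ^ 3 + (W.a₄ * x + W.a₆)) < 1 := by
      refine V.valuation.map_add_lt ?_ (j1a_small h hx.le)
      rw [map_pow]
      exact pow_lt_one₀ zero_le' hx (by norm_num)
    exact absurd h3 h4.ne

theorem int_ker (h : Nod W V) {P : W.toAffine.Point} (hP : ¬ Ker V P) : P ≠ 0 ∧ xc P ∈ V ∧ yc P ∈ V := by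
  rcases P with _ | ⟨x, y, hxy⟩
  · exact absurd trivial hP
  · change ¬ 1 < V.valuation x at hP
    rw [not_lt] at hP
    exact ⟨Affine.Point.some_ne_zero _, (V.valuation_le_one_iff x).1 hP,
      (V.valuation_le_one_iff y).1 (j1a_y h hxy.1 hP)⟩

theorem e0_iff {P : W.toAffine.Point} : E0 V P ↔ Ker V P ∨ Fn V P := by
  rcases P with _ | ⟨x, y, hxy⟩
  · exact ⟨fun _ => Or.inl trivial, fun _ => Or.inl rfl⟩
  · change (Affine.Point.some x y hxy = 0 ∨ 1 ≤ V.valuation x) ↔ (1 < V.valuation x ∨ V.valuation x = 1)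
    constructor
    · rintro (h1 | h1)
      · exact absurd h1 (Affine.Point.some_ne_zero _)
      · rcases h1.lt_or_eq with h2 | h2
        · exact Or.inl h2
        · exact Or.inr h2.symm
    · rintro (h1 | h1)
      · exact Or.inr h1.le
      · exact Or.inr h1.ge

theorem ker_fn {P : W.toAffine.Point} (hP : Fn V P) : ¬ Ker V P := by
  rcases P with _ | ⟨x, y, hxy⟩
  · change V.valuation (0 : k) = 1 at hP
    rw [map_zero] at hP
    exact absurd hP zero_ne_one
  · change V.valuation x = 1 at hP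
    change ¬ 1 < V.valuation x
    rw [hP]
    exact lt_irrefl _

/-- The equation of the reduction. -/
theorem z_sq (h : Nod W V) {P : W.toAffine.Point} (h0 : P ≠ 0) (hx : xc P ∈ V) (hy : yc P ∈ V) :
    rs V (2 * yc P + xc P) ^ 2 = 4 * rs V (xc P) ^ 3 + rs V (xc P) ^ 2 := by
  have h2V : (2 : k) ∈ V := by
    have := natCast_mem V 2
    simpa using this
  have hr2 : rs V (2 : k) = 2 := by
    have := rs_nat (V := V) 2
    simpa using this
  have hz : rs V (2 * yc P + xc P) = 2 * rs V (yc P) + rs V (xc P) := by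
    rw [rs_add (V.mul_mem _ _ h2V hy) hx, rs_mul h2V hy, hr2]
  rcases P with _ | ⟨x, y, hxy⟩
  · exact absurd rfl h0
  · have h1 := j1a_rs h hxy.1 hx hy
    rw [hz]
    change (2 * rs V y + rs V x) ^ 2 = 4 * rs V x ^ 3 + rs V x ^ 2
    linear_combination 4 * h1

end H55K.JJ
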