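import Mathlib
import Pool.Agent.Lib.H35P.FG
import Pool.Agent.Lib.H55K.J1A

open NumberField WeierstrassCurve

namespace H55K.JJ

open H35P (WAB Ker IntW)

variable {k : Type} [Field k] [DecidableEq k] {W : WeierstrassCurve k} {V : ValuationSubring k}

/-! Chunk J1B (M). fn_add_out: P = (x1, y1), T = (x2, y2) with x2, y2 of value < 1, x1, y1 units: x1 - x2 is a unit, slope l = (y1 - y2)/(x1 - x2) in V, P + T = (x3, ..), x3 = l^2 + l - x1 - x2 (addX, h.a1, h.a2), with residue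
(Y1/X1)^2 + Y1/X1 - X1 = (Y1^2 + X1 Y1 - X1^3)/X1^2 = 0: V(x3) < 1 and P + T <> 0 (Affine.Point.add_some, x1 <> x2). e0_neg: xc (-P) = xc P. e0_add_out: P in Ker: put Q = P + T. If E0 Q: Q in Fn: -T = P - Q... precisely P = Q + (-T) with Q in Fn
and -T not in E0 is not in E0 by fn_add_out, but P in Ker is in E0 (e0_iff): contradiction; Q in Ker: T = Q - P in Ker (H35P.ker_sub): contradiction. P in Fn: fn_add_out. e0_add: if P + Q =: T is not in E0 then Q = -P + T is not in E0 (e0_add_out):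
contradiction. -/

theorem fn_add_out (h : Nod W V) {P T : W.toAffine.Point} (hP : Fn V P) (hT : ¬ E0 V T) : ¬ E0 V (P + T) := by
  obtain ⟨hP0, hx1, hy1, -, -⟩ := fn_crd h hP
  obtain ⟨hT0, hx2, hy2⟩ := nod_out h hT
  have hP' : V.valuation (xc P) = 1 := hP
  rcases P with _ | ⟨x₁, y₁, h₁⟩
  · exact absurd rfl hP0
  rcases T with _ | ⟨x₂, y₂, h₂⟩
  · exact absurd rfl hT0
  have hx1' : V.valuation x₁ = 1 := hP'
  have hx2' : V.valuation x₂ < 1 := hx2
  have hy2' : V.valuation y₂ < 1 := hy2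
  have mx1 : x₁ ∈ V := hx1
  have my1 : y₁ ∈ V := hy1
  have mx2 : x₂ ∈ V := (V.valuation_le_one_iff _).1 hx2'.le
  have my2 : y₂ ∈ V := (V.valuation_le_one_iff _).1 hy2'.le
  have hne : x₁ ≠ x₂ := by
    intro h0
    rw [h0] at hx1'
    exact absurd hx1' hx2'.ne
  have hX0 : rs V x₁ ≠ 0 := (rs_ne_zero mx1).2 hx1'
  have rx2 : rs V x₂ = 0 := (rs_eq_zero mx2).2 hx2'
  have ry2 : rs V y₂ = 0 := (rs_eq_zero my2).2 hy2'
  have hd : V.valuation (x₁ - x₂) = 1 := by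
    rw [← rs_ne_zero (V.sub_mem mx1 mx2), rs_sub mx1 mx2, rx2, sub_zero]
    exact hX0
  have hsl : W.toAffine.slope x₁ x₂ y₁ y₂ = (y₁ - y₂) / (x₁ - x₂) := Affine.slope_of_X_ne hne
  have rsl : rs V ((y₁ - y₂) / (x₁ - x₂)) = rs V y₁ / rs V x₁ := by
    rw [rs_div (V.sub_mem my1 my2) hd, rs_sub my1 my2, rs_sub mx1 mx2, rx2, ry2, sub_zero, sub_zero]
  have msl : (y₁ - y₂) / (x₁ - x₂) ∈ V := by
    rw [← V.valuation_le_one_iff, map_div₀, hd, div_one]
    exact (V.valuation_le_one_iff _).2 (V.sub_mem my1 my2)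
  have heq : y₁ ^ 2 + x₁ * y₁ = x₁ ^ 3 + (W.a₄ * x₁ + W.a₆) := by
    have h3 := h₁.1
    rw [Affine.equation_iff] at h3
    have e1 : W.toAffine.a₁ = 1 := h.a1
    have e2 : W.toAffine.a₂ = 0 := h.a2
    have e3 : W.toAffine.a₃ = 0 := h.a3
    rw [e1, e2, e3] at h3
    linear_combination h3
  have m4 : W.a₄ ∈ V := (V.valuation_le_one_iff _).1 h.a4.le
  have m6 : W.a₆ ∈ V := (V.valuation_le_one_iff _).1 h.a6.le
  have r4 : rs V W.a₄ = 0 := (rs_eq_zero m4).2 h.a4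
  have r6 : rs V W.a₆ = 0 := (rs_eq_zero m6).2 h.a6
  have hres : rs V y₁ ^ 2 + rs V x₁ * rs V y₁ = rs V x₁ ^ 3 := by
    have h4 := congrArg (rs V) heq
    rw [rs_add (pow_mem my1 2) (V.mul_mem _ _ mx1 my1), rs_pow my1, rs_mul mx1 my1,
      rs_add (pow_mem mx1 3) (V.add_mem _ _ (V.mul_mem _ _ m4 mx1) m6), rs_pow mx1,
      rs_add (V.mul_mem _ _ m4 mx1) m6, rs_mul m4 mx1, r4, r6, zero_mul, add_zero, add_zero] at h4
    exact h4
  have hx3 : W.toAffine.addX x₁ x₂ (W.toAffine.slope x₁ x₂ y₁ y₂) =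
      ((y₁ - y₂) / (x₁ - x₂)) ^ 2 + (y₁ - y₂) / (x₁ - x₂) - x₁ - x₂ := by
    have e1 : W.toAffine.a₁ = 1 := h.a1
    have e2 : W.toAffine.a₂ = 0 := h.a2
    rw [Affine.addX, e1, e2, hsl]
    ring
  have m3 : ((y₁ - y₂) / (x₁ - x₂)) ^ 2 + (y₁ - y₂) / (x₁ - x₂) - x₁ - x₂ ∈ V :=
    V.sub_mem (V.sub_mem (V.add_mem _ _ (pow_mem msl 2) msl) mx1) mx2
  have hv3 : V.valuation (W.toAffine.addX x₁ x₂ (W.toAffine.slope x₁ x₂ y₁ y₂)) < 1 := by
    rw [hx3, ← rs_eq_zero m3, rs_sub (V.sub_mem (V.add_mem _ _ (pow_mem msl 2) msl) mx1) mx2,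
      rs_sub (V.add_mem _ _ (pow_mem msl 2) msl) mx1, rs_add (pow_mem msl 2) msl, rs_pow msl, rsl, rx2, sub_zero]
    field_simp
    linear_combination hres
  rw [Affine.Point.add_some (fun h0 => hne h0.1)]
  rintro (h0 | h0)
  · cases h0
  · exact absurd hv3 (not_lt.2 h0)

theorem e0_neg {P : W.toAffine.Point} : E0 V (-P) ↔ E0 V P := by
  rcases P with _ | ⟨x₁, y₁, h₁⟩
  · exact Iff.rfl
  · rw [Affine.Point.neg_some]
    constructor
    · rintro (h0 | h0)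
      · cases h0
      · exact Or.inr h0
    · rintro (h0 | h0)
      · cases h0
      · exact Or.inr h0

theorem e0_add_out (h : Nod W V) {P T : W.toAffine.Point} (hP : E0 V P) (hT : ¬ E0 V T) : ¬ E0 V (P + T) := by
  rcases e0_iff.1 hP with hk | hf
  · intro hQ
    rcases e0_iff.1 hQ with hk2 | hf2
    · have h1 := H35P.ker_sub h.intW (P + T) P hk2 hk
      rw [add_sub_cancel_left] at h1
      exact hT (e0_iff.2 (Or.inl h1))
    · have h1 := fn_add_out h hf2 (T := -T) (fun h2 => hT (e0_neg.1 h2))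
      rw [← sub_eq_add_neg, add_sub_cancel_right] at h1
      exact h1 hP
  · exact fn_add_out h hf hT

theorem e0_add (h : Nod W V) {P Q : W.toAffine.Point} (hP : E0 V P) (hQ : E0 V Q) : E0 V (P + Q) := by
  by_contra h1
  have h2 := e0_add_out h (e0_neg.2 hP) h1
  rw [neg_add_cancel_left] at h2
  exact h2 hQ

end H55K.JJ
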