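import Mathlib
import Pool.Agent.Lib.H35P.R2
import Pool.Agent.Lib.H55K.J1A

open NumberField WeierstrassCurve

namespace H55K.JJ

open H35P (WAB Ker IntW)

variable {k : Type} [Field k] [DecidableEq k] {W : WeierstrassCurve k} {V : ValuationSubring k}

/-! Chunk J2A (M). P = (x1, y1), Q = (x2, y2) units, x1 - x2 a unit, l = (y1 - y2)/(x1 - x2) in V, m = y1 - l x1 in V. V(m) = 1: otherwise Y_i = L X_i (residues), X_i^2 (L^2 + L) = X_i^3, X_1 = L^2 + L = X_2: contradiction.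
H35P.vieta (a1 = 1, a2 = a3 = 0): e1 = l^2 + l, e2 = a4 - 2lm - m, e3 = m^2 - a6, y_i = l x_i + m (i = 1, 2), y3 := l x3 + m = negAddY. prod y_i = m^3 + a4 m l^2 - a6 l^3, prod (y_i + x_i) = m^3 + a4 m (l+1)^2 - a6 (l+1)^3
(linear_combination from vieta; coefficients l^3, l^2 m, l m^2 resp. (l+1)^3, (l+1)^2 m, (l+1) m^2): both have residue M^3 <> 0. x3 = e1 - x1 - x2 in V, y3 in V: all y_i, y_i + x_i are units, and y3 (y3 + x3) = x3^3 + a4 x3 + a6 (the point (x3, y3) is on the curve: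
its negative is P + Q) gives V(x3) = 1: Fn (P + Q), xc (P+Q) = x3, yc (P + Q) = negY x3 y3 = -y3 - x3, ub (P + Q) = Y3/(Y3 + X3) = (Y1 + X1)(Y2 + X2)/(Y1 Y2) = ub P * ub Q. -/

theorem fn_add (h : Nod W V) {P Q : W.toAffine.Point} (hP : Fn V P) (hQ : Fn V Q)
    (hx : rs V (xc P) ≠ rs V (xc Q)) : Fn V (P + Q) ∧ ub V (P + Q) = ub V P * ub V Q := by
  obtain ⟨P0, px, py, pv, pw⟩ := fn_crd h hP
  obtain ⟨Q0, qx, qy, qv, qw⟩ := fn_crd h hQ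
  obtain ⟨-, -, -, -, -, uP⟩ := fn_ub h hP
  obtain ⟨-, -, -, -, -, uQ⟩ := fn_ub h hQ
  obtain ⟨p, hp⟩ : ∃ p, p = ub V P := ⟨_, rfl⟩
  obtain ⟨q, hq⟩ : ∃ q, q = ub V Q := ⟨_, rfl⟩
  rw [← hp] at uP ⊢
  rw [← hq] at uQ ⊢
  rcases P with _ | ⟨x1, y1, n1⟩
  · exact absurd rfl P0
  rcases Q with _ | ⟨x2, y2, n2⟩
  · exact absurd rfl Q0
  change x1 ∈ V at px
  change y1 ∈ V at py
  change V.valuation y1 = 1 at pv
  change x2 ∈ V at qx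
  change y2 ∈ V at qy
  change V.valuation y2 = 1 at qv
  change rs V x1 ≠ rs V x2 at hx
  change rs V y1 * (p - 1) = rs V x1 at uP
  change rs V y2 * (q - 1) = rs V x2 at uQ
  have hX1 : rs V x1 ≠ 0 := (rs_ne_zero px).2 hP
  have hX2 : rs V x2 ≠ 0 := (rs_ne_zero qx).2 hQ
  have hY1 : rs V y1 ≠ 0 := (rs_ne_zero py).2 pv
  have hY2 : rs V y2 ≠ 0 := (rs_ne_zero qy).2 qv
  have hxne : x1 ≠ x2 := fun e => hx (by rw [e])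
  have hv : V.valuation (x1 - x2) = 1 := by
    refine le_antisymm ((V.valuation_le_one_iff _).2 (V.sub_mem px qx)) (not_lt.1 fun e => hx ?_)
    exact (rs_eq px qx).2 e
  obtain ⟨l, hl⟩ : ∃ l, l = W.toAffine.slope x1 x2 y1 y2 := ⟨_, rfl⟩
  have hlV : l ∈ V := by
    rw [hl, Affine.slope_of_X_ne hxne, ← V.valuation_le_one_iff, map_div₀, hv, div_one]
    exact (V.valuation_le_one_iff _).2 (V.sub_mem py qy)
  obtain ⟨m, hm⟩ : ∃ m, m = y1 - l * x1 := ⟨_, rfl⟩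
  have hmV : m ∈ V := by
    rw [hm]
    exact V.sub_mem py (V.mul_mem _ _ hlV px)
  obtain ⟨x3, hx3⟩ : ∃ x3, x3 = W.toAffine.addX x1 x2 l := ⟨_, rfl⟩
  obtain ⟨e1, e2, e3, f1, f2, f3, -⟩ := H35P.vieta n1.1 n2.1 (fun e => hxne e.1) l m x3 hl hm hx3
  have c1 := (Affine.equation_iff x1 y1).1 n1.1
  have c2 := (Affine.equation_iff x2 y2).1 n2.1
  have a1 : W.toAffine.a₁ = 1 := h.a1
  have a2 : W.toAffine.a₂ = 0 := h.a2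
  have a3 : W.toAffine.a₃ = 0 := h.a3
  rw [h.a1, h.a2] at e1
  rw [h.a1, h.a3] at e2
  rw [h.a3] at e3
  rw [a1, a2, a3] at c1 c2
  have ha4 : W.a₄ ∈ V := (V.valuation_le_one_iff _).1 h.a4.le
  have ha6 : W.a₆ ∈ V := (V.valuation_le_one_iff _).1 h.a6.le
  have hx3V : x3 ∈ V := by
    have : x3 = l ^ 2 + 1 * l - 0 - x1 - x2 := by linear_combination e1
    rw [this]
    exact V.sub_mem (V.sub_mem (V.sub_mem (V.add_mem _ _ (pow_mem hlV 2) (V.mul_mem _ _ V.one_mem hlV)) V.zero_mem) px) qx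
  have hadd : (Affine.Point.some x1 y1 n1 + Affine.Point.some x2 y2 n2 : W.toAffine.Point) =
      Affine.Point.some _ _ (Affine.nonsingular_add n1 n2 fun hxy => hxne hxy.left) := Affine.Point.add_of_X_ne hxne
  have hxc : xc (Affine.Point.some x1 y1 n1 + Affine.Point.some x2 y2 n2 : W.toAffine.Point) = x3 := by
    rw [hadd, hx3, hl]
    rfl
  have hyc : yc (Affine.Point.some x1 y1 n1 + Affine.Point.some x2 y2 n2 : W.toAffine.Point) =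
      -(l * x3 + m) - x3 := by
    rw [hadd]
    change W.toAffine.addY x1 x2 y1 (W.toAffine.slope x1 x2 y1 y2) = _
    rw [← hl, Affine.addY, f3, ← hx3, Affine.negY, a1, a3]
    ring
  -- the residues
  obtain ⟨R, hR⟩ : ∃ R, R = IsLocalRing.residue V := ⟨_, rfl⟩
  have hrs : ∀ x (hx : x ∈ V), rs V x = R ⟨x, hx⟩ := fun x hx => by rw [hR, rs_of hx]
  have r4 : R ⟨W.a₄, ha4⟩ = 0 := by
    rw [← hrs, rs_eq_zero ha4]
    exact h.a4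
  have r6 : R ⟨W.a₆, ha6⟩ = 0 := by
    rw [← hrs, rs_eq_zero ha6]
    exact h.a6
  have k1 := congrArg R (show (⟨x1, px⟩ + ⟨x2, qx⟩ + ⟨x3, hx3V⟩ : V) = ⟨l, hlV⟩ ^ 2 + ⟨l, hlV⟩ from
    Subtype.ext (show x1 + x2 + x3 = l ^ 2 + l by linear_combination e1))
  have k2 := congrArg R (show (⟨x1, px⟩ * ⟨x2, qx⟩ + ⟨x1, px⟩ * ⟨x3, hx3V⟩ + ⟨x2, qx⟩ * ⟨x3, hx3V⟩ : V) =
    ⟨W.a₄, ha4⟩ - 2 * ⟨l, hlV⟩ * ⟨m, hmV⟩ - ⟨m, hmV⟩ from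
    Subtype.ext (show x1 * x2 + x1 * x3 + x2 * x3 = W.a₄ - 2 * l * m - m by linear_combination e2))
  have k3 := congrArg R (show (⟨x1, px⟩ * ⟨x2, qx⟩ * ⟨x3, hx3V⟩ : V) = ⟨m, hmV⟩ ^ 2 - ⟨W.a₆, ha6⟩ from
    Subtype.ext (show x1 * x2 * x3 = m ^ 2 - W.a₆ by linear_combination e3))
  have k4 := congrArg R (show (⟨y1, py⟩ : V) = ⟨l, hlV⟩ * ⟨x1, px⟩ + ⟨m, hmV⟩ from
    Subtype.ext (show y1 = l * x1 + m from f1))
  have k5 := congrArg R (show (⟨y2, qy⟩ : V) = ⟨l, hlV⟩ * ⟨x2, qx⟩ + ⟨m, hmV⟩ from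
    Subtype.ext (show y2 = l * x2 + m from f2))
  have k6 := congrArg R (show (⟨y1, py⟩ ^ 2 + ⟨x1, px⟩ * ⟨y1, py⟩ : V) = ⟨x1, px⟩ ^ 3 + ⟨W.a₄, ha4⟩ * ⟨x1, px⟩ +
    ⟨W.a₆, ha6⟩ from Subtype.ext (show y1 ^ 2 + x1 * y1 = x1 ^ 3 + W.a₄ * x1 + W.a₆ by linear_combination c1))
  have k7 := congrArg R (show (⟨y2, qy⟩ ^ 2 + ⟨x2, qx⟩ * ⟨y2, qy⟩ : V) = ⟨x2, qx⟩ ^ 3 + ⟨W.a₄, ha4⟩ * ⟨x2, qx⟩ +
    ⟨W.a₆, ha6⟩ from Subtype.ext (show y2 ^ 2 + x2 * y2 = x2 ^ 3 + W.a₄ * x2 + W.a₆ by linear_combination c2))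
  simp only [map_add, map_mul, map_sub, map_pow, map_ofNat, r4, r6, zero_mul, add_zero, zero_sub, sub_zero] at k1 k2 k3 k4 k5 k6 k7
  rw [hrs _ px] at hX1 hx uP
  rw [hrs _ qx] at hX2 hx uQ
  rw [hrs _ py] at hY1 uP
  rw [hrs _ qy] at hY2 uQ
  obtain ⟨X1, hX1d⟩ : ∃ X, X = R ⟨x1, px⟩ := ⟨_, rfl⟩
  obtain ⟨X2, hX2d⟩ : ∃ X, X = R ⟨x2, qx⟩ := ⟨_, rfl⟩
  obtain ⟨X3, hX3d⟩ : ∃ X, X = R ⟨x3, hx3V⟩ := ⟨_, rfl⟩
  obtain ⟨Y1, hY1d⟩ : ∃ X, X = R ⟨y1, py⟩ := ⟨_, rfl⟩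
  obtain ⟨Y2, hY2d⟩ : ∃ X, X = R ⟨y2, qy⟩ := ⟨_, rfl⟩
  obtain ⟨L, hLd⟩ : ∃ X, X = R ⟨l, hlV⟩ := ⟨_, rfl⟩
  obtain ⟨M, hMd⟩ : ∃ X, X = R ⟨m, hmV⟩ := ⟨_, rfl⟩
  rw [← hX1d, ← hX2d, ← hX3d, ← hLd] at k1
  rw [← hX1d, ← hX2d, ← hX3d, ← hLd, ← hMd] at k2
  rw [← hX1d, ← hX2d, ← hX3d, ← hMd] at k3
  rw [← hX1d, ← hY1d, ← hLd, ← hMd] at k4
  rw [← hX2d, ← hY2d, ← hLd, ← hMd] at k5
  rw [← hX1d, ← hY1d] at k6
  rw [← hX2d, ← hY2d] at k7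
  rw [← hX1d] at hX1
  rw [← hX2d] at hX2
  rw [← hX1d, ← hX2d] at hx
  rw [← hX1d, ← hY1d] at uP
  rw [← hX2d, ← hY2d] at uQ
  rw [← hY1d] at hY1
  rw [← hY2d] at hY2
  have hM0 : M ≠ 0 := by
    intro hM
    apply hx
    have g1 : X1 = L ^ 2 + L := by
      have : X1 ^ 2 * (X1 - (L ^ 2 + L)) = 0 := by
        rw [k4, hM] at k6
        linear_combination -k6
      exact sub_eq_zero.1 ((mul_eq_zero.1 this).resolve_left (pow_ne_zero 2 hX1))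
    have g2 : X2 = L ^ 2 + L := by
      have : X2 ^ 2 * (X2 - (L ^ 2 + L)) = 0 := by
        rw [k5, hM] at k7
        linear_combination -k7
      exact sub_eq_zero.1 ((mul_eq_zero.1 this).resolve_left (pow_ne_zero 2 hX2))
    rw [g1, g2]
  obtain ⟨Y3, hY3⟩ : ∃ Y3, Y3 = L * X3 + M := ⟨_, rfl⟩
  have p1 : Y1 * Y2 * Y3 = M ^ 3 := by
    rw [k4, k5, hY3]
    linear_combination L ^ 3 * k3 + L ^ 2 * M * k2 + L * M ^ 2 * k1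
  have p2 : (Y1 + X1) * (Y2 + X2) * (Y3 + X3) = M ^ 3 := by
    rw [k4, k5, hY3]
    linear_combination (L + 1) ^ 3 * k3 + (L + 1) ^ 2 * M * k2 + (L + 1) * M ^ 2 * k1
  have hY30 : Y3 ≠ 0 := by
    intro e
    rw [e, mul_zero] at p1
    exact pow_ne_zero 3 hM0 p1.symm
  have hYX30 : Y3 + X3 ≠ 0 := by
    intro e
    rw [e, mul_zero] at p2
    exact pow_ne_zero 3 hM0 p2.symm
  have p3 : Y3 * (Y3 + X3) = X3 ^ 3 := by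
    rw [hY3]
    linear_combination (-X3 ^ 2) * k1 + X3 * k2 - k3
  have hX30 : X3 ≠ 0 := by
    intro e
    rw [e] at p3 hYX30
    have := mul_ne_zero hY30 hYX30
    rw [p3] at this
    exact this (by ring)
  have hFn : Fn V (Affine.Point.some x1 y1 n1 + Affine.Point.some x2 y2 n2 : W.toAffine.Point) := by
    unfold Fn
    rw [hxc, ← rs_ne_zero hx3V, hrs _ hx3V, ← hX3d]
    exact hX30
  refine ⟨hFn, ?_⟩
  obtain ⟨-, -, -, -, -, uR⟩ := fn_ub h hFn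
  have hy3V : -(l * x3 + m) - x3 ∈ V :=
    V.sub_mem (V.neg_mem _ (V.add_mem _ _ (V.mul_mem _ _ hlV hx3V) hmV)) hx3V
  have k8 := congrArg R (show (⟨-(l * x3 + m) - x3, hy3V⟩ : V) = -(⟨l, hlV⟩ * ⟨x3, hx3V⟩ + ⟨m, hmV⟩) - ⟨x3, hx3V⟩ from
    Subtype.ext rfl)
  simp only [map_add, map_mul, map_sub, map_neg] at k8
  rw [← hX3d, ← hLd, ← hMd, ← hY3] at k8
  rw [hyc, hxc, hrs _ hy3V, k8, hrs _ hx3V, ← hX3d] at uR
  obtain ⟨w, hw⟩ : ∃ w, w = ub V (Affine.Point.some x1 y1 n1 + Affine.Point.some x2 y2 n2 : W.toAffine.Point) := ⟨_, rfl⟩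
  rw [← hw] at uR ⊢
  have fin : Y1 * Y2 * (Y3 + X3) * (w - p * q) = 0 := by
    have u1 : (Y3 + X3) * w = Y3 := by linear_combination -uR
    have u2 : Y1 * p = Y1 + X1 := by linear_combination uP
    have u3 : Y2 * q = Y2 + X2 := by linear_combination uQ
    calc Y1 * Y2 * (Y3 + X3) * (w - p * q) = Y1 * Y2 * ((Y3 + X3) * w) - (Y1 * p) * (Y2 * q) * (Y3 + X3) := by ring
      _ = Y1 * Y2 * Y3 - (Y1 + X1) * (Y2 + X2) * (Y3 + X3) := by rw [u1, u2, u3]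
      _ = 0 := by rw [p1, p2, sub_self]
  exact sub_eq_zero.1 ((mul_eq_zero.1 fin).resolve_left (mul_ne_zero (mul_ne_zero hY1 hY2) hYX30))

end H55K.JJ
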