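import Mathlib
import Pool.Agent.Lib.H55K.J1A

open NumberField WeierstrassCurve

namespace H55K.JJ

open H35P (WAB Ker IntW)

variable {k : Type} [Field k] [DecidableEq k] {W : WeierstrassCurve k} {V : ValuationSubring k}

omit [DecidableEq k] in
theorem j2b_le {a : k} (h : a ∈ V) : V.valuation a ≤ 1 := (V.valuation_le_one_iff a).2 h

/-- An integral combination with one factor of value less than one. -/
theorem j2b_mul_lt {a b : k} (h : a ∈ V) (hb : V.valuation b < 1) : V.valuation (a * b) < 1 := by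
  rw [map_mul]
  exact (mul_le_of_le_one_left' (j2b_le h)).trans_lt hb

theorem j2b_big (hI : IntW W V) {x₁ x₂ l : k} (h1 : x₁ ∈ V) (h2 : x₂ ∈ V) (hl : 1 < V.valuation l) :
    1 < V.valuation (W.toAffine.addX x₁ x₂ l) := by
  have e : W.toAffine.addX x₁ x₂ l = l ^ 2 + (W.a₁ * l - (W.a₂ + x₁ + x₂)) := by
    unfold Affine.addX
    ring
  have hll : V.valuation l < V.valuation (l ^ 2) := by
    rw [map_pow, pow_two]
    exact lt_mul_of_one_lt_left (zero_lt_one.trans hl) hl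
  have h3 : V.valuation (W.a₁ * l - (W.a₂ + x₁ + x₂)) < V.valuation (l ^ 2) := by
    refine lt_of_le_of_lt (V.valuation.map_sub_le ?_ ?_) hll
    · rw [map_mul]
      exact mul_le_of_le_one_left' (j2b_le hI.a1)
    · exact (j2b_le (V.add_mem _ _ (V.add_mem _ _ hI.a2 h1) h2)).trans hl.le
  rw [e, V.valuation.map_add_eq_of_lt_left h3]
  exact hl.trans hll

omit [DecidableEq k] in
theorem j2b_div {a b : k} (ha : V.valuation a = 1) (hb : V.valuation b < 1) (hb0 : b ≠ 0) :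
    1 < V.valuation (a / b) := by
  rw [map_div₀, ha, one_div]
  exact (one_lt_inv₀ ((V.valuation.pos_iff).2 hb0)).2 hb

theorem j2b_rd (hI : IntW W V) (P Q : W.toAffine.Point) (h : H35P.Cong V P Q)
    (hns : V.valuation (2 * yc P + W.a₁ * xc P + W.a₃) < 1 →
      V.valuation (3 * xc P ^ 2 + 2 * W.a₂ * xc P + W.a₄ - W.a₁ * yc P) = 1) : Ker V (P - Q) := by
  obtain ⟨x₁, y₁, h₁, x₂, y₂, h₂, rfl, rfl, hx1, hy1, hx2, hy2, hx, hy⟩ := h
  change V.valuation (2 * y₁ + W.a₁ * x₁ + W.a₃) < 1 →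
      V.valuation (3 * x₁ ^ 2 + 2 * W.a₂ * x₁ + W.a₄ - W.a₁ * y₁) = 1 at hns
  rw [sub_eq_add_neg, Affine.Point.neg_some]
  by_cases hc : x₁ = x₂ ∧ y₁ = W.toAffine.negY x₂ (W.toAffine.negY x₂ y₂)
  · rw [Affine.Point.add_of_Y_eq hc.1 hc.2]
    trivial
  rw [Affine.Point.add_some hc]
  change 1 < V.valuation (W.toAffine.addX x₁ x₂ (W.toAffine.slope x₁ x₂ y₁ (W.toAffine.negY x₂ y₂)))
  refine j2b_big hI hx1 hx2 ?_
  have hE1 := (Affine.equation_iff ..).1 h₁.1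
  have hE2 := (Affine.equation_iff ..).1 h₂.1
  by_cases hxx : x₁ = x₂
  · -- tangent
    have hyy : y₁ ≠ y₂ := fun h => hc ⟨hxx, by rw [Affine.negY_negY]; exact h⟩
    have hneg : y₁ = W.toAffine.negY x₂ y₂ := (Affine.Y_eq_of_X_eq h₁.1 h₂.1 hxx).resolve_left hyy
    have hy' : y₁ ≠ W.toAffine.negY x₂ (W.toAffine.negY x₂ y₂) := fun h => hc ⟨hxx, h⟩
    rw [Affine.slope_of_Y_ne hxx hy']
    have e : y₁ - W.toAffine.negY x₁ y₁ = y₁ - y₂ := by
      congr 1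
      rw [hneg, hxx, Affine.negY_negY]
    have e2 : 2 * y₁ + W.a₁ * x₁ + W.a₃ = y₁ - y₂ := by
      rw [← e]
      unfold Affine.negY
      ring
    rw [e]
    exact j2b_div (hns (by rw [e2]; exact hy)) hy (sub_ne_zero.2 hyy)
  · -- chord
    have hxx0 : x₁ - x₂ ≠ 0 := sub_ne_zero.2 hxx
    rw [Affine.slope_of_X_ne hxx]
    have hFy1 : V.valuation (2 * y₁ + W.a₁ * x₁ + W.a₃) ≤ 1 :=
      j2b_le (V.add_mem _ _ (V.add_mem _ _ (V.mul_mem _ _ (by simp) hy1) (V.mul_mem _ _ hI.a1 hx1)) hI.a3)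
    have hnegY : y₁ - W.toAffine.negY x₂ y₂ = y₁ + y₂ + W.a₁ * x₂ + W.a₃ := by
      unfold Affine.negY
      ring
    rcases hFy1.lt_or_eq with hF | hF
    · have hFx := hns hF
      have hG1 : V.valuation (x₁ ^ 2 + x₁ * x₂ + x₂ ^ 2 + W.a₂ * (x₁ + x₂) + W.a₄ - W.a₁ * y₁) = 1 := by
        have e : x₁ ^ 2 + x₁ * x₂ + x₂ ^ 2 + W.a₂ * (x₁ + x₂) + W.a₄ - W.a₁ * y₁ =
            (3 * x₁ ^ 2 + 2 * W.a₂ * x₁ + W.a₄ - W.a₁ * y₁) + -((x₂ + 2 * x₁ + W.a₂) * (x₁ - x₂)) := by ring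
        rw [e, V.valuation.map_add_eq_of_lt_left, hFx]
        rw [hFx, Valuation.map_neg]
        exact j2b_mul_lt (V.add_mem _ _ (V.add_mem _ _ hx2 (V.mul_mem _ _ (by simp) hx1)) hI.a2) hx
      have hid : (y₁ - W.toAffine.negY x₂ y₂) * (y₁ - y₂) =
          (x₁ - x₂) * (x₁ ^ 2 + x₁ * x₂ + x₂ ^ 2 + W.a₂ * (x₁ + x₂) + W.a₄ - W.a₁ * y₁) := by
        rw [hnegY]
        linear_combination hE1 - hE2
      have hyy : y₁ - y₂ ≠ 0 := by
        intro h0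
        rw [h0, mul_zero] at hid
        rcases mul_eq_zero.1 hid.symm with h | h
        · exact hxx0 h
        · rw [h, map_zero] at hG1
          exact zero_ne_one hG1
      have e : (y₁ - W.toAffine.negY x₂ y₂) / (x₁ - x₂) =
          (x₁ ^ 2 + x₁ * x₂ + x₂ ^ 2 + W.a₂ * (x₁ + x₂) + W.a₄ - W.a₁ * y₁) / (y₁ - y₂) := by
        rw [div_eq_div_iff hxx0 hyy, hid]
        ring
      rw [e]
      exact j2b_div hG1 hy hyy
    · have hn : V.valuation (y₁ - W.toAffine.negY x₂ y₂) = 1 := by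
        have e : y₁ - W.toAffine.negY x₂ y₂ = (2 * y₁ + W.a₁ * x₁ + W.a₃) + -((y₁ - y₂) + W.a₁ * (x₁ - x₂)) := by
          rw [hnegY]
          ring
        rw [e, V.valuation.map_add_eq_of_lt_left, hF]
        rw [hF, Valuation.map_neg]
        exact V.valuation.map_add_lt hy (j2b_mul_lt hI.a1 hx)
      exact j2b_div hn hx hxx0

/-! Chunk J2B (M). Port of H35P.rd (Lib/H35P/RD.lean; its private lemmas can be copied): in that proof GoodW is used only through nonsing at the point P. Here: at P = (x, y) in Fn: if V(2y + x) < 1 then V(3x^2 - y) = 1 (a2 = 0, a1 = 1, V(a4) < 1):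
residues: otherwise Y = 3X^2 and 2Y + X = 0, so 6X + 1 = 0 (X <> 0), and Y^2 + XY = X^3 gives 9X^4 + 3X^3 = X^3, 9X + 2 = 0, so 4 = 3 (18 X = -3 = -4), 1 = 0. The points are congruent: ub P = ub Q gives
rs x = xu u equal, rs y = rs x/(u - 1) equal (fn_ub), rs_eq. -/

theorem rd_fn (h : Nod W V) {P Q : W.toAffine.Point} (hP : Fn V P) (hQ : Fn V Q) (hu : ub V P = ub V Q) :
    Ker V (P - Q) := by
  obtain ⟨p0, p1, p2, -, -⟩ := fn_crd h hP
  obtain ⟨q0, q1, q2, -, -⟩ := fn_crd h hQ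
  obtain ⟨-, -, p5, p6, -, p8⟩ := fn_ub h hP
  obtain ⟨-, -, q5, q6, -, q8⟩ := fn_ub h hQ
  have hX : rs V (xc P) = rs V (xc Q) := by rw [p6, q6, hu]
  have hY : rs V (yc P) = rs V (yc Q) := by
    have h1 : ub V P - 1 ≠ 0 := sub_ne_zero.2 p5
    apply mul_right_cancel₀ h1
    rw [p8, hX, ← q8, hu]
  have hX0 : rs V (xc P) ≠ 0 := (rs_ne_zero p1).2 hP
  have hc : H35P.Cong V P Q := by
    have hx := (rs_eq p1 q1).1 hX
    have hy := (rs_eq p2 q2).1 hY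
    rcases P with _ | ⟨x₁, y₁, h₁⟩
    · exact absurd rfl p0
    rcases Q with _ | ⟨x₂, y₂, h₂⟩
    · exact absurd rfl q0
    exact ⟨x₁, y₁, h₁, x₂, y₂, h₂, rfl, rfl, p1, p2, q1, q2, hx, hy⟩
  refine j2b_rd h.intW P Q hc ?_
  rw [h.a1, h.a2, h.a3]
  intro h1
  have ha4 : W.a₄ ∈ V := h.intW.a4
  have e1 : 2 * yc P + 1 * xc P + 0 = 2 * yc P + xc P := by ring
  rw [e1] at h1
  have m2 : (2 : k) ∈ V := by exact_mod_cast natCast_mem V 2
  have m3 : (3 : k) ∈ V := by exact_mod_cast natCast_mem V 3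
  have r2 : rs V (2 : k) = 2 := by exact_mod_cast rs_nat (V := V) 2
  have r3 : rs V (3 : k) = 3 := by exact_mod_cast rs_nat (V := V) 3
  have h2y : 2 * yc P ∈ V := V.mul_mem _ _ m2 p2
  have h2 : rs V (2 * yc P + xc P) = 0 := (rs_eq_zero (V.add_mem _ _ h2y p1)).2 h1
  have h3 := z_sq h p0 p1 p2
  rw [h2] at h3
  rw [rs_add h2y p1, rs_mul m2 p2, r2] at h2
  have h4 : 4 * rs V (xc P) + 1 = 0 := by
    have h5 : rs V (xc P) ^ 2 * (4 * rs V (xc P) + 1) = 0 := by linear_combination -h3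
    rcases mul_eq_zero.1 h5 with h6 | h6
    · exact absurd (pow_eq_zero_iff two_ne_zero |>.1 h6) hX0
    · exact h6
  have mem : 3 * xc P ^ 2 ∈ V := V.mul_mem _ _ m3 (pow_mem p1 2)
  have e2 : 3 * xc P ^ 2 + 2 * 0 * xc P + W.a₄ - 1 * yc P = 3 * xc P ^ 2 + W.a₄ - yc P := by ring
  rw [e2]
  refine (rs_ne_zero (V.sub_mem (V.add_mem _ _ mem ha4) p2)).1 ?_
  rw [rs_sub (V.add_mem _ _ mem ha4) p2, rs_add mem ha4, rs_mul m3 (pow_mem p1 2), rs_pow p1, r3,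
    (rs_eq_zero ha4).2 h.a4, add_zero]
  intro h7
  have h8 : rs V (xc P) * (6 * rs V (xc P) + 1) = 0 := by linear_combination 2 * h7 + h2
  rcases mul_eq_zero.1 h8 with h9 | h9
  · exact hX0 h9
  · exact one_ne_zero (α := IsLocalRing.ResidueField V) (by linear_combination 3 * h4 - 2 * h9)

end H55K.JJ
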