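import Mathlib
import Pool.Agent.Lib.H55K.J1A

open NumberField WeierstrassCurve

namespace H55K.JJ

open H35P (WAB Ker IntW)

variable {k : Type} [Field k] [DecidableEq k] [IsAlgClosed k] {W : WeierstrassCurve k} {V : ValuationSubring k}

/-! Chunk J3A (M). res_inf: suppose the residue field is finite with q elements. X^q - X - 1 (monic of degree q ≥ 2, coefficients in V) has a root a in k (IsAlgClosed), integral over V, so in V (IsIntegrallyClosed.isIntegral_iff, see k0_int in
Lib/H55K/K0A.lean); its residue b satisfies b^q - b = 1, but b^q = b (FiniteField.pow_card): contradiction. ex_fn: choose w0 in V with residue w (w <> 0, 1), x = w0/(w0 - 1)^2, a unit; y a root of Y^2 + x Y = x^3 + a4 x + a6 (IsAlgClosed: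
exists_pow_nat_eq after completing the square needs 2 <> 0; use IsAlgClosed.exists_root of the quadratic polynomial). P = (x, y) is on W, nonsingular since Δ <> 0 (Affine.equation_iff_nonsingular_of_Δ_ne_zero). Fn V P; u = ub V P satisfies xu u = rs x = xu w
(fn_ub), so u (w - 1)^2 = w (u - 1)^2, (u - w)(u w - 1) = 0: u = w or u = w^(-1); take P or -P (fn_neg). -/

open Polynomial in
theorem res_inf (V : ValuationSubring k) : Infinite (IsLocalRing.ResidueField V) := by
  rw [← not_finite_iff_infinite]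
  intro hfin
  classical
  let _ : Fintype (IsLocalRing.ResidueField V) := Fintype.ofFinite _
  set q := Fintype.card (IsLocalRing.ResidueField V) with hq
  have hq1 : 1 < q := Fintype.one_lt_card
  have hdeg : ∀ (R : Type) [CommRing R] [Nontrivial R], (X ^ q - (X + 1) : R[X]).Monic ∧
      (X ^ q - (X + 1) : R[X]).natDegree = q := by
    intro R _ _
    have h1 : (X + 1 : R[X]).degree < q := by
      have h2 : (X + 1 : R[X]).degree = 1 := by
        have := degree_X_add_C (1 : R)
        rwa [map_one] at this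
      rw [h2]
      exact_mod_cast hq1
    have h2 : (X ^ q - (X + 1) : R[X]).Monic := monic_X_pow_sub h1
    refine ⟨h2, ?_⟩
    apply natDegree_eq_of_degree_eq_some
    rw [degree_sub_eq_left_of_degree_lt]
    · exact degree_X_pow q
    · rw [degree_X_pow]
      exact h1
  obtain ⟨a, ha⟩ := IsAlgClosed.exists_root (X ^ q - (X + 1) : k[X]) (by
    intro h0
    rw [degree_eq_natDegree (hdeg k).1.ne_zero, (hdeg k).2] at h0
    have h3 : q = 0 := by exact_mod_cast h0
    omega)
  have ha' : a ^ q - (a + 1) = 0 := by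
    have h1 := ha
    rw [IsRoot.def] at h1
    simpa using h1
  have hint : IsIntegral V a := by
    refine ⟨X ^ q - (X + 1), (hdeg V).1, ?_⟩
    simp only [eval₂_sub, eval₂_add, eval₂_X_pow, eval₂_X, eval₂_one]
    exact ha'
  obtain ⟨y, hy⟩ := IsIntegrallyClosed.isIntegral_iff.1 hint
  have haV : a ∈ V := by
    rw [← hy]
    exact y.2
  have h1 : rs V (a ^ q - (a + 1)) = 0 := by rw [ha', rs_zero]
  rw [rs_sub (pow_mem haV q) (V.add_mem _ _ haV V.one_mem), rs_add haV V.one_mem, rs_pow haV, rs_one,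
    hq, FiniteField.pow_card] at h1
  have h2 : rs V a - (rs V a + 1) = -1 := by ring
  rw [h2] at h1
  exact absurd (neg_eq_zero.1 h1) one_ne_zero

open Polynomial in
theorem ex_fn (h : Nod W V) (hΔ : W.Δ ≠ 0) {w : IsLocalRing.ResidueField V} (h0 : w ≠ 0) (h1 : w ≠ 1) :
    ∃ P : W.toAffine.Point, Fn V P ∧ ub V P = w := by
  obtain ⟨w0, hw0⟩ := IsLocalRing.residue_surjective w
  have hw1 : rs V (w0 : k) = w := by rw [rs_of w0.2, ← hw0]
  have hv0 : V.valuation (w0 : k) = 1 := by
    rw [← rs_ne_zero w0.2, hw1]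
    exact h0
  have hw2 : (w0 : k) - 1 ∈ V := V.sub_mem w0.2 V.one_mem
  have hr1 : rs V ((w0 : k) - 1) = w - 1 := by rw [rs_sub w0.2 V.one_mem, hw1, rs_one]
  have hv1 : V.valuation ((w0 : k) - 1) = 1 := by
    rw [← rs_ne_zero hw2, hr1]
    exact sub_ne_zero.2 h1
  set x : k := (w0 : k) / ((w0 : k) - 1) ^ 2 with hx
  have hvx : V.valuation x = 1 := by
    rw [hx, map_div₀, map_pow, hv0, hv1, one_pow, div_one]
  have hrx : rs V x = xu w := by
    rw [hx, rs_div w0.2 (by rw [map_pow, hv1, one_pow]), rs_pow hw2, hw1, hr1]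
    rfl
  obtain ⟨y, hy⟩ := IsAlgClosed.exists_root
    (C 1 * X ^ 2 + C x * X + C (-(x ^ 3 + W.a₄ * x + W.a₆)) : k[X]) (by
      rw [degree_quadratic one_ne_zero]
      norm_num)
  have hy' : y ^ 2 + x * y = x ^ 3 + W.a₄ * x + W.a₆ := by
    rw [IsRoot.def] at hy
    simp only [eval_add, eval_mul, eval_C, eval_pow, eval_X] at hy
    linear_combination hy
  have hE : W.toAffine.Equation x y := by
    rw [Affine.equation_iff, h.a1, h.a2, h.a3]
    linear_combination hy'
  have hN : W.toAffine.Nonsingular x y :=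
    (Affine.equation_iff_nonsingular_of_Δ_ne_zero hΔ).1 hE
  set P : W.toAffine.Point := Affine.Point.some x y hN with hP
  have hF : Fn V P := hvx
  obtain ⟨-, hu0, hu1, hu2, -, -⟩ := fn_ub h hF
  have hu3 : xu w = xu (ub V P) := by
    rw [← hrx, ← hu2]
    rfl
  set u := ub V P with hu
  have hw3 : w - 1 ≠ 0 := sub_ne_zero.2 h1
  have hu4 : u - 1 ≠ 0 := sub_ne_zero.2 hu1
  have hu5 : w * (u - 1) ^ 2 = u * (w - 1) ^ 2 := by
    unfold xu at hu3
    rw [div_eq_div_iff (pow_ne_zero 2 hw3) (pow_ne_zero 2 hu4)] at hu3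
    exact hu3
  have hu6 : (u - w) * (u * w - 1) = 0 := by linear_combination hu5
  rcases mul_eq_zero.1 hu6 with h7 | h7
  · exact ⟨P, hF, sub_eq_zero.1 h7⟩
  · obtain ⟨h8, h9⟩ := fn_neg h hF
    refine ⟨-P, h8, ?_⟩
    rw [h9, ← hu]
    exact inv_eq_of_mul_eq_one_right (sub_eq_zero.1 h7)

end H55K.JJ
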