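import Mathlib
import Pool.Agent.Lib.H55K.J1B
import Pool.Agent.Lib.H55K.J2A
import Pool.Agent.Lib.H55K.J2B
import Pool.Agent.Lib.H55K.J3A

open NumberField WeierstrassCurve

namespace H55K.JJ

open H35P (WAB Ker IntW)

variable {k : Type} [Field k] [DecidableEq k] [IsAlgClosed k] {W : WeierstrassCurve k} {V : ValuationSubring k}

theorem j3b_xu {κ : Type} [Field κ] {u w : κ} (hu : u ≠ 1) (hw : w ≠ 1) (h : xu u = xu w) : u = w ∨ u * w = 1 := by
  unfold xu at h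
  have h1 : (u - 1) ^ 2 ≠ 0 := pow_ne_zero 2 (sub_ne_zero.2 hu)
  have h2 : (w - 1) ^ 2 ≠ 0 := pow_ne_zero 2 (sub_ne_zero.2 hw)
  rw [div_eq_div_iff h1 h2] at h
  have h3 : (u - w) * (u * w - 1) = 0 := by linear_combination -h
  rcases mul_eq_zero.1 h3 with h4 | h4
  · exact Or.inl (sub_eq_zero.1 h4)
  · exact Or.inr (sub_eq_zero.1 h4)

theorem j3b_w {κ : Type} [Field κ] [Infinite κ] (a b : κ) (ha : a ≠ 0) :
    ∃ w : κ, w ≠ 0 ∧ w ≠ 1 ∧ w ≠ a ∧ w ≠ a⁻¹ ∧ w ≠ b ∧ w ≠ b⁻¹ ∧ a * w ^ 2 ≠ b := by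
  classical
  have hfin : {w : κ | a * w ^ 2 = b}.Finite := by
    by_cases hex : ∃ w₀, a * w₀ ^ 2 = b
    · obtain ⟨w₀, h0⟩ := hex
      refine (Set.toFinite ({w₀, -w₀} : Set κ)).subset ?_
      intro w hw
      have hw' : a * w ^ 2 = b := hw
      have h1 : w ^ 2 = w₀ ^ 2 := mul_left_cancel₀ ha (by rw [hw', h0])
      rcases sq_eq_sq_iff_eq_or_eq_neg.1 h1 with h2 | h2
      · exact Or.inl h2
      · exact Or.inr h2
    · refine Set.finite_empty.subset ?_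
      intro w hw
      exact absurd ⟨w, hw⟩ hex
  have hT : (({0, 1, a, a⁻¹, b, b⁻¹} : Set κ) ∪ {w : κ | a * w ^ 2 = b}).Finite := (Set.toFinite _).union hfin
  obtain ⟨w, hw⟩ := hT.exists_notMem
  rw [Set.mem_union, not_or] at hw
  obtain ⟨h1, h2⟩ := hw
  simp only [Set.mem_insert_iff, Set.mem_singleton_iff, not_or] at h1
  exact ⟨w, h1.1, h1.2.1, h1.2.2.1, h1.2.2.2.1, h1.2.2.2.2.1, h1.2.2.2.2.2, h2⟩

/-! Chunk J3B (M). xu_eq: xu u = xu w iff u = w or u w = 1 (u, w <> 1, <> 0). ub_mul: a = ub P, b = ub Q, a b <> 1. Choose w in the infinite residue field (res_inf) outside the finite set of the w with w = 0, w = 1, w = a, a w = 1, b w = 1, w = b,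
a w^2 = b (at most 2 roots of a nonzero polynomial), R with ub R = w (ex_fn). fn_add for (P, R): P1 = P + R, ub = a w; for (Q, -R) (fn_neg): P2 = Q - R, ub = b w^(-1); for (P1, P2): a w <> b w^(-1), a w b w^(-1) = a b <> 1: P1 + P2 = P + Q.
ub_mul': if ub P * ub Q = 1 then ub P = ub (-Q), so Ker (P + Q) (rd_fn). ker_shift: P in Ker, R in Fn: P + R is in E0 (e0_add, e0_iff), not in Ker (R = (P + R) - P, H35P.ker_sub), so Fn. If ub (P + R) <> ub R then ub_mul for (P + R, -R) gives Fn P: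
contradiction (ker_fn). -/
theorem ub_mul (h : Nod W V) (hΔ : W.Δ ≠ 0) {P Q : W.toAffine.Point} (hP : Fn V P) (hQ : Fn V Q)
    (hu : ub V P * ub V Q ≠ 1) : Fn V (P + Q) ∧ ub V (P + Q) = ub V P * ub V Q := by
  have := res_inf V
  obtain ⟨-, a0, a1, a2, -, -⟩ := fn_ub h hP
  obtain ⟨-, b0, b1, b2, -, -⟩ := fn_ub h hQ
  obtain ⟨w, w0, w1, wa, wa', wb, wb', wab⟩ := j3b_w (ub V P) (ub V Q) a0
  obtain ⟨R, hR, hRw⟩ := ex_fn h hΔ w0 w1
  obtain ⟨-, r0, r1, r2, -, -⟩ := fn_ub h hR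
  obtain ⟨hnR, hnRu⟩ := fn_neg h hR
  obtain ⟨-, n0, n1, n2, -, -⟩ := fn_ub h hnR
  have h1 : rs V (xc P) ≠ rs V (xc R) := by
    rw [a2, r2]
    intro e
    rcases j3b_xu a1 r1 e with e1 | e1
    · rw [hRw] at e1
      exact wa e1.symm
    · rw [hRw] at e1
      exact wa' (eq_inv_of_mul_eq_one_right e1)
  obtain ⟨hP1, hu1⟩ := fn_add h hP hR h1
  have h2 : rs V (xc Q) ≠ rs V (xc (-R)) := by
    rw [b2, n2]
    intro e
    rcases j3b_xu b1 n1 e with e1 | e1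
    · rw [hnRu, hRw] at e1
      apply wb'
      rw [e1, inv_inv]
    · rw [hnRu, hRw] at e1
      have e2 := eq_inv_of_mul_eq_one_left e1
      rw [inv_inv] at e2
      exact wb e2.symm
  obtain ⟨hP2, hu2⟩ := fn_add h hQ hnR h2
  obtain ⟨-, -, c1, c2, -, -⟩ := fn_ub h hP1
  obtain ⟨-, -, d1, d2, -, -⟩ := fn_ub h hP2
  have h3 : rs V (xc (P + R)) ≠ rs V (xc (Q + -R)) := by
    rw [c2, d2]
    intro e
    rcases j3b_xu c1 d1 e with e1 | e1
    · rw [hu1, hu2, hnRu, hRw] at e1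
      apply wab
      have e2 : ub V P * w * w = ub V Q * w⁻¹ * w := by rw [e1]
      rw [inv_mul_cancel_right₀ w0] at e2
      rw [← e2]
      ring
    · rw [hu1, hu2, hnRu, hRw] at e1
      apply hu
      rw [← e1]
      field_simp
  obtain ⟨hs, hus⟩ := fn_add h hP1 hP2 h3
  have e : P + R + (Q + -R) = P + Q := by abel
  rw [e] at hs hus
  refine ⟨hs, ?_⟩
  rw [hus, hu1, hu2, hnRu, hRw]
  field_simp

theorem ub_mul' (h : Nod W V) (hΔ : W.Δ ≠ 0) {P Q : W.toAffine.Point} (hP : Fn V P) (hQ : Fn V Q)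
    (hk : ¬ Ker V (P + Q)) : Fn V (P + Q) ∧ ub V (P + Q) = ub V P * ub V Q := by
  refine ub_mul h hΔ hP hQ ?_
  intro hu
  apply hk
  obtain ⟨hnQ, hnu⟩ := fn_neg h hQ
  have e : ub V P = ub V (-Q) := by
    rw [hnu]
    exact eq_inv_of_mul_eq_one_left hu
  have h1 := rd_fn h hP hnQ e
  rwa [sub_neg_eq_add] at h1

theorem ker_shift (h : Nod W V) (hΔ : W.Δ ≠ 0) {P R : W.toAffine.Point} (hP : Ker V P) (hR : Fn V R) :
    Fn V (P + R) ∧ ub V (P + R) = ub V R := by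
  have h1 : E0 V (P + R) := e0_add h (e0_iff.2 (Or.inl hP)) (e0_iff.2 (Or.inr hR))
  have h2 : ¬ Ker V (P + R) := by
    intro hk
    have h3 := H35P.ker_sub h.intW (P + R) P hk hP
    rw [add_sub_cancel_left] at h3
    exact ker_fn hR h3
  have h3 : Fn V (P + R) := (e0_iff.1 h1).resolve_left h2
  refine ⟨h3, ?_⟩
  by_contra hne
  obtain ⟨hnR, hnu⟩ := fn_neg h hR
  obtain ⟨-, r0, -, -, -, -⟩ := fn_ub h hR
  have h4 := (ub_mul h hΔ h3 hnR (by
    rw [hnu]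
    intro e
    apply hne
    have e1 := eq_inv_of_mul_eq_one_left e
    rwa [inv_inv] at e1)).1
  rw [add_neg_cancel_right] at h4
  exact ker_fn h4 hP

end H55K.JJ
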