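import Mathlib
import Pool.Agent.Lib.H55K.J3B

set_option autoImplicit false

/-! Chunk J3C (M). ub_nsmul: induction on n ≥ 1: n • P + P, ub (n • P) * ub P = ub P^(n+1) <> 1, ub_mul. ub_prod: for T, T' in S: ub (T + T') = ub T * ub T' (T = 0 or T' = 0: ub_zero; T + T' = 0: fn_neg; otherwise T + T' is a nonzero element
of S, so Fn, so not Ker: ub_mul'). Injective on S: ub T = ub T': both nonzero: Ker (T - T') (rd_fn), T - T' in S, so T - T' = 0 (ker_fn); one zero: ub T = 1 is impossible for Fn T (fn_ub). S.card • T = 0 for T in S (S is a finite group: Lagrange), so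
ub T ^ S.card = 1. The S.card different values are roots of the monic polynomial X^(S.card) - 1 of degree S.card: it is the product of the X - ub T (e.g. Polynomial.prod_multiset_X_sub_C_of_monic_of_roots_card_eq, or
Multiset/Finset: the product divides it and both are monic of the same degree). -/

open NumberField WeierstrassCurve

namespace H55K.JJ

open H35P (WAB Ker IntW)

open Polynomial

variable {k : Type} [Field k] [DecidableEq k] [IsAlgClosed k] {W : WeierstrassCurve k} {V : ValuationSubring k}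

theorem ub_nsmul (h : Nod W V) (hΔ : W.Δ ≠ 0) {P : W.toAffine.Point} (hP : Fn V P) {n : ℕ} (hn : 0 < n)
    (hu : ∀ m : ℕ, 0 < m → m ≤ n → ub V P ^ m ≠ 1) : Fn V (n • P) ∧ ub V (n • P) = ub V P ^ n := by
  induction n with
  | zero => exact absurd hn (lt_irrefl 0)
  | succ n ih =>
    rcases Nat.eq_zero_or_pos n with h0 | h0
    · subst h0
      rw [zero_add, one_smul, pow_one]
      exact ⟨hP, rfl⟩
    · obtain ⟨h1, h2⟩ := ih h0 fun m hm hmn => hu m hm (by omega)
      have h3 : ub V (n • P) * ub V P = ub V P ^ (n + 1) := by rw [h2, pow_succ]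
      have h4 := ub_mul h hΔ h1 hP (by rw [h3]; exact hu (n + 1) (Nat.succ_pos n) le_rfl)
      rw [succ_nsmul]
      exact ⟨h4.1, by rw [h4.2, h3]⟩

theorem j3c_mul (h : Nod W V) (hΔ : W.Δ ≠ 0) (S : Finset W.toAffine.Point) (h0 : 0 ∈ S)
    (hs : ∀ T ∈ S, ∀ T' ∈ S, T - T' ∈ S) (hF : ∀ T ∈ S, T ≠ 0 → Fn V T)
    {T T' : W.toAffine.Point} (hT : T ∈ S) (hT' : T' ∈ S) :
    ub V (T + T') = ub V T * ub V T' := by
  by_cases h1 : T = 0
  · rw [h1, zero_add, ub_zero, one_mul]
  by_cases h2 : T' = 0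
  · rw [h2, add_zero, ub_zero, mul_one]
  have hf := hF T hT h1
  by_cases h3 : T + T' = 0
  · have h4 : T' = -T := (neg_eq_of_add_eq_zero_right h3).symm
    rw [h3, ub_zero, h4, (fn_neg h hf).2, mul_inv_cancel₀ (fn_ub h hf).2.1]
  · have h5 : T + T' ∈ S := by
      have h6 : -T' ∈ S := by
        have := hs 0 h0 T' hT'
        rwa [zero_sub] at this
      have := hs T hT (-T') h6
      rwa [sub_neg_eq_add] at this
    exact (ub_mul' h hΔ hf (hF T' hT' h2) (ker_fn (hF _ h5 h3))).2

theorem j3c_inj (h : Nod W V) (S : Finset W.toAffine.Point)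
    (hs : ∀ T ∈ S, ∀ T' ∈ S, T - T' ∈ S) (hF : ∀ T ∈ S, T ≠ 0 → Fn V T)
    {T T' : W.toAffine.Point} (hT : T ∈ S) (hT' : T' ∈ S) (hu : ub V T = ub V T') : T = T' := by
  by_cases h1 : T = 0
  · by_cases h2 : T' = 0
    · rw [h1, h2]
    · rw [h1, ub_zero] at hu
      exact absurd hu.symm (fn_ub h (hF T' hT' h2)).2.2.1
  · by_cases h2 : T' = 0
    · rw [h2, ub_zero] at hu
      exact absurd hu (fn_ub h (hF T hT h1)).2.2.1
    · have hk := rd_fn h (hF T hT h1) (hF T' hT' h2) hu
      by_contra hne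
      exact ker_fn (hF _ (hs T hT T' hT') (sub_ne_zero.2 hne)) hk

theorem ub_prod (h : Nod W V) (hΔ : W.Δ ≠ 0) (S : Finset W.toAffine.Point) (h0 : 0 ∈ S)
    (hs : ∀ T ∈ S, ∀ T' ∈ S, T - T' ∈ S) (hF : ∀ T ∈ S, T ≠ 0 → Fn V T) :
    ∏ T ∈ S, (X - C (ub V T)) = X ^ S.card - 1 := by
  classical
  have hcpos : 0 < S.card := Finset.card_pos.2 ⟨0, h0⟩
  -- the group
  have hneg : ∀ T ∈ S, -T ∈ S := fun T hT => by
    have := hs 0 h0 T hT
    rwa [zero_sub] at this
  have hadd : ∀ T ∈ S, ∀ T' ∈ S, T + T' ∈ S := fun T hT T' hT' => by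
    have := hs T hT (-T') (hneg T' hT')
    rwa [sub_neg_eq_add] at this
  let G : AddSubgroup W.toAffine.Point :=
    { carrier := (S : Set W.toAffine.Point)
      zero_mem' := h0
      add_mem' := fun {a b} ha hb => hadd a ha b hb
      neg_mem' := fun {a} ha => hneg a ha }
  have hcard : Nat.card G = S.card := by
    have h1 : Nat.card G = Nat.card (S : Set W.toAffine.Point) := rfl
    rw [h1]
    simp
  have hnT : ∀ T ∈ S, S.card • T = 0 := by
    intro T hT
    have h1 : Nat.card G • (⟨T, hT⟩ : G) = 0 := card_nsmul_eq_zero'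
    rw [hcard] at h1
    have h2 := congrArg (Subtype.val : G → W.toAffine.Point) h1
    exact h2
  have hpow : ∀ T ∈ S, ∀ n : ℕ, n • T ∈ S ∧ ub V (n • T) = ub V T ^ n := by
    intro T hT n
    induction n with
    | zero =>
      rw [zero_smul, pow_zero, ub_zero]
      exact ⟨h0, rfl⟩
    | succ n ih =>
      rw [succ_nsmul, pow_succ, ← ih.2]
      exact ⟨hadd _ ih.1 _ hT, j3c_mul h hΔ S h0 hs hF ih.1 hT⟩
  have hroot : ∀ T ∈ S, ub V T ^ S.card = 1 := by
    intro T hT
    rw [← (hpow T hT S.card).2, hnT T hT, ub_zero]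
  have hinj : Set.InjOn (fun T => ub V T) (S : Set W.toAffine.Point) :=
    fun T hT T' hT' hu => j3c_inj h S hs hF hT hT' hu
  have hic : (S.image fun T => ub V T).card = S.card := Finset.card_image_of_injOn hinj
  have hm1 : (∏ T ∈ S, (X - C (ub V T))).Monic := monic_prod_of_monic _ _ fun T _ => monic_X_sub_C _
  have hm2 : (X ^ S.card - 1 : (IsLocalRing.ResidueField V)[X]).Monic :=
    monic_X_pow_sub_C (1 : IsLocalRing.ResidueField V) hcpos.ne'
  have hd1 : (∏ T ∈ S, (X - C (ub V T))).degree = (S.card : WithBot ℕ) := by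
    rw [degree_prod]
    simp
  have hd2 : (X ^ S.card - 1 : (IsLocalRing.ResidueField V)[X]).degree = (S.card : WithBot ℕ) :=
    degree_X_pow_sub_C hcpos (1 : IsLocalRing.ResidueField V)
  refine eq_of_degree_sub_lt_of_eval_finset_eq (S.image fun T => ub V T) ?_ ?_
  · rw [hic, ← hd1]
    exact degree_sub_lt (hd1.trans hd2.symm) hm1.ne_zero (by rw [hm1.leadingCoeff, hm2.leadingCoeff])
  · intro x hx
    rw [Finset.mem_image] at hx
    obtain ⟨T, hT, rfl⟩ := hx
    rw [eval_prod, Finset.prod_eq_zero hT (by simp)]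
    simp [hroot T hT]

end H55K.JJ
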