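import Mathlib
import Pool.Agent.Lib.H55K.J0

open Polynomial

namespace H55K.JJ

/-! Chunk J4A (M, PURE ALGEBRA). From hf: for u <> 0, prod (1 - f i u) = u^c prod (u^(-1) - f i) = 1 - u^c (c = S.card; also as an identity of polynomials R(X) = prod (1 - f i X) = 1 - X^c: it holds for infinitely many u if K is infinite; or by
Polynomial.reverse; K may be assumed infinite: hK). With a_i = f i/(1 - f i u), A_k = sum a_i^k (1 - f i u <> 0 since the product is 1 - u^c <> 0), general identities for R = prod (1 - f i X) (Finset induction, evaluate derivatives at u):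
R' = -R A1, R'' = R (A1^2 - A2), R''' = -R (A1^3 - 3 A1 A2 + 2 A3). For R = 1 - X^c: R' = -c X^(c-1), R'' = -c(c-1) X^(c-2), R''' = -c(c-1)(c-2) X^(c-3) (multiply by u, u^2, u^3: no negative exponents; w = u^c). So
u A1 = c w/(1-w), u^2 A2 = (u A1)^2 + c(c-1) w/(1-w), 2 u^3 A3 = -(u A1)^3 + 3 (u A1)(u^2 A2) + c(c-1)(c-2) w/(1-w).
xu(f i u) = u a_i + u^2 a_i^2 and zu(f i u) = -(u a_i + 3 u^2 a_i^2 + 2 u^3 a_i^3). The sums: field_simp; ring. -/

theorem j4a_der {K : Type} [Field K] {ι : Type} (S : Finset ι) (f : ι → K) {v : K}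
    (hv : ∀ i ∈ S, v - f i ≠ 0) :
    eval v (derivative (∏ i ∈ S, (X - C (f i)))) =
        (∏ i ∈ S, (v - f i)) * ∑ i ∈ S, (v - f i)⁻¹ ∧
    eval v (derivative (derivative (∏ i ∈ S, (X - C (f i))))) =
        (∏ i ∈ S, (v - f i)) * ((∑ i ∈ S, (v - f i)⁻¹) ^ 2 - ∑ i ∈ S, (v - f i)⁻¹ ^ 2) ∧
    eval v (derivative (derivative (derivative (∏ i ∈ S, (X - C (f i)))))) =
        (∏ i ∈ S, (v - f i)) * ((∑ i ∈ S, (v - f i)⁻¹) ^ 3 -
          3 * (∑ i ∈ S, (v - f i)⁻¹) * (∑ i ∈ S, (v - f i)⁻¹ ^ 2) + 2 * ∑ i ∈ S, (v - f i)⁻¹ ^ 3) := by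
  classical
  induction S using Finset.induction_on with
  | empty => simp
  | insert a S ha ih =>
    have hva : v - f a ≠ 0 := hv a (Finset.mem_insert_self a S)
    obtain ⟨i1, i2, i3⟩ := ih fun i hi => hv i (Finset.mem_insert_of_mem hi)
    have i0 : eval v (∏ i ∈ S, (X - C (f i))) = ∏ i ∈ S, (v - f i) := by
      rw [eval_prod]
      simp
    set P := ∏ i ∈ S, (X - C (f i)) with hP
    have d1 : derivative ((X - C (f a)) * P) = P + (X - C (f a)) * derivative P := by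
      rw [derivative_mul, derivative_sub, derivative_X, derivative_C]
      ring
    have d2 : derivative (derivative ((X - C (f a)) * P)) =
        2 * derivative P + (X - C (f a)) * derivative (derivative P) := by
      rw [d1, derivative_add, derivative_mul, derivative_sub, derivative_X, derivative_C]
      ring
    have d3 : derivative (derivative (derivative ((X - C (f a)) * P))) =
        3 * derivative (derivative P) + (X - C (f a)) * derivative (derivative (derivative P)) := by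
      have e2 : (2 : K[X]) = C 2 := (map_ofNat C 2).symm
      rw [d2, derivative_add, derivative_mul, e2, derivative_mul, derivative_sub, derivative_X,
        derivative_C, derivative_C, ← e2]
      ring
    rw [Finset.prod_insert ha, Finset.prod_insert ha, Finset.sum_insert ha, Finset.sum_insert ha,
      Finset.sum_insert ha, ← hP, d3, d2, d1]
    simp only [eval_add, eval_mul, eval_sub, eval_X, eval_C, eval_ofNat, i0, i1, i2, i3]
    refine ⟨?_, ?_, ?_⟩
    · generalize ∑ i ∈ S, (v - f i)⁻¹ = B1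
      generalize ∏ i ∈ S, (v - f i) = Q
      field_simp
      try ring
    · generalize ∑ i ∈ S, (v - f i)⁻¹ = B1
      generalize ∑ i ∈ S, (v - f i)⁻¹ ^ 2 = B2
      generalize ∏ i ∈ S, (v - f i) = Q
      field_simp
      ring
    · generalize ∑ i ∈ S, (v - f i)⁻¹ = B1
      generalize ∑ i ∈ S, (v - f i)⁻¹ ^ 2 = B2
      generalize ∑ i ∈ S, (v - f i)⁻¹ ^ 3 = B3
      generalize ∏ i ∈ S, (v - f i) = Q
      field_simp
      ring

theorem j4a_alg {K : Type} [Field K] {v V c B1 B2 B3 : K} (hV : V - 1 ≠ 0)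
    (x1 : v * ((V - 1) * B1) = c * V) (x2 : v ^ 2 * ((V - 1) * (B1 ^ 2 - B2)) = c * (c - 1) * V)
    (x3 : v ^ 3 * ((V - 1) * (B1 ^ 3 - 3 * B1 * B2 + 2 * B3)) = c * (c - 1) * (c - 2) * V) :
    v * B1 = c * (V / (V - 1)) ∧
    v ^ 2 * B2 = (c * (V / (V - 1))) ^ 2 - c * (c - 1) * (V / (V - 1)) ∧
    2 * (v ^ 3 * B3) = c * (c - 1) * (c - 2) * (V / (V - 1)) - (c * (V / (V - 1))) ^ 3 +
      3 * (c * (V / (V - 1))) * ((c * (V / (V - 1))) ^ 2 - c * (c - 1) * (V / (V - 1))) := by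
  obtain ⟨T, hT⟩ : ∃ T, T = V / (V - 1) := ⟨_, rfl⟩
  have hTV : V = (V - 1) * T := by
    rw [hT]
    field_simp
  rw [← hT]
  have e1 : v * B1 = c * T := by
    apply mul_left_cancel₀ hV
    linear_combination x1 + c * hTV
  have e2' : v ^ 2 * (B1 ^ 2 - B2) = c * (c - 1) * T := by
    apply mul_left_cancel₀ hV
    linear_combination x2 + c * (c - 1) * hTV
  have e2 : v ^ 2 * B2 = (c * T) ^ 2 - c * (c - 1) * T := by
    rw [← e1]
    linear_combination -e2'
  have e3' : v ^ 3 * (B1 ^ 3 - 3 * B1 * B2 + 2 * B3) = c * (c - 1) * (c - 2) * T := by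
    apply mul_left_cancel₀ hV
    linear_combination x3 + c * (c - 1) * (c - 2) * hTV
  refine ⟨e1, e2, ?_⟩
  rw [← e2, ← e1]
  linear_combination e3'

theorem j4a_X {K : Type} [Field K] (n : ℕ) (v : K) :
    v * eval v (derivative (X ^ n - 1 : K[X])) = n * v ^ n ∧
    v ^ 2 * eval v (derivative (derivative (X ^ n - 1 : K[X]))) = n * (n - 1) * v ^ n ∧
    v ^ 3 * eval v (derivative (derivative (derivative (X ^ n - 1 : K[X])))) =
      n * (n - 1) * (n - 2) * v ^ n := by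
  rcases n with _ | _ | _ | n
  · simp
  · simp
  · simp
    refine ⟨?_, ?_⟩
    · ring
    · ring
  · simp
    refine ⟨?_, ?_, ?_⟩
    · ring
    · ring
    · ring

theorem j4a_main {K : Type} [Field K] {ι : Type} (S : Finset ι) (f : ι → K)
    (hf : ∏ i ∈ S, (X - C (f i)) = X ^ S.card - 1) {u : K} (hu : u ^ S.card ≠ 1) (hu0 : u ≠ 0) :
    ∃ (s : ι → K) (T : K), T ≠ 0 ∧ (∀ i ∈ S, s i ≠ 0 ∧ f i * u = (s i - 1) / s i) ∧
      u ^ S.card = (T - 1) / T ∧ ∑ i ∈ S, s i = S.card * T ∧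
      ∑ i ∈ S, s i ^ 2 = (S.card * T) ^ 2 - S.card * (S.card - 1) * T ∧
      2 * ∑ i ∈ S, s i ^ 3 = S.card * (S.card - 1) * (S.card - 2) * T - (S.card * T) ^ 3 +
        3 * (S.card * T) * ((S.card * T) ^ 2 - S.card * (S.card - 1) * T) := by
  set c := S.card with hc
  set v := u⁻¹ with hv
  have hv0 : v ≠ 0 := inv_ne_zero hu0
  have hP : ∏ i ∈ S, (v - f i) = v ^ c - 1 := by
    have := congrArg (eval v) hf
    rw [eval_prod] at this
    simpa using this
  have hvc : v ^ c - 1 ≠ 0 := by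
    rw [hv, inv_pow, sub_ne_zero]
    intro h
    apply hu
    rw [inv_eq_one] at h
    exact h
  have hne : ∀ i ∈ S, v - f i ≠ 0 := by
    intro i hi h
    apply hvc
    rw [← hP]
    exact Finset.prod_eq_zero hi h
  obtain ⟨d1, d2, d3⟩ := j4a_der S f hne
  obtain ⟨x1, x2, x3⟩ := j4a_X c v
  rw [hf, hP] at d1 d2 d3
  rw [d1] at x1
  rw [d2] at x2
  rw [d3] at x3
  have hT : v ^ c / (v ^ c - 1) ≠ 0 := div_ne_zero (pow_ne_zero _ hv0) hvc
  obtain ⟨e1, e2, e3⟩ := j4a_alg hvc x1 x2 x3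
  refine ⟨fun i => v * (v - f i)⁻¹, v ^ c / (v ^ c - 1), hT, ?_, ?_, ?_, ?_, ?_⟩
  · intro i hi
    have h := hne i hi
    refine ⟨mul_ne_zero hv0 (inv_ne_zero h), ?_⟩
    have : u = v⁻¹ := by rw [hv, inv_inv]
    rw [this]
    field_simp
    ring
  · have : u = v⁻¹ := by rw [hv, inv_inv]
    rw [this, inv_pow]
    have hvn : v ^ c ≠ 0 := pow_ne_zero _ hv0
    field_simp
    ring
  · rw [← Finset.mul_sum]
    exact e1
  · rw [← e2, Finset.mul_sum]
    exact Finset.sum_congr rfl fun i _ => by ring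
  · rw [← e3, Finset.mul_sum (a := v ^ 3)]
    congr 1
    exact Finset.sum_congr rfl fun i _ => by ring

theorem j4a_xu {K : Type} [Field K] {s : K} (hs : s ≠ 0) : xu ((s - 1) / s) = s ^ 2 - s := by
  have h : (s - 1) / s - 1 = -(1 / s) := by field_simp; ring
  unfold xu
  rw [h]
  field_simp

theorem j4a_zu {K : Type} [Field K] {s : K} (hs : s ≠ 0) :
    zu ((s - 1) / s) = -(2 * s ^ 3 - 3 * s ^ 2 + s) := by
  have h : (s - 1) / s - 1 = -(1 / s) := by field_simp; ring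
  unfold zu
  rw [h]
  field_simp
  ring

theorem j4a_pos {K : Type} [Field K] {ι : Type} {S : Finset ι} {u : K} (hu : u ^ S.card ≠ 1) :
    S.card ≠ 0 := by
  intro h
  rw [h, pow_zero] at hu
  exact hu rfl

theorem sum_xu {K : Type} [Field K] [Infinite K] {ι : Type} (S : Finset ι) (f : ι → K)
    (hf : ∏ i ∈ S, (X - C (f i)) = X ^ S.card - 1) {u : K} (hu : u ^ S.card ≠ 1) :
    ∑ i ∈ S, xu (f i * u) = (S.card : K) ^ 2 * xu (u ^ S.card) := by
  by_cases hu0 : u = 0
  · subst hu0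
    rw [zero_pow (j4a_pos hu)]
    simp [xu]
  obtain ⟨s, T, hT, hs, hw, s1, s2, -⟩ := j4a_main S f hf hu hu0
  rw [hw, j4a_xu hT]
  have : ∀ i ∈ S, xu (f i * u) = s i ^ 2 - s i := by
    intro i hi
    rw [(hs i hi).2, j4a_xu (hs i hi).1]
  rw [Finset.sum_congr rfl this, Finset.sum_sub_distrib, s1, s2]
  ring

theorem sum_zu {K : Type} [Field K] [Infinite K] {ι : Type} (S : Finset ι) (f : ι → K)
    (hf : ∏ i ∈ S, (X - C (f i)) = X ^ S.card - 1) {u : K} (hu : u ^ S.card ≠ 1) :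
    ∑ i ∈ S, zu (f i * u) = (S.card : K) ^ 3 * zu (u ^ S.card) := by
  by_cases hu0 : u = 0
  · subst hu0
    rw [zero_pow (j4a_pos hu)]
    simp [zu]
  obtain ⟨s, T, hT, hs, hw, s1, s2, s3⟩ := j4a_main S f hf hu hu0
  rw [hw, j4a_zu hT]
  have : ∀ i ∈ S, zu (f i * u) = -(2 * s i ^ 3 - 3 * s i ^ 2 + s i) := by
    intro i hi
    rw [(hs i hi).2, j4a_zu (hs i hi).1]
  rw [Finset.sum_congr rfl this, Finset.sum_neg_distrib, Finset.sum_add_distrib,
    Finset.sum_sub_distrib, ← Finset.mul_sum, ← Finset.mul_sum, s1, s2, s3]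
  ring

end H55K.JJ
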