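import Mathlib
import Pool.Agent.Lib.H55K.J0

open Polynomial

namespace H55K.JJ

/-! Chunk J4B (S/M, PURE ALGEBRA). zu_sq: (zu u)^2 = 4 (xu u)^3 + (xu u)^2 (field_simp, ring). xu_inj: cross multiply, (u - w)(u w - 1) = 0. compare: for w in the infinite set put x = xu w; multiply hX by β^(-2): X = (c^2 x + δ)/β^2;
β^6 Z^2 = c^6 (zu w)^2 = c^6 (4 x^3 + x^2), and β^6 Z^2 = β^6 (4 X^3 + X^2) = 4 (c^2 x + δ)^3 + β^2 (c^2 x + δ)^2. So the polynomial 4 (c^2 T + δ)^3 + β^2 (c^2 T + δ)^2 - c^6 (4 T^3 + T^2) vanishes at infinitely many T = xu w (xu is at most 2 to 1: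
xu_inj), so its coefficients are 0: T^0: 4 δ^3 + β^2 δ^2 = 0; T^1: 12 c^2 δ^2 + 2 β^2 c^2 δ = 0; T^2: 12 c^4 δ + β^2 c^4 = c^6. If δ <> 0: 4 δ = -β^2 and 12 δ = -2 β^2, so β^2 = 0: contradiction. δ = 0 and β^2 = c^2. -/

theorem zu_sq {K : Type} [Field K] {u : K} (hu : u ≠ 1) : zu u ^ 2 = 4 * xu u ^ 3 + xu u ^ 2 := by
  have h : u - 1 ≠ 0 := sub_ne_zero.2 hu
  unfold zu xu
  field_simp
  ring

theorem xu_inj {K : Type} [Field K] {u w : K} (h0 : u ≠ 1) (h1 : w ≠ 1) (h : xu u = xu w) :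
    u = w ∨ u * w = 1 := by
  have hu : u - 1 ≠ 0 := sub_ne_zero.2 h0
  have hw : w - 1 ≠ 0 := sub_ne_zero.2 h1
  unfold xu at h
  rw [div_eq_div_iff (pow_ne_zero 2 hu) (pow_ne_zero 2 hw)] at h
  have h2 : (u - w) * (u * w - 1) = 0 := by linear_combination -h
  rcases mul_eq_zero.1 h2 with h3 | h3
  · exact Or.inl (sub_eq_zero.1 h3)
  · exact Or.inr (sub_eq_zero.1 h3)

theorem compare {K : Type} [Field K] {β c δ : K} (hβ : β ≠ 0) (hc : c ≠ 0) {I : Set K} (hI : I.Infinite)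
    (h : ∀ w ∈ I, w ≠ 0 ∧ w ≠ 1 ∧ ∃ x z : K, z ^ 2 = 4 * x ^ 3 + x ^ 2 ∧ β ^ 2 * x = c ^ 2 * xu w + δ ∧
      β ^ 3 * z = c ^ 3 * zu w) : δ = 0 ∧ β ^ 2 = c ^ 2 := by
  have hT : (xu '' I).Infinite := by
    intro hf
    apply hI
    refine Set.Finite.of_finite_fibers xu hf ?_
    rintro x ⟨w0, hw0, rfl⟩
    refine Set.Finite.subset (Set.toFinite {w0, w0⁻¹}) ?_
    rintro w ⟨hw, hx⟩
    have hx' : xu w = xu w0 := hx
    rcases xu_inj (h w hw).2.1 (h w0 hw0).2.1 hx' with h1 | h1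
    · left; exact h1
    · right; exact eq_inv_of_mul_eq_one_left h1
  set a2 : K := 12 * c ^ 4 * δ + β ^ 2 * c ^ 4 - c ^ 6 with ha2
  set a1 : K := 12 * c ^ 2 * δ ^ 2 + 2 * β ^ 2 * c ^ 2 * δ with ha1
  set a0 : K := 4 * δ ^ 3 + β ^ 2 * δ ^ 2 with ha0
  have hG : (C a2 * X ^ 2 + C a1 * X + C a0 : K[X]) = 0 := by
    apply Polynomial.eq_zero_of_infinite_isRoot
    refine hT.mono ?_
    rintro t ⟨w, hw, rfl⟩
    obtain ⟨hw0, hw1, x, z, hz, hx, hy⟩ := h w hw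
    have hsq := zu_sq hw1
    show IsRoot _ _
    simp only [IsRoot.def, eval_add, eval_mul, eval_C, eval_X, eval_pow]
    rw [ha2, ha1, ha0]
    have e1 : β ^ 6 * z ^ 2 = c ^ 6 * (4 * xu w ^ 3 + xu w ^ 2) := by
      rw [← hsq]
      linear_combination (β ^ 3 * z + c ^ 3 * zu w) * hy
    have e2 : β ^ 6 * z ^ 2 = 4 * (c ^ 2 * xu w + δ) ^ 3 + β ^ 2 * (c ^ 2 * xu w + δ) ^ 2 := by
      rw [hz, ← hx]
      ring
    linear_combination e1 - e2
  have c0 : a0 = 0 := by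
    have := congrArg (fun p => coeff p 0) hG
    simpa using this
  have c1 : a1 = 0 := by
    have := congrArg (fun p => coeff p 1) hG
    simpa [coeff_C, coeff_X_pow] using this
  have c2 : a2 = 0 := by
    have := congrArg (fun p => coeff p 2) hG
    simpa [coeff_C, coeff_X] using this
  have hδ : δ = 0 := by
    by_contra hd
    have e0 : 4 * δ + β ^ 2 = 0 := by
      have : δ ^ 2 * (4 * δ + β ^ 2) = 0 := by rw [← c0, ha0]; ring
      exact (mul_eq_zero.1 this).resolve_left (pow_ne_zero 2 hd)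
    have e1 : β ^ 2 * (δ * c ^ 2) = 0 := by
      linear_combination 3 * δ * c ^ 2 * e0 - c1
    exact mul_ne_zero (pow_ne_zero 2 hβ) (mul_ne_zero hd (pow_ne_zero 2 hc)) e1
  refine ⟨hδ, ?_⟩
  have : c ^ 4 * (β ^ 2 - c ^ 2) = 0 := by
    rw [ha2, hδ] at c2
    linear_combination c2
  exact sub_eq_zero.1 ((mul_eq_zero.1 this).resolve_left (pow_ne_zero 4 hc))

end H55K.JJ
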