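import Mathlib
import Pool.Agent.Lib.H55K.J3B
import Pool.Agent.Lib.H55K.J5

open NumberField WeierstrassCurve

namespace H55K.JJ

open H55P (IQ embF eF LF Per Pt ac Nm)
open H35P (WAB Ker IntW)

variable {F : Type} [Field F] [NumberField F] [IQ F] {A B : F} {Om : ℂ} {Ω : Type} [Field Ω] [DecidableEq Ω]
  [Algebra F Ω] [IsAlgClosed Ω] {j : Ω →+* ℂ} {act : 𝓞 F →+* AddMonoid.End (Pt (WAB A B) Ω)} {V : ValuationSubring Ω}
  {W' : WeierstrassCurve Ω} {u : Ω} {Θ : Pt (WAB A B) Ω ≃+ W'.toAffine.Point}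

/-! Chunk J6 (M). unit_b: ak b * ak (cj b) = Nm b (mul_cj) has value 1 and both factors have value ≤ 1 (integers are integral: see k0_int in K0A.lean or ak_le). gen_pt: for w outside a finite set of residues: T in insert 0 S with E0 (Θ T) is 0 or Fn
(tor_out, e0_iff); choose P with ub (Θ P) = w (ex_fn; P = Θ.symm of the point): for such T <> 0: w * ub (Θ T) <> 1, so Fn (Θ (P + T)) (ub_mul); for T not in E0: Θ (P + T) is not in E0 (e0_add_out), so not in Ker (e0_iff).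
kap_int: κ = (β^2 - 1)/12, β = ak b. Take P from gen_pt (S from TN): P + T not in Ker for all T in insert 0 S, so m_e1x: β^2 x(bP) = s - κ with s = x(P) + sum (x(P+T) - x(T)) in V (int_ker, tor_out), and β^3 z(bP) =: t in V, z = 2y + x. (act b P <> 0: otherwise
-P is in S and P + (-P) = 0 is in Ker.) Suppose V(κ) > 1. X = x(bP): V(X) = V(κ) > 1. z^2 = X^2 (4X + 1) + 4 a4 X + 4 a6 (the equation), V(z) ≤ 1, V(4 a4 X + 4 a6) ≤ V(X): so V(X^2 (4X + 1)) ≤ V(X), V(4X + 1) < 1. β^2 (4X + 1) = 4s - 4κ + β^2 and 12 κ = β^2 - 1, so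
3 β^2 (4X+1) = 12 s - (β^2 - 1) + 3 β^2 = 12 s + 2 β^2 + 1. V(12) < 1 (as V(κ) > 1, β^2 - 1 in V). So V(2β^2 + 1) < 1 (from V(3β^2(4X+1)) < 1, V(12 s) < 1). If V(2) < 1: V(2β^2+1) = 1, contradiction. So V(2) = 1, V(3) < 1; 4X + 1: V(4X) = V(X) > 1
so V(4X + 1) > 1: contradiction. -/

theorem j6_ak {F : Type} [Field F] {Ω : Type} [Field Ω] [Algebra F Ω] (V : ValuationSubring Ω) (a : 𝓞 F) :
    V.valuation (ak Ω a) ≤ 1 := by
  rw [V.valuation_le_one_iff]
  have h1 : IsIntegral ℤ (ak Ω a) := by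
    have h2 : IsIntegral ℤ (a : F) := RingOfIntegers.isIntegral_coe a
    exact h2.map ((algebraMap F Ω).toIntAlgHom)
  have h3 : IsIntegral V (ak Ω a) := h1.tower_top
  obtain ⟨y, hy⟩ := IsIntegrallyClosed.isIntegral_iff.1 h3
  rw [← hy]
  exact y.2

theorem unit_b (h : CMA F A B Om j act) {b : 𝓞 F} (hb : V.valuation ((Nm b : ℕ) : Ω) = 1) :
    b ≠ 0 ∧ V.valuation (ak Ω b) = 1 := by
  have hinj := (algebraMap F Ω).injective
  have hb0 : b ≠ 0 := by
    rintro rfl
    have h1 : Nm (0 : 𝓞 F) = 0 := H55P.Nm_eq_zero.2 rfl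
    rw [h1, Nat.cast_zero, map_zero] at hb
    exact zero_ne_one hb
  refine ⟨hb0, ?_⟩
  have h1 : ak Ω b * ak Ω (cj b) = ((Nm b : ℕ) : Ω) := by
    have h2 := congrArg (fun z : 𝓞 F => ak Ω z) (mul_cj b)
    simp only [ak, map_mul, map_natCast] at h2
    exact h2
  rw [← h1, map_mul] at hb
  have h2 := j6_ak V b
  have h3 := j6_ak V (cj b)
  exact le_antisymm h2 (by
    by_contra h4
    push Not at h4
    have h5 : V.valuation (ak Ω b) * V.valuation (ak Ω (cj b)) < 1 := mul_lt_one_of_lt_of_le h4 h3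
    exact h5.ne hb)

theorem gen_pt (h : CMA F A B Om j act) (hM : Md A B V W' u Θ) {b : 𝓞 F} (hb : V.valuation ((Nm b : ℕ) : Ω) = 1)
    {S : Finset (Pt (WAB A B) Ω)} (hS : TN act b S) : ∃ Z : Set (IsLocalRing.ResidueField V), Z.Finite ∧
    ∀ P : Pt (WAB A B) Ω, Fn V (Θ P) → ub V (Θ P) ∉ Z → act b P ≠ 0 ∧ ∀ T ∈ S, ¬ Ker V (Θ (P + T)) ∧
      (E0 V (Θ T) → Fn V (Θ (P + T)) ∧ ub V (Θ (P + T)) = ub V (Θ T) * ub V (Θ P)) ∧
      (¬ E0 V (Θ T) → ¬ E0 V (Θ (P + T))) := by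
  classical
  refine ⟨((insert 0 S : Finset (Pt (WAB A B) Ω)).image fun T => (ub V (Θ T))⁻¹ :
    Finset (IsLocalRing.ResidueField V)), Finset.finite_toSet _, ?_⟩
  intro P hP hZ
  have hZ' : ∀ T ∈ S, ub V (Θ T) * ub V (Θ P) ≠ 1 := by
    intro T hT h1
    apply hZ
    rw [Finset.mem_coe, Finset.mem_image]
    exact ⟨T, Finset.mem_insert_of_mem hT, (eq_inv_of_mul_eq_one_right h1).symm⟩
  obtain ⟨u1, u2, u3, -⟩ := fn_ub hM.nod hP
  have hP0 : P ≠ 0 := by
    rintro rfl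
    rw [map_zero] at hP
    exact (fn_crd hM.nod hP).1 rfl
  refine ⟨?_, ?_⟩
  · intro h1
    have h2 : -P ∈ S := by
      rw [hS]
      refine ⟨?_, neg_ne_zero.2 hP0⟩
      rw [map_neg, h1, neg_zero]
    apply hZ' _ h2
    rw [map_neg, (fn_neg hM.nod hP).2]
    exact inv_mul_cancel₀ u2
  · intro T hT
    obtain ⟨t1, t2⟩ := (hS T).1 hT
    have hTk : ¬ Ker V (Θ T) := tor_out h hM hb t1 t2
    have hEP : E0 V (Θ P) := e0_iff.2 (Or.inr hP)
    by_cases hE : E0 V (Θ T)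
    · have hF : Fn V (Θ T) := (e0_iff.1 hE).resolve_left hTk
      have h1 := ub_mul hM.nod hM.ell hP hF (by rw [mul_comm]; exact hZ' T hT)
      rw [map_add]
      refine ⟨ker_fn h1.1, fun _ => ⟨h1.1, ?_⟩, fun h2 => absurd hE h2⟩
      rw [h1.2, mul_comm]
    · have h1 := e0_add_out hM.nod hEP hE
      rw [map_add]
      exact ⟨fun h2 => h1 (e0_iff.2 (Or.inl h2)), fun h2 => absurd h2 hE, fun _ => h1⟩

theorem j6_eq {k : Type} [Field k] [DecidableEq k] {W : WeierstrassCurve k} {V : ValuationSubring k} (h : Nod W V)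
    {P : W.toAffine.Point} (hP : P ≠ 0) :
    (2 * yc P + xc P) ^ 2 = xc P ^ 2 * (4 * xc P + 1) + (4 * W.a₄ * xc P + 4 * W.a₆) := by
  rcases P with _ | ⟨x, y, hxy⟩
  · exact absurd rfl hP
  · show (2 * y + x) ^ 2 = x ^ 2 * (4 * x + 1) + (4 * W.a₄ * x + 4 * W.a₆)
    have hE := (Affine.equation_iff _ _).1 hxy.1
    rw [h.a1, h.a2, h.a3] at hE
    linear_combination 4 * hE

theorem j6_main {k : Type} [Field k] [CharZero k] (V : ValuationSubring k) {β X y s t a c : k}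
    (hβ : V.valuation β = 1) (hs : V.valuation s ≤ 1) (ht : V.valuation t ≤ 1) (ha : V.valuation a < 1)
    (hc : V.valuation c < 1) (hx : β ^ 2 * X = s - (β ^ 2 - 1) / 12) (hz : β ^ 3 * (2 * y + X) = t)
    (hE : (2 * y + X) ^ 2 = X ^ 2 * (4 * X + 1) + (4 * a * X + 4 * c)) : (β ^ 2 - 1) / 12 ∈ V := by
  rw [← V.valuation_le_one_iff]
  by_contra hκ
  push Not at hκ
  have n1 : ∀ n : ℕ, V.valuation (n : k) ≤ 1 := fun n => (V.valuation_le_one_iff _).2 (natCast_mem V n)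
  have v2 : V.valuation (2 : k) ≤ 1 := by exact_mod_cast n1 2
  have v3 : V.valuation (3 : k) ≤ 1 := by exact_mod_cast n1 3
  have v4 : V.valuation (4 : k) ≤ 1 := by exact_mod_cast n1 4
  have v12 : V.valuation (12 : k) ≤ 1 := by exact_mod_cast n1 12
  have hX : 1 < V.valuation X := by
    have h1 : V.valuation (β ^ 2 * X) = V.valuation X := by rw [map_mul, map_pow, hβ, one_pow, one_mul]
    have h2 : V.valuation (s - (β ^ 2 - 1) / 12) = V.valuation ((β ^ 2 - 1) / 12) :=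
      Valuation.map_sub_eq_of_lt_right _ (hs.trans_lt hκ)
    rw [← h1, hx, h2]
    exact hκ
  have hzle : V.valuation (2 * y + X) ≤ 1 := by
    have h1 : V.valuation (β ^ 3 * (2 * y + X)) = V.valuation (2 * y + X) := by
      rw [map_mul, map_pow, hβ, one_pow, one_mul]
    rw [← h1, hz]
    exact ht
  have h4X : V.valuation (4 * X + 1) < 1 := by
    have e1 : X ^ 2 * (4 * X + 1) = (2 * y + X) ^ 2 - (4 * a * X + 4 * c) := by rw [hE]; ring
    have b1 : V.valuation ((2 * y + X) ^ 2) ≤ V.valuation X := by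
      rw [map_pow]
      exact (pow_le_one' hzle 2).trans hX.le
    have b2 : V.valuation (4 * a * X + 4 * c) ≤ V.valuation X := by
      apply Valuation.map_add_le
      · rw [map_mul, map_mul]
        exact mul_le_of_le_one_left' (mul_le_one' v4 ha.le)
      · rw [map_mul]
        exact (mul_le_one' v4 hc.le).trans hX.le
    have b3 : V.valuation (X ^ 2 * (4 * X + 1)) ≤ V.valuation X := by
      rw [e1]
      exact Valuation.map_sub_le _ b1 b2
    have hX0 : V.valuation X ≠ 0 := (zero_lt_one.trans hX).ne'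
    by_contra h1
    push Not at h1
    have h2 : V.valuation X < V.valuation (X ^ 2 * (4 * X + 1)) := by
      rw [map_mul, map_pow, sq]
      calc V.valuation X = V.valuation X * 1 := (mul_one _).symm
        _ < V.valuation X * V.valuation X := by
            exact (mul_lt_mul_iff_right₀ (zero_lt_one.trans hX)).2 hX
        _ = V.valuation X * V.valuation X * 1 := (mul_one _).symm
        _ ≤ V.valuation X * V.valuation X * V.valuation (4 * X + 1) := mul_le_mul' le_rfl h1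
    exact absurd b3 (not_le.2 h2)
  have h4 : V.valuation (4 : k) < 1 := by
    have h1 : V.valuation (4 * X) ≤ 1 := by
      have h2 : (4 : k) * X = (4 * X + 1) - 1 := by ring
      rw [h2]
      exact Valuation.map_sub_le _ h4X.le (map_one _).le
    by_contra h3
    push Not at h3
    rw [map_mul] at h1
    have h5 : 1 < V.valuation (4 : k) * V.valuation X := lt_of_lt_of_le hX (le_mul_of_one_le_left' h3)
    exact absurd h1 (not_le.2 h5)
  have h2 : V.valuation (2 : k) < 1 := by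
    by_contra h3
    have h5 : V.valuation (2 : k) = 1 := le_antisymm v2 (not_lt.1 h3)
    have h6 : (4 : k) = 2 * 2 := by norm_num
    rw [h6, map_mul, h5, one_mul] at h4
    exact lt_irrefl _ h4
  have h12 : V.valuation (12 : k) < 1 := by
    have h6 : (12 : k) = 4 * 3 := by norm_num
    rw [h6, map_mul]
    exact mul_lt_one_of_lt_of_le h4 v3
  have hfin : V.valuation (1 : k) < 1 := by
    have e1 : (1 : k) = 3 * β ^ 2 * (4 * X + 1) - (12 * s + 2 * β ^ 2) := by
      linear_combination (-12) * hx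
    rw [e1]
    have w1 : V.valuation (β ^ 2) = 1 := by rw [map_pow, hβ, one_pow]
    apply Valuation.map_sub_lt
    · rw [map_mul, map_mul, w1, mul_one]
      rw [mul_comm]
      exact mul_lt_one_of_lt_of_le h4X v3
    · apply Valuation.map_add_lt
      · rw [map_mul]
        exact mul_lt_one_of_lt_of_le h12 hs
      · rw [map_mul, w1, mul_one]
        exact h2
  rw [map_one] at hfin
  exact lt_irrefl _ hfin

theorem kap_int (h : CMA F A B Om j act) (hM : Md A B V W' u Θ) {b : 𝓞 F} (hb : V.valuation ((Nm b : ℕ) : Ω) = 1)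
    {S : Finset (Pt (WAB A B) Ω)} (hS : TN act b S) : (ak Ω b ^ 2 - 1) / 12 ∈ V := by
  classical
  have : CharZero Ω := charZero_of_injective_algebraMap (algebraMap F Ω).injective
  obtain ⟨hb0, hβ⟩ := unit_b h hb
  obtain ⟨Z, hZf, hZ⟩ := gen_pt h hM hb hS
  obtain ⟨P, hP, hPZ⟩ : ∃ P : Pt (WAB A B) Ω, Fn V (Θ P) ∧ ub V (Θ P) ∉ Z := by
    have := res_inf V
    have h1 : (Z ∪ {0, 1}).Finite := hZf.union (Set.toFinite _)
    obtain ⟨w, hw⟩ := h1.infinite_compl.nonempty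
    rw [Set.mem_compl_iff, Set.mem_union, not_or, Set.mem_insert_iff, Set.mem_singleton_iff, not_or] at hw
    obtain ⟨P', p1, p2⟩ := ex_fn hM.nod hM.ell hw.2.1 hw.2.2
    refine ⟨Θ.symm P', ?_, ?_⟩
    · rw [AddEquiv.apply_symm_apply]
      exact p1
    · rw [AddEquiv.apply_symm_apply, p2]
      exact hw.1
  obtain ⟨hbP, hT⟩ := hZ P hP hPZ
  obtain ⟨c1, c2, c3, -⟩ := fn_crd hM.nod hP
  have hx := m_e1x h hM hb0 hS hbP
  have hz := m_e1z h hM hb0 hS hbP
  set β := ak Ω b with hβd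
  set X := xc (Θ (act b P)) with hX
  set y := yc (Θ (act b P)) with hy
  have hs : xc (Θ P) + ∑ T ∈ S, (xc (Θ (P + T)) - xc (Θ T)) ∈ V := by
    refine V.add_mem _ _ c2 (sum_mem fun T hTS => ?_)
    obtain ⟨t1, t2⟩ := (hS T).1 hTS
    exact V.sub_mem (int_ker hM.nod (hT T hTS).1).2.1 (int_ker hM.nod (tor_out h hM hb t1 t2)).2.1
  have ht : 2 * yc (Θ P) + xc (Θ P) + ∑ T ∈ S, (2 * yc (Θ (P + T)) + xc (Θ (P + T))) ∈ V := by
    have h2 : (2 : Ω) ∈ V := by exact_mod_cast natCast_mem V 2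
    refine V.add_mem _ _ (V.add_mem _ _ (V.mul_mem _ _ h2 c3) c2) (sum_mem fun T hTS => ?_)
    obtain ⟨-, e1, e2⟩ := int_ker hM.nod (hT T hTS).1
    exact V.add_mem _ _ (V.mul_mem _ _ h2 e2) e1
  set s := xc (Θ P) + ∑ T ∈ S, (xc (Θ (P + T)) - xc (Θ T)) with hsd
  set t := 2 * yc (Θ P) + xc (Θ P) + ∑ T ∈ S, (2 * yc (Θ (P + T)) + xc (Θ (P + T))) with htd
  have hne : Θ (act b P) ≠ 0 := fun h1 => hbP (by rwa [map_eq_zero_iff _ Θ.injective] at h1)
  have hE := j6_eq hM.nod hne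
  rw [← hX, ← hy] at hE
  have hx' : β ^ 2 * X = s - (β ^ 2 - 1) / 12 := by
    rw [hsd]
    linear_combination hx
  exact j6_main V hβ ((V.valuation_le_one_iff _).2 hs) ((V.valuation_le_one_iff _).2 ht) hM.nod.a4 hM.nod.a6
    hx' hz hE

end H55K.JJ
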