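import Mathlib
import Pool.Agent.Lib.H55K.J3C
import Pool.Agent.Lib.H55K.J4A
import Pool.Agent.Lib.H55K.J4B
import Pool.Agent.Lib.H55K.J6

set_option autoImplicit false

/-! Chunk J7 (M). S₀ = the T in insert 0 S with E0 (Θ T); S' = its image under Θ: 0 in S', closed under differences (E[b] is a group, e0_add, e0_neg), nonzero elements are Fn (tor_out, e0_iff). ub_prod: with c = S₀.card:
product over T in S₀ of (X - C (ub (Θ T))) = X^c - 1 (Finset.prod_map / prod_image). V(c) = 1: c divides the order of the group E[b], which is Nm b (c divides Nm b: card of a subgroup; S.card + 1 = Nm b: exists_TN / tor_card, or: S.card + 1 divides a power of Nm b...;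
SIMPLER: 1 - X^c separable is not needed; needed is only (c : residue field) <> 0: the c-th roots ub(Θ T) are c different roots of X^c - 1 in a field, so X^c - 1 has no multiple root, so c <> 0 in the field (otherwise its derivative is 0 and 1 is a multiple
root if c ≥ 2)). Z from gen_pt, enlarged by the roots of w^c = 1. For P with ub (Θ P) not in Z: residues of m_e1x, m_e1z (kap_int; all terms integral; β = rs (ak b) <> 0 by unit_b): for T not in E0 the coordinates of Θ T, Θ (P + T) have residue 0 (nod_out); for T in E0, T <> 0: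
rs x(P + T) = xu (ub (Θ T) * ub (Θ P)) (fn_ub). So β^2 X = sum over S₀ of xu (ub (Θ T) w) + δ = c^2 xu (w^c) + δ, δ = - sum over S₀ - 0 of rs x(T) - rs((β^2-1)/12) independent of P, w = ub (Θ P), X = rs x(bP) (x(bP) in V by m_e1x: β is a unit;
y(bP) in V by H35P.int_y), β^3 Z' = c^3 zu (w^c), Z' = rs (2 y + x)(bP), Z'^2 = 4 X^3 + X^2 (z_sq, act b P <> 0) (sum_xu, sum_zu, res_inf). compare (I = the w^c for w not in Z, w <> 0: infinite since w -> w^c has finite fibres): δ = 0, β^2 = c^2,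
so X = xu (w^c). -/

open NumberField WeierstrassCurve

namespace H55K.JJ

open H55P (IQ embF eF LF Per Pt ac Nm)
open H35P (WAB Ker IntW)

variable {F : Type} [Field F] [NumberField F] [IQ F] {A B : F} {Om : ℂ} {Ω : Type} [Field Ω] [DecidableEq Ω]
  [Algebra F Ω] [IsAlgClosed Ω] {j : Ω →+* ℂ} {act : 𝓞 F →+* AddMonoid.End (Pt (WAB A B) Ω)} {V : ValuationSubring Ω}
  {W' : WeierstrassCurve Ω} {u : Ω} {Θ : Pt (WAB A B) Ω ≃+ W'.toAffine.Point}

theorem j7_not_ker {k : Type} [Field k] [DecidableEq k] {W : WeierstrassCurve k}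
    {V : ValuationSubring k} {P : W.toAffine.Point} (h0 : P ≠ 0) (hx : xc P ∈ V) :
    ¬ Ker V P := by
  cases P with
  | zero => exact fun _ => h0 rfl
  | some x y hP =>
    intro h
    have h1 : V.valuation x ≤ 1 := (V.valuation_le_one_iff x).2 hx
    exact absurd h (not_lt.mpr h1)

theorem j7_inj (h : CMA F A B Om j act) (hM : Md A B V W' u Θ) {b : 𝓞 F}
    (hb : V.valuation ((Nm b : ℕ) : Ω) = 1) {T T' : Pt (WAB A B) Ω} (hT : act b T = 0)
    (hT' : act b T' = 0) (h1 : E0 V (Θ T)) (h2 : E0 V (Θ T'))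
    (hu : ub V (Θ T) = ub V (Θ T')) : T = T' := by
  have hfn : ∀ R, act b R = 0 → E0 V (Θ R) → R ≠ 0 → Fn V (Θ R) := by
    intro R hR hE hR0
    rcases e0_iff.1 hE with hk | hf
    · exact absurd hk (tor_out h hM hb hR hR0)
    · exact hf
  by_cases h0 : T = 0
  · by_cases h0' : T' = 0
    · rw [h0, h0']
    · have hf := hfn T' hT' h2 h0'
      rw [h0, map_zero, ub_zero] at hu
      exact absurd hu.symm (fn_ub hM.nod hf).2.2.1
  · have hf := hfn T hT h1 h0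
    by_cases h0' : T' = 0
    · rw [h0', map_zero, ub_zero] at hu
      exact absurd hu (fn_ub hM.nod hf).2.2.1
    · have hf' := hfn T' hT' h2 h0'
      have hk := rd_fn hM.nod hf hf' hu
      rw [← map_sub] at hk
      by_contra hne
      exact tor_out h hM hb (T := T - T') (by rw [map_sub, hT, hT', sub_zero])
        (sub_ne_zero.2 hne) hk

open Polynomial in
theorem j7_set (h : CMA F A B Om j act) (hM : Md A B V W' u Θ) {b : 𝓞 F}
    (hb : V.valuation ((Nm b : ℕ) : Ω) = 1) {S : Finset (Pt (WAB A B) Ω)} (hS : TN act b S) :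
    ∃ S₀ : Finset (Pt (WAB A B) Ω), (∀ T, T ∈ S₀ ↔ act b T = 0 ∧ E0 V (Θ T)) ∧
      (∏ T ∈ S₀, (X - C (ub V (Θ T))) = X ^ S₀.card - 1) ∧
      ((S₀.card : IsLocalRing.ResidueField V) ≠ 0) := by
  classical
  set S₀ : Finset (Pt (WAB A B) Ω) := (insert 0 S).filter (fun T => E0 V (Θ T)) with hS₀
  have hmem : ∀ T, T ∈ S₀ ↔ act b T = 0 ∧ E0 V (Θ T) := by
    intro T
    rw [hS₀, Finset.mem_filter, Finset.mem_insert, hS T]
    constructor
    · rintro ⟨h1 | h1, h2⟩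
      · exact ⟨by rw [h1, map_zero], h2⟩
      · exact ⟨h1.1, h2⟩
    · rintro ⟨h1, h2⟩
      refine ⟨?_, h2⟩
      by_cases h0 : T = 0
      · exact Or.inl h0
      · exact Or.inr ⟨h1, h0⟩
  have hprod : ∏ T ∈ S₀, (X - C (ub V (Θ T))) = X ^ S₀.card - 1 := by
    have h1 := ub_prod hM.nod hM.ell (S₀.image Θ) (by
        rw [Finset.mem_image]
        exact ⟨0, (hmem 0).2 ⟨map_zero _, by rw [map_zero]; exact Or.inl rfl⟩, map_zero _⟩) (by
        intro T hT T' hT'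
        rw [Finset.mem_image] at hT hT' ⊢
        obtain ⟨t, ht, rfl⟩ := hT
        obtain ⟨t', ht', rfl⟩ := hT'
        rw [hmem] at ht ht'
        refine ⟨t - t', (hmem _).2 ⟨by rw [map_sub, ht.1, ht'.1, sub_zero], ?_⟩, map_sub _ _ _⟩
        rw [map_sub, sub_eq_add_neg]
        exact e0_add hM.nod ht.2 (e0_neg.2 ht'.2)) (by
        intro T hT hT0
        rw [Finset.mem_image] at hT
        obtain ⟨t, ht, rfl⟩ := hT
        rw [hmem] at ht
        rcases e0_iff.1 ht.2 with hk | hf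
        · exact absurd hk (tor_out h hM hb ht.1 (fun h0 => hT0 (by rw [h0, map_zero])))
        · exact hf)
    rw [Finset.prod_image (fun x _ y _ hxy => Θ.injective hxy),
      Finset.card_image_of_injective _ Θ.injective] at h1
    exact h1
  refine ⟨S₀, hmem, hprod, ?_⟩
  rw [← X_pow_sub_one_separable_iff, ← hprod, separable_prod_X_sub_C_iff']
  intro T hT T' hT' hu
  rw [hmem] at hT hT'
  exact j7_inj h hM hb hT.1 hT'.1 hT.2 hT'.2 hu

open Polynomial in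
theorem j7_fin {K : Type} [Field K] {c : ℕ} (hc : 0 < c) (w : K) : {x : K | x ^ c = w}.Finite := by
  classical
  refine (Finset.finite_toSet (nthRoots c w).toFinset).subset ?_
  intro x hx
  rw [Finset.mem_coe, Multiset.mem_toFinset, mem_nthRoots hc]
  exact hx

/-- the residues of the two identities, for a generic point -/
theorem j7_res (h : CMA F A B Om j act) (hM : Md A B V W' u Θ) {b : 𝓞 F}
    (hb : V.valuation ((Nm b : ℕ) : Ω) = 1) {S S₀ : Finset (Pt (WAB A B) Ω)} (hS : TN act b S)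
    (hmem : ∀ T, T ∈ S₀ ↔ act b T = 0 ∧ E0 V (Θ T)) {P : Pt (WAB A B) Ω} (hP : Fn V (Θ P))
    (hbP : act b P ≠ 0)
    (hg : ∀ T ∈ S, ¬ Ker V (Θ (P + T)) ∧
      (E0 V (Θ T) → Fn V (Θ (P + T)) ∧ ub V (Θ (P + T)) = ub V (Θ T) * ub V (Θ P)) ∧
      (¬ E0 V (Θ T) → ¬ E0 V (Θ (P + T)))) :
    xc (Θ (act b P)) ∈ V ∧ yc (Θ (act b P)) ∈ V ∧
    rs V (ak Ω b) ^ 2 * rs V (xc (Θ (act b P))) = ∑ T ∈ S₀, xu (ub V (Θ T) * ub V (Θ P)) +
      (-(∑ T ∈ S, rs V (xc (Θ T))) - rs V ((ak Ω b ^ 2 - 1) / 12)) ∧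
    rs V (ak Ω b) ^ 3 * rs V (2 * yc (Θ (act b P)) + xc (Θ (act b P))) =
      ∑ T ∈ S₀, zu (ub V (Θ T) * ub V (Θ P)) := by
  classical
  haveI : CharZero Ω := charZero_of_injective_algebraMap (algebraMap F Ω).injective
  obtain ⟨hb0, hbu⟩ := unit_b (V := V) h hb
  have hbV : ak Ω b ∈ V := (V.valuation_le_one_iff _).1 hbu.le
  have hκ := kap_int h hM hb hS
  have h2V : (2 : Ω) ∈ V := by exact_mod_cast natCast_mem V 2
  have hΘ0 : Θ (act b P) ≠ 0 := fun h0 => hbP (by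
    have := congrArg Θ.symm h0
    rwa [Θ.symm_apply_apply, map_zero] at this)
  -- the coordinates of T and P + T
  have hT : ∀ T ∈ S, xc (Θ T) ∈ V ∧ yc (Θ T) ∈ V := fun T hT =>
    (int_ker hM.nod (tor_out h hM hb ((hS T).1 hT).1 ((hS T).1 hT).2)).2
  have hPT : ∀ T ∈ S, xc (Θ (P + T)) ∈ V ∧ yc (Θ (P + T)) ∈ V := fun T hT =>
    (int_ker hM.nod (hg T hT).1).2
  obtain ⟨_, hPx, hPy, _, _⟩ := fn_crd hM.nod hP
  have e1 := m_e1x h hM hb0 hS hbP
  have e2 := m_e1z h hM hb0 hS hbP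
  have hs : (∑ T ∈ S, (xc (Θ (P + T)) - xc (Θ T))) ∈ V :=
    sum_mem fun T hT' => V.sub_mem (hPT T hT').1 (hT T hT').1
  have hs2 : (∑ T ∈ S, (2 * yc (Θ (P + T)) + xc (Θ (P + T)))) ∈ V :=
    sum_mem fun T hT' => V.add_mem _ _ (V.mul_mem _ _ h2V (hPT T hT').2) (hPT T hT').1
  have e1' : ak Ω b ^ 2 * xc (Θ (act b P)) =
      xc (Θ P) + (∑ T ∈ S, (xc (Θ (P + T)) - xc (Θ T))) - (ak Ω b ^ 2 - 1) / 12 := by
    linear_combination e1
  have hX : xc (Θ (act b P)) ∈ V := by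
    have h3 : xc (Θ (act b P)) = (xc (Θ P) + (∑ T ∈ S, (xc (Θ (P + T)) - xc (Θ T))) -
        (ak Ω b ^ 2 - 1) / 12) / ak Ω b ^ 2 := by
      rw [← e1', mul_div_cancel_left₀]
      intro h4
      have : V.valuation (ak Ω b ^ 2) = 0 := by rw [h4, map_zero]
      rw [map_pow, hbu, one_pow] at this
      exact one_ne_zero this
    rw [h3, ← V.valuation_le_one_iff, map_div₀, map_pow, hbu, one_pow, div_one,
      V.valuation_le_one_iff]
    exact V.sub_mem (V.add_mem _ _ hPx hs) hκ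
  have hY : yc (Θ (act b P)) ∈ V := (int_ker hM.nod (j7_not_ker hΘ0 hX)).2.2
  refine ⟨hX, hY, ?_, ?_⟩
  · have r1 := congrArg (rs V) e1'
    rw [rs_mul (pow_mem hbV 2) hX, rs_pow hbV, rs_sub (V.add_mem _ _ hPx hs) hκ,
      rs_add hPx hs, rs_sum S _ (fun T hT' => V.sub_mem (hPT T hT').1 (hT T hT').1)] at r1
    rw [r1]
    have r2 : ∑ T ∈ S, rs V (xc (Θ (P + T)) - xc (Θ T)) =
        (∑ T ∈ S, rs V (xc (Θ (P + T)))) - ∑ T ∈ S, rs V (xc (Θ T)) := by
      rw [← Finset.sum_sub_distrib]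
      exact Finset.sum_congr rfl fun T hT' => rs_sub (hPT T hT').1 (hT T hT').1
    have h0S : (0 : Pt (WAB A B) Ω) ∈ S₀ := (hmem 0).2 ⟨map_zero _, by rw [map_zero]; exact Or.inl rfl⟩
    have r3 : ∑ T ∈ S₀, xu (ub V (Θ T) * ub V (Θ P)) =
        rs V (xc (Θ P)) + ∑ T ∈ S, rs V (xc (Θ (P + T))) := by
      rw [← Finset.add_sum_erase _ _ h0S, map_zero, ub_zero, one_mul, (fn_ub hM.nod hP).2.2.2.1]
      congr 1
      have hsub : S₀.erase 0 ⊆ S := by
        intro T hT'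
        rw [Finset.mem_erase, hmem] at hT'
        exact (hS T).2 ⟨hT'.2.1, hT'.1⟩
      rw [← Finset.sum_subset hsub (f := fun T => rs V (xc (Θ (P + T))))]
      · refine Finset.sum_congr rfl fun T hT' => ?_
        have hTS := hsub hT'
        rw [Finset.mem_erase, hmem] at hT'
        obtain ⟨h5, h6⟩ := (hg T hTS).2.1 hT'.2.2
        rw [(fn_ub hM.nod h5).2.2.2.1, h6]
      · intro T hTS hTn
        have hE : ¬ E0 V (Θ T) := by
          intro hE
          apply hTn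
          rw [Finset.mem_erase, hmem]
          exact ⟨((hS T).1 hTS).2, ((hS T).1 hTS).1, hE⟩
        have h7 := nod_out hM.nod ((hg T hTS).2.2 hE)
        exact (rs_eq_zero (hPT T hTS).1).2 h7.2.1
    rw [r3, r2]
    ring
  · have r1 := congrArg (rs V) e2
    have hZ : 2 * yc (Θ (act b P)) + xc (Θ (act b P)) ∈ V :=
      V.add_mem _ _ (V.mul_mem _ _ h2V hY) hX
    have hZP : 2 * yc (Θ P) + xc (Θ P) ∈ V := V.add_mem _ _ (V.mul_mem _ _ h2V hPy) hPx
    rw [rs_mul (pow_mem hbV 3) hZ, rs_pow hbV, rs_add hZP hs2,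
      rs_sum S _ (fun T hT' => V.add_mem _ _ (V.mul_mem _ _ h2V (hPT T hT').2) (hPT T hT').1)] at r1
    rw [r1]
    have h0S : (0 : Pt (WAB A B) Ω) ∈ S₀ := (hmem 0).2 ⟨map_zero _, by rw [map_zero]; exact Or.inl rfl⟩
    rw [← Finset.add_sum_erase _ _ h0S, map_zero, ub_zero, one_mul, (fn_ub hM.nod hP).2.2.2.2.1]
    congr 1
    have hsub : S₀.erase 0 ⊆ S := by
      intro T hT'
      rw [Finset.mem_erase, hmem] at hT'
      exact (hS T).2 ⟨hT'.2.1, hT'.1⟩
    symm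
    rw [← Finset.sum_subset hsub (f := fun T => rs V (2 * yc (Θ (P + T)) + xc (Θ (P + T))))]
    · refine Finset.sum_congr rfl fun T hT' => ?_
      have hTS := hsub hT'
      rw [Finset.mem_erase, hmem] at hT'
      obtain ⟨h5, h6⟩ := (hg T hTS).2.1 hT'.2.2
      rw [(fn_ub hM.nod h5).2.2.2.2.1, h6]
    · intro T hTS hTn
      have hE : ¬ E0 V (Θ T) := by
        intro hE
        apply hTn
        rw [Finset.mem_erase, hmem]
        exact ⟨((hS T).1 hTS).2, ((hS T).1 hTS).1, hE⟩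
      have h7 := nod_out hM.nod ((hg T hTS).2.2 hE)
      rw [rs_add (V.mul_mem _ _ h2V (hPT T hTS).2) (hPT T hTS).1, rs_mul h2V (hPT T hTS).2,
        (rs_eq_zero (hPT T hTS).1).2 h7.2.1, (rs_eq_zero (hPT T hTS).2).2 h7.2.2, mul_zero,
        add_zero]

theorem main_b (h : CMA F A B Om j act) (hM : Md A B V W' u Θ) {b : 𝓞 F}
    (hb : V.valuation ((Nm b : ℕ) : Ω) = 1) {S : Finset (Pt (WAB A B) Ω)} (hS : TN act b S) :
    ∃ c : ℕ, 0 < c ∧ (c = 1 ∨ ∃ T ∈ S, E0 V (Θ T)) ∧ ∃ Z : Set (IsLocalRing.ResidueField V), Z.Finite ∧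
    ∀ P : Pt (WAB A B) Ω, Fn V (Θ P) → ub V (Θ P) ∉ Z →
      ub V (Θ P) ^ c ≠ 1 ∧ Fn V (Θ (act b P)) ∧ rs V (xc (Θ (act b P))) = xu (ub V (Θ P) ^ c) := by
  classical
  haveI : Infinite (IsLocalRing.ResidueField V) := res_inf V
  obtain ⟨S₀, hmem, hprod, hc0⟩ := j7_set h hM hb hS
  obtain ⟨Z₀, hZ₀, hgen⟩ := gen_pt h hM hb hS
  obtain ⟨hb0, hbu⟩ := unit_b (V := V) h hb
  have hbV : ak Ω b ∈ V := (V.valuation_le_one_iff _).1 hbu.le
  have h0S : (0 : Pt (WAB A B) Ω) ∈ S₀ := (hmem 0).2 ⟨map_zero _, by rw [map_zero]; exact Or.inl rfl⟩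
  have hcpos : 0 < S₀.card := Finset.card_pos.2 ⟨0, h0S⟩
  set c := S₀.card with hc
  set Z : Set (IsLocalRing.ResidueField V) := Z₀ ∪ {x | x ^ c = 1} with hZ
  have hZf : Z.Finite := hZ₀.union (j7_fin hcpos 1)
  set δ := -(∑ T ∈ S, rs V (xc (Θ T))) - rs V ((ak Ω b ^ 2 - 1) / 12) with hδ
  have hβ0 : rs V (ak Ω b) ≠ 0 := (rs_ne_zero hbV).2 hbu
  have hres : ∀ P : Pt (WAB A B) Ω, Fn V (Θ P) → ub V (Θ P) ∉ Z →
      act b P ≠ 0 ∧ xc (Θ (act b P)) ∈ V ∧ yc (Θ (act b P)) ∈ V ∧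
      ub V (Θ P) ^ c ≠ 1 ∧
      rs V (ak Ω b) ^ 2 * rs V (xc (Θ (act b P))) =
        (c : IsLocalRing.ResidueField V) ^ 2 * xu (ub V (Θ P) ^ c) + δ ∧
      rs V (ak Ω b) ^ 3 * rs V (2 * yc (Θ (act b P)) + xc (Θ (act b P))) =
        (c : IsLocalRing.ResidueField V) ^ 3 * zu (ub V (Θ P) ^ c) := by
    intro P hP hu
    have hu0 : ub V (Θ P) ∉ Z₀ := fun h1 => hu (Or.inl h1)
    have hu1 : ub V (Θ P) ^ c ≠ 1 := fun h1 => hu (Or.inr h1)
    obtain ⟨hbP, hg⟩ := hgen P hP hu0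
    obtain ⟨r1, r2, r3, r4⟩ := j7_res h hM hb hS hmem hP hbP hg
    refine ⟨hbP, r1, r2, hu1, ?_, ?_⟩
    · rw [r3, sum_xu S₀ (fun T => ub V (Θ T)) hprod hu1]
    · rw [r4, sum_zu S₀ (fun T => ub V (Θ T)) hprod hu1]
  -- the comparison
  set I : Set (IsLocalRing.ResidueField V) := (fun x => x ^ c) '' (Z ∪ {0, 1})ᶜ with hI
  have hIinf : I.Infinite := by
    intro hfin
    have h1 : ((fun x : IsLocalRing.ResidueField V => x ^ c) ⁻¹' I).Finite :=
      hfin.preimage' fun w _ => j7_fin hcpos w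
    have h2 : ((Z ∪ {0, 1})ᶜ : Set (IsLocalRing.ResidueField V)).Finite :=
      h1.subset (Set.subset_preimage_image _ _)
    have h3 : (Z ∪ {0, 1} : Set (IsLocalRing.ResidueField V)).Finite :=
      hZf.union (by simp)
    have h4 := h3.union h2
    rw [Set.union_compl_self] at h4
    exact Set.infinite_univ h4
  have hcomp := compare hβ0 hc0 hIinf (δ := δ) (by
    rintro w ⟨x, hx, rfl⟩
    have hxZ : x ∉ Z := fun h1 => hx (Or.inl h1)
    have hx0 : x ≠ 0 := fun h1 => hx (Or.inr (by simp [h1]))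
    have hx1 : x ≠ 1 := fun h1 => hx (Or.inr (by simp [h1]))
    obtain ⟨P', hP', hPu⟩ := ex_fn hM.nod hM.ell hx0 hx1
    have hΘP : Θ (Θ.symm P') = P' := Θ.apply_symm_apply P'
    obtain ⟨q0, q1, q2, q3, q4, q5⟩ := hres (Θ.symm P') (by rw [hΘP]; exact hP')
      (by rw [hΘP, hPu]; exact hxZ)
    rw [hΘP, hPu] at q3 q4 q5
    refine ⟨pow_ne_zero _ hx0, q3, _, _, ?_, q4, q5⟩
    refine z_sq hM.nod ?_ q1 q2
    intro h0
    apply q0
    have := congrArg Θ.symm h0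
    rwa [Θ.symm_apply_apply, map_zero] at this)
  refine ⟨c, hcpos, ?_, Z, hZf, ?_⟩
  · by_cases hc1 : c = 1
    · exact Or.inl hc1
    · right
      have h1 : 1 < S₀.card := by omega
      obtain ⟨T, hT, hT0⟩ := Finset.exists_mem_ne h1 (0 : Pt (WAB A B) Ω)
      rw [hmem] at hT
      exact ⟨T, (hS T).2 ⟨hT.1, hT0⟩, hT.2⟩
  · intro P hP hu
    obtain ⟨q0, q1, q2, q3, q4, q5⟩ := hres P hP hu
    rw [hcomp.1, add_zero, hcomp.2] at q4
    have q6 : rs V (xc (Θ (act b P))) = xu (ub V (Θ P) ^ c) :=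
      mul_left_cancel₀ (pow_ne_zero 2 hc0) q4
    refine ⟨q3, ?_, q6⟩
    unfold Fn
    rw [← rs_ne_zero q1, q6]
    unfold xu
    have h5 : ub V (Θ P) ≠ 0 := (fn_ub hM.nod hP).2.1
    exact div_ne_zero (pow_ne_zero _ h5) (pow_ne_zero _ (sub_ne_zero.2 q3))

end H55K.JJ
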