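import Mathlib
import Pool.Agent.Lib.H55K.J7

open NumberField WeierstrassCurve

namespace H55K.JJ

open H55P (IQ embF eF LF Per Pt ac Nm)
open H35P (WAB Ker IntW)

variable {F : Type} [Field F] [NumberField F] [IQ F] {A B : F} {Om : ℂ} {Ω : Type} [Field Ω] [DecidableEq Ω]
  [Algebra F Ω] [IsAlgClosed Ω] {j : Ω →+* ℂ} {act : 𝓞 F →+* AddMonoid.End (Pt (WAB A B) Ω)} {V : ValuationSubring Ω}
  {W' : WeierstrassCurve Ω} {u : Ω} {Θ : Pt (WAB A B) Ω ≃+ W'.toAffine.Point}

/-! Chunk J8 (M). e0_act: S from exists_TN (or any Finset with TN: the set E[b] is finite), c, Z from main_b. P in Ker: choose R with w = ub (Θ R) not in Z (ex_fn, res_inf; R = Θ.symm ..): ker_shift: Fn (Θ (P + R)), ub = w not in Z; P in Fn: choose w not in Z, a w <> 1 and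
a w not in Z (a = ub (Θ P)): ub_mul. In both cases act b (P + R) and act b R are in Fn, so act b P = act b (P + R) - act b R is in E0 (e0_iff, e0_add, e0_neg). tor_e0: l prime, b = l: if no T as claimed then c = 1 in main_b: for P with ub (Θ P) = w not in Z and
w^m <> 1 for 0 < m ≤ l + 1: rs x(lP) = xu w, and ub_nsmul: Fn (Θ (l • P)), ub = w^l, so rs x(lP) = xu (w^l) (fn_ub; act (l : 𝓞 F) P = l • P). xu_inj: w^l = w or w^(l+1) = 1: contradiction (w <> 0, l ≥ 2). -/

theorem j8_TN (h : CMA F A B Om j act) {b : 𝓞 F} (hb : b ≠ 0) :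
    ∃ S : Finset (Pt (WAB A B) Ω), TN act b S := by
  classical
  obtain ⟨T₀, hT₀, h1, h2, -⟩ := h.gen b hb
  let f : 𝓞 F →+ Pt (WAB A B) Ω :=
    { toFun := fun a => act a T₀
      map_zero' := by rw [map_zero]; rfl
      map_add' := fun a c => by rw [map_add]; rfl }
  have hf : ∀ a, f a = act a T₀ := fun a => rfl
  have hker : f.ker = (Ideal.span {b} : Ideal (𝓞 F)).toAddSubgroup := by
    ext a
    rw [AddMonoidHom.mem_ker, hf, h2]
    exact Ideal.mem_span_singleton.symm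
  have hran : f.range = Tor act b := by
    ext T
    rw [AddMonoidHom.mem_range]
    constructor
    · rintro ⟨a, rfl⟩
      show act b (act a T₀) = 0
      have e : act b (act a T₀) = act a (act b T₀) := by
        have e1 : act (b * a) = act (a * b) := by rw [mul_comm]
        rw [map_mul, map_mul] at e1
        exact congrArg (fun φ : AddMonoid.End (Pt (WAB A B) Ω) => φ T₀) e1
      have e2 : act b T₀ = 0 := hT₀
      rw [e, e2, map_zero]
    · intro hT
      obtain ⟨a, ha⟩ := h1 T hT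
      exact ⟨a, ha.symm⟩
  have h3 := AddSubgroup.index_ker f
  rw [hker, hran] at h3
  have hc : Nat.card (Tor act b) = Nm b := h3.symm
  have hN : Nm b ≠ 0 := by
    intro h0
    have h4 : Ideal.absNorm (Ideal.span {b} : Ideal (𝓞 F)) = 0 := h0
    rw [Ideal.absNorm_eq_zero_iff, Ideal.span_singleton_eq_bot] at h4
    exact hb h4
  have hfin : Finite (Tor act b) := (Nat.card_ne_zero.1 (by rw [hc]; exact hN)).2
  have hfin2 : (Tor act b : Set (Pt (WAB A B) Ω)).Finite := hfin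
  refine ⟨hfin2.toFinset.erase 0, fun T => ?_⟩
  rw [Finset.mem_erase, Set.Finite.mem_toFinset, and_comm]
  exact Iff.rfl

theorem e0_act (h : CMA F A B Om j act) (hM : Md A B V W' u Θ) {b : 𝓞 F}
    (hb : V.valuation ((Nm b : ℕ) : Ω) = 1) {P : Pt (WAB A B) Ω} (hP : E0 V (Θ P)) : E0 V (Θ (act b P)) := by
  classical
  have hb0 : b ≠ 0 := (unit_b h hb).1
  obtain ⟨S, hS⟩ := j8_TN h hb0
  obtain ⟨c, hc, -, Z, hZ, hm⟩ := main_b h hM hb hS
  have hnod := hM.nod
  have := res_inf V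
  have key : ∃ R : Pt (WAB A B) Ω, Fn V (Θ R) ∧ ub V (Θ R) ∉ Z ∧ Fn V (Θ (P + R)) ∧
      ub V (Θ (P + R)) ∉ Z := by
    rcases e0_iff.1 hP with hK | hF
    · obtain ⟨w, hw⟩ := ((hZ.union (Set.toFinite ({0, 1} : Set (IsLocalRing.ResidueField V)))).infinite_compl).nonempty
      rw [Set.mem_compl_iff, Set.mem_union, not_or] at hw
      obtain ⟨hwZ, hw01⟩ := hw
      have h0 : w ≠ 0 := fun e => hw01 (by simp [e])
      have h1 : w ≠ 1 := fun e => hw01 (by simp [e])
      obtain ⟨R', hR', hu⟩ := ex_fn hnod hM.ell h0 h1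
      have h3 := ker_shift hnod hM.ell hK hR'
      refine ⟨Θ.symm R', ?_⟩
      rw [map_add, Θ.apply_symm_apply]
      refine ⟨hR', ?_, h3.1, ?_⟩
      · rw [hu]
        exact hwZ
      · rw [h3.2, hu]
        exact hwZ
    · have ha0 : ub V (Θ P) ≠ 0 := (fn_ub hnod hF).2.1
      have hfin : ((Z ∪ ({0, 1, (ub V (Θ P))⁻¹} : Set (IsLocalRing.ResidueField V))) ∪
          (fun x => (ub V (Θ P))⁻¹ * x) '' Z).Finite :=
        (hZ.union (Set.toFinite _)).union (hZ.image _)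
      obtain ⟨w, hw⟩ := hfin.infinite_compl.nonempty
      rw [Set.mem_compl_iff, Set.mem_union, Set.mem_union, not_or, not_or] at hw
      obtain ⟨⟨hwZ, hw01⟩, hwi⟩ := hw
      have h0 : w ≠ 0 := fun e => hw01 (by simp [e])
      have h1 : w ≠ 1 := fun e => hw01 (by simp [e])
      have h2 : ub V (Θ P) * w ≠ 1 := fun e => hw01 (by
        have e1 : w = (ub V (Θ P))⁻¹ := eq_inv_of_mul_eq_one_right e
        simp [e1])
      have h3 : ub V (Θ P) * w ∉ Z := fun e => hwi ⟨_, e, by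
        show (ub V (Θ P))⁻¹ * (ub V (Θ P) * w) = w
        rw [← mul_assoc, inv_mul_cancel₀ ha0, one_mul]⟩
      obtain ⟨R', hR', hu⟩ := ex_fn hnod hM.ell h0 h1
      have h4 := ub_mul hnod hM.ell hF hR' (by rw [hu]; exact h2)
      refine ⟨Θ.symm R', ?_⟩
      rw [map_add, Θ.apply_symm_apply]
      refine ⟨hR', ?_, h4.1, ?_⟩
      · rw [hu]
        exact hwZ
      · rw [h4.2, hu]
        exact h3
  obtain ⟨R, h1, h2, h3, h4⟩ := key
  have h5 := (hm R h1 h2).2.1
  have h6 := (hm (P + R) h3 h4).2.1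
  have h7 : Θ (act b P) = Θ (act b (P + R)) + -Θ (act b R) := by
    rw [map_add, map_add, add_neg_cancel_right]
  rw [h7]
  exact e0_add hnod (e0_iff.2 (Or.inr h6)) (e0_neg.2 (e0_iff.2 (Or.inr h5)))

theorem tor_e0 (h : CMA F A B Om j act) (hM : Md A B V W' u Θ) {l : ℕ} (hl : l.Prime)
    (hv : V.valuation (l : Ω) = 1) : ∃ T : Pt (WAB A B) Ω, l • T = 0 ∧ T ≠ 0 ∧ E0 V (Θ T) := by
  classical
  have hNm : Nm (l : 𝓞 F) = l ^ 2 := Nm_nat l
  have hb : V.valuation ((Nm (l : 𝓞 F) : ℕ) : Ω) = 1 := by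
    rw [hNm, Nat.cast_pow, map_pow, hv, one_pow]
  have hb0 : (l : 𝓞 F) ≠ 0 := (unit_b h hb).1
  obtain ⟨S, hS⟩ := j8_TN h hb0
  obtain ⟨c, hc, hc1, Z, hZ, hm⟩ := main_b h hM hb hS
  have hnod := hM.nod
  have := res_inf V
  have hact : ∀ P : Pt (WAB A B) Ω, act (l : 𝓞 F) P = l • P := by
    intro P
    rw [map_natCast]
    rfl
  rcases hc1 with hc1 | ⟨T, hT, hTE⟩
  · exfalso
    subst hc1
    have hfin : ((Z ∪ ({0, 1} : Set (IsLocalRing.ResidueField V))) ∪
        ⋃ m ∈ Finset.Icc 1 (l + 1), {x : IsLocalRing.ResidueField V | x ^ m = 1}).Finite := by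
      refine (hZ.union (Set.toFinite _)).union ?_
      refine Set.Finite.biUnion (Finset.finite_toSet _) ?_
      intro m hmm
      exact j7_fin (by have := Finset.mem_Icc.1 (Finset.mem_coe.1 hmm); omega) 1
    obtain ⟨w, hw⟩ := hfin.infinite_compl.nonempty
    rw [Set.mem_compl_iff, Set.mem_union, Set.mem_union, not_or, not_or] at hw
    obtain ⟨⟨hwZ, hw01⟩, hwi⟩ := hw
    have h0 : w ≠ 0 := fun e => hw01 (by simp [e])
    have h1 : w ≠ 1 := fun e => hw01 (by simp [e])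
    have h2 : ∀ m : ℕ, 0 < m → m ≤ l + 1 → w ^ m ≠ 1 := by
      intro m hm0 hm1 e
      apply hwi
      rw [Set.mem_iUnion₂]
      exact ⟨m, Finset.mem_Icc.2 ⟨hm0, hm1⟩, e⟩
    obtain ⟨R', hR', hu⟩ := ex_fn hnod hM.ell h0 h1
    have h3 := hm (Θ.symm R') (by rw [Θ.apply_symm_apply]; exact hR') (by
      rw [Θ.apply_symm_apply, hu]
      exact hwZ)
    obtain ⟨-, h4, h5⟩ := h3
    rw [hact, map_nsmul, Θ.apply_symm_apply, hu, pow_one] at h5
    have h6 := ub_nsmul hnod hM.ell hR' hl.pos (by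
      intro m hm0 hm1
      rw [hu]
      exact h2 m hm0 (by omega))
    have h7 := (fn_ub hnod h6.1).2.2.2.1
    rw [h5, h6.2, hu] at h7
    have hl2 := hl.two_le
    rcases xu_inj h1 (h2 l hl.pos (by omega)) h7 with e | e
    · have e1 : w ^ (l - 1) * w = 1 * w := by
        rw [← pow_succ, one_mul]
        have e2 : l - 1 + 1 = l := by omega
        rw [e2]
        exact e.symm
      exact h2 (l - 1) (by omega) (by omega) (mul_right_cancel₀ h0 e1)
    · exact h2 (l + 1) (by omega) le_rfl (by rw [pow_succ, mul_comm]; exact e)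
  · obtain ⟨h1, h2⟩ := (hS T).1 hT
    exact ⟨T, by rw [← hact]; exact h1, h2, hTE⟩

end H55K.JJ
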