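import Mathlib
import Pool.Agent.Lib.H55K.J8

open NumberField WeierstrassCurve

namespace H55K.JJ

open H55P (IQ embF eF LF Per Pt ac Nm)
open H35P (WAB Ker IntW)

section gen

variable {k : Type} [Field k] [DecidableEq k] [IsAlgClosed k] {W : WeierstrassCurve k} {V : ValuationSubring k}

/-- The points killed by l with nonsingular reduction. -/
def J9G (V : ValuationSubring k) (l : ℕ) (X : W.toAffine.Point) : Prop := E0 V X ∧ l • X = 0

theorem j9_zero (l : ℕ) : J9G V l (0 : W.toAffine.Point) := ⟨Or.inl rfl, smul_zero _⟩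

theorem j9_add (h : Nod W V) {l : ℕ} {X Y : W.toAffine.Point} (hX : J9G V l X) (hY : J9G V l Y) : J9G V l (X + Y) :=
  ⟨e0_add h hX.1 hY.1, by rw [smul_add, hX.2, hY.2, add_zero]⟩

theorem j9_neg {l : ℕ} {X : W.toAffine.Point} (hX : J9G V l X) : J9G V l (-X) :=
  ⟨e0_neg.2 hX.1, by rw [smul_neg, hX.2, neg_zero]⟩

theorem j9_nsmul (h : Nod W V) {l : ℕ} {X : W.toAffine.Point} (hX : J9G V l X) (n : ℕ) : J9G V l (n • X) := by
  induction n with
  | zero => rw [zero_smul]; exact j9_zero l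
  | succ n ih => rw [succ_nsmul]; exact j9_add h ih hX

theorem j9_fn (h : Nod W V) {l : ℕ} (hv : V.valuation (l : k) = 1) {X : W.toAffine.Point} (hX : J9G V l X)
    (h0 : X ≠ 0) : Fn V X := by
  rcases e0_iff.1 hX.1 with hk | hf
  · exact absurd (H35P.fg h.intW X l hv hX.2 hk) h0
  · exact hf

theorem j9_mul (h : Nod W V) (hΔ : W.Δ ≠ 0) {l : ℕ} (hv : V.valuation (l : k) = 1) {X Y : W.toAffine.Point}
    (hX : J9G V l X) (hY : J9G V l Y) : ub V (X + Y) = ub V X * ub V Y := by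
  by_cases hX0 : X = 0
  · rw [hX0, zero_add, ub_zero, one_mul]
  by_cases hY0 : Y = 0
  · rw [hY0, add_zero, ub_zero, mul_one]
  by_cases hXY : X + Y = 0
  · have e : X = -Y := eq_neg_of_add_eq_zero_left hXY
    have hf := j9_fn h hv hY hY0
    rw [hXY, ub_zero, e, (fn_neg h hf).2, inv_mul_cancel₀ (fn_ub h hf).2.1]
  · exact (ub_mul' h hΔ (j9_fn h hv hX hX0) (j9_fn h hv hY hY0)
      (ker_fn (j9_fn h hv (j9_add h hX hY) hXY))).2

theorem j9_pow (h : Nod W V) (hΔ : W.Δ ≠ 0) {l : ℕ} (hv : V.valuation (l : k) = 1) {X : W.toAffine.Point}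
    (hX : J9G V l X) (n : ℕ) : ub V (n • X) = ub V X ^ n := by
  induction n with
  | zero => rw [zero_smul, ub_zero, pow_zero]
  | succ n ih => rw [succ_nsmul, j9_mul h hΔ hv (j9_nsmul h hX n) hX, ih, pow_succ]

theorem j9_cyc (h : Nod W V) (hΔ : W.Δ ≠ 0) {l : ℕ} (hl : l.Prime) (hv : V.valuation (l : k) = 1)
    {X Y : W.toAffine.Point} (hX : J9G V l X) (hX0 : X ≠ 0) (hY : J9G V l Y) : ∃ n : ℕ, Y = n • X := by
  have := Fact.mk hl
  have h1 : ub V X ≠ 1 := (fn_ub h (j9_fn h hv hX hX0)).2.2.1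
  have h2 : ub V X ^ l = 1 := by rw [← j9_pow h hΔ hv hX, hX.2, ub_zero]
  have h3 : ub V Y ^ l = 1 := by rw [← j9_pow h hΔ hv hY, hY.2, ub_zero]
  have h4 : orderOf (ub V X) = l := orderOf_eq_prime h2 h1
  have h5 : IsPrimitiveRoot (ub V X) l := by
    have := IsPrimitiveRoot.orderOf (ub V X)
    rwa [h4] at this
  have : NeZero l := ⟨hl.ne_zero⟩
  obtain ⟨n, -, hn⟩ := h5.eq_pow_of_pow_eq_one h3
  refine ⟨n, ?_⟩
  have hnX := j9_nsmul h hX n
  have hD := j9_add h hY (j9_neg hnX)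
  have e : ub V Y = ub V (Y + -(n • X)) * ub V (n • X) := by
    rw [← j9_mul h hΔ hv hD hnX, neg_add_cancel_right]
  rw [j9_pow h hΔ hv hX, hn] at e
  have hY0 : ub V Y ≠ 0 := by
    intro h0
    rw [h0, zero_pow hl.ne_zero] at h3
    exact zero_ne_one h3
  have e1 : ub V (Y + -(n • X)) = 1 := by
    have : ub V (Y + -(n • X)) * ub V Y = 1 * ub V Y := by rw [← e, one_mul]
    exact mul_right_cancel₀ hY0 this
  by_contra hne
  have hD0 : Y + -(n • X) ≠ 0 := fun h0 => hne (by rwa [← sub_eq_add_neg, sub_eq_zero] at h0)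
  exact (fn_ub h (j9_fn h hv hD hD0)).2.2.1 e1

end gen

variable {F : Type} [Field F] [NumberField F] [IQ F] {A B : F} {Om : ℂ} {Ω : Type} [Field Ω] [DecidableEq Ω]
  [Algebra F Ω] [IsAlgClosed Ω] {j : Ω →+* ℂ} {act : 𝓞 F →+* AddMonoid.End (Pt (WAB A B) Ω)} {V : ValuationSubring Ω}
  {W' : WeierstrassCurve Ω} {u : Ω} {Θ : Pt (WAB A B) Ω ≃+ W'.toAffine.Point}

theorem j9_nat (act : 𝓞 F →+* AddMonoid.End (Pt (WAB A B) Ω)) (n : ℕ) (T : Pt (WAB A B) Ω) :
    act (n : 𝓞 F) T = n • T := by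
  rw [map_natCast]
  exact AddMonoid.End.natCast_apply n T

/-! Chunk J9 (M). T from tor_e0; T' = act b T is in E0 (e0_act), l • T' = 0. If T' = 0 then n = 0 works below. ub (Θ T) is <> 1 and its l-th power is 1 (Fn (Θ T) by tor_out-type argument: H35P.fg; k • T for 0 < k < l is in E0, not 0, so Fn; ub is multiplicative on the
multiples of T: ub_mul', induction; l • T = 0): a primitive l-th root of unity (l prime). T' <> 0: Fn (Θ T'), ub (Θ T')^l = 1 in the same way, so ub (Θ T') = ub (Θ T)^n for some 0 ≤ n < l (IsPrimitiveRoot.eq_pow_of_pow_eq_one), = ub (Θ (n • T)) (n <> 0), so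
Ker (Θ (T' - n • T)) (rd_fn) and T' - n • T is killed by l: it is 0 (H35P.fg). So act (b - n) T = 0. h.gen for l: T = act a T0, not l | a (T <> 0), act ((b - n) a) T0 = 0, so l | (b - n) a, and l is prime in 𝓞 F: l | b - n: contradiction to hn. -/
theorem absurd_lb (h : CMA F A B Om j act) (hM : Md A B V W' u Θ) {l : ℕ} (hl : l.Prime)
    (hp : Prime (l : 𝓞 F)) (hv : V.valuation (l : Ω) = 1) {b : 𝓞 F} (hb : V.valuation ((Nm b : ℕ) : Ω) = 1)
    (hn : ∀ n : ℤ, ¬ (l : 𝓞 F) ∣ b - n) : False := by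
  obtain ⟨T, hT, hT0, hTE⟩ := tor_e0 h hM hl hv
  have hX : J9G V l (Θ T) := ⟨hTE, by rw [← map_nsmul, hT, map_zero]⟩
  have hX0 : Θ T ≠ 0 := fun h0 => hT0 (by
    have := congrArg Θ.symm h0
    rwa [Θ.symm_apply_apply, map_zero] at this)
  have hY : J9G V l (Θ (act b T)) := ⟨e0_act h hM hb hTE, by rw [← map_nsmul, ← map_nsmul, hT, map_zero, map_zero]⟩
  obtain ⟨n, hn'⟩ := j9_cyc hM.nod hM.ell hl hv hX hX0 hY
  rw [← map_nsmul] at hn'
  have e1 : act b T = n • T := Θ.injective hn'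
  have e2 : act (b - (n : 𝓞 F)) T = 0 := by
    rw [map_sub]
    show act b T - act (n : 𝓞 F) T = 0
    rw [e1, j9_nat, sub_self]
  obtain ⟨T₀, -, g2, g3, -⟩ := h.gen (l : 𝓞 F) hp.ne_zero
  obtain ⟨a, ha⟩ := g2 T (by
    show act (l : 𝓞 F) T = 0
    rw [j9_nat, hT])
  have e3 : act ((b - (n : 𝓞 F)) * a) T₀ = 0 := by
    rw [map_mul]
    show act (b - (n : 𝓞 F)) (act a T₀) = 0
    rw [← ha, e2]
  rcases hp.dvd_or_dvd ((g3 _).1 e3) with h1 | h1
  · exact hn n (by exact_mod_cast h1)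
  · apply hT0
    rw [ha]
    exact (g3 a).2 h1

end H55K.JJ
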