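import Mathlib
import Pool.Agent.Lib.H55K.J9
import Pool.Agent.Lib.H55K.J10
import Pool.Agent.Lib.H55K.J11
import Pool.Agent.Lib.H55K.J12

/-! # H55K, part J: the j-invariant of a curve with complex multiplication is integral -/

open NumberField WeierstrassCurve

namespace H55K

open H55P (IQ embF eF LF Per Pt ac Nm)
open H35P (WAB Ker IntW)

theorem exists_jint {F : Type} [Field F] [NumberField F] [IQ F] {A B : F} {Om : ℂ} {Ω : Type} [Field Ω] [DecidableEq Ω]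
    [Algebra F Ω] [IsAlgClosed Ω] {j : Ω →+* ℂ} {act : 𝓞 F →+* AddMonoid.End (Pt (WAB A B) Ω)}
    (h : CMA F A B Om j act) : ∃ j₀ : 𝓞 F, (j₀ : F) * (4 * A ^ 3 + 27 * B ^ 2) = 6912 * A ^ 3 := by
  have hC : CharZero Ω := charZero_of_injective_algebraMap (algebraMap F Ω).injective
  obtain ⟨x₀, hx₀⟩ := JJ.int_of_val Ω (6912 * A ^ 3 / (4 * A ^ 3 + 27 * B ^ 2)) (fun V => by
    by_contra hV
    rw [not_le] at hV
    obtain ⟨W', u, Θ, hM⟩ := JJ.exists_md h.disc V hV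
    obtain ⟨l, b, hl, hp, hv, hb, hn⟩ := JJ.choose_lb F V
    exact JJ.absurd_lb h hM hl hp hv hb hn)
  refine ⟨x₀, ?_⟩
  rw [hx₀, div_mul_cancel₀ _ h.disc]

end H55K
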