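import Mathlib
import Pool.Agent.Lib.H55K.CM
import Pool.Agent.Lib.H55K.JM
import Pool.Agent.Lib.H55K.Y1
import Pool.Agent.Lib.H55K.Y3
import Pool.Agent.Lib.H55P.GenStm

/-! # H55K, part J: the j-invariant of a curve with complex multiplication is integral -/

open NumberField IsDedekindDomain WeierstrassCurve

namespace H55K

open H55P (IQ embF eF LF Per IsHecke Pt ac Inert Dec Nm CMData)
open H35P (WAB Ker tt)

variable {F : Type} [Field F] [NumberField F] [IQ F] {W₀ : WeierstrassCurve (𝓞 F)} {Om : ℂ}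
    {m : Ideal (𝓞 F)} {ψ : Ideal (𝓞 F) →*₀ 𝓞 F}

/-- THE j-INVARIANT IS INTEGRAL, for all the curves with complex multiplication by the integers of F (from the period lattice). -/
theorem jint_of (hD : Per F (-(eF F W₀.c₄) / 48) (-(eF F W₀.c₆) / 864) Om) (hΔ : W₀.Δ ≠ 0) :
    ∃ j₀ : 𝓞 F, W₀.c₄ ^ 3 = j₀ * W₀.Δ := by
  classical
  obtain ⟨j, hj⟩ := exists_j F (AlgebraicClosure F)
  obtain ⟨A, hA⟩ : ∃ A : F, A = -(algebraMap (𝓞 F) F W₀.c₄) / 48 := ⟨_, rfl⟩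
  obtain ⟨B, hB'⟩ : ∃ B : F, B = -(algebraMap (𝓞 F) F W₀.c₆) / 864 := ⟨_, rfl⟩
  have hd := y3_ne W₀ hA hB' hΔ
  have hper : Per F (embF F A) (embF F B) Om := by
    have e1 : embF F A = -(eF F W₀.c₄) / 48 := by
      rw [hA, map_div₀, map_neg, map_ofNat]
      rfl
    have e2 : embF F B = -(eF F W₀.c₆) / 864 := by
      rw [hB', map_div₀, map_neg, map_ofNat]
      rfl
    rw [e1, e2]
    exact hD
  obtain ⟨act, hact⟩ := exists_CMA F A B Om j hd hper hj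
  obtain ⟨j₀, hj₀⟩ := exists_jint hact
  refine ⟨j₀, ?_⟩
  have hc : (1728 : 𝓞 F) * W₀.Δ = W₀.c₄ ^ 3 - W₀.c₆ ^ 2 := W₀.c_relation
  have hc' : (1728 : F) * algebraMap (𝓞 F) F W₀.Δ = algebraMap (𝓞 F) F W₀.c₄ ^ 3 - algebraMap (𝓞 F) F W₀.c₆ ^ 2 := by
    have := congrArg (algebraMap (𝓞 F) F) hc
    rw [map_mul, map_ofNat, map_sub, map_pow, map_pow] at this
    exact this
  have h16 : (j₀ : F) * algebraMap (𝓞 F) F W₀.Δ = algebraMap (𝓞 F) F W₀.c₄ ^ 3 := by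
    rw [hA, hB'] at hj₀
    have e : (4 : F) * (-(algebraMap (𝓞 F) F W₀.c₄) / 48) ^ 3 + 27 * (-(algebraMap (𝓞 F) F W₀.c₆) / 864) ^ 2 =
        -(algebraMap (𝓞 F) F W₀.Δ) / 16 := by
      linear_combination (1 / 27648 : F) * hc'
    rw [e] at hj₀
    linear_combination (-16 : F) * hj₀
  apply RingOfIntegers.coe_injective
  rw [map_pow, map_mul]
  exact h16.symm

end H55K
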