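import Mathlib
import Pool.Agent.Lib.H55K.G10C
import Pool.Agent.Lib.H55K.Y3
import Pool.Agent.Lib.H55P.GenStm

/-! # H55K: the complete data exist -/

open NumberField IsDedekindDomain WeierstrassCurve

namespace H55K

open H55P (IQ embF eF LF Per IsHecke Pt ac Inert Dec Nm CMData)
open H35P (WAB Ker tt)

/-- The hypotheses of the base theorem: W₀ is a curve over the integers of F with complex multiplication by the integers of F, with
integral j-invariant, whose numbers of points are given by the Hecke character ψ of modulus m; p ≥ 5 is a prime number,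
unramified in F, prime to the discriminant of W₀ and to m. -/
structure Base (F : Type) [Field F] [NumberField F] [IQ F] (W₀ : WeierstrassCurve (𝓞 F)) (Om : ℂ)
    (m : Ideal (𝓞 F)) (ψ : Ideal (𝓞 F) →*₀ 𝓞 F) (p : ℕ) : Prop where
  data : CMData F W₀ Om m ψ
  jint : ∃ j₀ : 𝓞 F, W₀.c₄ ^ 3 = j₀ * W₀.Δ
  deu : ∀ v : HeightOneSpectrum (𝓞 F), W₀.Δ ∉ v.asIdeal → ¬ m ≤ v.asIdeal →
    Nat.card (W₀⁄(𝓞 F ⧸ v.asIdeal)).toAffine.Point = Nm (1 - ψ v.asIdeal)
  prime : p.Prime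
  five : 5 ≤ p
  unr : ∀ v : HeightOneSpectrum (𝓞 F), (p : 𝓞 F) ∉ v.asIdeal ^ 2
  cop : IsCoprime (Ideal.span {W₀.Δ} * m) (Ideal.span {(p : 𝓞 F)})

variable {F : Type} [Field F] [NumberField F] [IQ F] {W₀ : WeierstrassCurve (𝓞 F)} {Om : ℂ}
    {m : Ideal (𝓞 F)} {ψ : Ideal (𝓞 F) →*₀ 𝓞 F} {p : ℕ} {Ω : Type} [Field Ω] [Algebra F Ω]

/-- The complete data. -/
theorem mk_Dta [DecidableEq Ω] [IsAlgClosure F Ω] [IsAlgClosed Ω] (hB : Base F W₀ Om m ψ p) {A B : F}
    (hA : A = -(algebraMap (𝓞 F) F W₀.c₄) / 48) (hB' : B = -(algebraMap (𝓞 F) F W₀.c₆) / 864) {j : Ω →+* ℂ}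
    {act : 𝓞 F →+* AddMonoid.End (Pt (WAB A B) Ω)} (hC : CMA F A B Om j act)
    (hG : ∀ V : ValuationSubring Ω, ∃ (Kg : AddSubgroup (Pt (WAB A B) Ω)) (u : Ω), GMod (WAB A B) V Kg u) :
    Dta A B Om j act m ψ p where
  cma := hC
  hecke := hB.data.hecke
  prime := hB.prime
  five := hB.five
  unr := hB.unr
  cop := hB.cop.of_mul_left_right
  good := fun V hV => gv_l hB.prime hB.five W₀ hB.cop.of_mul_left_left hA hB' V hV
  gmod := hG
  fin := by
    obtain ⟨S, hS, h⟩ := gv_fin (A := A) (B := B) hC.disc Ω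
    exact ⟨S, hS, fun v hv V hV => (h v hv V hV).1⟩
  frob := dta_frob hC W₀ hA hB' hB.data.ell m ψ hB.data.hecke hB.deu

end H55K
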