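import Mathlib
import Pool.Agent.Lib.H55K.BH
import Pool.Agent.Lib.H55K.JE
import Pool.Agent.Lib.H55K.Y5

/-! # H55K: the hypotheses on the curve and the prime number -/

open NumberField IsDedekindDomain WeierstrassCurve

namespace H55K.TQ

open H55P (IQ embF eF LF Per IsHecke Pt ac Inert Dec Nm UnitP)
open H35P (WAB Ker tt GoodW IntW)
open H55K.MG (VC Crd)

variable {F : Type} [Field F] [NumberField F] [IQ F] {W₀ : WeierstrassCurve (𝓞 F)} {Om : ℂ}
    {m : Ideal (𝓞 F)} {ψ : Ideal (𝓞 F) →*₀ 𝓞 F} {p : ℕ}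

theorem BH1_ne {F : Type} [Field F] [NumberField F] {p : ℕ} (hp : p.Prime) : (p : 𝓞 F) ≠ 0 := by
  exact_mod_cast hp.ne_zero

/-- Chunk BH1 (S/M). Squarefree (p) in the Dedekind domain 𝓞 F iff p is in no v^2. -/
theorem unr_iff {F : Type} [Field F] [NumberField F] {p : ℕ} (hp : p.Prime) :
    H55P.UnrP p F ↔ ∀ v : HeightOneSpectrum (𝓞 F), (p : 𝓞 F) ∉ v.asIdeal ^ 2 := by
  constructor
  · intro h v hv
    have h1 : v.asIdeal * v.asIdeal ∣ Ideal.span {(p : 𝓞 F)} := by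
      rw [Ideal.dvd_iff_le, Ideal.span_singleton_le_iff_mem, ← pow_two]
      exact hv
    have h2 := h _ h1
    rw [Ideal.isUnit_iff] at h2
    exact v.isPrime.ne_top h2
  · intro h x hx
    rw [Ideal.isUnit_iff]
    by_contra hne
    obtain ⟨M, hM, hle⟩ := Ideal.exists_le_maximal x hne
    have hx0 : x ≠ ⊥ := by
      rintro rfl
      rw [Ideal.dvd_iff_le, Ideal.span_singleton_le_iff_mem] at hx
      have h1 : (p : 𝓞 F) ∈ (⊥ : Ideal (𝓞 F)) := Ideal.mul_le_left hx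
      exact BH1_ne hp (Ideal.mem_bot.1 h1)
    have hM0 : M ≠ ⊥ := by
      rintro rfl
      exact hx0 (le_bot_iff.1 hle)
    apply h ⟨M, hM.isPrime, hM0⟩
    have h2 : M ^ 2 ∣ Ideal.span {(p : 𝓞 F)} := by
      refine dvd_trans ?_ hx
      rw [pow_two]
      exact mul_dvd_mul (Ideal.dvd_iff_le.2 hle) (Ideal.dvd_iff_le.2 hle)
    rw [Ideal.dvd_iff_le, Ideal.span_singleton_le_iff_mem] at h2
    exact h2

/-- Chunk BH1 (S/M). jint from JE.lean (jint_of); deu: Δ not in v; cop: Δ is coprime to p, and m as well: a maximal ideal containing m and p is some v (m ≠ bottom is not needed: p ≠ 0), Δ in v by supp, contradiction to the coprimality; so m ⊔ (p) = ⊤. -/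
theorem base_of (hH : BaseH F W₀ Om m ψ) (hp : PrimeH F W₀ p) : Base F W₀ Om m ψ p := by
  refine ⟨hH.data, jint_of hH.data.per hH.data.ell, fun v h _ => hH.deu v h, hp.prime, hp.five,
    (unr_iff hp.prime).1 hp.unr, IsCoprime.mul_left hp.cop ?_⟩
  rw [Ideal.isCoprime_iff_sup_eq]
  by_contra hne
  obtain ⟨M, hM, hle⟩ := Ideal.exists_le_maximal _ hne
  have hpM : (p : 𝓞 F) ∈ M := hle (Ideal.mem_sup_right (Ideal.mem_span_singleton_self _))
  have hmM : m ≤ M := le_sup_left.trans hle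
  have hM0 : M ≠ ⊥ := by
    rintro rfl
    exact BH1_ne hp.prime (Ideal.mem_bot.1 hpM)
  have hΔ : W₀.Δ ∈ M := (hH.supp ⟨M, hM.isPrime, hM0⟩).2 hmM
  have h1 := Ideal.isCoprime_iff_sup_eq.1 hp.cop
  apply hM.ne_top
  rw [← top_le_iff, ← h1]
  exact sup_le ((Ideal.span_singleton_le_iff_mem _).2 hΔ) ((Ideal.span_singleton_le_iff_mem _).2 hpM)

end H55K.TQ
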