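import Mathlib
import Pool.Agent.Lib.H55K.M1B
import Pool.Agent.Lib.H55K.M2C
import Pool.Agent.Lib.H55K.M3B
import Pool.Agent.Lib.H55K.M4C

/-! # H55K, part M: good models -/

open NumberField WeierstrassCurve

namespace H55K

open H55P (IQ Pt ac Inert)
open H35P (WAB Ker GoodW IntW)

theorem exists_gmod {F : Type} [Field F] [NumberField F] {Ω : Type} [Field Ω] [DecidableEq Ω] [Algebra F Ω]
    [IsAlgClosed Ω] {A B : F} (hd : 4 * A ^ 3 + 27 * B ^ 2 ≠ 0)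
    (hj : ∃ j₀ : 𝓞 F, (j₀ : F) * (4 * A ^ 3 + 27 * B ^ 2) = 6912 * A ^ 3) (V : ValuationSubring Ω) :
    ∃ (Kg : AddSubgroup (Pt (WAB A B) Ω)) (u : Ω), GMod (WAB A B) V Kg u := by
  obtain ⟨W', u, r, s, t, hVC, hΔ, hW, h2⟩ := MG.good_model hd hj V
  have hΔ' : W'.Δ ≠ 0 := by
    intro h0
    have h1 := hW.disc
    rw [h0, map_zero] at h1
    exact zero_ne_one h1
  obtain ⟨Θ, hc⟩ := MG.vc_iso hVC hΔ hΔ'
  obtain ⟨Kg, hK⟩ := MG.kg_ex hW Θ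
  refine ⟨Kg, u, hVC.une, ?_, ?_, ?_, ?_⟩
  · intro n hn T hT h0
    exact MG.kg_tors hW hn ((hK T).1 hT) h0
  · intro P Q hP hQ h1 h3
    rw [hK] at hP hQ h1 h3
    exact MG.kg_diff hW hc hP hQ h1 h3
  · intro P P' Q hP hP' hQ h0
    rw [hK] at hP hP' hQ
    exact MG.kg_far hW hc hP hP' hQ h0
  · rintro g hg ⟨T₁, T₂, k₁, k₂, k₃, k₄, k₅, f₁, f₂⟩ P
    rw [hK] at k₁ k₂ k₃ k₄ k₅ ⊢
    exact MG.inert_ker hVC.une hW hc g hg (MG.small_tilde hVC.une hW hc h2 g hg k₁ k₂ k₃ k₄ k₅ f₁ f₂) P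

end H55K
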