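import Mathlib
import Pool.Agent.Lib.H55K.G4A

/-! # H55K: inertia at the other places -/

open NumberField IsDedekindDomain WeierstrassCurve

namespace H55K

open H55P (IQ embF eF LF Per IsHecke Pt ac Inert Dec Nm)
open H35P (WAB Ker tt)


variable {F : Type} [Field F] [NumberField F] [IQ F] {A B : F} {Om : ℂ} {Ω : Type} [Field Ω] [DecidableEq Ω]
  [Algebra F Ω] {j : Ω →+* ℂ} {act : 𝓞 F →+* AddMonoid.End (Pt (WAB A B) Ω)} {V : ValuationSubring Ω}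

theorem gf_Nm {l : ℕ} (hl : l.Prime) {π : 𝓞 F} (hπ : Prime π) (hd : π ∣ (l : 𝓞 F)) : l ≤ Nm π := by
  obtain ⟨c, hc⟩ := hd
  have h1 : Nm π ∣ l ^ 2 := ⟨Nm c, by rw [← Nm_mul, ← hc, Nm_nat]⟩
  have h2 : Nm π ≠ 1 := by
    intro h
    unfold H55P.Nm at h
    rw [Ideal.absNorm_eq_one_iff, Ideal.span_singleton_eq_top] at h
    exact hπ.not_isUnit h
  obtain ⟨i, hi, h3⟩ := (Nat.dvd_prime_pow hl).1 h1
  have hi0 : i ≠ 0 := by
    rintro rfl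
    exact h2 (by rw [h3, pow_zero])
  rw [h3]
  exact Nat.le_self_pow hi0 l

/-- Chunk GF (S/M). At least five points are killed by π (tor_card: Nm π ≥ 5, a power of l, l ≥ 5: π divides l, Nm π divides Nm l = l^2, Nm π ≠ 1): take T₁ ≠ 0 in Tor act π and T₂ in Tor act π, not in {0, T₁, -T₁}. Then T₁, T₂, T₁ - T₂, T₁ + T₂, T₁ + T₁ (l odd) are nonzero points
killed by l (l = π * c; act l T = l • T), so they are not in Kg (hG.tors l hV). hG.inert: sP - P in Kg for every P; hG.tors n. -/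
theorem inert_fix (h : CMA F A B Om j act) {l : ℕ} (hl : l.Prime) (h5 : 5 ≤ l) {π : 𝓞 F} (hπ : Prime π)
    (hd : π ∣ (l : 𝓞 F)) {Kg : AddSubgroup (Pt (WAB A B) Ω)} {u : Ω} (hG : GMod (WAB A B) V Kg u)
    (hV : V.valuation (l : Ω) = 1) (s : Ω ≃ₐ[F] Ω) (hs : Inert V s)
    (hf : ∀ T ∈ Tor act π, ac (WAB A B) s T = T) (n : ℕ) (hn : V.valuation (n : Ω) = 1) (P : Pt (WAB A B) Ω)
    (hP : n • (ac (WAB A B) s P - P) = 0) : ac (WAB A B) s P = P := by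
  have hN := gf_Nm hl hπ hd
  have hcard := tor_card h hπ.ne_zero
  obtain ⟨c, hc⟩ := hd
  have hkill : ∀ T ∈ Tor act π, l • T = 0 := by
    intro T hT
    have h1 : act (l : 𝓞 F) T = 0 := by
      rw [hc, mul_comm, map_mul]
      change act c (act π T) = 0
      rw [show act π T = 0 from hT, map_zero]
    rw [map_natCast] at h1
    exact h1
  have hnc : ((Tor act π : AddSubgroup (Pt (WAB A B) Ω)) : Set (Pt (WAB A B) Ω)).ncard = Nm π := hcard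
  obtain ⟨T₁, hT₁, hT₁'⟩ := Set.exists_mem_notMem_of_ncard_lt_ncard
    (s := ({0} : Set (Pt (WAB A B) Ω))) (t := ((Tor act π : AddSubgroup (Pt (WAB A B) Ω)) : Set (Pt (WAB A B) Ω)))
    (by rw [hnc, Set.ncard_singleton]; omega) (Set.toFinite _)
  have h3 : ({0, T₁, -T₁} : Set (Pt (WAB A B) Ω)).ncard ≤ 3 := by
    have h4 := Set.ncard_insert_le (0 : Pt (WAB A B) Ω) {T₁, -T₁}
    have h6 := Set.ncard_insert_le T₁ {-T₁}
    rw [Set.ncard_singleton] at h6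
    omega
  obtain ⟨T₂, hT₂, hT₂'⟩ := Set.exists_mem_notMem_of_ncard_lt_ncard
    (s := ({0, T₁, -T₁} : Set (Pt (WAB A B) Ω)))
    (t := ((Tor act π : AddSubgroup (Pt (WAB A B) Ω)) : Set (Pt (WAB A B) Ω)))
    (by rw [hnc]; omega) (Set.toFinite _)
  have hno : ∀ T ∈ Tor act π, T ≠ 0 → T ∉ Kg := fun T hT h0 hK => h0 (hG.tors l hV T hK (hkill T hT))
  have hm₁ : T₁ ∈ Tor act π := hT₁
  have hm₂ : T₂ ∈ Tor act π := hT₂
  have hn₁ : T₁ ≠ 0 := hT₁'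
  have hn₂ : T₂ ≠ 0 := fun h0 => hT₂' (Or.inl h0)
  have hn₃ : T₁ - T₂ ≠ 0 := fun h0 => hT₂' (Or.inr (Or.inl (sub_eq_zero.1 h0).symm))
  have hn₄ : T₁ + T₂ ≠ 0 := fun h0 => hT₂' (Or.inr (Or.inr (eq_neg_of_add_eq_zero_right h0)))
  have hn₅ : T₁ + T₁ ≠ 0 := by
    intro h0
    obtain ⟨k, hk⟩ := hl.odd_of_ne_two (by omega)
    apply hn₁
    have h7 := hkill T₁ hm₁
    rw [hk, add_smul, mul_comm, mul_smul, two_smul, h0, smul_zero, one_smul, zero_add] at h7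
    exact h7
  have h8 := hG.inert s hs ⟨T₁, T₂, hno T₁ hm₁ hn₁, hno T₂ hm₂ hn₂, hno _ (sub_mem hm₁ hm₂) hn₃,
    hno _ (add_mem hm₁ hm₂) hn₄, hno _ (add_mem hm₁ hm₁) hn₅, hf T₁ hm₁, hf T₂ hm₂⟩ P
  exact sub_eq_zero.1 (hG.tors n hn _ h8 hP)

end H55K
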