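import Mathlib
import Pool.Agent.Lib.H55K.GF
import Pool.Agent.Lib.H55K.M0
import Pool.Agent.Lib.H55K.M4A
import Pool.Agent.Lib.H55P.Stm

/-! # H55K: no p-torsion fixed by inertia at a bad prime -/

open NumberField IsDedekindDomain WeierstrassCurve

namespace H55K.TQ

open H55P (IQ embF eF LF Per IsHecke Pt ac Inert Dec Nm UnitP)
open H35P (WAB Ker tt GoodW IntW)
open H55K.MG (VC Crd)

variable {F : Type} [Field F] [NumberField F] [IQ F] {W₀ : WeierstrassCurve (𝓞 F)} {Om : ℂ}
    {m : Ideal (𝓞 F)} {ψ : Ideal (𝓞 F) →*₀ 𝓞 F} {p : ℕ}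

omit [NumberField F] [IQ F] in
theorem t11a_prime {F : Type} [Field F] [NumberField F] [IQ F] {M : Type} [AddCommGroup M]
    (act : 𝓞 F →+* AddMonoid.End M) (a : 𝓞 F) : a ≠ 0 → ∀ T : M, T ≠ 0 → act a T = 0 →
    ∃ π c : 𝓞 F, Prime π ∧ π ∣ a ∧ act c T ≠ 0 ∧ act π (act c T) = 0 := by
  induction a using UniqueFactorizationMonoid.induction_on_prime with
  | h₁ => exact fun h => absurd rfl h
  | h₂ x hx =>
    intro _ T hT h
    exfalso
    obtain ⟨y, hy⟩ := hx.exists_left_inv
    apply hT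
    have h1 : act (y * x) T = T := by
      rw [hy, map_one]
      rfl
    rw [← h1, map_mul]
    show act y (act x T) = 0
    rw [h, map_zero]
  | h₃ a π ha hπ ih =>
    intro _ T hT h
    by_cases h1 : act a T = 0
    · obtain ⟨π', c, h2, h3, h4, h5⟩ := ih ha T hT h1
      exact ⟨π', c, h2, h3.mul_left π, h4, h5⟩
    · refine ⟨π, a, hπ, dvd_mul_right π a, h1, ?_⟩
      rw [map_mul] at h
      exact h

/-- Chunk T11A (S/M). One automorphism: π from the prime divisors of p in 𝓞 F: some multiple act c T is a nonzero point killed by a prime π dividing p (p T = 0, T ≠ 0: the annihilator {a : act a T = 0} contains p; it is generated by some b (class number one), b is not a unit, b = π c, take act c T ≠ 0 killed by π). The points killed by π are the multiples act a (act c T) (h.gen for π: a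
cyclic module over the field 𝓞 F/π; every nonzero element generates). s commutes with act (h.gal), so s fixes Tor act π, and inert_fix (GF.lean, hG, V(p) = 1) for n = p. -/
theorem fix_from_one {A B : F} {Ω : Type} [Field Ω] [DecidableEq Ω] [Algebra F Ω] {j : Ω →+* ℂ}
    {act : 𝓞 F →+* AddMonoid.End (Pt (WAB A B) Ω)} (h : CMA F A B Om j act) {V : ValuationSubring Ω}
    {Kg : AddSubgroup (Pt (WAB A B) Ω)} {u : Ω} (hG : GMod (WAB A B) V Kg u) (hp : p.Prime) (h5 : 5 ≤ p)
    (hV : V.valuation (p : Ω) = 1) (s : Ω ≃ₐ[F] Ω) (hs : Inert V s) {T : Pt (WAB A B) Ω} (hT : p • T = 0)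
    (h0 : T ≠ 0) (hf : ac (WAB A B) s T = T) (P : Pt (WAB A B) Ω) (hP : p • P = 0) : ac (WAB A B) s P = P := by
  have hmul : ∀ (a b : 𝓞 F) (Q : Pt (WAB A B) Ω), act (a * b) Q = act a (act b Q) := by
    intro a b Q
    rw [map_mul]
    rfl
  have hp0 : (p : 𝓞 F) ≠ 0 := by exact_mod_cast hp.ne_zero
  have hTp : act (p : 𝓞 F) T = 0 := by
    rw [map_natCast]
    exact hT
  obtain ⟨π, c, hπ, hd, hc0, hπc⟩ := t11a_prime act (p : 𝓞 F) hp0 T h0 hTp
  obtain ⟨T₀, hT₀, hgen, hT₀a, -⟩ := h.gen π hπ.ne_zero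
  obtain ⟨a, ha⟩ := hgen (act c T) hπc
  have hnd : ¬ π ∣ a := by
    intro hda
    exact hc0 (by rw [ha]; exact (hT₀a a).2 hda)
  obtain ⟨u, v, huv⟩ := (hπ.coprime_iff_not_dvd.2 hnd : IsCoprime π a)
  have hT₀' : T₀ = act v (act c T) := by
    have h1 : act (u * π + v * a) T₀ = T₀ := by
      rw [huv, map_one]
      rfl
    have h2 : act (u * π + v * a) T₀ = act (u * π) T₀ + act (v * a) T₀ := by
      rw [map_add]
      rfl
    have h3 : act (u * π) T₀ = 0 := by
      rw [hmul, show act π T₀ = 0 from hT₀, map_zero]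
    rw [← h1, h2, h3, zero_add, hmul, ← ha]
  have hfix : ∀ T' ∈ Tor act π, ac (WAB A B) s T' = T' := by
    intro T' hT'
    obtain ⟨a', ha'⟩ := hgen T' hT'
    rw [ha', hT₀', h.gal, h.gal, h.gal, hf]
  refine inert_fix h hp h5 hπ hd hG hV s hs hfix p hV P ?_
  rw [smul_sub, ← map_nsmul, hP, map_zero, sub_zero]

end H55K.TQ
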