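import Mathlib
import Pool.Agent.Lib.H55K.C0
import Pool.Agent.Lib.H55K.D2
import Pool.Agent.Lib.H55K.QC1C
import Pool.Agent.Lib.H55K.T0
import Pool.Agent.Lib.H55K.T9A

/-! # H55K: good reduction over a subfield and valuation rings of the algebraic closure -/

open NumberField IsDedekindDomain WeierstrassCurve

namespace H55K.TQ

open H55P (IQ embF eF LF Per IsHecke Pt ac Inert Dec Nm UnitP)
open H35P (WAB Ker tt GoodW IntW)
open H55K.MG (VC Crd)

section

variable {M : Type} [Field M] [NumberField M] {Ω : Type} [Field Ω] [Algebra M Ω]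

/-- The integers of M have valuation at most one. -/
theorem t9b_int (V : ValuationSubring Ω) (e : 𝓞 M) : V.valuation (algebraMap M Ω (e : M)) ≤ 1 := by
  rw [ValuationSubring.valuation_le_one_iff]
  have h1 : IsIntegral ℤ (e : M) := e.isIntegral_coe
  have h2 : IsIntegral ℤ (algebraMap M Ω (e : M)) := h1.map (algebraMap M Ω).toIntAlgHom
  have h3 : IsIntegral V (algebraMap M Ω (e : M)) := h2.tower_top
  obtain ⟨y, hy⟩ := IsIntegrallyClosed.isIntegral_iff.mp h3
  have h4 : ((y : V) : Ω) = algebraMap M Ω (e : M) := hy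
  rw [← h4]
  exact y.2

/-- The elements outside w are units. -/
theorem t9b_unit {w : HeightOneSpectrum (𝓞 M)} {V : ValuationSubring Ω}
    (hV : ∀ a : 𝓞 M, a ∈ w.asIdeal → V.valuation (algebraMap M Ω (a : M)) < 1) {d : 𝓞 M}
    (hd : d ∉ w.asIdeal) : V.valuation (algebraMap M Ω (d : M)) = 1 := by
  apply le_antisymm (t9b_int V d)
  by_contra hlt
  push Not at hlt
  have hmax : w.asIdeal.IsMaximal := w.isMaximal
  obtain ⟨e, i, hi, he⟩ := hmax.exists_inv hd
  have h5 : algebraMap M Ω (e : M) * algebraMap M Ω (d : M) + algebraMap M Ω (i : M) = 1 := by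
    have h6 := congrArg (fun z : 𝓞 M => algebraMap M Ω (z : M)) he
    simp only [map_mul, map_add, map_one] at h6
    exact h6
  have h7 : V.valuation (algebraMap M Ω (e : M) * algebraMap M Ω (d : M) +
      algebraMap M Ω (i : M)) < 1 := by
    refine lt_of_le_of_lt (V.valuation.map_add _ _) (max_lt ?_ (hV i hi))
    rw [map_mul]
    exact lt_of_le_of_lt (mul_le_of_le_one_left' (t9b_int V e)) hlt
  rw [h5, map_one] at h7
  exact lt_irrefl _ h7

/-- The w-integral elements are in V. -/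
theorem t9b_le {w : HeightOneSpectrum (𝓞 M)} {V : ValuationSubring Ω}
    (hV : ∀ a : 𝓞 M, a ∈ w.asIdeal → V.valuation (algebraMap M Ω (a : M)) < 1) {x : M}
    (hx : w.valuation M x ≤ 1) : V.valuation (algebraMap M Ω x) ≤ 1 := by
  obtain ⟨n, ⟨d, hd⟩, h | h⟩ := w.exists_primeCompl_mul_eq_or_mul_eq (K := M) x
  · have h1 : V.valuation (algebraMap M Ω x) * V.valuation (algebraMap M Ω (d : M)) =
        V.valuation (algebraMap M Ω (n : M)) := by
      rw [← map_mul, ← map_mul]
      exact congrArg (fun z => V.valuation (algebraMap M Ω z)) h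
    rw [t9b_unit hV hd, mul_one] at h1
    rw [h1]
    exact t9b_int V n
  · have h1 : w.valuation M x * w.valuation M (algebraMap (𝓞 M) M n) = w.valuation M (algebraMap (𝓞 M) M d) := by
      rw [← map_mul]
      exact congrArg _ h
    rw [(w.valuation_eq_one_iff_notMem (K := M)).mpr hd] at h1
    have hn : n ∉ w.asIdeal := by
      intro hn
      have h2 : w.valuation M (algebraMap (𝓞 M) M n) < 1 := (w.valuation_lt_one_iff_mem n).2 hn
      exact absurd h1 (lt_of_le_of_lt (mul_le_of_le_one_left' hx) h2).ne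
    have h3 : V.valuation (algebraMap M Ω x) * V.valuation (algebraMap M Ω (n : M)) =
        V.valuation (algebraMap M Ω (d : M)) := by
      rw [← map_mul, ← map_mul]
      exact congrArg (fun z => V.valuation (algebraMap M Ω z)) h
    rw [t9b_unit hV hn, t9b_unit hV hd, mul_one] at h3
    rw [h3]

/-- The w-units are units of V. -/
theorem t9b_eq {w : HeightOneSpectrum (𝓞 M)} {V : ValuationSubring Ω}
    (hV : ∀ a : 𝓞 M, a ∈ w.asIdeal → V.valuation (algebraMap M Ω (a : M)) < 1) {x : M}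
    (hx : w.valuation M x = 1) : V.valuation (algebraMap M Ω x) = 1 := by
  apply le_antisymm (t9b_le hV hx.le)
  have h1 : w.valuation M x⁻¹ ≤ 1 := by
    rw [map_inv₀, hx, inv_one]
  have h2 := t9b_le hV h1
  rw [map_inv₀, map_inv₀] at h2
  have hx0 : x ≠ 0 := by
    rintro rfl
    rw [map_zero] at hx
    exact zero_ne_one hx
  by_contra h3
  push Not at h3
  have h4 : V.valuation (algebraMap M Ω x) ≠ 0 := by
    intro h0
    rw [Valuation.zero_iff, map_eq_zero] at h0
    exact hx0 h0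
  exact absurd h2 (not_le.mpr ((one_lt_inv₀ (zero_lt_iff.mpr h4)).mpr h3))

end

/-- Chunk T9B (M). GoodAt: C over M (vc_smul); composition with vc_short over Ω (vc_map, vc_comp; the numbers are in M). The curve C • ((W₀⁄F)⁄M) has w-integral coefficients; V contains the w-integral elements of M: x = a/b with a, b in 𝓞 M, b not in w (V(b) = 1: V(a) ≤ 1 for integers; b c - 1 in w for some c), discriminant: a w-unit x and 1/x. -/
theorem gmd_of_good {F : Type} [Field F] [NumberField F] {Ω : Type} [Field Ω] [Algebra F Ω]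
    (W₀ : WeierstrassCurve (𝓞 F)) {A B : F} (hA : A = -(algebraMap (𝓞 F) F W₀.c₄) / 48)
    (hB : B = -(algebraMap (𝓞 F) F W₀.c₆) / 864) {M : IntermediateField F Ω} [NumberField M]
    (w : HeightOneSpectrum (𝓞 M)) {V : ValuationSubring Ω}
    (hV : ∀ a : 𝓞 M, a ∈ w.asIdeal → V.valuation ((a : M) : Ω) < 1) (h : GoodAt ((W₀⁄F)⁄M) w) :
    GMd ((WAB A B)⁄Ω) V (M : Set Ω) := by
  obtain ⟨C, h1, h2, h3, h4, h6, hd⟩ := h
  obtain ⟨r₀, s₀, t₀, hs⟩ := vc_short W₀ hA hB
  have hs' := vc_map (algebraMap F Ω) hs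
  have hC := vc_map (algebraMap M Ω) (vc_smul ((W₀⁄F)⁄M) C)
  have hmm : ((W₀⁄F)⁄M).map (algebraMap M Ω) = (W₀⁄F).map (algebraMap F Ω) := by
    rw [IsScalarTower.algebraMap_eq F M Ω, ← WeierstrassCurve.map_map]
    rfl
  rw [hmm] at hC
  have hcomp := vc_comp hs' hC
  have hmF : ∀ x : F, algebraMap F Ω x ∈ M := fun x => M.algebraMap_mem x
  have hmM : ∀ x : M, algebraMap M Ω x ∈ M := fun x => x.2
  have hV' : ∀ a : 𝓞 M, a ∈ w.asIdeal → V.valuation (algebraMap M Ω (a : M)) < 1 := hV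
  refine ⟨_, _, _, _, _, ?_, ?_, ?_, ?_, hcomp, ?_⟩
  · exact M.mul_mem (hmF 1) (hmM _)
  · exact M.add_mem (M.mul_mem (pow_mem (hmF 1) 2) (hmM _)) (hmF _)
  · exact M.add_mem (M.mul_mem (hmF 1) (hmM _)) (hmF _)
  · exact M.add_mem (M.add_mem (M.mul_mem (pow_mem (hmF 1) 3) (hmM _))
      (M.mul_mem (M.mul_mem (hmF _) (pow_mem (hmF 1) 2)) (hmM _))) (hmF _)
  · refine ⟨⟨?_, ?_, ?_, ?_, ?_⟩, ?_⟩
    · exact (V.valuation_le_one_iff _).1 (t9b_le hV' h1)
    · exact (V.valuation_le_one_iff _).1 (t9b_le hV' h2)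
    · exact (V.valuation_le_one_iff _).1 (t9b_le hV' h3)
    · exact (V.valuation_le_one_iff _).1 (t9b_le hV' h4)
    · exact (V.valuation_le_one_iff _).1 (t9b_le hV' h6)
    · rw [WeierstrassCurve.map_Δ]
      exact t9b_eq hV' hd

end H55K.TQ
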