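import Mathlib
import Pool.Agent.Lib.H55K.M0
import Pool.Agent.Lib.H55K.M2A
import Pool.Agent.Lib.H55P.Stm

/-! # H55K: extension of the valuation ring to an algebraic closure -/

open NumberField IsDedekindDomain WeierstrassCurve

namespace H55K.TQ

open H55P (IQ embF eF LF Per IsHecke Pt ac Inert Dec Nm UnitP)
open H35P (WAB Ker tt GoodW IntW)
open H55K.MG (VC Crd)

variable {k : Type} [Field k] {Ω : Type} [Field Ω] [Algebra k Ω]

/-- Chunk QB1A (S/M). The image of V₀ in Ω is a local subring (V₀ as a LocalSubring: ValuationSubring.toLocalSubring, its image under algebraMap: LocalSubring.map or by hand); LocalSubring.exists_le_valuationSubring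
gives V dominating it: V₀ maps into V and the maximal ideal of V₀ maps into the elements of value < 1. So x in V₀ implies x in V, and if x is not in V₀ then 1/x has value < 1 in V₀, so 1/x has value < 1 in V and x is not in V. -/
theorem exists_ext (V₀ : ValuationSubring k) :
    ∃ V : ValuationSubring Ω, ∀ x : k, algebraMap k Ω x ∈ V ↔ x ∈ V₀ := by
  obtain ⟨V, hV⟩ := LocalSubring.exists_le_valuationSubring (V₀.toLocalSubring.map (algebraMap k Ω))
  have hmem : ∀ x ∈ V₀, algebraMap k Ω x ∈ V := fun x hx => hV.1 ⟨x, hx, rfl⟩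
  refine ⟨V, fun x => ⟨fun hx => ?_, hmem x⟩⟩
  by_contra hn
  have hx0 : x ≠ 0 := by
    rintro rfl
    exact hn V₀.zero_mem
  have hinv : x⁻¹ ∈ V₀ := (V₀.mem_or_inv_mem x).resolve_left hn
  -- the image of x⁻¹ is a unit of V, so of the image of V₀
  have hu : IsUnit (Subring.inclusion hV.1 ⟨algebraMap k Ω x⁻¹, ⟨x⁻¹, hinv, rfl⟩⟩) := by
    refine isUnit_iff_exists_inv.mpr ⟨⟨algebraMap k Ω x, hx⟩, Subtype.ext ?_⟩
    show algebraMap k Ω x⁻¹ * algebraMap k Ω x = 1
    rw [← map_mul, inv_mul_cancel₀ hx0, map_one]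
  obtain ⟨y, hy⟩ := isUnit_iff_exists_inv.mp (hV.2.1 _ hu)
  obtain ⟨z, hz, hzy⟩ := y.2
  have h1 : algebraMap k Ω x⁻¹ * (y : Ω) = 1 := congrArg Subtype.val hy
  rw [← hzy] at h1
  have h2 : algebraMap k Ω (x⁻¹ * z) = algebraMap k Ω 1 := by
    rw [map_mul, map_one]
    exact h1
  have h3 := (algebraMap k Ω).injective h2
  have h4 : z = x := by
    field_simp at h3
    exact h3
  rw [h4] at hz
  exact hn hz

/-- Chunk QB1A (S). The values correspond. -/
theorem ext_val {V₀ : ValuationSubring k} {V : ValuationSubring Ω}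
    (h : ∀ x : k, algebraMap k Ω x ∈ V ↔ x ∈ V₀) (x y : k) :
    (V.valuation (algebraMap k Ω x) ≤ V.valuation (algebraMap k Ω y) ↔ V₀.valuation x ≤ V₀.valuation y) ∧
    (V.valuation (algebraMap k Ω x) < V.valuation (algebraMap k Ω y) ↔ V₀.valuation x < V₀.valuation y) := by
  have hle : ∀ x y : k, (V.valuation (algebraMap k Ω x) ≤ V.valuation (algebraMap k Ω y) ↔ V₀.valuation x ≤ V₀.valuation y) := by
    intro x y
    by_cases hy : y = 0
    · subst hy
      rw [map_zero, map_zero, map_zero, le_zero_iff, le_zero_iff, map_eq_zero, map_eq_zero, map_eq_zero]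
    · have hy' : algebraMap k Ω y ≠ 0 := (map_ne_zero _).2 hy
      have h1 : V.valuation (algebraMap k Ω x) ≤ V.valuation (algebraMap k Ω y) ↔ algebraMap k Ω (x / y) ∈ V := by
        rw [← V.valuation_le_one_iff, map_div₀, map_div₀, div_le_one₀]
        exact zero_lt_iff.2 ((map_ne_zero _).2 hy')
      have h2 : V₀.valuation x ≤ V₀.valuation y ↔ x / y ∈ V₀ := by
        rw [← V₀.valuation_le_one_iff, map_div₀, div_le_one₀]
        exact zero_lt_iff.2 ((map_ne_zero _).2 hy)
      rw [h1, h2]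
      exact h _
  refine ⟨hle x y, ?_⟩
  rw [← not_le, ← not_le, hle y x]

end H55K.TQ
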