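import Mathlib
import Pool.Agent.Lib.H55K.QB1A

/-! # H55K: good reduction over a subfield and valuation rings of the algebraic closure -/

open NumberField IsDedekindDomain WeierstrassCurve

namespace H55K.TQ

open H55P (IQ embF eF LF Per IsHecke Pt ac Inert Dec Nm UnitP)
open H35P (WAB Ker tt GoodW IntW)
open H55K.MG (VC Crd)

/-- Chunk T9D (S/M). A valuation ring of Ω above a prime w of M: exists_ext (QB1A) for the valuation subring of w.valuation M. -/
theorem exists_V {F : Type} [Field F] [NumberField F] {Ω : Type} [Field Ω] [Algebra F Ω]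
    (M : IntermediateField F Ω) [NumberField M] (w : HeightOneSpectrum (𝓞 M)) :
    ∃ V : ValuationSubring Ω, ∀ a : 𝓞 M, a ∈ w.asIdeal → V.valuation ((a : M) : Ω) < 1 := by
  obtain ⟨V, hV⟩ := exists_ext (k := M) (Ω := Ω) (w.valuation M).valuationSubring
  refine ⟨V, fun a ha => ?_⟩
  have h1 := (ext_val hV (a : M) 1).2
  rw [map_one, map_one, map_one] at h1
  refine h1.2 ?_
  have h2 := (Valuation.isEquiv_valuation_valuationSubring (w.valuation M)).lt_one_iff_lt_one (x := (a : M))
  rw [← h2]
  have h3 : w.valuation M (algebraMap (𝓞 M) M a) < 1 := (HeightOneSpectrum.valuation_lt_one_iff_mem w a).2 ha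
  exact h3

end H55K.TQ
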