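import Mathlib
import Pool.Agent.Lib.H55P.EDef
import Pool.Agent.Lib.H55P.Sel
import Pool.Agent.Lib.H55P.TD
import Pool.Agent.Lib.H55P.Z10

/-! # H55K: primes of F and of the bottom field -/

open NumberField IsDedekindDomain WeierstrassCurve

namespace H55K

open H55P (IQ embF eF LF Per IsHecke Pt ac Inert Dec Nm Ram RamF)

variable {F : Type} [Field F] [NumberField F] {Ω : Type} [Field Ω] [Algebra F Ω]

theorem y9_surj : Function.Surjective (algebraMap (𝓞 F) (𝓞 (⊥ : IntermediateField F Ω))) := by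
  intro x
  obtain ⟨y, hy⟩ := IntermediateField.mem_bot.1 ((x : (⊥ : IntermediateField F Ω))).2
  have hyi : IsIntegral ℤ y := by
    have h2 : IsIntegral ℤ ((x : (⊥ : IntermediateField F Ω)) : Ω) :=
      (RingOfIntegers.isIntegral_coe x).map
        ((⊥ : IntermediateField F Ω).val.toRingHom.toIntAlgHom)
    rw [← hy] at h2
    exact (isIntegral_algebraMap_iff (algebraMap F Ω).injective).1 h2
  refine ⟨⟨y, hyi⟩, ?_⟩
  apply RingOfIntegers.ext
  apply Subtype.ext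
  rw [← hy]
  rfl

theorem y9_inj : Function.Injective (algebraMap (𝓞 F) (𝓞 (⊥ : IntermediateField F Ω))) := by
  intro x y hxy
  have h1 : algebraMap F Ω (x : F) = algebraMap F Ω (y : F) :=
    congrArg (fun z : 𝓞 (⊥ : IntermediateField F Ω) => ((z : (⊥ : IntermediateField F Ω)) : Ω)) hxy
  exact RingOfIntegers.ext ((algebraMap F Ω).injective h1)

/-- The prime of the bottom field above a prime of F. -/
theorem y9_up (v₀ : HeightOneSpectrum (𝓞 F)) :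
    ∃ v : HeightOneSpectrum (𝓞 (⊥ : IntermediateField F Ω)),
      ∀ x : 𝓞 F, x ∈ v₀.asIdeal ↔ algebraMap (𝓞 F) (𝓞 (⊥ : IntermediateField F Ω)) x ∈ v.asIdeal := by
  obtain ⟨gE, hgE⟩ : ∃ gE : 𝓞 F ≃+* 𝓞 (⊥ : IntermediateField F Ω), ∀ x, gE x = algebraMap (𝓞 F) _ x :=
    ⟨RingEquiv.ofBijective _ ⟨y9_inj, y9_surj⟩, fun _ => rfl⟩
  have hp : (v₀.asIdeal.comap (gE.symm : 𝓞 (⊥ : IntermediateField F Ω) →+* 𝓞 F)).IsPrime :=
    Ideal.IsPrime.comap (gE.symm : 𝓞 (⊥ : IntermediateField F Ω) →+* 𝓞 F)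
  have hne : v₀.asIdeal.comap (gE.symm : 𝓞 (⊥ : IntermediateField F Ω) →+* 𝓞 F) ≠ ⊥ := by
    intro h0
    apply v₀.ne_bot
    rw [eq_bot_iff]
    intro x hx
    have h1 : gE x ∈ v₀.asIdeal.comap (gE.symm : 𝓞 (⊥ : IntermediateField F Ω) →+* 𝓞 F) := by
      rw [Ideal.mem_comap]
      show gE.symm (gE x) ∈ _
      rw [gE.symm_apply_apply]
      exact hx
    rw [h0, Ideal.mem_bot] at h1
    rw [Ideal.mem_bot]
    exact gE.injective (h1.trans (map_zero gE).symm)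
  refine ⟨⟨_, hp, hne⟩, fun x => ?_⟩
  rw [Ideal.mem_comap]
  show _ ↔ gE.symm (algebraMap (𝓞 F) _ x) ∈ _
  rw [← hgE, gE.symm_apply_apply]

variable {v₀ : HeightOneSpectrum (𝓞 F)} {v : HeightOneSpectrum (𝓞 (⊥ : IntermediateField F Ω))}

theorem y9_map (h : ∀ x : 𝓞 F, x ∈ v₀.asIdeal ↔
    algebraMap (𝓞 F) (𝓞 (⊥ : IntermediateField F Ω)) x ∈ v.asIdeal) :
    v.asIdeal = v₀.asIdeal.map (algebraMap (𝓞 F) (𝓞 (⊥ : IntermediateField F Ω))) := by
  have h1 : v₀.asIdeal = v.asIdeal.comap (algebraMap (𝓞 F) (𝓞 (⊥ : IntermediateField F Ω))) := by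
    ext x
    rw [Ideal.mem_comap]
    exact h x
  rw [h1, Ideal.map_comap_of_surjective _ y9_surj]

theorem y9_norm [NumberField (⊥ : IntermediateField F Ω)] (h : ∀ x : 𝓞 F, x ∈ v₀.asIdeal ↔
    algebraMap (𝓞 F) (𝓞 (⊥ : IntermediateField F Ω)) x ∈ v.asIdeal) :
    Ideal.relNorm (𝓞 F) v.asIdeal = v₀.asIdeal := by
  have h1 : Module.finrank F (⊥ : IntermediateField F Ω) = 1 := IntermediateField.finrank_bot
  have hr : Module.finrank (𝓞 F) (𝓞 (⊥ : IntermediateField F Ω)) = 1 := by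
    rw [← h1]
    exact (IsFractionRing.finrank_eq (𝓞 F) F (𝓞 (⊥ : IntermediateField F Ω)) (⊥ : IntermediateField F Ω)).symm
  rw [y9_map h, Ideal.relNorm_algebraMap (𝓞 (⊥ : IntermediateField F Ω)) v₀.asIdeal, hr, pow_one]

theorem y9_ram (h : ∀ x : 𝓞 F, x ∈ v₀.asIdeal ↔
    algebraMap (𝓞 F) (𝓞 (⊥ : IntermediateField F Ω)) x ∈ v.asIdeal) (L : IntermediateField F Ω) :
    Ram (⊥ : IntermediateField F Ω) L v.asIdeal ↔ RamF L v₀.asIdeal := by
  constructor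
  · rintro ⟨W, hW, hr⟩
    refine ⟨W, hW, ?_⟩
    rw [Ideal.map_le_iff_le_comap]
    intro x hx
    rw [Ideal.mem_comap]
    exact hr _ (algebraMap (𝓞 F) (𝓞 L) x) ((h x).1 hx) rfl
  · rintro ⟨W, hW, hr⟩
    refine ⟨W, hW, fun x y hx hxy => ?_⟩
    obtain ⟨z, rfl⟩ := y9_surj x
    have h1 : y = algebraMap (𝓞 F) (𝓞 L) z := by
      apply RingOfIntegers.ext
      apply Subtype.ext
      rw [hxy]
      rfl
    rw [h1]
    exact hr (Ideal.mem_map_of_mem _ ((h z).2 hx))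

omit [NumberField F] in
/-- If p is unramified in K then no prime above p is ramified in K. -/
theorem y9_unr {p : ℕ} (K : IntermediateField F Ω) [NumberField K] (hU : H55P.UnrP p K) {v : Ideal (𝓞 F)}
    (hr : RamF K v) : (p : 𝓞 F) ∉ v := by
  intro hpv
  obtain ⟨W, hW, hr⟩ := hr
  have h1 : (p : 𝓞 K) ∈ W ^ 2 := by
    have h2 := hr (Ideal.mem_map_of_mem (algebraMap (𝓞 F) (𝓞 K)) hpv)
    rwa [map_natCast] at h2
  have h3 : W * W ∣ Ideal.span {(p : 𝓞 K)} := by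
    rw [Ideal.dvd_span_singleton, ← pow_two]
    exact h1
  exact hW.ne_top (Ideal.isUnit_iff.1 (hU W h3))

end H55K
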