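import Mathlib
import Pool.Agent.Lib.H55K.E0
import Pool.Agent.Lib.H55R.HD

open NumberField IsDedekindDomain WeierstrassCurve

namespace H55K

open H55P (IQ embF eF LF Per IsHecke Pt ac Inert Dec Nm)
open H35P (WAB Ker tt)
open H55R (Pl ord es fs smulP)

/-! (xc_ac, yc_ac, tt_ac are in E0.lean.)
Chunk K2A (M, many small). ac and coordinates: ac is Affine.Point.map, cases on P, rfl (compare H13S/Defs.lean ac_one, ac_mul and H28G/Map.lean). ac_fix: P = 0 or the coordinates determine the point (Affine.Point.some.injEq).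
Torsion points, b a prime element: T0 from CMA.gen for b. T <> 0 killed by b: T = act a T0 with b not dividing a; 𝓞 F is a principal ideal ring, (b) is maximal: a c = 1 + b d, so act c T = T0. tor_zero: act x T = 0 iff act x T0 = 0 (apply act c, act a) iff b | x.
tor_gen: T' = act a' T0 = act (a' c) T. exists_tor: T0 (1 is not divisible by b: act 1 T0 = T0 <> 0). ac_tor: act b (ac s T) = ac s (act b T) = 0 (CMA.gal).
tor_mul: T in Tor act b, R in Tor act b' then T + R in Tor act (b b'). -/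

variable {F : Type} [Field F] [NumberField F] [IQ F] {A B : F} {Om : ℂ} {Ω : Type} [Field Ω] [DecidableEq Ω]
  [Algebra F Ω] {j : Ω →+* ℂ} {act : 𝓞 F →+* AddMonoid.End (Pt (WAB A B) Ω)}

section
omit [NumberField F] [IQ F]

theorem k2_ac_one (P : Pt (WAB A B) Ω) : ac (WAB A B) (1 : Ω ≃ₐ[F] Ω) P = P := by
  cases P <;> rfl

theorem k2_ac_mul (s t : Ω ≃ₐ[F] Ω) (P : Pt (WAB A B) Ω) :
    ac (WAB A B) (s * t) P = ac (WAB A B) s (ac (WAB A B) t P) := by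
  cases P <;> rfl

theorem k2_ac_inv (s : Ω ≃ₐ[F] Ω) (P : Pt (WAB A B) Ω) :
    ac (WAB A B) s⁻¹ (ac (WAB A B) s P) = P := by
  rw [← k2_ac_mul, inv_mul_cancel, k2_ac_one]

theorem k2_ac_ne (s : Ω ≃ₐ[F] Ω) {P : Pt (WAB A B) Ω} (h : P ≠ 0) : ac (WAB A B) s P ≠ 0 := by
  intro h1
  apply h
  rw [← k2_ac_inv s P, h1, map_zero]

theorem tt_xy (P : Pt (WAB A B) Ω) : tt P = xc P / yc P := by
  rcases P with _ | ⟨x, y, h⟩
  · show (0 : Ω) = 0 / 0
    simp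
  · rfl

theorem pt_ext' {P Q : Pt (WAB A B) Ω} (hP : P ≠ 0) (hQ : Q ≠ 0) (hx : xc P = xc Q) (hy : yc P = yc Q) :
    P = Q := by
  rcases P with _ | ⟨x, y, h⟩
  · exact absurd rfl hP
  · rcases Q with _ | ⟨x', y', h'⟩
    · exact absurd rfl hQ
    · have hx' : x = x' := hx
      have hy' : y = y' := hy
      subst hx'
      subst hy'
      rfl

theorem ac_fix (s : Ω ≃ₐ[F] Ω) {P : Pt (WAB A B) Ω} (hx : s (xc P) = xc P) (hy : s (yc P) = yc P) :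
    ac (WAB A B) s P = P := by
  by_cases hP : P = 0
  · rw [hP, map_zero]
  · apply pt_ext' (k2_ac_ne s hP) hP
    · rw [xc_ac, hx]
    · rw [yc_ac, hy]

end

section
omit [NumberField F] [IQ F]

theorem k2a_mul (a c : 𝓞 F) (P : Pt (WAB A B) Ω) : act (a * c) P = act a (act c P) := by
  rw [map_mul]
  rfl

theorem k2a_add (a c : 𝓞 F) (P : Pt (WAB A B) Ω) : act (a + c) P = act a P + act c P := by
  rw [map_add]
  rfl

theorem k2a_sub (a c : 𝓞 F) (P : Pt (WAB A B) Ω) : act (a - c) P = act a P - act c P := by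
  rw [map_sub]
  rfl

theorem k2a_one (P : Pt (WAB A B) Ω) : act 1 P = P := by
  rw [map_one]
  rfl

theorem k2a_mem {b : 𝓞 F} {T : Pt (WAB A B) Ω} : T ∈ Tor act b ↔ act b T = 0 := Iff.rfl

end

theorem ac_tor (h : CMA F A B Om j act) (s : Ω ≃ₐ[F] Ω) {b : 𝓞 F} {T : Pt (WAB A B) Ω} (hT : T ∈ Tor act b) :
    ac (WAB A B) s T ∈ Tor act b := by
  rw [k2a_mem, ← h.gal, k2a_mem.1 hT, map_zero]

/-- A nonzero point killed by `b` and the standard one generate each other. -/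
theorem k2a_key (h : CMA F A B Om j act) {b : 𝓞 F} (hp : Prime b) : ∃ T₀ ∈ Tor act b,
    (∀ T ∈ Tor act b, ∃ a, T = act a T₀) ∧ (∀ a, act a T₀ = 0 ↔ b ∣ a) ∧
    ∀ T ∈ Tor act b, T ≠ 0 → ∃ c, act c T = T₀ := by
  have hpid : IsPrincipalIdealRing (𝓞 F) := IQ.pid
  obtain ⟨T₀, hT₀, h1, h2, -⟩ := h.gen b hp.ne_zero
  refine ⟨T₀, hT₀, h1, h2, ?_⟩
  intro T hT h0
  obtain ⟨a, ha⟩ := h1 T hT
  have hba : ¬b ∣ a := by
    intro hd
    apply h0
    rw [ha, (h2 a).2 hd]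
  have hcop : IsCoprime a b := ((hp.irreducible.coprime_iff_not_dvd).2 hba).symm
  obtain ⟨c, d, hcd⟩ := hcop
  refine ⟨c, ?_⟩
  have h3 : act (c * a + d * b) T₀ = T₀ := by rw [hcd, k2a_one]
  rw [k2a_add, k2a_mul, k2a_mul, k2a_mem.1 hT₀, map_zero, add_zero, ← ha] at h3
  exact h3

theorem tor_zero (h : CMA F A B Om j act) {b : 𝓞 F} (hp : Prime b) {T : Pt (WAB A B) Ω} (hT : T ∈ Tor act b)
    (h0 : T ≠ 0) (a : 𝓞 F) : act a T = 0 ↔ b ∣ a := by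
  obtain ⟨T₀, hT₀, h1, h2, h3⟩ := k2a_key h hp
  obtain ⟨c, hc⟩ := h3 T hT h0
  constructor
  · intro ha
    rw [← h2, ← hc, ← k2a_mul, mul_comm, k2a_mul, ha, map_zero]
  · rintro ⟨d, rfl⟩
    rw [mul_comm, k2a_mul, k2a_mem.1 hT, map_zero]

theorem tor_gen (h : CMA F A B Om j act) {b : 𝓞 F} (hp : Prime b) {T T' : Pt (WAB A B) Ω} (hT : T ∈ Tor act b)
    (hT' : T' ∈ Tor act b) (h0 : T ≠ 0) : ∃ a : 𝓞 F, act a T = T' := by
  obtain ⟨T₀, hT₀, h1, h2, h3⟩ := k2a_key h hp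
  obtain ⟨c, hc⟩ := h3 T hT h0
  obtain ⟨a, ha⟩ := h1 T' hT'
  exact ⟨a * c, by rw [k2a_mul, hc, ← ha]⟩

theorem exists_tor (h : CMA F A B Om j act) {b : 𝓞 F} (hp : Prime b) : ∃ T ∈ Tor act b, T ≠ 0 := by
  obtain ⟨T₀, hT₀, h1, h2, h3⟩ := k2a_key h hp
  refine ⟨T₀, hT₀, fun h0 => hp.not_isUnit ?_⟩
  exact isUnit_of_dvd_one ((h2 1).1 (by rw [h0, map_zero]))

theorem tor_mul {b b' : 𝓞 F} {T R : Pt (WAB A B) Ω} (hT : T ∈ Tor act b) (hR : R ∈ Tor act b') :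
    T + R ∈ Tor act (b * b') := by
  rw [k2a_mem, map_add, k2a_mul, k2a_mul, k2a_mem.1 hR, map_zero, add_zero, ← k2a_mul, mul_comm, k2a_mul,
    k2a_mem.1 hT, map_zero]

theorem tor_act {b : 𝓞 F} (a : 𝓞 F) {T : Pt (WAB A B) Ω} (hT : T ∈ Tor act b) : act a T ∈ Tor act b := by
  rw [k2a_mem, ← k2a_mul, mul_comm, k2a_mul, k2a_mem.1 hT, map_zero]

theorem tor_dvd {b b' : 𝓞 F} (hd : b ∣ b') {T : Pt (WAB A B) Ω} (hT : T ∈ Tor act b) : T ∈ Tor act b' := by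
  obtain ⟨c, rfl⟩ := hd
  rw [k2a_mem, mul_comm, k2a_mul, k2a_mem.1 hT, map_zero]

end H55K
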