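import Mathlib
import Pool.Agent.Lib.H55K.G4A
import Pool.Agent.Lib.H55K.K2A
import Pool.Agent.Lib.H55K.KD

open NumberField IsDedekindDomain WeierstrassCurve

namespace H55K

open H55P (IQ embF eF LF Per IsHecke Pt ac Inert Dec Nm)
open H35P (WAB Ker tt)
open H55R (Pl ord es fs smulP)

/-! Chunk K1A (M, port of H28G/K1.lean). exists_TFld: Ω is an algebraic closure of F, K a number field inside Ω. N = IntermediateField.adjoin K S, S = the set of the coordinates xc, yc of the points of Tor act b, finite (exists_TN: the nonzero points form a Finset; the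
coordinates of 0 are 0). N/K is finite, normal (every K-automorphism of Ω, restricted to scalars F, maps Tor act b to itself: ac_tor, and xc_ac, yc_ac). gen: s with Fxd K s, fixing the points of Tor act b, fixes S (xc_ac: s (xc T) = xc (ac s T)) and K, so it fixes N:
IntermediateField.adjoin_induction or algHom_ext_of_eq_adjoin.
tfld_of_istf: L : IntermediateField F Ω with IsTF act π L. crd: a coordinate of T in Tor act π is fixed by all s in L.fixingSubgroup, so it is in fixedField (fixingSubgroup L) = L (InfiniteGalois.fixedField_fixingSubgroup, IsAlgClosure.isGalois F Ω). gal: L is normal over F: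
IntermediateField.normal_iff_forall_map_le': for s and x in L: t (s x) = s (s⁻¹ t s x) and s⁻¹ t s fixes the points of Tor act π (ac_mul, ac_tor) so it is in L.fixingSubgroup. gen: clear (Fxd L s iff s in L.fixingSubgroup). -/

variable {F : Type} [Field F] [NumberField F] [IQ F] {A B : F} {Om : ℂ} {Ω : Type} [Field Ω] [DecidableEq Ω]
  [Algebra F Ω] {j : Ω →+* ℂ} {act : 𝓞 F →+* AddMonoid.End (Pt (WAB A B) Ω)}

theorem exists_TFld [IsAlgClosure F Ω] (h : CMA F A B Om j act) (K : Type) [Field K] [NumberField K]
    [Algebra F K] [Algebra K Ω] [IsScalarTower F K Ω] {b : 𝓞 F} (hb : b ≠ 0) :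
    ∃ (N : Type) (_ : Field N) (_ : NumberField N) (_ : Algebra F N) (_ : Algebra K N) (_ : Algebra N Ω)
      (_ : IsScalarTower F K N) (_ : IsScalarTower K N Ω) (_ : IsScalarTower F N Ω), TFld act K N b := by
  classical
  have hcl : IsAlgClosed Ω := IsAlgClosure.isAlgClosed F
  have halF : Algebra.IsAlgebraic F Ω := IsAlgClosure.isAlgebraic
  have halK : Algebra.IsAlgebraic K Ω := Algebra.IsAlgebraic.tower_top (K := F) K
  set S : Set Ω := {x | ∃ R ∈ Tor act b, x = xc R ∨ x = yc R} with hS
  have hSfin : S.Finite := by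
    obtain ⟨T, hT, -⟩ := exists_TN h hb
    have h1 : ((insert 0 T : Finset (Pt (WAB A B) Ω)).image fun R => xc R).finite_toSet.union
      ((insert 0 T : Finset (Pt (WAB A B) Ω)).image fun R => yc R).finite_toSet = _ := rfl
    refine (((insert 0 T : Finset (Pt (WAB A B) Ω)).image fun R => xc R).finite_toSet.union
      ((insert 0 T : Finset (Pt (WAB A B) Ω)).image fun R => yc R).finite_toSet).subset ?_
    rintro x ⟨R, hR, hx⟩
    have hRT : R ∈ (insert 0 T : Finset (Pt (WAB A B) Ω)) := by
      by_cases h0 : R = 0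
      · rw [h0]
        exact Finset.mem_insert_self _ _
      · exact Finset.mem_insert_of_mem ((hT R).2 ⟨hR, h0⟩)
    rcases hx with hx | hx
    · left
      rw [hx]
      exact Finset.mem_coe.2 (Finset.mem_image_of_mem _ hRT)
    · right
      rw [hx]
      exact Finset.mem_coe.2 (Finset.mem_image_of_mem _ hRT)
  let N : IntermediateField K Ω := IntermediateField.adjoin K S
  have hNfin : FiniteDimensional K N := by
    have h1 : Finite S := hSfin.to_subtype
    exact IntermediateField.finiteDimensional_adjoin fun x _ =>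
      (Algebra.IsAlgebraic.isAlgebraic (R := K) x).isIntegral
  have hNn : NumberField N := NumberField.of_module_finite K N
  have hnΩ : Normal K Ω := normal_iff.2 fun x =>
    ⟨(Algebra.IsAlgebraic.isAlgebraic (R := K) x).isIntegral, IsAlgClosed.splits _⟩
  have hmap : ∀ s : Gal(Ω/K), (s : Ω → Ω) '' S ⊆ S := by
    rintro s _ ⟨x, ⟨R, hR, hx⟩, rfl⟩
    refine ⟨ac (WAB A B) (s.restrictScalars F) R, ac_tor h _ hR, ?_⟩
    rcases hx with hx | hx
    · left
      rw [xc_ac, hx]
      rfl
    · right
      rw [yc_ac, hx]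
      rfl
  have hnN : Normal K N := by
    rw [IntermediateField.normal_iff_forall_map_le']
    intro s
    show (IntermediateField.adjoin K S).map _ ≤ IntermediateField.adjoin K S
    rw [IntermediateField.adjoin_map]
    exact IntermediateField.adjoin.mono _ _ _ (hmap s)
  refine ⟨N, inferInstance, hNn, inferInstance, inferInstance, inferInstance, inferInstance, inferInstance,
    IsScalarTower.of_algebraMap_eq fun _ => rfl, ?_⟩
  refine ⟨⟨⟩, ?_, ?_⟩
  · intro T hT
    exact ⟨⟨xc T, IntermediateField.subset_adjoin _ _ ⟨T, hT, Or.inl rfl⟩⟩,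
      ⟨yc T, IntermediateField.subset_adjoin _ _ ⟨T, hT, Or.inr rfl⟩⟩, rfl, rfl⟩
  · intro s hs hfix x
    show s (x : Ω) = (x : Ω)
    have key : ∀ y ∈ IntermediateField.adjoin K S, s y = y := by
      intro y hy
      induction hy using IntermediateField.adjoin_induction with
      | mem y hy =>
        obtain ⟨R, hR, hy⟩ := hy
        rcases hy with hy | hy
        · rw [hy, ← xc_ac, hfix R hR]
        · rw [hy, ← yc_ac, hfix R hR]
      | algebraMap y => exact hs y
      | add y z _ _ h1 h2 => rw [map_add, h1, h2]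
      | inv y _ h1 => rw [map_inv₀, h1]
      | mul y z _ _ h1 h2 => rw [map_mul, h1, h2]
    exact key x x.2

theorem tfld_of_istf [IsAlgClosure F Ω] (h : CMA F A B Om j act) {π : 𝓞 F} {L : IntermediateField F Ω}
    (hL : IsTF act π L) : TFld act F L π := by
  have hg : IsGalois F Ω := IsAlgClosure.isGalois F Ω
  have hL1 := hL.1
  have hmem : ∀ x : Ω, (∀ s : Ω ≃ₐ[F] Ω, s ∈ L.fixingSubgroup → s x = x) → x ∈ L := by
    intro x hx
    have h1 : x ∈ IntermediateField.fixedField L.fixingSubgroup := by
      rw [IntermediateField.mem_fixedField_iff]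
      exact hx
    rwa [InfiniteGalois.fixedField_fixingSubgroup] at h1
  have hn : Normal F L := by
    rw [IntermediateField.normal_iff_forall_map_le']
    rintro s _ ⟨x, hx, rfl⟩
    apply hmem
    intro t ht
    show t (s x) = s x
    have h2 : s⁻¹ * t * s ∈ L.fixingSubgroup := by
      rw [hL.2]
      intro T hT
      rw [k2_ac_mul, k2_ac_mul, (hL.2 t).1 ht _ (ac_tor h s hT), k2_ac_inv]
    have h3 : (s⁻¹ * t * s) x = x := (IntermediateField.mem_fixingSubgroup_iff L _).1 h2 x hx
    have h4 : s ((s⁻¹ * t * s) x) = t (s x) := by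
      show s (s.symm (t (s x))) = t (s x)
      rw [s.apply_symm_apply]
    rw [← h4, h3]
  refine ⟨⟨⟩, ?_, ?_⟩
  · intro T hT
    have hx : xc T ∈ L := hmem _ fun s hs => by rw [← xc_ac, (hL.2 s).1 hs T hT]
    have hy : yc T ∈ L := hmem _ fun s hs => by rw [← yc_ac, (hL.2 s).1 hs T hT]
    exact ⟨⟨xc T, hx⟩, ⟨yc T, hy⟩, rfl, rfl⟩
  · intro s _ hfix x
    have h1 : s ∈ L.fixingSubgroup := (hL.2 s).2 hfix
    exact (IntermediateField.mem_fixingSubgroup_iff L _).1 h1 x x.2

end H55K
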