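import Mathlib
import Pool.Agent.Lib.H55K.KD

open NumberField IsDedekindDomain WeierstrassCurve

namespace H55K

open H55P (IQ embF eF LF Per IsHecke Pt ac Inert Dec Nm)
open H35P (WAB Ker tt)
open H55R (Pl ord es fs smulP)

/-! Chunk K0B (M). Extension and restriction of automorphisms. F ⊂ K ⊂ N ⊂ Ω, Ω an algebraic closure of F (IsAlgClosure.isAlgClosed F, IsAlgClosure.isAlgebraic, normal: IsAlgClosure.normal F Ω).
exists_lft: σ.restrictScalars F : N ≃ₐ[F] N, s = AlgEquiv.liftNormal _ Ω, AlgEquiv.liftNormal_commutes. fxd: for x : K: algebraMap K Ω x = algebraMap N Ω (algebraMap K N x) (IsScalarTower.algebraMap_apply), σ.commutes.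
mul, one, inv: direct (σ⁻¹: apply s to both sides). exists_res: s as a K-automorphism s' of Ω (AlgEquiv.ofRingEquiv, commutes by hs); σ = s'.restrictNormal N (AlgEquiv.restrictNormal needs Normal K N), AlgEquiv.restrictNormal_commutes.
lft_eq: if s extends σ and τ then σ = τ (algebraMap N Ω is injective). lft_one: if s fixes N then it extends 1; if it extends σ and fixes N then σ = 1.
mem_of_fxd: x in Ω fixed by all s with Fxd N s is in the image of N: N' = (IsScalarTower.toAlgHom F N Ω).fieldRange : IntermediateField F Ω; x in fixedField (fixingSubgroup N') = N' (InfiniteGalois.fixedField_fixingSubgroup, Ω/F is Galois: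
IsAlgClosure.isGalois F Ω); s in N'.fixingSubgroup iff Fxd N s. -/

variable {F : Type} [Field F] [NumberField F] {Ω : Type} [Field Ω] [Algebra F Ω]
  {K N : Type} [Field K] [NumberField K] [Field N] [NumberField N] [Algebra F K] [Algebra F N]
  [Algebra K N] [Algebra K Ω] [Algebra N Ω] [IsScalarTower F K N] [IsScalarTower K N Ω]
  [IsScalarTower F K Ω] [IsScalarTower F N Ω]

theorem exists_lft [IsAlgClosure F Ω] (σ : Gal(N/K)) : ∃ s : Ω ≃ₐ[F] Ω, Lft σ s := by
  have hn : Normal F Ω := IsAlgClosure.normal F Ω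
  refine ⟨AlgEquiv.liftNormal (σ.restrictScalars F : N ≃ₐ[F] N) Ω, fun x => ?_⟩
  exact AlgEquiv.liftNormal_commutes _ _ _

omit [NumberField F] [NumberField K] [NumberField N] in
theorem Lft.fxd {σ : Gal(N/K)} {s : Ω ≃ₐ[F] Ω} (h : Lft σ s) : Fxd K s := by
  intro x
  rw [IsScalarTower.algebraMap_apply K N Ω, h, σ.commutes]

theorem Lft.mul {σ τ : Gal(N/K)} {s t : Ω ≃ₐ[F] Ω} (h : Lft σ s) (h' : Lft τ t) : Lft (σ * τ) (s * t) := by
  intro x
  show s (t (algebraMap N Ω x)) = algebraMap N Ω (σ (τ x))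
  rw [h', h]

theorem lft_one : Lft (1 : Gal(N/K)) (1 : Ω ≃ₐ[F] Ω) := by
  intro x
  rfl

theorem Lft.inv {σ : Gal(N/K)} {s : Ω ≃ₐ[F] Ω} (h : Lft σ s) : Lft σ⁻¹ s⁻¹ := by
  intro x
  apply s.injective
  show s (s.symm (algebraMap N Ω x)) = s (algebraMap N Ω (σ.symm x))
  rw [s.apply_symm_apply, h, σ.apply_symm_apply]

theorem lft_eq {σ τ : Gal(N/K)} {s : Ω ≃ₐ[F] Ω} (h : Lft σ s) (h' : Lft τ s) : σ = τ := by
  ext x
  exact (algebraMap N Ω).injective ((h x).symm.trans (h' x))

theorem lft_fxd {σ : Gal(N/K)} {s : Ω ≃ₐ[F] Ω} (h : Lft σ s) : Fxd N s ↔ σ = 1 := by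
  constructor
  · intro h1
    ext x
    exact (algebraMap N Ω).injective ((h x).symm.trans (h1 x))
  · rintro rfl
    exact h

theorem exists_res [IsGalois K N] (s : Ω ≃ₐ[F] Ω) (hs : Fxd K s) : ∃ σ : Gal(N/K), Lft σ s := by
  have hn : Normal K N := inferInstance
  let s' : Ω ≃ₐ[K] Ω := AlgEquiv.ofRingEquiv (f := s.toRingEquiv) hs
  refine ⟨s'.restrictNormal N, fun x => ?_⟩
  exact (AlgEquiv.restrictNormal_commutes s' N x).symm

theorem mem_of_fxd [IsAlgClosure F Ω] (N : Type) [Field N] [NumberField N] [Algebra F N] [Algebra N Ω]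
    [IsScalarTower F N Ω] (x : Ω) (h : ∀ s : Ω ≃ₐ[F] Ω, Fxd N s → s x = x) :
    ∃ y : N, algebraMap N Ω y = x := by
  have hg : IsGalois F Ω := IsAlgClosure.isGalois F Ω
  set N' : IntermediateField F Ω := (IsScalarTower.toAlgHom F N Ω).fieldRange with hN'
  have h1 : x ∈ IntermediateField.fixedField N'.fixingSubgroup := by
    rw [IntermediateField.mem_fixedField_iff]
    intro s hs
    apply h
    intro y
    exact (IntermediateField.mem_fixingSubgroup_iff N' s).1 hs _ ⟨y, rfl⟩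
  rw [InfiniteGalois.fixedField_fixingSubgroup] at h1
  obtain ⟨y, hy⟩ := h1
  exact ⟨y, hy⟩

end H55K
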