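import Mathlib
import Pool.Agent.Lib.H55K.G4A
import Pool.Agent.Lib.H55K.K0B
import Pool.Agent.Lib.H55K.K2A

open NumberField IsDedekindDomain WeierstrassCurve

namespace H55K

open H55P (IQ embF eF LF Per IsHecke Pt ac Inert Dec Nm)
open H35P (WAB Ker tt)
open H55R (Pl ord es fs smulP)

/-! Chunk K2B (M, port of H28G/K2.lean). lft_tor: two extensions s, s' of σ agree on the coordinates of T (crd), so ac s T = ac s' T (pt_ext', xc_ac; T = 0 is clear). orb_inj: u = t⁻¹ s extends τ⁻¹ σ and fixes R, so (CMA.gal, tor_gen) it fixes Tor act b pointwise; it fixes K (Lft.fxd), so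
Fxd N u (TFld.gen) and τ⁻¹ σ = 1 (lft_fxd). card_le: σ -> ac s R (s an extension, exists_lft) is an injection of Gal(N/K) into Tor act b minus 0, which has Nm b - 1 elements (exists_TN); Nat.card Gal(N/K) = finrank (IsGalois.card_aut_eq_finrank).
exists_chi: as in H28G/K2.lean exists_chi: fix T in Tor act b, T <> 0, for σ choose an extension s and c with act c T = ac s T; q c does not depend on c (tor_zero, hk), nonzero; multiplicative (Lft.mul); injective by orb_inj. -/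

variable {F : Type} [Field F] [NumberField F] [IQ F] {A B : F} {Om : ℂ} {Ω : Type} [Field Ω] [DecidableEq Ω]
  [Algebra F Ω] {j : Ω →+* ℂ} {act : 𝓞 F →+* AddMonoid.End (Pt (WAB A B) Ω)}
  {K N : Type} [Field K] [NumberField K] [Field N] [NumberField N] [Algebra F K] [Algebra F N]
  [Algebra K N] [Algebra K Ω] [Algebra N Ω] [IsScalarTower F K N] [IsScalarTower K N Ω]
  [IsScalarTower F K Ω] [IsScalarTower F N Ω]

omit [NumberField K] in
theorem lft_tor {b : 𝓞 F} (hN : TFld act K N b) {σ : Gal(N/K)} {s s' : Ω ≃ₐ[F] Ω} (h : Lft σ s)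
    (h' : Lft σ s') {T : Pt (WAB A B) Ω} (hT : T ∈ Tor act b) : ac (WAB A B) s T = ac (WAB A B) s' T := by
  by_cases h0 : T = 0
  · rw [h0, map_zero, map_zero]
  · obtain ⟨x, y, hx, hy⟩ := hN.crd T hT
    apply pt_ext' (k2_ac_ne s h0) (k2_ac_ne s' h0)
    · rw [xc_ac, xc_ac, ← hx, h x, h' x]
    · rw [yc_ac, yc_ac, ← hy, h y, h' y]

theorem orb_inj (h : CMA F A B Om j act) {b : 𝓞 F} (hp : Prime b) (hN : TFld act K N b)
    {R : Pt (WAB A B) Ω} (hR : R ∈ Tor act b) (h0 : R ≠ 0) {σ τ : Gal(N/K)} {s t : Ω ≃ₐ[F] Ω}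
    (hs : Lft σ s) (ht : Lft τ t) (he : ac (WAB A B) s R = ac (WAB A B) t R) : σ = τ := by
  have hu : Lft (τ⁻¹ * σ) (t⁻¹ * s) := ht.inv.mul hs
  have h1 : ac (WAB A B) (t⁻¹ * s) R = R := by
    rw [k2_ac_mul, he, k2_ac_inv]
  have h2 : Fxd N (t⁻¹ * s) := by
    apply hN.gen _ hu.fxd
    intro T hT
    obtain ⟨c, hc⟩ := tor_gen h hp hR hT h0
    rw [← hc, h.gal, h1]
  exact (inv_mul_eq_one.1 ((lft_fxd hu).1 h2)).symm

theorem card_le [IsAlgClosure F Ω] (h : CMA F A B Om j act) {b : 𝓞 F} (hp : Prime b)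
    (hN : TFld act K N b) : Module.finrank K N ≤ Nm b - 1 := by
  classical
  have hgal : IsGalois K N := hN.gal
  obtain ⟨R, hR, h0⟩ := exists_tor h hp
  obtain ⟨S, hS, hcard⟩ := exists_TN h hp.ne_zero
  choose s hs using fun σ : Gal(N/K) => exists_lft (F := F) (Ω := Ω) σ
  let f : Gal(N/K) → S := fun σ =>
    ⟨ac (WAB A B) (s σ) R, (hS _).2 ⟨ac_tor h (s σ) hR, k2_ac_ne (s σ) h0⟩⟩
  have hinj : Function.Injective f := by
    intro σ τ hστ
    exact orb_inj h hp hN hR h0 (hs σ) (hs τ) (congrArg Subtype.val hστ)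
  have h1 := Nat.card_le_card_of_injective f hinj
  rw [IsGalois.card_aut_eq_finrank, Nat.card_eq_fintype_card, Fintype.card_coe, hcard] at h1
  exact h1

theorem exists_chi [IsAlgClosure F Ω] (h : CMA F A B Om j act) {b : 𝓞 F} (hp : Prime b)
    (hN : TFld act K N b) {k : Type} [Field k] (q : 𝓞 F →+* k) (hq : Function.Surjective q)
    (hk : ∀ x, q x = 0 ↔ b ∣ x) :
    ∃ χ : Gal(N/K) →* kˣ, Function.Injective χ ∧
      ∀ (σ : Gal(N/K)) (s : Ω ≃ₐ[F] Ω) (c : 𝓞 F), Lft σ s → q c = χ σ → ∀ R ∈ Tor act b,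
        ac (WAB A B) s R = act c R := by
  obtain ⟨T, hT, h0⟩ := exists_tor h hp
  choose s hs using fun σ : Gal(N/K) => exists_lft (F := F) (Ω := Ω) σ
  have hex : ∀ σ : Gal(N/K), ∃ c : 𝓞 F, act c T = ac (WAB A B) (s σ) T := fun σ =>
    tor_gen h hp hT (ac_tor h (s σ) hT) h0
  choose c hc using hex
  have heq : ∀ x y : 𝓞 F, act x T = act y T ↔ q x = q y := by
    intro x y
    rw [← sub_eq_zero, ← k2a_sub, tor_zero h hp hT h0, ← hk, map_sub, sub_eq_zero]
  have hne : ∀ σ, q (c σ) ≠ 0 := by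
    intro σ h1
    rw [hk, ← tor_zero h hp hT h0, hc] at h1
    exact k2_ac_ne _ h0 h1
  let χ : Gal(N/K) →* kˣ :=
    { toFun := fun σ => Units.mk0 (q (c σ)) (hne σ)
      map_one' := by
        apply Units.ext
        show q (c 1) = 1
        rw [← map_one q, ← heq, hc, k2a_one, lft_tor hN (hs 1) lft_one hT, k2_ac_one]
      map_mul' := by
        intro σ τ
        apply Units.ext
        show q (c (σ * τ)) = q (c σ) * q (c τ)
        rw [← map_mul, ← heq, hc, lft_tor hN (hs (σ * τ)) ((hs σ).mul (hs τ)) hT, k2_ac_mul, ← hc τ, h.gal,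
          ← hc σ, ← k2a_mul, mul_comm] }
  have hχ : ∀ σ, ((χ σ : kˣ) : k) = q (c σ) := fun σ => rfl
  refine ⟨χ, ?_, ?_⟩
  · intro σ τ hστ
    have h1 : q (c σ) = q (c τ) := by rw [← hχ, ← hχ, hστ]
    rw [← heq, hc, hc] at h1
    exact orb_inj h hp hN hT h0 (hs σ) (hs τ) h1
  · intro σ s' d hs' hd R hR
    rw [hχ, ← heq, hc] at hd
    obtain ⟨a, ha⟩ := tor_gen h hp hT hR h0
    rw [← ha, h.gal, lft_tor hN hs' (hs σ) hT, ← hd, ← k2a_mul, ← k2a_mul, mul_comm]

end H55K
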