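import Mathlib
import Pool.Agent.Lib.H55K.G5D
import Pool.Agent.Lib.H55K.K0A
import Pool.Agent.Lib.H55K.K2B
import Pool.Agent.Lib.H55R.D5

open NumberField IsDedekindDomain WeierstrassCurve

namespace H55K

open H55P (IQ embF eF LF Per IsHecke Pt ac Inert Dec Nm)
open H35P (WAB Ker tt)
open H55R (Pl ord es fs smulP)

/-! Chunk K3 (M, port of H28G/K3.lean). v.valuation K b = exp(-1). For W above v, V above W (exists_abw): V(ak b) < 1, so GV A B V (hG) and tor_ram: V(tt R)^(Nm b - 1) = V(ak b) for R in Tor act b nonzero; with t : N, algebraMap N Ω t = tt R (t exists: tt_xy and TFld.crd, t = x/y):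
W(t)^(Nm b - 1) = W(b) = exp(-es) (Abw.eq with t^(Nm b - 1) and b; map_pow; ord_map and BF1_val as in H28G/K3.lean). The rest is the proof of H28G/K3.lean: W(t) = exp(-m), (Nm b - 1) m = es, D5_card, card_le give es = Nm b - 1, fs = 1, one prime, degree Nm b - 1.
orb: σ -> ac s R (s an extension of σ) is an injection (orb_inj) from Gal(N/K), Nm b - 1 elements, to Tor act b minus 0, Nm b - 1 elements (exists_TN), so surjective; for any other extension use lft_tor. K3_arith of H28G is elementary (copy it).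
Lemmas about ord_map, BF1_val, es_pos, fs_pos, under_exists, D5_card, D5_mem are in Pool/Agent/Lib/H55R (BF1, BF3, D5, HA11; imports of H28G/K3.lean). -/

variable {F : Type} [Field F] [NumberField F] [IQ F] {A B : F} {Om : ℂ} {Ω : Type} [Field Ω] [DecidableEq Ω]
  [Algebra F Ω] {j : Ω →+* ℂ} {act : 𝓞 F →+* AddMonoid.End (Pt (WAB A B) Ω)}
  {K N : Type} [Field K] [NumberField K] [Field N] [NumberField N] [Algebra F K] [Algebra F N]
  [Algebra K N] [Algebra K Ω] [Algebra N Ω] [IsScalarTower F K N] [IsScalarTower K N Ω]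
  [IsScalarTower F K Ω] [IsScalarTower F N Ω]

theorem k3_arith {c P f m e : ℕ} (hc : 0 < c) (hf : 0 < f) (he : 0 < e) (hm : m * P = e)
    (h : c * (e * f) ≤ P) : c = 1 ∧ f = 1 ∧ m = 1 := by
  subst hm
  have hP : 0 < P := by
    rcases Nat.eq_zero_or_pos P with h0 | h0
    · rw [h0, mul_zero] at he
      exact absurd he (lt_irrefl 0)
    · exact h0
  have hm0 : 0 < m := by
    rcases Nat.eq_zero_or_pos m with h0 | h0
    · rw [h0, zero_mul] at he
      exact absurd he (lt_irrefl 0)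
    · exact h0
  have h1 : (c * f * m) * P ≤ 1 * P := by
    calc (c * f * m) * P = c * (m * P * f) := by ring
      _ ≤ P := h
      _ = 1 * P := (one_mul P).symm
  have h2 : c * f * m ≤ 1 := Nat.le_of_mul_le_mul_right h1 hP
  have h3 : c * f * m = 1 := le_antisymm h2 (Nat.mul_pos (Nat.mul_pos hc hf) hm0)
  have h4 := Nat.eq_one_of_mul_eq_one_left h3
  have h5 := Nat.eq_one_of_mul_eq_one_right h3
  exact ⟨Nat.eq_one_of_mul_eq_one_right h5, Nat.eq_one_of_mul_eq_one_left h5, h4⟩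

theorem tot_ram [IsAlgClosure F Ω] (h : CMA F A B Om j act) {b : 𝓞 F} (hp : Prime b)
    (hN : TFld act K N b) (v : Pl K)
    (hv : v.valuation K (algebraMap F K (b : F)) = WithZero.exp (-1 : ℤ))
    (hG : ∀ V : ValuationSubring Ω, V.valuation (ak Ω b) < 1 → GV A B V) : TotRam act K N b v := by
  classical
  have hgal : IsGalois K N := hN.gal
  have hb0 := hp.ne_zero
  have hle : Module.finrank K N ≤ Nm b - 1 := card_le h hp hN
  have hbF : (b : F) ≠ 0 := by
    intro h1
    exact hb0 (by exact_mod_cast h1)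
  have hakK : algebraMap F K (b : F) ≠ 0 := (map_ne_zero _).2 hbF
  obtain ⟨x, hx⟩ : ∃ x : Kˣ, (x : K) = algebraMap F K (b : F) := ⟨Units.mk0 _ hakK, rfl⟩
  have hordv : ord v x = 1 := by
    have h1 := H55R.BF1_val v x
    rw [hx, hv, WithZero.exp_inj] at h1
    omega
  have hakN : ((Units.map (algebraMap K N : K →* N) x : Nˣ) : N) = algebraMap F N (b : F) := by
    show algebraMap K N (x : K) = _
    rw [hx, ← IsScalarTower.algebraMap_apply F K N]
  have hval : ∀ W : Pl N, W.under (𝓞 K) = v →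
      W.valuation N (algebraMap F N (b : F)) = WithZero.exp (-(es K N v : ℤ)) := by
    intro W hW
    have h1 := H55R.ord_map W v hW x
    rw [hordv, mul_one] at h1
    have h2 := H55R.BF1_val W (Units.map (algebraMap K N : K →* N) x)
    rw [h1, hakN] at h2
    exact h2
  have hes : 0 < es K N v := H55R.es_pos v
  have hfs : 0 < fs K N v := H55R.fs_pos v
  have key : ∀ W : Pl N, W.under (𝓞 K) = v → ∀ R ∈ Tor act b, R ≠ 0 → ∀ t : N, algebraMap N Ω t = tt R →
      ∃ m : ℕ, W.valuation N t = WithZero.exp (-(m : ℤ)) ∧ m * (Nm b - 1) = es K N v := by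
    intro W hW R hR h0 t ht
    obtain ⟨V, hV⟩ := exists_abw Ω W
    have hbΩ : ak Ω b = algebraMap N Ω (algebraMap F N (b : F)) := by
      rw [← IsScalarTower.algebraMap_apply F N Ω]
    have hWb : W.valuation N (algebraMap F N (b : F)) < 1 := by
      rw [hval W hW, ← WithZero.exp_zero, WithZero.exp_lt_exp]
      omega
    have hvb : V.valuation (ak Ω b) < 1 := by
      rw [hbΩ, hV.lt]
      exact hWb
    obtain ⟨-, h2⟩ := tor_ram h (hG V hvb) hp hvb hR h0
    rw [← ht, hbΩ, ← map_pow, ← map_pow, hV.eq, map_pow] at h2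
    have hne : W.valuation N (algebraMap F N (b : F)) ≠ 0 := by
      rw [hval W hW]
      exact WithZero.exp_ne_zero
    have hP0 : Nm b - 1 ≠ 0 := by
      intro h3
      rw [h3, pow_zero] at h2
      exact absurd h2.symm hWb.ne
    have ht0 : W.valuation N t ≠ 0 := by
      intro h3
      rw [h3, zero_pow hP0] at h2
      exact hne h2.symm
    obtain ⟨k, hk⟩ : ∃ k : ℤ, W.valuation N t = WithZero.exp k :=
      ⟨WithZero.log (W.valuation N t), (WithZero.exp_log ht0).symm⟩
    rw [hval W hW, hk, ← WithZero.exp_nsmul, WithZero.exp_inj, nsmul_eq_mul] at h2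
    have hk0 : k ≤ 0 := by
      by_contra hcon
      push Not at hcon
      have h3 : (0 : ℤ) < ((Nm b - 1 : ℕ) : ℤ) := by omega
      have h4 : (0 : ℤ) < ((Nm b - 1 : ℕ) : ℤ) * k := mul_pos h3 hcon
      omega
    obtain ⟨m, hm⟩ : ∃ m : ℕ, k = -(m : ℤ) := ⟨k.natAbs, by omega⟩
    refine ⟨m, by rw [hk, hm], ?_⟩
    rw [hm] at h2
    have h5 : ((m * (Nm b - 1) : ℕ) : ℤ) = (es K N v : ℤ) := by
      rw [Nat.cast_mul]
      linarith
    exact_mod_cast h5
  have hcoord : ∀ R ∈ Tor act b, ∃ t : N, algebraMap N Ω t = tt R := by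
    intro R hR
    obtain ⟨x, y, hx, hy⟩ := hN.crd R hR
    exact ⟨x / y, by rw [map_div₀, hx, hy, tt_xy]⟩
  obtain ⟨W₀, hW₀⟩ := H55R.under_exists (L := N) v
  obtain ⟨T, hT, hT0⟩ := exists_tor h hp
  obtain ⟨t, ht⟩ := hcoord T hT
  obtain ⟨m, -, hm⟩ := key W₀ hW₀ T hT hT0 t ht
  have hcard := H55R.D5_card (L := N) v
  have hcpos : 0 < (H55R.D5_T (L := N) v).card :=
    Finset.card_pos.2 ⟨W₀, (H55R.D5_mem v W₀).2 hW₀⟩
  obtain ⟨hc1, hf1, hm1⟩ := k3_arith hcpos hfs hes hm (hcard.le.trans hle)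
  have hes1 : es K N v = Nm b - 1 := by rw [← hm, hm1, one_mul]
  have hdeg : Module.finrank K N = Nm b - 1 := by
    rw [← hcard, hc1, hf1, hes1, one_mul, mul_one]
  have hP : 0 < Nm b - 1 := hes1 ▸ hes
  refine ⟨hdeg, hes1, hf1, ?_, ?_, ?_⟩
  · intro W W' hW hW'
    obtain ⟨Z, hZ⟩ := Finset.card_eq_one.1 hc1
    have h1 : W ∈ H55R.D5_T (L := N) v := (H55R.D5_mem v W).2 hW
    have h2 : W' ∈ H55R.D5_T (L := N) v := (H55R.D5_mem v W').2 hW'
    rw [hZ, Finset.mem_singleton] at h1 h2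
    rw [h1, h2]
  · intro W hW R hR h0 t' ht'
    obtain ⟨m', hm', hm2⟩ := key W hW R hR h0 t' ht'
    rw [hes1] at hm2
    have h3 : m' = 1 := Nat.eq_of_mul_eq_mul_right hP (by rw [hm2, one_mul])
    rw [hm', h3, Nat.cast_one]
  · intro R hR h0 R' hR' h0'
    obtain ⟨S, hS, hScard⟩ := exists_TN h hb0
    choose s hs using fun σ : Gal(N/K) => exists_lft (F := F) (Ω := Ω) σ
    let f : Gal(N/K) → S := fun σ =>
      ⟨ac (WAB A B) (s σ) R, (hS _).2 ⟨ac_tor h (s σ) hR, k2_ac_ne (s σ) h0⟩⟩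
    have hinj : Function.Injective f := by
      intro σ τ hστ
      exact orb_inj h hp hN hR h0 (hs σ) (hs τ) (congrArg Subtype.val hστ)
    have hbij := hinj.bijective_of_nat_card_le (by
      rw [IsGalois.card_aut_eq_finrank, Nat.card_eq_fintype_card, Fintype.card_coe, hScard, hdeg])
    obtain ⟨σ, hσ⟩ := hbij.2 ⟨R', (hS _).2 ⟨hR', h0'⟩⟩
    refine ⟨σ, fun s' hs' => ?_⟩
    rw [lft_tor hN hs' (hs σ) hR]
    exact congrArg Subtype.val hσ

end H55K
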