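import Mathlib
import Pool.Agent.Lib.H13S.IN4
import Pool.Agent.Lib.H55K.K0A
import Pool.Agent.Lib.H55K.K0B

open NumberField IsDedekindDomain WeierstrassCurve

namespace H55K

open H55P (IQ embF eF LF Per IsHecke Pt ac Inert Dec Nm)
open H35P (WAB Ker tt)
open H55R (Pl ord es fs smulP)

/-! Chunk K0C (M). exists_inert: an element σ of the inertia group of the prime W of N extends to an element s of Gal(Ω/F) in the inertia group of V. s0 with Lft σ s0 (exists_lft). N' = (IsScalarTower.toAlgHom F N Ω).fieldRange : IntermediateField F Ω, finite over F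
(image of N). s0 maps N' to N'. For x = algebraMap N Ω y in V: W.valuation y ≤ 1 (hV), W.valuation (σ y - y) < 1 (H13S.in4_val), so V.valuation (s0 x - x) < 1 (Abw.lt). H13S.inertia_lift gives s.
unr_of_inert: if every s in Inert V with Fxd K s fixes N (V above W) then es K N (W.under) = 1: Ideal.card_inertia_eq_ramificationIdxIn as in H28G/K4.lean (theorem unram), inertia group trivial by exists_inert and lft_fxd (Fxd K s from Lft.fxd).
triv_of_es: conversely: if es K N (W.under (𝓞 K)) = 1, and s (Fxd K s) satisfies V.valuation (s x - x) < 1 for all x = algebraMap N Ω y in V, then Fxd N s: σ from exists_res, σ is in the inertia group of W (V above W, Abw.lt), which has es = 1 elements. -/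

variable {F : Type} [Field F] [NumberField F] {Ω : Type} [Field Ω] [Algebra F Ω]
  {K N : Type} [Field K] [NumberField K] [Field N] [NumberField N] [Algebra F K] [Algebra F N]
  [Algebra K N] [Algebra K Ω] [Algebra N Ω] [IsScalarTower F K N] [IsScalarTower K N Ω]
  [IsScalarTower F K Ω] [IsScalarTower F N Ω]

theorem exists_inert [IsAlgClosure F Ω] {W : Pl N} {V : ValuationSubring Ω} (hV : Abw V W) (σ : Gal(N/K))
    (hσ : ∀ x : 𝓞 N, σ • x - x ∈ W.asIdeal) : ∃ s : Ω ≃ₐ[F] Ω, Inert V s ∧ Lft σ s := by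
  obtain ⟨s0, hs0⟩ := exists_lft (F := F) (Ω := Ω) σ
  set N' : IntermediateField F Ω := (IsScalarTower.toAlgHom F N Ω).fieldRange with hN'
  have hfN : FiniteDimensional F N := FiniteDimensional.right ℚ F N
  have hfin : FiniteDimensional F N' :=
    (AlgEquiv.ofInjectiveField (IsScalarTower.toAlgHom F N Ω)).toLinearEquiv.finiteDimensional
  have hmem : ∀ x : Ω, x ∈ N' → ∃ y : N, algebraMap N Ω y = x := by
    rintro x ⟨y, hy⟩
    exact ⟨y, hy⟩
  obtain ⟨s', h1, h2⟩ := H13S.inertia_lift N' V s0 (by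
      intro x hx
      obtain ⟨y, rfl⟩ := hmem x hx
      rw [hs0]
      exact ⟨σ y, rfl⟩) (by
      intro x hx hxV
      obtain ⟨y, rfl⟩ := hmem x hx
      rw [hs0, ← map_sub, hV.lt]
      exact H13S.in4_val W σ hσ y ((hV y).1 hxV))
  refine ⟨s', h1, fun x => ?_⟩
  rw [h2 (algebraMap N Ω x) ⟨x, rfl⟩, hs0]

theorem unr_of_inert [IsAlgClosure F Ω] [IsGalois K N] {W : Pl N} {V : ValuationSubring Ω} (hV : Abw V W)
    (h : ∀ s : Ω ≃ₐ[F] Ω, Inert V s → Fxd K s → Fxd N s) : es K N (W.under (𝓞 K)) = 1 := by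
  have hWp := W.isPrime
  set v := W.under (𝓞 K) with hv
  have hp := v.isPrime
  have hl : W.asIdeal.LiesOver v.asIdeal := ⟨rfl⟩
  have h1 := Ideal.card_inertia_eq_ramificationIdxIn (G := Gal(N/K)) v.asIdeal W.asIdeal
  have hbot : W.asIdeal.inertia Gal(N/K) = ⊥ := by
    rw [eq_bot_iff]
    intro σ hσ
    rw [Subgroup.mem_bot]
    obtain ⟨s, hs, hs'⟩ := exists_inert (F := F) hV σ (fun x => hσ x)
    exact (lft_fxd hs').1 (h s hs hs'.fxd)
  rw [hbot] at h1
  have h2 : Nat.card (⊥ : Subgroup Gal(N/K)) = 1 := Subgroup.card_bot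
  rw [h2] at h1
  exact h1.symm

theorem triv_of_es [IsGalois K N] {W : Pl N} {V : ValuationSubring Ω} (hV : Abw V W)
    (he : es K N (W.under (𝓞 K)) = 1) (s : Ω ≃ₐ[F] Ω) (hs : Fxd K s)
    (h : ∀ y : N, algebraMap N Ω y ∈ V → V.valuation (s (algebraMap N Ω y) - algebraMap N Ω y) < 1) :
    Fxd N s := by
  have hWp := W.isPrime
  set v := W.under (𝓞 K) with hv
  have hp := v.isPrime
  have hl : W.asIdeal.LiesOver v.asIdeal := ⟨rfl⟩
  have h1 := Ideal.card_inertia_eq_ramificationIdxIn (G := Gal(N/K)) v.asIdeal W.asIdeal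
  obtain ⟨σ, hσ⟩ := exists_res (N := N) s hs
  have hmem : σ ∈ W.asIdeal.inertia Gal(N/K) := by
    intro x
    have h2 : algebraMap N Ω (x : N) ∈ V := (V.valuation_le_one_iff _).1 (k0_int V x)
    have h3 := h (x : N) h2
    rw [hσ, ← map_sub, hV.lt] at h3
    exact (W.valuation_lt_one_iff_mem (σ • x - x)).1 h3
  have h4 : W.asIdeal.inertia Gal(N/K) = ⊥ := by
    apply Subgroup.eq_bot_of_card_eq
    rw [h1]
    exact he
  rw [h4, Subgroup.mem_bot] at hmem
  exact (lft_fxd hσ).2 hmem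

end H55K
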