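import Mathlib
import Pool.Agent.Lib.H55K.G4C
import Pool.Agent.Lib.H55K.GF
import Pool.Agent.Lib.H55K.K0C
import Pool.Agent.Lib.H55K.K2A
import Pool.Agent.Lib.H55R.BF2

open NumberField IsDedekindDomain WeierstrassCurve

namespace H55K

open H55P (IQ embF eF LF Per IsHecke Pt ac Inert Dec Nm)
open H35P (WAB Ker tt)
open H55R (Pl ord es fs smulP)

/-! Chunk K4 (M). Unramified primes. β prime, v a prime of L not containing β, hGN: V is good if V(Nm β) < 1. W a prime of N above v (under_exists), V above W (exists_abw). unr_of_inert: let s in Inert V, Fxd L s; to show Fxd N s, by TFld.gen it is enough that ac s R = R for R in Tor act β.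
V(ak β) = 1 (β not in v; Abw.below, Abw.lt, ak_le or k0_int; ak Ω β = algebraMap L Ω (algebraMap F L β)).
(a) V good (GV A B V): cong_fix: R <> 0 is not in Ker V (tor_unit), so its coordinates are integral, s moves them by elements of value < 1, so ac s R - R in Ker V (H35P.Red: theorem rd or the like: Cong implies the difference is in Ker; see also H35P/Red*.lean), it is in Tor act β (ac_tor), so it is 0 (tor_unit).
V is good if V(l) < 1 (Dta.good) or V(Nm β) < 1 (hGN).
(b) V(l) = 1 and V(Nm β) = 1 (values ≤ 1 of integers): inert_fix for the GMod from Dta.gmod V: s fixes Tor act π (the coordinates of its points are in L: hL.crd, ac_fix), n = Nm β, P = R, n • (ac s R - R) = 0 because Nm β = β * cj β kills Tor act β (mul_cj; act (n : 𝓞 F) P = n • P: map_natCast and AddMonoid.End). -/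

variable {F : Type} [Field F] [NumberField F] [IQ F] {A B : F} {Om : ℂ} {Ω : Type} [Field Ω] [DecidableEq Ω]
  [Algebra F Ω] {j : Ω →+* ℂ} {act : 𝓞 F →+* AddMonoid.End (Pt (WAB A B) Ω)}
  {L N : Type} [Field L] [NumberField L] [Field N] [NumberField N] [Algebra F L] [Algebra F N]
  [Algebra L N] [Algebra L Ω] [Algebra N Ω] [IsScalarTower F L N] [IsScalarTower L N Ω]
  [IsScalarTower F L Ω] [IsScalarTower F N Ω]

/-- Inertia acts trivially on the points killed by a unit, good reduction. -/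
theorem cong_fix (h : CMA F A B Om j act) {V : ValuationSubring Ω} (hV : GV A B V) {β : 𝓞 F}
    (hβ : V.valuation (ak Ω β) = 1) {s : Ω ≃ₐ[F] Ω} {R : Pt (WAB A B) Ω} (hR : R ∈ Tor act β)
    (hs : (xc R ∈ V → V.valuation (s (xc R) - xc R) < 1) ∧ (yc R ∈ V → V.valuation (s (yc R) - yc R) < 1)) :
    ac (WAB A B) s R = R := by
  by_cases h0 : R = 0
  · rw [h0]
    exact map_zero _
  have hK : ¬ Ker V R := fun hk => h0 (tor_unit h hV hβ hR hk)
  obtain ⟨-, hx⟩ := not_ker V hK
  have hy := gv_y hV hK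
  obtain ⟨h1, h2⟩ := hs
  have hx' := h1 ((V.valuation_le_one_iff _).1 hx)
  have hy' := h2 ((V.valuation_le_one_iff _).1 hy)
  have hR' := ac_tor h s hR
  have h0' := k2_ac_ne s h0
  have hK' : ¬ Ker V (ac (WAB A B) s R) := fun hk => h0' (tor_unit h hV hβ hR' hk)
  have h3 : Ker V (ac (WAB A B) s R - R) := by
    refine cls_xy hV hK' hK ?_ ?_
    · rw [xc_ac]
      exact hx'
    · rw [yc_ac]
      exact hy'
  exact sub_eq_zero.1 (tor_unit h hV hβ (sub_mem hR' hR) h3)

theorem unram [IsAlgClosure F Ω] {m : Ideal (𝓞 F)} {ψ : Ideal (𝓞 F) →*₀ 𝓞 F} {l : ℕ}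
    (h : Dta A B Om j act m ψ l) {π : 𝓞 F} (hπ : Prime π) (hd : π ∣ (l : 𝓞 F)) (hL : TFld act F L π)
    {β : 𝓞 F} (hβ : Prime β) (hN : TFld act L N β)
    (hGN : ∀ V : ValuationSubring Ω, V.valuation ((Nm β : ℕ) : Ω) < 1 → GV A B V) (v : Pl L)
    (hv : algebraMap (𝓞 F) (𝓞 L) β ∉ v.asIdeal) : es L N v = 1 := by
  have hgal := hN.gal
  obtain ⟨W, hW⟩ := H55R.under_exists (L := N) v
  obtain ⟨V, hV⟩ := exists_abw Ω W
  rw [← hW]
  refine unr_of_inert (F := F) (K := L) hV ?_
  intro s hs hsL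
  have hVv : Abw V v := hV.below hW
  have hb : V.valuation (ak Ω β) = 1 := by
    have h1 := (hVv.eq_one ((algebraMap (𝓞 F) (𝓞 L) β : 𝓞 L) : L)).2
      ((HeightOneSpectrum.valuation_eq_one_iff_notMem v).2 hv)
    have e : algebraMap L Ω ((algebraMap (𝓞 F) (𝓞 L) β : 𝓞 L) : L) = ak Ω β := by
      show algebraMap L Ω (algebraMap F L (β : F)) = _
      exact (IsScalarTower.algebraMap_apply F L Ω _).symm
    rwa [e] at h1
  refine hN.gen s hsL ?_
  intro R hR
  by_cases hl : V.valuation (l : Ω) < 1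
  · exact cong_fix h.cma (h.good V hl) hb hR ⟨fun hx => hs _ hx, fun hy => hs _ hy⟩
  by_cases hn : V.valuation ((Nm β : ℕ) : Ω) < 1
  · exact cong_fix h.cma (hGN V hn) hb hR ⟨fun hx => hs _ hx, fun hy => hs _ hy⟩
  have hl1 : V.valuation (l : Ω) = 1 := le_antisymm (g4c_nat V l) (not_lt.1 hl)
  have hn1 : V.valuation ((Nm β : ℕ) : Ω) = 1 := le_antisymm (g4c_nat V _) (not_lt.1 hn)
  obtain ⟨Kg, u, hG⟩ := h.gmod V
  refine inert_fix h.cma h.prime h.five hπ hd hG hl1 s hs ?_ (Nm β) hn1 R ?_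
  · intro T hT
    obtain ⟨x, y, hx, hy⟩ := hL.crd T hT
    refine ac_fix s ?_ ?_
    · rw [← hx]
      exact hsL x
    · rw [← hy]
      exact hsL y
  · exact tor_nm (act := act) (sub_mem (ac_tor h.cma s hR) hR)

end H55K
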