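import Mathlib
import Pool.Agent.Lib.H55B.F1

/-! # H55K, part D: two good models differ by an integral change of variables -/

open WeierstrassCurve

namespace H55K.DD

theorem d2a_good (R : Type) [CommRing R] [IsDomain R] [IsDiscreteValuationRing R] (K : Type)
    [Field K] [Algebra R K] [IsFractionRing R K] (W : WeierstrassCurve R) (hΔ : IsUnit W.Δ) :
    ((W⁄K).minimal R).HasGoodReduction R := by
  obtain ⟨C, hC⟩ : ∃ C : VariableChange K, (W⁄K).minimal R = C • (W⁄K) := ⟨_, rfl⟩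
  have hmin : IsMinimal R ((W⁄K).minimal R) := inferInstance
  rw [hasGoodReduction_iff]
  refine ⟨hmin, ?_⟩
  have hWint : IsIntegral R (W⁄K) := ⟨⟨W, rfl⟩⟩
  have hback : C⁻¹ • (W⁄K).minimal R = (W⁄K) := by rw [hC, inv_smul_smul]
  have hmax := hmin.val_Δ_maximal
  have hj : IsIntegral R (C⁻¹ • (W⁄K).minimal R) := by rw [hback]; exact hWint
  have hval : (valuation_Δ_aux R (C⁻¹ • (W⁄K).minimal R)).1 = 1 := by
    rw [hback]
    rw [valuation_Δ_aux_eq_of_isIntegral]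
    have h1 : (W⁄K).Δ = algebraMap R K W.Δ := map_Δ W (algebraMap R K)
    rw [h1]
    exact H55B.F1_val_unit R K hΔ
  have hle : valuation_Δ_aux R ((1 : VariableChange K) •
      (W⁄K).minimal R) ≤ valuation_Δ_aux R (C⁻¹ • (W⁄K).minimal R) := by
    rw [← Subtype.coe_le_coe, hval]
    exact (valuation_Δ_aux R _).2
  have hge := hmax.2 hj hle
  rw [← Subtype.coe_le_coe, hval] at hge
  change 1 ≤ (valuation_Δ_aux R ((1 : VariableChange K) •
      (W⁄K).minimal R)).1 at hge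
  rw [one_smul, valuation_Δ_aux_eq_of_isIntegral] at hge
  refine le_antisymm ?_ hge
  obtain ⟨r, hr⟩ := Δ_integral_of_isIntegral R ((W⁄K).minimal R)
  rw [← hr]
  exact IsDedekindDomain.HeightOneSpectrum.valuation_le_one _ _

/-- Chunk D2A (M), PORT of H55B.F1_good and F1_core (Lib/H55B/F1.lean) to a general integral model W with unit discriminant. F1_good: W⁄K is integral with valuation of the discriminant 1 (F1_val_unit), so the minimal model has valuation of the discriminant 1. core: (W⁄K).minimal R = C • (W⁄K), C = (u, r, s, t) over K; I = integral model, unit discriminant.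
u^12 is a unit times a unit (variableChange_Δ): u and u⁻¹ are in R (IsIntegrallyClosed.exists_algebraMap_eq_of_isIntegral_pow). r: with b₆' = b₆(I), b₈' = b₈(I): u^6 b₆' = b₆ + 2 r b₄ + r^2 b₂ + 4 r^3 and u^8 b₈' = b₈ + 3 r b₆ + 3 r^2 b₄ + r^3 b₂ + 3 r^4 (variableChange_b₆, variableChange_b₈), so
r u^6 b₆' - u^8 b₈' = r^4 - b₄ r^2 - 2 b₆ r - b₈: r is a root of the monic polynomial X^4 - b₄ X^2 - (2 b₆ + u^6 b₆') X + (u^8 b₈' - b₈) over R, so r is in R (IsIntegrallyClosed.isIntegral_iff). s: u^2 a₂' = a₂ - s a₁ + 3 r - s^2 (monic in s). t: u^6 a₆' = a₆ + r a₄ + r^2 a₂ + r^3 - t a₃ - t^2 - r t a₁ (monic in t). The end is as in F1_core. -/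
theorem core (R : Type) [CommRing R] [IsDomain R] [IsDiscreteValuationRing R] (K : Type) [Field K] [Algebra R K]
    [IsFractionRing R K] (W : WeierstrassCurve R) (hΔ : IsUnit W.Δ) :
    ((W⁄K).minimal R).HasGoodReduction R ∧
      ∃ C : VariableChange R, integralModel R ((W⁄K).minimal R) = C • W := by
  refine ⟨d2a_good R K W hΔ, ?_⟩
  obtain ⟨C, hC⟩ : ∃ C : VariableChange K, (W⁄K).minimal R = C • (W⁄K) := ⟨_, rfl⟩
  set I := integralModel R ((W⁄K).minimal R) with hI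
  have inj : Function.Injective (algebraMap R K) := IsFractionRing.injective R K
  -- the discriminant of the integral model is a unit
  have hΔI : IsUnit I.Δ := by
    have hg := (d2a_good R K W hΔ).goodReduction
    rw [← integralModel_Δ_eq R] at hg
    by_contra h
    have := (IsDedekindDomain.HeightOneSpectrum.valuation_lt_one_iff_mem
      (K := K) (IsDiscreteValuationRing.maximalIdeal R) I.Δ).2
      ((IsLocalRing.mem_maximalIdeal _).2 h)
    exact absurd hg this.ne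
  have mΔ : (W⁄K).Δ = algebraMap R K W.Δ := map_Δ W (algebraMap R K)
  have mb₂ : (W⁄K).b₂ = algebraMap R K W.b₂ := map_b₂ W (algebraMap R K)
  have mb₄ : (W⁄K).b₄ = algebraMap R K W.b₄ := map_b₄ W (algebraMap R K)
  have mb₆ : (W⁄K).b₆ = algebraMap R K W.b₆ := map_b₆ W (algebraMap R K)
  have mb₈ : (W⁄K).b₈ = algebraMap R K W.b₈ := map_b₈ W (algebraMap R K)
  have ma₁ : (W⁄K).a₁ = algebraMap R K W.a₁ := rfl
  have ma₂ : (W⁄K).a₂ = algebraMap R K W.a₂ := rfl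
  have ma₃ : (W⁄K).a₃ = algebraMap R K W.a₃ := rfl
  have ma₄ : (W⁄K).a₄ = algebraMap R K W.a₄ := rfl
  have ma₆ : (W⁄K).a₆ = algebraMap R K W.a₆ := rfl
  have eΔ : algebraMap R K I.Δ = ((C.u⁻¹ : Kˣ) : K) ^ 12 * algebraMap R K W.Δ := by
    rw [hI, integralModel_Δ_eq, hC, variableChange_Δ, mΔ]
  have eb₆ : algebraMap R K I.b₆ = ((C.u⁻¹ : Kˣ) : K) ^ 6 * (algebraMap R K W.b₆ +
      2 * C.r * algebraMap R K W.b₄ + C.r ^ 2 * algebraMap R K W.b₂ + 4 * C.r ^ 3) := by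
    rw [hI, integralModel_b₆_eq, hC, variableChange_b₆, mb₆, mb₄, mb₂]
  have eb₈ : algebraMap R K I.b₈ = ((C.u⁻¹ : Kˣ) : K) ^ 8 * (algebraMap R K W.b₈ +
      3 * C.r * algebraMap R K W.b₆ + 3 * C.r ^ 2 * algebraMap R K W.b₄ + C.r ^ 3 * algebraMap R K W.b₂ +
      3 * C.r ^ 4) := by
    rw [hI, integralModel_b₈_eq, hC, variableChange_b₈, mb₈, mb₆, mb₄, mb₂]
  have ea₂ : algebraMap R K I.a₂ = ((C.u⁻¹ : Kˣ) : K) ^ 2 * (algebraMap R K W.a₂ - C.s * algebraMap R K W.a₁ +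
      3 * C.r - C.s ^ 2) := by
    rw [hI, integralModel_a₂_eq, hC, variableChange_a₂, ma₂, ma₁]
  have ea₆ : algebraMap R K I.a₆ = ((C.u⁻¹ : Kˣ) : K) ^ 6 * (algebraMap R K W.a₆ + C.r * algebraMap R K W.a₄ +
      C.r ^ 2 * algebraMap R K W.a₂ + C.r ^ 3 - C.t * algebraMap R K W.a₃ - C.t ^ 2 -
      C.r * C.t * algebraMap R K W.a₁) := by
    rw [hI, integralModel_a₆_eq, hC, variableChange_a₆, ma₆, ma₄, ma₂, ma₃, ma₁]
  set u : K := (C.u : K) with hu
  have hu0 : u ≠ 0 := C.u.ne_zero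
  have huinv : ((C.u⁻¹ : Kˣ) : K) = u⁻¹ := Units.val_inv_eq_inv_val _
  rw [huinv] at eΔ eb₆ eb₈ ea₂ ea₆
  obtain ⟨d, hd⟩ := hΔI
  obtain ⟨m, hm⟩ := hΔ
  -- u is integral
  have hdm : algebraMap R K d = u⁻¹ ^ 12 * algebraMap R K m := by
    rw [hd, eΔ, hm]
  have hu12 : u ^ 12 = algebraMap R K ((m : R) * ((d⁻¹ : Rˣ) : R)) := by
    rw [map_mul]
    have h1 : algebraMap R K d * algebraMap R K ((d⁻¹ : Rˣ) : R) = 1 := by
      rw [← map_mul, Units.mul_inv, map_one]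
    have h2 : u ^ 12 * algebraMap R K d = algebraMap R K m := by
      rw [hdm, inv_pow, mul_inv_cancel_left₀ (pow_ne_zero _ hu0)]
    calc u ^ 12 = u ^ 12 * (algebraMap R K d * algebraMap R K ((d⁻¹ : Rˣ) : R)) := by rw [h1, mul_one]
      _ = (u ^ 12 * algebraMap R K d) * algebraMap R K ((d⁻¹ : Rˣ) : R) := by ring
      _ = _ := by rw [h2]
  have huinv12 : u⁻¹ ^ 12 = algebraMap R K ((d : R) * ((m⁻¹ : Rˣ) : R)) := by
    rw [map_mul]
    have h1 : algebraMap R K m * algebraMap R K ((m⁻¹ : Rˣ) : R) = 1 := by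
      rw [← map_mul, Units.mul_inv, map_one]
    rw [hdm, mul_assoc, h1, mul_one]
  obtain ⟨u₀, hu₀⟩ : ∃ u₀ : R, algebraMap R K u₀ = u := by
    apply IsIntegrallyClosed.exists_algebraMap_eq_of_isIntegral_pow (n := 12) (by norm_num)
    rw [hu12]; exact isIntegral_algebraMap
  obtain ⟨v₀, hv₀⟩ : ∃ v₀ : R, algebraMap R K v₀ = u⁻¹ := by
    apply IsIntegrallyClosed.exists_algebraMap_eq_of_isIntegral_pow (n := 12) (by norm_num)
    rw [huinv12]; exact isIntegral_algebraMap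
  have huv : u₀ * v₀ = 1 := by
    apply inj
    rw [map_mul, hu₀, hv₀, map_one, mul_inv_cancel₀ hu0]
  -- r
  obtain ⟨r₀, hr₀⟩ : ∃ r₀ : R, algebraMap R K r₀ = C.r := by
    rw [← IsIntegrallyClosed.isIntegral_iff]
    refine ⟨Polynomial.X ^ 4 - Polynomial.C W.b₄ * Polynomial.X ^ 2 -
      Polynomial.C (2 * W.b₆ + u₀ ^ 6 * I.b₆) * Polynomial.X + Polynomial.C (u₀ ^ 8 * I.b₈ - W.b₈), ?_, ?_⟩
    · monicity!
    · simp only [Polynomial.eval₂_sub, Polynomial.eval₂_add, Polynomial.eval₂_pow, Polynomial.eval₂_mul,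
        Polynomial.eval₂_X, Polynomial.eval₂_C]
      rw [map_add, map_mul, map_mul, map_sub, map_mul, map_pow, map_pow, hu₀, eb₆, eb₈, map_ofNat]
      have h6 : u ^ 6 * (u⁻¹ ^ 6 * (algebraMap R K W.b₆ +
          2 * C.r * algebraMap R K W.b₄ + C.r ^ 2 * algebraMap R K W.b₂ + 4 * C.r ^ 3)) =
          algebraMap R K W.b₆ + 2 * C.r * algebraMap R K W.b₄ + C.r ^ 2 * algebraMap R K W.b₂ + 4 * C.r ^ 3 := by
        rw [inv_pow, mul_inv_cancel_left₀ (pow_ne_zero _ hu0)]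
      have h8 : u ^ 8 * (u⁻¹ ^ 8 * (algebraMap R K W.b₈ +
          3 * C.r * algebraMap R K W.b₆ + 3 * C.r ^ 2 * algebraMap R K W.b₄ + C.r ^ 3 * algebraMap R K W.b₂ +
          3 * C.r ^ 4)) = algebraMap R K W.b₈ +
          3 * C.r * algebraMap R K W.b₆ + 3 * C.r ^ 2 * algebraMap R K W.b₄ + C.r ^ 3 * algebraMap R K W.b₂ +
          3 * C.r ^ 4 := by
        rw [inv_pow, mul_inv_cancel_left₀ (pow_ne_zero _ hu0)]
      rw [h6, h8]
      ring
  obtain ⟨s₀, hs₀⟩ : ∃ s₀ : R, algebraMap R K s₀ = C.s := by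
    rw [← IsIntegrallyClosed.isIntegral_iff]
    refine ⟨Polynomial.X ^ 2 + Polynomial.C W.a₁ * Polynomial.X -
      Polynomial.C (W.a₂ + 3 * r₀ - u₀ ^ 2 * I.a₂), ?_, ?_⟩
    · monicity!
    · simp only [Polynomial.eval₂_sub, Polynomial.eval₂_add, Polynomial.eval₂_pow, Polynomial.eval₂_mul,
        Polynomial.eval₂_X, Polynomial.eval₂_C]
      rw [map_sub, map_add, map_mul, map_mul, map_pow, hu₀, hr₀, ea₂, map_ofNat]
      have h2 : u ^ 2 * (u⁻¹ ^ 2 * (algebraMap R K W.a₂ - C.s * algebraMap R K W.a₁ + 3 * C.r - C.s ^ 2)) =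
          algebraMap R K W.a₂ - C.s * algebraMap R K W.a₁ + 3 * C.r - C.s ^ 2 := by
        rw [inv_pow, mul_inv_cancel_left₀ (pow_ne_zero _ hu0)]
      rw [h2]
      ring
  obtain ⟨t₀, ht₀⟩ : ∃ t₀ : R, algebraMap R K t₀ = C.t := by
    rw [← IsIntegrallyClosed.isIntegral_iff]
    refine ⟨Polynomial.X ^ 2 + Polynomial.C (W.a₃ + r₀ * W.a₁) * Polynomial.X -
      Polynomial.C (W.a₆ + r₀ * W.a₄ + r₀ ^ 2 * W.a₂ + r₀ ^ 3 - u₀ ^ 6 * I.a₆), ?_, ?_⟩
    · monicity!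
    · simp only [Polynomial.eval₂_sub, Polynomial.eval₂_add, Polynomial.eval₂_pow, Polynomial.eval₂_mul,
        Polynomial.eval₂_X, Polynomial.eval₂_C, map_sub, map_add, map_mul, map_pow, hu₀, hr₀, ea₆]
      have h6 : u ^ 6 * (u⁻¹ ^ 6 * (algebraMap R K W.a₆ + C.r * algebraMap R K W.a₄ +
          C.r ^ 2 * algebraMap R K W.a₂ + C.r ^ 3 - C.t * algebraMap R K W.a₃ - C.t ^ 2 -
          C.r * C.t * algebraMap R K W.a₁)) = algebraMap R K W.a₆ + C.r * algebraMap R K W.a₄ +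
          C.r ^ 2 * algebraMap R K W.a₂ + C.r ^ 3 - C.t * algebraMap R K W.a₃ - C.t ^ 2 -
          C.r * C.t * algebraMap R K W.a₁ := by
        rw [inv_pow, mul_inv_cancel_left₀ (pow_ne_zero _ hu0)]
      rw [h6]
      ring
  refine ⟨⟨⟨u₀, v₀, huv, by rw [mul_comm]; exact huv⟩, r₀, s₀, t₀⟩, ?_⟩
  have hmapinj : Function.Injective
      (fun E : WeierstrassCurve R => E.map (algebraMap R K)) := map_injective inj
  apply hmapinj
  show I.map (algebraMap R K) = (_ : WeierstrassCurve R).map (algebraMap R K)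
  rw [← map_variableChange]
  have e1 : I.map (algebraMap R K) = (W⁄K).minimal R := baseChange_integralModel_eq R _
  rw [e1, hC]
  congr 1
  ext
  · show u = algebraMap R K u₀
    rw [hu₀]
  · exact hr₀.symm
  · exact hs₀.symm
  · exact ht₀.symm

end H55K.DD
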