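import Mathlib
import Pool.Agent.Lib.H19Z.L1

/-! # H55K, part D: the number of points does not change under a change of variables -/

open WeierstrassCurve

namespace H55K.DD

/-- Chunk D2B (S/M). The points of D • E are (x, y) with (u^2 x + r, u^3 y + s u^2 x + t) on E (see H55B.F1_count, Lib/H55B/F1.lean; or Affine / VariableChange lemmas in Mathlib, or H35P, MG.vc_iso). Discriminants are nonzero, so nonsingular = equation
(Affine.equation_iff_nonsingular_of_Δ_ne_zero); an equivalence of the point types (Affine.pointEquiv / nonsingularPointEquiv). -/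
theorem card_vc (k : Type) [Field k] (D : VariableChange k) (E : WeierstrassCurve k) (hΔ : E.Δ ≠ 0) :
    Nat.card (D • E).toAffine.Point = Nat.card E.toAffine.Point := by
  classical
  have : E.IsElliptic := ⟨isUnit_iff_ne_zero.2 hΔ⟩
  obtain ⟨φ, -⟩ := H19Z.vc_iso E D
  exact Nat.card_congr φ.toEquiv

end H55K.DD
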