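import Mathlib
import Pool.Agent.Lib.H55K.D2A
import Pool.Agent.Lib.H55K.D2B

/-! # H55K, part D: the local polynomial of a good model -/

open WeierstrassCurve Polynomial

namespace H55K.DD

/-- The local polynomial of a model with unit discriminant. -/
theorem good_loc (R : Type) [CommRing R] [IsDomain R] [IsDiscreteValuationRing R] (K : Type) [Field K] [Algebra R K]
    [IsFractionRing R K] (W : WeierstrassCurve R) (hΔ : IsUnit W.Δ) :
    (W⁄K).localPolynomial R = 1 - C ((Nat.card (IsLocalRing.ResidueField R) : ℤ) + 1 -
      (Nat.card (W.map (IsLocalRing.residue R)).toAffine.Point : ℤ)) * X +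
        C (Nat.card (IsLocalRing.ResidueField R) : ℤ) * X ^ 2 := by
  obtain ⟨hg, D, hD⟩ := core R K W hΔ
  have hred : ((W⁄K).minimal R).reduction R = (D.map (IsLocalRing.residue R)) • (W.map (IsLocalRing.residue R)) := by
    unfold WeierstrassCurve.reduction
    rw [hD, ← WeierstrassCurve.map_variableChange]
  have h0 : (W.map (IsLocalRing.residue R)).Δ ≠ 0 := by
    rw [WeierstrassCurve.map_Δ]
    exact (hΔ.map (IsLocalRing.residue R)).ne_zero
  unfold WeierstrassCurve.localPolynomial
  rw [if_pos hg, hred, card_vc _ _ _ h0]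

end H55K.DD
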