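import Mathlib

/-! # H55K, part D: the local polynomial at a prime of additive reduction -/

open WeierstrassCurve

namespace H55K.DD

/-- Chunk D3 (S/M), PORT of H55B.bad_local (Lib/H55B/F2.lean). W.minimal R = C • W is integral. Not good: hbad. Not multiplicative: c₄' = u^-4 c₄ and Δ' = u^-12 Δ (variableChange_c₄, variableChange_Δ), so c₄'^3 = j₀ Δ'; if the valuation of c₄' is 1 and that of Δ' is < 1 then 1 = v(j₀) v(Δ') < 1 (v(j₀) ≤ 1: HeightOneSpectrum.valuation_le_one). -/
theorem bad_loc (R : Type) [CommRing R] [IsDomain R] [IsDiscreteValuationRing R] (K : Type) [Field K] [Algebra R K]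
    [IsFractionRing R K] (W : WeierstrassCurve K) (j₀ : R) (hj : W.c₄ ^ 3 = algebraMap R K j₀ * W.Δ)
    (hbad : ∀ C : VariableChange K, IsIntegral R (C • W) →
      (IsDiscreteValuationRing.maximalIdeal R).valuation K (C • W).Δ ≠ 1) : W.localPolynomial R = 1 := by
  obtain ⟨C, hC⟩ : ∃ C : WeierstrassCurve.VariableChange K, W.minimal R = C • W :=
    ⟨_, rfl⟩
  have hint : IsIntegral R (C • W) := by
    rw [← hC]
    infer_instance
  have hgood : ¬ (W.minimal R).HasGoodReduction R := by
    intro hg
    have h1 := hg.goodReduction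
    rw [hC] at h1
    exact hbad C hint h1
  have hmult : ¬ (W.minimal R).HasMultiplicativeReduction R := by
    intro hm
    have h1 := hm.multiplicativeReduction
    have h2 := hm.badReduction
    rw [hC] at h1 h2
    have h3 : (C • W).c₄ ^ 3 = algebraMap R K j₀ * (C • W).Δ := by
      rw [WeierstrassCurve.variableChange_c₄, WeierstrassCurve.variableChange_Δ, mul_pow, hj]
      ring
    have h4 := congrArg ((IsDiscreteValuationRing.maximalIdeal R).valuation K) h3
    rw [map_pow, h1, one_pow, map_mul] at h4
    have h5 : (IsDiscreteValuationRing.maximalIdeal R).valuation K (algebraMap R K j₀) ≤ 1 :=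
      IsDedekindDomain.HeightOneSpectrum.valuation_le_one _ _
    have h6 : (IsDiscreteValuationRing.maximalIdeal R).valuation K (algebraMap R K j₀) *
        (IsDiscreteValuationRing.maximalIdeal R).valuation K (C • W).Δ < 1 :=
      by rw [mul_comm]; exact mul_lt_one_of_lt_of_le h2 h5
    rw [← h4] at h6
    exact lt_irrefl _ h6
  have hsplit : ¬ (W.minimal R).HasSplitMultiplicativeReduction R := fun hs =>
    hmult hs.toHasMultiplicativeReduction
  unfold WeierstrassCurve.localPolynomial
  rw [if_neg hgood, if_neg hsplit, if_neg hmult]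

end H55K.DD
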