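import Mathlib
import Pool.Agent.Lib.H55B.F3
import Pool.Agent.Lib.H55K.D2

/-! # H55K, part D: good reduction over the completion -/

open NumberField IsDedekindDomain WeierstrassCurve

namespace H55K.DD

theorem d4_approx (K : Type) [Field K] [NumberField K] (w : HeightOneSpectrum (𝓞 K))
    (y ε : w.adicCompletion K) (hε : ε ≠ 0) :
    ∃ k : K, Valued.v (y - (k : w.adicCompletion K)) ≤ Valued.v ε := by
  have hopen : IsOpen {z : w.adicCompletion K | (y - z) * ε⁻¹ ∈ w.adicCompletionIntegers K} := by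
    have h1 : IsOpen ((w.adicCompletionIntegers K : Set (w.adicCompletion K))) :=
      Valued.isOpen_valuationSubring (w.adicCompletion K)
    exact h1.preimage ((continuous_const.sub continuous_id).mul continuous_const)
  obtain ⟨k, hk⟩ := (HeightOneSpectrum.denseRange_algebraMap K w).exists_mem_open hopen
    ⟨y, by
      show (y - y) * ε⁻¹ ∈ w.adicCompletionIntegers K
      rw [sub_self, zero_mul]
      exact zero_mem _⟩
  refine ⟨k, ?_⟩
  have hk' : Valued.v ((y - (k : w.adicCompletion K)) * ε⁻¹) ≤ 1 := hk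
  have h2 : y - (k : w.adicCompletion K) = ((y - (k : w.adicCompletion K)) * ε⁻¹) * ε := by
    rw [mul_assoc, inv_mul_cancel₀ hε, mul_one]
  rw [h2, map_mul]
  calc Valued.v ((y - (k : w.adicCompletion K)) * ε⁻¹) * Valued.v ε
      ≤ 1 * Valued.v ε := mul_le_mul_left hk' _
    _ = Valued.v ε := one_mul _

theorem d4_quot (K : Type) [Field K] [NumberField K] (w : HeightOneSpectrum (𝓞 K))
    (y ε k : w.adicCompletion K) (hε : ε ≠ 0) (h : Valued.v (y - k) ≤ Valued.v ε) :
    Valued.v ((k - y) * ε⁻¹) ≤ 1 := by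
  have h0 : Valued.v ε ≠ 0 := (Valuation.ne_zero_iff _).2 hε
  rw [map_mul, map_inv₀, Valuation.map_sub_swap]
  calc Valued.v (y - k) * (Valued.v ε)⁻¹ ≤ Valued.v ε * (Valued.v ε)⁻¹ := mul_le_mul_left h _
    _ = 1 := mul_inv_cancel₀ h0

theorem d4_val (K : Type) [Field K] [NumberField K] (w : HeightOneSpectrum (𝓞 K)) (x : K)
    (r : w.adicCompletionIntegers K)
    (h : algebraMap K (w.adicCompletion K) x = algebraMap (w.adicCompletionIntegers K) (w.adicCompletion K) r) :
    w.valuation K x = Valued.v (r : w.adicCompletion K) := by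
  have h1 : Valued.v (x : w.adicCompletion K) = w.valuation K x :=
    HeightOneSpectrum.valuedAdicCompletion_eq_valuation' w x
  rw [← h1]
  exact congrArg Valued.v h

/-- Chunk D4 (M), approximation. Suppose C = (u, r, s, t) over K_w = w.adicCompletion K and C • (W⁄K_w) is integral with discriminant of valuation 1. K is dense in K_w (H55B.F3_approx, HeightOneSpectrum.denseRange_algebraMap; F3_approx scaled: for y and ε ≠ 0 in K_w there is k in K with v(y - k) ≤ v(ε)). Choose u₀ in K with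
v(u₀ - u) < v(u), so u₀ ≠ 0 and v(u₀/u) = 1; s₀ with v(s₀ - s) ≤ v(u); r₀ with v(r₀ - r) ≤ v(u)^2 and v((r₀ - r) s) ≤ v(u)^3; t₀ with v(t₀ - t) ≤ v(u)^3. C₀ = (u₀, r₀, s₀, t₀). D = C₀ * C⁻¹ (product of variable changes) is (u₀/u, (r₀ - r)/u^2, (s₀ - s)/u, (t₀ - t - (r₀ - r) s)/u^3): all v-integral, v(D.u) = 1
(D * C = C₀: VariableChange mul formulas), so C₀ • (W⁄K_w) = D • (C • (W⁄K_w)) has integral coefficients (variableChange_a₁ .. a₆: polynomials in u⁻¹, r, s, t and the coefficients) and discriminant of valuation v(D.u)^-12 = 1. C₀ • (W⁄K_w) = (C₀ • W)⁄K_w (map_variableChange); the valuation of K_w restricted to K is w.valuation K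
(HeightOneSpectrum.valuedAdicCompletion_eq_valuation'): GoodAt W w. The valuation of the maximal ideal of the discrete valuation ring adicCompletionIntegers: value 1 iff unit iff Valued.v = 1 (see H55B valuation_compl, F3_mem_maximalIdeal, Lib/H55B/F3.lean, F4.lean); IsIntegral: coefficients in w.adicCompletionIntegers K, i.e. Valued.v ≤ 1. -/
theorem bad_compl {K : Type} [Field K] [NumberField K] (W : WeierstrassCurve K) (w : HeightOneSpectrum (𝓞 K))
    (h : ¬ GoodAt W w) (C : VariableChange (w.adicCompletion K))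
    (hC : IsIntegral (w.adicCompletionIntegers K) (C • (W⁄(w.adicCompletion K)))) :
    (IsDiscreteValuationRing.maximalIdeal (w.adicCompletionIntegers K)).valuation (w.adicCompletion K)
      (C • (W⁄(w.adicCompletion K))).Δ ≠ 1 := by
  intro hΔ1
  apply h
  obtain ⟨Wi, hWi⟩ := hC.integral
  have hΔu : Valued.v ((Wi.Δ : w.adicCompletionIntegers K) : w.adicCompletion K) = 1 := by
    rw [hWi] at hΔ1
    have h1 : (Wi⁄(w.adicCompletion K)).Δ =
      algebraMap (w.adicCompletionIntegers K) (w.adicCompletion K) Wi.Δ := WeierstrassCurve.map_Δ _ _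
    rw [h1, HeightOneSpectrum.valuation_of_algebraMap, HeightOneSpectrum.intValuation_eq_one_iff] at hΔ1
    have h2 : Wi.Δ ∉ IsLocalRing.maximalIdeal (w.adicCompletionIntegers K) := hΔ1
    rw [H55B.F3_mem_maximalIdeal] at h2
    exact le_antisymm (Wi.Δ).2 (not_lt.1 h2)
  obtain ⟨π, hπ⟩ := w.valuation_exists_uniformizer K
  have hπv : Valued.v (π : w.adicCompletion K) = w.valuation K π :=
    HeightOneSpectrum.valuedAdicCompletion_eq_valuation' w π
  have hπ1 : w.valuation K π < 1 := by
    rw [hπ, ← WithZero.exp_zero]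
    exact WithZero.exp_lt_exp.mpr (by norm_num)
  have hπ0 : w.valuation K π ≠ 0 := by
    rw [hπ]
    exact WithZero.exp_ne_zero
  have hπ' : (π : w.adicCompletion K) ≠ 0 := by
    intro h
    apply hπ0
    rw [← hπv, h, map_zero]
  have hu0 : (C.u : w.adicCompletion K) ≠ 0 := C.u.ne_zero
  have hvu : Valued.v (C.u : w.adicCompletion K) ≠ 0 := (Valuation.ne_zero_iff _).2 hu0
  obtain ⟨u₀, hu₀⟩ := d4_approx K w (C.u : w.adicCompletion K) ((C.u : w.adicCompletion K) * π)
    (mul_ne_zero hu0 hπ')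
  have hlt : Valued.v ((C.u : w.adicCompletion K) - (u₀ : w.adicCompletion K)) <
      Valued.v (C.u : w.adicCompletion K) := by
    refine lt_of_le_of_lt hu₀ ?_
    rw [map_mul, hπv]
    calc Valued.v (C.u : w.adicCompletion K) * w.valuation K π
        < Valued.v (C.u : w.adicCompletion K) * 1 :=
          mul_lt_mul_of_pos_left hπ1 (zero_lt_iff.2 hvu)
      _ = _ := mul_one _
  have hvu₀ : Valued.v (u₀ : w.adicCompletion K) = Valued.v (C.u : w.adicCompletion K) := by
    have h1 : (u₀ : w.adicCompletion K) = (C.u : w.adicCompletion K) - (C.u - u₀) := by ring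
    rw [h1]
    exact Valuation.map_sub_eq_of_lt_left _ hlt
  have hu₀0 : u₀ ≠ 0 := by
    rintro rfl
    apply hvu
    rw [← hvu₀, HeightOneSpectrum.adicCompletion.coe_zero, map_zero]
  obtain ⟨s₀, hs₀⟩ := d4_approx K w C.s (C.u : w.adicCompletion K) hu0
  obtain ⟨r₀, hr₀⟩ := d4_approx K w C.r ((C.u : w.adicCompletion K) ^ 2) (pow_ne_zero 2 hu0)
  obtain ⟨t₀, ht₀⟩ := d4_approx K w (C.t + ((r₀ : w.adicCompletion K) - C.r) * C.s)
    ((C.u : w.adicCompletion K) ^ 3) (pow_ne_zero 3 hu0)
  have hxu : Valued.v ((u₀ : w.adicCompletion K) * (C.u : w.adicCompletion K)⁻¹) = 1 := by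
    rw [map_mul, map_inv₀, hvu₀, mul_inv_cancel₀ hvu]
  have hunit : IsUnit (⟨(u₀ : w.adicCompletion K) * (C.u : w.adicCompletion K)⁻¹, hxu.le⟩ :
      w.adicCompletionIntegers K) := by
    rw [HeightOneSpectrum.adicCompletionIntegers.isUnit_iff_valued_eq_one]
    exact hxu
  set D : VariableChange (w.adicCompletionIntegers K) :=
    ⟨hunit.unit, ⟨_, d4_quot K w _ _ _ (pow_ne_zero 2 hu0) hr₀⟩, ⟨_, d4_quot K w _ _ _ hu0 hs₀⟩,
      ⟨_, d4_quot K w _ _ _ (pow_ne_zero 3 hu0) ht₀⟩⟩ with hD
  set C₀ : VariableChange K := ⟨Units.mk0 u₀ hu₀0, r₀, s₀, t₀⟩ with hC₀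
  have hDu : algebraMap (w.adicCompletionIntegers K) (w.adicCompletion K) (D.u : w.adicCompletionIntegers K) =
    (u₀ : w.adicCompletion K) * (C.u : w.adicCompletion K)⁻¹ := rfl
  have hDr : algebraMap (w.adicCompletionIntegers K) (w.adicCompletion K) D.r =
    ((r₀ : w.adicCompletion K) - C.r) * ((C.u : w.adicCompletion K) ^ 2)⁻¹ := rfl
  have hDs : algebraMap (w.adicCompletionIntegers K) (w.adicCompletion K) D.s =
    ((s₀ : w.adicCompletion K) - C.s) * (C.u : w.adicCompletion K)⁻¹ := rfl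
  have hDt : algebraMap (w.adicCompletionIntegers K) (w.adicCompletion K) D.t =
    ((t₀ : w.adicCompletion K) - (C.t + ((r₀ : w.adicCompletion K) - C.r) * C.s)) *
      ((C.u : w.adicCompletion K) ^ 3)⁻¹ := rfl
  have hprod : C₀.map (algebraMap K (w.adicCompletion K)) =
      D.map (algebraMap (w.adicCompletionIntegers K) (w.adicCompletion K)) * C := by
    rw [VariableChange.mul_def]
    refine VariableChange.ext (Units.ext ?_) ?_ ?_ ?_
    · show (u₀ : w.adicCompletion K) =
        algebraMap (w.adicCompletionIntegers K) (w.adicCompletion K) (D.u : w.adicCompletionIntegers K) * C.u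
      rw [hDu, mul_assoc, inv_mul_cancel₀ hu0, mul_one]
    · show (r₀ : w.adicCompletion K) =
        algebraMap (w.adicCompletionIntegers K) (w.adicCompletion K) D.r * C.u ^ 2 + C.r
      rw [hDr, mul_assoc, inv_mul_cancel₀ (pow_ne_zero 2 hu0), mul_one, sub_add_cancel]
    · show (s₀ : w.adicCompletion K) =
        C.u * algebraMap (w.adicCompletionIntegers K) (w.adicCompletion K) D.s + C.s
      rw [hDs, mul_comm, mul_assoc, inv_mul_cancel₀ hu0, mul_one, sub_add_cancel]
    · show (t₀ : w.adicCompletion K) =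
        algebraMap (w.adicCompletionIntegers K) (w.adicCompletion K) D.t * C.u ^ 3 +
          algebraMap (w.adicCompletionIntegers K) (w.adicCompletion K) D.r * C.s * C.u ^ 2 + C.t
      rw [hDt, hDr]
      have h2 := inv_mul_cancel₀ (pow_ne_zero 2 hu0)
      have h3 := inv_mul_cancel₀ (pow_ne_zero 3 hu0)
      linear_combination (-((t₀ : w.adicCompletion K) - (C.t + ((r₀ : w.adicCompletion K) - C.r) * C.s))) * h3 -
        ((r₀ : w.adicCompletion K) - C.r) * C.s * h2
  have hmodel : (C₀ • W).map (algebraMap K (w.adicCompletion K)) =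
      (D • Wi).map (algebraMap (w.adicCompletionIntegers K) (w.adicCompletion K)) := by
    rw [← map_variableChange, ← map_variableChange, hprod, mul_smul]
    congr 1
  have ha1 := congrArg WeierstrassCurve.a₁ hmodel
  have ha2 := congrArg WeierstrassCurve.a₂ hmodel
  have ha3 := congrArg WeierstrassCurve.a₃ hmodel
  have ha4 := congrArg WeierstrassCurve.a₄ hmodel
  have ha6 := congrArg WeierstrassCurve.a₆ hmodel
  have hdd := congrArg WeierstrassCurve.Δ hmodel
  rw [map_a₁, map_a₁] at ha1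
  rw [map_a₂, map_a₂] at ha2
  rw [map_a₃, map_a₃] at ha3
  rw [map_a₄, map_a₄] at ha4
  rw [map_a₆, map_a₆] at ha6
  rw [map_Δ, map_Δ] at hdd
  refine ⟨C₀, ?_, ?_, ?_, ?_, ?_, ?_⟩
  · rw [d4_val K w _ _ ha1]; exact (D • Wi).a₁.2
  · rw [d4_val K w _ _ ha2]; exact (D • Wi).a₂.2
  · rw [d4_val K w _ _ ha3]; exact (D • Wi).a₃.2
  · rw [d4_val K w _ _ ha4]; exact (D • Wi).a₄.2
  · rw [d4_val K w _ _ ha6]; exact (D • Wi).a₆.2
  · rw [d4_val K w _ _ hdd, variableChange_Δ]
    have h1 : IsUnit ((↑D.u⁻¹ : w.adicCompletionIntegers K) ^ 12 * Wi.Δ) := by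
      refine IsUnit.mul (IsUnit.pow 12 (Units.isUnit _)) ?_
      rw [HeightOneSpectrum.adicCompletionIntegers.isUnit_iff_valued_eq_one]
      exact hΔu
    rw [HeightOneSpectrum.adicCompletionIntegers.isUnit_iff_valued_eq_one] at h1
    exact h1

end H55K.DD
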