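import Mathlib

/-!
# H55K, part W: the number of points of an elliptic curve over the extensions of a finite field

k is a field, W a Weierstrass curve over k, R = W.CoordinateRing = k[X] + k[X] Y its affine coordinate ring. dg I is the
dimension of R/I over k.
-/

open Polynomial

open scoped Polynomial.Bivariate

namespace H55K.WZ

open WeierstrassCurve (Affine)

variable {k : Type} [Field k] (W : Affine k)

/-- The polynomial a₁ X + a₃. -/
noncomputable def hh : k[X] := C W.a₁ * X + C W.a₃

/-- The polynomial X^3 + a₂ X^2 + a₄ X + a₆. -/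
noncomputable def gg : k[X] := X ^ 3 + C W.a₂ * X ^ 2 + C W.a₄ * X + C W.a₆

/-- The element p + q Y of the coordinate ring. -/
noncomputable def el (p q : k[X]) : W.CoordinateRing :=
  p • (1 : W.CoordinateRing) + q • Affine.CoordinateRing.mk W Y

/-- The degree of an ideal of the coordinate ring: the dimension of the quotient. -/
noncomputable def dg (I : Ideal W.CoordinateRing) : ℕ := Module.finrank k (W.CoordinateRing ⧸ I)

/-- The degree of an element: the degree of its norm, which is its order of pole at infinity. -/
noncomputable def nd (f : W.CoordinateRing) : ℕ := (Algebra.norm k[X] f).natDegree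

/-- The number of ideals of degree n. -/
noncomputable def idn (n : ℕ) : ℕ := Nat.card {I : Ideal W.CoordinateRing // I ≠ ⊥ ∧ dg W I = n}

/-- The set of prime ideals of degree n. -/
def prs (n : ℕ) : Set (Ideal W.CoordinateRing) := {P | P.IsPrime ∧ P ≠ ⊥ ∧ dg W P = n}

/-- The number of prime ideals of degree n. -/
noncomputable def pn (n : ℕ) : ℕ := (prs W n).ncard

/-- The ideal of a rational point. -/
noncomputable def PI (x y : k) : Ideal W.CoordinateRing := Affine.CoordinateRing.XYIdeal W x (C y)

theorem exists_el (f : W.CoordinateRing) : ∃ p q : k[X], el W p q = f :=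
  Affine.CoordinateRing.exists_smul_basis_eq f

theorem el_eq_zero {p q : k[X]} (h : el W p q = 0) : p = 0 ∧ q = 0 :=
  Affine.CoordinateRing.smul_basis_eq_zero h

theorem norm_el (p q : k[X]) : Algebra.norm k[X] (el W p q) = p ^ 2 - p * q * hh W - q ^ 2 * gg W :=
  Affine.CoordinateRing.norm_smul_basis p q

theorem dg_span {f : W.CoordinateRing} (hf : f ≠ 0) : dg W (Ideal.span {f}) = nd W f :=
  finrank_quotient_span_eq_natDegree_norm (Affine.CoordinateRing.basis W) hf

instance finX : Module.Finite k[X] W.CoordinateRing := Module.Finite.of_basis (Affine.CoordinateRing.basis W)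

theorem nd_mul (f g : W.CoordinateRing) (hf : f ≠ 0) (hg : g ≠ 0) : nd W (f * g) = nd W f + nd W g := by
  have hn : ∀ f : W.CoordinateRing, f ≠ 0 → Algebra.norm k[X] f ≠ 0 := fun f hf =>
    Algebra.norm_ne_zero_iff.2 hf
  unfold nd
  rw [map_mul, natDegree_mul (hn f hf) (hn g hg)]

end H55K.WZ
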