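import Mathlib
import Pool.Agent.Lib.H55K.W0

/-! # H55K, part W: the coordinate ring is a Dedekind domain -/

open Polynomial

open scoped Polynomial.Bivariate

namespace H55K.WZ

open WeierstrassCurve (Affine)

variable {k : Type} [Field k] (W : Affine k)

/-- Chunk W1A (M), pure algebra (k any field, no restriction on the characteristic). Write h = hh W, g = gg W, F(Y) = Y^2 + h Y - g.
Suppose π does not divide q. Let κ = AdjoinRoot π (a field, Fact (Irreducible π)), x̄ = root π, bar : k[X] → κ the reduction (kernel the multiples of π).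
Put y₀ = - bar p / bar q. (1) bar q^2 (y₀^2 + h̄ y₀ - ḡ) = bar (p^2 - p q h - q^2 g) = 0, so (x̄, y₀) is on the curve W.map (algebraMap k κ) (or: satisfies the
equation with the coefficients mapped to κ). (2) 2 y₀ + h̄ = - bar(2 p - q h)/bar q = 0. (3) derivative: π^2 divides N = p^2 - p q h - q^2 g, so π divides
derivative N = 2 p p' - p' q h - p q' h - p q h' - 2 q q' g - q^2 g' ; modulo π: 2 p p' - p' q h = p' (2 p - q h) = 0; - q' (p h + 2 q g) = 0 because
p̄ = - q̄ y₀, h̄ = - 2 y₀, ḡ = y₀^2 + h̄ y₀ = - y₀^2 gives p̄ h̄ + 2 q̄ ḡ = 2 q̄ y₀^2 - 2 q̄ y₀^2 = 0; there remains - p̄ q̄ h̄' - q̄^2 ḡ' = q̄^2 (y₀ h̄' - ḡ') = 0, so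
a₁ y₀ - (3 x̄^2 + 2 a₂ x̄ + a₄) = 0. So (x̄, y₀) is a singular point of the curve over κ, but its discriminant is the image of W.Δ ≠ 0
(WeierstrassCurve.map_Δ; Affine.equation_iff_nonsingular_of_Δ_ne_zero, Affine.nonsingular_iff'): contradiction. So π divides q; then π^2 divides p^2 - p q h - q^2 g
and q^2 g, so π divides p^2 (π | q), so π divides p. -/
theorem irr_dvd (hΔ : W.Δ ≠ 0) {π p q : k[X]} (hπ : Irreducible π) (h1 : π ∣ 2 * p - q * hh W)
    (h2 : π ^ 2 ∣ p ^ 2 - p * q * hh W - q ^ 2 * gg W) : π ∣ p ∧ π ∣ q := by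
  haveI : Fact (Irreducible π) := ⟨hπ⟩
  have hpq : π ∣ q := by
    by_contra hq
    have hq0 : AdjoinRoot.mk π q ≠ 0 := fun h => hq (AdjoinRoot.mk_eq_zero.1 h)
    obtain ⟨b, hb⟩ : ∃ b : k[X] →+* AdjoinRoot π, b = AdjoinRoot.mk π := ⟨_, rfl⟩
    have hbz : ∀ f : k[X], π ∣ f → b f = 0 := fun f hf => by
      rw [hb]
      exact AdjoinRoot.mk_eq_zero.2 hf
    rw [← hb] at hq0
    obtain ⟨f, hf⟩ : ∃ f : k →+* AdjoinRoot π, f = b.comp C := ⟨_, rfl⟩
    have hbC : ∀ c : k, b (C c) = f c := fun c => by rw [hf]; rfl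
    obtain ⟨x, hx⟩ : ∃ x, x = b X := ⟨_, rfl⟩
    have hfi : Function.Injective f := f.injective
    have hΔ' : (W.map f).Δ ≠ 0 := by
      rw [WeierstrassCurve.map_Δ]
      exact fun h => hΔ (hfi (by rw [h, map_zero]))
    obtain ⟨P, hP⟩ : ∃ P, P = b p := ⟨_, rfl⟩
    obtain ⟨Q, hQ⟩ : ∃ Q, Q = b q := ⟨_, rfl⟩
    obtain ⟨P', hP'⟩ : ∃ P', P' = b (derivative p) := ⟨_, rfl⟩
    obtain ⟨Q', hQ'⟩ : ∃ Q', Q' = b (derivative q) := ⟨_, rfl⟩
    rw [← hQ] at hq0
    have bh : b (hh W) = f W.a₁ * x + f W.a₃ := by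
      rw [hh, map_add, map_mul, hbC, hbC, ← hx]
    have bg : b (gg W) = x ^ 3 + f W.a₂ * x ^ 2 + f W.a₄ * x + f W.a₆ := by
      rw [gg, map_add, map_add, map_add, map_mul, map_mul, map_pow, map_pow, hbC, hbC, hbC, ← hx]
    have bh' : b (derivative (hh W)) = f W.a₁ := by
      rw [hh, derivative_add, derivative_mul, derivative_C, derivative_C, derivative_X, zero_mul, zero_add, mul_one,
        add_zero, hbC]
    have bg' : b (derivative (gg W)) = 3 * x ^ 2 + 2 * f W.a₂ * x + f W.a₄ := by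
      rw [gg]
      simp only [derivative_add, derivative_mul, derivative_C, derivative_X, derivative_X_pow, zero_mul, zero_add,
        mul_one, add_zero, map_add, map_mul, map_pow, hbC, ← hx, map_natCast, Nat.cast_ofNat, Nat.add_one_sub_one, pow_one,
        Nat.reduceSub, map_ofNat]
      ring
    have e1 : 2 * P - Q * b (hh W) = 0 := by
      have := hbz _ h1
      rw [map_sub, map_mul, map_mul, map_ofNat, ← hP, ← hQ] at this
      exact this
    have e2 : P ^ 2 - P * Q * b (hh W) - Q ^ 2 * b (gg W) = 0 := by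
      have := hbz _ ((dvd_pow_self π two_ne_zero).trans h2)
      rw [map_sub, map_sub, map_mul, map_mul, map_mul, map_pow, map_pow, ← hP, ← hQ] at this
      exact this
    have e3 : 2 * P * P' - P' * Q * b (hh W) - P * Q' * b (hh W) - P * Q * b (derivative (hh W)) -
        2 * Q * Q' * b (gg W) - Q ^ 2 * b (derivative (gg W)) = 0 := by
      have hd : π ∣ derivative (p ^ 2 - p * q * hh W - q ^ 2 * gg W) := by
        obtain ⟨r, hr⟩ := h2
        rw [hr, derivative_mul, derivative_pow]
        refine dvd_add (Dvd.dvd.mul_right ?_ _) (Dvd.dvd.mul_right (dvd_pow_self π two_ne_zero) _)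
        exact Dvd.dvd.mul_right (Dvd.dvd.mul_left (by rw [Nat.add_one_sub_one, pow_one]) _) _
      have := hbz _ hd
      simp only [derivative_sub, derivative_mul, derivative_pow, map_sub, map_mul, map_add, map_pow, ← hP, ← hQ, ← hP',
        ← hQ', hbC, Nat.add_one_sub_one, pow_one, Nat.cast_ofNat, map_ofNat] at this
      linear_combination this
    obtain ⟨y, hy⟩ : ∃ y, y = -P / Q := ⟨_, rfl⟩
    have hPy : P = -(Q * y) := by
      rw [hy]
      field_simp
    have f1 : 2 * y + b (hh W) = 0 := by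
      rw [hPy] at e1
      have : Q * (2 * y + b (hh W)) = 0 := by linear_combination -e1
      exact (mul_eq_zero.1 this).resolve_left hq0
    have f2 : y ^ 2 + b (hh W) * y - b (gg W) = 0 := by
      rw [hPy] at e2
      have : Q ^ 2 * (y ^ 2 + b (hh W) * y - b (gg W)) = 0 := by linear_combination e2
      exact (mul_eq_zero.1 this).resolve_left (pow_ne_zero 2 hq0)
    have f3 : b (derivative (hh W)) * y - b (derivative (gg W)) = 0 := by
      rw [hPy] at e3
      have : Q ^ 2 * (b (derivative (hh W)) * y - b (derivative (gg W))) = 0 := by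
        linear_combination e3 + (P' * Q + Q * Q' * y) * f1 - 2 * Q * Q' * f2
      exact (mul_eq_zero.1 this).resolve_left (pow_ne_zero 2 hq0)
    rw [bh] at f1 f2
    rw [bg] at f2
    rw [bh', bg'] at f3
    have hE : (W.map f).toAffine.Equation x y := by
      rw [WeierstrassCurve.Affine.equation_iff]
      simp only [WeierstrassCurve.map]
      linear_combination f2
    have hns := (WeierstrassCurve.Affine.equation_iff_nonsingular_of_Δ_ne_zero hΔ').1 hE
    rw [WeierstrassCurve.Affine.nonsingular_iff'] at hns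
    simp only [WeierstrassCurve.map] at hns
    rcases hns.2 with h | h
    · exact h (by linear_combination f3)
    · exact h (by linear_combination f1)
  refine ⟨?_, hpq⟩
  have h3 : π ∣ p ^ 2 := by
    have h4 : p ^ 2 = (p ^ 2 - p * q * hh W - q ^ 2 * gg W) + q * (p * hh W + q * gg W) := by ring
    rw [h4]
    exact dvd_add ((dvd_pow_self π two_ne_zero).trans h2) (Dvd.dvd.mul_right hpq _)
  exact hπ.prime.dvd_of_dvd_pow h3

end H55K.WZ
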