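import Mathlib
import Pool.Agent.Lib.H55K.W1A

/-! # H55K, part W: the coordinate ring is a Dedekind domain -/

open Polynomial

open scoped Polynomial.Bivariate

namespace H55K.WZ

open WeierstrassCurve (Affine)

variable {k : Type} [Field k] (W : Affine k)

theorem w1b_quad (p q : k[X]) : (el W p q) ^ 2 - (2 * p - q * hh W) • el W p q +
    (p ^ 2 - p * q * hh W - q ^ 2 * gg W) • (1 : W.CoordinateRing) = 0 := by
  have Y_sq : Affine.CoordinateRing.mk W Y ^ 2 =
      Affine.CoordinateRing.mk W (C (gg W) - C (hh W) * Y) :=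
    AdjoinRoot.mk_eq_mk.mpr ⟨1, by unfold gg hh; rw [Affine.polynomial]; ring1⟩
  unfold el
  simp only [Affine.CoordinateRing.smul, map_sub, map_mul, map_pow, map_ofNat] at Y_sq ⊢
  linear_combination (Affine.CoordinateRing.mk W (C q)) ^ 2 * Y_sq

theorem w1b_dvd (hΔ : W.Δ ≠ 0) (d : k[X]) : d ≠ 0 → ∀ p q : k[X], d ∣ 2 * p - q * hh W →
    d ^ 2 ∣ p ^ 2 - p * q * hh W - q ^ 2 * gg W → d ∣ p ∧ d ∣ q := by
  induction d using WfDvdMonoid.induction_on_irreducible with
  | zero => intro h; exact absurd rfl h
  | unit u hu => intro _ p q _ _; exact ⟨hu.dvd, hu.dvd⟩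
  | mul a i ha hi ih =>
    intro _ p q h1 h2
    have hi0 : i ≠ 0 := hi.ne_zero
    obtain ⟨⟨p', rfl⟩, ⟨q', rfl⟩⟩ := irr_dvd W hΔ hi (dvd_trans (Dvd.intro _ rfl) h1)
      (dvd_trans ⟨a ^ 2, by ring⟩ h2)
    obtain ⟨h3, h4⟩ := ih ha p' q' (by
      have e : 2 * (i * p') - i * q' * hh W = i * (2 * p' - q' * hh W) := by ring
      rw [e] at h1
      exact (mul_dvd_mul_iff_left hi0).1 h1) (by
      have e : (i * p') ^ 2 - i * p' * (i * q') * hh W - (i * q') ^ 2 * gg W =
          i ^ 2 * (p' ^ 2 - p' * q' * hh W - q' ^ 2 * gg W) := by ring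
      rw [e, mul_pow] at h2
      exact (mul_dvd_mul_iff_left (pow_ne_zero 2 hi0)).1 h2)
    exact ⟨mul_dvd_mul_left i h3, mul_dvd_mul_left i h4⟩

/-- Chunk W1B (M). R = W.CoordinateRing is integrally closed. Let z in FractionRing R (= W.FunctionField) be integral over R. R is integral over k[X] (finX),
so z is integral over k[X]. z = r/s, r, s in R; multiply by the conjugate of s (s times an element of R is in k[X]: norm s is divisible by s, coe_norm_smul_basis in
Mathlib Affine/Point.lean): z = (p + q Y)/d with p, q, d in k[X], d ≠ 0. The automorphism σ of R over k[X] with σ(Y) = - Y - h (AdjoinRoot.lift; or work with the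
trace and norm of FractionRing R over FractionRing k[X], Algebra.isIntegral_trace, isIntegral_norm) extends to FractionRing R, σ z is integral, so z + σ z =
(2 p - q h)/d and z σ z = norm(p + q Y)/d^2 are integral over k[X]; they are in the fraction field of k[X], which is integrally closed: d divides 2 p - q h and d^2 divides
p^2 - p q h - q^2 g. By induction on d (UniqueFactorizationMonoid induction_on_prime / WfDvdMonoid.induction_on_irreducible or the degree): d divides p and q: if d = π d' with π
irreducible, irr_dvd gives π | p, π | q, divide p, q, d by π. So z is in R. -/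
theorem int_closed (hΔ : W.Δ ≠ 0) : IsIntegrallyClosed W.CoordinateRing := by
  rw [isIntegrallyClosed_iff (FractionRing W.CoordinateRing)]
  intro z hz
  have hzA : IsIntegral k[X] z := isIntegral_trans (R := k[X]) (A := W.CoordinateRing) z hz
  obtain ⟨r, s, hs, hrs⟩ := IsFractionRing.div_surjective (A := W.CoordinateRing) z
  have hsA : IsAlgebraic k[X] s := (Algebra.IsIntegral.isIntegral (R := k[X]) s).isAlgebraic
  obtain ⟨d, hd, e, he⟩ := hsA.exists_nonzero_dvd hs
  obtain ⟨p, q, hpq⟩ := exists_el W (r * e)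
  have hs0 : algebraMap W.CoordinateRing (FractionRing W.CoordinateRing) s ≠ 0 := by
    rw [Ne, FaithfulSMul.algebraMap_eq_zero_iff]
    exact nonZeroDivisors.ne_zero hs
  have h1 : algebraMap k[X] (FractionRing W.CoordinateRing) d * z =
      algebraMap W.CoordinateRing (FractionRing W.CoordinateRing) (el W p q) := by
    rw [IsScalarTower.algebraMap_apply k[X] W.CoordinateRing (FractionRing W.CoordinateRing), he, hpq,
      ← hrs, map_mul, map_mul]
    field_simp
  have hd0 : algebraMap k[X] (FractionRing W.CoordinateRing) d ≠ 0 := by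
    rw [Ne, FaithfulSMul.algebraMap_eq_zero_iff]
    exact hd
  set t : k[X] := 2 * p - q * hh W with ht
  set n : k[X] := p ^ 2 - p * q * hh W - q ^ 2 * gg W with hn
  set P : k[X][X] := C (d ^ 2) * X ^ 2 - C (d * t) * X + C n with hP
  have h2 : aeval z P = 0 := by
    have h3 := congrArg (algebraMap W.CoordinateRing (FractionRing W.CoordinateRing)) (w1b_quad W p q)
    rw [map_add, map_sub, map_pow, ← h1, map_zero, Algebra.smul_def, Algebra.smul_def, map_mul, map_mul,
      ← h1, map_one, mul_one, ← IsScalarTower.algebraMap_apply, ← IsScalarTower.algebraMap_apply] at h3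
    rw [hP]
    simp only [map_add, map_sub, map_mul, map_pow, aeval_C, aeval_X]
    rw [← h3]
    ring
  have h4 := minpoly.isIntegrallyClosed_dvd hzA h2
  have hm := minpoly.monic hzA
  have hmpos := minpoly.natDegree_pos hzA
  obtain ⟨c, hc⟩ := h4
  have hPc : P.coeff 2 = d ^ 2 ∧ P.coeff 1 = -(d * t) ∧ P.coeff 0 = n := by
    rw [hP]
    refine ⟨?_, ?_, ?_⟩ <;> rw [coeff_add, coeff_sub, coeff_C_mul, coeff_C_mul, coeff_X_pow] <;>
      simp [coeff_X, coeff_C]
  have hPd : P.natDegree = 2 := by
    have h5 : P.natDegree ≤ 2 := by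
      rw [hP]
      compute_degree
    refine le_antisymm h5 (le_natDegree_of_ne_zero ?_)
    rw [hPc.1]
    exact pow_ne_zero 2 hd
  have hP0 : P ≠ 0 := by
    intro h0
    rw [h0, natDegree_zero] at hPd
    omega
  have hc0 : c ≠ 0 := by
    rintro rfl
    exact hP0 (by rw [hc, mul_zero])
  have hdeg : (minpoly k[X] z).natDegree + c.natDegree = 2 := by
    rw [← hPd, hc, natDegree_mul hm.ne_zero hc0]
  have hcase : (minpoly k[X] z).natDegree = 1 ∨ (minpoly k[X] z).natDegree = 2 := by omega
  rcases hcase with h5 | h5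
  · have h6 := hm.eq_X_add_C h5
    have h7 := minpoly.aeval k[X] z
    rw [h6, map_add, aeval_X, aeval_C] at h7
    refine ⟨-algebraMap k[X] W.CoordinateRing ((minpoly k[X] z).coeff 0), ?_⟩
    rw [map_neg, ← IsScalarTower.algebraMap_apply]
    linear_combination -h7
  · have hc1 : c.natDegree = 0 := by omega
    obtain ⟨b, hb⟩ := natDegree_eq_zero.1 hc1
    have hco : ∀ i, P.coeff i = (minpoly k[X] z).coeff i * b := by
      intro i
      rw [hc, ← hb, coeff_mul_C]
    have hb2 : b = d ^ 2 := by
      have h8 := hco 2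
      have h9 : (minpoly k[X] z).coeff 2 = 1 := by
        rw [← h5]
        exact hm
      rw [hPc.1, h9, one_mul] at h8
      exact h8.symm
    have ht' : d ∣ t := by
      have h8 := hco 1
      rw [hPc.2.1, hb2] at h8
      refine ⟨-(minpoly k[X] z).coeff 1, ?_⟩
      apply mul_left_cancel₀ hd
      linear_combination -h8
    have hn' : d ^ 2 ∣ n := by
      have h8 := hco 0
      rw [hPc.2.2, hb2] at h8
      exact ⟨(minpoly k[X] z).coeff 0, by rw [h8, mul_comm]⟩
    obtain ⟨⟨p', hp'⟩, ⟨q', hq'⟩⟩ := w1b_dvd W hΔ d hd p q ht' hn'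
    refine ⟨el W p' q', ?_⟩
    apply mul_left_cancel₀ hd0
    rw [h1, IsScalarTower.algebraMap_apply k[X] W.CoordinateRing (FractionRing W.CoordinateRing), ← map_mul]
    congr 1
    rw [← Algebra.smul_def, hp', hq']
    unfold el
    rw [smul_add, smul_smul, smul_smul]

end H55K.WZ
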