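import Mathlib
import Pool.Agent.Lib.H55K.W1B

/-! # H55K, part W: the coordinate ring is a Dedekind domain -/

open Polynomial

open scoped Polynomial.Bivariate

namespace H55K.WZ

open WeierstrassCurve (Affine)

variable {k : Type} [Field k] (W : Affine k)

/-- Chunk W1C (S/M). IsDedekindDomain R: domain (Mathlib), Noetherian (finite module over the Noetherian ring k[X]: isNoetherian_of_isNoetherianRing_of_finite, isNoetherian_of_tower k[X] or
Algebra.FiniteType), dimension at most one (a nonzero prime P of R: comap to k[X] is a nonzero prime because R is integral over k[X] and a domain (Ideal.IsIntegralClosure.comap_ne_bot,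
Ideal.comap_ne_bot_of_integral_mem or: norm f is a nonzero element of P ∩ k[X] for 0 ≠ f in P), so maximal, so P is maximal: Ideal.isMaximal_of_isIntegral_of_isMaximal_comap), integrally closed (int_closed).
isDedekindDomain_iff or the constructor; compare Mathlib.RingTheory.DedekindDomain.IntegralClosure and Basic. -/
theorem dedekind (hΔ : W.Δ ≠ 0) : IsDedekindDomain W.CoordinateRing := by
  have hint : Algebra.IsIntegral k[X] W.CoordinateRing := inferInstance
  rw [isDedekindDomain_iff W.CoordinateRing (FractionRing W.CoordinateRing)]
  refine ⟨inferInstance, ?_, ⟨fun {P} hP hPp => ?_⟩, ?_⟩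
  · exact isNoetherian_of_tower k[X] (inferInstance : IsNoetherian k[X] W.CoordinateRing)
  · have h1 : P.comap (algebraMap k[X] W.CoordinateRing) ≠ ⊥ := fun h =>
      hP (Ideal.eq_bot_of_comap_eq_bot h)
    have h2 : (P.comap (algebraMap k[X] W.CoordinateRing)).IsPrime := Ideal.comap_isPrime _ P
    exact Ideal.isMaximal_of_isIntegral_of_isMaximal_comap P (h2.isMaximal h1)
  · intro x hx
    have := int_closed W hΔ
    exact IsIntegrallyClosed.isIntegral_iff.1 hx

end H55K.WZ
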