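import Mathlib
import Pool.Agent.Lib.H55K.W0

/-! # H55K, part W: the degree of an ideal -/

open Polynomial

open scoped Polynomial.Bivariate

namespace H55K.WZ

open WeierstrassCurve (Affine)

variable {k : Type} [Field k] (W : Affine k)

/-- Chunk W2A (S/M). I ≠ ⊥ contains n(X) = norm f ≠ 0 for some f (norm f is a multiple of f in R: coe_norm_smul_basis), R/I is a quotient of R/(n), which is finite over k (finrank_quotient_span_eq_natDegree_norm has
natDegree; for finiteness: R is finite over k[X], R/(n) finite over k[X]/(n) = AdjoinRoot n, finite over k (AdjoinRoot.powerBasis, Polynomial / Module.Finite.of_basis); or the instance in Mathlib.LinearAlgebra.FreeModule.Norm with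
Ideal.quotientEquivDirectSum / finrank_quotient_eq_sum). -/
theorem fin_quot {I : Ideal W.CoordinateRing} (hI : I ≠ ⊥) : Module.Finite k (W.CoordinateRing ⧸ I) := by
  have e := Ideal.quotientEquivDirectSum k (Affine.CoordinateRing.basis W) hI
  exact Module.Finite.equiv e.symm

/-- Chunk W2A. Finrank 0 of a finite module over a field: subsingleton. -/
theorem dg_zero {I : Ideal W.CoordinateRing} (hI : I ≠ ⊥) : dg W I = 0 ↔ I = ⊤ := by
  have := fin_quot W hI
  unfold dg
  rw [Module.finrank_zero_iff, Ideal.Quotient.subsingleton_iff]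

/-- Chunk W2A. R/I → R/J is surjective; equality of the dimensions gives injectivity. -/
theorem dg_le {I J : Ideal W.CoordinateRing} (hI : I ≠ ⊥) (h : I ≤ J) : dg W J ≤ dg W I ∧ (dg W I = dg W J → I = J) := by
  have hJ : J ≠ ⊥ := by
    intro h0
    apply hI
    rw [eq_bot_iff, ← h0]
    exact h
  have := fin_quot W hI
  have := fin_quot W hJ
  let φ : (W.CoordinateRing ⧸ I) →ₗ[k] (W.CoordinateRing ⧸ J) := (Ideal.Quotient.factorₐ k h).toLinearMap
  have hφ : Function.Surjective φ := Ideal.Quotient.factor_surjective h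
  refine ⟨LinearMap.finrank_le_finrank_of_surjective hφ, fun he => le_antisymm h ?_⟩
  have hinj : Function.Injective φ :=
    (LinearMap.injective_iff_surjective_of_finrank_eq_finrank he).2 hφ
  intro x hx
  have h1 : φ (Ideal.Quotient.mk I x) = 0 := by
    show Ideal.Quotient.factor h (Ideal.Quotient.mk I x) = 0
    rw [Ideal.Quotient.factor_mk]
    exact Ideal.Quotient.eq_zero_iff_mem.2 hx
  have h2 : Ideal.Quotient.mk I x = 0 := hinj (by rw [h1, map_zero])
  exact Ideal.Quotient.eq_zero_iff_mem.1 h2

/-- Chunk W2A. The element f generates I if it is in I and has degree nd f = dg I (dg_span, dg_le for span {f} ≤ I). -/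
theorem span_of_nd {I : Ideal W.CoordinateRing} {f : W.CoordinateRing} (hf : f ≠ 0) (hfI : f ∈ I) (h : nd W f ≤ dg W I) :
    I = Ideal.span {f} := by
  have h1 : Ideal.span {f} ≠ (⊥ : Ideal W.CoordinateRing) := by
    rw [Ne, Ideal.span_singleton_eq_bot]
    exact hf
  have h2 : Ideal.span {f} ≤ I := by
    rw [Ideal.span_singleton_le_iff_mem]
    exact hfI
  have h3 := dg_le W h1 h2
  rw [dg_span W hf] at h3
  exact (h3.2 (le_antisymm h h3.1)).symm

end H55K.WZ
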