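import Mathlib
import Pool.Agent.Lib.H55K.W1C
import Pool.Agent.Lib.H55K.W2A

/-! # H55K, part W: the degree of an ideal -/

open Polynomial

open scoped Polynomial.Bivariate

namespace H55K.WZ

open WeierstrassCurve (Affine)

variable {k : Type} [Field k] (W : Affine k)

/-- Chunk W2B (M). R is a Dedekind domain (dedekind). Choose a in I with span {a} ⊔ (I * J) = I (IsDedekindDomain.exists_sup_span_eq or Ideal.exists_... : for 0 ≠ I J ≤ I there is a with I = I J + (a)). The k-linear map
R → I/(I J) (or R → R/(I J), r ↦ r a, with image I/(I J)) is surjective onto I/(I J) with kernel J: r a in I J and I = I J + (a) gives r I ≤ I J, so r in J (cancel I: Ideal.mul_le_mul_left..., span{r} * I ≤ I * J, Ideal.IsDedekind cancellation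
mul_le_mul_left iff; Mathlib: cardQuot_mul_of_coprime, Ideal.quotientMulEquiv... see also the proof of cardQuot_pow_of_prime). So dim R/(I J) = dim R/I + dim I/(I J) = dim R/I + dim R/J (Submodule.finrank_quotient_add_finrank for the k-subspace I/(IJ) of
R/(IJ), whose quotient is R/I: DoubleQuot or Submodule.quotientQuotientEquivQuotient). Alternative: induction on J (UniqueFactorizationMonoid.induction_on_prime) reduces to J prime, where I/(I P) is a vector space of dimension 1 over R/P (Ideal.quotient...,
Mathlib Ideal.quotEquivPowQuotPowSucc treats I = P^i). -/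
theorem dg_mul (hΔ : W.Δ ≠ 0) {I J : Ideal W.CoordinateRing} (hI : I ≠ ⊥) (hJ : J ≠ ⊥) :
    dg W (I * J) = dg W I + dg W J := by
  have hD := dedekind W hΔ
  have hIJ : I * J ≠ ⊥ := mul_ne_zero hI hJ
  have hfin := fin_quot W hIJ
  obtain ⟨a, ha⟩ := IsDedekindDomain.exists_sup_span_eq (Ideal.mul_le_left : I * J ≤ I) hIJ
  have haI : a ∈ I := by
    rw [← ha]
    exact Ideal.mem_sup_right (Ideal.mem_span_singleton_self a)
  -- multiplication by `a`
  have hker : ∀ r ∈ J, r • (Submodule.Quotient.mk a : W.CoordinateRing ⧸ (I * J)) = 0 := by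
    intro r hr
    rw [← Submodule.Quotient.mk_smul, Submodule.Quotient.mk_eq_zero, smul_eq_mul, mul_comm r a]
    exact Ideal.mul_mem_mul haI hr
  let F : (W.CoordinateRing ⧸ J) →ₗ[W.CoordinateRing] (W.CoordinateRing ⧸ (I * J)) :=
    Submodule.liftQ J (LinearMap.toSpanSingleton W.CoordinateRing (W.CoordinateRing ⧸ (I * J))
      (Submodule.Quotient.mk a)) (fun r hr => hker r hr)
  let G : (W.CoordinateRing ⧸ (I * J)) →ₗ[W.CoordinateRing] (W.CoordinateRing ⧸ I) :=
    Submodule.factor Ideal.mul_le_left
  have hF : ∀ r : W.CoordinateRing, F (Submodule.Quotient.mk r) = Submodule.Quotient.mk (r * a) :=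
    fun r => rfl
  have hG : ∀ r : W.CoordinateRing, G (Submodule.Quotient.mk r) = Submodule.Quotient.mk r :=
    fun r => rfl
  have hFi : Function.Injective F := by
    rw [injective_iff_map_eq_zero]
    intro x hx
    obtain ⟨r, rfl⟩ := Submodule.Quotient.mk_surjective _ x
    rw [hF, Submodule.Quotient.mk_eq_zero] at hx
    rw [Submodule.Quotient.mk_eq_zero]
    have h1 : Ideal.span {r} * I ≤ I * J := by
      conv_lhs => rw [← ha]
      rw [Ideal.mul_sup, sup_le_iff]
      refine ⟨Ideal.mul_le_right, ?_⟩
      rw [Ideal.span_singleton_mul_span_singleton, Ideal.span_singleton_le_iff_mem]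
      exact hx
    rw [mul_comm (Ideal.span {r}) I, ← Ideal.dvd_iff_le, mul_dvd_mul_iff_left hI,
      Ideal.dvd_iff_le, Ideal.span_singleton_le_iff_mem] at h1
    exact h1
  have hGs : Function.Surjective G := by
    intro x
    obtain ⟨r, rfl⟩ := Submodule.Quotient.mk_surjective _ x
    exact ⟨Submodule.Quotient.mk r, hG r⟩
  have hex : LinearMap.range (F.restrictScalars k) = LinearMap.ker (G.restrictScalars k) := by
    ext x
    rw [LinearMap.mem_range, LinearMap.mem_ker]
    obtain ⟨r, rfl⟩ := Submodule.Quotient.mk_surjective _ x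
    constructor
    · rintro ⟨y, hy⟩
      obtain ⟨t, rfl⟩ := Submodule.Quotient.mk_surjective _ y
      rw [← hy]
      change (Submodule.Quotient.mk (t * a) : W.CoordinateRing ⧸ I) = 0
      rw [Submodule.Quotient.mk_eq_zero]
      exact Ideal.mul_mem_left _ _ haI
    · intro hr
      change (Submodule.Quotient.mk r : W.CoordinateRing ⧸ I) = 0 at hr
      rw [Submodule.Quotient.mk_eq_zero, ← ha, Submodule.mem_sup] at hr
      obtain ⟨u, hu, v, hv, huv⟩ := hr
      obtain ⟨t, rfl⟩ := Ideal.mem_span_singleton'.1 hv
      refine ⟨Submodule.Quotient.mk t, ?_⟩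
      change (Submodule.Quotient.mk (t * a) : W.CoordinateRing ⧸ (I * J)) = Submodule.Quotient.mk r
      rw [Submodule.Quotient.eq]
      have h1 : t * a - r = -u := by rw [← huv]; ring
      rw [h1]
      exact neg_mem hu
  have h1 := LinearMap.finrank_range_add_finrank_ker (G.restrictScalars k)
  rw [← hex, LinearMap.finrank_range_of_inj (f := F.restrictScalars k) hFi,
    (LinearMap.range_eq_top (f := G.restrictScalars k)).2 hGs, finrank_top] at h1
  exact h1.symm

end H55K.WZ
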