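import Mathlib
import Pool.Agent.Lib.H55K.W2A

/-! # H55K, part W: ideals of degree one are rational points -/

open Polynomial

open scoped Polynomial.Bivariate

namespace H55K.WZ

open WeierstrassCurve (Affine)

variable {k : Type} [Field k] (W : Affine k)

/-- The value of a polynomial at the point, modulo the ideal of the point. -/
theorem w2c_val (x y : k) (P : k[X][Y]) :
    Affine.CoordinateRing.mk W P - algebraMap k W.CoordinateRing (evalEval x y P) ∈ PI W x y := by
  have h1 : P - C (C (evalEval x y P)) ∈ Ideal.span {C (X - C x), X - C (C y)} := by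
    rw [mem_span_C_X_sub_C_X_sub_C_iff_eval_eval_eq_zero]
    simp [evalEval]
  have h2 := Ideal.mem_map_of_mem (Affine.CoordinateRing.mk W) h1
  rw [Ideal.map_span, Set.image_pair] at h2
  have h3 : Affine.CoordinateRing.mk W (P - C (C (evalEval x y P))) =
      Affine.CoordinateRing.mk W P - algebraMap k W.CoordinateRing (evalEval x y P) := by
    rw [map_sub]
    rfl
  rw [← h3]
  exact h2

/-- Chunk W2C (S). quotientXYIdealEquiv: R/PI x y is isomorphic to k. -/
theorem dg_PI {x y : k} (h : W.Equation x y) : PI W x y ≠ ⊥ ∧ dg W (PI W x y) = 1 := by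
  refine ⟨?_, ?_⟩
  · intro h0
    have h1 : Affine.CoordinateRing.XClass W x ∈ PI W x y := Ideal.subset_span (Set.mem_insert _ _)
    rw [h0, Ideal.mem_bot] at h1
    exact Affine.CoordinateRing.XClass_ne_zero x h1
  · unfold dg PI
    rw [(Affine.CoordinateRing.quotientXYIdealEquiv (y := C y) h).toLinearEquiv.finrank_eq,
      Module.finrank_self]

/-- Chunk W2C (S/M). If dim R/I = 1 then k → R/I is bijective (injective because R/I ≠ 0, equal dimensions); let x, y in k be the elements with X - x, Y - y in I (classes of X and Y). The equation holds in R/I, so in k. PI x y ≤ I, dimensions 1 and 1: equal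
(dg_le). -/
theorem PI_of_dg {I : Ideal W.CoordinateRing} (hI : I ≠ ⊥) (h : dg W I = 1) : ∃ x y : k, W.Equation x y ∧ I = PI W x y := by
  have hbij := Module.Free.bijective_algebraMap_of_finrank_eq_one
    (R := k) (S := W.CoordinateRing ⧸ I) h
  obtain ⟨x, hx⟩ := hbij.2 (Ideal.Quotient.mk I (Affine.CoordinateRing.mk W (C X)))
  obtain ⟨y, hy⟩ := hbij.2 (Ideal.Quotient.mk I (Affine.CoordinateRing.mk W X))
  have hX : Affine.CoordinateRing.XClass W x ∈ I := by
    rw [← Ideal.Quotient.eq_zero_iff_mem]
    unfold Affine.CoordinateRing.XClass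
    rw [map_sub, map_sub, map_sub, ← hx]
    exact sub_self _
  have hY : Affine.CoordinateRing.YClass W (C y) ∈ I := by
    rw [← Ideal.Quotient.eq_zero_iff_mem]
    unfold Affine.CoordinateRing.YClass
    rw [map_sub, map_sub, ← hy]
    exact sub_self _
  have hle : PI W x y ≤ I := by
    unfold PI Affine.CoordinateRing.XYIdeal
    rw [Ideal.span_le]
    rintro z (rfl | hz)
    · exact hX
    · rw [Set.mem_singleton_iff.1 hz]
      exact hY
  have heq : W.Equation x y := by
    have h1 := hle (w2c_val W x y W.polynomial)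
    have h0 : Affine.CoordinateRing.mk W W.polynomial = 0 := AdjoinRoot.mk_self
    rw [h0, zero_sub, neg_mem_iff, ← Ideal.Quotient.eq_zero_iff_mem] at h1
    have h2 : algebraMap k (W.CoordinateRing ⧸ I) (evalEval x y W.polynomial) =
        algebraMap k (W.CoordinateRing ⧸ I) 0 := by
      rw [map_zero]
      exact h1
    exact hbij.1 h2
  obtain ⟨h1, h2⟩ := dg_PI W heq
  exact ⟨x, y, heq, ((dg_le W h1 hle).2 (by rw [h2, h])).symm⟩

/-- Chunk W2C. The value of f = p + q Y at the point: f - (p(x) + q(x) y) is in PI x y (X - x divides p - p(x)). -/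
theorem val_PI (x y : k) (f : W.CoordinateRing) : ∃ c : k, f - algebraMap k W.CoordinateRing c ∈ PI W x y := by
  obtain ⟨P, rfl⟩ := AdjoinRoot.mk_surjective f
  exact ⟨_, w2c_val W x y P⟩

end H55K.WZ
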