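import Mathlib
import Pool.Agent.Lib.H55K.W0

/-! # H55K, part W: the functions with a pole of bounded order at infinity -/

open Polynomial

open scoped Polynomial.Bivariate

namespace H55K.WZ

open WeierstrassCurve (Affine)

variable {k : Type} [Field k] (W : Affine k)

theorem w3a_p (p : k[X]) (m : ℕ) : 2 • p.degree ≤ (m : WithBot ℕ) ↔ p.degree < ((m / 2 + 1 : ℕ) : WithBot ℕ) := by
  by_cases hp : p = 0
  · subst hp
    rw [degree_zero]
    exact ⟨fun _ => WithBot.bot_lt_coe _, fun _ => by rw [two_nsmul, WithBot.bot_add]; exact bot_le⟩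
  · rw [degree_eq_natDegree hp, two_nsmul]
    norm_cast
    omega

theorem w3a_q (q : k[X]) (m : ℕ) : 2 • q.degree + 3 ≤ (m : WithBot ℕ) ↔
    q.degree < (((m - 1) / 2 : ℕ) : WithBot ℕ) := by
  by_cases hq : q = 0
  · subst hq
    rw [degree_zero]
    exact ⟨fun _ => WithBot.bot_lt_coe _,
      fun _ => by rw [two_nsmul, WithBot.bot_add, WithBot.bot_add]; exact bot_le⟩
  · rw [degree_eq_natDegree hq, two_nsmul]
    have e : ((q.natDegree : WithBot ℕ) + (q.natDegree : WithBot ℕ) + 3) =
      ((q.natDegree + q.natDegree + 3 : ℕ) : WithBot ℕ) := by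
      push_cast
      rfl
    rw [e, Nat.cast_le, Nat.cast_lt]
    omega

theorem w3a_nd (p q : k[X]) (m : ℕ) : nd W (el W p q) ≤ m ↔
    p.degree < ((m / 2 + 1 : ℕ) : WithBot ℕ) ∧ q.degree < (((m - 1) / 2 : ℕ) : WithBot ℕ) := by
  unfold nd el
  rw [natDegree_le_iff_degree_le, Affine.CoordinateRing.degree_norm_smul_basis, max_le_iff, w3a_p,
    w3a_q]

/-- The linear map. -/
noncomputable def w3a_l : (k[X] × k[X]) →ₗ[k] W.CoordinateRing where
  toFun x := el W x.1 x.2
  map_add' x y := by
    unfold el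
    rw [Prod.fst_add, Prod.snd_add, add_smul, add_smul]
    exact add_add_add_comm _ _ _ _
  map_smul' c x := by
    unfold el
    rw [Prod.smul_fst, Prod.smul_snd, smul_assoc, smul_assoc, RingHom.id_apply, smul_add]

/-- Chunk W3A (M). L = range of the k-linear map (p, q) ↦ el W p q from degreeLT k (m / 2 + 1) × degreeLT k ((m - 1) / 2) to R (injective by el_eq_zero; finrank of degreeLT k n is n: Polynomial.degreeLTEquiv; m / 2 + 1 + (m - 1) / 2 = m for
m ≥ 1). Membership: for f = el W p q, degree (norm f) = max (2 degree p) (2 degree q + 3) (Affine.CoordinateRing.degree_norm_smul_basis), so nd f ≤ m iff (p = 0 or 2 natDegree p ≤ m) and (q = 0 or 2 natDegree q + 3 ≤ m) (f = 0 : nd 0 = 0). -/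
theorem exists_L (m : ℕ) (hm : 1 ≤ m) : ∃ L : Submodule k W.CoordinateRing, Module.Finite k L ∧ Module.finrank k L = m ∧
    ∀ f, f ∈ L ↔ nd W f ≤ m := by
  have hf1 : ∀ n, Module.Finite k (degreeLT k n) := fun n =>
    Module.Finite.equiv (degreeLTEquiv k n).symm
  have hr1 : ∀ n, Module.finrank k (degreeLT k n) = n := fun n => by
    rw [(degreeLTEquiv k n).finrank_eq, Module.finrank_fin_fun]
  haveI := hf1 (m / 2 + 1)
  haveI := hf1 ((m - 1) / 2)
  let Φ : (degreeLT k (m / 2 + 1) × degreeLT k ((m - 1) / 2)) →ₗ[k] W.CoordinateRing :=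
    (w3a_l W) ∘ₗ ((degreeLT k (m / 2 + 1)).subtype.prodMap (degreeLT k ((m - 1) / 2)).subtype)
  have hΦ : ∀ x, Φ x = el W x.1 x.2 := fun x => rfl
  have hinj : Function.Injective Φ := by
    rw [injective_iff_map_eq_zero]
    intro x hx
    rw [hΦ] at hx
    obtain ⟨h1, h2⟩ := el_eq_zero W hx
    exact Prod.ext (Subtype.ext h1) (Subtype.ext h2)
  refine ⟨LinearMap.range Φ, inferInstance, ?_, ?_⟩
  · rw [LinearMap.finrank_range_of_inj hinj, Module.finrank_prod, hr1, hr1]
    omega
  · intro f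
    constructor
    · rintro ⟨x, rfl⟩
      rw [hΦ, w3a_nd]
      exact ⟨mem_degreeLT.1 x.1.2, mem_degreeLT.1 x.2.2⟩
    · intro h
      obtain ⟨p, q, rfl⟩ := exists_el W f
      rw [w3a_nd] at h
      exact ⟨(⟨p, mem_degreeLT.2 h.1⟩, ⟨q, mem_degreeLT.2 h.2⟩), rfl⟩

/-- Chunk W3A. nd f = 0 iff f is a constant (f = p + q Y: q = 0 and p constant; nd 0 = 0, degree_norm_smul_basis). -/
theorem nd_zero (f : W.CoordinateRing) : nd W f = 0 ↔ ∃ c : k, f = algebraMap k W.CoordinateRing c := by
  constructor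
  · intro h
    obtain ⟨p, q, rfl⟩ := exists_el W f
    have h1 := (w3a_nd W p q 0).1 h.le
    have hq : q = 0 := by
      by_contra hq
      have h2 := h1.2
      rw [degree_eq_natDegree hq] at h2
      have h3 : q.natDegree < (0 - 1) / 2 := by exact_mod_cast h2
      omega
    have hp : p.degree ≤ 0 := by
      by_cases hp : p = 0
      · rw [hp, degree_zero]
        exact bot_le
      · have h2 := h1.1
        rw [degree_eq_natDegree hp] at h2 ⊢
        have h3 : p.natDegree < 0 / 2 + 1 := by exact_mod_cast h2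
        have h4 : p.natDegree = 0 := by omega
        rw [h4]
        exact le_rfl
    refine ⟨p.coeff 0, ?_⟩
    unfold el
    rw [hq, zero_smul, add_zero]
    conv_lhs => rw [eq_C_of_degree_le_zero hp]
    rw [← Algebra.algebraMap_eq_smul_one]
    rfl
  · rintro ⟨c, rfl⟩
    have e : algebraMap k W.CoordinateRing c = el W (C c) 0 := by
      unfold el
      rw [zero_smul, add_zero, ← Algebra.algebraMap_eq_smul_one]
      rfl
    rw [e]
    refine Nat.le_zero.1 ((w3a_nd W (C c) 0 0).2 ⟨?_, ?_⟩)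
    · exact lt_of_le_of_lt degree_C_le (by norm_num)
    · rw [degree_zero]
      exact WithBot.bot_lt_coe _

end H55K.WZ
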