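import Mathlib
import Pool.Agent.Lib.H55K.W2B
import Pool.Agent.Lib.H55K.W2C
import Pool.Agent.Lib.H55K.W3A

/-! # H55K, part W: every ideal class contains a point -/

open Polynomial

open scoped Polynomial.Bivariate

namespace H55K.WZ

open WeierstrassCurve (Affine)

variable {k : Type} [Field k] (W : Affine k)

/-- Chunk W3B (S/M). exists_L for m = dg I + 1: the k-linear map L → R/I (fin_quot) is not injective because finrank L = dg I + 1 > dg I = finrank (R/I) (LinearMap.finrank_le_finrank_of_injective); a nonzero element of its kernel. -/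
theorem exists_small {I : Ideal W.CoordinateRing} (hI : I ≠ ⊥) : ∃ f ∈ I, f ≠ 0 ∧ nd W f ≤ dg W I + 1 := by
  obtain ⟨L, hL1, hL2, hL3⟩ := exists_L W (dg W I + 1) (by omega)
  have := fin_quot W hI
  set φ : L →ₗ[k] (W.CoordinateRing ⧸ I) := (Ideal.Quotient.mkₐ k I).toLinearMap ∘ₗ L.subtype with hφ
  have hni : ¬ Function.Injective φ := by
    intro h
    have h1 := LinearMap.finrank_le_finrank_of_injective h
    rw [hL2] at h1
    unfold dg at h1
    omega
  rw [← LinearMap.ker_eq_bot, ← Ne, Submodule.ne_bot_iff] at hni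
  obtain ⟨f, hf, hf0⟩ := hni
  refine ⟨f.1, ?_, ?_, (hL3 f.1).1 f.2⟩
  · have h1 : Ideal.Quotient.mk I f.1 = 0 := hf
    exact Ideal.Quotient.eq_zero_iff_mem.1 h1
  · intro h
    exact hf0 (Subtype.ext h)

/-- Chunk W3B. f from exists_small, R Dedekind (dedekind), so I divides span {f} (Ideal.dvd_span_singleton): span {f} = I * J, J ≠ ⊥, dg I + dg J = dg (span {f}) = nd f ≤ dg I + 1 (dg_mul, dg_span), dg J ≤ 1: J = ⊤ (dg_zero) or a point (PI_of_dg). -/
theorem exists_comp (hΔ : W.Δ ≠ 0) {I : Ideal W.CoordinateRing} (hI : I ≠ ⊥) : ∃ f : W.CoordinateRing, f ≠ 0 ∧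
    (I = Ideal.span {f} ∨ ∃ x y : k, W.Equation x y ∧ I * PI W x y = Ideal.span {f}) := by
  have := dedekind W hΔ
  obtain ⟨f, hfI, hf0, hfd⟩ := exists_small W hI
  refine ⟨f, hf0, ?_⟩
  obtain ⟨J, hJ⟩ := Ideal.dvd_span_singleton.2 hfI
  have hs : Ideal.span {f} ≠ ⊥ := by
    rw [Ne, Ideal.span_singleton_eq_bot]
    exact hf0
  have hJ0 : J ≠ ⊥ := by
    rintro rfl
    apply hs
    rw [hJ, Ideal.mul_bot]
  have h1 := dg_mul W hΔ hI hJ0
  rw [← hJ, dg_span W hf0] at h1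
  have h2 : dg W J ≤ 1 := by omega
  rcases Nat.le_one_iff_eq_zero_or_eq_one.1 h2 with h3 | h3
  · left
    rw [dg_zero W hJ0] at h3
    rw [hJ, h3, Ideal.mul_top]
  · right
    obtain ⟨x, y, hxy, rfl⟩ := PI_of_dg W hJ0 h3
    exact ⟨x, y, hxy, hJ.symm⟩

end H55K.WZ
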