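import Mathlib
import Pool.Agent.Lib.H55K.W0

/-! # H55K, part W: different points give different classes -/

open Polynomial

open scoped Polynomial.Bivariate

namespace H55K.WZ

open WeierstrassCurve (Affine)

variable {k : Type} [Field k] (W : Affine k)

/-- Chunk W4A (M). Uses Mathlib's Affine.Point.toClass_injective. For a nonsingular point (x, y) (hΔ: Affine.equation_iff_nonsingular_of_Δ_ne_zero) toClass (some x y) is the class of PI x y in the ideal class group (XYIdeal', toClass_some). If I = span {f} and I * PI x y = span {g} then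
f PI x y = span {g}, so the class of PI x y is trivial (ClassGroup.mk_eq_one_of_coe_ideal or ClassGroup.mk_eq_mk_of_coe_ideal : f J = g J'), so some x y = 0: contradiction (toClass_eq_zero, some_ne_zero). -/
theorem pr_PI (hΔ : W.Δ ≠ 0) {x y : k} (h : W.Equation x y) {f g : W.CoordinateRing} (hf : f ≠ 0) (hg : g ≠ 0) :
    Ideal.span {f} * PI W x y ≠ Ideal.span {g} := by
  classical
  intro hfg
  have hn : W.Nonsingular x y := (Affine.equation_iff_nonsingular_of_Δ_ne_zero hΔ).1 h
  have h1 : ClassGroup.mk W.FunctionField (Affine.CoordinateRing.XYIdeal' (W := W) hn) =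
      ClassGroup.mk W.FunctionField 1 := by
    refine (ClassGroup.mk_eq_mk_of_coe_ideal (I' := PI W x y) (J' := ⊤)
      (Affine.CoordinateRing.XYIdeal'_eq hn) ?_).2 ⟨f, g, hf, hg, ?_⟩
    · rw [Units.val_one, FractionalIdeal.coeIdeal_top]
    · rw [hfg, Ideal.mul_top]
  have h2 : Affine.Point.toClass (Affine.Point.some x y hn) = 0 := by
    rw [Affine.Point.toClass_some, h1, map_one]
    rfl
  exact Affine.Point.some_ne_zero _ ((Affine.Point.toClass_eq_zero _).1 h2)

/-- Chunk W4A. I * PI x y = span {f}, I * PI x' y' = span {g}: g PI x y = (1/I) f g.. : multiply the first by PI x' y' and use the second: span {g} * PI x y = I * PI x' y' * PI x y = span {f} * PI x' y'. So the classes of PI x y and PI x' y' are equal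
(ClassGroup.mk_eq_mk_of_coe_ideal), toClass_injective, Affine.Point.some.injEq. -/
theorem pr_uniq (hΔ : W.Δ ≠ 0) {x y x' y' : k} (h : W.Equation x y) (h' : W.Equation x' y') {I : Ideal W.CoordinateRing}
    {f g : W.CoordinateRing} (hf : f ≠ 0) (hg : g ≠ 0) (h1 : I * PI W x y = Ideal.span {f})
    (h2 : I * PI W x' y' = Ideal.span {g}) : x = x' ∧ y = y' := by
  classical
  have hn : W.Nonsingular x y := (Affine.equation_iff_nonsingular_of_Δ_ne_zero hΔ).1 h
  have hn' : W.Nonsingular x' y' := (Affine.equation_iff_nonsingular_of_Δ_ne_zero hΔ).1 h'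
  have h3 : Ideal.span {g} * PI W x y = Ideal.span {f} * PI W x' y' := by
    rw [← h1, ← h2]
    ring
  have h4 : ClassGroup.mk W.FunctionField (Affine.CoordinateRing.XYIdeal' (W := W) hn) =
      ClassGroup.mk W.FunctionField (Affine.CoordinateRing.XYIdeal' (W := W) hn') :=
    (ClassGroup.mk_eq_mk_of_coe_ideal (I' := PI W x y) (J' := PI W x' y')
      (Affine.CoordinateRing.XYIdeal'_eq hn) (Affine.CoordinateRing.XYIdeal'_eq hn')).2
      ⟨g, f, hg, hf, h3⟩
  have h5 : Affine.Point.toClass (Affine.Point.some x y hn) =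
      Affine.Point.toClass (Affine.Point.some x' y' hn') := by
    rw [Affine.Point.toClass_some, Affine.Point.toClass_some, h4]
  have h6 := Affine.Point.toClass_injective h5
  rw [Affine.Point.some.injEq] at h6
  exact h6

end H55K.WZ
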