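import Mathlib
import Pool.Agent.Lib.H55K.W3A

/-! # H55K, part W: generators of principal ideals -/

open Polynomial

open scoped Polynomial.Bivariate

namespace H55K.WZ

open WeierstrassCurve (Affine)

variable {k : Type} [Field k] (W : Affine k)

theorem w3c_one : nd W (1 : W.CoordinateRing) = 0 := by
  unfold nd
  rw [map_one, natDegree_one]

theorem w3c_const (c : k) (hc : c ≠ 0) (f : W.CoordinateRing) (hf : f ≠ 0) :
    algebraMap k W.CoordinateRing c * f ≠ 0 ∧ nd W (algebraMap k W.CoordinateRing c * f) = nd W f := by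
  have h1 : algebraMap k W.CoordinateRing c ≠ 0 := by
    intro h
    have h2 : algebraMap k W.CoordinateRing c * algebraMap k W.CoordinateRing c⁻¹ = 1 := by
      rw [← map_mul, mul_inv_cancel₀ hc, map_one]
    rw [h, zero_mul] at h2
    exact zero_ne_one h2
  refine ⟨mul_ne_zero h1 hf, ?_⟩
  rw [nd_mul W _ _ h1 hf, (nd_zero W _).2 ⟨c, rfl⟩, zero_add]

/-- Chunk W3C (S/M). A unit u has nd u = 0 (nd_mul u u⁻¹ = nd 1 = 0), so it is a constant (nd_zero). -/
theorem unit_iff (f : W.CoordinateRing) : IsUnit f ↔ ∃ c : k, c ≠ 0 ∧ f = algebraMap k W.CoordinateRing c := by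
  constructor
  · intro hf
    obtain ⟨g, hg⟩ := hf.exists_right_inv
    have hf0 : f ≠ 0 := hf.ne_zero
    have hg0 : g ≠ 0 := by
      rintro rfl
      rw [mul_zero] at hg
      exact zero_ne_one hg
    have h1 := nd_mul W f g hf0 hg0
    rw [hg, w3c_one] at h1
    obtain ⟨c, hc⟩ := (nd_zero W f).1 (by omega)
    refine ⟨c, ?_, hc⟩
    rintro rfl
    rw [map_zero] at hc
    exact hf0 hc
  · rintro ⟨c, hc, rfl⟩
    exact (isUnit_iff_ne_zero.2 hc).map (algebraMap k W.CoordinateRing)

/-- Chunk W3C. The map f ↦ span {f} from {f in P, f ≠ 0, nd f = m} onto the set of ideals has fibres with q - 1 elements: span {f} = span {g} iff g = c f with a constant c ≠ 0 (unit_iff, Ideal.span_singleton_eq_span_singleton, Associated). Build an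
equivalence {f // ..} ≃ {I // ..} × kˣ (choose a generator for each I) and Nat.card_prod, Nat.card_units (Nat.card kˣ = Nat.card k - 1). All sets are allowed to be infinite in this argument (Nat.card_congr). nd (c f) = nd f: nd_mul and nd_zero. -/
theorem card_fib [Finite k] (P : Ideal W.CoordinateRing) (m : ℕ) :
    Nat.card {I : Ideal W.CoordinateRing // ∃ f ∈ P, f ≠ 0 ∧ nd W f = m ∧ I = Ideal.span {f}} * (Nat.card k - 1) =
      Nat.card {f : W.CoordinateRing // f ∈ P ∧ f ≠ 0 ∧ nd W f = m} := by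
  classical
  rw [← Nat.card_units, ← Nat.card_prod]
  have hg : ∀ I : {I : Ideal W.CoordinateRing // ∃ f ∈ P, f ≠ 0 ∧ nd W f = m ∧ I = Ideal.span {f}},
      ∃ f ∈ P, f ≠ 0 ∧ nd W f = m ∧ I.1 = Ideal.span {f} := fun I => I.2
  choose g hgP hg0 hgm hgI using hg
  let Φ : {I : Ideal W.CoordinateRing // ∃ f ∈ P, f ≠ 0 ∧ nd W f = m ∧ I = Ideal.span {f}} × kˣ →
      {f : W.CoordinateRing // f ∈ P ∧ f ≠ 0 ∧ nd W f = m} := fun x =>
    ⟨algebraMap k W.CoordinateRing (x.2 : k) * g x.1, P.mul_mem_left _ (hgP x.1),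
      (w3c_const W _ x.2.ne_zero _ (hg0 x.1)).1,
      ((w3c_const W _ x.2.ne_zero _ (hg0 x.1)).2).trans (hgm x.1)⟩
  refine Nat.card_congr (Equiv.ofBijective Φ ⟨?_, ?_⟩)
  · rintro ⟨I, c⟩ ⟨J, d⟩ h
    have h1 : algebraMap k W.CoordinateRing (c : k) * g I = algebraMap k W.CoordinateRing (d : k) * g J :=
      congrArg Subtype.val h
    have hu : ∀ (c : kˣ) (f : W.CoordinateRing), Ideal.span {algebraMap k W.CoordinateRing (c : k) * f} =
        Ideal.span {f} := by
      intro c f
      apply Ideal.span_singleton_mul_left_unit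
      exact (unit_iff W _).2 ⟨c, c.ne_zero, rfl⟩
    have hIJ : I = J := by
      apply Subtype.ext
      rw [hgI I, hgI J, ← hu c (g I), h1, hu d (g J)]
    subst hIJ
    have h2 := mul_right_cancel₀ (hg0 I) h1
    have h3 : (c : k) = (d : k) := (algebraMap k W.CoordinateRing).injective h2
    exact Prod.ext rfl (Units.ext h3)
  · rintro ⟨f, hfP, hf0, hfm⟩
    let I : {I : Ideal W.CoordinateRing // ∃ f ∈ P, f ≠ 0 ∧ nd W f = m ∧ I = Ideal.span {f}} :=
      ⟨Ideal.span {f}, f, hfP, hf0, hfm, rfl⟩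
    have h1 : Ideal.span {g I} = Ideal.span {f} := (hgI I).symm
    obtain ⟨u, hu⟩ := Ideal.span_singleton_eq_span_singleton.1 h1
    obtain ⟨c, hc, hc'⟩ := (unit_iff W (u : W.CoordinateRing)).1 u.isUnit
    refine ⟨(I, Units.mk0 c hc), Subtype.ext ?_⟩
    show algebraMap k W.CoordinateRing c * g I = f
    rw [← hc', mul_comm]
    exact hu

end H55K.WZ
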