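import Mathlib
import Pool.Agent.Lib.H55K.W2C
import Pool.Agent.Lib.H55K.W3A

/-! # H55K, part W: numbers of functions -/

open Polynomial
open scoped Polynomial.Bivariate

namespace H55K.WZ

open WeierstrassCurve (Affine)

variable {k : Type} [Field k] (W : Affine k)

theorem w3d_nd_zero : nd W (0 : W.CoordinateRing) = 0 := by
  rw [nd_zero]
  exact ⟨0, (map_zero _).symm⟩

theorem w3d_L [Finite k] (m : ℕ) (hm : 1 ≤ m) :
    {f : W.CoordinateRing | nd W f ≤ m}.ncard = Nat.card k ^ m ∧ {f : W.CoordinateRing | nd W f ≤ m}.Finite := by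
  obtain ⟨L, h1, h2, h3⟩ := exists_L W m hm
  have e : {f : W.CoordinateRing | nd W f ≤ m} = (L : Set W.CoordinateRing) := by
    ext f
    exact (h3 f).symm
  have hfin : Finite L := Module.finite_of_finite k
  rw [e]
  refine ⟨?_, Set.toFinite _⟩
  rw [← Nat.card_coe_set_eq]
  show Nat.card L = _
  rw [Module.natCard_eq_pow_finrank (K := k) (V := L), h2]

theorem w3d_diff (S : Set W.CoordinateRing) (m : ℕ) (hm : 2 ≤ m) {a b : ℕ} (hfin : {f : W.CoordinateRing | nd W f ≤ m}.Finite)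
    (ha : {f : W.CoordinateRing | f ∈ S ∧ nd W f ≤ m}.ncard = a)
    (hb : {f : W.CoordinateRing | f ∈ S ∧ nd W f ≤ m - 1}.ncard = b) :
    Nat.card {f : W.CoordinateRing // f ∈ S ∧ f ≠ 0 ∧ nd W f = m} + b = a := by
  have e : {f : W.CoordinateRing | f ∈ S ∧ f ≠ 0 ∧ nd W f = m} =
      {f : W.CoordinateRing | f ∈ S ∧ nd W f ≤ m} \ {f : W.CoordinateRing | f ∈ S ∧ nd W f ≤ m - 1} := by
    ext f
    constructor
    · rintro ⟨h1, h2, h3⟩
      refine ⟨⟨h1, h3.le⟩, ?_⟩
      rintro ⟨_, h4⟩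
      omega
    · rintro ⟨⟨h1, h2⟩, h3⟩
      have h4 : nd W f = m := by
        by_contra h5
        exact h3 ⟨h1, by omega⟩
      refine ⟨h1, ?_, h4⟩
      rintro rfl
      rw [w3d_nd_zero] at h4
      omega
  have h1 : Nat.card {f : W.CoordinateRing // f ∈ S ∧ f ≠ 0 ∧ nd W f = m} =
      {f : W.CoordinateRing | f ∈ S ∧ f ≠ 0 ∧ nd W f = m}.ncard := rfl
  rw [h1, e, ← ha, ← hb]
  refine Set.ncard_sdiff_add_ncard_of_subset ?_ ?_
  · rintro f ⟨h2, h3⟩
    exact ⟨h2, h3.trans (Nat.sub_le _ _)⟩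
  · exact hfin.subset fun f hf => hf.2

/-- Chunk W3D (M). Number of f with nd f ≤ m is q^m for m ≥ 1 (exists_L, Module.card_eq_pow_finrank: Nat.card L = (Nat.card k)^finrank); {nd ≤ m} is the disjoint union of {nd ≤ m - 1} and {f ≠ 0, nd f = m} (m ≥ 2; nd 0 = 0). -/
theorem card_R [Finite k] (m : ℕ) (hm : 2 ≤ m) :
    Nat.card {f : W.CoordinateRing // f ∈ (⊤ : Ideal W.CoordinateRing) ∧ f ≠ 0 ∧ nd W f = m} + Nat.card k ^ (m - 1) =
      Nat.card k ^ m := by
  have e : ∀ n, {f : W.CoordinateRing | f ∈ ((⊤ : Ideal W.CoordinateRing) : Set W.CoordinateRing) ∧ nd W f ≤ n} =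
      {f : W.CoordinateRing | nd W f ≤ n} := by
    intro n
    ext f
    exact ⟨fun h => h.2, fun h => ⟨trivial, h⟩⟩
  refine w3d_diff W ((⊤ : Ideal W.CoordinateRing) : Set W.CoordinateRing) m hm (w3d_L W m (by omega)).2 ?_ ?_
  · rw [e]
    exact (w3d_L W m (by omega)).1
  · rw [e]
    exact (w3d_L W (m - 1) (by omega)).1

theorem w3d_P [Finite k] {x y : k} (h : W.Equation x y) (m : ℕ) (hm : 1 ≤ m) :
    {f : W.CoordinateRing | f ∈ (PI W x y : Set W.CoordinateRing) ∧ nd W f ≤ m}.ncard = Nat.card k ^ (m - 1) := by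
  obtain ⟨L, h1, h2, h3⟩ := exists_L W m hm
  obtain ⟨hb, hd⟩ := dg_PI W h
  let φ : L →ₗ[k] (W.CoordinateRing ⧸ PI W x y) := (Ideal.Quotient.mkₐ k (PI W x y)).toLinearMap ∘ₗ L.subtype
  have hfq : Module.Finite k (W.CoordinateRing ⧸ PI W x y) := by
    refine Module.finite_of_finrank_pos ?_
    have : Module.finrank k (W.CoordinateRing ⧸ PI W x y) = 1 := hd
    rw [this]
    exact one_pos
  have hsurj : Function.Surjective φ := by
    intro z
    obtain ⟨f, rfl⟩ := Ideal.Quotient.mk_surjective z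
    obtain ⟨c, hc⟩ := val_PI W x y f
    have hcL : algebraMap k W.CoordinateRing c ∈ L := by
      rw [h3, (nd_zero W _).2 ⟨c, rfl⟩]
      exact Nat.zero_le _
    refine ⟨⟨_, hcL⟩, ?_⟩
    show Ideal.Quotient.mk (PI W x y) (algebraMap k W.CoordinateRing c) = Ideal.Quotient.mk (PI W x y) f
    rw [eq_comm, Ideal.Quotient.eq]
    exact hc
  have hfr := LinearMap.finrank_range_add_finrank_ker φ
  rw [LinearMap.range_eq_top.2 hsurj, finrank_top, h2] at hfr
  have hfr' : Module.finrank k φ.ker = m - 1 := by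
    have : Module.finrank k (W.CoordinateRing ⧸ PI W x y) = 1 := hd
    omega
  have hcard : Nat.card φ.ker = Nat.card k ^ (m - 1) := by
    rw [Module.natCard_eq_pow_finrank (K := k) (V := φ.ker), hfr']
  rw [← hcard, ← Nat.card_coe_set_eq]
  refine Nat.card_congr ⟨fun f => ⟨⟨f.1, (h3 _).2 f.2.2⟩, ?_⟩, fun g => ⟨g.1.1, ?_, (h3 _).1 g.1.2⟩, fun f => rfl,
    fun g => rfl⟩
  · rw [LinearMap.mem_ker]
    show Ideal.Quotient.mk (PI W x y) f.1 = 0
    rw [Ideal.Quotient.eq_zero_iff_mem]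
    exact f.2.1
  · have h4 := LinearMap.mem_ker.1 g.2
    change Ideal.Quotient.mk (PI W x y) g.1.1 = 0 at h4
    rw [Ideal.Quotient.eq_zero_iff_mem] at h4
    exact h4

/-- Chunk W3D. For m ≥ 1 the subspace {f in PI x y, nd f ≤ m} of L has dimension m - 1: the quotient of L by it is R/PI (dimension 1, dg_PI) because the constants map onto R/PI (val_PI; constants are in L: nd = 0). So it has q^(m-1) elements; difference for m and m - 1 (m ≥ 2). -/
theorem card_P [Finite k] {x y : k} (h : W.Equation x y) (m : ℕ) (hm : 2 ≤ m) :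
    Nat.card {f : W.CoordinateRing // f ∈ PI W x y ∧ f ≠ 0 ∧ nd W f = m} + Nat.card k ^ (m - 2) =
      Nat.card k ^ (m - 1) := by
  refine w3d_diff W (PI W x y : Set W.CoordinateRing) m hm (w3d_L W m (by omega)).2 (w3d_P W h m (by omega)) ?_
  have e : m - 2 = m - 1 - 1 := by omega
  rw [e]
  exact w3d_P W h (m - 1) (by omega)

end H55K.WZ
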