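import Mathlib
import Pool.Agent.Lib.H55K.W2B
import Pool.Agent.Lib.H55K.W3C
import Pool.Agent.Lib.H55K.W3D

/-! # H55K, part W: the number of ideals of given degree -/

open Polynomial

open scoped Polynomial.Bivariate

namespace H55K.WZ

open WeierstrassCurve (Affine)

variable {k : Type} [Field k] (W : Affine k)

theorem w4b_cancel (hΔ : W.Δ ≠ 0) {P I J : Ideal W.CoordinateRing} (hP : P ≠ ⊥) (h : I * P = J * P) : I = J := by
  have hD : IsDedekindDomain W.CoordinateRing := dedekind W hΔ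
  have := @Ideal.isCancelMulZero W.CoordinateRing _ hD
  exact mul_right_cancel₀ hP h

theorem w4b_dvd (hΔ : W.Δ ≠ 0) {P J : Ideal W.CoordinateRing} (h : J ≤ P) : ∃ I, J = I * P := by
  have hD : IsDedekindDomain W.CoordinateRing := dedekind W hΔ
  obtain ⟨I, hI⟩ := (@Ideal.dvd_iff_le W.CoordinateRing _ hD P J).2 h
  exact ⟨I, by rw [hI, mul_comm]⟩

/-- Chunk W4B (S/M). Principal ideals of degree n ≥ 2: dg (span {f}) = nd f (dg_span), card_fib for P = ⊤, card_R: q^n - q^(n-1) = q^(n-1) (q - 1); q ≥ 2 (Finite.one_lt_card), cancel q - 1. -/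
theorem card_pr [Finite k] (n : ℕ) (hn : 2 ≤ n) :
    Nat.card {I : Ideal W.CoordinateRing // ∃ f, f ≠ 0 ∧ nd W f = n ∧ I = Ideal.span {f}} = Nat.card k ^ (n - 1) := by
  have hq : 1 < Nat.card k := Finite.one_lt_card
  have h1 := card_fib W ⊤ n
  have h2 := card_R W n hn
  have h3 : Nat.card {I : Ideal W.CoordinateRing // ∃ f, f ≠ 0 ∧ nd W f = n ∧ I = Ideal.span {f}} =
      Nat.card {I : Ideal W.CoordinateRing //
        ∃ f ∈ (⊤ : Ideal W.CoordinateRing), f ≠ 0 ∧ nd W f = n ∧ I = Ideal.span {f}} := by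
    refine Nat.card_congr (Equiv.subtypeEquivRight fun I => ?_)
    exact ⟨fun ⟨f, hf⟩ => ⟨f, Submodule.mem_top, hf⟩, fun ⟨f, _, hf⟩ => ⟨f, hf⟩⟩
  rw [h3]
  rw [← h1] at h2
  obtain ⟨q, hq'⟩ : ∃ q, Nat.card k = q + 2 := ⟨Nat.card k - 2, by omega⟩
  obtain ⟨m, rfl⟩ : ∃ m, n = m + 1 := ⟨n - 1, by omega⟩
  rw [hq'] at h2 ⊢
  rw [Nat.add_sub_cancel] at h2 ⊢
  have h4 : q + 2 - 1 = q + 1 := by omega
  rw [h4] at h2
  have h5 : (q + 2) ^ (m + 1) = (q + 2) ^ m * (q + 1) + (q + 2) ^ m := by ring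
  rw [h5] at h2
  have h6 := Nat.add_right_cancel h2
  exact Nat.eq_of_mul_eq_mul_right (Nat.succ_pos q) h6

/-- Chunk W4B. For n ≥ 1 the ideals I of degree n with I * PI x y = span {f} correspond to the ideals span {f}, f in PI x y, f ≠ 0, nd f = n + 1: I ↦ I * PI x y is injective (Dedekind: cancellation; PI ≠ ⊥), onto: span {f} ≤ PI so span {f} = I * PI (Ideal.dvd_iff_le), dg I = n
(dg_mul, dg_PI, dg_span). card_fib for P = PI x y, m = n + 1, card_P: q^n - q^(n-1). -/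
theorem card_prP (hΔ : W.Δ ≠ 0) [Finite k] {x y : k} (h : W.Equation x y) (n : ℕ) (hn : 1 ≤ n) :
    Nat.card {I : Ideal W.CoordinateRing // I ≠ ⊥ ∧ dg W I = n ∧ ∃ f, f ≠ 0 ∧ I * PI W x y = Ideal.span {f}} =
      Nat.card k ^ (n - 1) := by
  obtain ⟨hP0, hP1⟩ := dg_PI W h
  have hq : 1 < Nat.card k := Finite.one_lt_card
  have h1 := card_fib W (PI W x y) (n + 1)
  have h2 := card_P W h (n + 1) (by omega)
  have hs0 : ∀ f : W.CoordinateRing, f ≠ 0 → Ideal.span {f} ≠ ⊥ := fun f hf h0 =>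
    hf (Ideal.span_singleton_eq_bot.1 h0)
  have h3 : Nat.card {I : Ideal W.CoordinateRing // I ≠ ⊥ ∧ dg W I = n ∧
        ∃ f, f ≠ 0 ∧ I * PI W x y = Ideal.span {f}} =
      Nat.card {I : Ideal W.CoordinateRing //
        ∃ f ∈ PI W x y, f ≠ 0 ∧ nd W f = n + 1 ∧ I = Ideal.span {f}} := by
    refine Nat.card_congr (Equiv.ofBijective (fun I => ⟨I.1 * PI W x y, ?_⟩) ⟨?_, ?_⟩)
    · obtain ⟨hI0, hIn, f, hf, hIf⟩ := I.2
      refine ⟨f, ?_, hf, ?_, hIf⟩
      · have h4 : f ∈ Ideal.span {f} := Ideal.mem_span_singleton_self f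
        rw [← hIf] at h4
        exact Ideal.mul_le_right h4
      · rw [← dg_span W hf, ← hIf, dg_mul W hΔ hI0 hP0, hIn, hP1]
    · intro I J hIJ
      have h4 : I.1 * PI W x y = J.1 * PI W x y := congrArg Subtype.val hIJ
      exact Subtype.ext (w4b_cancel W hΔ hP0 h4)
    · rintro ⟨J, f, hfP, hf, hfn, rfl⟩
      obtain ⟨I, hI⟩ := w4b_dvd W hΔ ((Ideal.span_singleton_le_iff_mem (PI W x y)).2 hfP)
      have hI0 : I ≠ ⊥ := by
        rintro rfl
        apply hs0 f hf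
        rw [hI, Ideal.bot_mul]
      refine ⟨⟨I, hI0, ?_, f, hf, hI.symm⟩, Subtype.ext hI.symm⟩
      have h5 := dg_span W hf
      rw [hI, dg_mul W hΔ hI0 hP0, hP1, hfn] at h5
      exact Nat.add_right_cancel h5
  rw [h3]
  rw [← h1] at h2
  obtain ⟨q, hq'⟩ : ∃ q, Nat.card k = q + 2 := ⟨Nat.card k - 2, by omega⟩
  obtain ⟨m, rfl⟩ : ∃ m, n = m + 1 := ⟨n - 1, by omega⟩
  rw [hq'] at h2 ⊢
  have h4 : q + 2 - 1 = q + 1 := by omega
  have h7 : m + 1 + 1 - 2 = m := by omega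
  have h8 : m + 1 + 1 - 1 = m + 1 := by omega
  rw [h4, h7, h8] at h2
  rw [Nat.add_sub_cancel]
  have h5 : (q + 2) ^ (m + 1) = (q + 2) ^ m * (q + 1) + (q + 2) ^ m := by ring
  rw [h5] at h2
  have h6 := Nat.add_right_cancel h2
  exact Nat.eq_of_mul_eq_mul_right (Nat.succ_pos q) h6

end H55K.WZ
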