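import Mathlib
import Pool.Agent.Lib.H55K.W3B
import Pool.Agent.Lib.H55K.W4A
import Pool.Agent.Lib.H55K.W4B

set_option autoImplicit false

/-! # H55K, part W: the number of ideals of given degree -/

open Polynomial

open scoped Polynomial.Bivariate

namespace H55K.WZ

open WeierstrassCurve (Affine)

variable {k : Type} [Field k] (W : Affine k)

/-- the affine points -/
noncomputable def w4c_equiv (hΔ : W.Δ ≠ 0) :
    W.Point ≃ Option {p : k × k // W.Equation p.1 p.2} where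
  toFun P := match P with
    | .zero => none
    | .some x y h => some ⟨(x, y), h.1⟩
  invFun o := match o with
    | none => .zero
    | some p => .some p.1.1 p.1.2 ((Affine.equation_iff_nonsingular_of_Δ_ne_zero hΔ).1 p.2)
  left_inv P := by
    cases P with
    | zero => rfl
    | some x y h => rfl
  right_inv o := by
    cases o with
    | none => rfl
    | some p => rfl

theorem w4c_card (hΔ : W.Δ ≠ 0) [Finite k] :
    Nat.card W.Point = Nat.card {p : k × k // W.Equation p.1 p.2} + 1 := by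
  rw [Nat.card_congr (w4c_equiv W hΔ), Finite.card_option]

theorem idn_two (hΔ : W.Δ ≠ 0) [Finite k] (n : ℕ) (hn : 2 ≤ n) : idn W n = Nat.card W.Point * Nat.card k ^ (n - 1) := by
  classical
  set E := {p : k × k // W.Equation p.1 p.2} with hE
  haveI : Fintype E := Fintype.ofFinite E
  have hq : 0 < Nat.card k ^ (n - 1) := pow_pos Nat.card_pos _
  let A := {I : Ideal W.CoordinateRing // ∃ f, f ≠ 0 ∧ nd W f = n ∧ I = Ideal.span {f}}
  let B : E → Type := fun e => {I : Ideal W.CoordinateRing // I ≠ ⊥ ∧ dg W I = n ∧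
    ∃ f, f ≠ 0 ∧ I * PI W e.1.1 e.1.2 = Ideal.span {f}}
  have hA : Nat.card A = Nat.card k ^ (n - 1) := card_pr W n hn
  have hB : ∀ e, Nat.card (B e) = Nat.card k ^ (n - 1) := fun e =>
    card_prP W hΔ e.2 n (by omega)
  haveI fA : Finite A := Nat.finite_of_card_ne_zero (by rw [hA]; exact hq.ne')
  haveI fB : ∀ e, Finite (B e) := fun e => Nat.finite_of_card_ne_zero (by rw [hB e]; exact hq.ne')
  let φ : A ⊕ (Σ e, B e) → {I : Ideal W.CoordinateRing // I ≠ ⊥ ∧ dg W I = n} := fun s =>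
    match s with
    | Sum.inl a => ⟨a.1, by
        obtain ⟨f, hf, hfn, hI⟩ := a.2
        rw [hI]
        exact ⟨fun h => hf (Ideal.span_singleton_eq_bot.1 h), by rw [dg_span W hf, hfn]⟩⟩
    | Sum.inr s => ⟨s.2.1, s.2.2.1, s.2.2.2.1⟩
  have hφ : Function.Bijective φ := by
    constructor
    · rintro (a | ⟨e, b⟩) (a' | ⟨e', b'⟩) h
      · have h1 : (φ (Sum.inl a)).1 = (φ (Sum.inl a')).1 := congrArg Subtype.val h
        have h2 : a = a' := Subtype.ext h1
        rw [h2]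
      · exfalso
        have h1 : a.1 = b'.1 := congrArg Subtype.val h
        obtain ⟨f, hf, _, hI⟩ := a.2
        obtain ⟨g, hg, hJ⟩ := b'.2.2.2
        rw [← h1, hI] at hJ
        exact pr_PI W hΔ e'.2 hf hg hJ
      · exfalso
        have h1 : b.1 = a'.1 := congrArg Subtype.val h
        obtain ⟨f, hf, _, hI⟩ := a'.2
        obtain ⟨g, hg, hJ⟩ := b.2.2.2
        rw [h1, hI] at hJ
        exact pr_PI W hΔ e.2 hf hg hJ
      · have h1 : b.1 = b'.1 := congrArg Subtype.val h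
        obtain ⟨f, hf, hI⟩ := b.2.2.2
        obtain ⟨g, hg, hJ⟩ := b'.2.2.2
        rw [← h1] at hJ
        have h2 := pr_uniq W hΔ e.2 e'.2 hf hg hI hJ
        have h3 : e = e' := Subtype.ext (Prod.ext h2.1 h2.2)
        subst h3
        rw [Subtype.ext h1]
    · rintro ⟨I, hI, hIn⟩
      obtain ⟨f, hf, h1 | ⟨x, y, hxy, h1⟩⟩ := exists_comp W hΔ hI
      · refine ⟨Sum.inl ⟨I, f, hf, ?_, h1⟩, rfl⟩
        rw [← hIn, h1, dg_span W hf]
      · exact ⟨Sum.inr ⟨⟨(x, y), hxy⟩, ⟨I, hI, hIn, f, hf, h1⟩⟩, rfl⟩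
  have h1 : idn W n = Nat.card (A ⊕ (Σ e, B e)) := (Nat.card_congr (Equiv.ofBijective φ hφ)).symm
  rw [h1, Nat.card_sum, Nat.card_sigma, hA, w4c_card W hΔ]
  have h2 : ∑ e, Nat.card (B e) = Nat.card E * Nat.card k ^ (n - 1) := by
    rw [Finset.sum_congr rfl fun e _ => hB e, Finset.sum_const, smul_eq_mul, Finset.card_univ,
      ← Nat.card_eq_fintype_card (α := E)]
  rw [h2]
  ring

theorem w4c_PI_inj (hΔ : W.Δ ≠ 0) {x y x' y' : k} (h : W.Equation x y) (h' : W.Equation x' y')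
    (hP : PI W x y = PI W x' y') : x = x' ∧ y = y' := by
  obtain ⟨f, hf, h1 | ⟨a, b, hab, h1⟩⟩ := exists_comp W hΔ (dg_PI W h).1
  · exfalso
    refine pr_PI W hΔ h (f := 1) (g := f) one_ne_zero hf ?_
    rw [Ideal.span_singleton_one, Ideal.top_mul, h1]
  · have h2 : PI W a b * PI W x y = Ideal.span {f} := by rw [mul_comm, h1]
    have h3 : PI W a b * PI W x' y' = Ideal.span {f} := by rw [← hP, h2]
    exact pr_uniq W hΔ h h' hf hf h2 h3

theorem idn_one (hΔ : W.Δ ≠ 0) [Finite k] : idn W 1 + 1 = Nat.card W.Point := by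
  rw [w4c_card W hΔ]
  congr 1
  let φ : {p : k × k // W.Equation p.1 p.2} →
      {I : Ideal W.CoordinateRing // I ≠ ⊥ ∧ dg W I = 1} := fun e =>
    ⟨PI W e.1.1 e.1.2, dg_PI W e.2⟩
  have hφ : Function.Bijective φ := by
    constructor
    · intro e e' h
      have h1 : PI W e.1.1 e.1.2 = PI W e'.1.1 e'.1.2 := congrArg Subtype.val h
      have h2 := w4c_PI_inj W hΔ e.2 e'.2 h1
      exact Subtype.ext (Prod.ext h2.1 h2.2)
    · rintro ⟨I, hI, hI1⟩
      obtain ⟨x, y, hxy, h1⟩ := PI_of_dg W hI hI1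
      exact ⟨⟨(x, y), hxy⟩, Subtype.ext h1.symm⟩
  exact (Nat.card_congr (Equiv.ofBijective φ hφ)).symm

theorem idn_zero : idn W 0 = 1 := by
  unfold idn
  have h0 : (⊤ : Ideal W.CoordinateRing) ≠ ⊥ := top_ne_bot
  haveI : Unique {I : Ideal W.CoordinateRing // I ≠ ⊥ ∧ dg W I = 0} :=
    { default := ⟨⊤, h0, (dg_zero W h0).2 rfl⟩
      uniq := fun I => Subtype.ext ((dg_zero W I.2.1).1 I.2.2) }
  exact Nat.card_unique

end H55K.WZ
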