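import Mathlib
import Pool.Agent.Lib.H55K.W0

/-! # H55K, part W: points are homomorphisms -/

open Polynomial

open scoped Polynomial.Bivariate

namespace H55K.WZ

open WeierstrassCurve (Affine)

variable {k : Type} [Field k] (W : Affine k)

theorem w5a_algMap (p : k[X]) : algebraMap k[X] W.CoordinateRing p = Affine.CoordinateRing.mk W (C p) := rfl

theorem w5a_algMapk (c : k) : algebraMap k W.CoordinateRing c = Affine.CoordinateRing.mk W (C (C c)) := rfl

theorem w5a_comp (K : Type) [Field K] [Algebra k K] (φ : W.CoordinateRing →ₐ[k] K) (p : k[X]) :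
    φ (algebraMap k[X] W.CoordinateRing p) = aeval (φ (algebraMap k[X] W.CoordinateRing X)) p := by
  have h : φ.comp (IsScalarTower.toAlgHom k k[X] W.CoordinateRing) = aeval (φ (algebraMap k[X] W.CoordinateRing X)) := by
    refine Polynomial.algHom_ext ?_
    rw [aeval_X]
    rfl
  exact DFunLike.congr_fun h p

theorem w5a_eq (K : Type) [Field K] [Algebra k K] (φ : W.CoordinateRing →ₐ[k] K) :
    (WeierstrassCurve.baseChange W K).toAffine.Equation (φ (algebraMap k[X] W.CoordinateRing X))
      (φ (Affine.CoordinateRing.mk W Y)) := by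
  have h0 : Affine.CoordinateRing.mk W (Y ^ 2 + C (C W.a₁ * X + C W.a₃) * Y -
      C (X ^ 3 + C W.a₂ * X ^ 2 + C W.a₄ * X + C W.a₆)) = 0 := AdjoinRoot.mk_self
  have h1 := congrArg φ h0
  simp only [map_add, map_sub, map_mul, map_pow, map_zero] at h1
  have hC : ∀ p : k[X], φ (Affine.CoordinateRing.mk W (C p)) = aeval (φ (algebraMap k[X] W.CoordinateRing X)) p :=
    fun p => w5a_comp W K φ p
  simp only [hC, aeval_X, aeval_C] at h1
  rw [WeierstrassCurve.Affine.equation_iff]
  simp only [WeierstrassCurve.baseChange, WeierstrassCurve.map]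
  linear_combination h1

theorem w5a_ext (K : Type) [Field K] [Algebra k K] (φ ψ : W.CoordinateRing →ₐ[k] K)
    (hx : φ (algebraMap k[X] W.CoordinateRing X) = ψ (algebraMap k[X] W.CoordinateRing X))
    (hy : φ (Affine.CoordinateRing.mk W Y) = ψ (Affine.CoordinateRing.mk W Y)) : φ = ψ := by
  refine AlgHom.ext fun f => ?_
  obtain ⟨p, q, rfl⟩ := exists_el W f
  rw [el, Algebra.smul_def, Algebra.smul_def, mul_one]
  simp only [map_add, map_mul]
  rw [w5a_comp W K φ p, w5a_comp W K φ q, w5a_comp W K ψ p, w5a_comp W K ψ q, hx, hy]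

theorem w5a_surj (K : Type) [Field K] [Algebra k K] (x y : K)
    (h : (WeierstrassCurve.baseChange W K).toAffine.Equation x y) : ∃ φ : W.CoordinateRing →ₐ[k] K,
    φ (algebraMap k[X] W.CoordinateRing X) = x ∧ φ (Affine.CoordinateRing.mk W Y) = y := by
  have h0 : eval₂ ((aeval x : k[X] →ₐ[k] K) : k[X] →+* K) y W.polynomial = 0 := by
    rw [WeierstrassCurve.Affine.equation_iff] at h
    simp only [WeierstrassCurve.baseChange, WeierstrassCurve.map] at h
    rw [WeierstrassCurve.Affine.polynomial]
    simp only [eval₂_add, eval₂_sub, eval₂_mul, eval₂_pow, eval₂_X, eval₂_C, RingHom.coe_coe, map_add, map_mul, map_pow,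
      aeval_X, aeval_C]
    linear_combination h
  obtain ⟨g, hg⟩ : ∃ g : W.CoordinateRing →+* K, g = AdjoinRoot.lift ((aeval x : k[X] →ₐ[k] K) : k[X] →+* K) y h0 := ⟨_, rfl⟩
  have hgC : ∀ p : k[X], g (algebraMap k[X] W.CoordinateRing p) = aeval x p := fun p => by
    rw [hg]
    exact AdjoinRoot.lift_of h0
  have hgY : g (Affine.CoordinateRing.mk W Y) = y := by
    rw [hg]
    exact AdjoinRoot.lift_root h0
  have hc : ∀ c : k, g (algebraMap k W.CoordinateRing c) = algebraMap k K c := fun c => by
    rw [IsScalarTower.algebraMap_apply k k[X] W.CoordinateRing, hgC]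
    exact aeval_C x c
  refine ⟨{ g with commutes' := hc }, ?_, ?_⟩
  · show g (algebraMap k[X] W.CoordinateRing X) = x
    rw [hgC, aeval_X]
  · exact hgY

/-- Chunk W5A (S/M). Points ≠ 0 of W over K are the pairs (x, y) with the equation (W.baseChange K has discriminant the image of Δ ≠ 0: map_Δ; Affine.pointEquiv / nonsingularPointEquiv, equation_iff_nonsingular_of_Δ_ne_zero), and these are the k-algebra homomorphisms R → K: AdjoinRoot.lift (aeval x) y,
conversely (f X, f Y) (AdjoinRoot.algHom_ext, Polynomial.algHom_ext). K finite, so everything is finite (Nat.card of Option / WithZero is + 1). -/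
theorem card_pt (hΔ : W.Δ ≠ 0) (K : Type) [Field K] [Finite K] [Algebra k K] :
    Nat.card (WeierstrassCurve.baseChange W K).toAffine.Point = 1 + Nat.card (W.CoordinateRing →ₐ[k] K) := by
  have hΔ' : (WeierstrassCurve.baseChange W K).toAffine.Δ ≠ 0 := by
    show (W.map (algebraMap k K)).Δ ≠ 0
    rw [WeierstrassCurve.map_Δ]
    exact fun h => hΔ ((algebraMap k K).injective (by rw [h, map_zero]))
  have hbij : Function.Bijective (fun φ : W.CoordinateRing →ₐ[k] K =>
      (⟨(φ (algebraMap k[X] W.CoordinateRing X), φ (Affine.CoordinateRing.mk W Y)),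
        (WeierstrassCurve.Affine.equation_iff_nonsingular_of_Δ_ne_zero hΔ').1 (w5a_eq W K φ)⟩ :
        {xy : K × K // (WeierstrassCurve.baseChange W K).toAffine.Nonsingular xy.fst xy.snd})) := by
    constructor
    · intro φ ψ h
      have h1 := congrArg Subtype.val h
      exact w5a_ext W K φ ψ (congrArg Prod.fst h1) (congrArg Prod.snd h1)
    · rintro ⟨⟨x, y⟩, h⟩
      obtain ⟨φ, h1, h2⟩ := w5a_surj W K x y h.1
      exact ⟨φ, Subtype.ext (Prod.ext h1 h2)⟩
  rw [Nat.card_congr (WeierstrassCurve.Affine.nonsingularPointEquiv (WeierstrassCurve.baseChange W K).toAffine),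
    Nat.card_congr (Equiv.ofBijective _ hbij)]
  show Nat.card (Option _) = _
  rw [Finite.card_option, add_comm]

end H55K.WZ
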