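import Mathlib
import Pool.Agent.Lib.H55K.W2A

/-! # H55K, part W: finiteness -/

open Polynomial

open scoped Polynomial.Bivariate

namespace H55K.WZ

open WeierstrassCurve (Affine)

variable {k : Type} [Field k] (W : Affine k)

theorem w4d_monic [Finite k] (n : ℕ) : {c : k[X] | c.Monic ∧ c.natDegree = n}.Finite := by
  have h1 : Finite (degreeLT k (n + 1)) :=
    Finite.of_equiv _ (degreeLTEquiv k (n + 1)).symm.toEquiv
  refine Set.Finite.subset (Set.toFinite ((degreeLT k (n + 1) : Submodule k k[X]) : Set k[X])) ?_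
  rintro c ⟨-, hc2⟩
  show c ∈ degreeLT k (n + 1)
  rw [mem_degreeLT]
  refine lt_of_le_of_lt degree_le_natDegree ?_
  rw [hc2]
  exact_mod_cast Nat.lt_succ_self n

theorem w4d_ne (c : k[X]) (hc : c ≠ 0) : Ideal.span {algebraMap k[X] W.CoordinateRing c} ≠ ⊥ := by
  rw [Ne, Ideal.span_singleton_eq_bot]
  intro h
  apply hc
  refine (el_eq_zero W (p := c) (q := 0) ?_).1
  unfold el
  rw [zero_smul, add_zero, ← Algebra.algebraMap_eq_smul_one, h]

theorem w4d_above [Finite k] (J : Ideal W.CoordinateRing) (hJ : J ≠ ⊥) :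
    {I : Ideal W.CoordinateRing | J ≤ I}.Finite := by
  have h1 : Module.Finite k (W.CoordinateRing ⧸ J) := fin_quot W hJ
  have h2 : Finite (W.CoordinateRing ⧸ J) := Module.finite_of_finite k
  have h3 : Finite (Ideal (W.CoordinateRing ⧸ J)) :=
    Finite.of_injective (fun I : Ideal (W.CoordinateRing ⧸ J) => (I : Set (W.CoordinateRing ⧸ J)))
      SetLike.coe_injective
  refine Set.Finite.of_finite_image (f := fun I => Ideal.map (Ideal.Quotient.mk J) I)
    (Set.toFinite _) ?_
  intro I hI I' hI' h
  have h4 := congrArg (Ideal.comap (Ideal.Quotient.mk J)) h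
  simp only at h4
  rw [Ideal.comap_map_mk hI, Ideal.comap_map_mk hI'] at h4
  exact h4

theorem w4d_mem (I : Ideal W.CoordinateRing) (hI : I ≠ ⊥) :
    ∃ c : k[X], (c.Monic ∧ c.natDegree = dg W I) ∧ algebraMap k[X] W.CoordinateRing c ∈ I := by
  have h1 : Module.Finite k (W.CoordinateRing ⧸ I) := fin_quot W hI
  set φ : k[X] →ₐ[k] (W.CoordinateRing ⧸ I) :=
    (Ideal.Quotient.mkₐ k I).comp ((Algebra.ofId k[X] W.CoordinateRing).restrictScalars k) with hφ
  set x : W.CoordinateRing ⧸ I := φ X with hx
  set c : k[X] := (Algebra.lmul k (W.CoordinateRing ⧸ I) x).charpoly with hc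
  refine ⟨c, ⟨LinearMap.charpoly_monic _, ?_⟩, ?_⟩
  · rw [hc, LinearMap.charpoly_natDegree]
    rfl
  · have h2 : aeval (Algebra.lmul k (W.CoordinateRing ⧸ I) x) c = 0 := LinearMap.aeval_self_charpoly _
    rw [aeval_algHom_apply] at h2
    have h3 : aeval x c = 0 := by
      have h4 := congrArg (fun f : Module.End k (W.CoordinateRing ⧸ I) => f 1) h2
      simpa using h4
    rw [hx, aeval_algHom_apply, aeval_X_left_apply] at h3
    exact Ideal.Quotient.eq_zero_iff_mem.1 h3

/-- Chunk W4D (S/M). Let dg I = n. The characteristic polynomial c of the multiplication by the class of X on R/I (LinearMap.charpoly, fin_quot) is monic of degree n and c(X) = 0 in R/I (Cayley-Hamilton, LinearMap.aeval_self_charpoly applied to 1): algebraMap k[X] R c is in I. So I contains one of the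
finitely many ideals span {algebraMap k[X] R c}, c monic of degree n (k finite: finitely many polynomials of degree n, degreeLT finite), c ≠ 0; R/span{c} is finite (fin_quot, Module.finite_of_finite k), so only finitely many ideals contain it (Ideal.orderIsoOfQuotient / comap injective from the ideals of the finite ring R/span{c}). -/
theorem fin_id [Finite k] (n : ℕ) : {I : Ideal W.CoordinateRing | I ≠ ⊥ ∧ dg W I = n}.Finite := by
  refine Set.Finite.subset (Set.Finite.biUnion (w4d_monic (k := k) n)
    (t := fun c => {I : Ideal W.CoordinateRing |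
      Ideal.span {algebraMap k[X] W.CoordinateRing c} ≤ I}) ?_) ?_
  · rintro c ⟨hc, -⟩
    exact w4d_above W _ (w4d_ne W c hc.ne_zero)
  · rintro I ⟨hI, hn⟩
    obtain ⟨c, ⟨hc1, hc2⟩, hc3⟩ := w4d_mem W I hI
    rw [Set.mem_iUnion₂]
    refine ⟨c, ⟨hc1, hc2.trans hn⟩, ?_⟩
    show Ideal.span {algebraMap k[X] W.CoordinateRing c} ≤ I
    rw [Ideal.span_singleton_le_iff_mem]
    exact hc3

end H55K.WZ
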