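import Mathlib
import Pool.Agent.Lib.H55K.W4D

/-! # H55K, part W: homomorphisms and prime ideals -/

open Polynomial

open scoped Polynomial.Bivariate

namespace H55K.WZ

open WeierstrassCurve (Affine)

variable {k : Type} [Field k] (W : Affine k)

theorem w5b_inf : Infinite W.CoordinateRing := by
  refine Infinite.of_injective (fun p : k[X] => el W p 0) ?_
  intro p q h
  have h2 : el W (p - q) 0 = 0 := by
    have : el W (p - q) 0 = el W p 0 - el W q 0 := by
      simp only [el, sub_smul, zero_smul, add_zero]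
    rw [this]
    exact sub_eq_zero.2 h
  exact sub_eq_zero.1 (el_eq_zero W h2).1

theorem w5b_bot {K : Type} [Field K] [Finite K] [Algebra k K] (φ : W.CoordinateRing →ₐ[k] K) :
    RingHom.ker φ ≠ ⊥ := by
  intro h
  have h1 : Function.Injective φ := (RingHom.injective_iff_ker_eq_bot φ).2 h
  have := w5b_inf W
  exact not_finite_iff_infinite.2 this (Finite.of_injective _ h1)

theorem w5b_fin [Finite k] {P : Ideal W.CoordinateRing} (hP : P ≠ ⊥) : Finite (W.CoordinateRing ⧸ P) := by
  have := fin_quot W hP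
  exact Module.finite_of_finite k

theorem w5b_max [Finite k] {P : Ideal W.CoordinateRing} (hP : P ≠ ⊥) (h : P.IsPrime) : P.IsMaximal := by
  have := w5b_fin W hP
  have : IsDomain (W.CoordinateRing ⧸ P) := Ideal.Quotient.isDomain P
  exact Ideal.Quotient.maximal_of_isField P (Finite.isField_of_domain _)

theorem w5b_dvd [Finite k] {K : Type} [Field K] [Finite K] [Algebra k K] (φ : W.CoordinateRing →ₐ[k] K) :
    dg W (RingHom.ker φ) ∣ Module.finrank k K := by
  have hb := w5b_bot W φ
  have hp : (RingHom.ker φ).IsPrime := RingHom.ker_isPrime φ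
  have hm := w5b_max W hb hp
  letI := Ideal.Quotient.field (RingHom.ker φ)
  exact FiniteField.nonempty_algHom_iff_finrank_dvd.1 ⟨Ideal.kerLiftAlg φ⟩

/-- The homomorphisms with a given kernel. -/
noncomputable def w5b_eq [Finite k] {K : Type} [Field K] [Finite K] [Algebra k K] (P : Ideal W.CoordinateRing)
    (hP : P ≠ ⊥) (h : P.IsPrime) :
    {φ : W.CoordinateRing →ₐ[k] K // RingHom.ker φ = P} ≃ (W.CoordinateRing ⧸ P →ₐ[k] K) where
  toFun φ := Ideal.Quotient.liftₐ P φ.1 (fun a ha => by
    have : a ∈ RingHom.ker φ.1 := by rw [φ.2]; exact ha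
    exact this)
  invFun ψ := ⟨ψ.comp (Ideal.Quotient.mkₐ k P), by
    have hm := w5b_max W hP h
    letI := Ideal.Quotient.field P
    have hi : Function.Injective ψ := ψ.toRingHom.injective
    ext a
    rw [RingHom.mem_ker, AlgHom.comp_apply]
    constructor
    · intro h1
      exact Ideal.Quotient.eq_zero_iff_mem.1 (hi (h1.trans (map_zero ψ).symm))
    · intro h1
      have h2 : Ideal.Quotient.mkₐ k P a = 0 := Ideal.Quotient.eq_zero_iff_mem.2 h1
      rw [h2, map_zero]⟩
  left_inv φ := by
    apply Subtype.ext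
    exact Ideal.Quotient.liftₐ_comp P φ.1 _
  right_inv ψ := by
    apply Ideal.Quotient.algHom_ext
    exact Ideal.Quotient.liftₐ_comp P _ _

theorem w5b_card [Finite k] {K : Type} [Field K] [Finite K] [Algebra k K] (P : Ideal W.CoordinateRing)
    (hP : P ≠ ⊥) (h : P.IsPrime) (hd : dg W P ∣ Module.finrank k K) :
    Finite {φ : W.CoordinateRing →ₐ[k] K // RingHom.ker φ = P} ∧
    Nat.card {φ : W.CoordinateRing →ₐ[k] K // RingHom.ker φ = P} = dg W P := by
  have hm := w5b_max W hP h
  have h1 := w5b_fin W hP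
  letI := Ideal.Quotient.field P
  have h2 : Nat.card (W.CoordinateRing ⧸ P →ₐ[k] K) = Module.finrank k (W.CoordinateRing ⧸ P) :=
    FiniteField.natCard_algHom_of_finrank_dvd hd
  have h3 : Nat.card {φ : W.CoordinateRing →ₐ[k] K // RingHom.ker φ = P} = dg W P := by
    rw [Nat.card_congr (w5b_eq W P hP h), h2]
    rfl
  refine ⟨?_, h3⟩
  apply Nat.finite_of_card_ne_zero
  rw [h3]
  have := fin_quot W hP
  exact (Module.finrank_pos (R := k) (M := W.CoordinateRing ⧸ P)).ne'

/-- Chunk W5B (M). A k-algebra homomorphism φ : R → K has a prime kernel P, nonzero (K finite, R infinite: it contains k[X]), R/P is a field (dedekind: maximal) of degree dg P over k embedding into K, so dg P divides finrank k K (Module.finrank_mul_finrank). For a prime P ≠ ⊥ of degree d dividing n = finrank k K the homomorphisms with kernel P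
are the k-algebra homomorphisms R/P → K (Ideal.Quotient.liftₐ), and there are d of them: for finite fields L, K over k with [L:k] | [K:k] the number of k-algebra homomorphisms L → K is [L:k] (FiniteField.nonempty_algHom_of_finrank_dvd, and L/k Galois: AlgHom.card / IsGalois: fix one ι, the others are ι ∘ g, g in Gal(L/k),
because L/k is normal: AlgHom.restrictNormal / AlgEquiv; IsGalois.card_aut_eq_finrank). Sum over the finite set of primes of degree d (fin_id), over the divisors d of n. -/
theorem hom_card (hΔ : W.Δ ≠ 0) [Finite k] (K : Type) [Field K] [Finite K] [Algebra k K] :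
    Nat.card (W.CoordinateRing →ₐ[k] K) = ∑ d ∈ (Module.finrank k K).divisors, d * pn W d := by
  classical
  have hfin : ∀ d, (prs W d).Finite := fun d =>
    (fin_id W d).subset (fun P hP => ⟨hP.2.1, hP.2.2⟩)
  set T : Finset (Ideal W.CoordinateRing) :=
    (Module.finrank k K).divisors.biUnion (fun d => (hfin d).toFinset) with hT
  have hn : Module.finrank k K ≠ 0 := by
    have : Module.Finite k K := Module.Finite.of_finite
    exact Module.finrank_pos.ne'
  have hTm : ∀ P, P ∈ T ↔ P.IsPrime ∧ P ≠ ⊥ ∧ dg W P ∣ Module.finrank k K := by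
    intro P
    rw [hT, Finset.mem_biUnion]
    constructor
    · rintro ⟨d, hd, hP⟩
      rw [Set.Finite.mem_toFinset] at hP
      refine ⟨hP.1, hP.2.1, ?_⟩
      rw [hP.2.2]
      exact Nat.dvd_of_mem_divisors hd
    · rintro ⟨h1, h2, h3⟩
      exact ⟨dg W P, Nat.mem_divisors.2 ⟨h3, hn⟩, (Set.Finite.mem_toFinset _).2 ⟨h1, h2, rfl⟩⟩
  let F : (W.CoordinateRing →ₐ[k] K) → T := fun φ =>
    ⟨RingHom.ker φ, (hTm _).2 ⟨RingHom.ker_isPrime φ, w5b_bot W φ, w5b_dvd W φ⟩⟩
  have hF : ∀ P : T, Finite {φ // F φ = P} ∧ Nat.card {φ // F φ = P} = dg W P.1 := by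
    intro P
    obtain ⟨h1, h2, h3⟩ := (hTm P.1).1 P.2
    have h4 := w5b_card (K := K) W P.1 h2 h1 h3
    have e : {φ // F φ = P} ≃ {φ : W.CoordinateRing →ₐ[k] K // RingHom.ker φ = P.1} :=
      Equiv.subtypeEquivRight (fun φ => by
        rw [Subtype.ext_iff])
    refine ⟨?_, ?_⟩
    · have := h4.1
      exact Finite.of_equiv _ e.symm
    · rw [Nat.card_congr e, h4.2]
  have hFf : ∀ P : T, Finite {φ // F φ = P} := fun P => (hF P).1
  rw [← Nat.card_congr (Equiv.sigmaFiberEquiv F), Nat.card_sigma]
  calc ∑ P : T, Nat.card {φ // F φ = P} = ∑ P : T, dg W P.1 :=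
        Finset.sum_congr rfl (fun P _ => (hF P).2)
    _ = ∑ P ∈ T, dg W P := Finset.sum_coe_sort T (fun P => dg W P)
    _ = ∑ d ∈ (Module.finrank k K).divisors, ∑ P ∈ (hfin d).toFinset, dg W P := by
        rw [hT, Finset.sum_biUnion]
        intro d _ e _ hde
        rw [Function.onFun, Finset.disjoint_left]
        intro P hP hP2
        rw [Set.Finite.mem_toFinset] at hP hP2
        exact hde (hP.2.2.symm.trans hP2.2.2)
    _ = ∑ d ∈ (Module.finrank k K).divisors, d * pn W d := by
        refine Finset.sum_congr rfl (fun d _ => ?_)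
        rw [Finset.sum_congr rfl (g := fun _ => d) (fun P hP => ?_), Finset.sum_const, smul_eq_mul,
          mul_comm, pn, Set.ncard_eq_toFinset_card _ (hfin d)]
        rw [Set.Finite.mem_toFinset] at hP
        exact hP.2.2

end H55K.WZ
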