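import Mathlib
import Pool.Agent.Lib.H55K.W2B

/-! # H55K, part W: the logarithmic derivative of the zeta function -/

open Polynomial

open scoped Polynomial.Bivariate

namespace H55K.WZ

open WeierstrassCurve (Affine)

variable {k : Type} [Field k] (W : Affine k)

theorem w6a_top : dg W ⊤ = 0 := (dg_zero W (bot_lt_top.ne' : (⊤ : Ideal W.CoordinateRing) ≠ ⊥)).2 rfl

theorem w6a_pow (hΔ : W.Δ ≠ 0) {P : Ideal W.CoordinateRing} (hP : P ≠ ⊥) (j : ℕ) :
    P ^ j ≠ ⊥ ∧ dg W (P ^ j) = j * dg W P := by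
  induction j with
  | zero =>
    rw [pow_zero, Ideal.one_eq_top, zero_mul]
    exact ⟨bot_lt_top.ne', w6a_top W⟩
  | succ j ih =>
    rw [pow_succ]
    refine ⟨?_, ?_⟩
    · intro h
      rcases Ideal.mul_eq_bot.1 h with h1 | h1
      · exact ih.1 h1
      · exact hP h1
    · rw [dg_mul W hΔ ih.1 hP, ih.2]
      ring

open Classical in
theorem w6a_ind (hΔ : W.Δ ≠ 0) {n : ℕ} (T : Finset (Ideal W.CoordinateRing)) (hT : ∀ P ∈ T, P.IsPrime ∧ P ≠ ⊥)
    (hT' : ∀ P : Ideal W.CoordinateRing, P.IsPrime → P ≠ ⊥ → dg W P ≤ n → P ∈ T) (I : Ideal W.CoordinateRing) :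
    I ≠ ⊥ → dg W I ≤ n → dg W I = ∑ P ∈ T, dg W P * ((Finset.Icc 1 n).filter (fun j => P ^ j ∣ I)).card := by
  have hDed := dedekind W hΔ
  induction I using UniqueFactorizationMonoid.induction_on_prime with
  | h₁ => intro h; exact absurd rfl h
  | h₂ I hu =>
    intro _ _
    have hI : I = ⊤ := by
      have h1 := isUnit_iff_eq_one.1 hu
      rwa [Ideal.one_eq_top] at h1
    subst hI
    rw [w6a_top]
    symm
    refine Finset.sum_eq_zero fun P hP => ?_
    have h1 : ((Finset.Icc 1 n).filter (fun j => P ^ j ∣ (⊤ : Ideal W.CoordinateRing))) = ∅ := by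
      rw [Finset.filter_eq_empty_iff]
      intro j hj hd
      rw [Finset.mem_Icc] at hj
      have h2 : P ∣ (⊤ : Ideal W.CoordinateRing) := (dvd_pow_self P (by omega)).trans hd
      have h3 := Ideal.dvd_iff_le.1 h2
      exact (hT P hP).1.ne_top (top_le_iff.1 h3)
    rw [h1, Finset.card_empty, mul_zero]
  | h₃ J Q hJ hQ ih =>
    intro hQJ hn
    have hJ' : J ≠ ⊥ := hJ
    have hQ' : Q ≠ ⊥ := hQ.ne_zero
    have hQp : Q.IsPrime := Ideal.isPrime_of_prime hQ
    have hdg : dg W (Q * J) = dg W Q + dg W J := dg_mul W hΔ hQ' hJ'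
    have hQ1 : 1 ≤ dg W Q := by
      by_contra hlt
      have h0 : dg W Q = 0 := by omega
      exact hQp.ne_top ((dg_zero W hQ').1 h0)
    have ih' := ih hJ' (by omega)
    have hQT : Q ∈ T := hT' Q hQp hQ' (by omega)
    have hne : ∀ P ∈ T.erase Q, ((Finset.Icc 1 n).filter (fun j => P ^ j ∣ Q * J)) =
        ((Finset.Icc 1 n).filter (fun j => P ^ j ∣ J)) := by
      intro P hP
      rw [Finset.mem_erase] at hP
      have hPp : Prime P := Ideal.prime_of_isPrime (hT P hP.2).2 (hT P hP.2).1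
      have hPQ : ¬ P ∣ Q := by
        intro h
        exact hP.1 (associated_iff_eq.1 ((hPp.dvd_prime_iff_associated hQ).1 h))
      refine Finset.filter_congr fun j _ => ?_
      exact ⟨fun h => hPp.pow_dvd_of_dvd_mul_left j hPQ h, fun h => h.mul_left Q⟩
    have hQn : ¬ Q ^ n ∣ J := by
      intro h
      have h1 := (dg_le W hJ' (Ideal.dvd_iff_le.1 h)).1
      rw [(w6a_pow W hΔ hQ' n).2] at h1
      have h2 : n * 1 ≤ n * dg W Q := Nat.mul_le_mul_left n hQ1
      omega
    have heq : ((Finset.Icc 1 n).filter (fun j => Q ^ j ∣ Q * J)).card =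
        1 + ((Finset.Icc 1 n).filter (fun j => Q ^ j ∣ J)).card := by
      have e1 : (Finset.Icc 1 n).filter (fun j => Q ^ j ∣ Q * J) =
          (insert 0 ((Finset.Icc 1 n).filter (fun j => Q ^ j ∣ J))).image Nat.succ := by
        ext j
        simp only [Finset.mem_filter, Finset.mem_image, Finset.mem_insert, Finset.mem_Icc]
        constructor
        · rintro ⟨⟨h1, h2⟩, h3⟩
          obtain ⟨i, rfl⟩ : ∃ i, j = i + 1 := ⟨j - 1, by omega⟩
          rw [pow_succ', mul_dvd_mul_iff_left hQ.ne_zero] at h3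
          refine ⟨i, ?_, rfl⟩
          by_cases h4 : i = 0
          · exact Or.inl h4
          · exact Or.inr ⟨⟨by omega, by omega⟩, h3⟩
        · rintro ⟨i, h1, rfl⟩
          have h3 : Q ^ i ∣ J := by
            rcases h1 with h1 | h1
            · rw [h1, pow_zero]
              exact one_dvd J
            · exact h1.2
          have h4 : i ≠ n := by
            rintro rfl
            exact hQn h3
          have h5 : i ≤ n := by
            rcases h1 with h1 | h1
            · omega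
            · exact h1.1.2
          refine ⟨⟨by omega, by omega⟩, ?_⟩
          rw [Nat.succ_eq_add_one, pow_succ', mul_dvd_mul_iff_left hQ.ne_zero]
          exact h3
      have e2 : (0 : ℕ) ∉ (Finset.Icc 1 n).filter (fun j => Q ^ j ∣ J) := by
        simp
      rw [e1, Finset.card_image_of_injective _ Nat.succ_injective, Finset.card_insert_of_notMem e2, add_comm]
    rw [← Finset.add_sum_erase T _ hQT] at ih' ⊢
    rw [hdg, heq, ih', mul_add, mul_one, add_assoc]
    congr 2
    refine Finset.sum_congr rfl fun P hP => ?_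
    rw [hne P hP]

open Classical in
/-- Chunk W6A (M). Let T be a finite set of primes containing all prime ideals ≠ ⊥ of degree ≤ n. For I ≠ ⊥ with dg I = n: n = sum over P in T of dg P times the number of j in [1, n] with P^j | I. (I is the product of its prime factors, UniqueFactorizationMonoid.normalizedFactors; dg is additive (dg_mul), so dg I is the sum of dg P times the
multiplicity; every prime factor has degree ≤ n (dg_le / additivity) and degree ≥ 1 (dg_zero), multiplicities ≤ n; P^j | I iff j ≤ multiplicity (emultiplicity / count).) -/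
theorem dg_sum (hΔ : W.Δ ≠ 0) {n : ℕ} (T : Finset (Ideal W.CoordinateRing)) (hT : ∀ P ∈ T, P.IsPrime ∧ P ≠ ⊥)
    (hT' : ∀ P : Ideal W.CoordinateRing, P.IsPrime → P ≠ ⊥ → dg W P ≤ n → P ∈ T) {I : Ideal W.CoordinateRing} (hI : I ≠ ⊥)
    (h : dg W I = n) : n = ∑ P ∈ T, dg W P * ((Finset.Icc 1 n).filter (fun j => P ^ j ∣ I)).card := by
  have h1 := w6a_ind W hΔ T hT hT' I hI h.le
  rw [h] at h1
  exact h1

/-- Chunk W6A. The ideals of degree n divisible by P^j are P^j I', dg I' = n - j dg P (dg_mul, cancellation). -/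
theorem card_dvd (hΔ : W.Δ ≠ 0) {P : Ideal W.CoordinateRing} (hP : P ≠ ⊥) (j n : ℕ) :
    Nat.card {I : Ideal W.CoordinateRing // I ≠ ⊥ ∧ dg W I = n ∧ P ^ j ∣ I} =
      if j * dg W P ≤ n then idn W (n - j * dg W P) else 0 := by
  have hDed := dedekind W hΔ
  obtain ⟨hPj, hdP⟩ := w6a_pow W hΔ hP j
  split_ifs with hjn
  · unfold idn
    symm
    refine Nat.card_congr (Equiv.ofBijective (fun I' => ⟨P ^ j * I'.1, ?_, ?_, Dvd.intro _ rfl⟩) ⟨?_, ?_⟩)
    · intro h
      rcases Ideal.mul_eq_bot.1 h with h1 | h1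
      · exact hPj h1
      · exact I'.2.1 h1
    · rw [dg_mul W hΔ hPj I'.2.1, hdP, I'.2.2]
      omega
    · intro A B hAB
      have h1 : P ^ j * A.1 = P ^ j * B.1 := congrArg Subtype.val hAB
      exact Subtype.ext (mul_left_cancel₀ hPj h1)
    · rintro ⟨I, hI, hdI, J, rfl⟩
      have hJ : J ≠ ⊥ := by
        rintro rfl
        exact hI (Ideal.mul_bot _)
      have h1 := dg_mul W hΔ hPj hJ
      rw [hdP, hdI] at h1
      exact ⟨⟨J, hJ, by omega⟩, rfl⟩
  · have hE : IsEmpty {I : Ideal W.CoordinateRing // I ≠ ⊥ ∧ dg W I = n ∧ P ^ j ∣ I} := by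
      refine ⟨?_⟩
      rintro ⟨I, hI, hdI, J, rfl⟩
      have hJ : J ≠ ⊥ := by
        rintro rfl
        exact hI (Ideal.mul_bot _)
      have h1 := dg_mul W hΔ hPj hJ
      rw [hdP, hdI] at h1
      omega
    exact Nat.card_of_isEmpty

end H55K.WZ
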