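import Mathlib
import Pool.Agent.Lib.H55K.W4D
import Pool.Agent.Lib.H55K.W6A

/-! # H55K, part W: the logarithmic derivative of the zeta function -/

open Polynomial

open scoped Polynomial.Bivariate

namespace H55K.WZ

open WeierstrassCurve (Affine)

variable {k : Type} [Field k] (W : Affine k)

theorem w6b_div (d n : ℕ) (hd : 1 ≤ d) (f : ℕ → ℕ) :
    ∑ j ∈ Finset.Icc 1 n, (if j * d ≤ n then f (n - j * d) else 0) =
      ∑ m ∈ Finset.Icc 1 n, (if d ∣ m then f (n - m) else 0) := by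
  rw [← Finset.sum_filter, ← Finset.sum_filter]
  refine Finset.sum_nbij' (fun j => j * d) (fun m => m / d) ?_ ?_ ?_ ?_ ?_
  · intro j hj
    simp only [Finset.mem_filter, Finset.mem_Icc] at hj ⊢
    exact ⟨⟨Nat.mul_pos hj.1.1 hd, hj.2⟩, Dvd.intro_left j rfl⟩
  · intro m hm
    simp only [Finset.mem_filter, Finset.mem_Icc] at hm ⊢
    obtain ⟨⟨h1, h2⟩, h3⟩ := hm
    have h4 : m / d * d = m := Nat.div_mul_cancel h3
    refine ⟨⟨Nat.div_pos (Nat.le_of_dvd h1 h3) hd, le_trans (Nat.div_le_self m d) h2⟩, ?_⟩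
    rw [h4]
    exact h2
  · intro j _
    exact Nat.mul_div_cancel j hd
  · intro m hm
    simp only [Finset.mem_filter, Finset.mem_Icc] at hm
    exact Nat.div_mul_cancel hm.2
  · intro j _
    rfl

open Classical in
theorem w6b_prs {n d : ℕ} (hd : d ≤ n) (T : Finset (Ideal W.CoordinateRing))
    (hT : ∀ P, P ∈ T ↔ P.IsPrime ∧ P ≠ ⊥ ∧ dg W P ≤ n) :
    pn W d = (T.filter (fun P => dg W P = d)).card := by
  unfold pn
  have h : prs W d = ↑(T.filter (fun P => dg W P = d)) := by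
    ext P
    simp only [prs, Set.mem_setOf_eq, Finset.coe_filter, hT]
    constructor
    · rintro ⟨h1, h2, h3⟩
      exact ⟨⟨h1, h2, by omega⟩, h3⟩
    · rintro ⟨⟨h1, h2, _⟩, h3⟩
      exact ⟨h1, h2, h3⟩
  rw [h, Set.ncard_coe_finset]

/-- Chunk W6B (M). Sum dg_sum over the ideals I of degree n (finite set, fin_id; T = the primes of degree ≤ n, finite by fin_id): n idn n = sum over P in T, j in [1, n] of dg P #{I of degree n, P^j | I} = sum over P, j with j dg P ≤ n of dg P idn (n - j dg P) (card_dvd); collect the terms with j dg P = m: the primes P with dg P | m (dg P ≥ 1, dg_zero; j ≤ n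
automatic), number pn d for each divisor d of m. (Finset.sum_comm, Finset.sum_fiberwise.) -/
theorem recur (hΔ : W.Δ ≠ 0) [Finite k] (n : ℕ) :
    n * idn W n = ∑ m ∈ Finset.Icc 1 n, (∑ d ∈ m.divisors, d * pn W d) * idn W (n - m) := by
  classical
  have hfT : {P : Ideal W.CoordinateRing | P.IsPrime ∧ P ≠ ⊥ ∧ dg W P ≤ n}.Finite := by
    have h1 : (⋃ d ∈ Finset.range (n + 1), {I : Ideal W.CoordinateRing | I ≠ ⊥ ∧ dg W I = d}).Finite :=
      (Finset.range (n + 1)).finite_toSet.biUnion fun d _ => fin_id W d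
    refine h1.subset ?_
    rintro P ⟨_, h2, h3⟩
    simp only [Set.mem_iUnion, Finset.mem_range]
    exact ⟨dg W P, by omega, h2, rfl⟩
  obtain ⟨T, hT⟩ : ∃ T : Finset (Ideal W.CoordinateRing), ∀ P, P ∈ T ↔ P.IsPrime ∧ P ≠ ⊥ ∧ dg W P ≤ n :=
    ⟨hfT.toFinset, fun P => by rw [Set.Finite.mem_toFinset]; rfl⟩
  obtain ⟨S, hS⟩ : ∃ S : Finset (Ideal W.CoordinateRing), ∀ I, I ∈ S ↔ I ≠ ⊥ ∧ dg W I = n :=
    ⟨(fin_id W n).toFinset, fun P => by rw [Set.Finite.mem_toFinset]; rfl⟩
  have hcS : ∀ (p : Ideal W.CoordinateRing → Prop),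
      Nat.card {I : Ideal W.CoordinateRing // I ≠ ⊥ ∧ dg W I = n ∧ p I} = (S.filter p).card := by
    intro p
    refine Nat.subtype_card _ fun I => ?_
    rw [Finset.mem_filter, hS, and_assoc]
  have hidn : idn W n = S.card := by
    refine Nat.subtype_card _ fun I => hS I
  have hdg : ∀ P ∈ T, 1 ≤ dg W P := by
    intro P hP
    rw [hT] at hP
    by_contra hlt
    have h0 : dg W P = 0 := by omega
    exact hP.1.ne_top ((dg_zero W hP.2.1).1 h0)
  have hI : ∀ I ∈ S, n = ∑ P ∈ T, dg W P * ((Finset.Icc 1 n).filter (fun j => P ^ j ∣ I)).card := by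
    intro I hI
    rw [hS] at hI
    exact dg_sum W hΔ T (fun P hP => ⟨((hT P).1 hP).1, ((hT P).1 hP).2.1⟩)
      (fun P h1 h2 h3 => (hT P).2 ⟨h1, h2, h3⟩) hI.1 hI.2
  have hL : n * idn W n = ∑ P ∈ T, dg W P * ∑ j ∈ Finset.Icc 1 n,
      (if j * dg W P ≤ n then idn W (n - j * dg W P) else 0) := by
    have e1 : n * idn W n = ∑ I ∈ S, n := by
      rw [hidn, Finset.sum_const, smul_eq_mul, mul_comm]
    have e2 : ∑ I ∈ S, n = ∑ I ∈ S, ∑ P ∈ T, dg W P * ((Finset.Icc 1 n).filter (fun j => P ^ j ∣ I)).card :=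
      Finset.sum_congr rfl hI
    rw [e1, e2, Finset.sum_comm]
    refine Finset.sum_congr rfl fun P hP => ?_
    rw [← Finset.mul_sum]
    congr 1
    have e3 : ∀ I, ((Finset.Icc 1 n).filter (fun j => P ^ j ∣ I)).card =
        ∑ j ∈ Finset.Icc 1 n, if P ^ j ∣ I then 1 else 0 := fun I => Finset.card_filter _ _
    simp only [e3]
    rw [Finset.sum_comm]
    refine Finset.sum_congr rfl fun j _ => ?_
    rw [← Finset.card_filter, ← hcS (fun I => P ^ j ∣ I)]
    exact card_dvd W hΔ ((hT P).1 hP).2.1 j n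
  have hR : ∀ m ∈ Finset.Icc 1 n, (∑ d ∈ m.divisors, d * pn W d) =
      ∑ P ∈ T, if dg W P ∣ m then dg W P else 0 := by
    intro m hm
    rw [Finset.mem_Icc] at hm
    rw [← Finset.sum_filter]
    have hmap : ∀ P ∈ T.filter (fun P => dg W P ∣ m), dg W P ∈ m.divisors := by
      intro P hP
      rw [Finset.mem_filter] at hP
      rw [Nat.mem_divisors]
      exact ⟨hP.2, by omega⟩
    rw [← Finset.sum_fiberwise_of_maps_to hmap]
    refine Finset.sum_congr rfl fun d hd => ?_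
    rw [Nat.mem_divisors] at hd
    have hdn : d ≤ n := le_trans (Nat.le_of_dvd hm.1 hd.1) hm.2
    rw [w6b_prs W hdn T hT]
    have hf : (T.filter (fun P => dg W P ∣ m)).filter (fun P => dg W P = d) =
        T.filter (fun P => dg W P = d) := by
      ext P
      simp only [Finset.mem_filter]
      constructor
      · rintro ⟨⟨h1, _⟩, h3⟩
        exact ⟨h1, h3⟩
      · rintro ⟨h1, h3⟩
        exact ⟨⟨h1, h3 ▸ hd.1⟩, h3⟩
    rw [hf, Finset.sum_congr rfl (g := fun _ => d) (fun P hP => (Finset.mem_filter.1 hP).2),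
      Finset.sum_const, smul_eq_mul, mul_comm]
  rw [hL, Finset.sum_congr rfl (g := fun m => ∑ P ∈ T, dg W P * (if dg W P ∣ m then idn W (n - m) else 0))]
  · rw [Finset.sum_comm]
    refine Finset.sum_congr rfl fun P hP => ?_
    rw [w6b_div (dg W P) n (hdg P hP) (idn W), Finset.mul_sum]
  · intro m hm
    rw [hR m hm, Finset.sum_mul]
    refine Finset.sum_congr rfl fun P _ => ?_
    split_ifs
    · rfl
    · simp

end H55K.WZ
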