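import Mathlib

/-! # H55K, part W: the zeta function of an elliptic curve, algebra -/

namespace H55K.WZ

theorem w7_rec (x : ℂ) (i : ℕ → ℂ) (n : ℕ) :
    ∑ m ∈ Finset.Icc 1 (n + 1), x ^ m * i (n + 1 - m) =
      x * (i n + ∑ m ∈ Finset.Icc 1 n, x ^ m * i (n - m)) := by
  have h1 : Finset.Icc 1 (n + 1) = insert 1 (Finset.Icc 2 (n + 1)) := by
    ext m
    simp only [Finset.mem_Icc, Finset.mem_insert]
    omega
  have h2 : (1 : ℕ) ∉ Finset.Icc 2 (n + 1) := by simp
  have h3 : ∑ m ∈ Finset.Icc 2 (n + 1), x ^ m * i (n + 1 - m) =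
      ∑ m ∈ Finset.Icc 1 n, x ^ (m + 1) * i (n - m) := by
    refine Finset.sum_nbij' (fun m => m - 1) (fun m => m + 1) ?_ ?_ ?_ ?_ ?_
    · intro m hm
      simp only [Finset.mem_Icc] at hm ⊢
      omega
    · intro m hm
      simp only [Finset.mem_Icc] at hm ⊢
      omega
    · intro m hm
      simp only [Finset.mem_Icc] at hm
      show m - 1 + 1 = m
      omega
    · intro m _
      show m + 1 - 1 = m
      omega
    · intro m hm
      simp only [Finset.mem_Icc] at hm
      have e1 : m - 1 + 1 = m := by omega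
      have e2 : n + 1 - m = n - (m - 1) := by omega
      rw [e1, e2]
  rw [h1, Finset.sum_insert h2, h3, mul_add, Finset.mul_sum]
  have e3 : n + 1 - 1 = n := by omega
  rw [e3, pow_one]
  congr 1
  refine Finset.sum_congr rfl fun m _ => ?_
  ring

/-- Chunk W7 (M), pure algebra. Power series over ℂ: Z = sum i n T^n satisfies (1 - q T) Z = (1 - α T)(1 - β T) (coefficients: 0: i 0 = 1; 1: i 1 - q = -(α + β); 2: (q + 1 - a) q - q (q - a) = q = α β; n ≥ 3: 0). C' = sum over m ≥ 1 of c' m T^m with c' m = q^m - α^m - β^m is q T/(1 - q T) - α T/(1 - α T) - β T/(1 - β T). T dZ/dT = C' Z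
(multiply by (1 - q T)^2 or use the product rule), so n i n = sum over m in [1, n] of c' m i (n - m). The recursion determines c (i 0 = 1): strong induction on m: c m = m i m - sum over m' < m of c m' i (m - m'). Alternative without power series: prove n i n = sum of c' m i (n - m) directly from the geometric sums. -/
theorem alg (q α β : ℂ) (i c : ℕ → ℂ) (h0 : i 0 = 1) (h1 : i 1 = q - (α + β))
    (h2 : ∀ n : ℕ, 2 ≤ n → i n = (q + 1 - (α + β)) * q ^ (n - 1)) (hαβ : α * β = q)
    (hrec : ∀ n : ℕ, 1 ≤ n → (n : ℂ) * i n = ∑ m ∈ Finset.Icc 1 n, c m * i (n - m)) :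
    ∀ m : ℕ, 1 ≤ m → c m = q ^ m - α ^ m - β ^ m := by
  have a1 : ∀ x : ℂ, ∑ m ∈ Finset.Icc 1 1, x ^ m * i (1 - m) = x := by
    intro x
    simp [h0]
  have i2 : ∀ n : ℕ, i (n + 2) = (q + 1 - (α + β)) * q ^ (n + 1) := fun n => h2 (n + 2) (by omega)
  have aα : ∀ x y : ℂ, x * y = q → x + y = α + β → ∀ n : ℕ,
      ∑ m ∈ Finset.Icc 1 (n + 2), x ^ m * i (n + 2 - m) = q ^ (n + 1) * (x - 1) := by
    intro x y hxy hs n
    induction n with
    | zero =>
      have := w7_rec x i 1
      rw [a1, h1, ← hs] at this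
      have e : (0 + 2 : ℕ) = 1 + 1 := rfl
      rw [e, this, ← hxy]
      ring
    | succ n ih =>
      have := w7_rec x i (n + 2)
      rw [ih, i2, ← hs] at this
      have e : (n + 1 + 2 : ℕ) = n + 2 + 1 := rfl
      rw [e, this]
      have e2 : q ^ (n + 1 + 1) = q ^ (n + 1) * (x * y) := by rw [pow_succ, hxy]
      rw [e2, ← hxy]
      ring
  have aq : ∀ n : ℕ, ∑ m ∈ Finset.Icc 1 (n + 2), q ^ m * i (n + 2 - m) =
      q ^ (n + 1) * (((n : ℂ) + 2) * (q + 1 - (α + β)) + (α + β) - 2) := by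
    intro n
    induction n with
    | zero =>
      have := w7_rec q i 1
      rw [a1, h1] at this
      have e : (0 + 2 : ℕ) = 1 + 1 := rfl
      rw [e, this]
      push_cast
      ring
    | succ n ih =>
      have := w7_rec q i (n + 2)
      rw [ih, i2] at this
      have e : (n + 1 + 2 : ℕ) = n + 2 + 1 := rfl
      rw [e, this]
      push_cast
      ring
  have key : ∀ n : ℕ, 1 ≤ n → (n : ℂ) * i n =
      ∑ m ∈ Finset.Icc 1 n, (q ^ m - α ^ m - β ^ m) * i (n - m) := by
    intro n hn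
    have hsplit : ∑ m ∈ Finset.Icc 1 n, (q ^ m - α ^ m - β ^ m) * i (n - m) =
        ∑ m ∈ Finset.Icc 1 n, q ^ m * i (n - m) - ∑ m ∈ Finset.Icc 1 n, α ^ m * i (n - m) -
          ∑ m ∈ Finset.Icc 1 n, β ^ m * i (n - m) := by
      rw [← Finset.sum_sub_distrib, ← Finset.sum_sub_distrib]
      refine Finset.sum_congr rfl fun m _ => ?_
      ring
    rw [hsplit]
    rcases Nat.lt_or_ge n 2 with h | h
    · have hn1 : n = 1 := by omega
      subst hn1
      rw [a1, a1, a1, h1]
      push_cast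
      ring
    · obtain ⟨k, rfl⟩ : ∃ k, n = k + 2 := ⟨n - 2, by omega⟩
      rw [aq, aα α β hαβ rfl, aα β α (by rw [mul_comm]; exact hαβ) (add_comm _ _), i2]
      push_cast
      ring
  intro m
  induction m using Nat.strong_induction_on with
  | _ m ih =>
    intro hm
    have e1 := hrec m hm
    rw [key m hm] at e1
    have hI : Finset.Icc 1 m = insert m (Finset.Ico 1 m) := by
      ext t
      simp only [Finset.mem_Icc, Finset.mem_insert, Finset.mem_Ico]
      omega
    have hnm : m ∉ Finset.Ico 1 m := by simp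
    rw [hI, Finset.sum_insert hnm, Finset.sum_insert hnm, Nat.sub_self, h0, mul_one, mul_one] at e1
    have e2 : ∑ t ∈ Finset.Ico 1 m, c t * i (m - t) =
        ∑ t ∈ Finset.Ico 1 m, (q ^ t - α ^ t - β ^ t) * i (m - t) := by
      refine Finset.sum_congr rfl fun t ht => ?_
      rw [Finset.mem_Ico] at ht
      rw [ih t ht.2 ht.1]
    rw [e2] at e1
    exact (add_right_cancel e1).symm

end H55K.WZ
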