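import Mathlib
import Pool.Agent.Lib.H55K.W4C
import Pool.Agent.Lib.H55K.W5A
import Pool.Agent.Lib.H55K.W5B
import Pool.Agent.Lib.H55K.W6B
import Pool.Agent.Lib.H55K.W7

/-! # H55K, part W: the number of points of an elliptic curve over the extensions of a finite field -/

namespace H55K

open WZ

/-- THE NUMBER OF POINTS OVER AN EXTENSION (Artin, Hasse, F. K. Schmidt). W is an elliptic curve over a finite field k, α and β are the complex numbers with
α + β = #k + 1 - #W(k) and α β = #k. Then #W(K) = #K + 1 - α^n - β^n for every extension K of degree n. -/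
theorem weil {k K : Type} [Field k] [Finite k] [Field K] [Finite K] [Algebra k K] (W : WeierstrassCurve k) (hΔ : W.Δ ≠ 0)
    (α β : ℂ) (h1 : α + β = (Nat.card k : ℂ) + 1 - (Nat.card W.toAffine.Point : ℂ)) (h2 : α * β = (Nat.card k : ℂ)) :
    (Nat.card (WeierstrassCurve.baseChange W K).toAffine.Point : ℂ) =
      (Nat.card K : ℂ) + 1 - α ^ Module.finrank k K - β ^ Module.finrank k K := by
  have hfin : Module.Finite k K := Module.Finite.of_finite
  have hn : 1 ≤ Module.finrank k K := Module.finrank_pos
  have hK : Nat.card K = Nat.card k ^ Module.finrank k K := Module.natCard_eq_pow_finrank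
  have key := alg (Nat.card k : ℂ) α β (fun n => (idn W.toAffine n : ℂ))
    (fun m => ((∑ d ∈ m.divisors, d * pn W.toAffine d : ℕ) : ℂ)) (by
      show (idn W.toAffine 0 : ℂ) = 1
      rw [idn_zero, Nat.cast_one]) (by
      have h3 := idn_one W.toAffine hΔ
      show (idn W.toAffine 1 : ℂ) = _
      have h4 : (Nat.card W.toAffine.Point : ℂ) = (idn W.toAffine 1 : ℂ) + 1 := by
        rw [← h3]
        push_cast
        ring
      rw [h1, h4]
      ring) (by
      intro n hn'
      show (idn W.toAffine n : ℂ) = _
      rw [idn_two W.toAffine hΔ n hn', h1]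
      push_cast
      ring) h2 (by
      intro n _
      show (n : ℂ) * (idn W.toAffine n : ℂ) = _
      rw [← Nat.cast_mul, recur W.toAffine hΔ n]
      push_cast
      rfl) (Module.finrank k K) hn
  have h5 := card_pt W.toAffine hΔ K
  rw [hom_card W.toAffine hΔ K] at h5
  have h6 : (Nat.card (WeierstrassCurve.baseChange W K).toAffine.Point : ℂ) =
      1 + ((∑ d ∈ (Module.finrank k K).divisors, d * pn W.toAffine d : ℕ) : ℂ) := by
    have h7 := congrArg (fun z : ℕ => (z : ℂ)) h5
    rw [Nat.cast_add, Nat.cast_one] at h7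
    exact h7
  have h8 : ((∑ d ∈ (Module.finrank k K).divisors, d * pn W.toAffine d : ℕ) : ℂ) =
      (Nat.card k : ℂ) ^ Module.finrank k K - α ^ Module.finrank k K - β ^ Module.finrank k K := key
  rw [h6, h8, hK]
  push_cast
  ring

end H55K
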