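import Mathlib
import Pool.Agent.Lib.H55K.WM

/-! # H55K, part D: the number of points over the residue fields -/

open NumberField IsDedekindDomain WeierstrassCurve

namespace H55K.DD

/-- Chunk D5 (M). k = 𝓞 F ⧸ v.asIdeal is a finite field (Ideal.Quotient.field, finiteQuotientOfFreeOfNeBot), card absNorm v; κ = φ ∘ algebraMap : 𝓞 F → k' has kernel v.asIdeal (hv, hker), so it factors through k (Ideal.Quotient.lift): k' is a k-algebra (RingHom.toAlgebra), card k' = absNorm w = (absNorm v)^f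
(φ surjective with kernel w; H55B.absNorm_inertia in Lib/H55B/F4.lean is the model: Ideal.absNorm_eq_pow_inertiaDeg'_of_liesOver, Ideal.inertiaDeg_eq_of_isMaximal), so finrank k k' = f (Module.natCard_eq_pow_finrank, Nat.pow_right_injective). H55K.weil for W = W₀⁄k (discriminant the image of W₀.Δ, nonzero by hΔ; map_Δ),
(W₀⁄k)⁄k' = W₀.map κ (map_map). -/
theorem pts_res {F K : Type} [Field F] [NumberField F] [Field K] [NumberField K] [Algebra F K]
    (W₀ : WeierstrassCurve (𝓞 F)) (w : HeightOneSpectrum (𝓞 K)) (v : HeightOneSpectrum (𝓞 F))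
    (hv : v.asIdeal = w.asIdeal.under (𝓞 F)) (hΔ : W₀.Δ ∉ v.asIdeal) (α β : ℂ)
    (h1 : α + β = (Ideal.absNorm v.asIdeal : ℂ) + 1 - (Nat.card (W₀⁄(𝓞 F ⧸ v.asIdeal)).toAffine.Point : ℂ))
    (h2 : α * β = (Ideal.absNorm v.asIdeal : ℂ)) (k' : Type) [Field k'] (φ : 𝓞 K →+* k')
    (hφ : Function.Surjective φ) (hker : RingHom.ker φ = w.asIdeal) :
    (Nat.card (W₀.map (φ.comp (algebraMap (𝓞 F) (𝓞 K)))).toAffine.Point : ℂ) =
      (Ideal.absNorm w.asIdeal : ℂ) + 1 - α ^ (w.asIdeal.inertiaDeg (𝓞 F)) - β ^ (w.asIdeal.inertiaDeg (𝓞 F)) := by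
  have hlies : w.asIdeal.LiesOver v.asIdeal := ⟨hv⟩
  have hmax : v.asIdeal.IsMaximal := v.isMaximal
  letI : Field (𝓞 F ⧸ v.asIdeal) := Ideal.Quotient.field v.asIdeal
  haveI : Finite (𝓞 F ⧸ v.asIdeal) := v.asIdeal.finiteQuotientOfFreeOfNeBot v.ne_bot
  have e1 : (𝓞 K ⧸ RingHom.ker φ) ≃+* k' := RingHom.quotientKerEquivOfSurjective hφ
  have e2 : (𝓞 K ⧸ w.asIdeal) ≃+* (𝓞 K ⧸ RingHom.ker φ) := Ideal.quotEquivOfEq hker.symm
  have hf : Finite (𝓞 K ⧸ w.asIdeal) := w.asIdeal.finiteQuotientOfFreeOfNeBot w.ne_bot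
  haveI : Finite k' := Finite.of_equiv _ (e2.trans e1).toEquiv
  have hcard' : Nat.card k' = Ideal.absNorm w.asIdeal := by
    rw [← Nat.card_congr (e2.trans e1).toEquiv, Ideal.absNorm_apply, Submodule.cardQuot_apply]
  have hcard : Nat.card (𝓞 F ⧸ v.asIdeal) = Ideal.absNorm v.asIdeal := by
    rw [Ideal.absNorm_apply, Submodule.cardQuot_apply]
  have hnorm : Ideal.absNorm w.asIdeal = Ideal.absNorm v.asIdeal ^ (w.asIdeal.inertiaDeg (𝓞 F)) := by
    rw [Ideal.inertiaDeg_eq_of_isMaximal v.asIdeal w.asIdeal]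
    have h := Ideal.absNorm_eq_pow_inertiaDeg'_of_liesOver w.asIdeal v.asIdeal v.isPrime v.ne_bot
    rw [Ideal.inertiaDeg'_algebraMap] at h
    exact h
  have hκ : ∀ a ∈ v.asIdeal, (φ.comp (algebraMap (𝓞 F) (𝓞 K))) a = 0 := by
    intro a ha
    rw [hv, Ideal.mem_comap, ← hker, RingHom.mem_ker] at ha
    exact ha
  let ι : (𝓞 F ⧸ v.asIdeal) →+* k' := Ideal.Quotient.lift v.asIdeal (φ.comp (algebraMap (𝓞 F) (𝓞 K))) hκ
  letI : Algebra (𝓞 F ⧸ v.asIdeal) k' := ι.toAlgebra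
  haveI : Module.Finite (𝓞 F ⧸ v.asIdeal) k' := Module.Finite.of_finite
  have hfin : Module.finrank (𝓞 F ⧸ v.asIdeal) k' = w.asIdeal.inertiaDeg (𝓞 F) := by
    have h3 : Nat.card k' = Nat.card (𝓞 F ⧸ v.asIdeal) ^ Module.finrank (𝓞 F ⧸ v.asIdeal) k' :=
      Module.natCard_eq_pow_finrank
    rw [hcard', hcard, hnorm] at h3
    have h4 : 2 ≤ Ideal.absNorm v.asIdeal := by
      rw [← hcard]
      exact Finite.one_lt_card
    exact (Nat.pow_right_injective h4 h3).symm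
  have hmap : W₀.map (φ.comp (algebraMap (𝓞 F) (𝓞 K))) =
      WeierstrassCurve.baseChange (W₀.map (Ideal.Quotient.mk v.asIdeal)) k' := by
    rw [WeierstrassCurve.baseChange, WeierstrassCurve.map_map]
    congr 1
  have hD : (W₀.map (Ideal.Quotient.mk v.asIdeal)).Δ ≠ 0 := by
    rw [WeierstrassCurve.map_Δ, Ne, Ideal.Quotient.eq_zero_iff_mem]
    exact hΔ
  have key := H55K.weil (k := 𝓞 F ⧸ v.asIdeal) (K := k') (W₀.map (Ideal.Quotient.mk v.asIdeal)) hD α β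
    (by rw [hcard]; exact h1) (by rw [hcard]; exact h2)
  rw [hmap, key, hfin, hcard']

end H55K.DD
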