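import Mathlib
import Pool.Agent.Lib.H55B.I2
import Pool.Agent.Lib.H55K.D2C
import Pool.Agent.Lib.H55K.D3
import Pool.Agent.Lib.H55K.D4
import Pool.Agent.Lib.H55K.D5

/-! # H55K, part D: the local Euler factors -/

open NumberField IsDedekindDomain WeierstrassCurve

namespace H55K.DD

theorem d6_one_lt {K : Type} [Field K] [NumberField K] (w : HeightOneSpectrum (𝓞 K)) :
    1 < Ideal.absNorm w.asIdeal := by
  have h1 : Ideal.absNorm w.asIdeal ≠ 1 := by
    rw [Ne, Ideal.absNorm_eq_one_iff]; exact w.isPrime.ne_top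
  have h0 : Ideal.absNorm w.asIdeal ≠ 0 := by
    rw [Ne, Ideal.absNorm_eq_zero_iff]; exact w.ne_bot
  omega

/-- The ring homomorphism from the integers of F to the integers of the completion. -/
noncomputable def d6_hom (F K : Type) [Field F] [NumberField F] [Field K] [NumberField K] [Algebra F K]
    (w : HeightOneSpectrum (𝓞 K)) : 𝓞 F →+* w.adicCompletionIntegers K :=
  (algebraMap (𝓞 K) (w.adicCompletionIntegers K)).comp (algebraMap (𝓞 F) (𝓞 K))

theorem d6_curve {F K : Type} [Field F] [NumberField F] [Field K] [NumberField K] [Algebra F K]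
    (W₀ : WeierstrassCurve (𝓞 F)) (w : HeightOneSpectrum (𝓞 K)) :
    ((W₀⁄F)⁄K)⁄(w.adicCompletion K) = (W₀.map (d6_hom F K w))⁄(w.adicCompletion K) := by
  show ((W₀.map (algebraMap (𝓞 F) F)).map (algebraMap F K)).map (algebraMap K (w.adicCompletion K)) =
    (W₀.map (d6_hom F K w)).map (algebraMap (w.adicCompletionIntegers K) (w.adicCompletion K))
  rw [WeierstrassCurve.map_map, WeierstrassCurve.map_map, WeierstrassCurve.map_map]
  congr 1

theorem d6_unit {F K : Type} [Field F] [NumberField F] [Field K] [NumberField K] [Algebra F K]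
    (W₀ : WeierstrassCurve (𝓞 F)) (w : HeightOneSpectrum (𝓞 K)) (v : HeightOneSpectrum (𝓞 F))
    (hv : v.asIdeal = w.asIdeal.under (𝓞 F)) (hΔ : W₀.Δ ∉ v.asIdeal) :
    IsUnit (W₀.map (d6_hom F K w)).Δ := by
  rw [WeierstrassCurve.map_Δ]
  by_contra hcon
  apply hΔ
  rw [hv, Ideal.under_def, Ideal.mem_comap, ← H55B.residue_ker K w, RingHom.mem_ker,
    RingHom.comp_apply, IsLocalRing.residue_eq_zero_iff, IsLocalRing.mem_maximalIdeal]
  exact hcon

/-- Chunk D6 (M). Good w: R_w = w.adicCompletionIntegers K, W₀' = W₀.map (algebraMap (𝓞 F) → 𝓞 K → R_w), unit discriminant (residue_ker: W₀.Δ not in v = w ∩ 𝓞 F; see H55B.F4_unit); ((W₀⁄F)⁄K)⁄K_w = W₀'⁄K_w (map_map and compatibility of the algebra maps). good_loc; the residue field k' = ResidueField R_w, φ = residue ∘ algebraMap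
(H55B.residue_ker, residue_surj, residue_card); pts_res: the number of points N is q + 1 - α^f - β^f, q = absNorm w = (α β)^f (absNorm v ^ f). So the local polynomial with complex coefficients is (1 - α^f X)(1 - β^f X) (see H55B.loc_good), and the Euler factor is the product of two (H55B.I2_local_good, I2_cast_ofPS, I2_map_invOfUnit; PowerSeries.mul_inv_rev;
H55N or H55C.b8_LEF: the form with absNorm w). -/
theorem lf_good {F K : Type} [Field F] [NumberField F] [Field K] [NumberField K] [Algebra F K]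
    (W₀ : WeierstrassCurve (𝓞 F)) (w : HeightOneSpectrum (𝓞 K)) (v : HeightOneSpectrum (𝓞 F))
    (hv : v.asIdeal = w.asIdeal.under (𝓞 F)) (hΔ : W₀.Δ ∉ v.asIdeal) (α β : ℂ)
    (h1 : α + β = (Ideal.absNorm v.asIdeal : ℂ) + 1 - (Nat.card (W₀⁄(𝓞 F ⧸ v.asIdeal)).toAffine.Point : ℂ))
    (h2 : α * β = (Ideal.absNorm v.asIdeal : ℂ)) :
    LF' ((W₀⁄F)⁄K) w = ef (Ideal.absNorm w.asIdeal) (α ^ (w.asIdeal.inertiaDeg (𝓞 F))) *
      ef (Ideal.absNorm w.asIdeal) (β ^ (w.asIdeal.inertiaDeg (𝓞 F))) := by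
  have hq := d6_one_lt w
  set f := w.asIdeal.inertiaDeg (𝓞 F) with hf
  obtain ⟨hfin, hcard⟩ := H55B.residue_card K w
  have hker := H55B.residue_ker K w
  set φ := (IsLocalRing.residue (w.adicCompletionIntegers K)).comp
    (algebraMap (𝓞 K) (w.adicCompletionIntegers K)) with hφ
  have hpts := pts_res W₀ w v hv hΔ α β h1 h2 (IsLocalRing.ResidueField (w.adicCompletionIntegers K)) φ
    (H55B.residue_surj K w) hker
  have hnorm : (Ideal.absNorm w.asIdeal : ℂ) = α ^ f * β ^ f := by
    have hlies : w.asIdeal.LiesOver v.asIdeal := ⟨hv⟩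
    have hmax : v.asIdeal.IsMaximal := v.isMaximal
    have h := Ideal.absNorm_eq_pow_inertiaDeg'_of_liesOver w.asIdeal v.asIdeal v.isPrime v.ne_bot
    rw [Ideal.inertiaDeg'_algebraMap] at h
    rw [hf, Ideal.inertiaDeg_eq_of_isMaximal v.asIdeal w.asIdeal, h, ← mul_pow, h2]
    push_cast
    rfl
  have hcomp : W₀.map (φ.comp (algebraMap (𝓞 F) (𝓞 K))) =
      (W₀.map (d6_hom F K w)).map (IsLocalRing.residue (w.adicCompletionIntegers K)) := by
    rw [WeierstrassCurve.map_map]
    rfl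
  rw [hcomp] at hpts
  have hP : ((((W₀⁄F)⁄K)⁄(w.adicCompletion K)).localPolynomial (w.adicCompletionIntegers K)).map
      (Int.castRingHom ℂ) =
      (1 - Polynomial.C (α ^ f) * Polynomial.X) * (1 - Polynomial.C (β ^ f) * Polynomial.X) := by
    rw [d6_curve, good_loc _ _ _ (d6_unit W₀ w v hv hΔ), hcard]
    simp only [Polynomial.map_add, Polynomial.map_sub, Polynomial.map_one, Polynomial.map_mul,
      Polynomial.map_X, Polynomial.map_pow, Polynomial.map_C]
    set N := Nat.card ((W₀.map (d6_hom F K w)).map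
      (IsLocalRing.residue (w.adicCompletionIntegers K))).toAffine.Point with hN
    have e1 : (Int.castRingHom ℂ) ((Ideal.absNorm w.asIdeal : ℤ) + 1 - (N : ℤ)) = α ^ f + β ^ f := by
      simp only [eq_intCast, Int.cast_sub, Int.cast_add, Int.cast_natCast, Int.cast_one]
      rw [hpts]
      ring
    have e2 : (Int.castRingHom ℂ) (Ideal.absNorm w.asIdeal : ℤ) = α ^ f * β ^ f := by
      rw [eq_intCast, Int.cast_natCast, hnorm]
    rw [e1, e2, map_add, map_mul]
    ring
  have hP0 : ((((W₀⁄F)⁄K)⁄(w.adicCompletion K)).localPolynomial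
      (w.adicCompletionIntegers K)).coeff 0 = 1 := by
    have := congrArg (fun P : Polynomial ℂ => P.coeff 0) hP
    simp only [Polynomial.coeff_map, Polynomial.mul_coeff_zero] at this
    simpa using this
  unfold LF' ef
  rw [WeierstrassCurve.localEulerFactor, hcard, H55B.I2_cast_ofPS hq,
    WeierstrassCurve.localPowerSeries, H55B.I2_map_invOfUnit _ hP0, hP, ← map_mul,
    mul_comm ((1 - PowerSeries.C (α ^ f) * PowerSeries.X)⁻¹ : PowerSeries ℂ),
    ← PowerSeries.mul_inv_rev]
  congr 2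
  simp

/-- Chunk D6. Bad w: bad_loc with bad_compl, the element j₀ of R_w is the image of j₀ of 𝓞 F (c₄ and Δ of the base change: map_c₄, map_Δ). Then the Euler factor is 1 (see H55B.I2_local_bad). -/
theorem lf_bad {F K : Type} [Field F] [NumberField F] [Field K] [NumberField K] [Algebra F K]
    (W₀ : WeierstrassCurve (𝓞 F)) (w : HeightOneSpectrum (𝓞 K)) (j₀ : 𝓞 F) (hj : W₀.c₄ ^ 3 = j₀ * W₀.Δ)
    (hb : ¬ GoodAt ((W₀⁄F)⁄K) w) : LF' ((W₀⁄F)⁄K) w = 1 := by
  have hloc : (((W₀⁄F)⁄K)⁄(w.adicCompletion K)).localPolynomial (w.adicCompletionIntegers K) = 1 := by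
    refine bad_loc (w.adicCompletionIntegers K) (w.adicCompletion K)
      (((W₀⁄F)⁄K)⁄(w.adicCompletion K)) (d6_hom F K w j₀) ?_ (fun C hC => bad_compl ((W₀⁄F)⁄K) w hb C hC)
    rw [d6_curve]
    show ((W₀.map (d6_hom F K w)).map
      (algebraMap (w.adicCompletionIntegers K) (w.adicCompletion K))).c₄ ^ 3 =
      algebraMap (w.adicCompletionIntegers K) (w.adicCompletion K) (d6_hom F K w j₀) *
      ((W₀.map (d6_hom F K w)).map
        (algebraMap (w.adicCompletionIntegers K) (w.adicCompletion K))).Δ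
    rw [WeierstrassCurve.map_c₄, WeierstrassCurve.map_Δ, WeierstrassCurve.map_c₄,
      WeierstrassCurve.map_Δ, ← map_pow, ← map_pow, hj, map_mul, map_mul]
  unfold LF'
  rw [WeierstrassCurve.localEulerFactor, WeierstrassCurve.localPowerSeries, hloc]
  have h1 : PowerSeries.invOfUnit ((1 : Polynomial ℤ) : PowerSeries ℤ) 1 = 1 := by
    have h2 := PowerSeries.mul_invOfUnit ((1 : Polynomial ℤ) : PowerSeries ℤ) 1 (by simp)
    rw [Polynomial.coe_one, one_mul] at h2
    rw [Polynomial.coe_one]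
    exact h2
  rw [h1, map_one]
  simp

end H55K.DD
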