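import Mathlib
import Pool.Agent.Lib.H55K.D2
import Pool.Agent.Lib.H55N.H5

set_option autoImplicit false

/-! # H55K, part D: the Euler product -/

open NumberField IsDedekindDomain WeierstrassCurve

namespace H55K.DD

open H55N

theorem lfun {K : Type} [Field K] [NumberField K] (W : WeierstrassCurve K) (h : Ideal (𝓞 K) →*₀ ℂ)
    (hloc : ∀ w : HeightOneSpectrum (𝓞 K), LF' W w = ef (Ideal.absNorm w.asIdeal) (h w.asIdeal) *
      ef (Ideal.absNorm w.asIdeal) ((starRingEnd ℂ) (h w.asIdeal))) (n : ℕ) :
    ((W.LFunction n : ℤ) : ℂ) = (AI h * AI (fun a => (starRingEnd ℂ) (h a))) n := by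
  classical
  set L : HeightOneSpectrum (𝓞 K) → ArithmeticFunction ℤ := fun w =>
    (W.baseChange (w.adicCompletion K)).localEulerFactor
      (w.adicCompletionIntegers K) with hLdef
  have hL : ∀ᶠ T in Filter.atTop, (∏ w ∈ T, L w) n = W.LFunction n := by
    have hN : Northcott (fun w : HeightOneSpectrum (𝓞 K) =>
        Nat.card (IsLocalRing.ResidueField (w.adicCompletionIntegers K))) := by
      have h1 : (fun w : HeightOneSpectrum (𝓞 K) =>
        Nat.card (IsLocalRing.ResidueField (w.adicCompletionIntegers K))) =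
          fun w => Ideal.absNorm w.asIdeal := funext fun w => (H55B.residue_card K w).2
      rw [h1]
      infer_instance
    exact ArithmeticFunction.tendsTo_eulerProduct_ofPowerSeries
      (fun w : HeightOneSpectrum (𝓞 K) =>
        Nat.card (IsLocalRing.ResidueField (w.adicCompletionIntegers K)))
      (fun w => (W.baseChange (w.adicCompletion K)).localPowerSeries
        (w.adicCompletionIntegers K))
      (fun w => by simp [WeierstrassCurve.localPowerSeries]) n
  have hA : ∀ᶠ T : Finset (HeightOneSpectrum (𝓞 K)) in Filter.atTop,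
      ∀ m ∈ Finset.range (n + 1),
      (∏ w ∈ T, ef (Ideal.absNorm w.asIdeal) (h w.asIdeal)) m = AI h m ∧
      (∏ w ∈ T, ef (Ideal.absNorm w.asIdeal) ((starRingEnd ℂ) (h w.asIdeal))) m =
          AI (fun a => (starRingEnd ℂ) (h a)) m := by
    rw [Filter.eventually_all_finset]
    intro m _
    exact (AI_euler h m).and
      (AI_euler ((starRingEnd ℂ).toMonoidWithZeroHom.comp h) m)
  obtain ⟨T, hT1, hT2⟩ := (hL.and hA).exists
  rw [← hT1, ← ArithmeticFunction.intCoe_apply, H55B.I2_cast_prod]
  have h1 : ∀ w ∈ T, ((L w : ArithmeticFunction ℤ) : ArithmeticFunction ℂ) =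
      ef (Ideal.absNorm w.asIdeal) (h w.asIdeal) *
      ef (Ideal.absNorm w.asIdeal) ((starRingEnd ℂ) (h w.asIdeal)) := fun w _ => hloc w
  rw [Finset.prod_congr rfl h1, Finset.prod_mul_distrib]
  refine H55B.I2_mul_congr ?_ ?_ n le_rfl
  · intro m hm
    exact (hT2 m (Finset.mem_range.2 (by omega))).1
  · intro m hm
    exact (hT2 m (Finset.mem_range.2 (by omega))).2

end H55K.DD
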