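import Mathlib
import Pool.Agent.Lib.H55K.D1
import Pool.Agent.Lib.H55P.TD

/-! # H55K, part D: the values of the Hecke character -/

open NumberField IsDedekindDomain WeierstrassCurve

namespace H55K.DD

open H55P (IQ embF eF IsHecke Nm PsiP mK)

variable {F : Type} [Field F] [NumberField F] [IQ F] {K : Type} [Field K] [NumberField K] [Algebra F K]
  {m : Ideal (𝓞 F)} {ψ : Ideal (𝓞 F) →*₀ 𝓞 F}

/-- Chunk D8 (S/M). The prime below w; relNorm w = v^f (Ideal.relNorm_eq_pow_of_isMaximal, see H55N.Psi_prime in Lib/H55N/H1.lean). -/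
theorem below (w : HeightOneSpectrum (𝓞 K)) : ∃ v : HeightOneSpectrum (𝓞 F), v.asIdeal = w.asIdeal.under (𝓞 F) ∧
    Ideal.relNorm (𝓞 F) w.asIdeal = v.asIdeal ^ (w.asIdeal.inertiaDeg (𝓞 F)) ∧ 0 < w.asIdeal.inertiaDeg (𝓞 F) ∧
    (mK K m ≤ w.asIdeal ↔ m ≤ v.asIdeal) := by
  refine ⟨⟨w.asIdeal.under (𝓞 F), inferInstance, mt Ideal.eq_bot_of_comap_eq_bot w.ne_bot⟩, rfl, ?_, ?_, ?_⟩
  · have h0 : w.asIdeal.LiesOver (w.asIdeal.under (𝓞 F)) := ⟨rfl⟩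
    have h1 := w.isMaximal
    have h2 : (w.asIdeal.under (𝓞 F)).IsMaximal := Ideal.IsMaximal.under (𝓞 F) w.asIdeal
    exact Ideal.relNorm_eq_pow_of_isMaximal w.asIdeal (w.asIdeal.under (𝓞 F))
  · have h1 := w.isMaximal
    exact Ideal.inertiaDeg_pos w.asIdeal (𝓞 F)
  · show m.map (algebraMap (𝓞 F) (𝓞 K)) ≤ w.asIdeal ↔ m ≤ w.asIdeal.under (𝓞 F)
    rw [Ideal.under_def, Ideal.map_le_iff_le_comap]

theorem d8_cop {v : HeightOneSpectrum (𝓞 F)} (hv : ¬ m ≤ v.asIdeal) : IsCoprime v.asIdeal m := by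
  rw [Ideal.isCoprime_iff_sup_eq]
  have hm := v.isMaximal
  refine hm.out.2 _ (lt_of_le_of_ne le_sup_left ?_)
  intro he
  apply hv
  rw [he]
  exact le_sup_right

/-- Chunk D8. α = eF (ψ v), β its complex conjugate, v prime to m (so v = span {ψ v}, hecke.gen): α β = Nm (ψ v) = absNorm v and α + β = absNorm v + 1 - Nm (1 - ψ v) (mul_cj / Nm_eq: Nm x = ‖eF x‖^2 = eF x * conj (eF x)). -/
theorem trc (hψ : IsHecke m ψ) {v : HeightOneSpectrum (𝓞 F)} (hv : ¬ m ≤ v.asIdeal) :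
    eF F (ψ v.asIdeal) * (starRingEnd ℂ) (eF F (ψ v.asIdeal)) = (Ideal.absNorm v.asIdeal : ℂ) ∧
    eF F (ψ v.asIdeal) + (starRingEnd ℂ) (eF F (ψ v.asIdeal)) =
      (Ideal.absNorm v.asIdeal : ℂ) + 1 - (Nm (1 - ψ v.asIdeal) : ℂ) := by
  have h1 : Ideal.span {ψ v.asIdeal} = v.asIdeal := hψ.gen _ (d8_cop hv)
  have h2 : (Ideal.absNorm v.asIdeal : ℂ) = eF F (ψ v.asIdeal) * (starRingEnd ℂ) (eF F (ψ v.asIdeal)) := by
    have h3 : Nm (ψ v.asIdeal) = Ideal.absNorm v.asIdeal := by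
      conv_rhs => rw [← h1]
      rfl
    have h4 := congrArg (eF F) (mul_cj (ψ v.asIdeal))
    rw [map_mul, e_cj, map_natCast, h3] at h4
    exact h4.symm
  have h5 : (Nm (1 - ψ v.asIdeal) : ℂ) = (1 - eF F (ψ v.asIdeal)) * (1 - (starRingEnd ℂ) (eF F (ψ v.asIdeal))) := by
    have h4 := congrArg (eF F) (mul_cj (1 - ψ v.asIdeal))
    rw [map_mul, e_cj, map_natCast, map_sub, map_one, map_sub, map_one] at h4
    exact h4.symm
  refine ⟨h2.symm, ?_⟩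
  rw [h5, h2]
  ring

/-- Chunk D8. hecke.zero: v contains m, so v is not coprime to m, ψ v = 0; PsiP_apply, map_pow, f > 0. -/
theorem psi_bad (hψ : IsHecke m ψ) (w : HeightOneSpectrum (𝓞 K)) (hw : mK K m ≤ w.asIdeal) : PsiP K ψ w.asIdeal = 0 := by
  obtain ⟨v, h1, h2, h3, h4⟩ := below (m := m) w
  have h5 : ψ v.asIdeal = 0 := by
    apply hψ.zero
    intro hc
    have h6 := Ideal.isCoprime_iff_sup_eq.1 hc
    rw [sup_eq_left.2 (h4.1 hw)] at h6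
    exact v.isPrime.ne_top h6
  rw [H55P.PsiP_apply, h2, map_pow, h5, zero_pow h3.ne', map_zero, map_zero]

end H55K.DD
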