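import Mathlib
import Pool.Agent.Lib.H55K.D6
import Pool.Agent.Lib.H55K.D7
import Pool.Agent.Lib.H55K.D8
import Pool.Agent.Lib.H55N.H7
import Pool.Agent.Lib.H55P.GenStm

/-! # H55K, part D: the L-function of a curve with complex multiplication over a number field -/

open NumberField IsDedekindDomain WeierstrassCurve

namespace H55K

open H55P (IQ embF eF LF Per IsHecke Pt ac Inert Dec Nm CMData PsiP mK DeuG)
open DD

variable {F : Type} [Field F] [NumberField F] [IQ F] {W₀ : WeierstrassCurve (𝓞 F)} {m : Ideal (𝓞 F)}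
  {ψ : Ideal (𝓞 F) →*₀ 𝓞 F}

/-- The number of points over the residue fields of an extension. -/
theorem pts_w {K : Type} [Field K] [NumberField K] [Algebra F K] (hψ : IsHecke m ψ)
    (hdeu : ∀ v : HeightOneSpectrum (𝓞 F), W₀.Δ ∉ v.asIdeal → ¬ m ≤ v.asIdeal →
      Nat.card (W₀⁄(𝓞 F ⧸ v.asIdeal)).toAffine.Point = Nm (1 - ψ v.asIdeal))
    (w : HeightOneSpectrum (𝓞 K)) (hΔ : algebraMap (𝓞 F) (𝓞 K) W₀.Δ ∉ w.asIdeal) (hm : ¬ mK K m ≤ w.asIdeal) :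
    Nat.card (W₀⁄(𝓞 K ⧸ w.asIdeal)).toAffine.Point = Nm (1 - ψ (Ideal.relNorm (𝓞 F) w.asIdeal)) := by
  obtain ⟨v, hv, hN, hf, hmv⟩ := below (m := m) w
  have hΔ' : W₀.Δ ∉ v.asIdeal := by
    rw [hv]
    exact hΔ
  have hm' : ¬ m ≤ v.asIdeal := fun h => hm (hmv.2 h)
  obtain ⟨t1, t2⟩ := trc hψ hm'
  rw [← hdeu v hΔ' hm'] at t2
  have hmax : w.asIdeal.IsMaximal := w.isMaximal
  let _ : Field (𝓞 K ⧸ w.asIdeal) := Ideal.Quotient.field _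
  have h := pts_res W₀ w v hv hΔ' _ _ t2 t1 (𝓞 K ⧸ w.asIdeal) (Ideal.Quotient.mk w.asIdeal)
    Ideal.Quotient.mk_surjective Ideal.mk_ker
  have hb : W₀.map ((Ideal.Quotient.mk w.asIdeal).comp (algebraMap (𝓞 F) (𝓞 K))) = W₀⁄(𝓞 K ⧸ w.asIdeal) := rfl
  rw [hb] at h
  have hn : (Ideal.absNorm w.asIdeal : ℂ) = (eF F (ψ v.asIdeal) * (starRingEnd ℂ) (eF F (ψ v.asIdeal))) ^
      (w.asIdeal.inertiaDeg (𝓞 F)) := by
    rw [t1, ← Ideal.absNorm_relNorm (𝓞 F) (𝓞 K) w.asIdeal, hN, map_pow, Nat.cast_pow]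
  have hNm : ((Nm (1 - ψ (Ideal.relNorm (𝓞 F) w.asIdeal)) : ℕ) : ℂ) =
      (1 - eF F (ψ v.asIdeal) ^ (w.asIdeal.inertiaDeg (𝓞 F))) *
        (1 - (starRingEnd ℂ) (eF F (ψ v.asIdeal)) ^ (w.asIdeal.inertiaDeg (𝓞 F))) := by
    have h1 := mul_cj (1 - ψ (Ideal.relNorm (𝓞 F) w.asIdeal))
    have h2 := congrArg (eF F) h1
    rw [map_mul, e_cj, map_natCast] at h2
    rw [← h2, hN, map_pow, map_sub, map_one, map_pow, map_sub, map_one, map_pow]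
  have h4 : ((Nat.card (W₀⁄(𝓞 K ⧸ w.asIdeal)).toAffine.Point : ℕ) : ℂ) =
      ((Nm (1 - ψ (Ideal.relNorm (𝓞 F) w.asIdeal)) : ℕ) : ℂ) := by
    rw [h, hNm, hn, mul_pow]
    ring
  exact_mod_cast h4

/-- THE L-FUNCTION (Deuring). The numbers of points of W₀ over the residue fields of F are given by ψ; j is integral; the primes dividing the discriminant
divide the modulus; W₀ has bad reduction at the primes of K above the modulus. Then the L-function of W₀ over K is the product of the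
L-functions of ψ ∘ N and its conjugate. -/
theorem lfun_K {K : Type} [Field K] [NumberField K] [Algebra F K] (hψ : IsHecke m ψ)
    (hdeu : ∀ v : HeightOneSpectrum (𝓞 F), W₀.Δ ∉ v.asIdeal → ¬ m ≤ v.asIdeal →
      Nat.card (W₀⁄(𝓞 F ⧸ v.asIdeal)).toAffine.Point = Nm (1 - ψ v.asIdeal))
    (hΔm : ∀ v : HeightOneSpectrum (𝓞 F), W₀.Δ ∈ v.asIdeal → m ≤ v.asIdeal)
    (hj : ∃ j₀ : 𝓞 F, W₀.c₄ ^ 3 = j₀ * W₀.Δ)
    (hbad : ∀ w : HeightOneSpectrum (𝓞 K), mK K m ≤ w.asIdeal → ¬ GoodAt ((W₀⁄F)⁄K) w) (n : ℕ) :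
    ((((W₀⁄F)⁄K).LFunction n : ℤ) : ℂ) =
      (H55N.AI (PsiP K ψ) * H55N.AI (fun a => (starRingEnd ℂ) (PsiP K ψ a))) n := by
  refine lfun _ _ (fun w => ?_) n
  obtain ⟨j₀, hj₀⟩ := hj
  obtain ⟨v, hv, hN, hf, hmv⟩ := below (m := m) w
  by_cases hm : mK K m ≤ w.asIdeal
  · have h0 := psi_bad hψ w hm
    rw [lf_bad W₀ w j₀ hj₀ (hbad w hm), h0, map_zero]
    have h1 : ef (Ideal.absNorm w.asIdeal) 0 = 1 := by
      unfold ef
      rw [H55N.H7_ps, map_one]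
    rw [h1, mul_one]
  · have hm' : ¬ m ≤ v.asIdeal := fun h => hm (hmv.2 h)
    have hΔ' : W₀.Δ ∉ v.asIdeal := fun h => hm' (hΔm v h)
    obtain ⟨t1, t2⟩ := trc hψ hm'
    rw [← hdeu v hΔ' hm'] at t2
    rw [lf_good W₀ w v hv hΔ' _ _ t2 t1, H55P.PsiP_apply, hN, map_pow, map_pow, map_pow, map_pow, Complex.conj_conj,
      mul_comm]

/-- Part D for intermediate fields. -/
theorem deuG (hψ : IsHecke m ψ)
    (hdeu : ∀ v : HeightOneSpectrum (𝓞 F), W₀.Δ ∉ v.asIdeal → ¬ m ≤ v.asIdeal →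
      Nat.card (W₀⁄(𝓞 F ⧸ v.asIdeal)).toAffine.Point = Nm (1 - ψ v.asIdeal))
    (hΔm : ∀ v : HeightOneSpectrum (𝓞 F), W₀.Δ ∈ v.asIdeal → m ≤ v.asIdeal)
    (hj : ∃ j₀ : 𝓞 F, W₀.c₄ ^ 3 = j₀ * W₀.Δ)
    (M : IntermediateField F (AlgebraicClosure F)) [NumberField M]
    (hbad : ∀ w : HeightOneSpectrum (𝓞 M), mK M m ≤ w.asIdeal → ¬ GoodAt ((W₀⁄F)⁄M) w) : DeuG W₀ ψ M :=
  fun n => lfun_K hψ hdeu hΔm hj hbad n

end H55K
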