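import Mathlib
import Pool.Agent.Lib.H55P.SA3

/-! # H55K, part N: the step of the Selmer group with a third local alternative -/

namespace H55K.NB

open H55P

/-- The step of the Selmer group in a cyclic extension of degree p, with a third local alternative: every continuous
cocycle killed by p is a coboundary on the inertia group. -/
theorem abs_stepB {G M Vs : Type} [Group G] [AddCommGroup M] (ρ : G →* AddMonoid.End M) (p : ℕ)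
    (hp : p.Prime) (U : Set (Subgroup G)) (I D : Vs → Subgroup G) (N H : Subgroup G)
    (hUi : ∀ O ∈ U, ∀ O' ∈ U, O ⊓ O' ∈ U) (hUc : ∀ O ∈ U, ∀ g : G, ∃ O' ∈ U, ∀ s ∈ O', g * s * g⁻¹ ∈ O)
    (hN : N ∈ U) (hNH : N ≤ H) (hcomm : ∀ a ∈ H, ∀ b ∈ H, a * b * a⁻¹ * b⁻¹ ∈ N) (σ : G) (hσ : σ ∈ H)
    (hgen : ∀ h ∈ H, ∃ i : ℕ, ∃ n ∈ N, h = σ ^ i * n) (hσp : σ ^ p ∈ N)
    (hconj : ∀ g ∈ H, ∀ v, ∃ v', ∀ s, s ∈ I v' ↔ g * s * g⁻¹ ∈ I v)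
    (hDI : ∀ v, ∀ φ ∈ D v, ∀ s ∈ I v, φ * s * φ⁻¹ ∈ I v)
    (h0 : ∀ T : M, p • T = 0 → (∀ s ∈ N, ρ s T = T) → T = 0)
    (hloc : ∀ v, (∀ s ∈ H, s ∈ I v → s ∈ N) ∨
      ((∀ s ∈ H, s ∈ I v → ∀ P : M, p • (ρ s P - P) = 0 → ρ s P = P) ∧
        ∀ T : M, p • T = 0 → (∀ s ∈ H, s ∈ D v → ρ s T = T) → T = 0) ∨
      (∀ c' : G → M, (∀ s ∈ H, ∀ t ∈ H, c' (s * t) = c' s + ρ s (c' t)) → (∀ s ∈ H, p • c' s = 0) →
        (∃ O ∈ U, ∀ s ∈ H, s ∈ O → c' s = 0) → ∃ P : M, ∀ s ∈ H, s ∈ I v → c' s = ρ s P - P))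
    (hS : SelA ρ p U I H) : SelA ρ p U I N := by
  intro c hc1 hc2 hc3 hc4
  have hn := sa3_norm hNH hcomm
  have hn' := sa3_norm' hNH hcomm
  refine op_zero p hp (sa3_Z ρ p U I N hN hUi) (sa3_B ρ p N) ?_ (sa3_F ρ σ)
    (fun z hz => sa3_FZ p U I N H hUc hNH hcomm σ hσ hconj z hz) ?_ ?_ ?_ c ⟨hc1, hc2, hc3, hc4⟩
  · rintro z ⟨-, -, hz, -⟩
    exact ⟨0, smul_zero _, fun s hs => by rw [Pi.smul_apply, hz s hs, map_zero, sub_zero]⟩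
  · rintro b ⟨T, hT, hb⟩
    refine ⟨ρ σ T, sa3_nsmul ρ p σ T hT, fun s hs => ?_⟩
    rw [sa3_F_apply, hb _ (hn' σ hσ s hs), sa3_bd]
  · rintro z ⟨z1, -, z3, -⟩
    refine ⟨z (σ ^ p), z3 _ hσp, fun s hs => ?_⟩
    rw [Pi.sub_apply, sa3_iter]
    exact sa3_self z1 _ hσp s hs
  · rintro z ⟨z1, ⟨O, hO, z2⟩, z3, z4⟩ ⟨T, hT, hb⟩
    have hI : sa3_I ρ p N z σ := ⟨T, hT, fun s hs => hb s hs⟩
    have hI1 : ∀ n ∈ N, sa3_I ρ p N z n := fun n hn => ⟨z n, z3 n hn, fun s hs => sa3_self z1 n hn s hs⟩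
    have hI2 : ∀ i : ℕ, sa3_I ρ p N z (σ ^ i) := by
      intro i
      induction i with
      | zero =>
        rw [pow_zero]
        exact hI1 1 N.one_mem
      | succ i ih =>
        rw [pow_succ']
        exact sa3_I_mul (hn' σ hσ) hI ih
    have hinv : ∀ g ∈ H, sa3_I ρ p N z g := by
      intro g hg
      obtain ⟨i, n, hnN, rfl⟩ := hgen g hg
      exact sa3_I_mul (hn' _ (H.pow_mem hσ i)) (hI2 i) (hI1 n hnN)
    obtain ⟨c', e1, e2, e3⟩ := ext_coc ρ p N H hNH hn h0 z z1 z3 hinv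
    have hcont : ∃ O' ∈ U, ∀ s ∈ H, s ∈ O' → c' s = 0 :=
      ⟨N ⊓ O, hUi N hN O hO, fun s _ h => by rw [e3 s h.1, z2 s h.1 h.2]⟩
    obtain ⟨T', hT', h5⟩ := hS c' e1 hcont e2
      (fun v => by
        rcases hloc v with h | h | h
        · exact sa3_loc p I D N H hNH hcomm hDI v (Or.inl h) z c' (z4 v) z3 e1 e2 e3
        · exact sa3_loc p I D N H hNH hcomm hDI v (Or.inr h) z c' (z4 v) z3 e1 e2 e3
        · exact h c' e1 e2 hcont)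
    exact ⟨T', hT', fun s hs => by rw [← e3 s hs, h5 s (hNH hs)]⟩

end H55K.NB
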