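import Mathlib
import Pool.Agent.Lib.H55K.NA1
import Pool.Agent.Lib.H55P.S3

/-! # H55K, part N: the step of the Selmer group over the fields, with a third local alternative -/

open NumberField IsDedekindDomain WeierstrassCurve

namespace H55K.NB

open H55P

variable {F : Type} [Field F] [NumberField F] {Ω : Type} [Field Ω] [DecidableEq Ω] [Algebra F Ω]
  [IsAlgClosed Ω] [Algebra.IsAlgebraic F Ω] [CharZero Ω]

theorem sel_stepB (W : WeierstrassCurve F) (p : ℕ) (hp : p.Prime) (N K : IntermediateField F Ω)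
    [FiniteDimensional F K] (hNK : N ≤ K) (hnorm : ∀ s ∈ N.fixingSubgroup, ∀ x ∈ K, s x ∈ K)
    (hdeg : Module.finrank F K = Module.finrank F N * p)
    (h0 : ∀ T : Pt W Ω, p • T = 0 → (∀ s ∈ K.fixingSubgroup, ac W s T = T) → T = 0)
    (hloc : ∀ V : ValuationSubring Ω, (∀ s ∈ N.fixingSubgroup, Inert V s → s ∈ K.fixingSubgroup) ∨
      ((∀ s ∈ N.fixingSubgroup, Inert V s → ∀ P : Pt W Ω, p • (ac W s P - P) = 0 → ac W s P = P) ∧
        ∀ T : Pt W Ω, p • T = 0 → (∀ s ∈ N.fixingSubgroup, Dec V s → ac W s T = T) → T = 0) ∨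
      (∀ c : (Ω ≃ₐ[F] Ω) → Pt W Ω, Coc W N c → (∀ s ∈ N.fixingSubgroup, p • c s = 0) →
        ∃ P : Pt W Ω, ∀ s ∈ N.fixingSubgroup, Inert V s → c s = ac W s P - P))
    (hS : SelZero W p N) : SelZero W p K := by
  rw [sel_iff] at hS ⊢
  have hfin := s3_fin N K hNK
  have hgal := s3_galois N K hNK hnorm
  have hdN : Module.finrank F N ≠ 0 := by
    intro h
    rw [h, zero_mul] at hdeg
    exact (Module.finrank_pos (R := F) (M := K)).ne' hdeg
  have hfr : Module.finrank N (IntermediateField.extendScalars hNK) = p := by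
    have h1 := Module.finrank_mul_finrank F N (IntermediateField.extendScalars hNK)
    have h2 : Module.finrank F (IntermediateField.extendScalars hNK) = Module.finrank F K := rfl
    rw [h2, hdeg] at h1
    exact Nat.eq_of_mul_eq_mul_left (Nat.pos_of_ne_zero hdN) h1
  have hcard : Nat.card Gal((IntermediateField.extendScalars hNK)/N) = p := by
    rw [IsGalois.card_aut_eq_finrank, hfr]
  have : Fact p.Prime := ⟨hp⟩
  have hcyc : IsCyclic Gal((IntermediateField.extendScalars hNK)/N) := isCyclic_of_prime_card hcard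
  obtain ⟨τ, hτ⟩ := hcyc.exists_generator
  obtain ⟨σ, hσ, hστ⟩ := s3_lift (IntermediateField.extendScalars hNK) τ
  have hpow : ∀ (i : ℕ) (x : IntermediateField.extendScalars hNK),
      (σ ^ i) (x : Ω) = (((τ ^ i) x : IntermediateField.extendScalars hNK) : Ω) := by
    intro i
    induction i with
    | zero => intro x; rfl
    | succ n ih =>
      intro x
      rw [pow_succ', pow_succ', AlgEquiv.mul_apply, AlgEquiv.mul_apply, ih, hστ]
  refine abs_stepB (acR W) p hp _ (fun V : ValuationSubring Ω => inS F V)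
    (fun V : ValuationSubring Ω => decS F V) K.fixingSubgroup N.fixingSubgroup ?_ ?_ ?_ ?_ ?_ σ hσ
    ?_ ?_ ?_ ?_ ?_ ?_ hS
  · rintro _ ⟨L, hL, rfl⟩ _ ⟨L', hL', rfl⟩
    exact ⟨L ⊔ L', IntermediateField.finiteDimensional_sup L L',
      (IntermediateField.fixingSubgroup_sup).symm⟩
  · rintro _ ⟨L, hL, rfl⟩ g
    refine ⟨(L.map (g⁻¹ : Ω ≃ₐ[F] Ω).toAlgHom).fixingSubgroup, ⟨_, ?_, rfl⟩, ?_⟩
    · exact LinearEquiv.finiteDimensional
        (IntermediateField.equivMap L (g⁻¹ : Ω ≃ₐ[F] Ω).toAlgHom).toLinearEquiv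
    · intro s hs
      rw [s3_mem] at hs ⊢
      intro x hx
      have h1 : g (g⁻¹ x) = x := g.apply_symm_apply x
      have h2 : s (g⁻¹ x) = g⁻¹ x := hs _ ⟨x, hx, rfl⟩
      rw [AlgEquiv.mul_apply, AlgEquiv.mul_apply, h2, h1]
  · exact ⟨K, inferInstance, rfl⟩
  · exact IntermediateField.fixingSubgroup_le hNK
  · intro a ha b hb
    obtain ⟨sa, hsa⟩ := s3_restr (IntermediateField.extendScalars hNK) a ha
    obtain ⟨sb, hsb⟩ := s3_restr (IntermediateField.extendScalars hNK) b hb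
    have hcm : sa * sb = sb * sa := by
      obtain ⟨i, hi⟩ := Subgroup.mem_zpowers_iff.1 (hτ sa)
      obtain ⟨j, hj⟩ := Subgroup.mem_zpowers_iff.1 (hτ sb)
      rw [← hi, ← hj, ← zpow_add, ← zpow_add, add_comm]
    rw [s3_mem]
    intro x hx
    have hy : a⁻¹ (b⁻¹ x) ∈ K :=
      hnorm _ (inv_mem ha) _ (hnorm _ (inv_mem hb) _ hx)
    have h3 : a (b (a⁻¹ (b⁻¹ x))) = b (a (a⁻¹ (b⁻¹ x))) := by
      have h4 := hsb ⟨a⁻¹ (b⁻¹ x), hy⟩
      have h5 := hsa ⟨a⁻¹ (b⁻¹ x), hy⟩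
      have h6 := hsa (sb ⟨a⁻¹ (b⁻¹ x), hy⟩)
      have h7 := hsb (sa ⟨a⁻¹ (b⁻¹ x), hy⟩)
      have h8 : sa (sb ⟨a⁻¹ (b⁻¹ x), hy⟩) = sb (sa ⟨a⁻¹ (b⁻¹ x), hy⟩) := by
        rw [← AlgEquiv.mul_apply, hcm, AlgEquiv.mul_apply]
      rw [h8, h7, h4, h5] at h6
      exact h6.symm
    have h1 : a (a⁻¹ (b⁻¹ x)) = b⁻¹ x := a.apply_symm_apply _
    have h2 : b (b⁻¹ x) = x := b.apply_symm_apply _
    rw [AlgEquiv.mul_apply, AlgEquiv.mul_apply, AlgEquiv.mul_apply, h3, h1, h2]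
  · intro h hh
    obtain ⟨sh, hsh⟩ := s3_restr (IntermediateField.extendScalars hNK) h hh
    have h1 : sh ∈ Submonoid.powers τ := by
      have := hτ sh
      rwa [← mem_powers_iff_mem_zpowers] at this
    obtain ⟨i, hi⟩ := h1
    refine ⟨i, (σ ^ i)⁻¹ * h, ?_, by group⟩
    rw [s3_mem]
    intro x hx
    have h2 : h x = (σ ^ i) x := by
      have h3 := hsh ⟨x, hx⟩
      have h4 := hpow i ⟨x, hx⟩
      have hi' : τ ^ i = sh := hi
      rw [hi', h3] at h4
      exact h4.symm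
    rw [AlgEquiv.mul_apply, h2]
    exact (σ ^ i).symm_apply_apply x
  · rw [s3_mem]
    intro x hx
    have h4 := hpow p ⟨x, hx⟩
    have h5 : τ ^ p = 1 := by
      rw [← hcard]
      exact pow_card_eq_one'
    rw [h5] at h4
    exact h4
  · intro g _ v
    exact inS_conj v g
  · intro v φ hφ s hs
    exact inS_dec v φ hφ s hs
  · exact h0
  · intro V
    rcases hloc V with h | h | h
    · exact Or.inl h
    · exact Or.inr (Or.inl h)
    · refine Or.inr (Or.inr ?_)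
      rintro c' h1 h2 ⟨_, ⟨L, hL, rfl⟩, h3⟩
      exact h c' ⟨h1, L, hL, h3⟩ h2

end H55K.NB
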