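import Mathlib

/-! # H55K, part N: Sah's lemma for a commuting action without fixed points (pure algebra) -/

namespace H55K.NB

/-- Commutative algebra: an ideal without nonzero killed elements in a finite module contains an element acting as 1. -/
theorem na3_one {R A : Type*} [CommRing R] [AddCommGroup A] [Module R A] [Finite A] (J : Ideal R)
    (h0 : ∀ x : A, (∀ j ∈ J, j • x = 0) → x = 0) : ∃ j ∈ J, ∀ x : A, j • x = x := by
  -- the decreasing chain J^k A is stationary
  have hanti : Antitone fun k : ℕ => (J ^ k • (⊤ : Submodule R A)) := by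
    intro a b hab
    exact Submodule.smul_mono_left (Ideal.pow_le_pow_right hab)
  have hfinS : Finite (Submodule R A) := Finite.of_injective (fun N : Submodule R A => (N : Set A)) SetLike.coe_injective
  obtain ⟨k, hk⟩ : ∃ k : ℕ, (J ^ k • (⊤ : Submodule R A)) = J ^ (k + 1) • ⊤ := by
    obtain ⟨a, b, hab, he⟩ := Finite.exists_ne_map_eq_of_infinite fun k : ℕ => (J ^ k • (⊤ : Submodule R A))
    have key : ∀ a b : ℕ, a < b → J ^ a • (⊤ : Submodule R A) = J ^ b • ⊤ →
        J ^ a • (⊤ : Submodule R A) = J ^ (a + 1) • ⊤ :=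
      fun a b hab he => le_antisymm (he.le.trans (hanti (Nat.succ_le_of_lt hab))) (hanti (Nat.le_succ a))
    rcases lt_or_gt_of_ne hab with h | h
    · exact ⟨a, key a b h he⟩
    · exact ⟨b, key b a h he.symm⟩
  set B : Submodule R A := J ^ k • (⊤ : Submodule R A) with hB
  have hBfg : B.FG := (Submodule.fg_def).2 ⟨(B : Set A), Set.toFinite _, Submodule.span_eq B⟩
  have hle : B ≤ J • B := by
    rw [hB, ← mul_smul, ← pow_succ', ← hk]
  obtain ⟨r, hr1, hr2⟩ := Submodule.exists_sub_one_mem_and_smul_eq_zero_of_fg_of_le_smul J B hBfg hle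
  have hkill : ∀ (i : ℕ) (y : A), (∀ a ∈ J ^ i, a • y = 0) → y = 0 := by
    intro i
    induction i with
    | zero =>
      intro y hy
      have := hy 1 (by rw [pow_zero, Ideal.one_eq_top]; exact Submodule.mem_top)
      rwa [one_smul] at this
    | succ i ih =>
      intro y hy
      apply ih
      intro a ha
      apply h0
      intro j hj
      rw [← mul_smul]
      exact hy _ (by rw [pow_succ']; exact Ideal.mul_mem_mul hj ha)
  refine ⟨1 - r, by rw [← neg_sub]; exact J.neg_mem hr1, fun x => ?_⟩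
  rw [sub_smul, one_smul, sub_eq_self]
  apply hkill k
  intro a ha
  rw [← mul_smul, mul_comm, mul_smul]
  exact hr2 _ (Submodule.smul_mem_smul ha Submodule.mem_top)

variable {G M : Type} [Group G] [AddCommGroup M]

/-- Sah's lemma. -/
theorem sah (ρ : G →* AddMonoid.End M) (p : ℕ) (hfin : {T : M | p • T = 0}.Finite) (I : Subgroup G)
    (hcomm : ∀ s ∈ I, ∀ t ∈ I, ∀ T : M, p • T = 0 → ρ s (ρ t T) = ρ t (ρ s T))
    (h0 : ∀ T : M, p • T = 0 → (∀ s ∈ I, ρ s T = T) → T = 0) (c : G → M)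
    (hc : ∀ s ∈ I, ∀ t ∈ I, c (s * t) = c s + ρ s (c t)) (hpc : ∀ s ∈ I, p • c s = 0)
    (hk : ∀ s ∈ I, ∀ t ∈ I, c (s * t * s⁻¹ * t⁻¹) = 0) :
    ∃ P : M, p • P = 0 ∧ ∀ s ∈ I, c s = ρ s P - P := by
  classical
  have hMul : ∀ (a b : G) (x : M), ρ (a * b) x = ρ a (ρ b x) := by
    intro a b x
    rw [map_mul]
    rfl
  have hone : ∀ x : M, ρ 1 x = x := fun x => by rw [map_one]; rfl
  let A : AddSubgroup M :=
    { carrier := {T | p • T = 0}
      add_mem' := fun {a b} ha hb => by
        change p • (a + b) = 0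
        rw [smul_add, show p • a = 0 from ha, show p • b = 0 from hb, add_zero]
      zero_mem' := smul_zero p
      neg_mem' := fun {a} ha => by
        change p • (-a) = 0
        rw [smul_neg, show p • a = 0 from ha, neg_zero] }
  have : Finite A := hfin.to_subtype
  have hA : ∀ (g : G) (x : A), p • ρ g (x : M) = 0 := by
    intro g x
    rw [← map_nsmul, show p • (x : M) = 0 from x.2, map_zero]
  let ψ : G → AddMonoid.End A := fun g =>
    { toFun := fun x => ⟨ρ g x, hA g x⟩
      map_zero' := Subtype.ext (map_zero (ρ g))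
      map_add' := fun x y => Subtype.ext (map_add (ρ g) _ _) }
  have hψ : ∀ g (x : A), ((ψ g x : A) : M) = ρ g x := fun _ _ => rfl
  let S : Set (AddMonoid.End A) := ψ '' (I : Set G)
  have hS : ∀ x ∈ S, ∀ y ∈ S, x * y = y * x := by
    rintro _ ⟨s, hs, rfl⟩ _ ⟨t, ht, rfl⟩
    ext x
    exact hcomm s hs t ht x x.2
  let _ : CommRing (Subring.closure S) := Subring.closureCommRingOfComm hS
  let e : G → Subring.closure S := fun g => if h : g ∈ I then ⟨ψ g, Subring.subset_closure ⟨g, h, rfl⟩⟩ else 0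
  have he : ∀ g ∈ I, ∀ x : A, e g • x = ψ g x := by
    intro g hg x
    have : e g = ⟨ψ g, Subring.subset_closure ⟨g, hg, rfl⟩⟩ := dif_pos hg
    rw [this]
    rfl
  let J : Ideal (Subring.closure S) := Ideal.span {a | ∃ g ∈ I, a = e g - 1}
  have hJ0 : ∀ x : A, (∀ j ∈ J, j • x = 0) → x = 0 := by
    intro x hx
    apply Subtype.ext
    apply h0 _ x.2
    intro s hs
    have h1 := hx (e s - 1) (Ideal.subset_span ⟨s, hs, rfl⟩)
    rw [sub_smul, one_smul, he s hs, sub_eq_zero] at h1
    rw [← hψ, h1]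
  obtain ⟨j, hjJ, hj⟩ := na3_one J hJ0
  -- the elements of J act on the class of c by zero
  let cA : G → A := fun g => if h : g ∈ I then ⟨c g, hpc g h⟩ else 0
  have hcA : ∀ g ∈ I, ((cA g : A) : M) = c g := by
    intro g hg
    have : cA g = ⟨c g, hpc g hg⟩ := dif_pos hg
    rw [this]
  have key : ∀ a ∈ J, ∃ P : A, ∀ t ∈ I, a • cA t = (e t - 1) • P := by
    intro a ha
    refine Submodule.span_induction ?_ ?_ ?_ ?_ ha
    · rintro _ ⟨g, hg, rfl⟩
      refine ⟨cA g, fun t ht => ?_⟩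
      have q1 : (e g - 1) • cA t = ψ g (cA t) - cA t := by
        rw [← he g hg, sub_smul, one_smul]
      have q2 : (e t - 1) • cA g = ψ t (cA g) - cA g := by
        rw [← he t ht, sub_smul, one_smul]
      rw [q1, q2]
      apply Subtype.ext
      rw [AddSubgroup.coe_sub, AddSubgroup.coe_sub, hψ, hψ, hcA t ht, hcA g hg]
      have h1 : c (g * t) = c g + ρ g (c t) := hc g hg t ht
      have h2 : c (t * g) = c t + ρ t (c g) := hc t ht g hg
      have h3 : c (g * t) = c (t * g) := by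
        have e1 : g * t = (g * t * g⁻¹ * t⁻¹) * (t * g) := by group
        have hm : g * t * g⁻¹ * t⁻¹ ∈ I :=
          I.mul_mem (I.mul_mem (I.mul_mem hg ht) (I.inv_mem hg)) (I.inv_mem ht)
        have hx := hpc _ (I.mul_mem ht hg)
        have e2 : ρ (g * t * g⁻¹ * t⁻¹) (c (t * g)) = c (t * g) := by
          rw [hMul, hMul, hMul]
          have q1 : p • ρ t⁻¹ (c (t * g)) = 0 := by rw [← map_nsmul, hx, map_zero]
          rw [hcomm g hg t ht _ (by rw [← map_nsmul, q1, map_zero]), ← hMul g g⁻¹, mul_inv_cancel, hone, ← hMul,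
            mul_inv_cancel, hone]
        calc c (g * t) = c ((g * t * g⁻¹ * t⁻¹) * (t * g)) := by rw [← e1]
          _ = c (g * t * g⁻¹ * t⁻¹) + ρ (g * t * g⁻¹ * t⁻¹) (c (t * g)) := hc _ hm _ (I.mul_mem ht hg)
          _ = c (t * g) := by rw [hk g hg t ht, zero_add, e2]
      rw [h1, h2] at h3
      rw [sub_eq_sub_iff_add_eq_add, add_comm (ρ g (c t)), h3, add_comm]
    · exact ⟨0, fun t _ => by rw [zero_smul, smul_zero]⟩
    · rintro a b _ _ ⟨P, hP⟩ ⟨Q, hQ⟩
      exact ⟨P + Q, fun t ht => by rw [add_smul, hP t ht, hQ t ht, smul_add]⟩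
    · rintro r a _ ⟨P, hP⟩
      refine ⟨r • P, fun t ht => ?_⟩
      rw [smul_assoc, hP t ht, ← mul_smul, ← mul_smul, mul_comm]
  obtain ⟨P, hP⟩ := key j hjJ
  refine ⟨P, P.2, fun s hs => ?_⟩
  have h1 := hP s hs
  rw [hj, sub_smul, one_smul, he s hs] at h1
  have h2 := congrArg Subtype.val h1
  rw [hcA s hs] at h2
  rw [h2]
  rfl

end H55K.NB
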