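import Mathlib
import Pool.Agent.Lib.H55P.Sel

/-! # H55K, part N: wild inertia has order prime to p (V(p) = 1) -/

open NumberField IsDedekindDomain WeierstrassCurve

namespace H55K.NB

open H55P

variable {F : Type} [Field F] {Ω : Type} [Field Ω] [Algebra F Ω]

theorem nq_dec (V : ValuationSubring Ω) (s : Ω ≃ₐ[F] Ω) (hs : Inert V s) (x : Ω) : s x ∈ V ↔ x ∈ V := by
  constructor
  · intro hx
    by_contra hcon
    have h1 : 1 < V.valuation x := by
      rw [← not_le, V.valuation_le_one_iff]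
      exact hcon
    have x0 : V.valuation x ≠ 0 := (zero_lt_one.trans h1).ne'
    have h2 : V.valuation x⁻¹ < 1 := by
      rw [map_inv₀]
      exact inv_lt_one_of_one_lt₀ h1
    have h3 := hs x⁻¹ ((V.valuation_le_one_iff _).1 h2.le)
    have h4 : V.valuation (s x⁻¹) < 1 := by
      have h5 := V.valuation.map_add_lt h3 h2
      rwa [sub_add_cancel] at h5
    rw [map_inv₀ s, map_inv₀] at h4
    have h6 : V.valuation (s x) ≤ 1 := (V.valuation_le_one_iff _).2 hx
    have hx0 : x ≠ 0 := by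
      rintro rfl
      exact x0 (map_zero _)
    have h7 : V.valuation (s x) ≠ 0 := (V.valuation.ne_zero_iff).2 ((map_ne_zero s).2 hx0)
    exact absurd h4 (not_lt.2 ((one_le_inv₀ (zero_lt_iff.2 h7)).2 h6))
  · intro hx
    have h1 : s x - x ∈ V := (V.valuation_le_one_iff _).1 (hs x hx).le
    have h2 := V.add_mem _ _ h1 hx
    rwa [sub_add_cancel] at h2

theorem nq_le (V : ValuationSubring Ω) (s : Ω ≃ₐ[F] Ω) (hs : Inert V s) (a b : Ω) (hb : b ≠ 0) :
    V.valuation (s a) ≤ V.valuation (s b) ↔ V.valuation a ≤ V.valuation b := by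
  have h1 := nq_dec V s hs (a / b)
  have h2 : 0 < V.valuation b := zero_lt_iff.2 ((Valuation.ne_zero_iff _).2 hb)
  have h3 : 0 < V.valuation (s b) := zero_lt_iff.2 ((Valuation.ne_zero_iff _).2 ((map_ne_zero s).2 hb))
  rw [← V.valuation_le_one_iff, ← V.valuation_le_one_iff, map_div₀ s, map_div₀, map_div₀,
    div_le_one₀ h3, div_le_one₀ h2] at h1
  exact h1

theorem nq_orb [Algebra.IsAlgebraic F Ω] (s : Ω ≃ₐ[F] Ω) (x : Ω) : ∃ n : ℕ, 0 < n ∧ (s ^ n) x = x := by
  have hx : IsIntegral F x := (Algebra.IsAlgebraic.isAlgebraic x).isIntegral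
  have hroot : ∀ k : ℕ, (s ^ k) x ∈ (minpoly F x).rootSet Ω := by
    intro k
    rw [Polynomial.mem_rootSet]
    refine ⟨minpoly.ne_zero hx, ?_⟩
    have h1 := Polynomial.aeval_algHom_apply ((s ^ k : Ω ≃ₐ[F] Ω) : Ω →ₐ[F] Ω) x (minpoly F x)
    rw [minpoly.aeval, map_zero] at h1
    exact h1
  obtain ⟨i, j, hij, he⟩ := Finite.exists_ne_map_eq_of_infinite
    (fun k : ℕ => (⟨(s ^ k) x, hroot k⟩ : (minpoly F x).rootSet Ω))
  have he' : (s ^ i) x = (s ^ j) x := congrArg Subtype.val he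
  have key : ∀ i j : ℕ, i < j → (s ^ i) x = (s ^ j) x → ∃ n : ℕ, 0 < n ∧ (s ^ n) x = x := by
    intro i j hlt he
    refine ⟨j - i, by omega, ?_⟩
    apply (s ^ i).injective
    rw [← AlgEquiv.mul_apply, ← pow_add, he]
    congr 2
    omega
  rcases lt_or_gt_of_ne hij with h | h
  · exact key i j h he'
  · exact key j i h he'.symm

theorem nq_val [Algebra.IsAlgebraic F Ω] (V : ValuationSubring Ω) (s : Ω ≃ₐ[F] Ω) (hs : Inert V s)
    (x : Ω) : V.valuation (s x) = V.valuation x := by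
  by_cases hx : x = 0
  · rw [hx, map_zero]
  obtain ⟨n, hn, hnx⟩ := nq_orb s x
  have hne : ∀ k : ℕ, (s ^ k) x ≠ 0 := fun k => (map_ne_zero (s ^ k)).2 hx
  have hs1 : ∀ k : ℕ, (s ^ (k + 1)) x = s ((s ^ k) x) := fun k => by
    rw [pow_succ', AlgEquiv.mul_apply]
  have h0 : (s ^ 0) x = x := by rw [pow_zero]; rfl
  rcases lt_trichotomy (V.valuation (s x)) (V.valuation x) with h | h | h
  · exfalso
    have hstep : ∀ k : ℕ, V.valuation ((s ^ (k + 1)) x) < V.valuation ((s ^ k) x) := by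
      intro k
      induction k with
      | zero =>
        rw [hs1, h0]
        exact h
      | succ k ih =>
        rw [hs1 (k + 1)]
        conv_rhs => rw [hs1 k]
        rw [← not_le] at ih ⊢
        rwa [nq_le V s hs _ _ (hne _)]
    have h1 := strictAnti_nat_of_succ_lt (f := fun k => V.valuation ((s ^ k) x)) hstep hn
    simp only [hnx, h0] at h1
    exact lt_irrefl _ h1
  · exact h
  · exfalso
    have hstep : ∀ k : ℕ, V.valuation ((s ^ k) x) < V.valuation ((s ^ (k + 1)) x) := by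
      intro k
      induction k with
      | zero =>
        rw [hs1, h0]
        exact h
      | succ k ih =>
        rw [hs1 (k + 1)]
        conv_lhs => rw [hs1 k]
        rw [← not_le] at ih ⊢
        rwa [nq_le V s hs _ _ (hne _)]
    have h1 := strictMono_nat_of_lt_succ (f := fun k => V.valuation ((s ^ k) x)) hstep hn
    simp only [hnx, h0] at h1
    exact lt_irrefl _ h1


/-- The element u acts trivially on the leading terms. -/
def Wild (V : ValuationSubring Ω) (u : Ω ≃ₐ[F] Ω) : Prop :=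
  ∀ x : Ω, x ≠ 0 → V.valuation (u x - x) < V.valuation x

theorem na4_dec (V : ValuationSubring Ω) (s : Ω ≃ₐ[F] Ω) (hs : ∀ x, V.valuation (s x) = V.valuation x)
    {x y : Ω} (h : V.valuation x < V.valuation y) : V.valuation (s x) < V.valuation y := by
  rwa [hs]

/-- Commutators of inertia elements are wild. -/
theorem wild_comm [Algebra.IsAlgebraic F Ω] (V : ValuationSubring Ω) (s t : Ω ≃ₐ[F] Ω) (hs : Inert V s)
    (ht : Inert V t) : Wild V (s * t * s⁻¹ * t⁻¹) := by
  have vs := nq_val V s hs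
  have vt := nq_val V t ht
  intro x hx
  -- x = t s y
  obtain ⟨y, rfl⟩ : ∃ y, x = t (s y) := ⟨s⁻¹ (t⁻¹ x), by
    have h1 : s (s⁻¹ (t⁻¹ x)) = t⁻¹ x := s.apply_symm_apply _
    have h2 : t (t⁻¹ x) = x := t.apply_symm_apply _
    rw [h1, h2]⟩
  have hy : y ≠ 0 := by
    rintro rfl
    rw [map_zero, map_zero] at hx
    exact hx rfl
  have e1 : (s * t * s⁻¹ * t⁻¹) (t (s y)) = s (t y) := by
    have h1 : t⁻¹ (t (s y)) = s y := t.symm_apply_apply _
    have h2 : s⁻¹ (s y) = y := s.symm_apply_apply _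
    rw [AlgEquiv.mul_apply, AlgEquiv.mul_apply, AlgEquiv.mul_apply, h1, h2]
  rw [e1, vt, vs]
  have hvy : V.valuation y ≠ 0 := (V.valuation.ne_zero_iff).2 hy
  have hpos : (0 : V.ValueGroup) < V.valuation y := zero_lt_iff.2 hvy
  set a : Ω := s y / y with ha
  set b : Ω := t y / y with hb
  have hsy : s y = a * y := by rw [ha, div_mul_cancel₀ _ hy]
  have hty : t y = b * y := by rw [hb, div_mul_cancel₀ _ hy]
  have hva : V.valuation a = 1 := by rw [ha, map_div₀, vs, div_self hvy]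
  have hvb : V.valuation b = 1 := by rw [hb, map_div₀, vt, div_self hvy]
  have haV : a ∈ V := (V.valuation_le_one_iff a).1 hva.le
  have hbV : b ∈ V := (V.valuation_le_one_iff b).1 hvb.le
  have h1 : s (t y) - t (s y) = ((s b - b) * a - (t a - a) * b) * y := by
    rw [hty, hsy, map_mul, map_mul, hsy, hty]
    ring
  rw [h1, map_mul]
  have h2 : V.valuation ((s b - b) * a - (t a - a) * b) < 1 := by
    refine Valuation.map_sub_lt _ ?_ ?_
    · rw [map_mul, hva, mul_one]
      exact hs b hbV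
    · rw [map_mul, hvb, mul_one]
      exact ht a haV
  calc V.valuation ((s b - b) * a - (t a - a) * b) * V.valuation y < 1 * V.valuation y :=
        mul_lt_mul_of_pos_right h2 hpos
    _ = V.valuation y := one_mul _

theorem wild_val (V : ValuationSubring Ω) {u : Ω ≃ₐ[F] Ω} (hu : Wild V u) (x : Ω) :
    V.valuation (u x) = V.valuation x := by
  by_cases hx : x = 0
  · rw [hx, map_zero]
  have h := hu x hx
  have e : u x = x + (u x - x) := by ring
  rw [e]
  exact Valuation.map_add_eq_of_lt_left _ h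

theorem wild_pow (V : ValuationSubring Ω) {u : Ω ≃ₐ[F] Ω} (hu : Wild V u) (n : ℕ) : Wild V (u ^ n) := by
  induction n with
  | zero =>
    intro x hx
    rw [pow_zero, AlgEquiv.one_apply, sub_self, map_zero]
    exact zero_lt_iff.2 ((V.valuation.ne_zero_iff).2 hx)
  | succ n ih =>
    intro x hx
    have e : (u ^ (n + 1)) x - x = ((u ^ n) (u x) - u x) + (u x - x) := by
      rw [pow_succ, AlgEquiv.mul_apply]
      ring
    rw [e]
    refine Valuation.map_add_lt _ ?_ (hu x hx)
    have h := ih (u x) ((map_ne_zero u).2 hx)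
    rwa [wild_val V hu] at h

/-- A wild element whose m-th power fixes x fixes x, if V(m) = 1. -/
theorem wild_fix (V : ValuationSubring Ω) {u : Ω ≃ₐ[F] Ω} (hu : Wild V u) (m : ℕ)
    (hm : V.valuation (m : Ω) = 1) (x : Ω) (hx : (u ^ m) x = x) : u x = x := by
  by_contra hne
  set δ : Ω := u x - x with hδ
  have hδ0 : δ ≠ 0 := sub_ne_zero.2 hne
  have h1 : ∀ k : ℕ, ∑ i ∈ Finset.range k, (u ^ i) δ = (u ^ k) x - x := by
    intro k
    induction k with
    | zero => rw [Finset.range_zero, Finset.sum_empty, pow_zero, AlgEquiv.one_apply, sub_self]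
    | succ k ih =>
      rw [Finset.sum_range_succ, ih, hδ, map_sub, pow_succ, AlgEquiv.mul_apply]
      ring
  have h2 : ∀ k : ℕ, V.valuation (∑ i ∈ Finset.range k, ((u ^ i) δ - δ)) < V.valuation δ := by
    intro k
    induction k with
    | zero =>
      rw [Finset.range_zero, Finset.sum_empty, map_zero]
      exact zero_lt_iff.2 ((V.valuation.ne_zero_iff).2 hδ0)
    | succ k ih =>
      rw [Finset.sum_range_succ]
      exact Valuation.map_add_lt _ ih (wild_pow V hu k δ hδ0)
  have h3 : ∑ i ∈ Finset.range m, ((u ^ i) δ - δ) = - ((m : Ω) * δ) := by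
    rw [Finset.sum_sub_distrib, h1 m, hx, sub_self, Finset.sum_const, Finset.card_range, nsmul_eq_mul, zero_sub]
  have h4 := h2 m
  rw [h3, Valuation.map_neg, map_mul, hm, one_mul] at h4
  exact lt_irrefl _ h4

/-- A power of u fixes L, L finite. -/
theorem pow_fix [Algebra.IsAlgebraic F Ω] (u : Ω ≃ₐ[F] Ω) (L : IntermediateField F Ω) [FiniteDimensional F L] :
    ∃ n : ℕ, 0 < n ∧ u ^ n ∈ L.fixingSubgroup := by
  classical
  let b := Module.finBasis F L
  have h1 : ∀ i, ∃ n : ℕ, 0 < n ∧ (u ^ n) ((b i : L) : Ω) = ((b i : L) : Ω) := fun i => nq_orb u _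
  choose n hn hb using h1
  refine ⟨∏ i, n i, Finset.prod_pos fun i _ => hn i, ?_⟩
  have h2 : ∀ i, (u ^ ∏ i, n i) ((b i : L) : Ω) = ((b i : L) : Ω) := by
    intro i
    obtain ⟨k, hk⟩ : n i ∣ ∏ i, n i := Finset.dvd_prod_of_mem _ (Finset.mem_univ i)
    rw [hk, pow_mul]
    have h3 : ∀ k : ℕ, ((u ^ n i) ^ k) ((b i : L) : Ω) = ((b i : L) : Ω) := by
      intro k
      induction k with
      | zero => rw [pow_zero, AlgEquiv.one_apply]
      | succ k ih => rw [pow_succ, AlgEquiv.mul_apply, hb, ih]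
    exact h3 k
  rw [IntermediateField.mem_fixingSubgroup_iff]
  intro x hx
  have h4 : (⟨x, hx⟩ : L) = ∑ i, (b.repr ⟨x, hx⟩) i • b i := (b.sum_repr _).symm
  have h5 : x = ∑ i, (b.repr ⟨x, hx⟩) i • ((b i : L) : Ω) := by
    calc x = L.val ⟨x, hx⟩ := rfl
      _ = L.val (∑ i, (b.repr ⟨x, hx⟩) i • b i) := by rw [← h4]
      _ = ∑ i, (b.repr ⟨x, hx⟩) i • ((b i : L) : Ω) := by
        rw [map_sum]
        exact Finset.sum_congr rfl fun i _ => map_smul _ _ _
  rw [h5, map_sum]
  refine Finset.sum_congr rfl fun i _ => ?_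
  rw [map_smul, h2]

/-- A power of a wild element, with exponent prime to p, fixes L. -/
theorem wild_coprime [Algebra.IsAlgebraic F Ω] (V : ValuationSubring Ω) {u : Ω ≃ₐ[F] Ω} (hu : Wild V u) {p : ℕ}
    (hp : p.Prime) (hV : V.valuation (p : Ω) = 1) (L : IntermediateField F Ω) [FiniteDimensional F L] :
    ∃ a : ℕ, ¬ p ∣ a ∧ u ^ a ∈ L.fixingSubgroup := by
  obtain ⟨n, hn, hfix⟩ := pow_fix u L
  obtain ⟨e, a, hpa, he⟩ := Nat.exists_eq_pow_mul_and_not_dvd hn.ne' p hp.ne_one
  refine ⟨a, hpa, ?_⟩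
  rw [IntermediateField.mem_fixingSubgroup_iff] at hfix ⊢
  intro x hx
  refine wild_fix V (wild_pow V hu a) (p ^ e) ?_ x ?_
  · rw [Nat.cast_pow, map_pow, hV, one_pow]
  · rw [← pow_mul, mul_comm, ← he]
    exact hfix x hx

end H55K.NB
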