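import Mathlib
import Pool.Agent.Lib.H55K.NA3
import Pool.Agent.Lib.H55K.NA4
import Pool.Agent.Lib.H55P.S1
import Pool.Agent.Lib.H55P.S5

/-! # H55K, part N: cocycles are trivial on the inertia group at a bad prime -/

open NumberField IsDedekindDomain WeierstrassCurve

namespace H55K.NB

open H55P

variable {F : Type} [Field F] [NumberField F] {Ω : Type} [Field Ω] [DecidableEq Ω] [Algebra F Ω]
  [IsAlgClosed Ω] [Algebra.IsAlgebraic F Ω] [CharZero Ω]

/-- If no p-torsion point is fixed by the inertia group of N at V (V(p) = 1) and the action on the p-torsion is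
commutative, then every continuous cocycle of N killed by p is a coboundary on inertia. -/
theorem inert_cob (W : WeierstrassCurve F) [W.IsElliptic] (p : ℕ) (hp : p.Prime) (N : IntermediateField F Ω)
    (V : ValuationSubring Ω) (hV : V.valuation (p : Ω) = 1)
    (hcomm : ∀ s ∈ N.fixingSubgroup, ∀ t ∈ N.fixingSubgroup, ∀ T : Pt W Ω, p • T = 0 →
      ac W s (ac W t T) = ac W t (ac W s T))
    (h0 : ∀ T : Pt W Ω, p • T = 0 → (∀ s ∈ N.fixingSubgroup, Inert V s → ac W s T = T) → T = 0)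
    (c : (Ω ≃ₐ[F] Ω) → Pt W Ω) (hc : Coc W N c) (hpc : ∀ s ∈ N.fixingSubgroup, p • c s = 0) :
    ∃ P : Pt W Ω, ∀ s ∈ N.fixingSubgroup, Inert V s → c s = ac W s P - P := by
  have hI : ∀ s : Ω ≃ₐ[F] Ω, s ∈ N.fixingSubgroup ⊓ inS F V ↔ s ∈ N.fixingSubgroup ∧ Inert V s := fun s => Iff.rfl
  have hMul : ∀ (a b : Ω ≃ₐ[F] Ω) (x : Pt W Ω), ac W (a * b) x = ac W a (ac W b x) := by
    intro a b x
    rw [← acR_apply, map_mul]
    rfl
  have hone : ∀ x : Pt W Ω, ac W 1 x = x := fun x => by rw [← acR_apply, map_one]; rfl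
  have hk : ∀ s ∈ N.fixingSubgroup ⊓ inS F V, ∀ t ∈ N.fixingSubgroup ⊓ inS F V, c (s * t * s⁻¹ * t⁻¹) = 0 := by
    intro s hs t ht
    obtain ⟨L, hLf, hL⟩ := hc.cont
    set u : Ω ≃ₐ[F] Ω := s * t * s⁻¹ * t⁻¹ with hu
    have huN : u ∈ N.fixingSubgroup := by
      exact mul_mem (mul_mem (mul_mem hs.1 ht.1) (inv_mem hs.1)) (inv_mem ht.1)
    have hw : Wild V u := wild_comm V s t hs.2 ht.2
    obtain ⟨a, hpa, hfix⟩ := wild_coprime V hw hp hV L
    -- u acts trivially on the p-torsion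
    have htriv : ∀ T : Pt W Ω, p • T = 0 → ac W u T = T := by
      intro T hT
      have q : ∀ g : Ω ≃ₐ[F] Ω, p • ac W g T = 0 := fun g => by rw [← map_nsmul, hT, map_zero]
      rw [hu, hMul, hMul, hMul, hcomm s hs.1 t ht.1 _ (by rw [← map_nsmul, q, map_zero]), ← hMul s s⁻¹,
        mul_inv_cancel, hone, ← hMul, mul_inv_cancel, hone]
    have hpow : ∀ k : ℕ, c (u ^ k) = k • c u := by
      intro k
      induction k with
      | zero =>
        rw [pow_zero, zero_smul]
        have h1 := hc.mul 1 (one_mem _) 1 (one_mem _)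
        rw [mul_one, hone] at h1
        exact left_eq_add.1 h1
      | succ k ih =>
        rw [pow_succ', hc.mul u huN _ (pow_mem huN k), htriv _ (hpc _ (pow_mem huN k)), ih, succ_nsmul']
    have h1 : a • c u = 0 := by
      rw [← hpow]
      exact hL _ (pow_mem huN a) hfix
    have h2 : p • c u = 0 := hpc u huN
    have hcop : IsCoprime (a : ℤ) (p : ℤ) := by
      rw [Nat.isCoprime_iff_coprime, Nat.coprime_comm]
      exact (Nat.Prime.coprime_iff_not_dvd hp).2 hpa
    obtain ⟨x, y, hxy⟩ := hcop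
    have h3 : (1 : ℤ) • c u = 0 := by
      rw [← hxy, add_smul, mul_smul, mul_smul, natCast_zsmul, natCast_zsmul, h1, h2, smul_zero, smul_zero, add_zero]
    rwa [one_smul] at h3
  obtain ⟨P, -, hP⟩ := sah (acR W) p (tors_fin (Ω := Ω) W p hp.pos) (N.fixingSubgroup ⊓ inS F V)
    (fun s hs t ht T hT => hcomm s hs.1 t ht.1 T hT)
    (fun T hT h => h0 T hT fun s hs hi => h s ⟨hs, hi⟩) c
    (fun s hs t ht => hc.mul s hs.1 t ht.1) (fun s hs => hpc s hs.1) hk
  exact ⟨P, fun s hs hi => hP s ⟨hs, hi⟩⟩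

end H55K.NB
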