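import Mathlib
import Pool.Agent.Lib.H55P.S14
import Pool.Agent.Lib.H55K.NA2
import Pool.Agent.Lib.H55K.NA5

/-! # H55K, part N: the tower theorem with bad ramified primes -/

open NumberField IsDedekindDomain WeierstrassCurve

namespace H55K.NB

open H55P

variable {F : Type} [Field F] [NumberField F] {Ω : Type} [Field Ω] [DecidableEq Ω] [Algebra F Ω]
  [IsAlgClosed Ω] [Algebra.IsAlgebraic F Ω] [CharZero Ω]

/-- As H55P.sel_tower, but bad primes without p-torsion fixed by inertia may be ramified. -/
theorem sel_towerB (W₀ : WeierstrassCurve (𝓞 F)) [(W₀⁄F).IsElliptic] (p : ℕ) (hp : p.Prime)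
    (M L : IntermediateField F Ω) (hL : PExt p M L)
    (h0 : ∀ T : Pt (W₀⁄F) Ω, p • T = 0 → (∀ s ∈ M.fixingSubgroup, ac (W₀⁄F) s T = T) → T = 0)
    (hcomm : ∀ s ∈ M.fixingSubgroup, ∀ t ∈ M.fixingSubgroup, ∀ T : Pt (W₀⁄F) Ω, p • T = 0 →
      ac (W₀⁄F) s (ac (W₀⁄F) t T) = ac (W₀⁄F) t (ac (W₀⁄F) s T))
    (hram : ∀ v : HeightOneSpectrum (𝓞 M), Ram M L v.asIdeal → (p : 𝓞 M) ∉ v.asIdeal ∧
      ((algebraMap (𝓞 F) (𝓞 M) W₀.Δ ∉ v.asIdeal ∧
        ¬ p ∣ Nat.card (W₀⁄(𝓞 M ⧸ v.asIdeal)).toAffine.Point) ∨
      ∀ V : ValuationSubring Ω, Below V M v.asIdeal → ∀ T : Pt (W₀⁄F) Ω, p • T = 0 →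
        (∀ s ∈ L.fixingSubgroup, Inert V s → ac (W₀⁄F) s T = T) → T = 0))
    (hS : SelZero (W₀⁄F) p M) (K : IntermediateField F Ω) (hMK : M ≤ K) (hKL : K ≤ L) :
    SelZero (W₀⁄F) p K := by
  have hLf : FiniteDimensional F L := hL.fin
  have hMf : FiniteDimensional F M :=
    (Module.Finite.of_injective (IntermediateField.inclusion hL.le).toLinearMap
      (IntermediateField.inclusion hL.le).injective)
  obtain ⟨k, hk⟩ := hL.pow p hp M L
  have hconj : ∀ s ∈ M.fixingSubgroup, ∀ t ∈ L.fixingSubgroup, s * t * s⁻¹ ∈ L.fixingSubgroup :=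
    fun s hs t ht => hL.conj p M L s hs t ht
  have hfin := tors_fin (Ω := Ω) (W₀⁄F) p hp.pos
  -- no torsion over L
  have htL : ∀ T : Pt (W₀⁄F) Ω, p • T = 0 → (∀ s ∈ L.fixingSubgroup, ac (W₀⁄F) s T = T) → T = 0 := by
    intro T hT hf
    exact fix_up (acR (W₀⁄F)) p hp hfin L.fixingSubgroup M.fixingSubgroup
      (fun s hs => fixing_anti hL.le hs) hconj k hk h0 T hT hf
  induction hn : Module.finrank F K using Nat.strong_induction_on generalizing K with
  | _ n ih =>
    rcases eq_or_ne K M with rfl | hne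
    · exact hS
    obtain ⟨N, hMN, hNK, hdeg, hnorm⟩ := chain_step p hp M K L hL hMK hKL hne
    have hKf : FiniteDimensional F K :=
      (Module.Finite.of_injective (IntermediateField.inclusion hKL).toLinearMap
        (IntermediateField.inclusion hKL).injective)
    have hNf : FiniteDimensional F N :=
      (Module.Finite.of_injective (IntermediateField.inclusion hNK).toLinearMap
        (IntermediateField.inclusion hNK).injective)
    have hNpos : 0 < Module.finrank F N := Module.finrank_pos
    have hlt : Module.finrank F N < n := by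
      rw [← hn, hdeg]
      exact lt_mul_of_one_lt_right hNpos hp.one_lt
    have hSN := ih _ hlt N hMN (hNK.trans hKL) rfl
    refine sel_stepB (W₀⁄F) p hp N K hNK hnorm hdeg
      (fun T hT hf => htL T hT fun s hs => hf s (fixing_anti hKL hs)) (fun V => ?_) hSN
    rcases below_cases M V with ⟨v, hv⟩ | htriv
    · by_cases hr : Ram M L v.asIdeal
      · right
        obtain ⟨hpv, ⟨hΔ, hc⟩ | hbad⟩ := hram v hr
        swap
        · right
          intro c hc hpc
          exact inert_cob (W₀⁄F) p hp N V (val_below M V v hv p hpv)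
            (fun s hs t ht T hT => hcomm s (fixing_anti hMN hs) t (fixing_anti hMN ht) T hT)
            (fun T hT hf => hbad V hv T hT fun s hs hi => hf s (fixing_anti (hNK.trans hKL) hs) hi) c hc hpc
        left
        refine ⟨fun s _ hI P hP => ?_, fun T hT hf => ?_⟩
        · exact red_fix (W₀⁄F) V (good_below W₀ M V v hv hΔ) p (val_below M V v hv p hpv) s hI P hP
        · refine fix_up (acR (W₀⁄F)) p hp hfin (L.fixingSubgroup ⊓ decS F V)
            (M.fixingSubgroup ⊓ decS F V) ?_ ?_ k ?_ ?_ T hT ?_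
          · exact inf_le_inf_right _ fun s hs => fixing_anti hL.le hs
          · intro s hs t ht
            exact ⟨hconj s hs.1 t ht.1,
              (decS F V).mul_mem ((decS F V).mul_mem hs.2 ht.2) ((decS F V).inv_mem hs.2)⟩
          · intro s hs
            exact ⟨hk s hs.1, (decS F V).pow_mem hs.2 _⟩
          · intro T' hT' hf'
            exact fix_local W₀ p hp M V v hv hΔ hpv hc T' hT' fun s hs hd => hf' s ⟨hs, hd⟩
          · intro s hs
            exact hf s (fixing_anti (hNK.trans hKL) hs.1) hs.2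
      · left
        intro s hs hI
        refine fixing_anti hKL (inert_mem M L hL.le hL.norm V ?_ s (fixing_anti hMN hs) hI)
        intro v' hv' hr'
        apply hr
        have : v' = v := by
          apply HeightOneSpectrum.ext
          ext x
          rw [hv' x, hv x]
        rwa [← this]
    · left
      intro s _ hI
      rw [htriv s hI]
      exact one_mem _

end H55K.NB
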