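import Mathlib
import Pool.Agent.Lib.H55K.BH1
import Pool.Agent.Lib.H55K.MM
import Pool.Agent.Lib.H55K.T11A
import Pool.Agent.Lib.H55K.T8
import Pool.Agent.Lib.H55K.T9C

/-! # H55K: no p-torsion fixed by inertia at a bad prime -/

open NumberField IsDedekindDomain WeierstrassCurve

namespace H55K.TQ

open H55P (IQ embF eF LF Per IsHecke Pt ac Inert Dec Nm UnitP)
open H35P (WAB Ker tt GoodW IntW)
open H55K.MG (VC Crd)

variable {F : Type} [Field F] [NumberField F] [IQ F] {W₀ : WeierstrassCurve (𝓞 F)} {Om : ℂ}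
    {m : Ideal (𝓞 F)} {ψ : Ideal (𝓞 F) →*₀ 𝓞 F} {p : ℕ}

open Classical in
/-- Chunk T11B (M). Transport to WAB A B (an isomorphism of the groups of points over Ω commuting with ac: vc_short, MG.vc_iso, or PS4_iso in H55P/S4.lean, or H55K/Y6.lean sel_short for the style). Suppose T ≠ 0. By fix_from_one (exists_gmod in MM.lean; V(p) = 1 because v contains Δ, so not p) every s in K.fixingSubgroup with Inert V s fixes all points killed by p. As in T8 (good_down):
for g with Inert V g, g^(p^k) is in L.fixingSubgroup (pow_fix), so in K.fixingSubgroup, and inertial; it fixes the points killed by p; fix_all: g does. nos_up, descent, good_of_V: GoodAt (W₀⁄F) v, against hH.bad. -/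
theorem bad_tors (hH : BaseH F W₀ Om m ψ) (hp : PrimeH F W₀ p) {L K : IntermediateField F (AlgebraicClosure F)}
    (hL : H55P.PExt p ⊥ L) (hK : K ≤ L) {V : ValuationSubring (AlgebraicClosure F)} {v : HeightOneSpectrum (𝓞 F)}
    (hv : ∀ a : 𝓞 F, a ∈ v.asIdeal → V.valuation (ak (AlgebraicClosure F) a) < 1) (hΔ : W₀.Δ ∈ v.asIdeal)
    (T : Pt (W₀⁄F) (AlgebraicClosure F)) (hT : p • T = 0)
    (hf : ∀ s ∈ K.fixingSubgroup, Inert V s → ac (W₀⁄F) s T = T) : T = 0 := by
  obtain ⟨A, hA⟩ : ∃ A : F, A = -(algebraMap (𝓞 F) F W₀.c₄) / 48 := ⟨_, rfl⟩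
  obtain ⟨B, hB⟩ : ∃ B : F, B = -(algebraMap (𝓞 F) F W₀.c₆) / 864 := ⟨_, rfl⟩
  have hell := hH.data.ell
  have hd := y3_ne W₀ hA hB hell
  obtain ⟨j, hj⟩ := exists_j F (AlgebraicClosure F)
  have hper : Per F (embF F A) (embF F B) Om := by
    have e1 : embF F A = -(eF F W₀.c₄) / 48 := by
      rw [hA, map_div₀, map_neg, map_ofNat]
      rfl
    have e2 : embF F B = -(eF F W₀.c₆) / 864 := by
      rw [hB, map_div₀, map_neg, map_ofNat]
      rfl
    rw [e1, e2]
    exact hH.data.per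
  obtain ⟨act, hC⟩ := exists_CMA F A B Om j hd hper hj
  have hjint := jint_of hH.data.per hell
  obtain ⟨Kg, u, hG⟩ := exists_gmod (Ω := AlgebraicClosure F) hd (y3_j W₀ hA hB hjint) V
  have hunr := (unr_iff hp.prime).1 hp.unr
  have hpv : (p : 𝓞 F) ∉ v.asIdeal := by
    intro hpv
    obtain ⟨x, hx, y, hy, hxy⟩ := Ideal.isCoprime_iff_exists.1 hp.cop
    have h1 : x ∈ v.asIdeal := (Ideal.span_singleton_le_iff_mem _).2 hΔ hx
    have h2 : y ∈ v.asIdeal := (Ideal.span_singleton_le_iff_mem _).2 hpv hy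
    have h3 : (1 : 𝓞 F) ∈ v.asIdeal := hxy ▸ add_mem h1 h2
    exact v.isPrime.ne_top ((Ideal.eq_top_iff_one _).2 h3)
  have hVp : V.valuation (p : AlgebraicClosure F) = 1 := by
    have h1 := t8_val hv hpv
    have e : ak (AlgebraicClosure F) ((p : ℕ) : 𝓞 F) = (p : AlgebraicClosure F) := by
      have e1 : (((p : ℕ) : 𝓞 F) : F) = (p : F) := map_natCast (algebraMap (𝓞 F) F) p
      unfold ak
      rw [e1, map_natCast]
    rwa [e] at h1
  have hΔA : (WAB A B).Δ ≠ 0 := by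
    have e : (WAB A B).Δ = -16 * (4 * A ^ 3 + 27 * B ^ 2) := by
      unfold WAB WeierstrassCurve.Δ WeierstrassCurve.b₂ WeierstrassCurve.b₄ WeierstrassCurve.b₆ WeierstrassCurve.b₈
      ring
    rw [e]
    exact mul_ne_zero (by norm_num) hd
  obtain ⟨r, s, t, hVC⟩ := vc_short W₀ hA hB
  have hVC' := vc_map (algebraMap F (AlgebraicClosure F)) hVC
  have hΔ1 : ((WAB A B).map (algebraMap F (AlgebraicClosure F))).Δ ≠ 0 := by
    rw [WeierstrassCurve.map_Δ]
    exact (map_ne_zero _).2 hΔA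
  have hΔ2 : ((W₀⁄F).map (algebraMap F (AlgebraicClosure F))).Δ ≠ 0 := by
    have e : (W₀⁄F).Δ = algebraMap (𝓞 F) F W₀.Δ := WeierstrassCurve.map_Δ _ _
    rw [WeierstrassCurve.map_Δ, e]
    refine (map_ne_zero _).2 fun h1 => hell ?_
    exact (map_eq_zero_iff _ (FaithfulSMul.algebraMap_injective (𝓞 F) F)).1 h1
  obtain ⟨Θ, hΘ⟩ : ∃ Θ : Pt (WAB A B) (AlgebraicClosure F) ≃+ Pt (W₀⁄F) (AlgebraicClosure F),
      Crd (algebraMap F (AlgebraicClosure F) 1) (algebraMap F (AlgebraicClosure F) r)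
        (algebraMap F (AlgebraicClosure F) s) (algebraMap F (AlgebraicClosure F) t) Θ := MG.vc_iso hVC' hΔ1 hΔ2
  have hcom : ∀ (g : AlgebraicClosure F ≃ₐ[F] AlgebraicClosure F) (P : Pt (WAB A B) (AlgebraicClosure F)),
      ac (W₀⁄F) g (Θ P) = Θ (ac (WAB A B) g P) := by
    intro g P
    by_cases hP : P = 0
    · subst hP
      rw [map_zero, map_zero, map_zero, map_zero]
    · obtain ⟨a1, a2, a3⟩ := hΘ P hP
      obtain ⟨b1, b2, b3⟩ := MG.ac_crd (W := WAB A B) g P
      have hP' : ac (WAB A B) g P ≠ 0 := fun h => hP (b3.1 h)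
      obtain ⟨c1, c2, c3⟩ := hΘ _ hP'
      obtain ⟨d1, d2, d3⟩ := MG.ac_crd (W := W₀⁄F) g (Θ P)
      have e2 := congrArg g a2
      have e3 := congrArg g a3
      simp only [map_add, map_mul, map_pow, map_one, AlgEquiv.commutes, one_pow, one_mul, mul_one] at e2 e3 c2 c3
      have f2 : xc (ac (W₀⁄F) g (Θ P)) = xc (Θ (ac (WAB A B) g P)) := by
        rw [d1]
        linear_combination c2 - e2 - b1
      refine pt_ext (fun h => a1 (d3.1 h)) c1 f2 ?_
      rw [d2]
      rw [d1] at f2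
      linear_combination c3 - e3 - b2 - (algebraMap F (AlgebraicClosure F) s) * f2
  by_contra h0
  obtain ⟨T', hT'⟩ := Θ.surjective T
  have hT0 : T' ≠ 0 := by
    rintro rfl
    exact h0 (by rw [← hT', map_zero])
  have hTp : p • T' = 0 := by
    apply Θ.injective
    rw [map_nsmul, hT', hT, map_zero]
  obtain ⟨k, hk⟩ := pow_fix hL
  have hfix : ∀ g : AlgebraicClosure F ≃ₐ[F] AlgebraicClosure F, Inert V g →
      ∀ P : Pt (WAB A B) (AlgebraicClosure F), p • P = 0 → ac (WAB A B) g P = P := by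
    intro g hg P hP
    refine fix_all hC hp.prime hunr g (k := k) ?_ P hP
    intro P hP
    have hI : Inert V (g ^ (p ^ k)) := by
      have h1 : g ∈ H55P.inS F V := hg
      exact pow_mem h1 (p ^ k)
    refine fix_from_one hC hG hp.prime hp.five hVp (g ^ (p ^ k)) hI hTp hT0 ?_ P hP
    apply Θ.injective
    rw [← hcom, hT']
    refine hf _ ?_ hI
    exact (IntermediateField.mem_fixingSubgroup_iff K _).2 fun x hx =>
      (IntermediateField.mem_fixingSubgroup_iff L _).1 (hk g) x (hK hx)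
  obtain ⟨j₀, hj₀⟩ := hjint
  obtain ⟨j₁, hj₁⟩ := y3_j W₀ hA hB ⟨j₀, hj₀⟩
  have hc4 : (WAB A B).c₄ ^ 3 = (j₁ : F) * (WAB A B).Δ := by
    have e1 : (WAB A B).Δ = -16 * (4 * A ^ 3 + 27 * B ^ 2) := by
      unfold WAB WeierstrassCurve.Δ WeierstrassCurve.b₂ WeierstrassCurve.b₄ WeierstrassCurve.b₆ WeierstrassCurve.b₈
      ring
    have e2 : (WAB A B).c₄ = -48 * A := by
      unfold WAB WeierstrassCurve.c₄ WeierstrassCurve.b₂ WeierstrassCurve.b₄
      ring
    rw [e1, e2]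
    linear_combination (16 : F) * hj₁
  have hjj : ((WAB A B)⁄(AlgebraicClosure F)).c₄ ^ 3 = ak (AlgebraicClosure F) j₁ * ((WAB A B)⁄(AlgebraicClosure F)).Δ := by
    have e1 : ((WAB A B)⁄(AlgebraicClosure F)).c₄ = algebraMap F (AlgebraicClosure F) (WAB A B).c₄ :=
      WeierstrassCurve.map_c₄ _ _
    have e2 : ((WAB A B)⁄(AlgebraicClosure F)).Δ = algebraMap F (AlgebraicClosure F) (WAB A B).Δ :=
      WeierstrassCurve.map_Δ _ _
    rw [e1, e2, ← map_pow, hc4, map_mul]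
  have hdes := descent hv (nos_up hΔA (t8_le V j₁) hjj hp.prime hp.five hVp hTp hT0
    (fun g hg => hfix g hg T' hTp))
  exact hH.bad v hΔ (good_of_V W₀ hA hB v hv hdes)

end H55K.TQ
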