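import Mathlib
import Pool.Agent.Lib.H35P.B1
import Pool.Agent.Lib.H35P.Red
import Pool.Agent.Lib.H55K.D1
import Pool.Agent.Lib.H55P.EDef
import Pool.Agent.Lib.H55P.Sel
import Pool.Agent.Lib.H55P.TD

/-! # H55K: a good prime exists -/

open NumberField IsDedekindDomain WeierstrassCurve

namespace H55K

open H55P (IQ embF eF LF Per IsHecke Pt ac Inert Dec Nm)
open H35P (WAB Ker tt)


variable {F : Type} [Field F] [NumberField F] [IQ F]

/-- Chunk Y7A (M), arithmetic. δ in 𝓞 F with δ^2 = -D, D a positive integer prime to p: take x in 𝓞 F with eF F x not real (F0_im), t = x + cj x and n = x * cj x are integers (t: e.g. Algebra.trace, or t is fixed by cj and 𝓞 F has rank 2), δ = 2x - t, δ^2 = t^2 - 4n < 0 (eF F δ is purely imaginary, not 0). Divide δ by powers of p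
(p^2 | D: (δ/p)^2 is an integer, so δ/p is integral). If p divides D exactly once: a prime v containing p contains δ (δ^2 in v), D = p D', p not dividing D': p D' = - δ^2 in v^2, D' is a unit modulo v, so p is in v^2: contradiction to hunr. -/
theorem exists_delta (F : Type) [Field F] [NumberField F] [IQ F] {p : ℕ} (hp : p.Prime)
    (hunr : ∀ v : HeightOneSpectrum (𝓞 F), (p : 𝓞 F) ∉ v.asIdeal ^ 2) : ∃ (D : ℕ) (δ : 𝓞 F), 0 < D ∧ ¬ p ∣ D ∧
      δ ^ 2 = -(D : 𝓞 F) := by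
  classical
  have hex : ∃ D : ℕ, 0 < D ∧ ∃ δ : 𝓞 F, δ ^ 2 = -(D : 𝓞 F) := by
    obtain ⟨x, hx⟩ := H55P.F0_im (F := F)
    have h0 : x - cj x ≠ 0 := by
      intro h
      have h1 : x = cj x := sub_eq_zero.1 h
      have h2 := congrArg (eF F) h1
      rw [e_cj] at h2
      exact hx (Complex.conj_eq_iff_im.1 h2.symm)
    refine ⟨Nm (x - cj x), Nat.pos_of_ne_zero fun h => h0 (H55P.Nm_eq_zero.1 h), x - cj x, ?_⟩
    rw [← mul_cj, map_sub, cj_cj]
    ring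
  obtain ⟨hD, δ, hδ⟩ := Nat.find_spec hex
  have hmin := fun m => @Nat.find_min _ _ hex m
  set D := Nat.find hex with hDdef
  have hpF : (p : F) ≠ 0 := Nat.cast_ne_zero.2 hp.ne_zero
  have hpO : (p : 𝓞 F) ≠ 0 := Nat.cast_ne_zero.2 hp.ne_zero
  have hsq : ¬ p ^ 2 ∣ D := by
    rintro ⟨E, hE⟩
    have hE0 : 0 < E := by
      rcases Nat.eq_zero_or_pos E with h | h
      · rw [h, mul_zero] at hE
        omega
      · exact h
    have hlt : E < D := by
      rw [hE]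
      have h1 : 1 < p ^ 2 := Nat.one_lt_pow two_ne_zero hp.one_lt
      nlinarith
    apply hmin E hlt
    have hint : IsIntegral ℤ ((δ : F) / (p : F)) := by
      have h1 : ((δ : F) / (p : F)) ^ 2 = -(E : F) := by
        have h2 : ((δ ^ 2 : 𝓞 F) : F) = ((-(D : 𝓞 F) : 𝓞 F) : F) := congrArg _ hδ
        have h3 : (δ : F) ^ 2 = -((p : F) ^ 2 * (E : F)) := by
          have h4 : (δ : F) ^ 2 = -(D : F) := by simpa using h2
          rw [h4, hE]
          push_cast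
          ring
        rw [div_pow, h3, neg_div, mul_div_cancel_left₀ _ (pow_ne_zero 2 hpF)]
      apply IsIntegral.of_pow (n := 2) (by norm_num)
      rw [h1]
      exact (isIntegral_natCast E).neg
    obtain ⟨ε, hε⟩ : ∃ ε : 𝓞 F, algebraMap (𝓞 F) F ε = (δ : F) / (p : F) := ⟨⟨_, hint⟩, rfl⟩
    refine ⟨hE0, ε, ?_⟩
    apply RingOfIntegers.coe_injective
    have h1 : ((δ : F) / (p : F)) ^ 2 = -(E : F) := by
      have h2 : ((δ ^ 2 : 𝓞 F) : F) = ((-(D : 𝓞 F) : 𝓞 F) : F) := congrArg _ hδ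
      have h3 : (δ : F) ^ 2 = -((p : F) ^ 2 * (E : F)) := by
        have h4 : (δ : F) ^ 2 = -(D : F) := by simpa using h2
        rw [h4, hE]
        push_cast
        ring
      rw [div_pow, h3, neg_div, mul_div_cancel_left₀ _ (pow_ne_zero 2 hpF)]
    rw [map_pow, hε, h1, map_neg, map_natCast]
  refine ⟨D, δ, hD, ?_, hδ⟩
  rintro ⟨E, hE⟩
  have hpE : ¬ p ∣ E := by
    rintro ⟨G, hG⟩
    exact hsq ⟨G, by rw [hE, hG]; ring⟩
  have htop : Ideal.span {(p : 𝓞 F)} ≠ ⊤ := by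
    intro h
    have h1 : Nm (p : 𝓞 F) = 1 := by
      unfold H55P.Nm
      rw [h, Ideal.absNorm_top]
    rw [Nm_nat] at h1
    have h2 : 1 < p ^ 2 := Nat.one_lt_pow two_ne_zero hp.one_lt
    omega
  obtain ⟨M, hM, hle⟩ := Ideal.exists_le_maximal _ htop
  have hpM : (p : 𝓞 F) ∈ M := hle (Ideal.mem_span_singleton_self _)
  have hMb : M ≠ ⊥ := by
    rintro rfl
    exact hpO ((Submodule.mem_bot _).1 hpM)
  let v : HeightOneSpectrum (𝓞 F) := ⟨M, hM.isPrime, hMb⟩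
  apply hunr v
  have h1 : δ ^ 2 = -((p : 𝓞 F) * (E : 𝓞 F)) := by
    rw [hδ, hE]
    push_cast
    ring
  have h2 : δ ∈ v.asIdeal := by
    apply v.isPrime.mem_of_pow_mem 2
    rw [h1]
    exact neg_mem (Ideal.mul_mem_right _ _ hpM)
  have h3 : (p : 𝓞 F) * (E : 𝓞 F) ∈ v.asIdeal ^ 2 := by
    have h4 : δ ^ 2 ∈ v.asIdeal ^ 2 := Ideal.pow_mem_pow h2 2
    rw [h1] at h4
    exact neg_mem_iff.1 h4
  have h5 : (p : 𝓞 F) ^ 2 ∈ v.asIdeal ^ 2 := Ideal.pow_mem_pow hpM 2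
  have hcop : IsCoprime (E : ℤ) (p : ℤ) := by
    rw [Nat.isCoprime_iff_coprime]
    exact ((Nat.Prime.coprime_iff_not_dvd hp).2 hpE).symm
  obtain ⟨a, b, hab⟩ := hcop
  have h6 : (a : 𝓞 F) * (E : 𝓞 F) + (b : 𝓞 F) * (p : 𝓞 F) = 1 := by
    exact_mod_cast congrArg (fun z : ℤ => (z : 𝓞 F)) hab
  have h7 : (p : 𝓞 F) = (a : 𝓞 F) * ((p : 𝓞 F) * (E : 𝓞 F)) + (b : 𝓞 F) * (p : 𝓞 F) ^ 2 := by
    linear_combination (-(p : 𝓞 F)) * h6
  rw [h7]
  exact add_mem (Ideal.mul_mem_left _ _ h3) (Ideal.mul_mem_left _ _ h5)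

end H55K
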