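import Mathlib
import Pool.Agent.Lib.H55K.Y7A
import Pool.Agent.Lib.H55K.Y7B
import Pool.Agent.Lib.H55P.TD

/-! # H55K: a good prime exists -/

open NumberField IsDedekindDomain WeierstrassCurve

namespace H55K

open H55P (IQ embF eF LF Per IsHecke Pt ac Inert Dec Nm)
open H35P (WAB Ker tt)


variable {F : Type} [Field F] [NumberField F] [IQ F]

theorem y7c_cop {l : ℕ} (hl : l.Prime) {μ : 𝓞 F} (hc : IsCoprime μ (l : 𝓞 F)) : Nat.Coprime (Nm μ) l := by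
  rw [Nat.coprime_comm, Nat.Prime.coprime_iff_not_dvd hl]
  intro hd
  have h1 : IsCoprime (cj μ) (l : 𝓞 F) := by
    obtain ⟨u, w, huw⟩ := hc
    refine ⟨cj u, cj w, ?_⟩
    have h2 := congrArg cj huw
    rwa [map_add, map_mul, map_mul, map_one, cj_nat] at h2
  have h2 : IsCoprime (μ * cj μ) (l : 𝓞 F) := IsCoprime.mul_left hc h1
  rw [mul_cj] at h2
  obtain ⟨k, hk⟩ := hd
  rw [hk, Nat.cast_mul] at h2
  have h3 : IsUnit (l : 𝓞 F) := isCoprime_self.1 (IsCoprime.of_mul_left_left h2)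
  obtain ⟨x, hx⟩ := h3.exists_right_inv
  have h4 : Nm ((l : 𝓞 F) * x) = Nm ((1 : ℕ) : 𝓞 F) := by rw [hx, Nat.cast_one]
  rw [Nm_mul, Nm_nat, Nm_nat, one_pow] at h4
  have h5 : l ^ 2 ∣ 1 := ⟨_, h4.symm⟩
  have h6 := hl.two_le
  have h7 := Nat.le_of_dvd one_pos h5
  nlinarith

/-- A prime in two progressions. -/
theorem y7c_q {N p : ℕ} (hN : 0 < N) (hp : p.Prime) (h5 : 5 ≤ p) (hc : Nat.Coprime N p) (X : ℕ) :
    ∃ q : ℕ, q.Prime ∧ X < q ∧ (∃ k, q + 1 = N * k) ∧ ∃ k, q = 2 + p * k := by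
  obtain ⟨a, ha1, ha2⟩ := Nat.chineseRemainder hc (N - 1) 2
  have ha3 : Nat.Coprime a (N * p) := by
    refine Nat.Coprime.mul_right ?_ ?_
    · rw [Nat.coprime_iff_gcd_eq_one, ha1.gcd_eq]
      obtain ⟨n, rfl⟩ : ∃ n, N = n + 1 := ⟨N - 1, by omega⟩
      rw [Nat.add_sub_cancel, Nat.gcd_self_add_right, Nat.gcd_one_right]
    · rw [Nat.coprime_iff_gcd_eq_one, ha2.gcd_eq]
      rw [← Nat.coprime_iff_gcd_eq_one, Nat.coprime_primes Nat.prime_two hp]
      omega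
  have hne : N * p ≠ 0 := Nat.mul_ne_zero hN.ne' hp.ne_zero
  obtain ⟨q, hq1, hq2, hq3⟩ := Nat.forall_exists_prime_gt_and_modEq (max X 2) hne ha3
  have hX : X < q := (le_max_left _ _).trans_lt hq1
  have h2 : 2 < q := (le_max_right _ _).trans_lt hq1
  refine ⟨q, hq2, hX, ?_, ?_⟩
  · have h3 : q + 1 ≡ N - 1 + 1 [MOD N] := ((hq3.of_mul_right p).trans ha1).add_right 1
    rw [Nat.sub_add_cancel hN] at h3
    have h4 : q + 1 ≡ 0 [MOD N] := h3.trans (by rw [Nat.ModEq, Nat.mod_self, Nat.zero_mod])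
    exact (Nat.modEq_zero_iff_dvd).1 h4
  · have h3 : 2 ≡ q [MOD p] := ((hq3.of_mul_left N).trans ha2).symm
    obtain ⟨k, hk⟩ := (Nat.modEq_iff_dvd' h2.le).1 h3
    exact ⟨k, by omega⟩

/-- Chunk Y7C (M). M = Nm μ, m = span {μ} (instPIDF), μ ≠ 0. p is prime to 4 D M: M as in UB1B (m coprime to p). Chinese remainder theorem and Dirichlet's theorem (Nat.forall_exists_prime_gt_and_eq_mod or Nat.setOf_prime_and_eq_mod_infinite): a prime q with q congruent to -1 modulo 4 D M, to 2 modulo p, q > p and q > Nm Δ. v₀ = (q) (inert_q), prime to m (q congruent to -1 modulo M, M in m) and to Δ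
(if Δ = q z then Nm Δ = q^2 Nm z > Nm Δ) and to p. per with x = q, y = -1: ψ (span {q}) * (-1) = ψ (span {-1}) * q = q (span {-1} = top, map_one), so 1 - ψ = 1 + q, Nm (1 + q) = (1+q)^2 congruent to 9 modulo p. -/
theorem good_q (F : Type) [Field F] [NumberField F] [IQ F] {p : ℕ} (hp : p.Prime) (h5 : 5 ≤ p)
    (hunr : ∀ v : HeightOneSpectrum (𝓞 F), (p : 𝓞 F) ∉ v.asIdeal ^ 2) {m : Ideal (𝓞 F)}
    {ψ : Ideal (𝓞 F) →*₀ 𝓞 F} (hψ : IsHecke m ψ) (hcop : IsCoprime m (Ideal.span {(p : 𝓞 F)}))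
    (Δ : 𝓞 F) (hΔ : Δ ≠ 0) : ∃ v : HeightOneSpectrum (𝓞 F), Δ ∉ v.asIdeal ∧ ¬ m ≤ v.asIdeal ∧
      (p : 𝓞 F) ∉ v.asIdeal ∧ ¬ p ∣ Nm (1 - ψ v.asIdeal) := by
  obtain ⟨D, δ, hD, hpD, hδ⟩ := exists_delta F hp hunr
  obtain ⟨μ, hμ'⟩ := (IsPrincipalIdealRing.principal m).principal
  have hμ : Ideal.span {μ} = m := hμ'.symm
  have hμ0 : μ ≠ 0 := by
    rintro rfl
    apply hψ.ne
    rw [← hμ]
    simp
  have hcM : Nat.Coprime (Nm μ) p := by
    apply y7c_cop hp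
    have h1 := hcop
    rwa [← hμ, Ideal.isCoprime_span_singleton_iff] at h1
  have hNm : 0 < Nm μ := Nat.pos_of_ne_zero fun h0 => hμ0 (H55P.Nm_eq_zero.1 h0)
  have hN : 0 < 4 * D * Nm μ := by positivity
  have hc4 : Nat.Coprime 4 p := by
    have h2 : Nat.Coprime 2 p := (Nat.coprime_primes Nat.prime_two hp).2 (by omega)
    exact Nat.Coprime.mul_left h2 h2
  have hcD : Nat.Coprime D p := Nat.coprime_comm.1 ((Nat.Prime.coprime_iff_not_dvd hp).2 hpD)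
  have hc : Nat.Coprime (4 * D * Nm μ) p := Nat.Coprime.mul_left (Nat.Coprime.mul_left hc4 hcD) hcM
  obtain ⟨q, hq, hX, ⟨k, hk⟩, ⟨k', hk'⟩⟩ := y7c_q hN hp h5 hc (max p (Nm Δ))
  have hqp : p < q := (le_max_left _ _).trans_lt hX
  have hqΔ : Nm Δ < q := (le_max_right _ _).trans_lt hX
  have hm : q % (4 * D) = 4 * D - 1 := by
    have e : q + 1 = (4 * D) * (Nm μ * k) := by rw [hk]; ring
    have h1 : 0 < Nm μ * k := by
      rcases Nat.eq_zero_or_pos (Nm μ * k) with h | h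
      · rw [h, mul_zero] at e
        omega
      · exact h
    obtain ⟨j, hj⟩ := Nat.exists_eq_add_of_lt h1
    have e2 : q = (4 * D - 1) + (4 * D) * j := by
      have : q + 1 = (4 * D) * (j + 1) := by rw [e, hj]; ring
      have h4 : 0 < 4 * D := by omega
      have : q + 1 = 4 * D * j + 4 * D := by rw [this]; ring
      omega
    rw [e2, Nat.add_mul_mod_self_left, Nat.mod_eq_of_lt (by omega)]
  have hprime := inert_q hD hδ hq hm
  have hq0 : (q : 𝓞 F) ≠ 0 := Nat.cast_ne_zero.2 hq.ne_zero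
  let v : HeightOneSpectrum (𝓞 F) := ⟨Ideal.span {(q : 𝓞 F)}, (Ideal.span_singleton_prime hq0).2 hprime, by
    rwa [Ne, Ideal.span_singleton_eq_bot]⟩
  have hv : v.asIdeal = Ideal.span {(q : 𝓞 F)} := rfl
  have hqm : (q : 𝓞 F) + 1 ∈ m := by
    have e : (q : 𝓞 F) + 1 = μ * (cj μ * (4 * D * k : ℕ)) := by
      have h1 : ((q + 1 : ℕ) : 𝓞 F) = ((4 * D * Nm μ * k : ℕ) : 𝓞 F) := by rw [hk]
      push_cast at h1 ⊢
      rw [h1, ← mul_cj]
      ring
    rw [e, ← hμ]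
    exact Ideal.mul_mem_right _ _ (Ideal.mem_span_singleton_self μ)
  refine ⟨v, ?_, ?_, ?_, ?_⟩
  · rw [hv, Ideal.mem_span_singleton]
    rintro ⟨z, rfl⟩
    rw [Nm_mul, Nm_nat] at hqΔ
    have hz : Nm z ≠ 0 := fun h => by
      rw [H55P.Nm_eq_zero] at h
      apply hΔ
      rw [h, mul_zero]
    have h2 : 1 ≤ Nm z := Nat.one_le_iff_ne_zero.2 hz
    nlinarith [hq.two_le]
  · intro h
    rw [hv] at h
    have h1 := h hqm
    rw [Ideal.mem_span_singleton] at h1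
    have h2 : (q : 𝓞 F) ∣ 1 := (dvd_add_right (dvd_refl _)).1 h1
    exact hprime.not_isUnit (isUnit_of_dvd_one h2)
  · rw [hv, Ideal.mem_span_singleton]
    rintro ⟨z, hz⟩
    have h1 : Nm (p : 𝓞 F) = Nm ((q : 𝓞 F) * z) := by rw [← hz]
    rw [Nm_mul, Nm_nat, Nm_nat] at h1
    have h2 : q ^ 2 ∣ p ^ 2 := ⟨_, h1⟩
    have h3 : q ∣ p := (Nat.pow_dvd_pow_iff two_ne_zero).1 h2
    exact absurd (Nat.le_of_dvd hp.pos h3) (by omega)
  · have hcq : IsCoprime (Ideal.span {(q : 𝓞 F)}) m := by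
      rw [Ideal.isCoprime_iff_exists]
      refine ⟨-(q : 𝓞 F), ?_, (q : 𝓞 F) + 1, hqm, by ring⟩
      exact (Ideal.neg_mem_iff _).2 (Ideal.mem_span_singleton_self _)
    have htop : Ideal.span {(-1 : 𝓞 F)} = 1 := by
      rw [Ideal.one_eq_top, Ideal.span_singleton_eq_top]
      exact isUnit_one.neg
    have hc1 : IsCoprime (Ideal.span {(-1 : 𝓞 F)}) m := by
      rw [htop]
      exact isCoprime_one_left
    have h1 := hψ.per (q : 𝓞 F) (-1) hcq hc1 (by rwa [sub_neg_eq_add])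
    rw [htop, map_one, one_mul] at h1
    have h2 : 1 - ψ v.asIdeal = ((q + 1 : ℕ) : 𝓞 F) := by
      rw [hv]
      push_cast
      linear_combination h1
    rw [h2, Nm_nat]
    intro h3
    have h4 : p ∣ q + 1 := hp.dvd_of_dvd_pow h3
    have h5' : p ∣ 3 := by
      have e : q + 1 = p * k' + 3 := by rw [hk']; ring
      rw [e] at h4
      exact (Nat.dvd_add_right (dvd_mul_right _ _)).1 h4
    exact absurd (Nat.le_of_dvd (by norm_num) h5') (by omega)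

end H55K
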