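import Mathlib
import Pool.Agent.Lib.H55K.Y7C
import Pool.Agent.Lib.H55P.GenStm
import Pool.Agent.Lib.H55P.Z10

/-! # H55K: a good prime exists -/

open NumberField IsDedekindDomain WeierstrassCurve

namespace H55K

open H55P (IQ embF eF LF Per IsHecke Pt ac Inert Dec Nm)
open H35P (WAB Ker tt)


variable {F : Type} [Field F] [NumberField F] [IQ F]

/-- The norm of an ideal for an extension of degree one. -/
theorem y7d_norm (M : Type) [Field M] [NumberField M] [Algebra F M]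
    (hsurj : Function.Surjective (algebraMap F M)) (J : Ideal (𝓞 F)) :
    Ideal.relNorm (𝓞 F) (J.map (algebraMap (𝓞 F) (𝓞 M))) = J := by
  have h1 : Module.finrank F M = 1 := by
    rw [finrank_eq_one_iff_of_nonzero' (1 : M) one_ne_zero]
    intro x
    obtain ⟨c, hc⟩ := hsurj x
    exact ⟨c, by rw [← hc, Algebra.smul_def, mul_one]⟩
  have hr : Module.finrank (𝓞 F) (𝓞 M) = 1 := by
    rw [← h1]
    exact (IsFractionRing.finrank_eq (𝓞 F) F (𝓞 M) M).symm
  rw [Ideal.relNorm_algebraMap (𝓞 M) J, hr, pow_one]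

theorem y7d_surj : Function.Surjective (algebraMap F (⊥ : IntermediateField F (AlgebraicClosure F))) := by
  intro x
  obtain ⟨y, hy⟩ := IntermediateField.mem_bot.1 x.2
  exact ⟨y, Subtype.ext hy⟩

theorem y7d_surjO : Function.Surjective
    (algebraMap (𝓞 F) (𝓞 (⊥ : IntermediateField F (AlgebraicClosure F)))) := by
  intro x
  obtain ⟨y, hy⟩ := y7d_surj (F := F) (x : (⊥ : IntermediateField F (AlgebraicClosure F)))
  have hyi : IsIntegral ℤ y := by
    have h2 : IsIntegral ℤ (algebraMap F (⊥ : IntermediateField F (AlgebraicClosure F)) y) := by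
      rw [hy]
      exact RingOfIntegers.isIntegral_coe x
    exact (isIntegral_algebraMap_iff
      (algebraMap F (⊥ : IntermediateField F (AlgebraicClosure F))).injective).1 h2
  refine ⟨⟨y, hyi⟩, ?_⟩
  apply RingOfIntegers.ext
  rw [← hy]
  rfl

/-- Chunk Y7D (S/M). v from good_q, v' the prime of the bottom field M corresponding to v (algebraMap (𝓞 F) (𝓞 M) is bijective: v' = the image; see H55P.bot_conv and pz10_card in Z10.lean, pz13_equiv in Z13.lean): relNorm v' = v, the residue fields are isomorphic, so the numbers of points agree (pz10_card, map of curves), hDeu. -/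
theorem exists_goodG {p : ℕ} (hp : p.Prime) (h5 : 5 ≤ p)
    (hunr : ∀ v : HeightOneSpectrum (𝓞 F), (p : 𝓞 F) ∉ v.asIdeal ^ 2) {m : Ideal (𝓞 F)}
    {ψ : Ideal (𝓞 F) →*₀ 𝓞 F} (hψ : IsHecke m ψ) (W₀ : WeierstrassCurve (𝓞 F)) (hΔ : W₀.Δ ≠ 0)
    (hcop : IsCoprime m (Ideal.span {(p : 𝓞 F)}))
    (hDeu : ∀ v : HeightOneSpectrum (𝓞 F), W₀.Δ ∉ v.asIdeal → ¬ m ≤ v.asIdeal →
      Nat.card (W₀⁄(𝓞 F ⧸ v.asIdeal)).toAffine.Point = Nm (1 - ψ v.asIdeal))
    [NumberField (⊥ : IntermediateField F (AlgebraicClosure F))] :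
    ∃ v, H55P.GoodG p W₀ m ψ (⊥ : IntermediateField F (AlgebraicClosure F)) v := by
  obtain ⟨v₀, g1, g2, g3, g4⟩ := good_q F hp h5 hunr hψ hcop W₀.Δ hΔ
  have hvm := v₀.isMaximal
  obtain ⟨Q, hQ1, hQ2⟩ := Ideal.exists_maximal_ideal_liesOver_of_isIntegral
    (S := 𝓞 (⊥ : IntermediateField F (AlgebraicClosure F))) v₀.asIdeal
  obtain ⟨v, hv⟩ : ∃ v : HeightOneSpectrum (𝓞 (⊥ : IntermediateField F (AlgebraicClosure F))), v.asIdeal = Q :=
    ⟨⟨Q, hQ1.isPrime, Ideal.ne_bot_of_liesOver_of_ne_bot v₀.ne_bot Q⟩, rfl⟩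
  have hu : v₀.asIdeal = v.asIdeal.comap
      (algebraMap (𝓞 F) (𝓞 (⊥ : IntermediateField F (AlgebraicClosure F)))) := by
    rw [hv]
    exact hQ2.over
  have hmem : ∀ x : 𝓞 F, x ∈ v₀.asIdeal ↔
      algebraMap (𝓞 F) (𝓞 (⊥ : IntermediateField F (AlgebraicClosure F))) x ∈ v.asIdeal := by
    intro x
    rw [hu, Ideal.mem_comap]
  obtain ⟨v₁, h1, -, h3⟩ := H55P.bot_conv W₀ (⊥ : IntermediateField F (AlgebraicClosure F)) v
  have he : v₁ = v₀ := by
    apply HeightOneSpectrum.ext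
    ext x
    rw [h1 x, hmem x]
  subst he
  have hmap : v₁.asIdeal.map (algebraMap (𝓞 F) (𝓞 (⊥ : IntermediateField F (AlgebraicClosure F)))) =
      v.asIdeal := by
    rw [hu, Ideal.map_comap_of_surjective _ y7d_surjO]
  have hnorm : Ideal.relNorm (𝓞 F) v.asIdeal = v₁.asIdeal := by
    rw [← hmap]
    exact y7d_norm _ y7d_surj _
  refine ⟨v, ?_, ?_, ?_, ?_, ?_⟩
  · rw [← hmem]
    exact g1
  · intro hle
    apply g2
    rw [hu, ← Ideal.map_le_iff_le_comap]
    exact hle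
  · intro hp'
    apply g3
    rw [hmem, map_natCast]
    exact hp'
  · rw [h3, hDeu v₁ g1 g2]
    exact g4
  · rw [hnorm]
    exact g4

end H55K
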