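import Mathlib
import Pool.Agent.Lib.H55K.NA6
import Pool.Agent.Lib.H55K.T11B
import Pool.Agent.Lib.H55K.Y7D
import Pool.Agent.Lib.H55K.Y9
import Pool.Agent.Lib.H55P.Gen

/-! # H55K, part N: the Selmer group in p-extensions, bad primes may be ramified -/

open NumberField IsDedekindDomain WeierstrassCurve

namespace H55K.NB

open H55P (IQ embF eF LF Per IsHecke Pt ac acR Inert Dec Nm UnitP Ram RamF PExt SelG ShaG PtsG clos)
open H35P (WAB Ker tt GoodW IntW)
open H55K.MG (VC Crd)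
open H55K.TQ

variable {F : Type} [Field F] [NumberField F] [IQ F] {W₀ : WeierstrassCurve (𝓞 F)} {Om : ℂ}
    {m : Ideal (𝓞 F)} {ψ : Ideal (𝓞 F) →*₀ 𝓞 F} {p : ℕ}

open Classical in
/-- The Galois action on the p-torsion is commutative. -/
theorem comm_tors (hH : BaseH F W₀ Om m ψ) (hp : p.Prime)
    (s t : AlgebraicClosure F ≃ₐ[F] AlgebraicClosure F) (T : Pt (W₀⁄F) (AlgebraicClosure F)) (hT : p • T = 0) :
    ac (W₀⁄F) s (ac (W₀⁄F) t T) = ac (W₀⁄F) t (ac (W₀⁄F) s T) := by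
  obtain ⟨A, hA⟩ : ∃ A : F, A = -(algebraMap (𝓞 F) F W₀.c₄) / 48 := ⟨_, rfl⟩
  obtain ⟨B, hB⟩ : ∃ B : F, B = -(algebraMap (𝓞 F) F W₀.c₆) / 864 := ⟨_, rfl⟩
  have hell := hH.data.ell
  have hd := y3_ne W₀ hA hB hell
  obtain ⟨j, hj⟩ := exists_j F (AlgebraicClosure F)
  have hper : Per F (embF F A) (embF F B) Om := by
    have e1 : embF F A = -(eF F W₀.c₄) / 48 := by
      rw [hA, map_div₀, map_neg, map_ofNat]
      rfl
    have e2 : embF F B = -(eF F W₀.c₆) / 864 := by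
      rw [hB, map_div₀, map_neg, map_ofNat]
      rfl
    rw [e1, e2]
    exact hH.data.per
  obtain ⟨act, hC⟩ := exists_CMA F A B Om j hd hper hj
  have hΔA : (WAB A B).Δ ≠ 0 := by
    have e : (WAB A B).Δ = -16 * (4 * A ^ 3 + 27 * B ^ 2) := by
      unfold WAB WeierstrassCurve.Δ WeierstrassCurve.b₂ WeierstrassCurve.b₄ WeierstrassCurve.b₆ WeierstrassCurve.b₈
      ring
    rw [e]
    exact mul_ne_zero (by norm_num) hd
  obtain ⟨r, s', t', hVC⟩ := vc_short W₀ hA hB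
  have hVC' := vc_map (algebraMap F (AlgebraicClosure F)) hVC
  have hΔ1 : ((WAB A B).map (algebraMap F (AlgebraicClosure F))).Δ ≠ 0 := by
    rw [WeierstrassCurve.map_Δ]
    exact (map_ne_zero _).2 hΔA
  have hΔ2 : ((W₀⁄F).map (algebraMap F (AlgebraicClosure F))).Δ ≠ 0 := by
    have e : (W₀⁄F).Δ = algebraMap (𝓞 F) F W₀.Δ := WeierstrassCurve.map_Δ _ _
    rw [WeierstrassCurve.map_Δ, e]
    refine (map_ne_zero _).2 fun h1 => hell ?_
    exact (map_eq_zero_iff _ (FaithfulSMul.algebraMap_injective (𝓞 F) F)).1 h1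
  obtain ⟨Θ, hΘ⟩ : ∃ Θ : Pt (WAB A B) (AlgebraicClosure F) ≃+ Pt (W₀⁄F) (AlgebraicClosure F),
      Crd (algebraMap F (AlgebraicClosure F) 1) (algebraMap F (AlgebraicClosure F) r)
        (algebraMap F (AlgebraicClosure F) s') (algebraMap F (AlgebraicClosure F) t') Θ := MG.vc_iso hVC' hΔ1 hΔ2
  have hcom : ∀ (g : AlgebraicClosure F ≃ₐ[F] AlgebraicClosure F) (P : Pt (WAB A B) (AlgebraicClosure F)),
      ac (W₀⁄F) g (Θ P) = Θ (ac (WAB A B) g P) := by
    intro g P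
    by_cases hP : P = 0
    · subst hP
      rw [map_zero, map_zero, map_zero, map_zero]
    · obtain ⟨a1, a2, a3⟩ := hΘ P hP
      obtain ⟨b1, b2, b3⟩ := MG.ac_crd (W := WAB A B) g P
      have hP' : ac (WAB A B) g P ≠ 0 := fun h => hP (b3.1 h)
      obtain ⟨c1, c2, c3⟩ := hΘ _ hP'
      obtain ⟨d1, d2, d3⟩ := MG.ac_crd (W := W₀⁄F) g (Θ P)
      have e2 := congrArg g a2
      have e3 := congrArg g a3
      simp only [map_add, map_mul, map_pow, map_one, AlgEquiv.commutes, one_pow, one_mul, mul_one] at e2 e3 c2 c3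
      have f2 : xc (ac (W₀⁄F) g (Θ P)) = xc (Θ (ac (WAB A B) g P)) := by
        rw [d1]
        linear_combination c2 - e2 - b1
      refine pt_ext (fun h => a1 (d3.1 h)) c1 f2 ?_
      rw [d2]
      rw [d1] at f2
      linear_combination c3 - e3 - b2 - (algebraMap F (AlgebraicClosure F) s') * f2
  obtain ⟨T', rfl⟩ := Θ.surjective T
  have hTp : p • T' = 0 := by
    apply Θ.injective
    rw [map_nsmul, hT, map_zero]
  rw [hcom, hcom, hcom, hcom]
  congr 1
  have hmul : ∀ (a b : 𝓞 F) (Q : Pt (WAB A B) (AlgebraicClosure F)), act (a * b) Q = act a (act b Q) := by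
    intro a b Q
    rw [map_mul]
    rfl
  have hp0 : (p : 𝓞 F) ≠ 0 := by exact_mod_cast hp.ne_zero
  have hact : ∀ Q : Pt (WAB A B) (AlgebraicClosure F), act (p : 𝓞 F) Q = p • Q := by
    intro Q
    rw [map_natCast]
    rfl
  obtain ⟨T₀, hT₀, hgen, -, -⟩ := hC.gen (p : 𝓞 F) hp0
  have hT₀' : p • T₀ = 0 := by
    rw [← hact]
    exact hT₀
  have hsc : ∀ g : AlgebraicClosure F ≃ₐ[F] AlgebraicClosure F, ∃ a : 𝓞 F, ∀ Q : Pt (WAB A B) (AlgebraicClosure F),
      p • Q = 0 → ac (WAB A B) g Q = act a Q := by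
    intro g
    obtain ⟨a, ha⟩ := hgen (ac (WAB A B) g T₀) (by
      show act (p : 𝓞 F) _ = 0
      rw [hact, ← map_nsmul, hT₀', map_zero])
    refine ⟨a, fun Q hQ => ?_⟩
    obtain ⟨x, rfl⟩ := hgen Q (by
      show act (p : 𝓞 F) _ = 0
      rw [hact, hQ])
    rw [hC.gal, ha, ← hmul, ← hmul, mul_comm]
  obtain ⟨a, ha⟩ := hsc s
  obtain ⟨b, hb⟩ := hsc t
  have h1 : p • act b T' = 0 := by rw [← map_nsmul, hTp, map_zero]
  have h2 : p • act a T' = 0 := by rw [← map_nsmul, hTp, map_zero]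
  rw [hb T' hTp, ha T' hTp, ha _ h1, hb _ h2, ← hmul, ← hmul, mul_comm]

open Classical in
/-- The tower theorem: the p-Selmer group stays zero in the fields K inside Galois extensions L of F of degree a power of p, if p is
unramified in K and no prime of good reduction with a number of points divisible by p is ramified in K. Bad primes may be ramified. -/
theorem selB (hH : BaseH F W₀ Om m ψ) (hp : PrimeH F W₀ p) {L K : IntermediateField F (AlgebraicClosure F)}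
    [NumberField K] (hL : PExt p ⊥ L) (hK : K ≤ L) (hU : H55P.UnrP p K) (hN : NoAn p W₀ K)
    (hS : SelG p W₀ (⊥ : IntermediateField F (AlgebraicClosure F))) : SelG p W₀ K ∧ ShaG p W₀ K ∧ PtsG p W₀ K := by
  have hLf : FiniteDimensional F L := hL.fin
  have hKf : FiniteDimensional F K := H55P.finDim_of_le hK
  have hMn : NumberField (⊥ : IntermediateField F (AlgebraicClosure F)) := H16C.FR_numberField _
  have hell : (W₀⁄F).IsElliptic := H55P.gen_ell W₀ hH.data.ell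
  obtain ⟨v₀, hv₀⟩ : ∃ v, H55P.GoodG p W₀ m ψ (⊥ : IntermediateField F (AlgebraicClosure F)) v := by
    refine exists_goodG hp.prime hp.five ((unr_iff hp.prime).1 hp.unr) hH.data.hecke W₀ hH.data.ell ?_
      (fun v h _ => hH.deu v h)
    rw [Ideal.isCoprime_iff_sup_eq]
    by_contra hne
    obtain ⟨Q, hQ, hle⟩ := Ideal.exists_le_maximal _ hne
    have hpQ : (p : 𝓞 F) ∈ Q := hle (Ideal.mem_sup_right (Ideal.mem_span_singleton_self _))
    have hp0 : (p : 𝓞 F) ≠ 0 := by exact_mod_cast hp.prime.ne_zero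
    have hQ0 : Q ≠ ⊥ := by
      rintro rfl
      exact hp0 ((Ideal.mem_bot).1 hpQ)
    have hΔ : W₀.Δ ∈ Q := (hH.supp ⟨Q, hQ.isPrime, hQ0⟩).2 (le_sup_left.trans hle)
    obtain ⟨x, hx, y, hy, hxy⟩ := Ideal.isCoprime_iff_exists.1 hp.cop
    have h1 : x ∈ Q := (Ideal.span_singleton_le_iff_mem _).2 hΔ hx
    have h2 : y ∈ Q := (Ideal.span_singleton_le_iff_mem _).2 hpQ hy
    exact hQ.ne_top ((Ideal.eq_top_iff_one _).2 (hxy ▸ Q.add_mem h1 h2))
  have hC' := H55P.clos_pext p hp.prime ⊥ K L hL bot_le hK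
  have h0 : ∀ T : Pt (W₀⁄F) (AlgebraicClosure F), p • T = 0 →
      (∀ s ∈ (⊥ : IntermediateField F (AlgebraicClosure F)).fixingSubgroup, ac (W₀⁄F) s T = T) → T = 0 := fun T hT hf =>
    H55P.tors_of_prime W₀ p hp.prime ⊥ v₀ hv₀.disc hv₀.res hv₀.pts T hT hf
  have hSK : H55P.SelZero (W₀⁄F) p K := sel_towerB W₀ p hp.prime ⊥ (clos ⊥ K) hC' h0
    (fun s _ t _ T hT => comm_tors hH hp.prime s t T hT)
    (fun v hv => by
      have hv' := H55P.clos_ram ⊥ K L bot_le hK hL.norm v hv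
      obtain ⟨v₁, h1, h2, h3⟩ := H55P.bot_conv W₀ (⊥ : IntermediateField F (AlgebraicClosure F)) v
      have hr : RamF K v₁.asIdeal := (y9_ram h1 K).1 hv'
      have hpv : (p : 𝓞 F) ∉ v₁.asIdeal := y9_unr K hU hr
      refine ⟨fun h => hpv ((h1 _).2 (by rwa [map_natCast])), ?_⟩
      by_cases hΔ : W₀.Δ ∈ v₁.asIdeal
      · right
        intro V hV T hT hf
        refine bad_tors hH hp hL (H55P.clos_le ⊥ K L hK hL.norm) (V := V) (v := v₁) (fun a ha => ?_) hΔ T hT hf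
        exact (hV _).1 ((h1 a).1 ha)
      · left
        refine ⟨fun h => hΔ ((h1 _).2 h), ?_⟩
        rw [h3]
        exact hN v₁ hr hΔ) hS K bot_le (H55P.le_clos ⊥ K)
  exact ⟨hSK, H55P.sha_zero (W₀⁄F) p hp.prime K hSK, H55P.pts_fin (W₀⁄F) p hp.prime K hSK⟩

end H55K.NB
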