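import Mathlib
import Pool.Agent.Lib.H55K.G5E
import Pool.Agent.Lib.H55K.SD

/-! # H55K, part S: the kernel of reduction (in the form of H13S/GIA) -/

open NumberField IsDedekindDomain WeierstrassCurve

namespace H55K.S

open H55P (IQ embF eF LF Per IsHecke Pt ac Inert Dec Nm)
open H35P (WAB Ker tt)
open H13S (Abv)

variable {F : Type} [Field F] [NumberField F] [IQ F] {A B : F} {Om : ℂ} {Ω : Type} [Field Ω] [DecidableEq Ω]
  [Algebra F Ω] {j : Ω →+* ℂ} {act : 𝓞 F →+* AddMonoid.End (Pt (WAB A B) Ω)} {V : ValuationSubring Ω}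

theorem kr_add (hG : GV A B V) {P Q : Pt (WAB A B) Ω} (hP : Ker V P) (hQ : Ker V Q) : Ker V (P + Q) :=
  H35P.ker_add (gv_good hG).toIntW P Q hP hQ

theorem kr_neg {P : Pt (WAB A B) Ω} (hP : Ker V P) : Ker V (-P) := (H35P.ker_neg P).2 hP

theorem kr_sub (hG : GV A B V) {P Q : Pt (WAB A B) Ω} (hP : Ker V P) (hQ : Ker V Q) : Ker V (P - Q) := by
  rw [sub_eq_add_neg]
  exact kr_add hG hP (kr_neg hQ)

theorem kr_tt_lt (hG : GV A B V) {P : Pt (WAB A B) Ω} (hP : Ker V P) : V.valuation (tt P) < 1 :=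
  H35P.tt_lt (gv_good hG).toIntW P hP

theorem kr_tt_zero (hG : GV A B V) {P : Pt (WAB A B) Ω} (hP : Ker V P) : tt P = 0 ↔ P = 0 :=
  H35P.tt_eq_zero (gv_good hG).toIntW P hP

/-- t is additive modulo squares. -/
theorem kr_tt_add (hG : GV A B V) {P Q : Pt (WAB A B) Ω} (hP : Ker V P) (hQ : Ker V Q) (c : V.ValueGroup)
    (h1 : V.valuation (tt P) ≤ c) (h2 : V.valuation (tt Q) ≤ c) :
    V.valuation (tt (P + Q) - tt P - tt Q) ≤ c ^ 2 := tt_add2 hG hP hQ c h1 h2

theorem kr_act (hA : CMA F A B Om j act) (hG : GV A B V) (a : 𝓞 F) {P : Pt (WAB A B) Ω} (hP : Ker V P) :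
    Ker V (act a P) := ker_act hA hG a hP

/-- t(a P) = a t(P) modulo squares. -/
theorem kr_tt_act (hA : CMA F A B Om j act) (hG : GV A B V) (a : 𝓞 F) {P : Pt (WAB A B) Ω} (hP : Ker V P) :
    V.valuation (tt (act a P) - ak Ω a * tt P) ≤ V.valuation (tt P) ^ 2 := tt_act hA hG a hP

/-- Points killed by an element which is a unit are not in the kernel of reduction. -/
theorem kr_tor (hA : CMA F A B Om j act) (hG : GV A B V) (β : 𝓞 F) (hβ : vo V β = 1) {T : Pt (WAB A B) Ω}
    (hT : T ∈ Tor act β) (hK : Ker V T) : T = 0 := tor_unit hA hG hβ hT hK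

/-- The points killed by a prime element below V. -/
theorem kr_tor_ram (hA : CMA F A B Om j act) (hG : GV A B V) (β : 𝓞 F) (hβ : Prime β) (hV : vo V β < 1)
    {T : Pt (WAB A B) Ω} (hT : T ∈ Tor act β) (h0 : T ≠ 0) :
    Ker V T ∧ V.valuation (tt T) ^ (Nm β - 1) = vo V β := tor_ram hA hG hβ hV hT h0

/-- The product formula. -/
theorem kr_prod (hA : CMA F A B Om j act) (hG : GV A B V) (β : 𝓞 F) (hβ : Prime β) (hV : vo V β < 1)
    {Q : Pt (WAB A B) Ω} (hQ : Ker V Q) :
    ∏ᶠ R : Tor act β, V.valuation (tt (Q + (R : Pt (WAB A B) Ω))) = V.valuation (tt (act β Q)) := by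
  classical
  obtain ⟨S, hS, -⟩ := exists_TN hA hβ.ne_zero
  rw [← ker_prod hA hG hβ hV hS hQ]
  have h0 : (0 : Pt (WAB A B) Ω) ∉ S := fun h => ((hS 0).1 h).2 rfl
  have h1 : V.valuation (tt Q) * ∏ R ∈ S, V.valuation (tt (Q + R)) =
      ∏ R ∈ insert (0 : Pt (WAB A B) Ω) S, V.valuation (tt (Q + R)) := by
    rw [Finset.prod_insert h0, add_zero]
  rw [h1]
  have h2 : (Tor act β : Set (Pt (WAB A B) Ω)) = ((insert (0 : Pt (WAB A B) Ω) S : Finset _) : Set _) := by
    ext T
    rw [SetLike.mem_coe, Finset.mem_coe, Finset.mem_insert, hS, mem_Tor]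
    constructor
    · intro h
      by_cases h3 : T = 0
      · exact Or.inl h3
      · exact Or.inr ⟨h, h3⟩
    · rintro (rfl | h)
      · exact map_zero _
      · exact h.1
  have h3 := finprod_set_coe_eq_finprod_mem (f := fun R : Pt (WAB A B) Ω => V.valuation (tt (Q + R)))
    (Tor act β : Set (Pt (WAB A B) Ω))
  refine h3.trans ?_
  rw [h2, finprod_mem_coe_finset]

/-! Inertia and decomposition groups. -/

omit [NumberField F] [IQ F] [DecidableEq Ω] in
theorem qv_dec (V : ValuationSubring Ω) (s : Ω ≃ₐ[F] Ω) (hs : Inert V s) (x : Ω) : s x ∈ V ↔ x ∈ V := by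
  constructor
  · intro hx
    by_contra hcon
    have h1 : 1 < V.valuation x := by
      rw [← not_le, V.valuation_le_one_iff]
      exact hcon
    have x0 : V.valuation x ≠ 0 := (zero_lt_one.trans h1).ne'
    have h2 : V.valuation x⁻¹ < 1 := by
      rw [map_inv₀]
      exact inv_lt_one_of_one_lt₀ h1
    have h3 := hs x⁻¹ ((V.valuation_le_one_iff _).1 h2.le)
    have h4 : V.valuation (s x⁻¹) < 1 := by
      have h5 := V.valuation.map_add_lt h3 h2
      rwa [sub_add_cancel] at h5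
    rw [map_inv₀ s, map_inv₀] at h4
    have h6 : V.valuation (s x) ≤ 1 := (V.valuation_le_one_iff _).2 hx
    have hx0 : x ≠ 0 := by
      rintro rfl
      exact x0 (map_zero _)
    have h7 : V.valuation (s x) ≠ 0 := (V.valuation.ne_zero_iff).2 ((map_ne_zero s).2 hx0)
    exact absurd h4 (not_lt.2 ((one_le_inv₀ (zero_lt_iff.2 h7)).2 h6))
  · intro hx
    have h1 : s x - x ∈ V := (V.valuation_le_one_iff _).1 (hs x hx).le
    have h2 := V.add_mem _ _ h1 hx
    rwa [sub_add_cancel] at h2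

omit [NumberField F] [IQ F] [DecidableEq Ω] in
theorem qv_le (V : ValuationSubring Ω) (s : Ω ≃ₐ[F] Ω) (hs : Inert V s) (a b : Ω) (hb : b ≠ 0) :
    V.valuation (s a) ≤ V.valuation (s b) ↔ V.valuation a ≤ V.valuation b := by
  have h1 := qv_dec V s hs (a / b)
  have h2 : 0 < V.valuation b := zero_lt_iff.2 ((Valuation.ne_zero_iff _).2 hb)
  have h3 : 0 < V.valuation (s b) := zero_lt_iff.2 ((Valuation.ne_zero_iff _).2 ((map_ne_zero s).2 hb))
  rw [← V.valuation_le_one_iff, ← V.valuation_le_one_iff, map_div₀ s, map_div₀, map_div₀,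
    div_le_one₀ h3, div_le_one₀ h2] at h1
  exact h1

omit [NumberField F] [IQ F] [DecidableEq Ω] in
theorem qv_orb [Algebra.IsAlgebraic F Ω] (s : Ω ≃ₐ[F] Ω) (x : Ω) : ∃ n : ℕ, 0 < n ∧ (s ^ n) x = x := by
  have hx : IsIntegral F x := (Algebra.IsAlgebraic.isAlgebraic x).isIntegral
  have hroot : ∀ k : ℕ, (s ^ k) x ∈ (minpoly F x).rootSet Ω := by
    intro k
    rw [Polynomial.mem_rootSet]
    refine ⟨minpoly.ne_zero hx, ?_⟩
    have h1 := Polynomial.aeval_algHom_apply ((s ^ k : Ω ≃ₐ[F] Ω) : Ω →ₐ[F] Ω) x (minpoly F x)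
    rw [minpoly.aeval, map_zero] at h1
    exact h1
  obtain ⟨i, j, hij, he⟩ := Finite.exists_ne_map_eq_of_infinite
    (fun k : ℕ => (⟨(s ^ k) x, hroot k⟩ : (minpoly F x).rootSet Ω))
  have he' : (s ^ i) x = (s ^ j) x := congrArg Subtype.val he
  have key : ∀ i j : ℕ, i < j → (s ^ i) x = (s ^ j) x → ∃ n : ℕ, 0 < n ∧ (s ^ n) x = x := by
    intro i j hlt he
    refine ⟨j - i, by omega, ?_⟩
    apply (s ^ i).injective
    rw [← AlgEquiv.mul_apply, ← pow_add, he]
    congr 2
    omega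
  rcases lt_or_gt_of_ne hij with h | h
  · exact key i j h he'
  · exact key j i h he'.symm

omit [NumberField F] [IQ F] [DecidableEq Ω] in
theorem qv_val [Algebra.IsAlgebraic F Ω] (V : ValuationSubring Ω) (s : Ω ≃ₐ[F] Ω) (hs : Inert V s)
    (x : Ω) : V.valuation (s x) = V.valuation x := by
  by_cases hx : x = 0
  · rw [hx, map_zero]
  obtain ⟨n, hn, hnx⟩ := qv_orb s x
  have hne : ∀ k : ℕ, (s ^ k) x ≠ 0 := fun k => (map_ne_zero (s ^ k)).2 hx
  have hs1 : ∀ k : ℕ, (s ^ (k + 1)) x = s ((s ^ k) x) := fun k => by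
    rw [pow_succ', AlgEquiv.mul_apply]
  have h0 : (s ^ 0) x = x := by rw [pow_zero]; rfl
  rcases lt_trichotomy (V.valuation (s x)) (V.valuation x) with h | h | h
  · exfalso
    have hstep : ∀ k : ℕ, V.valuation ((s ^ (k + 1)) x) < V.valuation ((s ^ k) x) := by
      intro k
      induction k with
      | zero =>
        rw [hs1, h0]
        exact h
      | succ k ih =>
        rw [hs1 (k + 1)]
        conv_rhs => rw [hs1 k]
        rw [← not_le] at ih ⊢
        rwa [qv_le V s hs _ _ (hne _)]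
    have h1 := strictAnti_nat_of_succ_lt (f := fun k => V.valuation ((s ^ k) x)) hstep hn
    simp only [hnx, h0] at h1
    exact lt_irrefl _ h1
  · exact h
  · exfalso
    have hstep : ∀ k : ℕ, V.valuation ((s ^ k) x) < V.valuation ((s ^ (k + 1)) x) := by
      intro k
      induction k with
      | zero =>
        rw [hs1, h0]
        exact h
      | succ k ih =>
        rw [hs1 (k + 1)]
        conv_lhs => rw [hs1 k]
        rw [← not_le] at ih ⊢
        rwa [qv_le V s hs _ _ (hne _)]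
    have h1 := strictMono_nat_of_lt_succ (f := fun k => V.valuation ((s ^ k) x)) hstep hn
    simp only [hnx, h0] at h1
    exact lt_irrefl _ h1

theorem qv_unit (V : ValuationSubring Ω) {π x : 𝓞 F} (hπ : Prime π) (hV : vo V π < 1) (hx : ¬ π ∣ x) :
    vo V x = 1 := by
  obtain ⟨u, v, huv⟩ := (hπ.irreducible.coprime_iff_not_dvd).2 hx
  refine le_antisymm (vo_le V x) ?_
  by_contra hcon
  push Not at hcon
  have h1 : V.valuation (algebraMap F Ω ((u * π : 𝓞 F) : F) + algebraMap F Ω ((v * x : 𝓞 F) : F)) < 1 := by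
    refine Valuation.map_add_lt _ ?_ ?_
    · change vo V (u * π) < 1
      rw [vo_mul]
      exact lt_of_le_of_lt (mul_le_mul' (vo_le V u) le_rfl) (by rwa [one_mul])
    · change vo V (v * x) < 1
      rw [vo_mul]
      exact lt_of_le_of_lt (mul_le_mul' (vo_le V v) le_rfl) (by rwa [one_mul])
  have h2 : algebraMap F Ω ((u * π : 𝓞 F) : F) + algebraMap F Ω ((v * x : 𝓞 F) : F) = 1 := by
    rw [← map_add]
    have : ((u * π : 𝓞 F) : F) + ((v * x : 𝓞 F) : F) = ((u * π + v * x : 𝓞 F) : F) := rfl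
    rw [this, huv]
    exact map_one _
  rw [h2, map_one] at h1
  exact lt_irrefl _ h1

theorem qv_intpow (V : ValuationSubring Ω) {π : 𝓞 F} (hπ : Prime π) (hV : vo V π < 1) (a : F)
    (ha : a ≠ 0) : ∃ k : ℤ, V.valuation (algebraMap F Ω a) = vo V π ^ k := by
  have key : ∀ x : 𝓞 F, x ≠ 0 → ∃ n : ℕ, vo V x = vo V π ^ n := by
    intro x hx
    obtain ⟨n, x', hx', he⟩ := WfDvdMonoid.max_power_factor hx hπ.irreducible
    refine ⟨n, ?_⟩
    rw [he, vo_mul, vo_pow, qv_unit V hπ hV hx', mul_one]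
  obtain ⟨x, y, hy, rfl⟩ := IsFractionRing.div_surjective (A := 𝓞 F) a
  have hy0 : y ≠ 0 := nonZeroDivisors.ne_zero hy
  have hx0 : x ≠ 0 := by
    rintro rfl
    rw [map_zero, zero_div] at ha
    exact ha rfl
  obtain ⟨n, hn⟩ := key x hx0
  obtain ⟨m, hm⟩ := key y hy0
  have hp0 := vo_ne V hπ.ne_zero
  refine ⟨(n : ℤ) - m, ?_⟩
  rw [map_div₀, map_div₀, zpow_sub₀ hp0, zpow_natCast, zpow_natCast, ← hn, ← hm]


/-- Inertia preserves values. -/
theorem in_val [IsAlgClosure F Ω] (s : Ω ≃ₐ[F] Ω) (hs : Inert V s) (x : Ω) :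
    V.valuation (s x) = V.valuation x := by
  have hal : Algebra.IsAlgebraic F Ω := IsAlgClosure.isAlgebraic
  exact qv_val V s hs x

omit [NumberField F] [IQ F] [DecidableEq Ω] in
theorem in_dec (s : Ω ≃ₐ[F] Ω) (hs : Inert V s) : Dec V s := fun x => qv_dec V s hs x

omit [NumberField F] [IQ F] in
/-- The decomposition group preserves the kernel of reduction. -/
theorem kr_dec (s : Ω ≃ₐ[F] Ω) (hs : Dec V s) {P : Pt (WAB A B) Ω} (hP : Ker V P) : Ker V (ac (WAB A B) s P) := by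
  cases P with
  | zero => trivial
  | some x y h =>
    show 1 < V.valuation (s x)
    have h1 : 1 < V.valuation x := hP
    rw [← not_le, V.valuation_le_one_iff] at h1 ⊢
    rwa [hs x]

/-- Inertia acts trivially on the reduction. -/
theorem kr_inert (hG : GV A B V) (s : Ω ≃ₐ[F] Ω) (hs : Inert V s) (P : Pt (WAB A B) Ω) :
    Ker V (ac (WAB A B) s P - P) := by
  by_cases hK : Ker V P
  · exact kr_sub hG (kr_dec s (in_dec s hs) hK) hK
  · cases P with
    | zero => exact absurd trivial hK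
    | some x y h =>
      have hx : V.valuation x ≤ 1 := not_lt.1 hK
      have hy : V.valuation y ≤ 1 := H35P.int_y (gv_good hG).toIntW h.1 hx
      have hx' : x ∈ V := (V.valuation_le_one_iff _).1 hx
      have hy' : y ∈ V := (V.valuation_le_one_iff _).1 hy
      have hd := in_dec s hs
      exact H35P.rd (gv_good hG) _ _ ⟨s x, s y, _, x, y, h, rfl, rfl, (hd x).2 hx', (hd y).2 hy', hx', hy',
        hs x hx', hs y hy'⟩

end H55K.S
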