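import Mathlib
import Pool.Agent.Lib.H55K.G1
import Pool.Agent.Lib.H13S.VW
import Pool.Agent.Lib.H55P.S1
import Pool.Agent.Lib.H55P.S5

/-! # H55K: points of finite order in the reduction -/

open NumberField IsDedekindDomain WeierstrassCurve

namespace H55K

open H55P (IQ embF eF LF Per IsHecke Pt ac Inert Dec Nm)
open H35P (WAB Ker tt)


variable {F : Type} [Field F] [NumberField F] [IQ F] {A B : F} {Om : ℂ} {Ω : Type} [Field Ω] [DecidableEq Ω]
  [Algebra F Ω] {j : Ω →+* ℂ} {act : 𝓞 F →+* AddMonoid.End (Pt (WAB A B) Ω)} {V : ValuationSubring Ω}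

omit [NumberField F] [IQ F] [DecidableEq Ω] in
theorem g6_cong {a b : V} (h : IsLocalRing.residue V a = IsLocalRing.residue V b) :
    V.valuation ((a : Ω) - (b : Ω)) < 1 := by
  have h1 : a - b ∈ IsLocalRing.maximalIdeal V := by
    rw [← IsLocalRing.residue_eq_zero_iff, map_sub, h, sub_self]
  rw [V.valuation_lt_one_iff] at h1
  exact h1

omit [NumberField F] [IQ F] [DecidableEq Ω] in
theorem g6_fin (L : IntermediateField F Ω) [NumberField L] (V : ValuationSubring Ω) (q : ℕ) (hq : q.Prime)
    (hv : V.valuation (q : Ω) < 1) : ∃ S : Set (IsLocalRing.ResidueField V), S.Finite ∧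
      ∀ (z : L) (hz : (z : Ω) ∈ V), IsLocalRing.residue V ⟨z, hz⟩ ∈ S := by
  let f : 𝓞 L →+* V :=
    { toFun := fun a => ⟨((a : L) : Ω), (V.valuation_le_one_iff _).1 (H13S.vw_int L V a)⟩
      map_one' := by
        apply Subtype.ext
        simp
      map_mul' := fun a b => by
        apply Subtype.ext
        simp
      map_zero' := by
        apply Subtype.ext
        simp
      map_add' := fun a b => by
        apply Subtype.ext
        simp }
  let φ : 𝓞 L →+* IsLocalRing.ResidueField V := (IsLocalRing.residue V).comp f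
  have hφ : ∀ a : 𝓞 L, φ a = 0 ↔ V.valuation ((a : L) : Ω) < 1 := by
    intro a
    show IsLocalRing.residue V (f a) = 0 ↔ _
    rw [IsLocalRing.residue_eq_zero_iff, V.valuation_lt_one_iff]
    exact Iff.rfl
  have hq0 : φ (q : 𝓞 L) = 0 := by
    rw [hφ]
    have e : (((q : 𝓞 L) : L) : Ω) = (q : Ω) := by simp
    rw [e]
    exact hv
  have hle : ∀ a ∈ Ideal.span {(q : 𝓞 L)}, φ a = 0 := by
    intro a ha
    obtain ⟨b, rfl⟩ := Ideal.mem_span_singleton.1 ha
    rw [map_mul, hq0, zero_mul]
  have hne : Ideal.span {(q : 𝓞 L)} ≠ ⊥ := by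
    rw [Ne, Ideal.span_singleton_eq_bot]
    exact_mod_cast hq.ne_zero
  have hfin : Finite (𝓞 L ⧸ Ideal.span {(q : 𝓞 L)}) := Ideal.finiteQuotientOfFreeOfNeBot _ hne
  have hr : (Set.range φ).Finite := by
    have e : Set.range φ = Set.range (Ideal.Quotient.lift (Ideal.span {(q : 𝓞 L)}) φ hle) := by
      ext x
      constructor
      · rintro ⟨a, rfl⟩
        exact ⟨Ideal.Quotient.mk _ a, Ideal.Quotient.lift_mk _ _ _⟩
      · rintro ⟨a, rfl⟩
        obtain ⟨b, rfl⟩ := Ideal.Quotient.mk_surjective a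
        exact ⟨b, (Ideal.Quotient.lift_mk _ _ _).symm⟩
    rw [e]
    exact Set.finite_range _
  refine ⟨Set.image2 (fun a b => a / b) (Set.range φ) (Set.range φ), Set.Finite.image2 _ hr hr, ?_⟩
  intro z hz
  have hex : ∃ x : L, (x : Ω) ∉ V := by
    refine ⟨(q : L)⁻¹, fun h' => ?_⟩
    have e : (((q : L)⁻¹ : L) : Ω) = (q : Ω)⁻¹ := by simp
    rw [e, ← V.valuation_le_one_iff, map_inv₀] at h'
    have hq' : (q : Ω) ≠ 0 := by
      have hL0 : CharZero L := inferInstance
      have hO : CharZero Ω := charZero_of_injective_algebraMap (algebraMap L Ω).injective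
      exact_mod_cast hq.ne_zero
    have h2 : 0 < V.valuation (q : Ω) := zero_lt_iff.2 ((map_ne_zero _).2 hq')
    rw [inv_le_one₀ h2] at h'
    exact not_lt.2 h' hv
  obtain ⟨w, hw⟩ := H13S.exists_below L V hex
  obtain ⟨n, d, hnd⟩ := w.exists_primeCompl_mul_eq_of_integer z ((hw z).1 hz)
  have hd0 : φ (d : 𝓞 L) ≠ 0 := by
    rw [Ne, hφ, H13S.Abv.lt hw]
    intro h'
    exact d.2 ((w.valuation_lt_one_iff_mem _).1 h')
  refine ⟨φ n, ⟨n, rfl⟩, φ (d : 𝓞 L), ⟨_, rfl⟩, ?_⟩
  show φ n / φ (d : 𝓞 L) = _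
  rw [div_eq_iff hd0]
  show IsLocalRing.residue V (f n) = IsLocalRing.residue V ⟨z, hz⟩ * IsLocalRing.residue V (f d)
  rw [← map_mul]
  congr 1
  apply Subtype.ext
  have h3 := congrArg (fun t : L => (t : Ω)) hnd
  exact h3.symm

omit [IQ F] in
/-- Chunk G6 (M). Every point of the reduction has finite order. Suppose n • P is not in Ker for all n ≥ 1. All xc (n • P), yc (n • P) lie in V and in M = F(xc P, yc P), a finite extension of F (Ω is algebraic over F; a number field: NumberField M). The residue field of V ∩ M is finite: if M is not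
contained in V then V lies above a prime w of M (H13S.exists_below, VW.lean; Abv.lt), 𝓞 M ⧸ w.asIdeal is finite and every element of V ∩ M is congruent to an element of 𝓞 M modulo V (H13S.in4 / residue classes), or use H13S.qi_res (QI.lean): for x with V(x) ≤ 1 there is k > 0 with V(x^(q^(k m)) - x) < 1 for
all m, so with a common exponent N = q^K every element of V ∩ M is a root of X^N - X modulo V: finitely many classes. (M in V is impossible: 1/q is in M.) So two points n • P, n' • P, n < n', have coordinates congruent modulo V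
(pigeonhole), and (n' - n) • P is in Ker by cls_xy. The coordinates of n • P are in M: Affine.Point.map along M → Ω (the points with coordinates in M form a subgroup), see H55P.fix_iff or pt_open for the style: or argue with M' = a finite extension such that all s fixing M' fix P
(H55P.pt_open), then they fix n • P, so its coordinates (H55P.ps5_mem). -/
theorem ker_fin [IsAlgClosure F Ω] (hV : GV A B V) (q : ℕ) (hq : q.Prime) (hv : V.valuation (q : Ω) < 1)
    (P : Pt (WAB A B) Ω) : ∃ n : ℕ, 0 < n ∧ Ker V (n • P) := by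
  classical
  by_contra hc
  push Not at hc
  have hac : IsAlgClosed Ω := IsAlgClosure.isAlgClosed F
  have hal : Algebra.IsAlgebraic F Ω := IsAlgClosure.isAlgebraic
  have hcz : CharZero Ω := charZero_of_injective_algebraMap (algebraMap F Ω).injective
  obtain ⟨L, hL, hfix⟩ := H55P.pt_open (WAB A B) P
  have hfd : FiniteDimensional F L := hL
  have hnf : NumberField L := by
    have h1 : FiniteDimensional ℚ L := FiniteDimensional.trans ℚ F L
    exact { to_charZero := inferInstance, to_finiteDimensional := h1 }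
  have hfixn : ∀ (n : ℕ), ∀ s ∈ L.fixingSubgroup, ac (WAB A B) s (n • P) = n • P := by
    intro n s hs
    rw [map_nsmul, hfix s hs]
  have hxL : ∀ n : ℕ, xc (n • P) ∈ L := fun n => H55P.ps5_mem L fun s hs => by
    rw [← xc_ac (WAB A B), hfixn n s hs]
  have hyL : ∀ n : ℕ, yc (n • P) ∈ L := fun n => H55P.ps5_mem L fun s hs => by
    rw [← yc_ac (WAB A B), hfixn n s hs]
  have hk : ∀ n : ℕ, ¬ Ker V ((n + 1) • P) := fun n => hc (n + 1) n.succ_pos
  have hxV : ∀ n : ℕ, xc ((n + 1) • P) ∈ V := fun n =>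
    (V.valuation_le_one_iff _).1 (not_ker V (hk n)).2
  have hyV : ∀ n : ℕ, yc ((n + 1) • P) ∈ V := fun n => (V.valuation_le_one_iff _).1 (gv_y hV (hk n))
  obtain ⟨S, hS, hSm⟩ := g6_fin L V q hq hv
  have hfin : Finite S := hS
  let g : ℕ → S × S := fun n =>
    (⟨IsLocalRing.residue V ⟨xc ((n + 1) • P), hxV n⟩, hSm ⟨_, hxL (n + 1)⟩ (hxV n)⟩,
      ⟨IsLocalRing.residue V ⟨yc ((n + 1) • P), hyV n⟩, hSm ⟨_, hyL (n + 1)⟩ (hyV n)⟩)
  have key : ∀ m n : ℕ, m < n → g m = g n → False := by
    intro m n hmn hg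
    have h1 := congrArg (fun z => (z.1 : IsLocalRing.ResidueField V)) hg
    have h2 := congrArg (fun z => (z.2 : IsLocalRing.ResidueField V)) hg
    have h3 := cls_xy hV (hk n) (hk m) (g6_cong h1.symm) (g6_cong h2.symm)
    have e : (n + 1) • P - (m + 1) • P = (n - m) • P := by
      have e1 : n + 1 = (n - m) + (m + 1) := by omega
      rw [e1, add_nsmul P (n - m) (m + 1)]
      abel
    rw [e] at h3
    exact hc (n - m) (by omega) h3
  obtain ⟨m, n, hmn, hg⟩ := Finite.exists_ne_map_eq_of_infinite g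
  rcases lt_or_gt_of_ne hmn with h | h
  · exact key m n h hg
  · exact key n m h hg.symm

end H55K
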