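import Mathlib
import Pool.Agent.Lib.H55K.SD

/-! # H55K, part S: the two cases -/

open NumberField IsDedekindDomain WeierstrassCurve

namespace H55K.S

open H55P (IQ embF eF LF Per IsHecke Pt ac Inert Dec Nm)
open H35P (WAB Ker tt)
open H13S (Abv)

variable {F : Type} [Field F] [NumberField F] [IQ F] {A B : F} {Om : ℂ} {Ω : Type} [Field Ω] [DecidableEq Ω]
  [Algebra F Ω] {j : Ω →+* ℂ} {act : 𝓞 F →+* AddMonoid.End (Pt (WAB A B) Ω)}

theorem Nm_eq_one' {x : 𝓞 F} : Nm x = 1 ↔ IsUnit x := by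
  unfold Nm
  rw [Ideal.absNorm_eq_one_iff, Ideal.span_singleton_eq_top]

theorem Nm_ne_zero' {x : 𝓞 F} (hx : x ≠ 0) : Nm x ≠ 0 := fun h =>
  hx (Ideal.span_singleton_eq_bot.1 (Ideal.absNorm_eq_zero_iff.1 h))

/-- Associated elements kill the same points. -/
theorem tor_assoc {a b : 𝓞 F} (h : Associated a b) : Tor act a = Tor act b := by
  have key : ∀ x y : 𝓞 F, x ∣ y → Tor act x ≤ Tor act y := by
    rintro x y ⟨z, rfl⟩ P hP
    rw [mem_Tor] at hP ⊢
    rw [mul_comm, act_mul, hP, map_zero]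
  exact le_antisymm (key a b h.dvd) (key b a h.symm.dvd)

/-- The two cases: inert and split. -/
theorem dichotomy {l : ℕ} (hl : l.Prime) (unr : ∀ v : HeightOneSpectrum (𝓞 F), (l : 𝓞 F) ∉ v.asIdeal ^ 2)
    {π : 𝓞 F} (hπ : Prime π) (hd : π ∣ (l : 𝓞 F)) :
    (Associated (cj π) π ∧ Nm π = l ^ 2 ∧ Associated (l : 𝓞 F) π) ∨
      (¬ π ∣ cj π ∧ ¬ cj π ∣ π ∧ Nm π = l ∧ π * cj π = (l : 𝓞 F)) := by
  obtain ⟨u, hu⟩ := hd
  have h1 : Nm π * Nm u = l ^ 2 := by rw [← Nm_mul, ← hu, Nm_nat]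
  obtain ⟨k, hk2, hk⟩ := (Nat.dvd_prime_pow hl).1 (Dvd.intro _ h1)
  have hk0 : k ≠ 0 := by
    rintro rfl
    rw [pow_zero, Nm_eq_one'] at hk
    exact hπ.not_isUnit hk
  have hk12 : k = 1 ∨ k = 2 := by omega
  have hπ' := cj_prime hπ
  rcases hk12 with rfl | rfl
  · right
    rw [pow_one] at hk
    have h2 : π * cj π = (l : 𝓞 F) := by rw [mul_cj, hk]
    have key : ¬ Associated π (cj π) := by
      intro ha
      have hp : (Ideal.span {π}).IsPrime := (Ideal.span_singleton_prime hπ.ne_zero).2 hπ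
      refine unr ⟨Ideal.span {π}, hp, by rw [Ne, Ideal.span_singleton_eq_bot]; exact hπ.ne_zero⟩ ?_
      show (l : 𝓞 F) ∈ Ideal.span {π} ^ 2
      rw [Ideal.span_singleton_pow, Ideal.mem_span_singleton, ← h2, sq]
      exact mul_dvd_mul_left _ ha.dvd
    refine ⟨fun h => key (hπ.associated_of_dvd hπ' h), fun h => key (hπ'.associated_of_dvd hπ h).symm, hk, h2⟩
  · left
    have h3 : Nm u = 1 := by
      rw [hk] at h1
      exact (Nat.eq_of_mul_eq_mul_left (pow_pos hl.pos 2) (by rw [mul_one]; exact h1))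
    have h4 : Associated (l : 𝓞 F) π := by
      rw [hu]
      exact (associated_mul_unit_right π u (Nm_eq_one'.1 h3)).symm
    refine ⟨?_, hk, h4⟩
    have h5 : Associated (cj (l : 𝓞 F)) (cj π) := h4.map cj
    rw [cj_nat] at h5
    exact h5.symm.trans h4

/-- A prime element above l. -/
theorem exists_prime_above {l : ℕ} (hl : l.Prime) : ∃ π : 𝓞 F, Prime π ∧ π ∣ (l : 𝓞 F) := by
  have h0 : (l : 𝓞 F) ≠ 0 := Nat.cast_ne_zero.2 hl.ne_zero
  have hnu : ¬ IsUnit (l : 𝓞 F) := by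
    rw [← Nm_eq_one', Nm_nat]
    intro h
    have := hl.one_lt
    nlinarith
  have hP : IsPrincipalIdealRing (𝓞 F) := inferInstance
  obtain ⟨p, hp, hpl⟩ := WfDvdMonoid.exists_irreducible_factor hnu h0
  exact ⟨p, irreducible_iff_prime.1 hp, hpl⟩

omit [DecidableEq Ω] [NumberField F] [IQ F] in
theorem vo_assoc (V : ValuationSubring Ω) {a b : 𝓞 F} (h : Associated a b) (hle : ∀ x : 𝓞 F, vo V x ≤ 1) :
    vo V a = vo V b := by
  have key : ∀ x y : 𝓞 F, x ∣ y → vo V y ≤ vo V x := by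
    rintro x y ⟨z, rfl⟩
    rw [vo_mul]
    exact mul_le_of_le_one_right' (hle z)
  exact le_antisymm (key b a h.symm.dvd) (key a b h.dvd)

end H55K.S
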