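import Mathlib
import Pool.Agent.Lib.H55K.G6
import Pool.Agent.Lib.H55K.SDI
import Pool.Agent.Lib.H55K.SKR

/-! # H55K, part S: in the inert case the local point can be taken in the kernel of reduction -/

open NumberField IsDedekindDomain WeierstrassCurve

namespace H55K.S

open H55P (IQ embF eF LF Per IsHecke Pt ac Inert Dec Nm)
open H35P (WAB Ker tt)
open H13S (Abv)

variable {F : Type} [Field F] [NumberField F] [IQ F] {A B : F} {Om : ℂ} {Ω : Type} [Field Ω] [DecidableEq Ω]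
  [Algebra F Ω] [IsAlgClosure F Ω] {j : Ω →+* ℂ} {act : 𝓞 F →+* AddMonoid.End (Pt (WAB A B) Ω)} {mo : Ideal (𝓞 F)}
  {ψ : Ideal (𝓞 F) →*₀ 𝓞 F}

omit [IsAlgClosure F Ω] in
theorem qi_unit (hA : CMA F A B Om j act) {V : ValuationSubring Ω} (hG : GV A B V) {u : 𝓞 F} (hu : IsUnit u)
    {X : Pt (WAB A B) Ω} (hX : Ker V (act u X)) : Ker V X := by
  obtain ⟨v, hv⟩ := hu.exists_left_inv
  have h1 := kr_act hA hG v hX
  rwa [← act_mul, hv, act_one] at h1

omit [IsAlgClosure F Ω] in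
/-- Multiplication by l is injective on the reduction (supersingular case). -/
theorem qi_l (hA : CMA F A B Om j act) {V : ValuationSubring Ω} (hG : GV A B V) {π : 𝓞 F} {l : ℕ}
    (hπ : Prime π) (hV : vo V π < 1) (hlπ : Associated (l : 𝓞 F) π)
    {X : Pt (WAB A B) Ω} (hX : Ker V (l • X)) : Ker V X := by
  obtain ⟨u, hu⟩ := hlπ.symm
  rw [← act_nat (act := act), ← hu, act_mul] at hX
  exact qi_unit hA hG u.isUnit (ker_red hA hG hπ hV hX)

omit [IsAlgClosure F Ω] in
theorem qi_lpow (hA : CMA F A B Om j act) {V : ValuationSubring Ω} (hG : GV A B V) {π : 𝓞 F} {l : ℕ}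
    (hπ : Prime π) (hV : vo V π < 1) (hlπ : Associated (l : 𝓞 F) π) (k : ℕ)
    {X : Pt (WAB A B) Ω} (hX : Ker V (l ^ k • X)) : Ker V X := by
  induction k with
  | zero => rwa [pow_zero, one_smul] at hX
  | succ k ih =>
    rw [pow_succ', mul_smul] at hX
    exact ih (qi_l hA hG hπ hV hlπ hX)

/-- In the inert case the local point can be taken in the kernel of reduction. -/
theorem inert_point {π : 𝓞 F} {l : ℕ} {c : (Ω ≃ₐ[F] Ω) → Pt (WAB A B) Ω} (C : Cl A B Om j act mo ψ π l c)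
    (hlπ : Associated (l : 𝓞 F) π) (V : ValuationSubring Ω) (hG : GV A B V) (hV : vo V π < 1) :
    ∃ Q : Pt (WAB A B) Ω, Ker V Q ∧ ∀ s, Inert V s → c s = ac (WAB A B) s Q - Q := by
  have hA := C.cma
  have hl := C.hl
  have hVl : V.valuation (l : Ω) < 1 := by
    rw [← vo_nat (F := F), vo_assoc V hlπ (vo_le V)]
    exact hV
  obtain ⟨P, hP⟩ := C.loc V
  obtain ⟨n, hn0, hn⟩ := ker_fin (F := F) hG l hl hVl P
  obtain ⟨k, n', hn', hnn⟩ := Nat.exists_eq_pow_mul_and_not_dvd hn0.ne' l hl.ne_one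
  have hK : Ker V (n' • P) := by
    rw [hnn, mul_smul] at hn
    exact qi_lpow hA hG C.pr hV hlπ k hn
  have hco : IsCoprime (n' : ℤ) (l : ℤ) := by
    rw [Nat.isCoprime_iff_coprime]
    exact ((Nat.Prime.coprime_iff_not_dvd hl).2 hn').symm
  obtain ⟨a, b, hab⟩ := hco
  have hlc : ∀ s, (l : ℤ) • c s = 0 := by
    intro s
    obtain ⟨u, hu⟩ := C.dvd
    have h1 : (l : 𝓞 F) = cj u * cj π := by
      have h2 := congrArg cj hu
      rw [map_natCast, map_mul] at h2
      rw [h2, mul_comm]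
    rw [natCast_zsmul, ← act_nat (act := act), h1, act_mul, mem_Tor.1 (C.val s), map_zero]
  refine ⟨a • (n' • P), ?_, fun s hs => ?_⟩
  · have h1 := kr_act hA hG (a : 𝓞 F) hK
    have h2 : act (a : 𝓞 F) (n' • P) = a • (n' • P) := by
      rw [map_intCast]
      rfl
    rwa [h2] at h1
  · have h1 : c s = a • (n' • c s) := by
      have h2 : c s = ((a * n' + b * l : ℤ)) • c s := by rw [hab, one_smul]
      conv_lhs => rw [h2]
      rw [add_smul, mul_smul, mul_smul, hlc, smul_zero, add_zero, natCast_zsmul]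
    rw [h1, hP s hs, map_zsmul, map_nsmul, smul_sub, smul_sub]

end H55K.S
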