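import Mathlib
import Pool.Agent.Lib.H55K.G5D
import Pool.Agent.Lib.H55K.SD

/-! # H55K, part S: port of H13S/QR -/

open NumberField IsDedekindDomain WeierstrassCurve

namespace H55K.S

open H55P (IQ embF eF LF Per IsHecke Pt ac Inert Dec Nm)
open H35P (WAB Ker tt)
open H13S (Abv)




variable {F : Type} [Field F] [NumberField F] [IQ F] {A B : F} {Om : ℂ} {Ω : Type} [Field Ω] [DecidableEq Ω]
  [Algebra F Ω] [IsAlgClosure F Ω] {j : Ω →+* ℂ} {act : 𝓞 F →+* AddMonoid.End (Pt (WAB A B) Ω)} {mo : Ideal (𝓞 F)}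
  {ψ : Ideal (𝓞 F) →*₀ 𝓞 F}

/-- Chunk QR (S/M). Ratios of parameters. tau = V.valuation (tt R), tau^(q-1) = vo V pi = r^q, r = V.valuation (tt Q) < 1, q = Nm pi ≥ 3, so tau < r and r^2 < tau (tau^(q-1) = r^q > r^(2(q-1))).
kr_tt_add with c = r: V.valuation (tt (Q+R) - tt Q - tt R) ≤ r^2 < tau < r. So V.valuation (tt (Q+R)) = r and V.valuation (tt (Q + R) - tt Q) = tau. -/
theorem val_ratio (hA : CMA F A B Om j act) {π : 𝓞 F} (hπ : Prime π) (hq : 3 ≤ Nm π) (V : ValuationSubring Ω)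
    (hG : GV A B V) (hV : vo V π < 1) (Q : Pt (WAB A B) Ω) (hQ : Ker V Q) (hv : V.valuation (tt Q) ^ Nm π = vo V π)
    (R : Pt (WAB A B) Ω) (hR : R ∈ Tor act π) (h0 : R ≠ 0) :
    V.valuation (tt (Q + R)) = V.valuation (tt Q) ∧
      V.valuation (tt (Q + R) - tt Q) = V.valuation (tt R) ∧ V.valuation (tt R) < V.valuation (tt Q) := by
  obtain ⟨hKR, hτ⟩ : Ker V R ∧ V.valuation (tt R) ^ (Nm π - 1) = vo V π := tor_ram hA hG hπ hV hR h0
  have hπ0 : vo V π ≠ 0 := vo_ne V hπ.ne_zero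
  set r := V.valuation (tt Q) with hr
  set τ := V.valuation (tt R) with hτd
  have hq1 : Nm π - 1 ≠ 0 := by omega
  have hr0 : r ≠ 0 := by
    intro h
    rw [h, zero_pow (by omega)] at hv
    exact hπ0 hv.symm
  have hr1 : r < 1 := H35P.tt_lt (gv_good hG).toIntW Q hQ
  have hrp : 0 < r := zero_lt_iff.2 hr0
  have hlt : τ < r := by
    by_contra hle
    rw [not_lt] at hle
    have h1 : r ^ (Nm π - 1) ≤ τ ^ (Nm π - 1) := pow_le_pow_left₀ zero_le hle _
    rw [hτ, ← hv] at h1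
    exact absurd h1 (not_le.2 (pow_lt_pow_right_of_lt_one₀ hrp hr1 (by omega)))
  have hlt2 : r ^ 2 < τ := by
    by_contra hle
    rw [not_lt] at hle
    have h1 : τ ^ (Nm π - 1) ≤ (r ^ 2) ^ (Nm π - 1) := pow_le_pow_left₀ zero_le hle _
    rw [hτ, ← hv, ← pow_mul] at h1
    exact absurd h1 (not_le.2 (pow_lt_pow_right_of_lt_one₀ hrp hr1 (by omega)))
  have hadd := tt_add2 hG hQ hKR r le_rfl hlt.le
  have h4 : V.valuation (tt (Q + R) - tt Q) = τ := by
    have : tt (Q + R) - tt Q = (tt (Q + R) - tt Q - tt R) + tt R := by ring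
    rw [this]
    exact Valuation.map_add_eq_of_lt_right _ (lt_of_le_of_lt hadd hlt2)
  have h5 : V.valuation (tt (Q + R)) = r := by
    have : tt (Q + R) = (tt (Q + R) - tt Q) + tt Q := by ring
    rw [this]
    exact Valuation.map_add_eq_of_lt_right _ (by rw [h4]; exact hlt)
  exact ⟨h5, h4, hlt⟩

end H55K.S
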