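import Mathlib
import Pool.Agent.Lib.H55K.SD

/-! # H55K, part S: port of H13S/CH -/

open NumberField IsDedekindDomain WeierstrassCurve

namespace H55K.S

open H55P (IQ embF eF LF Per IsHecke Pt ac Inert Dec Nm)
open H35P (WAB Ker tt)
open H13S (Abv)




variable {F : Type} [Field F] [NumberField F] [IQ F] {A B : F} {Om : ℂ} {Ω : Type} [Field Ω] [DecidableEq Ω]
  [Algebra F Ω] [IsAlgClosure F Ω] {j : Ω →+* ℂ} {act : 𝓞 F →+* AddMonoid.End (Pt (WAB A B) Ω)} {mo : Ideal (𝓞 F)}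
  {ψ : Ideal (𝓞 F) →*₀ 𝓞 F}

/-- Chunk CH (S/M). The Galois character on the points killed by beta. From gi_gen: T₀ generates, act a T₀ = 0 iff beta divides a.
For s: ac s T₀ lies in Tor, = act a T₀, a unique modulo beta, prime to beta (ac s is injective); chi s = class of a, a unit of the field
𝓞 F/beta (span {beta} maximal). Multiplicative: ac (s t) T₀ = ac s (act a_t T₀) = act a_t (act a_s T₀) (ac_act hA). -/
theorem exists_chi (hA : CMA F A B Om j act) (β : 𝓞 F) (hβ : Prime β) :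
    ∃ χ : (Ω ≃ₐ[F] Ω) →* (𝓞 F ⧸ Ideal.span {β})ˣ,
      (∀ s (a : 𝓞 F), Ideal.Quotient.mk (Ideal.span {β}) a = (χ s : 𝓞 F ⧸ Ideal.span {β}) →
        ∀ T ∈ Tor act β, ac (WAB A B) s T = act a T) ∧
      ∀ s, (∀ T ∈ Tor act β, ac (WAB A B) s T = T) → χ s = 1 := by
  obtain ⟨-, T₀, hT₀, hgen, hker⟩ := gi_gen hA β hβ
  have hq : ∀ a b : 𝓞 F, act a T₀ = act b T₀ ↔
      Ideal.Quotient.mk (Ideal.span {β}) a = Ideal.Quotient.mk (Ideal.span {β}) b := by
    intro a b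
    rw [Ideal.Quotient.eq, Ideal.mem_span_singleton, ← hker, act_sub, sub_eq_zero]
  choose a ha using fun s : Ω ≃ₐ[F] Ω => hgen (ac (WAB A B) s T₀) (ac_mem hA s hT₀)
  obtain ⟨f, hf⟩ : ∃ f : (Ω ≃ₐ[F] Ω) →* (𝓞 F ⧸ Ideal.span {β}), ∀ s, f s =
      Ideal.Quotient.mk (Ideal.span {β}) (a s) := by
    refine ⟨⟨⟨fun s => Ideal.Quotient.mk (Ideal.span {β}) (a s), ?_⟩, ?_⟩, fun _ => rfl⟩
    · have h1 : act (a 1) T₀ = act (1 : 𝓞 F) T₀ := by rw [← ha, ac_one, act_one]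
      rw [(hq _ _).1 h1, map_one]
    · intro s t
      have h1 : act (a (s * t)) T₀ = act (a s * a t) T₀ := by
        rw [← ha, ac_mul, ha t, ac_act hA, ha s, ← act_mul, mul_comm]
      show Ideal.Quotient.mk (Ideal.span {β}) (a (s * t)) = _
      rw [(hq _ _).1 h1, map_mul]
  refine ⟨f.toHomUnits, ?_, ?_⟩
  · intro s b hb T hT
    have hb' : Ideal.Quotient.mk (Ideal.span {β}) b = Ideal.Quotient.mk (Ideal.span {β}) (a s) := by
      rw [hb, MonoidHom.coe_toHomUnits, hf]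
    obtain ⟨d, rfl⟩ := hgen T hT
    rw [ac_act hA, ha s, ← act_mul, ← act_mul, mul_comm, act_mul, mul_comm b d, act_mul,
      (hq _ _).2 hb']
    rw [← act_mul, ← act_mul, mul_comm]
  · intro s hs
    apply Units.ext
    rw [MonoidHom.coe_toHomUnits, hf, Units.val_one]
    have h1 : act (a s) T₀ = act (1 : 𝓞 F) T₀ := by rw [← ha, hs T₀ hT₀, act_one]
    rw [(hq _ _).1 h1, map_one]

/-- The pointwise stabilizer of the points killed by beta has finite index dividing Nm beta - 1. -/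
theorem stab_index (hA : CMA F A B Om j act) (β : 𝓞 F) (hβ : Prime β) :
    ∃ N : Subgroup (Ω ≃ₐ[F] Ω), (∀ s, s ∈ N ↔ ∀ T ∈ Tor act β, ac (WAB A B) s T = T) ∧ N.Normal ∧
      N.index ∣ Nm β - 1 ∧ N.index ≠ 0 := by
  obtain ⟨χ, h1, h2⟩ := exists_chi hA β hβ
  have hp : (Ideal.span {β}).IsPrime := (Ideal.span_singleton_prime hβ.ne_zero).2 hβ
  have hbot : Ideal.span {β} ≠ ⊥ := by
    rw [Ne, Ideal.span_singleton_eq_bot]
    exact hβ.ne_zero
  have hm : (Ideal.span {β}).IsMaximal := hp.isMaximal hbot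
  have hfin : Finite (𝓞 F ⧸ Ideal.span {β}) := Ideal.finiteQuotientOfFreeOfNeBot _ hbot
  have hcard : Nat.card (𝓞 F ⧸ Ideal.span {β})ˣ = Nm β - 1 := by
    letI := Ideal.Quotient.field (Ideal.span {β})
    exact Nat.card_units (𝓞 F ⧸ Ideal.span {β})
  refine ⟨χ.ker, ?_, inferInstance, ?_, ?_⟩
  · intro s
    rw [MonoidHom.mem_ker]
    constructor
    · intro hs T hT
      have h := h1 s 1 (by rw [hs, map_one, Units.val_one]) T hT
      rw [h, act_one]
    · exact h2 s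
  · rw [Subgroup.index_ker, ← hcard]
    exact Subgroup.card_subgroup_dvd_card _
  · rw [Subgroup.index_ker]
    exact Nat.card_pos.ne'

end H55K.S
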