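import Mathlib
import Pool.Agent.Lib.H13S.CO1
import Pool.Agent.Lib.H55K.SCH

/-! # H55K, part S: port of H13S/CO2 -/

open NumberField IsDedekindDomain WeierstrassCurve

namespace H55K.S

open H55P (IQ embF eF LF Per IsHecke Pt ac Inert Dec Nm)
open H35P (WAB Ker tt)
open H13S (Abv)




variable {F : Type} [Field F] [NumberField F] [IQ F] {A B : F} {Om : ℂ} {Ω : Type} [Field Ω] [DecidableEq Ω]
  [Algebra F Ω] [IsAlgClosure F Ω] {j : Ω →+* ℂ} {act : 𝓞 F →+* AddMonoid.End (Pt (WAB A B) Ω)} {mo : Ideal (𝓞 F)}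
  {ψ : Ideal (𝓞 F) →*₀ 𝓞 F}

theorem CO2_Nm {π : 𝓞 F} {l : ℕ} (hl : l.Prime) (hp : Prime π) (hd : π ∣ (l : 𝓞 F)) : l ∣ Nm π := by
  obtain ⟨u, hu⟩ := hd
  have h2 : Nm π ∣ l ^ 2 := by
    rw [← Nm_nat (F := F) l, hu, Nm_mul]
    exact dvd_mul_right _ _
  obtain ⟨k, -, hk⟩ := (Nat.dvd_prime_pow hl).1 h2
  have hk0 : k ≠ 0 := by
    rintro rfl
    rw [pow_zero] at hk
    unfold Nm at hk
    rw [Ideal.absNorm_eq_one_iff, Ideal.span_singleton_eq_top] at hk
    exact hp.not_isUnit hk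
  rw [hk]
  exact dvd_pow_self _ hk0

theorem CO2_cop {l m n : ℕ} (hl : l.Prime) (h : l ∣ m) (hm : m ≠ 0) (hn : n ∣ m - 1) : l.Coprime n := by
  rw [Nat.Prime.coprime_iff_not_dvd hl]
  intro h1
  have h2 : l ∣ m - 1 := h1.trans hn
  have h3 : l ∣ 1 := by
    have h4 : m - (m - 1) = 1 := by omega
    rw [← h4]
    exact Nat.dvd_sub h h2
  exact hl.one_lt.ne' (Nat.dvd_one.1 h3)

/-- Chunk CO2 (M). If all Kummer generators are trivial then c is a coboundary. N₀ = the elements fixing Tor pi and Tor (cj pi) pointwise: intersection of the two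
subgroups of stab_index, index divides (Nm pi - 1)(Nm (cj pi) - 1) (relIndex/index of an intersection of normal subgroups divides the product), prime to l (Nm pi = l or l^2 because pi divides
l; Nm (cj pi) = Nm pi), not 0. For s in N₀: s fixes all values e X T (he.gal); they contain a primitive l-th root of unity (if Tor (cj pi) has a nonzero point X, he.nondeg gives T with
e X T ≠ 1; gi_gen), so s fixes all l-th roots of unity. For T: y^l = z^l, y = xi z, xi^l = 1, s y = y (s in L.fixingSubgroup by IsTF), so e (c s) T = 1 for all T and c s = 0 by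
nondegeneracy. cob_of_vanish with B = Tor (cj pi), l • c s = 0 (act (l) = act (l/cj pi) act (cj pi); cj pi divides l). -/
theorem cob_of_kum {π : 𝓞 F} {l : ℕ} {c : (Ω ≃ₐ[F] Ω) → Pt (WAB A B) Ω} (C : Cl A B Om j act mo ψ π l c) {e : Pt (WAB A B) Ω → Pt (WAB A B) Ω → Ω}
    (he : Pairing A B act π l e) {L : IntermediateField F Ω} (hL : IsTF act π L)
    (h : ∀ T ∈ Tor act π, ∃ y : Ω, Kum L e c T y ∧ ∃ z : L, y ^ l = (z : Ω) ^ l) :
    ∃ X ∈ Tor act (cj π), ∀ s, c s = ac (WAB A B) s X - X := by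
  have hA := C.cma
  obtain ⟨N₁, hN₁, hn₁, hd₁, h0₁⟩ := stab_index hA π C.pr
  obtain ⟨N₂, hN₂, hn₂, hd₂, h0₂⟩ := stab_index hA (cj π) (cj_prime C.pr)
  have hlN : l ∣ Nm π := CO2_Nm C.hl C.pr C.dvd
  have hN0 : Nm π ≠ 0 := fun h => C.pr.ne_zero (Ideal.span_singleton_eq_bot.1 (Ideal.absNorm_eq_zero_iff.1 h))
  rw [Nm_cj] at hd₂
  have hidx : (N₁ ⊓ N₂).index = N₁.relIndex N₂ * N₂.index := by
    rw [← Subgroup.relIndex_mul_index (inf_le_right : N₁ ⊓ N₂ ≤ N₂), Subgroup.inf_relIndex_right]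
  have hrel : N₁.relIndex N₂ ∣ N₁.index := Subgroup.relIndex_dvd_index_of_normal N₁ N₂
  have hcop : l.Coprime (N₁ ⊓ N₂).index := by
    rw [hidx]
    exact Nat.Coprime.mul_right (CO2_cop C.hl hlN hN0 (hrel.trans hd₁)) (CO2_cop C.hl hlN hN0 hd₂)
  have hne : (N₁ ⊓ N₂).index ≠ 0 := by
    rw [hidx]
    refine mul_ne_zero (fun h => h0₁ ?_) h0₂
    rw [h] at hrel
    exact Nat.eq_zero_of_zero_dvd hrel
  have hlc : ∀ s, l • c s = 0 := by
    intro s
    obtain ⟨u, hu⟩ := C.dvd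
    have h1 : (l : 𝓞 F) = cj u * cj π := by
      have h2 := congrArg cj hu
      rw [map_natCast, map_mul] at h2
      rw [h2, mul_comm]
    have h3 : act (cj π) (c s) = 0 := C.val s
    rw [← act_nat (act := act), h1, act_mul, h3, map_zero]
  have hvan : ∀ s ∈ N₁ ⊓ N₂, c s = 0 := by
    intro s hs
    obtain ⟨hs₁, hs₂⟩ := Subgroup.mem_inf.1 hs
    rw [hN₁] at hs₁
    rw [hN₂] at hs₂
    refine he.nondeg _ (C.val s) ?_
    intro T hT
    by_contra hne1
    obtain ⟨y, hy, z, hz⟩ := h T hT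
    have hroot := he.root _ (C.val s) T hT
    have hprim : IsPrimitiveRoot (e (c s) T) l := by
      have h1 : Fact l.Prime := ⟨C.hl⟩
      rw [← orderOf_eq_prime hroot hne1]
      exact IsPrimitiveRoot.orderOf _
    have hfix : s (e (c s) T) = e (c s) T := by
      rw [he.gal s _ (C.val s) T hT, hs₂ _ (C.val s), hs₁ T hT]
    have hsL : s ∈ L.fixingSubgroup := (hL.2 s).2 hs₁
    have hy0 : y ≠ 0 := hy.1
    have hz0 : (z : Ω) ≠ 0 := by
      intro h0
      rw [h0, zero_pow C.hl.ne_zero] at hz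
      exact pow_ne_zero _ hy0 hz
    have h2 : (y / z) ^ l = 1 := by
      rw [div_pow, hz]
      exact div_self (pow_ne_zero _ hz0)
    have hl0 : NeZero l := ⟨C.hl.ne_zero⟩
    obtain ⟨i, -, hi⟩ := hprim.eq_pow_of_pow_eq_one h2
    have h3 : y = e (c s) T ^ i * z := by
      rw [hi, div_mul_cancel₀ _ hz0]
    have h4 : s (z : Ω) = z := by
      rw [IntermediateField.mem_fixingSubgroup_iff] at hsL
      exact hsL _ z.2
    have h5 : s y = y := by
      rw [h3, map_mul, map_pow, hfix, h4]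
    have h6 := hy.2 s hsL
    rw [h5] at h6
    exact hne1 (mul_right_cancel₀ hy0 (by rw [one_mul]; exact h6.symm))
  exact H13S.cob_of_vanish (fun s => (ac (WAB A B) s : Pt (WAB A B) Ω →+ Pt (WAB A B) Ω)) (fun s t P => ac_mul s t P) c C.mul
    (N₁ ⊓ N₂) hne hvan l hcop hlc (Tor act (cj π)) C.val

end H55K.S
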