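import Mathlib
import Pool.Agent.Lib.H13S.IN4
import Pool.Agent.Lib.H55K.SCO
import Pool.Agent.Lib.H55K.SKR

/-! # H55K, part S: port of H13S/QV -/

open NumberField IsDedekindDomain WeierstrassCurve

namespace H55K.S

open H55P (IQ embF eF LF Per IsHecke Pt ac Inert Dec Nm)
open H35P (WAB Ker tt)
open H13S (Abv)




variable {F : Type} [Field F] [NumberField F] [IQ F] {A B : F} {Om : ℂ} {Ω : Type} [Field Ω] [DecidableEq Ω]
  [Algebra F Ω] [IsAlgClosure F Ω] {j : Ω →+* ℂ} {act : 𝓞 F →+* AddMonoid.End (Pt (WAB A B) Ω)} {mo : Ideal (𝓞 F)}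
  {ψ : Ideal (𝓞 F) →*₀ 𝓞 F}

omit [IsAlgClosure F Ω] in
theorem qv_add {V : ValuationSubring Ω} (hG : GV A B V) {P Q : Pt (WAB A B) Ω} (hP : Ker V P) (hQ : Ker V Q) (c : V.ValueGroup)
    (hc : c ≤ 1) (h1 : V.valuation (tt P) ≤ c) (h2 : V.valuation (tt Q) ≤ c) :
    V.valuation (tt (P + Q)) ≤ c := by
  have h3 := kr_tt_add hG hP hQ c h1 h2
  have h4 : c ^ 2 ≤ c := by
    rw [sq]
    exact (mul_le_mul' le_rfl hc).trans_eq (mul_one c)
  have e : tt (P + Q) = (tt (P + Q) - tt P - tt Q) + tt P + tt Q := by ring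
  rw [e]
  exact Valuation.map_add_le _ (Valuation.map_add_le _ (h3.trans h4) h1) h2

omit [IsAlgClosure F Ω] in
theorem qv_neg (hA : CMA F A B Om j act) {V : ValuationSubring Ω} (hG : GV A B V) {P : Pt (WAB A B) Ω}
    (hP : Ker V P) : Ker V (-P) ∧ V.valuation (tt (-P)) ≤ V.valuation (tt P) := by
  have e : act (-1 : 𝓞 F) P = -P := by rw [act_neg, act_one]
  have h1 := kr_act hA hG (-1) hP
  have h2 := kr_tt_act hA hG (-1) hP
  rw [e] at h1 h2
  refine ⟨h1, ?_⟩
  have h3 : ak Ω (-1 : 𝓞 F) = -1 := by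
    unfold ak
    have : (((-1 : 𝓞 F) : 𝓞 F) : F) = -1 := by
      have h4 := map_neg (algebraMap (𝓞 F) F) 1
      rw [map_one] at h4
      exact h4
    rw [this, map_neg, map_one]
  rw [h3] at h2
  have h5 : V.valuation (tt P) ≤ 1 := (kr_tt_lt hG hP).le
  have h6 : V.valuation (tt P) ^ 2 ≤ V.valuation (tt P) := by
    rw [sq]
    exact (mul_le_mul' le_rfl h5).trans_eq (mul_one _)
  have e2 : tt (-P) = (tt (-P) - -1 * tt P) + -tt P := by ring
  rw [e2]
  refine Valuation.map_add_le _ (h2.trans h6) ?_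
  rw [Valuation.map_neg]

omit [DecidableEq Ω] [IsAlgClosure F Ω] [Algebra F Ω] [Field Ω] in
theorem qv_q {π : 𝓞 F} {l : ℕ} (hl : l.Prime) (h5 : 5 ≤ l) (hp : Prime π) (hd : π ∣ (l : 𝓞 F)) : 3 ≤ Nm π := by
  have h1 := CO2_Nm hl hp hd
  have h0 : Nm π ≠ 0 := fun h => hp.ne_zero (Ideal.span_singleton_eq_bot.1 (Ideal.absNorm_eq_zero_iff.1 h))
  have := Nat.le_of_dvd (Nat.pos_of_ne_zero h0) h1
  omega

/-- Chunk QV (M). The size of the local point. q = Nm pi ≥ 25 (pi divides l ≥ 5, cj pi = pi), tau = V.valuation (tt R) for R ≠ 0 in Tor pi: tau^(q-1) = vo V pi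
(kr_tor_ram). X₀ = act pi Q is in the kernel of reduction (kr_act) and fixed by all s with Inert V s (act pi (c s) = 0), so its coordinates and tt X₀ are fixed; value_fixed for the bottom field: V.valuation (tt X₀) is the
value of an element of F, so (vo V pi)^n with n an integer (pi generates the prime of F below V), n ≥ 1, or tt X₀ = 0. R₀ = c s₀ ≠ 0 is in Tor pi, R₀ = ac s₀ (Q + R) - (Q + R) for every
R in Tor pi (s₀ fixes Tor pi), V.valuation (tt (ac s₀ P)) = V.valuation (tt P) for P in the kernel of reduction, so tau = V.valuation (tt R₀) ≤ V.valuation (tt (Q + R)) for all R (kr_tt_add with c = V.valuation (tt (Q+R)); tt (-P): use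
kr_tt_act with a = -1). In particular tt X₀ ≠ 0 (kr_prod: the product of q nonzero values). If V.valuation (tt Q) > tau: V.valuation (tt (Q + R)) = V.valuation (tt Q) for all R (kr_tt_add), kr_prod: V.valuation (tt Q)^q = (vo V pi)^n,
> tau^q, so (vo V pi)^(n (q-1)) > (vo V pi)^q, n (q - 1) < q, n = 1: done. If V.valuation (tt Q) = tau: all V.valuation (tt (Q + R)) are ≤ tau (kr_tt_add), hence = tau, tau^q = (vo V pi)^n, tau = (vo V pi)^(n-1), tau^(q-1) = vo V pi
= (vo V pi)^((n-1)(q-1)): impossible. -/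
theorem val_point {π : 𝓞 F} {l : ℕ} {c : (Ω ≃ₐ[F] Ω) → Pt (WAB A B) Ω} (C : Cl A B Om j act mo ψ π l c) (hin : Tor act (cj π) = Tor act π)
    (V : ValuationSubring Ω) (hG : GV A B V) (hV : vo V π < 1) (Q : Pt (WAB A B) Ω) (hQ : Ker V Q)
    (hc : ∀ s, Inert V s → c s = ac (WAB A B) s Q - Q) (L : IntermediateField F Ω) (hL : IsTF act π L)
    (s₀ : Ω ≃ₐ[F] Ω) (h1 : s₀ ∈ L.fixingSubgroup) (h2 : Inert V s₀) (h3 : c s₀ ≠ 0) :
    V.valuation (tt Q) ^ Nm π = vo V π := by
  have hA := C.cma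
  have hF : IsAlgClosed Ω := IsAlgClosure.isAlgClosed F
  have hal : Algebra.IsAlgebraic F Ω := IsAlgClosure.isAlgebraic
  have hval : ∀ s, c s ∈ Tor act π := fun s => by
    have := C.val s
    rwa [hin] at this
  set ϖ := vo V π with hϖ
  set q := Nm π with hq
  have hq3 : 3 ≤ q := qv_q C.hl C.five C.pr C.dvd
  have hϖ0 : ϖ ≠ 0 := vo_ne V C.pr.ne_zero
  have hϖp : 0 < ϖ := zero_lt_iff.2 hϖ0
  -- the value of the points killed by pi
  set R₀ := c s₀ with hR₀
  obtain ⟨hR₀K, hR₀q⟩ : Ker V R₀ ∧ V.valuation (tt R₀) ^ (Nm π - 1) = vo V π := kr_tor_ram hA hG π C.pr hV (hval s₀) h3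
  set τ := V.valuation (tt R₀) with hτ
  have hτ0 : 0 < τ := by
    rw [zero_lt_iff]
    intro h
    have h4 : τ ^ (q - 1) = ϖ := hR₀q
    rw [h, zero_pow (by omega)] at h4
    exact hϖ0 h4.symm
  have hτ1 : τ < 1 := kr_tt_lt hG hR₀K
  have hTor : ∀ R ∈ Tor act π, Ker V R ∧ V.valuation (tt R) ≤ τ := by
    intro R hR
    by_cases h0 : R = 0
    · rw [h0]
      refine ⟨ker_zero V, ?_⟩
      have : tt (0 : Pt (WAB A B) Ω) = 0 := rfl
      rw [this, map_zero]
      exact zero_le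
    · obtain ⟨h4, h5⟩ := kr_tor_ram hA hG π C.pr hV hR h0
      refine ⟨h4, le_of_eq ?_⟩
      have h6 : V.valuation (tt R) ^ (q - 1) = τ ^ (q - 1) := h5.trans hR₀q.symm
      exact (pow_left_inj₀ zero_le zero_le (by omega)).1 h6
  -- translates
  have hs₀ : ∀ R ∈ Tor act π, ac (WAB A B) s₀ R = R := (hL.2 s₀).1 h1
  have hlow : ∀ R ∈ Tor act π, Ker V (Q + R) ∧ τ ≤ V.valuation (tt (Q + R)) := by
    intro R hR
    have hK := kr_add hG hQ (hTor R hR).1
    refine ⟨hK, ?_⟩
    have e : R₀ = ac (WAB A B) s₀ (Q + R) + -(Q + R) := by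
      rw [hR₀, hc s₀ h2, map_add, hs₀ R hR]
      abel
    obtain ⟨n1, n2⟩ := qv_neg hA hG hK
    have e2 : V.valuation (tt (ac (WAB A B) s₀ (Q + R))) = V.valuation (tt (Q + R)) := by
      rw [tt_ac, qv_val V s₀ h2]
    rw [hτ, e]
    exact qv_add hG (kr_dec s₀ (in_dec s₀ h2) hK) n1 _ (kr_tt_lt hG hK).le e2.le n2
  -- the point X₀
  have hX₀K := kr_act hA hG π hQ
  have hprod := kr_prod hA hG π C.pr hV hQ
  obtain ⟨hcard, -⟩ := gi_gen hA π C.pr
  have hfin : Finite (Tor act π) := by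
    apply Nat.finite_of_card_ne_zero
    rw [hcard]
    omega
  let _ : Fintype (Tor act π) := Fintype.ofFinite _
  rw [finprod_eq_prod_of_fintype] at hprod
  have hX₀v : V.valuation (tt (act π Q)) ≠ 0 := by
    rw [← hprod]
    refine Finset.prod_ne_zero_iff.2 fun R _ => ?_
    exact (hτ0.trans_le (hlow R.1 R.2).2).ne'
  have hX₀t : tt (act π Q) ≠ 0 := (Valuation.ne_zero_iff _).1 hX₀v
  have hfix : ∀ s ∈ (⊥ : IntermediateField F Ω).fixingSubgroup, Inert V s →
      s (tt (act π Q)) = tt (act π Q) := by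
    intro s _ hs
    have e1 : ac (WAB A B) s Q = Q + c s := by
      rw [hc s hs]
      abel
    rw [← tt_ac, ac_act hA, e1, map_add, mem_Tor.1 (hval s), add_zero]
  have hNF : NumberField (⊥ : IntermediateField F Ω) := NumberField.of_module_finite F _
  obtain ⟨a, ha, hva⟩ := H13S.value_fixed (⊥ : IntermediateField F Ω) V _ hX₀t hfix
  obtain ⟨a', ha'⟩ := IntermediateField.mem_bot.1 a.2
  have ha'0 : a' ≠ 0 := by
    rintro rfl
    rw [map_zero] at ha'
    exact ha (Subtype.ext ha'.symm)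
  obtain ⟨k, hk⟩ := qv_intpow V C.pr hV a' ha'0
  rw [ha'] at hk
  have hXk : V.valuation (tt (act π Q)) = ϖ ^ k := hva.trans hk
  have hk1 : 0 < k := by
    by_contra hcon
    push Not at hcon
    have h4 : V.valuation (tt (act π Q)) < 1 := kr_tt_lt hG hX₀K
    rw [hXk] at h4
    have h5 : 1 ≤ ϖ ^ k := by
      rw [← neg_neg k, zpow_neg]
      have h6 : 0 < ϖ ^ (-k) := zpow_pos hϖp _
      rw [one_le_inv₀ h6]
      obtain ⟨n, hn⟩ := Int.eq_ofNat_of_zero_le (neg_nonneg.2 hcon)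
      rw [hn]
      exact pow_le_one' hV.le n
    exact absurd h4 (not_lt.2 h5)
  obtain ⟨n, rfl⟩ := Int.eq_ofNat_of_zero_le hk1.le
  have hn1 : 0 < n := by exact_mod_cast hk1
  have hXn : V.valuation (tt (act π Q)) = ϖ ^ n := hXk
  -- strict monotonicity of the powers
  have hlt : ∀ i j : ℕ, ϖ ^ i < ϖ ^ j → j < i := by
    intro i j h
    by_contra hcon
    push Not at hcon
    exact absurd h (not_lt.2 (pow_le_pow_right_of_le_one' hV.le hcon))
  have heq : ∀ i j : ℕ, ϖ ^ i = ϖ ^ j → i = j := by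
    have hanti : StrictAnti (fun i : ℕ => ϖ ^ i) := by
      refine strictAnti_nat_of_succ_lt fun i => ?_
      rw [pow_succ]
      calc ϖ ^ i * ϖ < ϖ ^ i * 1 := mul_lt_mul_of_pos_left hV (pow_pos hϖp i)
        _ = ϖ ^ i := mul_one _
    exact fun i j h => hanti.injective h
  have hcard' : Fintype.card (Tor act π) = q := by
    rw [← Nat.card_eq_fintype_card]
    exact hcard
  have hQlow : τ ≤ V.valuation (tt Q) := by
    have := (hlow 0 (Tor act π).zero_mem).2
    rwa [add_zero] at this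
  have hQ1 : V.valuation (tt Q) < 1 := kr_tt_lt hG hQ
  rcases hQlow.lt_or_eq with hgt | heq'
  · have hall : ∀ R : Tor act π, V.valuation (tt (Q + (R : Pt (WAB A B) Ω))) = V.valuation (tt Q) := by
      intro R
      have h4 := (hTor R.1 R.2).2
      have h5 := kr_tt_add hG hQ (hTor R.1 R.2).1 (V.valuation (tt Q)) le_rfl (h4.trans hQlow)
      have h6 : V.valuation (tt Q) ^ 2 < V.valuation (tt Q) := by
        rw [sq]
        calc V.valuation (tt Q) * V.valuation (tt Q) < V.valuation (tt Q) * 1 :=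
              mul_lt_mul_of_pos_left hQ1 (hτ0.trans hgt)
          _ = _ := mul_one _
      have e : tt (Q + (R : Pt (WAB A B) Ω)) = tt Q + ((tt (Q + (R : Pt (WAB A B) Ω)) - tt Q - tt (R : Pt (WAB A B) Ω)) + tt (R : Pt (WAB A B) Ω)) := by
        ring
      rw [e]
      exact Valuation.map_add_eq_of_lt_left _ (Valuation.map_add_lt _ (h5.trans_lt h6) (h4.trans_lt hgt))
    rw [Finset.prod_congr rfl fun R _ => hall R, Finset.prod_const, Finset.card_univ, hcard', hXn] at hprod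
    have h7 : τ ^ (q * (q - 1)) < V.valuation (tt Q) ^ (q * (q - 1)) :=
      pow_lt_pow_left₀ hgt zero_le (Nat.mul_ne_zero (by omega) (by omega))
    have h8 : ϖ ^ q < ϖ ^ (n * (q - 1)) := by
      calc ϖ ^ q = τ ^ (q * (q - 1)) := by
            rw [mul_comm, pow_mul]
            exact congrArg (fun z => z ^ q) hR₀q.symm
        _ < V.valuation (tt Q) ^ (q * (q - 1)) := h7
        _ = ϖ ^ (n * (q - 1)) := by rw [pow_mul, hprod, ← pow_mul]
    have h9 := hlt _ _ h8
    have hn : n = 1 := by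
      by_contra hne
      have hn2 : 2 ≤ n := by omega
      have h10 : 2 * (q - 1) ≤ n * (q - 1) := Nat.mul_le_mul_right _ hn2
      omega
    rw [hn, pow_one] at hprod
    exact hprod
  · exfalso
    have hall : ∀ R : Tor act π, V.valuation (tt (Q + (R : Pt (WAB A B) Ω))) = τ := by
      intro R
      refine le_antisymm ?_ (hlow R.1 R.2).2
      exact qv_add hG hQ (hTor R.1 R.2).1 τ hτ1.le heq'.symm.le (hTor R.1 R.2).2
    rw [Finset.prod_congr rfl fun R _ => hall R, Finset.prod_const, Finset.card_univ, hcard', hXn] at hprod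
    have h8 : ϖ ^ q = ϖ ^ (n * (q - 1)) := by
      calc ϖ ^ q = τ ^ (q * (q - 1)) := by
            rw [mul_comm, pow_mul]
            exact congrArg (fun z => z ^ q) hR₀q.symm
        _ = ϖ ^ (n * (q - 1)) := by rw [pow_mul, hprod, ← pow_mul]
    have h9 := heq _ _ h8
    have h10 : (q - 1) ∣ q := ⟨n, h9.trans (mul_comm _ _)⟩
    have h11 : (q - 1) ∣ 1 := by
      have h12 := Nat.dvd_sub h10 (dvd_refl (q - 1))
      have e : q - (q - 1) = 1 := by omega
      rwa [e] at h12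
    have h12 := Nat.le_of_dvd one_pos h11
    omega

end H55K.S
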