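import Mathlib
import Pool.Agent.Lib.H13S.LD3
import Pool.Agent.Lib.H55K.SMU
import Pool.Agent.Lib.H55K.SQI
import Pool.Agent.Lib.H55K.SQR
import Pool.Agent.Lib.H55K.SQV

/-! # H55K, part S: port of H13S/LD3 -/

open NumberField IsDedekindDomain WeierstrassCurve

namespace H55K.S

open H55P (IQ embF eF LF Per IsHecke Pt ac Inert Dec Nm)
open H35P (WAB Ker tt)
open H13S (Abv)






variable {F : Type} [Field F] [NumberField F] [IQ F] {A B : F} {Om : ℂ} {Ω : Type} [Field Ω] [DecidableEq Ω]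
  [Algebra F Ω] [IsAlgClosure F Ω] {j : Ω →+* ℂ} {act : 𝓞 F →+* AddMonoid.End (Pt (WAB A B) Ω)} {mo : Ideal (𝓞 F)}
  {ψ : Ideal (𝓞 F) →*₀ 𝓞 F}

theorem ld3_e0 {π : 𝓞 F} {l : ℕ} (hl : l ≠ 0) {e : Pt (WAB A B) Ω → Pt (WAB A B) Ω → Ω} (he : Pairing A B act π l e) {T : Pt (WAB A B) Ω}
    (hT : T ∈ Tor act π) : e 0 T = 1 := by
  have h0 : (0 : Pt (WAB A B) Ω) ∈ Tor act (cj π) := AddSubgroup.zero_mem _
  have h1 := he.add_left 0 h0 0 h0 T hT
  have h2 := he.root 0 h0 T hT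
  rw [add_zero] at h1
  have h3 : e 0 T ≠ 0 := by
    intro h
    rw [h, zero_pow hl] at h2
    exact zero_ne_one h2
  exact (mul_eq_left₀ h3).1 h1.symm

theorem ld3_e0' {π : 𝓞 F} {l : ℕ} (hl : l ≠ 0) {e : Pt (WAB A B) Ω → Pt (WAB A B) Ω → Ω} (he : Pairing A B act π l e) {X : Pt (WAB A B) Ω}
    (hX : X ∈ Tor act (cj π)) : e X 0 = 1 := by
  have h0 : (0 : Pt (WAB A B) Ω) ∈ Tor act π := AddSubgroup.zero_mem _
  have h1 := he.add_right X hX 0 h0 0 h0
  have h2 := he.root X hX 0 h0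
  rw [add_zero] at h1
  have h3 : e X 0 ≠ 0 := by
    intro h
    rw [h, zero_pow hl] at h2
    exact zero_ne_one h2
  exact (mul_eq_left₀ h3).1 h1.symm

/-- Step D (final step for the level in the inert case). -/
theorem level_inert {π : 𝓞 F} {l : ℕ} {c : (Ω ≃ₐ[F] Ω) → Pt (WAB A B) Ω} (C : Cl A B Om j act mo ψ π l c) (hlπ : Associated (l : 𝓞 F) π)
    (hin : Tor act (cj π) = Tor act π) (hq : Nm π = l ^ 2) {e : Pt (WAB A B) Ω → Pt (WAB A B) Ω → Ω} (he : Pairing A B act π l e) {L : IntermediateField F Ω} (hL : IsTF act π L)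
    [NumberField L] (V : ValuationSubring Ω) (hG : GV A B V) (hV : vo V π < 1) (w : HeightOneSpectrum (𝓞 L)) (hw : Abv L V w)
    (T : Pt (WAB A B) Ω) (hT : T ∈ Tor act π) (m : L) (hm : m ≠ 0) (y : Ω) (hyk : Kum L e c T y) (hy : y ^ l = (m : Ω)) :
    ∃ z : L, z ≠ 0 ∧ w.valuation L (m / z ^ l - 1) ≤ WithZero.exp (-2 : ℤ) := by
  classical
  have hA := C.cma
  have hchar : CharZero Ω := charZero_of_injective_algebraMap (algebraMap F Ω).injective
  have hl0 : l ≠ 0 := C.hl.ne_zero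
  have hVl : V.valuation (l : Ω) = vo V π := by rw [← vo_nat (F := F), vo_assoc V hlπ (vo_le V)]
  have hVl1 : V.valuation (l : Ω) < 1 := hVl ▸ hV
  by_contra hlev
  have hex : ∃ s ∈ L.fixingSubgroup, Inert V s ∧ s y ≠ y := by
    by_contra hcon
    push Not at hcon
    exact hlev (H13S.level_unr L V w hw l C.hl hVl1 m hm y hy hcon)
  obtain ⟨s₁, hs1, hi1, hne1⟩ := hex
  have hTfix : ∀ s ∈ L.fixingSubgroup, ∀ R ∈ Tor act π, ac (WAB A B) s R = R := fun s hs => (hL.2 s).1 hs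
  have hcT : ∀ s, c s ∈ Tor act π := fun s => by
    have := C.val s
    rwa [hin] at this
  have hc1 : c s₁ ≠ 0 := by
    intro h0
    apply hne1
    rw [hyk.2 s₁ hs1, h0, ld3_e0 hl0 he hT, one_mul]
  have hT0 : T ≠ 0 := by
    intro h0
    apply hne1
    rw [hyk.2 s₁ hs1, h0, ld3_e0' hl0 he (C.val _), one_mul]
  obtain ⟨Q, hQ, hQc⟩ := inert_point C hlπ V hG hV
  have hr := val_point C hin V hG hV Q hQ hQc L hL s₁ hs1 hi1 hc1
  have hq3 : 3 ≤ Nm π := by
    rw [hq]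
    nlinarith [C.five]
  have hvr := fun R (hR : R ∈ Tor act π) (h0 : R ≠ 0) => val_ratio hA C.pr hq3 V hG hV Q hQ hr R hR h0
  have hcard : Nat.card (Tor act π) = Nm π := (gi_gen hA π C.pr).1
  have hfin : Finite (Tor act π) := Nat.finite_of_card_ne_zero (by rw [hcard]; omega)
  have hV0 : vo V π ≠ 0 := by
    unfold vo
    rw [Ne, map_eq_zero, map_eq_zero]
    exact_mod_cast C.pr.ne_zero
  have hQ0 : V.valuation (tt Q) ≠ 0 := by
    intro h0
    rw [h0, zero_pow (by omega)] at hr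
    exact hV0 hr.symm
  -- the set J
  have hJfin : {R : Pt (WAB A B) Ω | ∃ h ∈ L.fixingSubgroup, Inert V h ∧ h y = y ∧ c h = R}.Finite := by
    refine Set.Finite.subset (Set.toFinite (Tor act π : Set (Pt (WAB A B) Ω))) ?_
    rintro R ⟨h, -, -, -, rfl⟩
    exact hcT h
  set J : Finset (Pt (WAB A B) Ω) := hJfin.toFinset with hJ
  have hJmem : ∀ R, R ∈ J ↔ ∃ h ∈ L.fixingSubgroup, Inert V h ∧ h y = y ∧ c h = R := fun R => by
    rw [hJ, Set.Finite.mem_toFinset]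
    rfl
  have hJT : ∀ R ∈ J, R ∈ Tor act π := fun R hR => by
    obtain ⟨h, -, -, -, rfl⟩ := (hJmem R).1 hR
    exact hcT h
  have hJcard : J.card ≤ Nm π := by
    rw [← hcard]
    have h1 : (J : Set (Pt (WAB A B) Ω)) ⊆ (Tor act π : Set (Pt (WAB A B) Ω)) := fun R hR => hJT R hR
    calc J.card = Set.ncard (J : Set (Pt (WAB A B) Ω)) := (Set.ncard_coe_finset J).symm
      _ ≤ Set.ncard (Tor act π : Set (Pt (WAB A B) Ω)) := Set.ncard_le_ncard h1 (Set.toFinite _)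
      _ = Nat.card (Tor act π) := rfl
  have hJ0 : (0 : Pt (WAB A B) Ω) ∈ J := (hJmem 0).2 ⟨1, Subgroup.one_mem _, fun x _ => by simp, rfl, C.one⟩
  have hcadd : ∀ h ∈ L.fixingSubgroup, ∀ h' , c (h * h') = c h + c h' := fun h hh h' => by
    rw [C.mul, hTfix h hh _ (hcT h')]
  have hcinv : ∀ h ∈ L.fixingSubgroup, c h⁻¹ = -c h := fun h hh => by
    have h1 := hcadd h hh h⁻¹
    rw [mul_inv_cancel, C.one] at h1
    exact (neg_eq_of_add_eq_zero_right h1.symm).symm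
  -- values
  have hval : ∀ R ∈ Tor act π, V.valuation (tt (Q + R)) = V.valuation (tt Q) := fun R hR => by
    by_cases h0 : R = 0
    · rw [h0, add_zero]
    · exact (hvr R hR h0).1
  have htau : ∀ R ∈ Tor act π, R ≠ 0 → V.valuation (tt R) = V.valuation (tt T) := fun R hR h0 => by
    have h1 := (kr_tor_ram hA hG π C.pr hV hR h0).2
    have h2 := (kr_tor_ram hA hG π C.pr hV hT hT0).2
    exact (pow_left_inj₀ zero_le zero_le (by omega)).1 (h1.trans h2.symm)
  have hTQ : V.valuation (tt T) < V.valuation (tt Q) := (hvr T hT hT0).2.2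
  have hTv : V.valuation (tt T) ^ (Nm π - 1) = vo V π := (kr_tor_ram hA hG π C.pr hV hT hT0).2
  have hT0' : V.valuation (tt T) ≠ 0 := by
    intro h0
    rw [h0, zero_pow (by omega)] at hTv
    exact hV0 hTv.symm
  obtain ⟨a, ha⟩ : ∃ a, a = V.valuation (tt T) / V.valuation (tt Q) := ⟨_, rfl⟩
  have ha1 : a < 1 := by
    rw [ha]
    exact (div_lt_one₀ (zero_lt_iff.2 hQ0)).2 hTQ
  have ha0 : 0 < a := by
    rw [ha, zero_lt_iff]
    exact div_ne_zero hT0' hQ0
  have haq : a ^ (Nm π * (Nm π - 1)) = vo V π := by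
    have h1 : V.valuation (tt T) ^ (Nm π * (Nm π - 1)) = vo V π ^ Nm π := by
      rw [mul_comm, pow_mul, hTv]
    have h2 : V.valuation (tt Q) ^ (Nm π * (Nm π - 1)) = vo V π ^ (Nm π - 1) := by
      rw [pow_mul, hr]
    have h3 : vo V π ^ Nm π = vo V π ^ (Nm π - 1) * vo V π := by
      rw [← pow_succ]
      congr 1
      omega
    rw [ha, div_pow, h1, h2, h3]
    exact mul_div_cancel_left₀ _ (pow_ne_zero _ hV0)
  -- the bound
  have hbd := H13S.prod_bound V J hJ0 (fun R => tt T / tt (Q + R))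
    (fun R hR => by
      rw [map_div₀, hval R (hJT R hR), ← ha]
      exact ha1.le)
    {σ : Ω ≃+* Ω | ∃ h ∈ L.fixingSubgroup, Inert V h ∧ h y = y ∧ σ = (h : Ω ≃+* Ω)}
    (by
      rintro σ ⟨h, hh, hih, hhy, rfl⟩
      refine ⟨c h, fun R hR => ?_, fun R => ⟨fun hR => ?_, fun hR => ?_⟩⟩
      · change h (tt T / tt (Q + R)) = tt T / tt (Q + (R + c h))
        rw [map_div₀, ← tt_ac, ← tt_ac, hTfix h hh T hT, map_add, hTfix h hh R (hJT R hR)]
        have h1 : ac (WAB A B) h Q = c h + Q := by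
          rw [hQc h hih, sub_add_cancel]
        rw [h1]
        congr 2
        abel
      · obtain ⟨k, hk, hik, hky, rfl⟩ := (hJmem R).1 hR
        refine (hJmem _).2 ⟨k * h, Subgroup.mul_mem _ hk hh, H13S.ld3_mul hik hih, ?_, hcadd k hk h⟩
        change k (h y) = y
        rw [hhy, hky]
      · obtain ⟨k, hk, hik, hky, hkc⟩ := (hJmem _).1 hR
        refine (hJmem _).2 ⟨k * h⁻¹, Subgroup.mul_mem _ hk (Subgroup.inv_mem _ hh),
          H13S.ld3_mul hik (H13S.ld3_inv hih), ?_, ?_⟩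
        · change k (h⁻¹ y) = y
          have h1 : h⁻¹ y = y := by
            have h2 : h⁻¹ (h y) = y := AlgEquiv.symm_apply_apply h y
            rwa [hhy] at h2
          rw [h1, hky]
        · rw [hcadd k hk, hcinv h hh, hkc, add_neg_cancel_right])
    (s₁ : Ω ≃+* Ω) (l - 1) (V.valuation (l : Ω))
    (fun b hb hf => H13S.coef_bound L V w hw l C.hl (by have := C.five; omega) hVl1
      (mu_mem hA C.hl C.pr hin he hL) m hm y hy hlev b hb
      (fun s hs hi hsy => hf (s : Ω ≃+* Ω) ⟨s, hs, hi, hsy, rfl⟩) s₁ hs1 hi1)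
  have hterm : ∀ R ∈ J, V.valuation (tt T / tt (Q + 0) - (s₁ : Ω ≃+* Ω) (tt T / tt (Q + R))) = a ^ 2 := by
    intro R hR
    have hR' := hJT R hR
    have h0 : R + c s₁ ≠ 0 := by
      intro h0
      obtain ⟨k, hk, hik, hky, hkc⟩ := (hJmem R).1 hR
      apply hne1
      have h1 : c s₁ = c k⁻¹ := by
        rw [hcinv k hk, hkc]
        exact eq_neg_of_add_eq_zero_right h0
      have h2 : k⁻¹ y = y := by
        have h3 : k⁻¹ (k y) = y := AlgEquiv.symm_apply_apply k y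
        rwa [hky] at h3
      rw [hyk.2 s₁ hs1, h1, ← hyk.2 k⁻¹ (Subgroup.inv_mem _ hk), h2]
    have hT' : R + c s₁ ∈ Tor act π := AddSubgroup.add_mem _ hR' (hcT s₁)
    have e1 : (s₁ : Ω ≃+* Ω) (tt T / tt (Q + R)) = tt T / tt (Q + (R + c s₁)) := by
      change s₁ (tt T / tt (Q + R)) = _
      rw [map_div₀, ← tt_ac, ← tt_ac, hTfix s₁ hs1 T hT, map_add, hTfix s₁ hs1 R hR']
      have h1 : ac (WAB A B) s₁ Q = c s₁ + Q := by
        rw [hQc s₁ hi1, sub_add_cancel]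
      rw [h1]
      congr 2
      abel
    rw [e1, add_zero]
    have hv1 := hvr _ hT' h0
    have hne2 : tt (Q + (R + c s₁)) ≠ 0 := by
      intro h1
      rw [h1, map_zero] at hv1
      exact hQ0 hv1.1.symm
    have hne3 : tt Q ≠ 0 := by
      intro h1
      rw [h1, map_zero] at hQ0
      exact hQ0 rfl
    have e2 : tt T / tt Q - tt T / tt (Q + (R + c s₁)) =
        tt T * (tt (Q + (R + c s₁)) - tt Q) / (tt Q * tt (Q + (R + c s₁))) := by
      field_simp
    rw [e2, map_div₀, map_mul, map_mul, hv1.1, hv1.2.1, htau _ hT' h0, ha, div_pow, sq, sq]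
  rw [Finset.prod_congr rfl (fun R hR => rfl), map_prod] at hbd
  rw [Finset.prod_congr rfl hterm, Finset.prod_const, hVl, ← haq, ← pow_mul, ← pow_mul] at hbd
  have h1 := (pow_le_pow_iff_right_of_lt_one₀ ha0 ha1).1 hbd
  have h2 : 2 * J.card * (l - 1) ≤ 2 * Nm π * (l - 1) := by
    exact Nat.mul_le_mul_right _ (Nat.mul_le_mul_left _ hJcard)
  have h3 : Nm π * (Nm π - 1) ≤ Nm π * (2 * (l - 1)) := by
    calc Nm π * (Nm π - 1) ≤ 2 * (J.card * (l - 1)) := h1
      _ = 2 * J.card * (l - 1) := by ring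
      _ ≤ 2 * Nm π * (l - 1) := h2
      _ = Nm π * (2 * (l - 1)) := by ring
  have h4 := Nat.le_of_mul_le_mul_left h3 (by omega)
  rw [hq] at h4
  have h5 := C.five
  have h6 : l * l = l ^ 2 := by ring
  have h7 : 5 * l ≤ l ^ 2 := by
    rw [← h6]
    exact Nat.mul_le_mul_right l h5
  omega

end H55K.S
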