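import Mathlib
import Pool.Agent.Lib.H13S.OR1
import Pool.Agent.Lib.H13Z.LF1
import Pool.Agent.Lib.H55K.SKU2
import Pool.Agent.Lib.H55K.SLD
import Pool.Agent.Lib.H55K.SPA1

/-! # H55K, part S: the valuations at the primes above the conjugate of pi, without a condition on the number of points -/

open NumberField IsDedekindDomain WeierstrassCurve

namespace H55K.S

open H55P (IQ embF eF LF Per IsHecke Pt ac Inert Dec Nm)
open H35P (WAB Ker tt)
open H13S (Abv)

variable {F : Type} [Field F] [NumberField F] [IQ F] {A B : F} {Om : ℂ} {Ω : Type} [Field Ω] [DecidableEq Ω]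
  [Algebra F Ω] [IsAlgClosure F Ω] {j : Ω →+* ℂ} {act : 𝓞 F →+* AddMonoid.End (Pt (WAB A B) Ω)} {mo : Ideal (𝓞 F)}
  {ψ : Ideal (𝓞 F) →*₀ 𝓞 F}

/-- The size of a local point Q in the kernel of reduction, with all ac s Q - Q killed by β but no translate fixed by inertia. -/
theorem na_point (hA : CMA F A B Om j act) {β : 𝓞 F} (hβ : Prime β) (hq3 : 3 ≤ Nm β)
    (V : ValuationSubring Ω) (hG : GV A B V) (hV : vo V β < 1) (Q : Pt (WAB A B) Ω) (hQ : Ker V Q)
    (hc : ∀ s, Inert V s → ac (WAB A B) s Q - Q ∈ Tor act β)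
    (hno : ¬ ∃ R ∈ Tor act β, ∀ s, Inert V s → ac (WAB A B) s (Q + R) = Q + R) :
    V.valuation (tt Q) ^ Nm β = vo V β := by
  have hF : IsAlgClosed Ω := IsAlgClosure.isAlgClosed F
  have hal : Algebra.IsAlgebraic F Ω := IsAlgClosure.isAlgebraic
  set ϖ := vo V β with hϖ
  set q := Nm β with hq
  have hϖ0 : ϖ ≠ 0 := vo_ne V hβ.ne_zero
  have hϖp : 0 < ϖ := zero_lt_iff.2 hϖ0
  -- the value of the points killed by pi
  obtain ⟨-, R₀, hR₀T, -, hR₀z⟩ := gi_gen hA β hβ
  have hR₀0 : R₀ ≠ 0 := by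
    intro h
    have h3 : act (1 : 𝓞 F) R₀ = 0 := by rw [h, map_zero]
    exact hβ.not_isUnit (isUnit_of_dvd_one ((hR₀z 1).1 h3))
  obtain ⟨hR₀K, hR₀q⟩ : Ker V R₀ ∧ V.valuation (tt R₀) ^ (Nm β - 1) = vo V β := kr_tor_ram hA hG β hβ hV hR₀T hR₀0
  set τ := V.valuation (tt R₀) with hτ
  have hτ0 : 0 < τ := by
    rw [zero_lt_iff]
    intro h
    have h4 : τ ^ (q - 1) = ϖ := hR₀q
    rw [h, zero_pow (by omega)] at h4
    exact hϖ0 h4.symm
  have hτ1 : τ < 1 := kr_tt_lt hG hR₀K
  have hTorN : ∀ R ∈ Tor act β, R ≠ 0 → V.valuation (tt R) = τ := by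
    intro R hR h0
    obtain ⟨h4, h5⟩ := kr_tor_ram hA hG β hβ hV hR h0
    have h6 : V.valuation (tt R) ^ (q - 1) = τ ^ (q - 1) := h5.trans hR₀q.symm
    exact (pow_left_inj₀ zero_le zero_le (by omega)).1 h6
  have hTor : ∀ R ∈ Tor act β, Ker V R ∧ V.valuation (tt R) ≤ τ := by
    intro R hR
    by_cases h0 : R = 0
    · rw [h0]
      refine ⟨ker_zero V, ?_⟩
      have : tt (0 : Pt (WAB A B) Ω) = 0 := rfl
      rw [this, map_zero]
      exact zero_le
    · obtain ⟨h4, h5⟩ := kr_tor_ram hA hG β hβ hV hR h0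
      refine ⟨h4, le_of_eq ?_⟩
      have h6 : V.valuation (tt R) ^ (q - 1) = τ ^ (q - 1) := h5.trans hR₀q.symm
      exact (pow_left_inj₀ zero_le zero_le (by omega)).1 h6
  -- translates
  have hlow : ∀ R ∈ Tor act β, Ker V (Q + R) ∧ τ ≤ V.valuation (tt (Q + R)) := by
    intro R hR
    have hK := kr_add hG hQ (hTor R hR).1
    refine ⟨hK, ?_⟩
    obtain ⟨s₀, h2, h3⟩ : ∃ s, Inert V s ∧ ac (WAB A B) s (Q + R) ≠ Q + R := by
      by_contra hcon
      push Not at hcon
      exact hno ⟨R, hR, hcon⟩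
    have hD : ac (WAB A B) s₀ (Q + R) + -(Q + R) ∈ Tor act β := by
      have e : ac (WAB A B) s₀ (Q + R) + -(Q + R) = (ac (WAB A B) s₀ Q - Q) + (ac (WAB A B) s₀ R - R) := by
        rw [map_add]
        abel
      rw [e]
      exact (Tor act β).add_mem (hc s₀ h2) ((Tor act β).sub_mem (ac_mem hA s₀ hR) hR)
    have hD0 : ac (WAB A B) s₀ (Q + R) + -(Q + R) ≠ 0 := by
      rw [← sub_eq_add_neg]
      exact sub_ne_zero.2 h3
    obtain ⟨n1, n2⟩ := qv_neg hA hG hK
    have e2 : V.valuation (tt (ac (WAB A B) s₀ (Q + R))) = V.valuation (tt (Q + R)) := by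
      rw [tt_ac, qv_val V s₀ h2]
    rw [← hTorN _ hD hD0]
    exact qv_add hG (kr_dec s₀ (in_dec s₀ h2) hK) n1 _ (kr_tt_lt hG hK).le e2.le n2
  -- the point X₀
  have hX₀K := kr_act hA hG β hQ
  have hprod := kr_prod hA hG β hβ hV hQ
  obtain ⟨hcard, -⟩ := gi_gen hA β hβ
  have hfin : Finite (Tor act β) := by
    apply Nat.finite_of_card_ne_zero
    rw [hcard]
    omega
  let _ : Fintype (Tor act β) := Fintype.ofFinite _
  rw [finprod_eq_prod_of_fintype] at hprod
  have hX₀v : V.valuation (tt (act β Q)) ≠ 0 := by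
    rw [← hprod]
    refine Finset.prod_ne_zero_iff.2 fun R _ => ?_
    exact (hτ0.trans_le (hlow R.1 R.2).2).ne'
  have hX₀t : tt (act β Q) ≠ 0 := (Valuation.ne_zero_iff _).1 hX₀v
  have hfix : ∀ s ∈ (⊥ : IntermediateField F Ω).fixingSubgroup, Inert V s →
      s (tt (act β Q)) = tt (act β Q) := by
    intro s _ hs
    have e1 : ac (WAB A B) s Q = Q + (ac (WAB A B) s Q - Q) := by
      abel
    rw [← tt_ac, ac_act hA, e1, map_add, mem_Tor.1 (hc s hs), add_zero]
  have hNF : NumberField (⊥ : IntermediateField F Ω) := NumberField.of_module_finite F _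
  obtain ⟨a, ha, hva⟩ := H13S.value_fixed (⊥ : IntermediateField F Ω) V _ hX₀t hfix
  obtain ⟨a', ha'⟩ := IntermediateField.mem_bot.1 a.2
  have ha'0 : a' ≠ 0 := by
    rintro rfl
    rw [map_zero] at ha'
    exact ha (Subtype.ext ha'.symm)
  obtain ⟨k, hk⟩ := qv_intpow V hβ hV a' ha'0
  rw [ha'] at hk
  have hXk : V.valuation (tt (act β Q)) = ϖ ^ k := hva.trans hk
  have hk1 : 0 < k := by
    by_contra hcon
    push Not at hcon
    have h4 : V.valuation (tt (act β Q)) < 1 := kr_tt_lt hG hX₀K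
    rw [hXk] at h4
    have h5 : 1 ≤ ϖ ^ k := by
      rw [← neg_neg k, zpow_neg]
      have h6 : 0 < ϖ ^ (-k) := zpow_pos hϖp _
      rw [one_le_inv₀ h6]
      obtain ⟨n, hn⟩ := Int.eq_ofNat_of_zero_le (neg_nonneg.2 hcon)
      rw [hn]
      exact pow_le_one' hV.le n
    exact absurd h4 (not_lt.2 h5)
  obtain ⟨n, rfl⟩ := Int.eq_ofNat_of_zero_le hk1.le
  have hn1 : 0 < n := by exact_mod_cast hk1
  have hXn : V.valuation (tt (act β Q)) = ϖ ^ n := hXk
  -- strict monotonicity of the powers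
  have hlt : ∀ i j : ℕ, ϖ ^ i < ϖ ^ j → j < i := by
    intro i j h
    by_contra hcon
    push Not at hcon
    exact absurd h (not_lt.2 (pow_le_pow_right_of_le_one' hV.le hcon))
  have heq : ∀ i j : ℕ, ϖ ^ i = ϖ ^ j → i = j := by
    have hanti : StrictAnti (fun i : ℕ => ϖ ^ i) := by
      refine strictAnti_nat_of_succ_lt fun i => ?_
      rw [pow_succ]
      calc ϖ ^ i * ϖ < ϖ ^ i * 1 := mul_lt_mul_of_pos_left hV (pow_pos hϖp i)
        _ = ϖ ^ i := mul_one _
    exact fun i j h => hanti.injective h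
  have hcard' : Fintype.card (Tor act β) = q := by
    rw [← Nat.card_eq_fintype_card]
    exact hcard
  have hQlow : τ ≤ V.valuation (tt Q) := by
    have := (hlow 0 (Tor act β).zero_mem).2
    rwa [add_zero] at this
  have hQ1 : V.valuation (tt Q) < 1 := kr_tt_lt hG hQ
  rcases hQlow.lt_or_eq with hgt | heq'
  · have hall : ∀ R : Tor act β, V.valuation (tt (Q + (R : Pt (WAB A B) Ω))) = V.valuation (tt Q) := by
      intro R
      have h4 := (hTor R.1 R.2).2
      have h5 := kr_tt_add hG hQ (hTor R.1 R.2).1 (V.valuation (tt Q)) le_rfl (h4.trans hQlow)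
      have h6 : V.valuation (tt Q) ^ 2 < V.valuation (tt Q) := by
        rw [sq]
        calc V.valuation (tt Q) * V.valuation (tt Q) < V.valuation (tt Q) * 1 :=
              mul_lt_mul_of_pos_left hQ1 (hτ0.trans hgt)
          _ = _ := mul_one _
      have e : tt (Q + (R : Pt (WAB A B) Ω)) = tt Q + ((tt (Q + (R : Pt (WAB A B) Ω)) - tt Q - tt (R : Pt (WAB A B) Ω)) + tt (R : Pt (WAB A B) Ω)) := by
        ring
      rw [e]
      exact Valuation.map_add_eq_of_lt_left _ (Valuation.map_add_lt _ (h5.trans_lt h6) (h4.trans_lt hgt))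
    rw [Finset.prod_congr rfl fun R _ => hall R, Finset.prod_const, Finset.card_univ, hcard', hXn] at hprod
    have h7 : τ ^ (q * (q - 1)) < V.valuation (tt Q) ^ (q * (q - 1)) :=
      pow_lt_pow_left₀ hgt zero_le (Nat.mul_ne_zero (by omega) (by omega))
    have h8 : ϖ ^ q < ϖ ^ (n * (q - 1)) := by
      calc ϖ ^ q = τ ^ (q * (q - 1)) := by
            rw [mul_comm, pow_mul]
            exact congrArg (fun z => z ^ q) hR₀q.symm
        _ < V.valuation (tt Q) ^ (q * (q - 1)) := h7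
        _ = ϖ ^ (n * (q - 1)) := by rw [pow_mul, hprod, ← pow_mul]
    have h9 := hlt _ _ h8
    have hn : n = 1 := by
      by_contra hne
      have hn2 : 2 ≤ n := by omega
      have h10 : 2 * (q - 1) ≤ n * (q - 1) := Nat.mul_le_mul_right _ hn2
      omega
    rw [hn, pow_one] at hprod
    exact hprod
  · exfalso
    have hall : ∀ R : Tor act β, V.valuation (tt (Q + (R : Pt (WAB A B) Ω))) = τ := by
      intro R
      refine le_antisymm ?_ (hlow R.1 R.2).2
      exact qv_add hG hQ (hTor R.1 R.2).1 τ hτ1.le heq'.symm.le (hTor R.1 R.2).2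
    rw [Finset.prod_congr rfl fun R _ => hall R, Finset.prod_const, Finset.card_univ, hcard', hXn] at hprod
    have h8 : ϖ ^ q = ϖ ^ (n * (q - 1)) := by
      calc ϖ ^ q = τ ^ (q * (q - 1)) := by
            rw [mul_comm, pow_mul]
            exact congrArg (fun z => z ^ q) hR₀q.symm
        _ = ϖ ^ (n * (q - 1)) := by rw [pow_mul, hprod, ← pow_mul]
    have h9 := heq _ _ h8
    have h10 : (q - 1) ∣ q := ⟨n, h9.trans (mul_comm _ _)⟩
    have h11 : (q - 1) ∣ 1 := by
      have h12 := Nat.dvd_sub h10 (dvd_refl (q - 1))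
      have e : q - (q - 1) = 1 := by omega
      rwa [e] at h12
    have h12 := Nat.le_of_dvd one_pos h11
    omega

/-- Values of elements fixed by inertia. -/
theorem na_fix {β : 𝓞 F} (hβ : Prime β) {V : ValuationSubring Ω} (hV : vo V β < 1) {x : Ω} (hx : x ≠ 0)
    (h : ∀ s : Ω ≃ₐ[F] Ω, Inert V s → s x = x) : ∃ k : ℤ, V.valuation x = vo V β ^ k := by
  have hNF : NumberField (⊥ : IntermediateField F Ω) := NumberField.of_module_finite F _
  obtain ⟨a, ha, hva⟩ := H13S.value_fixed (⊥ : IntermediateField F Ω) V x hx fun s _ hs => h s hs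
  obtain ⟨a', ha'⟩ := IntermediateField.mem_bot.1 a.2
  have ha'0 : a' ≠ 0 := by
    rintro rfl
    rw [map_zero] at ha'
    exact ha (Subtype.ext ha'.symm)
  obtain ⟨k, hk⟩ := qv_intpow V hβ hV a' ha'0
  rw [ha'] at hk
  exact ⟨k, hva.trans hk⟩

section pure

variable {Ω : Type} [Field Ω]

/-- The value of ζ - 1. -/
theorem na_root (V : ValuationSubring Ω) (l : ℕ) (hl : l.Prime) (ζ : Ω) (hζ : ζ ^ l = 1) (h1 : ζ ≠ 1) :
    V.valuation (ζ - 1) ^ (l - 1) ≤ V.valuation (l : Ω) := by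
  have hl2 := hl.two_le
  have hv1 : V.valuation ζ = 1 := by
    apply H13Z.lf1_one _ l hl.ne_zero
    rw [← map_pow, hζ, map_one]
  have hpr : IsPrimitiveRoot ζ l := by
    have : Fact l.Prime := ⟨hl⟩
    have := orderOf_eq_prime hζ h1
    rw [← this]
    exact IsPrimitiveRoot.orderOf ζ
  have key : ∀ j ∈ Finset.range (l - 1), V.valuation (1 - ζ) ≤ V.valuation (1 - ζ ^ (j + 1)) := by
    intro j hj
    rw [Finset.mem_range] at hj
    have hcop : Nat.Coprime (j + 1) l := by
      rw [Nat.coprime_comm]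
      refine (Nat.Prime.coprime_iff_not_dvd hl).2 ?_
      intro hd
      have := Nat.le_of_dvd (by omega) hd
      omega
    obtain ⟨k, hk⟩ := Nat.exists_mul_mod_eq_one_of_coprime hcop (by omega)
    have hz : ζ = (ζ ^ (j + 1)) ^ k := by
      rw [← pow_mul]
      conv_lhs => rw [← pow_one ζ, ← hk.2]
      exact (pow_eq_pow_mod _ hζ).symm
    have e1 : (1 - ζ : Ω) = (1 - ζ ^ (j + 1)) * ∑ i ∈ Finset.range k, (ζ ^ (j + 1)) ^ i := by
      rw [mul_comm, geom_sum_mul_neg, ← hz]
    rw [e1, map_mul]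
    have e2 : V.valuation (∑ i ∈ Finset.range k, (ζ ^ (j + 1)) ^ i) ≤ 1 := by
      apply Valuation.map_sum_le
      intro i _
      rw [map_pow, map_pow, hv1, one_pow, one_pow]
    calc V.valuation (1 - ζ ^ (j + 1)) * V.valuation (∑ i ∈ Finset.range k, (ζ ^ (j + 1)) ^ i)
        ≤ V.valuation (1 - ζ ^ (j + 1)) * 1 := by gcongr
      _ = _ := mul_one _
  have hprod : ∏ k ∈ Finset.range (l - 1), (1 - ζ ^ (k + 1)) = (l : Ω) := by
    have hpr' : IsPrimitiveRoot ζ ((l - 1) + 1) := by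
      have : l - 1 + 1 = l := by omega
      rw [this]; exact hpr
    rw [hpr'.prod_one_sub_pow_eq_order]
    have : ((l - 1 : ℕ) : Ω) + 1 = ((l - 1 + 1 : ℕ) : Ω) := by push_cast; ring
    rw [this]
    congr 1
    omega
  rw [← hprod, map_prod, Valuation.map_sub_swap]
  calc V.valuation (1 - ζ) ^ (l - 1) = ∏ _k ∈ Finset.range (l - 1), V.valuation (1 - ζ) := by
        rw [Finset.prod_const, Finset.card_range]
    _ ≤ _ := Finset.prod_le_prod' key

/-- Terms with different values are not larger than the sum. -/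
theorem na_sum (V : ValuationSubring Ω) (l : ℕ) (A : ℕ → Ω)
    (hd : ∀ i < l, ∀ k < l, i ≠ k → A i ≠ 0 → V.valuation (A i) ≠ V.valuation (A k)) :
    ∀ i < l, V.valuation (A i) ≤ V.valuation (∑ k ∈ Finset.range l, A k) := by
  intro i hi
  obtain ⟨n, hn, hmax⟩ := Finset.exists_max_image (Finset.range l) (fun k => V.valuation (A k))
    ⟨i, Finset.mem_range.2 hi⟩
  refine (hmax i (Finset.mem_range.2 hi)).trans ?_
  by_cases h0 : A n = 0
  · show V.valuation (A n) ≤ _
    rw [h0, map_zero]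
    exact zero_le
  · rw [← Finset.add_sum_erase _ _ hn]
    have h1 : V.valuation (∑ k ∈ (Finset.range l).erase n, A k) < V.valuation (A n) := by
      refine Valuation.map_sum_lt _ ((Valuation.ne_zero_iff _).2 h0) fun k hk => ?_
      obtain ⟨h2, h3⟩ := Finset.mem_erase.1 hk
      refine lt_of_le_of_ne (hmax k h3) fun h4 => ?_
      exact hd n (Finset.mem_range.1 hn) k (Finset.mem_range.1 h3) (Ne.symm h2) h0 h4.symm
    exact (Valuation.map_add_eq_of_lt_left _ h1).ge

/-- Lagrange resolvents. -/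
theorem na_res {G : Type} [AddCommGroup G] [Fintype G] [DecidableEq G] {l : ℕ} (hl : l.Prime) (f : G → Ω)
    (hf : ∀ x y, f (x + y) = f x * f y) (hp : ∀ x, f x ^ l = 1) (h1 : ∀ x, f x = 1 → x = 0) (t : G → Ω) (g : G) :
    ∑ i ∈ Finset.range l, f g ^ i * ∑ x, f (-x) ^ i * t x = l * t g := by
  have h2 : ∀ i : ℕ, f g ^ i * ∑ x, f (-x) ^ i * t x = ∑ x, f (g - x) ^ i * t x := by
    intro i
    rw [Finset.mul_sum]
    refine Finset.sum_congr rfl fun x _ => ?_
    rw [sub_eq_add_neg, hf, mul_pow, mul_assoc]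
  rw [Finset.sum_congr rfl fun i _ => h2 i, Finset.sum_comm]
  have h3 : ∀ x : G, ∑ i ∈ Finset.range l, f (g - x) ^ i * t x = if x = g then l * t g else 0 := by
    intro x
    rw [← Finset.sum_mul]
    split_ifs with hx
    · subst hx
      have h4 : f (x - x) = 1 := by
        rw [sub_self]
        have h5 := hf 0 0
        rw [add_zero] at h5
        have h6 : f 0 ≠ 0 := fun h => by
          have h7 := hp 0
          rw [h, zero_pow hl.ne_zero] at h7
          exact zero_ne_one h7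
        exact (mul_eq_left₀ h6).1 h5.symm
      rw [h4]
      simp
    · have h4 : f (g - x) ≠ 1 := fun h => hx (sub_eq_zero.1 (h1 _ h)).symm
      have h5 : (∑ i ∈ Finset.range l, f (g - x) ^ i) * (f (g - x) - 1) = 0 := by
        rw [geom_sum_mul, hp, sub_self]
      have h6 := (mul_eq_zero.1 h5).resolve_right (sub_ne_zero.2 h4)
      rw [h6, zero_mul]
  rw [Finset.sum_congr rfl fun x _ => h3 x, Finset.sum_ite_eq' Finset.univ g]
  simp

end pure

omit [IQ F] in
/-- In a residue field with a prime number of elements every element is a natural number. -/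
theorem exists_natmod {π : 𝓞 F} {l : ℕ} (hl : l.Prime) (hN : Nm π = l) (a : 𝓞 F) : ∃ n : ℕ, π ∣ a - (n : 𝓞 F) := by
  have hc : Nat.card (𝓞 F ⧸ Ideal.span {π}) = l := hN
  have hfin : Finite (𝓞 F ⧸ Ideal.span {π}) := Nat.finite_of_card_ne_zero (by rw [hc]; exact hl.ne_zero)
  letI : Fintype (𝓞 F ⧸ Ideal.span {π}) := Fintype.ofFinite _
  have hl0 : NeZero l := ⟨hl.ne_zero⟩
  rw [Nat.card_eq_fintype_card] at hc
  let e := ZMod.ringEquivOfPrime (𝓞 F ⧸ Ideal.span {π}) hl hc
  refine ⟨(e.symm (Ideal.Quotient.mk (Ideal.span {π}) a)).val, ?_⟩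
  rw [← Ideal.mem_span_singleton, ← Ideal.Quotient.eq, map_natCast]
  have h1 : e (((e.symm (Ideal.Quotient.mk (Ideal.span {π}) a)).val : ℕ) : ZMod l) =
      Ideal.Quotient.mk (Ideal.span {π}) a := by
    rw [ZMod.natCast_val, ZMod.cast_id, RingEquiv.apply_symm_apply]
  exact h1.symm.trans (map_natCast e _)

omit [IsAlgClosure F Ω] in
theorem na_red (hA : CMA F A B Om j act) {V : ValuationSubring Ω} (hG : GV A B V) {β : 𝓞 F} (hβ : Prime β)
    (hV : vo V β < 1) (k : ℕ) {X : Pt (WAB A B) Ω} (hX : Ker V (act (β ^ k) X)) : Ker V X := by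
  induction k with
  | zero => rwa [pow_zero, act_one] at hX
  | succ k ih =>
    rw [pow_succ', act_mul] at hX
    exact ih (ker_red hA hG hβ hV hX)

/-- The local point can be taken in the kernel of reduction. -/
theorem na_pt {π : 𝓞 F} {l : ℕ} {c : (Ω ≃ₐ[F] Ω) → Pt (WAB A B) Ω} (C : Cl A B Om j act mo ψ π l c)
    (V : ValuationSubring Ω) (hG : GV A B V) (hV : vo V (cj π) < 1) (hVl : V.valuation (l : Ω) < 1) :
    ∃ Q : Pt (WAB A B) Ω, Ker V Q ∧ ∀ s, Inert V s → c s = ac (WAB A B) s Q - Q := by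
  have hA := C.cma
  have hβ : Prime (cj π) := cj_prime C.pr
  obtain ⟨P, hP⟩ := C.loc V
  obtain ⟨n, hn0, hn⟩ := ker_fin (F := F) hG l C.hl hVl P
  have hn0' : (n : 𝓞 F) ≠ 0 := Nat.cast_ne_zero.2 hn0.ne'
  obtain ⟨k, N, hN, hnN⟩ := WfDvdMonoid.max_power_factor hn0' hβ.irreducible
  have hK : Ker V (act N P) := by
    rw [← act_nat (act := act), hnN, act_mul] at hn
    exact na_red hA hG hβ hV k hn
  obtain ⟨u, v, huv⟩ := (hβ.irreducible.coprime_iff_not_dvd).2 hN
  refine ⟨act v (act N P), kr_act hA hG v hK, fun s hs => ?_⟩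
  have h1 : c s = act v (act N (c s)) := by
    conv_lhs => rw [← act_one (act := act) (c s), ← huv, act_add, act_mul u, mem_Tor.1 (C.val s), map_zero, zero_add,
      act_mul]
  rw [h1, hP s hs, map_sub, map_sub, ac_act hA, ac_act hA]

/-- THE VALUATIONS at the primes above the conjugate of π in the split case. -/
theorem na_ord {π : 𝓞 F} {l : ℕ} {c : (Ω ≃ₐ[F] Ω) → Pt (WAB A B) Ω} (C : Cl A B Om j act mo ψ π l c)
    {e : Pt (WAB A B) Ω → Pt (WAB A B) Ω → Ω} (he : Pairing A B act π l e) {L : IntermediateField F Ω}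
    (hL : IsTF act π L) [NumberField L] (V : ValuationSubring Ω) (hG : GV A B V) (h1 : vo V π = 1)
    (hV : vo V (cj π) < 1) (w : HeightOneSpectrum (𝓞 L)) (hw : Abv L V w) (T : Pt (WAB A B) Ω) (hT : T ∈ Tor act π)
    (m : L) (hm : m ≠ 0) (y : Ω) (hyk : Kum L e c T y) (hy : y ^ l = (m : Ω)) :
    ∃ k : ℤ, w.valuation L m = WithZero.exp ((l : ℤ) * k) := by
  classical
  have hA := C.cma
  have hl := C.hl
  have h5 := C.five
  have hl0 := hl.ne_zero
  by_cases hT0 : T = 0
  · refine H13S.ord_of_unr L V w hw l m hm y hy fun s hs _ => ?_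
    rw [hyk.2 s hs, hT0, ld3_e0' hl0 he (C.val s), one_mul]
  have hβ : Prime (cj π) := cj_prime C.pr
  have hnass : ¬ Associated (cj π) π := fun h => by
    have h2 := vo_assoc V h (vo_le V)
    rw [h1] at h2
    exact absurd hV (by rw [h2]; exact lt_irrefl _)
  obtain ⟨hNπ, hπl⟩ : Nm π = l ∧ π * cj π = (l : 𝓞 F) := by
    rcases dichotomy hl C.dta.unr C.pr C.dvd with ⟨h2, -, -⟩ | ⟨-, -, h2, h3⟩
    · exact absurd h2 hnass
    · exact ⟨h2, h3⟩
  have hNβ : Nm (cj π) = l := by rw [Nm_cj, hNπ]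
  have hVlβ : V.valuation (l : Ω) = vo V (cj π) := by
    rw [← vo_nat (F := F), ← hπl, vo_mul, h1, one_mul]
  have hin : ∀ s, Inert V s → s ∈ L.fixingSubgroup := fun s hs => (hL.2 s).2 fun X hX => by
    refine sub_eq_zero.1 (kr_tor hA hG π h1 ?_ (kr_inert hG s hs X))
    exact (Tor act π).sub_mem (ac_mem hA s hX) hX
  have hsT : ∀ s, Inert V s → ac (WAB A B) s T = T := fun s hs => (hL.2 s).1 (hin s hs) T hT
  obtain ⟨P, hPK, hP⟩ := na_pt C V hG hV (by rw [hVlβ]; exact hV)
  by_cases hno : ∃ R ∈ Tor act (cj π), ∀ s, Inert V s → ac (WAB A B) s (P + R) = P + R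
  · obtain ⟨R, hR, hfix⟩ := hno
    refine H13S.ord_of_unr L V w hw l m hm (y * e R T) ?_ fun s hs hi => ?_
    · rw [mul_pow, he.root R hR T hT, mul_one, hy]
    · rw [map_mul, hyk.2 s hs, he.gal s R hR T hT, hsT s hi]
      have h2 : R = c s + ac (WAB A B) s R := by
        have h3 := hfix s hi
        rw [map_add] at h3
        rw [hP s hi, sub_add_eq_add_sub, h3, add_sub_cancel_left]
      have h3 : e R T = e (c s) T * e (ac (WAB A B) s R) T := by
        conv_lhs => rw [h2]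
        exact he.add_left _ (C.val s) _ (ac_mem hA s hR) T hT
      rw [h3]
      ring
  · -- the value of tt P
    set β := cj π with hβd
    have hc' : ∀ s, Inert V s → ac (WAB A B) s P - P ∈ Tor act β := fun s hs => by
      rw [← hP s hs]
      exact C.val s
    have hρ := na_point hA hβ (by rw [hNβ]; omega) V hG hV P hPK hc' hno
    rw [hNβ] at hρ
    set ρ := V.valuation (tt P) with hρd
    have hϖ0 : vo V β ≠ 0 := vo_ne V hβ.ne_zero
    have hρ0 : ρ ≠ 0 := by
      intro h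
      rw [h, zero_pow hl0] at hρ
      exact hϖ0 hρ.symm
    have hρ1 : ρ < 1 := kr_tt_lt hG hPK
    have hρp : 0 < ρ := zero_lt_iff.2 hρ0
    -- the value of m
    have hmΩ : (m : Ω) ≠ 0 := fun h => hm (Subtype.ext h)
    obtain ⟨k, hk⟩ := na_fix hβ hV hmΩ fun s hs =>
      (IntermediateField.mem_fixingSubgroup_iff _ s).1 (hin s hs) _ m.2
    have hy0 : y ≠ 0 := hyk.1
    by_cases hdvd : (l : ℤ) ∣ k
    · obtain ⟨k', hk'⟩ := hdvd
      have h2 : ((algebraMap F L (β : F) ^ k' : L) : Ω) = ak Ω β ^ k' := by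
        exact map_zpow₀ (algebraMap L Ω) _ _
      have h3 : V.valuation (m : Ω) = V.valuation (((algebraMap F L (β : F) ^ k') ^ l : L) : Ω) := by
        have h4 : (((algebraMap F L (β : F) ^ k') ^ l : L) : Ω) = (ak Ω β ^ k') ^ l := by
          rw [← h2]
          rfl
        rw [h4, hk, map_pow, map_zpow₀, ← zpow_natCast, ← zpow_mul, hk', mul_comm]
      have h4 : w.valuation L m = w.valuation L ((algebraMap F L (β : F) ^ k') ^ l) :=
        le_antisymm ((hw.le m _).1 h3.le) ((hw.le _ m).1 h3.ge)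
      have h5 : algebraMap F L (β : F) ^ k' ≠ 0 := by
        refine zpow_ne_zero _ ((map_ne_zero _).2 fun h => hβ.ne_zero ?_)
        exact_mod_cast h
      have h6 : w.valuation L (algebraMap F L (β : F) ^ k') ≠ 0 := (Valuation.ne_zero_iff _).2 h5
      refine ⟨WithZero.log (w.valuation L (algebraMap F L (β : F) ^ k')), ?_⟩
      rw [h4, map_pow, ← nsmul_eq_mul, WithZero.exp_nsmul, WithZero.exp_log h6]
    exfalso
    have hcop : IsCoprime k (l : ℤ) := by
      rw [isCoprime_comm]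
      exact (Nat.prime_iff_prime_int.1 hl).coprime_iff_not_dvd.2 hdvd
    obtain ⟨a, b, hab⟩ := hcop
    -- the character f
    have heT : ∀ R ∈ Tor act β, e R T ≠ 0 := fun R hR => ku2_ne C he hR hT
    have hgenT : ∀ R ∈ Tor act β, e R T = 1 → R = 0 := by
      intro R hR h2
      refine he.nondeg R hR fun X hX => ?_
      obtain ⟨x, rfl⟩ := (PA1_gen hA π C.pr T hT hT0).1 X hX
      obtain ⟨n, hn⟩ := exists_natmod hl hNπ x
      rw [← (PA1_gen hA π C.pr T hT hT0).2, act_sub, sub_eq_zero] at hn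
      rw [hn, act_nat]
      have h3 : ∀ i : ℕ, e R (i • T) = 1 := by
        intro i
        induction i with
        | zero => rw [zero_smul]; exact ld3_e0' hl0 he hR
        | succ i ih =>
          rw [succ_nsmul, he.add_right R hR _ ((Tor act π).nsmul_mem hT i) T hT, ih, h2, mul_one]
      exact h3 n
    let f : Tor act β → Ω := fun R => e (R : Pt (WAB A B) Ω) T ^ a
    have hfadd : ∀ R R' : Tor act β, f (R + R') = f R * f R' := by
      intro R R'
      show e ((R : Pt (WAB A B) Ω) + R') T ^ a = _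
      rw [he.add_left _ R.2 _ R'.2 T hT, mul_zpow]
    have hfl : ∀ R : Tor act β, f R ^ l = 1 := by
      intro R
      show (e (R : Pt (WAB A B) Ω) T ^ a) ^ l = 1
      rw [← zpow_natCast, ← zpow_mul, mul_comm, zpow_mul, zpow_natCast, he.root _ R.2 T hT, one_zpow]
    have hf1 : ∀ R : Tor act β, f R = 1 → R = 0 := by
      intro R h2
      apply Subtype.ext
      refine hgenT _ R.2 ?_
      have h3 : e (R : Pt (WAB A B) Ω) T ^ a = 1 := h2
      have h4 := he.root _ R.2 T hT
      have h5 : e (R : Pt (WAB A B) Ω) T ^ (a * k + b * l) = 1 := by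
        rw [zpow_add₀ (heT _ R.2), zpow_mul, h3, one_zpow, one_mul, mul_comm, zpow_mul, zpow_natCast, h4, one_zpow]
      rwa [hab, zpow_one] at h5
    have hf0 : f 0 = 1 := by
      show e ((0 : Tor act β) : Pt (WAB A B) Ω) T ^ a = 1
      rw [ZeroMemClass.coe_zero, ld3_e0 hl0 he hT, one_zpow]
    have hfne : ∀ R : Tor act β, f R ≠ 0 := fun R => zpow_ne_zero _ (heT _ R.2)
    have hfin : Finite (Tor act β) := by
      apply Nat.finite_of_card_ne_zero
      rw [(gi_gen hA β hβ).1, hNβ]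
      exact hl0
    let _ : Fintype (Tor act β) := Fintype.ofFinite _
    -- y'
    let y' : Ω := y ^ a * ak Ω β ^ b
    have hakβ : ak Ω β ≠ 0 := (Valuation.ne_zero_iff _).1 hϖ0
    have hy'0 : y' ≠ 0 := mul_ne_zero (zpow_ne_zero _ hy0) (zpow_ne_zero _ hakβ)
    have hy'v : V.valuation y' = ρ := by
      have h2 : V.valuation y' ^ l = ρ ^ l := by
        show V.valuation (y ^ a * ak Ω β ^ b) ^ l = _
        rw [hρ, ← map_pow, mul_pow, ← zpow_natCast, ← zpow_natCast, ← zpow_mul, ← zpow_mul, mul_comm a, zpow_mul y,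
          zpow_natCast, hy, map_mul, map_zpow₀, map_zpow₀, hk, ← zpow_mul, ← zpow_add₀ hϖ0]
        have h3 : k * a + b * (l : ℤ) = 1 := by rw [mul_comm k a]; exact hab
        rw [h3, zpow_one]
      exact (pow_left_inj₀ zero_le zero_le hl0).1 h2
    let c' : (Ω ≃ₐ[F] Ω) → Tor act β := fun s => ⟨c s, C.val s⟩
    have hsy' : ∀ s, Inert V s → s y' = f (c' s) * y' := by
      intro s hs
      show s (y ^ a * ak Ω β ^ b) = e (c s) T ^ a * (y ^ a * ak Ω β ^ b)
      rw [map_mul, map_zpow₀, map_zpow₀, hyk.2 s (hin s hs), mul_zpow, s.commutes]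
      ring
    -- the resolvents
    let t : Tor act β → Ω := fun R => tt (P + (R : Pt (WAB A B) Ω))
    let Ai : ℕ → Ω := fun i => ∑ R, f (-R) ^ i * t R
    have hsA : ∀ s, Inert V s → ∀ i, s (Ai i) = f (c' s) ^ i * Ai i := by
      intro s hs i
      show s (∑ R, f (-R) ^ i * t R) = f (c' s) ^ i * ∑ R, f (-R) ^ i * t R
      rw [map_sum, Finset.mul_sum]
      let g : Tor act β → Tor act β := fun R => ⟨ac (WAB A B) s (R : Pt (WAB A B) Ω), ac_mem hA s R.2⟩ + c' s
      have hg : Function.Bijective g := by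
        refine Finite.injective_iff_bijective.1 fun R R' h2 => ?_
        have h3 := congrArg Subtype.val (add_right_cancel h2)
        exact Subtype.ext (ac_inj s h3)
      refine Fintype.sum_bijective g hg _ _ fun R => ?_
      have h2 : s (f (-R)) = f (c' s) * f (-(g R)) := by
        rw [← hfadd]
        show s (e ((-R : Tor act β) : Pt (WAB A B) Ω) T ^ a) = e ((c' s + -(g R) : Tor act β) : Pt (WAB A B) Ω) T ^ a
        rw [map_zpow₀, he.gal s _ (-R).2 T hT, hsT s hs]
        congr 2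
        show ac (WAB A B) s (-(R : Pt (WAB A B) Ω)) = c s + -(ac (WAB A B) s (R : Pt (WAB A B) Ω) + c s)
        rw [map_neg]
        abel
      have h3 : s (t R) = t (g R) := by
        show s (tt (P + (R : Pt (WAB A B) Ω))) = tt (P + (ac (WAB A B) s (R : Pt (WAB A B) Ω) + c s))
        rw [← tt_ac, map_add, hP s hs]
        congr 1
        abel
      rw [map_mul, map_pow, h2, h3, mul_pow, mul_assoc]
    have hAv : ∀ i, Ai i ≠ 0 → ∃ n : ℤ, V.valuation (Ai i) = ρ ^ ((i : ℤ) + l * n) := by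
      intro i h0
      have h2 : Ai i / y' ^ i ≠ 0 := div_ne_zero h0 (pow_ne_zero _ hy'0)
      obtain ⟨n, hn⟩ := na_fix hβ hV h2 fun s hs => by
        rw [map_div₀, map_pow, hsA s hs, hsy' s hs, mul_pow,
          mul_div_mul_left _ _ (pow_ne_zero _ (hfne _))]
      refine ⟨n, ?_⟩
      rw [map_div₀, map_pow, hy'v, div_eq_iff (pow_ne_zero _ hρ0)] at hn
      rw [hn, ← hρ, ← zpow_natCast, ← zpow_mul, ← zpow_natCast, ← zpow_add₀ hρ0, add_comm]
    have hdist : ∀ i < l, ∀ k < l, i ≠ k → Ai i ≠ 0 → V.valuation (Ai i) ≠ V.valuation (Ai k) := by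
      intro i hi k hk' hne h0 h2
      have h3 : Ai k ≠ 0 := by
        rw [← Valuation.ne_zero_iff V.valuation, ← h2, Valuation.ne_zero_iff]
        exact h0
      obtain ⟨n, hn⟩ := hAv i h0
      obtain ⟨n', hn'⟩ := hAv k h3
      rw [hn, hn'] at h2
      have h4 := (zpow_right_injective₀ hρp hρ1.ne) h2
      have h5 : (i : ℤ) + l * n = k + l * n' := h4
      have h6 : (i : ℤ) % l = (k : ℤ) % l := by
        have h7 := congrArg (· % (l : ℤ)) h5
        simpa using h7
      rw [Int.emod_eq_of_lt (by positivity) (by exact_mod_cast hi),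
        Int.emod_eq_of_lt (by positivity) (by exact_mod_cast hk')] at h6
      exact hne (by exact_mod_cast h6)
    have hle := na_sum V l Ai hdist
    have hsum0 : ∑ i ∈ Finset.range l, Ai i = l * t 0 := by
      rw [← na_res hl f hfadd hfl hf1 t 0]
      refine Finset.sum_congr rfl fun i _ => ?_
      rw [hf0, one_pow, one_mul]
    have ht0 : t 0 = tt P := by
      show tt (P + ((0 : Tor act β) : Pt (WAB A B) Ω)) = tt P
      rw [ZeroMemClass.coe_zero, add_zero]
    rw [hsum0, ht0, map_mul] at hle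
    -- a nonzero point
    obtain ⟨-, R₀, hR₀T, -, hR₀z⟩ := gi_gen hA β hβ
    have hR₀0 : R₀ ≠ 0 := by
      intro h
      have h3 : act (1 : 𝓞 F) R₀ = 0 := by rw [h, map_zero]
      exact hβ.not_isUnit (isUnit_of_dvd_one ((hR₀z 1).1 h3))
    let R₁ : Tor act β := ⟨R₀, hR₀T⟩
    have hR₁ : f R₁ ≠ 1 := fun h => hR₀0 (congrArg Subtype.val (hf1 R₁ h))
    have hsum1 : (l : Ω) * (t R₁ - tt P) = ∑ i ∈ Finset.range l, (f R₁ ^ i - 1) * Ai i := by
      rw [mul_sub, ← na_res hl f hfadd hfl hf1 t R₁, ← ht0, ← hsum0, ← Finset.sum_sub_distrib]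
      refine Finset.sum_congr rfl fun i _ => ?_
      show f R₁ ^ i * Ai i - Ai i = _
      ring
    have hfv : V.valuation (f R₁) = 1 := by
      apply H13Z.lf1_one _ l hl0
      rw [← map_pow, hfl, map_one]
    have hbound : V.valuation ((l : Ω) * (t R₁ - tt P)) ≤
        V.valuation (f R₁ - 1) * (V.valuation (l : Ω) * ρ) := by
      rw [hsum1]
      refine Valuation.map_sum_le _ fun i hi => ?_
      have h2 : f R₁ ^ i - 1 = (∑ n ∈ Finset.range i, f R₁ ^ n) * (f R₁ - 1) := (geom_sum_mul _ _).symm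
      have h3 : V.valuation (∑ n ∈ Finset.range i, f R₁ ^ n) ≤ 1 := by
        refine Valuation.map_sum_le _ fun n _ => ?_
        rw [map_pow, hfv, one_pow]
      rw [map_mul, h2, map_mul]
      refine mul_le_mul' ?_ (hle i (Finset.mem_range.1 hi))
      calc V.valuation (∑ n ∈ Finset.range i, f R₁ ^ n) * V.valuation (f R₁ - 1)
          ≤ 1 * V.valuation (f R₁ - 1) := mul_le_mul' h3 le_rfl
        _ = _ := one_mul _
    obtain ⟨-, hrat, -⟩ := val_ratio hA hβ (by rw [hNβ]; omega) V hG hV P hPK (by rw [hNβ]; exact hρ) R₀ hR₀T hR₀0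
    obtain ⟨-, hτ⟩ := kr_tor_ram hA hG β hβ hV hR₀T hR₀0
    rw [hNβ] at hτ
    have hroot := na_root V l hl (f R₁) (hfl R₁) hR₁
    rw [hVlβ, ← hτ] at hroot
    have hfτ : V.valuation (f R₁ - 1) ≤ V.valuation (tt R₀) := by
      by_contra hcon
      push Not at hcon
      exact absurd hroot (not_le.2 (pow_lt_pow_left₀ hcon zero_le (by omega)))
    have hVl0 : 0 < V.valuation (l : Ω) := by
      rw [hVlβ]
      exact zero_lt_iff.2 hϖ0
    rw [map_mul] at hbound
    have e1 : t R₁ - tt P = tt (P + R₀) - tt P := rfl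
    rw [e1, hrat] at hbound
    have h6 : V.valuation (l : Ω) * V.valuation (tt R₀) ≤ V.valuation (l : Ω) * (V.valuation (tt R₀) * ρ) := by
      refine hbound.trans ?_
      calc V.valuation (f R₁ - 1) * (V.valuation (l : Ω) * ρ)
          ≤ V.valuation (tt R₀) * (V.valuation (l : Ω) * ρ) := mul_le_mul' hfτ le_rfl
        _ = _ := by rw [mul_left_comm]
    have h7 : V.valuation (tt R₀) ≤ V.valuation (tt R₀) * ρ := (mul_le_mul_iff_right₀ hVl0).1 h6
    have hτ0 : 0 < V.valuation (tt R₀) := by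
      rw [zero_lt_iff]
      intro h
      rw [h, zero_pow (by omega)] at hτ
      exact hϖ0 hτ.symm
    have h8 : V.valuation (tt R₀) * ρ < V.valuation (tt R₀) * 1 := mul_lt_mul_of_pos_left hρ1 hτ0
    rw [mul_one] at h8
    exact absurd h7 (not_le.2 h8)

end H55K.S
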