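import Mathlib
import Pool.Agent.Lib.H55K.A.Defs
import Pool.Agent.Lib.H55K.D1
import Pool.Agent.Lib.H55K.K0B
import Pool.Agent.Lib.H55K.K2A
import Pool.Agent.Lib.H55R.BF2

open NumberField IsDedekindDomain WeierstrassCurve

namespace H55K

open H55P (IQ embF eF LF Per IsHecke Pt ac Inert Dec Nm)
open H35P (WAB Ker tt)
open H55R (Pl ord es fs smulP)

/-! Chunk K10 (M, many small, port of H28G/K14.lean). k10_arith: Nm π divides Nm l = l^2 (mul: Nm_mul, Nm_nat) and is > 1 (π is not a unit), so Nm π ≥ l ≥ 5. k10_below: v = w.under (𝓞 F) contains π, (π) is maximal. k10_val: v.intValuation_singleton. k10_card: 𝓞 F/(π) ≃ k, absNorm. chi_bij: Nat.card Gal(L/F) = finrank = Nm π - 1 = card kˣ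
(deg) and χ is injective: χ σ = 1 = q 1 gives ac s R = act 1 R = R for an extension s, R in Tor act π, so Fxd L s (hL.gen; s fixes F) and σ = 1 (lft_fxd). k10_fin: primes of L above the finite set S (H55K.A.D5: d5_above, or finite by above_finite of H55R).
k10_cyc: the condition of main_abs for ζ in L: if the displayed condition holds for ζ then for s in Gal(Ω/F) and n with ac s T = n • T on Tor act π: σ = restriction (exists_res for K = F; IsGalois F L), χ σ = c with act c T = n • T for a nonzero T, so c = n mod π (tor_zero), σ ζ = ζ^n; every ζ' with ζ'^l = 1 in Ω is a power of the image of ζ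
(IsPrimitiveRoot.eq_pow_of_pow_eq_one, map_of_injective), so s ζ' = ζ'^n: contradiction to hcyc. -/

variable {F : Type} [Field F] [NumberField F] [IQ F] {A B : F} {Om : ℂ} {Ω : Type} [Field Ω] [DecidableEq Ω]
  [Algebra F Ω] {j : Ω →+* ℂ} {act : 𝓞 F →+* AddMonoid.End (Pt (WAB A B) Ω)}
  {L : Type} [Field L] [NumberField L] [Algebra F L] [Algebra L Ω] [IsScalarTower F L Ω]

theorem k10_arith {l : ℕ} (hl : l.Prime) (h5 : 5 ≤ l) {π : 𝓞 F} (hp : Prime π) (hd : π ∣ (l : 𝓞 F)) :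
    4 < Nm π := by
  obtain ⟨c, hc⟩ := hd
  have h1 : Nm π * Nm c = l ^ 2 := by rw [← Nm_mul, ← hc, Nm_nat]
  have h2 : Nm π ≠ 1 := by
    intro h
    apply hp.not_unit
    unfold H55P.Nm at h
    rw [Ideal.absNorm_eq_one_iff, Ideal.span_singleton_eq_top] at h
    exact h
  have h3 : Nm π ∣ l ^ 2 := ⟨_, h1.symm⟩
  obtain ⟨i, hi, hi'⟩ := (Nat.dvd_prime_pow hl).1 h3
  have h4 : i ≠ 0 := by
    rintro rfl
    exact h2 (by rw [hi', pow_zero])
  have h5 : l ^ 1 ≤ l ^ i := Nat.pow_le_pow_right hl.pos (by omega)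
  rw [pow_one] at h5
  omega

theorem k10_below {π : 𝓞 F} (hp : Prime π) (w : Pl L) (hw : algebraMap (𝓞 F) (𝓞 L) π ∈ w.asIdeal) :
    (w.under (𝓞 F)).asIdeal = Ideal.span {π} := by
  have h1 : (Ideal.span {π}).IsMaximal := by
    have h1 : (Ideal.span {π}).IsPrime := (Ideal.span_singleton_prime hp.ne_zero).2 hp
    exact h1.isMaximal (by rw [Ne, Ideal.span_singleton_eq_bot]; exact hp.ne_zero)
  refine (h1.eq_of_le (w.under (𝓞 F)).isPrime.ne_top ?_).symm
  rw [Ideal.span_singleton_le_iff_mem]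
  exact hw

theorem k10_val {π : 𝓞 F} (hp : Prime π) (v : Pl F) (hv : v.asIdeal = Ideal.span {π}) :
    v.valuation F (algebraMap F F (π : F)) = WithZero.exp (-1 : ℤ) := by
  have h1 : algebraMap F F (π : F) = algebraMap (𝓞 F) F π := rfl
  rw [h1, HeightOneSpectrum.valuation_of_algebraMap]
  exact HeightOneSpectrum.intValuation_singleton v hp.ne_zero hv

theorem k10_card {π : 𝓞 F} {k : Type} [Field k] (q : 𝓞 F →+* k) (hq : Function.Surjective q)
    (hk : ∀ x, q x = 0 ↔ π ∣ x) : Nat.card k = Nm π := by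
  have h1 : RingHom.ker q = Ideal.span {π} := by
    ext x
    rw [RingHom.mem_ker, hk, Ideal.mem_span_singleton]
  have h2 : Nat.card (𝓞 F ⧸ RingHom.ker q) = Nat.card k :=
    Nat.card_congr (RingHom.quotientKerEquivOfSurjective hq).toEquiv
  rw [← h2, h1]
  unfold H55P.Nm
  rw [Ideal.absNorm_apply, Submodule.cardQuot_apply]

theorem chi_bij [IsAlgClosure F Ω] (h : CMA F A B Om j act) {π : 𝓞 F} (hp : Prime π) (hL : TFld act F L π)
    (hdeg : Module.finrank F L = Nm π - 1) {k : Type} [Field k] [Fintype k] (q : 𝓞 F →+* k)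
    (hq : Function.Surjective q) (hk : ∀ x, q x = 0 ↔ π ∣ x) (χ : Gal(L/F) →* kˣ)
    (hχ : ∀ (σ : Gal(L/F)) (s : Ω ≃ₐ[F] Ω) (c : 𝓞 F), Lft σ s → q c = χ σ → ∀ R ∈ Tor act π,
      ac (WAB A B) s R = act c R) : Function.Bijective χ := by
  classical
  have hgal : IsGalois F L := hL.gal
  have hfin : Finite kˣ := inferInstance
  rw [Nat.bijective_iff_injective_and_card]
  constructor
  · rw [injective_iff_map_eq_one]
    intro σ hσ
    obtain ⟨s, hs⟩ := exists_lft (F := F) (Ω := Ω) σ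
    rw [← lft_fxd hs]
    refine hL.gen s (fun x => s.commutes x) fun R hR => ?_
    rw [hχ σ s 1 hs (by rw [hσ, map_one, Units.val_one]) R hR, map_one]
    rfl
  · rw [IsGalois.card_aut_eq_finrank, hdeg, ← k10_card q hq hk, Nat.card_units]

theorem k10_fin [IsGalois F L] {S : Set (Pl F)} (hS : S.Finite) : {Q : Pl L | Q.under (𝓞 F) ∈ S}.Finite := by
  have h1 : {Q : Pl L | Q.under (𝓞 F) ∈ S} = ⋃ v ∈ S, {W : Pl L | W.under (𝓞 F) = v} := by
    ext W
    simp only [Set.mem_ofPred_eq, Set.mem_iUnion, exists_prop, exists_eq_right']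
  rw [h1]
  exact hS.biUnion fun v _ => H55R.above_finite v

theorem k10_cyc [IsAlgClosure F Ω] (h : CMA F A B Om j act) {l : ℕ} (hl : l.Prime) {π : 𝓞 F} (hp : Prime π)
    (hL : TFld act F L π) {k : Type} [Field k] [CharP k l] (q : 𝓞 F →+* k) (hq : Function.Surjective q)
    (hk : ∀ x, q x = 0 ↔ π ∣ x) (χ : Gal(L/F) →* kˣ)
    (hχ : ∀ (σ : Gal(L/F)) (s : Ω ≃ₐ[F] Ω) (c : 𝓞 F), Lft σ s → q c = χ σ → ∀ R ∈ Tor act π,
      ac (WAB A B) s R = act c R)
    (hcyc : ¬ ∀ (s : Ω ≃ₐ[F] Ω) (n : ℕ), (∀ T ∈ Tor act π, ac (WAB A B) s T = n • T) →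
      ∀ ζ : Ω, ζ ^ l = 1 → s ζ = ζ ^ n) (ζ : Lˣ) (hζ : IsPrimitiveRoot ζ l) :
    ¬ ∀ (σ : Gal(L/F)) (n : ℕ), (n : k) = χ σ → Ab.gu σ ζ = ζ ^ n := by
  classical
  have hgal : IsGalois F L := hL.gal
  intro hcon
  apply hcyc
  intro s n hn ζ' hζ'
  obtain ⟨σ, hσ⟩ := exists_res (K := F) (N := L) s (fun x => s.commutes x)
  obtain ⟨T, hT, h0⟩ := exists_tor h hp
  have hl0 : NeZero l := ⟨hl.ne_zero⟩
  -- the value of the character
  obtain ⟨c, hc⟩ := hq (χ σ : k)
  have h1 := hχ σ s c hσ hc T hT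
  rw [hn T hT] at h1
  have h2 : act (c - n) T = 0 := by
    rw [map_sub, map_natCast]
    show act c T - ((n : AddMonoid.End (Pt (WAB A B) Ω)) T) = 0
    rw [AddMonoid.End.natCast_apply, h1, sub_self]
  rw [tor_zero h hp hT h0, ← hk, map_sub, map_natCast, hc] at h2
  have h3 : (n : k) = χ σ := (sub_eq_zero.1 h2).symm
  have h4 := hcon σ n h3
  -- the roots of unity
  have hinj : Function.Injective (algebraMap L Ω) := (algebraMap L Ω).injective
  have hζ1 : IsPrimitiveRoot (ζ : L) l := IsPrimitiveRoot.coe_units_iff.2 hζ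
  have hζ2 : IsPrimitiveRoot (algebraMap L Ω (ζ : L)) l := hζ1.map_of_injective hinj
  obtain ⟨i, -, hi⟩ := hζ2.eq_pow_of_pow_eq_one hζ'
  have h5 : s (algebraMap L Ω (ζ : L)) = algebraMap L Ω (ζ : L) ^ n := by
    rw [hσ, ← map_pow]
    congr 1
    have h6 := congrArg Units.val h4
    rw [Ab.gu_apply, Units.val_pow_eq_pow_val] at h6
    exact h6
  rw [← hi, map_pow, h5, ← pow_mul, ← pow_mul, mul_comm]

end H55K
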