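import Mathlib
import Pool.Agent.Lib.H55K.K3
import Pool.Agent.Lib.H55K.A.Defs

open NumberField IsDedekindDomain WeierstrassCurve

namespace H55K

open H55P (IQ embF eF LF Per IsHecke Pt ac Inert Dec Nm)
open H35P (WAB Ker tt)
open H55R (Pl ord es fs smulP)

/-! Chunk K5 (M, port of H28G/K7.lean). w above v = (b) in the field N generated over F by the points killed by b. k5_res = H28G.K7_res for a variable F (copy). exists_loc: tot_ram gives TR; ker, surj, ram (w.valuation b = exp(-es), es = Nm b - 1 ≥ 2, integers have value ≤ 1), inv (TR.one, under_smulP), unif (TR.val, BF1_val), act: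
r(y) = q y = χ σ; s an extension of σ (exists_lft), ac s T = act y T (hχ), V above w, hG: tt_act: V(tt(act y T) - ak y * tt T) ≤ V(tt T)^2, tt (ac s T) = s (tt T) = algebraMap N Ω (σ t) (tt_ac, Lft); Abw.le with t^2; w(t)^2 = exp(-2) (TR.val). Ker V T from tor_ram. -/

variable {F : Type} [Field F] [NumberField F] [IQ F] {A B : F} {Om : ℂ} {Ω : Type} [Field Ω] [DecidableEq Ω]
  [Algebra F Ω] {j : Ω →+* ℂ} {act : 𝓞 F →+* AddMonoid.End (Pt (WAB A B) Ω)}
  {N : Type} [Field N] [NumberField N] [Algebra F N] [Algebra N Ω] [IsScalarTower F N Ω]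

omit [IQ F] in
/-- The residue fields agree. -/
theorem k5_res {N : Type} [Field N] [NumberField N] [Algebra F N] [IsGalois F N] (v : Pl F) (w : Pl N)
    (hw : w.under (𝓞 F) = v) (hf : fs F N v = 1) {k : Type} [Field k] (q : 𝓞 F →+* k)
    (hk : ∀ x : 𝓞 F, q x = 0 ↔ x ∈ v.asIdeal) : ∃ r : 𝓞 N →+* k,
      (∀ x : 𝓞 N, r x = 0 ↔ x ∈ w.asIdeal) ∧ ∀ y : 𝓞 F, r (algebraMap (𝓞 F) (𝓞 N) y) = q y := by
  have hu : ∀ y : 𝓞 F, y ∈ v.asIdeal ↔ algebraMap (𝓞 F) (𝓞 N) y ∈ w.asIdeal := by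
    intro y
    rw [← hw]
    exact Iff.rfl
  let φ : (𝓞 F ⧸ v.asIdeal) →+* (𝓞 N ⧸ w.asIdeal) :=
    Ideal.quotientMap w.asIdeal (algebraMap (𝓞 F) (𝓞 N)) fun y hy => (hu y).1 hy
  have hφ1 : Function.Injective φ := Ideal.quotientMap_injective' fun y hy => (hu y).2 hy
  have hfin1 : Finite (𝓞 F ⧸ v.asIdeal) := Ideal.finiteQuotientOfFreeOfNeBot v.asIdeal v.ne_bot
  have hfin2 : Finite (𝓞 N ⧸ w.asIdeal) := Ideal.finiteQuotientOfFreeOfNeBot w.asIdeal w.ne_bot
  have hcard : Nat.card (𝓞 F ⧸ v.asIdeal) = Nat.card (𝓞 N ⧸ w.asIdeal) := by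
    have h1 := H55R.D5_norm v w hw
    rw [hf, pow_one, Ideal.absNorm_apply, Ideal.absNorm_apply, Submodule.cardQuot_apply,
      Submodule.cardQuot_apply] at h1
    exact h1.symm
  have hφ : Function.Bijective φ := (Nat.bijective_iff_injective_and_card φ).2 ⟨hφ1, hcard⟩
  let ψ : (𝓞 F ⧸ v.asIdeal) ≃+* (𝓞 N ⧸ w.asIdeal) := RingEquiv.ofBijective φ hφ
  let q' : (𝓞 F ⧸ v.asIdeal) →+* k := Ideal.Quotient.lift v.asIdeal q fun a ha => (hk a).2 ha
  let r : 𝓞 N →+* k := q'.comp ((ψ.symm : (𝓞 N ⧸ w.asIdeal) →+* (𝓞 F ⧸ v.asIdeal)).comp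
    (Ideal.Quotient.mk w.asIdeal))
  have hr : ∀ y : 𝓞 F, r (algebraMap (𝓞 F) (𝓞 N) y) = q y := by
    intro y
    have e1 : ψ (Ideal.Quotient.mk v.asIdeal y) = Ideal.Quotient.mk w.asIdeal (algebraMap (𝓞 F) (𝓞 N) y) := rfl
    show q' (ψ.symm (Ideal.Quotient.mk w.asIdeal (algebraMap (𝓞 F) (𝓞 N) y))) = q y
    rw [← e1, RingEquiv.symm_apply_apply]
    rfl
  refine ⟨r, fun x => ?_, hr⟩
  obtain ⟨z, hz⟩ := hφ.2 (Ideal.Quotient.mk w.asIdeal x)
  obtain ⟨y, rfl⟩ := Ideal.Quotient.mk_surjective z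
  have e2 : Ideal.Quotient.mk w.asIdeal (algebraMap (𝓞 F) (𝓞 N) y) = Ideal.Quotient.mk w.asIdeal x := hz
  have e3 : r x = q y := by
    rw [← hr y]
    show q' (ψ.symm (Ideal.Quotient.mk w.asIdeal x)) =
      q' (ψ.symm (Ideal.Quotient.mk w.asIdeal (algebraMap (𝓞 F) (𝓞 N) y)))
    rw [e2]
  rw [e3, hk, hu, ← Ideal.Quotient.eq_zero_iff_mem, e2, Ideal.Quotient.eq_zero_iff_mem]

theorem exists_loc [IsAlgClosure F Ω] (h : CMA F A B Om j act) {b : 𝓞 F} (hp : Prime b)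
    (hN : TFld act F N b) (h3 : 2 < Nm b)
    (hG : ∀ V : ValuationSubring Ω, V.valuation (ak Ω b) < 1 → GV A B V) {k : Type} [Field k]
    (q : 𝓞 F →+* k) (hq : Function.Surjective q) (hk : ∀ x, q x = 0 ↔ b ∣ x) (χ : Gal(N/F) →* kˣ)
    (hχ : ∀ (σ : Gal(N/F)) (s : Ω ≃ₐ[F] Ω) (c : 𝓞 F), Lft σ s → q c = χ σ → ∀ R ∈ Tor act b,
      ac (WAB A B) s R = act c R) (v : Pl F)
    (hv : v.asIdeal = Ideal.span {b}) (w : Pl N) (hw : w.under (𝓞 F) = v) (T : Pt (WAB A B) Ω)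
    (hT : T ∈ Tor act b) (h0 : T ≠ 0) (t : Nˣ) (ht : algebraMap N Ω (t : N) = tt T) :
    ∃ r : 𝓞 N →+* k, Ab.Loc χ w t r ∧ ∀ y : 𝓞 F, r (algebraMap (𝓞 F) (𝓞 N) y) = q y := by
  have hgal : IsGalois F N := hN.gal
  have hb0 : b ≠ 0 := hp.ne_zero
  have hval : v.valuation F (algebraMap F F (b : F)) = WithZero.exp (-1 : ℤ) := by
    have e : algebraMap F F (b : F) = algebraMap (𝓞 F) F b := rfl
    rw [e, v.valuation_of_algebraMap, v.intValuation_singleton hb0 hv]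
  have TR := tot_ram h hp hN v hval hG
  obtain ⟨r, hr1, hr2⟩ := k5_res v w hw TR.fs q fun x => by
    rw [hk, hv, Ideal.mem_span_singleton]
  have hbF : (b : F) ≠ 0 := fun h1 => hb0 (RingOfIntegers.coe_injective (h1.trans (map_zero _).symm))
  have hwb : w.valuation N (algebraMap F N (b : F)) = WithZero.exp (-(es F N v : ℤ)) := by
    let u : Fˣ := Units.mk0 _ hbF
    have h1 : ord v u = 1 := by
      have h2 := H55R.BF1_val v u
      have h3 : v.valuation F (b : F) = WithZero.exp (-1 : ℤ) := hval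
      rw [Units.val_mk0, h3, WithZero.exp_inj] at h2
      omega
    have h2 := H55R.ord_map w v hw u
    rw [h1, mul_one] at h2
    have h4 := H55R.BF1_val w (Units.map (algebraMap F N : F →* N) u)
    rw [h2] at h4
    exact h4
  have hT2 : w.valuation N (t : N) = WithZero.exp (-1 : ℤ) := TR.val w hw T hT h0 t ht
  refine ⟨r, ⟨hr1, fun c => ?_, fun y hy => ?_, fun σ => ?_, ?_, fun σ y hy => ?_⟩, hr2⟩
  · obtain ⟨y, hy⟩ := hq c
    exact ⟨y, (hr2 y).trans hy⟩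
  · have h1 : q y = 0 := (hr2 y).symm.trans hy
    rw [hk] at h1
    obtain ⟨c, rfl⟩ := h1
    have e1 : algebraMap F N ((b * c : 𝓞 F) : F) = algebraMap F N (b : F) * algebraMap F N (c : F) := by
      rw [← map_mul]
      rfl
    have h5 : w.valuation N (algebraMap F N (c : F)) ≤ 1 := by
      have e2 : algebraMap F N (c : F) = algebraMap (𝓞 N) N (algebraMap (𝓞 F) (𝓞 N) c) := rfl
      rw [e2]
      exact w.valuation_le_one _
    rw [e1, map_mul, hwb]
    refine (mul_le_of_le_one_right' h5).trans ?_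
    rw [WithZero.exp_le_exp, TR.es]
    omega
  · exact TR.one _ _ ((H55R.under_smulP σ w).trans hw) hw
  · have h1 := H55R.BF1_val w t
    rw [hT2, WithZero.exp_inj] at h1
    omega
  · have h1 : q y = χ σ := (hr2 y).symm.trans hy
    obtain ⟨s, hs⟩ := exists_lft (F := F) (Ω := Ω) σ
    have h2 := hχ σ s y hs h1 T hT
    obtain ⟨V, hV⟩ := exists_abw Ω w
    have hVv : Abw V v := hV.below hw
    have hVb : V.valuation (ak Ω b) < 1 := (hVv.lt _).2 ((v.valuation_lt_one_iff_mem b).2 (by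
      rw [hv]
      exact Ideal.mem_span_singleton_self b))
    have hGV := hG V hVb
    have hK := (tor_ram h hGV hp hVb hT h0).1
    have h4 := tt_act h hGV y hK
    rw [← h2, tt_ac, ← ht, hs] at h4
    have e3 : ak Ω y = algebraMap N Ω (algebraMap F N (y : F)) := IsScalarTower.algebraMap_apply F N Ω _
    rw [e3, ← map_mul, ← map_sub, ← map_pow, ← map_pow, hV.le, map_pow, hT2] at h4
    refine h4.trans (le_of_eq ?_)
    rw [← WithZero.exp_nsmul]
    norm_num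

end H55K
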