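import Mathlib
import Pool.Agent.Lib.H55K.D0
import Pool.Agent.Lib.H55R.HD

open NumberField IsDedekindDomain WeierstrassCurve

namespace H55K

open H55P (IQ embF eF LF Per IsHecke Pt ac Inert Dec Nm)
open H35P (WAB Ker tt)
open H55R (Pl ord es fs smulP)

/-! The good primes of degree one of F (definition). -/

variable {F : Type} [Field F] [NumberField F] [IQ F] {A B : F} {Om : ℂ} {Ω : Type} [Field Ω] [DecidableEq Ω]
  [Algebra F Ω] {j : Ω →+* ℂ} {act : 𝓞 F →+* AddMonoid.End (Pt (WAB A B) Ω)}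

/-- The prime v of F of degree one is good for the construction of the auxiliary field. -/
structure Okv (A B : F) {Ω : Type} [Field Ω] [DecidableEq Ω] [Algebra F Ω]
    (act : 𝓞 F →+* AddMonoid.End (Pt (WAB A B) Ω)) (m : Ideal (𝓞 F)) (ψ : Ideal (𝓞 F) →*₀ 𝓞 F) (l : ℕ)
    (π : 𝓞 F) (Ξ : Pt (WAB A B) Ω → Ω) (v : Pl F) : Prop where
  deg : (Ideal.absNorm v.asIdeal).Prime
  nl : (l : 𝓞 F) ∉ v.asIdeal
  cop : IsCoprime v.asIdeal m
  gv : ∀ V : ValuationSubring Ω, V.valuation ((Ideal.absNorm v.asIdeal : ℕ) : Ω) < 1 → GV A B V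
  frob : ∀ V : ValuationSubring Ω, (∀ a : 𝓞 F, a ∈ v.asIdeal → V.valuation (ak Ω a) < 1) →
      ∀ s : Ω ≃ₐ[F] Ω, (∀ x ∈ V, V.valuation (s x - x ^ Ideal.absNorm v.asIdeal) < 1) →
        ∀ n : ℕ, V.valuation (n : Ω) = 1 → ∀ T : Pt (WAB A B) Ω, n • T = 0 →
          ac (WAB A B) s T = act (ψ v.asIdeal) T
  xi : ∀ T ∈ Tor act π, T ≠ 0 →
      (∀ R ∈ Tor act (ψ v.asIdeal), ∀ V : ValuationSubring Ω, V.valuation (Ξ (T + R)) = 1) ∧
      (∀ R ∈ Tor act (ψ v.asIdeal), ∀ V : ValuationSubring Ω, V.valuation (ak Ω (ψ v.asIdeal)) < 1 →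
        V.valuation (Ξ (T + R) - Ξ T) < 1) ∧
      (act (ψ v.asIdeal) T = T → ∀ S' : Finset (Pt (WAB A B) Ω), TN act (ψ v.asIdeal) S' →
        ∏ R ∈ S', Ξ (T + R) = 1)

end H55K
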