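import Mathlib
import Pool.Agent.Lib.H35P.Red
import Pool.Agent.Lib.H55K.D0

/-!
# H55K: the interface between part U (elliptic units) and part K (fields)
-/

open NumberField IsDedekindDomain WeierstrassCurve

namespace H55K

open H55P (IQ embF eF LF Per IsHecke Pt ac Inert Dec Nm)
open H35P (WAB Ker tt)

variable {F : Type} [Field F] [NumberField F] [IQ F] {A B : F} {Ω : Type} [Field Ω] [DecidableEq Ω]
  [Algebra F Ω]

/-- The elliptic unit Ξ (part U): a function on the points over Ω. -/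
structure XiD (act : 𝓞 F →+* AddMonoid.End (Pt (WAB A B) Ω)) (ψ : Ideal (𝓞 F) →*₀ 𝓞 F) (π : 𝓞 F)
    (Ξ : Pt (WAB A B) Ω → Ω) : Prop where
  gal : ∀ (s : Ω ≃ₐ[F] Ω) (P : Pt (WAB A B) Ω), s (Ξ P) = Ξ (ac (WAB A B) s P)
  unit0 : ∀ T ∈ Tor act π, T ≠ 0 → ∀ V : ValuationSubring Ω, V.valuation (Ξ T) = 1
  exp : ∃ c : 𝓞 F, ¬ π ∣ c ∧ ∀ V : ValuationSubring Ω, V.valuation (ak Ω π) < 1 → ∀ T ∈ Tor act π, T ≠ 0 →
    V.valuation (Ξ T - 1 - ak Ω c * tt T) ≤ V.valuation (tt T) ^ 2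
  fin : ∃ S : Set (HeightOneSpectrum (𝓞 F)), S.Finite ∧ ∀ v ∉ S, (Ideal.absNorm v.asIdeal).Prime →
    ∀ T ∈ Tor act π, T ≠ 0 →
      (∀ R ∈ Tor act (ψ v.asIdeal), ∀ V : ValuationSubring Ω, V.valuation (Ξ (T + R)) = 1) ∧
      (∀ R ∈ Tor act (ψ v.asIdeal), ∀ V : ValuationSubring Ω, V.valuation (ak Ω (ψ v.asIdeal)) < 1 →
        V.valuation (Ξ (T + R) - Ξ T) < 1) ∧
      (act (ψ v.asIdeal) T = T → ∀ S' : Finset (Pt (WAB A B) Ω), TN act (ψ v.asIdeal) S' →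
        ∏ R ∈ S', Ξ (T + R) = 1)

end H55K
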