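import Mathlib
import Pool.Agent.Lib.H55K.G1
import Pool.Agent.Lib.H55K.KOk
import Pool.Agent.Lib.H55K.XD
import Pool.Agent.Lib.H55R.X10

open NumberField IsDedekindDomain WeierstrassCurve

namespace H55K

open H55P (IQ embF eF LF Per IsHecke Pt ac Inert Dec Nm)
open H35P (WAB Ker tt)
open H55R (Pl ord es fs smulP)

/-! Chunk K6A (M). exists_okv: S is the union of the finite sets of XiD.fin, Dta.frob, of the primes dividing l or m (finitely many primes contain a nonzero element / ideal: H55R.X10_bad in H55R/X10.lean; v and m not coprime iff m ≤ v.asIdeal since v is maximal; IsHecke.ne: m ≠ ⊥),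
and of S' = {v | (absNorm v : 𝓞 F) ∈ v'.asIdeal for some v' in S1}, S1 the finite set of Dta.fin. S' is finite: for v' in S1 let p be the prime number in v' (v'.asIdeal.under ℤ; or absNorm v' ∈ v'): if v has prime norm q and q ∈ v' then q = p (two different prime numbers in v' give 1 ∈ v'), so q = p ∈ v
(Ideal.absNorm_mem), and finitely many v contain p ≠ 0. (Only v of prime norm matter; intersect S' with them.)
gv: let V(q) < 1, q = absNorm v prime. The set v' = {a in 𝓞 F | V(ak a) < 1} is a prime ideal (ak_le), contains q, so not zero: a prime v' of F with q ∈ v', so v' ∉ S1, Dta.fin gives GV A B V. -/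

variable {F : Type} [Field F] [NumberField F] [IQ F] {A B : F} {Om : ℂ} {Ω : Type} [Field Ω] [DecidableEq Ω]
  [Algebra F Ω] {j : Ω →+* ℂ} {act : 𝓞 F →+* AddMonoid.End (Pt (WAB A B) Ω)}

/-- The primes of prime norm whose norm is in v'. -/
def k6a_set (v' : Pl F) : Set (Pl F) :=
  {v | (Ideal.absNorm v.asIdeal).Prime ∧ ((Ideal.absNorm v.asIdeal : ℕ) : 𝓞 F) ∈ v'.asIdeal}

omit [IQ F] in
theorem k6a_fin (v' : Pl F) : (k6a_set v').Finite := by
  by_cases hne : (k6a_set v').Nonempty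
  · obtain ⟨v0, hp0, hm0⟩ := hne
    have hne0 : Ideal.span {((Ideal.absNorm v0.asIdeal : ℕ) : 𝓞 F)} ≠ ⊥ := by
      rw [Ne, Ideal.span_singleton_eq_bot]
      exact_mod_cast hp0.ne_zero
    refine (H55R.X10_bad hne0).subset fun v hv => ?_
    obtain ⟨hp, hm⟩ := hv
    have heq : Ideal.absNorm v.asIdeal = Ideal.absNorm v0.asIdeal := by
      by_contra hc
      have hcop : Nat.Coprime (Ideal.absNorm v.asIdeal) (Ideal.absNorm v0.asIdeal) :=
        (Nat.coprime_primes hp hp0).2 hc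
      have h1 := Nat.isCoprime_iff_coprime.2 hcop
      obtain ⟨a, b, hab⟩ := h1
      have h2 := congrArg (fun t : ℤ => (t : 𝓞 F)) hab
      push_cast at h2
      have h3 : (1 : 𝓞 F) ∈ v'.asIdeal := by
        rw [← h2]
        exact v'.asIdeal.add_mem (v'.asIdeal.mul_mem_left _ hm) (v'.asIdeal.mul_mem_left _ hm0)
      exact v'.isPrime.ne_top ((Ideal.eq_top_iff_one _).2 h3)
    show Ideal.span {((Ideal.absNorm v0.asIdeal : ℕ) : 𝓞 F)} ≤ v.asIdeal
    rw [Ideal.span_singleton_le_iff_mem, ← heq]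
    exact Ideal.absNorm_mem v.asIdeal
  · rw [Set.not_nonempty_iff_eq_empty] at hne
    rw [hne]
    exact Set.finite_empty

omit [NumberField F] [IQ F] [DecidableEq Ω] in
theorem k6a_cast (n : ℕ) : ak Ω (n : 𝓞 F) = (n : Ω) := by
  have e : ((n : 𝓞 F) : F) = (n : F) := by push_cast; rfl
  unfold ak
  rw [e, map_natCast]

omit [IQ F] [DecidableEq Ω] in
theorem k6a_below (V : ValuationSubring Ω) (q : ℕ) (hq : q.Prime) (hV : V.valuation (q : Ω) < 1) :
    ∃ v' : Pl F, ∀ a : 𝓞 F, a ∈ v'.asIdeal ↔ V.valuation (ak Ω a) < 1 := by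
  let f : 𝓞 F →+* V :=
    { toFun := fun a => ⟨ak Ω a, (V.valuation_le_one_iff _).1 (ak_le V a)⟩
      map_one' := by
        apply Subtype.ext
        simp [ak]
      map_mul' := fun a b => by
        apply Subtype.ext
        simp [ak]
      map_zero' := by
        apply Subtype.ext
        simp [ak]
      map_add' := fun a b => by
        apply Subtype.ext
        simp [ak] }
  have hmem : ∀ a : 𝓞 F, a ∈ Ideal.comap f (IsLocalRing.maximalIdeal V) ↔ V.valuation (ak Ω a) < 1 := by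
    intro a
    rw [Ideal.mem_comap, V.valuation_lt_one_iff]
    exact Iff.rfl
  have hne : Ideal.comap f (IsLocalRing.maximalIdeal V) ≠ ⊥ := by
    intro h0
    have h1 : (q : 𝓞 F) ∈ Ideal.comap f (IsLocalRing.maximalIdeal V) := by
      rw [hmem, k6a_cast]
      exact hV
    rw [h0, Ideal.mem_bot] at h1
    exact hq.ne_zero (by exact_mod_cast h1)
  exact ⟨⟨Ideal.comap f (IsLocalRing.maximalIdeal V), inferInstance, hne⟩, hmem⟩

theorem exists_okv {m : Ideal (𝓞 F)} {ψ : Ideal (𝓞 F) →*₀ 𝓞 F} {l : ℕ} {π : 𝓞 F}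
    {Ξ : Pt (WAB A B) Ω → Ω} (h : Dta A B Om j act m ψ l) (hX : XiD act ψ π Ξ) :
    ∃ S : Set (Pl F), S.Finite ∧ ∀ v ∉ S, (Ideal.absNorm v.asIdeal).Prime → Okv A B act m ψ l π Ξ v := by
  obtain ⟨S1, hS1, h1⟩ := h.fin
  obtain ⟨S2, hS2, h2⟩ := h.frob
  obtain ⟨S3, hS3, h3⟩ := hX.fin
  have hl0 : Ideal.span {(l : 𝓞 F)} ≠ ⊥ := by
    rw [Ne, Ideal.span_singleton_eq_bot]
    exact_mod_cast h.prime.ne_zero
  have hS4 := H55R.X10_bad hl0
  have hS5 := H55R.X10_bad h.hecke.ne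
  have hS6 : (⋃ v' ∈ S1, k6a_set v').Finite := hS1.biUnion fun v' _ => k6a_fin v'
  refine ⟨S2 ∪ S3 ∪ {v : Pl F | Ideal.span {(l : 𝓞 F)} ≤ v.asIdeal} ∪ {v : Pl F | m ≤ v.asIdeal} ∪
    ⋃ v' ∈ S1, k6a_set v', (((hS2.union hS3).union hS4).union hS5).union hS6, ?_⟩
  intro v hv hq
  simp only [Set.mem_union, not_or] at hv
  obtain ⟨⟨⟨⟨n2, n3⟩, n4⟩, n5⟩, n6⟩ := hv
  refine ⟨hq, fun h' => n4 ?_, ?_, fun V hV => ?_, h2 v n2 hq, h3 v n3 hq⟩
  · exact (Ideal.span_singleton_le_iff_mem _).2 h'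
  · rw [Ideal.isCoprime_iff_sup_eq]
    by_contra hc
    apply n5
    have h5 : v.asIdeal = v.asIdeal ⊔ m := v.isMaximal.eq_of_le hc le_sup_left
    show m ≤ v.asIdeal
    rw [h5]
    exact le_sup_right
  · obtain ⟨v', hv'⟩ := k6a_below (F := F) V _ hq hV
    have hn : v' ∉ S1 := by
      intro hm
      apply n6
      refine Set.mem_biUnion hm ?_
      exact ⟨hq, (hv' _).2 (by
        rw [k6a_cast]
        exact hV)⟩
    exact h1 v' hn V fun a ha => (hv' a).1 ha

end H55K
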