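import Mathlib
import Pool.Agent.Lib.H35P.B1
import Pool.Agent.Lib.H35P.R2
import Pool.Agent.Lib.H35P.Red
import Pool.Agent.Lib.H55P.EDef
import Pool.Agent.Lib.H55P.Sel
import Pool.Agent.Lib.H55P.TD
import Pool.Agent.Lib.H55R.D5

open NumberField IsDedekindDomain WeierstrassCurve

namespace H55K

open H55P (IQ embF eF LF Per IsHecke Pt ac Inert Dec Nm)
open H35P (WAB Ker tt)
open H55R (Pl ord es fs smulP)

/-! Chunk K6B (M, port of H28G/K8.lean, aux_prime). v = Q.under (𝓞 F), β = ψ v.asIdeal: v.asIdeal = span {β} (IsHecke.gen with hv: v coprime to m), β prime (v.isPrime, v.ne_bot: Ideal.span_singleton_prime). The rest as in H28G/K8.lean: absNorm Q = absNorm(v)^fs (H55R.D5_norm) is prime so fs = 1 and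
absNorm v = absNorm Q = Nm β; membership: v is maximal, smulP_trans, under_smulP; valuation: ord_map, K8_ord (copy it for variable F), BF1_val. -/

variable {F : Type} [Field F] [NumberField F] [IQ F]

omit [IQ F] in
theorem k6b_ord (v : Pl F) {β : 𝓞 F} (hβ : Prime β) (hv : v.asIdeal = Ideal.span {β}) (x : Fˣ)
    (hx : (x : F) = (β : F)) : ord v x = 1 := by
  have h1 : ((1 : ℕ) : ℤ) ≤ ord v x := by
    rw [H55R.ord_int v β x hx, pow_one, hv]
    exact Ideal.mem_span_singleton_self _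
  have h2 : ¬ ((2 : ℕ) : ℤ) ≤ ord v x := by
    rw [H55R.ord_int v β x hx, hv, Ideal.span_singleton_pow, Ideal.mem_span_singleton]
    intro h
    obtain ⟨c, hc⟩ := h
    apply hβ.not_unit
    have h3 : β * 1 = β * (β * c) := by
      rw [mul_one]
      nth_rw 1 [hc]
      ring
    have h4 := mul_left_cancel₀ hβ.ne_zero h3
    exact IsUnit.of_mul_eq_one c h4.symm
  push_cast at h1 h2
  omega

theorem aux_prime {L : Type} [Field L] [NumberField L] [Algebra F L] [IsGalois F L] {m : Ideal (𝓞 F)}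
    {ψ : Ideal (𝓞 F) →*₀ 𝓞 F} (hψ : IsHecke m ψ) (Q : Pl L) (hv : IsCoprime (Q.under (𝓞 F)).asIdeal m)
    (hQ : (Ideal.absNorm Q.asIdeal).Prime) (he : es F L (Q.under (𝓞 F)) = 1) (β : 𝓞 F)
    (hβ : β = ψ (Q.under (𝓞 F)).asIdeal) :
    Prime β ∧ (Q.under (𝓞 F)).asIdeal = Ideal.span {β} ∧ Nm β = Ideal.absNorm Q.asIdeal ∧
      Ideal.absNorm (Q.under (𝓞 F)).asIdeal = Ideal.absNorm Q.asIdeal ∧
      (∀ v : Pl L, algebraMap (𝓞 F) (𝓞 L) β ∈ v.asIdeal ↔ ∃ σ : Gal(L/F), v = smulP σ Q) ∧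
      ∀ σ : Gal(L/F), (smulP σ Q).valuation L (algebraMap F L (β : F)) = WithZero.exp (-1 : ℤ) := by
  obtain ⟨v, hvd⟩ : ∃ v : Pl F, v = Q.under (𝓞 F) := ⟨_, rfl⟩
  rw [← hvd] at he hv hβ
  have hspan : v.asIdeal = Ideal.span {β} := by
    rw [hβ]
    exact (hψ.gen _ hv).symm
  have hβ0 : β ≠ 0 := by
    rintro rfl
    apply v.ne_bot
    rw [hspan, Ideal.span_singleton_eq_bot]
  have hprime : Prime β := by
    rw [← Ideal.span_singleton_prime hβ0, ← hspan]
    exact v.isPrime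
  have hfs := H55R.D5_norm v Q hvd.symm
  have hfs1 : fs F L v = 1 := by
    rw [hfs] at hQ
    exact Nat.Prime.eq_one_of_pow hQ
  rw [hfs1, pow_one] at hfs
  have hNm : Nm β = Ideal.absNorm Q.asIdeal := by
    rw [hfs]
    unfold H55P.Nm
    rw [← hspan]
  rw [← hvd]
  refine ⟨hprime, hspan, hNm, hfs.symm, ?_, ?_⟩
  · intro v'
    constructor
    · intro h
      have h1 : v.asIdeal ≤ (v'.under (𝓞 F)).asIdeal := by
        rw [hspan, Ideal.span_singleton_le_iff_mem]
        exact h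
      have h2 : v = v'.under (𝓞 F) :=
        HeightOneSpectrum.ext (v.isMaximal.eq_of_le (v'.under (𝓞 F)).isPrime.ne_top h1)
      obtain ⟨σ, hσ⟩ := H55R.smulP_trans (K := F) Q v' (hvd.symm.trans h2)
      exact ⟨σ, hσ.symm⟩
    · rintro ⟨σ, rfl⟩
      have h1 : β ∈ ((smulP σ Q).under (𝓞 F)).asIdeal := by
        rw [H55R.under_smulP, ← hvd, hspan]
        exact Ideal.mem_span_singleton_self _
      exact h1
  · intro σ
    have hβ0' : (β : F) ≠ 0 := by
      intro h
      exact hβ0 (RingOfIntegers.coe_injective (h.trans (map_zero (algebraMap (𝓞 F) F)).symm))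
    obtain ⟨x, hx⟩ : ∃ x : Fˣ, (x : F) = (β : F) := ⟨Units.mk0 _ hβ0', rfl⟩
    have h1 := H55R.ord_map (smulP σ Q) v ((H55R.under_smulP σ Q).trans hvd.symm) x
    rw [he, k6b_ord v hprime hspan x hx] at h1
    have h2 := H55R.BF1_val (smulP σ Q) (Units.map (algebraMap F L : F →* L) x)
    rw [h1] at h2
    have h3 : ((Units.map (algebraMap F L : F →* L) x : Lˣ) : L) = algebraMap F L (β : F) := by
      show algebraMap F L (x : F) = _
      rw [hx]
    rw [h3] at h2
    rw [h2]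
    norm_num

end H55K
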