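import Mathlib
import Pool.Agent.Lib.H55K.KOk
import Pool.Agent.Lib.H55K.K0C
import Pool.Agent.Lib.H55K.K2A
import Pool.Agent.Lib.H13S.FR
import Pool.Agent.Lib.H28G.K9

open NumberField IsDedekindDomain WeierstrassCurve

namespace H55K

open H55P (IQ embF eF LF Per IsHecke Pt ac Inert Dec Nm)
open H35P (WAB Ker tt)
open H55R (Pl ord es fs smulP)

/-! Chunk K7 (M). Let v = Q.under (𝓞 F), q = absNorm v = absNorm Q (D5_norm: absNorm Q = absNorm(v)^fs is prime; absNorm v = q is given by hn). V above Q (exists_abw), so V above v (Abw.below for K = F): V(ak a) < 1 for a in v. H13S.exists_frob v V gives s. ac s T = act (ψ v) T by Okv.frob with n = l: V(l) = 1 because l is not in v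
(V above v: V(l) < 1 iff l in v), l • T = 0 because π | l (act (l : 𝓞 F) T = l • T: map_natCast, AddMonoid.End.natCast_apply). For y in L with algebraMap L Ω y in V: Q.valuation y ≤ 1, Q.valuation (y^q - y) < 1 (H28G.pow_norm in H28G/K9.lean, general), so V(s y - y) = V((s y - y^q) + (y^q - y)) < 1.
triv_of_es (K = F, N = L, he) gives Fxd L s, so ac s T = T (hL.crd, ac_fix). -/

variable {F : Type} [Field F] [NumberField F] [IQ F] {A B : F} {Om : ℂ} {Ω : Type} [Field Ω] [DecidableEq Ω]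
  [Algebra F Ω] {j : Ω →+* ℂ} {act : 𝓞 F →+* AddMonoid.End (Pt (WAB A B) Ω)}
  {L : Type} [Field L] [NumberField L] [Algebra F L] [Algebra L Ω] [IsScalarTower F L Ω]

theorem fix_T [IsAlgClosure F Ω] {m : Ideal (𝓞 F)} {ψ : Ideal (𝓞 F) →*₀ 𝓞 F} {l : ℕ} {π : 𝓞 F}
    {Ξ : Pt (WAB A B) Ω → Ω} (hd : π ∣ (l : 𝓞 F)) (hL : TFld act F L π) (Q : Pl L)
    (hv : Okv A B act m ψ l π Ξ (Q.under (𝓞 F))) (hQ : (Ideal.absNorm Q.asIdeal).Prime)
    (hn : Ideal.absNorm (Q.under (𝓞 F)).asIdeal = Ideal.absNorm Q.asIdeal)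
    (he : es F L (Q.under (𝓞 F)) = 1) {T : Pt (WAB A B) Ω} (hT : T ∈ Tor act π) :
    act (ψ (Q.under (𝓞 F)).asIdeal) T = T := by
  obtain ⟨V, hV⟩ := exists_abw Ω Q
  have hVv : Abw V (Q.under (𝓞 F)) := hV.below rfl
  have hva : ∀ a : 𝓞 F, a ∈ (Q.under (𝓞 F)).asIdeal → V.valuation (ak Ω a) < 1 := fun a ha =>
    (hVv.lt _).2 (((Q.under (𝓞 F)).valuation_lt_one_iff_mem a).2 ha)
  obtain ⟨s, -, hs⟩ := H13S.exists_frob (Q.under (𝓞 F)) V hva
  have hcast : ∀ n : ℕ, algebraMap F Ω (((n : 𝓞 F) : F)) = (n : Ω) := by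
    intro n
    have e : ((n : 𝓞 F) : F) = (n : F) := by push_cast; rfl
    rw [e, map_natCast]
  have hl1 : V.valuation (l : Ω) = 1 := by
    refine le_antisymm ((V.valuation_le_one_iff _).2 (natCast_mem V l)) (not_lt.1 fun h' => hv.nl ?_)
    rw [← hcast l, hVv.lt] at h'
    exact ((Q.under (𝓞 F)).valuation_lt_one_iff_mem _).1 h'
  have hT1 : l • T = 0 := by
    obtain ⟨c, hc⟩ := hd
    have h1 : act (l : 𝓞 F) T = 0 := by
      rw [hc, mul_comm, map_mul]
      show act c (act π T) = 0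
      have h2 : act π T = 0 := hT
      rw [h2, map_zero]
    rw [map_natCast, AddMonoid.End.natCast_apply] at h1
    exact h1
  have hfrob := hv.frob V hva s hs l hl1 T hT1
  rw [← hfrob]
  have hfx : Fxd L s := by
    have hgal := hL.gal
    refine triv_of_es (K := F) hV he s (fun x => s.commutes x) fun y hy => ?_
    have h1 := hs _ hy
    have h2 : V.valuation (algebraMap L Ω y ^ Ideal.absNorm (Q.under (𝓞 F)).asIdeal - algebraMap L Ω y) < 1 := by
      rw [hn, ← map_pow, ← map_sub, hV.lt]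
      exact H28G.pow_norm Q y ((hV y).1 hy)
    have e : s (algebraMap L Ω y) - algebraMap L Ω y =
        (s (algebraMap L Ω y) - algebraMap L Ω y ^ Ideal.absNorm (Q.under (𝓞 F)).asIdeal) +
        (algebraMap L Ω y ^ Ideal.absNorm (Q.under (𝓞 F)).asIdeal - algebraMap L Ω y) := by ring
    rw [e]
    exact V.valuation.map_add_lt h1 h2
  obtain ⟨x, y, hx, hy⟩ := hL.crd T hT
  exact ac_fix s (by rw [← hx, hfx x]) (by rw [← hy, hfx y])

end H55K
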