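import Mathlib
import Pool.Agent.Lib.H55K.K2B

open NumberField IsDedekindDomain WeierstrassCurve

namespace H55K

open H55P (IQ embF eF LF Per IsHecke Pt ac Inert Dec Nm)
open H35P (WAB Ker tt)
open H55R (Pl ord es fs smulP)

/-! Chunk K8 (M, port of norm_xi in H28G/K10.lean). Apply algebraMap L N then algebraMap N Ω (injective): Algebra.norm_eq_prod_automorphisms: algebraMap L N (norm al) = ∏ σ, σ al. For σ let s be an extension (exists_lft): algebraMap N Ω (σ al) = s (Ξ (T + R)) = Ξ (ac s T + ac s R) = Ξ (T + ac s R), as s fixes L (Lft.fxd) and the coordinates of T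
are in L (hL.crd, ac_fix). σ -> ac s R is a bijection from Gal(N/L) to the nonzero points of Tor act β: injective orb_inj, surjective horb, values: ac_tor, k2_ac_ne. S' = the Finset of the nonzero points (exists_TN); Finset.prod_bij or prod_nbij. -/

variable {F : Type} [Field F] [NumberField F] [IQ F] {A B : F} {Om : ℂ} {Ω : Type} [Field Ω] [DecidableEq Ω]
  [Algebra F Ω] {j : Ω →+* ℂ} {act : 𝓞 F →+* AddMonoid.End (Pt (WAB A B) Ω)}
  {L : Type} [Field L] [NumberField L] [Algebra F L] [Algebra L Ω] [IsScalarTower F L Ω]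
  {N : Type} [Field N] [NumberField N] [Algebra F N] [Algebra L N] [Algebra N Ω] [IsScalarTower F L N]
  [IsScalarTower L N Ω] [IsScalarTower F N Ω]

theorem norm_xi [IsAlgClosure F Ω] (h : CMA F A B Om j act) {π β : 𝓞 F} (hβ : Prime β)
    (hL : TFld act F L π) (hN : TFld act L N β)
    (horb : ∀ R ∈ Tor act β, R ≠ 0 → ∀ R' ∈ Tor act β, R' ≠ 0 → ∃ σ : Gal(N/L), ∀ s : Ω ≃ₐ[F] Ω,
      Lft σ s → ac (WAB A B) s R = R') {Ξ : Pt (WAB A B) Ω → Ω}
    (hX : ∀ (s : Ω ≃ₐ[F] Ω) (P : Pt (WAB A B) Ω), s (Ξ P) = Ξ (ac (WAB A B) s P))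
    {T : Pt (WAB A B) Ω} (hT : T ∈ Tor act π)
    (hprod : ∀ S' : Finset (Pt (WAB A B) Ω), TN act β S' → ∏ R ∈ S', Ξ (T + R) = 1)
    {R : Pt (WAB A B) Ω} (hR : R ∈ Tor act β) (h0 : R ≠ 0) (al : N)
    (hal : algebraMap N Ω al = Ξ (T + R)) : Algebra.norm L al = 1 := by
  classical
  have hgal := hN.gal
  have hlft : ∀ σ : Gal(N/L), ∃ s : Ω ≃ₐ[F] Ω, Lft σ s := fun σ => exists_lft σ
  choose s hs using hlft
  apply (algebraMap L N).injective
  rw [map_one, Algebra.norm_eq_prod_automorphisms]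
  apply (algebraMap N Ω).injective
  rw [map_one, map_prod]
  have hT' : ∀ σ, ac (WAB A B) (s σ) T = T := by
    intro σ
    obtain ⟨x, y, hx, hy⟩ := hL.crd T hT
    exact ac_fix (s σ) (by rw [← hx, (hs σ).fxd]) (by rw [← hy, (hs σ).fxd])
  have hval : ∀ σ : Gal(N/L), algebraMap N Ω (σ al) = Ξ (T + ac (WAB A B) (s σ) R) := by
    intro σ
    rw [← hs σ al, hal, hX, map_add, hT']
  rw [Finset.prod_congr rfl fun σ _ => hval σ]
  obtain ⟨S', hS', -⟩ := exists_TN h hβ.ne_zero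
  rw [← hprod S' hS']
  refine Finset.prod_bij (fun σ _ => ac (WAB A B) (s σ) R) ?_ ?_ ?_ ?_
  · intro σ _
    exact (hS' _).2 ⟨ac_tor h (s σ) hR, k2_ac_ne _ h0⟩
  · intro a _ b _ hab
    exact orb_inj h hβ hN hR h0 (hs a) (hs b) hab
  · intro R' hR'
    obtain ⟨h1, h2⟩ := (hS' R').1 hR'
    obtain ⟨σ, hσ⟩ := horb R hR h0 R' h1 h2
    exact ⟨σ, Finset.mem_univ _, hσ _ (hs σ)⟩
  · intro σ _
    rfl

end H55K
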