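import Mathlib
import Pool.Agent.Lib.H55K.A.Defs
import Pool.Agent.Lib.H55K.K1A
import Pool.Agent.Lib.H55K.K3
import Pool.Agent.Lib.H55K.K4
import Pool.Agent.Lib.H55K.K6B
import Pool.Agent.Lib.H55K.K7
import Pool.Agent.Lib.H55K.K8
import Pool.Agent.Lib.H55K.XD
import Pool.Agent.Lib.H55R.HB1

open NumberField IsDedekindDomain WeierstrassCurve

namespace H55K

open H55P (IQ embF eF LF Per IsHecke Pt ac Inert Dec Nm)
open H35P (WAB Ker tt)
open H55R (Pl ord es fs smulP)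

/-! Chunk K9 (M/L, port of exists_aux in H28G/K11.lean). β = ψ (Q.under).asIdeal, aux_prime (hv.cop); hn from it. N from exists_TFld L β. hG for β: V(ak β) < 1 implies V(absNorm v) < 1 (absNorm v = Nm β = β cj β, ak_le; mul_cj), so GV by hv.gv. tot_ram L N β at smulP σ Q for every σ (valuation exp(-1)). R in Tor act β nonzero (exists_tor);
t : N with algebraMap N Ω t = tt R (tt_xy, hN.crd: t = x / y), t ≠ 0 (value exp(-1)); al : N with algebraMap N Ω al = Ξ (T + R): mem_of_fxd, because s with Fxd N s fixes R (crd, ac_fix) and T (L ⊂ N), hX.gal; al ≠ 0 (value 1 at some V).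
gal: hN.gal. cyc: exists_chi for the field 𝓞 F ⧸ span {β} (injection of Gal(N/L) into the units of a finite field: isCyclic_of_injective). card: IsGalois.card_aut_eq_finrank, TotRam.deg. ram: TotRam.es. unr: unram (hv.gv with Nm β = absNorm v). unif: TotRam.val, BF1_val.
κ: for g choose an extension s of g, ac s R = act c R (tor_gen, ac_tor), c = n mod β for an integer n (H28G/K11.lean K11_int for variable F: the residue field has a prime number of elements), κ g = n. tame: V above W (exists_abw): tt_act for n: V(tt (act n R) - n tt R) ≤ V(tt R)^2; tt (act n R) = tt (ac s R) = s (tt R) = algebraMap N Ω (g t);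
Abw.le with t^2; W(t)^2 = exp(-2) (TotRam.val). Ker V R from tor_ram (V(ak β) < 1: β in smulP σ Q). norm: norm_xi with fix_T and hv.xi (third part). unit: V above W, hv.xi first part, Abw.eq_one, BF1_val. congr: V above W above smulP σ Q, V(ak β) < 1, hv.xi second part, Abw.lt; algebraMap N Ω (algebraMap L N ξ) = Ξ T. -/

variable {F : Type} [Field F] [NumberField F] [IQ F] {A B : F} {Om : ℂ} {Ω : Type} [Field Ω] [DecidableEq Ω]
  [Algebra F Ω] {j : Ω →+* ℂ} {act : 𝓞 F →+* AddMonoid.End (Pt (WAB A B) Ω)}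
  {L : Type} [Field L] [NumberField L] [Algebra F L] [Algebra L Ω] [IsScalarTower F L Ω]

omit [IQ F] [DecidableEq Ω] [Algebra F Ω] in
theorem k9_int {β : 𝓞 F} (hN : (Nm β).Prime) (c : 𝓞 F) : ∃ n : ℤ, β ∣ c - n := by
  have hf : Fact (Nm β).Prime := ⟨hN⟩
  have hcard : Nat.card (𝓞 F ⧸ Ideal.span {β}) = Nm β := by
    unfold H55P.Nm
    rw [Ideal.absNorm_apply, Submodule.cardQuot_apply]
  have h1 : (1 : 𝓞 F ⧸ Ideal.span {β}) ≠ 0 := by
    intro h0
    have hs : Subsingleton (𝓞 F ⧸ Ideal.span {β}) := subsingleton_of_zero_eq_one h0.symm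
    rw [Nat.card_of_subsingleton (0 : 𝓞 F ⧸ Ideal.span {β})] at hcard
    rw [← hcard] at hN
    exact Nat.not_prime_one hN
  have h2 := mem_zmultiples_of_prime_card hcard h1 (g' := Ideal.Quotient.mk (Ideal.span {β}) c)
  obtain ⟨n, hn⟩ := AddSubgroup.mem_zmultiples_iff.1 h2
  refine ⟨n, ?_⟩
  rw [← Ideal.mem_span_singleton, ← Ideal.Quotient.eq, ← hn, map_intCast, zsmul_eq_mul, mul_one]


omit [NumberField F] [IQ F] in
theorem k9_fix {N : Type} [Field N] [Algebra N Ω] {b : 𝓞 F}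
    (hcrd : ∀ T ∈ Tor act b, ∃ x y : N, algebraMap N Ω x = xc T ∧ algebraMap N Ω y = yc T)
    {s : Ω ≃ₐ[F] Ω} (hs : Fxd N s) {T : Pt (WAB A B) Ω} (hT : T ∈ Tor act b) :
    ac (WAB A B) s T = T := by
  obtain ⟨x, y, hx, hy⟩ := hcrd T hT
  exact ac_fix s (by rw [← hx, hs]) (by rw [← hy, hs])

omit [NumberField F] [IQ F] in
theorem k9_tt {N : Type} [Field N] [Algebra N Ω] {b : 𝓞 F}
    (hcrd : ∀ T ∈ Tor act b, ∃ x y : N, algebraMap N Ω x = xc T ∧ algebraMap N Ω y = yc T)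
    {T : Pt (WAB A B) Ω} (hT : T ∈ Tor act b) : ∃ t : N, algebraMap N Ω t = tt T := by
  obtain ⟨x, y, hx, hy⟩ := hcrd T hT
  exact ⟨x / y, by rw [tt_xy, map_div₀, hx, hy]⟩

theorem k9_small {V : ValuationSubring Ω} {β : 𝓞 F} (hv : V.valuation (ak Ω β) < 1) :
    V.valuation ((Nm β : ℕ) : Ω) < 1 := by
  have h1 : ((Nm β : ℕ) : Ω) = ak Ω β * ak Ω (cj β) := by
    have h2 := mul_cj β
    have h3 := congrArg (fun x : 𝓞 F => ak Ω x) h2
    show _ = algebraMap F Ω (β : F) * algebraMap F Ω ((cj β : 𝓞 F) : F)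
    rw [← map_mul]
    have h4 : ((β : F) * ((cj β : 𝓞 F) : F)) = ((Nm β : ℕ) : F) := by
      have h5 := congrArg (algebraMap (𝓞 F) F) h2
      rw [map_mul, map_natCast] at h5
      exact h5
    rw [h4, map_natCast]
  rw [h1, map_mul]
  exact mul_lt_one_of_lt_of_le hv (ak_le V _)

theorem exists_aux [IsAlgClosure F Ω] {m : Ideal (𝓞 F)} {ψ : Ideal (𝓞 F) →*₀ 𝓞 F} {l : ℕ} {π : 𝓞 F}
    {Ξ : Pt (WAB A B) Ω → Ω} (h : Dta A B Om j act m ψ l) (hX : XiD act ψ π Ξ) (hπ : Prime π)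
    (hd : π ∣ (l : 𝓞 F)) (hL : TFld act F L π) {T : Pt (WAB A B) Ω} (hT : T ∈ Tor act π) (h0 : T ≠ 0)
    (ξ : Lˣ) (hξ : algebraMap L Ω (ξ : L) = Ξ T) (Q : Pl L)
    (hv : Okv A B act m ψ l π Ξ (Q.under (𝓞 F))) (hQ : (Ideal.absNorm Q.asIdeal).Prime)
    (he : es F L (Q.under (𝓞 F)) = 1) :
    ∃ (N : Type) (_ : Field N) (_ : NumberField N) (_ : Algebra L N) (κ : Gal(N/L) → ℤ)
      (t al : Nˣ), Ab.Aux F L Q ξ N κ t al := by
  classical
  have hC := h.cma
  have hgalL := hL.gal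
  obtain ⟨β, hβe⟩ : ∃ β, β = ψ (Q.under (𝓞 F)).asIdeal := ⟨_, rfl⟩
  obtain ⟨hp, hspan, hN, hn, hmem, hval⟩ := aux_prime h.hecke Q hv.cop hQ he β hβe
  obtain ⟨N, i1, i2, i3, i4, i5, i6, i7, i8, hNf⟩ := exists_TFld hC L hp.ne_zero
  have hgal := hNf.gal
  have hGN : ∀ V : ValuationSubring Ω, V.valuation ((Nm β : ℕ) : Ω) < 1 → GV A B V := by
    intro V hV
    apply hv.gv V
    rw [hn, ← hN]
    exact hV
  have hG : ∀ V : ValuationSubring Ω, V.valuation (ak Ω β) < 1 → GV A B V :=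
    fun V hV => hGN V (k9_small hV)
  have tr : ∀ σ : Gal(L/F), TotRam act L N β (smulP σ Q) := fun σ => tot_ram hC hp hNf _ (hval σ) hG
  obtain ⟨R, hR, hR0⟩ := exists_tor hC hp
  obtain ⟨t, ht⟩ := k9_tt hNf.crd hR
  have hval2 : ∀ σ : Gal(L/F), ∀ W : Pl N, W.under (𝓞 L) = smulP σ Q →
      W.valuation N t = WithZero.exp (-1 : ℤ) := fun σ W hW => (tr σ).val W hW R hR hR0 t ht
  -- the uniformizer
  obtain ⟨W0, hW0⟩ := H55R.under_exists (K := L) (L := N) (smulP (1 : Gal(L/F)) Q)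
  have htt : t ≠ 0 := by
    intro h0
    have h := hval2 1 W0 hW0
    rw [h0, map_zero] at h
    exact WithZero.exp_ne_zero h.symm
  -- V above W above a conjugate of Q
  have hVβ : ∀ σ : Gal(L/F), ∀ W : Pl N, W.under (𝓞 L) = smulP σ Q → ∀ V : ValuationSubring Ω, Abw V W →
      V.valuation (ak Ω β) < 1 := by
    intro σ W hW V hV
    have h1 : Abw V (smulP σ Q) := hV.below hW
    have h2 : ak Ω β = algebraMap L Ω (algebraMap F L (β : F)) :=
      IsScalarTower.algebraMap_apply F L Ω (β : F)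
    rw [h2, h1.lt, hval σ, ← WithZero.exp_zero, WithZero.exp_lt_exp]
    norm_num
  -- the unit
  have hxi := hv.xi T hT h0
  rw [← hβe] at hxi
  obtain ⟨al, hal⟩ : ∃ al : N, algebraMap N Ω al = Ξ (T + R) := by
    refine mem_of_fxd (F := F) N _ fun s hs => ?_
    have hsL : Fxd L s := by
      intro x
      rw [IsScalarTower.algebraMap_apply L N Ω x]
      exact hs _
    rw [hX.gal, map_add, k9_fix hL.crd hsL hT, k9_fix hNf.crd hs hR]
  have hone : ∀ V : ValuationSubring Ω, V.valuation (algebraMap N Ω al) = 1 := fun V => by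
    rw [hal]
    exact hxi.1 R hR V
  have hne : al ≠ 0 := by
    intro h1
    obtain ⟨V, -⟩ := exists_abw Ω W0
    have h2 := hone V
    rw [h1, map_zero, map_zero] at h2
    exact zero_ne_one h2
  -- the character
  have hκ : ∀ g : Gal(N/L), ∃ n : ℤ, ∀ s : Ω ≃ₐ[F] Ω, Lft g s → ac (WAB A B) s R = act (n : 𝓞 F) R := by
    intro g
    obtain ⟨s, hs⟩ := exists_lft (F := F) (Ω := Ω) g
    obtain ⟨c, hc⟩ := tor_gen hC hp hR (ac_tor hC s hR) hR0
    obtain ⟨n, y, hy⟩ := k9_int (by rw [hN]; exact hQ) c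
    refine ⟨n, fun s' hs' => ?_⟩
    have e1 : c = y * β + n := by linear_combination hy
    rw [lft_tor hNf hs' hs hR, ← hc, e1, map_add, map_mul]
    have hR' : act β R = 0 := hR
    show act y (act β R) + act (n : 𝓞 F) R = act (n : 𝓞 F) R
    rw [hR', map_zero, zero_add]
  choose κ hκ using hκ
  refine ⟨N, i1, i2, i4, κ, Units.mk0 t htt, Units.mk0 al hne, ?_⟩
  refine ⟨hgal, ?_, ?_, ?_, ?_, ?_, ?_, ?_, ?_, ?_⟩
  · have hmax : (Ideal.span {β}).IsMaximal := by
      have h1 : (Ideal.span {β}).IsPrime := (Ideal.span_singleton_prime hp.ne_zero).2 hp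
      exact h1.isMaximal (by rw [Ne, Ideal.span_singleton_eq_bot]; exact hp.ne_zero)
    let _ := Ideal.Quotient.field (Ideal.span {β})
    have hfin : Finite (𝓞 F ⧸ Ideal.span {β}) := by
      apply Ideal.finiteQuotientOfFreeOfNeBot
      rw [Ne, Ideal.span_singleton_eq_bot]
      exact hp.ne_zero
    obtain ⟨χ, hχ, -⟩ := exists_chi hC hp hNf (Ideal.Quotient.mk (Ideal.span {β}))
      Ideal.Quotient.mk_surjective (fun x => by
        rw [Ideal.Quotient.eq_zero_iff_mem, Ideal.mem_span_singleton])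
    exact isCyclic_of_injective χ hχ
  · rw [IsGalois.card_aut_eq_finrank, (tr 1).deg, hN]
  · intro σ
    rw [(tr σ).es, hN]
  · intro v hv'
    exact unram h hπ hd hL hp hNf hGN v fun h => by
      obtain ⟨σ, hσ⟩ := (hmem v).1 h
      exact hv' σ hσ
  · intro σ W hW
    have h4 := H55R.BF1_val W (Units.mk0 t htt)
    rw [Units.val_mk0, hval2 σ W hW] at h4
    have h5 := WithZero.exp_injective h4
    omega
  · intro σ W hW g
    obtain ⟨V, hV⟩ := exists_abw Ω W
    have hVb := hVβ σ W hW V hV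
    have hK := (tor_ram hC (hG V hVb) hp hVb hR hR0).1
    obtain ⟨s, hs⟩ := exists_lft (F := F) (Ω := Ω) g
    have h1 := tt_act hC (hG V hVb) ((κ g : ℤ) : 𝓞 F) hK
    rw [← hκ g s hs, tt_ac, ← ht, hs] at h1
    have h7 : ak Ω ((κ g : ℤ) : 𝓞 F) = algebraMap N Ω (κ g : N) := by
      rw [map_intCast]
      show algebraMap F Ω (((κ g : ℤ) : 𝓞 F) : F) = _
      have : ((((κ g : ℤ) : 𝓞 F)) : F) = ((κ g : ℤ) : F) := map_intCast (algebraMap (𝓞 F) F) _
      rw [this, map_intCast]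
    rw [h7, ← map_mul, ← map_sub, ← map_pow, ← map_pow, hV.le, map_pow, hval2 σ W hW] at h1
    refine h1.trans (le_of_eq ?_)
    rw [← WithZero.exp_nsmul]
    rfl
  · refine norm_xi hC hp hL hNf (tr 1).orb hX.gal hT (fun S' hS' => ?_) hR hR0 al hal
    refine hxi.2.2 ?_ S' hS'
    rw [hβe]
    exact fix_T hd hL Q hv hQ hn he hT
  · intro W
    obtain ⟨V, hV⟩ := exists_abw Ω W
    rw [H55R.HB1_ord_zero]
    exact (hV.eq_one al).1 (hone V)
  · intro σ W hW
    obtain ⟨V, hV⟩ := exists_abw Ω W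
    rw [Units.val_mk0]
    rw [← hV.lt, map_sub, hal, ← IsScalarTower.algebraMap_apply L N Ω, hξ]
    exact hxi.2.1 R hR V (hVβ σ W hW V hV)

end H55K
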