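import Mathlib
import Pool.Agent.Lib.H55K.A.A1
import Pool.Agent.Lib.H55K.A.E1
import Pool.Agent.Lib.H55K.A.Main
import Pool.Agent.Lib.H55K.K10
import Pool.Agent.Lib.H55K.K5
import Pool.Agent.Lib.H55K.K6A
import Pool.Agent.Lib.H55K.K9

open NumberField IsDedekindDomain WeierstrassCurve

namespace H55K

open H55P (IQ embF eF LF Per IsHecke Pt ac Inert Dec Nm)
open H35P (WAB Ker tt)
open H55R (Pl ord es fs smulP)

/-! Chunk K11 (M, port of H28G/K13.lean: geo_main). T in Tor act π nonzero (exists_tor). v = w.under, v.asIdeal = span {π}. hG for π: V(ak π) < 1 gives V(l) < 1 (π | l), h.good. tot_ram F L π v: TotRam; chi_bij. t : L with algebraMap L Ω t = tt T (tt_xy, crd), nonzero. exists_loc gives r, Loc.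
ξ : L with algebraMap L Ω ξ = Ξ T (mem_of_fxd: s with Fxd L s fixes T, hX.gal), ξ ≠ 0 and ord v ξ = 0 for all v: V above v (exists_abw), hX.unit0, Abw.eq_one, BF1_val. ρ from Ab.exists_rho. c from hX.exp. Ab.lev_eta (2 < card k) with a0 = 1 and c: w(ξ/1 - 1 - c t) ≤ exp(-2) from hX.exp for V above w (V(ak π) < 1), Abw.le with t^2, TotRam.val; r(c) = q c ≠ 0.
Ab.main_abs with hcyc from k10_cyc, bad = {Q | Q.under ∈ S} with S from exists_okv (k10_fin), haux from exists_aux: Okv for Q.under needs absNorm (Q.under) prime: absNorm Q = absNorm(Q.under)^fs prime (H55R.D5_norm). -/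

variable {F : Type} [Field F] [NumberField F] [IQ F] {A B : F} {Om : ℂ} {Ω : Type} [Field Ω] [DecidableEq Ω]
  [Algebra F Ω] {j : Ω →+* ℂ} {act : 𝓞 F →+* AddMonoid.End (Pt (WAB A B) Ω)}
  {L : Type} [Field L] [NumberField L] [Algebra F L] [Algebra L Ω] [IsScalarTower F L Ω]

/-- THE THEOREM OF THAINE, KOLYVAGIN AND RUBIN for the field L of the π-torsion. -/
theorem geo_main [IsAlgClosure F Ω] {m : Ideal (𝓞 F)} {ψ : Ideal (𝓞 F) →*₀ 𝓞 F} {l : ℕ} [Fact l.Prime]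
    {π : 𝓞 F} {Ξ : Pt (WAB A B) Ω → Ω} (h : Dta A B Om j act m ψ l) (hX : XiD act ψ π Ξ) (hπ : Prime π)
    (hd : π ∣ (l : 𝓞 F))
    (hcyc : ¬ ∀ (s : Ω ≃ₐ[F] Ω) (n : ℕ), (∀ T ∈ Tor act π, ac (WAB A B) s T = n • T) →
      ∀ ζ : Ω, ζ ^ l = 1 → s ζ = ζ ^ n)
    (hL : TFld act F L π) {k : Type} [Field k] [Fintype k] [DecidableEq k] [CharP k l] (q : 𝓞 F →+* k)
    (hq : Function.Surjective q) (hk : ∀ x, q x = 0 ↔ π ∣ x) (χ : Gal(L/F) →* kˣ)
    (hχ : ∀ (σ : Gal(L/F)) (s : Ω ≃ₐ[F] Ω) (c : 𝓞 F), Lft σ s → q c = χ σ → ∀ R ∈ Tor act π,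
      ac (WAB A B) s R = act c R) (w : Pl L) (hw : algebraMap (𝓞 F) (𝓞 L) π ∈ w.asIdeal) {m' : k → Lˣ}
    (hm : Ab.EqHom l χ m') (hdv : ∀ (a : k) (v : Pl L), (l : ℤ) ∣ ord v (m' a))
    (hlev : ∀ a, Ab.Lev l w (m' a)) (a : k) : ∃ z : Lˣ, m' a = z ^ l := by
  classical
  have hC := h.cma
  have hl : l.Prime := Fact.out
  have hgal : IsGalois F L := hL.gal
  have hNm := k10_arith hl h.five hπ hd
  have hG : ∀ V : ValuationSubring Ω, V.valuation (ak Ω π) < 1 → GV A B V := by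
    intro V hV
    apply h.good V
    obtain ⟨c, hc⟩ := hd
    have h1 : (l : Ω) = ak Ω π * ak Ω c := by
      have h2 := congrArg (algebraMap (𝓞 F) F) hc
      rw [map_natCast, map_mul] at h2
      show _ = algebraMap F Ω (π : F) * algebraMap F Ω (c : F)
      rw [← map_mul]
      have h3 := congrArg (algebraMap F Ω) h2
      rw [map_natCast] at h3
      exact h3
    rw [h1, map_mul]
    exact mul_lt_one_of_lt_of_le hV (ak_le V c)
  obtain ⟨T, hT, h0⟩ := exists_tor hC hπ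
  have hspan := k10_below hπ w hw
  have TR := tot_ram hC hπ hL (w.under (𝓞 F)) (k10_val hπ _ hspan) hG
  have hχb := chi_bij hC hπ hL TR.deg q hq hk χ hχ
  obtain ⟨t, ht⟩ := k9_tt hL.crd hT
  have hwt := TR.val w rfl T hT h0 t ht
  have htt : t ≠ 0 := by
    intro h1
    rw [h1, map_zero] at hwt
    exact WithZero.exp_ne_zero hwt.symm
  obtain ⟨r, hloc, hr⟩ := exists_loc hC hπ hL (by omega) hG q hq hk χ hχ _ hspan w rfl T hT h0
    (Units.mk0 t htt) ht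
  obtain ⟨ξ, hξ⟩ : ∃ ξ : L, algebraMap L Ω ξ = Ξ T := by
    refine mem_of_fxd (F := F) L _ fun s hs => ?_
    rw [hX.gal, k9_fix hL.crd hs hT]
  have hone : ∀ V : ValuationSubring Ω, V.valuation (algebraMap L Ω ξ) = 1 := fun V => by
    rw [hξ]
    exact hX.unit0 T hT h0 V
  obtain ⟨V, hV⟩ := exists_abw Ω w
  have hne : ξ ≠ 0 := by
    intro h1
    have h2 := hone V
    rw [h1, map_zero, map_zero] at h2
    exact zero_ne_one h2
  have hord : ∀ v : Pl L, ord v (Units.mk0 ξ hne) = 0 := by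
    intro v
    obtain ⟨V', hV'⟩ := exists_abw Ω v
    rw [H55R.HB1_ord_zero]
    exact (hV'.eq_one ξ).1 (hone V')
  obtain ⟨ρ, hρ⟩ := Ab.exists_rho l k
  have hcard : 2 < Fintype.card k := by
    have h1 := k10_card q hq hk
    rw [Nat.card_eq_fintype_card] at h1
    omega
  obtain ⟨c, hc, hexp⟩ := hX.exp
  have hVπ : V.valuation (ak Ω π) < 1 := by
    have h2 : ak Ω π = algebraMap L Ω ((algebraMap (𝓞 F) (𝓞 L) π : 𝓞 L) : L) :=
      IsScalarTower.algebraMap_apply F L Ω (π : F)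
    rw [h2, hV.lt]
    exact (w.valuation_lt_one_iff_mem _).2 hw
  have hlev' : ∀ a : k, a ≠ 0 → ¬ Ab.Lev l w (Ab.eta χ ρ a (Units.mk0 ξ hne)) := by
    intro a ha
    refine Ab.lev_eta hcard hχb ρ hρ hloc (Units.mk0 ξ hne) 1 one_ne_zero c ?_ ?_ a ha
    · rw [hr, Ne, hk]
      exact hc
    · have h1 := hexp V hVπ T hT h0
      rw [← hξ, ← ht] at h1
      have h2 : ak Ω c = algebraMap L Ω (algebraMap F L (c : F)) :=
        IsScalarTower.algebraMap_apply F L Ω (c : F)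
      have h3 : (1 : Ω) = algebraMap L Ω 1 := (map_one _).symm
      rw [h2, h3, ← map_sub, ← map_mul, ← map_sub, ← map_pow, ← map_pow, hV.le, map_pow, hwt] at h1
      rw [map_one, div_one, Units.val_mk0, Units.val_mk0]
      refine h1.trans (le_of_eq ?_)
      rw [← WithZero.exp_nsmul]
      rfl
  obtain ⟨S, hS, hok⟩ := exists_okv h hX
  refine Ab.main_abs h.five hχb ρ hρ (fun ζ hζ => k10_cyc hC hl hπ hL q hq hk χ hχ hcyc ζ hζ) w
    (Units.mk0 ξ hne) hord hlev' {Q : Pl L | Q.under (𝓞 F) ∈ S} (k10_fin hS) ?_ hm hdv hlev a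
  intro Q hQ1 hQ2 hQ3 hQ4
  refine exists_aux h hX hπ hd hL hT h0 (Units.mk0 ξ hne) hξ Q (hok _ hQ1 ?_) hQ2 hQ4
  have h1 := H55R.D5_norm (Q.under (𝓞 F)) Q rfl
  rw [h1] at hQ2
  have h2 := hQ2.eq_one_of_pow
  rw [h2, pow_one] at hQ2
  exact hQ2

end H55K
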