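import Mathlib
import Pool.Agent.Lib.H55K.K11

open NumberField IsDedekindDomain WeierstrassCurve

namespace H55K

open H55P (IQ embF eF LF Per IsHecke Pt ac Inert Dec Nm)
open H35P (WAB Ker tt)
open H55R (Pl ord es fs smulP)

/-! Chunk K12 (M, port of H99B/Geom.lean, last theorem). L : IntermediateField F Ω generated by the points killed by π (IsTF): TFld act F L π by tfld_of_istf. k = 𝓞 F ⧸ span {π} (a finite field of characteristic l), q = mk; χ from exists_chi; w a prime of L above (π) (under_exists); T0 in Tor act π nonzero; o : k -> 𝓞 F a section of q;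
P a = act (o a) T0; m' a = m (P a); EqHom: add: P (a + b) = P a + P b (tor_zero: act depends only on q); equiv: for σ take an extension s: P (χ σ * a) = ac s (P a) and hact, s (m T : Ω) = (σ (m T) : Ω). Every T in Tor act π is P (q c) with act c T0 = T (tor_gen).
geo_main. (DecidableEq by classical.) -/

variable {F : Type} [Field F] [NumberField F] [IQ F] {A B : F} {Om : ℂ} {Ω : Type} [Field Ω] [DecidableEq Ω]
  [Algebra F Ω] {j : Ω →+* ℂ} {act : 𝓞 F →+* AddMonoid.End (Pt (WAB A B) Ω)}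

/-- Kummer form: functions on the π-torsion points with values in L = F(E[π]). -/
theorem geom_main [IsAlgClosure F Ω] {m : Ideal (𝓞 F)} {ψ : Ideal (𝓞 F) →*₀ 𝓞 F} {l : ℕ}
    {π : 𝓞 F} {Ξ : Pt (WAB A B) Ω → Ω} (h : Dta A B Om j act m ψ l) (hX : XiD act ψ π Ξ) (hπ : Prime π)
    (hd : π ∣ (l : 𝓞 F))
    (hcyc : ¬ ∀ (s : Ω ≃ₐ[F] Ω) (n : ℕ), (∀ T ∈ Tor act π, ac (WAB A B) s T = n • T) →
      ∀ ζ : Ω, ζ ^ l = 1 → s ζ = ζ ^ n)
    (L : IntermediateField F Ω) (hL : IsTF act π L) [NumberField L] (M : Pt (WAB A B) Ω → Lˣ)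
    (hadd : ∀ T ∈ Tor act π, ∀ T' ∈ Tor act π, ∃ z : Lˣ, M (T + T') = M T * M T' * z ^ l)
    (hact : ∀ s : Ω ≃ₐ[F] Ω, ∀ T ∈ Tor act π, ∃ z : Lˣ,
      ((M (ac (WAB A B) s T) : L) : Ω) = s ((M T : L) : Ω) * ((z : L) : Ω) ^ l)
    (hord : ∀ T ∈ Tor act π, ∀ w : Pl L, (l : ℤ) ∣ ord w (M T))
    (hlev : ∀ T ∈ Tor act π, ∀ w : Pl L, w.valuation L (algebraMap F L (π : F)) < 1 →
      ∃ z : Lˣ, w.valuation L (((M T * (z ^ l)⁻¹ : Lˣ) : L) - 1) ≤ WithZero.exp (-2 : ℤ)) :
    ∀ T ∈ Tor act π, ∃ z : Lˣ, M T = z ^ l := by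
  classical
  have hC := h.cma
  have hl : Fact l.Prime := ⟨h.prime⟩
  have hL' := tfld_of_istf hC hL
  have hgal : IsGalois F L := hL'.gal
  have hmax : (Ideal.span {π}).IsMaximal := by
    have h1 : (Ideal.span {π}).IsPrime := (Ideal.span_singleton_prime hπ.ne_zero).2 hπ
    exact h1.isMaximal (by rw [Ne, Ideal.span_singleton_eq_bot]; exact hπ.ne_zero)
  have hb : Ideal.span {π} ≠ ⊥ := by
    rw [Ne, Ideal.span_singleton_eq_bot]
    exact hπ.ne_zero
  let k := 𝓞 F ⧸ Ideal.span {π}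
  letI ik : Field k := Ideal.Quotient.field (Ideal.span {π})
  have hfin : Finite k := Ideal.finiteQuotientOfFreeOfNeBot _ hb
  letI : Fintype k := Fintype.ofFinite k
  let q : 𝓞 F →+* k := Ideal.Quotient.mk (Ideal.span {π})
  have hq : Function.Surjective q := Ideal.Quotient.mk_surjective
  have hk : ∀ x, q x = 0 ↔ π ∣ x := fun x => by
    rw [Ideal.Quotient.eq_zero_iff_mem, Ideal.mem_span_singleton]
  have hchar : CharP k l := by
    have h1 : ((l : ℕ) : k) = 0 := by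
      have h2 := (hk (l : 𝓞 F)).2 hd
      rw [map_natCast] at h2
      exact h2
    obtain ⟨p, hp⟩ := CharP.exists k
    have h2 : p ∣ l := (CharP.cast_eq_zero_iff k p l).1 h1
    rcases (Nat.dvd_prime h.prime).1 h2 with h3 | h3
    · exfalso
      subst h3
      have h4 : ((1 : ℕ) : k) = 0 := (CharP.cast_eq_zero_iff k 1 1).2 (dvd_refl 1)
      rw [Nat.cast_one] at h4
      exact one_ne_zero h4
    · rw [← h3]
      exact hp
  obtain ⟨χ, -, hχ⟩ := exists_chi hC hπ hL' q hq hk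
  obtain ⟨w, hw⟩ : ∃ w : Pl L, algebraMap (𝓞 F) (𝓞 L) π ∈ w.asIdeal := by
    obtain ⟨w, hw⟩ := H55R.under_exists (L := L) (⟨Ideal.span {π}, hmax.isPrime, hb⟩ : Pl F)
    refine ⟨w, ?_⟩
    have h1 : π ∈ (w.under (𝓞 F)).asIdeal := by
      rw [hw]
      exact Ideal.mem_span_singleton_self π
    exact h1
  have hw1 : w.valuation L (algebraMap F L (π : F)) < 1 :=
    (w.valuation_lt_one_iff_mem (algebraMap (𝓞 F) (𝓞 L) π)).2 hw
  obtain ⟨T₀, hT₀, h0⟩ := exists_tor hC hπ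
  obtain ⟨o, ho⟩ : ∃ o : k → 𝓞 F, ∀ a, q (o a) = a := ⟨Function.surjInv hq, Function.surjInv_eq hq⟩
  have hact0 : ∀ c c' : 𝓞 F, q c = q c' → act c T₀ = act c' T₀ := by
    intro c c' h
    have h1 : act (c - c') T₀ = 0 := by
      rw [tor_zero hC hπ hT₀ h0, ← hk, map_sub, h, sub_self]
    rw [map_sub] at h1
    exact sub_eq_zero.1 h1
  let P : k → Pt (WAB A B) Ω := fun a => act (o a) T₀
  have hP : ∀ a, P a ∈ Tor act π := fun a => tor_act (o a) hT₀
  have hm : Ab.EqHom l χ fun a => M (P a) := by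
    constructor
    · intro a b
      have h1 : P (a + b) = P a + P b := by
        show act (o (a + b)) T₀ = act (o a) T₀ + act (o b) T₀
        rw [hact0 (o (a + b)) (o a + o b) (by rw [map_add, ho, ho, ho]), map_add]
        rfl
      show ∃ z, M (P (a + b)) = _
      rw [h1]
      exact hadd _ (hP a) _ (hP b)
    · intro σ a
      obtain ⟨s, hs⟩ := exists_lft (F := F) (Ω := Ω) σ
      have h1 : P (χ σ * a) = ac (WAB A B) s (P a) := by
        rw [hχ σ s (o (χ σ)) hs (ho _) _ (hP a)]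
        show act (o (χ σ * a)) T₀ = act (o (χ σ)) (act (o a) T₀)
        rw [hact0 (o (χ σ * a)) (o (χ σ) * o a) (by rw [map_mul, ho, ho, ho]), map_mul]
        rfl
      obtain ⟨z, hz⟩ := hact s (P a) (hP a)
      refine ⟨z, ?_⟩
      show M (P (χ σ * a)) = _
      rw [h1]
      ext
      rw [hz]
      have h2 := hs (M (P a) : L)
      have h3 : s ((M (P a) : L) : Ω) = ((σ (M (P a) : L) : L) : Ω) := h2
      rw [h3]
      rfl
  intro T hT
  obtain ⟨c, hc⟩ := tor_gen hC hπ hT₀ hT h0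
  have h1 : T = P (q c) := by
    rw [← hc]
    exact hact0 _ _ (ho _).symm
  rw [h1]
  exact geo_main h hX hπ hd hcyc hL' q hq hk χ hχ w hw hm (fun a v => hord _ (hP a) v)
    (fun a => hlev _ (hP a) w hw1) (q c)

end H55K
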