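import Mathlib
import Pool.Agent.Lib.H55K.K0A
import Pool.Agent.Lib.H55K.SNA

/-! # H55K, part S: the character of the torsion points is surjective, and not the cyclotomic character -/

open NumberField IsDedekindDomain WeierstrassCurve

namespace H55K.S

open H55P (IQ embF eF LF Per IsHecke Pt ac Inert Dec Nm)
open H35P (WAB Ker tt)
open H13S (Abv)

variable {F : Type} [Field F] [NumberField F] [IQ F] {A B : F} {Om : ℂ} {Ω : Type} [Field Ω] [DecidableEq Ω]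
  [Algebra F Ω] [IsAlgClosure F Ω] {j : Ω →+* ℂ} {act : 𝓞 F →+* AddMonoid.End (Pt (WAB A B) Ω)} {mo : Ideal (𝓞 F)}
  {ψ : Ideal (𝓞 F) →*₀ 𝓞 F}

omit [DecidableEq Ω] [IsAlgClosure F Ω] [IQ F] in
/-- A valuation ring above a prime element. -/
theorem exists_vr {β : 𝓞 F} (hβ : Prime β) : ∃ V : ValuationSubring Ω, vo V β < 1 := by
  have hb : Ideal.span {β} ≠ ⊥ := by
    rw [Ne, Ideal.span_singleton_eq_bot]
    exact hβ.ne_zero
  let w : HeightOneSpectrum (𝓞 F) := ⟨Ideal.span {β}, (Ideal.span_singleton_prime hβ.ne_zero).2 hβ, hb⟩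
  obtain ⟨V, hV⟩ := exists_abw Ω w
  refine ⟨V, ?_⟩
  rw [hV.lt]
  exact (w.valuation_lt_one_iff_mem β).2 (Ideal.mem_span_singleton_self β)

/-- Every multiplication by an integer prime to beta is realized by an automorphism on the points killed by beta. -/
theorem act_real (hA : CMA F A B Om j act) (β : 𝓞 F) (hβ : Prime β)
    (hG : ∀ V : ValuationSubring Ω, vo V β < 1 → GV A B V) (a : 𝓞 F) (ha : ¬ β ∣ a) :
    ∃ s : Ω ≃ₐ[F] Ω, ∀ T ∈ Tor act β, ac (WAB A B) s T = act a T := by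
  classical
  obtain ⟨V, hV⟩ := exists_vr (Ω := Ω) hβ
  have hGV := hG V hV
  obtain ⟨χ, h1, h2⟩ := exists_chi hA β hβ
  obtain ⟨-, T₀, hT₀, hgen, hker⟩ := gi_gen hA β hβ
  have hp : (Ideal.span {β}).IsPrime := (Ideal.span_singleton_prime hβ.ne_zero).2 hβ
  have hbot : Ideal.span {β} ≠ ⊥ := by
    rw [Ne, Ideal.span_singleton_eq_bot]
    exact hβ.ne_zero
  have hm : (Ideal.span {β}).IsMaximal := hp.isMaximal hbot
  have hfin : Finite (𝓞 F ⧸ Ideal.span {β}) := Ideal.finiteQuotientOfFreeOfNeBot _ hbot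
  letI ik : Field (𝓞 F ⧸ Ideal.span {β}) := Ideal.Quotient.field (Ideal.span {β})
  have hcard : Nat.card (𝓞 F ⧸ Ideal.span {β})ˣ = Nm β - 1 :=
    Nat.card_units (𝓞 F ⧸ Ideal.span {β})
  let q : 𝓞 F →+* 𝓞 F ⧸ Ideal.span {β} := Ideal.Quotient.mk (Ideal.span {β})
  have hqs : Function.Surjective q := Ideal.Quotient.mk_surjective
  have hq : ∀ a b : 𝓞 F, act a T₀ = act b T₀ ↔ q a = q b := by
    intro a b
    show _ ↔ Ideal.Quotient.mk (Ideal.span {β}) a = Ideal.Quotient.mk (Ideal.span {β}) b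
    rw [Ideal.Quotient.eq, Ideal.mem_span_singleton, ← hker, act_sub, sub_eq_zero]
  have hT₀0 : T₀ ≠ 0 := by
    intro h
    have h3 : act (1 : 𝓞 F) T₀ = 0 := by rw [h, map_zero]
    exact hβ.not_isUnit (isUnit_of_dvd_one ((hker 1).1 h3))
  choose o ho using hqs
  have hne : ∀ r : (𝓞 F ⧸ Ideal.span {β})ˣ, act (o r) T₀ ≠ 0 := by
    intro r h
    have h3 : q (o r) = 0 := by
      rw [← map_zero q, ← hq, h, act_zero]
    rw [ho] at h3
    exact r.ne_zero h3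
  letI : Fintype χ.range := Fintype.ofFinite _
  let x : Ω := ∏ r : χ.range, tt (act (o (r : (𝓞 F ⧸ Ideal.span {β})ˣ)) T₀)
  have hsx : ∀ s : Ω ≃ₐ[F] Ω, s x = x := by
    intro s
    show s (∏ r : χ.range, tt (act (o (r : (𝓞 F ⧸ Ideal.span {β})ˣ)) T₀)) = _
    rw [map_prod]
    refine Fintype.prod_equiv (Equiv.mulLeft (⟨χ s, ⟨s, rfl⟩⟩ : χ.range)) _ _ fun r => ?_
    rw [← tt_ac, ac_act hA, h1 s (o (χ s : 𝓞 F ⧸ Ideal.span {β})) (ho _) T₀ hT₀, ← act_mul]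
    congr 1
    rw [hq, map_mul, ho, ho, ho, mul_comm]
    rfl
  have htr : ∀ r : χ.range, Ker V (act (o (r : (𝓞 F ⧸ Ideal.span {β})ˣ)) T₀) ∧
      V.valuation (tt (act (o (r : (𝓞 F ⧸ Ideal.span {β})ˣ)) T₀)) ^ (Nm β - 1) = vo V β := fun r =>
    kr_tor_ram hA hGV β hβ hV (act_tor hT₀) (hne _)
  have hN : 1 < Nm β := by
    have h3 : Nm β ≠ 1 := fun h => hβ.not_isUnit (Nm_eq_one'.1 h)
    have h4 := Nm_ne_zero' hβ.ne_zero
    omega
  have hx0 : x ≠ 0 := by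
    refine Finset.prod_ne_zero_iff.2 fun r _ => ?_
    rw [Ne, kr_tt_zero hGV (htr r).1]
    exact hne _
  obtain ⟨y, hy⟩ : ∃ y : F, algebraMap F Ω y = x := by
    have h3 : x ∈ (⊥ : IntermediateField F Ω) := ku2_mem ⊥ fun s _ => hsx s
    exact IntermediateField.mem_bot.1 h3
  have hy0 : y ≠ 0 := by
    rintro rfl
    rw [map_zero] at hy
    exact hx0 hy.symm
  obtain ⟨k, hk⟩ := qv_intpow V hβ hV y hy0
  have hval : V.valuation x ^ (Nm β - 1) = vo V β ^ Nat.card χ.range := by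
    show V.valuation (∏ r : χ.range, tt (act (o (r : (𝓞 F ⧸ Ideal.span {β})ˣ)) T₀)) ^ (Nm β - 1) = _
    rw [map_prod, ← Finset.prod_pow, Finset.prod_congr rfl fun r _ => (htr r).2, Finset.prod_const,
      Nat.card_eq_fintype_card]
    rfl
  have hdiv : ((Nm β - 1 : ℕ) : ℤ) * k = (Nat.card χ.range : ℤ) := by
    rw [← hy, hk, ← zpow_natCast, ← zpow_natCast, ← zpow_mul] at hval
    have h3 : vo V β ≠ 0 := vo_ne V hβ.ne_zero
    have h4 := (zpow_right_injective₀ (zero_lt_iff.2 h3) hV.ne) hval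
    rw [mul_comm] at h4
    exact h4
  have hle : Nm β - 1 ∣ Nat.card χ.range := by
    have h3 : ((Nm β - 1 : ℕ) : ℤ) ∣ (Nat.card χ.range : ℤ) := ⟨k, hdiv.symm⟩
    exact_mod_cast h3
  have htop : χ.range = ⊤ := by
    refine Subgroup.eq_top_of_le_card _ ?_
    rw [hcard]
    exact Nat.le_of_dvd Nat.card_pos hle
  have hqa : q a ≠ 0 := by
    intro h
    have h3 : act a T₀ = act (0 : 𝓞 F) T₀ := (hq a 0).2 (by rw [h, map_zero])
    rw [act_zero] at h3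
    exact ha ((hker a).1 h3)
  have hmem : Units.mk0 (q a) hqa ∈ χ.range := by rw [htop]; trivial
  obtain ⟨s, hs⟩ := hmem
  refine ⟨s, h1 s a ?_⟩
  rw [hs]
  rfl

/-- THE CYCLOTOMIC CHARACTER is not the character of the points killed by pi. -/
theorem hcyc_not {l : ℕ} {π : 𝓞 F} (h : Dta A B Om j act mo ψ l) (hπ : Prime π) (hd : π ∣ (l : 𝓞 F)) :
    ¬ ∀ (s : Ω ≃ₐ[F] Ω) (n : ℕ), (∀ T ∈ Tor act π, ac (WAB A B) s T = n • T) →
      ∀ ζ : Ω, ζ ^ l = 1 → s ζ = ζ ^ n := by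
  intro H
  have hA := h.cma
  have hl := h.prime
  have h5 := h.five
  have hl0 : NeZero l := ⟨hl.ne_zero⟩
  have hac : IsAlgClosed Ω := IsAlgClosure.isAlgClosed F
  have hch : CharZero Ω := charZero_of_injective_algebraMap (algebraMap F Ω).injective
  have hlΩ : NeZero (l : Ω) := ⟨Nat.cast_ne_zero.2 hl.ne_zero⟩
  have hπ' : Prime (cj π) := cj_prime hπ
  have hd' : cj π ∣ (l : 𝓞 F) := by
    rw [cj_dvd, cj_nat]
    exact hd
  obtain ⟨ζ, hζ⟩ := HasEnoughRootsOfUnity.exists_primitiveRoot Ω l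
  have hnd : ∀ β : 𝓞 F, Prime β → β ∣ (l : 𝓞 F) → ∀ n : ℕ, 0 < n → n < l → ¬ β ∣ (n : 𝓞 F) := by
    intro β hβ hβl n h0 hn hdn
    have hco : IsCoprime (l : ℤ) (n : ℤ) := by
      rw [Nat.isCoprime_iff_coprime]
      exact (Nat.Prime.coprime_iff_not_dvd hl).2 fun h => absurd (Nat.le_of_dvd h0 h) (not_le.2 hn)
    obtain ⟨u, v, huv⟩ := hco
    have h1 : (u : 𝓞 F) * (l : 𝓞 F) + (v : 𝓞 F) * (n : 𝓞 F) = 1 := by exact_mod_cast congrArg (Int.cast : ℤ → 𝓞 F) huv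
    apply hβ.not_isUnit
    apply isUnit_of_dvd_one
    rw [← h1]
    exact dvd_add (hβl.mul_left _) (hdn.mul_left _)
  have hG : ∀ V : ValuationSubring Ω, vo V (cj π) < 1 → GV A B V := by
    intro V hV
    apply h.good V
    obtain ⟨c, hc⟩ := hd'
    rw [← vo_nat (F := F), hc, vo_mul]
    exact mul_lt_one_of_lt_of_le hV (vo_le V c)
  obtain ⟨-, T₀, hT₀, hgen, hker⟩ := gi_gen hA π hπ
  obtain ⟨-, T₁, hT₁, hgen', hker'⟩ := gi_gen hA (cj π) hπ'
  have hT₀0 : T₀ ≠ 0 := by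
    intro h
    have h3 : act (1 : 𝓞 F) T₀ = 0 := by rw [h, map_zero]
    exact hπ.not_isUnit (isUnit_of_dvd_one ((hker 1).1 h3))
  have hT₁0 : T₁ ≠ 0 := by
    intro h
    have h3 : act (1 : 𝓞 F) T₁ = 0 := by rw [h, map_zero]
    exact hπ'.not_isUnit (isUnit_of_dvd_one ((hker' 1).1 h3))
  obtain ⟨s, hs⟩ := act_real hA (cj π) hπ' hG 2 (by
    have h6 := hnd (cj π) hπ' hd' 2 (by omega) (by omega)
    rwa [Nat.cast_ofNat] at h6)
  obtain ⟨n, hn⟩ : ∃ n : ℕ, ∀ T ∈ Tor act π, ac (WAB A B) s T = n • T := by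
    rcases dichotomy hl h.unr hπ hd with ⟨h1, -, -⟩ | ⟨-, -, h1, -⟩
    · refine ⟨2, fun T hT => ?_⟩
      rw [tor_assoc h1] at hs
      rw [hs T hT, ← act_nat (act := act), Nat.cast_ofNat]
    · obtain ⟨a, ha⟩ := hgen _ (ac_mem hA s hT₀)
      obtain ⟨n, hn⟩ := exists_natmod hl h1 a
      refine ⟨n, fun T hT => ?_⟩
      obtain ⟨c, rfl⟩ := hgen T hT
      rw [← hker, act_sub, sub_eq_zero] at hn
      rw [ac_act hA, ha, hn, ← act_nat (act := act), ← act_mul, ← act_mul, mul_comm]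
  have hz := H s n hn ζ hζ.pow_eq_one
  have h1 := char_id π l h hπ hd ζ hζ s (n : 𝓞 F) 2 n T₀ T₁ hT₀ hT₀0 hT₁ hT₁0 (by rw [hn T₀ hT₀, act_nat])
    (hs T₁ hT₁) hz
  have h2 : cj (2 : 𝓞 F) = 2 := by
    have h3 := cj_nat (F := F) 2
    rwa [Nat.cast_ofNat] at h3
  rw [h2] at h1
  have h4 : (2 : 𝓞 F) * n - n = (n : 𝓞 F) := by ring
  rw [h4, ← hker, act_nat, ← hn T₀ hT₀] at h1
  exact ac_ne s hT₀0 h1

end H55K.S
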