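import Mathlib
import Pool.Agent.Lib.H55K.SD
import Pool.Agent.Lib.H13S.KU1

/-! # H55K, part S: port of H13S/KU1 -/

open NumberField IsDedekindDomain WeierstrassCurve

namespace H55K.S

open H55P (IQ embF eF LF Per IsHecke Pt ac Inert Dec Nm)
open H35P (WAB Ker tt)
open H13S (Abv)




variable {F : Type} [Field F] [NumberField F] [IQ F] {A B : F} {Om : ℂ} {Ω : Type} [Field Ω] [DecidableEq Ω]
  [Algebra F Ω] [IsAlgClosure F Ω] {j : Ω →+* ℂ} {act : 𝓞 F →+* AddMonoid.End (Pt (WAB A B) Ω)} {mo : Ideal (𝓞 F)}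
  {ψ : Ideal (𝓞 F) →*₀ 𝓞 F}

/-- Chunk KU1 (M). Kummer generators by Hilbert 90. E₁ = the field of C.cont; zeta = a primitive l-th root of unity; N = normal closure over F of the compositum of
E₁, L, F(zeta): finite Galois over F, N ≥ L. For n in N.fixingSubgroup: c n = 0; so c (s n) = c s. For s in L.fixingSubgroup put u s = e (c s) T: an l-th root of
unity (he.root, C.val), in N. u (s t) = e (c s + ac s (c t)) T = u s * e (ac s (c t)) (ac s T) = u s * s (u t), because ac s T = T (IsTF), he.add_left, he.gal. So u induces a multiplicative 1-cocycle of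
Gal(N/L) (elements of Gal(N/L) lift to L.fixingSubgroup, u does not depend on the lift) with values in N^*. Hilbert 90
(groupCohomology.isMulCoboundary₁_of_isMulCocycle₁_of_aut_to_units, or Dedekind independence by hand) gives y in N^* with s y = u s * y. -/
theorem exists_kum {π : 𝓞 F} {l : ℕ} {c : (Ω ≃ₐ[F] Ω) → Pt (WAB A B) Ω} (C : Cl A B Om j act mo ψ π l c) {e : Pt (WAB A B) Ω → Pt (WAB A B) Ω → Ω}
    (he : Pairing A B act π l e) {L : IntermediateField F Ω} (hL : IsTF act π L) {T : Pt (WAB A B) Ω} (hT : T ∈ Tor act π) :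
    ∃ y : Ω, Kum L e c T y := by
  classical
  have hA := C.cma
  obtain ⟨E₁, hE₁, hc₁⟩ := C.cont
  have hNF : Normal F Ω := IsAlgClosure.normal F Ω
  have hNL : Normal L Ω := Normal.tower_top_of_normal F L Ω
  let b := Module.finBasis F E₁
  let S : Set Ω := Set.range (fun i => ((b i : E₁) : Ω)) ∪ {x : Ω | x ^ l = 1}
  have hl0 : 0 < l := C.hl.pos
  have hfr : {x : Ω | x ^ l = 1}.Finite := by
    have h1 := (Polynomial.nthRoots l (1 : Ω)).toFinset.finite_toSet
    refine h1.subset fun x hx => ?_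
    rw [Finset.mem_coe, Multiset.mem_toFinset, Polynomial.mem_nthRoots hl0]
    exact hx
  have hSf : Finite S := ((Set.finite_range _).union hfr).to_subtype
  -- the inclusion of the automorphism groups
  have hmem : ∀ s : Ω ≃ₐ[L] Ω, s.restrictScalars F ∈ L.fixingSubgroup := by
    intro s
    rw [IntermediateField.mem_fixingSubgroup_iff]
    intro x hx
    exact s.commutes ⟨x, hx⟩
  have hacT : ∀ s : Ω ≃ₐ[L] Ω, ac (WAB A B) (s.restrictScalars F) T = T := fun s =>
    (hL.2 _).1 (hmem s) T hT
  have h0 : ∀ s : Ω ≃ₐ[L] Ω, e (c (s.restrictScalars F)) T ≠ 0 := by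
    intro s h0
    have h1 := he.root _ (C.val (s.restrictScalars F)) T hT
    rw [h0, zero_pow hl0.ne'] at h1
    exact zero_ne_one h1
  have hcoc : ∀ s t : Ω ≃ₐ[L] Ω, e (c ((s * t).restrictScalars F)) T =
      e (c (s.restrictScalars F)) T * s (e (c (t.restrictScalars F)) T) := by
    intro s t
    have h1 : (s * t).restrictScalars F = s.restrictScalars F * t.restrictScalars F := rfl
    rw [h1, C.mul, he.add_left _ (C.val _) _ (ac_mem hA _ (C.val _)) T hT]
    congr 1
    have h2 := he.gal (s.restrictScalars F) _ (C.val (t.restrictScalars F)) T hT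
    rw [hacT] at h2
    exact h2.symm
  have htriv : ∀ n : Ω ≃ₐ[L] Ω, (∀ x ∈ S, n x = x) → e (c (n.restrictScalars F)) T = 1 := by
    intro n hn
    have h1 : n.restrictScalars F ∈ E₁.fixingSubgroup := by
      rw [IntermediateField.mem_fixingSubgroup_iff]
      intro x hx
      have h2 := b.sum_repr ⟨x, hx⟩
      have h3 : x = ∑ i, (b.repr ⟨x, hx⟩ i) • ((b i : E₁) : Ω) := by
        have h4 := congrArg (fun z : E₁ => (z : Ω)) h2
        refine h4.symm.trans ?_
        push_cast
        rfl
      rw [h3, map_sum]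
      refine Finset.sum_congr rfl fun i _ => ?_
      rw [map_smul]
      congr 1
      exact hn _ (Or.inl ⟨i, rfl⟩)
    have h2 := hc₁ _ h1
    rw [h2]
    have h3 := he.add_left 0 (zero_mem _) 0 (zero_mem _) T hT
    rw [add_zero] at h3
    have h4 := he.root 0 (zero_mem _) T hT
    have h5 : e 0 T ≠ 0 := by
      intro h0
      rw [h0, zero_pow hl0.ne'] at h4
      exact zero_ne_one h4
    exact (mul_eq_left₀ h5).1 h3.symm
  obtain ⟨y, hy0, hy⟩ := H13S.ku1_h90 (k := L) (Ω := Ω) (fun s => e (c (s.restrictScalars F)) T) h0 hcoc S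
    (fun s => Or.inr (he.root _ (C.val _) T hT)) htriv
  refine ⟨y, hy0, fun s hs => ?_⟩
  exact hy (IntermediateField.fixingSubgroupEquiv L ⟨s, hs⟩)

end H55K.S
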