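import Mathlib
import Pool.Agent.Lib.H55K.GF
import Pool.Agent.Lib.H55K.SKR

/-! # H55K, part S: vanishing on inertia groups -/

open NumberField IsDedekindDomain WeierstrassCurve

namespace H55K.S

open H55P (IQ embF eF LF Per IsHecke Pt ac Inert Dec Nm)
open H35P (WAB Ker tt)
open H13S (Abv)

variable {F : Type} [Field F] [NumberField F] [IQ F] {A B : F} {Om : ℂ} {Ω : Type} [Field Ω] [DecidableEq Ω]
  [Algebra F Ω] {j : Ω →+* ℂ} {act : 𝓞 F →+* AddMonoid.End (Pt (WAB A B) Ω)} {mo : Ideal (𝓞 F)}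
  {ψ : Ideal (𝓞 F) →*₀ 𝓞 F}

theorem cl_l {π : 𝓞 F} {l : ℕ} {c : (Ω ≃ₐ[F] Ω) → Pt (WAB A B) Ω} (C : Cl A B Om j act mo ψ π l c)
    (s : Ω ≃ₐ[F] Ω) : l • c s = 0 := by
  obtain ⟨u, hu⟩ := C.dvd
  have h1 : (l : 𝓞 F) = cj u * cj π := by
    have h2 := congrArg cj hu
    rw [map_natCast, map_mul] at h2
    rw [h2, mul_comm]
  rw [← act_nat (act := act), h1, act_mul, mem_Tor.1 (C.val s), map_zero]

/-- At the places above π in the split case. -/
theorem c_inert_zero {π : 𝓞 F} {l : ℕ} {c : (Ω ≃ₐ[F] Ω) → Pt (WAB A B) Ω} (C : Cl A B Om j act mo ψ π l c)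
    (V : ValuationSubring Ω) (hG : GV A B V) (hc : vo V (cj π) = 1) (s : Ω ≃ₐ[F] Ω) (hs : Inert V s) :
    c s = 0 := by
  obtain ⟨P, hP⟩ := C.loc V
  refine kr_tor C.cma hG (cj π) hc (C.val s) ?_
  rw [hP s hs]
  exact kr_inert hG s hs P

/-- At the places not above l, for the elements fixing the points killed by π. -/
theorem c_inert_away {π : 𝓞 F} {l : ℕ} {c : (Ω ≃ₐ[F] Ω) → Pt (WAB A B) Ω} (C : Cl A B Om j act mo ψ π l c)
    (V : ValuationSubring Ω) (hV : V.valuation (l : Ω) = 1) (s : Ω ≃ₐ[F] Ω) (hs : Inert V s)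
    (hf : ∀ T ∈ Tor act π, ac (WAB A B) s T = T) : c s = 0 := by
  obtain ⟨Kg, u, hK⟩ := C.dta.gmod V
  obtain ⟨P, hP⟩ := C.loc V
  have h1 := inert_fix C.cma C.hl C.five C.pr C.dvd hK hV s hs hf l hV P (by rw [← hP s hs]; exact cl_l C s)
  rw [hP s hs, h1, sub_self]

end H55K.S
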