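import Mathlib
import Pool.Agent.Lib.H55K.SIZ
import Pool.Agent.Lib.H55K.SLD

/-! # H55K, part S: the level at the primes above π -/

open NumberField IsDedekindDomain WeierstrassCurve

namespace H55K.S

open H55P (IQ embF eF LF Per IsHecke Pt ac Inert Dec Nm)
open H35P (WAB Ker tt)
open H13S (Abv)

variable {F : Type} [Field F] [NumberField F] [IQ F] {A B : F} {Om : ℂ} {Ω : Type} [Field Ω] [DecidableEq Ω]
  [Algebra F Ω] [IsAlgClosure F Ω] {j : Ω →+* ℂ} {act : 𝓞 F →+* AddMonoid.End (Pt (WAB A B) Ω)} {mo : Ideal (𝓞 F)}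
  {ψ : Ideal (𝓞 F) →*₀ 𝓞 F}

omit [IsAlgClosure F Ω] [DecidableEq Ω] in
theorem val_l {π : 𝓞 F} {l : ℕ} (hd : π ∣ (l : 𝓞 F)) (hle : ∀ (V : ValuationSubring Ω) (x : 𝓞 F), vo V x ≤ 1)
    (V : ValuationSubring Ω) (hV : vo V π < 1) : V.valuation (l : Ω) < 1 := by
  obtain ⟨u, hu⟩ := hd
  rw [← vo_nat (F := F), hu, vo_mul]
  exact lt_of_le_of_lt (mul_le_of_le_one_right' (hle V u)) hV

/-- The level at the primes above π. -/
theorem level {π : 𝓞 F} {l : ℕ} {c : (Ω ≃ₐ[F] Ω) → Pt (WAB A B) Ω} (C : Cl A B Om j act mo ψ π l c)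
    {e : Pt (WAB A B) Ω → Pt (WAB A B) Ω → Ω} (he : Pairing A B act π l e) {L : IntermediateField F Ω}
    (hL : IsTF act π L) [NumberField L] (V : ValuationSubring Ω) (hV : vo V π < 1) (w : HeightOneSpectrum (𝓞 L))
    (hw : Abv L V w) (T : Pt (WAB A B) Ω) (hT : T ∈ Tor act π) (m : L) (hm : m ≠ 0) (y : Ω)
    (hyk : Kum L e c T y) (hy : y ^ l = (m : Ω)) :
    ∃ z : L, z ≠ 0 ∧ w.valuation L (m / z ^ l - 1) ≤ WithZero.exp (-2 : ℤ) := by
  have hVl := val_l C.dvd vo_le V hV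
  have hG := C.dta.good V hVl
  rcases dichotomy C.hl C.dta.unr C.pr C.dvd with ⟨h1, h2, h3⟩ | ⟨h1, -, -, -⟩
  · exact level_inert C h3 (tor_assoc h1) h2 he hL V hG hV w hw T hT m hm y hyk hy
  · have hcj : vo V (cj π) = 1 := vo_unit ((C.pr.irreducible.coprime_iff_not_dvd).2 h1) hV
    refine H13S.level_unr L V w hw l C.hl hVl m hm y hy ?_
    intro s hs hi
    rw [hyk.2 s hs, c_inert_zero C V hG hcj s hi, ld3_e0 C.hl.ne_zero he hT, one_mul]

end H55K.S
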