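import Mathlib
import Pool.Agent.Lib.H55K.SPA1
import Pool.Agent.Lib.H13S.PA2

/-! # H55K, part S: port of H13S/PA2 -/

open NumberField IsDedekindDomain WeierstrassCurve

namespace H55K.S

open H55P (IQ embF eF LF Per IsHecke Pt ac Inert Dec Nm)
open H35P (WAB Ker tt)
open H13S (Abv)




variable {F : Type} [Field F] [NumberField F] [IQ F] {A B : F} {Om : ℂ} {Ω : Type} [Field Ω] [DecidableEq Ω]
  [Algebra F Ω] [IsAlgClosure F Ω] {j : Ω →+* ℂ} {act : 𝓞 F →+* AddMonoid.End (Pt (WAB A B) Ω)} {mo : Ideal (𝓞 F)}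
  {ψ : Ideal (𝓞 F) →*₀ 𝓞 F}

/-- A nonzero additive form on the residue field. -/
theorem PA2_rho (π : 𝓞 F) (l : ℕ) (hl : l.Prime) (hπ : Prime π) (hd : π ∣ (l : 𝓞 F)) :
    ∃ ρ : (𝓞 F ⧸ Ideal.span {π}) →+ ZMod l, ρ 1 ≠ 0 := by
  have hz : ∀ x : 𝓞 F ⧸ Ideal.span {π}, l • x = 0 := by
    intro x
    rw [nsmul_eq_mul]
    have h1 : ((l : ℕ) : 𝓞 F ⧸ Ideal.span {π}) = Ideal.Quotient.mk _ (l : 𝓞 F) := (map_natCast _ _).symm
    rw [h1, Ideal.Quotient.eq_zero_iff_mem.2 (Ideal.mem_span_singleton.2 hd), zero_mul]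
  have h1 : (1 : 𝓞 F ⧸ Ideal.span {π}) ≠ 0 := by
    intro h
    rw [← map_one (Ideal.Quotient.mk (Ideal.span {π})), Ideal.Quotient.eq_zero_iff_mem,
      Ideal.mem_span_singleton] at h
    exact hπ.not_isUnit (isUnit_of_dvd_one h)
  exact H13S.PA2_form l hl _ hz 1 h1

/-- Chunk PA2 (M). The pairing. T₀, T₀' generators of Tor pi, Tor (cj pi) (gi_gen; cj pi is a primary prime too), zeta a primitive
l-th root of unity in Ω. k = 𝓞 F/pi is a field of characteristic l; rho : k -> ZMod l a nonzero additive map (exists: k is a nonzero vector space over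
ZMod l, e.g. a coordinate of a basis; or rho(class of x + y om) explicitly). e X T = zeta^(rho(class of cj a' * b)) if X = act a' T₀', T = act b T₀ (well defined: a' modulo
cj pi, so cj a' modulo pi). Bilinear, values l-th roots of unity. Nondegenerate: if rho(cj a' b) = 0 for all b then cj a' = 0 in the field k. Equivariance: ac s T₀ = act a T₀,
ac s T₀' = act b₁ T₀', s zeta = zeta^c; ac s X = act (a' b₁) T₀', ac s T = act (b a) T₀; cj(a' b₁) b a = cj a' b (cj b₁ a) = c cj a' b modulo pi (char_id), rho is additive: rho(c z) = c rho(z). -/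
theorem exists_pairing (π : 𝓞 F) (l : ℕ) (dta : Dta A B Om j act mo ψ l) (hπ : Prime π)
    (hd : π ∣ (l : 𝓞 F)) : ∃ e : Pt (WAB A B) Ω → Pt (WAB A B) Ω → Ω, Pairing A B act π l e := by
  classical
  have hA := dta.cma
  have hl := dta.prime
  have := Fact.mk hl
  have : NeZero l := ⟨hl.ne_zero⟩
  have hΩ : IsAlgClosed Ω := IsAlgClosure.isAlgClosed F
  have hc0 : CharZero Ω := charZero_of_injective_algebraMap (algebraMap F Ω).injective
  obtain ⟨ζ, hζ⟩ := HasEnoughRootsOfUnity.exists_primitiveRoot Ω l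
  obtain ⟨_, T₀, hT₀, hgen, hz⟩ := gi_gen hA π hπ
  obtain ⟨_, T₀', hT₀', hgen', hz'⟩ := gi_gen hA (cj π) (cj_prime hπ)
  obtain ⟨ρ, hρ⟩ := PA2_rho π l hl hπ hd
  -- the character
  set Z : ZMod l → Ω := fun z => ζ ^ z.val with hZ
  have Z_nat : ∀ n : ℕ, Z (n : ZMod l) = ζ ^ n := by
    intro n
    show ζ ^ (n : ZMod l).val = ζ ^ n
    rw [ZMod.val_natCast]
    conv_rhs => rw [← Nat.mod_add_div n l, pow_add, pow_mul, hζ.pow_eq_one, one_pow, mul_one]
  have Z_add : ∀ x y : ZMod l, Z (x + y) = Z x * Z y := by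
    intro x y
    have h1 : x + y = ((x.val + y.val : ℕ) : ZMod l) := by
      rw [Nat.cast_add, ZMod.natCast_zmod_val, ZMod.natCast_zmod_val]
    rw [h1, Z_nat, pow_add]
  have Z_root : ∀ x : ZMod l, Z x ^ l = 1 := by
    intro x
    show (ζ ^ x.val) ^ l = 1
    rw [← pow_mul, mul_comm, pow_mul, hζ.pow_eq_one, one_pow]
  have Z_one : ∀ x : ZMod l, Z x = 1 → x = 0 := by
    intro x hx
    have h1 : l ∣ x.val := (hζ.pow_eq_one_iff_dvd _).1 hx
    have h2 : x.val < l := ZMod.val_lt x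
    have h4 : x.val = 0 := Nat.eq_zero_of_dvd_of_lt h1 h2
    exact (ZMod.val_eq_zero x).1 h4
  have Z_cmul : ∀ (c : ℕ) (x : ZMod l), Z ((c : ZMod l) * x) = Z x ^ c := by
    intro c x
    have h1 : (c : ZMod l) * x = ((c * x.val : ℕ) : ZMod l) := by
      rw [Nat.cast_mul, ZMod.natCast_zmod_val]
    rw [h1, Z_nat]
    show _ = (ζ ^ x.val) ^ c
    rw [← pow_mul, mul_comm]
  have hmk : ∀ x y : 𝓞 F, π ∣ x - y → Ideal.Quotient.mk (Ideal.span {π}) x =
      Ideal.Quotient.mk (Ideal.span {π}) y := by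
    intro x y h
    rw [Ideal.Quotient.mk_eq_mk_iff_sub_mem, Ideal.mem_span_singleton]
    exact h
  have hact : ∀ a b : 𝓞 F, act a T₀ = act b T₀ → π ∣ a - b := by
    intro a b h
    rw [← hz, act_sub, h, sub_self]
  have hact' : ∀ a b : 𝓞 F, act a T₀' = act b T₀' → π ∣ cj a - cj b := by
    intro a b h
    rw [← map_sub, ← cj_dvd, ← hz', act_sub, h, sub_self]
  let e : Pt (WAB A B) Ω → Pt (WAB A B) Ω → Ω := fun X T =>
    if h : ∃ a b : 𝓞 F, X = act a T₀' ∧ T = act b T₀ then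
      Z (ρ (Ideal.Quotient.mk (Ideal.span {π}) (cj h.choose * h.choose_spec.choose))) else 1
  have he : ∀ a b : 𝓞 F, e (act a T₀') (act b T₀) =
      Z (ρ (Ideal.Quotient.mk (Ideal.span {π}) (cj a * b))) := by
    intro a b
    have h : ∃ a₁ b₁ : 𝓞 F, act a T₀' = act a₁ T₀' ∧ act b T₀ = act b₁ T₀ := ⟨a, b, rfl, rfl⟩
    show (if h : ∃ a₁ b₁ : 𝓞 F, act a T₀' = act a₁ T₀' ∧ act b T₀ = act b₁ T₀ then
      Z (ρ (Ideal.Quotient.mk (Ideal.span {π}) (cj h.choose * h.choose_spec.choose))) else 1) = _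
    rw [dif_pos h]
    obtain ⟨h1, h2⟩ := h.choose_spec.choose_spec
    have h4 := hact' _ _ h1
    have h6 := hact _ _ h2
    rw [map_mul (Ideal.Quotient.mk (Ideal.span {π})), map_mul (Ideal.Quotient.mk (Ideal.span {π})),
      ← hmk _ _ h4, ← hmk _ _ h6]
  have hT1 : T₀ ≠ 0 := by
    intro h
    have h1 := (hz 1).1 (by rw [act_one, h])
    exact hπ.not_isUnit (isUnit_of_dvd_one h1)
  have hT1' : T₀' ≠ 0 := by
    intro h
    have h1 := (hz' 1).1 (by rw [act_one, h])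
    exact (cj_prime hπ).not_isUnit (isUnit_of_dvd_one h1)
  refine ⟨e, ?_, ?_, ?_, ?_, ?_⟩
  · intro X hX X' hX' T hT
    obtain ⟨a, rfl⟩ := hgen' X hX
    obtain ⟨a', rfl⟩ := hgen' X' hX'
    obtain ⟨b, rfl⟩ := hgen T hT
    rw [← act_add, he, he, he, ← Z_add, ← map_add, ← map_add, map_add cj, add_mul]
  · intro X hX T hT T' hT'
    obtain ⟨a, rfl⟩ := hgen' X hX
    obtain ⟨b, rfl⟩ := hgen T hT
    obtain ⟨b', rfl⟩ := hgen T' hT'
    rw [← act_add, he, he, he, ← Z_add, ← map_add, ← map_add, mul_add]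
  · intro X hX T hT
    obtain ⟨a, rfl⟩ := hgen' X hX
    obtain ⟨b, rfl⟩ := hgen T hT
    rw [he]
    exact Z_root _
  · intro s X hX T hT
    obtain ⟨a', rfl⟩ := hgen' X hX
    obtain ⟨b, rfl⟩ := hgen T hT
    obtain ⟨a, ha⟩ := hgen _ (ac_mem hA s hT₀)
    obtain ⟨b₁, hb₁⟩ := hgen' _ (ac_mem hA s hT₀')
    have hs : (s ζ) ^ l = 1 := by rw [← map_pow, hζ.pow_eq_one, map_one]
    obtain ⟨c, _, hc⟩ := hζ.eq_pow_of_pow_eq_one hs
    have h1 := char_id π l dta hπ hd ζ hζ s a b₁ c T₀ T₀' hT₀ hT1 hT₀' hT1' ha hb₁ hc.symm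
    rw [ac_act hA, ac_act hA, ha, hb₁, ← act_mul, ← act_mul, he, he]
    have h2 : Ideal.Quotient.mk (Ideal.span {π}) (cj (a' * b₁) * (b * a)) =
        ((c : ℕ) : 𝓞 F ⧸ Ideal.span {π}) * Ideal.Quotient.mk (Ideal.span {π}) (cj a' * b) := by
      have h4 : cj (a' * b₁) * (b * a) = (cj b₁ * a) * (cj a' * b) := by
        rw [map_mul]
        ring
      rw [h4, map_mul, hmk _ _ h1, map_natCast]
    rw [h2, ← nsmul_eq_mul, map_nsmul, nsmul_eq_mul, Z_cmul]
    show s (ζ ^ _) = _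
    rw [map_pow, ← hc, ← pow_mul, mul_comm, pow_mul]
  · intro X hX h
    obtain ⟨a', rfl⟩ := hgen' X hX
    rw [hz', cj_dvd]
    by_contra hcon
    have hmax : (Ideal.span {π}).IsMaximal :=
      PrincipalIdealRing.isMaximal_of_irreducible hπ.irreducible
    let : Field (𝓞 F ⧸ Ideal.span {π}) := Ideal.Quotient.field _
    have h1 : Ideal.Quotient.mk (Ideal.span {π}) (cj a') ≠ 0 := by
      rw [Ne, Ideal.Quotient.eq_zero_iff_mem, Ideal.mem_span_singleton]
      exact hcon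
    obtain ⟨b, hb⟩ := Ideal.Quotient.mk_surjective (Ideal.Quotient.mk (Ideal.span {π}) (cj a'))⁻¹
    have h2 := h (act b T₀) (by
      rw [mem_Tor, ← act_mul, mul_comm, act_mul, mem_Tor.1 hT₀, map_zero])
    rw [he] at h2
    have h4 := Z_one _ h2
    rw [map_mul, hb, mul_inv_cancel₀ h1] at h4
    exact hρ h4

end H55K.S
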