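import Mathlib
import Pool.Agent.Lib.H55K.SKU1
import Pool.Agent.Lib.H55K.SLV
import Pool.Agent.Lib.H55K.SNA
import Pool.Agent.Lib.H55K.SPA2

/-! # H55K, part S: port of H13S/PS -/

open NumberField IsDedekindDomain WeierstrassCurve

namespace H55K.S

open H55P (IQ embF eF LF Per IsHecke Pt ac Inert Dec Nm)
open H35P (WAB Ker tt)
open H13S (Abv)
open H55R (Pl ord)




variable {F : Type} [Field F] [NumberField F] [IQ F] {A B : F} {Om : ℂ} {Ω : Type} [Field Ω] [DecidableEq Ω]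
  [Algebra F Ω] [IsAlgClosure F Ω] {j : Ω →+* ℂ} {act : 𝓞 F →+* AddMonoid.End (Pt (WAB A B) Ω)} {mo : Ideal (𝓞 F)}
  {ψ : Ideal (𝓞 F) →*₀ 𝓞 F}

theorem ps_add {π : 𝓞 F} {l : ℕ} {c : (Ω ≃ₐ[F] Ω) → Pt (WAB A B) Ω} (C : Cl A B Om j act mo ψ π l c)
    {e : Pt (WAB A B) Ω → Pt (WAB A B) Ω → Ω} (he : Pairing A B act π l e) {L : IntermediateField F Ω} (hL : IsTF act π L)
    (m : Pt (WAB A B) Ω → L) (y : Pt (WAB A B) Ω → Ω) (hy : ∀ T ∈ Tor act π, Kum L e c T (y T))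
    (hm : ∀ T ∈ Tor act π, m T ≠ 0 ∧ (m T : Ω) = y T ^ l) (T : Pt (WAB A B) Ω) (hT : T ∈ Tor act π) (T' : Pt (WAB A B) Ω)
    (hT' : T' ∈ Tor act π) : ∃ z : L, z ≠ 0 ∧ m (T + T') = m T * m T' * z ^ l := by
  have h1 := AddSubgroup.add_mem _ hT hT'
  obtain ⟨z, hz0, hz⟩ := kum_ratio hL (hy _ h1) (kum_mul C he hL hT hT' (hy T hT) (hy T' hT'))
  refine ⟨z, hz0, Subtype.ext ?_⟩
  push_cast
  rw [(hm _ h1).2, (hm T hT).2, (hm T' hT').2, hz]
  ring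

theorem ps_act {π : 𝓞 F} {l : ℕ} {c : (Ω ≃ₐ[F] Ω) → Pt (WAB A B) Ω} (C : Cl A B Om j act mo ψ π l c)
    {e : Pt (WAB A B) Ω → Pt (WAB A B) Ω → Ω} (he : Pairing A B act π l e) {L : IntermediateField F Ω} (hL : IsTF act π L)
    (m : Pt (WAB A B) Ω → L) (y : Pt (WAB A B) Ω → Ω) (hy : ∀ T ∈ Tor act π, Kum L e c T (y T))
    (hm : ∀ T ∈ Tor act π, m T ≠ 0 ∧ (m T : Ω) = y T ^ l) (σ : Ω ≃ₐ[F] Ω) (T : Pt (WAB A B) Ω) (hT : T ∈ Tor act π) :
    ∃ x' z : L, z ≠ 0 ∧ (x' : Ω) = σ (m T : Ω) ∧ x' = m (ac (WAB A B) σ T) * z ^ l := by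
  have h1 := ac_mem C.cma σ hT
  obtain ⟨z, hz0, hz⟩ := kum_ratio hL (kum_act C he hL σ hT (hy T hT)) (hy _ h1)
  refine ⟨m (ac (WAB A B) σ T) * z ^ l, z, hz0, ?_, rfl⟩
  have hr := he.root _ (C.val σ) _ h1
  push_cast
  rw [(hm T hT).2, (hm _ h1).2, map_pow, mul_comm, ← mul_pow, ← hz, div_pow, hr, div_one]

/-- The valuations. -/
theorem ords {π : 𝓞 F} {l : ℕ} {c : (Ω ≃ₐ[F] Ω) → Pt (WAB A B) Ω} (C : Cl A B Om j act mo ψ π l c)
    {e : Pt (WAB A B) Ω → Pt (WAB A B) Ω → Ω} (he : Pairing A B act π l e) {L : IntermediateField F Ω}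
    (hL : IsTF act π L) [NumberField L] (m : Pt (WAB A B) Ω → L) (y : Pt (WAB A B) Ω → Ω)
    (hy : ∀ T ∈ Tor act π, Kum L e c T (y T))
    (hm : ∀ T ∈ Tor act π, m T ≠ 0 ∧ (m T : Ω) = y T ^ l) (T : Pt (WAB A B) Ω) (hT : T ∈ Tor act π)
    (w : HeightOneSpectrum (𝓞 L)) : ∃ k : ℤ, w.valuation L (m T) = WithZero.exp ((l : ℤ) * k) := by
  have hA := C.cma
  obtain ⟨V, hw⟩ := H13S.exists_above L w
  have hl0 : l ≠ 0 := C.hl.ne_zero
  by_cases h1 : vo V π < 1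
  · obtain ⟨z, hz0, hz⟩ := level C he hL V h1 w hw T hT (m T) (hm T hT).1 (y T) (hy T hT)
      (hm T hT).2.symm
    have h2 : w.valuation L (m T / z ^ l) = 1 := by
      have h3 : w.valuation L (m T / z ^ l - 1) < w.valuation L (1 : L) := by
        rw [map_one]
        refine lt_of_le_of_lt hz ?_
        rw [← WithZero.exp_zero, WithZero.exp_lt_exp]
        norm_num
      have h4 := (w.valuation L).map_add_eq_of_lt_left h3
      rw [add_sub_cancel, map_one] at h4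
      exact h4
    rw [map_div₀, map_pow] at h2
    have hz1 : w.valuation L z ≠ 0 := by
      rwa [Ne, map_eq_zero]
    have h3 := (div_eq_one_iff_eq (pow_ne_zero l hz1)).1 h2
    refine ⟨WithZero.log (w.valuation L z), ?_⟩
    rw [h3, ← nsmul_eq_mul, WithZero.exp_nsmul, WithZero.exp_log hz1]
  · have h1' : vo V π = 1 := le_antisymm (vo_le V π) (not_lt.1 h1)
    by_cases h2 : V.valuation (l : Ω) < 1
    · have hcv : vo V (cj π) < 1 := by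
        by_contra hcon
        have h3 : vo V (cj π) = 1 := le_antisymm (vo_le V _) (not_lt.1 hcon)
        rcases dichotomy C.hl C.dta.unr C.pr C.dvd with ⟨-, -, h4⟩ | ⟨-, -, -, h4⟩
        · rw [← vo_nat (F := F), vo_assoc V h4 (vo_le V), h1'] at h2
          exact lt_irrefl _ h2
        · rw [← vo_nat (F := F), ← h4, vo_mul, h1', h3, one_mul] at h2
          exact lt_irrefl _ h2
      exact na_ord C he hL V (C.dta.good V h2) h1' hcv w hw T hT (m T) (hm T hT).1 (y T) (hy T hT) (hm T hT).2.symm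
    · have h2' : V.valuation (l : Ω) = 1 := by
        refine le_antisymm ?_ (not_lt.1 h2)
        rw [← vo_nat (F := F)]
        exact vo_le V _
      refine H13S.ord_of_unr L V w hw l (m T) (hm T hT).1 (y T) (hm T hT).2.symm fun s hs hi => ?_
      rw [(hy T hT).2 s hs, c_inert_away C V h2' s hi ((hL.2 s).1 hs), ld3_e0 hl0 he hT, one_mul]

/-- THE SELMER SIDE. -/
theorem partS {π : 𝓞 F} {l : ℕ} {c : (Ω ≃ₐ[F] Ω) → Pt (WAB A B) Ω} (C : Cl A B Om j act mo ψ π l c) {L : IntermediateField F Ω}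
    (hL : IsTF act π L) [NumberField L] : ∃ m : Pt (WAB A B) Ω → (L)ˣ,
      (∀ T ∈ Tor act π, ∀ T' ∈ Tor act π, ∃ z : (L)ˣ, m (T + T') = m T * m T' * z ^ l) ∧
      (∀ σ : Ω ≃ₐ[F] Ω, ∀ T ∈ Tor act π, ∃ z : (L)ˣ,
        ((m (ac (WAB A B) σ T) : L) : Ω) = σ ((m T : L) : Ω) * ((z : L) : Ω) ^ l) ∧
      (∀ T ∈ Tor act π, ∀ w : Pl L, (l : ℤ) ∣ ord w (m T)) ∧
      (∀ T ∈ Tor act π, ∀ w : Pl L, w.valuation L (algebraMap F L (π : F)) < 1 →
        ∃ z : (L)ˣ, w.valuation L (((m T * (z ^ l)⁻¹ : (L)ˣ) : L) - 1) ≤ WithZero.exp (-2 : ℤ)) ∧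
      ((∀ T ∈ Tor act π, ∃ z : (L)ˣ, m T = z ^ l) →
        ∃ X ∈ Tor act (cj π), ∀ s, c s = ac (WAB A B) s X - X) := by
  classical
  obtain ⟨e, he⟩ := exists_pairing (Ω := Ω) π l C.dta C.pr C.dvd
  have h1 : ∀ T : Pt (WAB A B) Ω, ∃ y : Ω, T ∈ Tor act π → Kum L e c T y := fun T => by
    by_cases hT : T ∈ Tor act π
    · obtain ⟨y, hy⟩ := exists_kum C he hL hT
      exact ⟨y, fun _ => hy⟩
    · exact ⟨0, fun h => absurd h hT⟩
  choose y hy using h1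
  have h2 : ∀ T : Pt (WAB A B) Ω, ∃ m : (L)ˣ, T ∈ Tor act π → ((m : L) : Ω) = y T ^ l := fun T => by
    by_cases hT : T ∈ Tor act π
    · obtain ⟨m, hm, hm0⟩ := kum_pow C he hL hT (hy T hT)
      exact ⟨Units.mk0 m hm0, fun _ => hm⟩
    · exact ⟨1, fun h => absurd h hT⟩
  choose m hm using h2
  have hm' : ∀ T ∈ Tor act π, ((m T : (L)ˣ) : L) ≠ 0 ∧ (((m T : (L)ˣ) : L) : Ω) = y T ^ l := fun T hT =>
    ⟨(m T).ne_zero, hm T hT⟩
  refine ⟨m, ?_, ?_, ?_, ?_, ?_⟩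
  · intro T hT T' hT'
    obtain ⟨z, hz0, hz⟩ := ps_add C he hL (fun T => (m T : L)) y hy hm' T hT T' hT'
    refine ⟨Units.mk0 z hz0, Units.ext ?_⟩
    push_cast
    exact hz
  · intro σ T hT
    obtain ⟨x', z, hz0, hx, hz⟩ := ps_act C he hL (fun T => (m T : L)) y hy hm' σ T hT
    refine ⟨(Units.mk0 z hz0)⁻¹, ?_⟩
    have h3 : ((z : L) : Ω) ≠ 0 := by
      exact_mod_cast hz0
    have h4 : ((((Units.mk0 z hz0)⁻¹ : (L)ˣ) : L) : Ω) = (z : Ω)⁻¹ := by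
      rw [Units.val_inv_eq_inv_val]
      push_cast
      rfl
    have h5 : σ (((m T : (L)ˣ) : L) : Ω) = (((m (ac (WAB A B) σ T) : (L)ˣ) : L) : Ω) * (z : Ω) ^ l := by
      rw [← hx, hz]
      push_cast
      rfl
    rw [h4, h5, inv_pow, mul_assoc, mul_inv_cancel₀ (pow_ne_zero l h3), mul_one]
  · intro T hT w
    obtain ⟨k, hk⟩ := ords C he hL (fun T => (m T : L)) y hy hm' T hT w
    have h3 := H55R.BF1_val w (m T)
    rw [hk] at h3
    have h4 : (l : ℤ) * k = -ord w (m T) := WithZero.exp_injective h3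
    exact ⟨-k, by linarith⟩
  · intro T hT w hwπ
    obtain ⟨V, hw⟩ := H13S.exists_above L w
    have hV : vo V π < 1 := (hw.lt _).2 hwπ
    obtain ⟨z, hz0, hz⟩ := level C he hL V hV w hw T hT (m T) (m T).ne_zero (y T) (hy T hT)
      (hm T hT).symm
    refine ⟨Units.mk0 z hz0, ?_⟩
    rw [Units.val_mul, Units.val_inv_eq_inv_val, Units.val_pow_eq_pow_val, Units.val_mk0,
      ← div_eq_mul_inv]
    exact hz
  · intro h
    refine cob_of_kum C he hL fun T hT => ?_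
    obtain ⟨z, hz⟩ := h T hT
    refine ⟨y T, hy T hT, z, ?_⟩
    rw [← hm T hT, hz]
    push_cast
    rfl

end H55K.S
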