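import Mathlib
import Pool.Agent.Lib.H55K.SDI

/-! # H55K, part S: decomposition of a Selmer class (port of H13S/S0) -/

open NumberField IsDedekindDomain WeierstrassCurve

namespace H55K.S

open H55P (IQ embF eF LF Per IsHecke Pt ac Inert Dec Nm Coc SelZero)
open H35P (WAB Ker tt)
open H13S (Abv)

variable {F : Type} [Field F] [NumberField F] [IQ F] {A B : F} {Om : ℂ} {Ω : Type} [Field Ω] [DecidableEq Ω]
  [Algebra F Ω] {j : Ω →+* ℂ} {act : 𝓞 F →+* AddMonoid.End (Pt (WAB A B) Ω)} {mo : Ideal (𝓞 F)}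
  {ψ : Ideal (𝓞 F) →*₀ 𝓞 F}

/-- Multiples of a cocycle. -/
theorem s0_cl {π : 𝓞 F} {l : ℕ} (dta : Dta A B Om j act mo ψ l) (hπ : Prime π)
    (hd : π ∣ (l : 𝓞 F)) {c : (Ω ≃ₐ[F] Ω) → Pt (WAB A B) Ω} (h1 : Coc (WAB A B) (⊥ : IntermediateField F Ω) c)
    (hloc : ∀ V : ValuationSubring Ω, ∃ P : Pt (WAB A B) Ω, ∀ s : Ω ≃ₐ[F] Ω, Inert V s →
      c s = ac (WAB A B) s P - P)
    (a : 𝓞 F) (hv : ∀ s, act (cj π) (act a (c s)) = 0) : Cl A B Om j act mo ψ π l fun s => act a (c s) := by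
  have hA := dta.cma
  have hbot : ∀ s : Ω ≃ₐ[F] Ω, s ∈ (⊥ : IntermediateField F Ω).fixingSubgroup := by
    intro s
    rw [IntermediateField.fixingSubgroup_bot]
    exact Subgroup.mem_top s
  refine ⟨dta, hπ, hd, ?_, ?_, hv, ?_⟩
  · intro s t
    show act a (c (s * t)) = act a (c s) + ac (WAB A B) s (act a (c t))
    rw [h1.mul s (hbot s) t (hbot t), map_add, ac_act hA]
  · obtain ⟨L, hL1, hL2⟩ := h1.cont
    refine ⟨L, hL1, fun s hs => ?_⟩
    show act a (c s) = 0
    rw [hL2 s (hbot s) hs, map_zero]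
  · intro V
    obtain ⟨P, hP⟩ := hloc V
    refine ⟨act a P, fun s hs => ?_⟩
    show act a (c s) = ac (WAB A B) s (act a P) - act a P
    rw [hP s hs, map_sub, ac_act hA]

/-- The Selmer group over F is zero if all classes with values in the points killed by a prime element above l are coboundaries. -/
theorem selzero_of (l : ℕ) (dta : Dta A B Om j act mo ψ l)
    (H : ∀ (π : 𝓞 F) (c : (Ω ≃ₐ[F] Ω) → Pt (WAB A B) Ω), Cl A B Om j act mo ψ π l c →
      ∃ X ∈ Tor act (cj π), ∀ s, c s = ac (WAB A B) s X - X) :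
    SelZero (WAB A B) l (⊥ : IntermediateField F Ω) := by
  have hA := dta.cma
  intro c hc hlc hloc
  have hbot : ∀ s : Ω ≃ₐ[F] Ω, s ∈ (⊥ : IntermediateField F Ω).fixingSubgroup := by
    intro s
    rw [IntermediateField.fixingSubgroup_bot]
    exact Subgroup.mem_top s
  have hloc' : ∀ V : ValuationSubring Ω, ∃ P : Pt (WAB A B) Ω, ∀ s : Ω ≃ₐ[F] Ω, Inert V s →
      c s = ac (WAB A B) s P - P := by
    intro V
    obtain ⟨P, hP⟩ := hloc V
    exact ⟨P, fun s hs => hP s (hbot s) hs⟩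
  have hlc' : ∀ s, act (l : 𝓞 F) (c s) = 0 := by
    intro s
    rw [act_nat]
    exact hlc s (hbot s)
  have hlX : ∀ X : Pt (WAB A B) Ω, act (l : 𝓞 F) X = 0 → l • X = 0 := fun X hX => by
    rwa [act_nat] at hX
  obtain ⟨π, hπ, hd⟩ := exists_prime_above (F := F) dta.prime
  rcases dichotomy dta.prime dta.unr hπ hd with ⟨h1, -, h3⟩ | ⟨h1, -, -, h4⟩
  · have hT : Tor act (cj π) = Tor act (l : 𝓞 F) := tor_assoc (h1.trans h3.symm)
    have hv : ∀ s, act (cj π) (act 1 (c s)) = 0 := by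
      intro s
      rw [act_one, ← mem_Tor, hT, mem_Tor]
      exact hlc' s
    obtain ⟨X, hX, hX2⟩ := H π _ (s0_cl dta hπ hd hc hloc' 1 hv)
    refine ⟨X, ?_, fun s _ => ?_⟩
    · rw [hT] at hX
      exact hlX X hX
    · have h4 := hX2 s
      change act (1 : 𝓞 F) (c s) = _ at h4
      rw [act_one] at h4
      exact h4
  · have hco : IsCoprime π (cj π) := (hπ.irreducible.coprime_iff_not_dvd).2 h1
    obtain ⟨a, b, hab⟩ := hco
    have hπ' : Prime (cj π) := cj_prime hπ
    have hd' : cj π ∣ (l : 𝓞 F) := by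
      rw [cj_dvd, cj_nat]
      exact hd
    have hC1 := s0_cl dta hπ hd hc hloc' (a * π) (by
      intro s
      rw [← act_mul]
      have e : cj π * (a * π) = a * (l : 𝓞 F) := by
        rw [← h4]
        ring
      rw [e, act_mul, hlc', map_zero])
    have hC2 := s0_cl dta hπ' hd' hc hloc' (b * cj π) (by
      intro s
      rw [← act_mul, cj_cj]
      have e : π * (b * cj π) = b * (l : 𝓞 F) := by
        rw [← h4]
        ring
      rw [e, act_mul, hlc', map_zero])
    obtain ⟨X, hX, hX2⟩ := H π _ hC1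
    obtain ⟨Y, hY, hY2⟩ := H (cj π) _ hC2
    rw [cj_cj] at hY
    refine ⟨X + Y, hlX _ ?_, fun s _ => ?_⟩
    · have e1 : act (l : 𝓞 F) X = 0 := by
        rw [← h4, act_mul, mem_Tor.1 hX, map_zero]
      have e2 : act (l : 𝓞 F) Y = 0 := by
        rw [← h4, mul_comm, act_mul, mem_Tor.1 hY, map_zero]
      rw [map_add, e1, e2, add_zero]
    · have h6 := hX2 s
      have h5' := hY2 s
      change act (a * π) (c s) = _ at h6
      change act (b * cj π) (c s) = _ at h5'
      have e : c s = act (a * π) (c s) + act (b * cj π) (c s) := by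
        rw [← act_add, hab, act_one]
      rw [e, h6, h5', map_add]
      abel

end H55K.S
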