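import Mathlib
import Pool.Agent.Lib.H55K.SS0
import Pool.Agent.Lib.H55K.SPS
import Pool.Agent.Lib.H55K.SHC
import Pool.Agent.Lib.H55K.K12

/-! # H55K: the Selmer group over F is zero if there are elliptic units (assembly of the parts S and K) -/

open NumberField IsDedekindDomain WeierstrassCurve

namespace H55K

open H55P (IQ embF eF LF Per IsHecke Pt ac Inert Dec Nm Coc SelZero)
open H35P (WAB Ker tt)
open H55R (Pl ord)

variable {F : Type} [Field F] [NumberField F] [IQ F] {A B : F} {Om : ℂ} {Ω : Type} [Field Ω] [DecidableEq Ω]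
  [Algebra F Ω] {j : Ω →+* ℂ} {act : 𝓞 F →+* AddMonoid.End (Pt (WAB A B) Ω)}

/-- The field generated by the points killed by a prime element. -/
theorem exists_istf [IsAlgClosure F Ω] (hA : CMA F A B Om j act) {π : 𝓞 F} (hπ : Prime π) :
    ∃ L : IntermediateField F Ω, IsTF act π L := by
  have halg : Algebra.IsAlgebraic F Ω := IsAlgClosure.isAlgebraic
  have hcard := (S.gi_gen hA π hπ).1
  have hfin : Finite (Tor act π) := by
    refine Nat.finite_of_card_ne_zero ?_
    rw [hcard]
    exact S.Nm_ne_zero' hπ.ne_zero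
  let X : Set Ω := Set.range (fun T : Tor act π => xc (T : Pt (WAB A B) Ω)) ∪
    Set.range (fun T : Tor act π => yc (T : Pt (WAB A B) Ω))
  have hXf : X.Finite := (Set.finite_range _).union (Set.finite_range _)
  have hX : Finite X := hXf.to_subtype
  refine ⟨IntermediateField.adjoin F X, ?_, fun s => ?_⟩
  · exact IntermediateField.finiteDimensional_adjoin fun x _ => (halg.isAlgebraic x).isIntegral
  · constructor
    · intro hs T hT
      by_cases h0 : T = 0
      · subst h0
        exact map_zero _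
      · have hx : s (xc T) = xc T := (IntermediateField.mem_fixingSubgroup_iff _ s).1 hs _
          (IntermediateField.subset_adjoin F X (Or.inl ⟨⟨T, hT⟩, rfl⟩))
        have hy : s (yc T) = yc T := (IntermediateField.mem_fixingSubgroup_iff _ s).1 hs _
          (IntermediateField.subset_adjoin F X (Or.inr ⟨⟨T, hT⟩, rfl⟩))
        refine S.pt_ext (S.ac_ne s h0) h0 ?_ ?_
        · rw [S.xc_ac, hx]
        · rw [S.yc_ac, hy]
    · intro hs
      rw [← Subgroup.zpowers_le, ← IntermediateField.le_iff_le, IntermediateField.adjoin_le_iff]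
      have key : ∀ x : Ω, s x = x → x ∈ IntermediateField.fixedField (Subgroup.zpowers s) := by
        intro x hx
        rw [IntermediateField.mem_fixedField_iff]
        intro g hg
        have h1 : Subgroup.zpowers s ≤ MulAction.stabilizer (Ω ≃ₐ[F] Ω) x := by
          rw [Subgroup.zpowers_le]
          exact hx
        exact h1 hg
      rintro x (⟨T, rfl⟩ | ⟨T, rfl⟩)
      · exact key _ (by rw [← S.xc_ac, hs _ T.2])
      · exact key _ (by rw [← S.yc_ac, hs _ T.2])

/-- THE SELMER GROUP OVER F IS ZERO, from the elliptic units. -/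
theorem selzero_xi [IsAlgClosure F Ω] {m : Ideal (𝓞 F)} {ψ : Ideal (𝓞 F) →*₀ 𝓞 F} {l : ℕ}
    (h : Dta A B Om j act m ψ l)
    (hX : ∀ π : 𝓞 F, Prime π → π ∣ (l : 𝓞 F) → ∃ Ξ : Pt (WAB A B) Ω → Ω, XiD act ψ π Ξ) :
    SelZero (WAB A B) l (⊥ : IntermediateField F Ω) := by
  refine S.selzero_of l h fun π c C => ?_
  obtain ⟨Ξ, hΞ⟩ := hX π C.pr C.dvd
  obtain ⟨L, hL⟩ := exists_istf h.cma C.pr
  have hfd : FiniteDimensional F L := hL.1
  have hch : CharZero L := charZero_of_injective_algebraMap (algebraMap F L).injective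
  have hQ : FiniteDimensional ℚ L := FiniteDimensional.trans ℚ F L
  have hnf : NumberField L := ⟨⟩
  obtain ⟨M, h1, h2, h3, h4, h5⟩ := S.partS C (L := L) hL
  exact h5 (geom_main h hΞ C.pr C.dvd (S.hcyc_not h C.pr C.dvd) L hL M h1 h2 h3 h4)

end H55K
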