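import Mathlib
import Pool.Agent.Lib.H35P.B1
import Pool.Agent.Lib.H35P.Red
import Pool.Agent.Lib.H55P.EDef
import Pool.Agent.Lib.H55P.S4
import Pool.Agent.Lib.H55P.TD

/-! # H55K: Selmer groups of the two equations -/

open NumberField IsDedekindDomain WeierstrassCurve

namespace H55K

open H55P (IQ embF eF LF Per IsHecke Pt ac Inert Dec Nm)
open H35P (WAB Ker tt)


variable {F : Type} [Field F] [NumberField F] [IQ F]

omit [NumberField F] [IQ F] in
theorem y6_transport {Ω : Type} [Field Ω] [DecidableEq Ω] [Algebra F Ω] {W W' : WeierstrassCurve F} (p : ℕ)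
    (K : IntermediateField F Ω) (φ : Pt W Ω ≃+ Pt W' Ω) (hφ : ∀ s P, φ (ac W s P) = ac W' s (φ P))
    (h : H55P.SelZero W' p K) : H55P.SelZero W p K := by
  intro c hc hp hV
  have h1 : H55P.Coc W' K (fun s => φ (c s)) := by
    refine ⟨?_, ?_⟩
    · intro s hs t ht
      show φ (c (s * t)) = φ (c s) + ac W' s (φ (c t))
      rw [hc.mul s hs t ht, map_add, hφ]
    · obtain ⟨L, hL, hL2⟩ := hc.cont
      refine ⟨L, hL, fun s hs hs2 => ?_⟩
      show φ (c s) = 0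
      rw [hL2 s hs hs2, map_zero]
  obtain ⟨T, hT1, hT2⟩ := h (fun s => φ (c s)) h1 (fun s hs => by
      show p • φ (c s) = 0
      rw [← map_nsmul, hp s hs, map_zero]) (fun V => by
      obtain ⟨P, hP⟩ := hV V
      refine ⟨φ P, fun s hs hI => ?_⟩
      show φ (c s) = ac W' s (φ P) - φ P
      rw [hP s hs hI, map_sub, hφ])
  refine ⟨φ.symm T, ?_, fun s hs => ?_⟩
  · apply φ.injective
    rw [map_nsmul, φ.apply_symm_apply, hT1, map_zero]
  · apply φ.injective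
    rw [map_sub, hφ, φ.apply_symm_apply]
    exact hT2 s hs

theorem y6_delta {k : Type} [Field k] {W : WeierstrassCurve k} {A B s t β : k}
    (D : H55P.PS4_D W (WAB A B) β s t) : (WAB A B).Δ = W.Δ := by
  have h1 := D.h1
  have h3 := D.h3
  have h2 : W.a₂ = 3 * β - s ^ 2 := by linear_combination -D.h2
  have h4' : A = W.a₄ + 2 * s * t - 3 * β ^ 2 := D.h4
  have h6' : B = W.a₆ + t ^ 2 - β ^ 3 - A * β := D.h6
  have h4 : W.a₄ = A - 2 * s * t + 3 * β ^ 2 := by rw [h4']; ring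
  have h6 : W.a₆ = B - t ^ 2 + β ^ 3 + A * β := by linear_combination -h6'
  simp only [WeierstrassCurve.Δ, WeierstrassCurve.b₂, WeierstrassCurve.b₄, WeierstrassCurve.b₆,
    WeierstrassCurve.b₈]
  rw [← h1, ← h3, h2, h4, h6]
  simp only [WAB]
  ring

/-- Chunk Y6 (S/M). PS4_D (W₀⁄F) (WAB A B) β s t (H55P/S4.lean) with s = a₁/2, t = a₃/2, β = (a₂ + s^2)/3; PS4_map, PS4_iso over Ω: the isomorphism φ adds elements of F to the coordinates, so φ (ac s P) = ac s (φ P). A cocycle c of W₀ gives φ ∘ c; all the conditions of SelZero are transported. (Both curves are elliptic: hΔ.) -/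
theorem sel_short {F : Type} [Field F] [NumberField F] (W₀ : WeierstrassCurve (𝓞 F)) {A B : F}
    (hA : A = -(algebraMap (𝓞 F) F W₀.c₄) / 48) (hB : B = -(algebraMap (𝓞 F) F W₀.c₆) / 864)
    (hΔ : W₀.Δ ≠ 0) {Ω : Type} [Field Ω] [DecidableEq Ω] [Algebra F Ω] (p : ℕ) (K : IntermediateField F Ω)
    (h : H55P.SelZero (WAB A B) p K) : H55P.SelZero (W₀⁄F) p K := by
  obtain ⟨W, hW⟩ : ∃ W : WeierstrassCurve F, W = (W₀⁄F) := ⟨_, rfl⟩
  have hc4 : W.c₄ = algebraMap (𝓞 F) F W₀.c₄ := by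
    rw [hW]
    exact W₀.map_c₄ (algebraMap (𝓞 F) F)
  have hc6 : W.c₆ = algebraMap (𝓞 F) F W₀.c₆ := by
    rw [hW]
    exact W₀.map_c₆ (algebraMap (𝓞 F) F)
  have hWΔ : W.Δ ≠ 0 := by
    rw [hW]
    intro h0
    apply hΔ
    have h1 : (W₀⁄F).Δ = algebraMap (𝓞 F) F W₀.Δ := W₀.map_Δ (algebraMap (𝓞 F) F)
    rw [h1] at h0
    exact (map_eq_zero_iff _ (IsFractionRing.injective (𝓞 F) F)).1 h0
  rw [← hc4] at hA
  rw [← hc6] at hB
  have D : H55P.PS4_D W (WAB A B) ((W.a₂ + (W.a₁ / 2) ^ 2) / 3) (W.a₁ / 2) (W.a₃ / 2) := by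
    refine ⟨rfl, rfl, rfl, ?_, ?_, ?_, ?_, ?_⟩
    · field_simp
    · field_simp
    · field_simp
    · show A = _
      rw [hA, WeierstrassCurve.c₄, WeierstrassCurve.b₂, WeierstrassCurve.b₄]
      ring
    · show B = _ - A * _
      rw [hB, hA, WeierstrassCurve.c₄, WeierstrassCurve.c₆, WeierstrassCurve.b₂, WeierstrassCurve.b₄, WeierstrassCurve.b₆]
      ring
  have hd := y6_delta D
  have i1 : W.IsElliptic := ⟨isUnit_iff_ne_zero.2 hWΔ⟩
  have i2 : (WAB A B).IsElliptic := ⟨isUnit_iff_ne_zero.2 (by rw [hd]; exact hWΔ)⟩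
  have i3 : (W⁄Ω).IsElliptic := inferInstanceAs (W.map (algebraMap F Ω)).IsElliptic
  have i4 : ((WAB A B)⁄Ω).IsElliptic := inferInstanceAs ((WAB A B).map (algebraMap F Ω)).IsElliptic
  rw [← hW]
  refine y6_transport p K (H55P.PS4_iso (H55P.PS4_map (Ω := Ω) D)) ?_ h
  intro f P
  rcases P with _ | ⟨x, y, h'⟩
  · rfl
  · have e1 : f (algebraMap F Ω ((W.a₂ + (W.a₁ / 2) ^ 2) / 3)) = algebraMap F Ω ((W.a₂ + (W.a₁ / 2) ^ 2) / 3) :=
      f.commutes _
    have e2 : f (algebraMap F Ω (W.a₁ / 2)) = algebraMap F Ω (W.a₁ / 2) := f.commutes _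
    have e3 : f (algebraMap F Ω (W.a₃ / 2)) = algebraMap F Ω (W.a₃ / 2) := f.commutes _
    change Affine.Point.some _ _ _ = Affine.Point.some _ _ _
    rw [Affine.Point.some.injEq]
    constructor
    · change f x + algebraMap F Ω ((W.a₂ + (W.a₁ / 2) ^ 2) / 3) = f (x + algebraMap F Ω ((W.a₂ + (W.a₁ / 2) ^ 2) / 3))
      rw [map_add, e1]
    · change f y + algebraMap F Ω (W.a₁ / 2) * f x + algebraMap F Ω (W.a₃ / 2) =
        f (y + algebraMap F Ω (W.a₁ / 2) * x + algebraMap F Ω (W.a₃ / 2))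
      rw [map_add, map_add, map_mul, e2, e3]

end H55K
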