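import Mathlib
import Pool.Agent.Lib.H35P.R2
import Pool.Agent.Lib.H55K.D1
import Pool.Agent.Lib.H55K.M0
import Pool.Agent.Lib.H55K.M2B
import Pool.Agent.Lib.H55P.Stm

/-! # H55K: part R: the field generated by F over a field K -/

open NumberField IsDedekindDomain WeierstrassCurve

namespace H55K.TQ

open H55P (IQ embF eF LF Per IsHecke Pt ac Inert Dec Nm UnitP)
open H35P (WAB Ker tt GoodW IntW)
open H55K.MG (VC Crd)

/-- K is the quadratic extension of K₀ generated by F; there is an automorphism of K over K₀ which is the complex conjugation on F. -/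
structure QuadG (F K₀ K : Type) [Field F] [NumberField F] [IQ F] [Field K₀] [NumberField K₀] [Field K] [NumberField K]
    [Algebra F K] [Algebra K₀ K] : Prop where
  rank : Module.finrank K₀ K = 2
  tau : ∃ τ : K ≃ₐ[K₀] K, ∀ x : 𝓞 F, τ (algebraMap F K (x : F)) = algebraMap F K ((cj x : 𝓞 F) : F)

variable (F : Type) [Field F] [NumberField F] [IQ F] {Ω : Type} [Field Ω] [Algebra F Ω] [Algebra ℚ Ω] [IsScalarTower ℚ F Ω]

/-- The field generated by F and the image of K. -/
noncomputable def KG (K : Type) [Field K] [NumberField K] (ι : K →ₐ[ℚ] Ω) : IntermediateField F Ω :=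
  IntermediateField.adjoin F (Set.range ι)

/-- K as a subfield of KG. -/
noncomputable def KGmap (K : Type) [Field K] [NumberField K] (ι : K →ₐ[ℚ] Ω) : K →+* KG F K ι where
  toFun x := ⟨ι x, IntermediateField.subset_adjoin F _ ⟨x, rfl⟩⟩
  map_one' := Subtype.ext (map_one ι)
  map_mul' x y := Subtype.ext (map_mul ι x y)
  map_zero' := Subtype.ext (map_zero ι)
  map_add' x y := Subtype.ext (map_add ι x y)

end H55K.TQ
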