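import Mathlib
import Pool.Agent.Lib.H55K.RD
import Pool.Agent.Lib.H55P.Fin

/-! # H55K: fields inside the algebraic closure -/

open NumberField IsDedekindDomain WeierstrassCurve

namespace H55K.TQ

open H55P (IQ embF eF LF Per IsHecke Pt ac Inert Dec Nm UnitP)
open H35P (WAB Ker tt GoodW IntW)
open H55K.MG (VC Crd)

/-- Chunk FB1 (S). Port of H55P.pext_range, rat_tower, alg_QFB (H55P/Fin.lean). -/
theorem tower_QFF (F : Type) [Field F] [NumberField F] : IsScalarTower ℚ F (AlgebraicClosure F) :=
  H55P.rat_tower F (AlgebraicClosure F)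

theorem alg_QFF (F : Type) [Field F] [NumberField F] : Algebra.IsAlgebraic ℚ (AlgebraicClosure F) := by
  have h := tower_QFF F
  exact Algebra.IsAlgebraic.trans ℚ F (AlgebraicClosure F)

theorem pextF_range {F : Type} [Field F] [NumberField F] (p : ℕ) (hp : p.Prime) (L : Type) [Field L] [NumberField L] [Algebra F L] (hG : IsGalois F L)
    (k : ℕ) (hk : Module.finrank F L = p ^ k) (j : L →ₐ[F] AlgebraicClosure F) : H55P.PExt p ⊥ j.fieldRange := by
  let E : L ≃ₐ[F] j.fieldRange := AlgEquiv.ofInjectiveField j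
  have hfL : FiniteDimensional F L := Module.finite_of_finrank_pos (by rw [hk]; exact pow_pos hp.pos k)
  have hn : Normal F j.fieldRange := Normal.of_algEquiv E
  refine ⟨Module.Finite.equiv E.toLinearEquiv, bot_le, fun s _ x hx => ?_, k, ?_⟩
  · have h1 := (IntermediateField.normal_iff_forall_map_le' (K := j.fieldRange)).1 hn s
    exact h1 ⟨x, hx, rfl⟩
  · rw [IntermediateField.finrank_bot, one_mul, ← hk]
    exact E.toLinearEquiv.finrank_eq.symm

/-- Chunk FB1 (S/M). The beginning of bsdP_of and crit_sub (H55P/Fin.lean, I7.lean): j : L → Ω over F, L' the range of j, ι = j composed with K → L. UnrP for the range: UnrP.down with the inverse isomorphism; RamF: H55P.ramF_range (Z13.lean). -/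
theorem sub_setup {F : Type} [Field F] [NumberField F] [IQ F] (p : ℕ) (hp : p.Prime) (K L : Type) [Field K] [NumberField K] [Field L] [NumberField L]
    [Algebra F L] [Algebra K L] (hG : IsGalois F L) (k : ℕ) (hk : Module.finrank F L = p ^ k) (hU : H55P.UnrP p L) :
    ∃ (L' : IntermediateField F (AlgebraicClosure F)) (_ : NumberField L') (ι : K →ₐ[ℚ] AlgebraicClosure F),
      H55P.PExt p ⊥ L' ∧ H55P.UnrP p L' ∧ KG F K ι ≤ L' ∧
      ∀ v : HeightOneSpectrum (𝓞 F), H55P.RamF L' v.asIdeal →
        ∃ w : HeightOneSpectrum (𝓞 L), v.asIdeal = w.asIdeal.under (𝓞 F) ∧ w.asIdeal.ramificationIdx (𝓞 F) ≠ 1 := by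
  have hfL : FiniteDimensional F L := Module.finite_of_finrank_pos (by rw [hk]; exact pow_pos hp.pos k)
  let j : L →ₐ[F] AlgebraicClosure F := IsAlgClosed.lift
  have hL : H55P.PExt p ⊥ j.fieldRange := pextF_range p hp L hG k hk j
  have hLf : FiniteDimensional F j.fieldRange := hL.fin
  have hLn : NumberField j.fieldRange := NumberField.of_module_finite F j.fieldRange
  let ι₀ : K →+* AlgebraicClosure F := j.toRingHom.comp (algebraMap K L)
  let ι : K →ₐ[ℚ] AlgebraicClosure F := ι₀.toRatAlgHom
  refine ⟨j.fieldRange, hLn, ι, hL, ?_, ?_, fun v h => H55P.ramF_range L j v h⟩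
  · letI : Algebra j.fieldRange L :=
      (AlgEquiv.ofInjectiveField j).symm.toRingEquiv.toRingHom.toAlgebra
    exact H55P.UnrP.down j.fieldRange L p hp hU
  · unfold KG
    rw [IntermediateField.adjoin_le_iff]
    rintro _ ⟨x, rfl⟩
    exact ⟨algebraMap K L x, rfl⟩

end H55K.TQ
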