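import Mathlib
import Pool.Agent.Lib.H55K.BH1
import Pool.Agent.Lib.H55K.Y7D
import Pool.Agent.Lib.H55P.S14

/-! # H55K: Selmer groups over K -/

open NumberField IsDedekindDomain WeierstrassCurve

namespace H55K.TQ

open H55P (IQ embF eF LF Per IsHecke Pt ac Inert Dec Nm UnitP)
open H35P (WAB Ker tt GoodW IntW)
open H55K.MG (VC Crd)

variable {F : Type} [Field F] [NumberField F] [IQ F] {W : WeierstrassCurve ℤ} {Om : ℂ}
    {m : Ideal (𝓞 F)} {ψ : Ideal (𝓞 F) →*₀ 𝓞 F} {p : ℕ}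

/-- Chunk FB9A (S/M). exists_goodG (Y7), tors_of_prime, tors_tower (H55P/S14.lean), as in gen_sel (H55P/Gen.lean). -/
theorem tors_K {W₀ : WeierstrassCurve (𝓞 F)} (hH : BaseH F W₀ Om m ψ) (hp : PrimeH F W₀ p) {L K : IntermediateField F (AlgebraicClosure F)}
    [DecidableEq (AlgebraicClosure F)] (hL : H55P.PExt p ⊥ L) (hK : K ≤ L) (T : Pt (W₀⁄F) (AlgebraicClosure F)) (hT : p • T = 0)
    (hf : ∀ s ∈ K.fixingSubgroup, ac (W₀⁄F) s T = T) : T = 0 := by
  have hb := base_of hH hp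
  have hbn : NumberField (⊥ : IntermediateField F (AlgebraicClosure F)) := H16C.FR_numberField _
  obtain ⟨v, hv⟩ := exists_goodG hp.prime hp.five hb.unr hH.data.hecke W₀ hH.data.ell
    hb.cop.of_mul_left_right hb.deu
  have hE : (W₀⁄F).IsElliptic := by
    have e : (W₀⁄F).Δ = algebraMap (𝓞 F) F W₀.Δ := W₀.map_Δ (algebraMap (𝓞 F) F)
    rw [WeierstrassCurve.isElliptic_iff, e]
    exact IsUnit.mk0 _ fun h0 =>
      hH.data.ell ((map_eq_zero_iff _ (FaithfulSMul.algebraMap_injective (𝓞 F) F)).1 h0)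
  exact H55P.tors_tower (W₀⁄F) p hp.prime ⊥ L hL
    (fun T hT hf => H55P.tors_of_prime W₀ p hp.prime ⊥ v hv.disc hv.res hv.pts T hT hf) K hK T hT hf

end H55K.TQ
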