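import Mathlib
import Pool.Agent.Lib.H55K.RD

/-! # H55K: the field generated by F over a field K -/

open NumberField IsDedekindDomain WeierstrassCurve

namespace H55K.TQ

open H55P (IQ embF eF LF Per IsHecke Pt ac Inert Dec Nm UnitP)
open H35P (WAB Ker tt GoodW IntW)
open H55K.MG (VC Crd)

variable (F : Type) [Field F] [NumberField F] [IQ F] {Ω : Type} [Field Ω] [Algebra F Ω] [Algebra ℚ Ω] [IsScalarTower ℚ F Ω]

/-- Chunk RP1 (S). -/
theorem kg_le (K : Type) [Field K] [NumberField K] (ι : K →ₐ[ℚ] Ω) :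
    ι.fieldRange ≤ (KG F K ι).restrictScalars ℚ := by
  rintro _ ⟨x, rfl⟩
  exact IntermediateField.subset_adjoin F _ ⟨x, rfl⟩

/-- Chunk RP1 (S/M). F/ℚ is quadratic, so normal: s maps the image of F in Ω to itself (every element of the image is a root of its minimal polynomial over ℚ, whose roots are in F); s fixes the range of ι; adjoin induction (H55P.pz14_stable in Z14.lean). -/
theorem kg_stable (K : Type) [Field K] [NumberField K] (ι : K →ₐ[ℚ] Ω)
    (s : Ω ≃ₐ[ℚ] Ω) (hs : ∀ x : K, s (ι x) = ι x) (y : Ω) (hy : y ∈ KG F K ι) : s y ∈ KG F K ι := by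
  have halg : ∀ x : F, s (algebraMap F Ω x) ∈ KG F K ι := by
    intro x
    have hq : Algebra.IsQuadraticExtension ℚ F := ⟨IQ.deg⟩
    have hn : Normal ℚ F := Algebra.IsQuadraticExtension.normal ℚ F
    rw [← AlgEquiv.restrictNormal_commutes s F x]
    exact (KG F K ι).algebraMap_mem _
  refine IntermediateField.adjoin_induction F (p := fun x _ => s x ∈ KG F K ι) ?_ ?_ ?_ ?_ ?_ hy
  · rintro _ ⟨x, rfl⟩
    rw [hs x]
    exact IntermediateField.subset_adjoin F _ ⟨x, rfl⟩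
  · intro x
    exact halg x
  · intro x y _ _ h1 h2
    rw [map_add]
    exact add_mem h1 h2
  · intro x _ h1
    rw [map_inv₀]
    exact inv_mem h1
  · intro x y _ _ h1 h2
    rw [map_mul]
    exact mul_mem h1 h2

/-- Chunk RP1 (S/M). Port of H55P.kf_norm (Z14.lean). -/
theorem kg_norm (K : Type) [Field K] [NumberField K] (ι : K →ₐ[ℚ] Ω)
    (s : Ω ≃ₐ[ℚ] Ω) (hs : s ∈ ι.fieldRange.fixingSubgroup) (t : Ω ≃ₐ[ℚ] Ω)
    (ht : t ∈ ((KG F K ι).restrictScalars ℚ).fixingSubgroup) :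
    s * t * s⁻¹ ∈ ((KG F K ι).restrictScalars ℚ).fixingSubgroup := by
  rw [IntermediateField.mem_fixingSubgroup_iff] at hs ht ⊢
  intro y hy
  have hs' : ∀ x : K, s⁻¹ (ι x) = ι x := by
    intro x
    have h1 : s (ι x) = ι x := hs (ι x) ⟨x, rfl⟩
    have h2 : s⁻¹ (s (ι x)) = ι x := s.symm_apply_apply _
    rwa [h1] at h2
  have h1 : s⁻¹ y ∈ KG F K ι := kg_stable F K ι s⁻¹ hs' y hy
  have h2 : t (s⁻¹ y) = s⁻¹ y := ht (s⁻¹ y) h1
  change s (t (s⁻¹ y)) = y
  rw [h2]
  exact s.apply_symm_apply _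

end H55K.TQ
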