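import Mathlib
import Pool.Agent.Lib.H55K.FB1
import Pool.Agent.Lib.H55K.FB9A
import Pool.Agent.Lib.H55K.RP1

/-! # H55K: Selmer groups over K -/

open NumberField IsDedekindDomain WeierstrassCurve

namespace H55K.TQ

open H55P (IQ embF eF LF Per IsHecke Pt ac Inert Dec Nm UnitP)
open H35P (WAB Ker tt GoodW IntW)
open H55K.MG (VC Crd)

variable {F : Type} [Field F] [NumberField F] [IQ F] {W : WeierstrassCurve ℤ} {Om : ℂ}
    {m : Ideal (𝓞 F)} {ψ : Ideal (𝓞 F) →*₀ 𝓞 F} {p : ℕ}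

theorem fb9b_map {A B : Type} [CommRing A] [CommRing B] [Algebra A B] (W : WeierstrassCurve ℤ) :
    (W⁄A)⁄B = W⁄B :=
  (WeierstrassCurve.map_map W (algebraMap ℤ A) (algebraMap A B)).trans
    (congrArg W.map (RingHom.ext_int _ _))

open Classical in
/-- The groups of points over K and over its image. -/
theorem fb9b_pts {Ω : Type} [Field Ω] [Algebra ℚ Ω] (W : WeierstrassCurve ℚ) (K : Type) [Field K] [Algebra ℚ K]
    (ι : K →ₐ[ℚ] Ω) (p : ℕ)
    (h : Finite (Pt W ι.fieldRange) ∧ ¬ p ∣ Nat.card (Pt W ι.fieldRange)) :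
    Finite (Pt W K) ∧ ¬ p ∣ Nat.card (Pt W K) := by
  let e0 : K →+* ι.fieldRange :=
    { toFun := fun x => ⟨ι x, ⟨x, rfl⟩⟩
      map_one' := Subtype.ext (map_one ι)
      map_mul' := fun x y => Subtype.ext (map_mul ι x y)
      map_zero' := Subtype.ext (map_zero ι)
      map_add' := fun x y => Subtype.ext (map_add ι x y) }
  have hs : Function.Surjective e0 := by
    rintro ⟨_, y, rfl⟩
    exact ⟨y, rfl⟩
  let e1 : K ≃+* ι.fieldRange := RingEquiv.ofBijective e0 ⟨e0.injective, hs⟩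
  have e : K ≃ₐ[ℚ] ι.fieldRange := AlgEquiv.ofRingEquiv (f := e1) (fun q => by
    rw [eq_ratCast, map_ratCast, eq_ratCast])
  have h1 : Function.Injective (Affine.Point.map (W' := W.toAffine) e.toAlgHom) :=
    Affine.Point.map_injective _
  have h2 : Function.Injective (Affine.Point.map (W' := W.toAffine) e.symm.toAlgHom) :=
    Affine.Point.map_injective _
  have hf : Finite (Pt W K) := by
    have := h.1
    exact Finite.of_injective _ h1
  refine ⟨hf, ?_⟩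
  have := h.1
  have h3 : Nat.card (Pt W K) = Nat.card (Pt W ι.fieldRange) :=
    le_antisymm (Nat.card_le_card_of_injective _ h1) (Nat.card_le_card_of_injective _ h2)
  rw [h3]
  exact h.2

/-- Chunk FB9B (M). As in H55P.bsdP_of (Fin.lean), with W⁄ℚ for E27: sel_base, tors_base, sel_down (Z11.lean) with kg_le, kg_norm (RP1.lean) and tors_K, sel_transport, sha_transport, sha_zero, pts_fin, pts_congr. The curves (W⁄ℚ)⁄F and (W⁄(𝓞 F))⁄F agree (map_map), also (W⁄ℚ)⁄K = W⁄K. -/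
theorem sel_abs (hH : BaseH F (W⁄(𝓞 F)) Om m ψ) (hp : PrimeH F (W⁄(𝓞 F)) p) {L : IntermediateField F (AlgebraicClosure F)}
    (hL : H55P.PExt p ⊥ L) (K : Type) [Field K] [NumberField K] (ι : K →ₐ[ℚ] AlgebraicClosure F) (hK : KG F K ι ≤ L)
    (hS : H55P.SelG p (W⁄(𝓞 F)) (KG F K ι)) :
    H55P.SelTriv (W⁄K) p ∧ H55P.ShaTriv (W⁄K) p ∧
      Finite (W⁄K).toAffine.Point ∧ ¬ p ∣ Nat.card (W⁄K).toAffine.Point := by
  classical
  have hQF := tower_QFF F
  have hQA := alg_QFF F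
  have hLf : FiniteDimensional F L := hL.fin
  have hK'f : FiniteDimensional F (KG F K ι) := H55P.finDim_of_le hK
  have hd : W.Δ ≠ 0 := by
    intro h
    apply hH.data.ell
    have e := WeierstrassCurve.map_Δ W (algebraMap ℤ (𝓞 F))
    rw [h, map_zero] at e
    exact e
  have hell : (W⁄ℚ).IsElliptic := by
    rw [WeierstrassCurve.isElliptic_iff]
    have e := WeierstrassCurve.map_Δ W (algebraMap ℤ ℚ)
    refine IsUnit.mk0 _ ?_
    intro h
    apply hd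
    have h1 : (algebraMap ℤ ℚ) W.Δ = 0 := e.symm.trans h
    rw [eq_intCast] at h1
    exact_mod_cast h1
  have e1 : ((W⁄ℚ)⁄F) = ((W⁄(𝓞 F))⁄F) := by
    rw [fb9b_map, fb9b_map]
  have hS0 : H55P.SelZero ((W⁄ℚ)⁄F) p (KG F K ι) := by
    rw [e1]
    exact hS
  have hS1 : H55P.SelZero (W⁄ℚ) p ((KG F K ι).restrictScalars ℚ) :=
    H55P.sel_base (F := F) (W⁄ℚ) p (KG F K ι) hS0
  have hT0 : ∀ T : Pt ((W⁄ℚ)⁄F) (AlgebraicClosure F), p • T = 0 →
      (∀ s ∈ (KG F K ι).fixingSubgroup, ac ((W⁄ℚ)⁄F) s T = T) → T = 0 := by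
    rw [e1]
    exact tors_K hH hp hL hK
  have hT1 : ∀ T : Pt (W⁄ℚ) (AlgebraicClosure F), p • T = 0 →
      (∀ s ∈ ((KG F K ι).restrictScalars ℚ).fixingSubgroup, ac (W⁄ℚ) s T = T) → T = 0 :=
    H55P.tors_base (F := F) (W⁄ℚ) p (KG F K ι) hT0
  have hKQ : FiniteDimensional ℚ ((KG F K ι).restrictScalars ℚ) := by
    have : FiniteDimensional ℚ (KG F K ι) := Module.Finite.trans F (KG F K ι)
    exact this
  have hS2 : H55P.SelZero (W⁄ℚ) p ι.fieldRange :=
    H55P.sel_down (W⁄ℚ) p ι.fieldRange ((KG F K ι).restrictScalars ℚ) (kg_le F K ι) (kg_norm F K ι) hT1 hS1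
  have hfr : FiniteDimensional ℚ ι.fieldRange :=
    Module.Finite.equiv (AlgEquiv.ofInjectiveField ι).toLinearEquiv
  have hpt := fb9b_pts (W⁄ℚ) K ι p (H55P.pts_fin (W⁄ℚ) p hp.prime ι.fieldRange hS2)
  have hsel := H55P.sel_transport (W⁄ℚ) p K ι hS2
  have hsha := H55P.sha_transport (W⁄ℚ) p K ι (H55P.sha_zero (W⁄ℚ) p hp.prime _ hS2)
  have e2 : ((W⁄ℚ)⁄K) = (W⁄K) := fb9b_map W
  change Finite ((W⁄ℚ)⁄K).toAffine.Point ∧ ¬ p ∣ Nat.card ((W⁄ℚ)⁄K).toAffine.Point at hpt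
  rw [e2] at hpt hsel hsha
  exact ⟨hsel, hsha, hpt.1, hpt.2⟩

end H55K.TQ
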