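import Mathlib
import Pool.Agent.Lib.H13Y.D2

/-! # H55K: descent of a nonzero Selmer class along a quadratic extension (port of H13Y.non_desc with the square root of -d) -/

open NumberField IsDedekindDomain WeierstrassCurve

namespace H55K.TQ

open H55P (Pt ac Inert Dec Coc)
open H13Z (SelNon)
open H13Y (cor_two)

theorem nk_desc {k : Type} [Field k] {Ω : Type} [Field Ω] [DecidableEq Ω] [Algebra k Ω] [IsAlgClosure k Ω]
    [CharZero k] (W : WeierstrassCurve k) {p : ℕ} (hp : p.Prime) (hp2 : p ≠ 2)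
    {K K₁ : IntermediateField k Ω} [FiniteDimensional k K₁] (hK : K ≤ K₁)
    (hn : ∀ s ∈ K.fixingSubgroup, ∀ x ∈ K₁, s x ∈ K₁) (S : Pt W Ω →+ Pt W Ω) (d : ℕ) (hd : ¬ p ∣ d)
    (hS : ∀ P, S (S P) = -(d • P)) (ω ω' : Ω)
    (hω : ∀ s ∈ K.fixingSubgroup, s ∈ K₁.fixingSubgroup ↔ s ω = ω)
    (hω2 : ∀ s : Ω ≃ₐ[k] Ω, s ω = ω ∨ s ω = ω') (hω3 : ∀ s : Ω ≃ₐ[k] Ω, s ω = ω' → s ω' = ω)
    (h1 : ∀ s : Ω ≃ₐ[k] Ω, s ω = ω → ∀ P, ac W s (S P) = S (ac W s P))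
    (h2 : ∀ s : Ω ≃ₐ[k] Ω, s ω ≠ ω → ∀ P, ac W s (S P) = -S (ac W s P)) (h : SelNon W p K₁) :
    SelNon W p K := by
  have hle : K₁.fixingSubgroup ≤ K.fixingSubgroup := IntermediateField.fixingSubgroup_antitone hK
  obtain ⟨c, hc, hpc, hV, hT⟩ := h
  by_cases hall : ∀ s ∈ K.fixingSubgroup, s ω = ω
  · have hiff : ∀ s, s ∈ K.fixingSubgroup ↔ s ∈ K₁.fixingSubgroup :=
      fun s => ⟨fun hs => (hω s hs).2 (hall s hs), fun hs => hle hs⟩
    refine ⟨c, ⟨fun s hs t ht => hc.mul s ((hiff s).1 hs) t ((hiff t).1 ht), ?_⟩,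
      fun s hs => hpc s ((hiff s).1 hs), ?_, ?_⟩
    · obtain ⟨L, hL, h3⟩ := hc.cont
      exact ⟨L, hL, fun s hs => h3 s ((hiff s).1 hs)⟩
    · intro V hVt
      obtain ⟨P, hP⟩ := hV V hVt
      exact ⟨P, fun s hs => hP s ((hiff s).1 hs)⟩
    · rintro ⟨T, hT1, hT2⟩
      exact hT ⟨T, hT1, fun s hs => hT2 s ((hiff s).2 hs)⟩
  push Not at hall
  obtain ⟨τ, hτ, hτω⟩ := hall
  have hτ1 : τ ∉ K₁.fixingSubgroup := fun h => hτω ((hω τ hτ).1 h)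
  have hτ' : τ ω = ω' := (hω2 τ).resolve_left hτω
  have h22 : ∀ s ∈ K.fixingSubgroup, s ∉ K₁.fixingSubgroup → s * τ ∈ K₁.fixingSubgroup ∧
      τ⁻¹ * s ∈ K₁.fixingSubgroup := by
    intro s hs hs1
    have hsω : s ω = ω' := (hω2 s).resolve_left fun h => hs1 ((hω s hs).2 h)
    constructor
    · refine (hω _ (mul_mem hs hτ)).2 ?_
      show s (τ ω) = ω
      rw [hτ']
      exact hω3 s hsω
    · refine (hω _ (mul_mem (inv_mem hτ) hs)).2 ?_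
      show τ⁻¹ (s ω) = ω
      rw [hsω, ← hτ']
      exact τ.symm_apply_apply ω
  have hfixω : ∀ s ∈ K₁.fixingSubgroup, s ω = ω := fun s hs => (hω s (hle hs)).1 hs
  have hp2' : p % 2 = 1 := by
    rcases hp.eq_two_or_odd with h3 | h3
    · exact absurd h3 hp2
    · exact h3
  by_contra hcon
  have key : ∀ C : (Ω ≃ₐ[k] Ω) → Pt W Ω, Coc W K C → (∀ s ∈ K.fixingSubgroup, p • C s = 0) →
      (∀ V : ValuationSubring Ω, V ≠ ⊤ → ∃ P : Pt W Ω, ∀ s ∈ K.fixingSubgroup, Dec V s →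
        C s = ac W s P - P) → ∃ T : Pt W Ω, p • T = 0 ∧ ∀ s ∈ K.fixingSubgroup, C s = ac W s T - T := by
    intro C h3 h4 h5
    by_contra h6
    exact hcon ⟨C, h3, h4, h5, h6⟩
  obtain ⟨C₁, a1, a2, a3, a4⟩ := cor_two W hp2' hK hn hτ hτ1 h22 hc hpc hV
  have hSc : Coc W K₁ fun s => S (c s) := by
    refine ⟨fun s hs t ht => ?_, ?_⟩
    · rw [hc.mul s hs t ht, map_add, h1 s (hfixω s hs)]
    · obtain ⟨L, hL, h3⟩ := hc.cont
      exact ⟨L, hL, fun s hs hs' => by rw [h3 s hs hs', map_zero]⟩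
  obtain ⟨C₂, b1, b2, b3, b4⟩ := cor_two W hp2' hK hn hτ hτ1 h22 hSc
    (fun s hs => by rw [← map_nsmul, hpc s hs, map_zero]) (fun V hVt => by
      obtain ⟨P, hP⟩ := hV V hVt
      exact ⟨S P, fun s hs hs' => by rw [hP s hs hs', map_sub, h1 s (hfixω s hs)]⟩)
  obtain ⟨T₁, hT₁, hT₁'⟩ := key C₁ a1 a2 a3
  obtain ⟨T₂, hT₂, hT₂'⟩ := key C₂ b1 b2 b3
  obtain ⟨Y, hY⟩ : ∃ Y, Y = S (S T₁ + T₂) := ⟨_, rfl⟩
  have hpY : p • Y = 0 := by
    rw [hY, ← map_nsmul, smul_add, ← map_nsmul, hT₁, hT₂, map_zero, add_zero, map_zero]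
  have hmain : ∀ s ∈ K₁.fixingSubgroup, -((2 * d) • c s) = ac W s Y - Y := by
    intro s hs
    have e1 := a4 s hs
    have e2 := b4 s hs
    rw [hT₁' s (hle hs)] at e1
    rw [hT₂' s (hle hs), h2 τ hτω] at e2
    have e3 := congrArg S e1
    rw [map_sub, map_add, ← h1 s (hfixω s hs)] at e3
    have e4 : S (c s) + S (c s) = ac W s (S T₁ + T₂) - (S T₁ + T₂) := by
      rw [map_add]
      have e5 : ac W s (S T₁) + ac W s T₂ - (S T₁ + T₂) = (ac W s (S T₁) - S T₁) + (ac W s T₂ - T₂) := by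
        abel
      rw [e5, e3, e2]
      abel
    have e6 := congrArg S e4
    rw [map_add, hS, map_sub, ← h1 s (hfixω s hs), ← hY] at e6
    rw [← e6, two_mul, add_smul]
    abel
  have hcop : IsCoprime ((p : ℕ) : ℤ) (((2 * d : ℕ)) : ℤ) := by
    have h3 : Nat.Coprime p (2 * d) := by
      rw [Nat.Prime.coprime_iff_not_dvd hp]
      intro h4
      rcases (Nat.Prime.dvd_mul hp).1 h4 with h5 | h5
      · exact hp2 ((Nat.prime_dvd_prime_iff_eq hp Nat.prime_two).1 h5)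
      · exact hd h5
    exact Nat.isCoprime_iff_coprime.2 h3
  obtain ⟨v, u, huv⟩ := hcop
  refine hT ⟨(-u) • Y, ?_, fun s hs => ?_⟩
  · rw [smul_comm, hpY, smul_zero]
  · have h3 : c s = (v * (p : ℤ) + u * ((2 * d : ℕ) : ℤ)) • c s := by rw [huv, one_smul]
    have h4 : (v * (p : ℤ)) • c s = 0 := by
      rw [mul_smul, natCast_zsmul, hpc s hs, smul_zero]
    have h5 : (u * ((2 * d : ℕ) : ℤ)) • c s = (-u) • (-((2 * d) • c s)) := by
      rw [mul_smul, neg_smul, smul_neg, neg_neg, natCast_zsmul]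
    rw [h3, add_smul, h4, zero_add, h5, hmain s hs, smul_sub, map_zsmul]

end H55K.TQ
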