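import Mathlib
import Pool.Agent.Lib.H13Y.D1
import Pool.Agent.Lib.H55K.NK1
import Pool.Agent.Lib.H55K.NK2
import Pool.Agent.Lib.H55K.RP1

/-! # H55K: nonvanishing of the Selmer group over fields which do not contain F -/

open NumberField IsDedekindDomain WeierstrassCurve

namespace H55K.TQ

open H55P (IQ embF eF LF Per IsHecke Pt ac Inert Dec Nm UnitP UnrP)
open H35P (WAB Ker tt GoodW IntW)
open H55K.MG (VC Crd)
open H13Z (SelNon SelNonT)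

variable {F : Type} [Field F] [NumberField F] [IQ F]

section main

variable {W : WeierstrassCurve ℤ} {Om : ℂ} {m : Ideal (𝓞 F)} {ψ : Ideal (𝓞 F) →*₀ 𝓞 F}

open scoped Classical in
theorem nk3_data (hH : BaseH F (W⁄(𝓞 F)) Om m ψ) : ∃ (A B : F) (A₀ B₀ : ℚ) (j : AlgebraicClosure F →+* ℂ)
    (act : 𝓞 F →+* AddMonoid.End (Pt (WAB A B) (AlgebraicClosure F))), CMA F A B Om j act ∧
    A₀ = -(W⁄ℚ).c₄ / 48 ∧ B₀ = -(W⁄ℚ).c₆ / 864 ∧ A = algebraMap ℚ F A₀ ∧ B = algebraMap ℚ F B₀ ∧ (W⁄ℚ).Δ ≠ 0 := by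
  have hc4 : algebraMap (𝓞 F) F (W⁄(𝓞 F)).c₄ = algebraMap ℚ F (W⁄ℚ).c₄ := by
    have e1 : (W⁄(𝓞 F)).c₄ = algebraMap ℤ (𝓞 F) W.c₄ := W.map_c₄ _
    have e2 : (W⁄ℚ).c₄ = algebraMap ℤ ℚ W.c₄ := W.map_c₄ _
    rw [e1, e2]
    simp
  have hc6 : algebraMap (𝓞 F) F (W⁄(𝓞 F)).c₆ = algebraMap ℚ F (W⁄ℚ).c₆ := by
    have e1 : (W⁄(𝓞 F)).c₆ = algebraMap ℤ (𝓞 F) W.c₆ := W.map_c₆ _
    have e2 : (W⁄ℚ).c₆ = algebraMap ℤ ℚ W.c₆ := W.map_c₆ _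
    rw [e1, e2]
    simp
  obtain ⟨A₀, hA₀⟩ : ∃ A₀ : ℚ, A₀ = -(W⁄ℚ).c₄ / 48 := ⟨_, rfl⟩
  obtain ⟨B₀, hB₀⟩ : ∃ B₀ : ℚ, B₀ = -(W⁄ℚ).c₆ / 864 := ⟨_, rfl⟩
  obtain ⟨A, hA⟩ : ∃ A : F, A = -(algebraMap (𝓞 F) F (W⁄(𝓞 F)).c₄) / 48 := ⟨_, rfl⟩
  obtain ⟨B, hB⟩ : ∃ B : F, B = -(algebraMap (𝓞 F) F (W⁄(𝓞 F)).c₆) / 864 := ⟨_, rfl⟩
  have hA' : A = algebraMap ℚ F A₀ := by
    rw [hA, hc4, hA₀, map_div₀, map_neg, map_ofNat]
  have hB' : B = algebraMap ℚ F B₀ := by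
    rw [hB, hc6, hB₀, map_div₀, map_neg, map_ofNat]
  have hΔ0 := hH.data.ell
  have hd := y3_ne (W⁄(𝓞 F)) hA hB hΔ0
  have hper : Per F (embF F A) (embF F B) Om := by
    have e1 : embF F A = -(eF F (W⁄(𝓞 F)).c₄) / 48 := by
      rw [hA, map_div₀, map_neg, map_ofNat]
      rfl
    have e2 : embF F B = -(eF F (W⁄(𝓞 F)).c₆) / 864 := by
      rw [hB, map_div₀, map_neg, map_ofNat]
      rfl
    rw [e1, e2]
    exact hH.data.per
  obtain ⟨j, hj⟩ := exists_j F (AlgebraicClosure F)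
  obtain ⟨act, h⟩ := exists_CMA F A B Om j hd hper hj
  have hΔQ : (W⁄ℚ).Δ = algebraMap ℤ ℚ W.Δ := W.map_Δ _
  have hΔF : (W⁄(𝓞 F)).Δ = algebraMap ℤ (𝓞 F) W.Δ := W.map_Δ _
  refine ⟨A, B, A₀, B₀, j, act, h, hA₀, hB₀, hA', hB', ?_⟩
  intro h0
  apply hΔ0
  rw [hΔQ] at h0
  have h1 : W.Δ = 0 := by
    have h2 : (W.Δ : ℚ) = 0 := h0
    exact_mod_cast h2
  rw [hΔF, h1, map_zero]

open scoped Classical in
/-- Multiplication by δ = √-d on the points of the curve over the rational numbers. -/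
theorem exists_sd (hH : BaseH F (W⁄(𝓞 F)) Om m ψ) (δ : 𝓞 F) (hδ : cj δ = -δ) :
    ∃ S : Pt (W⁄ℚ) (AlgebraicClosure F) →+ Pt (W⁄ℚ) (AlgebraicClosure F), (∀ P, S (S P) = -(Nm δ • P)) ∧
    (∀ s : AlgebraicClosure F ≃ₐ[ℚ] AlgebraicClosure F,
      (∀ x : F, s (algebraMap F (AlgebraicClosure F) x) = algebraMap F (AlgebraicClosure F) x) →
        ∀ P, ac (W⁄ℚ) s (S P) = S (ac (W⁄ℚ) s P)) ∧
    (∀ s : AlgebraicClosure F ≃ₐ[ℚ] AlgebraicClosure F,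
      (∀ a : 𝓞 F, s (ak (AlgebraicClosure F) a) = ak (AlgebraicClosure F) (cj a)) →
        ∀ P, ac (W⁄ℚ) s (S P) = -S (ac (W⁄ℚ) s P)) := by
  obtain ⟨A, B, A₀, B₀, j, act, h, hA₀, hB₀, hA, hB, hΔ⟩ := nk3_data hH
  set Ω := AlgebraicClosure F with hΩ
  have hE : (WAB A B)⁄Ω = (WAB A₀ B₀)⁄Ω := by
    have e1 : algebraMap F Ω A = algebraMap ℚ Ω A₀ := by rw [hA, ← IsScalarTower.algebraMap_apply ℚ F Ω]
    have e2 : algebraMap F Ω B = algebraMap ℚ Ω B₀ := by rw [hB, ← IsScalarTower.algebraMap_apply ℚ F Ω]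
    ext <;> simp [WAB, WeierstrassCurve.map, WeierstrassCurve.baseChange, e1, e2]
  obtain ⟨Θ, hΘ⟩ := nk2_iso (W⁄ℚ) hΔ hA₀ hB₀ ((WAB A B)⁄Ω) hE
  have hsA : ∀ s : Ω ≃ₐ[ℚ] Ω, (s : Ω ≃+* Ω) (algebraMap F Ω A) = algebraMap F Ω A := by
    intro s
    rw [hA, ← IsScalarTower.algebraMap_apply ℚ F Ω]
    exact s.commutes _
  have hsB : ∀ s : Ω ≃ₐ[ℚ] Ω, (s : Ω ≃+* Ω) (algebraMap F Ω B) = algebraMap F Ω B := by
    intro s
    rw [hB, ← IsScalarTower.algebraMap_apply ℚ F Ω]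
    exact s.commutes _
  -- Θ commutes with the automorphisms
  have hcomm : ∀ (s : Ω ≃ₐ[ℚ] Ω) (Q : Pt (WAB A B) Ω), ac (W⁄ℚ) s (Θ Q) = Θ (acr (s : Ω ≃+* Ω) (hsA s) (hsB s) Q) := by
    intro s Q
    by_cases hQ : Q = 0
    · rw [hQ, map_zero, map_zero, map_zero, map_zero]
    · have hQ' : acr (s : Ω ≃+* Ω) (hsA s) (hsB s) Q ≠ 0 := fun h0 => hQ ((acr_zero_iff _ _ _ Q).1 h0)
      obtain ⟨a1, a2, a3⟩ := hΘ Q hQ
      obtain ⟨b1, b2, b3⟩ := hΘ _ hQ'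
      obtain ⟨c1, c2, c3⟩ := MG.ac_crd (W := W⁄ℚ) s (Θ Q)
      rw [xc_acr] at b2
      rw [yc_acr] at b3
      have d2 := congrArg s a2
      have d3 := congrArg s a3
      rw [map_add, s.commutes] at d2
      rw [map_add, map_add, map_mul, s.commutes, s.commutes] at d3
      have b2' : s (xc Q) = xc (Θ ((acr (s : Ω ≃+* Ω) (hsA s) (hsB s)) Q)) + algebraMap ℚ Ω ((W⁄ℚ).b₂ / 12) := b2
      have b3' : s (yc Q) = yc (Θ ((acr (s : Ω ≃+* Ω) (hsA s) (hsB s)) Q)) +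
        algebraMap ℚ Ω ((W⁄ℚ).a₁ / 2) * xc (Θ ((acr (s : Ω ≃+* Ω) (hsA s) (hsB s)) Q)) + algebraMap ℚ Ω ((W⁄ℚ).a₃ / 2) := b3
      have hx : s (xc (Θ Q)) = xc (Θ ((acr (s : Ω ≃+* Ω) (hsA s) (hsB s)) Q)) := by
        linear_combination b2' - d2
      refine CC.c27_ext (fun h0 => a1 (c3.1 h0)) b1 ?_ ?_
      · rw [c1]
        exact hx
      · rw [c2]
        rw [hx] at d3
        linear_combination b3' - d3
  have hact : ∀ (a b : 𝓞 F) (Q : Pt (WAB A B) Ω), act a (act b Q) = act (a * b) Q := by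
    intro a b Q
    rw [map_mul]
    rfl
  have hneg : ∀ (a : 𝓞 F) (Q : Pt (WAB A B) Ω), act (-a) Q = -act a Q := by
    intro a Q
    rw [map_neg]
    rfl
  have hδ2 : δ * δ = -(Nm δ : 𝓞 F) := by
    have h1 := mul_cj δ
    rw [hδ] at h1
    linear_combination -h1
  obtain ⟨S, hS⟩ : ∃ S : Pt (W⁄ℚ) Ω →+ Pt (W⁄ℚ) Ω, ∀ Q, S (Θ Q) = Θ (act δ Q) := by
    refine ⟨(Θ : Pt (WAB A B) Ω →+ Pt (W⁄ℚ) Ω).comp ((act δ : Pt (WAB A B) Ω →+ Pt (WAB A B) Ω).comp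
      (Θ.symm : Pt (W⁄ℚ) Ω →+ Pt (WAB A B) Ω)), fun Q => ?_⟩
    show Θ (act δ (Θ.symm (Θ Q))) = _
    rw [Θ.symm_apply_apply]
  refine ⟨S, fun P => ?_, fun s hs P => ?_, fun s hs P => ?_⟩
  · obtain ⟨Q, rfl⟩ := Θ.surjective P
    rw [hS, hS, hact, hδ2, hneg, cu_nat, map_neg, map_nsmul]
  · obtain ⟨Q, rfl⟩ := Θ.surjective P
    rw [hS, hcomm, hcomm, hS]
    congr 1
    let sF : Ω ≃ₐ[F] Ω := AlgEquiv.ofRingEquiv (f := (s : Ω ≃+* Ω)) hs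
    have h1 : ∀ R : Pt (WAB A B) Ω, acr (s : Ω ≃+* Ω) (hsA s) (hsB s) R = ac (WAB A B) sF R :=
      fun R => acr_eq_ac sF (hsA s) (hsB s) R
    rw [h1, h1]
    exact h.gal sF δ Q
  · obtain ⟨Q, rfl⟩ := Θ.surjective P
    rw [hS, hcomm, hcomm, hS, cma_galr h (s : Ω ≃+* Ω) (hsA s) (hsB s) hs, hδ, hneg, map_neg]

open scoped Classical in
/-- A nonzero Selmer class over the field generated by F gives one over K. -/
theorem nonsel_KG (hH : BaseH F (W⁄(𝓞 F)) Om m ψ) {p : ℕ} (hp : p.Prime) (hp2 : p ≠ 2) (hU : UnrP p F)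
    (K : Type) [Field K] [NumberField K] (ι : K →ₐ[ℚ] AlgebraicClosure F) [NumberField (KG F K ι)]
    (h : SelNon ((W⁄(𝓞 F))⁄F) p (KG F K ι)) : SelNonT (W⁄K) p := by
  set Ω := AlgebraicClosure F with hΩ
  have hcl : IsAlgClosure ℚ Ω := ⟨inferInstance, Algebra.IsAlgebraic.trans ℚ F Ω⟩
  have hal : Algebra.IsAlgebraic ℚ Ω := IsAlgClosure.isAlgebraic
  have hfd : FiniteDimensional F (KG F K ι) := FiniteDimensional.right ℚ F (KG F K ι)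
  have hfq : FiniteDimensional ℚ ((KG F K ι).restrictScalars ℚ) := by
    have : FiniteDimensional ℚ (KG F K ι) := inferInstance
    exact this
  have hWF : (W⁄ℚ)⁄F = (W⁄(𝓞 F))⁄F := by
    ext <;> simp [WeierstrassCurve.map, WeierstrassCurve.baseChange]
  have hWK : (W⁄ℚ)⁄K = W⁄K := by
    ext <;> simp [WeierstrassCurve.map, WeierstrassCurve.baseChange]
  rw [← hWF] at h
  rw [← hWK]
  have h1 : SelNon (W⁄ℚ) p ((KG F K ι).restrictScalars ℚ) := H13Y.non_base (F := F) (W⁄ℚ) p (KG F K ι) h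
  obtain ⟨δ, hδ, hNδ⟩ := nk2_delta hp hp2 hU
  obtain ⟨S, hS, hS1, hS2⟩ := exists_sd hH δ hδ
  have hδ0 : δ ≠ 0 := by
    rintro rfl
    apply hNδ
    have e : Nm (0 : 𝓞 F) = 0 := H55P.Nm_eq_zero.2 rfl
    rw [e]
    exact dvd_zero p
  have hak : ak Ω δ ≠ 0 := by
    intro h0
    apply hδ0
    have e1 : algebraMap F Ω (δ : F) = algebraMap F Ω 0 := by rw [map_zero]; exact h0
    have e2 := (algebraMap F Ω).injective e1
    exact_mod_cast e2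
  have hneg : ak Ω (cj δ) = -ak Ω δ := by
    rw [hδ]
    show algebraMap F Ω (algebraMap (𝓞 F) F (-δ)) = _
    rw [map_neg, map_neg]
  have hne : -ak Ω δ ≠ ak Ω δ := by
    intro h0
    have h2 : (2 : Ω) * ak Ω δ = 0 := by linear_combination -h0
    rcases mul_eq_zero.1 h2 with h3 | h3
    · exact two_ne_zero h3
    · exact hak h3
  -- s δ = δ if and only if s is trivial on F
  have hd1 : ∀ s : Ω ≃ₐ[ℚ] Ω, s (ak Ω δ) = ak Ω δ → ∀ x : F, s (algebraMap F Ω x) = algebraMap F Ω x := by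
    intro s hs
    rcases nk2_dich (F := F) s with h2 | h2
    · exact h2
    · exfalso
      rw [h2, hneg] at hs
      exact hne hs
  have hd2 : ∀ s : Ω ≃ₐ[ℚ] Ω, s (ak Ω δ) ≠ ak Ω δ → ∀ a : 𝓞 F, s (ak Ω a) = ak Ω (cj a) := by
    intro s hs
    rcases nk2_dich (F := F) s with h2 | h2
    · exact absurd (h2 _) hs
    · exact h2
  have hfixK : ∀ s : Ω ≃ₐ[ℚ] Ω, s ∈ ι.fieldRange.fixingSubgroup → ∀ x : K, s (ι x) = ι x := fun s hs x =>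
    (IntermediateField.mem_fixingSubgroup_iff _ s).1 hs (ι x) ⟨x, rfl⟩
  refine H13Z.non_transport (W⁄ℚ) p K ι ?_
  refine nk_desc (W⁄ℚ) hp hp2 (kg_le F K ι) ?_ S (Nm δ) hNδ hS (ak Ω δ) (-ak Ω δ) ?_ ?_ ?_
    (fun s hs => hS1 s (hd1 s hs)) (fun s hs => hS2 s (hd2 s hs)) h1
  · intro s hs x hx
    exact kg_stable F K ι s (hfixK s hs) x hx
  · intro s hs
    constructor
    · intro hs'
      exact (IntermediateField.mem_fixingSubgroup_iff _ s).1 hs' _ ((KG F K ι).algebraMap_mem (δ : F))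
    · intro hs'
      rw [IntermediateField.mem_fixingSubgroup_iff]
      intro y hy
      have hF := hd1 s hs'
      refine IntermediateField.adjoin_induction F (p := fun x _ => s x = x) ?_ ?_ ?_ ?_ ?_ hy
      · rintro _ ⟨x, rfl⟩
        exact hfixK s hs x
      · exact hF
      · intro x y _ _ h1 h2
        rw [map_add, h1, h2]
      · intro x _ h1
        rw [map_inv₀, h1]
      · intro x y _ _ h1 h2
        rw [map_mul, h1, h2]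
  · intro s
    by_cases hs : s (ak Ω δ) = ak Ω δ
    · exact Or.inl hs
    · right
      rw [hd2 s hs, hneg]
  · intro s hs
    rw [map_neg, hs, neg_neg]

open scoped Classical in
/-- The same for the Selmer group with local conditions on the inertia groups. -/
theorem nonsel_KT (hH : BaseH F (W⁄(𝓞 F)) Om m ψ) {p : ℕ} (hp : p.Prime) (hp2 : p ≠ 2) (hU : UnrP p F)
    (K : Type) [Field K] [NumberField K] (ι : K →ₐ[ℚ] AlgebraicClosure F) [NumberField (KG F K ι)]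
    (h : SelNon ((W⁄(𝓞 F))⁄F) p (KG F K ι)) : ¬ H55P.SelTriv (W⁄K) p :=
  H13Z.not_selTriv (W⁄K) p (nonsel_KG hH hp hp2 hU K ι h)

end main

end H55K.TQ
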