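import Mathlib
import Pool.Agent.Lib.H35P.Red
import Pool.Agent.Lib.H55K.M0
import Pool.Agent.Lib.H55K.M4A
import Pool.Agent.Lib.H55P.Stm
import Pool.Agent.Lib.H55P.Z13

/-! # H55K: the L-function over K -/

open NumberField IsDedekindDomain WeierstrassCurve

namespace H55K.TQ

open H55P (IQ embF eF LF Per IsHecke Pt ac Inert Dec Nm UnitP)
open H35P (WAB Ker tt GoodW IntW)
open H55K.MG (VC Crd)

variable {F : Type} [Field F] [NumberField F] [IQ F] {W : WeierstrassCurve ℤ} {Om : ℂ}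
    {m : Ideal (𝓞 F)} {ψ : Ideal (𝓞 F) →*₀ 𝓞 F} {p : ℕ}

/-- Chunk FB3A (S). Extract from H55P.LVP_congr (Z13.lean): the L-series over isomorphic fields. -/
theorem tm_congr (K K' : Type) [Field K] [NumberField K] [Algebra F K] [Field K'] [NumberField K'] [Algebra F K'] (θ : K ≃ₐ[F] K')
    (s x : ℂ) (h : HasSum (H55N.tm (H55P.PsiP K' ψ) s) x) : HasSum (H55N.tm (H55P.PsiP K ψ) s) x := by
  letI : Algebra K K' := (θ : K →+* K').toAlgebra
  have hst : IsScalarTower F K K' := IsScalarTower.of_algebraMap_eq fun x => (θ.commutes x).symm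
  have hsurj : Function.Surjective (algebraMap K K') := θ.surjective
  obtain ⟨ε, hε⟩ := H55P.pz13_equiv K K' hsurj
  rw [← ε.hasSum_iff] at h
  have h5 : (H55N.tm (H55P.PsiP K' ψ) s) ∘ ε = H55N.tm (H55P.PsiP K ψ) s := by
    funext a
    obtain ⟨e1, e2⟩ := hε a
    show H55P.PsiP K' ψ (ε a) * (Ideal.absNorm (ε a) : ℂ) ^ (-s) =
      H55P.PsiP K ψ a * (Ideal.absNorm a : ℂ) ^ (-s)
    rw [H55P.PsiP_top (K := K) ψ K' (ε a), e1, e2]
  rwa [h5] at h

/-- Chunk FB3A (S). (W⁄(𝓞 F))⁄F)⁄K = W⁄K. -/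
theorem cur_eq (K : Type) [Field K] [NumberField K] [Algebra F K] : ((W⁄(𝓞 F))⁄F)⁄K = W⁄K := by
  show ((W.map (algebraMap ℤ (𝓞 F))).map (algebraMap (𝓞 F) F)).map (algebraMap F K) = W.map (algebraMap ℤ K)
  rw [WeierstrassCurve.map_map, WeierstrassCurve.map_map]
  congr 1
  exact Subsingleton.elim _ _

end H55K.TQ
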