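import Mathlib
import Pool.Agent.Lib.H55C.A4
import Pool.Agent.Lib.H55K.D2
import Pool.Agent.Lib.H55K.M0
import Pool.Agent.Lib.H55K.M2A
import Pool.Agent.Lib.H55P.SD
import Pool.Agent.Lib.H55P.Stm

/-! # H55K: good reduction over an extension -/

open NumberField IsDedekindDomain WeierstrassCurve

namespace H55K.TQ

open H55P (IQ embF eF LF Per IsHecke Pt ac Inert Dec Nm UnitP)
open H35P (WAB Ker tt GoodW IntW)
open H55K.MG (VC Crd)

/-- Chunk RG (S/M). The same change of variables over K; w.valuation K (algebraMap x) ≤ 1 iff v.valuation K₀ x ≤ 1, = 1 iff = 1 (x = a/b with b not in v if v-integral; HeightOneSpectrum.valuation_le_one_iff.. or the comparison of valuations for w above v, see H13E.q5_above). (C • W₀)⁄K = (C mapped) • (W₀⁄K): map_variableChange. -/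
theorem good_up {K₀ K : Type} [Field K₀] [NumberField K₀] [Field K] [NumberField K] [Algebra K₀ K] {W : WeierstrassCurve K₀}
    {v : HeightOneSpectrum (𝓞 K₀)} {w : HeightOneSpectrum (𝓞 K)} (hv : v.asIdeal = w.asIdeal.under (𝓞 K₀))
    (h : GoodAt W v) : GoodAt (W⁄K) w := by
  obtain ⟨C, h1, h2, h3, h4, h6, hD⟩ := h
  obtain ⟨v', e, hv', he, hval⟩ := H55C.A4_glob (K := K₀) (N := K) w
  have hvv : v' = v := HeightOneSpectrum.ext (hv'.trans hv.symm)
  subst hvv
  have hle : ∀ z : K₀, v'.valuation K₀ z ≤ 1 → w.valuation K (algebraMap K₀ K z) ≤ 1 := by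
    intro z hz
    rw [hval]
    exact pow_le_one' hz e
  have hC : (C.map (algebraMap K₀ K)) • (W⁄K) = (C • W).map (algebraMap K₀ K) := WeierstrassCurve.map_variableChange _ _ _
  refine ⟨C.map (algebraMap K₀ K), ?_⟩
  rw [hC]
  refine ⟨hle _ h1, hle _ h2, hle _ h3, hle _ h4, hle _ h6, ?_⟩
  rw [WeierstrassCurve.map_Δ, hval, hD, one_pow]

end H55K.TQ
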