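import Mathlib
import Pool.Agent.Lib.H55K.BH1
import Pool.Agent.Lib.H55K.T8
import Pool.Agent.Lib.H55K.T9B
import Pool.Agent.Lib.H55K.T9C
import Pool.Agent.Lib.H55K.T9D

/-! # H55K: bad primes stay bad -/

open NumberField IsDedekindDomain WeierstrassCurve

namespace H55K.TQ

open H55P (IQ embF eF LF Per IsHecke Pt ac Inert Dec Nm UnitP)
open H35P (WAB Ker tt GoodW IntW)
open H55K.MG (VC Crd)

variable {F : Type} [Field F] [NumberField F] [IQ F] {W₀ : WeierstrassCurve (𝓞 F)} {Om : ℂ}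
    {m : Ideal (𝓞 F)} {ψ : Ideal (𝓞 F) →*₀ 𝓞 F} {p : ℕ}

/-- Chunk T10 (S/M). V from exists_V. v = w ∩ 𝓞 F (the prime below: mK M m ≤ w implies m ≤ v; Δ in v by supp). GoodAt → GMd (gmd_of_good) → good_down (T8.lean; CMA from exists_j, exists_CMA as in Y8.lean; p not in v by cop; jint: JE.lean and y3: c₄ of WAB A B is -48 A, its discriminant -16 (4 A^3 + 27 B^2)) → good_of_V: contradiction to hH.bad. -/
theorem bad_K (hH : BaseH F W₀ Om m ψ) (hp : PrimeH F W₀ p) {L M : IntermediateField F (AlgebraicClosure F)}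
    [NumberField M] (hL : H55P.PExt p ⊥ L) (hM : M ≤ L) (w : HeightOneSpectrum (𝓞 M)) (hw : H55P.mK M m ≤ w.asIdeal) :
    ¬ GoodAt ((W₀⁄F)⁄M) w := by
  classical
  intro hgood
  obtain ⟨V, hV⟩ := exists_V M w
  obtain ⟨j, hj⟩ := exists_j F (AlgebraicClosure F)
  obtain ⟨A, hA⟩ : ∃ A : F, A = -(algebraMap (𝓞 F) F W₀.c₄) / 48 := ⟨_, rfl⟩
  obtain ⟨B, hB⟩ : ∃ B : F, B = -(algebraMap (𝓞 F) F W₀.c₆) / 864 := ⟨_, rfl⟩
  have hd := y3_ne W₀ hA hB hH.data.ell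
  have hper : Per F (embF F A) (embF F B) Om := by
    have e1 : embF F A = -(eF F W₀.c₄) / 48 := by
      rw [hA, map_div₀, map_neg, map_ofNat]
      rfl
    have e2 : embF F B = -(eF F W₀.c₆) / 864 := by
      rw [hB, map_div₀, map_neg, map_ofNat]
      rfl
    rw [e1, e2]
    exact hH.data.per
  obtain ⟨act, hact⟩ := exists_CMA F A B Om j hd hper hj
  obtain ⟨v, hvw⟩ : ∃ v : HeightOneSpectrum (𝓞 F), v.asIdeal = w.asIdeal.under (𝓞 F) :=
    ⟨⟨w.asIdeal.under (𝓞 F), inferInstance, mt Ideal.eq_bot_of_comap_eq_bot w.ne_bot⟩, rfl⟩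
  have hmv : m ≤ v.asIdeal := by
    rw [hvw]
    exact Ideal.map_le_iff_le_comap.1 hw
  have hΔv : W₀.Δ ∈ v.asIdeal := (hH.supp v).2 hmv
  have hpv : (p : 𝓞 F) ∉ v.asIdeal := by
    intro h0
    have h1 : Ideal.span {W₀.Δ} ≤ v.asIdeal := (Ideal.span_singleton_le_iff_mem _).2 hΔv
    have h2 : Ideal.span {(p : 𝓞 F)} ≤ v.asIdeal := (Ideal.span_singleton_le_iff_mem _).2 h0
    have h3 := Ideal.isCoprime_iff_sup_eq.1 hp.cop
    have h4 : v.asIdeal = ⊤ := top_le_iff.1 (h3 ▸ sup_le h1 h2)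
    exact v.isPrime.ne_top h4
  have hv : ∀ a : 𝓞 F, a ∈ v.asIdeal → V.valuation (ak (AlgebraicClosure F) a) < 1 := by
    intro a ha
    rw [hvw] at ha
    have h1 : algebraMap (𝓞 F) (𝓞 M) a ∈ w.asIdeal := ha
    exact hV _ h1
  have hjj : ∃ j₀ : 𝓞 F, (WAB A B).c₄ ^ 3 = (j₀ : F) * (WAB A B).Δ := by
    obtain ⟨j₀, hj₀⟩ := y3_j W₀ hA hB (jint_of hH.data.per hH.data.ell)
    refine ⟨j₀, ?_⟩
    have e1 : (WAB A B).Δ = -16 * (4 * A ^ 3 + 27 * B ^ 2) := by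
      unfold WAB WeierstrassCurve.Δ WeierstrassCurve.b₂ WeierstrassCurve.b₄ WeierstrassCurve.b₆ WeierstrassCurve.b₈
      ring
    have e2 : (WAB A B).c₄ = -48 * A := by
      unfold WAB WeierstrassCurve.c₄ WeierstrassCurve.b₂ WeierstrassCurve.b₄
      ring
    rw [e1, e2]
    linear_combination (16 : F) * hj₀
  exact hH.bad v hΔv (good_of_V W₀ hA hB v hv (good_down hact hjj hp.prime hp.five ((unr_iff hp.prime).1 hp.unr) hL hM hv hpv
    (gmd_of_good W₀ hA hB w hV hgood)))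

end H55K.TQ
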