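import Mathlib
import Pool.Agent.Lib.H55K.DM
import Pool.Agent.Lib.H55K.FB3A
import Pool.Agent.Lib.H55K.RG
import Pool.Agent.Lib.H55K.T10
import Pool.Agent.Lib.H55N.H8

/-! # H55K: the L-function over K -/

open NumberField IsDedekindDomain WeierstrassCurve

namespace H55K.TQ

open H55P (IQ embF eF LF Per IsHecke Pt ac Inert Dec Nm UnitP)
open H35P (WAB Ker tt GoodW IntW)
open H55K.MG (VC Crd)

variable {F : Type} [Field F] [NumberField F] [IQ F] {W : WeierstrassCurve ℤ} {Om : ℂ}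
    {m : Ideal (𝓞 F)} {ψ : Ideal (𝓞 F) →*₀ 𝓞 F} {p : ℕ}

/-- Bad reduction over K. -/
theorem fb3b_bad (hH : BaseH F (W⁄(𝓞 F)) Om m ψ) (hp : PrimeH F (W⁄(𝓞 F)) p) {L : IntermediateField F (AlgebraicClosure F)}
    (hL : H55P.PExt p ⊥ L) (K : Type) [Field K] [NumberField K] [Algebra F K] (K' : IntermediateField F (AlgebraicClosure F)) [NumberField K']
    (hK : K' ≤ L) (θ : K ≃ₐ[F] K') (w : HeightOneSpectrum (𝓞 K)) (hw : H55P.mK K m ≤ w.asIdeal) :
    ¬ GoodAt (((W⁄(𝓞 F))⁄F)⁄K) w := by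
  intro hgood
  let _ : Algebra K K' := (θ : K →+* K').toAlgebra
  have hst : IsScalarTower F K K' := IsScalarTower.of_algebraMap_eq fun x => (θ.commutes x).symm
  have hwm := w.isMaximal
  obtain ⟨Q, hQ1, hQ2⟩ := Ideal.exists_maximal_ideal_liesOver_of_isIntegral (S := 𝓞 K') w.asIdeal
  have hQ0 : Q ≠ ⊥ := Ideal.ne_bot_of_liesOver_of_ne_bot w.ne_bot Q
  have hover : w.asIdeal = Q.under (𝓞 K) := hQ2.over
  have hmQ : H55P.mK K' m ≤ Q := by
    have h1 : H55P.mK K' m = (H55P.mK K m).map (algebraMap (𝓞 K) (𝓞 K')) := by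
      unfold H55P.mK
      rw [Ideal.map_map, ← IsScalarTower.algebraMap_eq]
    rw [h1, Ideal.map_le_iff_le_comap]
    exact hw.trans (le_of_eq hover)
  have hg : GoodAt ((((W⁄(𝓞 F))⁄F)⁄K)⁄K') ⟨Q, hQ1.isPrime, hQ0⟩ := good_up hover hgood
  refine bad_K hH hp hL hK ⟨Q, hQ1.isPrime, hQ0⟩ hmQ ?_
  have he : (((W⁄(𝓞 F))⁄F)⁄K)⁄K' = ((W⁄(𝓞 F))⁄F)⁄K' := by
    rw [WeierstrassCurve.baseChange, WeierstrassCurve.baseChange, WeierstrassCurve.baseChange, WeierstrassCurve.map_map]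
    congr 1
    exact (IsScalarTower.algebraMap_eq F K K').symm
  rw [← he]
  exact hg

/-- Chunk FB3B (M). The L-series over K contains F. K' = KG F K ι, θ : K ≃ₐ[F] K' (kg_iso). lfun_K (DM.lean) for K: the condition hbad for W⁄K at w with mK K m ≤ w: a prime w' of K' above w (algebra K → K' by θ), mK K' m ≤ w', bad_K (T10.lean) for K' ≤ L, good_up (RG.lean). Then as in gen_lval (H55P/Gen.lean) or i5_lfun (I5.lean), with tm_congr. -/
theorem lser_F (hH : BaseH F (W⁄(𝓞 F)) Om m ψ) (hp : PrimeH F (W⁄(𝓞 F)) p) {L : IntermediateField F (AlgebraicClosure F)}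
    (hL : H55P.PExt p ⊥ L) (K : Type) [Field K] [NumberField K] [Algebra F K] (K' : IntermediateField F (AlgebraicClosure F)) [NumberField K']
    (hK : K' ≤ L) (θ : K ≃ₐ[F] K') (Φ : ℂ → ℂ) (hΦ : ∀ s : ℂ, 3 / 2 < s.re → HasSum (H55N.tm (H55P.PsiP K' ψ) s) (Φ s)) (s : ℂ)
    (hs : 3 / 2 < s.re) :
    LSeriesHasSum (fun n => (((W⁄K).LFunction n : ℤ) : ℂ)) s (Φ s * (starRingEnd ℂ) (Φ ((starRingEnd ℂ) s))) := by
  classical
  have hLs : ∀ s : ℂ, 3 / 2 < s.re → HasSum (H55N.tm (H55P.PsiP K ψ) s) (Φ s) := fun s hs => tm_congr K K' θ s _ (hΦ s hs)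
  have hs' : 3 / 2 < ((starRingEnd ℂ) s).re := by simpa using hs
  have h := hH.data.hecke
  have h0 : H55P.PsiP K ψ ⊥ = 0 := (H55P.PsiP K ψ).map_zero
  have h1 := H55N.AI_LSeries (fun a => H55P.PsiP K ψ a) h0 s (H55N.tm_summable _ (H55P.PsiP_norm_le h) s hs)
  have h2 := H55N.AI_LSeries (fun a => (starRingEnd ℂ) (H55P.PsiP K ψ a)) (by rw [h0, map_zero]) s
    (H55N.tm_summable _ (fun a => by rw [RCLike.norm_conj]; exact H55P.PsiP_norm_le h a) s hs)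
  have e1 : ∑' a, H55N.tm (fun a => H55P.PsiP K ψ a) s a = Φ s := (hLs s hs).tsum_eq
  have e2 : ∑' a, H55N.tm (fun a => (starRingEnd ℂ) (H55P.PsiP K ψ a)) s a =
      (starRingEnd ℂ) (Φ ((starRingEnd ℂ) s)) := by
    have h3 := (Complex.hasSum_conj').2 (hLs _ hs')
    have h4 := h3.tsum_eq
    rw [← h4]
    exact tsum_congr fun a => H55N.H8_tm _ s a
  rw [e1] at h1
  rw [e2] at h2
  have h3 := ArithmeticFunction.LSeriesHasSum_mul h1 h2
  have e3 : (fun n => (((W⁄K).LFunction n : ℤ) : ℂ)) = fun n =>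
      (H55N.AI (H55P.PsiP K ψ) * H55N.AI (fun a => (starRingEnd ℂ) (H55P.PsiP K ψ a))) n := by
    funext n
    rw [← cur_eq (F := F) (W := W) K]
    exact lfun_K h (fun v hv _ => hH.deu v hv) (fun v hv => (hH.supp v).1 hv) (jint_of hH.data.per hH.data.ell)
      (fun w hw => fb3b_bad hH hp hL K K' hK θ w hw) n
  rw [e3]
  exact h3

end H55K.TQ
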