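import Mathlib
import Pool.Agent.Lib.H35P.R2
import Pool.Agent.Lib.H55K.D8
import Pool.Agent.Lib.H55K.M0
import Pool.Agent.Lib.H55K.M2B
import Pool.Agent.Lib.H55K.WM
import Pool.Agent.Lib.H55P.Stm

/-! # H55K: the trace at inert primes is zero -/

open NumberField IsDedekindDomain WeierstrassCurve

namespace H55K.TQ

open H55P (IQ embF eF LF Per IsHecke Pt ac Inert Dec Nm UnitP)
open H35P (WAB Ker tt GoodW IntW)
open H55K.MG (VC Crd)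

variable {F : Type} [Field F] [NumberField F] [IQ F] {W : WeierstrassCurve ℤ} {m : Ideal (𝓞 F)} {ψ : Ideal (𝓞 F) →*₀ 𝓞 F}

theorem rc1_count {l : ℕ} (hl : l.Prime) (v : HeightOneSpectrum (𝓞 F)) (hv : v.asIdeal = Ideal.span {(l : 𝓞 F)})
    (hΔ : (W⁄(𝓞 F)).Δ ∉ v.asIdeal) {t : ℤ} (ht : t = l + 1 - (Nat.card (W⁄(ZMod l)).toAffine.Point : ℤ)) :
    ((Nat.card ((W⁄(𝓞 F))⁄(𝓞 F ⧸ v.asIdeal)).toAffine.Point : ℤ)) = l ^ 2 + 1 - (t ^ 2 - 2 * l) := by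
  have hfl : Fact l.Prime := ⟨hl⟩
  have hvm : v.asIdeal.IsMaximal := v.isMaximal
  let _i : Field (𝓞 F ⧸ v.asIdeal) := Ideal.Quotient.field v.asIdeal
  have hnK : Nat.card (𝓞 F ⧸ v.asIdeal) = l ^ 2 := by
    have h1 : Nat.card (𝓞 F ⧸ v.asIdeal) = Ideal.absNorm v.asIdeal := rfl
    rw [h1, hv]
    exact Nm_nat l
  have hfin : Finite (𝓞 F ⧸ v.asIdeal) := Nat.finite_of_card_ne_zero (by
    rw [hnK]
    exact pow_ne_zero _ hl.ne_zero)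
  have hchar : CharP (𝓞 F ⧸ v.asIdeal) l := by
    rw [CharP.charP_iff_prime_eq_zero hl]
    have h1 : (l : 𝓞 F) ∈ v.asIdeal := by
      rw [hv]
      exact Ideal.mem_span_singleton_self _
    have h2 := Ideal.Quotient.eq_zero_iff_mem.2 h1
    rw [map_natCast] at h2
    exact h2
  let _i : Algebra (ZMod l) (𝓞 F ⧸ v.asIdeal) := ZMod.algebra _ l
  have hrank : Module.finrank (ZMod l) (𝓞 F ⧸ v.asIdeal) = 2 := by
    have hmf : Module.Finite (ZMod l) (𝓞 F ⧸ v.asIdeal) := Module.Finite.of_finite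
    have h1 := Module.natCard_eq_pow_finrank (K := ZMod l) (V := 𝓞 F ⧸ v.asIdeal)
    rw [hnK, Nat.card_zmod] at h1
    exact (Nat.pow_right_injective hl.two_le h1).symm
  have hΔl : (W⁄(ZMod l)).Δ ≠ 0 := by
    intro h
    apply hΔ
    rw [← Ideal.Quotient.eq_zero_iff_mem]
    have h1 : Ideal.Quotient.mk v.asIdeal (W⁄(𝓞 F)).Δ = algebraMap (ZMod l) (𝓞 F ⧸ v.asIdeal) (W⁄(ZMod l)).Δ := by
      have e1 : (W⁄(𝓞 F)).Δ = algebraMap ℤ (𝓞 F) W.Δ := WeierstrassCurve.map_Δ _ _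
      have e2 : (W⁄(ZMod l)).Δ = algebraMap ℤ (ZMod l) W.Δ := WeierstrassCurve.map_Δ _ _
      rw [e1, e2]
      simp
    rw [h1, h, map_zero]
  have hcurve : (W⁄(𝓞 F))⁄(𝓞 F ⧸ v.asIdeal) = (W⁄(ZMod l))⁄(𝓞 F ⧸ v.asIdeal) := by
    ext <;> simp [WeierstrassCurve.baseChange]
  obtain ⟨s, hs⟩ := IsAlgClosed.exists_pow_nat_eq ((t : ℂ) ^ 2 - 4 * l) (n := 2) (by norm_num)
  have hw := weil (k := ZMod l) (K := 𝓞 F ⧸ v.asIdeal) (W⁄(ZMod l)) hΔl ((t + s) / 2) ((t - s) / 2)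
    (by
      rw [Nat.card_zmod, ht]
      push_cast
      ring) (by
      rw [Nat.card_zmod]
      linear_combination (-1 / 4 : ℂ) * hs)
  rw [hrank, hnK] at hw
  rw [hcurve]
  have h5 : ((Nat.card ((W⁄(ZMod l))⁄(𝓞 F ⧸ v.asIdeal)).toAffine.Point : ℤ) : ℂ) = ((l ^ 2 + 1 - (t ^ 2 - 2 * l) : ℤ) : ℂ) := by
    push_cast
    rw [hw]
    push_cast
    linear_combination (-1 / 2 : ℂ) * hs
  exact_mod_cast h5

/-- Chunk RC1 (M). k = ZMod l, K = 𝓞 F ⧸ v (a field with l^2 elements, a ZMod l algebra). H55K.weil for W⁄(ZMod l), n = 2, α, β the roots: #W(K) = l^2 + 1 - α^2 - β^2 = l^2 + 1 - (t^2 - 2 l), t = l + 1 - #W(ZMod l) an integer. It is Nm (1 - ψ v) (hdeu); ψ v generates v = (l) (hψ.gen, v prime to m), so ψ v = l ε, ε a unit, Nm ε = 1, and Nm (1 - ψ v) =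
1 - l (ε + cj ε) + l^2 (mul_cj). So t^2 = l (2 + T), T = ε + cj ε an integer, |T| ≤ 2 (T^2 ≤ 4 Nm ε). l divides t, so l divides 2 + T, 0 ≤ 2 + T ≤ 4. If 2 + T = 0 then t = 0 and ε = -1 ((ε + 1)^2 = ε^2 + 2 ε + 1 = (T + 2) ε = 0 since ε^2 - T ε + 1 = 0). Otherwise l ≤ 4 and l divides 2 + T: l = 2, 2 + T = 2: T = 0, ε^2 = -1, (1 + ε)^2 = 2 ε: 2 is prime in 𝓞 F
(v = (2)) so it divides 1 + ε, so 4 divides 2 ε, absurd; l = 2, 2 + T = 4: t^2 = 8 absurd; l = 3, 2 + T = 3: T = 1, ε^2 - ε + 1 = 0, (1 + ε)^2 = 3 ε: 3 divides 1 + ε, 9 divides 3 ε, absurd. -/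
theorem inert_F (hψ : H55P.IsHecke m ψ)
    (hdeu : ∀ v : HeightOneSpectrum (𝓞 F), (W⁄(𝓞 F)).Δ ∉ v.asIdeal → ¬ m ≤ v.asIdeal →
      Nat.card ((W⁄(𝓞 F))⁄(𝓞 F ⧸ v.asIdeal)).toAffine.Point = Nm (1 - ψ v.asIdeal)) {l : ℕ} (hl : l.Prime)
    (v : HeightOneSpectrum (𝓞 F)) (hv : v.asIdeal = Ideal.span {(l : 𝓞 F)}) (hΔ : (W⁄(𝓞 F)).Δ ∉ v.asIdeal)
    (hm : ¬ m ≤ v.asIdeal) : Nat.card (W⁄(ZMod l)).toAffine.Point = l + 1 ∧ ψ v.asIdeal = -(l : 𝓞 F) := by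
  have hN2 := hdeu v hΔ hm
  have hgen : Ideal.span {ψ v.asIdeal} = v.asIdeal := hψ.gen _ (DD.d8_cop hm)
  have hl0 : (l : 𝓞 F) ≠ 0 := Nat.cast_ne_zero.2 hl.ne_zero
  have hlp : Prime (l : 𝓞 F) := by
    rw [← Ideal.span_singleton_prime hl0, ← hv]
    exact v.isPrime
  obtain ⟨ε, hε⟩ : ∃ ε : (𝓞 F)ˣ, (l : 𝓞 F) * ε = ψ v.asIdeal := by
    have h1 : Ideal.span {(l : 𝓞 F)} = Ideal.span {ψ v.asIdeal} := by rw [hgen, hv]
    exact Ideal.span_singleton_eq_span_singleton.1 h1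
  have hNε : Nm (ε : 𝓞 F) = 1 := by
    show Ideal.absNorm (Ideal.span {(ε : 𝓞 F)}) = 1
    rw [Ideal.span_singleton_eq_top.2 ε.isUnit, Ideal.absNorm_top]
  have hεc : (ε : 𝓞 F) * cj (ε : 𝓞 F) = 1 := by
    rw [mul_cj, hNε, Nat.cast_one]
  obtain ⟨T, hT⟩ : ∃ T : ℤ, T = 2 - (Nm (1 - (ε : 𝓞 F)) : ℤ) := ⟨_, rfl⟩
  have hTe : (T : 𝓞 F) = ε + cj (ε : 𝓞 F) := by
    rw [hT]
    push_cast
    rw [← mul_cj, map_sub, map_one]
    linear_combination -hεc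
  have hTN : ((Nm (1 - ψ v.asIdeal) : ℤ)) = 1 - l * T + l ^ 2 := by
    have h1 : (((Nm (1 - ψ v.asIdeal) : ℤ)) : 𝓞 F) = ((1 - l * T + l ^ 2 : ℤ) : 𝓞 F) := by
      push_cast
      rw [← mul_cj, map_sub, map_one, ← hε, map_mul, map_natCast, hTe]
      linear_combination (l : 𝓞 F) ^ 2 * hεc
    exact_mod_cast h1
  have hT4 : T ^ 2 ≤ 4 := by
    have h1 : ((T : ℝ)) = 2 * (eF F (ε : 𝓞 F)).re := by
      have h2 := congrArg (eF F) hTe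
      rw [map_intCast, map_add, e_cj, Complex.add_conj] at h2
      exact_mod_cast h2
    have h3 : ‖eF F (ε : 𝓞 F)‖ ^ 2 = 1 := by
      rw [← H55P.Nm_eq, hNε, Nat.cast_one]
    have h4 : ‖eF F (ε : 𝓞 F)‖ = 1 := by
      have h5 := norm_nonneg (eF F (ε : 𝓞 F))
      nlinarith
    have h6 := Complex.abs_re_le_norm (eF F (ε : 𝓞 F))
    rw [h4, abs_le] at h6
    have h7 : (T : ℝ) ^ 2 ≤ 4 := by
      rw [h1]
      nlinarith
    exact_mod_cast h7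
  -- the number of points
  obtain ⟨t, ht⟩ : ∃ t : ℤ, t = l + 1 - (Nat.card (W⁄(ZMod l)).toAffine.Point : ℤ) := ⟨_, rfl⟩
  have hcount : ((Nm (1 - ψ v.asIdeal) : ℤ)) = l ^ 2 + 1 - (t ^ 2 - 2 * l) := by
    rw [← hN2]
    exact rc1_count hl v hv hΔ ht
  have hkey : t ^ 2 = l * (2 + T) := by
    rw [hTN] at hcount
    linear_combination hcount
  have hlZ : Prime (l : ℤ) := Nat.prime_iff_prime_int.1 hl
  have hlt : (l : ℤ) ∣ t := hlZ.dvd_of_dvd_pow (n := 2) ⟨_, hkey⟩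
  obtain ⟨t', ht'⟩ := hlt
  have hl2 : (2 : ℤ) ≤ l := by exact_mod_cast hl.two_le
  have hc : 2 + T = l * t' ^ 2 := by
    have h1 : (l : ℤ) * (2 + T) = l * (l * t' ^ 2) := by
      rw [← hkey, ht']
      ring
    exact mul_left_cancel₀ (by omega) h1
  have hTb : -2 ≤ T ∧ T ≤ 2 := by constructor <;> nlinarith
  have hc2 : t' ^ 2 ≤ 2 := by nlinarith [hTb.2, sq_nonneg t']
  have ht'b : -1 ≤ t' ∧ t' ≤ 1 := by constructor <;> nlinarith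
  have hqe : (1 + (ε : 𝓞 F)) ^ 2 = ((2 + T : ℤ) : 𝓞 F) * ε := by
    push_cast
    rw [hTe]
    linear_combination -hεc
  have h01 : t' = 0 ∨ t' ^ 2 = 1 := by
    have h2 : t' = -1 ∨ t' = 0 ∨ t' = 1 := by omega
    rcases h2 with h2 | h2 | h2
    · right; rw [h2]; norm_num
    · left; exact h2
    · right; rw [h2]; norm_num
  rcases h01 with h0 | h1
  · have ht0 : t = 0 := by rw [ht', h0, mul_zero]
    have hT2 : 2 + T = 0 := by rw [hc, h0]; ring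
    rw [hT2, Int.cast_zero, zero_mul] at hqe
    have h3 : (ε : 𝓞 F) = -1 := by
      have h4 := pow_eq_zero_iff (two_ne_zero) |>.1 hqe
      linear_combination h4
    refine ⟨?_, ?_⟩
    · have h5 : (Nat.card (W⁄(ZMod l)).toAffine.Point : ℤ) = l + 1 := by omega
      exact_mod_cast h5
    · rw [← hε, h3]
      ring
  · exfalso
    rw [hc, h1, mul_one] at hqe
    push_cast at hqe
    have h2 : (l : 𝓞 F) ∣ (1 + (ε : 𝓞 F)) := hlp.dvd_of_dvd_pow (n := 2) ⟨_, hqe⟩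
    obtain ⟨z, hz⟩ := h2
    rw [hz] at hqe
    have h3 : (l : 𝓞 F) * ((l : 𝓞 F) * z ^ 2) = l * ε := by
      rw [← hqe]
      ring
    have h4 := mul_left_cancel₀ hl0 h3
    exact hlp.not_isUnit (isUnit_of_dvd_unit ⟨z ^ 2, h4.symm⟩ ε.isUnit)

end H55K.TQ
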