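import Mathlib
import Pool.Agent.Lib.H55K.RC1

/-! # H55K: the trace at inert primes is zero -/

open NumberField IsDedekindDomain WeierstrassCurve

namespace H55K.TQ

open H55P (IQ embF eF LF Per IsHecke Pt ac Inert Dec Nm UnitP)
open H35P (WAB Ker tt GoodW IntW)
open H55K.MG (VC Crd)

variable {F : Type} [Field F] [NumberField F] [IQ F] {W : WeierstrassCurve ℤ} {m : Ideal (𝓞 F)} {ψ : Ideal (𝓞 F) →*₀ 𝓞 F}

/-- The points of a curve over isomorphic fields. -/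
theorem rc2_card {A B : Type} [CommRing A] [CommRing B] (W : WeierstrassCurve A) (f : A ≃+* B) :
    Nat.card ((W.map (f : A →+* B)).toAffine.Point) = Nat.card W.toAffine.Point := by
  have h : ∀ x y, (W.map (f : A →+* B)).toAffine.Nonsingular ((f : A →+* B) x) ((f : A →+* B) y) ↔
      W.toAffine.Nonsingular x y := fun x y =>
    WeierstrassCurve.Affine.map_nonsingular (W := W.toAffine) (f := (f : A →+* B)) f.injective x y
  have h' : ∀ x y, (W.map (f : A →+* B)).toAffine.Nonsingular x y →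
      W.toAffine.Nonsingular (f.symm x) (f.symm y) := by
    intro x y hxy
    rw [← h]
    show (W.map (f : A →+* B)).toAffine.Nonsingular (f (f.symm x)) (f (f.symm y))
    rw [f.apply_symm_apply, f.apply_symm_apply]
    exact hxy
  have hsome : ∀ {R : Type} [CommRing R] (V : WeierstrassCurve.Affine R) {x y x' y' : R}
      (hx : x = x') (hy : y = y') (h1 : V.Nonsingular x y) (h2 : V.Nonsingular x' y'),
      WeierstrassCurve.Affine.Point.some x y h1 = WeierstrassCurve.Affine.Point.some x' y' h2 := by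
    intro R _ V x y x' y' hx hy h1 h2
    subst hx
    subst hy
    rfl
  refine Nat.card_congr ?_
  refine
    { toFun := fun P => match P with
        | .zero => .zero
        | .some x y hxy => .some (f.symm x) (f.symm y) (h' x y hxy)
      invFun := fun P => match P with
        | .zero => .zero
        | .some x y hxy => .some (f x) (f y) ((h x y).2 hxy)
      left_inv := ?_
      right_inv := ?_ }
  · rintro (_ | ⟨x, y, hxy⟩)
    · rfl
    · exact hsome _ (f.apply_symm_apply x) (f.apply_symm_apply y) _ _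
  · rintro (_ | ⟨x, y, hxy⟩)
    · rfl
    · exact hsome _ (f.symm_apply_apply x) (f.symm_apply_apply y) _ _

theorem rc2_mem {I : Ideal (𝓞 F)} {x : 𝓞 F} :
    x ∈ I.map ((cj : 𝓞 F ≃+* 𝓞 F) : 𝓞 F →+* 𝓞 F) ↔ cj x ∈ I := by
  rw [Ideal.map_comap_of_equiv, Ideal.mem_comap]
  have : (cj : 𝓞 F ≃+* 𝓞 F).symm x = cj x := by
    rw [RingEquiv.symm_apply_eq, cj_cj]
  rw [this]

/-- The conjugate prime. -/
noncomputable def rc2_v (v : HeightOneSpectrum (𝓞 F)) : HeightOneSpectrum (𝓞 F) where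
  asIdeal := v.asIdeal.map ((cj : 𝓞 F ≃+* 𝓞 F) : 𝓞 F →+* 𝓞 F)
  isPrime := by
    have := v.isPrime
    exact Ideal.map_isPrime_of_equiv (cj : 𝓞 F ≃+* 𝓞 F)
  ne_bot := by
    intro h
    obtain ⟨x, hx, hx0⟩ := Submodule.exists_mem_ne_zero_of_ne_bot v.ne_bot
    have h1 : cj x ∈ v.asIdeal.map ((cj : 𝓞 F ≃+* 𝓞 F) : 𝓞 F →+* 𝓞 F) := Ideal.mem_map_of_mem _ hx
    rw [h, Ideal.mem_bot] at h1
    exact hx0 ((map_eq_zero_iff (cj : 𝓞 F ≃+* 𝓞 F) (cj : 𝓞 F ≃+* 𝓞 F).injective).1 h1)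

theorem rc2_disc (W : WeierstrassCurve ℤ) : (cj : 𝓞 F ≃+* 𝓞 F) (W⁄(𝓞 F)).Δ = (W⁄(𝓞 F)).Δ := by
  have h : (W⁄(𝓞 F)).Δ = ((W.Δ : ℤ) : 𝓞 F) := by
    show (W.map (algebraMap ℤ (𝓞 F))).Δ = _
    rw [WeierstrassCurve.map_Δ, eq_intCast]
  rw [h, cj_int]

theorem rc2_ncop {v : HeightOneSpectrum (𝓞 F)} (hv : m ≤ v.asIdeal) : ¬ IsCoprime v.asIdeal m := by
  intro hc
  have h6 := Ideal.isCoprime_iff_sup_eq.1 hc
  rw [sup_eq_left.2 hv] at h6
  exact v.isPrime.ne_top h6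

/-- The case of a prime ideal. -/
theorem rc2_prime (hψ : H55P.IsHecke m ψ)
    (hdeu : ∀ v : HeightOneSpectrum (𝓞 F), (W⁄(𝓞 F)).Δ ∉ v.asIdeal → ¬ m ≤ v.asIdeal →
      Nat.card ((W⁄(𝓞 F))⁄(𝓞 F ⧸ v.asIdeal)).toAffine.Point = Nm (1 - ψ v.asIdeal))
    (hsupp : ∀ v : HeightOneSpectrum (𝓞 F), (W⁄(𝓞 F)).Δ ∈ v.asIdeal ↔ m ≤ v.asIdeal)
    (hram : ∀ v : HeightOneSpectrum (𝓞 F), (∀ a : 𝓞 F, a - cj a ∈ v.asIdeal) → (W⁄(𝓞 F)).Δ ∈ v.asIdeal)
    (v : HeightOneSpectrum (𝓞 F)) : ψ (rc2_v v).asIdeal = cj (ψ v.asIdeal) := by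
  have hΔ : (W⁄(𝓞 F)).Δ ∈ (rc2_v v).asIdeal ↔ (W⁄(𝓞 F)).Δ ∈ v.asIdeal := by
    show (W⁄(𝓞 F)).Δ ∈ v.asIdeal.map ((cj : 𝓞 F ≃+* 𝓞 F) : 𝓞 F →+* 𝓞 F) ↔ _
    rw [rc2_mem, rc2_disc]
  by_cases hm : m ≤ v.asIdeal
  · have hm' : m ≤ (rc2_v v).asIdeal := (hsupp _).1 (hΔ.2 ((hsupp _).2 hm))
    rw [hψ.zero _ (rc2_ncop hm), hψ.zero _ (rc2_ncop hm'), map_zero]
  have hd : (W⁄(𝓞 F)).Δ ∉ v.asIdeal := fun h => hm ((hsupp _).1 h)
  have hd' : (W⁄(𝓞 F)).Δ ∉ (rc2_v v).asIdeal := fun h => hd (hΔ.1 h)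
  have hm' : ¬ m ≤ (rc2_v v).asIdeal := fun h => hd' ((hsupp _).2 h)
  have g1 : Ideal.span {ψ v.asIdeal} = v.asIdeal := hψ.gen _ (H55K.DD.d8_cop hm)
  have g2 : Ideal.span {ψ (rc2_v v).asIdeal} = (rc2_v v).asIdeal := hψ.gen _ (H55K.DD.d8_cop hm')
  have g3 : (rc2_v v).asIdeal = Ideal.span {cj (ψ v.asIdeal)} := by
    show v.asIdeal.map ((cj : 𝓞 F ≃+* 𝓞 F) : 𝓞 F →+* 𝓞 F) = _
    conv_lhs => rw [← g1]
    rw [Ideal.map_span, Set.image_singleton]
    rfl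
  set z : 𝓞 F := ψ v.asIdeal with hz
  set z' : 𝓞 F := ψ (rc2_v v).asIdeal with hz'
  -- the numbers of points
  have hN : Nm (1 - z) = Nm (1 - z') := by
    rw [← hdeu v hd hm, ← hdeu (rc2_v v) hd' hm']
    set f : (𝓞 F ⧸ v.asIdeal) ≃+* (𝓞 F ⧸ (rc2_v v).asIdeal) :=
      Ideal.quotientEquiv v.asIdeal (rc2_v v).asIdeal (cj : 𝓞 F ≃+* 𝓞 F) rfl
    have e : ((W⁄(𝓞 F))⁄(𝓞 F ⧸ (rc2_v v).asIdeal)) =
        ((W⁄(𝓞 F))⁄(𝓞 F ⧸ v.asIdeal)).map (f : (𝓞 F ⧸ v.asIdeal) →+* (𝓞 F ⧸ (rc2_v v).asIdeal)) := by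
      show (W.map (algebraMap ℤ (𝓞 F))).map (algebraMap (𝓞 F) (𝓞 F ⧸ (rc2_v v).asIdeal)) =
        ((W.map (algebraMap ℤ (𝓞 F))).map (algebraMap (𝓞 F) (𝓞 F ⧸ v.asIdeal))).map
          (f : (𝓞 F ⧸ v.asIdeal) →+* (𝓞 F ⧸ (rc2_v v).asIdeal))
      rw [WeierstrassCurve.map_map, WeierstrassCurve.map_map, WeierstrassCurve.map_map]
      congr 1
      exact Subsingleton.elim _ _
    rw [e, rc2_card]
  have hNz : Nm z = Nm z' := by
    have h1 : Ideal.span {z'} = Ideal.span {cj z} := g2.trans g3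
    rw [← Nm_cj z]
    unfold H55P.Nm
    rw [h1]
  have k1 : z * cj z = z' * cj z' := by rw [mul_cj, mul_cj, hNz]
  have k2 : z + cj z = z' + cj z' := by
    have h1 : (1 - z) * (1 - cj z) = (1 - z') * (1 - cj z') := by
      have e1 := mul_cj (1 - z)
      have e2 := mul_cj (1 - z')
      rw [map_sub, map_one] at e1 e2
      rw [e1, e2, hN]
    linear_combination k1 - h1
  have k3 : (z' - z) * (z' - cj z) = 0 := by
    linear_combination (-z') * k2 + k1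
  rcases mul_eq_zero.1 k3 with h | h
  swap
  · exact sub_eq_zero.1 h
  have hzz : z' = z := sub_eq_zero.1 h
  have hvv : (rc2_v v).asIdeal = v.asIdeal := by rw [← g2, hzz, g1]
  have hvcj : ∀ x : 𝓞 F, x ∈ v.asIdeal → cj x ∈ v.asIdeal := by
    intro x hx
    have h1 : cj x ∈ (rc2_v v).asIdeal := Ideal.mem_map_of_mem _ hx
    rwa [hvv] at h1
  -- the residue field
  have hmax := v.isMaximal
  letI : Field (𝓞 F ⧸ v.asIdeal) := Ideal.Quotient.field _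
  have hfin : Finite (𝓞 F ⧸ v.asIdeal) := Ideal.finiteQuotientOfFreeOfNeBot _ v.ne_bot
  obtain ⟨l, hchar⟩ := CharP.exists (𝓞 F ⧸ v.asIdeal)
  have hl : l.Prime := CharP.char_is_prime (𝓞 F ⧸ v.asIdeal) l
  have hlv : (l : 𝓞 F) ∈ v.asIdeal := by
    rw [← Ideal.Quotient.eq_zero_iff_mem, map_natCast]
    exact CharP.cast_eq_zero _ l
  have hNv : Nm z = Nat.card (𝓞 F ⧸ v.asIdeal) := by
    unfold H55P.Nm
    rw [g1]
    rfl
  have hzl : z ∣ (l : 𝓞 F) := by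
    rw [← Ideal.mem_span_singleton, g1]
    exact hlv
  obtain ⟨y, hy⟩ := hzl
  have hprod : Nm z * Nm y = l ^ 2 := by
    rw [← Nm_mul, ← hy, Nm_nat]
  have hz1 : Nm z ≠ 1 := by
    rw [hNv]
    intro h1
    have := Finite.one_lt_card (α := 𝓞 F ⧸ v.asIdeal)
    omega
  obtain ⟨i, hi, hNi⟩ := (Nat.dvd_prime_pow hl).1 (Dvd.intro _ hprod)
  interval_cases i
  · exact absurd hNi (by rw [pow_zero]; exact hz1)
  · -- the residue field is the prime field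
    exfalso
    rw [pow_one] at hNi
    have hinj := ZMod.castHom_injective (n := l) (𝓞 F ⧸ v.asIdeal)
    have hbij := hinj.bijective_of_nat_card_le (by rw [← hNv, hNi, Nat.card_zmod])
    apply hd
    apply hram
    intro a
    obtain ⟨b, hb⟩ := hbij.2 (Ideal.Quotient.mk v.asIdeal a)
    obtain ⟨c, rfl⟩ : ∃ c : ℕ, (c : ZMod l) = b := by
      have : NeZero l := ⟨hl.ne_zero⟩
      exact ⟨b.val, ZMod.natCast_zmod_val b⟩
    have h1 : a - (c : 𝓞 F) ∈ v.asIdeal := by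
      rw [← Ideal.Quotient.mk_eq_mk_iff_sub_mem, ← hb, map_natCast, map_natCast]
    have h2 := hvcj _ h1
    rw [map_sub, cj_nat] at h2
    have h3 := sub_mem h1 h2
    have e : a - (c : 𝓞 F) - (cj a - (c : 𝓞 F)) = a - cj a := by ring
    rwa [e] at h3
  · -- inert
    have hy1 : Nm y = 1 := by
      rw [hNi] at hprod
      exact Nat.eq_of_mul_eq_mul_left (pow_pos hl.pos 2) (by rw [hprod, mul_one])
    have hyu : IsUnit y := by
      have h1 : Ideal.span {y} = ⊤ := Ideal.absNorm_eq_one_iff.1 hy1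
      exact Ideal.span_singleton_eq_top.1 h1
    have hvl : v.asIdeal = Ideal.span {(l : 𝓞 F)} := by
      rw [← g1, hy]
      exact (Ideal.span_singleton_mul_right_unit hyu z).symm
    have h2 := (inert_F hψ hdeu hl v hvl hd hm).2
    rw [hzz, hz, h2, map_neg, cj_nat]

/-- Chunk RC2 (M). By multiplicativity (induction on prime factors; J = 0: both 0) J = v prime. If m ≤ v: Δ in v (hsupp), Δ is an integer, so Δ is in cj v, m ≤ cj v, both values are 0 (hψ.zero). Otherwise both are prime to m; z = ψ v, z' = ψ (cj v), span {z} = v, span {z'} = cj v. The residue fields are isomorphic by cj and W has integral coefficients, so the numbers of points are equal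
(H55P.pz10_card): Nm (1 - z) = Nm (1 - z') (hdeu), Nm z = absNorm v = Nm z', so z + cj z = z' + cj z', z cj z = z' cj z': z' = z or z' = cj z. If z' = z then cj v = v: v contains the rational prime l; either v = (l) and z = -l (inert_F) so z' = z = cj z; or 𝓞 F ⧸ v has l elements, every a is congruent to an integer b modulo v and
cj a is congruent to b modulo cj v = v, so a - cj a is in v for all a: hram gives Δ in v, m ≤ v: contradiction. -/
theorem psi_cj (hψ : H55P.IsHecke m ψ)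
    (hdeu : ∀ v : HeightOneSpectrum (𝓞 F), (W⁄(𝓞 F)).Δ ∉ v.asIdeal → ¬ m ≤ v.asIdeal →
      Nat.card ((W⁄(𝓞 F))⁄(𝓞 F ⧸ v.asIdeal)).toAffine.Point = Nm (1 - ψ v.asIdeal))
    (hsupp : ∀ v : HeightOneSpectrum (𝓞 F), (W⁄(𝓞 F)).Δ ∈ v.asIdeal ↔ m ≤ v.asIdeal)
    (hram : ∀ v : HeightOneSpectrum (𝓞 F), (∀ a : 𝓞 F, a - cj a ∈ v.asIdeal) → (W⁄(𝓞 F)).Δ ∈ v.asIdeal)
    (J : Ideal (𝓞 F)) : ψ (J.map ((cj : 𝓞 F ≃+* 𝓞 F) : 𝓞 F →+* 𝓞 F)) = cj (ψ J) := by
  induction J using UniqueFactorizationMonoid.induction_on_prime with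
  | h₁ =>
    have e : (0 : Ideal (𝓞 F)).map ((cj : 𝓞 F ≃+* 𝓞 F) : 𝓞 F →+* 𝓞 F) = 0 := by
      rw [Ideal.zero_eq_bot, Ideal.map_bot]
    rw [e, map_zero, map_zero]
  | h₂ x hx =>
    rw [Ideal.isUnit_iff.1 hx, Ideal.map_top, ← Ideal.one_eq_top, map_one, map_one]
  | h₃ a p ha hp ih =>
    rw [Ideal.map_mul, map_mul, map_mul, map_mul, ih]
    congr 1
    exact rc2_prime hψ hdeu hsupp hram ⟨p, Ideal.isPrime_of_prime hp, hp.ne_zero⟩

end H55K.TQ
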