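import Mathlib
import Pool.Agent.Lib.H55K.D8
import Pool.Agent.Lib.H55K.RD

/-! # H55K: the Hecke L-series over the quadratic extension is real -/

open NumberField IsDedekindDomain WeierstrassCurve

namespace H55K.TQ

open H55P (IQ embF eF LF Per IsHecke Pt ac Inert Dec Nm UnitP)
open H35P (WAB Ker tt GoodW IntW)
open H55K.MG (VC Crd)

variable {F K₀ K : Type} [Field F] [NumberField F] [IQ F] [Field K₀] [NumberField K₀] [Field K] [NumberField K]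
  [Algebra F K] [Algebra K₀ K]

theorem re_absNorm {R : Type} [CommRing R] [IsDedekindDomain R] [Module.Free ℤ R]
    (σ : R ≃+* R) (a : Ideal R) :
    Ideal.absNorm (a.map (σ : R →+* R)) = Ideal.absNorm a := by
  rw [Ideal.absNorm_apply, Ideal.absNorm_apply, Submodule.cardQuot_apply, Submodule.cardQuot_apply]
  exact Nat.card_congr (Ideal.quotientEquiv a (a.map (σ : R →+* R)) σ rfl).toEquiv.symm

theorem re_inertia (w : HeightOneSpectrum (𝓞 K)) {v : HeightOneSpectrum (𝓞 F)} (hv : v.asIdeal = w.asIdeal.under (𝓞 F)) :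
    Ideal.absNorm w.asIdeal = Ideal.absNorm v.asIdeal ^ w.asIdeal.inertiaDeg (𝓞 F) := by
  have h0 : w.asIdeal.LiesOver v.asIdeal := ⟨hv⟩
  have h1 := w.isMaximal
  have h2 : v.asIdeal.IsMaximal := v.isMaximal
  rw [Ideal.inertiaDeg_eq_of_isMaximal v.asIdeal w.asIdeal]
  have h := Ideal.absNorm_eq_pow_inertiaDeg'_of_liesOver w.asIdeal v.asIdeal v.isPrime v.ne_bot
  rw [Ideal.inertiaDeg'_algebraMap] at h
  exact h

theorem re_prime (σ : 𝓞 K ≃+* 𝓞 K) (hσ : ∀ x : 𝓞 F, σ (algebraMap (𝓞 F) (𝓞 K) x) = algebraMap (𝓞 F) (𝓞 K) (cj x))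
    {ψ : Ideal (𝓞 F) →*₀ 𝓞 F}
    (hcj : ∀ J : Ideal (𝓞 F), ψ (J.map ((cj : 𝓞 F ≃+* 𝓞 F) : 𝓞 F →+* 𝓞 F)) = cj (ψ J))
    (w : HeightOneSpectrum (𝓞 K)) :
    H55P.PsiP K ψ (w.asIdeal.map (σ : 𝓞 K →+* 𝓞 K)) = (starRingEnd ℂ) (H55P.PsiP K ψ w.asIdeal) := by
  obtain ⟨v, hv, hr, -, -⟩ := DD.below (F := F) (m := ⊤) w
  have hwp := w.isPrime
  obtain ⟨w', hw'⟩ : ∃ w' : HeightOneSpectrum (𝓞 K), w'.asIdeal = w.asIdeal.map (σ : 𝓞 K →+* 𝓞 K) := by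
    refine ⟨⟨w.asIdeal.map (σ : 𝓞 K →+* 𝓞 K), Ideal.map_isPrime_of_equiv σ, ?_⟩, rfl⟩
    intro h
    exact w.ne_bot ((Ideal.map_eq_bot_iff_of_injective σ.injective).1 h)
  obtain ⟨v', hv', hr', -, -⟩ := DD.below (F := F) (m := ⊤) w'
  have hvv : v'.asIdeal = v.asIdeal.map ((cj : 𝓞 F ≃+* 𝓞 F) : 𝓞 F →+* 𝓞 F) := by
    ext x
    rw [hv', Ideal.under_def, Ideal.mem_comap, hw',
      Ideal.mem_map_iff_of_surjective (σ : 𝓞 K →+* 𝓞 K) σ.surjective,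
      Ideal.mem_map_iff_of_surjective ((cj : 𝓞 F ≃+* 𝓞 F) : 𝓞 F →+* 𝓞 F) cj.surjective]
    constructor
    · rintro ⟨y, hy, hyx⟩
      have hyx' : σ y = algebraMap (𝓞 F) (𝓞 K) x := hyx
      have h1 : y = algebraMap (𝓞 F) (𝓞 K) (cj x) := by
        apply σ.injective
        rw [hσ, cj_cj, hyx']
      refine ⟨cj x, ?_, cj_cj x⟩
      rw [hv, Ideal.under_def, Ideal.mem_comap, ← h1]
      exact hy
    · rintro ⟨y, hy, hyx⟩
      refine ⟨algebraMap (𝓞 F) (𝓞 K) y, ?_, ?_⟩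
      · rw [hv, Ideal.under_def, Ideal.mem_comap] at hy
        exact hy
      · have hyx' : cj y = x := hyx
        show σ (algebraMap (𝓞 F) (𝓞 K) y) = algebraMap (𝓞 F) (𝓞 K) x
        rw [hσ, hyx']
  have hdeg : w'.asIdeal.inertiaDeg (𝓞 F) = w.asIdeal.inertiaDeg (𝓞 F) := by
    have h1 := re_inertia w hv
    have h2 := re_inertia w' hv'
    rw [hw', re_absNorm, hvv, re_absNorm, h1] at h2
    have h3 : 2 ≤ Ideal.absNorm v.asIdeal := by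
      have h4 : Ideal.absNorm v.asIdeal ≠ 1 := by
        rw [Ne, Ideal.absNorm_eq_one_iff]; exact v.isPrime.ne_top
      have h5 : Ideal.absNorm v.asIdeal ≠ 0 := by
        rw [Ne, Ideal.absNorm_eq_zero_iff]; exact v.ne_bot
      omega
    rw [← hw'] at h2
    exact (Nat.pow_right_injective h3 h2).symm
  rw [← hw', H55P.PsiP_apply, H55P.PsiP_apply, hr', hr, hdeg, hvv, map_pow, map_pow, hcj, map_pow, map_pow, map_pow, map_pow, e_cj, map_pow]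

theorem re_Psi (σ : 𝓞 K ≃+* 𝓞 K) (hσ : ∀ x : 𝓞 F, σ (algebraMap (𝓞 F) (𝓞 K) x) = algebraMap (𝓞 F) (𝓞 K) (cj x))
    {ψ : Ideal (𝓞 F) →*₀ 𝓞 F}
    (hcj : ∀ J : Ideal (𝓞 F), ψ (J.map ((cj : 𝓞 F ≃+* 𝓞 F) : 𝓞 F →+* 𝓞 F)) = cj (ψ J))
    (a : Ideal (𝓞 K)) :
    H55P.PsiP K ψ (a.map (σ : 𝓞 K →+* 𝓞 K)) = (starRingEnd ℂ) (H55P.PsiP K ψ a) := by
  induction a using UniqueFactorizationMonoid.induction_on_prime with
  | h₁ =>
    have h : (0 : Ideal (𝓞 K)).map (σ : 𝓞 K →+* 𝓞 K) = 0 := Ideal.map_bot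
    rw [h, map_zero, map_zero]
  | h₂ x hx =>
    rw [Ideal.isUnit_iff] at hx
    rw [hx, Ideal.map_top, ← Ideal.one_eq_top, map_one, map_one]
  | h₃ x p hx hp ih =>
    have h1 := re_prime σ hσ hcj ⟨p, Ideal.isPrime_of_prime hp, hp.ne_zero⟩
    simp only at h1
    rw [Ideal.map_mul, map_mul, map_mul, map_mul, ih, h1]

/-- Chunk RE (M). Port of H55D.AI_real, DQA_sigma, DQA_prime, DQA_Psi (Lib/H55D/QA.lean): Psi replaced by PsiP K ψ, O by 𝓞 F, DQA_psiF by hcj (PsiP_apply, e_cj); the prime below w and relNorm: D8.lean (H55K below) or H55N.Psi_prime. -/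
theorem ai_real (hQ : QuadG F K₀ K) {ψ : Ideal (𝓞 F) →*₀ 𝓞 F}
    (hcj : ∀ J : Ideal (𝓞 F), ψ (J.map ((cj : 𝓞 F ≃+* 𝓞 F) : 𝓞 F →+* 𝓞 F)) = cj (ψ J)) :
    H55N.AI (fun a : Ideal (𝓞 K) => (starRingEnd ℂ) (H55P.PsiP K ψ a)) = H55N.AI (fun a => H55P.PsiP K ψ a) := by
  obtain ⟨c, hc⟩ := hQ.tau
  obtain ⟨σ, hσ⟩ : ∃ σ : 𝓞 K ≃+* 𝓞 K, ∀ x : 𝓞 F, σ (algebraMap (𝓞 F) (𝓞 K) x) = algebraMap (𝓞 F) (𝓞 K) (cj x) := by
    refine ⟨NumberField.RingOfIntegers.mapRingEquiv (c : K ≃+* K), fun x => ?_⟩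
    apply NumberField.RingOfIntegers.ext
    exact hc x
  let E : Ideal (𝓞 K) ≃ Ideal (𝓞 K) :=
    { toFun := fun a => a.map (σ : 𝓞 K →+* 𝓞 K)
      invFun := fun a => a.map (σ.symm : 𝓞 K →+* 𝓞 K)
      left_inv := fun a => Ideal.map_of_equiv σ
      right_inv := fun a => Ideal.map_of_equiv σ.symm }
  ext n
  show (if n = 0 then 0 else ∑ᶠ (a : Ideal (𝓞 K)) (_ : Ideal.absNorm a = n), (starRingEnd ℂ) (H55P.PsiP K ψ a)) =
    if n = 0 then 0 else ∑ᶠ (a : Ideal (𝓞 K)) (_ : Ideal.absNorm a = n), H55P.PsiP K ψ a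
  by_cases hn : n = 0
  · rw [if_pos hn, if_pos hn]
  · rw [if_neg hn, if_neg hn,
      ← finsum_comp_equiv E (f := fun b : Ideal (𝓞 K) => ∑ᶠ (_ : Ideal.absNorm b = n), H55P.PsiP K ψ b)]
    refine finsum_congr fun a => ?_
    show _ = ∑ᶠ (_ : Ideal.absNorm (a.map (σ : 𝓞 K →+* 𝓞 K)) = n), H55P.PsiP K ψ (a.map (σ : 𝓞 K →+* 𝓞 K))
    rw [re_absNorm, re_Psi σ hσ hcj]

end H55K.TQ
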