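import Mathlib
import Pool.Agent.Lib.H55B.I2
import Pool.Agent.Lib.H55K.D2
import Pool.Agent.Lib.H55K.M0
import Pool.Agent.Lib.H55K.M2A
import Pool.Agent.Lib.H55P.SD
import Pool.Agent.Lib.H55P.Stm

/-! # H55K: Euler factors of degree one -/

open NumberField IsDedekindDomain WeierstrassCurve

namespace H55K.TQ

open H55P (IQ embF eF LF Per IsHecke Pt ac Inert Dec Nm UnitP)
open H35P (WAB Ker tt GoodW IntW)
open H55K.MG (VC Crd)
open H55K.DD (LF' ef)

/-- Chunk RA1 (S/M). (1 - a X)^-1 (1 + a X)^-1 = (1 - a^2 X^2)^-1 in power series; ofPowerSeries q is a ring homomorphism and ofPowerSeries (q^2) P = ofPowerSeries q (P(X^2)) for geometric series: H55B.I2_ofPS_pow (Lib/H55B/I2.lean), see H55D.LEF_two (Lib/H55D/Q4.lean). -/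
theorem ef_sq {q : ℕ} (hq : 1 < q) (a : ℂ) : ef q a * ef q (-a) = ef (q ^ 2) (a ^ 2) := by
  have h := H55B.I2_ofPS_pow (q := q) (k := 2) two_ne_zero (a ^ 2) 0
  have e1 : ((1 - PowerSeries.C (a ^ 2) * PowerSeries.X) * (1 - PowerSeries.C (0 : ℂ) * PowerSeries.X) :
      PowerSeries ℂ) = 1 - PowerSeries.C (a ^ 2) * PowerSeries.X := by
    rw [map_zero]; ring
  have e2 : ((1 - PowerSeries.C (a ^ 2) * PowerSeries.X ^ 2)⁻¹ *
      (1 - PowerSeries.C (0 : ℂ) * PowerSeries.X ^ 2)⁻¹ : PowerSeries ℂ) =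
      (1 - PowerSeries.C a * PowerSeries.X)⁻¹ * (1 - PowerSeries.C (-a) * PowerSeries.X)⁻¹ := by
    rw [← PowerSeries.mul_inv_rev, ← PowerSeries.mul_inv_rev]
    congr 1
    rw [map_zero, map_neg, map_pow]
    ring
  rw [e1, e2] at h
  unfold ef
  rw [h, map_mul]

/-- Chunk RA1 (S). Value at 1 is 1: see H55D.DQA_LEF_one (Lib/H55D/QA.lean). -/
theorem lf_one {K : Type} [Field K] [NumberField K] (W : WeierstrassCurve K) (w : HeightOneSpectrum (𝓞 K)) :
    LF' W w 1 = 1 := by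
  unfold LF' WeierstrassCurve.localEulerFactor
  rw [ArithmeticFunction.intCoe_apply]
  simp [WeierstrassCurve.localPowerSeries]

end H55K.TQ
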