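import Mathlib
import Pool.Agent.Lib.H35P.R2
import Pool.Agent.Lib.H55K.D6
import Pool.Agent.Lib.H55K.M0
import Pool.Agent.Lib.H55K.M2B
import Pool.Agent.Lib.H55P.Stm
import Pool.Agent.Lib.H55P.Z10

/-! # H55K: the local factor of a curve over the rationals -/

open NumberField IsDedekindDomain WeierstrassCurve

namespace H55K.TQ

open H55P (IQ embF eF LF Per IsHecke Pt ac Inert Dec Nm UnitP)
open H35P (WAB Ker tt GoodW IntW)
open H55K.MG (VC Crd)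
open H55K.DD (LF' ef)

/-- the curve over the integers of the rationals -/
theorem ra2_W (W : WeierstrassCurve ℤ) (K : Type) [Field K] [NumberField K] :
    (((W.map (algebraMap ℤ (𝓞 ℚ)))⁄ℚ)⁄K) = W⁄K := by
  show ((W.map (algebraMap ℤ (𝓞 ℚ))).map (algebraMap (𝓞 ℚ) ℚ)).map (algebraMap ℚ K) =
    W.map (algebraMap ℤ K)
  rw [WeierstrassCurve.map_map, WeierstrassCurve.map_map]
  congr 1
  exact RingHom.ext_int _ _

/-- `ZMod l` is the residue field -/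
theorem ra2_equiv {v : Ideal (𝓞 ℚ)} (hv : v.IsPrime) {l : ℕ} (hl : l.Prime) (hlv : (l : 𝓞 ℚ) ∈ v) :
    Nonempty (ZMod l ≃+* 𝓞 ℚ ⧸ v) := by
  haveI : Fact l.Prime := ⟨hl⟩
  haveI : Nontrivial (𝓞 ℚ ⧸ v) := Ideal.Quotient.nontrivial_iff.2 hv.ne_top
  have h0 : ((l : ℕ) : 𝓞 ℚ ⧸ v) = 0 := by
    rw [← map_natCast (Ideal.Quotient.mk v), Ideal.Quotient.eq_zero_iff_mem]
    exact hlv
  haveI : CharP (𝓞 ℚ ⧸ v) l := by
    obtain ⟨p, hp⟩ := CharP.exists (𝓞 ℚ ⧸ v)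
    have h1 : p ∣ l := (CharP.cast_eq_zero_iff _ p l).1 h0
    rcases (Nat.dvd_prime hl).1 h1 with h2 | h2
    · exfalso
      rw [h2] at hp
      exact one_ne_zero ((CharP.cast_eq_zero_iff (𝓞 ℚ ⧸ v) 1 1).2 (dvd_refl 1) ▸ (Nat.cast_one (R := 𝓞 ℚ ⧸ v)).symm)
    · rwa [h2] at hp
  refine ⟨RingEquiv.ofBijective (ZMod.castHom (dvd_refl l) (𝓞 ℚ ⧸ v)) ⟨RingHom.injective _, ?_⟩⟩
  intro x
  obtain ⟨y, rfl⟩ := Ideal.Quotient.mk_surjective x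
  refine ⟨((Rat.ringOfIntegersEquiv y : ℤ) : ZMod l), ?_⟩
  rw [map_intCast, ← map_intCast (Ideal.Quotient.mk v)]
  congr 1
  apply Rat.ringOfIntegersEquiv.injective
  rw [map_intCast]
  simp

/-- The rational prime below w -/
theorem ra2_below {K : Type} [Field K] [NumberField K] (w : HeightOneSpectrum (𝓞 K)) :
    ∃ (l f : ℕ), l.Prime ∧ (l : 𝓞 K) ∈ w.asIdeal ∧ 0 < f ∧ Ideal.absNorm w.asIdeal = l ^ f := by
  have hmax : w.asIdeal.IsMaximal := w.isMaximal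
  letI : Field (𝓞 K ⧸ w.asIdeal) := Ideal.Quotient.field w.asIdeal
  have h0 : Ideal.absNorm w.asIdeal ≠ 0 := by
    rw [Ne, Ideal.absNorm_eq_zero_iff]; exact w.ne_bot
  have hcard : Ideal.absNorm w.asIdeal = Nat.card (𝓞 K ⧸ w.asIdeal) := rfl
  haveI : Finite (𝓞 K ⧸ w.asIdeal) := Nat.finite_of_card_ne_zero (by rw [← hcard]; exact h0)
  letI : Fintype (𝓞 K ⧸ w.asIdeal) := Fintype.ofFinite _
  obtain ⟨p, hp⟩ := CharP.exists (𝓞 K ⧸ w.asIdeal)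
  obtain ⟨n, hpp, hn⟩ := FiniteField.card (𝓞 K ⧸ w.asIdeal) p
  refine ⟨p, n, hpp, ?_, n.pos, ?_⟩
  · rw [← Ideal.Quotient.eq_zero_iff_mem, map_natCast]
    exact CharP.cast_eq_zero _ p
  · rw [hcard, Nat.card_eq_fintype_card, hn]

/-- the prime of the integers of the rationals below `w` -/
theorem ra2_v {K : Type} [Field K] [NumberField K] (w : HeightOneSpectrum (𝓞 K)) :
    ∃ v : HeightOneSpectrum (𝓞 ℚ), v.asIdeal = w.asIdeal.under (𝓞 ℚ) := by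
  obtain ⟨l, f, hl, hlw, -, -⟩ := ra2_below w
  have hpr : (w.asIdeal.under (𝓞 ℚ)).IsPrime := by
    have := w.isPrime
    infer_instance
  refine ⟨⟨w.asIdeal.under (𝓞 ℚ), hpr, ?_⟩, rfl⟩
  intro hbot
  have h1 : (l : 𝓞 ℚ) ∈ w.asIdeal.under (𝓞 ℚ) := by
    rw [Ideal.under_def, Ideal.mem_comap, map_natCast]
    exact hlw
  rw [hbot, Ideal.mem_bot] at h1
  exact hl.ne_zero (by exact_mod_cast h1)

/-- Chunk RA2 (M). lf_good (D6.lean) with F = ℚ and W₀ = W.map (algebraMap ℤ (𝓞 ℚ)): v = the prime of 𝓞 ℚ below w; 𝓞 ℚ is ℤ (Rat.ringOfIntegersEquiv), v is generated by l, absNorm v = l, the residue field 𝓞 ℚ ⧸ v is isomorphic to ZMod l (both have l elements and W⁄ of it is the image of W: a ring isomorphism ZMod l ≃ 𝓞 ℚ ⧸ v; H55P.pz10_card in Z10.lean for the number of points over isomorphic rings).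
absNorm w = l^f = absNorm v ^ inertiaDeg, so f = inertiaDeg. (W₀⁄ℚ)⁄K = W⁄K (map_map; ring homomorphisms from ℤ are equal: RingHom.ext_int or Subsingleton). -/
theorem lf_W (W : WeierstrassCurve ℤ) {K : Type} [Field K] [NumberField K] (w : HeightOneSpectrum (𝓞 K)) {l : ℕ}
    (hl : l.Prime) (hw : (l : 𝓞 K) ∈ w.asIdeal) (hΔ : ¬ (l : ℤ) ∣ W.Δ) (α β : ℂ)
    (h1 : α + β = (l : ℂ) + 1 - (Nat.card (W⁄(ZMod l)).toAffine.Point : ℂ)) (h2 : α * β = (l : ℂ)) {f : ℕ}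
    (hf : Ideal.absNorm w.asIdeal = l ^ f) :
    LF' (W⁄K) w = ef (Ideal.absNorm w.asIdeal) (α ^ f) * ef (Ideal.absNorm w.asIdeal) (β ^ f) := by
  obtain ⟨v, hv⟩ := ra2_v w
  have hlv : (l : 𝓞 ℚ) ∈ v.asIdeal := by
    rw [hv, Ideal.under_def, Ideal.mem_comap, map_natCast]
    exact hw
  obtain ⟨φ⟩ := ra2_equiv v.isPrime hl hlv
  haveI : Fact l.Prime := ⟨hl⟩
  have hcv : Ideal.absNorm v.asIdeal = l := by
    have h3 : Ideal.absNorm v.asIdeal = Nat.card (𝓞 ℚ ⧸ v.asIdeal) := rfl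
    rw [h3, ← Nat.card_congr φ.toEquiv, Nat.card_zmod]
  have hΔ' : (W.map (algebraMap ℤ (𝓞 ℚ))).Δ ∉ v.asIdeal := by
    intro hcon
    rw [WeierstrassCurve.map_Δ] at hcon
    have h3 : IsCoprime (l : ℤ) W.Δ := (Nat.prime_iff_prime_int.1 hl).coprime_iff_not_dvd.2 hΔ
    obtain ⟨a, b, hab⟩ := h3
    apply v.isPrime.ne_top
    rw [Ideal.eq_top_iff_one]
    have h4 : (1 : 𝓞 ℚ) = algebraMap ℤ (𝓞 ℚ) a * (l : 𝓞 ℚ) + algebraMap ℤ (𝓞 ℚ) b *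
        algebraMap ℤ (𝓞 ℚ) W.Δ := by
      rw [← map_mul, ← map_natCast (algebraMap ℤ (𝓞 ℚ)) l, ← map_mul, ← map_add]
      rw [show a * ((l : ℕ) : ℤ) + b * W.Δ = 1 from hab, map_one]
    rw [h4]
    exact v.asIdeal.add_mem (v.asIdeal.mul_mem_left _ hlv) (v.asIdeal.mul_mem_left _ hcon)
  have hpts : Nat.card (((W.map (algebraMap ℤ (𝓞 ℚ)))⁄(𝓞 ℚ ⧸ v.asIdeal)).toAffine.Point) =
      Nat.card (W⁄(ZMod l)).toAffine.Point := by
    have e : ((W.map (algebraMap ℤ (𝓞 ℚ)))⁄(𝓞 ℚ ⧸ v.asIdeal)) =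
        (W⁄(ZMod l)).map (φ : ZMod l →+* 𝓞 ℚ ⧸ v.asIdeal) := by
      show (W.map (algebraMap ℤ (𝓞 ℚ))).map (algebraMap (𝓞 ℚ) (𝓞 ℚ ⧸ v.asIdeal)) =
        (W.map (algebraMap ℤ (ZMod l))).map (φ : ZMod l →+* 𝓞 ℚ ⧸ v.asIdeal)
      rw [WeierstrassCurve.map_map, WeierstrassCurve.map_map]
      congr 1
      exact RingHom.ext_int _ _
    rw [e]
    exact H55P.pz10_card _ _
  have h := H55K.DD.lf_good (W.map (algebraMap ℤ (𝓞 ℚ))) w v hv hΔ' α β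
    (by rw [hcv, hpts]; exact h1) (by rw [hcv]; exact h2)
  have hfi : w.asIdeal.inertiaDeg (𝓞 ℚ) = f := by
    have hlies : w.asIdeal.LiesOver v.asIdeal := ⟨hv⟩
    have hmax : v.asIdeal.IsMaximal := v.isMaximal
    have h3 := Ideal.absNorm_eq_pow_inertiaDeg'_of_liesOver w.asIdeal v.asIdeal v.isPrime v.ne_bot
    rw [Ideal.inertiaDeg'_algebraMap, hcv, hf] at h3
    rw [Ideal.inertiaDeg_eq_of_isMaximal v.asIdeal w.asIdeal]
    exact (Nat.pow_right_injective hl.two_le h3).symm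
  rw [hfi] at h
  rw [← ra2_W W K]
  exact h

/-- Chunk RA2 (S/M). lf_bad with F = ℚ. -/
theorem lf_W_bad (W : WeierstrassCurve ℤ) {K : Type} [Field K] [NumberField K] (w : HeightOneSpectrum (𝓞 K)) {j₀ : ℤ}
    (hj : W.c₄ ^ 3 = j₀ * W.Δ) (hb : ¬ GoodAt (W⁄K) w) : LF' (W⁄K) w = 1 := by
  rw [← ra2_W W K] at hb ⊢
  refine H55K.DD.lf_bad (W.map (algebraMap ℤ (𝓞 ℚ))) w (algebraMap ℤ (𝓞 ℚ) j₀) ?_ hb
  rw [WeierstrassCurve.map_c₄, WeierstrassCurve.map_Δ, ← map_pow, hj, map_mul]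

/-- Chunk RA2 (S). The rational prime below w: Ideal.absNorm is a power of it. -/
theorem below_W {K : Type} [Field K] [NumberField K] (w : HeightOneSpectrum (𝓞 K)) :
    ∃ (l f : ℕ), l.Prime ∧ (l : 𝓞 K) ∈ w.asIdeal ∧ 0 < f ∧ Ideal.absNorm w.asIdeal = l ^ f := by
  exact ra2_below w

end H55K.TQ
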