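import Mathlib
import Pool.Agent.Lib.H55K.RD
import Pool.Agent.Lib.H55P.CL

/-! # H55K: primes in the quadratic extension -/

open NumberField IsDedekindDomain WeierstrassCurve

namespace H55K.TQ

open H55P (IQ embF eF LF Per IsHecke Pt ac Inert Dec Nm UnitP)
open H35P (WAB Ker tt GoodW IntW)
open H55K.MG (VC Crd)

variable {F K₀ K : Type} [Field F] [NumberField F] [IQ F] [Field K₀] [NumberField K₀] [Field K] [NumberField K]
  [Algebra F K] [Algebra K₀ K]

/-- Chunk RB1 (M). K/K₀ is Galois of degree 2 (τ is not the identity: it is the conjugation on F, IQ.im, e_cj), group {1, τ}. g e f = 2 (Ideal.ncard_primesOver_mul_ramificationIdxIn_mul_inertiaDegIn or sum of e f = 2): g = 2: two primes, f = 1: N w = N v. g = 1, f = 2: N w = (N v)^2. g = 1, e = 2: the inertia group of w has e = 2 elements (H55P.cl_card in CL.lean),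
so it contains τ: τ x - x in w for all x in 𝓞 K; in particular for the elements of 𝓞 F: a - cj a in w. N = absNorm; w above v: w.asIdeal.under (𝓞 K₀) = v.asIdeal. -/
theorem quad_primes (hQ : QuadG F K₀ K) (v : HeightOneSpectrum (𝓞 K₀)) :
    (∃ w₁ w₂ : HeightOneSpectrum (𝓞 K), w₁ ≠ w₂ ∧ Ideal.absNorm w₁.asIdeal = Ideal.absNorm v.asIdeal ∧
      Ideal.absNorm w₂.asIdeal = Ideal.absNorm v.asIdeal ∧
      ∀ w : HeightOneSpectrum (𝓞 K), v.asIdeal = w.asIdeal.under (𝓞 K₀) ↔ w = w₁ ∨ w = w₂) ∨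
    (∃ w₁ : HeightOneSpectrum (𝓞 K), Ideal.absNorm w₁.asIdeal = Ideal.absNorm v.asIdeal ^ 2 ∧
      ∀ w : HeightOneSpectrum (𝓞 K), v.asIdeal = w.asIdeal.under (𝓞 K₀) ↔ w = w₁) ∨
    (∃ w₁ : HeightOneSpectrum (𝓞 K), (∀ a : 𝓞 F, algebraMap (𝓞 F) (𝓞 K) (a - cj a) ∈ w₁.asIdeal) ∧
      ∀ w : HeightOneSpectrum (𝓞 K), v.asIdeal = w.asIdeal.under (𝓞 K₀) ↔ w = w₁) := by
  haveI : Algebra.IsQuadraticExtension K₀ K := ⟨hQ.rank⟩
  haveI hgal : IsGalois K₀ K := inferInstance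
  obtain ⟨τ, hτ⟩ := hQ.tau
  have hcardG : Nat.card Gal(K/K₀) = 2 := by
    rw [IsGalois.card_aut_eq_finrank, hQ.rank]
  have hmax : v.asIdeal.IsMaximal := v.isMaximal
  have hid := Ideal.ncard_primesOver_mul_ramificationIdxIn_mul_inertiaDegIn v.asIdeal (𝓞 K) Gal(K/K₀)
  rw [hcardG] at hid
  -- every prime above
  have hprime : ∀ P ∈ Ideal.primesOver v.asIdeal (𝓞 K), ∃ w : HeightOneSpectrum (𝓞 K), w.asIdeal = P := by
    rintro P ⟨hP1, hP2⟩
    refine ⟨⟨P, hP1, ?_⟩, rfl⟩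
    exact Ideal.ne_bot_of_liesOver_of_ne_bot v.ne_bot P
  have hmem : ∀ w : HeightOneSpectrum (𝓞 K), v.asIdeal = w.asIdeal.under (𝓞 K₀) ↔
      w.asIdeal ∈ Ideal.primesOver v.asIdeal (𝓞 K) := by
    intro w
    constructor
    · intro h
      exact ⟨w.isPrime, ⟨h⟩⟩
    · intro h
      exact h.2.over
  have hnorm : ∀ w : HeightOneSpectrum (𝓞 K), w.asIdeal ∈ Ideal.primesOver v.asIdeal (𝓞 K) →
      Ideal.absNorm w.asIdeal = Ideal.absNorm v.asIdeal ^ (Ideal.inertiaDegIn v.asIdeal (𝓞 K)) := by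
    intro w hw
    have hlies : w.asIdeal.LiesOver v.asIdeal := hw.2
    have h3 := Ideal.absNorm_eq_pow_inertiaDeg'_of_liesOver w.asIdeal v.asIdeal v.isPrime v.ne_bot
    rw [Ideal.inertiaDeg'_algebraMap] at h3
    rw [h3, Ideal.inertiaDegIn_eq_inertiaDeg v.asIdeal w.asIdeal Gal(K/K₀),
      Ideal.inertiaDeg_eq_of_isMaximal v.asIdeal w.asIdeal]
  have hcases : ((Ideal.primesOver v.asIdeal (𝓞 K)).ncard = 2 ∧ Ideal.inertiaDegIn v.asIdeal (𝓞 K) = 1) ∨
      ((Ideal.primesOver v.asIdeal (𝓞 K)).ncard = 1 ∧ Ideal.inertiaDegIn v.asIdeal (𝓞 K) = 2) ∨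
      ((Ideal.primesOver v.asIdeal (𝓞 K)).ncard = 1 ∧ Ideal.ramificationIdxIn v.asIdeal (𝓞 K) = 2) := by
    generalize (Ideal.primesOver v.asIdeal (𝓞 K)).ncard = g at hid
    generalize Ideal.ramificationIdxIn v.asIdeal (𝓞 K) = e at hid
    generalize Ideal.inertiaDegIn v.asIdeal (𝓞 K) = f at hid
    have h1 : g ∣ 2 := ⟨_, hid.symm⟩
    rcases (Nat.dvd_prime Nat.prime_two).1 h1 with h2 | h2
    · rw [h2, one_mul] at hid
      have h3 : e ∣ 2 := ⟨_, hid.symm⟩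
      rcases (Nat.dvd_prime Nat.prime_two).1 h3 with h4 | h4
      · rw [h4, one_mul] at hid
        exact Or.inr (Or.inl ⟨h2, hid⟩)
      · exact Or.inr (Or.inr ⟨h2, h4⟩)
    · rw [h2] at hid
      have h3 : e * f = 1 := by omega
      exact Or.inl ⟨h2, Nat.eq_one_of_mul_eq_one_left h3⟩
  rcases hcases with ⟨hg, hf⟩ | ⟨hg, hf⟩ | ⟨hg, he⟩
  · left
    rw [Set.ncard_eq_two] at hg
    obtain ⟨P₁, P₂, hne, hP⟩ := hg
    obtain ⟨w₁, hw₁⟩ := hprime P₁ (by rw [hP]; exact Or.inl rfl)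
    obtain ⟨w₂, hw₂⟩ := hprime P₂ (by rw [hP]; exact Or.inr rfl)
    refine ⟨w₁, w₂, ?_, ?_, ?_, ?_⟩
    · rintro rfl
      exact hne (hw₁.symm.trans hw₂)
    · rw [hnorm w₁ (by rw [hw₁, hP]; exact Or.inl rfl), hf, pow_one]
    · rw [hnorm w₂ (by rw [hw₂, hP]; exact Or.inr rfl), hf, pow_one]
    · intro w
      rw [hmem, hP]
      constructor
      · rintro (h | h)
        · exact Or.inl (HeightOneSpectrum.ext (h.trans hw₁.symm))
        · exact Or.inr (HeightOneSpectrum.ext (h.trans hw₂.symm))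
      · rintro (h | h)
        · left; rw [h, hw₁]
        · right; rw [h, hw₂]; exact Set.mem_singleton _
  · right; left
    rw [Set.ncard_eq_one] at hg
    obtain ⟨P₁, hP⟩ := hg
    obtain ⟨w₁, hw₁⟩ := hprime P₁ (by rw [hP]; exact Set.mem_singleton _)
    refine ⟨w₁, ?_, ?_⟩
    · rw [hnorm w₁ (by rw [hw₁, hP]; exact Set.mem_singleton _), hf]
    · intro w
      rw [hmem, hP, Set.mem_singleton_iff]
      constructor
      · intro h
        exact HeightOneSpectrum.ext (h.trans hw₁.symm)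
      · intro h
        rw [h, hw₁]
  · right; right
    rw [Set.ncard_eq_one] at hg
    obtain ⟨P₁, hP⟩ := hg
    obtain ⟨w₁, hw₁⟩ := hprime P₁ (by rw [hP]; exact Set.mem_singleton _)
    refine ⟨w₁, ?_, ?_⟩
    · have hw1mem : w₁.asIdeal ∈ Ideal.primesOver v.asIdeal (𝓞 K) := by
        rw [hw₁, hP]; exact Set.mem_singleton _
      have hlies : w₁.asIdeal.LiesOver v.asIdeal := hw1mem.2
      have hne0 : w₁.asIdeal ≠ ⊥ := w₁.ne_bot
      have hcard := H55P.cl_card (M := K₀) w₁.asIdeal w₁.ne_bot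
      rw [← Ideal.ramificationIdxIn_eq_ramificationIdx v.asIdeal w₁.asIdeal Gal(K/K₀), he] at hcard
      have htop : w₁.asIdeal.inertia Gal(K/K₀) = ⊤ := by
        apply Subgroup.eq_top_of_card_eq
        rw [hcard, hcardG]
      intro a
      have hin : τ ∈ w₁.asIdeal.inertia Gal(K/K₀) := by rw [htop]; exact Subgroup.mem_top _
      have h1 := hin (algebraMap (𝓞 F) (𝓞 K) a)
      have h2 : τ • (algebraMap (𝓞 F) (𝓞 K) a) = algebraMap (𝓞 F) (𝓞 K) (cj a) := by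
        apply RingOfIntegers.ext
        exact hτ a
      rw [h2, ← map_sub] at h1
      rw [show a - cj a = -(cj a - a) by ring, map_neg]
      exact w₁.asIdeal.neg_mem h1
    · intro w
      rw [hmem, hP, Set.mem_singleton_iff]
      constructor
      · intro h
        exact HeightOneSpectrum.ext (h.trans hw₁.symm)
      · intro h
        rw [h, hw₁]

end H55K.TQ
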