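import Mathlib
import Pool.Agent.Lib.H55K.RD

/-! # H55K: primes in the quadratic extension -/

open NumberField IsDedekindDomain WeierstrassCurve

namespace H55K.TQ

open H55P (IQ embF eF LF Per IsHecke Pt ac Inert Dec Nm UnitP)
open H35P (WAB Ker tt GoodW IntW)
open H55K.MG (VC Crd)

variable {F K₀ K : Type} [Field F] [NumberField F] [IQ F] [Field K₀] [NumberField K₀] [Field K] [NumberField K]
  [Algebra F K] [Algebra K₀ K]

omit F K₀ K in
theorem rb2_roots {k k' : Type} [Field k] [Field k'] [Fintype k] {q : ℕ} (φ : k →+* k')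
    (h1 : ∀ x : k, x ^ q = x) (h2 : Fintype.card k = q) (hq : 1 < q) (y : k') (hy : y ^ q = y) :
    ∃ x : k, φ x = y := by
  classical
  obtain ⟨p, hp⟩ : ∃ p : Polynomial k', p = Polynomial.X ^ q - Polynomial.X := ⟨_, rfl⟩
  have hd : p.natDegree = q := by
    rw [hp]
    exact FiniteField.X_pow_card_sub_X_natDegree_eq k' hq
  have hp0 : p ≠ 0 := by
    intro h0
    rw [h0, Polynomial.natDegree_zero] at hd
    omega
  have hr : ∀ y : k', y ^ q = y → y ∈ p.roots.toFinset := by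
    intro y hy
    rw [Multiset.mem_toFinset, Polynomial.mem_roots hp0, Polynomial.IsRoot.def, hp]
    simp [hy]
  have hsub : Finset.univ.image φ ⊆ p.roots.toFinset := by
    intro y hy
    obtain ⟨x, -, rfl⟩ := Finset.mem_image.1 hy
    exact hr _ (by rw [← map_pow, h1])
  have hcard : p.roots.toFinset.card ≤ (Finset.univ.image φ).card := by
    rw [Finset.card_image_of_injective _ φ.injective, Finset.card_univ, h2]
    refine (Multiset.toFinset_card_le _).trans ?_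
    rw [← hd]
    exact Polynomial.card_roots' p
  have heq := Finset.eq_of_subset_of_card_le hsub hcard
  have h3 := hr y hy
  rw [← heq] at h3
  obtain ⟨x, -, hx⟩ := Finset.mem_image.1 h3
  exact ⟨x, hx⟩

/-- Chunk RB2 (M). Let w be the only prime above v, N w = (N v)^2, l the rational prime below, not ramified in F in the sense h. Then l is inert in F and N v = l^f with f odd: v_F = w ∩ 𝓞 F. τ w = w and τ = cj on 𝓞 F, so cj v_F = v_F. 𝓞 F ⧸ v_F has l or l^2 elements (degree 2). If it has l elements then every a in 𝓞 F is congruent to an integer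
modulo v_F, so a - cj a is in v_F for all a: against h. So it has l^2 elements and v_F = (l). If f were even, the field 𝓞 K₀ ⧸ v (l^f elements) would contain a root of the polynomial x^2 - t x + n (t = a + cj a, n = a cj a integers) of every a in 𝓞 F (it contains the field with l^2 elements); take a with a not congruent to an integer modulo (l): there is z in 𝓞 K₀ with
z^2 - t z + n in v, so (z - a)(z - cj a) is in w: z - a or z - cj a in w, so a (or cj a) is congruent to z modulo w, and τ z = z gives a - cj a in w for this a, hence the class of a in 𝓞 F ⧸ v_F is fixed by the conjugation; l^2 elements, generated by a over the prime field: the conjugation acts trivially on 𝓞 F ⧸ v_F, against h. -/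
theorem quad_inert (hQ : QuadG F K₀ K) (v : HeightOneSpectrum (𝓞 K₀)) (w : HeightOneSpectrum (𝓞 K))
    (hN : Ideal.absNorm w.asIdeal = Ideal.absNorm v.asIdeal ^ 2)
    (hw : ∀ w' : HeightOneSpectrum (𝓞 K), v.asIdeal = w'.asIdeal.under (𝓞 K₀) ↔ w' = w)
    (h : ¬ ∀ a : 𝓞 F, algebraMap (𝓞 F) (𝓞 K) (a - cj a) ∈ w.asIdeal) {l f : ℕ} (hl : l.Prime)
    (hf : Ideal.absNorm v.asIdeal = l ^ f) :
    Odd f ∧ w.asIdeal.under (𝓞 F) = Ideal.span {(l : 𝓞 F)} := by
  classical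
  obtain ⟨τ, hτ⟩ := hQ.tau
  obtain ⟨T, hT⟩ : ∃ T : 𝓞 K ≃+* 𝓞 K, ∀ x : 𝓞 K, ((T x : 𝓞 K) : K) = τ (x : K) :=
    ⟨RingOfIntegers.mapRingEquiv (τ : K ≃+* K), fun x => rfl⟩
  have hTF : ∀ a : 𝓞 F, T (algebraMap (𝓞 F) (𝓞 K) a) = algebraMap (𝓞 F) (𝓞 K) (cj a) := by
    intro a
    apply RingOfIntegers.ext
    rw [hT]
    exact hτ a
  have hTK : ∀ z : 𝓞 K₀, T (algebraMap (𝓞 K₀) (𝓞 K) z) = algebraMap (𝓞 K₀) (𝓞 K) z := by
    intro z
    apply RingOfIntegers.ext
    rw [hT]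
    exact τ.commutes (z : K₀)
  have hv0 : v.asIdeal = w.asIdeal.under (𝓞 K₀) := (hw w).2 rfl
  have hwT : ∀ x : 𝓞 K, T x ∈ w.asIdeal ↔ x ∈ w.asIdeal := by
    have hp : (w.asIdeal.comap (T : 𝓞 K →+* 𝓞 K)).IsPrime := Ideal.comap_isPrime _ _
    have hb : w.asIdeal.comap (T : 𝓞 K →+* 𝓞 K) ≠ ⊥ := by
      intro h0
      obtain ⟨x, hx, hx0⟩ := Submodule.exists_mem_ne_zero_of_ne_bot w.ne_bot
      have h1 : T.symm x ∈ w.asIdeal.comap (T : 𝓞 K →+* 𝓞 K) := by
        rw [Ideal.mem_comap]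
        show T (T.symm x) ∈ w.asIdeal
        rw [T.apply_symm_apply]
        exact hx
      rw [h0] at h1
      have h2 : T.symm x = 0 := h1
      exact hx0 ((map_eq_zero_iff T.symm T.symm.injective).1 h2)
    have h1 := (hw ⟨w.asIdeal.comap (T : 𝓞 K →+* 𝓞 K), hp, hb⟩).1 (by
      rw [hv0]
      ext z
      rw [Ideal.under_def, Ideal.under_def, Ideal.mem_comap, Ideal.mem_comap, Ideal.mem_comap]
      show _ ↔ T (algebraMap (𝓞 K₀) (𝓞 K) z) ∈ w.asIdeal
      rw [hTK])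
    intro x
    have h2 := congrArg HeightOneSpectrum.asIdeal h1
    have h3 : x ∈ w.asIdeal.comap (T : 𝓞 K →+* 𝓞 K) ↔ x ∈ w.asIdeal := by
      rw [show w.asIdeal.comap (T : 𝓞 K →+* 𝓞 K) = w.asIdeal from h2]
    exact h3
  obtain ⟨P, hP⟩ : ∃ P, P = w.asIdeal.under (𝓞 F) := ⟨_, rfl⟩
  have hPm : ∀ a : 𝓞 F, a ∈ P ↔ algebraMap (𝓞 F) (𝓞 K) a ∈ w.asIdeal := by
    intro a
    rw [hP, Ideal.under_def, Ideal.mem_comap]
  have hPp : P.IsPrime := by
    rw [hP]
    infer_instance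
  have hPc : ∀ a : 𝓞 F, cj a ∈ P ↔ a ∈ P := by
    intro a
    rw [hPm, hPm, ← hTF, hwT]
  -- l in w
  have hlv : (l : 𝓞 K₀) ∈ v.asIdeal := by
    have h1 := Ideal.absNorm_mem v.asIdeal
    rw [hf, Nat.cast_pow] at h1
    exact v.isPrime.mem_of_pow_mem _ h1
  have hlP : (l : 𝓞 F) ∈ P := by
    rw [hPm, map_natCast]
    rw [hv0, Ideal.under_def, Ideal.mem_comap, map_natCast] at hlv
    exact hlv
  have hint : ∀ n : ℤ, (n : 𝓞 F) ∈ P → (l : ℤ) ∣ n := by
    intro n hn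
    by_contra hnd
    have hc : IsCoprime (l : ℤ) n := (Nat.prime_iff_prime_int.1 hl).coprime_iff_not_dvd.2 hnd
    obtain ⟨a, b, hab⟩ := hc
    apply hPp.ne_top
    rw [Ideal.eq_top_iff_one]
    have h1 : ((a * l + b * n : ℤ) : 𝓞 F) ∈ P := by
      push_cast
      exact P.add_mem (P.mul_mem_left _ hlP) (P.mul_mem_left _ hn)
    rw [hab] at h1
    exact_mod_cast h1
  have htr : ∀ x : 𝓞 F, ∃ n : ℤ, x + cj x = n := by
    intro x
    refine ⟨(Nm (1 + x) : ℤ) - Nm x - 1, ?_⟩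
    have h1 := mul_cj (1 + x)
    have h2 := mul_cj x
    rw [map_add, map_one] at h1
    push_cast
    rw [← h1, ← h2]
    ring
  push Not at h
  obtain ⟨a₀, ha₀⟩ := h
  rw [← hPm] at ha₀
  have hlmul : ∀ x : 𝓞 F, x + cj x ∈ P → ∃ y : 𝓞 F, x + cj x = l * y := by
    intro x hx
    obtain ⟨n, hn⟩ := htr x
    rw [hn] at hx
    obtain ⟨k, hk⟩ := hint n hx
    exact ⟨k, by rw [hn, hk]; push_cast; ring⟩
  have hPl : P = Ideal.span {(l : 𝓞 F)} := by
    apply le_antisymm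
    · intro b hb
      have hb' := (hPc b).2 hb
      obtain ⟨y1, hy1⟩ := hlmul b (P.add_mem hb hb')
      obtain ⟨y2, hy2⟩ := hlmul (b * a₀) (P.add_mem (P.mul_mem_right _ hb) (by
        rw [map_mul]; exact P.mul_mem_right _ hb'))
      rw [map_mul] at hy2
      have h1 : b * (a₀ - cj a₀) = l * (y2 - cj a₀ * y1) := by linear_combination hy2 - cj a₀ * hy1
      have h2 : ¬ (l : ℤ) ∣ (Nm (a₀ - cj a₀) : ℤ) := by
        intro hd
        obtain ⟨k, hk⟩ := hd
        have h3 : ((Nm (a₀ - cj a₀) : ℤ) : 𝓞 F) ∈ P := by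
          rw [hk]
          push_cast
          exact P.mul_mem_right _ hlP
        have h4 : (a₀ - cj a₀) * cj (a₀ - cj a₀) ∈ P := by
          rw [mul_cj]
          exact_mod_cast h3
        rcases hPp.mem_or_mem h4 with h5 | h5
        · exact ha₀ h5
        · exact ha₀ ((hPc _).1 h5)
      obtain ⟨c, d, hcd⟩ := (Nat.prime_iff_prime_int.1 hl).coprime_iff_not_dvd.2 h2
      rw [Ideal.mem_span_singleton]
      have h6 : (c : 𝓞 F) * l + d * (Nm (a₀ - cj a₀) : 𝓞 F) = 1 := by exact_mod_cast hcd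
      rw [← mul_cj] at h6
      refine ⟨c * b + d * cj (a₀ - cj a₀) * (y2 - cj a₀ * y1), ?_⟩
      linear_combination (-b) * h6 + d * cj (a₀ - cj a₀) * h1
    · rw [Ideal.span_singleton_le_iff_mem]
      exact hlP
  refine ⟨?_, by rw [← hP, hPl]⟩
  -- f is odd
  rw [← Nat.not_even_iff_odd]
  rintro ⟨m, hm⟩
  have hPne : P ≠ ⊥ := by
    intro h0
    rw [h0] at hlP
    have h1 : (l : 𝓞 F) = 0 := hlP
    exact hl.ne_zero (by exact_mod_cast h1)
  have hPmax : P.IsMaximal := hPp.isMaximal hPne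
  have hN2 : Ideal.absNorm P = l ^ 2 := by
    rw [hPl]
    exact Nm_nat l
  letI : Field (𝓞 F ⧸ P) := Ideal.Quotient.field P
  have hfin : Finite (𝓞 F ⧸ P) := Ideal.finiteQuotientOfFreeOfNeBot P hPne
  letI := Fintype.ofFinite (𝓞 F ⧸ P)
  have hcard : Fintype.card (𝓞 F ⧸ P) = l ^ 2 := by
    rw [← Nat.card_eq_fintype_card, ← hN2]
    rfl
  have hpow : ∀ a : 𝓞 F, a ^ (l ^ 2) - a ∈ P := by
    intro a
    rw [← Ideal.Quotient.eq_zero_iff_mem, map_sub, map_pow, ← hcard, FiniteField.pow_card, sub_self]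
  have hpow2 : ∀ (k : ℕ) (a : 𝓞 F), a ^ ((l ^ 2) ^ k) - a ∈ P := by
    intro k
    induction k with
    | zero =>
      intro a
      rw [pow_zero, pow_one, sub_self]
      exact P.zero_mem
    | succ k ih =>
      intro a
      have h1 := hpow (a ^ ((l ^ 2) ^ k))
      rw [← pow_mul, ← pow_succ] at h1
      have h2 := P.add_mem h1 (ih a)
      rwa [sub_add_sub_cancel] at h2
  have hq : (l ^ 2) ^ m = Ideal.absNorm v.asIdeal := by
    rw [hf, hm, ← pow_mul]
    congr 1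
    ring
  -- the residue fields
  have hvmax := v.isMaximal
  have hwmax := w.isMaximal
  letI : Field (𝓞 K ⧸ w.asIdeal) := Ideal.Quotient.field w.asIdeal
  letI : Field (𝓞 K₀ ⧸ v.asIdeal) := Ideal.Quotient.field v.asIdeal
  have hfinv : Finite (𝓞 K₀ ⧸ v.asIdeal) := Ideal.finiteQuotientOfFreeOfNeBot v.asIdeal v.ne_bot
  letI := Fintype.ofFinite (𝓞 K₀ ⧸ v.asIdeal)
  have hcardv : Fintype.card (𝓞 K₀ ⧸ v.asIdeal) = Ideal.absNorm v.asIdeal := by
    rw [← Nat.card_eq_fintype_card]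
    rfl
  obtain ⟨φ, hφ⟩ : ∃ φ : (𝓞 K₀ ⧸ v.asIdeal) →+* (𝓞 K ⧸ w.asIdeal), ∀ z : 𝓞 K₀,
      φ (Ideal.Quotient.mk v.asIdeal z) = Ideal.Quotient.mk w.asIdeal (algebraMap (𝓞 K₀) (𝓞 K) z) := by
    refine ⟨Ideal.quotientMap w.asIdeal (algebraMap (𝓞 K₀) (𝓞 K)) (by
      rw [hv0, Ideal.under_def]), fun z => ?_⟩
    rw [Ideal.quotientMap_mk]
  have hqq : 1 < Ideal.absNorm v.asIdeal := by
    rw [← hcardv]
    exact Fintype.one_lt_card
  have key := rb2_roots φ (fun x => by rw [← hcardv]; exact FiniteField.pow_card x)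
    (by rw [hcardv]) hqq
  apply ha₀
  have h1 : (Ideal.Quotient.mk w.asIdeal (algebraMap (𝓞 F) (𝓞 K) a₀)) ^ (Ideal.absNorm v.asIdeal) =
      Ideal.Quotient.mk w.asIdeal (algebraMap (𝓞 F) (𝓞 K) a₀) := by
    rw [← sub_eq_zero, ← map_pow, ← map_pow, ← map_sub, ← map_sub, Ideal.Quotient.eq_zero_iff_mem,
      ← hPm, ← hq]
    exact hpow2 m a₀
  obtain ⟨z, hz⟩ := key _ h1
  obtain ⟨z, rfl⟩ := Ideal.Quotient.mk_surjective z
  rw [hφ, Ideal.Quotient.eq] at hz
  have h2 := (hwT _).2 hz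
  rw [map_sub, hTK, hTF] at h2
  rw [hPm]
  have h3 := w.asIdeal.sub_mem h2 hz
  rw [map_sub]
  have e : algebraMap (𝓞 F) (𝓞 K) a₀ - algebraMap (𝓞 F) (𝓞 K) (cj a₀) =
    (algebraMap (𝓞 K₀) (𝓞 K) z - algebraMap (𝓞 F) (𝓞 K) (cj a₀)) -
      (algebraMap (𝓞 K₀) (𝓞 K) z - algebraMap (𝓞 F) (𝓞 K) a₀) := by ring
  rw [e]
  exact h3

end H55K.TQ
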