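import Mathlib
import Pool.Agent.Lib.H55K.RA1
import Pool.Agent.Lib.H55K.RA2
import Pool.Agent.Lib.H55K.RB1
import Pool.Agent.Lib.H55K.RB2
import Pool.Agent.Lib.H55K.RC1
import Pool.Agent.Lib.H55K.RG

/-! # H55K: the Euler factors over the quadratic extension -/

open NumberField IsDedekindDomain WeierstrassCurve

namespace H55K.TQ

open H55P (IQ embF eF LF Per IsHecke Pt ac Inert Dec Nm UnitP)
open H35P (WAB Ker tt GoodW IntW)
open H55K.MG (VC Crd)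
open H55K.DD (LF' ef)

variable {F K₀ K : Type} [Field F] [NumberField F] [IQ F] [Field K₀] [NumberField K₀] [Field K] [NumberField K]
  [Algebra F K] [Algebra K₀ K]

theorem rh_int {R : Type} [CommRing R] {I : Ideal R} (hI : I ≠ ⊤) {l : ℕ} (hl : l.Prime) (hlI : (l : R) ∈ I) (d : ℤ) :
    (d : R) ∈ I ↔ (l : ℤ) ∣ d := by
  constructor
  · intro hd
    by_contra hn
    have hcop : IsCoprime (l : ℤ) d := (Int.isCoprime_iff_gcd_eq_one).2
      ((Nat.Prime.coprime_iff_not_dvd hl).2 fun h => hn (Int.natCast_dvd.2 h))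
    obtain ⟨a, b, hab⟩ := hcop
    have h1 : (a : R) * (l : R) + (b : R) * (d : R) = 1 := by
      have := congrArg (fun z : ℤ => (z : R)) hab
      push_cast at this
      exact this
    apply hI
    rw [Ideal.eq_top_iff_one, ← h1]
    exact add_mem (Ideal.mul_mem_left _ _ hlI) (Ideal.mul_mem_left _ _ hd)
  · rintro ⟨c, rfl⟩
    push_cast
    exact Ideal.mul_mem_right _ _ hlI

theorem rh_disc (W : WeierstrassCurve ℤ) (R : Type) [CommRing R] : (W⁄R).Δ = ((W.Δ : ℤ) : R) := by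
  show (W.map (algebraMap ℤ R)).Δ = _
  rw [WeierstrassCurve.map_Δ, eq_intCast]

theorem rh_over {R S : Type} [CommRing R] [CommRing S] [Algebra R S] {I : Ideal R} {J : Ideal S}
    (h : I = J.under R) {l : ℕ} (hl : (l : R) ∈ I) : (l : S) ∈ J := by
  rw [h, Ideal.under_def, Ideal.mem_comap, map_natCast] at hl
  exact hl

theorem rh_under {R S : Type} [CommRing R] [CommRing S] [Algebra R S] {I : Ideal R} {J : Ideal S}
    (h : I = J.under R) {l : ℕ} (hl : (l : S) ∈ J) : (l : R) ∈ I := by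
  rw [h, Ideal.under_def, Ideal.mem_comap, map_natCast]
  exact hl

theorem rh_roots (t l : ℂ) : ∃ α β : ℂ, α + β = t ∧ α * β = l := by
  obtain ⟨s, hs⟩ := IsAlgClosed.exists_pow_nat_eq (t ^ 2 - 4 * l) (n := 2) (by norm_num)
  refine ⟨(t + s) / 2, (t - s) / 2, by ring, ?_⟩
  linear_combination (-1 / 4) * hs

/-- Chunk RH (M). l, f from below_W for v. If Δ is in v (l divides Δ: an integer in v is divisible by l): hbad for the w above v (one exists; mK m ≤ w: m contained in w ∩ 𝓞 F because Δ is in it, hsupp), good_up: W⁄K₀ is bad at v: LF' = 1 (lf_W_bad), and LF' = 1 at all w. Otherwise l does not divide Δ; t = l + 1 - #W(ZMod l), α, β the roots of x^2 - t x + l in ℂ. quad_primes: third case: a - cj a in w₁ ∩ 𝓞 F =: v_F for all a,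
so Δ in v_F (hram), Δ in w₁, l divides Δ: excluded. Two primes: absNorm = l^f: all three local factors are ef(q)(α^f) ef(q)(β^f) (lf_W): the product over T = {w₁, w₂} is the square. One prime with absNorm (l^f)^2 = l^(2f): quad_inert (third case excluded for w as before): f odd, v_F = (l), inert_F (Δ not in v_F; not m ≤ v_F by hsupp): #W(ZMod l) = l + 1, t = 0,
β = -α, α^2 = -l. LF' over K₀: ef(q)(α^f) ef(q)(-α^f) = ef(q^2)(α^(2f)) (ef_sq, f odd), over K: ef(q^2)(α^(2f)) ef(q^2)(β^(2f)), β^(2f) = α^(2f). -/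
theorem lf_sq (hQ : QuadG F K₀ K) {W : WeierstrassCurve ℤ} {m : Ideal (𝓞 F)} {ψ : Ideal (𝓞 F) →*₀ 𝓞 F}
    (hψ : H55P.IsHecke m ψ)
    (hdeu : ∀ v : HeightOneSpectrum (𝓞 F), (W⁄(𝓞 F)).Δ ∉ v.asIdeal → ¬ m ≤ v.asIdeal →
      Nat.card ((W⁄(𝓞 F))⁄(𝓞 F ⧸ v.asIdeal)).toAffine.Point = Nm (1 - ψ v.asIdeal))
    (hsupp : ∀ v : HeightOneSpectrum (𝓞 F), (W⁄(𝓞 F)).Δ ∈ v.asIdeal ↔ m ≤ v.asIdeal)
    (hram : ∀ v : HeightOneSpectrum (𝓞 F), (∀ a : 𝓞 F, a - cj a ∈ v.asIdeal) → (W⁄(𝓞 F)).Δ ∈ v.asIdeal)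
    {j₀ : ℤ} (hj : W.c₄ ^ 3 = j₀ * W.Δ) (hbad : ∀ w : HeightOneSpectrum (𝓞 K), H55P.mK K m ≤ w.asIdeal → ¬ GoodAt (W⁄K) w)
    (v : HeightOneSpectrum (𝓞 K₀)) (T : Finset (HeightOneSpectrum (𝓞 K)))
    (hT : ∀ w, w ∈ T ↔ v.asIdeal = w.asIdeal.under (𝓞 K₀)) :
    ∏ w ∈ T, LF' (W⁄K) w = LF' (W⁄K₀) v * LF' (W⁄K₀) v := by
  classical
  obtain ⟨l, f, hl, hlv, hf, hNv⟩ := below_W v
  have hq := quad_primes hQ v
  by_cases hlΔ : (l : ℤ) ∣ W.Δ
  · -- bad reduction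
    have hb : ∀ w : HeightOneSpectrum (𝓞 K), v.asIdeal = w.asIdeal.under (𝓞 K₀) → ¬ GoodAt (W⁄K) w := by
      intro w hw
      apply hbad
      obtain ⟨v', hv', -, -, hm⟩ := H55K.DD.below (F := F) (m := m) w
      rw [hm, ← hsupp, rh_disc, rh_int v'.isPrime.ne_top hl (rh_under hv' (rh_over hw hlv))]
      exact hlΔ
    have h1 : ∏ w ∈ T, LF' (W⁄K) w = 1 := Finset.prod_eq_one fun w hw => lf_W_bad W w hj (hb w ((hT w).1 hw))
    have hex : ∃ w : HeightOneSpectrum (𝓞 K), v.asIdeal = w.asIdeal.under (𝓞 K₀) := by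
      rcases hq with ⟨w₁, w₂, -, -, -, h⟩ | ⟨w₁, -, h⟩ | ⟨w₁, -, h⟩
      · exact ⟨w₁, (h w₁).2 (Or.inl rfl)⟩
      · exact ⟨w₁, (h w₁).2 rfl⟩
      · exact ⟨w₁, (h w₁).2 rfl⟩
    obtain ⟨w, hw⟩ := hex
    have hbv : ¬ GoodAt (W⁄K₀) v := by
      intro hg
      apply hb w hw
      have h2 := good_up hw hg
      have e : ((W⁄K₀)⁄K) = W⁄K := by
        show (W.map (algebraMap ℤ K₀)).map (algebraMap K₀ K) = W.map (algebraMap ℤ K)
        rw [WeierstrassCurve.map_map]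
        congr 1
        exact Subsingleton.elim _ _
      rwa [e] at h2
    rw [h1, lf_W_bad W v hj hbv, mul_one]
  -- good reduction
  obtain ⟨α, β, h1, h2⟩ := rh_roots ((l : ℂ) + 1 - (Nat.card (W⁄(ZMod l)).toAffine.Point : ℂ)) (l : ℂ)
  have hLv := lf_W W v hl hlv hlΔ α β h1 h2 hNv
  have hnr : ∀ w : HeightOneSpectrum (𝓞 K), v.asIdeal = w.asIdeal.under (𝓞 K₀) →
      ¬ ∀ a : 𝓞 F, algebraMap (𝓞 F) (𝓞 K) (a - cj a) ∈ w.asIdeal := by
    intro w hw hall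
    obtain ⟨v', hv', -, -, -⟩ := H55K.DD.below (F := F) (m := m) w
    have h3 := hram v' fun a => by
      rw [hv', Ideal.under_def, Ideal.mem_comap]
      exact hall a
    rw [rh_disc, rh_int v'.isPrime.ne_top hl (rh_under hv' (rh_over hw hlv))] at h3
    exact hlΔ h3
  rcases hq with ⟨w₁, w₂, hne, hN1, hN2, h⟩ | ⟨w₁, hN1, h⟩ | ⟨w₁, hN1, h⟩
  · -- split
    have hTe : T = {w₁, w₂} := by
      ext w
      rw [hT, h, Finset.mem_insert, Finset.mem_singleton]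
    have e1 := lf_W W w₁ hl (rh_over ((h w₁).2 (Or.inl rfl)) hlv) hlΔ α β h1 h2 (hN1.trans hNv)
    have e2 := lf_W W w₂ hl (rh_over ((h w₂).2 (Or.inr rfl)) hlv) hlΔ α β h1 h2 (hN2.trans hNv)
    rw [hTe, Finset.prod_pair hne, e1, e2, hLv, hN1, hN2]
  · -- inert
    have hw1 := (h w₁).2 rfl
    have hTe : T = {w₁} := by
      ext w
      rw [hT, h, Finset.mem_singleton]
    obtain ⟨hodd, hund⟩ := quad_inert hQ v w₁ hN1 h (hnr w₁ hw1) hl hNv
    obtain ⟨v', hv', -, -, hm⟩ := H55K.DD.below (F := F) (m := m) w₁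
    have hΔ' : (W⁄(𝓞 F)).Δ ∉ v'.asIdeal := by
      rw [rh_disc, rh_int v'.isPrime.ne_top hl (rh_under hv' (rh_over hw1 hlv))]
      exact hlΔ
    have hm' : ¬ m ≤ v'.asIdeal := fun h3 => hΔ' ((hsupp v').2 h3)
    have hcard := (inert_F hψ hdeu hl v' (hv'.trans hund) hΔ' hm').1
    have hβ : β = -α := by
      rw [hcard] at h1
      push_cast at h1
      linear_combination h1
    have hNw : Ideal.absNorm w₁.asIdeal = l ^ (2 * f) := by
      rw [hN1, hNv, ← pow_mul, mul_comm]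
    have e1 := lf_W W w₁ hl (rh_over hw1 hlv) hlΔ α β h1 h2 hNw
    have hq1 : 1 < Ideal.absNorm v.asIdeal := by
      rw [hNv]
      exact Nat.one_lt_pow hf.ne' hl.one_lt
    have e2 : LF' (W⁄K₀) v = ef (Ideal.absNorm v.asIdeal ^ 2) (α ^ (2 * f)) := by
      rw [hLv, hβ, hodd.neg_pow, ef_sq hq1, ← pow_mul, mul_comm f 2]
    have e3 : β ^ (2 * f) = α ^ (2 * f) := by
      rw [hβ, pow_mul, neg_sq, ← pow_mul]
    rw [hTe, Finset.prod_singleton, e1, e2, e3, hN1]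
  · exact absurd hN1 (hnr w₁ ((h w₁).2 rfl))

end H55K.TQ
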