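import Mathlib
import Pool.Agent.Lib.H13E.Q6
import Pool.Agent.Lib.H55K.D2
import Pool.Agent.Lib.H55K.M0
import Pool.Agent.Lib.H55K.M2B
import Pool.Agent.Lib.H55P.Stm

/-! # H55K: the L-function over a field which does not contain F -/

open NumberField IsDedekindDomain WeierstrassCurve

namespace H55K.TQ

open H55P (IQ embF eF LF Per IsHecke Pt ac Inert Dec Nm UnitP)
open H35P (WAB Ker tt GoodW IntW)
open H55K.MG (VC Crd)
open H55K.DD (LF' ef)

variable {F K₀ K : Type} [Field F] [NumberField F] [IQ F] [Field K₀] [NumberField K₀] [Field K] [NumberField K]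
  [Algebra F K] [Algebra K₀ K]

/-- the Euler product, up to m -/
theorem ri1_ev {K : Type} [Field K] [NumberField K] (W : WeierstrassCurve K) (m : ℕ) :
    ∀ᶠ T : Finset (HeightOneSpectrum (𝓞 K)) in Filter.atTop,
      (∏ w ∈ T, LF' W w) m = ((W.LFunction m : ℤ) : ℂ) := by
  have hN : Northcott (fun w : HeightOneSpectrum (𝓞 K) =>
      Nat.card (IsLocalRing.ResidueField (w.adicCompletionIntegers K))) := by
    have h1 : (fun w : HeightOneSpectrum (𝓞 K) =>
      Nat.card (IsLocalRing.ResidueField (w.adicCompletionIntegers K))) =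
        fun w => Ideal.absNorm w.asIdeal := funext fun w => (H55B.residue_card K w).2
    rw [h1]
    infer_instance
  have h := ArithmeticFunction.tendsTo_eulerProduct_ofPowerSeries
    (fun w : HeightOneSpectrum (𝓞 K) =>
      Nat.card (IsLocalRing.ResidueField (w.adicCompletionIntegers K)))
    (fun w => (W.baseChange (w.adicCompletion K)).localPowerSeries
      (w.adicCompletionIntegers K))
    (fun w => by simp [WeierstrassCurve.localPowerSeries]) m
  have h' : ∀ᶠ T : Finset (HeightOneSpectrum (𝓞 K)) in Filter.atTop,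
      (∏ w ∈ T, (W.baseChange (w.adicCompletion K)).localEulerFactor
        (w.adicCompletionIntegers K)) m = W.LFunction m := h
  refine h'.mono fun T hT => ?_
  rw [← hT, ← ArithmeticFunction.intCoe_apply, H55B.I2_cast_prod]
  rfl

/-- Chunk RI1 (M). Port of H55P.pz7_sq (Z7.lean) with LF' for LEF (H55D.DQ6_ev: the coefficient of the L-function is eventually the one of finite products of local factors: copy for W⁄K; q6_fin, q6_under from H13E.Q6). -/
theorem lfun_sq {W : WeierstrassCurve ℤ}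
    (h : ∀ (v : HeightOneSpectrum (𝓞 K₀)) (T : Finset (HeightOneSpectrum (𝓞 K))),
      (∀ w, w ∈ T ↔ v.asIdeal = w.asIdeal.under (𝓞 K₀)) → ∏ w ∈ T, LF' (W⁄K) w = LF' (W⁄K₀) v * LF' (W⁄K₀) v)
    (n : ℕ) : (((W⁄K).LFunction n : ℤ) : ℂ) =
      ((((W⁄K₀).LFunction : ArithmeticFunction ℤ) : ArithmeticFunction ℂ) *
        (((W⁄K₀).LFunction : ArithmeticFunction ℤ) : ArithmeticFunction ℂ)) n := by
  classical
  obtain ⟨s0, hs0⟩ := Filter.eventually_atTop.1 (ri1_ev (W⁄K) n)
  have hR : ∀ᶠ t : Finset (HeightOneSpectrum (𝓞 K₀)) in Filter.atTop,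
      ∀ m ∈ Finset.range (n + 1),
      (∏ w ∈ t, LF' (W⁄K₀) w) m = (((W⁄K₀).LFunction m : ℤ) : ℂ) := by
    rw [Filter.eventually_all_finset]
    intro m _
    exact ri1_ev (W⁄K₀) m
  obtain ⟨t0, ht0⟩ := Filter.eventually_atTop.1 hR
  set ov : HeightOneSpectrum (𝓞 K₀) → Finset (HeightOneSpectrum (𝓞 K)) :=
    fun v => (H13E.q6_fin K v).toFinset with hov
  have hmo : ∀ v w, w ∈ ov v ↔ v.asIdeal = w.asIdeal.under (𝓞 K₀) := by
    intro v w
    simp [hov]
  set t : Finset (HeightOneSpectrum (𝓞 K₀)) := t0 ∪ s0.image (H13E.q6_under K₀) with ht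
  set T : Finset (HeightOneSpectrum (𝓞 K)) := t.biUnion ov with hTdef
  have hsub : s0 ⊆ T := by
    intro w hw
    rw [hTdef, Finset.mem_biUnion]
    refine ⟨H13E.q6_under K₀ w, Finset.mem_union_right _ (Finset.mem_image_of_mem _ hw), ?_⟩
    rw [hmo]
    rfl
  rw [← hs0 T hsub, hTdef, Finset.prod_biUnion]
  · have h2 : ∀ v ∈ t, ∏ w ∈ ov v, LF' (W⁄K) w = LF' (W⁄K₀) v * LF' (W⁄K₀) v := by
      intro v _
      exact h v (ov v) (hmo v)
    rw [Finset.prod_congr rfl h2, Finset.prod_mul_distrib]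
    have hts : t0 ⊆ t := Finset.subset_union_left
    refine H55B.I2_mul_congr ?_ ?_ n le_rfl
    · intro m hm
      rw [ht0 t hts m (Finset.mem_range.2 (by omega)), ArithmeticFunction.intCoe_apply]
    · intro m hm
      rw [ht0 t hts m (Finset.mem_range.2 (by omega)), ArithmeticFunction.intCoe_apply]
  · intro v _ v' _ hne
    rw [Function.onFun, Finset.disjoint_left]
    intro w hw hw'
    rw [hmo] at hw hw'
    apply hne
    apply HeightOneSpectrum.ext
    rw [hw, hw']

end H55K.TQ
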