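import Mathlib
import Pool.Agent.Lib.H55D.QA
import Pool.Agent.Lib.H55K.DM
import Pool.Agent.Lib.H55K.RC2
import Pool.Agent.Lib.H55K.RE
import Pool.Agent.Lib.H55K.RH
import Pool.Agent.Lib.H55K.RI1

/-! # H55K: the L-function over a field which does not contain F -/

open NumberField IsDedekindDomain WeierstrassCurve

namespace H55K.TQ

open H55P (IQ embF eF LF Per IsHecke Pt ac Inert Dec Nm UnitP)
open H35P (WAB Ker tt GoodW IntW)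
open H55K.MG (VC Crd)
open H55K.DD (LF' ef)

variable {F K₀ K : Type} [Field F] [NumberField F] [IQ F] [Field K₀] [NumberField K₀] [Field K] [NumberField K]
  [Algebra F K] [Algebra K₀ K]

theorem ri2_one {L : Type} [Field L] [NumberField L] (V : WeierstrassCurve L) : ((V.LFunction 1 : ℤ) : ℂ) = 1 := by
  obtain ⟨s, hs⟩ := (ri1_ev V 1).exists
  rw [← hs]
  exact H55D.DQA_prod_one s _ fun w _ => lf_one V w

theorem ri2_AI_one (ψ : Ideal (𝓞 F) →*₀ 𝓞 F) : H55N.AI (fun a : Ideal (𝓞 K) => H55P.PsiP K ψ a) 1 = 1 := by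
  show (if (1 : ℕ) = 0 then (0 : ℂ) else
    ∑ᶠ (a : Ideal (𝓞 K)) (_ : Ideal.absNorm a = 1), H55P.PsiP K ψ a) = 1
  rw [if_neg one_ne_zero, finsum_eq_single _ (1 : Ideal (𝓞 K))]
  · rw [finsum_eq_if, if_pos (map_one _), map_one]
  · intro x hx
    rw [finsum_eq_if, if_neg]
    intro hn
    exact hx (by rw [Ideal.absNorm_eq_one_iff] at hn; rw [hn, Ideal.one_eq_top])

/-- Chunk RI2 (M). Port of H55P.LFunU0 (Z7.lean): lf_sq, lfun_sq; lfun_K (DM.lean) for W₀ = W⁄(𝓞 F) over K ((W₀⁄F)⁄K = W⁄K); ai_real with psi_cj; H13E.sqrt_unique; the value of the L-function at 1 is 1 (H55D.DQA_LFun_one for W: lf_one). -/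
theorem lfun_quad (hQ : QuadG F K₀ K) {W : WeierstrassCurve ℤ} {m : Ideal (𝓞 F)} {ψ : Ideal (𝓞 F) →*₀ 𝓞 F}
    (hψ : H55P.IsHecke m ψ)
    (hdeu : ∀ v : HeightOneSpectrum (𝓞 F), (W⁄(𝓞 F)).Δ ∉ v.asIdeal → ¬ m ≤ v.asIdeal →
      Nat.card ((W⁄(𝓞 F))⁄(𝓞 F ⧸ v.asIdeal)).toAffine.Point = Nm (1 - ψ v.asIdeal))
    (hsupp : ∀ v : HeightOneSpectrum (𝓞 F), (W⁄(𝓞 F)).Δ ∈ v.asIdeal ↔ m ≤ v.asIdeal)
    (hram : ∀ v : HeightOneSpectrum (𝓞 F), (∀ a : 𝓞 F, a - cj a ∈ v.asIdeal) → (W⁄(𝓞 F)).Δ ∈ v.asIdeal)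
    {j₀ : ℤ} (hj : W.c₄ ^ 3 = j₀ * W.Δ) (hbad : ∀ w : HeightOneSpectrum (𝓞 K), H55P.mK K m ≤ w.asIdeal → ¬ GoodAt (W⁄K) w)
    (n : ℕ) : (((W⁄K₀).LFunction n : ℤ) : ℂ) = H55N.AI (fun a => H55P.PsiP K ψ a) n := by
  have hf1 : (((W⁄K₀).LFunction : ArithmeticFunction ℤ) : ArithmeticFunction ℂ) 1 = 1 := by
    rw [ArithmeticFunction.intCoe_apply]
    exact ri2_one (W⁄K₀)
  have hK : (((W⁄(𝓞 F))⁄F)⁄K) = W⁄K := by
    show ((W.map (algebraMap ℤ (𝓞 F))).map (algebraMap (𝓞 F) F)).map (algebraMap F K) = W.map (algebraMap ℤ K)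
    rw [WeierstrassCurve.map_map, WeierstrassCurve.map_map]
    congr 1
    exact Subsingleton.elim _ _
  have hjF : ∃ j₁ : 𝓞 F, (W⁄(𝓞 F)).c₄ ^ 3 = j₁ * (W⁄(𝓞 F)).Δ := by
    refine ⟨algebraMap ℤ (𝓞 F) j₀, ?_⟩
    show (W.map (algebraMap ℤ (𝓞 F))).c₄ ^ 3 = _ * (W.map (algebraMap ℤ (𝓞 F))).Δ
    rw [WeierstrassCurve.map_c₄, WeierstrassCurve.map_Δ, ← map_pow, hj, map_mul]
  have hsq : ∀ k, ((((W⁄K₀).LFunction : ArithmeticFunction ℤ) : ArithmeticFunction ℂ) *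
      (((W⁄K₀).LFunction : ArithmeticFunction ℤ) : ArithmeticFunction ℂ)) k =
      (H55N.AI (fun a => H55P.PsiP K ψ a) * H55N.AI (fun a => H55P.PsiP K ψ a)) k := by
    intro k
    rw [← lfun_sq (fun v T hT => lf_sq hQ hψ hdeu hsupp hram hj hbad v T hT) k]
    have h1 := H55K.lfun_K (K := K) (W₀ := W⁄(𝓞 F)) hψ hdeu (fun v h => (hsupp v).1 h) hjF
      (fun w hw => by rw [hK]; exact hbad w hw) k
    rw [hK] at h1
    rw [h1, ai_real hQ (psi_cj hψ hdeu hsupp hram)]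
  have hfg := H13E.sqrt_unique hf1 (g := H55N.AI (fun a => H55P.PsiP K ψ a)) (ri2_AI_one ψ) hsq
  rw [← hfg, ArithmeticFunction.intCoe_apply]

end H55K.TQ
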