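import Mathlib
import Pool.Agent.Lib.H55K.FB3A
import Pool.Agent.Lib.H55K.RF
import Pool.Agent.Lib.H55K.RI2
import Pool.Agent.Lib.H55K.T10

/-! # H55K: the L-function over K -/

open NumberField IsDedekindDomain WeierstrassCurve

namespace H55K.TQ

open H55P (IQ embF eF LF Per IsHecke Pt ac Inert Dec Nm UnitP)
open H35P (WAB Ker tt GoodW IntW)
open H55K.MG (VC Crd)

variable {F : Type} [Field F] [NumberField F] [IQ F] {W : WeierstrassCurve ℤ} {Om : ℂ}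
    {m : Ideal (𝓞 F)} {ψ : Ideal (𝓞 F) →*₀ 𝓞 F} {p : ℕ}

/-- Chunk FB3C (S/M). The L-series over K₀ which does not contain F: lfun_quad (RI2.lean), hram from hram_of (RF.lean), hbad from bad_K and cur_eq; hj from jint: j₀ in 𝓞 F with c₄^3 = j₀ Δ, so Δ divides c₄^3 in ℤ (an integer divisible by an integer in 𝓞 F: norms or integral closedness of ℤ). Then as in L_valU0 (Z7.lean). -/
theorem jint_Z (hH : BaseH F (W⁄(𝓞 F)) Om m ψ) : ∃ j₀ : ℤ, W.c₄ ^ 3 = j₀ * W.Δ := by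
  obtain ⟨j₀, hj⟩ := jint_of hH.data.per hH.data.ell
  have e1 : (W⁄(𝓞 F)).c₄ = ((W.c₄ : ℤ) : 𝓞 F) := by
    show (W.map (algebraMap ℤ (𝓞 F))).c₄ = _
    rw [WeierstrassCurve.map_c₄]
    rfl
  have e2 : (W⁄(𝓞 F)).Δ = ((W.Δ : ℤ) : 𝓞 F) := by
    show (W.map (algebraMap ℤ (𝓞 F))).Δ = _
    rw [WeierstrassCurve.map_Δ]
    rfl
  have hΔ : W.Δ ≠ 0 := by
    intro h0
    apply hH.data.ell
    rw [e2, h0, Int.cast_zero]
  rw [e1, e2] at hj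
  have hj' : ((W.c₄ : ℤ) : F) ^ 3 = (j₀ : F) * ((W.Δ : ℤ) : F) := by
    have h1 := congrArg (algebraMap (𝓞 F) F) hj
    rw [map_pow, map_mul, map_intCast, map_intCast] at h1
    exact h1
  have hΔF : ((W.Δ : ℤ) : F) ≠ 0 := Int.cast_ne_zero.2 hΔ
  have hΔQ : ((W.Δ : ℤ) : ℚ) ≠ 0 := Int.cast_ne_zero.2 hΔ
  have h3 : algebraMap ℚ F (((W.c₄ : ℤ) : ℚ) ^ 3 / ((W.Δ : ℤ) : ℚ)) = (j₀ : F) := by
    rw [map_div₀, map_pow, map_intCast, map_intCast, hj', mul_div_assoc, div_self hΔF, mul_one]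
  have h4 : _root_.IsIntegral ℤ (algebraMap ℚ F (((W.c₄ : ℤ) : ℚ) ^ 3 / ((W.Δ : ℤ) : ℚ))) := by
    rw [h3]
    exact j₀.isIntegral_coe
  have h5 : _root_.IsIntegral ℤ (((W.c₄ : ℤ) : ℚ) ^ 3 / ((W.Δ : ℤ) : ℚ)) :=
    (isIntegral_algebraMap_iff (algebraMap ℚ F).injective).1 h4
  obtain ⟨y, hy⟩ := (IsIntegrallyClosed.isIntegral_iff (R := ℤ) (K := ℚ)).1 h5
  refine ⟨y, ?_⟩
  have h6 : ((W.c₄ : ℤ) : ℚ) ^ 3 = (y : ℚ) * ((W.Δ : ℤ) : ℚ) := by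
    have h7 : (y : ℚ) = ((W.c₄ : ℤ) : ℚ) ^ 3 / ((W.Δ : ℤ) : ℚ) := hy
    rw [h7, div_mul_cancel₀ _ hΔQ]
  exact_mod_cast h6

theorem lser_Q (hH : BaseH F (W⁄(𝓞 F)) Om m ψ) (hp : PrimeH F (W⁄(𝓞 F)) p) {L : IntermediateField F (AlgebraicClosure F)}
    (hL : H55P.PExt p ⊥ L) (K₀ : Type) [Field K₀] [NumberField K₀] (K' : IntermediateField F (AlgebraicClosure F)) [NumberField K']
    [Algebra K₀ K'] (hK : K' ≤ L) (hQ : QuadG F K₀ K') (Φ : ℂ → ℂ)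
    (hΦ : ∀ s : ℂ, 3 / 2 < s.re → HasSum (H55N.tm (H55P.PsiP K' ψ) s) (Φ s)) (s : ℂ) (hs : 3 / 2 < s.re) :
    LSeriesHasSum (fun n => (((W⁄K₀).LFunction n : ℤ) : ℂ)) s (Φ s) := by
  obtain ⟨j₀, hj⟩ := jint_Z hH
  have hbad : ∀ w : HeightOneSpectrum (𝓞 K'), H55P.mK K' m ≤ w.asIdeal → ¬ GoodAt (W⁄K') w := by
    intro w hw
    have h1 := bad_K hH hp hL hK w hw
    rw [cur_eq K'] at h1
    exact h1
  have hA : ∀ n : ℕ, (((W⁄K₀).LFunction n : ℤ) : ℂ) = H55N.AI (fun a => H55P.PsiP K' ψ a) n :=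
    fun n => lfun_quad hQ hH.data.hecke (fun v hv _ => hH.deu v hv) hH.supp (hram_of hH) hj hbad n
  have h0 : H55P.PsiP K' ψ ⊥ = 0 := (H55P.PsiP K' ψ).map_zero
  have h1 := H55N.AI_LSeries (fun a => H55P.PsiP K' ψ a) h0 s
    (H55N.tm_summable _ (H55P.PsiP_norm_le hH.data.hecke) s hs)
  have h2 : ∑' a : Ideal (𝓞 K'), H55N.tm (fun a => H55P.PsiP K' ψ a) s a = Φ s := (hΦ s hs).tsum_eq
  rw [h2] at h1
  have e1 : (fun n => (((W⁄K₀).LFunction n : ℤ) : ℂ)) = fun n => H55N.AI (fun a => H55P.PsiP K' ψ a) n :=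
    funext hA
  rw [e1]
  exact h1

end H55K.TQ
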