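import Mathlib
import Pool.Agent.Lib.H55K.RD

/-! # H55K: the field generated by F over a field K -/

open NumberField IsDedekindDomain WeierstrassCurve

namespace H55K.TQ

open H55P (IQ embF eF LF Per IsHecke Pt ac Inert Dec Nm UnitP)
open H35P (WAB Ker tt GoodW IntW)
open H55K.MG (VC Crd)

variable (F : Type) [Field F] [NumberField F] [IQ F] {Ω : Type} [Field Ω] [Algebra F Ω] [Algebra ℚ Ω] [IsScalarTower ℚ F Ω]

theorem rp2_lift (K : Type) [Field K] [NumberField K] (ι : K →ₐ[ℚ] Ω)
    (hg : ∀ y, algebraMap F Ω y ∈ ι.fieldRange) : ∃ f : F →+* K, ∀ y, ι (f y) = algebraMap F Ω y := by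
  let e0 : K →+* ι.fieldRange :=
    { toFun := fun x => ⟨ι x, ⟨x, rfl⟩⟩
      map_one' := Subtype.ext (map_one ι)
      map_mul' := fun x y => Subtype.ext (map_mul ι x y)
      map_zero' := Subtype.ext (map_zero ι)
      map_add' := fun x y => Subtype.ext (map_add ι x y) }
  have hs : Function.Surjective e0 := by
    rintro ⟨_, y, rfl⟩
    exact ⟨y, rfl⟩
  let e : K ≃+* ι.fieldRange := RingEquiv.ofBijective e0 ⟨e0.injective, hs⟩
  let g' : F →+* ι.fieldRange := (algebraMap F Ω).codRestrict ι.fieldRange hg
  refine ⟨(e.symm : ι.fieldRange →+* K).comp g', fun y => ?_⟩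
  have h1 : e (e.symm (g' y)) = g' y := e.apply_symm_apply _
  exact congrArg Subtype.val h1

omit [Algebra ℚ Ω] [IsScalarTower ℚ F Ω] [Algebra F Ω] [Field Ω] in
theorem rp2_span (z : F) (hz : ∀ q : ℚ, z ≠ (q : F)) (y : F) : ∃ c d : ℚ, y = c + d * z := by
  have hli : LinearIndependent ℚ ![(1 : F), z] := by
    rw [LinearIndependent.pair_iff]
    intro s t h
    rw [Rat.smul_def, Rat.smul_def, mul_one] at h
    by_cases ht : t = 0
    · rw [ht, Rat.cast_zero, zero_mul, add_zero] at h
      exact ⟨by exact_mod_cast h, ht⟩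
    · exfalso
      apply hz (-s / t)
      have ht' : (t : F) ≠ 0 := by exact_mod_cast ht
      push_cast
      field_simp
      linear_combination h
  have hc : Fintype.card (Fin 2) = Module.finrank ℚ F := by
    rw [Fintype.card_fin, IQ.deg]
  have hB := (basisOfLinearIndependentOfCardEqFinrank hli hc).sum_repr y
  rw [Fin.sum_univ_two, coe_basisOfLinearIndependentOfCardEqFinrank] at hB
  refine ⟨(basisOfLinearIndependentOfCardEqFinrank hli hc).repr y 0,
    (basisOfLinearIndependentOfCardEqFinrank hli hc).repr y 1, ?_⟩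
  conv_lhs => rw [← hB]
  rw [Rat.smul_def, Rat.smul_def]
  simp

theorem rp2_ind (K : Type) [Field K] [NumberField K] (ι : K →ₐ[ℚ] Ω) (z : F)
    (hz : algebraMap F Ω z ∉ ι.fieldRange) (u v : K) (h : ι u + ι v * algebraMap F Ω z = 0) :
    u = 0 ∧ v = 0 := by
  by_cases hv : v = 0
  · rw [hv, map_zero, zero_mul, add_zero] at h
    exact ⟨(map_eq_zero ι).1 h, hv⟩
  · exfalso
    apply hz
    refine ⟨-u / v, ?_⟩
    have hv' : ι v ≠ 0 := fun h0 => hv ((map_eq_zero ι).1 h0)
    change ι (-u / v) = _
    rw [map_div₀, map_neg]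
    field_simp
    linear_combination -h

theorem rp2_car (K : Type) [Field K] [NumberField K] (ι : K →ₐ[ℚ] Ω) (z : F)
    (hz : algebraMap F Ω z ∉ ι.fieldRange) (b a : ℚ) (hspan : ∀ y : F, ∃ c d : ℚ, y = c + d * z)
    (hZ : (algebraMap F Ω z) ^ 2 = ι (b : K) + ι (a : K) * algebraMap F Ω z) (x : Ω) (hx : x ∈ KG F K ι) :
    ∃ u v : K, x = ι u + ι v * algebraMap F Ω z := by
  refine IntermediateField.adjoin_induction F
    (p := fun x _ => ∃ u v : K, x = ι u + ι v * algebraMap F Ω z) ?_ ?_ ?_ ?_ ?_ hx
  · rintro _ ⟨y, rfl⟩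
    exact ⟨y, 0, by rw [map_zero, zero_mul, add_zero]⟩
  · intro y
    obtain ⟨c, d, rfl⟩ := hspan y
    refine ⟨(c : K), (d : K), ?_⟩
    rw [map_add, map_mul, map_ratCast, map_ratCast, map_ratCast, map_ratCast]
  · rintro x y _ _ ⟨u, v, rfl⟩ ⟨u', v', rfl⟩
    exact ⟨u + u', v + v', by rw [map_add, map_add]; ring⟩
  · rintro x _ ⟨u, v, rfl⟩
    by_cases h0 : ι u + ι v * algebraMap F Ω z = 0
    · refine ⟨0, 0, ?_⟩
      rw [h0, inv_zero, map_zero, zero_mul, add_zero]
    · -- the norm
      have hN : (ι u + ι v * algebraMap F Ω z) * (ι (u + v * a) - ι v * algebraMap F Ω z) =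
          ι (u ^ 2 + u * v * a - v ^ 2 * b) := by
        simp only [map_add, map_sub, map_mul, map_pow]
        linear_combination -(ι v ^ 2) * hZ
      have hN0 : ι (u ^ 2 + u * v * a - v ^ 2 * b) ≠ 0 := by
        rw [← hN]
        intro h1
        rcases mul_eq_zero.1 h1 with h2 | h2
        · exact h0 h2
        · have h3 := rp2_ind F K ι z hz (u + v * a) (-v) (by rw [map_neg]; linear_combination h2)
          have h4 : v = 0 := neg_eq_zero.1 h3.2
          have h5 := h3.1
          rw [h4, zero_mul, add_zero] at h5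
          apply h0
          rw [h4, h5, map_zero, zero_mul, add_zero]
      refine ⟨(u + v * a) / (u ^ 2 + u * v * a - v ^ 2 * b), -v / (u ^ 2 + u * v * a - v ^ 2 * b), ?_⟩
      rw [map_div₀, map_div₀, map_neg, ← hN]
      have h6 : ι (u + v * a) - ι v * algebraMap F Ω z ≠ 0 := by
        intro h7
        rw [h7, mul_zero] at hN
        exact hN0 hN.symm
      field_simp
      ring
  · rintro x y _ _ ⟨u, v, rfl⟩ ⟨u', v', rfl⟩
    refine ⟨u * u' + v * v' * b, u * v' + v * u' + v * v' * a, ?_⟩
    simp only [map_add, map_mul]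
    linear_combination (ι v * ι v') * hZ

/-- Chunk RP2 (M). Either the image of F is contained in the range of ι: then f is the composite with the inverse (H55P.pz14_lift in Z14.lean); or some element z of F is not mapped into the range of ι. F = ℚ + ℚ z, z satisfies x^2 - t x + n = 0 over ℚ, which has no root in K (the roots in Ω are z and its conjugate, t - z). So KG is ι K + ι K z, of dimension 2 over K
(port of H55P.kf_quad; KG is generated by z over ι K). The automorphism: τ(a + b z) = a + b (t - z) (for example: KG/K is Galois of degree 2, τ the nontrivial element; it maps z to the other root t - z, which is the image of the conjugate of z; so it is the conjugation on F; e_cj for elements of 𝓞 F: the nontrivial automorphism of F/ℚ maps x to cj x (exists_cj, d1_sigma in D1.lean)). -/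
theorem kg_dich (K : Type) [Field K] [NumberField K] (ι : K →ₐ[ℚ] Ω) [NumberField (KG F K ι)] :
    (∃ f : F →+* K, ∀ y : F, ι (f y) = algebraMap F Ω y) ∨
      (letI : Algebra K (KG F K ι) := (KGmap F K ι).toAlgebra
       QuadG F K (KG F K ι)) := by
  classical
  by_cases h : ∀ y : F, algebraMap F Ω y ∈ ι.fieldRange
  · exact Or.inl (rp2_lift F K ι h)
  · right
    push Not at h
    obtain ⟨z, hz⟩ := h
    letI : Algebra K (KG F K ι) := (KGmap F K ι).toAlgebra
    have hrat : ∀ q : ℚ, algebraMap F Ω (q : F) = ι (q : K) := by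
      intro q
      rw [map_ratCast, map_ratCast]
    have hzq : ∀ q : ℚ, z ≠ (q : F) := by
      rintro q rfl
      exact hz ⟨(q : K), (hrat q).symm⟩
    have hspan := rp2_span F z hzq
    obtain ⟨b, a, hab⟩ := hspan (z ^ 2)
    obtain ⟨σ, hσ⟩ := H55K.d1_sigma F
    have hσr : ∀ q : ℚ, σ (q : F) = q := fun q => map_ratCast σ q
    have hσz : σ z = a - z := by
      have h1 : (σ z) ^ 2 = b + a * σ z := by
        have h0 := congrArg σ hab
        rwa [map_pow, map_add, map_mul, hσr, hσr] at h0
      have h2 : (σ z - z) * (σ z + z - a) = 0 := by linear_combination h1 - hab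
      rcases mul_eq_zero.1 h2 with h3 | h3
      · exfalso
        obtain ⟨x, hx⟩ := IQ.im (F := F)
        obtain ⟨c, d, rfl⟩ := hspan x
        apply hx
        have h4 := hσ (c + d * z)
        rw [map_add, map_mul, hσr, hσr, sub_eq_zero.1 h3] at h4
        exact Complex.conj_eq_iff_im.1 h4.symm
      · linear_combination h3
    -- the conjugation on the integers
    have hcj : ∀ x : 𝓞 F, σ (x : F) = ((cj x : 𝓞 F) : F) := by
      intro x
      apply (embF F).injective
      rw [hσ]
      exact (e_cj x).symm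
    -- elements of KG
    have hZ : (algebraMap F Ω z) ^ 2 = ι (b : K) + ι (a : K) * algebraMap F Ω z := by
      have h0 := congrArg (algebraMap F Ω) hab
      rwa [map_pow, map_add, map_mul, hrat, hrat] at h0
    have hcar := rp2_car F K ι z hz b a hspan hZ
    obtain ⟨Z, hZdef⟩ : ∃ Z : KG F K ι, Z = algebraMap F (KG F K ι) z := ⟨_, rfl⟩
    have hZc : (Z : Ω) = algebraMap F Ω z := by
      rw [hZdef]
      rfl
    have hac : ∀ u : K, ((algebraMap K (KG F K ι) u : KG F K ι) : Ω) = ι u := fun u => rfl
    have hcar' : ∀ x : KG F K ι, ∃ u v : K, x = algebraMap K (KG F K ι) u + algebraMap K (KG F K ι) v * Z := by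
      rintro ⟨x, hx⟩
      obtain ⟨u, v, huv⟩ := hcar x hx
      refine ⟨u, v, Subtype.ext ?_⟩
      show x = ι u + ι v * (Z : Ω)
      rw [hZc]
      exact huv
    have hind : ∀ u v : K, algebraMap K (KG F K ι) u + algebraMap K (KG F K ι) v * Z = 0 → u = 0 ∧ v = 0 := by
      intro u v h0
      have h1 : ι u + ι v * algebraMap F Ω z = 0 := by
        have h2 := congrArg Subtype.val h0
        rw [← hZc]
        exact h2
      exact rp2_ind F K ι z hz u v h1
    have hrank : Module.finrank K (KG F K ι) = 2 := by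
      let f : (K × K) →ₗ[K] KG F K ι := LinearMap.coprod (LinearMap.toSpanSingleton K (KG F K ι) 1)
        (LinearMap.toSpanSingleton K (KG F K ι) Z)
      have hf : ∀ p : K × K, f p = algebraMap K (KG F K ι) p.1 + algebraMap K (KG F K ι) p.2 * Z := by
        intro p
        rw [LinearMap.coprod_apply, LinearMap.toSpanSingleton_apply, LinearMap.toSpanSingleton_apply,
          Algebra.smul_def, Algebra.smul_def, mul_one]
      have hinj : Function.Injective f := by
        rw [injective_iff_map_eq_zero]
        intro p hp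
        rw [hf] at hp
        have h1 := hind _ _ hp
        exact Prod.ext h1.1 h1.2
      have hsurj : Function.Surjective f := by
        intro x
        obtain ⟨u, v, huv⟩ := hcar' x
        exact ⟨(u, v), by rw [hf]; exact huv.symm⟩
      have h1 := LinearEquiv.finrank_eq (LinearEquiv.ofBijective f ⟨hinj, hsurj⟩)
      rw [← h1, Module.finrank_prod, Module.finrank_self]
    refine ⟨hrank, ?_⟩
    have hq : Algebra.IsQuadraticExtension K (KG F K ι) := ⟨hrank⟩
    have hfd : FiniteDimensional K (KG F K ι) := Module.finite_of_finrank_pos (by rw [hrank]; norm_num)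
    have hG : IsGalois K (KG F K ι) := inferInstance
    have hc : Nat.card (KG F K ι ≃ₐ[K] KG F K ι) = 2 := by
      rw [IsGalois.card_aut_eq_finrank, hrank]
    have hn : Nontrivial (KG F K ι ≃ₐ[K] KG F K ι) := Finite.one_lt_card_iff_nontrivial.1 (by rw [hc]; norm_num)
    obtain ⟨τ, hτ⟩ := exists_ne (1 : KG F K ι ≃ₐ[K] KG F K ι)
    have hτr : ∀ q : ℚ, τ (q : KG F K ι) = q := fun q => map_ratCast τ q
    have hZ2 : Z ^ 2 = b + a * Z := by
      have h0 := congrArg (algebraMap F (KG F K ι)) hab
      rw [map_pow, map_add, map_mul, map_ratCast, map_ratCast, ← hZdef] at h0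
      exact h0
    have hτz : τ Z = a - Z := by
      have h1 : (τ Z) ^ 2 = b + a * τ Z := by
        have h0 := congrArg τ hZ2
        rwa [map_pow, map_add, map_mul, hτr, hτr] at h0
      have h2 : (τ Z - Z) * (τ Z + Z - a) = 0 := by linear_combination h1 - hZ2
      rcases mul_eq_zero.1 h2 with h3 | h3
      · exfalso
        apply hτ
        ext x
        obtain ⟨u, v, rfl⟩ := hcar' x
        rw [AlgEquiv.one_apply, map_add, map_mul, AlgEquiv.commutes, AlgEquiv.commutes, sub_eq_zero.1 h3]
      · linear_combination h3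
    refine ⟨τ, fun x => ?_⟩
    rw [← hcj]
    obtain ⟨c, d, hcd⟩ := hspan (x : F)
    rw [hcd]
    rw [map_add, map_mul, map_ratCast, map_ratCast, ← hZdef, map_add, map_mul, hτr, hτr, hτz,
      map_add, map_mul, hσr, hσr, hσz, map_add, map_mul, map_sub, map_ratCast, map_ratCast, map_ratCast, ← hZdef]

end H55K.TQ
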