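import Mathlib
import Pool.Agent.Lib.H55K.RD

/-! # H55K: the field generated by F over a field K -/

open NumberField IsDedekindDomain WeierstrassCurve

namespace H55K.TQ

open H55P (IQ embF eF LF Per IsHecke Pt ac Inert Dec Nm UnitP)
open H35P (WAB Ker tt GoodW IntW)
open H55K.MG (VC Crd)

variable (F : Type) [Field F] [NumberField F] [IQ F] {Ω : Type} [Field Ω] [Algebra F Ω] [Algebra ℚ Ω] [IsScalarTower ℚ F Ω]

/-- Chunk RP3 (S/M). Port of H55P.kf_iso (Z14.lean): the range of ι is the carrier of KG. -/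
theorem kg_iso (K : Type) [Field K] [NumberField K] (ι : K →ₐ[ℚ] Ω) (f : F →+* K)
    (hf : ∀ y : F, ι (f y) = algebraMap F Ω y) :
    letI : Algebra F K := f.toAlgebra
    Nonempty (K ≃ₐ[F] KG F K ι) := by
  letI : Algebra F K := f.toAlgebra
  let g : K →ₐ[F] KG F K ι :=
    { KGmap F K ι with
      commutes' := fun y => Subtype.ext (hf y) }
  have hsurj : Function.Surjective g := by
    rintro ⟨x, hx⟩
    have h1 : ∃ y : K, ι y = x := by
      refine IntermediateField.adjoin_induction F (p := fun x _ => ∃ y : K, ι y = x) ?_ ?_ ?_ ?_ ?_ hx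
      · rintro _ ⟨y, rfl⟩
        exact ⟨y, rfl⟩
      · intro x
        exact ⟨f x, hf x⟩
      · rintro x y _ _ ⟨a, rfl⟩ ⟨b, rfl⟩
        exact ⟨a + b, map_add ι a b⟩
      · rintro x _ ⟨a, rfl⟩
        exact ⟨a⁻¹, map_inv₀ ι a⟩
      · rintro x y _ _ ⟨a, rfl⟩ ⟨b, rfl⟩
        exact ⟨a * b, map_mul ι a b⟩
    obtain ⟨y, hy⟩ := h1
    exact ⟨y, Subtype.ext hy⟩
  exact ⟨AlgEquiv.ofBijective g ⟨g.toRingHom.injective, hsurj⟩⟩

/-- Chunk RP3 (S). [K : ℚ] = [KG : F] in the quadratic case: [KG : ℚ] = 2 [K : ℚ] = 2 [KG : F]. -/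
theorem quad_deg {K₀ K : Type} [Field K₀] [NumberField K₀] [Field K] [NumberField K] [Algebra F K] [Algebra K₀ K]
    (hQ : QuadG F K₀ K) : Module.finrank ℚ K₀ = Module.finrank F K := by
  have h1 := Module.finrank_mul_finrank ℚ K₀ K
  have h2 := Module.finrank_mul_finrank ℚ F K
  have h3 : Module.finrank ℚ F = 2 := IQ.deg
  rw [hQ.rank] at h1
  rw [h3] at h2
  omega

end H55K.TQ
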