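import Mathlib
import Pool.Agent.Lib.H55K.FB3B
import Pool.Agent.Lib.H55K.FB3C
import Pool.Agent.Lib.H55K.RP2
import Pool.Agent.Lib.H55K.RP3

/-! # H55K: the L-function over K in terms of the Hecke L-series -/

open NumberField IsDedekindDomain WeierstrassCurve

namespace H55K.TQ

open H55P (IQ embF eF LF Per IsHecke Pt ac Inert Dec Nm UnitP)
open H35P (WAB Ker tt GoodW IntW)
open H55K.MG (VC Crd)

variable {F : Type} [Field F] [NumberField F] [IQ F] {W : WeierstrassCurve ℤ} {Om : ℂ}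
    {m : Ideal (𝓞 F)} {ψ : Ideal (𝓞 F) →*₀ 𝓞 F} {p : ℕ}

/-- The relation between the L-function over K and the Hecke L-series over KG: two cases. -/
def LRel (W : WeierstrassCurve ℤ) (ψ : Ideal (𝓞 F) →*₀ 𝓞 F) (K : Type) [Field K] [NumberField K] (K' : IntermediateField F (AlgebraicClosure F))
    [NumberField K'] : Prop :=
  (Module.finrank ℚ K = 2 * Module.finrank F K' ∧
    ∀ Φ : ℂ → ℂ, (∀ s : ℂ, 3 / 2 < s.re → HasSum (H55N.tm (H55P.PsiP K' ψ) s) (Φ s)) → ∀ s : ℂ, 3 / 2 < s.re →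
      LSeriesHasSum (fun n => (((W⁄K).LFunction n : ℤ) : ℂ)) s (Φ s * (starRingEnd ℂ) (Φ ((starRingEnd ℂ) s)))) ∨
  (Module.finrank ℚ K = Module.finrank F K' ∧
    ∀ Φ : ℂ → ℂ, (∀ s : ℂ, 3 / 2 < s.re → HasSum (H55N.tm (H55P.PsiP K' ψ) s) (Φ s)) → ∀ s : ℂ, 3 / 2 < s.re →
      LSeriesHasSum (fun n => (((W⁄K).LFunction n : ℤ) : ℂ)) s (Φ s))

/-- Chunk FB4 (S/M). kg_dich (RP2.lean): first case kg_iso (RP3.lean), lser_F, the degree: θ and [F : ℚ] = 2 (IQ.deg); second case lser_Q and quad_deg (RP3.lean). -/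
theorem lrel (hH : BaseH F (W⁄(𝓞 F)) Om m ψ) (hp : PrimeH F (W⁄(𝓞 F)) p) {L : IntermediateField F (AlgebraicClosure F)}
    (hL : H55P.PExt p ⊥ L) (K : Type) [Field K] [NumberField K] (ι : K →ₐ[ℚ] AlgebraicClosure F) [NumberField (KG F K ι)]
    (hK : KG F K ι ≤ L) : LRel W ψ K (KG F K ι) := by
  rcases kg_dich F K ι with ⟨f, hf⟩ | hQ
  · left
    letI : Algebra F K := f.toAlgebra
    obtain ⟨θ⟩ := kg_iso F K ι f hf
    refine ⟨?_, fun Φ hΦ s hs => lser_F hH hp hL K (KG F K ι) hK θ Φ hΦ s hs⟩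
    have h1 := Module.finrank_mul_finrank ℚ F K
    have h2 : Module.finrank F K = Module.finrank F (KG F K ι) := θ.toLinearEquiv.finrank_eq
    have h3 : Module.finrank ℚ F = 2 := IQ.deg
    rw [h3, h2] at h1
    exact h1.symm
  · right
    letI : Algebra K (KG F K ι) := (KGmap F K ι).toAlgebra
    exact ⟨quad_deg F hQ, fun Φ hΦ s hs => lser_Q hH hp hL K (KG F K ι) hK hQ Φ hΦ s hs⟩

end H55K.TQ
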