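import Mathlib
import Pool.Agent.Lib.H55K.BH1
import Pool.Agent.Lib.H55K.Y7D
import Pool.Agent.Lib.H55K.Y9
import Pool.Agent.Lib.H55P.Gen

/-! # H55K: the exact criterion for the L-value over K -/

open NumberField IsDedekindDomain WeierstrassCurve

namespace H55K.TQ

open H55P (IQ embF eF LF Per IsHecke Pt ac Inert Dec Nm UnitP)
open H35P (WAB Ker tt GoodW IntW)
open H55K.MG (VC Crd)

variable {F : Type} [Field F] [NumberField F] [IQ F] {W₀ : WeierstrassCurve (𝓞 F)} {Om : ℂ}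
    {m : Ideal (𝓞 F)} {ψ : Ideal (𝓞 F) →*₀ 𝓞 F} {p : ℕ}

theorem y10_cop (hH : BaseH F W₀ Om m ψ) (hp : PrimeH F W₀ p) :
    IsCoprime (Ideal.span {W₀.Δ} * m) (Ideal.span {(p : 𝓞 F)}) := (base_of hH hp).cop

theorem y10_ex (hH : BaseH F W₀ Om m ψ) (hp : PrimeH F W₀ p)
    [NumberField (⊥ : IntermediateField F (AlgebraicClosure F))] :
    ∃ v, H55P.GoodG p W₀ m ψ (⊥ : IntermediateField F (AlgebraicClosure F)) v :=
  exists_goodG hp.prime hp.five ((unr_iff hp.prime).1 hp.unr) hH.data.hecke W₀ hH.data.ell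
    (y10_cop hH hp).of_mul_left_right (fun v hv _ => hH.deu v hv)

/-- The condition at a prime of the bottom field and at the prime of F. -/
theorem y10_loc (hH : BaseH F W₀ Om m ψ) (hp : p.Prime) (v : HeightOneSpectrum (𝓞 F)) :
    ¬ p ∣ Ideal.absNorm (Ideal.span {1 - ψ v.asIdeal}) ↔
      (W₀.Δ ∉ v.asIdeal → ¬ p ∣ Nat.card (W₀⁄(𝓞 F ⧸ v.asIdeal)).toAffine.Point) := by
  by_cases h : W₀.Δ ∈ v.asIdeal
  · have h1 : m ≤ v.asIdeal := (hH.supp v).1 h
    have h2 : ψ v.asIdeal = 0 := by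
      apply hH.data.hecke.zero
      intro hc
      have h3 : v.asIdeal ⊔ m = ⊤ := Ideal.isCoprime_iff_sup_eq.1 hc
      rw [sup_eq_left.2 h1] at h3
      exact v.isPrime.ne_top h3
    have h4 : ¬ p ∣ Ideal.absNorm (Ideal.span {1 - ψ v.asIdeal}) := by
      rw [h2, sub_zero, Ideal.span_singleton_one, Ideal.absNorm_top]
      exact hp.one_lt.ne' ∘ Nat.dvd_one.1
    exact ⟨fun _ hn => absurd h hn, fun _ => h4⟩
  · have h1 : Nat.card (W₀⁄(𝓞 F ⧸ v.asIdeal)).toAffine.Point =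
        Ideal.absNorm (Ideal.span {1 - ψ v.asIdeal}) := hH.deu v h
    rw [h1]
    exact ⟨fun h _ => h, fun hn => hn h⟩

/-- Chunk Y10 (M). H55P.gen_crit (Gen.lean) for M = the bottom field, with exists_goodG (Y7) for the auxiliary prime. The conditions at the primes correspond: y9_up, y9_map, y9_norm, y9_ram (Y9.lean); for a prime v of F with Δ not in v the norm of 1 - ψ(v) is the number of points (deu; Nm x = absNorm (span {x})); for Δ in v: m ≤ v (supp), ψ v = 0 (hecke.zero), the norm of 1 is 1. -/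
theorem gen_val (hH : BaseH F W₀ Om m ψ) (hp : PrimeH F W₀ p) [NumberField (⊥ : IntermediateField F (AlgebraicClosure F))]
    {L K : IntermediateField F (AlgebraicClosure F)} [NumberField K] (hL : H55P.PExt p ⊥ L) (hK : K ≤ L)
    (hU : H55P.UnrP p K) :
    H55P.ValG p Om ψ K ↔ H55P.ValG p Om ψ (⊥ : IntermediateField F (AlgebraicClosure F)) ∧ NoAn p W₀ K := by
  rw [H55P.gen_crit W₀ Om m ψ hH.data p hp.prime hp.five (y10_cop hH hp)
    (⊥ : IntermediateField F (AlgebraicClosure F)) L hL (y10_ex hH hp) K bot_le hK hU]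
  refine and_congr_right fun _ => ?_
  constructor
  · intro h v₀ hr hΔ
    obtain ⟨v, hv⟩ := y9_up (Ω := AlgebraicClosure F) v₀
    have h1 := h v ((y9_ram hv K).2 hr)
    rw [y9_norm hv] at h1
    exact (y10_loc hH hp.prime v₀).1 h1 hΔ
  · intro h v hr
    obtain ⟨v₀, hv, -, -⟩ := H55P.bot_conv W₀ K v
    rw [y9_norm hv]
    exact (y10_loc hH hp.prime v₀).2 (h v₀ ((y9_ram hv K).1 hr))

/-- Chunk Y10 (S). gen_int for M = the bottom field, with exists_goodG (Y7). -/
theorem gen_intK (hH : BaseH F W₀ Om m ψ) (hp : PrimeH F W₀ p) [NumberField (⊥ : IntermediateField F (AlgebraicClosure F))]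
    {L K : IntermediateField F (AlgebraicClosure F)} [NumberField K] (hL : H55P.PExt p ⊥ L) (hK : K ≤ L)
    (hU : H55P.UnrP p K) : H55P.IntG p Om ψ K :=
  H55P.gen_int W₀ Om m ψ hH.data p hp.prime hp.five (y10_cop hH hp)
    (⊥ : IntermediateField F (AlgebraicClosure F)) L hL (y10_ex hH hp) K bot_le hK hU

end H55K.TQ
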