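import Mathlib
import Pool.Agent.Lib.H55K.Y10

/-! # H55K: a ramified anomalous prime -/

open NumberField IsDedekindDomain WeierstrassCurve

namespace H55K.TQ

open H55P (IQ embF eF LF Per IsHecke Pt ac Inert Dec Nm UnitP)
open H35P (WAB Ker tt GoodW IntW)
open H55K.MG (VC Crd)

variable {F : Type} [Field F] [NumberField F] [IQ F] {W₀ : WeierstrassCurve (𝓞 F)} {Om : ℂ}
    {m : Ideal (𝓞 F)} {ψ : Ideal (𝓞 F) →*₀ 𝓞 F} {p : ℕ}

/-- The conjugate valuation is above p. -/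
theorem fb8_above (p : ℕ) (hp : p.Prime) (V : ValuationSubring ℂ) (hV : V.valuation (p : ℂ) < 1) :
    (V.comap (starRingEnd ℂ)).valuation (p : ℂ) < 1 := by
  have h2 : (p : ℂ) ≠ 0 := Nat.cast_ne_zero.2 hp.ne_zero
  have hmem : ∀ z : ℂ, z ∈ V.comap (starRingEnd ℂ) ↔ (starRingEnd ℂ) z ∈ V := fun z => Iff.rfl
  rw [H55C.B9_lt _ h2, hmem, map_inv₀, map_natCast, ← H55C.B9_lt V h2]
  exact hV

/-- The valuation of the conjugate. -/
theorem fb8_conj (V : ValuationSubring ℂ) {x : ℂ} (hx : x ≠ 0) :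
    (V.comap (starRingEnd ℂ)).valuation x = 1 ↔ V.valuation ((starRingEnd ℂ) x) = 1 := by
  have hmem : ∀ z : ℂ, z ∈ V.comap (starRingEnd ℂ) ↔ (starRingEnd ℂ) z ∈ V := fun z => Iff.rfl
  rw [H55C.B9_eq _ hx, H55C.B9_eq _ ((map_ne_zero (starRingEnd ℂ)).2 hx), hmem, hmem, map_inv₀]

/-- Chunk FB8 (M). v ramified in K, Δ not in v, p divides the number of points, so p divides the norm of 1 - ψ(v) =: z: V(z) V(conj z) = V(Nm z) < 1. At one V: H55P.LVP_tower_iff (as in gen_crit, Gen.lean) for M = the bottom field: if V(x) = 1 then V(1 - conj Ψ(v)) = 1; apply it to V and to the conjugate valuation (i5_above; IntG gives V(x) ≤ 1 for all V):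
if V(x) = 1 and V(conj x) = 1 then V(z) = V(conj z) = 1, contradiction (see crit_one in H55P/I8.lean). Otherwise the product is < 1. The auxiliary prime: exists_goodG (Y7), gen_ntp. Φ is the function of IntG. -/
theorem non_K (hH : BaseH F W₀ Om m ψ) (hp : PrimeH F W₀ p) [NumberField (⊥ : IntermediateField F (AlgebraicClosure F))]
    {L K : IntermediateField F (AlgebraicClosure F)} [NumberField K] (hL : H55P.PExt p ⊥ L) (hK : K ≤ L)
    (hU : H55P.UnrP p K) (hN : ¬ NoAn p W₀ K) :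
    ∃ Φ : ℂ → ℂ, AnalyticOnNhd ℂ Φ {s | 1 / 2 < s.re} ∧
      (∀ s : ℂ, 3 / 2 < s.re → HasSum (H55N.tm (H55P.PsiP K ψ) s) (Φ s)) ∧
      ∀ V : ValuationSubring ℂ, V.valuation (p : ℂ) < 1 →
        V.valuation (Φ 1 / Om ^ Module.finrank F K) * V.valuation ((starRingEnd ℂ) (Φ 1 / Om ^ Module.finrank F K)) < 1 := by
  classical
  have hB := base_of hH hp
  have hLf : FiniteDimensional F L := hL.fin
  have hLn : NumberField L := H16C.FR_numberField L
  have hm : IsCoprime m (Ideal.span {(p : 𝓞 F)}) := hB.cop.of_mul_left_right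
  obtain ⟨u₀, hu₀⟩ := exists_goodG hp.prime hp.five hB.unr hH.data.hecke W₀ hH.data.ell hm hB.deu
  unfold NoAn at hN
  push Not at hN
  obtain ⟨v₀, hr, hΔ, hdvd⟩ := hN
  obtain ⟨v, hv⟩ := y9_up (Ω := AlgebraicClosure F) v₀
  have hram := (y9_ram hv K).2 hr
  have hnorm := y9_norm hv
  obtain ⟨Φ, h1, h2, h3⟩ := gen_intK hH hp hL hK hU
  refine ⟨Φ, h1, h2, fun V hV => ?_⟩
  set x : ℂ := Φ 1 / Om ^ Module.finrank F K with hx
  have hV' := fb8_above p hp.prime V hV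
  have hx1 : V.valuation x ≤ 1 := (V.valuation_le_one_iff _).2 (h3 V hV)
  have hx2 : V.valuation ((starRingEnd ℂ) x) ≤ 1 := by
    rw [V.valuation_le_one_iff]
    exact h3 _ hV'
  by_contra hlt
  have hy1 : V.valuation x = 1 := by
    refine le_antisymm hx1 (not_lt.1 fun h => hlt ?_)
    exact mul_lt_one_of_nonneg_of_lt_one_left zero_le h hx2
  have hy2 : V.valuation ((starRingEnd ℂ) x) = 1 := by
    refine le_antisymm hx2 (not_lt.1 fun h => hlt ?_)
    exact mul_lt_one_of_nonneg_of_lt_one_right hx1 zero_le h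
  have hx0 : x ≠ 0 := by
    intro h0
    rw [h0, map_zero] at hy1
    exact zero_ne_one hy1
  have hfac : 1 - (starRingEnd ℂ) (H55P.PsiP (⊥ : IntermediateField F (AlgebraicClosure F)) ψ v.asIdeal) =
      eF F (1 - ψ v₀.asIdeal) := by
    rw [H55P.PsiP_apply, Complex.conj_conj, map_sub, map_one, hnorm]
  have key : ∀ A : ValuationSubring ℂ, A.valuation (p : ℂ) < 1 → A.valuation x = 1 →
      A.valuation (eF F (1 - ψ v₀.asIdeal)) = 1 := by
    intro A hA h
    rw [← hfac]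
    exact ((H55P.LVP_tower_iff p hp.prime ⊥ L hL hH.data.hecke hm _ _ Om hH.data.per A hA
      (H55P.gen_good p hp.prime hp.five W₀ hp.cop A hA)
      (H55P.gen_ntp p hp.prime ⊥ u₀ hu₀ A hA) K bot_le hK hU).1 ⟨Φ, h1, h2, h⟩).2 v hram
  have k1 := key V hV hy1
  have k2 := key _ hV' ((fb8_conj V hx0).2 hy2)
  have hz0 : eF F (1 - ψ v₀.asIdeal) ≠ 0 := by
    intro h0
    rw [h0, map_zero] at k1
    exact zero_ne_one k1
  have k3 := (fb8_conj V hz0).1 k2
  have e1 : eF F (1 - ψ v₀.asIdeal) * (starRingEnd ℂ) (eF F (1 - ψ v₀.asIdeal)) =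
      ((Nm (1 - ψ v₀.asIdeal) : ℕ) : ℂ) := by
    rw [Complex.mul_conj, Complex.normSq_eq_norm_sq, ← H55P.Nm_eq]
    norm_cast
  have k4 : V.valuation ((Nm (1 - ψ v₀.asIdeal) : ℕ) : ℂ) = 1 := by
    rw [← e1, map_mul, k1, k3, one_mul]
  rw [hH.deu v₀ hΔ] at hdvd
  obtain ⟨t, ht⟩ := hdvd
  rw [ht, Nat.cast_mul, map_mul] at k4
  have h5 := mul_lt_one_of_lt_of_le hV (H55P.pt9_nat V t)
  rw [k4] at h5
  exact lt_irrefl _ h5

end H55K.TQ
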