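import Mathlib
import Pool.Agent.Lib.H55K.QD
import Pool.Agent.Lib.H55K.Z1A
import Pool.Agent.Lib.H55K.Z1B

/-! # H55K: the period lattice of a curve over the rationals -/

open NumberField IsDedekindDomain WeierstrassCurve

namespace H55K.TQ

open H55P (IQ embF eF LF Per IsHecke Pt ac Inert Dec Nm UnitP)
open H35P (WAB Ker tt GoodW IntW)
open H55K.MG (VC Crd)

variable {F : Type} [Field F] [NumberField F] [IQ F] {W : WeierstrassCurve ℤ} {Om : ℂ} {L : PeriodPair} {p : ℕ}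

/-- Per for W: (W.map (Int.castRingHom (𝓞 F))). -/
def PerW (F : Type) [Field F] [NumberField F] [IQ F] (W : WeierstrassCurve ℤ) (Om : ℂ) : Prop :=
  H55P.Per F (-(W.c₄ : ℂ) / 48) (-(W.c₆ : ℂ) / 864) Om

theorem qp1a_ex (hper : PerW F W Om) : ∃ L' : PeriodPair,
    (∀ z, z ∈ L'.lattice ↔ ∃ a : 𝓞 F, z = Om * eF F a) ∧ PerZ W L' := by
  have hne := hper.ne
  obtain ⟨L', hL, h2, h3⟩ := lat_scale (LF F) Om hne
  refine ⟨L', ?_, ?_, ?_⟩
  · intro z
    rw [hL z]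
    constructor
    · rintro ⟨l, hl, rfl⟩
      obtain ⟨a, rfl⟩ := (H55P.mem_LF l).1 hl
      exact ⟨a, rfl⟩
    · rintro ⟨a, rfl⟩
      exact ⟨eF F a, (H55P.mem_LF _).2 ⟨a, rfl⟩, rfl⟩
  · rw [h2, hper.g2]
    field_simp
    ring
  · rw [h3, hper.g3]
    field_simp
    ring

/-- Chunk QP1A (M). The lattice of L is Om times the lattice of integers. The PeriodPair L' with periods Om ω₁, Om ω₂ (ω of LF F) has g₂ = Om^-4 g₂(LF) = c₄/12, g₃ = c₆/216 (homogeneity of the Eisenstein series: see H35P / H55P for the scaling of g₂, g₃ (search PeriodPair smul, e.g. Z1B, Z1C or E0)); lat_eq L L'; H55P.mem_LF. -/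
theorem lat_W (hper : PerW F W Om) (hL : PerZ W L) (z : ℂ) : z ∈ L.lattice ↔ ∃ a : 𝓞 F, z = Om * eF F a := by
  obtain ⟨L', h1, h2⟩ := qp1a_ex hper
  rw [lat_eq L L' (hL.g2.trans h2.g2.symm) (hL.g3.trans h2.g3.symm)]
  exact h1 z

/-- Chunk QP1A (S/M). Existence (the L' of lat_W). -/
theorem exists_perZ (hper : PerW F W Om) : ∃ L : PeriodPair, PerZ W L := by
  obtain ⟨L', _, h2⟩ := qp1a_ex hper
  exact ⟨L', h2⟩

end H55K.TQ
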