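import Mathlib
import Pool.Agent.Lib.H55K.D1
import Pool.Agent.Lib.H55K.QP1A

/-! # H55K: the period lattice of a curve over the rationals -/

open NumberField IsDedekindDomain WeierstrassCurve

namespace H55K.TQ

open H55P (IQ embF eF LF Per IsHecke Pt ac Inert Dec Nm UnitP)
open H35P (WAB Ker tt GoodW IntW)
open H55K.MG (VC Crd)

variable {F : Type} [Field F] [NumberField F] [IQ F] {W : WeierstrassCurve ℤ} {Om : ℂ} {L : PeriodPair} {p : ℕ}

theorem qp1b_indep (L : PeriodPair) :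
    LinearIndependent ℝ ![(starRingEnd ℂ) L.ω₁, (starRingEnd ℂ) L.ω₂] := by
  have h := L.indep.map' (Complex.conjLIE.toLinearEquiv : ℂ →ₗ[ℝ] ℂ) (by
    rw [LinearMap.ker_eq_bot]
    exact Complex.conjLIE.toLinearEquiv.injective)
  have e : (Complex.conjLIE.toLinearEquiv : ℂ →ₗ[ℝ] ℂ) ∘ ![L.ω₁, L.ω₂] =
      ![(starRingEnd ℂ) L.ω₁, (starRingEnd ℂ) L.ω₂] := by
    ext i
    fin_cases i <;> rfl
  rwa [e] at h

theorem qp1b_G (L L' : PeriodPair) (h : ∀ z, z ∈ L'.lattice ↔ ∃ l ∈ L.lattice, z = (starRingEnd ℂ) l)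
    (n : ℕ) : L'.G n = (starRingEnd ℂ) (L.G n) := by
  have hf : ∀ l : L.lattice, (starRingEnd ℂ) (l : ℂ) ∈ L'.lattice := fun l => (h _).2 ⟨l, l.2, rfl⟩
  have hb : Function.Bijective (fun l : L.lattice => (⟨(starRingEnd ℂ) l, hf l⟩ : L'.lattice)) := by
    constructor
    · intro a b hab
      exact Subtype.ext ((starRingEnd ℂ).injective (congrArg Subtype.val hab))
    · rintro ⟨z, hz⟩
      obtain ⟨l, hl, e⟩ := (h z).1 hz
      exact ⟨⟨l, hl⟩, Subtype.ext e.symm⟩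
  unfold PeriodPair.G
  rw [← (Equiv.ofBijective _ hb).tsum_eq, Complex.conj_tsum]
  refine tsum_congr fun l => ?_
  show (((starRingEnd ℂ) (l : ℂ)) ^ n)⁻¹ = (starRingEnd ℂ) (((l : ℂ) ^ n)⁻¹)
  rw [map_inv₀, map_pow]

/-- Chunk QP1B (M). The lattice of L is stable under complex conjugation: the conjugate pair (conj ω₁, conj ω₂) has g₂, g₃ the conjugates, that is the same real numbers; lat_eq. -/
theorem lat_conj (hL : PerZ W L) {z : ℂ} (hz : z ∈ L.lattice) : (starRingEnd ℂ) z ∈ L.lattice := by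
  have h : ∀ z, z ∈ (⟨(starRingEnd ℂ) L.ω₁, (starRingEnd ℂ) L.ω₂, qp1b_indep L⟩ : PeriodPair).lattice ↔
      ∃ l ∈ L.lattice, z = (starRingEnd ℂ) l := by
    intro z
    rw [PeriodPair.mem_lattice]
    constructor
    · rintro ⟨m, n, rfl⟩
      refine ⟨m * L.ω₁ + n * L.ω₂, PeriodPair.mem_lattice.2 ⟨m, n, rfl⟩, ?_⟩
      rw [map_add, map_mul, map_mul, map_intCast, map_intCast]
    · rintro ⟨l, hl, rfl⟩
      obtain ⟨m, n, rfl⟩ := PeriodPair.mem_lattice.1 hl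
      refine ⟨m, n, ?_⟩
      rw [map_add, map_mul, map_mul, map_intCast, map_intCast]
  have h2 : (⟨(starRingEnd ℂ) L.ω₁, (starRingEnd ℂ) L.ω₂, qp1b_indep L⟩ : PeriodPair).g₂ = L.g₂ := by
    have e1 : (⟨(starRingEnd ℂ) L.ω₁, (starRingEnd ℂ) L.ω₂, qp1b_indep L⟩ : PeriodPair).g₂ =
        (starRingEnd ℂ) L.g₂ := by
      unfold PeriodPair.g₂
      rw [qp1b_G L _ h, map_mul, map_ofNat]
    rw [e1, hL.g2, map_div₀, map_intCast, map_ofNat]
  have h3 : (⟨(starRingEnd ℂ) L.ω₁, (starRingEnd ℂ) L.ω₂, qp1b_indep L⟩ : PeriodPair).g₃ = L.g₃ := by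
    have e1 : (⟨(starRingEnd ℂ) L.ω₁, (starRingEnd ℂ) L.ω₂, qp1b_indep L⟩ : PeriodPair).g₃ =
        (starRingEnd ℂ) L.g₃ := by
      unfold PeriodPair.g₃
      rw [qp1b_G L _ h, map_mul, map_ofNat]
    rw [e1, hL.g3, map_div₀, map_intCast, map_ofNat]
  have h4 := lat_eq _ L h2 h3
  rw [← h4]
  exact (h _).2 ⟨z, hz, rfl⟩

/-- Chunk QP1B (S). conj Om = Om a, conj again: Om = conj Om * conj (eF a) = Om a conj a, so a is a unit (the inverse is cj a; or Nm a = 1). -/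
theorem om_conj (hper : PerW F W Om) (hL : PerZ W L) : ∃ η : (𝓞 F)ˣ, (starRingEnd ℂ) Om = Om * eF F η := by
  have hne : Om ≠ 0 := hper.ne
  have h1 : Om ∈ L.lattice := (lat_W hper hL Om).2 ⟨1, by rw [map_one, mul_one]⟩
  obtain ⟨a, ha⟩ := (lat_W hper hL _).1 (lat_conj hL h1)
  have h2 : Om = Om * (eF F a * (starRingEnd ℂ) (eF F a)) := by
    have h3 := congrArg (starRingEnd ℂ) ha
    rw [Complex.conj_conj, map_mul, ha] at h3
    calc Om = Om * (eF F) a * (starRingEnd ℂ) ((eF F) a) := h3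
      _ = _ := by ring
  have h4 : eF F a * (starRingEnd ℂ) (eF F a) = 1 := by
    have h5 : Om * 1 = Om * (eF F a * (starRingEnd ℂ) (eF F a)) := by rw [mul_one]; exact h2
    exact (mul_left_cancel₀ hne h5).symm
  have h6 : a * cj a = 1 := by
    apply H55P.eF_inj
    rw [map_mul, e_cj, map_one, h4]
  exact ⟨Units.mkOfMulEqOne a (cj a) h6, ha⟩

end H55K.TQ
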