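import Mathlib
import Pool.Agent.Lib.H55K.BH
import Pool.Agent.Lib.H55K.QP1B

/-! # H55K: the period and its conjugate -/

open NumberField IsDedekindDomain WeierstrassCurve

namespace H55K.TQ

open H55P (IQ embF eF LF Per IsHecke Pt ac Inert Dec Nm UnitP)
open H35P (WAB Ker tt GoodW IntW)
open H55K.MG (VC Crd)

variable {F : Type} [Field F] [NumberField F] [IQ F] {W : WeierstrassCurve ℤ} {Om : ℂ}
    {m : Ideal (𝓞 F)} {ψ : Ideal (𝓞 F) →*₀ 𝓞 F} {p : ℕ}

/-- Chunk FB5 (S). Per for W⁄(𝓞 F) is PerW (eF F of an integer is the integer; the coefficients c₄, c₆ of the mapped curve). -/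
theorem perW_of (hH : BaseH F (W⁄(𝓞 F)) Om m ψ) : PerW F W Om := by
  have h := hH.data.per
  have e4 : eF F (W⁄(𝓞 F)).c₄ = (W.c₄ : ℂ) := by
    have e : (W⁄(𝓞 F)).c₄ = algebraMap ℤ (𝓞 F) W.c₄ := W.map_c₄ (algebraMap ℤ (𝓞 F))
    rw [e]
    simp
  have e6 : eF F (W⁄(𝓞 F)).c₆ = (W.c₆ : ℂ) := by
    have e : (W⁄(𝓞 F)).c₆ = algebraMap ℤ (𝓞 F) W.c₆ := W.map_c₆ (algebraMap ℤ (𝓞 F))
    rw [e]
    simp
  rw [e4, e6] at h
  exact h

/-- Chunk FB5 (S/M). conj Om = u Om with u a unit of 𝓞 F: the lattice Om * eF(𝓞 F) is the lattice of the PeriodPair L of lat_W / exists_perZ (QP1A.lean) and also (conj Om) * eF (𝓞 F) is a lattice with the same g₂, g₃ (conjugate of the Eisenstein series, real invariants; search conj in QP2*.lean, om_conj may exist there: grep);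
so conj Om = eF a Om and Om = eF b conj Om, ab = 1: V(eF a) = 1. -/
theorem om_conj_val (hper : PerW F W Om) (V : ValuationSubring ℂ) : V.valuation ((starRingEnd ℂ) Om / Om) = 1 := by
  obtain ⟨L, hL⟩ := exists_perZ hper
  obtain ⟨η, hη⟩ := om_conj hper hL
  have hne : Om ≠ 0 := hper.ne
  rw [hη, mul_div_cancel_left₀ _ hne]
  have hint : ∀ x : 𝓞 F, V.valuation (eF F x) ≤ 1 := by
    intro x
    have h2 : IsIntegral ℤ (eF F x) := (RingOfIntegers.isIntegral x).map ((eF F).toIntAlgHom)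
    rw [V.valuation_le_one_iff]
    have h3 : IsIntegral V (eF F x) := h2.tower_top
    obtain ⟨y, hy⟩ := IsIntegrallyClosed.isIntegral_iff.1 h3
    rw [← hy]
    exact y.2
  have h2 := hint η
  have h3 := hint (η⁻¹ : (𝓞 F)ˣ)
  have h4 : V.valuation (eF F η) * V.valuation (eF F ((η⁻¹ : (𝓞 F)ˣ) : 𝓞 F)) = 1 := by
    rw [← map_mul, ← map_mul, Units.mul_inv, map_one, map_one]
  refine le_antisymm h2 ?_
  rw [← h4]
  exact mul_le_of_le_one_right' h3

end H55K.TQ
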