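import Mathlib
import Pool.Agent.Lib.H55K.QP1B
import Pool.Agent.Lib.H55P.L1
import Pool.Agent.Lib.H55P.Stm

/-! # H55K: the complex and the real period are p-adic units times the periods -/

open NumberField IsDedekindDomain WeierstrassCurve

namespace H55K.TQ

open H55P (IQ embF eF LF Per IsHecke Pt ac Inert Dec Nm UnitP)
open H35P (WAB Ker tt GoodW IntW)
open H55K.MG (VC Crd)

variable {F : Type} [Field F] [NumberField F] [IQ F] {W : WeierstrassCurve ℤ} {Om : ℂ} {L : PeriodPair} {p : ℕ}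

theorem qp2a_sum (F : Type) [Field F] [NumberField F] [IQ F] (x : F) :
    ∑ σ : F →ₐ[ℚ] ℂ, σ x = embF F x + (starRingEnd ℂ) (embF F x) := by
  classical
  obtain ⟨s, hs⟩ : ∃ s : F →ₐ[ℚ] ℂ, s = (embF F).toRatAlgHom := ⟨_, rfl⟩
  obtain ⟨s', hs'⟩ : ∃ s' : F →ₐ[ℚ] ℂ, s' = ((starRingEnd ℂ).comp (embF F)).toRatAlgHom := ⟨_, rfl⟩
  have hsx : ∀ x, s x = embF F x := fun x => by rw [hs]; rfl
  have hsx' : ∀ x, s' x = (starRingEnd ℂ) (embF F x) := fun x => by rw [hs']; rfl
  have hne : s ≠ s' := by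
    intro h
    apply d1_conj_ne F
    ext x
    have h1 := DFunLike.congr_fun h x
    rw [hsx, hsx'] at h1
    exact h1.symm
  have hcard : Fintype.card (F →ₐ[ℚ] ℂ) = 2 := by
    rw [AlgHom.card, IQ.deg]
  have huniv : (Finset.univ : Finset (F →ₐ[ℚ] ℂ)) = {s, s'} := by
    symm
    apply Finset.eq_univ_of_card
    rw [Finset.card_pair hne, hcard]
  rw [huniv, Finset.sum_pair hne, hsx, hsx']

theorem qp2a_tr (x : 𝓞 F) : ((Algebra.trace ℤ (𝓞 F) x : ℤ) : ℂ) = eF F x + (starRingEnd ℂ) (eF F x) := by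
  have h1 := Algebra.coe_trace_int x
  have h2 := trace_eq_sum_embeddings (K := ℚ) (L := F) ℂ (x := (x : F))
  rw [qp2a_sum, ← h1, map_intCast] at h2
  exact h2

theorem qp2a_discr (F : Type) [Field F] [NumberField F] [IQ F] : ((NumberField.discr F : ℤ) : ℂ) =
    (eF F (H55P.bF F 0) * (starRingEnd ℂ) (eF F (H55P.bF F 1)) -
      (starRingEnd ℂ) (eF F (H55P.bF F 0)) * eF F (H55P.bF F 1)) ^ 2 := by
  rw [← NumberField.discr_eq_discr F (H55P.bF F), Algebra.discr_def, Matrix.det_fin_two]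
  simp only [Algebra.traceMatrix_apply, Algebra.traceForm_apply]
  push_cast
  simp only [qp2a_tr, map_mul]
  ring

theorem qp2a_abs (F : Type) [Field F] [NumberField F] [IQ F] :
    2 * |(eF F (H55P.bF F 0)).re * (eF F (H55P.bF F 1)).im - (eF F (H55P.bF F 0)).im * (eF F (H55P.bF F 1)).re| =
      Real.sqrt |(NumberField.discr F : ℝ)| := by
  have h := qp2a_discr F
  generalize eF F (H55P.bF F 0) = a at *
  generalize eF F (H55P.bF F 1) = b at *
  obtain ⟨t, ht⟩ : ∃ t : ℝ, t = a.re * b.im - a.im * b.re := ⟨_, rfl⟩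
  rw [← ht]
  have h1 : a * (starRingEnd ℂ) b - (starRingEnd ℂ) a * b = -(2 * (t : ℂ) * Complex.I) := by
    rw [ht]
    apply Complex.ext
    · simp only [Complex.sub_re, Complex.mul_re, Complex.conj_re, Complex.conj_im, Complex.neg_re, Complex.ofReal_re,
        Complex.ofReal_im, Complex.I_re, Complex.I_im, Complex.re_ofNat, Complex.im_ofNat, Complex.mul_im]
      ring
    · simp only [Complex.sub_im, Complex.mul_re, Complex.conj_re, Complex.conj_im, Complex.neg_im, Complex.ofReal_re,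
        Complex.ofReal_im, Complex.I_re, Complex.I_im, Complex.re_ofNat, Complex.im_ofNat, Complex.mul_im]
      ring
  rw [h1] at h
  have h2 : ((NumberField.discr F : ℤ) : ℂ) = ((-(4 * t ^ 2) : ℝ) : ℂ) := by
    rw [h]
    push_cast
    linear_combination 4 * (t : ℂ) ^ 2 * Complex.I_sq
  have h3 : ((NumberField.discr F : ℤ) : ℝ) = -(4 * t ^ 2) := by exact_mod_cast h2
  rw [h3, abs_neg, abs_of_nonneg (by positivity : (0 : ℝ) ≤ 4 * t ^ 2)]
  have h4 : 4 * t ^ 2 = (2 * |t|) ^ 2 := by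
    rw [mul_pow, sq_abs]
    ring
  rw [h4, Real.sqrt_sq (by positivity)]

theorem qp2a_cross (m n m' n' : ℤ) (a b : ℂ) :
    ((m : ℂ) * a + n * b).re * ((m' : ℂ) * a + n' * b).im - ((m : ℂ) * a + n * b).im * ((m' : ℂ) * a + n' * b).re =
      ((m * n' - n * m' : ℤ) : ℝ) * (a.re * b.im - a.im * b.re) := by
  simp only [Complex.add_re, Complex.add_im, Complex.mul_re, Complex.mul_im, Complex.intCast_re, Complex.intCast_im]
  push_cast
  ring

theorem qp2a_mul (c a b : ℂ) : (c * a).re * (c * b).im - (c * a).im * (c * b).re =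
    ‖c‖ ^ 2 * (a.re * b.im - a.im * b.re) := by
  rw [← Complex.normSq_eq_norm_sq, Complex.normSq_apply]
  simp only [Complex.mul_re, Complex.mul_im]
  ring

/-- Chunk QP2A (M). L.ω₁ = Om a, L.ω₂ = Om b with a, b an integral basis of 𝓞 F (lat_W: both lattices are equal; every element of 𝓞 F is an integral combination of a and b because Om x is in L.lattice; linear independence over the reals). |re ω₁ im ω₂ - im ω₁ re ω₂| = ‖Om‖^2 |Im (conj a b)|, and (conj a b - a conj b)^2 = discr F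
(Algebra.discr / NumberField.discr_eq_discr for the basis: det of (σ_i b_j) squared; the embeddings are embF F and its conjugate; see H55P: discriminant computations in D1.lean or H55C), so 2 |Im (conj a b)| = sqrt |discr F|. -/
theorem om_area (hper : PerW F W Om) (hL : PerZ W L) :
    H55C.Om L = ‖Om‖ ^ 2 * Real.sqrt |(NumberField.discr F : ℝ)| := by
  have hne : Om ≠ 0 := hper.ne
  have hω₁ : L.ω₁ ∈ L.lattice := PeriodPair.mem_lattice.2 ⟨1, 0, by simp⟩
  have hω₂ : L.ω₂ ∈ L.lattice := PeriodPair.mem_lattice.2 ⟨0, 1, by simp⟩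
  obtain ⟨a, ha⟩ := (lat_W hper hL _).1 hω₁
  obtain ⟨b, hb⟩ := (lat_W hper hL _).1 hω₂
  obtain ⟨e0, he0⟩ : ∃ e0, e0 = eF F (H55P.bF F 0) := ⟨_, rfl⟩
  obtain ⟨e1, he1⟩ : ∃ e1, e1 = eF F (H55P.bF F 1) := ⟨_, rfl⟩
  obtain ⟨m, n, hmn⟩ := PeriodPair.mem_lattice.1 ((lat_W hper hL _).2 ⟨H55P.bF F 0, rfl⟩)
  obtain ⟨m', n', hmn'⟩ := PeriodPair.mem_lattice.1 ((lat_W hper hL _).2 ⟨H55P.bF F 1, rfl⟩)
  rw [ha, hb] at hmn hmn'
  have g0 : e0 = (m : ℂ) * eF F a + n * eF F b := by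
    apply mul_left_cancel₀ hne
    rw [he0, ← hmn]
    ring
  have g1 : e1 = (m' : ℂ) * eF F a + n' * eF F b := by
    apply mul_left_cancel₀ hne
    rw [he1, ← hmn']
    ring
  have ga := H55P.eF_repr a
  have gb := H55P.eF_repr b
  rw [← he0, ← he1] at ga gb
  obtain ⟨X, hX⟩ : ∃ X : ℝ, X = (eF F a).re * (eF F b).im - (eF F a).im * (eF F b).re := ⟨_, rfl⟩
  obtain ⟨Y, hY⟩ : ∃ Y : ℝ, Y = e0.re * e1.im - e0.im * e1.re := ⟨_, rfl⟩
  have k1 := qp2a_cross m n m' n' (eF F a) (eF F b)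
  rw [← g0, ← g1, ← hX, ← hY] at k1
  have k2 := qp2a_cross ((H55P.bF F).repr a 0) ((H55P.bF F).repr a 1) ((H55P.bF F).repr b 0)
    ((H55P.bF F).repr b 1) e0 e1
  rw [← ga, ← gb, ← hX, ← hY] at k2
  have hX0 : X ≠ 0 := by
    intro h0
    have h1 := L.indep
    rw [LinearIndependent.pair_iff] at h1
    have h2 : L.ω₁.re * L.ω₂.im - L.ω₁.im * L.ω₂.re = 0 := by
      rw [ha, hb, qp2a_mul, ← hX, h0, mul_zero]
    have hne1 : L.ω₁ ≠ 0 := by
      intro h3
      have h4 := h1 1 0 (by rw [h3]; simp)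
      exact one_ne_zero h4.1
    by_cases hr : L.ω₁.re = 0
    · have him : L.ω₁.im ≠ 0 := fun h => hne1 (Complex.ext hr h)
      have h5 : L.ω₂.re = 0 := by
        rw [hr, zero_mul, zero_sub, neg_eq_zero] at h2
        exact (mul_eq_zero.1 h2).resolve_left him
      have h6 := h1 L.ω₂.im (-L.ω₁.im) (by
        apply Complex.ext
        · simp [hr, h5]
        · simp
          ring)
      exact him (neg_eq_zero.1 h6.2)
    · have h6 := h1 L.ω₂.re (-L.ω₁.re) (by
        apply Complex.ext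
        · simp
          ring
        · simp
          linarith)
      exact hr (neg_eq_zero.1 h6.2)
  have hdet : |((m * n' - n * m' : ℤ) : ℝ)| = 1 := by
    rw [k1] at k2
    have h1 : (((H55P.bF F).repr a 0 * (H55P.bF F).repr b 1 - (H55P.bF F).repr a 1 * (H55P.bF F).repr b 0 : ℤ) : ℝ) *
        ((m * n' - n * m' : ℤ) : ℝ) = 1 := by
      apply mul_right_cancel₀ hX0
      rw [one_mul, mul_assoc]
      exact k2.symm
    have h2 : ((H55P.bF F).repr a 0 * (H55P.bF F).repr b 1 - (H55P.bF F).repr a 1 * (H55P.bF F).repr b 0) *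
        (m * n' - n * m') = 1 := by exact_mod_cast h1
    rcases Int.mul_eq_one_iff_eq_one_or_neg_one.1 h2 with ⟨_, h3⟩ | ⟨_, h3⟩
    · rw [h3]
      simp
    · rw [h3]
      simp
  unfold H55C.Om
  rw [← qp2a_abs F, ← he0, ← he1, ← hY, k1, abs_mul, hdet, one_mul, ha, hb, qp2a_mul, ← hX, abs_mul,
    abs_of_nonneg (by positivity : (0 : ℝ) ≤ ‖Om‖ ^ 2)]
  ring

/-- Chunk QP2A (S). ‖Om‖^2 = Om conj Om = Om^2 η; sqrt |discr F| is a p-adic unit: H55P.discr_unit for K₀ = F (p unramified in F: squarefree). Units of 𝓞 F are units. -/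
theorem om_unit (hper : PerW F W Om) (hL : PerZ W L) (hp : p.Prime) (hU : H55P.UnrP p F) :
    UnitP p (H55C.Om L / (Om * (starRingEnd ℂ) Om)) ∧ UnitP p (H55C.Om L / Om ^ 2) := by
  have hne : Om ≠ 0 := hper.ne
  have hcne : (starRingEnd ℂ) Om ≠ 0 := by
    rw [Ne, map_eq_zero]
    exact hne
  have hsq : UnitP p ((Real.sqrt |(NumberField.discr F : ℝ)| : ℝ) : ℂ) := by
    intro V hV
    have h0 : ¬ (p : ℤ) ∣ NumberField.discr F := H55P.pl1_discr p hp hU
    generalize NumberField.discr F = D at h0 ⊢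
    have h1 : (((Real.sqrt |(D : ℝ)| : ℝ) : ℂ)) ^ 2 = ((D.natAbs : ℕ) : ℂ) := by
      rw [← Complex.ofReal_pow, Real.sq_sqrt (abs_nonneg _), ← Int.cast_abs, Int.abs_eq_natAbs]
      simp only [Int.cast_natCast, Complex.ofReal_natCast]
    have h2 := H55P.val_nat p hp V hV D.natAbs (fun hd => h0 (Int.natCast_dvd.2 hd))
    rw [← h1, map_pow] at h2
    exact (pow_eq_one_iff_of_nonneg zero_le two_ne_zero).1 h2
  have hOm : (H55C.Om L : ℂ) = Om * (starRingEnd ℂ) Om * ((Real.sqrt |(NumberField.discr F : ℝ)| : ℝ) : ℂ) := by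
    rw [om_area hper hL, Complex.mul_conj, Complex.normSq_eq_norm_sq]
    push_cast
    ring
  constructor
  · rw [hOm, mul_div_cancel_left₀ _ (mul_ne_zero hne hcne)]
    exact hsq
  · obtain ⟨η, hη⟩ := om_conj hper hL
    have h1 : (H55C.Om L : ℂ) / Om ^ 2 = eF F η * ((Real.sqrt |(NumberField.discr F : ℝ)| : ℝ) : ℂ) := by
      rw [hOm, hη]
      field_simp
    rw [h1]
    intro V hV
    rw [map_mul, hsq V hV, mul_one]
    have hint : ∀ x : 𝓞 F, V.valuation (eF F x) ≤ 1 := by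
      intro x
      have h2 : IsIntegral ℤ (eF F x) := (RingOfIntegers.isIntegral x).map ((eF F).toIntAlgHom)
      rw [V.valuation_le_one_iff]
      have h3 : IsIntegral V (eF F x) := h2.tower_top
      obtain ⟨y, hy⟩ := IsIntegrallyClosed.isIntegral_iff.1 h3
      rw [← hy]
      exact y.2
    have h2 := hint η
    have h3 := hint (η⁻¹ : (𝓞 F)ˣ)
    have h4 : V.valuation (eF F η) * V.valuation (eF F ((η⁻¹ : (𝓞 F)ˣ) : 𝓞 F)) = 1 := by
      rw [← map_mul, ← map_mul, Units.mul_inv, map_one, map_one]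
    refine le_antisymm h2 ?_
    rw [← h4]
    exact mul_le_of_le_one_right' h3

end H55K.TQ
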