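import Mathlib
import Pool.Agent.Lib.H55K.QP1B

/-! # H55K: the complex and the real period are p-adic units times the periods -/

open NumberField IsDedekindDomain WeierstrassCurve

namespace H55K.TQ

open H55P (IQ embF eF LF Per IsHecke Pt ac Inert Dec Nm UnitP)
open H35P (WAB Ker tt GoodW IntW)
open H55K.MG (VC Crd)

variable {F : Type} [Field F] [NumberField F] [IQ F] {W : WeierstrassCurve ℤ} {Om : ℂ} {L : PeriodPair} {p : ℕ}

theorem qp2b_fin (L : PeriodPair) (r : ℝ) : {x : ℝ | 0 < x ∧ x ≤ r ∧ (x : ℂ) ∈ L.lattice}.Finite := by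
  have h0 : DiscreteTopology (L.lattice : Set ℂ) := inferInstanceAs (DiscreteTopology L.lattice)
  have h1 : (Metric.closedBall (0 : ℂ) r ∩ (L.lattice : Set ℂ)).Finite :=
    Metric.finite_isBounded_inter_isClosed DiscreteTopology.isDiscrete Metric.isBounded_closedBall L.isClosed_lattice
  refine (h1.preimage (f := fun x : ℝ => (x : ℂ)) Complex.ofReal_injective.injOn).subset ?_
  rintro x ⟨hx, hxr, hxl⟩
  refine ⟨?_, hxl⟩
  rw [mem_closedBall_zero_iff, Complex.norm_real, Real.norm_of_nonneg hx.le]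
  exact hxr

theorem qp2b_re (hL : PerZ W L) {z : ℂ} (hz : z ∈ L.lattice) (h : z.re ≠ 0) :
    ∃ t : ℝ, 0 < t ∧ (t : ℂ) ∈ L.lattice := by
  have h1 : ((2 * z.re : ℝ) : ℂ) ∈ L.lattice := by
    rw [← Complex.add_conj]
    exact add_mem hz (lat_conj hL hz)
  rcases lt_or_gt_of_ne h with h2 | h2
  · refine ⟨-(2 * z.re), by linarith, ?_⟩
    rw [Complex.ofReal_neg]
    exact neg_mem h1
  · exact ⟨2 * z.re, by linarith, h1⟩

theorem qp2b_ex (hL : PerZ W L) : ∃ t : ℝ, 0 < t ∧ (t : ℂ) ∈ L.lattice := by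
  by_cases h1 : L.ω₁.re = 0
  · by_cases h2 : L.ω₂.re = 0
    · exfalso
      have h3 := LinearIndependent.pair_iff.1 L.indep L.ω₂.im (-L.ω₁.im) (by
        apply Complex.ext
        · simp [h1, h2]
        · simp
          ring)
      have h4 : L.ω₁ = 0 := Complex.ext h1 (by simpa using h3.2)
      exact L.indep.ne_zero 0 h4
    · exact qp2b_re hL L.ω₂_mem_lattice h2
  · exact qp2b_re hL L.ω₁_mem_lattice h1

/-- Chunk QP2B (M). The least positive real element exists and is Om α: the lattice is discrete and contains a positive real (Om conj(..): for z in L.lattice also z + conj z (lat_conj), not all z + conj z are 0: z and i-multiples: if z + conj z = 0 for all z in the lattice then the lattice is contained in the imaginary line, impossible for a lattice; so some real t ≠ 0, and |t| > 0). So the set has a minimum (discreteness: finitely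
many lattice points in the disc of radius t). -/
theorem omr_mem (hL : PerZ W L) : 0 < H55D.Omr L ∧ ((H55D.Omr L : ℝ) : ℂ) ∈ L.lattice ∧
    ∀ x : ℝ, 0 < x → (x : ℂ) ∈ L.lattice → H55D.Omr L ≤ x := by
  obtain ⟨t, ht, htl⟩ := qp2b_ex hL
  obtain ⟨m, ⟨hm0, hmt, hml⟩, hmin⟩ := Set.exists_min_image _ id (qp2b_fin L t) ⟨t, ht, le_rfl, htl⟩
  have h1 : ∀ x : ℝ, 0 < x → (x : ℂ) ∈ L.lattice → m ≤ x := by
    intro x hx hxl
    by_cases h : x ≤ t
    · exact hmin x ⟨hx, h, hxl⟩
    · exact hmt.trans (not_le.1 h).le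
  have h2 : IsLeast {x : ℝ | 0 < x ∧ (x : ℂ) ∈ L.lattice} m := ⟨⟨hm0, hml⟩, fun x hx => h1 x hx.1 hx.2⟩
  have h3 : H55D.Omr L = m := h2.csInf_eq
  rw [h3]
  exact ⟨hm0, hml, h1⟩

end H55K.TQ
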