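import Mathlib
import Pool.Agent.Lib.H55K.QP2B
import Pool.Agent.Lib.H55P.Gen

/-! # H55K: the complex and the real period are p-adic units times the periods -/

open NumberField IsDedekindDomain WeierstrassCurve

namespace H55K.TQ

open H55P (IQ embF eF LF Per IsHecke Pt ac Inert Dec Nm UnitP)
open H35P (WAB Ker tt GoodW IntW)
open H55K.MG (VC Crd)

variable {F : Type} [Field F] [NumberField F] [IQ F] {W : WeierstrassCurve ℤ} {Om : ℂ} {L : PeriodPair} {p : ℕ}

/-- A prime element dividing p and its conjugate: if both divide α then p divides α. -/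
theorem qp2c_dvd (hp : p.Prime) (hU : H55P.UnrP p F) {l α : 𝓞 F} (hl : Prime l) (hlp : l ∣ (p : 𝓞 F))
    (h1 : l ∣ α) (h2 : H55K.cj l ∣ α) : (p : 𝓞 F) ∣ α := by
  have hNl : l * H55K.cj l = (H55P.Nm l : 𝓞 F) := H55K.mul_cj l
  have hpN : p ∣ H55P.Nm l := by
    by_contra hn
    have hcop : IsCoprime (p : ℤ) (H55P.Nm l : ℤ) := by
      rw [Nat.isCoprime_iff_coprime]
      exact (Nat.Prime.coprime_iff_not_dvd hp).2 hn
    obtain ⟨a, b, hab⟩ := hcop
    have h3 : (a : 𝓞 F) * (p : 𝓞 F) + (b : 𝓞 F) * (H55P.Nm l : 𝓞 F) = 1 := by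
      have := congrArg (fun z : ℤ => (z : 𝓞 F)) hab
      push_cast at this
      exact this
    have h4 : l ∣ 1 := by
      rw [← h3]
      refine dvd_add (Dvd.dvd.mul_left hlp _) (Dvd.dvd.mul_left ?_ _)
      rw [← hNl]
      exact dvd_mul_right _ _
    exact hl.not_unit (isUnit_of_dvd_one h4)
  have hpd : (p : 𝓞 F) ∣ l * H55K.cj l := by
    rw [hNl]
    exact_mod_cast Nat.cast_dvd_cast hpN
  have hcl : Prime (H55K.cj l) := H55K.cj_prime hl
  by_cases hass : H55K.cj l ∣ l
  · -- associated
    obtain ⟨μ, hμ⟩ := hlp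
    obtain ⟨u, hu⟩ := (hcl.associated_of_dvd hl hass)
    have h5 : l * μ ∣ l * H55K.cj l := by
      rw [← hμ]
      exact hpd
    have h6 : μ ∣ H55K.cj l := (mul_dvd_mul_iff_left hl.ne_zero).1 h5
    rcases (hcl.irreducible).dvd_iff.1 h6 with h7 | h7
    · obtain ⟨m, rfl⟩ := h7
      rw [hμ]
      exact (Units.mul_right_dvd).2 h1
    · exfalso
      have h8 : Associated (l * l) (p : 𝓞 F) := by
        rw [hμ]
        exact Associated.mul_left l ((show Associated (H55K.cj l) l from ⟨u, hu⟩).symm.trans h7)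
      have h9 : Ideal.span {l} * Ideal.span {l} ∣ Ideal.span {(p : 𝓞 F)} := by
        rw [Ideal.span_singleton_mul_span_singleton, (Ideal.span_singleton_eq_span_singleton.2 h8)]
      have h10 := hU _ h9
      rw [Ideal.isUnit_iff, Ideal.span_singleton_eq_top] at h10
      exact hl.not_unit h10
  · obtain ⟨b, rfl⟩ := h1
    have h3 : H55K.cj l ∣ b := (hcl.dvd_or_dvd h2).resolve_left hass
    exact hpd.trans (mul_dvd_mul_left l h3)

/-- Chunk QP2C (M). Omr L = Om α (lat_W). α is prime to p: suppose a prime element λ dividing p divides α. conj (Om α) = Om α gives cj α η = α, so cj λ divides α as well. If λ and cj λ are not associated then λ cj λ = Nm λ divides α and p divides Nm λ, so p divides α. If they are associated: Nm λ = λ cj λ is associated to λ^2; Nm λ = p or p^2; Nm λ = p is impossible because p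
is not in λ^2 (unramified: squarefree), so Nm λ = p^2 = Nm p, λ divides p, so λ is associated to p and p divides α. So α = p β, Om β = Omr L/p is a real positive element of the lattice smaller than Omr L: contradiction (omr_mem). So α is prime to p: eF α is a unit at every V above p (H55P.gen_cop in Gen.lean or gen_unit). The factor 1 or 2 of OmP is a unit (p ≥ 5). -/
theorem omr_unit (hper : PerW F W Om) (hL : PerZ W L) (hp : p.Prime) (h5 : 5 ≤ p) (hU : H55P.UnrP p F) :
    UnitP p ((OmP W L : ℂ) / Om) := by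
  obtain ⟨hpos, hmem, hmin⟩ := omr_mem hL
  obtain ⟨α, hα⟩ := (lat_W hper hL _).1 hmem
  obtain ⟨η, hη⟩ := om_conj hper hL
  have hOm : Om ≠ 0 := hper.ne
  have h1 : (η : 𝓞 F) * H55K.cj α = α := by
    have h2 : (starRingEnd ℂ) ((H55D.Omr L : ℝ) : ℂ) = ((H55D.Omr L : ℝ) : ℂ) := Complex.conj_ofReal _
    rw [hα, map_mul, hη] at h2
    apply H55P.eF_inj
    rw [map_mul, H55K.e_cj]
    refine mul_left_cancel₀ hOm ?_
    rw [← h2]
    ring
  have hα0 : α ≠ 0 := by
    rintro rfl
    rw [map_zero, mul_zero] at hα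
    exact hpos.ne' (by exact_mod_cast hα)
  have hp0 : (p : ℂ) ≠ 0 := by exact_mod_cast hp.ne_zero
  have hnd : ¬(p : 𝓞 F) ∣ α := by
    rintro ⟨β, rfl⟩
    have h3 : ((H55D.Omr L / p : ℝ) : ℂ) ∈ L.lattice := by
      refine (lat_W hper hL _).2 ⟨β, ?_⟩
      rw [Complex.ofReal_div, hα, map_mul, map_natCast, Complex.ofReal_natCast]
      field_simp
    have hpR : (5 : ℝ) ≤ (p : ℝ) := by exact_mod_cast h5
    have h4 := hmin _ (div_pos hpos (by linarith)) h3
    rw [le_div_iff₀ (by linarith)] at h4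
    nlinarith
  have hcop : IsCoprime α (p : 𝓞 F) := by
    refine isCoprime_of_prime_dvd (fun h => hα0 h.1) fun l hl hla hlp => hnd ?_
    refine qp2c_dvd hp hU hl hlp hla ?_
    rw [H55K.cj_dvd]
    rw [← h1] at hla
    exact (hl.dvd_or_dvd hla).resolve_left fun h => hl.not_unit (isUnit_of_dvd_unit h η.isUnit)
  intro V hV
  have hV1 : V.valuation (eF F α) = 1 := H55P.gen_cop p α ((Ideal.isCoprime_span_singleton_iff _ _).2 hcop) V hV
  have hV2 : V.valuation (2 : ℂ) = 1 := by
    have := H55P.val_nat p hp V hV 2 (fun h => by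
      have := Nat.le_of_dvd (by norm_num) h
      omega)
    exact_mod_cast this
  have e : (OmP W L : ℂ) / Om = (if 0 < W.Δ then 2 else 1) * eF F α := by
    unfold OmP
    rw [Complex.ofReal_mul, hα]
    have e2 : (((if 0 < W.Δ then 2 else 1 : ℝ)) : ℂ) = if 0 < W.Δ then 2 else 1 := by
      split_ifs <;> simp
    rw [e2]
    field_simp
  rw [e, map_mul, hV1, mul_one]
  split_ifs
  · exact hV2
  · exact map_one _

end H55K.TQ
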