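import Mathlib
import Pool.Agent.Lib.H55K.M0
import Pool.Agent.Lib.H55K.M2A
import Pool.Agent.Lib.H55P.Stm

/-! # H55K: congruent points -/

open NumberField IsDedekindDomain WeierstrassCurve

namespace H55K.TQ

open H55P (IQ embF eF LF Per IsHecke Pt ac Inert Dec Nm UnitP)
open H35P (WAB Ker tt GoodW IntW)
open H55K.MG (VC Crd)

variable {k : Type} [Field k] {W : WeierstrassCurve k} {V : ValuationSubring k}

/-- Chunk QA1A (S/M). Translate (x, y) to the origin: with α = a₄ + 2 x a₂ - y a₁ + 3 x^2, β = a₃ + x a₁ + 2 y, c = a₂ + 3 x (a₆ becomes 0 by the equation):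
b₂ = a₁^2 + 4c, b₄ = 2α + a₁ β, b₆ = β^2, b₈ = -a₁ α β + c β^2 - α^2 and Δ = -b₂^2 b₈ - 8 b₄^3 - 27 b₆^2 + 9 b₂ b₄ b₆ (Δ does not change under translation: substitute a₆ = y^2 + a₁ x y + a₃ y - x^3 - a₂ x^2 - a₄ x from the
equation and ring). Every term is α times an integral element plus β times an integral element, so V(Δ) ≤ max (V α) (V β). -/
theorem disc_le (hI : IntW W V) {x y : k} (h : W.toAffine.Equation x y) (hx : x ∈ V) (hy : y ∈ V) :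
    V.valuation W.Δ ≤ V.valuation (3 * x ^ 2 + 2 * W.a₂ * x + W.a₄ - W.a₁ * y) ∨
      V.valuation W.Δ ≤ V.valuation (2 * y + W.a₁ * x + W.a₃) := by
  obtain ⟨α, hα⟩ : ∃ α, α = 3 * x ^ 2 + 2 * W.a₂ * x + W.a₄ - W.a₁ * y := ⟨_, rfl⟩
  obtain ⟨β, hβ⟩ : ∃ β, β = 2 * y + W.a₁ * x + W.a₃ := ⟨_, rfl⟩
  rw [← hα, ← hβ]
  rw [Affine.equation_iff] at h
  have h6 : W.a₆ = y ^ 2 + W.a₁ * x * y + W.a₃ * y - x ^ 3 - W.a₂ * x ^ 2 - W.a₄ * x := by linear_combination -h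
  obtain ⟨b, hb⟩ : ∃ b, b = W.a₁ ^ 2 + 4 * (W.a₂ + 3 * x) := ⟨_, rfl⟩
  have key : W.Δ = α * (b ^ 2 * W.a₁ * β + b ^ 2 * α - 64 * α ^ 2 - 96 * α * W.a₁ * β - 48 * W.a₁ ^ 2 * β ^ 2) +
      β * (-(b ^ 2 * (W.a₂ + 3 * x) * β) - 8 * W.a₁ ^ 3 * β ^ 2 - 27 * β ^ 3 + 9 * b * (2 * α + W.a₁ * β) * β) := by
    rw [hb, hα, hβ]
    simp only [WeierstrassCurve.Δ, WeierstrassCurve.b₂, WeierstrassCurve.b₄, WeierstrassCurve.b₆, WeierstrassCurve.b₈]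
    rw [h6]
    ring
  have hn : ∀ m : ℕ, (m : k) ∈ V := fun m => natCast_mem V m
  have hαV : α ∈ V := by
    rw [hα]
    exact V.sub_mem (V.add_mem _ _ (V.add_mem _ _ (V.mul_mem _ _ (hn 3) (pow_mem hx 2)) (V.mul_mem _ _ (V.mul_mem _ _ (hn 2) hI.a2) hx)) hI.a4)
      (V.mul_mem _ _ hI.a1 hy)
  have hβV : β ∈ V := by
    rw [hβ]
    exact V.add_mem _ _ (V.add_mem _ _ (V.mul_mem _ _ (hn 2) hy) (V.mul_mem _ _ hI.a1 hx)) hI.a3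
  have hcV : W.a₂ + 3 * x ∈ V := V.add_mem _ _ hI.a2 (V.mul_mem _ _ (hn 3) hx)
  have hbV : b ∈ V := by
    rw [hb]
    exact V.add_mem _ _ (pow_mem hI.a1 2) (V.mul_mem _ _ (hn 4) hcV)
  obtain ⟨A, hA⟩ : ∃ A, A = b ^ 2 * W.a₁ * β + b ^ 2 * α - 64 * α ^ 2 - 96 * α * W.a₁ * β - 48 * W.a₁ ^ 2 * β ^ 2 := ⟨_, rfl⟩
  obtain ⟨B, hB⟩ : ∃ B, B = -(b ^ 2 * (W.a₂ + 3 * x) * β) - 8 * W.a₁ ^ 3 * β ^ 2 - 27 * β ^ 3 + 9 * b * (2 * α + W.a₁ * β) * β := ⟨_, rfl⟩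
  have hAV : A ∈ V := by
    rw [hA]
    refine V.sub_mem (V.sub_mem (V.sub_mem (V.add_mem _ _ ?_ ?_) ?_) ?_) ?_
    · exact V.mul_mem _ _ (V.mul_mem _ _ (pow_mem hbV 2) hI.a1) hβV
    · exact V.mul_mem _ _ (pow_mem hbV 2) hαV
    · exact V.mul_mem _ _ (hn 64) (pow_mem hαV 2)
    · exact V.mul_mem _ _ (V.mul_mem _ _ (V.mul_mem _ _ (hn 96) hαV) hI.a1) hβV
    · exact V.mul_mem _ _ (V.mul_mem _ _ (hn 48) (pow_mem hI.a1 2)) (pow_mem hβV 2)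
  have hBV : B ∈ V := by
    rw [hB]
    refine V.add_mem _ _ (V.sub_mem (V.sub_mem (V.neg_mem _ ?_) ?_) ?_) ?_
    · exact V.mul_mem _ _ (V.mul_mem _ _ (pow_mem hbV 2) hcV) hβV
    · exact V.mul_mem _ _ (V.mul_mem _ _ (hn 8) (pow_mem hI.a1 3)) (pow_mem hβV 2)
    · exact V.mul_mem _ _ (hn 27) (pow_mem hβV 3)
    · exact V.mul_mem _ _ (V.mul_mem _ _ (V.mul_mem _ _ (hn 9) hbV) (V.add_mem _ _ (V.mul_mem _ _ (hn 2) hαV) (V.mul_mem _ _ hI.a1 hβV))) hβV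
  rw [← hA, ← hB] at key
  have h1 : V.valuation (α * A) ≤ V.valuation α := by
    rw [map_mul]
    exact mul_le_of_le_one_right' ((V.valuation_le_one_iff A).2 hAV)
  have h2 : V.valuation (β * B) ≤ V.valuation β := by
    rw [map_mul]
    exact mul_le_of_le_one_right' ((V.valuation_le_one_iff B).2 hBV)
  have h3 : V.valuation W.Δ ≤ max (V.valuation (α * A)) (V.valuation (β * B)) := by
    rw [key]
    exact V.valuation.map_add _ _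
  rcases le_max_iff.1 h3 with h4 | h4
  · exact Or.inl (h4.trans h1)
  · exact Or.inr (h4.trans h2)

end H55K.TQ
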