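import Mathlib
import Pool.Agent.Lib.H35P.R1
import Pool.Agent.Lib.H55K.D0
import Pool.Agent.Lib.H55K.QA1A

/-! # H55K: congruent points -/

open NumberField IsDedekindDomain WeierstrassCurve

namespace H55K.TQ

open H55P (IQ embF eF LF Per IsHecke Pt ac Inert Dec Nm UnitP)
open H35P (WAB Ker tt GoodW IntW)
open H55K.MG (VC Crd)

variable {k : Type} [Field k] {W : WeierstrassCurve k} {V : ValuationSubring k}

theorem QA1B_le {a : k} (h : a ∈ V) : V.valuation a ≤ 1 := (V.valuation_le_one_iff a).2 h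

/-- An integral combination with one small factor. -/
theorem QA1B_mul_lt {a b : k} {g : V.ValueGroup} (h : a ∈ V) (hb : V.valuation b < g) :
    V.valuation (a * b) < g := by
  rw [map_mul]
  exact (mul_le_of_le_one_left' (QA1B_le h)).trans_lt hb

theorem QA1B_big [DecidableEq k] (hI : IntW W V) {x₁ x₂ l : k} (h1 : x₁ ∈ V) (h2 : x₂ ∈ V)
    (hl : 1 < V.valuation l) : 1 < V.valuation (W.toAffine.addX x₁ x₂ l) := by
  have e : W.toAffine.addX x₁ x₂ l = l ^ 2 + (W.a₁ * l - (W.a₂ + x₁ + x₂)) := by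
    unfold Affine.addX
    ring
  have hll : V.valuation l < V.valuation (l ^ 2) := by
    rw [map_pow, pow_two]
    exact lt_mul_of_one_lt_left (zero_lt_one.trans hl) hl
  have h3 : V.valuation (W.a₁ * l - (W.a₂ + x₁ + x₂)) < V.valuation (l ^ 2) := by
    refine lt_of_le_of_lt (V.valuation.map_sub_le ?_ ?_) hll
    · rw [map_mul]
      exact mul_le_of_le_one_left' (QA1B_le hI.a1)
    · exact (QA1B_le (V.add_mem _ _ (V.add_mem _ _ hI.a2 h1) h2)).trans hl.le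
  rw [e, V.valuation.map_add_eq_of_lt_left h3]
  exact hl.trans hll

theorem QA1B_div {a b : k} (hab : V.valuation b < V.valuation a) (hb0 : b ≠ 0) :
    1 < V.valuation (a / b) := by
  rw [map_div₀]
  exact (one_lt_div₀ ((V.valuation.pos_iff).2 hb0)).2 hab

/-- Chunk QA1B (M). Port of H35P.rd (RD.lean) with nonsing replaced by disc_le. int coordinates: Ker is false (H35P.Ker; V(x) ≤ 1, and V(y) ≤ 1 by H35P.int_y). P - Q = P + (-Q). Chord, x₁ ≠ x₂: slope = n1/(x₁ - x₂), n1 = y₁ + y₂ + a₁ x₂ + a₃ = β(P) + (small of value < V Δ): if V(β(P)) ≥ V(Δ)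
then V(n1) ≥ V(Δ) > V(x₁ - x₂). Otherwise V(α(P)) ≥ V(Δ) > V(y₁ - y₂), n1 (y₁ - y₂) = (x₁ - x₂)(x₁^2 + x₁x₂ + x₂^2 + a₂(x₁+x₂) + a₄ - a₁ y₁), the second factor is α(P) + (small), so it has the value V(α(P)), it is not 0, y₁ ≠ y₂ and slope = (second factor)/(y₁ - y₂). In both cases V(slope) > 1 and x(P - Q) has value
V(slope)^2 > 1 (RD_big, private in RD.lean: copy it). Tangent: x₁ = x₂, y₁ ≠ y₂, β(P) = y₁ - y₂ has value < V(Δ), slope = α(P)/β(P). P = Q: P - Q = 0. -/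
theorem near [DecidableEq k] (hI : IntW W V) (hΔ : W.Δ ≠ 0) {P Q : W.toAffine.Point} (hP : ¬ Ker V P) (hQ : ¬ Ker V Q)
    (hx : V.valuation (xc P - xc Q) < V.valuation W.Δ) (hy : V.valuation (yc P - yc Q) < V.valuation W.Δ) :
    Ker V (P - Q) := by
  rcases P with _ | ⟨x₁, y₁, h₁⟩
  · exact absurd trivial hP
  rcases Q with _ | ⟨x₂, y₂, h₂⟩
  · exact absurd trivial hQ
  have hvx1 : V.valuation x₁ ≤ 1 := not_lt.1 hP
  have hvx2 : V.valuation x₂ ≤ 1 := not_lt.1 hQ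
  have hvy1 := H35P.int_y hI h₁.1 hvx1
  have hvy2 := H35P.int_y hI h₂.1 hvx2
  have hx1 : x₁ ∈ V := (V.valuation_le_one_iff x₁).1 hvx1
  have hx2 : x₂ ∈ V := (V.valuation_le_one_iff x₂).1 hvx2
  have hy1 : y₁ ∈ V := (V.valuation_le_one_iff y₁).1 hvy1
  have hy2 : y₂ ∈ V := (V.valuation_le_one_iff y₂).1 hvy2
  change V.valuation (x₁ - x₂) < V.valuation W.Δ at hx
  change V.valuation (y₁ - y₂) < V.valuation W.Δ at hy
  have hΔ0 : 0 < V.valuation W.Δ := (V.valuation.pos_iff).2 hΔ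
  have hdisc := disc_le hI h₁.1 hx1 hy1
  rw [sub_eq_add_neg, Affine.Point.neg_some]
  by_cases hc : x₁ = x₂ ∧ y₁ = W.toAffine.negY x₂ (W.toAffine.negY x₂ y₂)
  · rw [Affine.Point.add_of_Y_eq hc.1 hc.2]
    trivial
  rw [Affine.Point.add_some hc]
  change 1 < V.valuation (W.toAffine.addX x₁ x₂ (W.toAffine.slope x₁ x₂ y₁ (W.toAffine.negY x₂ y₂)))
  refine QA1B_big hI hx1 hx2 ?_
  have hE1 := (Affine.equation_iff ..).1 h₁.1
  have hE2 := (Affine.equation_iff ..).1 h₂.1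
  by_cases hxx : x₁ = x₂
  · -- tangent
    have hyy : y₁ ≠ y₂ := fun h => hc ⟨hxx, by rw [Affine.negY_negY]; exact h⟩
    have hneg : y₁ = W.toAffine.negY x₂ y₂ := (Affine.Y_eq_of_X_eq h₁.1 h₂.1 hxx).resolve_left hyy
    have hy' : y₁ ≠ W.toAffine.negY x₂ (W.toAffine.negY x₂ y₂) := fun h => hc ⟨hxx, h⟩
    rw [Affine.slope_of_Y_ne hxx hy']
    have e : y₁ - W.toAffine.negY x₁ y₁ = y₁ - y₂ := by
      congr 1
      rw [hneg, hxx, Affine.negY_negY]
    have e2 : 2 * y₁ + W.a₁ * x₁ + W.a₃ = y₁ - y₂ := by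
      rw [← e]
      unfold Affine.negY
      ring
    rw [e]
    refine QA1B_div ?_ (sub_ne_zero.2 hyy)
    rcases hdisc with h | h
    · exact hy.trans_le h
    · rw [e2] at h
      exact absurd hy (not_lt.2 h)
  · -- chord
    have hxx0 : x₁ - x₂ ≠ 0 := sub_ne_zero.2 hxx
    rw [Affine.slope_of_X_ne hxx]
    have hnegY : y₁ - W.toAffine.negY x₂ y₂ = y₁ + y₂ + W.a₁ * x₂ + W.a₃ := by
      unfold Affine.negY
      ring
    rcases hdisc with hF | hF
    · have hG1 : V.valuation W.Δ ≤ V.valuation (x₁ ^ 2 + x₁ * x₂ + x₂ ^ 2 + W.a₂ * (x₁ + x₂) + W.a₄ - W.a₁ * y₁) := by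
        have e : x₁ ^ 2 + x₁ * x₂ + x₂ ^ 2 + W.a₂ * (x₁ + x₂) + W.a₄ - W.a₁ * y₁ =
            (3 * x₁ ^ 2 + 2 * W.a₂ * x₁ + W.a₄ - W.a₁ * y₁) + -((x₂ + 2 * x₁ + W.a₂) * (x₁ - x₂)) := by ring
        have hsm : V.valuation (-((x₂ + 2 * x₁ + W.a₂) * (x₁ - x₂))) <
            V.valuation (3 * x₁ ^ 2 + 2 * W.a₂ * x₁ + W.a₄ - W.a₁ * y₁) := by
          rw [Valuation.map_neg]
          exact (QA1B_mul_lt (V.add_mem _ _ (V.add_mem _ _ hx2 (V.mul_mem _ _ (by simp) hx1)) hI.a2) hx).trans_le hF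
        rw [e, V.valuation.map_add_eq_of_lt_left hsm]
        exact hF
      have hid : (y₁ - W.toAffine.negY x₂ y₂) * (y₁ - y₂) =
          (x₁ - x₂) * (x₁ ^ 2 + x₁ * x₂ + x₂ ^ 2 + W.a₂ * (x₁ + x₂) + W.a₄ - W.a₁ * y₁) := by
        rw [hnegY]
        linear_combination hE1 - hE2
      have hyy : y₁ - y₂ ≠ 0 := by
        intro h0
        rw [h0, mul_zero] at hid
        rcases mul_eq_zero.1 hid.symm with h | h
        · exact hxx0 h
        · rw [h, map_zero] at hG1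
          exact absurd hG1 (not_le.2 hΔ0)
      have e : (y₁ - W.toAffine.negY x₂ y₂) / (x₁ - x₂) =
          (x₁ ^ 2 + x₁ * x₂ + x₂ ^ 2 + W.a₂ * (x₁ + x₂) + W.a₄ - W.a₁ * y₁) / (y₁ - y₂) := by
        rw [div_eq_div_iff hxx0 hyy, hid]
        ring
      rw [e]
      exact QA1B_div (hy.trans_le hG1) hyy
    · have hn : V.valuation W.Δ ≤ V.valuation (y₁ - W.toAffine.negY x₂ y₂) := by
        have e : y₁ - W.toAffine.negY x₂ y₂ = (2 * y₁ + W.a₁ * x₁ + W.a₃) + -((y₁ - y₂) + W.a₁ * (x₁ - x₂)) := by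
          rw [hnegY]
          ring
        have hsm : V.valuation (-((y₁ - y₂) + W.a₁ * (x₁ - x₂))) <
            V.valuation (2 * y₁ + W.a₁ * x₁ + W.a₃) := by
          rw [Valuation.map_neg]
          exact (V.valuation.map_add_lt hy (QA1B_mul_lt hI.a1 hx)).trans_le hF
        rw [e, V.valuation.map_add_eq_of_lt_left hsm]
        exact hF
      exact QA1B_div (hx.trans_le hn) hxx0

end H55K.TQ
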