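import Mathlib
import Pool.Agent.Lib.H35P.R4
import Pool.Agent.Lib.H55K.QA1B
import Pool.Agent.Lib.H55K.QD

/-! # H55K: the kernel of reduction has finite index -/

open NumberField IsDedekindDomain WeierstrassCurve

namespace H55K.TQ

open H55P (IQ embF eF LF Per IsHecke Pt ac Inert Dec Nm UnitP)
open H35P (WAB Ker tt GoodW IntW)
open H55K.MG (VC Crd)

variable {k : Type} [Field k] {W : WeierstrassCurve k} {V : ValuationSubring k}

/-- Chunk QA2 (S/M). The subgroup: H35P.ker_add, ker_neg, Ker V 0. Finite index: S from FinR for c = Δ. For P outside choose z₁, z₂ in S with V(xc P - z₁) < V(Δ), V(yc P - z₂) < V(Δ) (coordinates in V: not Ker, H35P.int_y).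
Two points outside the subgroup with the same z₁, z₂ differ by an element of it (near). So the map of the quotient to Option (S × S) (none if the representative (Quotient.out) is in K1) is injective and the quotient is finite. -/
theorem fin_index [DecidableEq k] (hI : IntW W V) (hΔ : W.Δ ≠ 0) (hf : FinR V) :
    ∃ K1 : AddSubgroup W.toAffine.Point, (∀ P, P ∈ K1 ↔ Ker V P) ∧ K1.FiniteIndex := by
  classical
  let K1 : AddSubgroup W.toAffine.Point :=
    { carrier := {P | Ker V P}
      add_mem' := fun {P Q} hP hQ => H35P.ker_add hI P Q hP hQ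
      zero_mem' := (trivial : Ker V (0 : W.toAffine.Point))
      neg_mem' := fun {P} hP => (H35P.ker_neg P).2 hP }
  refine ⟨K1, fun P => Iff.rfl, ?_⟩
  obtain ⟨S, hS, hS'⟩ := hf W.Δ hΔ
  have hco : ∀ P : W.toAffine.Point, ¬ Ker V P → xc P ∈ V ∧ yc P ∈ V := by
    intro P hP
    match P, hP with
    | .zero, hP => exact absurd trivial hP
    | .some x y h, hP =>
      have hx : V.valuation x ≤ 1 := not_lt.1 hP
      exact ⟨(V.valuation_le_one_iff x).1 hx, (V.valuation_le_one_iff y).1 (H35P.int_y hI h.1 hx)⟩
  have hch : ∀ P : W.toAffine.Point, ∃ z : S × S, ¬ Ker V P → V.valuation (xc P - z.1) < V.valuation W.Δ ∧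
      V.valuation (yc P - z.2) < V.valuation W.Δ := by
    intro P
    by_cases hP : Ker V P
    · obtain ⟨z, hz, _⟩ := hS' 0 V.zero_mem
      exact ⟨(⟨z, hz⟩, ⟨z, hz⟩), fun h => absurd hP h⟩
    · obtain ⟨h1, h2⟩ := hco P hP
      obtain ⟨z, hz, hz'⟩ := hS' _ h1
      obtain ⟨w, hw, hw'⟩ := hS' _ h2
      exact ⟨(⟨z, hz⟩, ⟨w, hw⟩), fun _ => ⟨hz', hw'⟩⟩
  choose Z hZ using hch
  have hfS : Finite S := hS
  let F : W.toAffine.Point ⧸ K1 → Option (S × S) := fun q => if Ker V q.out then none else some (Z q.out)
  have hF : Function.Injective F := by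
    intro q q' h
    have e1 : (QuotientAddGroup.mk q.out : W.toAffine.Point ⧸ K1) = q := QuotientAddGroup.out_eq' q
    have e2 : (QuotientAddGroup.mk q'.out : W.toAffine.Point ⧸ K1) = q' := QuotientAddGroup.out_eq' q'
    rw [← e1, ← e2]
    change (if Ker V q.out then none else some (Z q.out)) = (if Ker V q'.out then none else some (Z q'.out)) at h
    refine (QuotientAddGroup.eq (s := K1)).2 ?_
    show Ker V (-q.out + q'.out)
    by_cases h1 : Ker V q.out
    · by_cases h2 : Ker V q'.out
      · exact H35P.ker_add hI _ _ ((H35P.ker_neg _).2 h1) h2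
      · rw [if_pos h1, if_neg h2] at h
        exact absurd h (by simp)
    · by_cases h2 : Ker V q'.out
      · rw [if_neg h1, if_pos h2] at h
        exact absurd h (by simp)
      · rw [if_neg h1, if_neg h2] at h
        have h3 := Option.some.inj h
        have z1 := hZ _ h1
        have z2 := hZ _ h2
        rw [← h3] at z2
        have hx : V.valuation (xc q'.out - xc q.out) < V.valuation W.Δ := by
          have e : xc q'.out - xc q.out = (xc q'.out - (Z q.out).1) - (xc q.out - (Z q.out).1) := by ring
          rw [e]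
          exact V.valuation.map_sub_lt z2.1 z1.1
        have hy : V.valuation (yc q'.out - yc q.out) < V.valuation W.Δ := by
          have e : yc q'.out - yc q.out = (yc q'.out - (Z q.out).2) - (yc q.out - (Z q.out).2) := by ring
          rw [e]
          exact V.valuation.map_sub_lt z2.2 z1.2
        have h4 := near hI hΔ h2 h1 hx hy
        rw [neg_add_eq_sub]
        exact h4
  have hfin : Finite (W.toAffine.Point ⧸ K1) := Finite.of_injective F hF
  exact AddSubgroup.finiteIndex_of_finite_quotient

end H55K.TQ
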