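import Mathlib
import Pool.Agent.Lib.H55K.QD
import Pool.Agent.Lib.H55K.QB1A

/-! # H55K: extension of the valuation ring to an algebraic closure -/

open NumberField IsDedekindDomain WeierstrassCurve

namespace H55K.TQ

open H55P (IQ embF eF LF Per IsHecke Pt ac Inert Dec Nm UnitP)
open H35P (WAB Ker tt GoodW IntW)
open H55K.MG (VC Crd)

variable {k : Type} [Field k] {Ω : Type} [Field Ω] [Algebra k Ω]

/-- Chunk QB1B (S/M). a ≠ 0 is a root of a polynomial of k[X] (Algebra.IsAlgebraic), with a nonzero constant coefficient or not: in the sum of the c_i a^i = 0 two different nonzero terms have the same (maximal) value (ultrametric inequality: a sum with a unique term of maximal value is not 0), so V(a)^(i - j) = V(c_j/c_i), i > j. -/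
theorem val_pow [Algebra.IsAlgebraic k Ω] (V : ValuationSubring Ω) {a : Ω} (ha : a ≠ 0) :
    ∃ (m : ℕ) (b : k), 0 < m ∧ b ≠ 0 ∧ V.valuation a ^ m = V.valuation (algebraMap k Ω b) := by
  classical
  obtain ⟨p, hp0, hp⟩ := Algebra.IsAlgebraic.isAlgebraic (R := k) a
  rw [Polynomial.aeval_eq_sum_range' (n := p.natDegree + 1) (Nat.lt_succ_self _)] at hp
  have hvm : ∀ i, p.coeff i • a ^ i = algebraMap k Ω (p.coeff i) * a ^ i := fun i => Algebra.smul_def _ _
  have hsum : ∑ i ∈ p.support, algebraMap k Ω (p.coeff i) * a ^ i = 0 := by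
    rw [← hp]
    have h1 : p.support ⊆ Finset.range (p.natDegree + 1) := Polynomial.supp_subset_range_natDegree_succ
    rw [← Finset.sum_subset h1 (f := fun i => p.coeff i • a ^ i)]
    · exact Finset.sum_congr rfl fun i _ => (hvm i).symm
    · intro i _ hi
      rw [Polynomial.notMem_support_iff.1 hi, zero_smul]
  have hne : ∀ i ∈ p.support, algebraMap k Ω (p.coeff i) * a ^ i ≠ 0 := by
    intro i hi
    refine mul_ne_zero ?_ (pow_ne_zero i ha)
    rw [Ne, FaithfulSMul.algebraMap_eq_zero_iff]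
    exact Polynomial.mem_support_iff.1 hi
  have hsn : p.support.Nonempty := Polynomial.nonempty_support_iff.2 hp0
  obtain ⟨i, hi, hmax⟩ := Finset.exists_max_image p.support
    (fun i => V.valuation (algebraMap k Ω (p.coeff i) * a ^ i)) hsn
  have hex : ∃ j ∈ p.support, j ≠ i ∧ V.valuation (algebraMap k Ω (p.coeff j) * a ^ j) =
      V.valuation (algebraMap k Ω (p.coeff i) * a ^ i) := by
    by_contra hcon
    push Not at hcon
    have hlt : ∀ j ∈ p.support.erase i, V.valuation (algebraMap k Ω (p.coeff j) * a ^ j) <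
        V.valuation (algebraMap k Ω (p.coeff i) * a ^ i) := by
      intro j hj
      rw [Finset.mem_erase] at hj
      exact lt_of_le_of_ne (hmax j hj.2) (hcon j hj.2 hj.1)
    have hg : V.valuation (algebraMap k Ω (p.coeff i) * a ^ i) ≠ 0 :=
      (Valuation.ne_zero_iff _).2 (hne i hi)
    have h2 := Valuation.map_sum_lt V.valuation hg hlt
    rw [← Finset.add_sum_erase p.support _ hi] at hsum
    have h3 : ∑ j ∈ p.support.erase i, algebraMap k Ω (p.coeff j) * a ^ j =
        -(algebraMap k Ω (p.coeff i) * a ^ i) := eq_neg_of_add_eq_zero_right hsum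
    rw [h3, Valuation.map_neg] at h2
    exact lt_irrefl _ h2
  obtain ⟨j, hj, hji, hval⟩ := hex
  have key : ∀ i j : ℕ, i ∈ p.support → j ∈ p.support → j < i →
      V.valuation (algebraMap k Ω (p.coeff j) * a ^ j) = V.valuation (algebraMap k Ω (p.coeff i) * a ^ i) →
      ∃ (m : ℕ) (b : k), 0 < m ∧ b ≠ 0 ∧ V.valuation a ^ m = V.valuation (algebraMap k Ω b) := by
    intro i j hi hj hlt hv
    have hci := Polynomial.mem_support_iff.1 hi
    have hcj := Polynomial.mem_support_iff.1 hj
    refine ⟨i - j, p.coeff j / p.coeff i, Nat.sub_pos_of_lt hlt, div_ne_zero hcj hci, ?_⟩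
    have hva : V.valuation a ≠ 0 := (Valuation.ne_zero_iff _).2 ha
    have hvi : V.valuation (algebraMap k Ω (p.coeff i)) ≠ 0 := by
      refine (Valuation.ne_zero_iff _).2 ?_
      rw [Ne, FaithfulSMul.algebraMap_eq_zero_iff]
      exact hci
    rw [map_mul, map_mul, map_pow, map_pow] at hv
    rw [map_div₀, map_div₀, eq_div_iff hvi]
    apply mul_right_cancel₀ (pow_ne_zero j hva)
    rw [hv, mul_comm (V.valuation a ^ (i - j)), mul_assoc, ← pow_add, Nat.sub_add_cancel hlt.le]
  rcases lt_or_gt_of_ne hji with h | h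
  · exact key i j hi hj h hval
  · exact key j i hj hi h hval.symm

/-- Chunk QB1B (S). From val_pow for a (if a ≠ 0) and for c: V(a)^m = V(b), V(b) < 1, V(c)^m' = V(c'), V₀(b)^n < V₀(c'), so V(a)^(m n) < V(c)^m' ≤ ... : if V(c) ≤ 1 then V(a)^(m n) < V(c)^m' gives V(a)^(m n m') < V(c)^m' .. use V(a)^(m n) < V(c)^m' ≤ V(c) if V(c) ≤ 1 (m' ≥ 1); if V(c) > 1 take n = 0 or 1. -/
theorem arch_ext [Algebra.IsAlgebraic k Ω] {V₀ : ValuationSubring k} {V : ValuationSubring Ω}
    (h : ∀ x : k, algebraMap k Ω x ∈ V ↔ x ∈ V₀) (hA : Arch V₀) : Arch V := by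
  intro a c ha hc
  by_cases ha0 : a = 0
  · refine ⟨1, ?_⟩
    rw [ha0, map_zero, pow_one]
    exact zero_lt_iff.2 ((Valuation.ne_zero_iff _).2 hc)
  obtain ⟨m, b, hm, hb, hmb⟩ := val_pow (k := k) V ha0
  obtain ⟨m', c', hm', hc', hmc⟩ := val_pow (k := k) V hc
  have hb1 : V₀.valuation b < 1 := by
    have h1 := (ext_val h b 1).2.1
    rw [map_one, map_one, map_one] at h1
    apply h1
    rw [← hmb]
    exact pow_lt_one₀ zero_le ha hm.ne'
  obtain ⟨n, hn⟩ := hA b c' hb1 hc'
  have h2 : V.valuation a ^ (m * n) < V.valuation c ^ m' := by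
    rw [pow_mul, hmb, hmc, ← map_pow, ← map_pow]
    apply (ext_val h (b ^ n) c').2.2
    rw [map_pow]
    exact hn
  by_cases h3 : V.valuation c ≤ 1
  · exact ⟨m * n, lt_of_lt_of_le h2 (pow_le_of_le_one zero_le h3 hm'.ne')⟩
  · refine ⟨0, ?_⟩
    rw [pow_zero]
    exact not_le.1 h3

end H55K.TQ
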