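import Mathlib
import Pool.Agent.Lib.H55K.M0
import Pool.Agent.Lib.H55K.M2B
import Pool.Agent.Lib.H55P.Stm

/-! # H55K: points over the base field -/

open NumberField IsDedekindDomain WeierstrassCurve

namespace H55K.TQ

open H55P (IQ embF eF LF Per IsHecke Pt ac Inert Dec Nm UnitP)
open H35P (WAB Ker tt GoodW IntW)
open H55K.MG (VC Crd)

/-- The identity on coordinates for equal curves. -/
noncomputable def qd2_cast {k : Type} [Field k] [DecidableEq k] {W₁ W₂ : WeierstrassCurve k} (h : W₁ = W₂) :
    W₁.toAffine.Point ≃+ W₂.toAffine.Point := by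
  subst h
  exact AddEquiv.refl _

theorem qd2_cast_some {k : Type} [Field k] [DecidableEq k] {W₁ W₂ : WeierstrassCurve k} (h : W₁ = W₂) (x y : k)
    (hn : W₁.toAffine.Nonsingular x y) :
    qd2_cast h (Affine.Point.some x y hn) = Affine.Point.some x y (h ▸ hn) := by
  subst h
  rfl

theorem qd2_base {k : Type} [Field k] (W : WeierstrassCurve k) : W⁄k = W := by
  cases W
  rfl

/-- φ is the inclusion of the points over k in the points over Ω. -/
def Inc {k : Type} [Field k] [DecidableEq k] {Ω : Type} [Field Ω] [DecidableEq Ω] [Algebra k Ω] (W : WeierstrassCurve k)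
    (φ : W.toAffine.Point →+ Pt W Ω) : Prop :=
  ∀ P, P ≠ 0 → φ P ≠ 0 ∧ xc (φ P) = algebraMap k Ω (xc P) ∧ yc (φ P) = algebraMap k Ω (yc P)

/-- Chunk QD2 (S/M). Affine.Point.map for the algebra map k → Ω (base change of W from k to k is W: W.map (algebraMap k k) = W; use Affine.Point.map (Algebra.ofId k Ω) and the identification W⁄k = W, see H55P.z11_cast in Z11.lean, or Affine.Point.map for W with R = k, F = k if W⁄k unfolds). -/
theorem exists_inc {k : Type} [Field k] [DecidableEq k] {Ω : Type} [Field Ω] [DecidableEq Ω] [Algebra k Ω]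
    (W : WeierstrassCurve k) : ∃ φ : W.toAffine.Point →+ Pt W Ω, Inc W φ := by
  refine ⟨(Affine.Point.map (W' := W.toAffine) (Algebra.ofId k Ω)).comp
    (qd2_cast (qd2_base W).symm).toAddMonoidHom, ?_⟩
  intro P hP
  rcases P with _ | ⟨x, y, h⟩
  · exact absurd rfl hP
  · have e1 : ((Affine.Point.map (W' := W.toAffine) (Algebra.ofId k Ω)).comp
        (qd2_cast (qd2_base W).symm).toAddMonoidHom) (Affine.Point.some x y h) =
        Affine.Point.map (W' := W.toAffine) (Algebra.ofId k Ω) (qd2_cast (qd2_base W).symm (Affine.Point.some x y h)) := rfl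
    rw [e1, qd2_cast_some]
    exact ⟨Affine.Point.some_ne_zero _, rfl, rfl⟩

end H55K.TQ
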