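import Mathlib
import Pool.Agent.Lib.H55K.M1A
import Pool.Agent.Lib.H55K.M3A
import Pool.Agent.Lib.H55K.QC1D
import Pool.Agent.Lib.H55K.QD2

/-! # H55K: a good model over the base field from a rational point -/

open NumberField IsDedekindDomain WeierstrassCurve

namespace H55K.TQ

open H55P (IQ embF eF LF Per IsHecke Pt ac Inert Dec Nm UnitP)
open H35P (WAB Ker tt GoodW IntW)
open H55K.MG (VC Crd)

variable {k : Type} [Field k] {Ω : Type} [Field Ω] [Algebra k Ω] {W : WeierstrassCurve k} {V : ValuationSubring Ω}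
  {W' : WeierstrassCurve Ω} {u r s t : Ω}

theorem qe1_neg [DecidableEq Ω] {W' : WeierstrassCurve Ω} (Q : W'.toAffine.Point) (hQ : Q ≠ 0) :
    xc (-Q) = xc Q ∧ yc (-Q) = W'.toAffine.negY (xc Q) (yc Q) := by
  rcases Q with _ | ⟨x, y, h⟩
  · exact absurd rfl hQ
  · rw [Affine.Point.neg_some]
    exact ⟨rfl, rfl⟩

/-- Chunk QE1 (M). A point P over k with P, 2P, 3P, 4P outside the kernel of reduction of the good model W' over Ω gives a good model over k. Write P = (x, y), 2P = (x₂, y₂) (both nonzero) over k, P' = φ P. Put u₀ = (y₂ - negY x₂ y₂)/(x - x₂), r₀ = x, s₀ = slope of the line through P and 2P, t₀ = y, all in k (x ≠ x₂ because the x-coordinates on W' differ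
by a unit). Over Ω: Θ P' = (x', y'), Θ(2P') = (x₂', y₂') integral (not Ker: MG.int_crd), x = u^2 x' + r, ... (Crd), δ = x' - x₂' is a unit (MG.unit_diff for ΘP', 2ΘP': their difference and sum are ∓ΘP', 3ΘP', not in Ker), η = y₂' - negY' x₂' y₂' is a unit (MG.cong_ker: otherwise 2ΘP' and -2ΘP' are congruent and 4ΘP' is in Ker;
they have the same x-coordinate), λ = slope of W' through ΘP', 2ΘP' = (y' - y₂')/δ is integral. vc_negY, vc_slope (M1A.lean): y₂ - negY x₂ y₂ = u^3 η, x - x₂ = u^2 δ, so u₀ = u e with e = η/δ a unit; s₀ = u λ + s; r₀ = u^2 x' + r, t₀ = u^3 y' + s u^2 x' + t. So (vc_comp) the change (u₀, r₀, s₀, t₀) of W over Ω is the composition of (u, r, s, t)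
with (e, x', λ, y') on W'. W'' over k from vc_ex; its base change is (vc_uniq, vc_map) the curve obtained from W' by (e, x', λ, y') (vc_ex), which is good by vc_good. -/
theorem rat_model [DecidableEq k] [DecidableEq Ω] (hv : VC (W⁄Ω) W' u r s t) (hG : GoodW W' V)
    {Θ : Pt W Ω ≃+ W'.toAffine.Point} (hc : Crd u r s t Θ) {φ : W.toAffine.Point →+ Pt W Ω} (hφ : Inc W φ)
    (P : W.toAffine.Point) (h1 : ¬ Ker V (Θ (φ P))) (h2 : ¬ Ker V (Θ (φ (2 • P)))) (h3 : ¬ Ker V (Θ (φ (3 • P))))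
    (h4 : ¬ Ker V (Θ (φ (4 • P)))) :
    ∃ (W'' : WeierstrassCurve k) (u r s t : k), VC W W'' u r s t ∧ GoodW (W''⁄Ω) V := by
  set Q := Θ (φ P) with hQ
  have hQ2 : Θ (φ (2 • P)) = 2 • Q := by rw [map_nsmul, map_nsmul]
  have hQ3 : Θ (φ (3 • P)) = 3 • Q := by rw [map_nsmul, map_nsmul]
  have hQ4 : Θ (φ (4 • P)) = 4 • Q := by rw [map_nsmul, map_nsmul]
  have hne : ∀ R : W.toAffine.Point, ¬ Ker V (Θ (φ R)) → R ≠ 0 := by
    rintro R hR rfl
    apply hR
    rw [map_zero, map_zero]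
    exact trivial
  have hP0 := hne P h1
  have hP20 := hne _ h2
  obtain ⟨hφ1, hx1, hy1⟩ := hφ P hP0
  obtain ⟨hφ2, hx2, hy2⟩ := hφ _ hP20
  obtain ⟨hΘ1, hX1, hY1⟩ := hc _ hφ1
  obtain ⟨hΘ2, hX2, hY2⟩ := hc _ hφ2
  obtain ⟨-, ix1, iy1⟩ := MG.int_crd hG h1
  obtain ⟨-, ix2, iy2⟩ := MG.int_crd hG h2
  rw [hx1] at hX1
  rw [hy1] at hY1
  rw [hx2] at hX2
  rw [hy2] at hY2
  rw [← hQ] at hX1 hY1
  rw [hQ2] at hX2 hY2 h2 ix2 iy2 hΘ2
  rw [hQ3] at h3
  rw [hQ4] at h4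
  have hu := hv.une
  have hδ : V.valuation (xc Q - xc (2 • Q)) = 1 := by
    apply MG.unit_diff hG h1 h2
    · have e : Q - 2 • Q = -Q := by
        rw [two_nsmul]
        abel
      rw [e]
      exact fun hk => h1 ((H35P.ker_neg Q).1 hk)
    · have e : Q + 2 • Q = 3 • Q := by
        rw [two_nsmul, show (3 : ℕ) = 1 + 1 + 1 from rfl, add_nsmul, add_nsmul, one_nsmul]
        abel
      rw [e]
      exact h3
  obtain ⟨en1, en2⟩ := qe1_neg (2 • Q) hΘ2
  have hnegV : W'.toAffine.negY (xc (2 • Q)) (yc (2 • Q)) ∈ V := by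
    have h5 : ¬ Ker V (-(2 • Q)) := fun hk => h2 ((H35P.ker_neg _).1 hk)
    have h6 := (MG.int_crd hG h5).2.2
    rwa [en2] at h6
  have hη : V.valuation (yc (2 • Q) - W'.toAffine.negY (xc (2 • Q)) (yc (2 • Q))) = 1 := by
    refine le_antisymm ((V.valuation_le_one_iff _).2 (sub_mem iy2 hnegV)) (not_lt.1 fun hlt => ?_)
    apply h4
    have h5 : ¬ Ker V (-(2 • Q)) := fun hk => h2 ((H35P.ker_neg _).1 hk)
    have h6 := MG.cong_ker hG h2 h5 (by
      rw [en1, sub_self, map_zero]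
      exact zero_lt_one) (by
      rw [en2]
      exact hlt)
    have e : (2 : ℕ) • Q - -((2 : ℕ) • Q) = (4 : ℕ) • Q := by
      rw [sub_neg_eq_add, ← add_nsmul]
    rwa [e] at h6
  set x' := xc Q with hx'
  set y' := yc Q with hy'
  set x₂ := xc (2 • Q) with hx₂
  set y₂ := yc (2 • Q) with hy₂
  set δ := x' - x₂ with hδd
  set η := y₂ - W'.toAffine.negY x₂ y₂ with hηd
  have hδ0 : δ ≠ 0 := by
    intro h0
    rw [h0, map_zero] at hδ
    exact zero_ne_one hδ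
  have hη0 : η ≠ 0 := by
    intro h0
    rw [h0, map_zero] at hη
    exact zero_ne_one hη
  set X := xc P with hXd
  set Y := yc P with hYd
  set X₂ := xc (2 • P) with hX₂d
  set Y₂ := yc (2 • P) with hY₂d
  have hdiff : algebraMap k Ω (X - X₂) = u ^ 2 * δ := by
    rw [map_sub, hX1, hX2, hδd]
    ring
  have hdiff0 : X - X₂ ≠ 0 := by
    intro h0
    rw [h0, map_zero] at hdiff
    exact mul_ne_zero (pow_ne_zero 2 hu) hδ0 hdiff.symm
  have hneg : algebraMap k Ω (Y₂ - W.toAffine.negY X₂ Y₂) = u ^ 3 * η := by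
    have e1 : algebraMap k Ω (W.toAffine.negY X₂ Y₂) =
        (W⁄Ω).toAffine.negY (algebraMap k Ω X₂) (algebraMap k Ω Y₂) := by
      unfold Affine.negY
      rw [map_sub, map_sub, map_neg, map_mul]
      rfl
    rw [map_sub, e1, hX2, hY2, MG.vc_negY hv, hηd]
    ring
  have hneg0 : Y₂ - W.toAffine.negY X₂ Y₂ ≠ 0 := by
    intro h0
    rw [h0, map_zero] at hneg
    exact mul_ne_zero (pow_ne_zero 3 hu) hη0 hneg.symm
  have hyd : algebraMap k Ω (Y - Y₂) = u ^ 3 * (y' - y₂) + s * u ^ 2 * δ := by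
    rw [map_sub, hY1, hY2, hδd]
    ring
  obtain ⟨W'', hW''⟩ := vc_ex W (u := (Y₂ - W.toAffine.negY X₂ Y₂) / (X - X₂)) (div_ne_zero hneg0 hdiff0) X
    ((Y - Y₂) / (X - X₂)) Y
  obtain ⟨W₃, hW₃⟩ := vc_ex W' (u := η / δ) (div_ne_zero hη0 hδ0) x' ((y' - y₂) / δ) y'
  have hcomp := vc_comp hv hW₃
  have hmap := vc_map (algebraMap k Ω) hW''
  have eu : algebraMap k Ω ((Y₂ - W.toAffine.negY X₂ Y₂) / (X - X₂)) = u * (η / δ) := by
    rw [map_div₀, hdiff, hneg]
    field_simp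
  have es : algebraMap k Ω ((Y - Y₂) / (X - X₂)) = u * ((y' - y₂) / δ) + s := by
    rw [map_div₀, hdiff, hyd]
    field_simp
  rw [eu, es, hX1, hY1] at hmap
  have heq : W''.map (algebraMap k Ω) = W₃ := vc_uniq hmap hcomp
  refine ⟨W'', _, _, _, _, hW'', ?_⟩
  have hgood : GoodW W₃ V := by
    refine vc_good hW₃ hG ?_ ix1 ?_ iy1
    · rw [map_div₀, hη, hδ, div_one]
    · rw [← V.valuation_le_one_iff, map_div₀, hδ, div_one]
      exact (V.valuation_le_one_iff _).2 (sub_mem iy1 iy2)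
  show GoodW (W''.map (algebraMap k Ω)) V
  rw [heq]
  exact hgood

end H55K.TQ
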