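import Mathlib
import Pool.Agent.Lib.H35P.R1
import Pool.Agent.Lib.H35P.R2
import Pool.Agent.Lib.H35P.R3
import Pool.Agent.Lib.H55K.M0
import Pool.Agent.Lib.H55K.M2A
import Pool.Agent.Lib.H55P.Stm

/-! # H55K: the parameter x/y is additive modulo squares -/

open NumberField IsDedekindDomain WeierstrassCurve

namespace H55K.TQ

open H55P (IQ embF eF LF Per IsHecke Pt ac Inert Dec Nm UnitP)
open H35P (WAB Ker tt GoodW IntW)
open H55K.MG (VC Crd)

variable {k : Type} [Field k] [DecidableEq k] {W : WeierstrassCurve k} {V : ValuationSubring k}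

theorem qe2a_mon {Γ : Type*} [LinearOrderedCommGroupWithZero Γ] {a b c u w : Γ} (ha : a ≤ c) (hb : b ≤ c)
    (hu : u ≤ 1) (hw : w ≤ 1) : u * (a * b) * w ≤ c ^ 2 := by
  calc u * (a * b) * w ≤ 1 * (c * c) * 1 := mul_le_mul' (mul_le_mul' hu (mul_le_mul' ha hb)) hw
    _ = c ^ 2 := by rw [one_mul, mul_one, sq]

theorem qe2a_ord {Γ : Type*} [LinearOrderedCommGroupWithZero Γ] {a b d c L M n : Γ} (ha : a ≤ c) (hb : b ≤ c)
    (hd : d ≤ c) (hc : c ≤ 1) (hM : M * (a * b * d) = 1) (hL : L * a ≤ 1 ∨ L * b ≤ 1 ∨ L * d ≤ 1)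
    (hn : n ≤ max (max (L ^ 2 * M) (L * M ^ 2)) (M ^ 2)) : n * (a * b * d) ^ 3 ≤ c ^ 2 := by
  have ha1 : a ≤ 1 := ha.trans hc
  have hb1 : b ≤ 1 := hb.trans hc
  have hd1 : d ≤ 1 := hd.trans hc
  have p : ∀ {x : Γ} (m : ℕ), x ≤ 1 → x ^ m ≤ 1 := fun m hx => pow_le_one₀ zero_le hx
  rcases le_max_iff.1 hn with h | h
  · rcases le_max_iff.1 h with h | h
    · refine (mul_le_mul_left h _).trans ?_
      have e : L ^ 2 * M * (a * b * d) ^ 3 = L ^ 2 * (a * b * d) ^ 2 := by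
        calc L ^ 2 * M * (a * b * d) ^ 3 = L ^ 2 * (a * b * d) ^ 2 * (M * (a * b * d)) := by
              simp only [pow_succ, pow_zero, one_mul]; ac_rfl
          _ = L ^ 2 * (a * b * d) ^ 2 := by rw [hM, mul_one]
      rw [e]
      rcases hL with h1 | h1 | h1
      · calc L ^ 2 * (a * b * d) ^ 2 = (L * a) ^ 2 * (b * d) * (b * d) := by
              simp only [pow_succ, pow_zero, one_mul]; ac_rfl
          _ ≤ c ^ 2 := qe2a_mon hb hd (p 2 h1) (mul_le_one' hb1 hd1)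
      · calc L ^ 2 * (a * b * d) ^ 2 = (L * b) ^ 2 * (a * d) * (a * d) := by
              simp only [pow_succ, pow_zero, one_mul]; ac_rfl
          _ ≤ c ^ 2 := qe2a_mon ha hd (p 2 h1) (mul_le_one' ha1 hd1)
      · calc L ^ 2 * (a * b * d) ^ 2 = (L * d) ^ 2 * (a * b) * (a * b) := by
              simp only [pow_succ, pow_zero, one_mul]; ac_rfl
          _ ≤ c ^ 2 := qe2a_mon ha hb (p 2 h1) (mul_le_one' ha1 hb1)
    · refine (mul_le_mul_left h _).trans ?_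
      have e : L * M ^ 2 * (a * b * d) ^ 3 = L * (a * b * d) := by
        calc L * M ^ 2 * (a * b * d) ^ 3 = L * (a * b * d) * (M * (a * b * d)) ^ 2 := by
              simp only [pow_succ, pow_zero, one_mul]; ac_rfl
          _ = L * (a * b * d) := by rw [hM, one_pow, mul_one]
      rw [e]
      rcases hL with h1 | h1 | h1
      · calc L * (a * b * d) = (L * a) * (b * d) * 1 := by
              rw [mul_one]; ac_rfl
          _ ≤ c ^ 2 := qe2a_mon hb hd h1 le_rfl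
      · calc L * (a * b * d) = (L * b) * (a * d) * 1 := by
              rw [mul_one]; ac_rfl
          _ ≤ c ^ 2 := qe2a_mon ha hd h1 le_rfl
      · calc L * (a * b * d) = (L * d) * (a * b) * 1 := by
              rw [mul_one]; ac_rfl
          _ ≤ c ^ 2 := qe2a_mon ha hb h1 le_rfl
  · refine (mul_le_mul_left h _).trans ?_
    have e : M ^ 2 * (a * b * d) ^ 3 = a * b * d := by
      calc M ^ 2 * (a * b * d) ^ 3 = (a * b * d) * (M * (a * b * d)) ^ 2 := by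
            simp only [pow_succ, pow_zero, one_mul]; ac_rfl
        _ = a * b * d := by rw [hM, one_pow, mul_one]
    rw [e]
    calc a * b * d = 1 * (a * b) * d := by rw [one_mul]
      _ ≤ c ^ 2 := qe2a_mon ha hb le_rfl hd1

/-- The size of a root of z^2 + a z = s. -/
theorem qe2a_root {k : Type*} [Field k] {Γ : Type*} [LinearOrderedCommGroupWithZero Γ] (v : Valuation k Γ)
    {z a b s : k} (h : z ^ 2 + a * z = s + b) (ha : v a ≤ 1) (hb : v b ≤ 1) (hs : 1 < v s) :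
    1 < v z ∧ v z ^ 2 = v s := by
  have hsb : v (s + b) = v s := Valuation.map_add_eq_of_lt_left v (hb.trans_lt hs)
  have hz : 1 < v z := by
    by_contra hcon
    have hz1 := not_lt.1 hcon
    have h1 : v (z ^ 2 + a * z) ≤ 1 := by
      refine (v.map_add _ _).trans (max_le ?_ ?_)
      · rw [map_pow]
        exact pow_le_one₀ zero_le hz1
      · rw [map_mul]
        exact mul_le_one' ha hz1
    rw [h, hsb] at h1
    exact absurd hs (not_lt.2 h1)
  refine ⟨hz, ?_⟩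
  have h2 : v (a * z) < v (z ^ 2) := by
    rw [map_mul, map_pow, sq]
    calc v a * v z ≤ 1 * v z := mul_le_mul_left ha _
      _ = v z := one_mul _
      _ < v z * v z := by
        calc v z = 1 * v z := (one_mul _).symm
          _ < v z * v z := mul_lt_mul_of_pos_right hz (zero_lt_one.trans hz)
  rw [← map_pow, ← hsb, ← h, Valuation.map_add_eq_of_lt_left v h2]

theorem qe2a_val {k : Type*} [Field k] {Γ : Type*} [LinearOrderedCommGroupWithZero Γ] (v : Valuation k Γ)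
    {x₁ x₂ x₃ y₁ y₂ y₃ l m a₁ a₂ a₃ a₄ a₆ : k} {c : Γ} (h1 : 1 < v x₁) (h2 : 1 < v x₂) (h3 : 1 < v x₃)
    (s1 : x₁ + x₂ + x₃ = l ^ 2 + a₁ * l - a₂) (s3 : x₁ * x₂ * x₃ = m ^ 2 + a₃ * m - a₆)
    (g1 : v a₁ ≤ 1) (g2 : v a₂ ≤ 1) (g3 : v a₃ ≤ 1) (g4 : v a₄ ≤ 1) (g6 : v a₆ ≤ 1)
    (v1 : v y₁ ^ 2 = v x₁ ^ 3) (v2 : v y₂ ^ 2 = v x₂ ^ 3) (v3 : v y₃ ^ 2 = v x₃ ^ 3)
    (i3 : v (3 : k) ≤ 1) (i2 : v (2 : k) ≤ 1)
    (hN : x₁ * y₂ * y₃ + x₂ * y₁ * y₃ + x₃ * y₁ * y₂ =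
      a₃ * l ^ 2 * m - 3 * a₆ * l ^ 2 + 2 * a₄ * l * m - a₁ * l * m ^ 2 - a₂ * m ^ 2)
    (c1 : v (x₁ / y₁) ≤ c) (c2 : v (x₂ / y₂) ≤ c) (c3 : v (x₃ / y₃) ≤ c) (hc : c ≤ 1) :
    v (x₁ / y₁ + x₂ / y₂ + x₃ / y₃) ≤ c ^ 2 := by
  have key : ∀ x y : k, 1 < v x → v y ^ 2 = v x ^ 3 →
      v (x / y) ^ 2 * v x = 1 ∧ v (x / y) ^ 3 * v y = 1 ∧ y ≠ 0 := by
    intro x y hx hxy
    have hx0 : v x ≠ 0 := (zero_lt_one.trans hx).ne'
    have hy0 : v y ≠ 0 := by
      intro h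
      rw [h, zero_pow two_ne_zero] at hxy
      exact pow_ne_zero 3 hx0 hxy.symm
    refine ⟨?_, ?_, fun h => hy0 (by rw [h, map_zero])⟩
    · rw [map_div₀, div_pow, hxy, ← mul_div_right_comm, ← pow_succ, div_self (pow_ne_zero _ hx0)]
    · rw [map_div₀, div_pow, ← hxy, ← mul_div_right_comm, ← pow_succ, div_self (pow_ne_zero _ hy0)]
  obtain ⟨e1, f1, n1⟩ := key _ _ h1 v1
  obtain ⟨e2, f2, n2⟩ := key _ _ h2 v2
  obtain ⟨e3, f3, n3⟩ := key _ _ h3 v3
  have h123 : 1 < v (x₁ * x₂ * x₃) := by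
    rw [map_mul, map_mul]
    exact one_lt_mul'' (one_lt_mul'' h1 h2) h3
  obtain ⟨hm1, hm2⟩ := qe2a_root v (z := m) (a := a₃) (b := a₆) (s := x₁ * x₂ * x₃) (by rw [s3]; ring) g3 g6 h123
  have hb : v m ^ 2 = v x₁ * v x₂ * v x₃ := by rw [hm2, map_mul, map_mul]
  have hM : v m * (v (x₁ / y₁) * v (x₂ / y₂) * v (x₃ / y₃)) = 1 := by
    have h : (v m * (v (x₁ / y₁) * v (x₂ / y₂) * v (x₃ / y₃))) ^ 2 = 1 := by
      calc (v m * (v (x₁ / y₁) * v (x₂ / y₂) * v (x₃ / y₃))) ^ 2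
          = v m ^ 2 * (v (x₁ / y₁) ^ 2 * v (x₂ / y₂) ^ 2 * v (x₃ / y₃) ^ 2) := by
            simp only [mul_pow]
        _ = (v (x₁ / y₁) ^ 2 * v x₁) * (v (x₂ / y₂) ^ 2 * v x₂) * (v (x₃ / y₃) ^ 2 * v x₃) := by
            rw [hb]; ac_rfl
        _ = 1 := by rw [e1, e2, e3, one_mul, one_mul]
    exact (pow_eq_one_iff_of_nonneg zero_le two_ne_zero).1 h
  have le1 : ∀ x y : k, v l ^ 2 ≤ v x → v (x / y) ^ 2 * v x = 1 → v l * v (x / y) ≤ 1 := by
    intro x y hl he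
    refine (pow_le_one_iff_of_nonneg zero_le two_ne_zero).1 ?_
    calc (v l * v (x / y)) ^ 2 = v (x / y) ^ 2 * v l ^ 2 := by rw [mul_pow, mul_comm]
      _ ≤ v (x / y) ^ 2 * v x := mul_le_mul_right hl _
      _ = 1 := he
  have hL : v l * v (x₁ / y₁) ≤ 1 ∨ v l * v (x₂ / y₂) ≤ 1 ∨ v l * v (x₃ / y₃) ≤ 1 := by
    have h : v l ^ 2 ≤ max (max (v x₁) (v x₂)) (v x₃) := by
      have hle : v (x₁ + x₂ + x₃) ≤ max (max (v x₁) (v x₂)) (v x₃) :=
        (v.map_add _ _).trans (max_le_max (v.map_add _ _) le_rfl)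
      by_cases hs : 1 < v (x₁ + x₂ + x₃)
      · rw [(qe2a_root v (z := l) (a := a₁) (b := a₂) (s := x₁ + x₂ + x₃) (by rw [s1]; ring) g1 g2 hs).2]
        exact hle
      · have hmx : 1 ≤ max (max (v x₁) (v x₂)) (v x₃) := h3.le.trans (le_max_right _ _)
        refine le_trans ?_ hmx
        have hl1 : v l ≤ 1 := by
          by_contra hcon
          have hl := not_le.1 hcon
          have e : l ^ 2 + a₁ * l = (x₁ + x₂ + x₃) + a₂ := by rw [s1]; ring
          have hlt : v (a₁ * l) < v (l ^ 2) := by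
            rw [map_mul, map_pow, sq]
            calc v a₁ * v l ≤ 1 * v l := mul_le_mul_left g1 _
              _ < v l * v l := mul_lt_mul_of_pos_right hl (zero_lt_one.trans hl)
          have h5 : v (l ^ 2 + a₁ * l) = v (l ^ 2) := Valuation.map_add_eq_of_lt_left v hlt
          have h6 : v (l ^ 2) ≤ 1 := by
            rw [← h5, e]
            exact (v.map_add _ _).trans (max_le (not_lt.1 hs) g2)
          rw [map_pow] at h6
          exact absurd (one_lt_pow₀ hl two_ne_zero) (not_lt.2 h6)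
        exact pow_le_one₀ zero_le hl1
    rcases le_max_iff.1 h with h | h
    · rcases le_max_iff.1 h with h | h
      · exact Or.inl (le1 _ _ h e1)
      · exact Or.inr (Or.inl (le1 _ _ h e2))
    · exact Or.inr (Or.inr (le1 _ _ h e3))
  have hn : v (a₃ * l ^ 2 * m - 3 * a₆ * l ^ 2 + 2 * a₄ * l * m - a₁ * l * m ^ 2 - a₂ * m ^ 2) ≤
      max (max (v l ^ 2 * v m) (v l * v m ^ 2)) (v m ^ 2) := by
    have t1 : v (a₃ * l ^ 2 * m) ≤ v l ^ 2 * v m := by
      rw [map_mul, map_mul, map_pow, mul_assoc]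
      exact mul_le_of_le_one_left' g3
    have t2 : v (3 * a₆ * l ^ 2) ≤ v l ^ 2 * v m := by
      rw [map_mul, map_mul, map_pow]
      exact (mul_le_of_le_one_left' (mul_le_one' i3 g6)).trans (le_mul_of_one_le_right' hm1.le)
    have t3 : v (2 * a₄ * l * m) ≤ v l * v m ^ 2 := by
      rw [map_mul, map_mul, map_mul, mul_assoc]
      refine (mul_le_of_le_one_left' (mul_le_one' i2 g4)).trans (mul_le_mul_right ?_ _)
      rw [sq]
      exact le_mul_of_one_le_right' hm1.le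
    have t4 : v (a₁ * l * m ^ 2) ≤ v l * v m ^ 2 := by
      rw [map_mul, map_mul, map_pow, mul_assoc]
      exact mul_le_of_le_one_left' g1
    have t5 : v (a₂ * m ^ 2) ≤ v m ^ 2 := by
      rw [map_mul, map_pow]
      exact mul_le_of_le_one_left' g2
    have m1 : v l ^ 2 * v m ≤ max (max (v l ^ 2 * v m) (v l * v m ^ 2)) (v m ^ 2) :=
      (le_max_left _ _).trans (le_max_left _ _)
    have m2 : v l * v m ^ 2 ≤ max (max (v l ^ 2 * v m) (v l * v m ^ 2)) (v m ^ 2) :=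
      (le_max_right _ _).trans (le_max_left _ _)
    refine Valuation.map_sub_le _ (Valuation.map_sub_le _ (Valuation.map_add_le _ (Valuation.map_sub_le _
      (t1.trans m1) (t2.trans m1)) (t3.trans m2)) (t4.trans m2)) (t5.trans (le_max_right _ _))
  have hT : x₁ / y₁ + x₂ / y₂ + x₃ / y₃ =
      (a₃ * l ^ 2 * m - 3 * a₆ * l ^ 2 + 2 * a₄ * l * m - a₁ * l * m ^ 2 - a₂ * m ^ 2) / (y₁ * y₂ * y₃) := by
    rw [← hN]
    field_simp
  have hv : v (x₁ / y₁ + x₂ / y₂ + x₃ / y₃) =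
      v (a₃ * l ^ 2 * m - 3 * a₆ * l ^ 2 + 2 * a₄ * l * m - a₁ * l * m ^ 2 - a₂ * m ^ 2) *
        (v (x₁ / y₁) * v (x₂ / y₂) * v (x₃ / y₃)) ^ 3 := by
    rw [hT, map_div₀, div_eq_mul_inv]
    congr 1
    refine inv_eq_of_mul_eq_one_right ?_
    rw [map_mul, map_mul]
    calc v y₁ * v y₂ * v y₃ * (v (x₁ / y₁) * v (x₂ / y₂) * v (x₃ / y₃)) ^ 3 =
        (v (x₁ / y₁) ^ 3 * v y₁) * (v (x₂ / y₂) ^ 3 * v y₂) * (v (x₃ / y₃) ^ 3 * v y₃) := by
          rw [mul_pow, mul_pow]; ac_rfl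
      _ = 1 := by rw [f1, f2, f3, one_mul, one_mul]
  rw [hv]
  exact qe2a_ord c1 c2 c3 hc hM hL hn

/-- Chunk QE2A (M/L), port of H55K.g2_gen, g2_val, g2_ord (G2.lean; there a₁ = a₂ = a₃ = 0) to a general integral equation. P = 0, Q = 0, P + Q = 0 (H35P.tt_neg: V(tt (-P) + tt P) ≤ V(tt P)^2) are clear; let c be ≤ 1 and V(tt P), V(tt Q) ≤ c. Let (x₁, y₁), (x₂, y₂), (x₃, y₃ = l x₃ + m) be the three points on the line (H35P.vieta in R2.lean; P + Q = -(x₃, y₃)),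
T_i = x_i/y_i, a = V(T₁), b = V(T₂), d = V(T₃), all < 1, V(x_i) = V(T_i)^-2, V(y_i) = V(T_i)^-3 (H35P.tt_sq, val_y), a, b ≤ c. First d ≤ c if c < 1: H35P.tt_add for the points P, Q (V(tt (P + Q) - tt P - tt Q) < c) and tt_neg; or without: see the end. s3: x₁ x₂ x₃ = m^2 + a₃ m - a₆ has value > 1, so V(m)^2 = (a b d)^-2, V(m) a b d = 1.
s1: x₁ + x₂ + x₃ = l^2 + a₁ l - a₂: if V(l) > 1 then V(l)^2 ≤ max of the V(x_i), so V(l) e ≤ 1 with e = min a b d. The last relation of vieta divided by y₁ y₂ y₃: T₁ + T₂ + T₃ = (a₃ l^2 m - 3 a₆ l^2 + 2 a₄ l m - a₁ l m^2 - a₂ m^2)/(y₁ y₂ y₃); values of the five terms: V(l)^2 V(m) (abd)^3 = V(l)^2 (abd)^2, V(l)^2 (abd)^3, V(l) (abd)^2, V(l) (abd), (abd).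
With V(l) ≤ 1/e and e one of a, b, d the worst is (abd)/e = product of the two others ≤ c^2 (using d ≤ c), and abd ≤ c^2. So V(T₁ + T₂ + T₃) ≤ c^2; tt(P + Q) = -T₃ up to d^2 ≤ c^2 (tt_neg). The case c = 1: all values are < 1 (tt_lt), the claim is V(..) ≤ 1: clear. -/
theorem tt_add2g (hI : IntW W V) (P Q : W.toAffine.Point) (hP : Ker V P) (hQ : Ker V Q) (c : V.ValueGroup)
    (h1 : c ≤ 1) (hPc : V.valuation (tt P) ≤ c) (hQc : V.valuation (tt Q) ≤ c) :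
    V.valuation (tt (P + Q) - tt P - tt Q) ≤ c ^ 2 := by
  rcases P with _ | ⟨x₁, y₁, h₁⟩
  · have e : tt (W := W) (Affine.Point.zero + Q) - tt (W := W) Affine.Point.zero - tt Q = 0 := by
      change tt (0 + Q) - 0 - tt Q = 0
      rw [zero_add, sub_zero, sub_self]
    rw [e, map_zero]
    exact zero_le
  rcases Q with _ | ⟨x₂, y₂, h₂⟩
  · have e : tt (W := W) (Affine.Point.some x₁ y₁ h₁ + Affine.Point.zero) -
        tt (W := W) (Affine.Point.some x₁ y₁ h₁) - tt (W := W) Affine.Point.zero = 0 := by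
      change tt (Affine.Point.some x₁ y₁ h₁ + 0) - tt (W := W) (Affine.Point.some x₁ y₁ h₁) - 0 = 0
      rw [add_zero, sub_zero, sub_self]
    rw [e, map_zero]
    exact zero_le
  by_cases hxy : x₁ = x₂ ∧ y₁ = W.toAffine.negY x₂ y₂
  · have e0 : (Affine.Point.some x₁ y₁ h₁ : W.toAffine.Point) + Affine.Point.some x₂ y₂ h₂ = 0 :=
      Affine.Point.add_of_Y_eq hxy.1 hxy.2
    have e1 : (Affine.Point.some x₁ y₁ h₁ : W.toAffine.Point) = -Affine.Point.some x₂ y₂ h₂ :=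
      eq_neg_of_add_eq_zero_left e0
    have e2 := H35P.tt_neg hI _ hQ
    have e3 : tt (0 : W.toAffine.Point) = 0 := rfl
    rw [e0, e1, e3, zero_sub, sub_eq_add_neg, ← neg_add, Valuation.map_neg]
    exact e2.trans (pow_le_pow_left' hQc 2)
  · obtain ⟨s1, s2, s3, p1, p2, p3, hN⟩ := H35P.vieta h₁.1 h₂.1 hxy _ _ _ rfl rfl rfl
    set l : k := W.toAffine.slope x₁ x₂ y₁ y₂ with hl
    set x₃ : k := W.toAffine.addX x₁ x₂ l with hx₃
    set m : k := y₁ - l * x₁ with hm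
    set y₃ : k := W.toAffine.negAddY x₁ x₂ y₁ l with hy₃
    have h₃ : W.toAffine.Nonsingular x₃ y₃ := Affine.nonsingular_negAdd h₁ h₂ hxy
    have hd : 1 < V.valuation x₃ := H35P.third_big hI.a1 hI.a2 hI.a3 hI.a4 hI.a6 s1 s2 s3 hP hQ
    have v1 := (H35P.val_y hI h₁.1 hP).1
    have v2 := (H35P.val_y hI h₂.1 hQ).1
    have v3 := (H35P.val_y hI h₃.1 hd).1
    have hR : Ker V (Affine.Point.some x₃ y₃ h₃ : W.toAffine.Point) := hd
    have hsum : (Affine.Point.some x₁ y₁ h₁ : W.toAffine.Point) + Affine.Point.some x₂ y₂ h₂ =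
        -Affine.Point.some x₃ y₃ h₃ := by
      rw [Affine.Point.add_some hxy, Affine.Point.neg_some]
      rfl
    have hPc' : V.valuation (x₁ / y₁) ≤ c := hPc
    have hQc' : V.valuation (x₂ / y₂) ≤ c := hQc
    have key : V.valuation (x₁ / y₁ + x₂ / y₂ + x₃ / y₃) < c := by
      have v1' := v1
      have v2' := v2
      have v3' := v3
      have hPc'' := hPc'
      have hQc'' := hQc'
      rw [p1] at v1' hPc''
      rw [p2] at v2' hQc''
      rw [p3] at v3'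
      rw [p1, p2, p3]
      exact H35P.third_tt hI.a1 hI.a2 hI.a3 hI.a4 hI.a6 s1 s2 s3 hN hP hQ v1' v2' v3' c hPc'' hQc''
    have hRc : V.valuation (x₃ / y₃) ≤ c := by
      have e : x₃ / y₃ = (x₁ / y₁ + x₂ / y₂ + x₃ / y₃) - x₁ / y₁ - x₂ / y₂ := by ring
      rw [e]
      exact Valuation.map_sub_le _ (Valuation.map_sub_le _ key.le hPc') hQc'
    have hRc' : V.valuation (tt (W := W) (Affine.Point.some x₃ y₃ h₃)) ≤ c := hRc
    have hneg := H35P.tt_neg hI _ hR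
    have hmain : V.valuation (x₁ / y₁ + x₂ / y₂ + x₃ / y₃) ≤ c ^ 2 := by
      have hN' := hN
      rw [← p1, ← p2, ← p3] at hN'
      refine qe2a_val V.valuation hP hQ hd s1 s3 ((V.valuation_le_one_iff _).2 hI.a1) ((V.valuation_le_one_iff _).2 hI.a2)
        ((V.valuation_le_one_iff _).2 hI.a3) ((V.valuation_le_one_iff _).2 hI.a4) ((V.valuation_le_one_iff _).2 hI.a6)
        v1 v2 v3 ?_ ?_ hN' hPc' hQc' hRc h1
      · have := H35P.r3_nat (V := V) 3
        rwa [Nat.cast_ofNat] at this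
      · have := H35P.r3_nat (V := V) 2
        rwa [Nat.cast_ofNat] at this
    have e : tt (W := W) (-Affine.Point.some x₃ y₃ h₃) - tt (W := W) (Affine.Point.some x₁ y₁ h₁) -
        tt (W := W) (Affine.Point.some x₂ y₂ h₂) =
        (tt (W := W) (-Affine.Point.some x₃ y₃ h₃) + tt (W := W) (Affine.Point.some x₃ y₃ h₃)) -
          (x₁ / y₁ + x₂ / y₂ + x₃ / y₃) := by
      change tt (W := W) (-Affine.Point.some x₃ y₃ h₃) - x₁ / y₁ - x₂ / y₂ =
        (tt (W := W) (-Affine.Point.some x₃ y₃ h₃) + x₃ / y₃) - (x₁ / y₁ + x₂ / y₂ + x₃ / y₃)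
      ring
    rw [hsum, e]
    exact Valuation.map_sub_le _ (hneg.trans (pow_le_pow_left' hRc' 2)) hmain

end H55K.TQ
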