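import Mathlib
import Pool.Agent.Lib.H35P.FG
import Pool.Agent.Lib.H55K.QD
import Pool.Agent.Lib.H55K.QE2A

/-! # H55K: the parameter x/y is additive modulo squares -/

open NumberField IsDedekindDomain WeierstrassCurve

namespace H55K.TQ

open H55P (IQ embF eF LF Per IsHecke Pt ac Inert Dec Nm UnitP)
open H35P (WAB Ker tt GoodW IntW)
open H55K.MG (VC Crd)

variable {k : Type} [Field k] [DecidableEq k] {W : WeierstrassCurve k} {V : ValuationSubring k}

/-- Chunk QE2B (S/M). Induction on n: V(tt (n • T) - n * tt T) ≤ c^2 for c = V(tt T) (tt_add2g for n • T and T with this c: V(tt (n • T)) ≤ c). H35P.FG_ind for the style. -/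
theorem tt_smul (hI : IntW W V) {T : W.toAffine.Point} (hT : Ker V T) (n : ℕ) : Ker V (n • T) ∧
    V.valuation (tt (n • T) - n * tt T) ≤ V.valuation (tt T) ^ 2 := by
  have h1 := H35P.tt_lt hI T hT
  have hcc : V.valuation (tt T) ^ 2 ≤ V.valuation (tt T) := by
    rw [sq]
    exact mul_le_of_le_one_left' h1.le
  induction n with
  | zero =>
    refine ⟨?_, ?_⟩
    · rw [zero_smul]
      exact True.intro
    · rw [zero_smul, H35P.FG_zero, Nat.cast_zero, zero_mul, sub_zero, map_zero]
      exact zero_le'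
  | succ n ih =>
    obtain ⟨hk, hv⟩ := ih
    have hc : V.valuation (tt (n • T)) ≤ V.valuation (tt T) := by
      have e : tt (n • T) = (tt (n • T) - n * tt T) + n * tt T := by ring
      rw [e]
      refine (Valuation.map_add _ _ _).trans (max_le (hv.trans hcc) ?_)
      rw [map_mul]
      exact mul_le_of_le_one_left' (H35P.FG_nat n)
    rw [succ_nsmul]
    refine ⟨H35P.ker_add hI _ _ hk hT, ?_⟩
    have h2 := tt_add2g hI (n • T) T hk hT (V.valuation (tt T)) h1.le hc le_rfl
    have e : tt (n • T + T) - ((n + 1 : ℕ) : k) * tt T =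
        (tt (n • T + T) - tt (n • T) - tt T) + (tt (n • T) - n * tt T) := by
      rw [Nat.cast_add, Nat.cast_one]
      ring
    rw [e]
    exact (Valuation.map_add _ _ _).trans (max_le h2 hv)

/-- Chunk QE2B (S/M). μ = max (V q) (V (tt T)) < 1 is the value of an element; V(tt (q • T')) ≤ μ V(tt T') for all multiples T' = q^i • T (V(tt T') ≤ V(tt T)); induction: V(tt (q^n • T)) ≤ μ^n V(tt T) ≤ μ^n; Arch. -/
theorem tt_small (hI : IntW W V) (hA : Arch V) {T : W.toAffine.Point} (hT : Ker V T) {q : ℕ}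
    (hq : V.valuation (q : k) < 1) {c : k} (hc : c ≠ 0) : ∃ n : ℕ, V.valuation (tt (q ^ n • T)) < V.valuation c := by
  have h1 := H35P.tt_lt hI T hT
  obtain ⟨b, hb1, hb2, hb3⟩ : ∃ b : k, V.valuation b < 1 ∧ V.valuation (q : k) ≤ V.valuation b ∧
      V.valuation (tt T) ≤ V.valuation b := by
    rcases le_total (V.valuation (q : k)) (V.valuation (tt T)) with h | h
    · exact ⟨tt T, h1, h, le_rfl⟩
    · exact ⟨(q : k), hq, le_rfl, h⟩
  have key : ∀ n : ℕ, Ker V (q ^ n • T) ∧ V.valuation (tt (q ^ n • T)) ≤ V.valuation (tt T) ∧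
      V.valuation (tt (q ^ n • T)) ≤ V.valuation b ^ n := by
    intro n
    induction n with
    | zero =>
      rw [pow_zero, one_smul, pow_zero]
      exact ⟨hT, le_rfl, h1.le⟩
    | succ n ih =>
      obtain ⟨i1, i2, i3⟩ := ih
      rw [pow_succ', mul_smul]
      obtain ⟨j1, j2⟩ := tt_smul hI i1 q
      have j3 : V.valuation (tt (q • q ^ n • T)) ≤ V.valuation b * V.valuation (tt (q ^ n • T)) := by
        have e : tt (q • q ^ n • T) = (tt (q • q ^ n • T) - q * tt (q ^ n • T)) + q * tt (q ^ n • T) := by ring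
        rw [e]
        refine (Valuation.map_add _ _ _).trans (max_le (j2.trans ?_) ?_)
        · rw [sq]
          exact mul_le_mul_left (i2.trans hb3) _
        · rw [map_mul]
          exact mul_le_mul_left hb2 _
      refine ⟨j1, (j3.trans (mul_le_of_le_one_left' hb1.le)).trans i2, ?_⟩
      rw [pow_succ']
      exact j3.trans (mul_le_mul_right i3 _)
  obtain ⟨n, hn⟩ := hA b c hb1 hc
  exact ⟨n, (key n).2.2.trans_lt hn⟩

end H55K.TQ
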