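import Mathlib
import Pool.Agent.Lib.H55K.M3A
import Pool.Agent.Lib.H55K.QD2
import Pool.Agent.Lib.H55K.QE2B

/-! # H55K: rational points in the kernel of reduction of the good model -/

open NumberField IsDedekindDomain WeierstrassCurve

namespace H55K.TQ

open H55P (IQ embF eF LF Per IsHecke Pt ac Inert Dec Nm UnitP)
open H35P (WAB Ker tt GoodW IntW)
open H55K.MG (VC Crd)

variable {k : Type} [Field k] {Ω : Type} [Field Ω] [Algebra k Ω] {W : WeierstrassCurve k} {V : ValuationSubring Ω}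
  {W' : WeierstrassCurve Ω} {u r s t : Ω}

theorem qe3_sq [DecidableEq Ω] (hI : IntW W' V) {T : W'.toAffine.Point} (hT : Ker V T) (h0 : T ≠ 0) :
    V.valuation (tt T) ^ 2 * V.valuation (xc T) = 1 := by
  rcases T with _ | ⟨x, y, h⟩
  · exact absurd rfl h0
  · exact H35P.tt_sq hI h hT

/-- Chunk QE3 (M). R' = Θ (φ R) is in Ker V. q^n • R' for n from tt_small with c ≠ 0 such that V(c) ≤ 1, V(u)^2 V(c)^-2 > max 1 V(r): take c with V(c)^2 < V(u)^2 and V(c)^2 V(r) < V(u)^2, V(c) ≤ 1 (for example c = u * c' with V(c') < 1 small by Arch of powers of q, or c = q^N: V(q)^N small). Then for S = q^n • R ≠ 0: X' = xc (Θ (φ S)), V(X') = V(tt)^-2 > V(c)^-2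
(H35P.tt_sq), xc (φ S) = u^2 X' + r (Crd), V(u^2 X') > V(r) and > 1, so V(xc (φ S)) > 1, xc (φ S) = algebraMap (xc S): V₀(xc S) > 1, S in Ker V₀ (MG.ker_crd). S = 0: clear. -/
theorem contract [DecidableEq k] [DecidableEq Ω] {V₀ : ValuationSubring k} (hV : ∀ x : k, algebraMap k Ω x ∈ V ↔ x ∈ V₀)
    (hA : Arch V) (hG : GoodW W' V) {Θ : Pt W Ω ≃+ W'.toAffine.Point} (hu : u ≠ 0) (hc : Crd u r s t Θ)
    {φ : W.toAffine.Point →+ Pt W Ω} (hφ : Inc W φ) {q : ℕ} (hq : V.valuation (q : Ω) < 1) (R : W.toAffine.Point)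
    (hR : Ker V (Θ (φ R))) : ∃ n : ℕ, Ker V₀ (q ^ n • R) := by
  have hI := hG.toIntW
  have hex : ∃ c : Ω, c ≠ 0 ∧ V.valuation c ≤ V.valuation u ∧ V.valuation c * V.valuation r ≤ V.valuation u := by
    by_cases hr : V.valuation r ≤ 1
    · exact ⟨u, hu, le_rfl, mul_le_of_le_one_right' hr⟩
    · have hr1 : 1 < V.valuation r := not_le.1 hr
      have hr0 : r ≠ 0 := by
        rintro rfl
        rw [map_zero] at hr1
        exact not_lt_zero hr1
      have hvr : V.valuation r ≠ 0 := (Valuation.ne_zero_iff _).2 hr0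
      refine ⟨u / r, div_ne_zero hu hr0, ?_, ?_⟩
      · rw [map_div₀]
        rw [div_le_iff₀ (zero_lt_iff.2 hvr)]
        exact le_mul_of_one_le_right' hr1.le
      · rw [map_div₀, div_mul_cancel₀ _ hvr]
  obtain ⟨c, hc0, hcu, hcr⟩ := hex
  obtain ⟨n, hn⟩ := tt_small hI hA hR hq hc0
  refine ⟨n, ?_⟩
  have hS : Θ (φ (q ^ n • R)) = q ^ n • Θ (φ R) := by rw [map_nsmul, map_nsmul]
  rw [← hS] at hn
  have hK : Ker V (Θ (φ (q ^ n • R))) := by
    rw [hS]
    exact (tt_smul hI hR (q ^ n)).1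
  by_cases h0 : q ^ n • R = 0
  · rw [h0]
    exact trivial
  obtain ⟨hφ0, hφx, -⟩ := hφ _ h0
  obtain ⟨hΘ0, hΘx, -⟩ := hc _ hφ0
  have hsq := qe3_sq hI hK hΘ0
  rw [hφx] at hΘx
  set X' := xc (Θ (φ (q ^ n • R))) with hX'
  set τ := V.valuation (tt (Θ (φ (q ^ n • R)))) with hτ
  have hvu : V.valuation u ≠ 0 := (Valuation.ne_zero_iff _).2 hu
  have hvc : V.valuation c ≠ 0 := (Valuation.ne_zero_iff _).2 hc0
  have hX'0 : V.valuation X' ≠ 0 := by
    intro h1
    rw [h1, mul_zero] at hsq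
    exact zero_ne_one hsq
  have hτ2 : τ ^ 2 < V.valuation c ^ 2 := by
    gcongr
    exact zero_le
  have h1 : 1 < V.valuation c ^ 2 * V.valuation X' := by
    rw [← hsq]
    exact mul_lt_mul_of_pos_right hτ2 (zero_lt_iff.2 hX'0)
  have h2 : V.valuation (u ^ 2 * X') = V.valuation u ^ 2 * V.valuation X' := by
    rw [map_mul, map_pow]
  have h3 : 1 < V.valuation (u ^ 2 * X') := by
    rw [h2]
    refine h1.trans_le ?_
    gcongr
  have h4 : V.valuation r < V.valuation (u ^ 2 * X') := by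
    rw [h2]
    by_cases hr : V.valuation r ≤ 1
    · rw [h2] at h3
      exact hr.trans_lt h3
    · have hr1 : 1 < V.valuation r := not_le.1 hr
      have h5 : V.valuation r < V.valuation r ^ 2 * (V.valuation c ^ 2 * V.valuation X') := by
        have h6 : V.valuation r ≤ V.valuation r ^ 2 := by
          rw [sq]
          exact le_mul_of_one_le_right' hr1.le
        have h7 : (0 : V.ValueGroup) < V.valuation r ^ 2 :=
          zero_lt_iff.2 (pow_ne_zero 2 (zero_lt_one.trans hr1).ne')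
        exact h6.trans_lt (lt_mul_of_one_lt_right h7 h1)
      refine h5.trans_le ?_
      rw [← mul_assoc, ← mul_pow]
      gcongr
      rw [mul_comm]
      exact hcr
  have h5 : 1 < V.valuation (algebraMap k Ω (xc (q ^ n • R))) := by
    rw [hΘx, Valuation.map_add_eq_of_lt_left V.valuation h4]
    exact h3
  rw [MG.ker_crd h0]
  rw [← not_le, V₀.valuation_le_one_iff, ← hV, ← V.valuation_le_one_iff, not_le]
  exact h5

end H55K.TQ
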