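import Mathlib
import Pool.Agent.Lib.H55K.M1B
import Pool.Agent.Lib.H55K.QA2
import Pool.Agent.Lib.H55K.QB1B
import Pool.Agent.Lib.H55K.QC1A
import Pool.Agent.Lib.H55K.QE1
import Pool.Agent.Lib.H55K.QE3

set_option autoImplicit false

/-! # H55K: the index of the kernel of reduction at a bad place -/

open NumberField IsDedekindDomain WeierstrassCurve

namespace H55K.TQ

open H55P (IQ embF eF LF Per IsHecke Pt ac Inert Dec Nm UnitP)
open H35P (WAB Ker tt GoodW IntW)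
open H55K.MG (VC Crd)

variable {k : Type} [Field k] {W : WeierstrassCurve k}

/-- good reduction descends -/
theorem qf1a_good {Ω : Type} [Field Ω] [Algebra k Ω] {V₀ : ValuationSubring k}
    {V : ValuationSubring Ω} (hV : ∀ x : k, algebraMap k Ω x ∈ V ↔ x ∈ V₀)
    {W'' : WeierstrassCurve k} (h : GoodW (W''⁄Ω) V) : GoodW W'' V₀ := by
  have hd : V₀.valuation W''.Δ = 1 := by
    have h1 : V.valuation (algebraMap k Ω W''.Δ) = 1 := by
      have h5 := h.disc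
      have h6 : (W''⁄Ω).Δ = algebraMap k Ω W''.Δ := WeierstrassCurve.map_Δ W'' (algebraMap k Ω)
      rwa [h6] at h5
    have h2 : V.valuation (algebraMap k Ω (1 : k)) = 1 := by rw [map_one, map_one]
    have h3 := (ext_val hV W''.Δ 1).1
    have h4 := (ext_val hV 1 W''.Δ).1
    rw [h1, h2, map_one] at h3
    rw [h1, h2, map_one] at h4
    exact le_antisymm (h3.1 le_rfl) (h4.1 le_rfl)
  have e1 : W''.a₁ ∈ V₀ := (hV _).1 h.a1
  have e2 : W''.a₂ ∈ V₀ := (hV _).1 h.a2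
  have e3 : W''.a₃ ∈ V₀ := (hV _).1 h.a3
  have e4 : W''.a₄ ∈ V₀ := (hV _).1 h.a4
  have e6 : W''.a₆ ∈ V₀ := (hV _).1 h.a6
  exact { a1 := e1, a2 := e2, a3 := e3, a4 := e4, a6 := e6, disc := hd }

theorem index_coprime [DecidableEq k] {V₀ : ValuationSubring k} (hI : IntW W V₀) (hΔ : W.Δ ≠ 0) {jj : k} (hj : jj ∈ V₀)
    (hjj : W.c₄ ^ 3 = jj * W.Δ) (hf : FinR V₀) (hA : Arch V₀) {q : ℕ} (hq : q.Prime) (hqv : V₀.valuation (q : k) < 1)
    (hbad : ¬ PG W V₀) {p : ℕ} (hp : p.Prime) (h5 : 5 ≤ p) (hpq : p ≠ q) :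
    ∃ K1 : AddSubgroup W.toAffine.Point, (∀ P, P ∈ K1 ↔ Ker V₀ P) ∧ K1.FiniteIndex ∧ ¬ p ∣ K1.index := by
  classical
  let Ω := AlgebraicClosure k
  obtain ⟨V, hV⟩ := exists_ext (Ω := Ω) V₀
  have hAV : Arch V := arch_ext hV hA
  have hinj : Function.Injective (algebraMap k Ω) := (algebraMap k Ω).injective
  have hbΔ : (W⁄Ω).Δ = algebraMap k Ω W.Δ := WeierstrassCurve.map_Δ W (algebraMap k Ω)
  have hbc : (W⁄Ω).c₄ = algebraMap k Ω W.c₄ := WeierstrassCurve.map_c₄ W (algebraMap k Ω)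
  have hΔ' : (W⁄Ω).Δ ≠ 0 := by
    rw [hbΔ]
    exact fun h0 => hΔ (hinj (by rw [h0, map_zero]))
  have hc4 : (W⁄Ω).c₄ ^ 3 = algebraMap k Ω jj * (W⁄Ω).Δ := by
    rw [hbΔ, hbc, ← map_pow, hjj, map_mul]
  obtain ⟨W', u, r, s, t, hv, hG⟩ := gmodel hΔ' ((hV jj).2 hj) hc4
  have hW' : W'.Δ ≠ 0 := by
    intro h0
    have := hG.disc
    rw [h0, map_zero] at this
    exact zero_ne_one this
  obtain ⟨Θ, hc⟩ := MG.vc_iso hv hΔ' hW'
  obtain ⟨φ, hφ⟩ := exists_inc (Ω := Ω) W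
  obtain ⟨K1, hK1, hfin⟩ := fin_index hI hΔ hf
  refine ⟨K1, hK1, hfin, fun hdvd => ?_⟩
  haveI := hfin
  haveI : Finite (W.toAffine.Point ⧸ K1) := AddSubgroup.finite_quotient_of_finiteIndex
  haveI : Fintype (W.toAffine.Point ⧸ K1) := Fintype.ofFinite _
  haveI : Fact p.Prime := ⟨hp⟩
  rw [AddSubgroup.index_eq_card, Nat.card_eq_fintype_card] at hdvd
  obtain ⟨x, hx⟩ := exists_prime_addOrderOf_dvd_card p hdvd
  obtain ⟨P, rfl⟩ := QuotientAddGroup.mk_surjective x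
  -- multiples of kernel points
  have hnsmul : ∀ (R : W.toAffine.Point) (n : ℕ), Ker V (Θ (φ R)) → Ker V (Θ (φ (n • R))) := by
    intro R n hR
    induction n with
    | zero =>
      rw [zero_smul, map_zero, map_zero]
      exact trivial
    | succ n ih =>
      rw [succ_nsmul, map_add, map_add]
      exact H35P.ker_add hG.toIntW _ _ ih hR
  have h12 : Ker V (Θ (φ (12 • P))) := by
    by_cases k1 : Ker V (Θ (φ P))
    · exact hnsmul P 12 k1
    by_cases k2 : Ker V (Θ (φ (2 • P)))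
    · have := hnsmul (2 • P) 6 k2
      rwa [smul_smul] at this
    by_cases k3 : Ker V (Θ (φ (3 • P)))
    · have := hnsmul (3 • P) 4 k3
      rwa [smul_smul] at this
    by_cases k4 : Ker V (Θ (φ (4 • P)))
    · have := hnsmul (4 • P) 3 k4
      rwa [smul_smul] at this
    exfalso
    obtain ⟨W'', u', r', s', t', hv', hG'⟩ := rat_model hv hG hc hφ P k1 k2 k3 k4
    exact hbad ⟨W'', u', r', s', t', hv', qf1a_good hV hG'⟩
  have hq' : V.valuation ((q : ℕ) : Ω) < 1 := by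
    have h1 := (ext_val hV (q : k) 1).2.2 (by rw [map_one]; exact hqv)
    rwa [map_one, map_one, map_natCast] at h1
  obtain ⟨n, hn⟩ := contract hV hAV hG hv.une hc hφ hq' (12 • P) h12
  rw [← hK1, smul_smul] at hn
  have h1 : (q ^ n * 12) • (QuotientAddGroup.mk P : W.toAffine.Point ⧸ K1) = 0 := by
    rw [← QuotientAddGroup.mk_nsmul]
    exact (QuotientAddGroup.eq_zero_iff _).2 hn
  have h2 : p ∣ q ^ n * 12 := by
    rw [← hx]
    exact addOrderOf_dvd_of_nsmul_eq_zero h1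
  rcases (Nat.Prime.dvd_mul hp).1 h2 with h3 | h3
  · exact hpq ((Nat.prime_dvd_prime_iff_eq hp hq).1 (hp.dvd_of_dvd_pow h3))
  · have h4 : p ∣ 4 * 3 := h3
    rcases (Nat.Prime.dvd_mul hp).1 h4 with h6 | h6
    · have := Nat.le_of_dvd (by norm_num) h6
      omega
    · have := Nat.le_of_dvd (by norm_num) h6
      omega

end H55K.TQ
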