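import Mathlib
import Pool.Agent.Lib.H35P.R1
import Pool.Agent.Lib.H35P.RD
import Pool.Agent.Lib.H55K.QD

/-! # H55K: the index of the kernel of reduction at a bad place -/

open NumberField IsDedekindDomain WeierstrassCurve

namespace H55K.TQ

open H55P (IQ embF eF LF Per IsHecke Pt ac Inert Dec Nm UnitP)
open H35P (WAB Ker tt GoodW IntW)
open H55K.MG (VC Crd)

variable {k : Type} [Field k] {W : WeierstrassCurve k}

/-- Chunk QF1B (S). The kernel of reduction consists of points with nonsingular reduction: V(x) > 1, V(y)^2 = V(x)^3 (H35P.val_y); if V(3) = 1: V(3x^2) = V(x)^2 is greater than V(2 a₂ x + a₄ - a₁ y); if V(3) < 1 then V(2) = 1 and V(2 y) = V(y) > V(a₁ x + a₃). -/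
theorem ker_e0 {V₀ : ValuationSubring k} (hI : IntW W V₀) {P : W.toAffine.Point} (hP : Ker V₀ P) : P ∈ E0V W V₀ := by
  rcases P with _ | ⟨x, y, h⟩
  · exact Or.inl rfl
  refine Or.inr ⟨x, y, h, rfl, ?_⟩
  have hx : 1 < V₀.valuation x := hP
  obtain ⟨h1, h2⟩ := H35P.val_y hI h.1 hx
  have le1 : ∀ {a : k}, a ∈ V₀ → V₀.valuation a ≤ 1 := fun {a} ha => (V₀.valuation_le_one_iff a).2 ha
  have hx0 : (0 : V₀.ValueGroup) < V₀.valuation x := zero_lt_one.trans hx
  have hint : ∀ n : ℕ, V₀.valuation (n : k) ≤ 1 := fun n => le1 (natCast_mem V₀ n)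
  have hmul : ∀ {a b : k}, a ∈ V₀ → V₀.valuation (a * b) ≤ V₀.valuation b := by
    intro a b ha
    rw [map_mul]
    exact mul_le_of_le_one_left' (le1 ha)
  by_cases h3 : V₀.valuation (3 : k) = 1
  · left
    have hA : V₀.valuation (3 * x ^ 2) = V₀.valuation x ^ 2 := by
      rw [map_mul, map_pow, h3, one_mul]
    have hyx : V₀.valuation y < V₀.valuation x ^ 2 := by
      by_contra hcon
      have h4 := not_lt.1 hcon
      have h5 : (V₀.valuation x ^ 2) ^ 2 ≤ V₀.valuation y ^ 2 := by gcongr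
      rw [h1] at h5
      have h6 : V₀.valuation x ^ 3 < (V₀.valuation x ^ 2) ^ 2 := by
        rw [← pow_mul]
        exact pow_lt_pow_right₀ hx (by norm_num)
      exact absurd h5 (not_le.2 h6)
    have hB : V₀.valuation (2 * W.a₂ * x + W.a₄ - W.a₁ * y) ≤ V₀.valuation y := by
      refine (Valuation.map_sub _ _ _).trans (max_le ((Valuation.map_add _ _ _).trans (max_le ?_ ?_)) ?_)
      · have h2a : (2 : k) * W.a₂ ∈ V₀ := mul_mem (by simpa using natCast_mem V₀ 2) hI.a2
        exact (hmul h2a).trans h2.le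
      · exact (le1 hI.a4).trans (hx.le.trans h2.le)
      · exact hmul hI.a1
    have e : 3 * x ^ 2 + 2 * W.a₂ * x + W.a₄ - W.a₁ * y = 3 * x ^ 2 + (2 * W.a₂ * x + W.a₄ - W.a₁ * y) := by
      ring
    rw [e, Valuation.map_add_eq_of_lt_left V₀.valuation (by
      rw [hA]
      exact hB.trans_lt hyx), hA]
    exact one_le_pow₀ hx.le
  · right
    have h3' : V₀.valuation (3 : k) < 1 := lt_of_le_of_ne (by simpa using hint 3) h3
    have h2' : V₀.valuation (2 : k) = 1 := by
      refine le_antisymm (by simpa using hint 2) (not_lt.1 fun hlt => ?_)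
      have h4 : V₀.valuation ((3 : k) - 2) < 1 :=
        (Valuation.map_sub _ _ _).trans_lt (max_lt h3' hlt)
      have h5 : (3 : k) - 2 = 1 := by norm_num
      rw [h5, map_one] at h4
      exact lt_irrefl _ h4
    have hA : V₀.valuation (2 * y) = V₀.valuation y := by
      rw [map_mul, h2', one_mul]
    have hB : V₀.valuation (W.a₁ * x + W.a₃) ≤ V₀.valuation x :=
      (Valuation.map_add _ _ _).trans (max_le (hmul hI.a1) ((le1 hI.a3).trans hx.le))
    rw [add_assoc, Valuation.map_add_eq_of_lt_left V₀.valuation (by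
      rw [hA]
      exact hB.trans_lt h2), hA]
    exact hx.le.trans h2.le

/-- Chunk QF1B (S). Good equation: every point has nonsingular reduction (disc_le or H35P.nonsing for integral points; ker_e0 for the others). -/
theorem good_e0 {V₀ : ValuationSubring k} (hG : GoodW W V₀) (P : W.toAffine.Point) : P ∈ E0V W V₀ := by
  classical
  rcases P with _ | ⟨x, y, h⟩
  · exact Or.inl rfl
  by_cases hx : 1 < V₀.valuation x
  · exact ker_e0 hG.toIntW (P := Affine.Point.some x y h) hx
  · refine Or.inr ⟨x, y, h, rfl, ?_⟩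
    have hx1 := not_lt.1 hx
    have hy1 := H35P.int_y hG.toIntW h.1 hx1
    by_cases h1 : V₀.valuation (2 * y + W.a₁ * x + W.a₃) < 1
    · left
      exact (H35P.nonsing hG h.1 ((V₀.valuation_le_one_iff _).1 hx1) ((V₀.valuation_le_one_iff _).1 hy1) h1).ge
    · right
      exact not_lt.1 h1

end H55K.TQ
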