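import Mathlib
import Pool.Agent.Lib.H55K.QF1A
import Pool.Agent.Lib.H55K.QF1B

/-! # H55K: the index of the kernel of reduction at a bad place -/

open NumberField IsDedekindDomain WeierstrassCurve

namespace H55K.TQ

open H55P (IQ embF eF LF Per IsHecke Pt ac Inert Dec Nm UnitP)
open H35P (WAB Ker tt GoodW IntW)
open H55K.MG (VC Crd)

variable {k : Type} [Field k] {W : WeierstrassCurve k}

/-- Chunk QF1C (S/M). Either PG W V₀ (then W is good: hmin) and the closure is everything, index 1; or index_coprime: K1 is contained in the closure (ker_e0), so the index of the closure divides the index of K1 (AddSubgroup.index_dvd_of_le). -/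
theorem index_e0 [DecidableEq k] {V₀ : ValuationSubring k} (hI : IntW W V₀) (hΔ : W.Δ ≠ 0) {jj : k} (hj : jj ∈ V₀)
    (hjj : W.c₄ ^ 3 = jj * W.Δ) (hf : FinR V₀) (hA : Arch V₀) {q : ℕ} (hq : q.Prime) (hqv : V₀.valuation (q : k) < 1)
    (hmin : PG W V₀ → GoodW W V₀) {p : ℕ} (hp : p.Prime) (h5 : 5 ≤ p) (hpq : p ≠ q ∨ PG W V₀) :
    ¬ p ∣ (AddSubgroup.closure (E0V W V₀)).index := by
  by_cases hg : PG W V₀
  · have h1 : AddSubgroup.closure (E0V W V₀) = ⊤ := by
      rw [AddSubgroup.eq_top_iff']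
      exact fun P => AddSubgroup.subset_closure (good_e0 (hmin hg) P)
    rw [h1, AddSubgroup.index_top]
    exact hp.one_lt.ne' ∘ Nat.dvd_one.1
  · obtain ⟨K1, hK, -, hn⟩ := index_coprime hI hΔ hj hjj hf hA hq hqv hg hp h5 (hpq.resolve_right hg)
    intro hd
    apply hn
    refine hd.trans (AddSubgroup.index_dvd_of_le ?_)
    intro P hP
    exact AddSubgroup.subset_closure (ker_e0 hI ((hK P).1 hP))

end H55K.TQ
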