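import Mathlib
import Pool.Agent.Lib.H55K.QD

/-! # H55K: the completion of a number field at a finite place -/

open NumberField IsDedekindDomain WeierstrassCurve

namespace H55K.TQ

open H55P (IQ embF eF LF Per IsHecke Pt ac Inert Dec Nm UnitP)
open H35P (WAB Ker tt GoodW IntW)
open H55K.MG (VC Crd)

variable {K : Type} [Field K] [NumberField K] (w : HeightOneSpectrum (𝓞 K))

/-- Chunk QH1A (S). adicCompletionIntegers is the valuation subring of Valued.v: Valuation.isEquiv_valuation_valuationSubring. -/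
theorem val_w (x y : w.adicCompletion K) :
    ((w.adicCompletionIntegers K).valuation x ≤ (w.adicCompletionIntegers K).valuation y ↔
      Valued.v x ≤ Valued.v y) ∧
    ((w.adicCompletionIntegers K).valuation x < (w.adicCompletionIntegers K).valuation y ↔
      Valued.v x < Valued.v y) := by
  have h := Valuation.isEquiv_valuation_valuationSubring
    (Valued.v : Valuation (w.adicCompletion K) (WithZero (Multiplicative ℤ)))
  exact ⟨(h x y).symm, by rw [← not_le, ← not_le]; exact not_congr (h y x).symm⟩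

/-- Chunk QH1A (S). Valued.v has values in the integers with zero: V(b) ≤ exp (-1), V(b)^n ≤ exp (-n). -/
theorem arch_w : Arch (w.adicCompletionIntegers K) := by
  intro b c hb hc
  have hb' : Valued.v b < Valued.v (1 : w.adicCompletion K) :=
    (val_w w b 1).2.1 (by rw [map_one]; exact hb)
  rw [map_one] at hb'
  have hc' : Valued.v c ≠ 0 := (Valuation.ne_zero_iff _).2 hc
  obtain ⟨n, hn⟩ : ∃ n : ℕ, (Valued.v b : WithZero (Multiplicative ℤ)) ^ n < Valued.v c := by
    rcases eq_or_ne (Valued.v b : WithZero (Multiplicative ℤ)) 0 with h0 | h0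
    · exact ⟨1, by rw [h0, zero_pow one_ne_zero]; exact zero_lt_iff.2 hc'⟩
    · obtain ⟨i, hi⟩ : ∃ i : ℤ, (Valued.v b : WithZero (Multiplicative ℤ)) = WithZero.exp i :=
        ⟨WithZero.log (Valued.v b), (WithZero.exp_log h0).symm⟩
      obtain ⟨j, hj⟩ : ∃ j : ℤ, (Valued.v c : WithZero (Multiplicative ℤ)) = WithZero.exp j :=
        ⟨WithZero.log (Valued.v c), (WithZero.exp_log hc').symm⟩
      rw [hi, ← WithZero.exp_zero, WithZero.exp_lt_exp] at hb'
      refine ⟨(|j| + 1).toNat, ?_⟩
      rw [hi, hj, ← WithZero.exp_nsmul, WithZero.exp_lt_exp, nsmul_eq_mul]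
      have h1 : (((|j| + 1).toNat : ℕ) : ℤ) = |j| + 1 := Int.toNat_of_nonneg (by positivity)
      rw [h1]
      nlinarith [abs_nonneg j, neg_abs_le j]
  refine ⟨n, ?_⟩
  rw [← map_pow]
  exact (val_w w _ _).2.2 (by rw [map_pow]; exact hn)

end H55K.TQ
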