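import Mathlib
import Pool.Agent.Lib.H55K.QH1A

/-! # H55K: the completion of a number field at a finite place -/

open NumberField IsDedekindDomain WeierstrassCurve

namespace H55K.TQ

open H55P (IQ embF eF LF Per IsHecke Pt ac Inert Dec Nm UnitP)
open H35P (WAB Ker tt GoodW IntW)
open H55K.MG (VC Crd)

variable {K : Type} [Field K] [NumberField K] (w : HeightOneSpectrum (𝓞 K))

/-- Density. -/
theorem qh1b_dense (x ε : w.adicCompletion K) (hε : ε ≠ 0) :
    ∃ k : K, Valued.v (x - algebraMap K (w.adicCompletion K) k) ≤ Valued.v ε := by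
  have hopen : IsOpen {z : w.adicCompletion K | (x - z) * ε⁻¹ ∈ w.adicCompletionIntegers K} := by
    have h1 : IsOpen ((w.adicCompletionIntegers K : Set (w.adicCompletion K))) :=
      Valued.isOpen_valuationSubring (w.adicCompletion K)
    exact h1.preimage ((continuous_const.sub continuous_id).mul continuous_const)
  obtain ⟨k, hk⟩ := (HeightOneSpectrum.denseRange_algebraMap K w).exists_mem_open hopen
    ⟨x, by
      show (x - x) * ε⁻¹ ∈ w.adicCompletionIntegers K
      rw [sub_self, zero_mul]
      exact zero_mem _⟩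
  refine ⟨k, ?_⟩
  have hk' : Valued.v ((x - algebraMap K (w.adicCompletion K) k) * ε⁻¹) ≤ 1 := hk
  have h2 : x - algebraMap K (w.adicCompletion K) k = ((x - algebraMap K (w.adicCompletion K) k) * ε⁻¹) * ε := by
    rw [mul_assoc, inv_mul_cancel₀ hε, mul_one]
  rw [h2, map_mul]
  calc Valued.v ((x - algebraMap K (w.adicCompletion K) k) * ε⁻¹) * Valued.v ε
      ≤ 1 * Valued.v ε := mul_le_mul_left hk' _
    _ = Valued.v ε := one_mul _

theorem qh1b_val (k : K) : Valued.v (algebraMap K (w.adicCompletion K) k) = w.valuation K k :=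
  HeightOneSpectrum.valuedAdicCompletion_eq_valuation' w k

/-- Chunk QH1B (M). V(c) = exp (-N) (or > 1: then take S = {0}). Every x in the completion with V(x) ≤ 1 is within V < exp (-N) of an element of K (density) with V ≤ 1, hence of an element of 𝓞 K (an element a/b of K with w-value ≤ 1 is congruent modulo w^(N+1) to an integer: HeightOneSpectrum.exists_adicValued_mul_sub_le or IsDedekindDomain lemmas), and
𝓞 K ⧸ w.asIdeal^(N+1) is finite (Ideal.finiteQuotientOfFreeOfNeBot): S = images of representatives. Alternatively from the compactness of the integers of the completion (Mathlib: CompactSpace (adicCompletionIntegers) for number fields) : finitely many balls of radius V < V(c) cover. -/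
theorem fin_w : FinR (w.adicCompletionIntegers K) := by
  classical
  intro c hc
  have hc0 : Valued.v c ≠ 0 := (Valuation.ne_zero_iff _).2 hc
  by_cases h1 : Valued.v c ≤ 1
  swap
  · refine ⟨{0}, Set.finite_singleton 0, fun x hx => ⟨0, rfl, ?_⟩⟩
    rw [sub_zero, (val_w w x c).2]
    exact lt_of_le_of_lt hx (not_le.1 h1)
  obtain ⟨N, hN⟩ := WithZero.exists_exp_neg_natCast_lt hc0
  have hne : w.asIdeal ^ N ≠ ⊥ := pow_ne_zero N w.ne_bot
  have hfin : Finite (𝓞 K ⧸ w.asIdeal ^ N) := Ideal.finiteQuotientOfFreeOfNeBot _ hne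
  refine ⟨Set.range fun q : 𝓞 K ⧸ w.asIdeal ^ N => algebraMap K (w.adicCompletion K) ((Quotient.out q : 𝓞 K) : K),
    Set.finite_range _, fun x hx => ?_⟩
  obtain ⟨ϖ, hϖ⟩ := w.intValuation_exists_uniformizer
  have hϖ1 : Valued.v (algebraMap K (w.adicCompletion K) (ϖ : K)) < 1 := by
    rw [qh1b_val]
    have : w.valuation K (ϖ : K) = w.intValuation ϖ := HeightOneSpectrum.valuation_of_algebraMap w ϖ
    rw [this, hϖ]
    decide
  have hϖ0 : algebraMap K (w.adicCompletion K) (ϖ : K) ≠ 0 := by
    intro h0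
    have h2 : Valued.v (algebraMap K (w.adicCompletion K) (ϖ : K)) = w.intValuation ϖ := by
      rw [qh1b_val]
      exact HeightOneSpectrum.valuation_of_algebraMap w ϖ
    rw [h0, map_zero, hϖ] at h2
    exact absurd h2.symm WithZero.exp_ne_zero
  have hε : c * algebraMap K (w.adicCompletion K) (ϖ : K) ≠ 0 := mul_ne_zero hc hϖ0
  have hεc : Valued.v (c * algebraMap K (w.adicCompletion K) (ϖ : K)) < Valued.v c := by
    rw [map_mul]
    calc Valued.v c * Valued.v (algebraMap K (w.adicCompletion K) (ϖ : K)) < Valued.v c * 1 :=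
          mul_lt_mul_of_pos_left hϖ1 (zero_lt_iff.2 hc0)
      _ = Valued.v c := mul_one _
  obtain ⟨k, hk⟩ := qh1b_dense w x _ hε
  have hk1 : w.valuation K k ≤ 1 := by
    rw [← qh1b_val]
    have e : algebraMap K (w.adicCompletion K) k = x - (x - algebraMap K (w.adicCompletion K) k) := by ring
    rw [e]
    refine (Valuation.map_sub _ _ _).trans (max_le hx ((hk.trans hεc.le).trans h1))
  obtain ⟨a, ha⟩ := w.exists_valuation_sub_lt_of_integer hk1 (Units.mk0 _ hc0)
  have hab : a - Quotient.out (Ideal.Quotient.mk (w.asIdeal ^ N) a) ∈ w.asIdeal ^ N := by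
    rw [← Ideal.Quotient.mk_eq_mk_iff_sub_mem]
    exact (Ideal.Quotient.mk_out _).symm
  refine ⟨_, ⟨Ideal.Quotient.mk (w.asIdeal ^ N) a, rfl⟩, ?_⟩
  rw [(val_w w _ _).2]
  set b : 𝓞 K := Quotient.out (Ideal.Quotient.mk (w.asIdeal ^ N) a) with hb
  have e1 : x - algebraMap K (w.adicCompletion K) (b : K) = (x - algebraMap K (w.adicCompletion K) k) -
      algebraMap K (w.adicCompletion K) ((a : K) - k) + algebraMap K (w.adicCompletion K) ((a : K) - (b : K)) := by
    rw [map_sub, map_sub]
    ring
  rw [e1]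
  refine Valuation.map_add_lt _ (Valuation.map_sub_lt _ (lt_of_le_of_lt hk hεc) ?_) ?_
  · rw [qh1b_val]
    exact ha
  · rw [qh1b_val]
    have e2 : (a : K) - (b : K) = algebraMap (𝓞 K) K (a - b) := by
      rw [map_sub]
    rw [e2, HeightOneSpectrum.valuation_of_algebraMap]
    refine lt_of_le_of_lt ?_ hN
    exact (w.intValuation_le_pow_iff_mem _ N).2 hab

end H55K.TQ
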