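import Mathlib
import Pool.Agent.Lib.H55K.QH1A

/-! # H55K: the completion of a number field at a finite place -/

open NumberField IsDedekindDomain WeierstrassCurve

namespace H55K.TQ

open H55P (IQ embF eF LF Per IsHecke Pt ac Inert Dec Nm UnitP)
open H35P (WAB Ker tt GoodW IntW)
open H55K.MG (VC Crd)

variable {K : Type} [Field K] [NumberField K] (w : HeightOneSpectrum (𝓞 K))

/-- Chunk QH1C (S). valuedAdicCompletion_eq_valuation', valuation_lt_one_iff_mem. -/
theorem int_w (x : 𝓞 K) : algebraMap K (w.adicCompletion K) x ∈ w.adicCompletionIntegers K ∧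
    ((w.adicCompletionIntegers K).valuation (algebraMap K (w.adicCompletion K) x) < 1 ↔ x ∈ w.asIdeal) ∧
    ((w.adicCompletionIntegers K).valuation (algebraMap K (w.adicCompletion K) x) = 1 ↔ x ∉ w.asIdeal) := by
  have hv : (Valued.v (algebraMap K (w.adicCompletion K) x) : WithZero (Multiplicative ℤ)) =
      w.valuation K (algebraMap (𝓞 K) K x) := HeightOneSpectrum.valuedAdicCompletion_eq_valuation' w _
  have h1 : (w.adicCompletionIntegers K).valuation (algebraMap K (w.adicCompletion K) x) ≤ 1 := by
    rw [← map_one ((w.adicCompletionIntegers K).valuation)]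
    refine (val_w w _ _).1.2 ?_
    rw [map_one, hv]
    exact w.valuation_le_one x
  have h2 : (w.adicCompletionIntegers K).valuation (algebraMap K (w.adicCompletion K) x) < 1 ↔
      x ∈ w.asIdeal := by
    rw [← map_one ((w.adicCompletionIntegers K).valuation), (val_w w _ _).2, map_one, hv]
    exact w.valuation_lt_one_iff_mem x
  refine ⟨(ValuationSubring.valuation_le_one_iff _ _).1 h1, h2, ?_⟩
  rw [← h2, not_lt]
  exact ⟨fun h => h.ge, fun h => le_antisymm h1 h⟩

/-- Chunk QH1C (S). The residue characteristic: w contains the positive integer absNorm w, so a prime number. -/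
theorem res_w : ∃ q : ℕ, q.Prime ∧ (q : 𝓞 K) ∈ w.asIdeal ∧
    (w.adicCompletionIntegers K).valuation (q : w.adicCompletion K) < 1 := by
  have key : ∀ n : ℕ, n ≠ 0 → (n : 𝓞 K) ∈ w.asIdeal → ∃ q : ℕ, q.Prime ∧ (q : 𝓞 K) ∈ w.asIdeal := by
    intro n
    induction n using Nat.strong_induction_on with
    | _ n ih =>
      intro hn hmem
      have hn1 : n ≠ 1 := by
        rintro rfl
        refine w.isPrime.ne_top ((Ideal.eq_top_iff_one _).2 ?_)
        simpa using hmem
      obtain ⟨q, hq, m, rfl⟩ := Nat.exists_prime_and_dvd hn1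
      rw [Nat.cast_mul] at hmem
      rcases w.isPrime.mem_or_mem hmem with h | h
      · exact ⟨q, hq, h⟩
      · have hm : m ≠ 0 := fun h0 => hn (by rw [h0, mul_zero])
        refine ih m ?_ hm h
        calc m = 1 * m := (one_mul m).symm
          _ < q * m := Nat.mul_lt_mul_of_pos_right hq.one_lt (Nat.pos_of_ne_zero hm)
  have hN : (Ideal.absNorm w.asIdeal) ≠ 0 := by
    have := HeightOneSpectrum.one_lt_absNorm w
    omega
  obtain ⟨q, hq, hqm⟩ := key _ hN (Ideal.absNorm_mem w.asIdeal)
  refine ⟨q, hq, hqm, ?_⟩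
  have h := (int_w w (q : 𝓞 K)).2.1.2 hqm
  have hc : algebraMap K (w.adicCompletion K) ((q : 𝓞 K) : K) = (q : w.adicCompletion K) := by
    simp
  rw [hc] at h
  exact h

end H55K.TQ
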