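import Mathlib
import Pool.Agent.Lib.H55K.QC1C
import Pool.Agent.Lib.H55K.QD

/-! # H55K: the minimal equation over the completion -/

open NumberField IsDedekindDomain WeierstrassCurve

namespace H55K.TQ

open H55P (IQ embF eF LF Per IsHecke Pt ac Inert Dec Nm UnitP)
open H35P (WAB Ker tt GoodW IntW)
open H55K.MG (VC Crd)

variable {K : Type} [Field K] [NumberField K] (w : HeightOneSpectrum (𝓞 K))

/-- Chunk QH2A (S). WeierstrassCurve.minimal is C • W for some C; vc_smul. -/
theorem wm_vc (W : WeierstrassCurve K) : ∃ u r s t, VC (W⁄(w.adicCompletion K)) (Wm K W w) u r s t := by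
  exact ⟨_, _, _, _, vc_smul (W⁄(w.adicCompletion K))
    ((W⁄(w.adicCompletion K)).exists_isMinimal (w.adicCompletionIntegers K)).choose⟩

/-- Chunk QH2A (S). IsIntegral. -/
theorem wm_int (W : WeierstrassCurve K) : IntW (Wm K W w) (w.adicCompletionIntegers K) := by
  have h1 : WeierstrassCurve.IsIntegral (w.adicCompletionIntegers K) (Wm K W w) := by
    unfold Wm
    infer_instance
  obtain ⟨W₁, h⟩ := h1.integral
  rw [h]
  exact ⟨W₁.a₁.2, W₁.a₂.2, W₁.a₃.2, W₁.a₄.2, W₁.a₆.2⟩

end H55K.TQ
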