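import Mathlib
import Pool.Agent.Lib.H55K.QH1A
import Pool.Agent.Lib.H55K.QH2A

/-! # H55K: the minimal equation over the completion -/

open NumberField IsDedekindDomain WeierstrassCurve

namespace H55K.TQ

open H55P (IQ embF eF LF Per IsHecke Pt ac Inert Dec Nm UnitP)
open H35P (WAB Ker tt GoodW IntW)
open H55K.MG (VC Crd)

variable {K : Type} [Field K] [NumberField K] (w : HeightOneSpectrum (𝓞 K))

/-- A valuation subring which is a discrete valuation ring: the value of its elements for the maximal ideal is 1 iff they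
are units. -/
theorem qh2b_val {k : Type} [Field k] (V : ValuationSubring k) [IsDiscreteValuationRing V] {x : k} (hx : x ∈ V) :
    (IsDiscreteValuationRing.maximalIdeal V).valuation k x = 1 ↔ V.valuation x = 1 := by
  have h1 : x = algebraMap V k ⟨x, hx⟩ := rfl
  have h2 : ¬ ((IsDiscreteValuationRing.maximalIdeal V).valuation k (algebraMap V k ⟨x, hx⟩) < 1) ↔
      (⟨x, hx⟩ : V) ∉ (IsDiscreteValuationRing.maximalIdeal V).asIdeal :=
    not_iff_not.mpr (HeightOneSpectrum.valuation_lt_one_iff_mem _ _)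
  have h3 : (IsDiscreteValuationRing.maximalIdeal V).valuation k (algebraMap V k ⟨x, hx⟩) ≤ 1 :=
    HeightOneSpectrum.valuation_le_one _ _
  have h4 : (⟨x, hx⟩ : V) ∉ (IsDiscreteValuationRing.maximalIdeal V).asIdeal ↔ IsUnit (⟨x, hx⟩ : V) := by
    change (⟨x, hx⟩ : V) ∉ IsLocalRing.maximalIdeal V ↔ _
    exact IsLocalRing.notMem_maximalIdeal
  have h5 := V.valuation_eq_one_iff ⟨x, hx⟩
  rw [← h5, ← h4, ← h2, not_lt]
  constructor
  · intro h
    exact h.ge
  · intro h
    exact le_antisymm h3 h

/-- Chunk QH2B (M). If some change of variables of W gives a good equation W' then W' = C' • (Wm) (vc_inv, vc_comp, VC to VariableChange) is integral (IsIntegral) and valuation_Δ_aux of it is 1; by maximality (IsMinimal.val_Δ_maximal) the value of the discriminant of the minimal equation is 1 too. Valuation of the maximal ideal of the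
ring of integers of the completion and Valued.v: for unit discriminants (value 1) the statements are equivalent: r a unit of the ring (valuation K (maximalIdeal R) (algebraMap r) = 1 iff r is a unit iff V(r) = 1). -/
theorem wm_good (W : WeierstrassCurve K) (h : PG (W⁄(w.adicCompletion K)) (w.adicCompletionIntegers K)) :
    GoodW (Wm K W w) (w.adicCompletionIntegers K) := by
  obtain ⟨W', u, r, s, t, hv, hG⟩ := h
  obtain ⟨u0, r0, s0, t0, hv0⟩ := wm_vc w W
  have hv1 := vc_comp (vc_inv hv0) hv
  refine ⟨wm_int w W, ?_⟩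
  have hmin : IsMinimal (w.adicCompletionIntegers K) (Wm K W w) := by
    unfold Wm
    infer_instance
  set C : VariableChange (w.adicCompletion K) := ⟨Units.mk0 _ hv1.une, _, _, _⟩ with hC
  have hC1 : W' = C • Wm K W w := vc_uniq hv1 (vc_smul (Wm K W w) C)
  have hint : IsIntegral (w.adicCompletionIntegers K) (C • Wm K W w) := by
    rw [← hC1]
    exact isIntegral_of_exists_lift _ ⟨⟨_, hG.a1⟩, rfl⟩ ⟨⟨_, hG.a2⟩, rfl⟩ ⟨⟨_, hG.a3⟩, rfl⟩ ⟨⟨_, hG.a4⟩, rfl⟩
      ⟨⟨_, hG.a6⟩, rfl⟩
  have hmax := hmin.val_Δ_maximal.2 hint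
  have hle : valuation_Δ_aux (w.adicCompletionIntegers K) (C • Wm K W w) ≤
      valuation_Δ_aux (w.adicCompletionIntegers K) ((1 : VariableChange (w.adicCompletion K)) • Wm K W w) := by
    rcases le_total (valuation_Δ_aux (w.adicCompletionIntegers K) (C • Wm K W w))
      (valuation_Δ_aux (w.adicCompletionIntegers K) ((1 : VariableChange (w.adicCompletion K)) • Wm K W w)) with h1 | h1
    · exact h1
    · exact hmax h1
  rw [one_smul] at hle
  have hle2 := Subtype.coe_le_coe.2 hle
  rw [valuation_Δ_aux_eq_of_isIntegral, valuation_Δ_aux_eq_of_isIntegral, ← hC1] at hle2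
  have hΔ' : W'.Δ ∈ w.adicCompletionIntegers K := by
    rw [← ValuationSubring.valuation_le_one_iff]
    exact hG.disc.le
  obtain ⟨D, hD⟩ := Δ_integral_of_isIntegral (w.adicCompletionIntegers K) (Wm K W w)
  have hΔ : (Wm K W w).Δ ∈ w.adicCompletionIntegers K := by
    rw [← hD]
    exact D.2
  rw [(qh2b_val _ hΔ').2 hG.disc] at hle2
  rw [← qh2b_val _ hΔ]
  refine le_antisymm ?_ hle2
  rw [← hD]
  exact HeightOneSpectrum.valuation_le_one _ _

/-- Chunk QH2B (S). PG is invariant under changes of variables (vc_inv, vc_comp). -/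
theorem pg_iff {k : Type} [Field k] {V : ValuationSubring k} {W W' : WeierstrassCurve k} {u r s t : k} (h : VC W W' u r s t) :
    PG W V ↔ PG W' V := by
  constructor
  · rintro ⟨W₁, u₁, r₁, s₁, t₁, h₁, hG⟩
    exact ⟨W₁, _, _, _, _, vc_comp (vc_inv h) h₁, hG⟩
  · rintro ⟨W₁, u₁, r₁, s₁, t₁, h₁, hG⟩
    exact ⟨W₁, _, _, _, _, vc_comp h h₁, hG⟩

/-- Chunk QH2B (S). val_w with y = 1. -/
theorem e0_w (W : WeierstrassCurve K) : E0G K W w = E0V (Wm K W w) (w.adicCompletionIntegers K) := by
  have hval : ∀ x : w.adicCompletion K, 1 ≤ Valued.v x ↔ 1 ≤ (w.adicCompletionIntegers K).valuation x := by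
    intro x
    have h1 := (val_w w x 1).2
    rw [map_one, map_one] at h1
    rw [← not_lt, ← not_lt, h1]
  unfold E0G E0V
  simp only [hval]

end H55K.TQ
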