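import Mathlib
import Pool.Agent.Lib.H55K.QF1C
import Pool.Agent.Lib.H55K.QH1B
import Pool.Agent.Lib.H55K.QH1C
import Pool.Agent.Lib.H55K.QH2B

/-! # H55K: the Tamagawa numbers are prime to p -/

open NumberField IsDedekindDomain WeierstrassCurve

namespace H55K.TQ

open H55P (IQ embF eF LF Per IsHecke Pt ac Inert Dec Nm UnitP)
open H35P (WAB Ker tt GoodW IntW)
open H55K.MG (VC Crd)

variable {K : Type} [Field K] [NumberField K] (w : HeightOneSpectrum (𝓞 K))

/-- Chunk QH3 (S/M). index_e0 for k the completion, W the minimal equation (wm_int; Δ ≠ 0 by vc_disc; c₄^3 = j₀ Δ is invariant: vc_disc; j₀ in the ring by int_w), fin_w, arch_w, res_w, hmin from wm_good and pg_iff, e0_w; p = q: then p is in w (q and p prime numbers, the same residue characteristic), so h. -/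
theorem tam_unit (W : WeierstrassCurve K) (hΔ : W.Δ ≠ 0) (hj : ∃ j₀ : 𝓞 K, W.c₄ ^ 3 = (j₀ : K) * W.Δ) {p : ℕ}
    (hp : p.Prime) (h5 : 5 ≤ p)
    (h : (p : 𝓞 K) ∈ w.asIdeal → PG (W⁄(w.adicCompletion K)) (w.adicCompletionIntegers K)) :
    ¬ p ∣ tamG K W w := by
  classical
  obtain ⟨u, r, s, t, hvc⟩ := wm_vc w W
  obtain ⟨hd, hc4, -⟩ := vc_disc hvc
  obtain ⟨j₀, hj₀⟩ := hj
  obtain ⟨q, hq, hqw, hqv⟩ := res_w w
  have e1 : (W⁄(w.adicCompletion K)).Δ = algebraMap K (w.adicCompletion K) W.Δ :=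
    W.map_Δ (algebraMap K (w.adicCompletion K))
  have e2 : (W⁄(w.adicCompletion K)).c₄ = algebraMap K (w.adicCompletion K) W.c₄ :=
    W.map_c₄ (algebraMap K (w.adicCompletion K))
  have hbΔ : (W⁄(w.adicCompletion K)).Δ ≠ 0 := by
    rw [e1]
    exact (map_ne_zero_iff _ (algebraMap K (w.adicCompletion K)).injective).2 hΔ
  have hΔm : (Wm K W w).Δ ≠ 0 := by
    intro h0
    rw [h0, mul_zero] at hd
    exact hbΔ hd.symm
  have hjj : (Wm K W w).c₄ ^ 3 = algebraMap K (w.adicCompletion K) (j₀ : K) * (Wm K W w).Δ := by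
    have h1 : (W⁄(w.adicCompletion K)).c₄ ^ 3 =
        algebraMap K (w.adicCompletion K) (j₀ : K) * (W⁄(w.adicCompletion K)).Δ := by
      rw [e1, e2, ← map_pow, hj₀, map_mul]
    rw [← hd, ← hc4] at h1
    apply mul_left_cancel₀ (pow_ne_zero 12 hvc.une)
    linear_combination h1
  have hmin : PG (Wm K W w) (w.adicCompletionIntegers K) → GoodW (Wm K W w) (w.adicCompletionIntegers K) :=
    fun h => wm_good w W ((pg_iff hvc).2 h)
  have hpq : p ≠ q ∨ PG (Wm K W w) (w.adicCompletionIntegers K) := by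
    by_cases hpq : p = q
    · right
      rw [hpq] at h
      exact (pg_iff hvc).1 (h hqw)
    · left
      exact hpq
  have hfin := index_e0 (wm_int w W) hΔm (int_w w j₀).1 hjj (fin_w w) (arch_w w) hq hqv hmin hp h5 hpq
  unfold tamG
  rw [e0_w]
  convert hfin

end H55K.TQ
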