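import Mathlib
import Pool.Agent.Lib.H55K.M0
import Pool.Agent.Lib.H55K.M2A
import Pool.Agent.Lib.H55P.Stm

/-! # H55K: the factors of the discriminant are p-adic units -/

open NumberField IsDedekindDomain WeierstrassCurve

namespace H55K.TQ

open H55P (IQ embF eF LF Per IsHecke Pt ac Inert Dec Nm UnitP)
open H35P (WAB Ker tt GoodW IntW)
open H55K.MG (VC Crd)

variable {K : Type} [Field K] [NumberField K] (w : HeightOneSpectrum (𝓞 K))

/-- Chunk QH4A (S/M). The norm of the completion: ‖x‖ = N^k for x ≠ 0, N = absNorm w, k an integer (NumberField.FinitePlace.norm_def or the instance; Valued.v x = exp k). -/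
theorem norm_w (x : w.adicCompletion K) (hx : x ≠ 0) :
    ∃ k : ℤ, ‖x‖ = (Ideal.absNorm w.asIdeal : ℝ) ^ k ∧ Valued.v x = WithZero.exp k := by
  have hv : (Valued.v x : WithZero (Multiplicative ℤ)) ≠ 0 := (Valuation.ne_zero_iff _).2 hx
  obtain ⟨k, hk⟩ : ∃ k : ℤ, (Valued.v x : WithZero (Multiplicative ℤ)) = WithZero.exp k :=
    ⟨WithZero.log (Valued.v x), (WithZero.exp_log hv).symm⟩
  refine ⟨k, ?_, hk⟩
  rw [FinitePlace.norm_def, hk, WithZeroMulInt.toNNReal_neg_apply _ WithZero.exp_ne_zero]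
  have h1 : WithZero.unzero (WithZero.exp_ne_zero (a := k)) = Multiplicative.ofAdd k :=
    WithZero.unzero_coe _
  rw [h1]
  simp

end H55K.TQ
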