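import Mathlib
import Pool.Agent.Lib.H55K.QH2B
import Pool.Agent.Lib.H55K.QH4A
import Pool.Agent.Lib.H55P.Stm

/-! # H55K: the factors of the discriminant are p-adic units -/

open NumberField IsDedekindDomain WeierstrassCurve

namespace H55K.TQ

open H55P (IQ embF eF LF Per IsHecke Pt ac Inert Dec Nm UnitP)
open H35P (WAB Ker tt GoodW IntW)
open H55K.MG (VC Crd)

variable {K : Type} [Field K] [NumberField K] (w : HeightOneSpectrum (𝓞 K))

theorem qh4b_ndvd {p : ℕ} (hp : p.Prime) (h : (p : 𝓞 K) ∉ w.asIdeal) :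
    ¬ p ∣ Ideal.absNorm w.asIdeal := by
  intro hdvd
  have hfact : Fact p.Prime := ⟨hp⟩
  have hfin : Finite (𝓞 K ⧸ w.asIdeal) := Ideal.finiteQuotientOfFreeOfNeBot _ w.ne_bot
  have hcard : Ideal.absNorm w.asIdeal = Nat.card (𝓞 K ⧸ w.asIdeal) := rfl
  rw [hcard] at hdvd
  obtain ⟨x, hx⟩ := exists_prime_addOrderOf_dvd_card' (G := 𝓞 K ⧸ w.asIdeal) p hdvd
  have hx0 : x ≠ 0 := by
    intro h0
    rw [h0, addOrderOf_zero] at hx
    exact hp.one_lt.ne hx
  have h1 : p • x = 0 := by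
    rw [← hx]
    exact addOrderOf_nsmul_eq_zero x
  rw [nsmul_eq_mul] at h1
  have hpr := w.isPrime
  have h2 : ((p : ℕ) : 𝓞 K ⧸ w.asIdeal) = 0 := by
    rcases mul_eq_zero.1 h1 with h3 | h3
    · exact h3
    · exact absurd h3 hx0
  apply h
  rw [← Ideal.Quotient.eq_zero_iff_mem, map_natCast]
  exact h2

theorem qh4b_val {x : w.adicCompletion K}
    (h : (w.adicCompletionIntegers K).valuation x = 1) : Valued.v x = 1 := by
  have h1 : x ∈ w.adicCompletionIntegers K := ((w.adicCompletionIntegers K).valuation_le_one_iff x).1 h.le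
  have h2 : x⁻¹ ∈ w.adicCompletionIntegers K := by
    rw [← (w.adicCompletionIntegers K).valuation_le_one_iff, map_inv₀, h, inv_one]
  rw [HeightOneSpectrum.mem_adicCompletionIntegers] at h1 h2
  have hx0 : x ≠ 0 := by
    intro h0
    rw [h0, map_zero] at h
    exact zero_ne_one h
  refine le_antisymm h1 ?_
  rw [map_inv₀] at h2
  have h3 : 0 < Valued.v x := by
    rw [zero_lt_iff]
    exact (Valuation.ne_zero_iff _).2 hx0
  exact (inv_le_one₀ h3).1 h2

theorem qh4b_nat (p : ℕ) (hp : p.Prime) (V : ValuationSubring ℂ) (hV : V.valuation (p : ℂ) < 1)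
    (n : ℕ) (hn : ¬ p ∣ n) : V.valuation (n : ℂ) = 1 := by
  have hint : ∀ k : ℤ, V.valuation (k : ℂ) ≤ 1 := fun k => by
    have h := V.valuation_le_one (k : V)
    exact_mod_cast h
  have h1 : IsCoprime (n : ℤ) (p : ℤ) := Nat.isCoprime_iff_coprime.2
    ((Nat.Prime.coprime_iff_not_dvd hp).2 hn).symm
  obtain ⟨a, b, hab⟩ := h1
  have hn1 : V.valuation (n : ℂ) ≤ 1 := by
    have := hint (n : ℤ)
    exact_mod_cast this
  refine le_antisymm hn1 ?_
  by_contra hcon
  rw [not_le] at hcon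
  have h2 : (a : ℂ) * n + b * p = 1 := by exact_mod_cast congrArg (Int.cast : ℤ → ℂ) hab
  have h3 : V.valuation ((a : ℂ) * n + b * p) < 1 := by
    refine V.valuation.map_add_lt ?_ ?_
    · rw [map_mul]
      exact lt_of_le_of_lt (mul_le_of_le_one_left' (hint a)) hcon
    · rw [map_mul]
      exact lt_of_le_of_lt (mul_le_of_le_one_left' (hint b)) hV
  rw [h2, map_one] at h3
  exact lt_irrefl _ h3

theorem qh4b_pow {p : ℕ} (hp : p.Prime) {N : ℕ} (hN : ¬ p ∣ N) (k : ℤ) :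
    UnitP p ((((N : ℝ) ^ k : ℝ)) : ℂ) := by
  intro A hA
  have h1 := qh4b_nat p hp A hA N hN
  push_cast
  rw [map_zpow₀, h1, one_zpow]

theorem qh4b_dfac (W : WeierstrassCurve K) (hΔ : W.Δ ≠ 0) : ∃ (u : w.adicCompletion K) (k : ℤ), u ≠ 0 ∧
    u ^ 12 * (Wm K W w).Δ = (W⁄(w.adicCompletion K)).Δ ∧ dfac K W w = (Ideal.absNorm w.asIdeal : ℝ) ^ k ∧
    Valued.v u = WithZero.exp (-k) := by
  obtain ⟨u, r, s, t, hvc⟩ := wm_vc w W
  have hd := (vc_disc hvc).1
  have hΔ' : (W⁄(w.adicCompletion K)).Δ ≠ 0 := by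
    have e : (W⁄(w.adicCompletion K)).Δ = algebraMap K (w.adicCompletion K) W.Δ :=
      WeierstrassCurve.map_Δ _ _
    rw [e]
    exact (map_ne_zero_iff _ (algebraMap K (w.adicCompletion K)).injective).2 hΔ
  have hm : (Wm K W w).Δ ≠ 0 := by
    intro h0
    rw [h0, mul_zero] at hd
    exact hΔ' hd.symm
  obtain ⟨k, hk1, hk2⟩ := norm_w w u hvc.une
  refine ⟨u, -k, hvc.une, hd, ?_, by rw [neg_neg]; exact hk2⟩
  unfold dfac
  have hu : 0 < ‖u‖ := norm_pos_iff.2 hvc.une
  have hmp : 0 < ‖(Wm K W w).Δ‖ := norm_pos_iff.2 hm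
  have e1 : ‖(Wm K W w).Δ‖ / ‖(W⁄(w.adicCompletion K)).Δ‖ = (‖u‖⁻¹) ^ 12 := by
    rw [← hd, norm_mul, norm_pow]
    field_simp
  rw [e1, one_div]
  have e2 := Real.pow_rpow_inv_natCast (x := ‖u‖⁻¹) (n := 12) (inv_pos.2 hu).le (by norm_num)
  push_cast at e2
  rw [e2, hk1, zpow_neg]

/-- Chunk QH4B (M). Wm from W by u (wm_vc): u^12 Δm = Δ (vc_disc), so ‖Δm‖/‖Δ‖ = ‖u‖^(-12) and the twelfth root is ‖u‖^(-1) = N^(-k) (norm_w). If p is not in w then p does not divide N = absNorm w (a power of the residue characteristic), so N is a unit at every valuation ring of ℂ above p (H55P.val_nat or pt9_nat) and so is N^(-k).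
If p is in w: W is good at w over the completion, Δ and Δm are units (wm_good), the quotient is 1. -/
theorem dfac_unit (W : WeierstrassCurve K) (hΔ : W.Δ ≠ 0) {p : ℕ} (hp : p.Prime)
    (h : (p : 𝓞 K) ∈ w.asIdeal → GoodW (W⁄(w.adicCompletion K)) (w.adicCompletionIntegers K)) :
    UnitP p ((dfac K W w : ℝ) : ℂ) := by
  obtain ⟨u, k, hu, hd, hk1, hk2⟩ := qh4b_dfac w W hΔ
  rw [hk1]
  by_cases hpw : (p : 𝓞 K) ∈ w.asIdeal
  · have hg := h hpw
    have hPG : PG (W⁄(w.adicCompletion K)) (w.adicCompletionIntegers K) :=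
      ⟨W⁄(w.adicCompletion K), 1, 0, 0, 0, ⟨one_ne_zero, by ring, by ring, by ring, by ring, by ring⟩, hg⟩
    have hm := wm_good w W hPG
    have h1 : (w.adicCompletionIntegers K).valuation (u ^ 12) = 1 := by
      have h2 := congrArg (w.adicCompletionIntegers K).valuation hd
      rw [map_mul, hm.disc, hg.disc, mul_one] at h2
      exact h2
    have h3 := qh4b_val w h1
    rw [map_pow, hk2, ← WithZero.exp_nsmul] at h3
    have h4 : (12 : ℕ) • (-k) = 0 := by
      have h5 : WithZero.exp ((12 : ℕ) • (-k)) = WithZero.exp (0 : ℤ) := by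
        rw [h3, WithZero.exp_zero]
      exact WithZero.exp_injective h5
    have h5 : k = 0 := by
      rw [nsmul_eq_mul] at h4
      push_cast at h4
      omega
    rw [h5, zpow_zero]
    intro A _
    push_cast
    exact map_one _
  · exact qh4b_pow hp (qh4b_ndvd w hp hpw) k

/-- Chunk QH4B (S). finprod: finprod_induction (1 is a unit, products of units are units), natural numbers prime to p are units (H55P.val_nat). -/
theorem prod_unit {p : ℕ} (hp : p.Prime) (f : HeightOneSpectrum (𝓞 K) → ℕ) (g : HeightOneSpectrum (𝓞 K) → ℝ)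
    (hf : ∀ w, ¬ p ∣ f w) (hg : ∀ w, UnitP p ((g w : ℝ) : ℂ)) :
    UnitP p (∏ᶠ w : HeightOneSpectrum (𝓞 K), ((f w : ℂ) * ((g w : ℝ) : ℂ))) := by
  intro A hA
  refine finprod_induction (fun z : ℂ => A.valuation z = 1) (map_one _) ?_ ?_
  · intro x y hx hy
    rw [map_mul, hx, hy, one_mul]
  · intro i
    rw [map_mul, qh4b_nat p hp A hA (f i) (hf i), hg i A hA, one_mul]

end H55K.TQ
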