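import Mathlib
import Pool.Agent.Lib.H55K.QH3
import Pool.Agent.Lib.H55K.QH4B

/-! # H55K: the value of the analytic order of the Tate-Shafarevich group -/

open NumberField IsDedekindDomain WeierstrassCurve

namespace H55K.TQ

open H55P (IQ embF eF LF Per IsHecke Pt ac Inert Dec Nm UnitP)
open H35P (WAB Ker tt GoodW IntW)
open H55K.MG (VC Crd)

variable {F : Type} [Field F] [NumberField F] [IQ F] {W : WeierstrassCurve ℤ} {Om : ℂ} {L : PeriodPair} {p : ℕ}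

theorem qs1_cast {K : Type} [Field K] [NumberField K] (w : HeightOneSpectrum (𝓞 K)) (m : ℤ) :
    algebraMap K (w.adicCompletion K) (algebraMap ℤ K m) =
      algebraMap K (w.adicCompletion K) ((m : 𝓞 K) : K) := by
  congr 1

theorem qs1_int {K : Type} [Field K] [NumberField K] (w : HeightOneSpectrum (𝓞 K)) (m : ℤ) :
    algebraMap K (w.adicCompletion K) (algebraMap ℤ K m) ∈ w.adicCompletionIntegers K := by
  rw [qs1_cast]
  exact (int_w w (m : 𝓞 K)).1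

/-- Chunk QS1 (S/M). W has integral coefficients and the discriminant Δ is prime to p (integers), so at a place w above p the base change of W to the completion is good (int_w for integers; a Bezout relation a p + b Δ = 1 gives V(Δ) = 1). -/
theorem good_W {K : Type} [Field K] [NumberField K] (w : HeightOneSpectrum (𝓞 K)) (hp : p.Prime)
    (hΔ : ¬ (p : ℤ) ∣ W.Δ) (hw : (p : 𝓞 K) ∈ w.asIdeal) :
    GoodW ((W⁄K)⁄(w.adicCompletion K)) (w.adicCompletionIntegers K) := by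
  have hΔw : ((W.Δ : ℤ) : 𝓞 K) ∉ w.asIdeal := by
    intro h
    have hco : IsCoprime (p : ℤ) W.Δ := by
      rw [Int.isCoprime_iff_gcd_eq_one]
      have h1 := (Nat.Prime.coprime_iff_not_dvd hp).2 (fun h2 => hΔ (Int.natCast_dvd.2 h2))
      exact h1
    obtain ⟨a, b, hab⟩ := hco
    apply w.isPrime.ne_top
    rw [Ideal.eq_top_iff_one]
    have h1 : (1 : 𝓞 K) = (a : 𝓞 K) * (p : 𝓞 K) + (b : 𝓞 K) * ((W.Δ : ℤ) : 𝓞 K) := by
      have h2 := congrArg (fun z : ℤ => (z : 𝓞 K)) hab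
      push_cast at h2
      exact h2.symm
    rw [h1]
    exact w.asIdeal.add_mem (w.asIdeal.mul_mem_left _ hw) (w.asIdeal.mul_mem_left _ h)
  refine ⟨⟨qs1_int w _, qs1_int w _, qs1_int w _, qs1_int w _, qs1_int w _⟩, ?_⟩
  have e1 : ((W⁄K)⁄(w.adicCompletion K)).Δ =
      algebraMap K (w.adicCompletion K) (algebraMap ℤ K W.Δ) := by
    have e2 : ((W⁄K)⁄(w.adicCompletion K)).Δ = algebraMap K (w.adicCompletion K) (W⁄K).Δ :=
      (W⁄K).map_Δ (algebraMap K (w.adicCompletion K))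
    have e3 : (W⁄K).Δ = algebraMap ℤ K W.Δ := W.map_Δ (algebraMap ℤ K)
    rw [e2, e3]
  rw [e1, qs1_cast]
  exact (int_w w ((W.Δ : ℤ) : 𝓞 K)).2.2.2 hΔw

/-- Chunk QS1 (S/M). tam_unit, dfac_unit for W⁄K with good_W (PG from GoodW: VC with 1 0 0 0), prod_unit. (W⁄K).Δ = Δ ≠ 0. -/
theorem prod_W (K : Type) [Field K] [NumberField K] (hp : p.Prime) (h5 : 5 ≤ p) (hΔ : ¬ (p : ℤ) ∣ W.Δ)
    (hj : ∃ j₀ : ℤ, W.c₄ ^ 3 = j₀ * W.Δ) :
    UnitP p (∏ᶠ w : HeightOneSpectrum (𝓞 K), ((tamG K (W⁄K) w : ℂ) * (dfac K (W⁄K) w : ℂ))) := by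
  have e3 : (W⁄K).Δ = algebraMap ℤ K W.Δ := W.map_Δ (algebraMap ℤ K)
  have e4 : (W⁄K).c₄ = algebraMap ℤ K W.c₄ := W.map_c₄ (algebraMap ℤ K)
  have hΔ0 : W.Δ ≠ 0 := by
    intro h
    apply hΔ
    rw [h]
    exact dvd_zero _
  have hΔK : (W⁄K).Δ ≠ 0 := by
    rw [e3]
    simpa using hΔ0
  obtain ⟨j₀, hj₀⟩ := hj
  refine prod_unit hp (fun w => tamG K (W⁄K) w) (fun w => dfac K (W⁄K) w) ?_ ?_
  · intro w
    refine tam_unit w (W⁄K) hΔK ⟨(j₀ : 𝓞 K), ?_⟩ hp h5 ?_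
    · rw [e3, e4]
      have h1 := congrArg (algebraMap ℤ K) hj₀
      rw [map_pow, map_mul] at h1
      rw [h1]
      congr 1
    · intro hw
      exact ⟨_, 1, 0, 0, 0, ⟨one_ne_zero, by ring, by ring, by ring, by ring, by ring⟩,
        good_W w hp hΔ hw⟩
  · intro w
    exact dfac_unit w (W⁄K) hΔK hp (fun hw => good_W w hp hΔ hw)

end H55K.TQ
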