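import Mathlib
import Pool.Agent.Lib.H55K.QP2A
import Pool.Agent.Lib.H55K.QP2C
import Pool.Agent.Lib.H55K.QS1

/-! # H55K: the value of the analytic order of the Tate-Shafarevich group -/

open NumberField IsDedekindDomain WeierstrassCurve

namespace H55K.TQ

open H55P (IQ embF eF LF Per IsHecke Pt ac Inert Dec Nm UnitP)
open H35P (WAB Ker tt GoodW IntW)
open H55K.MG (VC Crd)

variable {F : Type} [Field F] [NumberField F] [IQ F] {W : WeierstrassCurve ℤ} {Om : ℂ} {L : PeriodPair} {p : ℕ}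

theorem qs2_discr (p : ℕ) (hp : p.Prime) {K : Type} [Field K] [NumberField K] (hU : H55P.UnrP p K)
    (V : ValuationSubring ℂ) (hV : V.valuation (p : ℂ) < 1) :
    V.valuation ((Real.sqrt |(NumberField.discr K : ℝ)| : ℝ) : ℂ) = 1 := by
  have h0 := H55P.pl1_discr p hp hU
  obtain ⟨D, hD⟩ : ∃ D, D = NumberField.discr K := ⟨_, rfl⟩
  rw [← hD] at h0 ⊢
  have h1 : (((Real.sqrt |(D : ℝ)| : ℝ) : ℂ)) ^ 2 = ((D.natAbs : ℕ) : ℂ) := by
    rw [← Complex.ofReal_pow, Real.sq_sqrt (abs_nonneg _), ← Int.cast_abs, Int.abs_eq_natAbs]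
    simp only [Int.cast_natCast, Complex.ofReal_natCast]
  have h2 := H55P.val_nat p hp V hV D.natAbs (fun hd => h0 (Int.natCast_dvd.2 hd))
  rw [← h1, map_pow] at h2
  exact (pow_eq_one_iff_of_nonneg zero_le two_ne_zero).1 h2

/-- Chunk QS2 (M). shaG = L1 sqrt|D| E^2/(OmP^r1 Om^r2 prod): H55P.discr_unit (sqrt|D| is a unit), prod_W, omr_unit and om_unit: V(OmP) = V(Om), V(Om L) = V(Om)^2 (Om ≠ 0: PerW.ne); r1 + 2 r2 = [K : ℚ] (InfinitePlace.card_add_two_mul_card_eq_rank). -/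
theorem sha_val (K : Type) [Field K] [NumberField K] (hper : PerW F W Om) (hL : PerZ W L) (hp : p.Prime) (h5 : 5 ≤ p)
    (hF : H55P.UnrP p F) (hK : H55P.UnrP p K) (hΔ : ¬ (p : ℤ) ∣ W.Δ) (hj : ∃ j₀ : ℤ, W.c₄ ^ 3 = j₀ * W.Δ) (L1 : ℂ)
    (V : ValuationSubring ℂ) (hV : V.valuation (p : ℂ) < 1) :
    V.valuation (shaG K W L L1) = V.valuation (L1 / Om ^ Module.finrank ℚ K) *
      V.valuation ((Nat.card (W⁄K).toAffine.Point : ℕ) : ℂ) ^ 2 := by
  have hOm : Om ≠ 0 := hper.ne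
  have hVO : V.valuation Om ≠ 0 := (Valuation.ne_zero_iff _).2 hOm
  have h1 : V.valuation ((Real.sqrt |(NumberField.discr K : ℝ)| : ℝ) : ℂ) = 1 :=
    qs2_discr p hp hK V hV
  have h2 := prod_W (W := W) K hp h5 hΔ hj V hV
  have h3 : V.valuation (OmP W L : ℂ) = V.valuation Om := by
    have h := omr_unit hper hL hp h5 hF V hV
    rw [map_div₀] at h
    exact (div_eq_one_iff_eq hVO).1 h
  have h4 : V.valuation (H55C.Om L : ℂ) = V.valuation Om ^ 2 := by
    have h := (om_unit hper hL hp hF).2 V hV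
    rw [map_div₀, map_pow] at h
    exact (div_eq_one_iff_eq (pow_ne_zero 2 hVO)).1 h
  have h5' := NumberField.InfinitePlace.card_add_two_mul_card_eq_rank K
  rw [shaG, map_div₀, map_mul, map_mul, map_mul, map_mul, map_pow, map_pow, map_pow, h1, h2, h3, h4,
    mul_one, mul_one, map_div₀, map_pow, ← h5', ← pow_mul, ← pow_add]
  rw [div_mul_eq_mul_div]

end H55K.TQ
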