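import Mathlib
import Pool.Agent.Lib.H55K.FD
import Pool.Agent.Lib.H55K.QS2

/-! # H55K: the analytic part over K and the Hecke L-value -/

open NumberField IsDedekindDomain WeierstrassCurve

namespace H55K.TQ

open H55P (IQ embF eF LF Per IsHecke Pt ac Inert Dec Nm UnitP)
open H35P (WAB Ker tt GoodW IntW)
open H55K.MG (VC Crd)

variable {F : Type} [Field F] [NumberField F] [IQ F] {W : WeierstrassCurve ℤ} {Om : ℂ}
    {m : Ideal (𝓞 F)} {ψ : Ideal (𝓞 F) →*₀ 𝓞 F} {p : ℕ}

/-- Chunk FB6A (S). shaG = lG #E^2. -/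
theorem shaG_lG (K : Type) [Field K] [NumberField K] (W : WeierstrassCurve ℤ) (L : PeriodPair) (L1 : ℂ) :
    shaG K W L L1 = lG K W L L1 * (Nat.card (W⁄K).toAffine.Point : ℂ) ^ 2 := by
  unfold shaG lG
  ring

/-- Chunk FB6A (S). As sha_val (QS2.lean) without the points (same proof; or cancel if the number of points is not 0). -/
theorem lG_val (K : Type) [Field K] [NumberField K] {L : PeriodPair} (hper : PerW F W Om) (hL : PerZ W L) (hp : p.Prime) (h5 : 5 ≤ p)
    (hF : H55P.UnrP p F) (hK : H55P.UnrP p K) (hΔ : ¬ (p : ℤ) ∣ W.Δ) (hj : ∃ j₀ : ℤ, W.c₄ ^ 3 = j₀ * W.Δ) (L1 : ℂ)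
    (V : ValuationSubring ℂ) (hV : V.valuation (p : ℂ) < 1) :
    V.valuation (lG K W L L1) = V.valuation (L1 / Om ^ Module.finrank ℚ K) := by
  have hOm : Om ≠ 0 := hper.ne
  have hVO : V.valuation Om ≠ 0 := (Valuation.ne_zero_iff _).2 hOm
  have h1 : V.valuation ((Real.sqrt |(NumberField.discr K : ℝ)| : ℝ) : ℂ) = 1 :=
    qs2_discr p hp hK V hV
  have h2 := prod_W (W := W) K hp h5 hΔ hj V hV
  have h3 : V.valuation (OmP W L : ℂ) = V.valuation Om := by
    have h := omr_unit hper hL hp h5 hF V hV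
    rw [map_div₀] at h
    exact (div_eq_one_iff_eq hVO).1 h
  have h4 : V.valuation (H55C.Om L : ℂ) = V.valuation Om ^ 2 := by
    have h := (om_unit hper hL hp hF).2 V hV
    rw [map_div₀, map_pow] at h
    exact (div_eq_one_iff_eq (pow_ne_zero 2 hVO)).1 h
  have h5' := NumberField.InfinitePlace.card_add_two_mul_card_eq_rank K
  rw [lG, map_div₀, map_mul, map_mul, map_mul, map_pow, map_pow, h1, h2, h3, h4,
    mul_one, mul_one, map_div₀, map_pow, ← h5', ← pow_mul, ← pow_add]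

end H55K.TQ
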