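import Mathlib
import Pool.Agent.Lib.H55K.FB4
import Pool.Agent.Lib.H55K.FB5
import Pool.Agent.Lib.H55K.FB6A

/-! # H55K: the analytic part over K and the Hecke L-value -/

open NumberField IsDedekindDomain WeierstrassCurve

namespace H55K.TQ

open H55P (IQ embF eF LF Per IsHecke Pt ac Inert Dec Nm UnitP)
open H35P (WAB Ker tt GoodW IntW)
open H55K.MG (VC Crd)

variable {F : Type} [Field F] [NumberField F] [IQ F] {W : WeierstrassCurve ℤ} {Om : ℂ}
    {m : Ideal (𝓞 F)} {ψ : Ideal (𝓞 F) →*₀ 𝓞 F} {p : ℕ}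

/-- The value at 1 of an L-series with integral coefficients is real. -/
theorem fb6b_real (K : Type) [Field K] [NumberField K] {Φ : ℂ → ℂ} (hΦa : AnalyticOnNhd ℂ Φ {s | 1 / 2 < s.re})
    (hser : ∀ s : ℂ, 3 / 2 < s.re → LSeriesHasSum (fun n => (((W⁄K).LFunction n : ℤ) : ℂ)) s (Φ s)) :
    (starRingEnd ℂ) (Φ 1) = Φ 1 := by
  have h := H55N.TW1_ident (1 / 2) Φ (fun z => (starRingEnd ℂ) (Φ ((starRingEnd ℂ) z))) hΦa (H55B.I4_conj hΦa)
    (fun s hs => by
      have hs' : 3 / 2 < ((starRingEnd ℂ) s).re := by simpa using hs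
      have h1 := (Complex.hasSum_conj').2 (hser _ hs')
      have h2 : ∀ n, (starRingEnd ℂ) (LSeries.term
          (fun n => (((W⁄K).LFunction n : ℤ) : ℂ)) ((starRingEnd ℂ) s) n) =
          LSeries.term (fun n => (((W⁄K).LFunction n : ℤ) : ℂ)) s n := by
        intro n
        rcases eq_or_ne n 0 with rfl | hn
        · simp
        · rw [LSeries.term_of_ne_zero hn, LSeries.term_of_ne_zero hn, map_div₀, map_intCast]
          congr 1
          have h3 := Complex.cpow_conj (n : ℂ) ((starRingEnd ℂ) s) (by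
            rw [Complex.natCast_arg]
            exact Real.pi_pos.ne)
          rw [Complex.conj_conj, map_natCast] at h3
          exact h3.symm
      have h3 : HasSum (fun n => LSeries.term
          (fun n => (((W⁄K).LFunction n : ℤ) : ℂ)) s n)
          ((starRingEnd ℂ) (Φ ((starRingEnd ℂ) s))) := by
        simpa only [h2] using h1
      exact (hser s hs).unique h3) (by norm_num) 1 (by norm_num)
  simpa using h.symm

theorem fb6b_ndvd (hp : PrimeH F (W⁄(𝓞 F)) p) : ¬ (p : ℤ) ∣ W.Δ := by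
  intro hd
  obtain ⟨t, ht⟩ := hd
  have h1 : Ideal.span {(W⁄(𝓞 F)).Δ} ≤ Ideal.span {(p : 𝓞 F)} := by
    rw [Ideal.span_singleton_le_span_singleton]
    refine ⟨algebraMap ℤ (𝓞 F) t, ?_⟩
    have e : (W⁄(𝓞 F)).Δ = algebraMap ℤ (𝓞 F) W.Δ := WeierstrassCurve.map_Δ _ _
    rw [e, ht, map_mul, map_natCast]
  have h2 : Ideal.span {(p : 𝓞 F)} = ⊤ := by
    have h3 := Ideal.isCoprime_iff_sup_eq.1 hp.cop
    rwa [sup_eq_right.2 h1] at h3
  have h4 := congrArg Ideal.absNorm h2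
  rw [Ideal.absNorm_top, Ideal.absNorm_span_natCast] at h4
  have h5 : 0 < Module.finrank ℤ (𝓞 F) := Module.finrank_pos
  exact (Nat.one_lt_pow h5.ne' hp.prime.one_lt).ne' h4

theorem fb6b_conj (hper : PerW F W Om) (V : ValuationSubring ℂ) (x : ℂ) (n : ℕ) :
    V.valuation ((starRingEnd ℂ) (x / Om ^ n)) = V.valuation ((starRingEnd ℂ) x / Om ^ n) := by
  have hOm : Om ≠ 0 := hper.ne
  have h1 := om_conj_val hper V
  have hVO : V.valuation Om ≠ 0 := (Valuation.ne_zero_iff _).2 hOm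
  rw [map_div₀] at h1
  have h2 : V.valuation ((starRingEnd ℂ) Om) = V.valuation Om := (div_eq_one_iff_eq hVO).1 h1
  rw [map_div₀, map_pow, map_div₀, map_pow, h2, map_div₀, map_pow]

/-- Chunk FB6B (M). V(lG) is V(x) V(conj x) in the first case of LRel, V(x) in the second, x = Φ(1)/Om^[K' : F]: identity theorem (H55P: ident, TW1), lG_val, om_conj_val. -/
theorem lG_rel (hH : BaseH F (W⁄(𝓞 F)) Om m ψ) (hp : PrimeH F (W⁄(𝓞 F)) p) (K : Type) [Field K] [NumberField K]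
    (K' : IntermediateField F (AlgebraicClosure F)) [NumberField K'] (hR : LRel W ψ K K') (hU : H55P.UnrP p K)
    {Φ : ℂ → ℂ} (hΦa : AnalyticOnNhd ℂ Φ {s | 1 / 2 < s.re})
    (hΦ : ∀ s : ℂ, 3 / 2 < s.re → HasSum (H55N.tm (H55P.PsiP K' ψ) s) (Φ s)) :
    ∃ Λ : ℂ → ℂ, AnalyticOnNhd ℂ Λ {s | 1 / 2 < s.re} ∧
      (∀ s : ℂ, 3 / 2 < s.re → LSeriesSummable (fun n => (((W⁄K).LFunction n : ℤ) : ℂ)) s ∧ Λ s = (W⁄K).LSeries s) ∧
      (Φ 1 ≠ 0 → Λ 1 ≠ 0) ∧
      ∀ V : ValuationSubring ℂ, V.valuation (p : ℂ) < 1 → ∀ L : PeriodPair, PerZ W L →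
        (V.valuation (lG K W L (Λ 1)) = V.valuation (Φ 1 / Om ^ Module.finrank F K') * V.valuation ((starRingEnd ℂ) (Φ 1 / Om ^ Module.finrank F K'))) ∨
        (V.valuation (lG K W L (Λ 1)) = V.valuation (Φ 1 / Om ^ Module.finrank F K') ∧
          V.valuation ((starRingEnd ℂ) (Φ 1 / Om ^ Module.finrank F K')) = V.valuation (Φ 1 / Om ^ Module.finrank F K')) := by
  classical
  have hper := perW_of hH
  have hj := jint_Z hH
  have hΔ := fb6b_ndvd hp
  have hOm : Om ≠ 0 := hper.ne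
  rcases hR with ⟨hd, hR⟩ | ⟨hd, hR⟩
  · have hser := hR Φ hΦ
    refine ⟨fun z => Φ z * (starRingEnd ℂ) (Φ ((starRingEnd ℂ) z)), hΦa.mul (H55B.I4_conj hΦa),
      fun s hs => ⟨(hser s hs).LSeriesSummable, (hser s hs).LSeries_eq.symm⟩, fun h0 => ?_, fun V hV L hL => Or.inl ?_⟩
    · simp only [map_one]
      exact mul_ne_zero h0 ((map_ne_zero _).2 h0)
    · rw [lG_val K hper hL hp.prime hp.five hp.unr hU hΔ hj _ V hV, hd, fb6b_conj hper V, ← map_mul]
      congr 1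
      simp only [map_one]
      rw [two_mul, pow_add, mul_div_mul_comm]
  · have hser := hR Φ hΦ
    have hreal := fb6b_real K hΦa hser
    refine ⟨Φ, hΦa, fun s hs => ⟨(hser s hs).LSeriesSummable, (hser s hs).LSeries_eq.symm⟩, fun h0 => h0,
      fun V hV L hL => Or.inr ⟨?_, ?_⟩⟩
    · rw [lG_val K hper hL hp.prime hp.five hp.unr hU hΔ hj _ V hV, hd]
    · rw [fb6b_conj hper V, hreal]

end H55K.TQ
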