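import Mathlib
import Pool.Agent.Lib.H55K.M0
import Pool.Agent.Lib.H55K.M2A
import Pool.Agent.Lib.H55P.Stm

/-! # H55K: complex numbers which are integral above a prime -/

open NumberField IsDedekindDomain WeierstrassCurve

namespace H55K.TQ

open H55P (IQ embF eF LF Per IsHecke Pt ac Inert Dec Nm UnitP)
open H35P (WAB Ker tt GoodW IntW)
open H55K.MG (VC Crd)

/-- Chunk FC1 (M). Suppose x ≠ 0. In the subring A = Algebra.adjoin ℤ {x⁻¹} of ℂ the ideal (p, x⁻¹) is everything: otherwise Ideal.image_subset_nonunits_valuationSubring gives V containing A with V(p) < 1 and V(x⁻¹) < 1, so V(x) > 1 (see H55P.exists_above_p in Z6.lean). So 1 = p a(x⁻¹) + x⁻¹ b(x⁻¹) with a, b in ℤ[X]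
(Algebra.adjoin_singleton_eq_range_aeval): the polynomial p a + X b - 1 is not zero (its value at 0 is p a(0) - 1, p ≥ 2) and x⁻¹ is a root: x⁻¹ is algebraic, so x is. -/
theorem alg_of_int {p : ℕ} (hp : p.Prime) {x : ℂ} (h : ∀ V : ValuationSubring ℂ, V.valuation (p : ℂ) < 1 → x ∈ V) : IsAlgebraic ℤ x := by
  by_cases hx : x = 0
  · rw [hx]
    exact isAlgebraic_zero
  let φ : Polynomial ℤ →+* ℂ := (Polynomial.aeval (R := ℤ) x⁻¹).toRingHom
  have hφC : φ (Polynomial.C (p : ℤ)) = (p : ℂ) := by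
    show Polynomial.aeval x⁻¹ (Polynomial.C (p : ℤ)) = (p : ℂ)
    rw [Polynomial.aeval_C]
    simp
  have hφX : φ Polynomial.X = x⁻¹ := Polynomial.aeval_X x⁻¹
  let A : Subring ℂ := φ.range
  let tp : A := ⟨p, ⟨Polynomial.C (p : ℤ), hφC⟩⟩
  let tx : A := ⟨x⁻¹, ⟨Polynomial.X, hφX⟩⟩
  by_cases hI : Ideal.span {tp, tx} = ⊤
  · have h1 : (1 : A) ∈ Ideal.span {tp, tx} := by rw [hI]; trivial
    rw [Ideal.mem_span_pair] at h1
    obtain ⟨⟨a, ⟨P, hP⟩⟩, ⟨b, ⟨Q, hQ⟩⟩, hab⟩ := h1
    have h2 : a * (p : ℂ) + b * x⁻¹ = 1 := congrArg Subtype.val hab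
    have h3 : IsAlgebraic ℤ x⁻¹ := by
      refine ⟨P * Polynomial.C (p : ℤ) + Q * Polynomial.X - 1, ?_, ?_⟩
      · intro h0
        have h4 := congrArg (fun f : Polynomial ℤ => f.coeff 0) h0
        simp only [Polynomial.coeff_sub, Polynomial.coeff_add, Polynomial.mul_coeff_zero,
          Polynomial.coeff_C_zero, Polynomial.coeff_X_zero, mul_zero, add_zero,
          Polynomial.coeff_one_zero, Polynomial.coeff_zero] at h4
        have h5 : (p : ℤ) ∣ 1 := ⟨P.coeff 0, by linarith⟩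
        have h6 : (p : ℤ) ≤ 1 := Int.le_of_dvd one_pos h5
        have h7 := hp.two_le
        omega
      · show φ (P * Polynomial.C (p : ℤ) + Q * Polynomial.X - 1) = 0
        rw [map_sub, map_add, map_mul, map_mul, map_one, hφC, hφX, hP, hQ, h2, sub_self]
    exact IsAlgebraic.inv_iff.mp h3
  · exfalso
    obtain ⟨B, -, hB⟩ := Ideal.image_subset_nonunits_valuationSubring (Ideal.span {tp, tx}) hI
    have hBp : B.valuation (p : ℂ) < 1 := by
      rw [← ValuationSubring.mem_nonunits_iff]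
      exact hB ⟨tp, Ideal.subset_span (by simp), rfl⟩
    have hBx : B.valuation x⁻¹ < 1 := by
      rw [← ValuationSubring.mem_nonunits_iff]
      exact hB ⟨tx, Ideal.subset_span (by simp), rfl⟩
    have hxB : B.valuation x ≤ 1 := (B.valuation_le_one_iff x).mpr (h B hBp)
    have h1 : B.valuation x * B.valuation x⁻¹ = 1 := by
      rw [← map_mul, mul_inv_cancel₀ hx, map_one]
    have h2 : B.valuation x * B.valuation x⁻¹ < 1 := by
      rw [mul_comm]
      exact mul_lt_one_of_lt_of_le hBx hxB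
    rw [h1] at h2
    exact lt_irrefl _ h2

theorem fc1_int {z : ℂ} (hz : IsIntegral ℤ z) (V : ValuationSubring ℂ) : V.valuation z ≤ 1 := by
  have h3 : IsIntegral V z := hz.tower_top
  obtain ⟨t, ht⟩ := IsIntegrallyClosed.isIntegral_iff.1 h3
  rw [← ht]
  exact V.valuation_le_one t

theorem fc1_one {p : ℕ} (hp : p.Prime) (V : ValuationSubring ℂ) (hV : V.valuation (p : ℂ) < 1)
    (n : ℤ) (hn : ¬ (p : ℤ) ∣ n) : V.valuation (n : ℂ) = 1 := by
  have hint : ∀ k : ℤ, V.valuation (k : ℂ) ≤ 1 := fun k => by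
    have h := V.valuation_le_one (k : V)
    exact_mod_cast h
  have h1 : IsCoprime (p : ℤ) n := (Nat.prime_iff_prime_int.mp hp).coprime_iff_not_dvd.mpr hn
  obtain ⟨a, b, h⟩ := h1
  refine le_antisymm (hint n) ?_
  by_contra hcon
  push Not at hcon
  have h2 : (1 : ℂ) = (a : ℂ) * (p : ℂ) + (b : ℂ) * (n : ℂ) := by
    exact_mod_cast h.symm
  have h3 : V.valuation (1 : ℂ) < 1 := by
    rw [h2]
    refine lt_of_le_of_lt (V.valuation.map_add _ _) (max_lt ?_ ?_)
    · rw [map_mul, mul_comm]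
      exact mul_lt_one_of_lt_of_le hV (hint a)
    · rw [map_mul, mul_comm]
      exact mul_lt_one_of_lt_of_le hcon (hint b)
  rw [map_one] at h3
  exact lt_irrefl _ h3

/-- Chunk FC1 (S/M). exists_integral_multiple: n x and n' x⁻¹ are algebraic integers, n, n' ≠ 0 integers; algebraic integers are in all valuation rings (PT1_int style, or ValuationSubring: integrally closed), and V(n) = 1 if p does not divide n (H55P.val_nat). So UnitP p x for all p not dividing n n'. -/
theorem unit_almost {x : ℂ} (hx : x ≠ 0) (h : IsAlgebraic ℤ x) : {p : ℕ | p.Prime ∧ ¬ UnitP p x}.Finite := by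
  obtain ⟨n, hn, hnx⟩ := h.exists_integral_multiple
  obtain ⟨m, hm, hmx⟩ := h.inv.exists_integral_multiple
  have hfin : {p : ℕ | p ∣ (n * m).natAbs}.Finite :=
    Set.Finite.subset (Finset.finite_toSet ((n * m).natAbs.divisors)) fun p hp => by
      simp only [Finset.mem_coe, Nat.mem_divisors]
      exact ⟨hp, Int.natAbs_ne_zero.mpr (mul_ne_zero hn hm)⟩
  refine hfin.subset ?_
  rintro p ⟨hp, hU⟩
  by_contra hcon
  apply hU
  intro V hV
  have hdn : ¬ (p : ℤ) ∣ n := fun h1 => hcon (Int.natCast_dvd.mp (h1.mul_right m))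
  have hdm : ¬ (p : ℤ) ∣ m := fun h1 => hcon (Int.natCast_dvd.mp (h1.mul_left n))
  have h1 := fc1_int hnx V
  have h2 := fc1_int hmx V
  rw [zsmul_eq_mul, map_mul, fc1_one hp V hV n hdn, one_mul] at h1
  rw [zsmul_eq_mul, map_mul, fc1_one hp V hV m hdm, one_mul] at h2
  refine le_antisymm h1 ?_
  have h3 : V.valuation x * V.valuation x⁻¹ = 1 := by
    rw [← map_mul, mul_inv_cancel₀ hx, map_one]
  calc (1 : _) = V.valuation x * V.valuation x⁻¹ := h3.symm
    _ ≤ V.valuation x * 1 := mul_le_mul_right h2 _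
    _ = V.valuation x := mul_one _

end H55K.TQ
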