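import Mathlib
import Pool.Agent.Lib.H55K.BH

/-! # H55K: almost all prime numbers -/

open NumberField IsDedekindDomain WeierstrassCurve

namespace H55K.TQ

open H55P (IQ embF eF LF Per IsHecke Pt ac Inert Dec Nm UnitP)
open H35P (WAB Ker tt GoodW IntW)
open H55K.MG (VC Crd)

theorem FC2_unr {F : Type} [Field F] [NumberField F] {p : ℕ} (hp : p.Prime)
    (hd : ¬ (p : ℤ) ∣ NumberField.discr F) : H55P.UnrP p F := by
  have hpp : Prime (p : ℤ) := Nat.prime_iff_prime_int.1 hp
  rw [NumberField.not_dvd_discr_iff_forall_mem F (𝓞 F) hpp] at hd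
  intro x hx
  rw [Ideal.isUnit_iff]
  by_contra hne
  obtain ⟨P, hP, hle⟩ := Ideal.exists_le_maximal x hne
  have hPp : P.IsPrime := hP.isPrime
  have h1 : P ^ 2 ∣ Ideal.span {(p : 𝓞 F)} := by
    refine dvd_trans ?_ hx
    rw [pow_two]
    exact mul_dvd_mul (Ideal.dvd_iff_le.2 hle) (Ideal.dvd_iff_le.2 hle)
  rw [Ideal.dvd_iff_le] at h1
  have h2 : (p : 𝓞 F) ∈ P := Ideal.pow_le_self two_ne_zero (h1 (Ideal.mem_span_singleton_self _))
  have h3 := hd P hPp (by exact_mod_cast h2)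
  have h4 : P.ramificationIdx ℤ = 1 := Ideal.ramificationIdx_eq_one_iff.2 h3
  have hover : P.under ℤ = Ideal.span {(p : ℤ)} := by
    have hmax : (Ideal.span {(p : ℤ)}).IsMaximal :=
      PrincipalIdealRing.isMaximal_of_irreducible hpp.irreducible
    refine (hmax.eq_of_le (Ideal.IsPrime.ne_top inferInstance) ?_).symm
    rw [Ideal.span_singleton_le_iff_mem, Ideal.under_def, Ideal.mem_comap, map_natCast]
    exact h2
  have : P.LiesOver (Ideal.span {(p : ℤ)}) := ⟨hover.symm⟩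
  have hne : Ideal.span {(p : ℤ)} ≠ ⊥ := by
    rw [Ne, Ideal.span_singleton_eq_bot]
    exact hpp.ne_zero
  rw [← Ideal.ramificationIdx'_eq_ramificationIdx (Ideal.span {(p : ℤ)}) P hne] at h4
  have hle' : Ideal.map (algebraMap ℤ (𝓞 F)) (Ideal.span {(p : ℤ)}) = Ideal.span {(p : 𝓞 F)} := by
    rw [Ideal.map_span, Set.image_singleton, map_natCast]
  have h5 : Ideal.map (algebraMap ℤ (𝓞 F)) (Ideal.span {(p : ℤ)}) ≤ P := by
    rw [hle', Ideal.span_singleton_le_iff_mem]
    exact h2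
  exact (Ideal.ramificationIdx'_ne_one_iff h5).2 (by rw [hle']; exact h1) h4

theorem FC2_cop {F : Type} [Field F] [NumberField F] {p : ℕ} (hp : p.Prime) {D : 𝓞 F}
    (hd : ¬ p ∣ Ideal.absNorm (Ideal.span {D})) :
    IsCoprime (Ideal.span {D}) (Ideal.span {(p : 𝓞 F)}) := by
  rw [Ideal.isCoprime_iff_sup_eq]
  by_contra hne
  obtain ⟨P, hP, hle⟩ := Ideal.exists_le_maximal _ hne
  apply hd
  have h1 : Ideal.absNorm P ∣ Ideal.absNorm (Ideal.span {D}) :=
    Ideal.absNorm_dvd_absNorm_of_le (le_sup_left.trans hle)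
  have h2 : Ideal.absNorm P ∣ Ideal.absNorm (Ideal.span {(p : 𝓞 F)}) :=
    Ideal.absNorm_dvd_absNorm_of_le (le_sup_right.trans hle)
  have h3 : Ideal.absNorm (Ideal.span {(p : 𝓞 F)}) = p ^ Module.finrank ℤ (𝓞 F) := by
    rw [Ideal.absNorm_span_singleton]
    have h4 : (p : 𝓞 F) = algebraMap ℤ (𝓞 F) (p : ℤ) := by simp
    rw [h4, Algebra.norm_algebraMap, Int.natAbs_pow, Int.natAbs_natCast]
  rw [h3, Nat.dvd_prime_pow hp] at h2
  obtain ⟨k, _, hk⟩ := h2
  refine dvd_trans ?_ h1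
  rw [hk]
  have hk0 : k ≠ 0 := by
    rintro rfl
    rw [pow_zero, Ideal.absNorm_eq_one_iff] at hk
    exact hP.ne_top hk
  exact dvd_pow_self p hk0

/-- Chunk FC2 (M). All but finitely many primes satisfy PrimeH: p ≥ 5; unramified: p does not divide the discriminant of F (NumberField.not_dvd_discr_iff_forall_mem, used in H55P/L1.lean pl1_discr; a square I^2 dividing (p) with I not a unit has a prime P, P^2 divides (p)); coprime: p does not divide the norm of Δ ≠ 0: if Δ and p are in a maximal ideal v then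
absNorm v is a power of p and divides the norm of Δ. -/
theorem prime_almost {F : Type} [Field F] [NumberField F] (W₀ : WeierstrassCurve (𝓞 F)) (h : W₀.Δ ≠ 0) :
    {p : ℕ | p.Prime ∧ ¬ PrimeH F W₀ p}.Finite := by
  have hD : (NumberField.discr F).natAbs ≠ 0 := by
    rw [Int.natAbs_ne_zero]
    exact NumberField.discr_ne_zero F
  have hN : Ideal.absNorm (Ideal.span {W₀.Δ}) ≠ 0 := by
    rw [Ne, Ideal.absNorm_eq_zero_iff, Ideal.span_singleton_eq_bot]
    exact h
  refine Set.Finite.subset ((Finset.range 5 ∪ (NumberField.discr F).natAbs.divisors ∪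
    (Ideal.absNorm (Ideal.span {W₀.Δ})).divisors).finite_toSet) ?_
  rintro p ⟨hp, hnot⟩
  rw [Finset.mem_coe, Finset.mem_union, Finset.mem_union, Finset.mem_range, Nat.mem_divisors,
    Nat.mem_divisors]
  by_contra hcon
  push Not at hcon
  obtain ⟨⟨h1, h2⟩, h3⟩ := hcon
  apply hnot
  refine ⟨hp, h1, FC2_unr hp ?_, FC2_cop hp ?_⟩
  · intro hd
    exact hD (h2 (Int.natCast_dvd.1 hd))
  · intro hd
    exact hN (h3 hd)

end H55K.TQ
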