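import Mathlib
import Pool.Agent.Lib.H13X.XF

/-! # H55K: interface: Selmer groups over the tower (part X) -/

open NumberField IsDedekindDomain WeierstrassCurve

namespace H55K.TQ

open H55P (IQ embF eF LF Per IsHecke Pt ac Inert Dec Nm UnitP)

variable {F : Type} [Field F] [NumberField F] [IQ F] {W₀ : WeierstrassCurve (𝓞 F)} {Om : ℂ}
    {m : Ideal (𝓞 F)} {ψ : Ideal (𝓞 F) →*₀ 𝓞 F} {p : ℕ}

open Classical in
/-- Part X (helper13). -/
theorem non_all (hH : BaseH F W₀ Om m ψ) (hp : PrimeH F W₀ p) {L K : IntermediateField F (AlgebraicClosure F)}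
    [NumberField L] [NumberField K] (hL : H55P.PExt p ⊥ L) (hU : H55P.UnrP p L) (hK : K ≤ L) (hN : ¬ NoAn p W₀ K) :
    H13Z.SelNon (W₀⁄F) p K := H13X.nonsel hH hp hL hU hK hN

end H55K.TQ
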