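import Mathlib
import Pool.Agent.Lib.H55K.D0

/-! # H55K: elliptic units: definitions -/

open NumberField IsDedekindDomain WeierstrassCurve

namespace H55K

open H55P (IQ embF eF LF Per IsHecke Pt ac Inert Dec Nm)
open H35P (WAB Ker tt)


variable {F : Type} [Field F] [NumberField F] [IQ F]

/-- conj w |w|^(-2s). -/
noncomputable def ff (s w : ℂ) : ℂ := (starRingEnd ℂ) w * ((‖w‖ ^ 2 : ℝ) : ℂ) ^ (-s)

/-- The second difference. -/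
noncomputable def dd (s w q : ℂ) : ℂ := ff s (w + q) + ff s (w - q) - 2 * ff s w

/-- The Eisenstein-Kronecker series. -/
noncomputable def Ff (F : Type) [Field F] [NumberField F] [IQ F] (z s : ℂ) : ℂ := ∑' x : 𝓞 F, ff s (z + eF F x)

/-- R is a system of representatives of the integers modulo b, containing 0. -/
structure Rep (b : 𝓞 F) (R : Finset (𝓞 F)) : Prop where
  zero : (0 : 𝓞 F) ∈ R
  ex : ∀ x : 𝓞 F, ∃ r ∈ R, b ∣ x - r
  un : ∀ r ∈ R, ∀ r' ∈ R, b ∣ r - r' → r = r'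

/-- h is the generator of its ideal given by the Hecke character. -/
def Prm (m : Ideal (𝓞 F)) (ψ : Ideal (𝓞 F) →*₀ 𝓞 F) (h : 𝓞 F) : Prop :=
  IsCoprime (Ideal.span {h}) m ∧ ψ (Ideal.span {h}) = h

/-- H is a system of representatives modulo μ of the h with Prm. -/
structure HRep (m : Ideal (𝓞 F)) (ψ : Ideal (𝓞 F) →*₀ 𝓞 F) (μ : 𝓞 F) (H : Finset (𝓞 F)) : Prop where
  prm : ∀ h ∈ H, Prm m ψ h
  ex : ∀ y : 𝓞 F, Prm m ψ y → ∃ h ∈ H, μ ∣ y - h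
  un : ∀ h ∈ H, ∀ h' ∈ H, μ ∣ h - h' → h = h'

/-- The value at 1 of the L-series of the conjugate of ψ, divided by the period, is a unit above l (Λ is the L-function). -/
structure LU (l : ℕ) (Om : ℂ) (ψ : Ideal (𝓞 F) →*₀ 𝓞 F) (Λ : ℂ → ℂ) : Prop where
  an : AnalyticOnNhd ℂ Λ {s | 1 / 2 < s.re}
  sum : ∀ s : ℂ, 3 / 2 < s.re → HasSum (fun J : Ideal (𝓞 F) => (starRingEnd ℂ) (eF F (ψ J)) *
    (Ideal.absNorm J : ℂ) ^ (-s)) (Λ s)
  val : ∀ V : ValuationSubring ℂ, V.valuation (l : ℂ) < 1 → V.valuation (Λ 1 / Om) = 1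

section pts

variable {A B : F} {Ω : Type} [Field Ω] [DecidableEq Ω] [Algebra F Ω]

/-- The product of the x(P) - x(Q), Q in S. -/
noncomputable def Phi (S : Finset (Pt (WAB A B) Ω)) (P : Pt (WAB A B) Ω) : Ω := ∏ Q ∈ S, (xc P - xc Q)

/-- The elliptic unit. -/
noncomputable def Xi (D S : Finset (Pt (WAB A B) Ω)) (P : Pt (WAB A B) Ω) : Ω :=
  ∏ X ∈ D, Phi S (X + P) / Phi S (X - P)

/-- The data for the elliptic units: m = (μ), a is congruent to 1 modulo M = Nm μ and to 2 modulo l, ρ is a generator of the points killed by μ,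
D is the set of the points h ρ with Prm h, S the set of the nonzero points killed by a. -/
structure UDat (Om : ℂ) (j : Ω →+* ℂ) (act : 𝓞 F →+* AddMonoid.End (Pt (WAB A B) Ω)) (m : Ideal (𝓞 F))
    (ψ : Ideal (𝓞 F) →*₀ 𝓞 F) (l : ℕ) (μ : 𝓞 F) (a : ℕ) (ρ τ : Pt (WAB A B) Ω) (H R : Finset (𝓞 F))
    (D S : Finset (Pt (WAB A B) Ω)) : Prop where
  mu : Ideal.span {μ} = m
  mu0 : μ ≠ 0
  a0 : 1 < a
  a1 : ∃ k, a = 1 + Nm μ * k
  a2 : ∃ k, a = 2 + l * k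
  cop : Nat.Coprime (Nm μ) l
  rho : act μ ρ = 0
  rhog : ∀ T, act μ T = 0 → ∃ b, T = act b ρ
  rho0 : ∀ b, act b ρ = 0 ↔ μ ∣ b
  rhox : ∀ b, ¬ μ ∣ b → j (xc (act b ρ)) = (LF F).weierstrassP (eF F b / eF F μ) / Om ^ 2 ∧
    j (yc (act b ρ)) = (LF F).derivWeierstrassP (eF F b / eF F μ) / (2 * Om ^ 3)
  hrep : HRep m ψ μ H
  rep : Rep (a : 𝓞 F) R
  memD : ∀ X, X ∈ D ↔ ∃ h, Prm m ψ h ∧ X = act h ρ
  memD' : ∀ X, X ∈ D ↔ ∃ h ∈ H, X = act h ρ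
  tau : ∀ b, act b τ = 0 ↔ (a : 𝓞 F) ∣ b
  taux : ∀ b, ¬ (a : 𝓞 F) ∣ b → j (xc (act b τ)) = (LF F).weierstrassP (eF F b / (a : ℂ)) / Om ^ 2
  memS : TN act (a : 𝓞 F) S
  memS' : ∀ Q, Q ∈ S ↔ ∃ b ∈ R, b ≠ 0 ∧ Q = act b τ

end pts

end H55K
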