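import Mathlib
import Pool.Agent.Lib.H55K.D1
import Pool.Agent.Lib.H55K.G1
import Pool.Agent.Lib.H55K.UD

/-! # H55K: elliptic units: the main theorem -/

open NumberField IsDedekindDomain WeierstrassCurve

namespace H55K

open H55P (IQ embF eF LF Per IsHecke Pt ac Inert Dec Nm)
open H35P (WAB Ker tt)


variable {F : Type} [Field F] [NumberField F] [IQ F] {A B : F} {Om : ℂ} {Ω : Type} [Field Ω] [DecidableEq Ω]
  [Algebra F Ω] {j : Ω →+* ℂ} {act : 𝓞 F →+* AddMonoid.End (Pt (WAB A B) Ω)} {m : Ideal (𝓞 F)}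
  {ψ : Ideal (𝓞 F) →*₀ 𝓞 F} {l : ℕ} {μ : 𝓞 F} {a : ℕ} {ρ τ : Pt (WAB A B) Ω} {H R : Finset (𝓞 F)}
  {D S : Finset (Pt (WAB A B) Ω)}

/-- Chunk UB10A (S/M). The finite set: the set of h.fin and the primes containing l * Nm μ * a (Ideal.finite_factors). v outside it, absNorm v = q prime, β = ψ v: v does not contain m (else Nm μ is in v), so IsCoprime v m, span {β} = v, Prm β, β prime, IsCoprime β l, β prime to a, q prime to l and Nm μ and a (q is in v), Nm β = q, q • R = 0 for R in Tor act β (tor_nm). -/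
theorem fin_set (h : Dta A B Om j act m ψ l) (hU : UDat Om j act m ψ l μ a ρ τ H R D S) :
    ∃ E : Set (HeightOneSpectrum (𝓞 F)), E.Finite ∧ ∀ v ∉ E, (Ideal.absNorm v.asIdeal).Prime →
      Prime (ψ v.asIdeal) ∧ Prm m ψ (ψ v.asIdeal) ∧ IsCoprime (ψ v.asIdeal) (a : 𝓞 F) ∧
      IsCoprime (ψ v.asIdeal) (l : 𝓞 F) ∧ Nat.Coprime (Nm (ψ v.asIdeal)) l ∧
      Nat.Coprime (Nm (ψ v.asIdeal)) (Nm μ) ∧
      (∀ V : ValuationSubring Ω, V.valuation (ak Ω (ψ v.asIdeal)) < 1 → GV A B V ∧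
        V.valuation (a : Ω) = 1) := by
  obtain ⟨S₀, hS₀, hfin⟩ := h.fin
  have hl0 : (l : 𝓞 F) ≠ 0 := Nat.cast_ne_zero.2 h.prime.ne_zero
  have hm0 : (Nm μ : 𝓞 F) ≠ 0 := Nat.cast_ne_zero.2 fun h0 => hU.mu0 (H55P.Nm_eq_zero.1 h0)
  have ha0 : (a : 𝓞 F) ≠ 0 := Nat.cast_ne_zero.2 (by have := hU.a0; omega)
  have hI : (Ideal.span {((l : 𝓞 F) * (Nm μ : 𝓞 F)) * (a : 𝓞 F)} : Ideal (𝓞 F)) ≠ 0 := by
    rw [Ideal.zero_eq_bot, Ne, Ideal.span_singleton_eq_bot]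
    exact mul_ne_zero (mul_ne_zero hl0 hm0) ha0
  refine ⟨S₀ ∪ {v | v.asIdeal ∣ Ideal.span {((l : 𝓞 F) * (Nm μ : 𝓞 F)) * (a : 𝓞 F)}},
    hS₀.union (Ideal.finite_factors hI), ?_⟩
  intro v hv hq
  rw [Set.mem_union, not_or] at hv
  obtain ⟨hv1, hv2⟩ := hv
  have hprod : ((l : 𝓞 F) * (Nm μ : 𝓞 F)) * (a : 𝓞 F) ∉ v.asIdeal := by
    intro h0
    apply hv2
    show v.asIdeal ∣ _
    rw [Ideal.dvd_span_singleton]
    exact h0
  have hlv : (l : 𝓞 F) ∉ v.asIdeal := fun h0 => hprod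
    (Ideal.mul_mem_right _ _ (Ideal.mul_mem_right _ _ h0))
  have hmv : (Nm μ : 𝓞 F) ∉ v.asIdeal := fun h0 => hprod
    (Ideal.mul_mem_right _ _ (Ideal.mul_mem_left _ _ h0))
  have hav : (a : 𝓞 F) ∉ v.asIdeal := fun h0 => hprod (Ideal.mul_mem_left _ _ h0)
  have hcop : ∀ I : Ideal (𝓞 F), ¬ I ≤ v.asIdeal → IsCoprime v.asIdeal I := by
    intro I hI
    rw [Ideal.isCoprime_iff_sup_eq]
    by_contra hne
    have h1 : v.asIdeal = v.asIdeal ⊔ I := v.isMaximal.eq_of_le hne le_sup_left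
    exact hI (le_sup_right.trans h1.symm.le)
  have hmle : ¬ m ≤ v.asIdeal := by
    intro h0
    apply hmv
    apply h0
    rw [← hU.mu, ← mul_cj μ]
    exact Ideal.mul_mem_right _ _ (Ideal.mem_span_singleton_self μ)
  have hvm := hcop m hmle
  have hspan : Ideal.span {ψ v.asIdeal} = v.asIdeal := h.hecke.gen _ hvm
  have hβ0 : ψ v.asIdeal ≠ 0 := by
    intro h0
    rw [h0, Ideal.span_singleton_eq_bot.2 rfl] at hspan
    exact v.ne_bot hspan.symm
  have hβp : Prime (ψ v.asIdeal) := by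
    rw [← Ideal.span_singleton_prime hβ0, hspan]
    exact v.isPrime
  have hNm : Nm (ψ v.asIdeal) = Ideal.absNorm v.asIdeal := by
    unfold Nm
    rw [hspan]
  have hcop1 : ∀ x : 𝓞 F, x ∉ v.asIdeal → IsCoprime (ψ v.asIdeal) x := by
    intro x hx
    rw [← Ideal.isCoprime_span_singleton_iff, hspan]
    apply hcop
    intro h0
    exact hx (h0 (Ideal.mem_span_singleton_self x))
  have hcop2 : ∀ n : ℕ, (n : 𝓞 F) ∉ v.asIdeal → Nat.Coprime (Nm (ψ v.asIdeal)) n := by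
    intro n hn
    rw [hNm, Nat.Prime.coprime_iff_not_dvd hq]
    rintro ⟨k, hk⟩
    apply hn
    rw [hk, Nat.cast_mul]
    exact Ideal.mul_mem_right _ _ (Ideal.absNorm_mem v.asIdeal)
  refine ⟨hβp, ⟨by rw [hspan]; exact hvm, by rw [hspan]⟩, hcop1 _ hav, hcop1 _ hlv, hcop2 _ hlv, hcop2 _ hmv, ?_⟩
  intro V hV
  refine ⟨hfin v hv1 V fun x hx => ?_, ?_⟩
  · rw [← hspan, Ideal.mem_span_singleton] at hx
    obtain ⟨y, rfl⟩ := hx
    have e1 : ak Ω (ψ v.asIdeal * y) = ak Ω (ψ v.asIdeal) * ak Ω y := by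
      show algebraMap F Ω (algebraMap (𝓞 F) F (ψ v.asIdeal * y)) =
        algebraMap F Ω (algebraMap (𝓞 F) F (ψ v.asIdeal)) * algebraMap F Ω (algebraMap (𝓞 F) F y)
      rw [map_mul, map_mul]
    rw [e1, map_mul]
    exact (mul_le_of_le_one_right zero_le (ak_le V y)).trans_lt hV
  · obtain ⟨u, w, huw⟩ := hcop1 _ hav
    have e2 : ak Ω u * ak Ω (ψ v.asIdeal) + ak Ω w * (a : Ω) = 1 := by
      have e3 := congrArg (fun t => algebraMap F Ω (algebraMap (𝓞 F) F t)) huw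
      simp only [map_add, map_mul, map_natCast, map_one] at e3
      exact e3
    have h1 : V.valuation (a : Ω) ≤ 1 := by
      have h2 := ak_le V (a : 𝓞 F)
      have e4 : ak Ω (a : 𝓞 F) = (a : Ω) := by
        show algebraMap F Ω (algebraMap (𝓞 F) F (a : 𝓞 F)) = _
        rw [map_natCast, map_natCast]
      rwa [e4] at h2
    refine le_antisymm h1 (not_lt.1 fun h3 => ?_)
    have h4 : V.valuation (ak Ω u * ak Ω (ψ v.asIdeal) + ak Ω w * (a : Ω)) < 1 := by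
      refine (V.valuation.map_add _ _).trans_lt (max_lt ?_ ?_)
      · rw [map_mul]
        exact (mul_le_of_le_one_left zero_le (ak_le V u)).trans_lt hV
      · rw [map_mul]
        exact (mul_le_of_le_one_left zero_le (ak_le V w)).trans_lt h3
    rw [e2, map_one] at h4
    exact lt_irrefl _ h4

end H55K
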