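import Mathlib
import Pool.Agent.Lib.H55K.UD

/-! # H55K: elliptic units: the data exist -/

open NumberField IsDedekindDomain WeierstrassCurve

namespace H55K

open H55P (IQ embF eF LF Per IsHecke Pt ac Inert Dec Nm)
open H35P (WAB Ker tt)


variable {F : Type} [Field F] [NumberField F] [IQ F] {A B : F} {Om : ℂ} {Ω : Type} [Field Ω] [DecidableEq Ω]
  [Algebra F Ω] {j : Ω →+* ℂ} {act : 𝓞 F →+* AddMonoid.End (Pt (WAB A B) Ω)} {m : Ideal (𝓞 F)}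
  {ψ : Ideal (𝓞 F) →*₀ 𝓞 F} {l : ℕ} {μ : 𝓞 F} {a : ℕ} {ρ τ : Pt (WAB A B) Ω} {H R : Finset (𝓞 F)}
  {D S : Finset (Pt (WAB A B) Ω)}

omit [IQ F] in
/-- Representatives of the classes which contain an element with the property Pr. -/
theorem ub1a_reps (b : 𝓞 F) (hb : b ≠ 0) (Pr : 𝓞 F → Prop) : ∃ H : Finset (𝓞 F), (∀ h ∈ H, Pr h) ∧
    (∀ y : 𝓞 F, Pr y → ∃ h ∈ H, b ∣ y - h) ∧ (∀ h ∈ H, ∀ h' ∈ H, b ∣ h - h' → h = h') := by
  classical
  have hne : (Ideal.span {b} : Ideal (𝓞 F)) ≠ ⊥ := by rwa [Ne, Ideal.span_singleton_eq_bot]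
  have hfin : Finite (𝓞 F ⧸ (Ideal.span {b} : Ideal (𝓞 F))) := Ideal.finiteQuotientOfFreeOfNeBot _ hne
  let Cl := {c : 𝓞 F ⧸ (Ideal.span {b} : Ideal (𝓞 F)) // ∃ h, Pr h ∧ Ideal.Quotient.mk _ h = c}
  have hfc : Finite Cl := inferInstance
  let _ := Fintype.ofFinite Cl
  let g : Cl → 𝓞 F := fun c => c.2.choose
  have hg1 : ∀ c, Pr (g c) := fun c => c.2.choose_spec.1
  have hg2 : ∀ c : Cl, Ideal.Quotient.mk _ (g c) = c.1 := fun c => c.2.choose_spec.2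
  have hdv : ∀ x y : 𝓞 F, b ∣ x - y ↔ Ideal.Quotient.mk (Ideal.span {b} : Ideal (𝓞 F)) x = Ideal.Quotient.mk _ y := by
    intro x y
    rw [Ideal.Quotient.eq, Ideal.mem_span_singleton]
  refine ⟨Finset.univ.image g, ?_, ?_, ?_⟩
  · intro h hh
    obtain ⟨c, -, rfl⟩ := Finset.mem_image.1 hh
    exact hg1 c
  · intro y hy
    refine ⟨g ⟨Ideal.Quotient.mk _ y, y, hy, rfl⟩, Finset.mem_image.2 ⟨_, Finset.mem_univ _, rfl⟩, ?_⟩
    rw [hdv, hg2]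
  · intro h hh h' hh' hd
    obtain ⟨c, -, rfl⟩ := Finset.mem_image.1 hh
    obtain ⟨c', -, rfl⟩ := Finset.mem_image.1 hh'
    rw [hdv, hg2, hg2] at hd
    rw [Subtype.ext hd]

/-- Chunk UB1A (S/M). Representatives: the quotient 𝓞 F ⧸ span {b} is finite; choose 0 for the zero class and any element of the other classes. -/
theorem exists_Rep (F : Type) [Field F] [NumberField F] [IQ F] (b : 𝓞 F) (hb : b ≠ 0) : ∃ R, Rep b R := by
  classical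
  obtain ⟨H, h1, h2, h3⟩ := ub1a_reps b hb (fun x => x = 0 ∨ ¬ b ∣ x)
  have h0 : (0 : 𝓞 F) ∈ H := by
    obtain ⟨h, hh, hd⟩ := h2 0 (Or.inl rfl)
    rcases h1 h hh with h4 | h4
    · rwa [h4] at hh
    · rw [zero_sub, dvd_neg] at hd
      exact absurd hd h4
  refine ⟨H, h0, ?_, h3⟩
  intro x
  by_cases hx : b ∣ x
  · exact ⟨0, h0, by rwa [sub_zero]⟩
  · exact h2 x (Or.inr hx)

/-- Chunk UB1A. Choose one h in each class modulo μ which contains some h with Prm. -/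
theorem exists_HRep (m : Ideal (𝓞 F)) (ψ : Ideal (𝓞 F) →*₀ 𝓞 F) (μ : 𝓞 F) (hμ : μ ≠ 0) :
    ∃ H, HRep m ψ μ H := by
  obtain ⟨H, h1, h2, h3⟩ := ub1a_reps μ hμ (Prm m ψ)
  exact ⟨H, h1, h2, h3⟩

end H55K
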