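import Mathlib
import Pool.Agent.Lib.H55K.D1
import Pool.Agent.Lib.H55K.UB1A

/-! # H55K: elliptic units: the data exist -/

open NumberField IsDedekindDomain WeierstrassCurve

namespace H55K

open H55P (IQ embF eF LF Per IsHecke Pt ac Inert Dec Nm)
open H35P (WAB Ker tt)


variable {F : Type} [Field F] [NumberField F] [IQ F] {A B : F} {Om : ℂ} {Ω : Type} [Field Ω] [DecidableEq Ω]
  [Algebra F Ω] {j : Ω →+* ℂ} {act : 𝓞 F →+* AddMonoid.End (Pt (WAB A B) Ω)} {m : Ideal (𝓞 F)}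
  {ψ : Ideal (𝓞 F) →*₀ 𝓞 F} {l : ℕ} {μ : 𝓞 F} {a : ℕ} {ρ τ : Pt (WAB A B) Ω} {H R : Finset (𝓞 F)}
  {D S : Finset (Pt (WAB A B) Ω)}

theorem ub1b_cop {l : ℕ} (hl : l.Prime) {μ : 𝓞 F} (hc : IsCoprime μ (l : 𝓞 F)) : Nat.Coprime (Nm μ) l := by
  rw [Nat.coprime_comm, Nat.Prime.coprime_iff_not_dvd hl]
  intro hd
  have h1 : IsCoprime (cj μ) (l : 𝓞 F) := by
    obtain ⟨u, w, huw⟩ := hc
    refine ⟨cj u, cj w, ?_⟩
    have h2 := congrArg cj huw
    rwa [map_add, map_mul, map_mul, map_one, cj_nat] at h2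
  have h2 : IsCoprime (μ * cj μ) (l : 𝓞 F) := IsCoprime.mul_left hc h1
  rw [mul_cj] at h2
  obtain ⟨k, hk⟩ := hd
  rw [hk, Nat.cast_mul] at h2
  have h3 : IsUnit (l : 𝓞 F) := isCoprime_self.1 (IsCoprime.of_mul_left_left h2)
  obtain ⟨x, hx⟩ := h3.exists_right_inv
  have h4 : Nm ((l : 𝓞 F) * x) = Nm ((1 : ℕ) : 𝓞 F) := by rw [hx, Nat.cast_one]
  rw [Nm_mul, Nm_nat, Nm_nat, one_pow] at h4
  have h5 : l ^ 2 ∣ 1 := ⟨_, h4.symm⟩
  have h6 := hl.two_le
  have h7 := Nat.le_of_dvd one_pos h5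
  nlinarith

theorem ub1b_crt {M l : ℕ} (hM : M ≠ 0) (hl : 5 ≤ l) (hc : Nat.Coprime M l) :
    ∃ a : ℕ, 1 < a ∧ (∃ k, a = 1 + M * k) ∧ ∃ k, a = 2 + l * k := by
  obtain ⟨k, hk1, hk2⟩ := Nat.chineseRemainder hc 1 2
  have hM1 : 1 ≤ M := Nat.one_le_iff_ne_zero.2 hM
  have hML : 5 ≤ M * l := by nlinarith
  refine ⟨k + M * l, by omega, ?_, ?_⟩
  · have h1 : 1 ≡ k + M * l [MOD M] := by
      refine hk1.symm.trans ?_
      rw [Nat.ModEq, Nat.add_mul_mod_self_left]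
    obtain ⟨c, hc⟩ := (Nat.modEq_iff_dvd' (by omega)).1 h1
    exact ⟨c, by omega⟩
  · have h1 : 2 ≡ k + M * l [MOD l] := by
      refine hk2.symm.trans ?_
      rw [Nat.ModEq, Nat.add_mul_mod_self_right]
    obtain ⟨c, hc⟩ := (Nat.modEq_iff_dvd' (by omega)).1 h1
    exact ⟨c, by omega⟩

omit [NumberField F] [IQ F] in
theorem ub1b_sub {act : 𝓞 F →+* AddMonoid.End (Pt (WAB A B) Ω)} {x y : 𝓞 F} {T : Pt (WAB A B) Ω} (h : act (x - y) T = 0) :
    act x T = act y T := by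
  have h1 : act x T = act (x - y) T + act y T := by
    have h2 : act x = act (x - y) + act y := by rw [← map_add, sub_add_cancel]
    rw [h2]
    rfl
  rw [h1, h, zero_add]

omit [NumberField F] [IQ F] in
theorem ub1b_comm {act : 𝓞 F →+* AddMonoid.End (Pt (WAB A B) Ω)} (x y : 𝓞 F) (T : Pt (WAB A B) Ω) :
    act x (act y T) = act y (act x T) := by
  have e1 : act (x * y) = act (y * x) := by rw [mul_comm]
  rw [map_mul, map_mul] at e1
  exact congrArg (fun φ : AddMonoid.End (Pt (WAB A B) Ω) => φ T) e1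

/-- Chunk UB1B (M). μ: 𝓞 F is a principal ideal domain (instPIDF), m ≠ bottom (hecke.ne). Nm μ and l are coprime: otherwise l divides Nm μ; h.cop: u μ + w l = 1, Nm (u μ) = (1 - w l)(1 - cj (w l)) (mul_cj, Nm_mul), so l divides 1 in 𝓞 F, Nm_nat. a: the Chinese remainder theorem for naturals
(Nat.chineseRemainder), plus a multiple of Nm μ * l to get a > 1 and a ≥ 2 + .. so that the naturals k exist. ρ, τ: h.cma.gen for μ and for (a : 𝓞 F) (map_natCast). H, R from exists_HRep, exists_Rep; D = image of H under act · ρ, S = image of R.erase 0 under act · τ (classical). memD: if Prm h then h is congruent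
to an element of H modulo μ, act (h - h') ρ = 0. memS: act a Q = 0, Q ≠ 0: Q = act b τ by gen, b replaced by its representative, which is not 0. -/
theorem exists_UDat (h : Dta A B Om j act m ψ l) : ∃ (μ : 𝓞 F) (a : ℕ) (ρ τ : Pt (WAB A B) Ω)
    (H R : Finset (𝓞 F)) (D S : Finset (Pt (WAB A B) Ω)), UDat Om j act m ψ l μ a ρ τ H R D S := by
  classical
  obtain ⟨μ, hμ'⟩ := (IsPrincipalIdealRing.principal m).principal
  have hμ : Ideal.span {μ} = m := hμ'.symm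
  have hμ0 : μ ≠ 0 := by
    rintro rfl
    apply h.hecke.ne
    rw [← hμ]
    simp
  have hcop : Nat.Coprime (Nm μ) l := by
    apply ub1b_cop h.prime
    have h1 := h.cop
    rwa [← hμ, Ideal.isCoprime_span_singleton_iff] at h1
  have hNm : Nm μ ≠ 0 := fun h0 => hμ0 (H55P.Nm_eq_zero.1 h0)
  obtain ⟨a, ha1, ha2, ha3⟩ := ub1b_crt hNm h.five hcop
  have ha0 : (a : 𝓞 F) ≠ 0 := Nat.cast_ne_zero.2 (by omega)
  obtain ⟨ρ, hρ1, hρ2, hρ3, hρ4⟩ := h.cma.gen μ hμ0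
  obtain ⟨τ, hτ1, hτ2, hτ3, hτ4⟩ := h.cma.gen (a : 𝓞 F) ha0
  have hρ1' : act μ ρ = 0 := hρ1
  have hτ1' : act (a : 𝓞 F) τ = 0 := hτ1
  obtain ⟨H, hH⟩ := exists_HRep m ψ μ hμ0
  obtain ⟨R, hR⟩ := exists_Rep F (a : 𝓞 F) ha0
  have hD : ∀ X, X ∈ H.image (fun h => act h ρ) ↔ ∃ h ∈ H, X = act h ρ := by
    intro X
    rw [Finset.mem_image]
    exact exists_congr fun h => and_congr_right fun _ => eq_comm
  have hS : ∀ Q, Q ∈ (R.erase 0).image (fun b => act b τ) ↔ ∃ b ∈ R, b ≠ 0 ∧ Q = act b τ := by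
    intro Q
    rw [Finset.mem_image]
    constructor
    · rintro ⟨b, hb, rfl⟩
      rw [Finset.mem_erase] at hb
      exact ⟨b, hb.2, hb.1, rfl⟩
    · rintro ⟨b, hb, hb0, rfl⟩
      exact ⟨b, Finset.mem_erase.2 ⟨hb0, hb⟩, rfl⟩
  refine ⟨μ, a, ρ, τ, H, R, H.image (fun h => act h ρ), (R.erase 0).image (fun b => act b τ), ?_⟩
  refine
    { mu := hμ
      mu0 := hμ0
      a0 := ha1
      a1 := ha2
      a2 := ha3
      cop := hcop
      rho := hρ1'
      rhog := fun T hT => hρ2 T hT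
      rho0 := hρ3
      rhox := hρ4
      hrep := hH
      rep := hR
      memD := ?_
      memD' := hD
      tau := hτ3
      taux := ?_
      memS := ?_
      memS' := hS }
  · intro X
    rw [hD]
    constructor
    · rintro ⟨y, hy, rfl⟩
      exact ⟨y, hH.prm y hy, rfl⟩
    · rintro ⟨y, hy, rfl⟩
      obtain ⟨z, hz, hd⟩ := hH.ex y hy
      exact ⟨z, hz, ub1b_sub ((hρ3 _).2 hd)⟩
  · intro b hb
    have h1 := (hτ4 b hb).1
    rwa [map_natCast] at h1
  · intro T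
    rw [hS]
    constructor
    · rintro ⟨b, hb, hb0, rfl⟩
      refine ⟨?_, ?_⟩
      · rw [ub1b_comm, hτ1', map_zero]
      · intro h0
        apply hb0
        apply hR.un b hb 0 hR.zero
        rw [sub_zero]
        exact (hτ3 b).1 h0
    · rintro ⟨h1, h2⟩
      obtain ⟨b, rfl⟩ := hτ2 T h1
      obtain ⟨r, hr, hd⟩ := hR.ex b
      have h3 : act b τ = act r τ := ub1b_sub ((hτ3 _).2 hd)
      refine ⟨r, hr, ?_, h3⟩
      rintro rfl
      apply h2
      rw [h3, map_zero]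
      rfl

end H55K
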