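import Mathlib
import Pool.Agent.Lib.H55K.D1
import Pool.Agent.Lib.H55K.E0
import Pool.Agent.Lib.H55K.UD

/-! # H55K: elliptic units: first facts -/

open NumberField IsDedekindDomain WeierstrassCurve

namespace H55K

open H55P (IQ embF eF LF Per IsHecke Pt ac Inert Dec Nm)
open H35P (WAB Ker tt)


variable {F : Type} [Field F] [NumberField F] [IQ F] {A B : F} {Om : ℂ} {Ω : Type} [Field Ω] [DecidableEq Ω]
  [Algebra F Ω] {j : Ω →+* ℂ} {act : 𝓞 F →+* AddMonoid.End (Pt (WAB A B) Ω)} {m : Ideal (𝓞 F)}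
  {ψ : Ideal (𝓞 F) →*₀ 𝓞 F} {l : ℕ} {μ : 𝓞 F} {a : ℕ} {ρ τ : Pt (WAB A B) Ω} {H R : Finset (𝓞 F)}
  {D S : Finset (Pt (WAB A B) Ω)}

omit [NumberField F] [IQ F] in
theorem ub2_nsmul (act : 𝓞 F →+* AddMonoid.End (Pt (WAB A B) Ω)) (n : ℕ) (P : Pt (WAB A B) Ω) :
    n • P = act (n : 𝓞 F) P := by
  rw [map_natCast, AddMonoid.End.natCast_apply]

omit [NumberField F] [IQ F] in
theorem ub2_mul (act : 𝓞 F →+* AddMonoid.End (Pt (WAB A B) Ω)) (x y : 𝓞 F) (P : Pt (WAB A B) Ω) :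
    act x (act y P) = act (x * y) P := by
  rw [map_mul]
  rfl

omit [NumberField F] [IQ F] in
theorem ub2_sub (act : 𝓞 F →+* AddMonoid.End (Pt (WAB A B) Ω)) (x y : 𝓞 F) (P : Pt (WAB A B) Ω) :
    act (x - y) P = act x P - act y P := by
  rw [map_sub]
  rfl

omit [NumberField F] [IQ F] in
theorem ub2_add (act : 𝓞 F →+* AddMonoid.End (Pt (WAB A B) Ω)) (x y : 𝓞 F) (P : Pt (WAB A B) Ω) :
    act (x + y) P = act x P + act y P := by
  rw [map_add]
  rfl

omit [NumberField F] [IQ F] in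
theorem ub2_one (act : 𝓞 F →+* AddMonoid.End (Pt (WAB A B) Ω)) (P : Pt (WAB A B) Ω) :
    act 1 P = P := by
  rw [map_one]
  rfl

omit [NumberField F] [IQ F] in
theorem ub2_cop (act : 𝓞 F →+* AddMonoid.End (Pt (WAB A B) Ω)) {x y : 𝓞 F} (h : IsCoprime x y)
    {P : Pt (WAB A B) Ω} (hx : act x P = 0) (hy : act y P = 0) : P = 0 := by
  obtain ⟨u, v, huv⟩ := h
  rw [← ub2_one act P, ← huv, ub2_add, ← ub2_mul, ← ub2_mul, hx, hy, map_zero, map_zero, add_zero]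

theorem ub2_perm {α M : Type} [CommMonoid M] (D : Finset α) (g : α → α) (hm : ∀ x ∈ D, g x ∈ D)
    (hi : Set.InjOn g (D : Set α)) (f : α → M) : ∏ X ∈ D, f (g X) = ∏ X ∈ D, f X := by
  classical
  have h1 : D.image g = D :=
    Finset.eq_of_subset_of_card_le (Finset.image_subset_iff.2 hm) (Finset.card_image_of_injOn hi).ge
  conv_rhs => rw [← h1]
  rw [Finset.prod_image hi]

/-- Chunk UB2 (S/M). X = act h ρ; if X = 0 then μ divides h, but h is prime to m = span {μ} ≠ top (hecke.ntop). -/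
theorem D_ne (h : Dta A B Om j act m ψ l) (hU : UDat Om j act m ψ l μ a ρ τ H R D S) {X : Pt (WAB A B) Ω}
    (hX : X ∈ D) : X ≠ 0 ∧ Nm μ • X = 0 := by
  obtain ⟨x, hx, rfl⟩ := (hU.memD X).1 hX
  constructor
  · intro h0
    have h1 := (hU.rho0 x).1 h0
    have h2 := hx.1
    rw [Ideal.isCoprime_iff_sup_eq] at h2
    apply h.hecke.ntop
    rw [eq_top_iff, ← h2]
    refine sup_le ?_ le_rfl
    rw [← hU.mu]
    exact Ideal.span_singleton_le_span_singleton.2 h1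
  · rw [ub2_nsmul act, ub2_mul, hU.rho0, ← mul_cj]
    exact ⟨cj μ * x, by ring⟩

/-- Chunk UB2. -/
theorem S_ne (hU : UDat Om j act m ψ l μ a ρ τ H R D S) {Q : Pt (WAB A B) Ω} (hQ : Q ∈ S) :
    Q ≠ 0 ∧ a • Q = 0 := by
  have h1 := (hU.memS Q).1 hQ
  exact ⟨h1.2, by rw [ub2_nsmul act]; exact h1.1⟩

/-- Chunk UB2. Prm is multiplicative (ψ is multiplicative, span_singleton_mul_span_singleton). -/
theorem Prm_mul {x y : 𝓞 F} (hx : Prm m ψ x) (hy : Prm m ψ y) : Prm m ψ (x * y) := by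
  refine ⟨?_, ?_⟩
  · rw [← Ideal.span_singleton_mul_span_singleton]
    exact IsCoprime.mul_left hx.1 hy.1
  · rw [← Ideal.span_singleton_mul_span_singleton, map_mul, hx.2, hy.2]

theorem Prm_one : Prm m ψ (1 : 𝓞 F) := by
  have h1 : Ideal.span {(1 : 𝓞 F)} = 1 := by
    rw [Ideal.one_eq_top]
    exact Ideal.span_singleton_one
  refine ⟨?_, ?_⟩
  · rw [h1]
    exact isCoprime_one_left
  · rw [h1, map_one]

/-- Chunk UB2. act β maps D to itself and is injective on the points killed by μ (β is prime to m): a permutation of the finite set D (Finset.prod_bij / surj_on_of_inj_on). -/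
theorem prod_D (hU : UDat Om j act m ψ l μ a ρ τ H R D S) {β : 𝓞 F} (hβ : Prm m ψ β)
    (f : Pt (WAB A B) Ω → Ω) : ∏ X ∈ D, f (act β X) = ∏ X ∈ D, f X := by
  refine ub2_perm D (fun X => act β X) ?_ ?_ f
  · intro X hX
    obtain ⟨x, hx, rfl⟩ := (hU.memD X).1 hX
    exact (hU.memD _).2 ⟨β * x, Prm_mul hβ hx, ub2_mul act _ _ _⟩
  · intro X hX Y hY hXY
    obtain ⟨x, hx, rfl⟩ := (hU.memD X).1 hX
    obtain ⟨y, hy, rfl⟩ := (hU.memD Y).1 hY
    have h1 : act (β * (x - y)) ρ = 0 := by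
      rw [← ub2_mul, ub2_sub, map_sub]
      exact sub_eq_zero.2 hXY
    have h2 := (hU.rho0 _).1 h1
    have h3 : IsCoprime β μ := by
      rw [← Ideal.isCoprime_span_singleton_iff, hU.mu]
      exact hβ.1
    have h4 : μ ∣ x - y := h3.symm.dvd_of_dvd_mul_left h2
    have h5 := (hU.rho0 _).2 h4
    rw [ub2_sub] at h5
    exact sub_eq_zero.1 h5

/-- Chunk UB2. The same for S and β prime to a. -/
theorem prod_S (hU : UDat Om j act m ψ l μ a ρ τ H R D S) {β : 𝓞 F} (hβ : IsCoprime β (a : 𝓞 F))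
    (f : Pt (WAB A B) Ω → Ω) : ∏ Q ∈ S, f (act β Q) = ∏ Q ∈ S, f Q := by
  have hk : ∀ T : Pt (WAB A B) Ω, act (a : 𝓞 F) T = 0 → act β T = 0 → T = 0 := fun T h1 h2 =>
    ub2_cop act hβ h2 h1
  refine ub2_perm S (fun X => act β X) ?_ ?_ f
  · intro Q hQ
    have h1 := (hU.memS Q).1 hQ
    refine (hU.memS _).2 ⟨?_, ?_⟩
    · rw [ub2_mul, mul_comm, ← ub2_mul, h1.1, map_zero]
    · intro h2
      exact h1.2 (hk Q h1.1 h2)
  · intro X hX Y hY hXY
    have h1 := (hU.memS X).1 hX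
    have h2 := (hU.memS Y).1 hY
    refine sub_eq_zero.1 (hk _ ?_ ?_)
    · rw [map_sub, h1.1, h2.1, sub_zero]
    · rw [map_sub]
      exact sub_eq_zero.2 hXY

/-- Chunk UB2. S is stable under the negation. -/
theorem prod_neg {β : 𝓞 F} {S' : Finset (Pt (WAB A B) Ω)} (hS : TN act β S') (f : Pt (WAB A B) Ω → Ω) :
    ∏ Q ∈ S', f (-Q) = ∏ Q ∈ S', f Q := by
  refine ub2_perm S' (fun X => -X) ?_ ?_ f
  · intro Q hQ
    have h1 := (hS Q).1 hQ
    refine (hS _).2 ⟨?_, neg_ne h1.2⟩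
    rw [map_neg, h1.1, neg_zero]
  · intro X _ Y _ hXY
    exact neg_injective hXY

/-- Chunk UB2. A point of order prime to n killed by n is 0. -/
theorem cop_zero {G : Type} [AddCommGroup G] {a b : ℕ} (hab : Nat.Coprime a b) {x : G} (ha : a • x = 0)
    (hb : b • x = 0) : x = 0 := by
  have h1 := Nat.dvd_gcd (addOrderOf_dvd_of_nsmul_eq_zero ha) (addOrderOf_dvd_of_nsmul_eq_zero hb)
  rw [hab.gcd_eq_one, Nat.dvd_one, AddMonoid.addOrderOf_eq_one_iff] at h1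
  exact h1

end H55K
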