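import Mathlib
import Pool.Agent.Lib.H55K.UB2

/-! # H55K: elliptic units: the norm relation -/

open NumberField IsDedekindDomain WeierstrassCurve

namespace H55K

open H55P (IQ embF eF LF Per IsHecke Pt ac Inert Dec Nm)
open H35P (WAB Ker tt)


variable {F : Type} [Field F] [NumberField F] [IQ F] {A B : F} {Om : ℂ} {Ω : Type} [Field Ω] [DecidableEq Ω]
  [Algebra F Ω] {j : Ω →+* ℂ} {act : 𝓞 F →+* AddMonoid.End (Pt (WAB A B) Ω)} {m : Ideal (𝓞 F)}
  {ψ : Ideal (𝓞 F) →*₀ 𝓞 F} {l : ℕ} {μ : 𝓞 F} {a : ℕ} {ρ τ : Pt (WAB A B) Ω} {H R : Finset (𝓞 F)}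
  {D S : Finset (Pt (WAB A B) Ω)}

/-- Chunk UB5A (M). e2 for b = β and Y = Q in S (act β Q ≠ 0 since β is prime to a), product over Q; prod_S gives Phi S (act β X) = product over Q of (xc (act β X) - xc (act β Q)). C = product over Q of β^2 * prod over R of (xc R - xc Q) is not 0: xc R = xc Q would give R = Q or R = -Q (xc_eq), killed by β and a. -/
theorem Phi_dist (h : Dta A B Om j act m ψ l) (hU : UDat Om j act m ψ l μ a ρ τ H R D S) {β : 𝓞 F}
    (hβ : β ≠ 0) (hβa : IsCoprime β (a : 𝓞 F)) {S' : Finset (Pt (WAB A B) Ω)} (hS : TN act β S') :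
    ∃ C : Ω, C ≠ 0 ∧ ∀ X : Pt (WAB A B) Ω, act β X ≠ 0 →
      Phi S X * ∏ Q ∈ S', Phi S (X + Q) = C * Phi S (act β X) := by
  have hne : ∀ Q ∈ S, act β Q ≠ 0 := by
    intro Q hQ h0
    have h1 := (hU.memS Q).1 hQ
    exact h1.2 (ub2_cop act hβa h0 h1.1)
  have hβΩ : ak Ω β ≠ 0 := by
    intro h0
    apply hβ
    have h1 : (β : F) = 0 := (algebraMap F Ω).injective (by rw [map_zero]; exact h0)
    exact RingOfIntegers.coe_injective (h1.trans (map_zero (algebraMap (𝓞 F) F)).symm)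
  refine ⟨∏ Q ∈ S, (ak Ω β ^ 2 * ∏ R ∈ S', (xc R - xc Q)), ?_, ?_⟩
  · rw [Finset.prod_ne_zero_iff]
    intro Q hQ
    refine mul_ne_zero (pow_ne_zero 2 hβΩ) ?_
    rw [Finset.prod_ne_zero_iff]
    intro R hR h0
    have h1 := (hU.memS Q).1 hQ
    have h2 := (hS R).1 hR
    rcases xc_eq h2.2 h1.2 (sub_eq_zero.1 h0) with h3 | h3
    · rw [h3] at h2
      exact hne Q hQ h2.1
    · rw [h3, map_neg, neg_eq_zero] at h2
      exact hne Q hQ h2.1
  · intro X hX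
    have h1 : ∏ Q ∈ S, (ak Ω β ^ 2 * (xc (act β X) - xc (act β Q)) * ∏ R ∈ S', (xc R - xc Q)) =
        ∏ Q ∈ S, ((xc X - xc Q) * ∏ R ∈ S', (xc (X + R) - xc Q)) :=
      Finset.prod_congr rfl fun Q hQ => h.cma.e2 β S' hβ hS X Q hX (hne Q hQ)
    have h2 : ∏ Q ∈ S, (xc (act β X) - xc (act β Q)) = Phi S (act β X) :=
      prod_S hU hβa (fun T => xc (act β X) - xc T)
    rw [Finset.prod_mul_distrib (g := fun Q => ∏ R ∈ S', (xc (X + R) - xc Q)),
      Finset.prod_comm] at h1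
    unfold Phi at h2 ⊢
    rw [← h1, ← h2, ← Finset.prod_mul_distrib]
    refine Finset.prod_congr rfl fun Q _ => ?_
    ring

end H55K
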