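import Mathlib
import Pool.Agent.Lib.H55K.UB5A

/-! # H55K: elliptic units: the norm relation -/

open NumberField IsDedekindDomain WeierstrassCurve

namespace H55K

open H55P (IQ embF eF LF Per IsHecke Pt ac Inert Dec Nm)
open H35P (WAB Ker tt)


variable {F : Type} [Field F] [NumberField F] [IQ F] {A B : F} {Om : ℂ} {Ω : Type} [Field Ω] [DecidableEq Ω]
  [Algebra F Ω] {j : Ω →+* ℂ} {act : 𝓞 F →+* AddMonoid.End (Pt (WAB A B) Ω)} {m : Ideal (𝓞 F)}
  {ψ : Ideal (𝓞 F) →*₀ 𝓞 F} {l : ℕ} {μ : 𝓞 F} {a : ℕ} {ρ τ : Pt (WAB A B) Ω} {H R : Finset (𝓞 F)}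
  {D S : Finset (Pt (WAB A B) Ω)}

/-- Chunk UB5B (M). Phi_dist for X₀ + T and X₀ - T, X₀ in D: act β (X₀ ± T) ≠ 0, otherwise Nm μ * β kills T and so does l (D_ne; IsCoprime β l, hU.cop). prod over S' of Phi S (X₀ - T - R) = prod of Phi S (X₀ - T + R) (prod_neg). C cancels, prod_D. -/
theorem Xi_norm (h : Dta A B Om j act m ψ l) (hU : UDat Om j act m ψ l μ a ρ τ H R D S) {β : 𝓞 F}
    (hβ : β ≠ 0) (hP : Prm m ψ β) (hβa : IsCoprime β (a : 𝓞 F)) (hβl : IsCoprime β (l : 𝓞 F))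
    {S' : Finset (Pt (WAB A B) Ω)} (hS : TN act β S') {T : Pt (WAB A B) Ω} (hT : l • T = 0) (h0 : T ≠ 0) :
    Xi D S T * ∏ Q ∈ S', Xi D S (T + Q) = Xi D S (act β T) := by
  obtain ⟨C, hC, hCX⟩ := Phi_dist h hU hβ hβa hS
  have hlμ : IsCoprime μ (l : 𝓞 F) := by
    rw [← Ideal.isCoprime_span_singleton_iff, hU.mu]
    exact h.cop
  have hlμ' : IsCoprime (cj μ) (l : 𝓞 F) := by
    obtain ⟨u, v, huv⟩ := hlμ
    refine ⟨cj u, cj v, ?_⟩
    have h1 := congrArg cj huv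
    rwa [map_add, map_mul, map_mul, cj_nat, map_one] at h1
  have hcop : IsCoprime (β * (Nm μ : 𝓞 F)) (l : 𝓞 F) := by
    rw [← mul_cj]
    exact IsCoprime.mul_left hβl (IsCoprime.mul_left hlμ hlμ')
  have hT' : act (l : 𝓞 F) T = 0 := by
    rw [← ub2_nsmul]
    exact hT
  have hne : ∀ X ∈ D, ∀ Y : Pt (WAB A B) Ω, act (l : 𝓞 F) Y = 0 → Y ≠ 0 → act β (X + Y) ≠ 0 := by
    intro X hX Y hY hY0 h0
    apply hY0
    have h1 := (D_ne h hU hX).2
    rw [ub2_nsmul act] at h1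
    refine ub2_cop act hcop ?_ hY
    have h2 : act (β * (Nm μ : 𝓞 F)) (X + Y) = 0 := by
      rw [mul_comm, ← ub2_mul, h0, map_zero]
    rw [map_add, ← ub2_mul act _ _ X, h1, map_zero, zero_add] at h2
    exact h2
  have hmain : ∀ X ∈ D, (Phi S (X + T) / Phi S (X - T)) * ∏ Q ∈ S', (Phi S (X + (T + Q)) /
      Phi S (X - (T + Q))) = Phi S (act β X + act β T) / Phi S (act β X - act β T) := by
    intro X hX
    have h1 := hCX (X + T) (hne X hX T hT' h0)
    have h2 := hCX (X - T) (by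
      rw [sub_eq_add_neg]
      exact hne X hX (-T) (by rw [map_neg, hT', neg_zero]) (neg_ne h0))
    have h3 : ∏ Q ∈ S', Phi S (X - (T + Q)) = ∏ Q ∈ S', Phi S (X - T + Q) := by
      rw [← prod_neg hS]
      refine Finset.prod_congr rfl fun Q _ => ?_
      congr 1
      abel
    have h4 : ∏ Q ∈ S', Phi S (X + (T + Q)) = ∏ Q ∈ S', Phi S (X + T + Q) := by
      refine Finset.prod_congr rfl fun Q _ => ?_
      rw [add_assoc]
    rw [Finset.prod_div_distrib, h3, h4, div_mul_div_comm, h1, h2, map_add, map_sub,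
      mul_div_mul_left _ _ hC]
  have hD := prod_D hU hP (fun Y => Phi S (Y + act β T) / Phi S (Y - act β T))
  unfold Xi
  rw [← hD, Finset.prod_comm, ← Finset.prod_mul_distrib]
  exact Finset.prod_congr rfl hmain

end H55K
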