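import Mathlib
import Pool.Agent.Lib.H55K.UB2

/-! # H55K: elliptic units: they are units -/

open NumberField IsDedekindDomain WeierstrassCurve

namespace H55K

open H55P (IQ embF eF LF Per IsHecke Pt ac Inert Dec Nm)
open H35P (WAB Ker tt)


variable {F : Type} [Field F] [NumberField F] [IQ F] {A B : F} {Om : ℂ} {Ω : Type} [Field Ω] [DecidableEq Ω]
  [Algebra F Ω] {j : Ω →+* ℂ} {act : 𝓞 F →+* AddMonoid.End (Pt (WAB A B) Ω)} {m : Ideal (𝓞 F)}
  {ψ : Ideal (𝓞 F) →*₀ 𝓞 F} {l : ℕ} {μ : 𝓞 F} {a : ℕ} {ρ τ : Pt (WAB A B) Ω} {H R : Finset (𝓞 F)}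
  {D S : Finset (Pt (WAB A B) Ω)}

omit [NumberField F] [IQ F] in
theorem ub6a_dvd {G : Type} [AddCommGroup G] {a N : ℕ} {x : G} (hx : a • x = 0) (h : a ∣ N) : N • x = 0 := by
  obtain ⟨c, rfl⟩ := h
  rw [mul_comm, mul_smul, hx, smul_zero]

theorem ub6a_cop (h : Dta A B Om j act m ψ l) (hU : UDat Om j act m ψ l μ a ρ τ H R D S) :
    Nat.Coprime (Nm μ) l := by
  rw [Nat.coprime_comm, h.prime.coprime_iff_not_dvd]
  rintro ⟨c, hc⟩
  have h1 := h.cop
  rw [← hU.mu, Ideal.isCoprime_span_singleton_iff] at h1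
  obtain ⟨u, w, huw⟩ := h1
  have h2 : (l : 𝓞 F) ∣ 1 := by
    have e1 : (Nm μ : 𝓞 F) = (l : 𝓞 F) * (c : 𝓞 F) := by
      rw [hc]
      push_cast
      rfl
    have e2 := mul_cj μ
    have e3 : u * μ = 1 - w * (l : 𝓞 F) := by linear_combination huw
    have e4 : cj u * cj μ = 1 - cj w * (l : 𝓞 F) := by
      have := congrArg cj e3
      rw [map_mul, map_sub, map_one, map_mul, cj_nat] at this
      exact this
    refine ⟨u * cj u * (c : 𝓞 F) + cj w + w - w * cj w * (l : 𝓞 F), ?_⟩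
    have e5 : (u * μ) * (cj u * cj μ) = u * cj u * ((l : 𝓞 F) * (c : 𝓞 F)) := by
      rw [← e1, ← e2]
      ring
    rw [e3, e4] at e5
    linear_combination e5
  have h3 : IsUnit (l : 𝓞 F) := isUnit_of_dvd_one h2
  have h4 := Nm_nat (F := F) l
  unfold Nm at h4
  rw [Ideal.span_singleton_eq_top.2 h3, Ideal.absNorm_top] at h4
  have h5 := h.prime.two_le
  nlinarith

/-- Chunk UB6A (S/M). X in D, T ≠ 0 killed by l, n • R = 0, n prime to l and to Nm μ, k an integer prime to l and Nm μ with k • Q = 0, Kg a subgroup with the property GMod.tors: X + T + R + Q is not in Kg. If V(l) = 1: multiply by Nm μ * n * k (prime to l): that multiple of T is in Kg and killed by l, so 0 (tors), so T = 0. If V(l) < 1: V(Nm μ) = 1 (coprime: u Nm μ + w l = 1);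
multiply by l * n * k: that multiple of X is in Kg, killed by Nm μ, so 0, so X = 0 (D_ne). -/
theorem not_Kg (h : Dta A B Om j act m ψ l) (hU : UDat Om j act m ψ l μ a ρ τ H R D S)
    (V : ValuationSubring Ω) (Kg : AddSubgroup (Pt (WAB A B) Ω))
    (ht : ∀ n : ℕ, V.valuation (n : Ω) = 1 → ∀ T ∈ Kg, n • T = 0 → T = 0) {X T R₁ Q : Pt (WAB A B) Ω}
    (hX : X ∈ D) (hT : l • T = 0) (h0 : T ≠ 0) {n k : ℕ} (hn : n • R₁ = 0) (hnl : Nat.Coprime n l)
    (hnm : Nat.Coprime n (Nm μ)) (hk : k • Q = 0) (hkl : Nat.Coprime k l) (hkm : Nat.Coprime k (Nm μ)) :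
    X + T + R₁ + Q ∉ Kg := by
  intro hZ
  obtain ⟨hX0, hX1⟩ := D_ne h hU hX
  have hcop := ub6a_cop h hU
  by_cases hl : V.valuation (l : Ω) = 1
  · have h1 : (Nm μ * n * k) • (X + T + R₁ + Q) = (Nm μ * n * k) • T := by
      rw [smul_add, smul_add, smul_add, ub6a_dvd hX1 ⟨n * k, by ring⟩, ub6a_dvd hn ⟨Nm μ * k, by ring⟩,
        ub6a_dvd hk ⟨Nm μ * n, by ring⟩]
      abel
    have h2 : (Nm μ * n * k) • T ∈ Kg := by
      rw [← h1]
      exact Kg.nsmul_mem hZ _
    have h3 : l • ((Nm μ * n * k) • T) = 0 := by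
      rw [smul_comm, hT, smul_zero]
    have h4 := ht l hl _ h2 h3
    exact h0 (cop_zero ((hcop.mul_left hnl).mul_left hkl) h4 hT)
  · have hl' : V.valuation (l : Ω) < 1 :=
      lt_of_le_of_ne ((V.valuation_le_one_iff _).2 (natCast_mem V l)) hl
    have hNm : V.valuation (Nm μ : Ω) = 1 := by
      refine le_antisymm ((V.valuation_le_one_iff _).2 (natCast_mem V _)) (not_lt.1 fun h' => ?_)
      obtain ⟨u, w, huw⟩ := Nat.isCoprime_iff_coprime.2 hcop
      have e1 := congrArg (fun t : ℤ => (t : Ω)) huw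
      push_cast at e1
      have e2 : V.valuation ((u : Ω) * (Nm μ : Ω) + (w : Ω) * (l : Ω)) < 1 := by
        refine V.valuation.map_add_lt ?_ ?_
        · rw [map_mul, mul_comm]
          exact mul_lt_one_of_lt_of_le h' ((V.valuation_le_one_iff _).2 (intCast_mem V u))
        · rw [map_mul, mul_comm]
          exact mul_lt_one_of_lt_of_le hl' ((V.valuation_le_one_iff _).2 (intCast_mem V w))
      rw [e1, map_one] at e2
      exact lt_irrefl _ e2
    have h1 : (l * n * k) • (X + T + R₁ + Q) = (l * n * k) • X := by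
      rw [smul_add, smul_add, smul_add, ub6a_dvd hT ⟨n * k, by ring⟩, ub6a_dvd hn ⟨l * k, by ring⟩,
        ub6a_dvd hk ⟨l * n, by ring⟩]
      abel
    have h2 : (l * n * k) • X ∈ Kg := by
      rw [← h1]
      exact Kg.nsmul_mem hZ _
    have h3 : Nm μ • ((l * n * k) • X) = 0 := by
      rw [smul_comm, hX1, smul_zero]
    have h4 := ht (Nm μ) hNm _ h2 h3
    exact hX0 (cop_zero ((hcop.symm.mul_left hnm).mul_left hkm) h4 hX1)

end H55K
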