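import Mathlib
import Pool.Agent.Lib.H55K.UB6A

/-! # H55K: elliptic units: they are units -/

open NumberField IsDedekindDomain WeierstrassCurve

namespace H55K

open H55P (IQ embF eF LF Per IsHecke Pt ac Inert Dec Nm)
open H35P (WAB Ker tt)


variable {F : Type} [Field F] [NumberField F] [IQ F] {A B : F} {Om : ℂ} {Ω : Type} [Field Ω] [DecidableEq Ω]
  [Algebra F Ω] {j : Ω →+* ℂ} {act : 𝓞 F →+* AddMonoid.End (Pt (WAB A B) Ω)} {m : Ideal (𝓞 F)}
  {ψ : Ideal (𝓞 F) →*₀ 𝓞 F} {l : ℕ} {μ : 𝓞 F} {a : ℕ} {ρ τ : Pt (WAB A B) Ω} {H R : Finset (𝓞 F)}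
  {D S : Finset (Pt (WAB A B) Ω)}

theorem ub6b_a (h : Dta A B Om j act m ψ l) (hU : UDat Om j act m ψ l μ a ρ τ H R D S) :
    Nat.Coprime a l ∧ Nat.Coprime a (Nm μ) := by
  obtain ⟨k, hk⟩ := hU.a1
  obtain ⟨k', hk'⟩ := hU.a2
  constructor
  · rw [hk', Nat.coprime_add_mul_left_left]
    exact (Nat.coprime_primes Nat.prime_two h.prime).2 (by have := h.five; omega)
  · rw [hk, Nat.coprime_add_mul_left_left]
    exact Nat.coprime_one_left _

omit [NumberField F] [IQ F] in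
/-- The point P is in the subset where everything is far from the kernel. -/
theorem ub6b_pt (V : ValuationSubring Ω) {Kg : AddSubgroup (Pt (WAB A B) Ω)} {u : Ω}
    (hG : GMod (WAB A B) V Kg u) {X X' Q : Pt (WAB A B) Ω} (h1 : X ∉ Kg) (h1' : X' ∉ Kg) (hQ : Q ≠ 0)
    (h2 : X - Q ∉ Kg) (h2' : X' - Q ∉ Kg) (h3 : X + Q ∉ Kg) (h3' : X' + Q ∉ Kg) :
    V.valuation (xc X - xc Q) ≠ 0 ∧ V.valuation (xc X - xc Q) = V.valuation (xc X' - xc Q) := by
  have hne : ∀ Y : Pt (WAB A B) Ω, Y ∉ Kg → Y - Q ∉ Kg → Y + Q ∉ Kg → xc Y - xc Q ≠ 0 := by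
    intro Y hY hY1 hY2 h0
    have hY0 : Y ≠ 0 := by
      rintro rfl
      exact hY (zero_mem Kg)
    rcases xc_eq hY0 hQ (sub_eq_zero.1 h0) with h4 | h4
    · apply hY1
      rw [h4, sub_self]
      exact zero_mem Kg
    · apply hY2
      rw [h4, neg_add_cancel]
      exact zero_mem Kg
  refine ⟨(Valuation.ne_zero_iff _).2 (hne X h1 h2 h3), ?_⟩
  by_cases hK : Q ∈ Kg
  · exact hG.far X X' Q h1 h1' hK hQ
  · rw [hG.diff X Q h1 hK h2 h3, hG.diff X' Q h1' hK h2' h3']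

/-- Chunk UB6B (M). h.gmod V: Kg, u. Phi S (X + P)/Phi S (X - P) is the product over Q in S of (xc (X + P) - xc Q)/(xc (X - P) - xc Q) (P = T + R₁). a is prime to l (a = 2 + l k, l odd) and to Nm μ. X ± P, X ± P ± Q are not in Kg (not_Kg, with -T, -R₁, Q or -Q). If Q is not in Kg: both differences have value V(u)^2 ≠ 0 (GMod.diff, une). If Q is in Kg: the two
values are equal (GMod.far) and not 0, since xc (X ± P) = xc Q would give X ± P = ±Q in Kg (xc_eq). -/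
theorem Xi_unit (h : Dta A B Om j act m ψ l) (hU : UDat Om j act m ψ l μ a ρ τ H R D S)
    {T R₁ : Pt (WAB A B) Ω} (hT : l • T = 0) (h0 : T ≠ 0) {n : ℕ} (hn : n • R₁ = 0)
    (hnl : Nat.Coprime n l) (hnm : Nat.Coprime n (Nm μ)) (V : ValuationSubring Ω) :
    V.valuation (Xi D S (T + R₁)) = 1 := by
  obtain ⟨Kg, u, hG⟩ := h.gmod V
  obtain ⟨hal, ham⟩ := ub6b_a h hU
  have hmT : l • (-T) = 0 := by rw [smul_neg, hT, neg_zero]
  have hmT0 : -T ≠ 0 := neg_ne_zero.2 h0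
  have hmn : n • (-R₁) = 0 := by rw [smul_neg, hn, neg_zero]
  have key : ∀ X ∈ D, ∀ Q : Pt (WAB A B) Ω, a • Q = 0 → X + (T + R₁) + Q ∉ Kg ∧ X - (T + R₁) + Q ∉ Kg := by
    intro X hX Q hQ
    constructor
    · have h1 := not_Kg h hU V Kg hG.tors hX hT h0 hn hnl hnm hQ hal ham
      rwa [add_assoc X T R₁] at h1
    · have h1 := not_Kg h hU V Kg hG.tors hX hmT hmT0 hmn hnl hnm hQ hal ham
      have e : X + -T + -R₁ = X - (T + R₁) := by abel
      rwa [e] at h1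
  unfold Xi
  rw [map_prod]
  apply Finset.prod_eq_one
  intro X hX
  have hz : a • (0 : Pt (WAB A B) Ω) = 0 := smul_zero _
  obtain ⟨k1, k1'⟩ := key X hX 0 hz
  rw [add_zero] at k1 k1'
  have hval : ∀ Q ∈ S, V.valuation (xc (X + (T + R₁)) - xc Q) ≠ 0 ∧
      V.valuation (xc (X + (T + R₁)) - xc Q) = V.valuation (xc (X - (T + R₁)) - xc Q) := by
    intro Q hQ
    obtain ⟨hQ0, haQ⟩ := S_ne hU hQ
    obtain ⟨k2, k2'⟩ := key X hX Q haQ
    obtain ⟨k3, k3'⟩ := key X hX (-Q) (by rw [smul_neg, haQ, neg_zero])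
    rw [← sub_eq_add_neg] at k3 k3'
    exact ub6b_pt V hG k1 k1' hQ0 k3 k3' k2 k2'
  have h5 : V.valuation (Phi S (X + (T + R₁))) = V.valuation (Phi S (X - (T + R₁))) := by
    unfold Phi
    rw [map_prod, map_prod]
    exact Finset.prod_congr rfl fun Q hQ => (hval Q hQ).2
  have h6 : V.valuation (Phi S (X + (T + R₁))) ≠ 0 := by
    unfold Phi
    rw [map_prod]
    exact Finset.prod_ne_zero_iff.2 fun Q hQ => (hval Q hQ).1
  rw [map_div₀, ← h5, div_self h6]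

end H55K
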