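import Mathlib
import Pool.Agent.Lib.H55K.G3
import Pool.Agent.Lib.H55K.UB2

/-! # H55K: elliptic units: congruences -/

open NumberField IsDedekindDomain WeierstrassCurve

namespace H55K

open H55P (IQ embF eF LF Per IsHecke Pt ac Inert Dec Nm)
open H35P (WAB Ker tt)


variable {F : Type} [Field F] [NumberField F] [IQ F] {A B : F} {Om : ℂ} {Ω : Type} [Field Ω] [DecidableEq Ω]
  [Algebra F Ω] {j : Ω →+* ℂ} {act : 𝓞 F →+* AddMonoid.End (Pt (WAB A B) Ω)} {m : Ideal (𝓞 F)}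
  {ψ : Ideal (𝓞 F) →*₀ 𝓞 F} {l : ℕ} {μ : 𝓞 F} {a : ℕ} {ρ τ : Pt (WAB A B) Ω} {H R : Finset (𝓞 F)}
  {D S : Finset (Pt (WAB A B) Ω)}

omit [NumberField F] [IQ F] [DecidableEq Ω] in
theorem ub7a_prod {ι : Type} (V : ValuationSubring Ω) (s : Finset ι) (f g : ι → Ω)
    (hf : ∀ i ∈ s, V.valuation (f i) ≤ 1) (hg : ∀ i ∈ s, V.valuation (g i) ≤ 1)
    (hfg : ∀ i ∈ s, V.valuation (f i - g i) < 1) :
    V.valuation (∏ i ∈ s, f i - ∏ i ∈ s, g i) < 1 := by
  classical
  induction s using Finset.induction_on with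
  | empty => simp
  | insert i s hi ih =>
    rw [Finset.prod_insert hi, Finset.prod_insert hi]
    have ih' := ih (fun k hk => hf k (Finset.mem_insert_of_mem hk))
      (fun k hk => hg k (Finset.mem_insert_of_mem hk)) (fun k hk => hfg k (Finset.mem_insert_of_mem hk))
    have e : f i * ∏ k ∈ s, f k - g i * ∏ k ∈ s, g k =
        (f i - g i) * ∏ k ∈ s, f k + (∏ k ∈ s, f k - ∏ k ∈ s, g k) * g i := by ring
    rw [e]
    refine V.valuation.map_add_lt ?_ ?_
    · rw [map_mul]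
      refine mul_lt_one_of_lt_of_le (hfg i (Finset.mem_insert_self i s)) ?_
      rw [map_prod]
      exact Finset.prod_le_one' fun k hk => hf k (Finset.mem_insert_of_mem hk)
    · rw [map_mul]
      exact mul_lt_one_of_lt_of_le ih' (hg i (Finset.mem_insert_self i s))

/-- Chunk UB7A (S/M). V good, V(a) = 1: for Z with Z, Z + Q, Z - Q not in Ker for all Q in S: V(Phi S Z) = 1 (cls_diff; Q is not in Ker by ker_tors), and if R₁ is in Ker then V(Phi S (Z + R₁) - Phi S Z) < 1 (transl or cls_conv, products of integral elements). -/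
theorem Phi_unit (hU : UDat Om j act m ψ l μ a ρ τ H R D S) {V : ValuationSubring Ω} (hV : GV A B V)
    (ha : V.valuation (a : Ω) = 1) {Z : Pt (WAB A B) Ω} (hZ : ¬ Ker V Z)
    (hZ' : ∀ Q ∈ S, ¬ Ker V (Z + Q) ∧ ¬ Ker V (Z - Q)) : V.valuation (Phi S Z) = 1 ∧
    ∀ R₁ : Pt (WAB A B) Ω, Ker V R₁ → V.valuation (Phi S (Z + R₁) - Phi S Z) < 1 := by
  have hQ : ∀ Q ∈ S, ¬ Ker V Q := by
    intro Q hQ hK
    obtain ⟨h0, h1⟩ := S_ne hU hQ
    exact h0 (ker_tors hV a ha h1 hK)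
  have h1 : ∀ Q ∈ S, V.valuation (xc Z - xc Q) = 1 := fun Q hQS =>
    cls_diff hV hZ (hQ Q hQS) (hZ' Q hQS).2 (hZ' Q hQS).1
  refine ⟨?_, fun R₁ hR => ?_⟩
  · unfold Phi
    rw [map_prod]
    exact Finset.prod_eq_one h1
  · have h2 : Ker V ((Z + R₁) - Z) := by
      rw [add_sub_cancel_left]
      exact hR
    obtain ⟨h3, h4, -⟩ := cls_conv hV hZ h2
    unfold Phi
    refine ub7a_prod V S _ _ (fun Q hQS => ?_) (fun Q hQS => (h1 Q hQS).le) fun Q _ => ?_
    · exact (V.valuation.map_sub _ _).trans (max_le (not_ker V h3).2 (not_ker V (hQ Q hQS)).2)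
    · have e : xc (Z + R₁) - xc Q - (xc Z - xc Q) = xc (Z + R₁) - xc Z := by ring
      rw [e]
      exact h4

end H55K
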