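import Mathlib
import Pool.Agent.Lib.H55K.UB6B
import Pool.Agent.Lib.H55K.UB7A

/-! # H55K: elliptic units: congruences -/

open NumberField IsDedekindDomain WeierstrassCurve

namespace H55K

open H55P (IQ embF eF LF Per IsHecke Pt ac Inert Dec Nm)
open H35P (WAB Ker tt)


variable {F : Type} [Field F] [NumberField F] [IQ F] {A B : F} {Om : ℂ} {Ω : Type} [Field Ω] [DecidableEq Ω]
  [Algebra F Ω] {j : Ω →+* ℂ} {act : 𝓞 F →+* AddMonoid.End (Pt (WAB A B) Ω)} {m : Ideal (𝓞 F)}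
  {ψ : Ideal (𝓞 F) →*₀ 𝓞 F} {l : ℕ} {μ : 𝓞 F} {a : ℕ} {ρ τ : Pt (WAB A B) Ω} {H R : Finset (𝓞 F)}
  {D S : Finset (Pt (WAB A B) Ω)}

omit [NumberField F] [IQ F] [DecidableEq Ω] in
theorem ub7b_val (V : ValuationSubring Ω) {f g : Ω} (hg : V.valuation g = 1) (h : V.valuation (f - g) < 1) :
    V.valuation f = 1 := by
  have h1 : V.valuation (f - g) < V.valuation g := by rwa [hg]
  have h2 := V.valuation.map_add_eq_of_lt_left h1
  rw [add_sub_cancel, hg] at h2
  exact h2

omit [NumberField F] [IQ F] [DecidableEq Ω] in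
theorem ub7b_quot (V : ValuationSubring Ω) {f g f' g' : Ω} (hg : V.valuation g = 1) (h : V.valuation (f - g) < 1)
    (hg' : V.valuation g' = 1) (h' : V.valuation (f' - g') < 1) :
    V.valuation (f / f') = 1 ∧ V.valuation (g / g') = 1 ∧ V.valuation (f / f' - g / g') < 1 := by
  have hf := ub7b_val V hg h
  have hf' := ub7b_val V hg' h'
  have f0 : f' ≠ 0 := by
    rintro rfl
    rw [map_zero] at hf'
    exact zero_ne_one hf'
  have g0 : g' ≠ 0 := by
    rintro rfl
    rw [map_zero] at hg'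
    exact zero_ne_one hg'
  refine ⟨by rw [map_div₀, hf, hf', div_one], by rw [map_div₀, hg, hg', div_one], ?_⟩
  have e : f / f' - g / g' = ((f - g) * g' - g * (f' - g')) / (f' * g') := by
    field_simp
    ring
  rw [e, map_div₀, map_mul V.valuation f' g', hf', hg', one_mul, div_one]
  refine V.valuation.map_sub_lt ?_ ?_
  · rw [map_mul, hg', mul_one]
    exact h
  · rw [map_mul, hg, one_mul]
    exact h'

/-- Chunk UB7B (S/M). not_Kg for Kg = kerG hV, then Phi_unit for Z = X + T and X - T: quotients and products of units congruent to each other. -/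
theorem Xi_cong (h : Dta A B Om j act m ψ l) (hU : UDat Om j act m ψ l μ a ρ τ H R D S)
    {V : ValuationSubring Ω} (hV : GV A B V) (ha : V.valuation (a : Ω) = 1) {T R₁ : Pt (WAB A B) Ω}
    (hT : l • T = 0) (h0 : T ≠ 0) (hR : Ker V R₁) : V.valuation (Xi D S (T + R₁) - Xi D S T) < 1 := by
  obtain ⟨hal, ham⟩ := ub6b_a h hU
  have htors : ∀ n : ℕ, V.valuation (n : Ω) = 1 → ∀ T ∈ kerG hV, n • T = 0 → T = 0 :=
    fun n hn T hT hnT => ker_tors hV n hn hnT hT
  have key : ∀ T' : Pt (WAB A B) Ω, l • T' = 0 → T' ≠ 0 → ∀ X ∈ D, ∀ Q : Pt (WAB A B) Ω, a • Q = 0 →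
      ¬ Ker V (X + T' + Q) := by
    intro T' hT' h0' X hX Q hQ
    have h1 := not_Kg h hU V (kerG hV) htors hX hT' h0' (R₁ := 0) (n := 1) (smul_zero _) (Nat.coprime_one_left l)
      (Nat.coprime_one_left _) hQ hal ham
    rw [add_zero] at h1
    exact h1
  have key2 : ∀ T' : Pt (WAB A B) Ω, l • T' = 0 → T' ≠ 0 → ∀ X ∈ D,
      V.valuation (Phi S (X + T')) = 1 ∧
      ∀ R₁ : Pt (WAB A B) Ω, Ker V R₁ → V.valuation (Phi S (X + T' + R₁) - Phi S (X + T')) < 1 := by
    intro T' hT' h0' X hX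
    apply Phi_unit hU hV ha
    · have h1 := key T' hT' h0' X hX 0 (smul_zero _)
      rwa [add_zero] at h1
    · intro Q hQS
      obtain ⟨-, haQ⟩ := S_ne hU hQS
      refine ⟨key T' hT' h0' X hX Q haQ, ?_⟩
      rw [sub_eq_add_neg]
      exact key T' hT' h0' X hX (-Q) (by rw [smul_neg, haQ, neg_zero])
  have hmT : l • (-T) = 0 := by rw [smul_neg, hT, neg_zero]
  have hmT0 : -T ≠ 0 := neg_ne_zero.2 h0
  have main : ∀ X ∈ D, V.valuation (Phi S (X + (T + R₁)) / Phi S (X - (T + R₁))) = 1 ∧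
      V.valuation (Phi S (X + T) / Phi S (X - T)) = 1 ∧
      V.valuation (Phi S (X + (T + R₁)) / Phi S (X - (T + R₁)) - Phi S (X + T) / Phi S (X - T)) < 1 := by
    intro X hX
    obtain ⟨a1, a2⟩ := key2 T hT h0 X hX
    obtain ⟨b1, b2⟩ := key2 (-T) hmT hmT0 X hX
    have a3 := a2 R₁ hR
    have b3 := b2 (-R₁) (kneg hR)
    have e1 : X + T + R₁ = X + (T + R₁) := by abel
    have e2 : X + -T + -R₁ = X - (T + R₁) := by abel
    have e3 : X + -T = X - T := by abel
    rw [e1] at a3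
    rw [e2, e3] at b3
    rw [e3] at b1
    exact ub7b_quot V a1 a3 b1 b3
  unfold Xi
  exact ub7a_prod V D _ _ (fun X hX => (main X hX).1.le) (fun X hX => (main X hX).2.1.le) fun X hX => (main X hX).2.2

end H55K
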