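import Mathlib
import Pool.Agent.Lib.H13S.PA1
import Pool.Agent.Lib.H55K.G1
import Pool.Agent.Lib.H55K.UB2
import Pool.Agent.Lib.H55P.S1

/-! # H55K: elliptic units: Galois action -/

open NumberField IsDedekindDomain WeierstrassCurve

namespace H55K

open H55P (IQ embF eF LF Per IsHecke Pt ac Inert Dec Nm)
open H35P (WAB Ker tt)


variable {F : Type} [Field F] [NumberField F] [IQ F] {A B : F} {Om : ℂ} {Ω : Type} [Field Ω] [DecidableEq Ω]
  [Algebra F Ω] {j : Ω →+* ℂ} {act : 𝓞 F →+* AddMonoid.End (Pt (WAB A B) Ω)} {m : Ideal (𝓞 F)}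
  {ψ : Ideal (𝓞 F) →*₀ 𝓞 F} {l : ℕ} {μ : 𝓞 F} {a : ℕ} {ρ τ : Pt (WAB A B) Ω} {H R : Finset (𝓞 F)}
  {D S : Finset (Pt (WAB A B) Ω)}

theorem ub3_inj (s : Ω ≃ₐ[F] Ω) {P Q : Pt (WAB A B) Ω} (h : ac (WAB A B) s P = ac (WAB A B) s Q) :
    P = Q := by
  have h1 := congrArg (ac (WAB A B) s⁻¹) h
  have h2 := ac_inv (WAB A B) s⁻¹ P
  have h3 := ac_inv (WAB A B) s⁻¹ Q
  rw [inv_inv] at h2 h3
  rwa [h2, h3] at h1

theorem ub3_rho (hU : UDat Om j act m ψ l μ a ρ τ H R D S) : ρ ∈ D :=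
  (hU.memD ρ).2 ⟨1, Prm_one, (ub2_one act ρ).symm⟩

theorem ub3_gal (h : Dta A B Om j act m ψ l) (hU : UDat Om j act m ψ l μ a ρ τ H R D S)
    (s : Ω ≃ₐ[F] Ω) (hs : ac (WAB A B) s ρ ∈ D) {X : Pt (WAB A B) Ω} (hX : X ∈ D) :
    ac (WAB A B) s X ∈ D := by
  obtain ⟨x, hx, rfl⟩ := (hU.memD X).1 hX
  obtain ⟨c, hc, hc'⟩ := (hU.memD _).1 hs
  rw [h.cma.gal, hc', ub2_mul]
  exact (hU.memD _).2 ⟨x * c, Prm_mul hx hc, rfl⟩

/-- The subgroup. -/
def ub3_K (h : Dta A B Om j act m ψ l) (hU : UDat Om j act m ψ l μ a ρ τ H R D S) :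
    Subgroup (Ω ≃ₐ[F] Ω) where
  carrier := {s | ac (WAB A B) s ρ ∈ D}
  one_mem' := by
    show ac (WAB A B) 1 ρ ∈ D
    rw [ac_one]
    exact ub3_rho hU
  mul_mem' := by
    intro s t hs ht
    show ac (WAB A B) (s * t) ρ ∈ D
    rw [ac_mul]
    exact ub3_gal h hU s hs ht
  inv_mem' := by
    intro s hs
    show ac (WAB A B) s⁻¹ ρ ∈ D
    classical
    have h1 : D.image (ac (WAB A B) s) = D :=
      Finset.eq_of_subset_of_card_le
        (Finset.image_subset_iff.2 fun X hX => ub3_gal h hU s hs hX)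
        (Finset.card_image_of_injective _ fun P Q hPQ => ub3_inj s hPQ).ge
    have h2 : ρ ∈ D.image (ac (WAB A B) s) := by
      rw [h1]
      exact ub3_rho hU
    obtain ⟨X, hX, hXρ⟩ := Finset.mem_image.1 h2
    have h3 : ac (WAB A B) s⁻¹ ρ = X := by
      apply ub3_inj s
      rw [ac_inv, hXρ]
    rwa [h3]

theorem ub3_normal (h : Dta A B Om j act m ψ l) (hU : UDat Om j act m ψ l μ a ρ τ H R D S) :
    (ub3_K h hU).Normal := by
  constructor
  intro t ht g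
  show ac (WAB A B) (g * t * g⁻¹) ρ ∈ D
  have ht' : ac (WAB A B) t ρ ∈ D := ht
  obtain ⟨c, hc, hc'⟩ := (hU.memD _).1 ht'
  obtain ⟨b, hb⟩ := hU.rhog (ac (WAB A B) g⁻¹ ρ) (by
    rw [← h.cma.gal, hU.rho, ac_zero])
  have h1 : ac (WAB A B) (g * t * g⁻¹) ρ = act c ρ := by
    rw [ac_mul, ac_mul, hb, h.cma.gal, hc', ub2_mul, mul_comm b c, ← ub2_mul, ← hb, h.cma.gal,
      ac_inv]
  rw [h1, ← hc']
  exact ht'

theorem ub3_fin {x : 𝓞 F} (hx : x ≠ 0) : {v : HeightOneSpectrum (𝓞 F) | x ∈ v.asIdeal}.Finite := by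
  have h1 : Ideal.span {x} ≠ 0 := by
    rw [Ideal.zero_eq_bot, Ne, Ideal.span_singleton_eq_bot]
    exact hx
  refine (Ideal.finite_factors h1).subset fun v hv => ?_
  show v.asIdeal ∣ Ideal.span {x}
  rw [Ideal.dvd_span_singleton]
  exact hv

theorem ub3_frob (h : Dta A B Om j act m ψ l) (hU : UDat Om j act m ψ l μ a ρ τ H R D S)
    (v : HeightOneSpectrum (𝓞 F)) (hv : (Nm μ : 𝓞 F) ∉ v.asIdeal) (s : Ω ≃ₐ[F] Ω)
    (hs : ac (WAB A B) s ρ = act (ψ v.asIdeal) ρ) : ac (WAB A B) s ρ ∈ D := by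
  rw [hs]
  have hm : ¬ m ≤ v.asIdeal := by
    intro h1
    apply hv
    rw [← mul_cj]
    refine Ideal.mul_mem_right _ _ (h1 ?_)
    rw [← hU.mu]
    exact Ideal.mem_span_singleton_self μ
  have hc : IsCoprime v.asIdeal m := by
    rw [Ideal.isCoprime_iff_sup_eq]
    refine v.isMaximal.1.2 _ (lt_of_le_of_ne le_sup_left ?_)
    intro h1
    apply hm
    rw [h1]
    exact le_sup_right
  have hg := h.hecke.gen _ hc
  exact (hU.memD _).2 ⟨ψ v.asIdeal, ⟨by rwa [hg], by rw [hg]⟩, rfl⟩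

theorem ub3_val (v : HeightOneSpectrum (𝓞 F)) (V : ValuationSubring Ω)
    (hV : ∀ x : 𝓞 F, x ∈ v.asIdeal → V.valuation (ak Ω x) < 1) (n : ℕ) (hn : (n : 𝓞 F) ∉ v.asIdeal) :
    V.valuation (n : Ω) = 1 := by
  have hle : V.valuation (n : Ω) ≤ 1 := by
    rw [ValuationSubring.valuation_le_one_iff]
    exact natCast_mem V n
  refine le_antisymm hle (not_lt.1 fun hlt => ?_)
  have hint : ∀ x : 𝓞 F, V.valuation (ak Ω x) ≤ 1 := ak_le V
  have h1 : Ideal.span {(n : 𝓞 F)} ⊔ v.asIdeal = ⊤ := by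
    rw [sup_comm]
    refine v.isMaximal.1.2 _ (lt_of_le_of_ne le_sup_left ?_)
    intro h1
    apply hn
    rw [h1]
    exact Ideal.mem_sup_right (Ideal.mem_span_singleton_self _)
  have h2 : (1 : 𝓞 F) ∈ Ideal.span {(n : 𝓞 F)} ⊔ v.asIdeal := by
    rw [h1]
    trivial
  obtain ⟨y, hy, z, hz, hyz⟩ := Submodule.mem_sup.1 h2
  obtain ⟨w, rfl⟩ := Ideal.mem_span_singleton.1 hy
  have h3 : (n : Ω) * ak Ω w + ak Ω z = 1 := by
    have h4 := congrArg (fun t : 𝓞 F => algebraMap F Ω (t : F)) hyz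
    simpa using h4
  have h5 : V.valuation ((n : Ω) * ak Ω w + ak Ω z) < 1 := by
    refine Valuation.map_add_lt _ ?_ (hV z hz)
    rw [map_mul]
    exact mul_lt_one_of_lt_of_le hlt (hint w)
  rw [h3, map_one] at h5
  exact lt_irrefl _ h5

/-- Chunk UB3A (M). K = {s : for all X in D, ac s X is in D} is a subgroup (D is finite and ac s is injective: ac s permutes D, so does its inverse). Every s acts on Tor act μ as act c, c with ac s ρ = act c ρ (rhog; cma.gal), so all s commute on Tor act μ and K is normal. It contains the fixing subgroup of a finite extension fixing ρ (H55P.pt_open).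
H13S.PA1_top (PA1.lean): it is enough to treat Frobenius elements s at V above v, v outside the finite set of h.frob and the primes containing Nm μ (finite: Ideal.finite_factors): V(Nm μ) = 1, ac s ρ = act (ψ v) ρ by h.frob; v is coprime to m (v maximal does not contain m), span {ψ v} = v (hecke.gen), so Prm (ψ v), and ac s (act h ρ) =
act (h * ψ v) ρ is in D (memD, Prm_mul). -/
theorem D_gal [IsAlgClosure F Ω] (h : Dta A B Om j act m ψ l) (hU : UDat Om j act m ψ l μ a ρ τ H R D S)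
    (s : Ω ≃ₐ[F] Ω) {X : Pt (WAB A B) Ω} (hX : X ∈ D) : ac (WAB A B) s X ∈ D := by
  have halg : Algebra.IsAlgebraic F Ω := IsAlgClosure.isAlgebraic
  obtain ⟨L, hLf, hL⟩ := H55P.pt_open (WAB A B) ρ
  obtain ⟨S₀, hS₀, hfr⟩ := h.frob
  have hNm : (Nm μ : 𝓞 F) ≠ 0 := by
    intro h0
    have h1 : Nm μ = 0 := by exact_mod_cast h0
    exact hU.mu0 (H55P.Nm_eq_zero.1 h1)
  have htop : ub3_K h hU = ⊤ := by
    refine H13S.PA1_top (F₀ := F) (ub3_K h hU) (ub3_normal h hU) L ?_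
      (S₀ ∪ {v | (Nm μ : 𝓞 F) ∈ v.asIdeal}) (hS₀.union (ub3_fin hNm)) ?_
    · intro t ht
      show ac (WAB A B) t ρ ∈ D
      rw [hL t ht]
      exact ub3_rho hU
    · intro v hv hp V hV t ht
      rw [Set.mem_union, not_or] at hv
      show ac (WAB A B) t ρ ∈ D
      refine ub3_frob h hU v hv.2 t ?_
      exact hfr v hv.1 hp V hV t ht (Nm μ) (ub3_val v V hV _ hv.2) ρ
        (D_ne h hU (ub3_rho hU)).2
  have hs : s ∈ ub3_K h hU := by
    rw [htop]
    exact Subgroup.mem_top s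
  exact ub3_gal h hU s hs hX

end H55K
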