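import Mathlib
import Pool.Agent.Lib.H55K.UB3A

/-! # H55K: elliptic units: Galois action -/

open NumberField IsDedekindDomain WeierstrassCurve

namespace H55K

open H55P (IQ embF eF LF Per IsHecke Pt ac Inert Dec Nm)
open H35P (WAB Ker tt)


variable {F : Type} [Field F] [NumberField F] [IQ F] {A B : F} {Om : ℂ} {Ω : Type} [Field Ω] [DecidableEq Ω]
  [Algebra F Ω] {j : Ω →+* ℂ} {act : 𝓞 F →+* AddMonoid.End (Pt (WAB A B) Ω)} {m : Ideal (𝓞 F)}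
  {ψ : Ideal (𝓞 F) →*₀ 𝓞 F} {l : ℕ} {μ : 𝓞 F} {a : ℕ} {ρ τ : Pt (WAB A B) Ω} {H R : Finset (𝓞 F)}
  {D S : Finset (Pt (WAB A B) Ω)}

theorem ub3_permS {α M : Type} [AddCommMonoid M] (D : Finset α) (g : α → α) (hm : ∀ x ∈ D, g x ∈ D)
    (hi : Set.InjOn g (D : Set α)) (f : α → M) : ∑ X ∈ D, f (g X) = ∑ X ∈ D, f X := by
  classical
  have h1 : D.image g = D :=
    Finset.eq_of_subset_of_card_le (Finset.image_subset_iff.2 hm) (Finset.card_image_of_injOn hi).ge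
  conv_rhs => rw [← h1]
  rw [Finset.sum_image hi]

/-- Chunk UB3B (S). ac s permutes D (injective, D_gal) and S (cma.gal). -/
theorem prod_gal [IsAlgClosure F Ω] (h : Dta A B Om j act m ψ l)
    (hU : UDat Om j act m ψ l μ a ρ τ H R D S) (s : Ω ≃ₐ[F] Ω) (f : Pt (WAB A B) Ω → Ω) :
    ∏ X ∈ D, f (ac (WAB A B) s X) = ∏ X ∈ D, f X ∧ ∏ X ∈ S, f (ac (WAB A B) s X) = ∏ X ∈ S, f X ∧
    ∑ X ∈ D, f (ac (WAB A B) s X) = ∑ X ∈ D, f X ∧ ∑ X ∈ S, f (ac (WAB A B) s X) = ∑ X ∈ S, f X := by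
  have hD : ∀ X ∈ D, ac (WAB A B) s X ∈ D := fun X hX => D_gal h hU s hX
  have hS : ∀ X ∈ S, ac (WAB A B) s X ∈ S := by
    intro X hX
    have h1 := (hU.memS X).1 hX
    refine (hU.memS _).2 ⟨?_, ac_ne _ s h1.2⟩
    rw [← h.cma.gal, h1.1, ac_zero]
  have hi : Function.Injective (ac (WAB A B) s : Pt (WAB A B) Ω → Pt (WAB A B) Ω) :=
    fun P Q hPQ => ub3_inj s hPQ
  exact ⟨ub2_perm D _ hD hi.injOn f, ub2_perm S _ hS hi.injOn f, ub3_permS D _ hD hi.injOn f,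
    ub3_permS S _ hS hi.injOn f⟩

/-- Chunk UB3B. xc_ac (E0), prod_gal. -/
theorem Xi_gal [IsAlgClosure F Ω] (h : Dta A B Om j act m ψ l)
    (hU : UDat Om j act m ψ l μ a ρ τ H R D S) (s : Ω ≃ₐ[F] Ω) (P : Pt (WAB A B) Ω) :
    s (Xi D S P) = Xi D S (ac (WAB A B) s P) := by
  have h1 : ∀ Y : Pt (WAB A B) Ω, s (Phi S Y) = Phi S (ac (WAB A B) s Y) := by
    intro Y
    have h2 := (prod_gal h hU s (fun T => xc (ac (WAB A B) s Y) - xc T)).2.1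
    unfold Phi
    rw [← h2, map_prod]
    refine Finset.prod_congr rfl fun Q _ => ?_
    rw [map_sub, xc_ac, xc_ac]
  have h3 := (prod_gal h hU s
    (fun Y => Phi S (Y + ac (WAB A B) s P) / Phi S (Y - ac (WAB A B) s P))).1
  unfold Xi
  rw [← h3, map_prod]
  refine Finset.prod_congr rfl fun X _ => ?_
  rw [map_div₀, h1, h1, map_add, map_sub]

end H55K
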