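import Mathlib
import Pool.Agent.Lib.H55K.G3
import Pool.Agent.Lib.H55K.UB2

/-! # H55K: elliptic units: the expansion -/

open NumberField IsDedekindDomain WeierstrassCurve

namespace H55K

open H55P (IQ embF eF LF Per IsHecke Pt ac Inert Dec Nm)
open H35P (WAB Ker tt)


variable {F : Type} [Field F] [NumberField F] [IQ F] {A B : F} {Om : ℂ} {Ω : Type} [Field Ω] [DecidableEq Ω]
  [Algebra F Ω] {j : Ω →+* ℂ} {act : 𝓞 F →+* AddMonoid.End (Pt (WAB A B) Ω)} {m : Ideal (𝓞 F)}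
  {ψ : Ideal (𝓞 F) →*₀ 𝓞 F} {l : ℕ} {μ : 𝓞 F} {a : ℕ} {ρ τ : Pt (WAB A B) Ω} {H R : Finset (𝓞 F)}
  {D S : Finset (Pt (WAB A B) Ω)}

/-- The coefficient of the expansion. -/
noncomputable def cU (D S : Finset (Pt (WAB A B) Ω)) : Ω := 4 * ∑ X ∈ D, ∑ Q ∈ S, yc X / (xc X - xc Q)

theorem ub8_prod {k ι : Type} [Field k] {Γ : Type} [LinearOrderedCommGroupWithZero Γ] (v : Valuation k Γ)
    {t : k} (ht : v t ≤ 1) (s : Finset ι) (f c : ι → k) (hf : ∀ i ∈ s, v (f i - 1 + c i * t) ≤ v t ^ 2)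
    (hc : ∀ i ∈ s, v (c i) ≤ 1) :
    v (∏ i ∈ s, f i - 1 + (∑ i ∈ s, c i) * t) ≤ v t ^ 2 ∧ v (∑ i ∈ s, c i) ≤ 1 := by
  classical
  induction s using Finset.induction_on with
  | empty =>
    rw [Finset.prod_empty, Finset.sum_empty, sub_self, zero_mul, add_zero, map_zero]
    exact ⟨zero_le, zero_le⟩
  | insert i s hi ih =>
    obtain ⟨h1, h2⟩ := ih (fun j hj => hf j (Finset.mem_insert_of_mem hj))
      (fun j hj => hc j (Finset.mem_insert_of_mem hj))
    have h3 := hf i (Finset.mem_insert_self i s)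
    have h4 := hc i (Finset.mem_insert_self i s)
    rw [Finset.prod_insert hi, Finset.sum_insert hi]
    refine ⟨?_, (v.map_add _ _).trans (max_le h4 h2)⟩
    obtain ⟨p, hp⟩ : ∃ p, p = ∏ j ∈ s, f j := ⟨_, rfl⟩
    obtain ⟨b, hb⟩ : ∃ b, b = ∑ j ∈ s, c j := ⟨_, rfl⟩
    rw [← hp, ← hb] at h1 ⊢
    rw [← hb] at h2
    have ht2 : v t ^ 2 ≤ 1 := pow_le_one₀ zero_le ht
    have e : f i * p - 1 + (c i + b) * t = (c i * b) * t ^ 2 + (f i - 1 + c i * t) * (1 - b * t) +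
        (p - 1 + b * t) * (1 - c i * t) + (f i - 1 + c i * t) * (p - 1 + b * t) := by ring
    have hone : ∀ x : k, v x ≤ 1 → v (1 - x * t) ≤ 1 := by
      intro x hx
      refine (v.map_sub _ _).trans (max_le (map_one v).le ?_)
      rw [map_mul]
      exact mul_le_one₀ hx zero_le ht
    rw [e]
    refine (v.map_add _ _).trans (max_le ((v.map_add _ _).trans (max_le ((v.map_add _ _).trans (max_le ?_ ?_)) ?_)) ?_)
    · rw [map_mul, map_mul, map_pow]
      exact mul_le_of_le_one_left zero_le (mul_le_one₀ h4 zero_le h2)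
    · rw [map_mul]
      exact (mul_le_of_le_one_right zero_le (hone b h2)).trans h3
    · rw [map_mul]
      exact (mul_le_of_le_one_right zero_le (hone (c i) h4)).trans h1
    · rw [map_mul]
      exact (mul_le_of_le_one_right zero_le (h1.trans ht2)).trans h3

theorem ub8_one {k : Type} [Field k] {Γ : Type} [LinearOrderedCommGroupWithZero Γ] (v : Valuation k Γ)
    {t u y x₁ x₂ q x : k} (ht : v t < 1) (hu : v u = 1) (hy : v y ≤ 1) (h8 : v (2 : k) ≤ 1)
    (h1 : v (x₁ - x + 2 * y * t) ≤ v t ^ 2) (h2 : v (x₂ - x + 2 * y * -t) ≤ v t ^ 2) (hx : u = x - q) :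
    v ((x₁ - q) / (x₂ - q) - 1 + 4 * (y / u) * t) ≤ v t ^ 2 ∧ v (4 * (y / u)) ≤ 1 := by
  have h4 : v (4 : k) ≤ 1 := by
    have e : (4 : k) = 2 * 2 := by norm_num
    rw [e, map_mul]
    exact mul_le_one₀ h8 zero_le h8
  have hyu : v (y / u) ≤ 1 := by
    rw [map_div₀, hu, div_one]
    exact hy
  have hc : v (4 * (y / u)) ≤ 1 := by
    rw [map_mul]
    exact mul_le_one₀ h4 zero_le hyu
  refine ⟨?_, hc⟩
  have hu0 : u ≠ 0 := by
    rintro rfl
    rw [map_zero] at hu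
    exact zero_ne_one hu
  have ht2 : v t ^ 2 < 1 := pow_lt_one₀ zero_le ht (by norm_num)
  obtain ⟨e₁, he₁⟩ : ∃ e, e = x₁ - x + 2 * y * t := ⟨_, rfl⟩
  obtain ⟨e₂, he₂⟩ : ∃ e, e = x₂ - x + 2 * y * -t := ⟨_, rfl⟩
  rw [← he₁] at h1
  rw [← he₂] at h2
  have hD : x₂ - q = (2 * y * t + e₂) + u := by
    rw [he₂, hx]
    ring
  have hN : x₁ - q = u - 2 * y * t + e₁ := by
    rw [he₁, hx]
    ring
  have h2yt : v (2 * y * t) < 1 := by
    rw [map_mul]
    refine lt_of_le_of_lt (mul_le_of_le_one_left zero_le ?_) ht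
    rw [map_mul]
    exact mul_le_one₀ h8 zero_le hy
  have hDv : v (x₂ - q) = 1 := by
    rw [hD, v.map_add_eq_of_lt_right]
    · exact hu
    · rw [hu]
      exact v.map_add_lt h2yt (h2.trans_lt ht2)
  have hD0 : x₂ - q ≠ 0 := by
    intro h0
    rw [h0, map_zero] at hDv
    exact zero_ne_one hDv
  have e : (x₁ - q) / (x₂ - q) - 1 + 4 * (y / u) * t =
      (e₁ - e₂ + (4 * (y / u)) * (2 * y) * t ^ 2 + (4 * (y / u)) * t * e₂) / (x₂ - q) := by
    rw [eq_div_iff hD0]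
    have e0 : (x₁ - q) / (x₂ - q) * (x₂ - q) = x₁ - q := div_mul_cancel₀ _ hD0
    have e1 : ((x₁ - q) / (x₂ - q) - 1 + 4 * (y / u) * t) * (x₂ - q) =
        (x₁ - q) / (x₂ - q) * (x₂ - q) + (-1 + 4 * (y / u) * t) * (x₂ - q) := by ring
    rw [e1, e0, hN, hD]
    have e2 : y / u * u = y := div_mul_cancel₀ _ hu0
    linear_combination 4 * t * e2
  rw [e, map_div₀, hDv, div_one]
  refine (v.map_add _ _).trans (max_le ((v.map_add _ _).trans (max_le ((v.map_sub _ _).trans (max_le h1 h2)) ?_)) ?_)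
  · rw [map_mul, map_pow]
    refine mul_le_of_le_one_left zero_le ?_
    rw [map_mul]
    refine mul_le_one₀ hc zero_le ?_
    rw [map_mul]
    exact mul_le_one₀ h8 zero_le hy
  · rw [map_mul]
    refine (mul_le_of_le_one_left zero_le ?_).trans h2
    rw [map_mul]
    exact mul_le_one₀ hc zero_le ht.le

theorem ub8_nat {Ω : Type} [Field Ω] {V : ValuationSubring Ω} {n l : ℕ} (h : Nat.Coprime n l)
    (hl : V.valuation (l : Ω) < 1) : V.valuation (n : Ω) = 1 := by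
  have hle : ∀ z : ℤ, V.valuation (z : Ω) ≤ 1 := fun z => (V.valuation_le_one_iff _).2 (intCast_mem V z)
  have hln : V.valuation (n : Ω) ≤ 1 := (V.valuation_le_one_iff _).2 (natCast_mem V n)
  refine le_antisymm hln ?_
  by_contra hcon
  rw [not_le] at hcon
  obtain ⟨u, w, huw⟩ := Nat.isCoprime_iff_coprime.2 h
  have h1 : ((u : Ω) * (n : Ω) + (w : Ω) * (l : Ω)) = 1 := by exact_mod_cast congrArg (Int.cast (R := Ω)) huw
  have h2 : V.valuation ((u : Ω) * (n : Ω) + (w : Ω) * (l : Ω)) < 1 := by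
    refine V.valuation.map_add_lt ?_ ?_
    · rw [map_mul, mul_comm]
      exact mul_lt_one_of_lt_of_le hcon (hle u)
    · rw [map_mul, mul_comm]
      exact mul_lt_one_of_lt_of_le hl (hle w)
  rw [h1, map_one] at h2
  exact lt_irrefl _ h2

/-- Chunk UB8 (M). V(l) < 1: V good (h.good), V(Nm μ) = 1 = V(a) (cop; a = 2 + l k, V(2) = 1). For X in D, Q in S: X, Q, X + Q, X - Q are not in Ker (ker_tors: killed by Nm μ * a, a multiple is X ≠ 0 or Q ≠ 0, coprime orders), V(xc X - xc Q) = 1 (cls_diff). t = tt T, V(t) < 1. transl: xc (X + T) = xc X - 2 yc X t + O(t^2),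
xc (X - T) = xc X + 2 yc X t + O(t^2) (tt_neg), so (xc (X + T) - xc Q)/(xc (X - T) - xc Q) = 1 - 4 yc X/(xc X - xc Q) t + O(t^2). Product over D × S: 1 - cU t + O(t^2) (induction over finite sets: (1 + a t + O(t^2))(1 + b t + O(t^2)), a, b integral). O(t^2) means value ≤ V(t)^2. -/
theorem Xi_exp (h : Dta A B Om j act m ψ l) (hU : UDat Om j act m ψ l μ a ρ τ H R D S)
    {V : ValuationSubring Ω} (hV : V.valuation (l : Ω) < 1) {T : Pt (WAB A B) Ω} (hT : Ker V T) :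
    V.valuation (Xi D S T - 1 + cU D S * tt T) ≤ V.valuation (tt T) ^ 2 := by
  have hG : GV A B V := h.good V hV
  have hN : V.valuation ((Nm μ : ℕ) : Ω) = 1 := ub8_nat hU.cop hV
  have ha : V.valuation (a : Ω) = 1 := by
    obtain ⟨k, hk⟩ := hU.a2
    have e : (a : Ω) = (l : Ω) * (k : Ω) + 2 := by
      rw [hk]
      push_cast
      ring
    rw [e, V.valuation.map_add_eq_of_lt_right]
    · exact hG.two
    · rw [hG.two, map_mul]
      exact mul_lt_one_of_lt_of_le hV ((V.valuation_le_one_iff _).2 (natCast_mem V k))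
  have hcop : Nat.Coprime a (Nm μ) := by
    obtain ⟨k, hk⟩ := hU.a1
    rw [hk]
    simp
  have hNa : V.valuation ((Nm μ * a : ℕ) : Ω) = 1 := by
    rw [Nat.cast_mul, map_mul, hN, ha, mul_one]
  have ht : V.valuation (tt T) < 1 := ttlt hG hT
  have h2le : V.valuation (2 : Ω) ≤ 1 := hG.two.le
  have hnX : ∀ X ∈ D, ¬ Ker V X := by
    intro X hX hK
    obtain ⟨h0, h1⟩ := D_ne h hU hX
    exact h0 (ker_tors hG _ hN h1 hK)
  have hnQ : ∀ Q ∈ S, ¬ Ker V Q := by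
    intro Q hQ hK
    obtain ⟨h0, h1⟩ := S_ne hU hQ
    exact h0 (ker_tors hG _ ha h1 hK)
  have hpm : ∀ X ∈ D, ∀ Q ∈ S, ¬ Ker V (X - Q) ∧ ¬ Ker V (X + Q) := by
    intro X hX Q hQ
    obtain ⟨hX0, hX1⟩ := D_ne h hU hX
    obtain ⟨hQ0, hQ1⟩ := S_ne hU hQ
    have hXa : (Nm μ * a) • X = 0 := by rw [mul_comm, mul_smul, hX1, smul_zero]
    have hQa : (Nm μ * a) • Q = 0 := by rw [mul_smul, hQ1, smul_zero]
    constructor
    · intro hK
      have h3 := ker_tors hG _ hNa (by rw [smul_sub, hXa, hQa, sub_zero]) hK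
      have h4 : X = Q := sub_eq_zero.1 h3
      exact hX0 (cop_zero hcop (by rw [h4]; exact hQ1) hX1)
    · intro hK
      have h3 := ker_tors hG _ hNa (by rw [smul_add, hXa, hQa, add_zero]) hK
      have h4 : X = -Q := eq_neg_of_add_eq_zero_left h3
      exact hX0 (cop_zero hcop (by rw [h4, smul_neg, hQ1, neg_zero]) hX1)
  have hone : ∀ X ∈ D, ∀ Q ∈ S,
      V.valuation ((xc (X + T) - xc Q) / (xc (X - T) - xc Q) - 1 + 4 * (yc X / (xc X - xc Q)) * tt T) ≤
        V.valuation (tt T) ^ 2 ∧ V.valuation (4 * (yc X / (xc X - xc Q))) ≤ 1 := by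
    intro X hX Q hQ
    obtain ⟨h5, h6⟩ := hpm X hX Q hQ
    have hu := cls_diff hG (hnX X hX) (hnQ Q hQ) h5 h6
    obtain ⟨-, t1, -⟩ := transl hG (hnX X hX) hT
    obtain ⟨-, t2, -⟩ := transl hG (hnX X hX) (kneg hT)
    rw [tt_neg, Valuation.map_neg, ← sub_eq_add_neg X] at t2
    exact ub8_one V.valuation ht hu (gv_y hG (hnX X hX)) h2le t1 t2 rfl
  have hin : ∀ X ∈ D, V.valuation (Phi S (X + T) / Phi S (X - T) - 1 +
      (∑ Q ∈ S, 4 * (yc X / (xc X - xc Q))) * tt T) ≤ V.valuation (tt T) ^ 2 ∧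
      V.valuation (∑ Q ∈ S, 4 * (yc X / (xc X - xc Q))) ≤ 1 := by
    intro X hX
    unfold Phi
    rw [← Finset.prod_div_distrib]
    exact ub8_prod V.valuation ht.le S _ _ (fun Q hQ => (hone X hX Q hQ).1) (fun Q hQ => (hone X hX Q hQ).2)
  have hfin := ub8_prod V.valuation ht.le D _ _ (fun X hX => (hin X hX).1) (fun X hX => (hin X hX).2)
  have e : cU D S = ∑ X ∈ D, ∑ Q ∈ S, 4 * (yc X / (xc X - xc Q)) := by
    unfold cU
    simp only [Finset.mul_sum]
  rw [e]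
  exact hfin.1

end H55K
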