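import Mathlib
import Pool.Agent.Lib.H55K.UB3B
import Pool.Agent.Lib.H55K.UB8

/-! # H55K: elliptic units: the coefficient -/

open NumberField IsDedekindDomain WeierstrassCurve

namespace H55K

open H55P (IQ embF eF LF Per IsHecke Pt ac Inert Dec Nm)
open H35P (WAB Ker tt)


variable {F : Type} [Field F] [NumberField F] [IQ F] {A B : F} {Om : ℂ} {Ω : Type} [Field Ω] [DecidableEq Ω]
  [Algebra F Ω] {j : Ω →+* ℂ} {act : 𝓞 F →+* AddMonoid.End (Pt (WAB A B) Ω)} {m : Ideal (𝓞 F)}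
  {ψ : Ideal (𝓞 F) →*₀ 𝓞 F} {l : ℕ} {μ : 𝓞 F} {a : ℕ} {ρ τ : Pt (WAB A B) Ω} {H R : Finset (𝓞 F)}
  {D S : Finset (Pt (WAB A B) Ω)}

/-- Chunk UB9A (S). cU is fixed by all automorphisms (prod_gal, xc_ac, yc_ac); Ω is Galois over F. -/
theorem cU_mem [IsAlgClosure F Ω] (h : Dta A B Om j act m ψ l)
    (hU : UDat Om j act m ψ l μ a ρ τ H R D S) : ∃ c : F, algebraMap F Ω c = cU D S := by
  have hnorm : Normal F Ω := IsAlgClosure.normal F Ω
  have hgal : IsGalois F Ω := { }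
  have hfix : ∀ s : Ω ≃ₐ[F] Ω, s (cU D S) = cU D S := by
    intro s
    unfold cU
    rw [map_mul, map_ofNat, map_sum]
    congr 1
    have h1 : ∀ X : Pt (WAB A B) Ω, s (∑ Q ∈ S, yc X / (xc X - xc Q)) =
        ∑ Q ∈ S, yc (ac (WAB A B) s X) / (xc (ac (WAB A B) s X) - xc Q) := by
      intro X
      rw [map_sum, ← (prod_gal h hU s (fun Q => yc (ac (WAB A B) s X) /
        (xc (ac (WAB A B) s X) - xc Q))).2.2.2]
      refine Finset.sum_congr rfl fun Q _ => ?_
      rw [map_div₀, map_sub, xc_ac, xc_ac, yc_ac]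
    simp only [h1]
    exact (prod_gal h hU s (fun X => ∑ Q ∈ S, yc X / (xc X - xc Q))).2.2.1
  have h1 : cU D S ∈ IntermediateField.fixedField (⊤ : Subgroup (Ω ≃ₐ[F] Ω)) := by
    rw [IntermediateField.mem_fixedField_iff]
    intro s _
    exact hfix s
  have h2 := InfiniteGalois.fixedField_fixingSubgroup (⊥ : IntermediateField F Ω)
  rw [IntermediateField.fixingSubgroup_bot] at h2
  rw [h2] at h1
  exact IntermediateField.mem_bot.1 h1

end H55K
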