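import Mathlib
import Pool.Agent.Lib.H55K.UD

/-! # H55K: the second difference -/

open NumberField IsDedekindDomain WeierstrassCurve

namespace H55K

open H55P (IQ embF eF LF Per IsHecke Pt ac Inert Dec Nm)
open H35P (WAB Ker tt)


variable {F : Type} [Field F] [NumberField F] [IQ F]

theorem ua1_second (g g1 g2 : ℝ → ℂ) (B : ℝ) (h1 : ∀ t ∈ Set.Icc (-1 : ℝ) 1, HasDerivAt g (g1 t) t)
    (h2 : ∀ t ∈ Set.Icc (-1 : ℝ) 1, HasDerivAt g1 (g2 t) t) (hB : ∀ t ∈ Set.Icc (-1 : ℝ) 1, ‖g2 t‖ ≤ B) :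
    ‖g 1 + g (-1) - 2 * g 0‖ ≤ 2 * B := by
  have hB0 : 0 ≤ B := le_trans (norm_nonneg _) (hB 0 (by simp))
  have k1 : ∀ t ∈ Set.Icc (0 : ℝ) 1, ‖g1 t - g1 (-t)‖ ≤ 2 * B := by
    intro t ht
    have := (convex_Icc (-1 : ℝ) 1).norm_image_sub_le_of_norm_hasDerivWithin_le
      (fun x hx => (h2 x hx).hasDerivWithinAt) hB
      (show (-t) ∈ Set.Icc (-1 : ℝ) 1 from ⟨by linarith [ht.2], by linarith [ht.1]⟩)
      (show t ∈ Set.Icc (-1 : ℝ) 1 from ⟨by linarith [ht.1], ht.2⟩)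
    refine this.trans ?_
    have : ‖t - -t‖ ≤ 2 := by
      rw [Real.norm_eq_abs, abs_of_nonneg (by linarith [ht.1])]
      linarith [ht.2]
    nlinarith
  have k2 : ∀ t ∈ Set.Icc (0 : ℝ) 1, HasDerivWithinAt (fun x : ℝ => g x + g (-x)) (g1 t - g1 (-t))
      (Set.Icc (0 : ℝ) 1) t := by
    intro t ht
    have e1 := h1 t ⟨by linarith [ht.1], ht.2⟩
    have e2 := h1 (-t) ⟨by linarith [ht.2], by linarith [ht.1]⟩
    have e3 : HasDerivAt (fun x : ℝ => g (-x)) (-g1 (-t)) t := by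
      exact (HasDerivAt.scomp t e2 (hasDerivAt_neg t)).congr_deriv (by simp)
    exact ((e1.add e3).hasDerivWithinAt (s := Set.Icc (0 : ℝ) 1)).congr_deriv (by ring)
  have := (convex_Icc (0 : ℝ) 1).norm_image_sub_le_of_norm_hasDerivWithin_le k2 k1
    (show (0 : ℝ) ∈ Set.Icc (0 : ℝ) 1 by simp) (show (1 : ℝ) ∈ Set.Icc (0 : ℝ) 1 by simp)
  have e : g 1 + g (-1) - 2 * g 0 = (g 1 + g (-1)) - (g 0 + g (-0)) := by
    rw [neg_zero]; ring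
  rw [e]
  simpa using this

/-- The bound for one s, in terms of a lower bound d for the norms on the segment. -/
theorem ua1_bd (s w q : ℂ) (d : ℝ) (hd : 0 < d) (hs : 0 < s.re)
    (hw : ∀ t ∈ Set.Icc (-1 : ℝ) 1, d ≤ ‖w + t * q‖) :
    ‖dd s w q‖ ≤ 2 * ((10 * ‖s‖ + 4 * ‖s‖ ^ 2) * ‖q‖ ^ 2 * d ^ (-1 - 2 * s.re)) := by
  set N : ℝ → ℝ := fun t => (w.re + t * q.re) ^ 2 + (w.im + t * q.im) ^ 2 with hN
  set N1 : ℝ → ℝ := fun t => 2 * (w.re + t * q.re) * q.re + 2 * (w.im + t * q.im) * q.im with hN1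
  have hNn : ∀ t : ℝ, N t = ‖w + t * q‖ ^ 2 := by
    intro t
    rw [Complex.sq_norm, Complex.normSq_apply]
    simp [hN]
    ring
  have hN1n : ∀ t : ℝ, |N1 t| ≤ 2 * (‖q‖ * ‖w + t * q‖) := by
    intro t
    have e : N1 t = 2 * ((w + t * q) * (starRingEnd ℂ) q).re := by
      simp [hN1]
      ring
    rw [e, abs_mul, abs_of_pos (by norm_num : (0 : ℝ) < 2)]
    have := Complex.abs_re_le_norm ((w + t * q) * (starRingEnd ℂ) q)
    rw [norm_mul, Complex.norm_conj] at this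
    nlinarith
  have hNpos : ∀ t ∈ Set.Icc (-1 : ℝ) 1, 0 < N t := by
    intro t ht
    rw [hNn]
    have := lt_of_lt_of_le hd (hw t ht)
    positivity
  have dN : ∀ t : ℝ, HasDerivAt N (N1 t) t := by
    intro t
    have a1 : HasDerivAt (fun t : ℝ => w.re + t * q.re) q.re t := by
      simpa using ((hasDerivAt_id t).mul_const q.re).const_add w.re
    have a2 : HasDerivAt (fun t : ℝ => w.im + t * q.im) q.im t := by
      simpa using ((hasDerivAt_id t).mul_const q.im).const_add w.im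
    exact ((a1.pow 2).add (a2.pow 2)).congr_deriv (by simp [hN1])
  have dN1 : ∀ t : ℝ, HasDerivAt N1 (2 * ‖q‖ ^ 2) t := by
    intro t
    have a1 : HasDerivAt (fun t : ℝ => w.re + t * q.re) q.re t := by
      simpa using ((hasDerivAt_id t).mul_const q.re).const_add w.re
    have a2 : HasDerivAt (fun t : ℝ => w.im + t * q.im) q.im t := by
      simpa using ((hasDerivAt_id t).mul_const q.im).const_add w.im
    exact (((a1.const_mul 2).mul_const q.re).add ((a2.const_mul 2).mul_const q.im)).congr_deriv (by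
      rw [Complex.sq_norm, Complex.normSq_apply]; ring)
  set a : ℝ → ℝ := fun t => N1 t / N t with ha
  set a1 : ℝ → ℝ := fun t => (2 * ‖q‖ ^ 2 * N t - N1 t * N1 t) / N t ^ 2 with ha1
  have da : ∀ t ∈ Set.Icc (-1 : ℝ) 1, HasDerivAt a (a1 t) t := by
    intro t ht
    exact (dN1 t).div (dN t) (hNpos t ht).ne'
  set E : ℝ → ℂ := fun t => Complex.exp (-s * ((Real.log (N t) : ℝ) : ℂ)) with hE
  have dE : ∀ t ∈ Set.Icc (-1 : ℝ) 1, HasDerivAt E (E t * (-s * (a t : ℂ))) t := by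
    intro t ht
    have e1 : HasDerivAt (fun t => Real.log (N t)) (a t) t := (dN t).log (hNpos t ht).ne'
    have e2 : HasDerivAt (fun t => ((Real.log (N t) : ℝ) : ℂ)) ((a t : ℝ) : ℂ) t := e1.ofReal_comp
    exact (e2.const_mul (-s)).cexp
  set u : ℝ → ℂ := fun t => (starRingEnd ℂ) w + t * (starRingEnd ℂ) q with hu
  have du : ∀ t : ℝ, HasDerivAt u ((starRingEnd ℂ) q) t := by
    intro t
    have e1 : HasDerivAt (fun t : ℝ => (t : ℂ)) ((1 : ℝ) : ℂ) t := (hasDerivAt_id t).ofReal_comp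
    exact ((e1.mul_const ((starRingEnd ℂ) q)).const_add ((starRingEnd ℂ) w)).congr_deriv (by simp)
  have hun : ∀ t : ℝ, ‖u t‖ = ‖w + t * q‖ := by
    intro t
    rw [← Complex.norm_conj (w + t * q)]
    simp [hu]
  set g : ℝ → ℂ := fun t => u t * E t with hg
  set g1 : ℝ → ℂ := fun t => ((starRingEnd ℂ) q + -s * (a t : ℂ) * u t) * E t with hg1
  set g2 : ℝ → ℂ := fun t => (-s * (a1 t : ℂ) * u t + -2 * s * (a t : ℂ) * (starRingEnd ℂ) q +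
    s ^ 2 * (a t : ℂ) ^ 2 * u t) * E t with hg2
  have dg : ∀ t ∈ Set.Icc (-1 : ℝ) 1, HasDerivAt g (g1 t) t := by
    intro t ht
    exact ((du t).mul (dE t ht)).congr_deriv (by simp only [hg1]; ring)
  have dg1 : ∀ t ∈ Set.Icc (-1 : ℝ) 1, HasDerivAt g1 (g2 t) t := by
    intro t ht
    have e1 : HasDerivAt (fun t => ((a t : ℝ) : ℂ)) ((a1 t : ℝ) : ℂ) t := (da t ht).ofReal_comp
    exact ((((e1.const_mul (-s)).mul (du t)).const_add ((starRingEnd ℂ) q)).mul (dE t ht)).congr_deriv (by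
      simp only [hg2]; simp only [Pi.mul_apply]; ring)
  have hff : ∀ t ∈ Set.Icc (-1 : ℝ) 1, ff s (w + t * q) = g t := by
    intro t ht
    have h0 := hNpos t ht
    rw [ff, ← hNn, Complex.cpow_def_of_ne_zero (by exact_mod_cast h0.ne'), ← Complex.ofReal_log h0.le]
    simp only [hg, hu, hE]
    rw [mul_comm (-s)]
    simp
  have hEn : ∀ t ∈ Set.Icc (-1 : ℝ) 1, ‖E t‖ = ‖w + t * q‖ ^ (-2 * s.re) := by
    intro t ht
    have hp : 0 < ‖w + t * q‖ := lt_of_lt_of_le hd (hw t ht)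
    have hE' : E t = Complex.exp (-s * ((Real.log (N t) : ℝ) : ℂ)) := rfl
    rw [hE', Complex.norm_exp, hNn, Real.log_pow, Real.rpow_def_of_pos hp]
    congr 1
    simp
    ring
  have key : ∀ t ∈ Set.Icc (-1 : ℝ) 1, ‖g2 t‖ ≤ (10 * ‖s‖ + 4 * ‖s‖ ^ 2) * ‖q‖ ^ 2 * d ^ (-1 - 2 * s.re) := by
    intro t ht
    have hp : 0 < ‖w + t * q‖ := lt_of_lt_of_le hd (hw t ht)
    set W := ‖w + t * q‖ with hW
    have b1 : |a t| ≤ 2 * ‖q‖ / W := by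
      simp only [ha]
      rw [abs_div, hNn, abs_of_pos (by positivity : 0 < ‖w + t * q‖ ^ 2), ← hW, div_le_div_iff₀ (by positivity) hp]
      have := hN1n t
      rw [← hW] at this
      nlinarith
    have b2 : |a1 t| ≤ 6 * ‖q‖ ^ 2 / W ^ 2 := by
      have e : a1 t = 2 * ‖q‖ ^ 2 / W ^ 2 - a t ^ 2 := by
        simp only [ha1, ha]
        rw [hNn, ← hW]
        field_simp
      rw [e]
      have c1 : a t ^ 2 ≤ 4 * ‖q‖ ^ 2 / W ^ 2 := by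
        rw [← sq_abs]
        calc |a t| ^ 2 ≤ (2 * ‖q‖ / W) ^ 2 := by gcongr
          _ = _ := by ring
      have c2 : 0 ≤ 2 * ‖q‖ ^ 2 / W ^ 2 := by positivity
      have c3 : 6 * ‖q‖ ^ 2 / W ^ 2 = 2 * ‖q‖ ^ 2 / W ^ 2 + 4 * ‖q‖ ^ 2 / W ^ 2 := by ring
      rw [abs_le, c3]
      constructor
      · nlinarith [sq_nonneg (a t)]
      · nlinarith [sq_nonneg (a t)]
    have b3 : ‖-s * (a1 t : ℂ) * u t + -2 * s * (a t : ℂ) * (starRingEnd ℂ) q +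
        s ^ 2 * (a t : ℂ) ^ 2 * u t‖ ≤ (10 * ‖s‖ + 4 * ‖s‖ ^ 2) * ‖q‖ ^ 2 / W := by
      have d1 : ‖-s * (a1 t : ℂ) * u t‖ ≤ ‖s‖ * (6 * ‖q‖ ^ 2 / W ^ 2) * W := by
        rw [norm_mul, norm_mul, norm_neg, hun, ← hW, Complex.norm_real, Real.norm_eq_abs]
        gcongr
      have d2 : ‖-2 * s * (a t : ℂ) * (starRingEnd ℂ) q‖ ≤ 2 * ‖s‖ * (2 * ‖q‖ / W) * ‖q‖ := by
        rw [norm_mul, norm_mul, norm_mul, norm_neg, Complex.norm_conj, Complex.norm_real, Real.norm_eq_abs]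
        simp only [Complex.norm_ofNat]
        gcongr
      have d3 : ‖s ^ 2 * (a t : ℂ) ^ 2 * u t‖ ≤ ‖s‖ ^ 2 * (2 * ‖q‖ / W) ^ 2 * W := by
        rw [norm_mul, norm_mul, norm_pow, norm_pow, hun, ← hW, Complex.norm_real, Real.norm_eq_abs]
        gcongr
      refine (norm_add₃_le).trans ((add_le_add (add_le_add d1 d2) d3).trans (le_of_eq ?_))
      field_simp
      ring
    have b4 : ‖g2 t‖ ≤ (10 * ‖s‖ + 4 * ‖s‖ ^ 2) * ‖q‖ ^ 2 / W * W ^ (-2 * s.re) := by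
      simp only [hg2]
      rw [norm_mul, hEn t ht, ← hW]
      gcongr
    refine b4.trans ?_
    have e : (10 * ‖s‖ + 4 * ‖s‖ ^ 2) * ‖q‖ ^ 2 / W * W ^ (-2 * s.re) =
        (10 * ‖s‖ + 4 * ‖s‖ ^ 2) * ‖q‖ ^ 2 * W ^ (-1 - 2 * s.re) := by
      rw [show (-1 - 2 * s.re : ℝ) = -1 + -2 * s.re by ring, Real.rpow_add hp, Real.rpow_neg_one]
      ring
    rw [e]
    refine mul_le_mul_of_nonneg_left ?_ (by positivity)
    exact Real.rpow_le_rpow_of_nonpos hd (hw t ht) (by linarith)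
  have h1 := hff 1 (by simp)
  have h2 := hff (-1) (by simp)
  have h3 := hff 0 (by simp)
  have := ua1_second g g1 g2 _ dg dg1 key
  rw [← h1, ← h2, ← h3] at this
  simpa [dd, sub_eq_add_neg] using this

/-- Chunk UA1 (M). Real calculus on the segment: w_t = w + t q, t in [-1, 1], N(t) = ‖w_t‖^2 = ‖w‖^2 + 2 t Re(w conj q) + t^2 ‖q‖^2 > 0, g(t) = ff s (w_t) = conj(w_t) N(t)^(-s).
g' = conj q N^(-s) - s conj(w_t) N' N^(-s-1), g'' = -2 s conj q N' N^(-s-1) - s conj(w_t) N'' N^(-s-1) + s(s+1) conj(w_t) N'^2 N^(-s-2), |N'| ≤ 2‖q‖‖w_t‖, N'' = 2‖q‖^2, |N^(-s)| = N^(-Re s):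
|g''| ≤ ‖q‖^2 ‖w_t‖^(-1-2 Re s) (6‖s‖ + 4‖s‖‖s+1‖). g(1) + g(-1) - 2 g(0): h(t) = g(t) + g(-t) - 2 g(0), h(0) = 0, h'(0) = 0, h'' bounded by 2 sup|g''|; Convex.norm_image_sub_le_of_norm_deriv_le twice (or image_norm_le_of_norm_deriv_right_le_deriv_boundary):
|h(1)| ≤ 2 sup |g''|. ‖w‖/2 ≤ ‖w_t‖ ≤ 2‖w‖ because ‖q‖ ≤ ‖w‖/2, so ‖w_t‖^(-1-2 Re s) ≤ 2^(1+2 Re s) ‖w‖^(-1-2 Re s) ≤ 2^(1+2M) ‖w‖^(-1-2r) (‖w‖ ≥ 1). -/
theorem dd_bound (q : ℂ) (r M : ℝ) (hr : 0 < r) : ∃ C : ℝ, 0 ≤ C ∧ ∀ s : ℂ, r ≤ s.re → ‖s‖ ≤ M →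
    ∀ w : ℂ, 1 + 2 * ‖q‖ ≤ ‖w‖ → ‖dd s w q‖ ≤ C * ‖w‖ ^ (-1 - 2 * r) := by
  refine ⟨2 * ((10 * |M| + 4 * |M| ^ 2) * ‖q‖ ^ 2 * (2 : ℝ) ^ (1 + 2 * M)), by positivity, ?_⟩
  intro s hs hsM w hw
  have hM0 : 0 ≤ M := le_trans (norm_nonneg _) hsM
  have hw1 : 1 ≤ ‖w‖ := by linarith [norm_nonneg q]
  have hre : s.re ≤ M := (Complex.re_le_norm s).trans hsM
  have h1 := ua1_bd s w q (‖w‖ / 2) (by positivity) (lt_of_lt_of_le hr hs) (by
    intro t ht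
    have e1 : ‖(t : ℂ) * q‖ ≤ ‖q‖ := by
      rw [norm_mul, Complex.norm_real, Real.norm_eq_abs]
      have : |t| ≤ 1 := abs_le.mpr ht
      nlinarith [norm_nonneg q]
    have e2 := norm_sub_le_norm_add w ((t : ℂ) * q)
    linarith)
  refine h1.trans ?_
  have e1 : (‖w‖ / 2) ^ (-1 - 2 * s.re) = 2 ^ (1 + 2 * s.re) * ‖w‖ ^ (-1 - 2 * s.re) := by
    rw [Real.div_rpow (by positivity) (by norm_num), show (-1 - 2 * s.re : ℝ) = -(1 + 2 * s.re) by ring,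
      Real.rpow_neg (by norm_num : (0 : ℝ) ≤ 2)]
    field_simp
  have e2 : (2 : ℝ) ^ (1 + 2 * s.re) ≤ 2 ^ (1 + 2 * M) :=
    Real.rpow_le_rpow_of_exponent_le (by norm_num) (by linarith)
  have e3 : ‖w‖ ^ (-1 - 2 * s.re) ≤ ‖w‖ ^ (-1 - 2 * r) :=
    Real.rpow_le_rpow_of_exponent_le hw1 (by linarith)
  rw [e1, abs_of_nonneg hM0]
  calc 2 * ((10 * ‖s‖ + 4 * ‖s‖ ^ 2) * ‖q‖ ^ 2 * (2 ^ (1 + 2 * s.re) * ‖w‖ ^ (-1 - 2 * s.re)))
      ≤ 2 * ((10 * M + 4 * M ^ 2) * ‖q‖ ^ 2 * (2 ^ (1 + 2 * M) * ‖w‖ ^ (-1 - 2 * r))) := by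
        gcongr
    _ = _ := by ring

end H55K
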