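import Mathlib
import Pool.Agent.Lib.H35P.B1
import Pool.Agent.Lib.H35P.Red
import Pool.Agent.Lib.H55P.EDef
import Pool.Agent.Lib.H55P.Sel
import Pool.Agent.Lib.H55P.TD

/-! # H55K: the sum of the second differences is analytic -/

open NumberField IsDedekindDomain WeierstrassCurve

namespace H55K

open H55P (IQ embF eF LF Per IsHecke Pt ac Inert Dec Nm)
open H35P (WAB Ker tt)


variable {F : Type} [Field F] [NumberField F] [IQ F]

theorem ua2a_fin (F : Type) [Field F] [NumberField F] [IQ F] (C : ℝ) :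
    {x : 𝓞 F | ‖eF F x‖ ≤ C}.Finite := by
  rcases lt_or_ge C 0 with hC | hC
  · refine Set.Finite.subset Set.finite_empty fun x hx => ?_
    have h1 : ‖eF F x‖ ≤ C := hx
    exact absurd (norm_nonneg (eF F x)) (by linarith)
  · have h1 := (H55P.summable_e (F := F) (r := 3) (by norm_num)).tendsto_cofinite_zero
    have h2 : (0 : ℝ) < (1 + C) ^ (-(3 : ℝ)) := Real.rpow_pos_of_pos (by linarith) _
    have h3 := h1.eventually (gt_mem_nhds h2)
    rw [Filter.eventually_cofinite] at h3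
    refine h3.subset fun x hx => ?_
    have h4 : ‖eF F x‖ ≤ C := hx
    change ¬ ((1 + ‖eF F x‖) ^ (-(3 : ℝ)) < (1 + C) ^ (-(3 : ℝ)))
    rw [not_lt]
    exact Real.rpow_le_rpow_of_nonpos (by have := norm_nonneg (eF F x); linarith) (by linarith) (by norm_num)

/-- Chunk UA2A (S). summable_e (H55P/F0.lean), comparison outside the finite set of the x with ‖eF F x‖ small (finite: H55P.pe8_fin, or from summable_e): 1 + ‖eF F x‖ ≤ C ‖z + eF F x‖ if ‖eF F x‖ ≥ 2‖z‖ + 1. -/
theorem sum_shift (F : Type) [Field F] [NumberField F] [IQ F] (z : ℂ) (κ : ℝ) (hκ : 2 < κ) :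
    Summable fun x : 𝓞 F => ‖z + eF F x‖ ^ (-κ) := by
  have h0 : Summable fun x : 𝓞 F => (2 : ℝ) ^ κ * (1 + ‖eF F x‖) ^ (-κ) := (H55P.summable_e (F := F) hκ).mul_left _
  refine h0.of_norm_bounded_eventually ?_
  rw [Filter.eventually_cofinite]
  refine (ua2a_fin F (2 * ‖z‖ + 1)).subset fun x hx => ?_
  by_contra hne
  apply hx
  have hxC : 2 * ‖z‖ + 1 < ‖eF F x‖ := not_le.1 hne
  have h1 : ‖eF F x‖ ≤ ‖z + eF F x‖ + ‖z‖ := by
    have := norm_sub_le (z + eF F x) z
    rwa [add_sub_cancel_left] at this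
  have h2 : (1 + ‖eF F x‖) / 2 ≤ ‖z + eF F x‖ := by linarith
  have h3 : 0 < (1 + ‖eF F x‖) / 2 := by
    have := norm_nonneg (eF F x)
    linarith
  have h4 := Real.rpow_le_rpow_of_nonpos h3 h2 (by linarith : -κ ≤ 0)
  rw [Real.norm_eq_abs, abs_of_nonneg (Real.rpow_nonneg (norm_nonneg _) _)]
  refine h4.trans (le_of_eq ?_)
  rw [Real.div_rpow (by have := norm_nonneg (eF F x); linarith) (by norm_num), Real.rpow_neg (by norm_num : (0 : ℝ) ≤ 2)]
  field_simp

/-- Chunk UA2A (S). {x : ‖z + eF F x‖ < c} is finite (from sum_shift, or H55P.pe8_fin in H55P/E8.lean). -/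
theorem fin_shift (F : Type) [Field F] [NumberField F] [IQ F] (z : ℂ) (c : ℝ) :
    {x : 𝓞 F | ‖z + eF F x‖ < c}.Finite := by
  refine (ua2a_fin F (c + ‖z‖)).subset fun x hx => ?_
  have hx' : ‖z + eF F x‖ < c := hx
  have h1 : ‖eF F x‖ ≤ ‖z + eF F x‖ + ‖z‖ := by
    have := norm_sub_le (z + eF F x) z
    rwa [add_sub_cancel_left] at this
  show ‖eF F x‖ ≤ c + ‖z‖
  linarith

end H55K
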