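import Mathlib
import Pool.Agent.Lib.H55K.UA1
import Pool.Agent.Lib.H55K.UA2A

/-! # H55K: the sum of the second differences is analytic -/

open NumberField IsDedekindDomain WeierstrassCurve

namespace H55K

open H55P (IQ embF eF LF Per IsHecke Pt ac Inert Dec Nm)
open H35P (WAB Ker tt)


variable {F : Type} [Field F] [NumberField F] [IQ F]

/-- Chunk UA2B (S). ff is differentiable in s for w ≠ 0 (‖w‖^2 > 0: the function (‖w‖^2)^(-s) is entire), and ff s 0 = 0. -/
theorem ff_diff (w : ℂ) : Differentiable ℂ fun s => ff s w := by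
  unfold ff
  by_cases hw : w = 0
  · subst hw
    simp
  · have h1 : ((‖w‖ ^ 2 : ℝ) : ℂ) ≠ 0 := by
      have : 0 < ‖w‖ := norm_pos_iff.2 hw
      exact_mod_cast (by positivity : (0 : ℝ) < ‖w‖ ^ 2).ne'
    exact (differentiable_id.neg.const_cpow (Or.inl h1)).const_mul _

theorem ua2b_dd (w q : ℂ) : Differentiable ℂ fun s => dd s w q := by
  unfold dd
  exact ((ff_diff (w + q)).add (ff_diff (w - q))).sub ((ff_diff w).const_mul 2)

theorem ua2b_bd (F : Type) [Field F] [NumberField F] [IQ F] (z q : ℂ) (r M : ℝ) (hr : 1 / 2 < r) :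
    ∃ u : 𝓞 F → ℝ, Summable u ∧ ∀ (x : 𝓞 F) (s : ℂ), r ≤ s.re → ‖s‖ ≤ M → ‖dd s (z + eF F x) q‖ ≤ u x := by
  classical
  obtain ⟨C, hC0, hC⟩ := dd_bound q r M (by linarith)
  have hfin := fin_shift F z (1 + 2 * ‖q‖)
  have hB : ∀ x : 𝓞 F, ∃ B : ℝ, 0 ≤ B ∧ ∀ s : ℂ, ‖s‖ ≤ M → ‖dd s (z + eF F x) q‖ ≤ B := by
    intro x
    have hc : Continuous fun s => dd s (z + eF F x) q := (ua2b_dd _ _).continuous
    obtain ⟨B, hB⟩ := (isCompact_closedBall (0 : ℂ) M).exists_bound_of_continuousOn hc.continuousOn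
    refine ⟨max B 0, le_max_right _ _, fun s hs => ?_⟩
    exact (hB s (by simpa using hs)).trans (le_max_left _ _)
  choose B hB0 hB using hB
  refine ⟨fun x => C * ‖z + eF F x‖ ^ (-(1 + 2 * r)) + if x ∈ hfin.toFinset then B x else 0, ?_, ?_⟩
  · refine ((sum_shift F z (1 + 2 * r) (by linarith)).mul_left C).add ?_
    refine summable_of_hasFiniteSupport (Set.Finite.subset hfin.toFinset.finite_toSet ?_)
    intro x hx
    by_contra hc
    apply hx
    show (if x ∈ hfin.toFinset then B x else 0) = 0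
    exact if_neg fun h' => hc (Finset.mem_coe.2 h')
  · intro x s h1 h2
    have h3 : 0 ≤ C * ‖z + eF F x‖ ^ (-(1 + 2 * r)) := mul_nonneg hC0 (Real.rpow_nonneg (norm_nonneg _) _)
    show _ ≤ C * ‖z + eF F x‖ ^ (-(1 + 2 * r)) + if x ∈ hfin.toFinset then B x else 0
    split_ifs with h4
    · exact (hB x s h2).trans (le_add_of_nonneg_left h3)
    · rw [add_zero]
      rw [Set.Finite.mem_toFinset, Set.mem_ofPred_eq, not_lt] at h4
      have h5 := hC s h1 h2 (z + eF F x) h4
      rwa [show (-1 - 2 * r : ℝ) = -(1 + 2 * r) by ring] at h5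

/-- Chunk UA2B (M). On the open set U = {s : r < Re s, ‖s‖ < M}, 1/2 < r < M: the terms are bounded by C ‖z + eF F x‖^(-1-2r) (dd_bound) outside the finite set {‖z + eF F x‖ < 1 + 2‖q‖}; for the finitely many other x the term is a continuous function of s on the compact closure (‖s‖ ≤ M): bounded. sum_shift with κ = 1 + 2r > 2.
differentiableOn_tsum_of_summable_norm, then DifferentiableOn.analyticOnNhd on the open set {1/2 < Re s} (union of the U). -/
theorem dd_analytic (F : Type) [Field F] [NumberField F] [IQ F] (z q : ℂ) :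
    (∀ s : ℂ, 1 / 2 < s.re → Summable fun x : 𝓞 F => dd s (z + eF F x) q) ∧
    AnalyticOnNhd ℂ (fun s => ∑' x : 𝓞 F, dd s (z + eF F x) q) {s | 1 / 2 < s.re} := by
  constructor
  · intro s hs
    obtain ⟨u, hu, hb⟩ := ua2b_bd F z q s.re ‖s‖ hs
    exact Summable.of_norm_bounded hu fun x => hb x s le_rfl le_rfl
  · intro s hs
    have hs' : 1 / 2 < s.re := hs
    obtain ⟨u, hu, hb⟩ := ua2b_bd F z q ((1 / 2 + s.re) / 2) (‖s‖ + 1) (by linarith)
    have hU : IsOpen {t : ℂ | (1 / 2 + s.re) / 2 < t.re ∧ ‖t‖ < ‖s‖ + 1} :=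
      (isOpen_lt continuous_const Complex.continuous_re).inter (isOpen_lt continuous_norm continuous_const)
    have hd := Complex.differentiableOn_tsum_of_summable_norm hu
      (fun x => (ua2b_dd (z + eF F x) q).differentiableOn) hU
      (fun x t ht => hb x t ht.1.le ht.2.le)
    exact hd.analyticAt (hU.mem_nhds ⟨by linarith, by linarith⟩)

end H55K
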