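import Mathlib
import Pool.Agent.Lib.H55K.UD

/-! # H55K: the value at 1 -/

open NumberField IsDedekindDomain WeierstrassCurve

namespace H55K

open H55P (IQ embF eF LF Per IsHecke Pt ac Inert Dec Nm)
open H35P (WAB Ker tt)


variable {F : Type} [Field F] [NumberField F] [IQ F]

theorem ua3_ff (w : ℂ) : ff 1 w = w⁻¹ := by
  unfold ff
  by_cases hw : w = 0
  · rw [hw]; simp
  · have h1 : (starRingEnd ℂ) w ≠ 0 := by
      intro h
      apply hw
      simpa using h
    have h2 : ((‖w‖ ^ 2 : ℝ) : ℂ) = w * (starRingEnd ℂ) w := by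
      rw [Complex.mul_conj, Complex.normSq_eq_norm_sq]
    rw [Complex.cpow_neg_one, h2]
    field_simp

/-- Chunk UA3 (S). ff 1 w = 1/w for w ≠ 0 (conj w/‖w‖^2), also for w = 0. So dd 1 (z + eF F x) q is the term tT (LF F) z q of H35P.T2 at the lattice point eF F x (LF_equiv F : 𝓞 F ≃ lattice, H55P/F0.lean); H35P.T_formula (H35P/A4.lean). -/
theorem dd_one (F : Type) [Field F] [NumberField F] [IQ F] (z q : ℂ) (hz : z ∉ (LF F).lattice)
    (hq : q ∉ (LF F).lattice) (h1 : z + q ∉ (LF F).lattice) (h2 : z - q ∉ (LF F).lattice) :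
    (∑' x : 𝓞 F, dd 1 (z + eF F x) q) * ((LF F).weierstrassP z - (LF F).weierstrassP q) =
      (LF F).derivWeierstrassP z := by
  have h3 : ∑' x : 𝓞 F, dd 1 (z + eF F x) q = H35P.T2 (LF F) z q := by
    unfold H35P.T2
    rw [← (H55P.LF_equiv F).tsum_eq]
    refine tsum_congr (fun x => ?_)
    unfold dd H35P.tT
    rw [ua3_ff, ua3_ff, ua3_ff, H55P.LF_equiv_coe]
    have e1 : z + eF F x + q = z + q + eF F x := by ring
    have e2 : z + eF F x - q = z - q + eF F x := by ring
    rw [e1, e2]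
  rw [h3]
  exact H35P.T_formula (LF F) z q hz hq h1 h2

end H55K
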