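import Mathlib
import Pool.Agent.Lib.H55K.UA2A
import Pool.Agent.Lib.H55K.UD

/-! # H55K: the series for Re s > 3/2 -/

open NumberField IsDedekindDomain WeierstrassCurve

namespace H55K

open H55P (IQ embF eF LF Per IsHecke Pt ac Inert Dec Nm)
open H35P (WAB Ker tt)


variable {F : Type} [Field F] [NumberField F] [IQ F]

theorem ua4_norm (s w : ℂ) (_hs : 0 < 2 * s.re - 1) : ‖ff s w‖ ≤ ‖w‖ ^ (-(2 * s.re - 1)) := by
  unfold ff
  by_cases hw : w = 0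
  · rw [hw, map_zero, zero_mul, norm_zero]
    exact Real.rpow_nonneg le_rfl _
  · have hw' : 0 < ‖w‖ := norm_pos_iff.2 hw
    have h1 : (0 : ℝ) < ‖w‖ ^ 2 := by positivity
    rw [norm_mul, Complex.norm_cpow_eq_rpow_re_of_pos h1, RCLike.norm_conj, Complex.neg_re]
    apply le_of_eq
    rw [← Real.rpow_natCast ‖w‖ 2, ← Real.rpow_mul hw'.le]
    nth_rewrite 1 [← Real.rpow_one ‖w‖]
    rw [← Real.rpow_add hw']
    congr 1
    push_cast
    ring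

theorem ua4_scale (s w c : ℂ) (hc : c ≠ 0) :
    ff s (w / c) = ((‖c‖ ^ 2 : ℝ) : ℂ) ^ s / (starRingEnd ℂ) c * ff s w := by
  unfold ff
  have hc' : 0 < ‖c‖ := norm_pos_iff.2 hc
  have h1 : (0 : ℝ) < ‖c‖ ^ 2 := by positivity
  have h1' : ((‖c‖ ^ 2 : ℝ) : ℂ) ≠ 0 := by exact_mod_cast h1.ne'
  have e1 : (‖w / c‖ ^ 2 : ℝ) = ‖w‖ ^ 2 * (‖c‖ ^ 2)⁻¹ := by
    rw [norm_div]
    field_simp
  have e2 : ((‖w / c‖ ^ 2 : ℝ) : ℂ) ^ (-s) = ((‖w‖ ^ 2 : ℝ) : ℂ) ^ (-s) * ((‖c‖ ^ 2 : ℝ) : ℂ) ^ s := by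
    rw [e1, Complex.ofReal_mul, Complex.mul_cpow_ofReal_nonneg (by positivity) (by positivity)]
    congr 1
    rw [Complex.ofReal_inv, Complex.inv_cpow, Complex.cpow_neg, inv_inv]
    rw [Complex.arg_ofReal_of_nonneg h1.le]
    exact Real.pi_pos.ne
  rw [e2, map_div₀]
  ring

/-- Chunk UA4 (S/M). ‖ff s w‖ = ‖w‖^(1 - 2 Re s) (w ≠ 0; ff s 0 = 0), sum_shift with κ = 2 Re s - 1 > 2 (0 ^ (-κ) = 0 for real powers). -/
theorem ff_sum (F : Type) [Field F] [NumberField F] [IQ F] (z s : ℂ) (hs : 3 / 2 < s.re) :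
    Summable fun x : 𝓞 F => ff s (z + eF F x) := by
  refine Summable.of_norm_bounded (sum_shift F z (2 * s.re - 1) (by linarith)) fun x => ?_
  exact ua4_norm s _ (by linarith)

/-- Chunk UA4. Translation by eF F y is a bijection of 𝓞 F. -/
theorem Ff_per (F : Type) [Field F] [NumberField F] [IQ F] (z s : ℂ) (y : 𝓞 F) :
    Ff F (z + eF F y) s = Ff F z s := by
  unfold Ff
  rw [← (Equiv.addLeft y).tsum_eq (fun x : 𝓞 F => ff s (z + eF F x))]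
  refine tsum_congr fun x => ?_
  rw [Equiv.coe_addLeft, map_add, add_assoc]

/-- Chunk UA4. -/
theorem dd_Ff (F : Type) [Field F] [NumberField F] [IQ F] (z q s : ℂ) (hs : 3 / 2 < s.re) :
    ∑' x : 𝓞 F, dd s (z + eF F x) q = Ff F (z + q) s + Ff F (z - q) s - 2 * Ff F z s := by
  have h1 := ff_sum F (z + q) s hs
  have h2 := ff_sum F (z - q) s hs
  have h3 := ff_sum F z s hs
  unfold Ff
  rw [← tsum_mul_left, ← h1.tsum_add h2, ← (h1.add h2).tsum_sub (h3.mul_left 2)]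
  refine tsum_congr fun x => ?_
  unfold dd
  rw [show z + eF F x + q = z + q + eF F x by ring, show z + eF F x - q = z - q + eF F x by ring]

/-- Chunk UA4. ff s (w / n) = n^(2s-1) ff s w for a positive integer n (Complex.cpow of positive reals: ((‖w‖^2/n^2 : ℝ) : ℂ)^(-s) = ..., Complex.mul_cpow_ofReal_nonneg). -/
theorem ff_scale (s w : ℂ) (n : ℕ) (hn : n ≠ 0) : ff s (w / n) = (n : ℂ) ^ (2 * s - 1) * ff s w := by
  have hn' : (n : ℂ) ≠ 0 := by exact_mod_cast hn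
  rw [ua4_scale s w n hn', Complex.cpow_sub _ _ hn', Complex.cpow_one]
  have e1 : ((‖(n : ℂ)‖ ^ 2 : ℝ) : ℂ) ^ s = (n : ℂ) ^ (2 * s) := by
    have h1 := Complex.mul_cpow_ofReal_nonneg (Nat.cast_nonneg (α := ℝ) n) (Nat.cast_nonneg (α := ℝ) n) s
    have h2 := Complex.cpow_nat_mul (n : ℂ) 2 s
    rw [Complex.norm_natCast, pow_two, Complex.ofReal_mul, h1]
    push_cast at h2 ⊢
    rw [h2, pow_two]
  rw [e1, Complex.conj_natCast]

/-- Chunk UA4. ff s (w / c) = ((‖c‖^2 : ℝ) : ℂ)^s / conj c * ff s w. -/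
theorem ff_scale2 (s w c : ℂ) (hc : c ≠ 0) :
    ff s (w / c) = ((‖c‖ ^ 2 : ℝ) : ℂ) ^ s / (starRingEnd ℂ) c * ff s w :=
  ua4_scale s w c hc

end H55K
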