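import Mathlib
import Pool.Agent.Lib.H55K.D1
import Pool.Agent.Lib.H55K.UA4

/-! # H55K: the distribution relation -/

open NumberField IsDedekindDomain WeierstrassCurve

namespace H55K

open H55P (IQ embF eF LF Per IsHecke Pt ac Inert Dec Nm)
open H35P (WAB Ker tt)


variable {F : Type} [Field F] [NumberField F] [IQ F]

omit [IQ F] in
theorem ua5_bij (n : ℕ) (hn : n ≠ 0) (R : Finset (𝓞 F)) (hR : Rep (n : 𝓞 F) R) :
    Function.Bijective fun p : {b // b ∈ R} × 𝓞 F => p.1.1 + (n : 𝓞 F) * p.2 := by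
  have hn' : (n : 𝓞 F) ≠ 0 := Nat.cast_ne_zero.2 hn
  constructor
  · rintro ⟨⟨b, hb⟩, x⟩ ⟨⟨b', hb'⟩, x'⟩ h
    change b + (n : 𝓞 F) * x = b' + (n : 𝓞 F) * x' at h
    have h1 : b = b' := hR.un b hb b' hb' ⟨x' - x, by linear_combination h⟩
    subst h1
    have h2 : x = x' := mul_left_cancel₀ hn' (add_left_cancel h)
    subst h2
    rfl
  · intro y
    obtain ⟨r, hr, c, hc⟩ := hR.ex y
    exact ⟨(⟨r, hr⟩, c), by change r + (n : 𝓞 F) * c = y; linear_combination -hc⟩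

theorem ua5_gen (n : ℕ) (hn : n ≠ 0) (R : Finset (𝓞 F)) (e : {b // b ∈ R} × 𝓞 F ≃ 𝓞 F) (w : 𝓞 F → ℂ)
    (he : ∀ b x, (n : ℂ) * w b.1 + n * eF F x = eF F (e (b, x))) (z s : ℂ) (hs : 3 / 2 < s.re) :
    ∑ b ∈ R, Ff F (z + w b) s = (n : ℂ) ^ (2 * s - 1) * Ff F (n * z) s := by
  have hn' : (n : ℂ) ≠ 0 := Nat.cast_ne_zero.2 hn
  have h1 : ∀ (b : {b // b ∈ R}) (x : 𝓞 F), ff s (z + w b.1 + eF F x) =
      (n : ℂ) ^ (2 * s - 1) * ff s (n * z + eF F (e (b, x))) := by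
    intro b x
    rw [← ff_scale s _ n hn, ← he]
    congr 1
    field_simp
    ring
  have h2 := ff_sum F (n * z) s hs
  have h3 : Summable fun p : {b // b ∈ R} × 𝓞 F => ff s (n * z + eF F (e p)) := h2.comp_injective e.injective
  calc ∑ b ∈ R, Ff F (z + w b) s = ∑ b : {b // b ∈ R}, Ff F (z + w b.1) s :=
        (Finset.sum_coe_sort R fun b => Ff F (z + w b) s).symm
    _ = ∑ b : {b // b ∈ R}, ∑' x : 𝓞 F, (n : ℂ) ^ (2 * s - 1) * ff s (n * z + eF F (e (b, x))) :=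
        Finset.sum_congr rfl fun b _ => tsum_congr fun x => h1 b x
    _ = (n : ℂ) ^ (2 * s - 1) * ∑ b : {b // b ∈ R}, ∑' x : 𝓞 F, ff s (n * z + eF F (e (b, x))) := by
        rw [Finset.mul_sum]
        exact Finset.sum_congr rfl fun b _ => tsum_mul_left
    _ = (n : ℂ) ^ (2 * s - 1) * ∑' p : {b // b ∈ R} × 𝓞 F, ff s (n * z + eF F (e p)) := by
        rw [h3.tsum_prod, tsum_fintype]
    _ = (n : ℂ) ^ (2 * s - 1) * Ff F (n * z) s := by
        rw [e.tsum_eq fun y : 𝓞 F => ff s (n * z + eF F y)]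
        rfl

/-- Chunk UA5 (M). The map R × 𝓞 F → 𝓞 F, (b, x) ↦ b + n x, is bijective (Rep), and so is (b, x) ↦ -b + n x. z + b/n + x = (n z + (b + n x))/n, ff_scale; all the series converge absolutely (ff_sum): sum over the finite set R of the Ff F (z ± b/n) s is the sum over R × 𝓞 F. -/
theorem Ff_dist (F : Type) [Field F] [NumberField F] [IQ F] (n : ℕ) (hn : n ≠ 0) (R : Finset (𝓞 F))
    (hR : Rep (n : 𝓞 F) R) (z s : ℂ) (hs : 3 / 2 < s.re) :
    ∑ b ∈ R, Ff F (z + eF F b / n) s = (n : ℂ) ^ (2 * s - 1) * Ff F (n * z) s ∧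
    ∑ b ∈ R, Ff F (z - eF F b / n) s = (n : ℂ) ^ (2 * s - 1) * Ff F (n * z) s := by
  have hn' : (n : ℂ) ≠ 0 := Nat.cast_ne_zero.2 hn
  constructor
  · refine ua5_gen n hn R (Equiv.ofBijective _ (ua5_bij n hn R hR)) (fun b => eF F b / n) ?_ z s hs
    intro b x
    change (n : ℂ) * (eF F b.1 / n) + n * eF F x = eF F (b.1 + (n : 𝓞 F) * x)
    rw [map_add, map_mul, map_natCast]
    field_simp
  · have h := ua5_gen n hn R (((Equiv.refl {b // b ∈ R}).prodCongr (Equiv.neg (𝓞 F))).trans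
      ((Equiv.ofBijective _ (ua5_bij n hn R hR)).trans (Equiv.neg (𝓞 F)))) (fun b => -(eF F b / n)) ?_ z s hs
    · rw [← h]
      exact Finset.sum_congr rfl fun b _ => by rw [sub_eq_add_neg]
    · intro b x
      change (n : ℂ) * (-(eF F b.1 / n)) + n * eF F x = eF F (-(b.1 + (n : 𝓞 F) * -x))
      rw [map_neg, map_add, map_mul, map_natCast, map_neg]
      field_simp
      ring

/-- Chunk UA5. R has n^2 elements (the number of classes modulo n: absNorm (span {n}) = n^2, or Nm_nat in D1.lean). -/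
theorem rep_card (F : Type) [Field F] [NumberField F] [IQ F] (n : ℕ) (hn : n ≠ 0) (R : Finset (𝓞 F))
    (hR : Rep (n : 𝓞 F) R) : R.card = n ^ 2 := by
  have h1 : Function.Bijective fun b : {b // b ∈ R} =>
      (Ideal.Quotient.mk (Ideal.span {(n : 𝓞 F)}) b.1 : 𝓞 F ⧸ Ideal.span {(n : 𝓞 F)}) := by
    constructor
    · rintro ⟨b, hb⟩ ⟨b', hb'⟩ h
      have h2 := Ideal.Quotient.eq.1 h
      rw [Ideal.mem_span_singleton] at h2
      exact Subtype.ext (hR.un b hb b' hb' h2)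
    · intro y
      obtain ⟨y, rfl⟩ := Ideal.Quotient.mk_surjective y
      obtain ⟨r, hr, h2⟩ := hR.ex y
      refine ⟨⟨r, hr⟩, ?_⟩
      refine (Ideal.Quotient.eq.2 ?_).symm
      rw [Ideal.mem_span_singleton]
      exact h2
  have h3 := Nat.card_congr (Equiv.ofBijective _ h1)
  rw [Nat.card_eq_fintype_card, Fintype.card_coe] at h3
  rw [h3, ← Nm_nat (F := F) n]
  rfl

open Classical in
/-- Chunk UA5. If (n - 1) z = eF F y then Ff F (n z) s = Ff F z s (Ff_per). Sum over b in R (the term b = 0 of the left side is 0: R.erase 0 or R give the same sum). -/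
theorem dd_dist (F : Type) [Field F] [NumberField F] [IQ F] (n : ℕ) (hn : n ≠ 0) (R : Finset (𝓞 F))
    (hR : Rep (n : 𝓞 F) R) (z s : ℂ) (hs : 3 / 2 < s.re) (hz : ∃ y : 𝓞 F, (n : ℂ) * z - z = eF F y) :
    ∑ b ∈ R.erase 0, ∑' x : 𝓞 F, dd s (z + eF F x) (eF F b / n) =
      2 * ((n : ℂ) ^ (2 * s - 1) - (n : ℂ) ^ 2) * Ff F z s := by
  obtain ⟨y, hy⟩ := hz
  have h1 : Ff F (n * z) s = Ff F z s := by
    rw [← Ff_per F z s y, ← hy]
    congr 1
    ring
  obtain ⟨h2, h3⟩ := Ff_dist F n hn R hR z s hs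
  have h4 := rep_card F n hn R hR
  have h5 : ∀ b : 𝓞 F, ∑' x : 𝓞 F, dd s (z + eF F x) (eF F b / n) =
      Ff F (z + eF F b / n) s + Ff F (z - eF F b / n) s - 2 * Ff F z s := fun b => dd_Ff F z _ s hs
  have h6 : ∑' x : 𝓞 F, dd s (z + eF F x) (eF F (0 : 𝓞 F) / n) = 0 := by
    rw [h5, map_zero, zero_div, add_zero, sub_zero]
    ring
  rw [Finset.sum_erase (f := fun b => ∑' x : 𝓞 F, dd s (z + eF F x) (eF F b / n)) R h6]
  simp only [h5]
  rw [Finset.sum_sub_distrib, Finset.sum_add_distrib, h2, h3, h1, Finset.sum_const, h4, nsmul_eq_mul]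
  push_cast
  ring

end H55K
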