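import Mathlib
import Pool.Agent.Lib.H55K.UA4

/-! # H55K: the L-series as a sum over classes -/

open NumberField IsDedekindDomain WeierstrassCurve

namespace H55K

open H55P (IQ embF eF LF Per IsHecke Pt ac Inert Dec Nm)
open H35P (WAB Ker tt)


variable {F : Type} [Field F] [NumberField F] [IQ F]

theorem ua6_ne0 {m : Ideal (𝓞 F)} {ψ : Ideal (𝓞 F) →*₀ 𝓞 F} (hψ : IsHecke m ψ) {h : 𝓞 F}
    (hh : Prm m ψ h) : h ≠ 0 := by
  rintro rfl
  have h1 := hh.1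
  rw [Ideal.isCoprime_iff_sup_eq, Ideal.span_singleton_eq_bot.2 rfl, bot_sup_eq] at h1
  exact hψ.ntop h1

theorem ua6_prm {m : Ideal (𝓞 F)} {ψ : Ideal (𝓞 F) →*₀ 𝓞 F} (hψ : IsHecke m ψ) {μ h : 𝓞 F}
    (hμ : Ideal.span {μ} = m) (hh : Prm m ψ h) (x : 𝓞 F) : Prm m ψ (h + μ * x) := by
  have hm : h + μ * x - h ∈ m := by
    rw [← hμ, add_sub_cancel_left]
    exact Ideal.mul_mem_right _ _ (Ideal.mem_span_singleton_self μ)
  have h1 : IsCoprime (Ideal.span {h + μ * x}) m := by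
    have h2 := hh.1
    rw [Ideal.isCoprime_iff_sup_eq] at h2 ⊢
    rw [eq_top_iff, ← h2]
    refine sup_le ?_ le_sup_right
    rw [Ideal.span_le, Set.singleton_subset_iff]
    have h3 : (h + μ * x) + (-(h + μ * x - h)) = h := by ring
    have h5 : (h + μ * x) + (-(h + μ * x - h)) ∈ Ideal.span {h + μ * x} ⊔ m :=
      Submodule.add_mem _ (Ideal.mem_sup_left (Ideal.mem_span_singleton_self _))
        (Ideal.mem_sup_right (m.neg_mem hm))
    rw [h3] at h5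
    exact h5
  refine ⟨h1, ?_⟩
  have h4 := hψ.per (h + μ * x) h h1 hh.1 hm
  rw [hh.2, mul_comm h] at h4
  exact mul_right_cancel₀ (ua6_ne0 hψ hh) h4

theorem ua6_ff {m : Ideal (𝓞 F)} {ψ : Ideal (𝓞 F) →*₀ 𝓞 F} {y : 𝓞 F} (hy : Prm m ψ y) (s : ℂ) :
    (starRingEnd ℂ) (eF F (ψ (Ideal.span {y}))) * (Ideal.absNorm (Ideal.span {y}) : ℂ) ^ (-s) =
      ff s (eF F y) := by
  unfold ff
  rw [hy.2, ← H55P.Nm_eq]
  rfl

/-- Chunk UA6 (M). h/μ + x = (h + μ x)/μ, ff_scale2 with c = eF F μ, ‖eF F μ‖^2 = Nm μ (H55P.Nm_eq). The map H × 𝓞 F → {J coprime to m}, (h, x) ↦ span {h + μ x} is bijective: y = h + μ x is congruent to h modulo m, coprime to m (IsHecke.per with x = y, y = h: ψ (span {y}) h = ψ (span {h}) y = h y, so ψ (span {y}) = y, h ≠ 0),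
so y = ψ (span {y}) is determined by its ideal; surjective: J coprime to m, y = ψ J, span {y} = J (gen), HRep.ex. J = bottom is not coprime to m (ntop), the terms with J not coprime to m are 0 (IsHecke.zero). ff s y = conj (eF F y) (Nm y)^(-s), Nm y = absNorm (span {y}). HasSum.unique / tsum over the product. -/
theorem Ff_ray {m : Ideal (𝓞 F)} {ψ : Ideal (𝓞 F) →*₀ 𝓞 F} (hψ : IsHecke m ψ) (μ : 𝓞 F) (hμ : Ideal.span {μ} = m)
    (H : Finset (𝓞 F)) (hH : HRep m ψ μ H) (s Λ : ℂ) (hs : 3 / 2 < s.re)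
    (hΛ : HasSum (fun J : Ideal (𝓞 F) => (starRingEnd ℂ) (eF F (ψ J)) * (Ideal.absNorm J : ℂ) ^ (-s)) Λ) :
    ∑ h ∈ H, Ff F (eF F h / eF F μ) s = (Nm μ : ℂ) ^ s / (starRingEnd ℂ) (eF F μ) * Λ := by
  have hμ0 : μ ≠ 0 := by
    rintro rfl
    apply hψ.ne
    rw [← hμ, Ideal.span_singleton_eq_bot.2 rfl]
  have hc : eF F μ ≠ 0 := H55P.eF_ne hμ0
  set i : ↥H × 𝓞 F → Ideal (𝓞 F) := fun p => Ideal.span {(p.1 : 𝓞 F) + μ * p.2} with hi
  have hprm : ∀ p : ↥H × 𝓞 F, Prm m ψ ((p.1 : 𝓞 F) + μ * p.2) := fun p =>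
    ua6_prm hψ hμ (hH.prm p.1 p.1.2) p.2
  have hinj : Function.Injective i := by
    rintro ⟨h, x⟩ ⟨h', x'⟩ he
    have e1 := (hprm (h, x)).2
    have e2 := (hprm (h', x')).2
    simp only [hi] at he e1 e2
    rw [he, e2] at e1
    have e3 : (h : 𝓞 F) = h' := by
      refine hH.un h h.2 h' h'.2 ⟨x' - x, ?_⟩
      linear_combination e1.symm
    have e4 : x = x' := by
      rw [e3] at e1
      exact (mul_left_cancel₀ hμ0 (add_left_cancel e1)).symm
    rw [Prod.mk.injEq]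
    exact ⟨Subtype.ext e3, e4⟩
  have hsupp : ∀ J, J ∉ Set.range i →
      (starRingEnd ℂ) (eF F (ψ J)) * (Ideal.absNorm J : ℂ) ^ (-s) = 0 := by
    intro J hJ
    by_cases hJc : IsCoprime J m
    · exfalso
      apply hJ
      have hg := hψ.gen J hJc
      have hy : Prm m ψ (ψ J) := by
        refine ⟨by rwa [hg], by rw [hg]⟩
      obtain ⟨h, hh, x, hx⟩ := hH.ex _ hy
      refine ⟨(⟨h, hh⟩, x), ?_⟩
      simp only [hi]
      rw [← hx, add_sub_cancel]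
      exact hg
    · rw [hψ.zero J hJc]
      simp
  have h1 := (hinj.hasSum_iff hsupp).2 hΛ
  have h2 : HasSum (fun p : ↥H × 𝓞 F => ff s (eF F ((p.1 : 𝓞 F) + μ * p.2))) Λ := by
    refine h1.congr_fun ?_
    intro p
    exact (ua6_ff (hprm p) s).symm
  have hsc : ∀ (h x : 𝓞 F), ff s (eF F h / eF F μ + eF F x) =
      ((‖eF F μ‖ ^ 2 : ℝ) : ℂ) ^ s / (starRingEnd ℂ) (eF F μ) * ff s (eF F (h + μ * x)) := by
    intro h x
    rw [← ff_scale2 _ _ _ hc]
    congr 1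
    rw [map_add, map_mul]
    field_simp
  have hcc : ((‖eF F μ‖ ^ 2 : ℝ) : ℂ) ^ s / (starRingEnd ℂ) (eF F μ) ≠ 0 := by
    refine div_ne_zero ?_ (by simpa using hc)
    rw [Complex.cpow_ne_zero_iff]
    left
    have : (0 : ℝ) < ‖eF F μ‖ ^ 2 := by
      have := norm_pos_iff.2 hc
      positivity
    exact_mod_cast this.ne'
  have h3 : ∀ h : 𝓞 F, HasSum (fun x : 𝓞 F => ff s (eF F (h + μ * x)))
      (∑' x : 𝓞 F, ff s (eF F (h + μ * x))) := by
    intro h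
    have h4 := ff_sum F (eF F h / eF F μ) s hs
    simp only [hsc] at h4
    rw [summable_mul_left_iff hcc] at h4
    exact h4.hasSum
  have h5 := h2.prod_fiberwise (fun h => h3 h)
  have h6 := h5.unique (hasSum_fintype _)
  have h7 : ∀ h : 𝓞 F, Ff F (eF F h / eF F μ) s =
      ((‖eF F μ‖ ^ 2 : ℝ) : ℂ) ^ s / (starRingEnd ℂ) (eF F μ) *
        ∑' x : 𝓞 F, ff s (eF F (h + μ * x)) := by
    intro h
    unfold Ff
    simp only [hsc]
    rw [tsum_mul_left]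
  rw [h6, Finset.mul_sum, ← Finset.sum_coe_sort H]
  refine Finset.sum_congr rfl (fun h _ => ?_)
  rw [h7, ← H55P.Nm_eq]
  rfl

end H55K
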