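import Mathlib
import Pool.Agent.Lib.H55K.UA2B
import Pool.Agent.Lib.H55K.UA3
import Pool.Agent.Lib.H55K.UA5
import Pool.Agent.Lib.H55K.UA6

/-! # H55K: the value of the L-function -/

open NumberField IsDedekindDomain WeierstrassCurve

namespace H55K

open H55P (IQ embF eF LF Per IsHecke Pt ac Inert Dec Nm)
open H35P (WAB Ker tt)


variable {F : Type} [Field F] [NumberField F] [IQ F]

theorem ua7_ndvd {m : Ideal (𝓞 F)} {ψ : Ideal (𝓞 F) →*₀ 𝓞 F} (hψ : IsHecke m ψ) {μ : 𝓞 F}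
    (hμ : Ideal.span {μ} = m) {h : 𝓞 F} (hh : Prm m ψ h) : ¬ μ ∣ h := by
  intro hd
  apply hψ.ntop
  have h1 := hh.1
  rw [Ideal.isCoprime_iff_sup_eq] at h1
  have h2 : Ideal.span {h} ≤ m := by
    rw [← hμ]
    exact Ideal.span_singleton_le_span_singleton.2 hd
  rw [sup_eq_right.2 h2] at h1
  exact h1

theorem ua7_lat {a : ℕ} (a0 : 1 < a) {μ : 𝓞 F} (hμ0 : μ ≠ 0) (a1 : ∃ k, a = 1 + Nm μ * k) {h : 𝓞 F}
    (hh : ¬ μ ∣ h) (b : 𝓞 F) : eF F h / eF F μ + eF F b / (a : ℂ) ∉ (LF F).lattice := by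
  intro hl
  rw [H55P.mem_LF] at hl
  obtain ⟨y, hy⟩ := hl
  obtain ⟨k, hk⟩ := a1
  have hμ' : eF F μ ≠ 0 := H55P.eF_ne hμ0
  have ha' : (a : ℂ) ≠ 0 := Nat.cast_ne_zero.2 (by omega)
  have h1 : eF F (a * h + μ * b) = eF F (μ * a * y) := by
    simp only [map_add, map_mul, map_natCast]
    field_simp at hy
    linear_combination hy
  have h2 := H55P.eF_inj h1
  have h3 : (a : 𝓞 F) = 1 + μ * cj μ * k := by
    rw [mul_cj, hk]
    push_cast
    rfl
  apply hh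
  refine ⟨a * y - b - cj μ * k * h, ?_⟩
  linear_combination h2 - h * h3

theorem ua7_z {a : ℕ} {μ : 𝓞 F} (hμ0 : μ ≠ 0) (a1 : ∃ k, a = 1 + Nm μ * k) (h : 𝓞 F) :
    ∃ y : 𝓞 F, (a : ℂ) * (eF F h / eF F μ) - eF F h / eF F μ = eF F y := by
  obtain ⟨k, hk⟩ := a1
  have hμ' : eF F μ ≠ 0 := H55P.eF_ne hμ0
  have e1 : eF F μ * eF F (cj μ) = (Nm μ : ℂ) := by rw [← map_mul, mul_cj, map_natCast]
  have e2 : (a : ℂ) = 1 + Nm μ * k := by
    rw [hk]
    push_cast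
    rfl
  refine ⟨cj μ * k * h, ?_⟩
  rw [map_mul, map_mul, map_natCast, e2, ← e1]
  field_simp
  ring

theorem ua7_cpow (c : ℂ) (hc : c ≠ 0) : AnalyticOnNhd ℂ (fun s : ℂ => c ^ (2 * s - 1)) {s | 1 / 2 < s.re} := by
  have h1 : Differentiable ℂ fun s : ℂ => c ^ (2 * s - 1) := fun s =>
    (((differentiableAt_id.const_mul 2).sub_const 1).const_cpow (Or.inl hc) :
      DifferentiableAt ℂ (fun s : ℂ => c ^ (2 * s - 1)) s)
  exact fun s _ => h1.analyticAt s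

theorem ua7_cpow' (c : ℂ) (hc : c ≠ 0) : AnalyticOnNhd ℂ (fun s : ℂ => c ^ s) {s | 1 / 2 < s.re} := by
  have h1 : Differentiable ℂ fun s : ℂ => c ^ s := fun s =>
    (differentiableAt_id.const_cpow (Or.inl hc) : DifferentiableAt ℂ (fun s : ℂ => c ^ s) s)
  exact fun s _ => h1.analyticAt s

theorem ua7_sum {ι : Type} (S : Finset ι) {f : ι → ℂ → ℂ} (hf : ∀ i ∈ S, AnalyticOnNhd ℂ (f i) {s | 1 / 2 < s.re}) :
    AnalyticOnNhd ℂ (fun s => ∑ i ∈ S, f i s) {s | 1 / 2 < s.re} := by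
  classical
  induction S using Finset.induction_on with
  | empty =>
    simp only [Finset.sum_empty]
    exact analyticOnNhd_const
  | insert i S hi ih =>
    simp only [Finset.sum_insert hi]
    exact (hf i (Finset.mem_insert_self i S)).add (ih fun j hj => hf j (Finset.mem_insert_of_mem hj))

/-- Identity theorem on a half plane. -/
theorem ua7_ident (A B : ℂ → ℂ) (hA : AnalyticOnNhd ℂ A {s | 1 / 2 < s.re})
    (hB : AnalyticOnNhd ℂ B {s | 1 / 2 < s.re}) (h : ∀ s : ℂ, 3 / 2 < s.re → A s = B s) (s : ℂ)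
    (hs : 1 / 2 < s.re) : A s = B s := by
  have h1 : (2 : ℂ) ∈ {s : ℂ | 1 / 2 < s.re} := by
    change 1 / 2 < (2 : ℂ).re
    norm_num
  have h2 : A =ᶠ[nhds (2 : ℂ)] B := by
    have h3 : {s : ℂ | 3 / 2 < s.re} ∈ nhds (2 : ℂ) :=
      (isOpen_lt continuous_const Complex.continuous_re).mem_nhds (by
        change 3 / 2 < (2 : ℂ).re
        norm_num)
    filter_upwards [h3] with z hz
    exact h z hz
  exact hA.eqOn_of_preconnected_of_eventuallyEq hB (convex_halfSpace_re_gt (1 / 2)).isPreconnected h1 h2 hs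

open Classical in
/-- Chunk UA7 (M). G(s) = sum over h in H, b in R.erase 0 of the sum over x of dd s (h/μ + x) (b/a) is analytic for Re s > 1/2 (dd_analytic) and equals 2 (a^(2s-1) - a^2) (Nm μ)^s / conj μ * Λ(s) for Re s > 3/2 (dd_dist with z = h/μ: (a - 1) h/μ = Nm μ k h/μ = cj μ k h in 𝓞 F by mul_cj; Ff_ray). Both sides are analytic on the connected set
{1/2 < Re s} (identity theorem: H55N.ident / AnalyticOnNhd.eqOn_of_preconnected_of_eventuallyEq; see H55P.gen_glue), so they agree at s = 1: the right side is 2 (a - a^2) μ Λ(1) (Nm μ = μ cj μ, e_cj). Left side: dd_one for z = h/μ, q = b/a: z, q, z ± q are not in the lattice (mem_LF; μ does not divide h because h is prime to m ≠ top; a does not divide b;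
if h/μ ± b/a = y then a h = μ (a y -+ b), so μ divides h since μ and a are coprime: a = 1 + Nm μ k, Nm μ = μ cj μ) and H35P.wp_ne: the difference of the values of the Weierstrass function is not 0, so the inner sum is the quotient. -/
theorem L_val {m : Ideal (𝓞 F)} {ψ : Ideal (𝓞 F) →*₀ 𝓞 F} (hψ : IsHecke m ψ) {μ : 𝓞 F}
    (hμ : Ideal.span {μ} = m) {H : Finset (𝓞 F)} (hH : HRep m ψ μ H) {a : ℕ} (a0 : 1 < a)
    (a1 : ∃ k, a = 1 + Nm μ * k) {R : Finset (𝓞 F)} (hR : Rep (a : 𝓞 F) R) {l : ℕ} {Om : ℂ} {Λ : ℂ → ℂ}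
    (hΛ : LU l Om ψ Λ) :
    ∑ h ∈ H, ∑ b ∈ R.erase 0, (LF F).derivWeierstrassP (eF F h / eF F μ) /
      ((LF F).weierstrassP (eF F h / eF F μ) - (LF F).weierstrassP (eF F b / (a : ℂ))) =
      2 * (a * (1 - a)) * eF F μ * Λ 1 := by
  have hμ0 : μ ≠ 0 := by
    rintro rfl
    apply hψ.ne
    rw [← hμ, Ideal.span_singleton_eq_bot]
  have hμ' : eF F μ ≠ 0 := H55P.eF_ne hμ0
  have hcμ : (starRingEnd ℂ) (eF F μ) ≠ 0 := (map_ne_zero _).2 hμ'
  have ha : a ≠ 0 := by omega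
  have ha' : (a : ℂ) ≠ 0 := Nat.cast_ne_zero.2 ha
  have hN : (Nm μ : ℂ) = eF F μ * (starRingEnd ℂ) (eF F μ) := by
    rw [← e_cj, ← map_mul, mul_cj, map_natCast]
  have hN0 : (Nm μ : ℂ) ≠ 0 := by
    rw [hN]
    exact mul_ne_zero hμ' hcμ
  have hG : ∀ s : ℂ, 3 / 2 < s.re → ∑ h ∈ H, ∑ b ∈ R.erase 0, ∑' x : 𝓞 F,
      dd s (eF F h / eF F μ + eF F x) (eF F b / (a : ℂ)) =
      2 * ((a : ℂ) ^ (2 * s - 1) - (a : ℂ) ^ 2) * ((Nm μ : ℂ) ^ s / (starRingEnd ℂ) (eF F μ) * Λ s) := by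
    intro s hs
    rw [← Ff_ray hψ μ hμ H hH s (Λ s) hs (hΛ.sum s hs), Finset.mul_sum]
    exact Finset.sum_congr rfl fun h _ => dd_dist F a ha R hR _ s hs (ua7_z hμ0 a1 h)
  have hA1 : AnalyticOnNhd ℂ (fun s : ℂ => ∑ h ∈ H, ∑ b ∈ R.erase 0, ∑' x : 𝓞 F,
      dd s (eF F h / eF F μ + eF F x) (eF F b / (a : ℂ))) {s | 1 / 2 < s.re} :=
    ua7_sum H fun h _ => ua7_sum (R.erase 0) fun b _ => (dd_analytic F _ _).2
  have hA2 : AnalyticOnNhd ℂ (fun s : ℂ => 2 * ((a : ℂ) ^ (2 * s - 1) - (a : ℂ) ^ 2) *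
      ((Nm μ : ℂ) ^ s / (starRingEnd ℂ) (eF F μ) * Λ s)) {s | 1 / 2 < s.re} := by
    refine (analyticOnNhd_const.mul ((ua7_cpow _ ha').sub analyticOnNhd_const)).mul (AnalyticOnNhd.mul ?_ hΛ.an)
    simp only [div_eq_mul_inv]
    exact (ua7_cpow' _ hN0).mul analyticOnNhd_const
  have hkey := ua7_ident _ _ hA1 hA2 hG 1 (by norm_num)
  have hterm : ∀ h ∈ H, ∀ b ∈ R.erase 0, (LF F).derivWeierstrassP (eF F h / eF F μ) /
      ((LF F).weierstrassP (eF F h / eF F μ) - (LF F).weierstrassP (eF F b / (a : ℂ))) =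
      ∑' x : 𝓞 F, dd 1 (eF F h / eF F μ + eF F x) (eF F b / (a : ℂ)) := by
    intro h hh b hb
    have hnd := ua7_ndvd hψ hμ (hH.prm h hh)
    have hz : eF F h / eF F μ ∉ (LF F).lattice := by
      have h1 := ua7_lat a0 hμ0 a1 hnd 0
      rwa [map_zero, zero_div, add_zero] at h1
    have hq : eF F b / (a : ℂ) ∉ (LF F).lattice := by
      rw [H55P.mem_LF]
      rintro ⟨y, hy⟩
      rw [div_eq_iff ha'] at hy
      have h1 : eF F b = eF F (y * a) := by rw [map_mul, map_natCast, hy]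
      have h2 := H55P.eF_inj h1
      rw [Finset.mem_erase] at hb
      exact hb.1 (hR.un b hb.2 0 hR.zero ⟨y, by rw [h2]; ring⟩)
    have hp := ua7_lat a0 hμ0 a1 hnd b
    have hm : eF F h / eF F μ - eF F b / (a : ℂ) ∉ (LF F).lattice := by
      have h1 := ua7_lat a0 hμ0 a1 hnd (-b)
      rwa [map_neg, neg_div, ← sub_eq_add_neg] at h1
    have hne := H35P.wp_ne (LF F) _ _ hz hq hp hm
    rw [← dd_one F _ _ hz hq hp hm, mul_div_assoc, div_self (sub_ne_zero.2 hne), mul_one]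
  rw [Finset.sum_congr rfl fun h hh => Finset.sum_congr rfl fun b hb => hterm h hh b hb]
  rw [hkey, Complex.cpow_one, hN]
  have e3 : (2 * 1 - 1 : ℂ) = 1 := by norm_num
  rw [e3, Complex.cpow_one]
  field_simp

end H55K
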