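import Mathlib
import Pool.Agent.Lib.H55K.UA7
import Pool.Agent.Lib.H55K.UB8

/-! # H55K: elliptic units: the coefficient -/

open NumberField IsDedekindDomain WeierstrassCurve

namespace H55K

open H55P (IQ embF eF LF Per IsHecke Pt ac Inert Dec Nm)
open H35P (WAB Ker tt)


variable {F : Type} [Field F] [NumberField F] [IQ F] {A B : F} {Om : ℂ} {Ω : Type} [Field Ω] [DecidableEq Ω]
  [Algebra F Ω] {j : Ω →+* ℂ} {act : 𝓞 F →+* AddMonoid.End (Pt (WAB A B) Ω)} {m : Ideal (𝓞 F)}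
  {ψ : Ideal (𝓞 F) →*₀ 𝓞 F} {l : ℕ} {μ : 𝓞 F} {a : ℕ} {ρ τ : Pt (WAB A B) Ω} {H R : Finset (𝓞 F)}
  {D S : Finset (Pt (WAB A B) Ω)}

theorem ub9_alg (p u w Om : ℂ) (hO : Om ≠ 0) :
    p / (2 * Om ^ 3) / (u / Om ^ 2 - w / Om ^ 2) = 1 / (2 * Om) * (p / (u - w)) := by
  rw [← sub_div]
  by_cases h : u - w = 0
  · rw [h, zero_div, div_zero, div_zero, mul_zero]
  · field_simp

omit [NumberField F] [IQ F] in
theorem ub9_sub {b c : 𝓞 F} {P : Pt (WAB A B) Ω} (h : act b P = act c P) : act (b - c) P = 0 := by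
  have h1 : act (b - c) P = act b P - act c P := by
    rw [map_sub]
    rfl
  rw [h1, h, sub_self]

/-- Chunk UB9B (S/M). The sums over D and S as sums over H and R.erase 0 (memD', memS': the maps h ↦ act h ρ on H and b ↦ act b τ on R.erase 0 are injective by HRep.un, Rep.un, rho0, tau), rhox, taux; L_val: 4 * (1/(2 Om)) * 2 a (1 - a) μ Λ(1). -/
theorem cU_val (h : Dta A B Om j act m ψ l) (hU : UDat Om j act m ψ l μ a ρ τ H R D S) {Λ : ℂ → ℂ}
    (hΛ : LU l Om ψ Λ) : j (cU D S) = 4 * (a * (1 - a)) * eF F μ * (Λ 1 / Om) := by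
  classical
  have hOm : Om ≠ 0 := h.cma.per.ne
  have hD : D = H.image fun x => act x ρ := by
    ext X
    rw [hU.memD' X, Finset.mem_image]
    exact ⟨fun ⟨x, hx, hX⟩ => ⟨x, hx, hX.symm⟩, fun ⟨x, hx, hX⟩ => ⟨x, hx, hX.symm⟩⟩
  have hS : S = (R.erase 0).image fun b => act b τ := by
    ext Q
    rw [hU.memS' Q, Finset.mem_image]
    constructor
    · rintro ⟨b, hb, hb0, hQ⟩
      exact ⟨b, Finset.mem_erase.2 ⟨hb0, hb⟩, hQ.symm⟩
    · rintro ⟨b, hb, hQ⟩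
      exact ⟨b, (Finset.mem_erase.1 hb).2, (Finset.mem_erase.1 hb).1, hQ.symm⟩
  have hDi : Set.InjOn (fun x => act x ρ) (H : Set (𝓞 F)) := by
    intro x hx y hy hxy
    exact hU.hrep.un x hx y hy ((hU.rho0 _).1 (ub9_sub hxy))
  have hSi : Set.InjOn (fun b => act b τ) ((R.erase 0 : Finset (𝓞 F)) : Set (𝓞 F)) := by
    intro x hx y hy hxy
    exact hU.rep.un x (Finset.mem_erase.1 hx).2 y (Finset.mem_erase.1 hy).2 ((hU.tau _).1 (ub9_sub hxy))
  have hsum : ∑ X ∈ D, ∑ Q ∈ S, j (yc X) / (j (xc X) - j (xc Q)) =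
      ∑ x ∈ H, ∑ b ∈ R.erase 0, 1 / (2 * Om) * ((LF F).derivWeierstrassP (eF F x / eF F μ) /
        ((LF F).weierstrassP (eF F x / eF F μ) - (LF F).weierstrassP (eF F b / (a : ℂ)))) := by
    rw [hD, hS, Finset.sum_image hDi]
    apply Finset.sum_congr rfl
    intro x hx
    rw [Finset.sum_image hSi]
    apply Finset.sum_congr rfl
    intro b hb
    have h1 : ¬ μ ∣ x := ua7_ndvd h.hecke hU.mu (hU.hrep.prm x hx)
    have h2 : ¬ (a : 𝓞 F) ∣ b := by
      intro h3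
      exact (Finset.mem_erase.1 hb).1 (hU.rep.un b (Finset.mem_erase.1 hb).2 0 hU.rep.zero (by rwa [sub_zero]))
    obtain ⟨e1, e2⟩ := hU.rhox x h1
    rw [e1, e2, hU.taux b h2]
    exact ub9_alg _ _ _ _ hOm
  have hL := L_val h.hecke hU.mu hU.hrep hU.a0 hU.a1 hU.rep hΛ
  unfold cU
  rw [map_mul, map_ofNat, map_sum]
  simp only [map_sum, map_div₀, map_sub]
  rw [hsum]
  simp only [← Finset.mul_sum]
  rw [hL]
  field_simp

end H55K
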