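import Mathlib
import Pool.Agent.Lib.H55K.UB9B

/-! # H55K: elliptic units: the coefficient -/

open NumberField IsDedekindDomain WeierstrassCurve

namespace H55K

open H55P (IQ embF eF LF Per IsHecke Pt ac Inert Dec Nm)
open H35P (WAB Ker tt)


variable {F : Type} [Field F] [NumberField F] [IQ F] {A B : F} {Om : ℂ} {Ω : Type} [Field Ω] [DecidableEq Ω]
  [Algebra F Ω] {j : Ω →+* ℂ} {act : 𝓞 F →+* AddMonoid.End (Pt (WAB A B) Ω)} {m : Ideal (𝓞 F)}
  {ψ : Ideal (𝓞 F) →*₀ 𝓞 F} {l : ℕ} {μ : 𝓞 F} {a : ℕ} {ρ τ : Pt (WAB A B) Ω} {H R : Finset (𝓞 F)}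
  {D S : Finset (Pt (WAB A B) Ω)}

theorem ub9c_lt {L : Type} [Field L] (W : ValuationSubring L) {y : L} (hy : y ≠ 0) :
    W.valuation y < 1 ↔ y⁻¹ ∉ W := by
  rw [← W.valuation_le_one_iff, not_le, map_inv₀, one_lt_inv₀]
  exact zero_lt_iff.2 ((Valuation.ne_zero_iff _).2 hy)

omit [DecidableEq Ω] [Algebra F Ω] in
/-- Chunk UB9C (S/M). The image of V in the subfield j(Ω) is a valuation ring; it is dominated by a valuation ring of ℂ (LocalSubring.exists_le_valuationSubring or H13S.exists_above, H55P.exists_above_p for the style), whose intersection with j(Ω) is V (a valuation ring is maximal for domination). -/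
theorem exists_ext {Ω : Type} [Field Ω] (j : Ω →+* ℂ) (V : ValuationSubring Ω) : ∃ V' : ValuationSubring ℂ,
    ∀ x : Ω, (j x ∈ V' ↔ x ∈ V) ∧ (V'.valuation (j x) < 1 ↔ V.valuation x < 1) := by
  obtain ⟨V', hV'⟩ := (V.toLocalSubring.map j).exists_le_valuationSubring
  obtain ⟨h1, h2⟩ := LocalSubring.le_def.1 hV'
  have hmem : ∀ x : Ω, j x ∈ V' ↔ x ∈ V := by
    intro x
    refine ⟨fun hx => ?_, fun hx => h1 ⟨x, hx, rfl⟩⟩
    by_contra hc
    have hx0 : x ≠ 0 := by
      rintro rfl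
      exact hc V.zero_mem
    have hi : x⁻¹ ∈ V := (V.mem_or_inv_mem x).resolve_left hc
    have hm : j x⁻¹ ∈ (V.toLocalSubring.map j).toSubring := ⟨x⁻¹, hi, rfl⟩
    have hu : IsUnit (Subring.inclusion h1 ⟨j x⁻¹, hm⟩) := by
      refine isUnit_iff_exists_inv.2 ⟨⟨j x, hx⟩, Subtype.ext ?_⟩
      show j x⁻¹ * j x = 1
      rw [← map_mul, inv_mul_cancel₀ hx0, map_one]
    obtain ⟨⟨b, hb⟩, hb1⟩ := isUnit_iff_exists_inv.1 (h2.map_nonunit _ hu)
    obtain ⟨z, hz, rfl⟩ := hb
    have h3 : j (x⁻¹ * z) = j 1 := by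
      rw [map_mul, map_one]
      exact congrArg Subtype.val hb1
    have h4 : x⁻¹ * z = 1 := j.injective h3
    have h5 : z = x := by
      rw [inv_mul_eq_iff_eq_mul₀ hx0, mul_one] at h4
      exact h4
    rw [h5] at hz
    exact hc hz
  refine ⟨V', fun x => ⟨hmem x, ?_⟩⟩
  rcases eq_or_ne x 0 with rfl | hx0
  · simp
  · rw [ub9c_lt V hx0, ub9c_lt V' (fun h => hx0 (j.injective (by rw [h, map_zero]))), ← map_inv₀, hmem]

/-- Chunk UB9C. V' from exists_ext: V'(l) < 1, so hΛ.val; V'(4) = V'(a) = V'(1 - a) = 1 (a = 2 + l k, l odd), V'(eF F μ) = 1 (h.cma.ovr: eF F μ = j (ak Ω μ); μ * cj μ = Nm μ is prime to l). So V'(j cU) = 1, V(cU) = 1. -/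
theorem cU_unit (h : Dta A B Om j act m ψ l) (hU : UDat Om j act m ψ l μ a ρ τ H R D S) {Λ : ℂ → ℂ}
    (hΛ : LU l Om ψ Λ) {V : ValuationSubring Ω} (hV : V.valuation (l : Ω) < 1) :
    V.valuation (cU D S) = 1 := by
  obtain ⟨V', hV'⟩ := exists_ext j V
  have hl : V'.valuation (l : ℂ) < 1 := by
    have := (hV' (l : Ω)).2.2 hV
    rwa [map_natCast] at this
  have hint : ∀ z : ℤ, V'.valuation (z : ℂ) ≤ 1 := by
    intro z
    rw [V'.valuation_le_one_iff]
    exact intCast_mem V' z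
  have hun : ∀ z : ℤ, ¬ (l : ℤ) ∣ z → V'.valuation (z : ℂ) = 1 := by
    intro z hz
    refine le_antisymm (hint z) (not_lt.1 fun hlt => ?_)
    obtain ⟨x, y, hxy⟩ := (Nat.prime_iff_prime_int.1 h.prime).coprime_iff_not_dvd.2 hz
    have e : (1 : ℂ) = (x : ℂ) * (l : ℂ) + (y : ℂ) * (z : ℂ) := by
      have := congrArg (fun t : ℤ => (t : ℂ)) hxy
      push_cast at this
      exact this.symm
    have h1 : V'.valuation (1 : ℂ) < 1 := by
      rw [e]
      refine lt_of_le_of_lt (V'.valuation.map_add _ _) (max_lt ?_ ?_)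
      · rw [map_mul]
        exact lt_of_le_of_lt (mul_le_of_le_one_left' (hint x)) hl
      · rw [map_mul]
        exact lt_of_le_of_lt (mul_le_of_le_one_left' (hint y)) hlt
    rw [map_one] at h1
    exact lt_irrefl _ h1
  have h5 := h.five
  have hlodd : ¬ (l : ℤ) ∣ 2 := by
    intro hd
    have := Int.le_of_dvd (by norm_num) hd
    omega
  have h4 : V'.valuation (4 : ℂ) = 1 := by
    have := hun 4 (by
      intro hd
      have := Int.le_of_dvd (by norm_num) hd
      omega)
    exact_mod_cast this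
  obtain ⟨k, hk⟩ := hU.a2
  have ha : V'.valuation (a : ℂ) = 1 := by
    have := hun a (by
      intro hd
      apply hlodd
      have e : (2 : ℤ) = (a : ℤ) - l * k := by
        rw [hk]
        push_cast
        ring
      rw [e]
      exact dvd_sub hd (dvd_mul_right _ _))
    exact_mod_cast this
  have ha1 : V'.valuation (1 - (a : ℂ)) = 1 := by
    have := hun (1 - a) (by
      intro hd
      have e : (1 : ℤ) = -(1 - (a : ℤ)) - l * k := by
        rw [hk]
        push_cast
        ring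
      have h1 : (l : ℤ) ∣ 1 := by
        rw [e]
        exact dvd_sub ((dvd_neg).2 hd) (dvd_mul_right _ _)
      have := Int.le_of_dvd (by norm_num) h1
      omega)
    push_cast at this
    exact this
  have he : ∀ x : 𝓞 F, V'.valuation (eF F x) ≤ 1 := by
    intro x
    rw [V'.valuation_le_one_iff]
    have h1 : eF F x = j (ak Ω x) := (h.cma.ovr (x : F)).symm
    rw [h1, (hV' _).1, ← V.valuation_le_one_iff]
    exact ak_le V x
  have hμ : V'.valuation (eF F μ) = 1 := by
    refine le_antisymm (he μ) (not_lt.1 fun hlt => ?_)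
    have h1 : V'.valuation ((Nm μ : ℕ) : ℂ) = 1 := by
      have := hun (Nm μ) (by
        rw [Int.natCast_dvd_natCast]
        intro hd
        have h2 := (Nat.Coprime.dvd_of_dvd_mul_left (Nat.Coprime.symm hU.cop) (by rw [mul_one]; exact hd : l ∣ Nm μ * 1))
        exact h.prime.one_lt.ne' (Nat.dvd_one.1 h2))
      exact_mod_cast this
    have h2 : eF F μ * eF F (cj μ) = ((Nm μ : ℕ) : ℂ) := by
      rw [← map_mul, mul_cj, map_natCast]
    rw [← h2, map_mul] at h1
    have h3 : V'.valuation (eF F μ) * V'.valuation (eF F (cj μ)) < 1 :=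
      lt_of_le_of_lt (mul_le_of_le_one_right' (he (cj μ))) hlt
    rw [h1] at h3
    exact lt_irrefl _ h3
  have hj : V'.valuation (j (cU D S)) = 1 := by
    rw [cU_val h hU hΛ, map_mul, map_mul, map_mul, map_mul, h4, ha, ha1, hμ, hΛ.val V' hl]
    simp
  refine le_antisymm ?_ (not_lt.1 fun hlt => ?_)
  · rw [V.valuation_le_one_iff, ← (hV' _).1, ← V'.valuation_le_one_iff]
    exact hj.le
  · have := (hV' _).2.2 hlt
    rw [hj] at this
    exact lt_irrefl _ this

end H55K
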