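import Mathlib
import Pool.Agent.Lib.H55K.G1

/-! # H55K: elliptic units: the coefficient -/

open NumberField IsDedekindDomain WeierstrassCurve

namespace H55K

open H55P (IQ embF eF LF Per IsHecke Pt ac Inert Dec Nm)
open H35P (WAB Ker tt)


variable {F : Type} [Field F] [NumberField F] [IQ F] {A B : F} {Om : ℂ} {Ω : Type} [Field Ω] [DecidableEq Ω]
  [Algebra F Ω] {j : Ω →+* ℂ} {act : 𝓞 F →+* AddMonoid.End (Pt (WAB A B) Ω)} {m : Ideal (𝓞 F)}
  {ψ : Ideal (𝓞 F) →*₀ 𝓞 F} {l : ℕ} {μ : 𝓞 F} {a : ℕ} {ρ τ : Pt (WAB A B) Ω} {H R : Finset (𝓞 F)}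
  {D S : Finset (Pt (WAB A B) Ω)}

omit [IQ F] [DecidableEq Ω] in
theorem ub9d_unit {π : 𝓞 F} (hπ : Prime π) {V : ValuationSubring Ω} (hV : V.valuation (ak Ω π) < 1) {x : 𝓞 F}
    (hx : ¬ π ∣ x) : (∃ u w : 𝓞 F, u * x + π * w = 1) ∧ V.valuation (ak Ω x) = 1 := by
  have hp : (Ideal.span {π} : Ideal (𝓞 F)).IsPrime := (Ideal.span_singleton_prime hπ.ne_zero).2 hπ
  have hm : (Ideal.span {π} : Ideal (𝓞 F)).IsMaximal :=
    hp.isMaximal fun h0 => hπ.ne_zero (Ideal.span_singleton_eq_bot.1 h0)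
  have hx' : x ∉ (Ideal.span {π} : Ideal (𝓞 F)) := fun h0 => hx (Ideal.mem_span_singleton.1 h0)
  obtain ⟨u, i, hi, h1⟩ := hm.exists_inv hx'
  obtain ⟨w, rfl⟩ := Ideal.mem_span_singleton.1 hi
  refine ⟨⟨u, w, h1⟩, ?_⟩
  have h2 : ak Ω u * ak Ω x + ak Ω π * ak Ω w = 1 := by
    have h3 := congrArg (ak Ω) h1
    simpa only [ak, map_add, map_mul, map_one] using h3
  have h4 : V.valuation (ak Ω π * ak Ω w) < 1 := by
    rw [map_mul]
    exact mul_lt_one_of_lt_of_le hV (ak_le V w)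
  have h5 : V.valuation (ak Ω u * ak Ω x) = 1 := by
    have h6 : ak Ω u * ak Ω x = 1 - ak Ω π * ak Ω w := by rw [← h2]; ring
    rw [h6, Valuation.map_one_sub_of_lt _ h4]
  rw [map_mul] at h5
  refine le_antisymm (ak_le V x) ?_
  rw [← h5]
  exact mul_le_of_le_one_left' (ak_le V u)

omit [NumberField F] [IQ F] [DecidableEq Ω] in
/-- Chunk UB9D (S/M). Some V₀ lies above π (H13S.exists_above, or 1: if there is none take c = 1). c₁ = x/y with x, y in 𝓞 F, π not dividing y (principal ideal domain: cancel powers of π; V₀(c₁) = 1, V₀(y) < 1 if π divides y), π does not divide x. c with y c + x in span {π} (y is invertible modulo π). V(c + c₁) = V(y c + x)/V(y) ≤ V(π) for every V with V(π) < 1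
(V(y) = 1: u y + w π = 1). -/
theorem int_repl {F : Type} [Field F] [NumberField F] [IQ F] {Ω : Type} [Field Ω] [Algebra F Ω]
    [IsAlgClosure F Ω] {π : 𝓞 F} (hπ : Prime π) (c₁ : F)
    (hc : ∀ V : ValuationSubring Ω, V.valuation (ak Ω π) < 1 → V.valuation (algebraMap F Ω c₁) = 1) :
    ∃ c : 𝓞 F, ¬ π ∣ c ∧ ∀ V : ValuationSubring Ω, V.valuation (ak Ω π) < 1 →
      V.valuation (ak Ω c + algebraMap F Ω c₁) ≤ V.valuation (ak Ω π) := by
  classical
  by_cases hV : ∃ V₀ : ValuationSubring Ω, V₀.valuation (ak Ω π) < 1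
  swap
  · exact ⟨1, hπ.not_dvd_one, fun V h => absurd ⟨V, h⟩ hV⟩
  obtain ⟨V₀, hV₀⟩ := hV
  have hv1 := hc V₀ hV₀
  obtain ⟨x0, y0, hy0, hxy⟩ := IsFractionRing.div_surjective (𝓞 F) c₁
  have hy0' : y0 ≠ 0 := nonZeroDivisors.ne_zero hy0
  have hx0 : x0 ≠ 0 := by
    rintro rfl
    rw [map_zero, zero_div] at hxy
    rw [← hxy, map_zero, map_zero] at hv1
    exact zero_ne_one hv1
  obtain ⟨n, x, hx, rfl⟩ := WfDvdMonoid.max_power_factor hx0 hπ.irreducible
  obtain ⟨m, y, hy, rfl⟩ := WfDvdMonoid.max_power_factor hy0' hπ.irreducible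
  have hπ0 : ak Ω π ≠ 0 := by
    intro h0
    apply hπ.ne_zero
    have h1 : algebraMap F Ω (π : F) = algebraMap F Ω 0 := by rw [map_zero]; exact h0
    have h2 := (algebraMap F Ω).injective h1
    exact_mod_cast h2
  have hxv := (ub9d_unit (Ω := Ω) hπ hV₀ hx).2
  have hyv := (ub9d_unit (Ω := Ω) hπ hV₀ hy).2
  have hnm : n = m := by
    have h1 : algebraMap F Ω c₁ = (ak Ω π ^ n * ak Ω x) / (ak Ω π ^ m * ak Ω y) := by
      rw [← hxy]
      simp only [ak, map_div₀, map_mul, map_pow]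
    rw [h1, map_div₀, map_mul, map_mul, map_pow, map_pow, hxv, hyv, mul_one, mul_one] at hv1
    have h2 : 0 < V₀.valuation (ak Ω π) := by
      rw [zero_lt_iff]
      exact (V₀.valuation).ne_zero_iff.2 hπ0
    have h3 : V₀.valuation (ak Ω π) ^ m ≠ 0 := pow_ne_zero _ h2.ne'
    rw [div_eq_one_iff_eq h3] at hv1
    exact (pow_right_strictAnti₀ h2 hV₀).injective hv1
  subst hnm
  obtain ⟨⟨u, w, h1⟩, -⟩ := ub9d_unit (Ω := Ω) hπ hV₀ hy
  have hπF : (algebraMap (𝓞 F) F π) ^ n ≠ 0 := by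
    apply pow_ne_zero
    intro h0
    exact hπ.ne_zero ((IsFractionRing.injective (𝓞 F) F) (by rw [h0, map_zero]))
  have hyF : algebraMap (𝓞 F) F y ≠ 0 := by
    intro h0
    apply hy
    have h2 : y = 0 := (IsFractionRing.injective (𝓞 F) F) (by rw [h0, map_zero])
    rw [h2]
    exact dvd_zero _
  have hc1 : c₁ = algebraMap (𝓞 F) F x / algebraMap (𝓞 F) F y := by
    rw [← hxy, map_mul, map_mul, map_pow, mul_div_mul_left _ _ hπF]
  refine ⟨-(x * u), ?_, fun V hV => ?_⟩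
  · rw [dvd_neg]
    intro h2
    rcases hπ.dvd_or_dvd h2 with h3 | h3
    · exact hx h3
    · apply hπ.not_dvd_one
      rw [← h1]
      exact dvd_add (h3.mul_right _) (dvd_mul_right _ _)
  · have h2 : ak Ω (-(x * u)) + algebraMap F Ω c₁ = ak Ω x * ak Ω w * ak Ω π / ak Ω y := by
      have h3 : algebraMap (𝓞 F) F (-(x * u)) + c₁ = algebraMap (𝓞 F) F x * algebraMap (𝓞 F) F w *
          algebraMap (𝓞 F) F π / algebraMap (𝓞 F) F y := by
        rw [hc1, eq_div_iff hyF, add_mul, div_mul_cancel₀ _ hyF]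
        have h4 := congrArg (algebraMap (𝓞 F) F) h1
        rw [map_add, map_mul, map_mul, map_one] at h4
        rw [map_neg, map_mul]
        linear_combination (-(algebraMap (𝓞 F) F x)) * h4
      have h5 := congrArg (algebraMap F Ω) h3
      simpa only [ak, map_add, map_mul, map_div₀] using h5
    have hyv' := (ub9d_unit (Ω := Ω) hπ hV hy).2
    rw [h2, map_div₀, map_mul, map_mul, hyv', div_one]
    exact mul_le_of_le_one_left' (mul_le_one' (ak_le V x) (ak_le V w))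

end H55K
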