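import Mathlib
import Pool.Agent.Lib.H55K.G5D
import Pool.Agent.Lib.H55K.UB10A
import Pool.Agent.Lib.H55K.UB1B
import Pool.Agent.Lib.H55K.UB5B
import Pool.Agent.Lib.H55K.UB7B
import Pool.Agent.Lib.H55K.UB9A
import Pool.Agent.Lib.H55K.UB9C
import Pool.Agent.Lib.H55K.UB9D
import Pool.Agent.Lib.H55K.XD

/-! # H55K: elliptic units: the main theorem -/

open NumberField IsDedekindDomain WeierstrassCurve

namespace H55K

open H55P (IQ embF eF LF Per IsHecke Pt ac Inert Dec Nm)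
open H35P (WAB Ker tt)


variable {F : Type} [Field F] [NumberField F] [IQ F] {A B : F} {Om : ℂ} {Ω : Type} [Field Ω] [DecidableEq Ω]
  [Algebra F Ω] {j : Ω →+* ℂ} {act : 𝓞 F →+* AddMonoid.End (Pt (WAB A B) Ω)} {m : Ideal (𝓞 F)}
  {ψ : Ideal (𝓞 F) →*₀ 𝓞 F} {l : ℕ} {μ : 𝓞 F} {a : ℕ} {ρ τ : Pt (WAB A B) Ω} {H R : Finset (𝓞 F)}
  {D S : Finset (Pt (WAB A B) Ω)}

/-- A point killed by a divisor of l is killed by l. -/
theorem ub10b_tor {π : 𝓞 F} (hd : π ∣ (l : 𝓞 F)) {T : Pt (WAB A B) Ω} (hT : T ∈ Tor act π) : l • T = 0 := by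
  obtain ⟨c, hc⟩ := hd
  have h1 : act (l : 𝓞 F) T = l • T := by
    rw [map_natCast]
    rfl
  have h2 : act (l : 𝓞 F) T = act c (act π T) := by
    rw [hc, mul_comm, map_mul]
    rfl
  have h3 : act π T = 0 := hT
  rw [← h1, h2, h3, map_zero]

omit [IQ F] [DecidableEq Ω] in
theorem ub10b_val {π : 𝓞 F} (hd : π ∣ (l : 𝓞 F)) {V : ValuationSubring Ω} (hV : V.valuation (ak Ω π) < 1) :
    V.valuation (l : Ω) < 1 := by
  obtain ⟨c, hc⟩ := hd
  have h1 : (l : Ω) = ak Ω π * ak Ω c := by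
    have h2 : (l : Ω) = ak Ω ((l : 𝓞 F)) := by
      show (l : Ω) = algebraMap F Ω (algebraMap (𝓞 F) F ((l : 𝓞 F)))
      rw [map_natCast, map_natCast]
    rw [h2, hc]
    show algebraMap F Ω (algebraMap (𝓞 F) F (π * c)) =
      algebraMap F Ω (algebraMap (𝓞 F) F π) * algebraMap F Ω (algebraMap (𝓞 F) F c)
    rw [map_mul, map_mul]
  rw [h1, map_mul]
  exact mul_lt_one_of_lt_of_le hV (ak_le V c)

/-- Chunk UB10B (M). THE ELLIPTIC UNIT. exists_UDat, Xi D S: gal = Xi_gal; unit0 = Xi_unit with R₁ = 0, n = 1 (act π T = 0 and π ∣ l give l • T = 0); exp: c₁ from cU_mem, int_repl (cU_unit: V(π) < 1 implies V(l) < 1), Xi_exp (T is in Ker V by tor_ram), and V((c + c₁) tt T) ≤ V(π) V(tt T) = V(tt T)^(Nm π) ≤ V(tt T)^2 (tor_ram, Nm π ≥ 2);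
fin: fin_set; Xi_unit with n = Nm β (tor_nm); Xi_cong (R in Ker by tor_ram); Xi_norm: Xi T * prod = Xi (act β T) = Xi T and Xi T ≠ 0 (unit0). -/
theorem exists_XiD [IsAlgClosure F Ω] (h : Dta A B Om j act m ψ l) {Λ : ℂ → ℂ} (hΛ : LU l Om ψ Λ)
    {π : 𝓞 F} (hπ : Prime π) (hd : π ∣ (l : 𝓞 F)) : ∃ Ξ : Pt (WAB A B) Ω → Ω, XiD act ψ π Ξ := by
  obtain ⟨μ, a, ρ, τ, H, R, D, S, hU⟩ := exists_UDat h
  have hu0 : ∀ T ∈ Tor act π, T ≠ 0 → ∀ V : ValuationSubring Ω, V.valuation (Xi D S T) = 1 := by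
    intro T hT h0 V
    have := Xi_unit h hU (ub10b_tor hd hT) h0 (n := 1) (R₁ := 0) (by simp) (by simp) (by simp) V
    rwa [add_zero] at this
  refine ⟨Xi D S, fun s P => Xi_gal h hU s P, hu0, ?_, ?_⟩
  · obtain ⟨c₁, hc₁⟩ := cU_mem h hU
    obtain ⟨c, hc, hc'⟩ := int_repl (Ω := Ω) hπ c₁ (fun V hV => by
      rw [hc₁]
      exact cU_unit h hU hΛ (ub10b_val hd hV))
    refine ⟨c, hc, fun V hV T hT h0 => ?_⟩
    have hVl := ub10b_val hd hV
    obtain ⟨hK, hr⟩ := tor_ram h.cma (h.good V hVl) hπ hV hT h0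
    have h1 := Xi_exp h hU hVl hK
    have h2 := hc' V hV
    rw [hc₁] at h2
    have e1 : Xi D S T - 1 - ak Ω c * tt T = (Xi D S T - 1 + cU D S * tt T) - (ak Ω c + cU D S) * tt T := by
      ring
    rw [e1]
    refine (V.valuation.map_sub _ _).trans (max_le h1 ?_)
    rw [map_mul]
    have ht : V.valuation (tt T) < 1 := by
      by_contra hcon
      rw [not_lt] at hcon
      have := one_le_pow₀ (n := Nm π - 1) hcon
      rw [hr] at this
      exact absurd hV (not_lt.2 this)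
    have hn : Nm π - 1 ≠ 0 := by
      intro hn
      rw [hn, pow_zero] at hr
      rw [← hr] at hV
      exact lt_irrefl _ hV
    have h3 : V.valuation (ak Ω π) ≤ V.valuation (tt T) := by
      rw [← hr]
      exact pow_le_of_le_one zero_le ht.le hn
    calc V.valuation (ak Ω c + cU D S) * V.valuation (tt T) ≤ V.valuation (tt T) * V.valuation (tt T) :=
          mul_le_mul_left (h2.trans h3) _
      _ = V.valuation (tt T) ^ 2 := (sq _).symm
  · obtain ⟨E, hE, hE'⟩ := fin_set h hU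
    refine ⟨E, hE, fun v hv hq T hT h0 => ?_⟩
    obtain ⟨q1, q2, q3, q4, q5, q6, q7⟩ := hE' v hv hq
    have hl := ub10b_tor hd hT
    refine ⟨fun R hR V => ?_, fun R hR V hV => ?_, fun hfix S' hS' => ?_⟩
    · exact Xi_unit h hU hl h0 (tor_nm hR) q5 q6 V
    · obtain ⟨r1, r2⟩ := q7 V hV
      refine Xi_cong h hU r1 r2 hl h0 ?_
      by_cases hR0 : R = 0
      · rw [hR0]
        exact ker_zero V
      · exact (tor_ram h.cma r1 q1 hV hR hR0).1
    · have h1 := Xi_norm h hU q1.ne_zero q2 q3 q4 hS' hl h0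
      rw [hfix] at h1
      have h2 : Xi D S T ≠ 0 := by
        intro h3
        have h4 := hu0 T hT h0 ⊤
        rw [h3, map_zero] at h4
        exact zero_ne_one h4
      exact mul_left_cancel₀ h2 (by rw [h1, mul_one])

end H55K
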