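import Mathlib
import Pool.Agent.Lib.H55K.UD
import Pool.Agent.Lib.H55P.GenStm
import Pool.Agent.Lib.H55P.Z13

/-! # H55K: the L-series over F and over the bottom field -/

open NumberField IsDedekindDomain WeierstrassCurve

namespace H55K

open H55P (IQ embF eF LF Per IsHecke Pt ac Inert Dec Nm)
open H35P (WAB Ker tt)


variable {F : Type} [Field F] [NumberField F] [IQ F]

/-- Chunk Y2 (S/M). H55P.pz13_equiv (Z13.lean) for K = F, K' = the bottom field (algebraMap is surjective) gives a bijection ε of the ideals with relNorm (ε J) = J and the same absolute norm: the HasSum over the ideals of the bottom field (tm (PsiP _ ψ) s, PsiP_apply) becomes the one over the ideals of F (Equiv.hasSum_iff).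
finrank of the bottom field is 1; UnitP is the condition val. -/
theorem LU_of {p : ℕ} {Om : ℂ} {ψ : Ideal (𝓞 F) →*₀ 𝓞 F}
    [NumberField (⊥ : IntermediateField F (AlgebraicClosure F))]
    (h : H55P.ValG p Om ψ (⊥ : IntermediateField F (AlgebraicClosure F))) : ∃ Λ : ℂ → ℂ, LU p Om ψ Λ := by
  obtain ⟨Λ, h1, h2, -, h3⟩ := h
  have hsurj : Function.Surjective
      (algebraMap F (⊥ : IntermediateField F (AlgebraicClosure F))) := by
    rintro ⟨x, hx⟩
    obtain ⟨y, hy⟩ := IntermediateField.mem_bot.1 hx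
    exact ⟨y, Subtype.ext hy⟩
  obtain ⟨ε, hε⟩ := H55P.pz13_equiv F (⊥ : IntermediateField F (AlgebraicClosure F)) hsurj
  refine ⟨Λ, h1, fun s hs => ?_, fun V hV => ?_⟩
  · have h4 := h2 s hs
    rw [← ε.hasSum_iff] at h4
    refine h4.congr_fun fun J => ?_
    obtain ⟨e1, e2⟩ := hε J
    show (starRingEnd ℂ) (eF F (ψ J)) * (Ideal.absNorm J : ℂ) ^ (-s) =
      H55P.PsiP _ ψ (ε J) * (Ideal.absNorm (ε J) : ℂ) ^ (-s)
    rw [H55P.PsiP_apply, e1, e2]
  · have h4 := h3 V hV
    rwa [IntermediateField.finrank_bot, pow_one] at h4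

end H55K
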