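import Mathlib
import Pool.Agent.Lib.H55K.CM
import Pool.Agent.Lib.H55K.MM
import Pool.Agent.Lib.H55K.SF
import Pool.Agent.Lib.H55K.UB10B
import Pool.Agent.Lib.H55K.Y1
import Pool.Agent.Lib.H55K.Y2
import Pool.Agent.Lib.H55K.Y5
import Pool.Agent.Lib.H55K.Y6

/-! # H55K: the base theorem -/

open NumberField IsDedekindDomain WeierstrassCurve

namespace H55K

open H55P (IQ embF eF LF Per IsHecke Pt ac Inert Dec Nm CMData)
open H35P (WAB Ker tt)

variable {F : Type} [Field F] [NumberField F] [IQ F] {W₀ : WeierstrassCurve (𝓞 F)} {Om : ℂ}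
    {m : Ideal (𝓞 F)} {ψ : Ideal (𝓞 F) →*₀ 𝓞 F} {p : ℕ}

/-- THE BASE THEOREM. If the value of the L-function at 1, divided by the period, is a p-adic unit then the p-Selmer group over F is
zero. -/
theorem base_main (hB : Base F W₀ Om m ψ p) [NumberField (⊥ : IntermediateField F (AlgebraicClosure F))]
    (hL : H55P.ValG p Om ψ (⊥ : IntermediateField F (AlgebraicClosure F))) :
    H55P.SelG p W₀ (⊥ : IntermediateField F (AlgebraicClosure F)) := by
  classical
  obtain ⟨j, hj⟩ := exists_j F (AlgebraicClosure F)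
  obtain ⟨A, hA⟩ : ∃ A : F, A = -(algebraMap (𝓞 F) F W₀.c₄) / 48 := ⟨_, rfl⟩
  obtain ⟨B, hB'⟩ : ∃ B : F, B = -(algebraMap (𝓞 F) F W₀.c₆) / 864 := ⟨_, rfl⟩
  have hd := y3_ne W₀ hA hB' hB.data.ell
  have hper : Per F (embF F A) (embF F B) Om := by
    have e1 : embF F A = -(eF F W₀.c₄) / 48 := by
      rw [hA, map_div₀, map_neg, map_ofNat]
      rfl
    have e2 : embF F B = -(eF F W₀.c₆) / 864 := by
      rw [hB', map_div₀, map_neg, map_ofNat]
      rfl
    rw [e1, e2]
    exact hB.data.per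
  obtain ⟨act, hact⟩ := exists_CMA F A B Om j hd hper hj
  have hG : ∀ V : ValuationSubring (AlgebraicClosure F),
      ∃ (Kg : AddSubgroup (Pt (WAB A B) (AlgebraicClosure F))) (u : AlgebraicClosure F),
        GMod (WAB A B) V Kg u := fun V => exists_gmod hd (y3_j W₀ hA hB' hB.jint) V
  have hD : Dta A B Om j act m ψ p := mk_Dta hB hA hB' hact hG
  obtain ⟨Λ, hΛ⟩ := LU_of hL
  have h1 : H55P.SelZero (WAB A B) p (⊥ : IntermediateField F (AlgebraicClosure F)) :=
    selzero_xi hD fun π hπ hd => exists_XiD hD hΛ hπ hd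
  exact sel_short W₀ hA hB' hB.data.ell p ⊥ h1

end H55K
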