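import Mathlib
import Pool.Agent.Lib.H55K.DM
import Pool.Agent.Lib.H55K.FB8
import Pool.Agent.Lib.H55K.FD
import Pool.Agent.Lib.H55K.NF
import Pool.Agent.Lib.H55K.T10
import Pool.Agent.Lib.H55K.XF
import Pool.Agent.Lib.H55K.Y8

/-! # H55K: the theorem over F -/

open NumberField IsDedekindDomain WeierstrassCurve

namespace H55K.TQ

open H55P (IQ embF eF LF Per IsHecke Pt ac Inert Dec Nm UnitP)

variable {F : Type} [Field F] [NumberField F] [IQ F] {W₀ : WeierstrassCurve (𝓞 F)} {Om : ℂ}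
    {m : Ideal (𝓞 F)} {ψ : Ideal (𝓞 F) →*₀ 𝓞 F} {p : ℕ}

/-- The Galois closure is unramified at p. -/
theorem unr_clos (hpu : H55P.UnrP p F) (hp : p.Prime) {L K : IntermediateField F (AlgebraicClosure F)} [NumberField K]
    (hL : H55P.PExt p ⊥ L) (hK : K ≤ L) (hU : H55P.UnrP p K) :
    ∃ (L' : IntermediateField F (AlgebraicClosure F)) (_ : NumberField L'), H55P.PExt p ⊥ L' ∧ K ≤ L' ∧ H55P.UnrP p L' := by
  classical
  have hLf : FiniteDimensional F L := hL.fin
  have hbf : FiniteDimensional F (⊥ : IntermediateField F (AlgebraicClosure F)) := inferInstance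
  have hbn : NumberField (⊥ : IntermediateField F (AlgebraicClosure F)) := H16C.FR_numberField _
  have hC := H55P.clos_pext p hp ⊥ K L hL bot_le hK
  have hCf : FiniteDimensional F (H55P.clos (⊥ : IntermediateField F (AlgebraicClosure F)) K) := hC.fin
  have hCn : NumberField (H55P.clos (⊥ : IntermediateField F (AlgebraicClosure F)) K) := H16C.FR_numberField _
  refine ⟨_, hCn, hC, H55P.le_clos _ _, ?_⟩
  refine H55P.unrP_sub p hp _ hpu fun v hv hpv => ?_
  obtain ⟨v', h1⟩ := y9_up (Ω := AlgebraicClosure F) v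
  have hr' := (y9_ram h1 _).2 hv
  have h3 : H55P.Ram (⊥ : IntermediateField F (AlgebraicClosure F)) K v'.asIdeal :=
    H55P.clos_ram ⊥ K L bot_le hK hL.norm v' hr'
  exact y9_unr K hU ((y9_ram h1 K).1 h3) hpv

open Classical in
/-- THE THEOREM OVER F. -/
theorem main_F (hH : BaseH F W₀ Om m ψ) (hp : PrimeH F W₀ p) [NumberField (⊥ : IntermediateField F (AlgebraicClosure F))]
    {L K : IntermediateField F (AlgebraicClosure F)} [NumberField K] (hL : H55P.PExt p ⊥ L) (hK : K ≤ L)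
    (hU : H55P.UnrP p K) :
    H55P.IntG p Om ψ K ∧
    (H55P.ValG p Om ψ K ↔ H55P.ValG p Om ψ (⊥ : IntermediateField F (AlgebraicClosure F)) ∧ NoAn p W₀ K) ∧
    (H55P.ValG p Om ψ K → H55P.SelG p W₀ K ∧ H55P.ShaG p W₀ K ∧ H55P.PtsG p W₀ K ∧ H55P.LvalG p W₀ Om K) ∧
    (¬ NoAn p W₀ K → NonG p Om ψ K ∧ H13Z.SelNon (W₀⁄F) p K) := by
  refine ⟨gen_intK hH hp hL hK hU, gen_val hH hp hL hK hU, fun hV => ?_, fun hN => ⟨non_K hH hp hL hK hU hN, ?_⟩⟩
  · obtain ⟨h0, hN⟩ := (gen_val hH hp hL hK hU).1 hV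
    obtain ⟨h1, h2, h3⟩ := sel_all hH hp hL hK hU hN (base_main (base_of hH hp) h0)
    refine ⟨h1, h2, h3, H55P.gen_lval p hp.prime W₀ Om hH.data.hecke K hV ?_⟩
    exact deuG hH.data.hecke (fun v hv _ => hH.deu v hv) (fun v hv => (hH.supp v).1 hv)
      (jint_of hH.data.per hH.data.ell) K (fun w hw => bad_K hH hp hL hK w hw)
  · obtain ⟨L', hL'n, hL', hK', hU'⟩ := unr_clos hp.unr hp.prime hL hK hU
    exact non_all hH hp hL' hU' hK' hN

end H55K.TQ
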