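import Mathlib
import Pool.Agent.Lib.H55K.BH
import Pool.Agent.Lib.H55K.FD
import Pool.Agent.Lib.H55K.RD
import Pool.Agent.Lib.H55K.Y9
import Pool.Agent.Lib.H55P.CL

/-! # H55K: the Galois closure as an abstract field -/

open NumberField IsDedekindDomain WeierstrassCurve

namespace H55K.TQ

open H55P (IQ embF eF LF Per IsHecke Pt ac Inert Dec Nm UnitP)
open H35P (WAB Ker tt GoodW IntW)
open H55K.MG (VC Crd)

variable {F : Type} [Field F] [NumberField F] {W₀ : WeierstrassCurve (𝓞 F)} {p : ℕ}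

/-- Chunk FB2 (S). Ramification in a subfield: the prime P of K with v.map ≤ P^2 has a prime of L above it (Ideal.exists_ideal_over..), and P^2 maps into its square. -/
theorem ramF_up {F : Type} [Field F] [NumberField F] {Ω : Type} [Field Ω] [Algebra F Ω] {K L : IntermediateField F Ω}
    [NumberField K] [NumberField L] (h : K ≤ L) (v : HeightOneSpectrum (𝓞 F)) (hv : H55P.RamF K v.asIdeal) :
    H55P.RamF L v.asIdeal := by
  obtain ⟨P, hP, hr⟩ := hv
  letI : Algebra K L := (IntermediateField.inclusion h).toRingHom.toAlgebra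
  have hinj : Function.Injective (algebraMap (𝓞 K) (𝓞 L)) := by
    intro a b hab
    have h1 : algebraMap K L (a : K) = algebraMap K L (b : K) := congrArg (fun z : 𝓞 L => (z : L)) hab
    exact RingOfIntegers.ext ((algebraMap K L).injective h1)
  obtain ⟨Q, hQ, hQP⟩ := Ideal.exists_ideal_over_prime_of_isIntegral_of_isDomain (S := 𝓞 L) P
    (by rw [(RingHom.injective_iff_ker_eq_bot _).1 hinj]; exact bot_le)
  refine ⟨Q, hQ, ?_⟩
  rw [Ideal.map_le_iff_le_comap]
  intro x hx
  rw [Ideal.mem_comap]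
  have h1 : algebraMap (𝓞 F) (𝓞 K) x ∈ P ^ 2 := hr (Ideal.mem_map_of_mem _ hx)
  have h2 : algebraMap (𝓞 K) (𝓞 L) (algebraMap (𝓞 F) (𝓞 K) x) ∈ (P ^ 2).map (algebraMap (𝓞 K) (𝓞 L)) :=
    Ideal.mem_map_of_mem _ h1
  have h3 : (P ^ 2).map (algebraMap (𝓞 K) (𝓞 L)) ≤ Q ^ 2 := by
    rw [Ideal.map_pow]
    refine Ideal.pow_right_mono ?_ 2
    rw [Ideal.map_le_iff_le_comap, hQP]
  exact h3 h2

/-- Chunk FB2 (M). Port of H55P.extP_clos, inP_of (H55P/I7.lean): L'' = clos ⊥ (KG F K ι) ≤ L, Galois over F of degree a power of p (clos_pext), UnrP by UnrP.down from L, ramified only at primes ramified in KG F K ι (clos_ram, bottom field: Y9.lean y9_up, y9_ram instead of bot_conv). -/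
theorem inPF_of [IQ F] (hp : p.Prime) (K : Type) [Field K] [NumberField K]
    (ι : K →ₐ[ℚ] AlgebraicClosure F) (L : IntermediateField F (AlgebraicClosure F)) [NumberField L] (hL : H55P.PExt p ⊥ L)
    (hU : H55P.UnrP p L) (hKL : KG F K ι ≤ L) (h : NoAn p W₀ (KG F K ι)) : InPF W₀ p K := by
  have hLf : FiniteDimensional F L := hL.fin
  have hC := H55P.clos_pext p hp ⊥ (KG F K ι) L hL bot_le hKL
  have hCf : FiniteDimensional F (H55P.clos (⊥ : IntermediateField F (AlgebraicClosure F)) (KG F K ι)) := hC.fin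
  have hCn : NumberField (H55P.clos (⊥ : IntermediateField F (AlgebraicClosure F)) (KG F K ι)) :=
    H16C.FR_numberField _
  have hbn : NumberField (⊥ : IntermediateField F (AlgebraicClosure F)) := H16C.FR_numberField _
  have hCL : H55P.clos (⊥ : IntermediateField F (AlgebraicClosure F)) (KG F K ι) ≤ L :=
    H55P.clos_le ⊥ (KG F K ι) L hKL hL.norm
  let f : K →+* H55P.clos (⊥ : IntermediateField F (AlgebraicClosure F)) (KG F K ι) :=
    (IntermediateField.inclusion (H55P.le_clos (⊥ : IntermediateField F (AlgebraicClosure F)) (KG F K ι))).toRingHom.comp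
      (KGmap F K ι)
  refine ⟨H55P.clos (⊥ : IntermediateField F (AlgebraicClosure F)) (KG F K ι), inferInstance, hCn, inferInstance,
    f.toAlgebra, ?_, ?_, ?_, ?_⟩
  · have hnorm : Normal F (H55P.clos (⊥ : IntermediateField F (AlgebraicClosure F)) (KG F K ι)) := by
      rw [IntermediateField.normal_iff_forall_map_le']
      rintro s _ ⟨x, hx, rfl⟩
      have hs : s ∈ (⊥ : IntermediateField F (AlgebraicClosure F)).fixingSubgroup := by
        rw [IntermediateField.fixingSubgroup_bot]
        exact Subgroup.mem_top s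
      exact hC.norm s hs x hx
    exact ⟨⟩
  · obtain ⟨k, hk⟩ := hC.deg
    rw [IntermediateField.finrank_bot, one_mul] at hk
    exact ⟨k, hk⟩
  · letI : Algebra (H55P.clos (⊥ : IntermediateField F (AlgebraicClosure F)) (KG F K ι)) L :=
      (IntermediateField.inclusion hCL).toRingHom.toAlgebra
    exact H55P.UnrP.down _ L p hp hU
  · intro w v hv hΔ hcard
    by_contra he
    have hl : w.asIdeal.LiesOver v.asIdeal := ⟨hv⟩
    have hWp := w.isPrime
    have hr : H55P.RamF (H55P.clos (⊥ : IntermediateField F (AlgebraicClosure F)) (KG F K ι)) v.asIdeal := by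
      refine ⟨w.asIdeal, hWp, ?_⟩
      rw [Ideal.map_le_iff_le_comap]
      intro x hx
      exact H55P.s13_le_sq v.asIdeal v.ne_bot w.asIdeal he x hx
    obtain ⟨v', h1⟩ := y9_up (Ω := AlgebraicClosure F) v
    have h3 : H55P.Ram (⊥ : IntermediateField F (AlgebraicClosure F)) (KG F K ι) v'.asIdeal :=
      H55P.clos_ram ⊥ (KG F K ι) L bot_le hKL hL.norm v' ((y9_ram h1 _).2 hr)
    exact h v ((y9_ram h1 _).1 h3) hΔ hcard

end H55K.TQ
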