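import Mathlib
import Pool.Agent.Lib.H55K.FB6B
import Pool.Agent.Lib.H55P.I5

/-! # H55K: the analytic part over K and the Hecke L-value: conclusions -/

open NumberField IsDedekindDomain WeierstrassCurve

namespace H55K.TQ

open H55P (IQ embF eF LF Per IsHecke Pt ac Inert Dec Nm UnitP)
open H35P (WAB Ker tt GoodW IntW)
open H55K.MG (VC Crd)

variable {F : Type} [Field F] [NumberField F] [IQ F] {W : WeierstrassCurve ℤ} {Om : ℂ}
    {m : Ideal (𝓞 F)} {ψ : Ideal (𝓞 F) →*₀ 𝓞 F} {p : ℕ}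

/-- Chunk FB7A (S/M). IntG gives x = Φ(1)/Om^n with V(x) ≤ 1 for all V above p, so V(conj x) ≤ 1 (H55P.i5_conj, i5_above); lG_rel gives Λ; two continuations agree at 1 (ident); UnitP(shaG) = V(lG) V(#E)^2 = 1, all factors ≤ 1 (pt9_nat): V(x) = 1; Φ(1) ≠ 0. -/
theorem val_of_an (hH : BaseH F (W⁄(𝓞 F)) Om m ψ) (hp : PrimeH F (W⁄(𝓞 F)) p) (K : Type) [Field K] [NumberField K]
    (K' : IntermediateField F (AlgebraicClosure F)) [NumberField K'] (hR : LRel W ψ K K') (hU : H55P.UnrP p K)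
    (hI : H55P.IntG p Om ψ K') (hA : AnUnitG p W K) : H55P.ValG p Om ψ K' := by
  obtain ⟨Φ, hΦa, hΦs, hΦi⟩ := hI
  obtain ⟨Λ, hΛa, hΛs, -, hΛv⟩ := lG_rel hH hp K K' hR hU hΦa hΦs
  obtain ⟨⟨L, hL⟩, Λ', hΛa', hΛs', -, hΛu'⟩ := hA
  have e1 : Λ 1 = Λ' 1 := H55N.ident Λ Λ' hΛa hΛa' (fun s hs => by
    rw [(hΛs s hs).2, (hΛs' s hs).2]) 1 (by norm_num)
  have hunit : UnitP p (Φ 1 / Om ^ Module.finrank F K') := by
    intro V hV
    have hx : V.valuation (Φ 1 / Om ^ Module.finrank F K') ≤ 1 :=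
      (V.valuation_le_one_iff _).2 (hΦi V hV)
    have hxc : V.valuation ((starRingEnd ℂ) (Φ 1 / Om ^ Module.finrank F K')) ≤ 1 := by
      refine H55P.i5_conj V _ ?_
      rw [ValuationSubring.valuation_le_one_iff]
      exact hΦi _ (H55P.i5_above p hp.prime V hV)
    have hcard : V.valuation ((Nat.card (W⁄K).toAffine.Point : ℂ) ^ 2) ≤ 1 := by
      rw [map_pow]
      exact pow_le_one₀ zero_le (H55P.pt9_nat V _)
    have hu := hΛu' L hL V hV
    rw [shaG_lG, ← e1] at hu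
    have hl : V.valuation (lG K W L (Λ 1)) ≤ 1 := by
      rcases hΛv V hV L hL with h | h
      · rw [h]
        exact mul_le_one₀ hx zero_le hxc
      · rw [h.1]
        exact hx
    have hl1 : V.valuation (lG K W L (Λ 1)) = 1 := H55P.i5_two V _ _ hl hcard hu
    rcases hΛv V hV L hL with h | h
    · rw [h, ← map_mul] at hl1
      exact H55P.i5_two V _ _ hx hxc hl1
    · rw [h.1] at hl1
      exact hl1
  refine ⟨Φ, hΦa, hΦs, ?_, hunit⟩
  intro h0
  apply H55P.pz6_ne hp.prime hunit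
  rw [h0, zero_div]

end H55K.TQ
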