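import Mathlib
import Pool.Agent.Lib.H55K.FB6B

/-! # H55K: the analytic part over K and the Hecke L-value: conclusions -/

open NumberField IsDedekindDomain WeierstrassCurve

namespace H55K.TQ

open H55P (IQ embF eF LF Per IsHecke Pt ac Inert Dec Nm UnitP)
open H35P (WAB Ker tt GoodW IntW)
open H55K.MG (VC Crd)

variable {F : Type} [Field F] [NumberField F] [IQ F] {W : WeierstrassCurve ℤ} {Om : ℂ}
    {m : Ideal (𝓞 F)} {ψ : Ideal (𝓞 F) →*₀ 𝓞 F} {p : ℕ}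

/-- Chunk FB7B (S/M). V(conj x) = 1 for all V above p (pz6_conj, pz6_ne). val_nat for the number of points. Existence of L: exists_perZ (QP1A.lean). -/
theorem an_of_val (hH : BaseH F (W⁄(𝓞 F)) Om m ψ) (hp : PrimeH F (W⁄(𝓞 F)) p) (K : Type) [Field K] [NumberField K]
    (K' : IntermediateField F (AlgebraicClosure F)) [NumberField K'] (hR : LRel W ψ K K') (hU : H55P.UnrP p K)
    (hV : H55P.ValG p Om ψ K') (hE : ¬ p ∣ Nat.card (W⁄K).toAffine.Point) : AnUnitG p W K := by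
  obtain ⟨Φ, hΦa, hΦs, hΦ1, hΦu⟩ := hV
  obtain ⟨Λ, hΛa, hΛs, hΛ1, hΛv⟩ := lG_rel hH hp K K' hR hU hΦa hΦs
  refine ⟨exists_perZ (perW_of hH), Λ, hΛa, hΛs, hΛ1 hΦ1, ?_⟩
  intro L hL V hV
  have hx := hΦu V hV
  have hxc := H55P.pz6_conj hp.prime (H55P.pz6_ne hp.prime hΦu) hΦu V hV
  rw [shaG_lG, map_mul, map_pow, H55P.val_nat p hp.prime V hV _ hE, one_pow, mul_one]
  rcases hΛv V hV L hL with h | h
  · rw [h, hx, hxc, one_mul]
  · rw [h.1, hx]

end H55K.TQ
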