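import Mathlib
import Pool.Agent.Lib.H55K.FB6B

/-! # H55K: the analytic part over K and the Hecke L-value: conclusions -/

open NumberField IsDedekindDomain WeierstrassCurve

namespace H55K.TQ

open H55P (IQ embF eF LF Per IsHecke Pt ac Inert Dec Nm UnitP)
open H35P (WAB Ker tt GoodW IntW)
open H55K.MG (VC Crd)

variable {F : Type} [Field F] [NumberField F] [IQ F] {W : WeierstrassCurve ℤ} {Om : ℂ}
    {m : Ideal (𝓞 F)} {ψ : Ideal (𝓞 F) →*₀ 𝓞 F} {p : ℕ}

/-- Chunk FB7C (S/M). If V(x) V(conj x) < 1 for all V above p then V(lG) < 1 (second case of lG_rel: V(x)^2 < 1). -/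
theorem non_of (hH : BaseH F (W⁄(𝓞 F)) Om m ψ) (hp : PrimeH F (W⁄(𝓞 F)) p) (K : Type) [Field K] [NumberField K]
    (K' : IntermediateField F (AlgebraicClosure F)) [NumberField K'] (hR : LRel W ψ K K') (hU : H55P.UnrP p K)
    {Φ : ℂ → ℂ} (hΦa : AnalyticOnNhd ℂ Φ {s | 1 / 2 < s.re})
    (hΦ : ∀ s : ℂ, 3 / 2 < s.re → HasSum (H55N.tm (H55P.PsiP K' ψ) s) (Φ s))
    (hN : ∀ V : ValuationSubring ℂ, V.valuation (p : ℂ) < 1 →
      V.valuation (Φ 1 / Om ^ Module.finrank F K') * V.valuation ((starRingEnd ℂ) (Φ 1 / Om ^ Module.finrank F K')) < 1) :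
    AnNonG p W K := by
  obtain ⟨Λ, hΛa, hΛs, -, hΛv⟩ := lG_rel hH hp K K' hR hU hΦa hΦ
  refine ⟨exists_perZ (perW_of hH), Λ, hΛa, hΛs, ?_⟩
  intro L hL V hV
  have hn := hN V hV
  rcases hΛv V hV L hL with h | h
  · rw [h]
    exact hn
  · rw [h.2] at hn
    rw [h.1]
    by_contra hc
    have h1 := not_lt.1 hc
    have h2 : 1 ≤ V.valuation (Φ 1 / Om ^ Module.finrank F K') *
        V.valuation (Φ 1 / Om ^ Module.finrank F K') := one_le_mul h1 h1
    exact absurd hn (not_lt.2 h2)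

end H55K.TQ
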