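import Mathlib
import Pool.Agent.Lib.H55K.NK3

/-! # H55K: interface: classical Selmer groups over fields which do not contain F -/

open NumberField IsDedekindDomain WeierstrassCurve

namespace H55K.TQ

open H55P (IQ embF eF LF Per IsHecke Pt ac Inert Dec Nm UnitP)

variable {F : Type} [Field F] [NumberField F] [IQ F] {W : WeierstrassCurve ℤ} {Om : ℂ}
    {m : Ideal (𝓞 F)} {ψ : Ideal (𝓞 F) →*₀ 𝓞 F} {p : ℕ}

open Classical in
/-- Nonvanishing over the field generated by F over K gives nonvanishing over K. -/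
theorem non_abs (hH : BaseH F (W⁄(𝓞 F)) Om m ψ) (hp : PrimeH F (W⁄(𝓞 F)) p) (K : Type) [Field K] [NumberField K]
    (ι : K →ₐ[ℚ] AlgebraicClosure F) [NumberField (KG F K ι)] (hS : H13Z.SelNon ((W⁄(𝓞 F))⁄F) p (KG F K ι)) :
    H13Z.SelNonT (W⁄K) p :=
  nonsel_KG hH hp.prime (by have := hp.five; omega) hp.unr K ι hS

end H55K.TQ
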