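import Mathlib
import Pool.Agent.Lib.H55K.F1
import Pool.Agent.Lib.H55K.FB2
import Pool.Agent.Lib.H55K.FB7A
import Pool.Agent.Lib.H55K.FB7B
import Pool.Agent.Lib.H55K.FB7C
import Pool.Agent.Lib.H55K.FB9B
import Pool.Agent.Lib.H55K.NQ

/-! # H55K: the theorem for curves over the rationals -/

open NumberField IsDedekindDomain WeierstrassCurve

namespace H55K.TQ

open H55P (IQ embF eF LF Per IsHecke Pt ac Inert Dec Nm UnitP)

variable {F : Type} [Field F] [NumberField F] [IQ F] {W : WeierstrassCurve ℤ} {Om : ℂ}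
    {m : Ideal (𝓞 F)} {ψ : Ideal (𝓞 F) →*₀ 𝓞 F} {p : ℕ}

/-- No prime is ramified in the bottom field. -/
theorem ramF_bot {F : Type} [Field F] [NumberField F] {Ω : Type} [Field Ω] [Algebra F Ω] (K : IntermediateField F Ω) (hK : K = ⊥) (v : HeightOneSpectrum (𝓞 F)) :
    ¬ H55P.RamF K v.asIdeal := by
  subst hK
  have hbn : NumberField (⊥ : IntermediateField F Ω) := H16C.FR_numberField _
  intro hr
  obtain ⟨v', h1⟩ := y9_up (Ω := Ω) v
  obtain ⟨P, hP, hle⟩ := hr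
  rw [← y9_map h1] at hle
  have h2 : v'.asIdeal ≤ P := hle.trans (Ideal.pow_le_self two_ne_zero)
  have h3 : v'.asIdeal = P := v'.isMaximal.eq_of_le hP.ne_top h2
  rw [← h3] at hle
  have h4 : v'.asIdeal ^ 2 = v'.asIdeal := le_antisymm (Ideal.pow_le_self two_ne_zero) hle
  have h5 : v'.asIdeal * v'.asIdeal = v'.asIdeal * 1 := by rw [← pow_two, h4, mul_one]
  have h6 := mul_left_cancel₀ v'.ne_bot h5
  exact v'.isPrime.ne_top (h6.trans Ideal.one_eq_top)

/-- The field generated by F over the rationals. -/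
theorem kg_rat (F : Type) [Field F] [NumberField F] [IQ F] (K : Type) [Field K] [NumberField K] (hK : ∀ x : K, ∃ q : ℚ, x = (q : K))
    (ι : K →ₐ[ℚ] AlgebraicClosure F) : KG F K ι = ⊥ := by
  rw [eq_bot_iff]
  unfold KG
  rw [IntermediateField.adjoin_le_iff]
  rintro _ ⟨x, rfl⟩
  obtain ⟨q, rfl⟩ := hK x
  have h1 : ι (q : K) = algebraMap F (AlgebraicClosure F) (q : F) := by
    rw [map_ratCast, map_ratCast]
  show ι (q : K) ∈ (⊥ : IntermediateField F (AlgebraicClosure F))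
  rw [h1]
  exact (⊥ : IntermediateField F (AlgebraicClosure F)).algebraMap_mem _

section fields

variable (hH : BaseH F (W⁄(𝓞 F)) Om m ψ) (hp : PrimeH F (W⁄(𝓞 F)) p)
  {L : IntermediateField F (AlgebraicClosure F)} [NumberField L] (hL : H55P.PExt p ⊥ L) (hU : H55P.UnrP p L)
  (K : Type) [Field K] [NumberField K] (ι : K →ₐ[ℚ] AlgebraicClosure F) [NumberField (KG F K ι)]
  (hK : KG F K ι ≤ L)

include hH hp hL hU hK

omit hH in
theorem f2_unrG : H55P.UnrP p (KG F K ι) := by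
  letI : Algebra (KG F K ι) L := (IntermediateField.inclusion hK).toRingHom.toAlgebra
  exact H55P.UnrP.down (KG F K ι) L p hp.prime hU

omit hH in
theorem f2_unr : H55P.UnrP p K := by
  letI : Algebra K (KG F K ι) := (KGmap F K ι).toAlgebra
  exact H55P.UnrP.down K (KG F K ι) p hp.prime (f2_unrG hp hL hU K ι hK)

/-- The analytic part in terms of the Hecke L-value. -/
theorem an_iff [NumberField (⊥ : IntermediateField F (AlgebraicClosure F))] :
    AnUnitG p W K ↔ H55P.ValG p Om ψ (KG F K ι) := by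
  have hR := lrel hH hp hL K ι hK
  have hUK := f2_unr hp hL hU K ι hK
  have hUG := f2_unrG hp hL hU K ι hK
  obtain ⟨h1, h2, h3, -⟩ := main_F hH hp hL hK hUG
  refine ⟨val_of_an hH hp K _ hR hUK h1, fun hV => an_of_val hH hp K _ hR hUK hV ?_⟩
  exact (sel_abs hH hp hL K ι hK (h3 hV).1).2.2.2

end fields

/-- The analytic part over the rationals. -/
theorem an_rat (hH : BaseH F (W⁄(𝓞 F)) Om m ψ) (hp : PrimeH F (W⁄(𝓞 F)) p)
    [NumberField (⊥ : IntermediateField F (AlgebraicClosure F))] :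
    AnUnitG p W ℚ ↔ H55P.ValG p Om ψ (⊥ : IntermediateField F (AlgebraicClosure F)) := by
  obtain ⟨L, hLn, ι, hL, hU, hK, -⟩ := sub_setup (F := F) p hp.prime ℚ F inferInstance 0
    (by rw [pow_zero, Module.finrank_self]) hp.unr
  have hG := kg_rat F ℚ (fun x => ⟨x, (Rat.cast_id x).symm⟩) ι
  have hn : NumberField (KG F ℚ ι) := by
    rw [hG]
    infer_instance
  rw [an_iff hH hp hL hU ℚ ι hK, (main_F hH hp hL hK (f2_unrG hp hL hU ℚ ι hK)).2.1]
  exact ⟨fun h => h.1, fun h => ⟨h, fun v hv => absurd hv (ramF_bot _ hG v)⟩⟩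

/-- THE THEOREM for curves over the rationals. -/
theorem main_Q (hH : BaseH F (W⁄(𝓞 F)) Om m ψ) (hp : PrimeH F (W⁄(𝓞 F)) p) (K : Type) [Field K] [NumberField K]
    (hK : SubUF F p K) :
    (AnUnitG p W K ↔ AnUnitG p W ℚ ∧ InPF (W⁄(𝓞 F)) p K) ∧
    (AnUnitG p W K → BSDPG p W K) ∧
    (¬ InPF (W⁄(𝓞 F)) p K → AnNonG p W K ∧ H13Z.SelNonT (W⁄K) p) := by
  have hbf : FiniteDimensional F (⊥ : IntermediateField F (AlgebraicClosure F)) := inferInstance
  have hbn : NumberField (⊥ : IntermediateField F (AlgebraicClosure F)) := H16C.FR_numberField _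
  obtain ⟨Lt, _, _, _, _, hG, ⟨k, hk⟩, hUt⟩ := hK
  obtain ⟨L, hLn, ι, hL, hU, hKL, -⟩ := sub_setup (F := F) p hp.prime K Lt hG k hk hUt
  have hLf : FiniteDimensional F L := hL.fin
  have hKf : FiniteDimensional F (KG F K ι) := H55P.finDim_of_le hKL
  have hKn : NumberField (KG F K ι) := H16C.FR_numberField _
  have hUG := f2_unrG hp hL hU K ι hKL
  obtain ⟨m1, m2, m3, m4⟩ := main_F hH hp hL hKL hUG
  have hin : NoAn p (W⁄(𝓞 F)) (KG F K ι) → InPF (W⁄(𝓞 F)) p K := fun h =>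
    inPF_of hp.prime K ι L hL hU hKL h
  have han := an_iff hH hp hL hU K ι hKL
  refine ⟨⟨fun h => ?_, ?_⟩, fun h => ?_, fun h => ?_⟩
  · obtain ⟨h1, h2⟩ := m2.1 (han.1 h)
    exact ⟨(an_rat hH hp).2 h1, hin h2⟩
  · rintro ⟨h1, Lt', _, _, _, _, hG', ⟨k', hk'⟩, hUt', hr'⟩
    obtain ⟨L', hLn', ι', hL', hU', hKL', hram'⟩ := sub_setup (F := F) p hp.prime K Lt' hG' k' hk' hUt'
    have hLf' : FiniteDimensional F L' := hL'.fin
    have hKf' : FiniteDimensional F (KG F K ι') := H55P.finDim_of_le hKL'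
    have hKn' : NumberField (KG F K ι') := H16C.FR_numberField _
    refine (an_iff hH hp hL' hU' K ι' hKL').2
      ((main_F hH hp hL' hKL' (f2_unrG hp hL' hU' K ι' hKL')).2.1.2 ⟨(an_rat hH hp).1 h1, fun v hv hΔ hd => ?_⟩)
    obtain ⟨w, hw, he⟩ := hram' v (ramF_up hKL' v hv)
    exact he (hr' w v hw hΔ hd)
  · exact ⟨sel_abs hH hp hL K ι hKL (m3 (han.1 h)).1, h⟩
  · obtain ⟨⟨Φ, a1, a2, a3⟩, h2⟩ := m4 fun hN => h (hin hN)
    exact ⟨non_of hH hp K _ (lrel hH hp hL K ι hKL) (f2_unr hp hL hU K ι hKL) a1 a2 a3, non_abs hH hp K ι h2⟩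

end H55K.TQ
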