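import Mathlib
import Pool.Agent.Lib.H55K.F2

/-! # H55K: integrality of the algebraic part of the L-value -/

open NumberField IsDedekindDomain WeierstrassCurve

namespace H55K.TQ

open H55P (IQ embF eF LF Per IsHecke Pt ac Inert Dec Nm UnitP)

variable {F : Type} [Field F] [NumberField F] [IQ F] {W : WeierstrassCurve ℤ} {Om : ℂ}
    {m : Ideal (𝓞 F)} {ψ : Ideal (𝓞 F) →*₀ 𝓞 F} {p : ℕ}

/-- Integrality over K from integrality of the Hecke L-value. -/
theorem int_of (hH : BaseH F (W⁄(𝓞 F)) Om m ψ) (hp : PrimeH F (W⁄(𝓞 F)) p) (K : Type) [Field K] [NumberField K]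
    (K' : IntermediateField F (AlgebraicClosure F)) [NumberField K'] (hR : LRel W ψ K K') (hU : H55P.UnrP p K)
    (hI : H55P.IntG p Om ψ K') : AnIntG p W K := by
  obtain ⟨Φ, hΦa, hΦ, hx⟩ := hI
  obtain ⟨Λ, hΛa, hΛs, -, hΛv⟩ := lG_rel hH hp K K' hR hU hΦa hΦ
  refine ⟨exists_perZ (perW_of hH), Λ, hΛa, hΛs, fun L hL V hV => ?_⟩
  have h1 : V.valuation (Φ 1 / Om ^ Module.finrank F K') ≤ 1 := (V.valuation_le_one_iff _).2 (hx V hV)
  have h2 : V.valuation ((starRingEnd ℂ) (Φ 1 / Om ^ Module.finrank F K')) ≤ 1 :=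
    H55P.i5_conj V _ (((V.comap (starRingEnd ℂ)).valuation_le_one_iff _).2
      (hx _ (H55P.i5_above p hp.prime V hV)))
  rw [← V.valuation_le_one_iff]
  rcases hΛv V hV L hL with h | h
  · rw [h]
    exact mul_le_one' h1 h2
  · rw [h.1]
    exact h1

/-- Integrality over all fields of the class. -/
theorem int_Q (hH : BaseH F (W⁄(𝓞 F)) Om m ψ) (hp : PrimeH F (W⁄(𝓞 F)) p) (K : Type) [Field K] [NumberField K]
    (hK : SubUF F p K) : AnIntG p W K := by
  have hbf : FiniteDimensional F (⊥ : IntermediateField F (AlgebraicClosure F)) := inferInstance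
  have hbn : NumberField (⊥ : IntermediateField F (AlgebraicClosure F)) := H16C.FR_numberField _
  obtain ⟨Lt, _, _, _, _, hG, ⟨k, hk⟩, hUt⟩ := hK
  obtain ⟨L, hLn, ι, hL, hU, hKL, -⟩ := sub_setup (F := F) p hp.prime K Lt hG k hk hUt
  have hLf : FiniteDimensional F L := hL.fin
  have hKf : FiniteDimensional F (KG F K ι) := H55P.finDim_of_le hKL
  have hKn : NumberField (KG F K ι) := H16C.FR_numberField _
  have hUG := f2_unrG hp hL hU K ι hKL
  exact int_of hH hp K _ (lrel hH hp hL K ι hKL) (f2_unr hp hL hU K ι hKL) (gen_intK hH hp hL hKL hUG)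

end H55K.TQ
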