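import Mathlib
import Pool.Agent.Lib.H55K.F2
import Pool.Agent.Lib.H55K.FC1
import Pool.Agent.Lib.H55K.FC2

/-! # H55K: almost all prime numbers: conclusions -/

open NumberField IsDedekindDomain WeierstrassCurve

namespace H55K.TQ

open H55P (IQ embF eF LF Per IsHecke Pt ac Inert Dec Nm UnitP)
open H35P (WAB Ker tt GoodW IntW)
open H55K.MG (VC Crd)

variable {F : Type} [Field F] [NumberField F] [IQ F] {W₀ : WeierstrassCurve (𝓞 F)} {Om : ℂ}
    {m : Ideal (𝓞 F)} {ψ : Ideal (𝓞 F) →*₀ 𝓞 F} {p : ℕ}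

theorem fc3_pext (F : Type) [Field F] [NumberField F] (p : ℕ)
    [NumberField (⊥ : IntermediateField F (AlgebraicClosure F))] :
    H55P.PExt p (⊥ : IntermediateField F (AlgebraicClosure F)) ⊥ := by
  refine ⟨inferInstance, le_rfl, fun s hs x hx => ?_, 0, by rw [pow_zero, mul_one]⟩
  rw [IntermediateField.mem_fixingSubgroup_iff] at hs
  rw [hs x hx]
  exact hx

theorem fc3_unr (F : Type) [Field F] [NumberField F] {p : ℕ} (hp : p.Prime) (hU : H55P.UnrP p F)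
    [NumberField (⊥ : IntermediateField F (AlgebraicClosure F))] :
    H55P.UnrP p (⊥ : IntermediateField F (AlgebraicClosure F)) := by
  letI : Algebra (⊥ : IntermediateField F (AlgebraicClosure F)) F :=
    (IntermediateField.botEquiv F (AlgebraicClosure F)).toRingEquiv.toRingHom.toAlgebra
  exact H55P.UnrP.down (⊥ : IntermediateField F (AlgebraicClosure F)) F p hp hU

theorem fc3_tr {ψ : Ideal (𝓞 F) →*₀ 𝓞 F} {K' K'' : IntermediateField F (AlgebraicClosure F)} (h : K' = K'')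
    [NumberField K'] [NumberField K'']
    (hL : ∃ Φ : ℂ → ℂ, AnalyticOnNhd ℂ Φ {s | 1 / 2 < s.re} ∧
      (∀ s : ℂ, 3 / 2 < s.re → HasSum (H55N.tm (H55P.PsiP K' ψ) s) (Φ s)) ∧ Φ 1 ≠ 0) :
    ∃ Φ : ℂ → ℂ, AnalyticOnNhd ℂ Φ {s | 1 / 2 < s.re} ∧
      (∀ s : ℂ, 3 / 2 < s.re → HasSum (H55N.tm (H55P.PsiP K'' ψ) s) (Φ s)) ∧ Φ 1 ≠ 0 := by
  subst h
  exact hL

/-- Chunk FC3 (M). If no prime satisfies PrimeH the set is finite. Otherwise gen_intK for one p₀ and K = the bottom field (PExt p ⊥ ⊥: fin, le, norm, deg with k = 0; UnrP p ⊥: transport of UnrP p F by the isomorphism, UnrP.down with the algebra structure ⊥ → F, or f2_unrG style) gives Φ and x = Φ(1)/Om^1 with V(x) ≤ 1 above p₀: x is algebraic (alg_of_int), x ≠ 0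
(hypothesis: Φ(1) = Φ'(1) by ident; Om ≠ 0: hH.data.per.ne), unit_almost: ValG for all the other p. -/
theorem val_almost (hH : BaseH F W₀ Om m ψ) [NumberField (⊥ : IntermediateField F (AlgebraicClosure F))]
    (hL : ∃ Φ : ℂ → ℂ, AnalyticOnNhd ℂ Φ {s | 1 / 2 < s.re} ∧
      (∀ s : ℂ, 3 / 2 < s.re → HasSum (H55N.tm (H55P.PsiP (⊥ : IntermediateField F (AlgebraicClosure F)) ψ) s) (Φ s)) ∧ Φ 1 ≠ 0) :
    {p : ℕ | PrimeH F W₀ p ∧ ¬ H55P.ValG p Om ψ (⊥ : IntermediateField F (AlgebraicClosure F))}.Finite := by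
  by_cases hex : ∃ p, PrimeH F W₀ p
  swap
  · refine Set.Finite.subset Set.finite_empty fun p hp => ?_
    exact absurd ⟨p, hp.1⟩ hex
  obtain ⟨p₀, hp₀⟩ := hex
  obtain ⟨Λ, ha, hs, hint⟩ := gen_intK hH hp₀ (fc3_pext F p₀) (le_refl ⊥) (fc3_unr F hp₀.prime hp₀.unr)
  obtain ⟨Φ, hΦa, hΦs, hΦ1⟩ := hL
  have h1 : Λ 1 = Φ 1 := H55N.TW1_ident (1 / 2) Λ Φ ha hΦa
    (fun s hs' => (hs s hs').unique (hΦs s hs')) (by norm_num) 1 (by norm_num)
  have hne : Λ 1 ≠ 0 := by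
    rw [h1]
    exact hΦ1
  have hOm : Om ≠ 0 := hH.data.per.ne
  have hx : Λ 1 / Om ^ Module.finrank F (⊥ : IntermediateField F (AlgebraicClosure F)) ≠ 0 :=
    div_ne_zero hne (pow_ne_zero _ hOm)
  refine Set.Finite.subset (unit_almost hx (alg_of_int hp₀.prime hint)) ?_
  rintro p ⟨hp, hV⟩
  exact ⟨hp.prime, fun hU => hV ⟨Λ, ha, hs, hne, hU⟩⟩

/-- Chunk FC3 (S/M). an_rat (F2.lean), prime_almost, val_almost; the L-function over ℚ is Φ(s) or Φ(s) conj Φ(conj s) (lrel in FB4.lean for K = ℚ, with the ι of sub_setup and kg_rat as in an_rat; Φ from gen_intK), so Φ(1) ≠ 0 (H55P: ident). -/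
theorem an_almost {W : WeierstrassCurve ℤ} (hH : BaseH F (W⁄(𝓞 F)) Om m ψ) (hL : LNz W ℚ) :
    {p : ℕ | p.Prime ∧ ¬ AnUnitG p W ℚ}.Finite := by
  classical
  have hbn : NumberField (⊥ : IntermediateField F (AlgebraicClosure F)) := H16C.FR_numberField _
  have hfin := prime_almost (W⁄(𝓞 F)) hH.data.ell
  by_cases hex : ∃ p, PrimeH F (W⁄(𝓞 F)) p
  swap
  · refine hfin.subset ?_
    rintro p ⟨hp, -⟩
    exact ⟨hp, fun h => hex ⟨p, h⟩⟩
  obtain ⟨p₀, hp₀⟩ := hex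
  obtain ⟨L, hLn, ι, hL', hU, hK, -⟩ := sub_setup (F := F) p₀ hp₀.prime ℚ F inferInstance 0
    (by rw [pow_zero, Module.finrank_self]) hp₀.unr
  have hG := kg_rat F ℚ (fun x => ⟨x, (Rat.cast_id x).symm⟩) ι
  have hn : NumberField (KG F ℚ ι) := by
    rw [hG]
    infer_instance
  obtain ⟨Φ, hΦa, hΦs, -⟩ := gen_intK hH hp₀ hL' hK (f2_unrG hp₀ hL' hU ℚ ι hK)
  have hR := lrel hH hp₀ hL' ℚ ι hK
  obtain ⟨Λ, hΛa, hΛs, hΛ1⟩ := hL
  have hΦ1 : Φ 1 ≠ 0 := by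
    rcases hR with ⟨hd, -⟩ | ⟨-, hR⟩
    · rw [Module.finrank_self] at hd
      omega
    · have h1 : Φ 1 = Λ 1 := H55N.TW1_ident (1 / 2) Φ Λ hΦa hΛa
        (fun s hs => by
          rw [(hΛs s hs).2]
          exact ((hR Φ hΦs s hs).LSeries_eq).symm) (by norm_num) 1 (by norm_num)
      rw [h1]
      exact hΛ1
  have hval := val_almost hH (fc3_tr hG ⟨Φ, hΦa, hΦs, hΦ1⟩)
  refine (hfin.union hval).subset ?_
  rintro p ⟨hp, hA⟩
  by_cases hP : PrimeH F (W⁄(𝓞 F)) p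
  · right
    exact ⟨hP, fun hV => hA ((an_rat hH hP).2 hV)⟩
  · left
    exact ⟨hp, hP⟩

end H55K.TQ
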