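import Mathlib
import Pool.Agent.Lib.H28G.CDefs
import Pool.Agent.Lib.H55K.BH
import Pool.Agent.Lib.H55K.EX0
import Pool.Agent.Lib.H55P.Z1
import Pool.Agent.Lib.H55P.Z2
import Pool.Agent.Lib.H55P.Z5

/-! # H55K: the example y^2 + y = x^3: hypotheses -/

open NumberField IsDedekindDomain WeierstrassCurve

namespace H55K.TQ

open H55P (IQ embF eF LF Per IsHecke Pt ac Inert Dec Nm UnitP)
open H35P (WAB Ker tt GoodW IntW)
open H55K.MG (VC Crd)

theorem ex1_lam : ((H55B.om : H55B.O) - 1) ^ 6 = -27 := by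
  have h := H55B.om_rel
  linear_combination (H55B.om ^ 4 - 7 * H55B.om ^ 3 + 21 * H55B.om ^ 2 - 34 * H55B.om + 28) * h

theorem ex1_disc : H55P.W27O.Δ = -27 := by
  simp [H55P.W27O, WeierstrassCurve.Δ, WeierstrassCurve.b₂, WeierstrassCurve.b₄, WeierstrassCurve.b₆, WeierstrassCurve.b₈]

theorem ex1_mem (v : HeightOneSpectrum H55B.O) : (H55P.W27O.Δ ∈ v.asIdeal) ↔ (3 : H55B.O) ∈ v.asIdeal := by
  rw [ex1_disc]
  have h27 : (-27 : H55B.O) = -(3 ^ 3) := by norm_num
  rw [h27, neg_mem_iff]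
  constructor
  · intro h
    exact v.isPrime.mem_of_pow_mem _ h
  · intro h
    exact Ideal.pow_mem_of_mem _ h 3 (by norm_num)

/-- Chunk EX1 (S/M). y^2 + y = x^3 is bad at the prime above 3 of F: a change of variables with factor u gives Δ' = u^-12 Δ, Δ = -27 = unit * lam^6 with lam a uniformiser, so the valuation of Δ' is exp(-6 + 12 k), not 1. -/
theorem ex_bad (v : HeightOneSpectrum H55B.O) (hv : (3 : H55B.O) ∈ v.asIdeal) : ¬ GoodAt (H55P.W27O⁄(H55B.F)) v := by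
  rintro ⟨C, -, -, -, -, -, hΔ⟩
  have hlam : (H55B.om : H55B.O) - 1 ∈ v.asIdeal := by
    have h1 : ((H55B.om : H55B.O) - 1) ^ 6 ∈ v.asIdeal := by
      rw [ex1_lam, ← ex1_disc]
      exact (ex1_mem v).2 hv
    exact v.isPrime.mem_of_pow_mem _ h1
  have hspan : v.asIdeal = Ideal.span {(H55B.om : H55B.O) - 1} := by
    have hle : Ideal.span {(H55B.om : H55B.O) - 1} ≤ v.asIdeal := (Ideal.span_singleton_le_iff_mem _).2 hlam
    have hp : (Ideal.span {(H55B.om : H55B.O) - 1}).IsPrime :=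
      (Ideal.span_singleton_prime H55B.lam_prime.ne_zero).2 H55B.lam_prime
    have hmax : (Ideal.span {(H55B.om : H55B.O) - 1}).IsMaximal :=
      Ideal.IsPrime.isMaximal hp (by
        rw [Ne, Ideal.span_singleton_eq_bot]
        exact H55B.lam_prime.ne_zero)
    exact (hmax.eq_of_le v.isPrime.ne_top hle).symm
  have h1 : v.intValuation ((H55B.om : H55B.O) - 1) = WithZero.exp (-1 : ℤ) :=
    HeightOneSpectrum.intValuation_singleton v H55B.lam_prime.ne_zero hspan
  have h2 : (H55P.W27O⁄(H55B.F)).Δ = algebraMap H55B.O H55B.F (((H55B.om : H55B.O) - 1) ^ 6) := by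
    rw [ex1_lam, ← ex1_disc]
    exact H55P.W27O.map_Δ (algebraMap H55B.O H55B.F)
  rw [variableChange_Δ, h2, map_mul, map_pow, HeightOneSpectrum.valuation_of_algebraMap, map_pow, h1] at hΔ
  have hu : v.valuation H55B.F ((C.u⁻¹ : H55B.Fˣ) : H55B.F) ≠ 0 := (map_ne_zero _).2 (Units.ne_zero _)
  rw [← WithZero.exp_log hu, ← WithZero.exp_nsmul, ← WithZero.exp_nsmul, ← WithZero.exp_add, ← WithZero.exp_zero] at hΔ
  have h3 := WithZero.exp_injective hΔ
  simp only [nsmul_eq_mul] at h3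
  push_cast at h3
  omega

theorem ex1_relK (K : Type) [Field K] [NumberField K] [Algebra H55B.F K] (h1 : Module.finrank H55B.F K = 1)
    (J : Ideal H55B.O) : Ideal.relNorm H55B.O (J.map (algebraMap H55B.O (𝓞 K))) = J := by
  have hr : Module.finrank H55B.O (𝓞 K) = 1 := by
    rw [← h1]
    exact (IsFractionRing.finrank_eq H55B.O H55B.F (𝓞 K) K).symm
  rw [Ideal.relNorm_algebraMap (𝓞 K) J, hr, pow_one]

theorem ex1_map {R : Type} [CommRing R] (f : R →+* R) (hf : ∀ x, f x = x) (J : Ideal R) : J.map f = J := by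
  have h : f = RingHom.id R := RingHom.ext hf
  rw [h, Ideal.map_id]

theorem ex1_psi (J : Ideal H55B.O) :
    H55N.Psi H55B.F J = (starRingEnd ℂ) (eF H55B.F (H55P.psiE J)) := by
  have h := ex1_relK H55B.F (Module.finrank_self _) J
  rw [ex1_map _ (fun x => rfl) J] at h
  have h4 : H55N.Psi H55B.F J = (starRingEnd ℂ) (eF H55B.F (H55P.psiE (Ideal.relNorm H55B.O J))) := rfl
  rw [h4]
  exact congrArg (fun I => (starRingEnd ℂ) (eF H55B.F (H55P.psiE I))) h

/-- Chunk EX1 (S/M). data: Δ = -27, perE (c₄ = 0, c₆ = -216), isHeckeE; deu: cardE (Z5.lean) for K = F (Psi F v = conj (e (psiE (relNorm v))), relNorm over F itself is the identity: use T2_equiv or Ideal.relNorm for the identity; or PsiP and H55K pts style; Nm z = e z conj (e z)); supp: Δ in v iff 3 in v iff m3 ≤ v. -/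
theorem ex_base : BaseH H55B.F (EZ⁄(H55B.O)) H55P.OmE H55P.m3 H55P.psiE := by
  rw [EZ_O]
  have h3v : ∀ v : HeightOneSpectrum H55B.O, H55P.m3 ≤ v.asIdeal ↔ (3 : H55B.O) ∈ v.asIdeal := by
    intro v
    unfold H55P.m3
    exact Ideal.span_singleton_le_iff_mem _
  refine ⟨⟨?_, ?_, H55P.isHeckeE⟩, ?_, ?_, ?_⟩
  · rw [ex1_disc]
    norm_num
  · have h4 : H55P.W27O.c₄ = 0 := by
      simp [H55P.W27O, WeierstrassCurve.c₄, WeierstrassCurve.b₂, WeierstrassCurve.b₄]
    have h6 : H55P.W27O.c₆ = -216 := by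
      simp [H55P.W27O, WeierstrassCurve.c₆, WeierstrassCurve.b₂, WeierstrassCurve.b₄, WeierstrassCurve.b₆]
    rw [h4, h6]
    have e1 : -(eF H55B.F (0 : 𝓞 H55B.F)) / 48 = (0 : ℂ) := by
      rw [map_zero]; norm_num
    have e2 : -(eF H55B.F (-216 : 𝓞 H55B.F)) / 864 = (1 / 4 : ℂ) := by
      rw [map_neg, map_ofNat]; norm_num
    rw [e1, e2]
    exact H55P.perE
  · intro v hv
    have h3 : (3 : H55B.O) ∉ v.asIdeal := fun h => hv ((ex1_mem v).2 h)
    have hc := H55P.cardE H55B.F v h3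
    have hP : H55N.Psi H55B.F v.asIdeal = (starRingEnd ℂ) (eF H55B.F (H55P.psiE v.asIdeal)) := ex1_psi v.asIdeal
    rw [hP, Complex.conj_conj] at hc
    have hN := H55P.Nm_eq (F := H55B.F) (1 - H55P.psiE v.asIdeal)
    have hN2 : ((Nm (1 - H55P.psiE v.asIdeal) : ℕ) : ℂ) =
        (1 - (starRingEnd ℂ) (eF H55B.F (H55P.psiE v.asIdeal))) * (1 - eF H55B.F (H55P.psiE v.asIdeal)) := by
      have h5 : ((Nm (1 - H55P.psiE v.asIdeal) : ℕ) : ℂ) =
          (((Nm (1 - H55P.psiE v.asIdeal) : ℕ) : ℝ) : ℂ) := by push_cast; rfl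
      rw [h5, hN, ← Complex.normSq_eq_norm_sq, ← Complex.mul_conj, map_sub, map_sub, map_one, map_one]
      ring
    have h6 := hc.trans hN2.symm
    exact_mod_cast h6
  · intro v
    rw [h3v, ex1_mem]
  · intro v hv
    exact ex_bad v ((ex1_mem v).1 hv)

/-- Chunk EX1 (S). sqfree_E; the ideals (27) and (p) are coprime. -/
theorem ex_prime {p : ℕ} (hp : p.Prime) (h5 : 5 ≤ p) : PrimeH H55B.F (EZ⁄(H55B.O)) p := by
  rw [EZ_O]
  refine ⟨hp, h5, H55P.sqfree_E p hp h5, ?_⟩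
  rw [ex1_disc, Ideal.isCoprime_span_singleton_iff]
  have h1 : IsCoprime (-27 : ℤ) (p : ℤ) := by
    rw [IsCoprime.neg_left_iff]
    have h2 : Nat.Coprime 27 p := by
      have h3 : Nat.Coprime 3 p := (Nat.coprime_primes Nat.prime_three hp).2 (by omega)
      have h4 : (27 : ℕ) = 3 ^ 3 := by norm_num
      rw [h4]
      exact Nat.Coprime.pow_left 3 h3
    exact_mod_cast Nat.isCoprime_iff_coprime.2 h2
  have h2 := h1.map (Int.castRingHom (𝓞 H55B.F))
  simpa using h2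

end H55K.TQ
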