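import Mathlib
import Pool.Agent.Lib.H55K.EX1
import Pool.Agent.Lib.H55K.F2

/-! # H55K: the example y^2 + y = x^3: conclusions -/

open NumberField IsDedekindDomain WeierstrassCurve

namespace H55K.TQ

open H55P (IQ embF eF LF Per IsHecke Pt ac Inert Dec Nm UnitP)
open H35P (WAB Ker tt GoodW IntW)
open H55K.MG (VC Crd)

/-- Chunk EX2 (S/M). an_rat (F2.lean) and ex_base: ValG over the bottom field from baseE (H55P/Z3.lean) by gen_glue (Gen.lean). -/
theorem ex_an {p : ℕ} (hp : p.Prime) (h5 : 5 ≤ p) : AnUnitG p EZ ℚ := by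
  have hbn : NumberField (⊥ : IntermediateField H55B.F (AlgebraicClosure H55B.F)) := H16C.FR_numberField _
  rw [an_rat ex_base (ex_prime hp h5)]
  refine H55P.gen_glue hp ?_
  intro V hV
  exact H55P.baseE _ IntermediateField.finrank_bot V (H55P.val3 p hp h5 V hV).1

/-- Chunk EX2 (S/M). The class InP of H55P is contained in InPF: the field L is the same; UnrP p L as in subU_of_inP (I7.lean); a prime v with Δ not in v and p dividing the number of points is not GoodP. -/
theorem ex_in {p : ℕ} (hp : p.Prime) (h5 : 5 ≤ p) (K : Type) [Field K] [NumberField K] (hK : H55P.InP p K) :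
    InPF (EZ⁄(H55B.O)) p K := by
  obtain ⟨Lt, i1, i2, i3, i4, hG, ⟨k, hk⟩, hunr⟩ := hK
  have hU : H55P.UnrP p Lt := by
    have hfL : FiniteDimensional H55B.F Lt := Module.finite_of_finrank_pos (by rw [hk]; exact pow_pos hp.pos k)
    let j : Lt →ₐ[H55B.F] H55P.FB := IsAlgClosed.lift
    have hL : H55P.PExt p ⊥ j.fieldRange := H55P.pext_range p hp Lt hG k hk j
    have hLf : FiniteDimensional H55B.F j.fieldRange := hL.fin
    have hLn : NumberField j.fieldRange := H16C.FR_numberField _
    have hram : ∀ v₀ : HeightOneSpectrum H55B.O, H55P.RamF j.fieldRange v₀.asIdeal → H55P.GoodP p v₀ := by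
      intro v₀ h
      by_contra hng
      obtain ⟨W, hW, he⟩ := H55P.ramF_range Lt j v₀ h
      exact he (hunr W v₀ hW hng)
    have h1 : H55P.UnrP p j.fieldRange := H55P.unrP_sub p hp _ (H55P.sqfree_E p hp h5) fun v hv => (hram v hv).2.1
    letI : Algebra Lt j.fieldRange := (AlgEquiv.ofInjectiveField j).toRingEquiv.toRingHom.toAlgebra
    exact H55P.UnrP.down Lt j.fieldRange p hp h1
  refine ⟨Lt, i1, i2, i3, i4, hG, ⟨k, hk⟩, hU, ?_⟩
  intro w v hv hΔ hd
  refine hunr w v hv ?_
  intro hg
  apply hg.2.2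
  rw [EZ_O] at hd
  exact hd

end H55K.TQ
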