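import Mathlib
import Pool.Agent.Lib.H55K.G5
import Pool.Agent.Lib.H55K.G6
import Pool.Agent.Lib.H55K.GF

/-!
# H55K: the geometry at a good valuation ring (interface)

ak_le, gv_good (G1), tt_add2 (G2), transl (G3), tor_card, exists_TN, ker_act, tt_act, tor_unit (G4), tor_ram, ker_prod, ker_red
(G5), ker_fin (G6), inert_fix (GF).
-/
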