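import Mathlib
import Pool.Agent.Lib.H55K.DM

/-! # H55K: the number of points of a curve over the integers over finite fields -/

open NumberField IsDedekindDomain WeierstrassCurve

namespace H55K

open H55P (IQ embF eF LF IsHecke Nm)

/-- The number of points of W modulo a prime number. -/
noncomputable def NW (W : WeierstrassCurve ℤ) (l : ℕ) : ℕ := Nat.card (W.map (Int.castRingHom (ZMod l))).toAffine.Point

theorem pz_ab (s p : ℂ) : ∃ α β : ℂ, α + β = s ∧ α * β = p := by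
  obtain ⟨d, hd⟩ := IsAlgClosed.exists_pow_nat_eq (s ^ 2 - 4 * p) (show 0 < 2 by norm_num)
  refine ⟨(s + d) / 2, (s - d) / 2, by ring, ?_⟩
  linear_combination (-1 / 4 : ℂ) * hd

theorem pts_Z (W : WeierstrassCurve ℤ) {l : ℕ} [hl : Fact l.Prime] (hΔ : ¬ (l : ℤ) ∣ W.Δ) (α β : ℂ)
    (h1 : α + β = (l : ℂ) + 1 - (NW W l : ℂ)) (h2 : α * β = (l : ℂ)) (k' : Type) [Field k'] [Finite k'] [CharP k' l]
    (f : ℕ) (hf : Nat.card k' = l ^ f) :
    (Nat.card (W.map (Int.castRingHom k')).toAffine.Point : ℂ) = (l : ℂ) ^ f + 1 - α ^ f - β ^ f := by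
  let _ : Algebra (ZMod l) k' := ZMod.algebra k' l
  have hΔ' : (W.map (Int.castRingHom (ZMod l))).Δ ≠ 0 := by
    rw [WeierstrassCurve.map_Δ]
    intro h
    apply hΔ
    exact (ZMod.intCast_zmod_eq_zero_iff_dvd _ _).1 h
  have hcard : Nat.card (ZMod l) = l := by rw [Nat.card_eq_fintype_card, ZMod.card]
  have h := weil (k := ZMod l) (K := k') (W.map (Int.castRingHom (ZMod l))) hΔ' α β (by
    rw [hcard]
    exact h1) (by
    rw [hcard]
    exact h2)
  have hfr : Module.finrank (ZMod l) k' = f := by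
    have : Module.Finite (ZMod l) k' := Module.Finite.of_finite
    have h3 : Nat.card k' = Nat.card (ZMod l) ^ Module.finrank (ZMod l) k' := Module.natCard_eq_pow_finrank
    rw [hcard, hf] at h3
    exact (Nat.pow_right_injective hl.out.two_le h3).symm
  have hmap : WeierstrassCurve.baseChange (W.map (Int.castRingHom (ZMod l))) k' = W.map (Int.castRingHom k') := by
    unfold WeierstrassCurve.baseChange
    rw [WeierstrassCurve.map_map]
    congr 1
    exact RingHom.ext_int _ _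
  rw [hmap, hf, hfr] at h
  rw [h]
  push_cast
  ring

theorem pz_odd {α β : ℂ} (h : α + β = 0) {f : ℕ} (hf : Odd f) : α ^ f + β ^ f = 0 := by
  have h1 : β = -α := by linear_combination h
  rw [h1, hf.neg_pow]
  ring

variable {F : Type} [Field F] [NumberField F] [IQ F]

theorem pz_unit {ε : 𝓞 F} (hε : IsUnit ε) : ε * cj ε = 1 := by
  have h1 : Nm ε = 1 := by
    unfold Nm
    rw [Ideal.span_singleton_eq_top.2 hε, ← Ideal.one_eq_top, map_one]
  rw [mul_cj, h1, Nat.cast_one]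

/-- An integer which is an algebraic multiple. -/
theorem pz_dvd {l : ℕ} (hl : l ≠ 0) {t : 𝓞 F} {n : ℤ} (h : (l : 𝓞 F) * t = (n : 𝓞 F)) : ∃ t' : ℤ, t = (t' : 𝓞 F) := by
  have h1 : (t : F) = algebraMap ℚ F ((n : ℚ) / (l : ℚ)) := by
    have h2 := congrArg (fun z : 𝓞 F => (z : F)) h
    simp only [map_mul, map_natCast, map_intCast] at h2
    have h3 : (l : F) ≠ 0 := Nat.cast_ne_zero.2 hl
    rw [map_div₀, map_intCast, map_natCast, eq_div_iff h3, mul_comm]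
    exact h2
  have h2 : IsIntegral ℤ ((n : ℚ) / (l : ℚ)) := by
    have h3 : IsIntegral ℤ (t : F) := RingOfIntegers.isIntegral_coe t
    rw [h1] at h3
    exact (isIntegral_algebraMap_iff (algebraMap ℚ F).injective).1 h3
  obtain ⟨y, hy⟩ := IsIntegrallyClosed.isIntegral_iff.1 h2
  refine ⟨y, ?_⟩
  apply RingOfIntegers.coe_injective
  refine Eq.trans (b := (t : F)) rfl (h1.trans ?_)
  rw [← hy]
  simp

theorem pz_bd {ε : 𝓞 F} (hε : IsUnit ε) {t : ℤ} (ht : ε + cj ε = (t : 𝓞 F)) : |t| ≤ 2 := by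
  have h1 := congrArg (eF F) ht
  rw [map_add, e_cj, map_intCast] at h1
  have h2 : ‖eF F ε‖ = 1 := by
    have h3 := pz_unit hε
    have h4 := congrArg (eF F) h3
    rw [map_mul, e_cj, map_one, Complex.mul_conj, Complex.normSq_eq_norm_sq] at h4
    have h5 : ‖eF F ε‖ ^ 2 = 1 := by exact_mod_cast h4
    nlinarith [norm_nonneg (eF F ε)]
  have h3 : ‖((t : ℤ) : ℂ)‖ ≤ 2 := by
    rw [← h1]
    refine (norm_add_le _ _).trans ?_
    rw [RCLike.norm_conj, h2]
    norm_num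
  have h4 : |(t : ℝ)| ≤ 2 := by
    have : ‖((t : ℤ) : ℂ)‖ = |(t : ℝ)| := by
      rw [Complex.norm_intCast]
    rw [← this]
    exact h3
  exact_mod_cast h4

/-- The values of the Hecke character at the inert primes. -/
theorem psi_inert (W : WeierstrassCurve ℤ) {l : ℕ} [hl : Fact l.Prime] (hΔ : ¬ (l : ℤ) ∣ W.Δ)
    (v : HeightOneSpectrum (𝓞 F)) (hv : v.asIdeal = Ideal.span {(l : 𝓞 F)}) {x : 𝓞 F} (hx : Ideal.span {x} = v.asIdeal)
    (hdeu : Nat.card ((W.map (Int.castRingHom (𝓞 F)))⁄(𝓞 F ⧸ v.asIdeal)).toAffine.Point = Nm (1 - x)) :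
    x = -(l : 𝓞 F) ∧ NW W l = l + 1 := by
  have hl0 : (l : ℕ) ≠ 0 := hl.out.ne_zero
  have hmax : v.asIdeal.IsMaximal := v.isMaximal
  let _ : Field (𝓞 F ⧸ v.asIdeal) := Ideal.Quotient.field _
  have hfin : Finite (𝓞 F ⧸ v.asIdeal) := Ideal.finiteQuotientOfFreeOfNeBot _ v.ne_bot
  have hcard : Nat.card (𝓞 F ⧸ v.asIdeal) = l ^ 2 := by
    rw [← Submodule.cardQuot_apply, ← Ideal.absNorm_apply, hv]
    exact Nm_nat l
  have hchar : CharP (𝓞 F ⧸ v.asIdeal) l := by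
    have h1 : ((l : ℕ) : 𝓞 F ⧸ v.asIdeal) = 0 := by
      rw [← map_natCast (Ideal.Quotient.mk v.asIdeal), Ideal.Quotient.eq_zero_iff_mem, hv]
      exact Ideal.mem_span_singleton_self _
    obtain ⟨q, hq⟩ := CharP.exists (𝓞 F ⧸ v.asIdeal)
    have h2 : q ∣ l := (CharP.cast_eq_zero_iff _ q l).1 h1
    rcases (Nat.dvd_prime hl.out).1 h2 with h3 | h3
    · exfalso
      rw [h3] at hq
      exact CharP.char_ne_one (𝓞 F ⧸ v.asIdeal) 1 rfl
    · rw [← h3]
      exact hq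
  obtain ⟨α, β, hs, hp⟩ := pz_ab ((l : ℂ) + 1 - (NW W l : ℂ)) (l : ℂ)
  have h1 := pts_Z W hΔ α β hs hp (𝓞 F ⧸ v.asIdeal) 2 hcard
  have hmap : W.map (Int.castRingHom (𝓞 F ⧸ v.asIdeal)) = (W.map (Int.castRingHom (𝓞 F)))⁄(𝓞 F ⧸ v.asIdeal) := by
    unfold WeierstrassCurve.baseChange
    rw [WeierstrassCurve.map_map]
    congr 1
  rw [hmap, hdeu] at h1
  -- the unit
  have hass : Associated (l : 𝓞 F) x := by
    rw [← Ideal.span_singleton_eq_span_singleton, hx, hv]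
  obtain ⟨ε, hε⟩ := hass
  obtain ⟨a, ha⟩ : ∃ a : ℤ, a = (l : ℤ) + 1 - (NW W l : ℤ) := ⟨_, rfl⟩
  have h2 : ((Nm (1 - x) : ℕ) : ℤ) = (l : ℤ) ^ 2 + 1 - (a ^ 2 - 2 * l) := by
    have e1 : ((Nm (1 - x) : ℕ) : ℂ) = (l : ℂ) ^ 2 + 1 - (((l : ℂ) + 1 - (NW W l : ℂ)) ^ 2 - 2 * (l : ℂ)) := by
      rw [h1, ← hs]
      linear_combination (2 : ℂ) * hp
    rw [ha]
    exact_mod_cast e1
  have h3 : (l : 𝓞 F) * ((ε : 𝓞 F) + cj (ε : 𝓞 F)) = ((a ^ 2 - 2 * l : ℤ) : 𝓞 F) := by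
    have e1 := mul_cj (1 - x)
    have e2 : ((Nm (1 - x) : ℕ) : 𝓞 F) = (((l : ℤ) ^ 2 + 1 - (a ^ 2 - 2 * l) : ℤ) : 𝓞 F) := by
      rw [← h2]
      norm_cast
    have e3 := pz_unit (F := F) ε.isUnit
    rw [e2, ← hε, map_sub, map_one, map_mul, cj_nat] at e1
    push_cast at e1 ⊢
    linear_combination -e1 + (l : 𝓞 F) ^ 2 * e3
  obtain ⟨t, ht⟩ := pz_dvd (F := F) hl0 h3
  have hbd := pz_bd ε.isUnit ht
  have h4 : (l : ℤ) * t = a ^ 2 - 2 * l := by
    rw [ht] at h3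
    exact_mod_cast h3
  have h5 : a ^ 2 = (l : ℤ) * (2 + t) := by linear_combination -h4
  have hlp : Prime (l : ℤ) := Nat.prime_iff_prime_int.1 hl.out
  have h6 : (l : ℤ) ∣ a := hlp.dvd_of_dvd_pow ⟨_, h5⟩
  obtain ⟨b, hb⟩ := h6
  have h7 : (l : ℤ) * b ^ 2 = 2 + t := by
    have : (l : ℤ) * ((l : ℤ) * b ^ 2) = (l : ℤ) * (2 + t) := by
      rw [← h5, hb]
      ring
    exact mul_left_cancel₀ (by exact_mod_cast hl0) this
  have h8 := abs_le.1 hbd
  have hl2 : (2 : ℤ) ≤ l := by exact_mod_cast hl.out.two_le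
  have hprime : Prime (l : 𝓞 F) := by
    rw [← Ideal.span_singleton_prime (by exact_mod_cast hl0), ← hv]
    exact v.isPrime
  have hεε := pz_unit (F := F) ε.isUnit
  have hb0 : b = 0 := by
    by_contra hb0
    have hb1 : 1 ≤ b ^ 2 := by
      have : 0 < b ^ 2 := by positivity
      omega
    have hb2 : b ^ 2 < 4 := by nlinarith
    have hb3 : b ^ 2 = 1 := by
      have h9 : b < 2 := by nlinarith
      have h10 : -2 < b := by nlinarith
      have h11 : b = 1 ∨ b = -1 := by omega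
      rcases h11 with h11 | h11 <;> rw [h11] <;> norm_num
    rw [hb3, mul_one] at h7
    -- l = 2 + t, t ≤ 2
    have hsq : (1 + (ε : 𝓞 F)) ^ 2 = (l : 𝓞 F) * ε := by
      have e1 : ((2 + t : ℤ) : 𝓞 F) = (l : 𝓞 F) := by
        rw [← h7]
        norm_cast
      push_cast at e1
      rw [← e1, ← ht]
      linear_combination -hεε
    have hN : Nm (1 + (ε : 𝓞 F)) = l := by
      have e1 := mul_cj (1 + (ε : 𝓞 F))
      rw [map_add, map_one] at e1
      have e2 : ((2 + t : ℤ) : 𝓞 F) = (l : 𝓞 F) := by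
        rw [← h7]
        norm_cast
      push_cast at e2
      have e3 : ((Nm (1 + (ε : 𝓞 F)) : ℕ) : 𝓞 F) = ((l : ℕ) : 𝓞 F) := by
        rw [← e1, ← e2, ← ht]
        linear_combination hεε
      exact Nat.cast_injective e3
    have hd : (l : 𝓞 F) ∣ 1 + (ε : 𝓞 F) := hprime.dvd_of_dvd_pow ⟨_, hsq⟩
    obtain ⟨c, hc⟩ := hd
    have e4 : Nm (1 + (ε : 𝓞 F)) = l ^ 2 * Nm c := by
      rw [hc, Nm_mul, Nm_nat]
    rw [hN] at e4
    have e5 : l ^ 2 ∣ l := ⟨_, e4⟩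
    have e6 := Nat.le_of_dvd hl.out.pos e5
    have := hl.out.two_le
    nlinarith
  have ht2 : t = -2 := by
    rw [hb0] at h7
    linarith
  have ha0 : a = 0 := by rw [hb, hb0, mul_zero]
  constructor
  · have e1 : ((ε : 𝓞 F) + 1) ^ 2 = 0 := by
      have e2 : (ε : 𝓞 F) + cj (ε : 𝓞 F) = -2 := by
        rw [ht, ht2]
        push_cast
        ring
      linear_combination (ε : 𝓞 F) * e2 - hεε
    have e2 : (ε : 𝓞 F) + 1 = 0 := pow_eq_zero_iff (two_ne_zero) |>.1 e1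
    have e3 : (ε : 𝓞 F) = -1 := by linear_combination e2
    rw [← hε, e3]
    ring
  · rw [ha0] at ha
    omega

end H55K
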