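import Mathlib
import Pool.Agent.Lib.H55K.FB6A
import Pool.Agent.Lib.H55K.FB6B

/-! # H55K: collection (the analytic part over K and the Hecke L-value) -/
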