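import Mathlib
import Pool.Agent.Lib.H55K.PZ

/-! # H55K: the Hecke character of a curve over the rationals commutes with complex conjugation -/

open NumberField IsDedekindDomain WeierstrassCurve

namespace H55K

open H55P (IQ embF eF LF IsHecke Nm)

variable {F : Type} [Field F] [NumberField F] [IQ F]

omit [IQ F] in
/-- The prime number below v. -/
theorem pc_below (v : HeightOneSpectrum (𝓞 F)) : ∃ l : ℕ, l.Prime ∧ (l : 𝓞 F) ∈ v.asIdeal := by
  have key : ∀ n : ℕ, 1 ≤ n → (n : 𝓞 F) ∈ v.asIdeal → ∃ l : ℕ, l.Prime ∧ (l : 𝓞 F) ∈ v.asIdeal := by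
    intro n
    induction n using Nat.strong_induction_on with
    | _ n ih =>
      intro h1 hn
      by_cases h2 : n = 1
      · exfalso
        rw [h2, Nat.cast_one] at hn
        exact v.isPrime.ne_top ((Ideal.eq_top_iff_one _).2 hn)
      · have hp := Nat.minFac_prime h2
        obtain ⟨m, hm⟩ := Nat.minFac_dvd n
        rw [hm, Nat.cast_mul] at hn
        rcases v.isPrime.mem_or_mem hn with h3 | h3
        · exact ⟨_, hp, h3⟩
        · have hm1 : 1 ≤ m := by
            rcases Nat.eq_zero_or_pos m with h4 | h4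
            · rw [h4, mul_zero] at hm
              omega
            · exact h4
          refine ih m ?_ hm1 h3
          have := hp.two_le
          nlinarith
  refine key (Ideal.absNorm v.asIdeal) ?_ (Ideal.absNorm_mem _)
  have : Ideal.absNorm v.asIdeal ≠ 0 := by
    rw [Ne, Ideal.absNorm_eq_zero_iff]
    exact v.ne_bot
  omega

/-- The norm of v is l or v is generated by l. -/
theorem pc_norm {v : HeightOneSpectrum (𝓞 F)} {l : ℕ} (hl : l.Prime) (hv : (l : 𝓞 F) ∈ v.asIdeal) :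
    Ideal.absNorm v.asIdeal = l ∨ v.asIdeal = Ideal.span {(l : 𝓞 F)} := by
  have hle : Ideal.span {(l : 𝓞 F)} ≤ v.asIdeal := by
    rw [Ideal.span_singleton_le_iff_mem]
    exact hv
  have hd : Ideal.absNorm v.asIdeal ∣ l ^ 2 := by
    rw [← Nm_nat (F := F) l]
    exact Ideal.absNorm_dvd_absNorm_of_le hle
  obtain ⟨k, hk, hk'⟩ := (Nat.dvd_prime_pow hl).1 hd
  have h1 : Ideal.absNorm v.asIdeal ≠ 1 := by
    rw [Ne, Ideal.absNorm_eq_one_iff]
    exact v.isPrime.ne_top
  interval_cases k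
  · exact absurd hk' h1
  · left
    rw [hk', pow_one]
  · right
    obtain ⟨J, hJ⟩ := Ideal.dvd_iff_le.2 hle
    have h2 : Ideal.absNorm (Ideal.span {(l : 𝓞 F)}) = l ^ 2 := Nm_nat (F := F) l
    have h3 : Ideal.absNorm J = 1 := by
      have h4 := congrArg Ideal.absNorm hJ
      rw [map_mul, h2, hk'] at h4
      have h5 : 0 < l ^ 2 := pow_pos hl.pos 2
      exact Nat.eq_of_mul_eq_mul_left h5 (by rw [mul_one]; exact h4.symm)
    rw [Ideal.absNorm_eq_one_iff] at h3
    rw [hJ, h3, Ideal.mul_top]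

/-- The number of points over a residue field of degree one. -/
theorem pc_one (W : WeierstrassCurve ℤ) {l : ℕ} [hl : Fact l.Prime] (hΔ : ¬ (l : ℤ) ∣ W.Δ)
    (v : HeightOneSpectrum (𝓞 F)) (hv : (l : 𝓞 F) ∈ v.asIdeal) (hN : Ideal.absNorm v.asIdeal = l) :
    Nat.card ((W.map (Int.castRingHom (𝓞 F)))⁄(𝓞 F ⧸ v.asIdeal)).toAffine.Point = NW W l := by
  have hmax : v.asIdeal.IsMaximal := v.isMaximal
  let _ : Field (𝓞 F ⧸ v.asIdeal) := Ideal.Quotient.field _
  have hfin : Finite (𝓞 F ⧸ v.asIdeal) := Ideal.finiteQuotientOfFreeOfNeBot _ v.ne_bot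
  have hcard : Nat.card (𝓞 F ⧸ v.asIdeal) = l ^ 1 := by
    rw [← Submodule.cardQuot_apply, ← Ideal.absNorm_apply, hN, pow_one]
  have hchar : CharP (𝓞 F ⧸ v.asIdeal) l := by
    have h1 : ((l : ℕ) : 𝓞 F ⧸ v.asIdeal) = 0 := by
      rw [← map_natCast (Ideal.Quotient.mk v.asIdeal), Ideal.Quotient.eq_zero_iff_mem]
      exact hv
    obtain ⟨q, hq⟩ := CharP.exists (𝓞 F ⧸ v.asIdeal)
    have h2 : q ∣ l := (CharP.cast_eq_zero_iff _ q l).1 h1
    rcases (Nat.dvd_prime hl.out).1 h2 with h3 | h3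
    · exfalso
      rw [h3] at hq
      exact CharP.char_ne_one (𝓞 F ⧸ v.asIdeal) 1 rfl
    · rw [← h3]
      exact hq
  obtain ⟨α, β, hs, hp⟩ := pz_ab ((l : ℂ) + 1 - (NW W l : ℂ)) (l : ℂ)
  have h1 := pts_Z W hΔ α β hs hp (𝓞 F ⧸ v.asIdeal) 1 hcard
  have hmap : W.map (Int.castRingHom (𝓞 F ⧸ v.asIdeal)) = (W.map (Int.castRingHom (𝓞 F)))⁄(𝓞 F ⧸ v.asIdeal) := by
    unfold WeierstrassCurve.baseChange
    rw [WeierstrassCurve.map_map]
    congr 1
  rw [hmap] at h1
  have h2 : (Nat.card ((W.map (Int.castRingHom (𝓞 F)))⁄(𝓞 F ⧸ v.asIdeal)).toAffine.Point : ℂ) = (NW W l : ℂ) := by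
    rw [h1]
    linear_combination -hs
  exact_mod_cast h2

omit [NumberField F] [IQ F] [Field F] in
/-- The number of points over the finite fields of odd degree at a supersingular prime. -/
theorem pts_odd (W : WeierstrassCurve ℤ) {l : ℕ} [hl : Fact l.Prime] (hΔ : ¬ (l : ℤ) ∣ W.Δ) (hN : NW W l = l + 1)
    (k' : Type) [Field k'] [Finite k'] [CharP k' l] (f : ℕ) (hf : Nat.card k' = l ^ f) (hodd : Odd f) :
    Nat.card (W.map (Int.castRingHom k')).toAffine.Point = l ^ f + 1 := by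
  obtain ⟨α, β, hs, hp⟩ := pz_ab ((l : ℂ) + 1 - (NW W l : ℂ)) (l : ℂ)
  have h1 := pts_Z W hΔ α β hs hp k' f hf
  have h0 : α + β = 0 := by
    rw [hs, hN]
    push_cast
    ring
  have h2 := pz_odd h0 hodd
  have h3 : (Nat.card (W.map (Int.castRingHom k')).toAffine.Point : ℂ) = ((l ^ f + 1 : ℕ) : ℂ) := by
    rw [h1]
    push_cast
    linear_combination -h2
  exact_mod_cast h3

omit [NumberField F] [IQ F] [Field F] in
/-- The number of points over the finite fields of even degree at a supersingular prime. -/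
theorem pts_even (W : WeierstrassCurve ℤ) {l : ℕ} [hl : Fact l.Prime] (hΔ : ¬ (l : ℤ) ∣ W.Δ) (hN : NW W l = l + 1)
    (k' : Type) [Field k'] [Finite k'] [CharP k' l] (g : ℕ) (hf : Nat.card k' = l ^ (2 * g)) :
    (Nat.card (W.map (Int.castRingHom k')).toAffine.Point : ℤ) = l ^ (2 * g) + 1 - 2 * (-(l : ℤ)) ^ g := by
  obtain ⟨α, β, hs, hp⟩ := pz_ab ((l : ℂ) + 1 - (NW W l : ℂ)) (l : ℂ)
  have h1 := pts_Z W hΔ α β hs hp k' (2 * g) hf
  have h0 : α + β = 0 := by
    rw [hs, hN]
    push_cast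
    ring
  have h2 : α ^ 2 = -(l : ℂ) := by linear_combination α * h0 - hp
  have h2' : β ^ 2 = -(l : ℂ) := by linear_combination β * h0 - hp
  have h3 : (Nat.card (W.map (Int.castRingHom k')).toAffine.Point : ℂ) =
      (((l : ℤ) ^ (2 * g) + 1 - 2 * (-(l : ℤ)) ^ g : ℤ) : ℂ) := by
    rw [h1, pow_mul α, pow_mul β, h2, h2']
    push_cast
    ring
  exact_mod_cast h3

/-- The image of an ideal under complex conjugation. -/
noncomputable def cI (a : Ideal (𝓞 F)) : Ideal (𝓞 F) := a.map (cj (F := F) : 𝓞 F ≃+* 𝓞 F)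

theorem cI_mem (a : Ideal (𝓞 F)) (x : 𝓞 F) : x ∈ cI a ↔ cj x ∈ a := by
  unfold cI
  rw [Ideal.mem_map_of_equiv]
  constructor
  · rintro ⟨y, hy, rfl⟩
    rw [cj_cj]
    exact hy
  · intro h
    exact ⟨cj x, h, cj_cj x⟩

theorem cI_span (x : 𝓞 F) : cI (Ideal.span {x}) = Ideal.span {cj x} := by
  unfold cI
  rw [Ideal.map_span, Set.image_singleton]

theorem cI_mul (a b : Ideal (𝓞 F)) : cI (a * b) = cI a * cI b := Ideal.map_mul _ _ _

/-- The conjugate prime. -/
noncomputable def cv (v : HeightOneSpectrum (𝓞 F)) : HeightOneSpectrum (𝓞 F) where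
  asIdeal := cI v.asIdeal
  isPrime := Ideal.map_isPrime_of_equiv (cj (F := F))
  ne_bot := by
    intro h
    apply v.ne_bot
    rw [eq_bot_iff]
    intro x hx
    have h1 : cj x ∈ cI v.asIdeal := by
      rw [cI_mem, cj_cj]
      exact hx
    rw [h, Ideal.mem_bot] at h1
    rw [Ideal.mem_bot]
    exact (map_eq_zero_iff (cj (F := F)) (cj (F := F)).injective).1 h1

/-- The Hecke character of a curve over the rationals: the values at conjugate ideals are conjugate. -/
theorem psi_conj (W : WeierstrassCurve ℤ) {m : Ideal (𝓞 F)} {ψ : Ideal (𝓞 F) →*₀ 𝓞 F} (hψ : IsHecke m ψ)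
    (hdeu : ∀ v : HeightOneSpectrum (𝓞 F), (W.map (Int.castRingHom (𝓞 F))).Δ ∉ v.asIdeal → ¬ m ≤ v.asIdeal →
      Nat.card ((W.map (Int.castRingHom (𝓞 F)))⁄(𝓞 F ⧸ v.asIdeal)).toAffine.Point = Nm (1 - ψ v.asIdeal))
    (hsup : ∀ v : HeightOneSpectrum (𝓞 F), (W.map (Int.castRingHom (𝓞 F))).Δ ∈ v.asIdeal ↔ m ≤ v.asIdeal)
    (hram : ∀ v : HeightOneSpectrum (𝓞 F), cI v.asIdeal = v.asIdeal →
      (∀ l : ℕ, l.Prime → v.asIdeal ≠ Ideal.span {(l : 𝓞 F)}) → m ≤ v.asIdeal)
    (a : Ideal (𝓞 F)) : ψ (cI a) = cj (ψ a) := by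
  have hD : (W.map (Int.castRingHom (𝓞 F))).Δ = ((W.Δ : ℤ) : 𝓞 F) := by
    rw [WeierstrassCurve.map_Δ]
    rfl
  rw [hD] at hdeu hsup
  have hcop : ∀ v : HeightOneSpectrum (𝓞 F), ¬ m ≤ v.asIdeal → IsCoprime v.asIdeal m := by
    intro v hv
    rw [Ideal.isCoprime_iff_sup_eq]
    by_contra hne
    have h1 := v.isMaximal.eq_of_le hne le_sup_left
    exact hv (by rw [h1]; exact le_sup_right)
  have hncop : ∀ v : HeightOneSpectrum (𝓞 F), m ≤ v.asIdeal → ψ v.asIdeal = 0 := by
    intro v hv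
    apply hψ.zero
    rw [Ideal.isCoprime_iff_sup_eq, sup_eq_left.2 hv]
    exact v.isPrime.ne_top
  have hprime : ∀ v : HeightOneSpectrum (𝓞 F), ψ (cI v.asIdeal) = cj (ψ v.asIdeal) := by
    intro v
    have hmm : m ≤ (cv v).asIdeal ↔ m ≤ v.asIdeal := by
      rw [← hsup, ← hsup]
      show ((W.Δ : ℤ) : 𝓞 F) ∈ cI v.asIdeal ↔ _
      rw [cI_mem, cj_int]
    by_cases hm : m ≤ v.asIdeal
    · rw [hncop v hm, map_zero]
      exact hncop (cv v) (hmm.2 hm)
    · have hm' : ¬ m ≤ (cv v).asIdeal := fun h => hm (hmm.1 h)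
      have hΔv : ((W.Δ : ℤ) : 𝓞 F) ∉ v.asIdeal := fun h => hm ((hsup v).1 h)
      have hΔv' : ((W.Δ : ℤ) : 𝓞 F) ∉ (cv v).asIdeal := fun h => hm' ((hsup _).1 h)
      obtain ⟨l, hl, hlv⟩ := pc_below v
      have hlf : Fact l.Prime := ⟨hl⟩
      have hlv' : (l : 𝓞 F) ∈ (cv v).asIdeal := by
        show (l : 𝓞 F) ∈ cI v.asIdeal
        rw [cI_mem, cj_nat]
        exact hlv
      have hlΔ : ¬ (l : ℤ) ∣ W.Δ := by
        rintro ⟨c, hc⟩
        apply hΔv
        rw [hc]
        push_cast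
        exact Ideal.mul_mem_right _ _ hlv
      have g1 := hψ.gen _ (hcop v hm)
      have g2 : Ideal.span {ψ (cI v.asIdeal)} = cI v.asIdeal := hψ.gen _ (hcop (cv v) hm')
      by_cases hin : v.asIdeal = Ideal.span {(l : 𝓞 F)}
      · obtain ⟨e1, -⟩ := psi_inert W hlΔ v hin g1 (hdeu v hΔv hm)
        have hin' : cI v.asIdeal = v.asIdeal := by
          rw [hin, cI_span, cj_nat]
        rw [hin', e1, map_neg, cj_nat]
      · have hNv : Ideal.absNorm v.asIdeal = l := (pc_norm hl hlv).resolve_right hin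
        have hin' : (cv v).asIdeal ≠ Ideal.span {(l : 𝓞 F)} := by
          intro h
          apply hin
          ext x
          rw [← cj_cj x, ← cI_mem, show cI v.asIdeal = (cv v).asIdeal from rfl, h, Ideal.mem_span_singleton,
            Ideal.mem_span_singleton, ← cj_dvd, cj_nat, cj_cj]
        have hNv' : Ideal.absNorm (cv v).asIdeal = l := (pc_norm hl hlv').resolve_right hin'
        have c1 := pc_one W hlΔ v hlv hNv
        have c2 := pc_one W hlΔ (cv v) hlv' hNv'
        rw [hdeu v hΔv hm] at c1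
        rw [hdeu (cv v) hΔv' hm'] at c2
        have hne : cI v.asIdeal ≠ v.asIdeal := by
          intro h
          apply hm
          apply hram v h
          intro q hq hvq
          apply hin
          -- q = l
          have hql : (q : ℕ) = l := by
            have h1 : Ideal.absNorm v.asIdeal = q ^ 2 := by
              rw [hvq]
              exact Nm_nat q
            rw [hNv] at h1
            exfalso
            have h2 := hl.eq_one_or_self_of_dvd q ⟨q, by rw [h1, sq]⟩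
            rcases h2 with h2 | h2
            · exact hq.ne_one h2
            · rw [h2] at h1
              have := hl.two_le
              nlinarith
          rw [hvq, hql]
        have n1 : Nm (ψ v.asIdeal) = l := by
          unfold Nm
          rw [g1, hNv]
        have n2 : Nm (ψ (cI v.asIdeal)) = l := by
          unfold Nm
          rw [g2]
          exact hNv'
        have e1 := mul_cj (ψ v.asIdeal)
        have e2 := mul_cj (ψ (cI v.asIdeal))
        have e3 := mul_cj (1 - ψ v.asIdeal)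
        have e4 := mul_cj (1 - ψ (cI v.asIdeal))
        have c2' : Nm (1 - ψ (cI v.asIdeal)) = NW W l := c2
        rw [n1] at e1
        rw [n2] at e2
        rw [c1, map_sub, map_one] at e3
        rw [c2', map_sub, map_one] at e4
        have hprod : (ψ (cI v.asIdeal) - ψ v.asIdeal) * (ψ (cI v.asIdeal) - cj (ψ v.asIdeal)) = 0 := by
          linear_combination e1 - e2 + ψ (cI v.asIdeal) * (e3 - e4 - e1 + e2)
        rcases mul_eq_zero.1 hprod with h | h
        · exfalso
          apply hne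
          rw [← g2, sub_eq_zero.1 h, g1]
        · exact sub_eq_zero.1 h
  induction a using UniqueFactorizationMonoid.induction_on_prime with
  | h₁ =>
    have h0 : cI (0 : Ideal (𝓞 F)) = 0 := by
      unfold cI
      rw [Ideal.zero_eq_bot, Ideal.map_bot]
    rw [h0, map_zero, map_zero]
  | h₂ x hx =>
    have h1 : x = 1 := by
      rw [Ideal.isUnit_iff] at hx
      rw [hx, Ideal.one_eq_top]
    have h0 : cI (1 : Ideal (𝓞 F)) = 1 := by
      unfold cI
      rw [Ideal.one_eq_top, Ideal.map_top]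
    rw [h1, h0, map_one, map_one]
  | h₃ b p hb hp ih =>
    have hpI : p.IsPrime := Ideal.isPrime_of_prime hp
    have h1 := hprime ⟨p, hpI, hp.ne_zero⟩
    rw [cI_mul, map_mul, map_mul, map_mul, ih]
    congr 1

end H55K
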