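import Mathlib
import Pool.Agent.Lib.H55K.QB1A
import Pool.Agent.Lib.H55K.QB1B

/-! # H55K: collection (extension of the valuation ring to an algebraic closure) -/
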