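import Mathlib
import Pool.Agent.Lib.H55K.QP2A
import Pool.Agent.Lib.H55K.QP2B
import Pool.Agent.Lib.H55K.QP2C

/-! # H55K: collection (the complex and the real period are p-adic units times the periods) -/
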