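import Mathlib
import Pool.Agent.Lib.H55K.SCH
import Pool.Agent.Lib.H13S.OR1

/-! # H55K, part S: port of H13S/OR2 -/

open NumberField IsDedekindDomain WeierstrassCurve

namespace H55K.S

open H55P (IQ embF eF LF Per IsHecke Pt ac Inert Dec Nm)
open H35P (WAB Ker tt)
open H13S (Abv)




variable {F : Type} [Field F] [NumberField F] [IQ F] {A B : F} {Om : ℂ} {Ω : Type} [Field Ω] [DecidableEq Ω]
  [Algebra F Ω] [IsAlgClosure F Ω] {j : Ω →+* ℂ} {act : 𝓞 F →+* AddMonoid.End (Pt (WAB A B) Ω)} {mo : Ideal (𝓞 F)}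
  {ψ : Ideal (𝓞 F) →*₀ 𝓞 F}

theorem or2_sur {π : 𝓞 F} (hπ : Prime π) (σ : Ω ≃ₐ[F] Ω) (a : 𝓞 F)
    (ha : ∀ T ∈ Tor act π, ac (WAB A B) σ T = act a T) (hmv : ∃ T ∈ Tor act π, ac (WAB A B) σ T ≠ T)
    (T : Pt (WAB A B) Ω) (hT : T ∈ Tor act π) : ∃ T' ∈ Tor act π, T + T' = ac (WAB A B) σ T' := by
  have hnd : ¬ π ∣ (a - 1) := by
    rintro ⟨b, hb⟩
    obtain ⟨S, hS, hS'⟩ := hmv
    apply hS'
    have h1 : act (a - 1) S = 0 := by
      rw [hb, mul_comm, act_mul, mem_Tor.1 hS, map_zero]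
    rw [act_sub, act_one, sub_eq_zero] at h1
    rw [ha S hS, h1]
  have hp : (Ideal.span {π}).IsPrime := (Ideal.span_singleton_prime hπ.ne_zero).2 hπ
  have hbot : Ideal.span {π} ≠ ⊥ := by
    rw [Ne, Ideal.span_singleton_eq_bot]
    exact hπ.ne_zero
  have hm : (Ideal.span {π}).IsMaximal := hp.isMaximal hbot
  have hc : (a - 1) ∉ Ideal.span {π} := fun h' => hnd (Ideal.mem_span_singleton.1 h')
  obtain ⟨y, z, hz, hyz⟩ := hm.exists_inv hc
  obtain ⟨w, rfl⟩ := Ideal.mem_span_singleton.1 hz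
  have hT' : act y T ∈ Tor act π := by
    rw [mem_Tor] at hT ⊢
    rw [← act_mul, mul_comm, act_mul, hT, map_zero]
  refine ⟨act y T, hT', ?_⟩
  rw [ha _ hT']
  have h1 : act (y * (a - 1) + π * w) T = T := by rw [hyz, act_one]
  rw [act_add, mul_comm π w, act_mul w, mem_Tor.1 hT, map_zero, add_zero, mul_comm y, act_mul,
    act_sub, act_one] at h1
  rw [← sub_eq_iff_eq_add.1 h1]

/-- Chunk OR2 (S/M). If an automorphism preserving w moves a point of Tor pi then all valuations at w are divisible by l. g T = log (w.valuation (m T)) modulo l is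
additive on Tor pi, and g (ac σ T) = g T. ac σ = act a on Tor pi (exists_chi), pi does not divide a - 1 (a point moves), so act (a - 1) is surjective on the finite group Tor pi
(injective: gi_gen): T = ac σ T' - T', g T = 0. -/
theorem ord_of_dec (hA : CMA F A B Om j act) (π : 𝓞 F) (hπ : Prime π) (l : ℕ) (hl : l ≠ 0) (L : IntermediateField F Ω) [NumberField L]
    (w : HeightOneSpectrum (𝓞 L)) (m : Pt (WAB A B) Ω → L) (hm : ∀ T ∈ Tor act π, m T ≠ 0)
    (hadd : ∀ T ∈ Tor act π, ∀ T' ∈ Tor act π, ∃ z : L, z ≠ 0 ∧ m (T + T') = m T * m T' * z ^ l)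
    (σ : Ω ≃ₐ[F] Ω) (hσ : ∀ x x' : L, (x' : Ω) = σ (x : Ω) → w.valuation L x' = w.valuation L x)
    (hact : ∀ T ∈ Tor act π, ∃ x' z : L, z ≠ 0 ∧ (x' : Ω) = σ (m T : Ω) ∧ x' = m (ac (WAB A B) σ T) * z ^ l)
    (hmv : ∃ T ∈ Tor act π, ac (WAB A B) σ T ≠ T) (T : Pt (WAB A B) Ω) (hT : T ∈ Tor act π) :
    ∃ k : ℤ, w.valuation L (m T) = WithZero.exp ((l : ℤ) * k) := by
  classical
  obtain ⟨χ, hχ, -⟩ := exists_chi hA π hπ
  obtain ⟨a, ha⟩ := Ideal.Quotient.mk_surjective (χ σ : 𝓞 F ⧸ Ideal.span {π})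
  obtain ⟨T', hT', hTT⟩ := or2_sur hπ σ a (fun T hT => hχ σ a ha T hT) hmv T hT
  have hne : ∀ x : L, x ≠ 0 → w.valuation L x ≠ 0 := fun x hx => by simpa using hx
  -- the logarithm
  have hlog : ∀ x y z : L, x ≠ 0 → y ≠ 0 → z ≠ 0 →
      WithZero.log (w.valuation L (x * y * z ^ l)) =
        WithZero.log (w.valuation L x) + WithZero.log (w.valuation L y)
          + (l : ℤ) * WithZero.log (w.valuation L z) := by
    intro x y z hx hy hz
    rw [map_mul, map_mul, map_pow, WithZero.log_mul (mul_ne_zero (hne x hx) (hne y hy)) (pow_ne_zero _ (hne z hz)),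
      WithZero.log_mul (hne x hx) (hne y hy), WithZero.log_pow, nsmul_eq_mul]
  have hlog2 : ∀ x z : L, x ≠ 0 → z ≠ 0 →
      WithZero.log (w.valuation L (x * z ^ l)) =
        WithZero.log (w.valuation L x) + (l : ℤ) * WithZero.log (w.valuation L z) := by
    intro x z hx hz
    have := hlog x 1 z hx one_ne_zero hz
    rw [mul_one, map_one, WithZero.log_one, add_zero] at this
    exact this
  obtain ⟨z1, hz1, h1⟩ := hadd T hT T' hT'
  obtain ⟨x', z2, hz2, hx', h2⟩ := hact T' hT'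
  have hsT' : ac (WAB A B) σ T' ∈ Tor act π := ac_mem hA σ hT'
  have e1 : WithZero.log (w.valuation L (m (ac (WAB A B) σ T'))) =
      WithZero.log (w.valuation L (m T)) + WithZero.log (w.valuation L (m T'))
          + (l : ℤ) * WithZero.log (w.valuation L z1) := by
    rw [← hTT, h1, hlog _ _ _ (hm T hT) (hm T' hT') hz1]
  have e2 : WithZero.log (w.valuation L (m T')) =
      WithZero.log (w.valuation L (m (ac (WAB A B) σ T'))) + (l : ℤ) * WithZero.log (w.valuation L z2) := by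
    rw [← hσ _ _ hx', h2, hlog2 _ _ (hm _ hsT') hz2]
  refine ⟨-(WithZero.log (w.valuation L z1) + WithZero.log (w.valuation L z2)), ?_⟩
  have e3 : (l : ℤ) * -(WithZero.log (w.valuation L z1) + WithZero.log (w.valuation L z2)) =
      WithZero.log (w.valuation L (m T)) := by
    linarith
  rw [e3, WithZero.exp_log (hne _ (hm T hT))]

end H55K.S
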