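import Mathlib
import Pool.Agent.Lib.H55K.G9
import Pool.Agent.Lib.H13S.FR

/-! # H55K: the prime is not anomalous -/

open NumberField IsDedekindDomain WeierstrassCurve

namespace H55K

open H55P (IQ embF eF LF Per IsHecke Pt ac Inert Dec Nm)
open H35P (WAB Ker tt)


variable {F : Type} [Field F] [NumberField F] [IQ F] {A B : F} {Om : ℂ} {Ω : Type} [Field Ω] [DecidableEq Ω]
  [Algebra F Ω] {j : Ω →+* ℂ} {act : 𝓞 F →+* AddMonoid.End (Pt (WAB A B) Ω)} {V : ValuationSubring Ω}

/-- Chunk Y4 (S/M). Suppose T is not in Ker V. H13S.exists_frob v V: s with Dec V s and the Frobenius congruence. red_card: the number of points of W₀ over k_v is the cardinality of {c : class modulo kerG hV fixed in the sense of red_card}, which is (the carrier of) an additive subgroup C of the quotient (X, Y with sX - X, sY - Y in Ker: closed under addition and negation). The class of T is in C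
(s T = T by hf) and has order p (p • T = 0, T not in Ker), so p divides Nat.card C (finite or infinite: Nat.card 0 is divisible by p as well; AddSubgroup / addOrderOf_dvd_natCard): contradiction. -/
theorem nan_of [IsAlgClosure F Ω] [IsAlgClosed Ω] (hV : GV A B V) (W₀ : WeierstrassCurve (𝓞 F))
    (hA : A = -(algebraMap (𝓞 F) F W₀.c₄) / 48) (hB : B = -(algebraMap (𝓞 F) F W₀.c₆) / 864)
    (v : HeightOneSpectrum (𝓞 F)) (hΔ : W₀.Δ ∉ v.asIdeal)
    (hv : ∀ a : 𝓞 F, a ∈ v.asIdeal → V.valuation (ak Ω a) < 1) {p : ℕ} (hp : p.Prime)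
    (hpts : ¬ p ∣ Nat.card (W₀⁄(𝓞 F ⧸ v.asIdeal)).toAffine.Point) {T : Pt (WAB A B) Ω} (hT : p • T = 0)
    (hf : ∀ s : Ω ≃ₐ[F] Ω, Dec V s → ac (WAB A B) s T = T) : Ker V T := by
  by_contra hK
  apply hpts
  obtain ⟨s, hs1, hs2⟩ := H13S.exists_frob v V hv
  rw [red_card hV W₀ hA hB v hΔ hv s hs2]
  let C : AddSubgroup (Pt (WAB A B) Ω ⧸ kerG hV) :=
    { carrier := {c | ∃ X : Pt (WAB A B) Ω, (X : Pt (WAB A B) Ω ⧸ kerG hV) = c ∧
        Ker V (ac (WAB A B) s X - X)}
      add_mem' := by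
        rintro _ _ ⟨X, rfl, hX⟩ ⟨Y, rfl, hY⟩
        refine ⟨X + Y, rfl, ?_⟩
        have e : ac (WAB A B) s (X + Y) - (X + Y) = (ac (WAB A B) s X - X) + (ac (WAB A B) s Y - Y) := by
          rw [map_add]
          abel
        rw [e]
        exact kadd hV hX hY
      zero_mem' := by
        refine ⟨0, rfl, ?_⟩
        rw [map_zero, sub_zero]
        trivial
      neg_mem' := by
        rintro _ ⟨X, rfl, hX⟩
        refine ⟨-X, rfl, ?_⟩
        have e : ac (WAB A B) s (-X) - (-X) = -(ac (WAB A B) s X - X) := by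
          rw [map_neg]
          abel
        rw [e]
        exact kneg hX }
  have hTC : (T : Pt (WAB A B) Ω ⧸ kerG hV) ∈ C := ⟨T, rfl, by
    rw [hf s hs1, sub_self]
    trivial⟩
  have hfact : Fact p.Prime := ⟨hp⟩
  have h1 : p • (⟨(T : Pt (WAB A B) Ω ⧸ kerG hV), hTC⟩ : C) = 0 := by
    apply Subtype.ext
    show p • (T : Pt (WAB A B) Ω ⧸ kerG hV) = 0
    rw [← QuotientAddGroup.mk_nsmul, hT]
    rfl
  have h2 : (⟨(T : Pt (WAB A B) Ω ⧸ kerG hV), hTC⟩ : C) ≠ 0 := by
    intro h0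
    apply hK
    have h3 : (T : Pt (WAB A B) Ω ⧸ kerG hV) = 0 := congrArg Subtype.val h0
    exact (QuotientAddGroup.eq_zero_iff T).1 h3
  have h3 := addOrderOf_eq_prime h1 h2
  have h4 := addOrderOf_dvd_natCard (⟨(T : Pt (WAB A B) Ω ⧸ kerG hV), hTC⟩ : C)
  rw [h3] at h4
  exact h4

end H55K
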